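import Pool.Agent.Work.Monodromy.Interface7W
import Pool.Agent.Work.Monodromy6.WB

/-!
# Phase 7, block AUT7 (helper6): automorphisms of the plane which fix the origin
-/

set_option autoImplicit false

namespace Pool.Agent.Mono.BG

open MvPolynomial TS PC RO

namespace AUT7Aux

open RO.WBAux

/-- the maximal ideal of the origin -/
noncomputable def I0 : Ideal P2 := Ideal.span {X 0, X 1}

theorem mem_I0 (f : P2) : f - C (eval 0 f) ∈ I0 := by
  induction f using MvPolynomial.induction_on with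
  | C c => simp
  | add p q hp hq =>
    have : p + q - C (eval 0 (p + q)) = (p - C (eval 0 p)) + (q - C (eval 0 q)) := by
      rw [map_add, C_add]
      ring
    rw [this]
    exact I0.add_mem hp hq
  | mul_X p i _ =>
    have h0 : eval (0 : Fin 2 → ℂ) (p * X i) = 0 := by
      rw [map_mul, eval_X, Pi.zero_apply, mul_zero]
    rw [h0, C_0, sub_zero]
    refine I0.mul_mem_left p (Ideal.subset_span ?_)
    fin_cases i
    · exact Set.mem_insert _ _
    · exact Set.mem_insert_of_mem _ rfl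

theorem mem_I0' (f : P2) (h : eval 0 f = 0) : f ∈ I0 := by
  have := mem_I0 f
  rwa [h, C_0, sub_zero] at this

theorem vanish (l : P2 →ₗ[ℂ] ℂ) (K : ℕ)
    (hl : ∀ a b : ℕ, K ≤ a + b → ∀ ψ, l (X 0 ^ a * X 1 ^ b * ψ) = 0) (n : ℕ) :
    ∀ (a b : ℕ), K ≤ a + b + n → ∀ f ∈ I0 ^ n, l (X 0 ^ a * X 1 ^ b * f) = 0 := by
  induction n with
  | zero =>
    intro a b hab f _
    exact hl a b (by omega) f
  | succ n ih =>
    intro a b hab f hf
    rw [pow_succ'] at hf
    refine Submodule.mul_induction_on hf ?_ ?_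
    · intro g hg h hh
      obtain ⟨u, v, rfl⟩ := Ideal.mem_span_pair.1 hg
      have e : X 0 ^ a * X 1 ^ b * ((u * X 0 + v * X 1) * h) =
          X 0 ^ (a + 1) * X 1 ^ b * (u * h) + X 0 ^ a * X 1 ^ (b + 1) * (v * h) := by ring
      rw [e, map_add, ih (a + 1) b (by omega) _ (Ideal.mul_mem_left _ u hh),
        ih a (b + 1) (by omega) _ (Ideal.mul_mem_left _ v hh), add_zero]
    · intro x y hx hy
      rw [mul_add, map_add, hx, hy, add_zero]

/-- the Jacobian of an automorphism is a constant -/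
theorem det_const (α : P2 ≃ₐ[ℂ] P2) :
    ∃ δ : ℂ, δ ≠ 0 ∧ (jac fun i => α (X i)).det = C δ := by
  have h0 : ∀ g : P2, bind₁ (fun i => α (X i)) g = α g := by
    intro g
    have : (bind₁ fun i => α (X i)) = (α : P2 →ₐ[ℂ] P2) := by
      apply MvPolynomial.algHom_ext
      intro i
      rw [bind₁_X_right]
      rfl
    rw [this]
    rfl
  have h1 : (jac fun i => α.symm (X i)).map (bind₁ fun i => α (X i)) *
      (jac fun i => α (X i)) = 1 := by
    ext1 i b
    rw [Matrix.mul_apply]
    have h2 := chain (fun i => α (X i)) (α.symm (X i)) b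
    rw [h0, AlgEquiv.apply_symm_apply] at h2
    change ∑ j, bind₁ (fun i => α (X i)) (pderiv j (α.symm (X i))) * pderiv b (α (X j)) = _
    rw [← h2, Matrix.one_apply]
    by_cases hib : i = b
    · subst hib
      rw [pderiv_X_self, if_pos rfl]
    · rw [pderiv_X_of_ne hib, if_neg hib]
  have h3 : IsUnit (jac fun i => α (X i)).det := by
    have h4 := congrArg Matrix.det h1
    rw [Matrix.det_mul, Matrix.det_one] at h4
    exact IsUnit.of_mul_eq_one_right _ h4
  rw [MvPolynomial.isUnit_iff_eq_C_of_isReduced] at h3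
  obtain ⟨r, hr, hr'⟩ := h3
  exact ⟨r, hr.ne_zero, hr'⟩

end AUT7Aux

open AUT7Aux RO.WBAux

theorem stmt_AUT7 : Stmt_AUT7 := by
  rintro α G r hα ⟨ga, z, hga, hz, l, hl, i₀, hi₀⟩
  obtain ⟨δ, hδ, hdet⟩ := det_const α
  have h0 : ∀ g : P2, bind₁ (fun i => α (X i)) g = α g := by
    intro g
    have : (bind₁ fun i => α (X i)) = (α : P2 →ₐ[ℂ] P2) := by
      apply MvPolynomial.algHom_ext
      intro i
      rw [bind₁_X_right]
      rfl
    rw [this]
    rfl
  have hJ : (jac fun i => α (X i)).det ≠ 0 := by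
    rw [hdet]
    intro h
    rw [C_eq_zero] at h
    exact hδ h
  have hp : ∀ a, ∑ b, pderiv b ((jac fun i => α (X i)).adjugate b a) = 0 :=
    piola _ hJ
  have hd : ∀ (g : P2) (a : Fin 2), C δ * α (pderiv a g) =
      ∑ b, pderiv b (α g) * (jac fun i => α (X i)).adjugate b a := by
    intro g a
    have := det_bind (fun i => α (X i)) g a
    rwa [hdet, h0, h0] at this
  -- the rule
  have key : ∀ (a : Fin 2) (l1 l0 : P2 →ₗ[ℂ] ℂ),
      (∀ b ψ, l1 (pderiv b (α G) * ψ) = -l0 (pderiv b ψ)) →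
      ∀ ψ, l1 (α (pderiv a G * ψ)) = -l0 (α (pderiv a ψ)) := by
    intro a l1 l0 h ψ
    have e1 : δ * l1 (α (pderiv a G * ψ)) = δ * -l0 (α (pderiv a ψ)) := by
      have e2 : ∀ (m : P2 →ₗ[ℂ] ℂ) (x : P2), δ * m x = m (C δ * x) := by
        intro m x
        rw [← smul_eq_mul, ← map_smul, MvPolynomial.smul_eq_C_mul]
      rw [mul_neg, e2, e2, hd ψ a, map_mul α, ← mul_assoc, hd G a, Finset.sum_mul, map_sum,
        map_sum, ← Finset.sum_neg_distrib]
      have e3 : ∀ b, l1 (pderiv b (α G) * (jac fun i => α (X i)).adjugate b a * α ψ) =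
          -l0 (pderiv b (α ψ) * (jac fun i => α (X i)).adjugate b a) -
            l0 (pderiv b ((jac fun i => α (X i)).adjugate b a) * α ψ) := by
        intro b
        rw [mul_assoc, h, Derivation.leibniz, map_add]
        simp only [smul_eq_mul]
        rw [mul_comm (pderiv b (α ψ)), mul_comm (pderiv b ((jac fun i => α (X i)).adjugate b a))]
        ring
      rw [Finset.sum_congr rfl fun b _ => e3 b, Finset.sum_sub_distrib, ← map_sum,
        ← Finset.sum_mul, hp a, zero_mul, map_zero, sub_zero]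
    exact mul_left_cancel₀ hδ e1
  refine ⟨ga, z, hga, hz, fun i => (l i).comp (α : P2 →ₐ[ℂ] P2).toLinearMap, ?_, ?_⟩
  · refine ⟨?_, ?_, ?_, ?_, ?_⟩
    · intro i
      obtain ⟨K, hK⟩ := hl.supp i
      refine ⟨K, fun a b hab ψ => ?_⟩
      change l i (α (X 0 ^ a * X 1 ^ b * ψ)) = 0
      have h1 : α (X 0 ^ a * X 1 ^ b * ψ) ∈ I0 ^ (a + b) := by
        rw [map_mul, map_mul, map_pow, map_pow, pow_add]
        exact Ideal.mul_mem_right _ _ (Ideal.mul_mem_mul
          (Ideal.pow_mem_pow (mem_I0' _ (hα 0)) a) (Ideal.pow_mem_pow (mem_I0' _ (hα 1)) b))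
      have h2 := vanish (l i) K hK (a + b) 0 0 (by omega) _ h1
      rwa [pow_zero, pow_zero, one_mul, one_mul] at h2
    · intro i ψ
      change l (i + 1) (α (G * ψ)) = (ga - i) * l i (α ψ)
      rw [map_mul]
      exact hl.mulG i _
    · intro ψ
      change l 0 (α (G * ψ)) = 0
      rw [map_mul]
      exact hl.mul0 _
    · refine ⟨fun h => absurd h (by decide), fun _ => ⟨fun i ψ => ?_, fun ψ => ?_⟩⟩
      · refine key 0 (l (i + 1)) (l i) (fun b ψ => ?_) ψ
        fin_cases b
        · exact ((hl.ax0.2 rfl).1 i ψ)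
        · exact ((hl.ax1.2 rfl).1 i ψ)
      · have h3 := key 0 (l 0) 0 (fun b ψ => ?_) ψ
        · rw [LinearMap.zero_apply, neg_zero] at h3
          exact h3
        · rw [LinearMap.zero_apply, neg_zero]
          fin_cases b
          · exact ((hl.ax0.2 rfl).2 ψ)
          · exact ((hl.ax1.2 rfl).2 ψ)
    · refine ⟨fun h => absurd h (by decide), fun _ => ⟨fun i ψ => ?_, fun ψ => ?_⟩⟩
      · refine key 1 (l (i + 1)) (l i) (fun b ψ => ?_) ψ
        fin_cases b
        · exact ((hl.ax0.2 rfl).1 i ψ)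
        · exact ((hl.ax1.2 rfl).1 i ψ)
      · have h3 := key 1 (l 0) 0 (fun b ψ => ?_) ψ
        · rw [LinearMap.zero_apply, neg_zero] at h3
          exact h3
        · rw [LinearMap.zero_apply, neg_zero]
          fin_cases b
          · exact ((hl.ax0.2 rfl).2 ψ)
          · exact ((hl.ax1.2 rfl).2 ψ)
  · refine ⟨i₀, fun h => hi₀ ?_⟩
    refine LinearMap.ext fun ψ => ?_
    have h4 := LinearMap.congr_fun h (α.symm ψ)
    change l i₀ (α (α.symm ψ)) = 0 at h4
    rw [AlgEquiv.apply_symm_apply] at h4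
    exact h4

end Pool.Agent.Mono.BG
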