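import Pool.Agent.Work.Monodromy.Interface7W

/-!
# Block AV7 (phase 7): availability of the forms `h(Y) Y^K / ∏ (Y - P)^m`
-/

set_option autoImplicit false

namespace Pool.Agent.Mono.BG

open MvPolynomial TS PC RO

namespace AV7Aux

variable {MM : Type} [CommRing MM] [Algebra ℂ MM]

theorem tor_X0 (p q p' q' : ℕ) (Y : MM) :
    torR p q p' q' Y (X 0) = PowerSeries.C (Y ^ p') * PowerSeries.X ^ p := by
  unfold torR
  rw [aeval_X]
  rfl

theorem tor_X1 (p q p' q' : ℕ) (Y : MM) :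
    torR p q p' q' Y (X 1) = PowerSeries.C (Y ^ q') * PowerSeries.X ^ q := by
  unfold torR
  rw [aeval_X]
  rfl

theorem tor_mono (p q p' q' : ℕ) (Y : MM) (a b : ℕ) :
    torR p q p' q' Y (X 0 ^ a * X 1 ^ b) =
      PowerSeries.X ^ (p * a + q * b) * PowerSeries.C (Y ^ (p' * a + q' * b)) := by
  rw [map_mul, map_pow, map_pow, tor_X0, tor_X1, mul_pow, mul_pow, ← map_pow, ← map_pow,
    ← pow_mul, ← pow_mul, ← pow_mul, ← pow_mul, pow_add, pow_add, map_mul]
  ring

theorem psC (c : ℂ) : algebraMap ℂ (PowerSeries MM) c = PowerSeries.C (algebraMap ℂ MM c) := by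
  rw [IsScalarTower.algebraMap_apply ℂ MM (PowerSeries MM)]
  rfl

theorem tor_C (p q p' q' : ℕ) (Y : MM) (c : ℂ) :
    torR p q p' q' Y (C c) = PowerSeries.C (algebraMap ℂ MM c) := by
  rw [← psC]
  exact (torR p q p' q' Y).commutes c

/-- leading form of an element with a monomial leading part -/
theorem tor_lead (hT : Stmt_TOR7) (p q p' q' : ℕ) (Y : MM) (F : P2) (c : ℂ) (a b : ℕ)
    (h : Above p q (p * a + q * b) (F - C c * X 0 ^ a * X 1 ^ b)) :
    ∃ φ : PowerSeries MM, torR p q p' q' Y F = PowerSeries.X ^ (p * a + q * b) * φ ∧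
      PowerSeries.constantCoeff φ = algebraMap ℂ MM c * Y ^ (p' * a + q' * b) := by
  obtain ⟨F', hF'⟩ := hT.1 MM Y p q p' q' _ _ h
  refine ⟨PowerSeries.C (algebraMap ℂ MM c * Y ^ (p' * a + q' * b)) + PowerSeries.X * F', ?_, ?_⟩
  · have h1 : F = C c * (X 0 ^ a * X 1 ^ b) + (F - C c * X 0 ^ a * X 1 ^ b) := by ring
    rw [h1, map_add, hF', map_mul, tor_mono, tor_C, map_mul, pow_succ]
    ring
  · rw [map_add, PowerSeries.constantCoeff_C, map_mul, PowerSeries.constantCoeff_X, zero_mul,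
      add_zero]

/-- all polynomials of degree at most `m'` are leading forms -/
theorem lead (hLF : Stmt_LF7) (hT : Stmt_TOR7) {M H e : ℕ} {Φ : Polynomial ℂ}
    (hc : Chart M H e Φ) (p q p' q' : ℕ) (hp : 1 ≤ p) (hq : 1 ≤ q) (hpq : p * q' = p' * q + 1)
    (hcop : p.Coprime q) (Y : MM) (m' : ℕ) (g : Polynomial ℂ) (hg : g.natDegree ≤ m') :
    ∃ (ψ : P2) (φ : PowerSeries MM),
      torR p q p' q' Y (chartMap M H Φ ψ) = PowerSeries.X ^ (p * (p * e + q) * m') * φ ∧
      PowerSeries.constantCoeff φ = Y ^ (p' * (p * e + q) * m') * Polynomial.aeval Y g := by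
  have h1 : ∀ a : ℕ, ∃ (ψ : P2) (φ : PowerSeries MM), a ≤ m' →
      (torR p q p' q' Y (chartMap M H Φ ψ) = PowerSeries.X ^ (p * (p * e + q) * m') * φ ∧
      PowerSeries.constantCoeff φ = Y ^ (p' * (p * e + q) * m' + a)) := by
    intro a
    by_cases ha : a ≤ m'
    · obtain ⟨ψ, c, hc0, hab⟩ := hLF M H e Φ hc p q hp hq hcop m' a ha
      have hqa : q * a ≤ (p * e + q) * m' := by
        have h2 : q * a ≤ q * m' := Nat.mul_le_mul_left q ha
        have h3 : q * m' ≤ (p * e + q) * m' := Nat.mul_le_mul_right m' (by omega)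
        omega
      obtain ⟨l, hl⟩ := Nat.exists_eq_add_of_le hqa
      have hsub : (p * e + q) * m' - q * a = l := by omega
      rw [hsub] at hab
      have hw : p * (p * e + q) * m' = p * l + q * (p * a) := by
        rw [mul_assoc, hl]
        ring
      have hw' : p' * (p * e + q) * m' + a = p' * l + q' * (p * a) := by
        have h4 : q' * (p * a) = (p' * q + 1) * a := by
          rw [← hpq]
          ring
        rw [mul_assoc, hl, h4]
        ring
      rw [hw] at hab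
      obtain ⟨φ, hφ, hφ0⟩ := tor_lead (MM := MM) hT p q p' q' Y _ c l (p * a) hab
      refine ⟨C c⁻¹ * ψ, PowerSeries.C (algebraMap ℂ MM c⁻¹) * φ, fun _ => ⟨?_, ?_⟩⟩
      · have h5 : chartMap M H Φ (C c⁻¹) = C c⁻¹ := (chartMap M H Φ).commutes _
        rw [map_mul, map_mul, h5, tor_C, hφ, hw]
        ring
      · rw [map_mul, PowerSeries.constantCoeff_C, hφ0, hw', ← mul_assoc, ← map_mul,
          inv_mul_cancel₀ hc0, map_one, one_mul]
    · exact ⟨0, 0, fun h => absurd h ha⟩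
  choose ψ φ hψ using h1
  refine ⟨∑ a ∈ Finset.range (m' + 1), C (g.coeff a) * ψ a,
    ∑ a ∈ Finset.range (m' + 1), PowerSeries.C (algebraMap ℂ MM (g.coeff a)) * φ a, ?_, ?_⟩
  · rw [map_sum, map_sum, Finset.mul_sum]
    refine Finset.sum_congr rfl fun a ha => ?_
    have h5 : chartMap M H Φ (C (g.coeff a)) = C (g.coeff a) := (chartMap M H Φ).commutes _
    rw [map_mul, map_mul, h5, tor_C, (hψ a (Nat.lt_succ_iff.1 (Finset.mem_range.1 ha))).1]
    ring
  · rw [map_sum, Polynomial.aeval_eq_sum_range' (Nat.lt_succ_of_le hg), Finset.mul_sum]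
    refine Finset.sum_congr rfl fun a ha => ?_
    rw [map_mul, PowerSeries.constantCoeff_C,
      (hψ a (Nat.lt_succ_iff.1 (Finset.mem_range.1 ha))).2, Algebra.smul_def, pow_add]
    ring

theorem coprime_of {p q p' q' : ℕ} (hpq : p * q' = p' * q + 1) : p.Coprime q := by
  have h1 : p.gcd q ∣ p * q' := Dvd.dvd.mul_right (Nat.gcd_dvd_left p q) q'
  have h2 : p.gcd q ∣ p' * q := Dvd.dvd.mul_left (Nat.gcd_dvd_right p q) p'
  rw [hpq] at h1
  exact Nat.dvd_one.1 ((Nat.dvd_add_right h2).1 h1)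

theorem sum_mult (I : Polynomial ℂ) :
    ∑ P ∈ I.roots.toFinset, I.rootMultiplicity P = I.natDegree := by
  have h1 : I.roots.card = I.natDegree :=
    ((Polynomial.splits_iff_card_roots).1 (IsAlgClosed.splits I))
  rw [← h1, ← Multiset.toFinset_sum_count_eq I.roots]
  exact Finset.sum_congr rfl fun P _ => (Polynomial.count_roots I).symm

theorem mult_pos {I : Polynomial ℂ} {P : ℂ} (h : P ∈ I.roots.toFinset) :
    1 ≤ I.rootMultiplicity P := by
  rw [← Polynomial.count_roots]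
  exact Multiset.one_le_count_iff_mem.2 (Multiset.mem_toFinset.1 h)

/-- the bound for `t` -/
theorem t_bound (p q aL bR d e m' n C t : ℤ) (hp : 1 ≤ p) (hq : 1 ≤ q) (haL : 0 ≤ aL)
    (hbR : 0 ≤ bR) (hd : 1 ≤ d) (hm' : 0 ≤ m') (hn : 0 ≤ n) (hC : 0 ≤ C)
    (he : e * (bR + p * d) ≤ aL)
    (ht : (p * aL + q * (bR + p * d)) * t = C + p * (p * e + q) * m' - n) :
    t * (bR + p * d) ≤ p * m' + C := by
  set N := p * aL + q * (bR + p * d) with hN
  have hB : 1 ≤ bR + p * d := by nlinarith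
  have hN1 : bR + p * d ≤ N := by nlinarith
  have hN2 : (p * e + q) * (bR + p * d) ≤ N := by nlinarith
  have hN0 : 0 < N := by omega
  have h1 : N * (t * (bR + p * d)) ≤ N * (p * m' + C) := by
    have h2 : N * (t * (bR + p * d)) =
        C * (bR + p * d) + (p * m') * ((p * e + q) * (bR + p * d)) - n * (bR + p * d) := by
      linear_combination (bR + p * d) * ht
    have h3 : C * (bR + p * d) ≤ C * N := mul_le_mul_of_nonneg_left hN1 hC
    have h4 : (p * m') * ((p * e + q) * (bR + p * d)) ≤ (p * m') * N :=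
      mul_le_mul_of_nonneg_left hN2 (by positivity)
    have h5 : 0 ≤ n * (bR + p * d) := by positivity
    rw [h2]
    linarith
  exact le_of_mul_le_mul_left h1 hN0

/-- the numbers -/
theorem num (p q p' q' aL bR d e M i j k k' n K u m : ℕ) (c₀ : ℤ) (hp : 1 ≤ p) (hq : 1 ≤ q)
    (hd : 1 ≤ d) (hpq : p * q' = p' * q + 1) (he : e * (bR + p * d) ≤ aL)
    (hc₀ : (p * M * k + (p * i + q * j) * k' : ℤ) - n =
      (p * aL + q * (bR + p * d) : ℤ) * c₀)
    (hKu : (p' * i + q' * j) * k' + p' * n + u ≤ K) :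
    ∃ t m' w : ℕ, m ≤ t ∧
      p * M * k + (p * i + q * j) * k' + p * (p * e + q) * m' =
        n + (p * aL + q * (bR + p * d)) * t ∧
      (p' * M * k + (p' * i + q' * j) * k' + p' * (p * e + q) * m') + u + w =
        (p' * (aL + q * d) + q' * bR) * t + K ∧
      ∀ D s x : ℕ, D + K + (p * M * k + (p * i + q * j) * k') ≤ m * s → x + m * s = d * t →
        D + w + x ≤ m' := by
  obtain ⟨N, hN⟩ : ∃ N, N = p * aL + q * (bR + p * d) := ⟨_, rfl⟩
  obtain ⟨nb, hnb⟩ : ∃ nb, nb = p * i + q * j := ⟨_, rfl⟩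
  obtain ⟨c₁, hc₁⟩ : ∃ c₁, c₁ = p' * i + q' * j := ⟨_, rfl⟩
  obtain ⟨γ₀, hγ₀⟩ : ∃ γ₀, γ₀ = p' * (aL + q * d) + q' * bR := ⟨_, rfl⟩
  have hNZ : (N : ℤ) = p * aL + q * (bR + p * d) := by exact_mod_cast hN
  have hnbZ : (nb : ℤ) = p * i + q * j := by exact_mod_cast hnb
  rw [← hNZ, ← hnbZ] at hc₀
  rw [← hc₁] at hKu
  rw [← hN, ← hnb, ← hc₁, ← hγ₀]
  obtain ⟨r, hr⟩ : ∃ r, r = p * (p * e + q) := ⟨_, rfl⟩
  have hpe : 1 ≤ r := by
    have h1 : 1 ≤ p * e + q := by omega
    rw [hr]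
    exact le_trans (by norm_num) (Nat.mul_le_mul hp h1)
  obtain ⟨y, hy⟩ : ∃ y, y = m + c₀.natAbs := ⟨_, rfl⟩
  have h2 : (1 : ℤ) ≤ r := by exact_mod_cast hpe
  have h4 : (1 : ℤ) * y ≤ r * y := mul_le_mul_of_nonneg_right h2 (Int.natCast_nonneg y)
  have h5 : -(y : ℤ) + m ≤ c₀ := by omega
  obtain ⟨t, ht⟩ : ∃ t : ℕ, (t : ℤ) = c₀ + r * y := by
    have h1 : (0 : ℤ) ≤ c₀ + r * y := by
      have := Int.natCast_nonneg m
      linarith
    exact ⟨_, Int.toNat_of_nonneg h1⟩
  have htm : m ≤ t := by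
    have h6 : (m : ℤ) ≤ t := by
      rw [ht]
      linarith
    exact_mod_cast h6
  obtain ⟨m', hm'⟩ : ∃ m', m' = N * y := ⟨_, rfl⟩
  have hrZ : (r : ℤ) = p * (p * e + q) := by exact_mod_cast hr
  have hm'Z : (m' : ℤ) = N * y := by exact_mod_cast hm'
  have hord : (N : ℤ) * t = (p * M * k + nb * k' : ℤ) + p * (p * e + q) * m' - n := by
    rw [ht, hm'Z, ← hrZ]
    linear_combination -hc₀
  have hordN : p * M * k + nb * k' + p * (p * e + q) * m' = n + N * t := by
    have h1 : ((p * M * k + nb * k' + p * (p * e + q) * m' : ℕ) : ℤ) = ((n + N * t : ℕ) : ℤ) := by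
      push_cast
      linear_combination -hord
    exact_mod_cast h1
  have hpqZ : (p : ℤ) * q' = p' * q + 1 := by exact_mod_cast hpq
  have hγZ : (γ₀ : ℤ) = p' * (aL + q * d) + q' * bR := by exact_mod_cast hγ₀
  have hcZ : (c₁ : ℤ) = p' * i + q' * j := by exact_mod_cast hc₁
  have hpγ : (p : ℤ) * γ₀ = p' * N + bR := by
    rw [hγZ, hNZ]
    linear_combination (bR : ℤ) * hpqZ
  have hpc : (p : ℤ) * c₁ = p' * nb + j := by
    rw [hcZ, hnbZ]
    linear_combination (j : ℤ) * hpqZ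
  have hpw : (p : ℤ) * (K + γ₀ * t - (p' * M * k + c₁ * k' + p' * (p * e + q) * m') - u) =
      p * K + bR * t - p' * n - j * k' - p * u := by
    linear_combination (t : ℤ) * hpγ - (k' : ℤ) * hpc + (p' : ℤ) * hord
  have hp1 : (1 : ℤ) ≤ p := by exact_mod_cast hp
  have hpn : (p' : ℤ) * n ≤ p * (p' * n) := by
    have := mul_nonneg (Int.natCast_nonneg p') (Int.natCast_nonneg n)
    exact le_mul_of_one_le_left this hp1
  have hpw0 : (0 : ℤ) ≤ p * K + bR * t - p' * n - j * k' - p * u := by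
    have h1 : (p : ℤ) * (c₁ * k' + p' * n + u) ≤ p * K :=
      mul_le_mul_of_nonneg_left (by exact_mod_cast hKu) (Int.natCast_nonneg p)
    have h3 : (0 : ℤ) ≤ bR * t := by positivity
    have h4 : (0 : ℤ) ≤ p' * nb * k' := by positivity
    have h6 : (p : ℤ) * (c₁ * k' + p' * n + u) = p' * nb * k' + j * k' + p * (p' * n) + p * u := by
      linear_combination (k' : ℤ) * hpc
    linarith
  obtain ⟨w, hw⟩ : ∃ w : ℕ,
      (w : ℤ) = K + γ₀ * t - (p' * M * k + c₁ * k' + p' * (p * e + q) * m') - u := by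
    have h1 : (0 : ℤ) ≤ K + γ₀ * t - (p' * M * k + c₁ * k' + p' * (p * e + q) * m') - u := by
      rw [← hpw] at hpw0
      exact nonneg_of_mul_nonneg_right hpw0 (by linarith)
    exact ⟨_, Int.toNat_of_nonneg h1⟩
  have hwN : (p' * M * k + c₁ * k' + p' * (p * e + q) * m') + u + w = γ₀ * t + K := by
    have h1 : ((p' * M * k + c₁ * k' + p' * (p * e + q) * m' + u + w : ℕ) : ℤ) =
        ((γ₀ * t + K : ℕ) : ℤ) := by
      push_cast
      linear_combination hw
    exact_mod_cast h1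
  refine ⟨t, m', w, htm, hordN, hwN, fun D s x hD hx => ?_⟩
  have h3 : (t : ℤ) * (bR + p * d) ≤ p * m' + (p * M * k + nb * k') := by
    refine t_bound p q aL bR d e m' n (p * M * k + nb * k') t hp1 (by exact_mod_cast hq)
      (Int.natCast_nonneg _) (Int.natCast_nonneg _) (by exact_mod_cast hd)
      (Int.natCast_nonneg _) (Int.natCast_nonneg _) (by positivity) (by exact_mod_cast he) ?_
    rw [← hNZ]
    exact hord
  have h5 : (p : ℤ) * (D + K + (p * M * k + nb * k')) ≤ p * (m * s) :=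
    mul_le_mul_of_nonneg_left (by exact_mod_cast hD) (Int.natCast_nonneg p)
  have h6 : (0 : ℤ) ≤ p' * n := by positivity
  have h7 : (0 : ℤ) ≤ j * k' := by positivity
  have h8 : (0 : ℤ) ≤ p * u := by positivity
  have h9 : (p * M * k + nb * k' : ℤ) ≤ p * (p * M * k + nb * k') :=
    le_mul_of_one_le_left (by positivity) hp1
  have hxZ : (x : ℤ) + m * s = d * t := by exact_mod_cast hx
  have h12 : (p : ℤ) * w = p * K + bR * t - p' * n - j * k' - p * u := by
    rw [hw]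
    exact hpw
  have h13 : (p : ℤ) * (D + w + x) =
      p * (D + K + (p * M * k + nb * k')) - p * (m * s) +
      (t * (bR + p * d)) - p * (p * M * k + nb * k') - p' * n - j * k' - p * u := by
    linear_combination h12 + (p : ℤ) * hxZ
  have h14 : (p : ℤ) * (D + w + x) ≤ p * m' := by
    rw [h13]
    linarith
  have h16 := le_of_mul_le_mul_left h14 (by linarith)
  exact_mod_cast h16

theorem chart_M {M H e : ℕ} {Φ : Polynomial ℂ} (hc : Chart M H e Φ) : 1 ≤ M := by
  induction hc with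
  | base => exact le_refl _
  | step hc p q hp hq hpq lam hl Θ ih => exact Nat.mul_pos hp ih

end AV7Aux

open AV7Aux in
theorem stmt_AV7 (hLF : Stmt_LF7) (hT : Stmt_TOR7) : Stmt_AV7 := by
  intro MM _ _ Y Yi Q M H e Φ p q p' q' aL bR I i j k k' n K cb hc hp hq hpq hI0 hd he hY hQ hcb
    hdvd hK
  have hcop := coprime_of hpq
  have hI : I ≠ 0 := by
    intro h
    rw [h] at hI0
    simp at hI0
  have hq'1 : 1 ≤ q' := by
    rcases Nat.eq_zero_or_pos q' with h | h
    · rw [h] at hpq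
      omega
    · exact h
  have hM1 : 1 ≤ M := chart_M hc
  obtain ⟨u, hu⟩ : ∃ u, p' * (M + H) + q' = u + 1 := ⟨p' * (M + H) + q' - 1, by omega⟩
  have hu' : p' * (M + H) + q' - 1 = u := by omega
  rw [hu']
  have hKu : (p' * i + q' * j) * k' + p' * n + u ≤ K := by omega
  refine ⟨p * M * k + (p * i + q * j) * k', fun m h hdeg => ?_⟩
  obtain ⟨c₀, hc₀⟩ := hdvd
  obtain ⟨t, m', w, htm, hordN, hwN, hfin⟩ := num p q p' q' aL bR I.natDegree e M i j k k' n K u m
    c₀ hp hq hd hpq he (by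
      rw [hc₀]
      unfold edgeN
      push_cast
      ring) hKu
  have hsum : ∑ P ∈ I.roots.toFinset, (I.rootMultiplicity P * t - m) +
      m * I.roots.toFinset.card = I.natDegree * t := by
    have h1 : ∑ P ∈ I.roots.toFinset, (I.rootMultiplicity P * t - m) +
        ∑ P ∈ I.roots.toFinset, m = ∑ P ∈ I.roots.toFinset, I.rootMultiplicity P * t := by
      rw [← Finset.sum_add_distrib]
      exact Finset.sum_congr rfl fun P hP => Nat.sub_add_cancel
        (le_trans htm (Nat.le_mul_of_pos_left _ (mult_pos hP)))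
    rw [Finset.sum_const, smul_eq_mul, ← Finset.sum_mul, sum_mult] at h1
    rw [mul_comm m]
    exact h1
  have hdegg := hfin _ _ _ hdeg hsum
  -- the polynomial
  have hlc : I.leadingCoeff ≠ 0 := Polynomial.leadingCoeff_ne_zero.2 hI
  obtain ⟨κ, hκ⟩ : ∃ κ : ℂ, κ * cb ^ k' * M * I.leadingCoeff⁻¹ ^ t = 1 := by
    have hM0 : (M : ℂ) ≠ 0 := by
      have : M ≠ 0 := by omega
      exact_mod_cast this
    have hcb0 : cb ^ k' ≠ 0 := by
      by_cases hk : k' = 0
      · rw [hk, pow_zero]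
        exact one_ne_zero
      · exact pow_ne_zero _ (hcb hk).1
    refine ⟨(cb ^ k' * M * I.leadingCoeff⁻¹ ^ t)⁻¹, ?_⟩
    rw [mul_assoc, mul_assoc, ← mul_assoc (cb ^ k')]
    exact inv_mul_cancel₀ (mul_ne_zero (mul_ne_zero hcb0 hM0) (pow_ne_zero _ (inv_ne_zero hlc)))
  obtain ⟨g, hg⟩ : ∃ g : Polynomial ℂ, g = Polynomial.C κ * (h * Polynomial.X ^ w *
    ∏ P ∈ I.roots.toFinset, (Polynomial.X - Polynomial.C P) ^ (I.rootMultiplicity P * t - m)) :=
    ⟨_, rfl⟩
  have hgdeg : g.natDegree ≤ m' := by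
    refine le_trans ?_ hdegg
    rw [hg]
    refine (Polynomial.natDegree_C_mul_le _ _).trans (Polynomial.natDegree_mul_le.trans ?_)
    refine add_le_add (Polynomial.natDegree_mul_le.trans ?_) ?_
    · rw [Polynomial.natDegree_X_pow]
    · refine (Polynomial.natDegree_prod_le _ _).trans (Finset.sum_le_sum fun P _ => ?_)
      rw [Polynomial.natDegree_pow, Polynomial.natDegree_X_sub_C, mul_one]
  obtain ⟨ψ, φ, hψ, hφ⟩ := lead hLF hT hc p q p' q' hp hq hpq hcop Y m' g hgdeg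
  -- the factor `b ^ k'`
  obtain ⟨β, hβ, hβ0⟩ : ∃ β : PowerSeries MM,
      torR p q p' q' Y (chartMap M H Φ (X 1 ^ k')) =
        PowerSeries.X ^ ((p * i + q * j) * k') * β ∧
      PowerSeries.constantCoeff β =
        algebraMap ℂ MM (cb ^ k') * Y ^ ((p' * i + q' * j) * k') := by
    by_cases hk : k' = 0
    · refine ⟨1, ?_, ?_⟩
      · simp [hk]
      · simp [hk]
    · obtain ⟨β, hβ, hβ0⟩ := tor_lead (MM := MM) hT p q p' q' Y _ cb i j (hcb hk).2
      refine ⟨β ^ k', ?_, ?_⟩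
      · rw [map_pow, map_pow, hβ, mul_pow, ← pow_mul]
      · rw [map_pow, hβ0, mul_pow, map_pow, ← pow_mul]
  have hα : torR p q p' q' Y (chartMap M H Φ (X 0 ^ k)) =
      PowerSeries.X ^ (p * M * k) * PowerSeries.C (Y ^ (p' * M * k)) := by
    have h1 : chartMap M H Φ (X 0) = X 0 ^ M := by
      unfold chartMap
      rw [aeval_X]
      rfl
    rw [map_pow, h1, ← pow_mul, map_pow, tor_X0, mul_pow, ← map_pow, ← pow_mul, ← pow_mul,
      ← mul_assoc, ← mul_assoc, mul_comm]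
  refine ⟨t, X 0 ^ k * X 1 ^ k' * ψ, PowerSeries.C (Y ^ (p' * M * k)) * β * φ, ?_, ?_⟩
  · have h1 : n + edgeN p q aL bR I * t =
        p * M * k + (p * i + q * j) * k' + p * (p * e + q) * m' := by
      rw [hordN]
      rfl
    rw [map_mul, map_mul, map_mul, map_mul, hα, hβ, hψ, h1, pow_add, pow_add]
    ring
  · clear hfin hdegg hordN hc₀ hψ hβ hα
    obtain ⟨γ₀, hγ₀⟩ : ∃ γ₀, γ₀ = p' * (aL + q * I.natDegree) + q' * bR := ⟨_, rfl⟩
    have hYY : Y ^ (γ₀ * t) * Yi ^ (γ₀ * t) = 1 := by rw [← mul_pow, hY, one_pow]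
    have hQQ : (∏ P ∈ I.roots.toFinset,
        (Y - algebraMap ℂ MM P) ^ (I.rootMultiplicity P * t - m)) *
        (∏ P ∈ I.roots.toFinset, Q P ^ I.rootMultiplicity P) ^ t =
          ∏ P ∈ I.roots.toFinset, Q P ^ m := by
      rw [← Finset.prod_pow, ← Finset.prod_mul_distrib]
      refine Finset.prod_congr rfl fun P hP => ?_
      rw [← pow_mul]
      obtain ⟨l, hl⟩ := Nat.exists_eq_add_of_le
        (le_trans htm (Nat.le_mul_of_pos_left _ (mult_pos hP)) : m ≤ I.rootMultiplicity P * t)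
      rw [hl, Nat.add_sub_cancel_left, pow_add]
      have h1 : (Y - algebraMap ℂ MM P) ^ l * Q P ^ l = 1 := by rw [← mul_pow, hQ P hP, one_pow]
      linear_combination Q P ^ m * h1
    have hκ' : algebraMap ℂ MM κ * algebraMap ℂ MM (cb ^ k') * (M : MM) *
        algebraMap ℂ MM I.leadingCoeff⁻¹ ^ t = 1 := by
      have h1 : algebraMap ℂ MM (κ * cb ^ k' * M * I.leadingCoeff⁻¹ ^ t) = 1 := by
        rw [hκ, map_one]
      rw [← h1, map_mul, map_mul, map_mul, map_natCast, map_pow (algebraMap ℂ MM) I.leadingCoeff⁻¹]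
    have hgv : Polynomial.aeval Y g = algebraMap ℂ MM κ * (Polynomial.aeval Y h * Y ^ w *
        ∏ P ∈ I.roots.toFinset,
          (Y - algebraMap ℂ MM P) ^ (I.rootMultiplicity P * t - m)) := by
      rw [hg, map_mul, map_mul, map_mul, map_prod, Polynomial.aeval_C, map_pow,
        Polynomial.aeval_X]
      congr 2
      refine Finset.prod_congr rfl fun P _ => ?_
      rw [map_pow, map_sub, Polynomial.aeval_X, Polynomial.aeval_C]
    rw [map_mul, map_mul, PowerSeries.constantCoeff_C, hβ0, hφ, hgv, ← hγ₀, mul_pow, mul_pow,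
      ← pow_mul Yi]
    rw [← hγ₀] at hwN
    rw [← hQQ]
    generalize (∏ P ∈ I.roots.toFinset,
      (Y - algebraMap ℂ MM P) ^ (I.rootMultiplicity P * t - m)) = A₁
    generalize (∏ P ∈ I.roots.toFinset, Q P ^ I.rootMultiplicity P) ^ t = A₂
    have hYe : Y ^ (p' * M * k) * Y ^ ((p' * i + q' * j) * k') * Y ^ (p' * (p * e + q) * m') *
        Y ^ u * Y ^ w = Y ^ (γ₀ * t) * Y ^ K := by
      rw [← pow_add, ← pow_add, ← pow_add, ← pow_add, ← pow_add, hwN]
    generalize Y ^ (p' * M * k) = Z₁ at *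
    generalize Y ^ ((p' * i + q' * j) * k') = Z₂ at *
    generalize Y ^ (p' * (p * e + q) * m') = Z₃ at *
    generalize Y ^ (γ₀ * t) = Z₄ at *
    generalize Yi ^ (γ₀ * t) = Z₅ at *
    generalize algebraMap ℂ MM κ = x₁ at *
    generalize algebraMap ℂ MM (cb ^ k') = x₂ at *
    generalize algebraMap ℂ MM I.leadingCoeff⁻¹ ^ t = x₃ at *
    calc _ = (x₁ * x₂ * (M : MM) * x₃) * (Polynomial.aeval Y h) *
          (Z₁ * Z₂ * Z₃ * Y ^ u * Y ^ w) * Z₅ * (A₁ * A₂) := by ring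
      _ = Polynomial.aeval Y h * Y ^ K * (Z₄ * Z₅) * (A₁ * A₂) := by
        rw [hκ', hYe]
        ring
      _ = _ := by
        rw [hYY]
        ring

end Pool.Agent.Mono.BG
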