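import Pool.Agent.Work.Monodromy.Interface7W

/-!
# Block POW7: powers of power series with exponents in a ring
-/

set_option autoImplicit false

namespace Pool.Agent.Mono.BG

open MvPolynomial TS PC RO

namespace POW7Aux

section

variable {R M : Type} [CommRing R] [Algebra ℂ R] [CommRing M] [Algebra ℂ M] [Algebra R M]
  [IsScalarTower ℂ R M]

/-- constants -/
noncomputable def cR (r : R) : PowerSeries M := PowerSeries.C (algebraMap R M r)

/-- `dCf D` as a derivation -/
noncomputable def dCD (D : Derivation R M M) : Derivation R (PowerSeries M) (PowerSeries M) where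
  toFun := dCf D
  map_add' F G := by
    ext n
    simp [dCf]
  map_smul' c F := by
    ext n
    simp [dCf]
  map_one_eq_zero' := by
    ext n
    change PowerSeries.coeff n (dCf D 1) = _
    rw [dCf, PowerSeries.coeff_mk, PowerSeries.coeff_one]
    split_ifs <;> simp
  leibniz' F G := by
    ext n
    change PowerSeries.coeff n (dCf D (F * G)) = PowerSeries.coeff n (F * dCf D G + G * dCf D F)
    rw [mul_comm G (dCf D F), map_add, dCf, PowerSeries.coeff_mk, PowerSeries.coeff_mul,
      PowerSeries.coeff_mul, PowerSeries.coeff_mul, map_sum, ← Finset.sum_add_distrib]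
    refine Finset.sum_congr rfl fun x _ => ?_
    rw [dCf, dCf, PowerSeries.coeff_mk, PowerSeries.coeff_mk, Derivation.leibniz, smul_eq_mul,
      smul_eq_mul]
    ring

theorem dCD_apply (D : Derivation R M M) (F : PowerSeries M) : dCD D F = dCf D F := rfl

/-- `d/dX` as a derivation over `R` -/
noncomputable def dXD : Derivation R (PowerSeries M) (PowerSeries M) where
  toFun := dXf
  map_add' F G := map_add _ _ _
  map_smul' c F := by
    ext n
    simp [dXf, PowerSeries.coeff_derivative]
  map_one_eq_zero' := by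
    change PowerSeries.derivative M 1 = 0
    exact Derivation.map_one_eq_zero _
  leibniz' F G := by
    change PowerSeries.derivative M (F * G) = _
    rw [Derivation.leibniz]
    rfl

theorem dXD_apply (F : PowerSeries M) : dXD (R := R) F = dXf F := rfl

/-- a derivation kills the constants of `R` -/
theorem der_cR (E : Derivation R (PowerSeries M) (PowerSeries M)) (r : R) : E (cR r) = 0 := by
  have h : (cR r : PowerSeries M) = algebraMap R (PowerSeries M) r := by
    ext n
    simp [cR, PowerSeries.algebraMap_apply, PowerSeries.coeff_C]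
  rw [h, Derivation.map_algebraMap]

/-- the binomial coefficients -/
noncomputable def bc (e : R) (k : ℕ) : R :=
  algebraMap ℂ R ((k.factorial : ℂ)⁻¹) * ∏ j ∈ Finset.range k, (e - j)

theorem bc_succ (e : R) (k : ℕ) : ((k : R) + 1) * bc e (k + 1) = (e - k) * bc e k := by
  unfold bc
  rw [Finset.prod_range_succ, Nat.factorial_succ]
  have h1 : ((k : R) + 1) = algebraMap ℂ R ((k : ℂ) + 1) := by simp
  have h2 : ((k : ℂ) + 1) * (((k + 1) * k.factorial : ℕ) : ℂ)⁻¹ = ((k.factorial : ℂ))⁻¹ := by
    have h3 : ((k : ℂ) + 1) ≠ 0 := Nat.cast_add_one_ne_zero k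
    push_cast
    rw [mul_inv, ← mul_assoc, mul_inv_cancel₀ h3, one_mul]
  calc ((k : R) + 1) * (algebraMap ℂ R (((k + 1) * k.factorial : ℕ) : ℂ)⁻¹ *
      ((∏ j ∈ Finset.range k, (e - j)) * (e - k)))
      = algebraMap ℂ R (((k : ℂ) + 1) * (((k + 1) * k.factorial : ℕ) : ℂ)⁻¹) *
        ((∏ j ∈ Finset.range k, (e - j)) * (e - k)) := by rw [h1, map_mul]; ring
    _ = (e - k) * (algebraMap ℂ R ((k.factorial : ℂ)⁻¹) * ∏ j ∈ Finset.range k, (e - j)) := by
        rw [h2]; ring

/-- the partial sums of the binomial series -/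
noncomputable def ps (e : R) (y : PowerSeries M) (m : ℕ) : PowerSeries M :=
  ∑ k ∈ Finset.range (m + 1), cR (bc e k) * y ^ k

/-- the binomial series -/
noncomputable def bs (e : R) (y : PowerSeries M) : PowerSeries M :=
  PowerSeries.mk fun n => PowerSeries.coeff n (ps e y n)

theorem coeff_cR_mul (r : R) (F : PowerSeries M) (n : ℕ) :
    PowerSeries.coeff n (cR r * F) = algebraMap R M r * PowerSeries.coeff n F := by
  rw [cR, PowerSeries.coeff_C_mul]

theorem coeff_pow_zero (y : PowerSeries M) (hy : PowerSeries.constantCoeff y = 0) (k n : ℕ)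
    (h : n < k) : PowerSeries.coeff n (y ^ k) = 0 := by
  have h1 : (PowerSeries.X : PowerSeries M) ∣ y := PowerSeries.X_dvd_iff.2 hy
  have h2 : (PowerSeries.X : PowerSeries M) ^ k ∣ y ^ k := pow_dvd_pow_of_dvd h1 k
  exact PowerSeries.X_pow_dvd_iff.1 h2 n h

theorem bs_eq (e : R) (y : PowerSeries M) (hy : PowerSeries.constantCoeff y = 0) (m : ℕ) :
    ∃ V, bs e y = ps e y m + PowerSeries.X ^ (m + 1) * V := by
  have h1 : (PowerSeries.X : PowerSeries M) ^ (m + 1) ∣ bs e y - ps e y m := by
    rw [PowerSeries.X_pow_dvd_iff]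
    intro n hn
    rw [map_sub, sub_eq_zero, bs, PowerSeries.coeff_mk]
    unfold ps
    rw [map_sum, map_sum]
    refine Finset.sum_subset (Finset.range_mono (by omega)) fun k _ hk => ?_
    rw [coeff_cR_mul, coeff_pow_zero y hy k n (by
      have := Finset.mem_range.not.1 hk
      omega), mul_zero]
  obtain ⟨V, hV⟩ := h1
  exact ⟨V, by rw [← hV]; ring⟩

theorem der_ps (E : Derivation R (PowerSeries M) (PowerSeries M)) (e : R) (y : PowerSeries M)
    (m : ℕ) : (1 + y) * E (ps e y m) = cR e * ps e y m * E y +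
      cR ((m - e) * bc e m) * y ^ m * E y := by
  induction m with
  | zero =>
    unfold ps
    rw [zero_add, Finset.range_one, Finset.sum_singleton, pow_zero, mul_one, der_cR, mul_zero]
    have h1 : bc e 0 = 1 := by simp [bc]
    rw [h1, Nat.cast_zero, mul_one, mul_one, zero_sub]
    unfold cR
    rw [map_one, map_one, map_neg, map_neg]
    ring
  | succ m ih =>
    have h1 : ps e y (m + 1) = ps e y m + cR (bc e (m + 1)) * y ^ (m + 1) := by
      unfold ps
      rw [Finset.sum_range_succ]
    have h2 : E (cR (bc e (m + 1)) * y ^ (m + 1)) =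
        cR (bc e (m + 1)) * (((m : PowerSeries M) + 1) * (y ^ m * E y)) := by
      rw [Derivation.leibniz, der_cR, Derivation.leibniz_pow]
      simp only [smul_eq_mul, nsmul_eq_mul, Nat.add_sub_cancel]
      push_cast
      ring
    have h3 : cR (M := M) (((m : R) + 1) * bc e (m + 1)) = cR ((e - m) * bc e m) := by
      rw [bc_succ]
    have h4 : ∀ a b : R, cR (M := M) (a * b) = cR a * cR b := fun a b => by
      unfold cR; rw [map_mul, map_mul]
    have h5 : ∀ a b : R, cR (M := M) (a - b) = cR a - cR b := fun a b => by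
      unfold cR; rw [map_sub, map_sub]
    have h6 : cR (M := M) ((m : R) + 1) = (m : PowerSeries M) + 1 := by
      unfold cR; simp
    have h7 : cR (M := M) (m : R) = (m : PowerSeries M) := by
      unfold cR; simp
    rw [h4, h4, h6, h5, h7] at h3
    rw [h4, h5, h7] at ih
    rw [h1, map_add, mul_add, ih, h2]
    push_cast
    rw [h4, h5, h6]
    linear_combination (y ^ m * E y) * h3

/-- the differential equation for one derivation -/
theorem der_bs (E : Derivation R (PowerSeries M) (PowerSeries M))
    (hE : ∀ (m : ℕ) (V : PowerSeries M), ∃ V', E (PowerSeries.X ^ (m + 1) * V) =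
      PowerSeries.X ^ m * V') (e : R) (y : PowerSeries M)
    (hy : PowerSeries.constantCoeff y = 0) :
    (1 + y) * E (bs e y) = cR e * bs e y * E y := by
  have key : ∀ m : ℕ, (PowerSeries.X : PowerSeries M) ^ m ∣
      (1 + y) * E (bs e y) - cR e * bs e y * E y := by
    intro m
    obtain ⟨V, hV⟩ := bs_eq e y hy m
    obtain ⟨V', hV'⟩ := hE m V
    obtain ⟨y', hy'⟩ := PowerSeries.X_dvd_iff.2 hy
    have h1 : y ^ m = PowerSeries.X ^ m * y' ^ m := by rw [hy', mul_pow]
    refine ⟨(1 + y) * V' - cR e * (PowerSeries.X * V) * E y +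
      cR ((m - e) * bc e m) * y' ^ m * E y, ?_⟩
    have h2 := der_ps E e y m
    rw [hV, map_add, hV', mul_add, h2, h1]
    ring
  have h0 : (1 + y) * E (bs e y) - cR e * bs e y * E y = 0 := by
    ext n
    rw [map_zero]
    exact PowerSeries.X_pow_dvd_iff.1 (key (n + 1)) n (Nat.lt_succ_self n)
  exact sub_eq_zero.1 h0

theorem dC_X (D : Derivation R M M) : dCD D (PowerSeries.X : PowerSeries M) = 0 := by
  ext n
  rw [dCD_apply, dCf, PowerSeries.coeff_mk, PowerSeries.coeff_X]
  split_ifs <;> simp

theorem dX_X : dXD (R := R) (PowerSeries.X : PowerSeries M) = 1 := by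
  rw [dXD_apply]
  exact PowerSeries.derivative_X

theorem hE_dX (m : ℕ) (V : PowerSeries M) : ∃ V', dXD (R := R) (PowerSeries.X ^ (m + 1) * V) =
    PowerSeries.X ^ m * V' := by
  refine ⟨PowerSeries.X * dXD (R := R) V + ((m : PowerSeries M) + 1) * V, ?_⟩
  rw [Derivation.leibniz, Derivation.leibniz_pow, dX_X]
  simp only [smul_eq_mul, nsmul_eq_mul, Nat.add_sub_cancel]
  push_cast
  ring

theorem hE_dC (D : Derivation R M M) (m : ℕ) (V : PowerSeries M) :
    ∃ V', dCD D (PowerSeries.X ^ (m + 1) * V) = PowerSeries.X ^ m * V' := by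
  refine ⟨PowerSeries.X * dCD D V, ?_⟩
  rw [Derivation.leibniz, Derivation.leibniz_pow, dC_X]
  simp only [smul_eq_mul, nsmul_eq_mul, Nat.add_sub_cancel]
  ring

theorem constantCoeff_bs (e : R) (y : PowerSeries M) :
    PowerSeries.constantCoeff (bs e y) = 1 := by
  rw [← PowerSeries.coeff_zero_eq_constantCoeff_apply, bs, PowerSeries.coeff_mk]
  unfold ps
  rw [zero_add, Finset.range_one, Finset.sum_singleton, pow_zero, mul_one]
  have h1 : bc e 0 = 1 := by simp [bc]
  rw [h1]
  simp [cR]

end

end POW7Aux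

open POW7Aux in
theorem stmt_POW7 : Stmt_POW7 := by
  intro R M _ _ _ _ _ _ D H e hH
  have hy : PowerSeries.constantCoeff (H - 1) = 0 := by rw [map_sub, hH, map_one, sub_self]
  have h1 : 1 + (H - 1) = H := by ring
  have hE : ∀ E : Derivation R (PowerSeries M) (PowerSeries M), E (H - 1) = E H := fun E => by
    rw [map_sub, Derivation.map_one_eq_zero, sub_zero]
  refine ⟨bs e (H - 1), constantCoeff_bs e _, ?_, ?_⟩
  · have h2 := der_bs (dXD (R := R)) hE_dX e (H - 1) hy
    rw [h1, hE] at h2
    exact h2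
  · have h2 := der_bs (dCD D) (hE_dC D) e (H - 1) hy
    rw [h1, hE] at h2
    exact h2

end Pool.Agent.Mono.BG
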