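import Pool.Agent.Work.Monodromy.Interface7W
import Pool.Agent.Work.Monodromy4.W4

/-!
# Block TF7: the transfer
-/

set_option autoImplicit false
set_option linter.unusedSectionVars false

namespace Pool.Agent.Mono.BG

open MvPolynomial TS PC RO
open scoped TensorProduct

namespace TF7Aux

open WBAux W4Aux

/-! ### the product `e_k` -/

/-- `β (β - 1) … (β - k + 1)` -/
noncomputable def ek (β : ℂ) (k : ℕ) : ℂ := ∏ j ∈ Finset.range k, (β - j)

theorem ek_succ (β : ℂ) (k : ℕ) : ek β (k + 1) = ek β k * (β - k) := by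
  unfold ek
  rw [Finset.prod_range_succ]

theorem ek_ne (β : ℂ) (h : ∀ n : ℕ, β ≠ n) (k : ℕ) : ek β k ≠ 0 := by
  unfold ek
  exact Finset.prod_ne_zero_iff.2 fun j _ => sub_ne_zero.2 (h j)

/-! ### functionals -/

/-- `λ` is killed by the monomials of degree `K` -/
def Sup (K : ℕ) (lam : P2 →ₗ[ℂ] ℂ) : Prop :=
  ∀ a b : ℕ, K ≤ a + b → ∀ ψ, lam (X 0 ^ a * X 1 ^ b * ψ) = 0

theorem Sup.mono {K K' : ℕ} {lam : P2 →ₗ[ℂ] ℂ} (h : Sup K lam) (hK : K ≤ K') : Sup K' lam :=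
  fun a b hab ψ => h a b (hK.trans hab) ψ

/-- `φ ↦ λ(ψ φ)` -/
noncomputable def cm (lam : P2 →ₗ[ℂ] ℂ) (ψ : P2) : P2 →ₗ[ℂ] ℂ := lam ∘ₗ LinearMap.mulLeft ℂ ψ

theorem cm_apply (lam : P2 →ₗ[ℂ] ℂ) (ψ φ : P2) : cm lam ψ φ = lam (ψ * φ) := rfl

theorem Sup.cm {K : ℕ} {lam : P2 →ₗ[ℂ] ℂ} (h : Sup K lam) (ψ : P2) : Sup K (cm lam ψ) := by
  intro a b hab φ
  rw [cm_apply, show ψ * (X 0 ^ a * X 1 ^ b * φ) = X 0 ^ a * X 1 ^ b * (ψ * φ) by ring]
  exact h a b hab _

theorem sup_zero (K : ℕ) : Sup K 0 := fun _ _ _ _ => rfl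

/-- a functional which vanishes on all monomials is zero -/
theorem eq_zero_of {lam : P2 →ₗ[ℂ] ℂ} (h : ∀ a b : ℕ, lam (X 0 ^ a * X 1 ^ b) = 0) : lam = 0 := by
  refine LinearMap.ext fun ψ => ?_
  induction ψ using MvPolynomial.induction_on' with
  | add p q hp hq => rw [map_add, hp, hq, map_add]
  | monomial d c =>
    have h1 : (monomial d c : P2) = c • (X 0 ^ d 0 * X 1 ^ d 1) := by
      rw [monomial_eq, Finsupp.prod_fintype _ _ (fun i => by simp), Fin.prod_univ_two,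
        smul_eq_C_mul]
    rw [h1, map_smul, h, smul_zero, LinearMap.zero_apply]

section

variable {V V' ι κ : Type} [AddCommGroup V] [Module ℂ V] [AddCommGroup V'] [Module ℂ V']
  [DecidableEq ι] [DecidableEq κ]

/-- the vector of a functional -/
noncomputable def Zv (u : ℕ → V) (u' : ℕ → V') (K : ℕ) (lam : P2 →ₗ[ℂ] ℂ) : V ⊗[ℂ] V' :=
  ∑ x ∈ Finset.range K ×ˢ Finset.range K, lam (X 0 ^ x.1 * X 1 ^ x.2) • (u x.1 ⊗ₜ[ℂ] u' x.2)

theorem Zv_mono (u : ℕ → V) (u' : ℕ → V') {K K' : ℕ} {lam : P2 →ₗ[ℂ] ℂ} (h : Sup K lam)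
    (hK : K ≤ K') : Zv u u' K' lam = Zv u u' K lam := by
  symm
  unfold Zv
  refine Finset.sum_subset (Finset.product_subset_product (Finset.range_mono hK)
    (Finset.range_mono hK)) fun x _ hx => ?_
  have h1 : K ≤ x.1 + x.2 := by
    by_contra h2
    refine hx (Finset.mem_product.2 ⟨Finset.mem_range.2 ?_, Finset.mem_range.2 ?_⟩) <;> omega
  have h3 := h x.1 x.2 h1 1
  rw [mul_one] at h3
  rw [h3, zero_smul]

theorem Zv_zero (u : ℕ → V) (u' : ℕ → V') (K : ℕ) : Zv u u' K 0 = 0 := by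
  unfold Zv
  simp

/-- the sum over a larger square of the shifted functional -/
theorem Zv_eq (u : ℕ → V) (u' : ℕ → V') {K : ℕ} {lam : P2 →ₗ[ℂ] ℂ} (h : Sup K lam) (n m : ℕ)
    (hn : K ≤ n) (hm : K ≤ m) : Zv u u' K lam =
    ∑ k ∈ Finset.range n, ∑ l ∈ Finset.range m,
      lam (X 0 ^ k * X 1 ^ l) • (u k ⊗ₜ[ℂ] u' l) := by
  rw [← Finset.sum_product']
  unfold Zv
  refine Finset.sum_subset (Finset.product_subset_product (Finset.range_mono hn)
    (Finset.range_mono hm)) fun x _ hx => ?_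
  have h1 : K ≤ x.1 + x.2 := by
    by_contra h2
    refine hx (Finset.mem_product.2 ⟨Finset.mem_range.2 ?_, Finset.mem_range.2 ?_⟩) <;> omega
  have h3 := h x.1 x.2 h1 1
  rw [mul_one] at h3
  rw [h3, zero_smul]

variable (w : BP.WMod ℂ V ι) (w' : BP.WMod ℂ V' κ) (f : MvPolynomial ι ℂ) (g : MvPolynomial κ ℂ)
  (u : ℕ → V) (u' : ℕ → V')

/-- multiplication by the first variable -/
theorem Zv_X0 (hu0 : w.pX f (u 0) = 0) (hu : ∀ k, w.pX f (u (k + 1)) = u k) {K : ℕ}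
    {lam : P2 →ₗ[ℂ] ℂ} (h : Sup K lam) :
    (tens w w').pX (rename Sum.inl f) (Zv u u' K lam) = Zv u u' K (cm lam (X 0)) := by
  rw [Zv_eq u u' h (K + 1) K (by omega) le_rfl, Zv_eq u u' (h.cm (X 0)) K K le_rfl le_rfl,
    map_sum, Finset.sum_range_succ']
  simp only [map_sum, map_smul, pX_inl, hu0, hu, TensorProduct.zero_tmul, smul_zero,
    Finset.sum_const_zero, add_zero, cm_apply]
  refine Finset.sum_congr rfl fun k _ => Finset.sum_congr rfl fun l _ => ?_
  rw [pow_succ, show (X 0 : P2) ^ k * X 0 * X 1 ^ l = X 0 * (X 0 ^ k * X 1 ^ l) by ring]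

/-- multiplication by the second variable -/
theorem Zv_X1 (hu0 : w'.pX g (u' 0) = 0) (hu : ∀ k, w'.pX g (u' (k + 1)) = u' k) {K : ℕ}
    {lam : P2 →ₗ[ℂ] ℂ} (h : Sup K lam) :
    (tens w w').pX (rename Sum.inr g) (Zv u u' K lam) = Zv u u' K (cm lam (X 1)) := by
  rw [Zv_eq u u' h K (K + 1) le_rfl (by omega), Zv_eq u u' (h.cm (X 1)) K K le_rfl le_rfl,
    map_sum]
  refine Finset.sum_congr rfl fun k _ => ?_
  rw [map_sum, Finset.sum_range_succ']
  simp only [map_smul, pX_inr, hu0, hu, TensorProduct.tmul_zero, smul_zero, add_zero, cm_apply]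
  refine Finset.sum_congr rfl fun l _ => ?_
  rw [pow_succ, show (X 0 : P2) ^ k * (X 1 ^ l * X 1) = X 1 * (X 0 ^ k * X 1 ^ l) by ring]

/-- multiplication by polynomials -/
theorem Zv_comp (hu0 : w.pX f (u 0) = 0) (hu : ∀ k, w.pX f (u (k + 1)) = u k)
    (hu0' : w'.pX g (u' 0) = 0) (hu' : ∀ k, w'.pX g (u' (k + 1)) = u' k) (ψ : P2) :
    ∀ {K : ℕ} {lam : P2 →ₗ[ℂ] ℂ}, Sup K lam →
      (tens w w').pX (comp2 ψ f g) (Zv u u' K lam) = Zv u u' K (cm lam ψ) := by
  induction ψ using MvPolynomial.induction_on with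
  | C c =>
    intro K lam _
    have h1 : (comp2 (C c) f g : MvPolynomial (ι ⊕ κ) ℂ) = C c := by
      unfold comp2
      rw [MvPolynomial.aeval_C]
      rfl
    rw [h1, pX_C]
    unfold Zv
    rw [Finset.smul_sum]
    refine Finset.sum_congr rfl fun x _ => ?_
    rw [cm_apply, smul_smul, ← smul_eq_C_mul, map_smul, smul_eq_mul]
  | add p q hp hq =>
    intro K lam h
    have h1 : comp2 (p + q) f g = comp2 p f g + comp2 q f g := map_add _ _ _
    rw [h1, pX_add, hp h, hq h]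
    unfold Zv
    rw [← Finset.sum_add_distrib]
    refine Finset.sum_congr rfl fun x _ => ?_
    rw [cm_apply, cm_apply, cm_apply, add_mul, map_add, add_smul]
  | mul_X p i hp =>
    intro K lam h
    have h1 : comp2 (p * X i) f g = comp2 p f g * comp2 (X i) f g := map_mul _ _ _
    have h2 : cm lam (p * X i) = cm (cm lam (X i)) p := by
      refine LinearMap.ext fun φ => ?_
      rw [cm_apply, cm_apply, cm_apply]
      congr 1
      ring
    rw [h1, pX_mul, h2, ← hp (h.cm (X i))]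
    congr 1
    fin_cases i
    · have h3 : comp2 (X 0) f g = rename Sum.inl f := by
        unfold comp2
        rw [aeval_X]
        rfl
      change (tens w w').pX (comp2 (X 0) f g) (Zv u u' K lam) = _
      rw [h3]
      exact Zv_X0 w w' f u u' hu0 hu h
    · have h3 : comp2 (X 1) f g = rename Sum.inr g := by
        unfold comp2
        rw [aeval_X]
        rfl
      change (tens w w').pX (comp2 (X 1) f g) (Zv u u' K lam) = _
      rw [h3]
      exact Zv_X1 w w' g u u' hu0' hu' h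

/-- the vector determines the functional -/
theorem Zv_ne (hu0 : w.pX f (u 0) = 0) (hu : ∀ k, w.pX f (u (k + 1)) = u k)
    (hu0' : w'.pX g (u' 0) = 0) (hu' : ∀ k, w'.pX g (u' (k + 1)) = u' k) (h0 : u 0 ≠ 0)
    (h0' : u' 0 ≠ 0) {K : ℕ} {lam : P2 →ₗ[ℂ] ℂ} (h : Sup K lam) (hl : lam ≠ 0) :
    Zv u u' K lam ≠ 0 := by
  classical
  intro hz
  -- a monomial of maximal degree
  let Sd : Set ℕ := {n | ∃ a b : ℕ, a + b = n ∧ lam (X 0 ^ a * X 1 ^ b) ≠ 0}
  have hne : ∃ n, n ∈ Sd := by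
    by_contra hcon
    push Not at hcon
    refine hl (eq_zero_of fun a b => ?_)
    by_contra h2
    exact hcon (a + b) ⟨a, b, rfl, h2⟩
  have hbd : ∀ n ∈ Sd, n ≤ K := by
    rintro n ⟨a, b, hab, hne⟩
    by_contra hn
    refine hne ?_
    have := h a b (by omega) 1
    rwa [mul_one] at this
  obtain ⟨n₀, hn₀⟩ := hne
  have hfin : Sd.Finite := (Set.finite_Iic K).subset fun n hn => hbd n hn
  obtain ⟨n, ⟨hn, hmax⟩⟩ : ∃ n, n ∈ Sd ∧ ∀ m ∈ Sd, m ≤ n := by
    obtain ⟨n, hn, hmax⟩ := Set.exists_max_image Sd id hfin ⟨n₀, hn₀⟩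
    exact ⟨n, hn, hmax⟩
  obtain ⟨a, b, hab, hlam⟩ := hn
  have h1 := Zv_comp w w' f g u u' hu0 hu hu0' hu' (X 0 ^ a * X 1 ^ b) h
  rw [hz, map_zero] at h1
  have h2 : Sup K (cm lam (X 0 ^ a * X 1 ^ b)) := h.cm _
  have h3 : Zv u u' K (cm lam (X 0 ^ a * X 1 ^ b)) =
      lam (X 0 ^ a * X 1 ^ b) • (u 0 ⊗ₜ[ℂ] u' 0) := by
    rw [← Zv_mono u u' h2 (Nat.le_succ K)]
    unfold Zv
    rw [Finset.sum_eq_single (0, 0)]
    · rw [cm_apply]
      simp
    · rintro ⟨k, l⟩ _ hkl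
      have h4 : 1 ≤ k + l := by
        by_contra h5
        refine hkl ?_
        have hk : k = 0 := by omega
        have hl' : l = 0 := by omega
        rw [hk, hl']
      have h6 : lam (X 0 ^ a * X 1 ^ b * (X 0 ^ k * X 1 ^ l)) = 0 := by
        by_contra h7
        have h8 := hmax (a + k + (b + l)) ⟨a + k, b + l, rfl, by
          rw [pow_add, pow_add, show (X 0 : P2) ^ a * X 0 ^ k * (X 1 ^ b * X 1 ^ l) =
            X 0 ^ a * X 1 ^ b * (X 0 ^ k * X 1 ^ l) by ring]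
          exact h7⟩
        omega
      rw [cm_apply, h6, zero_smul]
    · intro h9
      exact absurd (Finset.mem_product.2 ⟨Finset.mem_range.2 (Nat.succ_pos K),
        Finset.mem_range.2 (Nat.succ_pos K)⟩) h9
  rw [h3] at h1
  exact (smul_ne_zero hlam (tmul_ne h0 h0')) h1.symm

/-- the rule for one step -/
def Rul (fx : Bool) (be : ℂ) (j : Fin 2) (G : P2) (lam lam' : P2 →ₗ[ℂ] ℂ) : Prop :=
  (fx = true → ∀ ψ, lam' (X j * pderiv j G * ψ) = be * lam ψ - lam (X j * pderiv j ψ)) ∧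
  (fx = false → be = -1 ∧ ∀ ψ, lam' (pderiv j G * ψ) = -lam (pderiv j ψ))

theorem pd0 (k l : ℕ) : pderiv (0 : Fin 2) (X 0 ^ k * X 1 ^ l : P2) =
    (k : ℂ) • (X 0 ^ (k - 1) * X 1 ^ l) := by
  rw [pderiv_mul, pderiv_pow, pderiv_pow, pderiv_X_self, pderiv_X_of_ne (by decide : (1 : Fin 2) ≠ 0),
    smul_eq_C_mul]
  simp
  ring

theorem pd1 (k l : ℕ) : pderiv (1 : Fin 2) (X 0 ^ k * X 1 ^ l : P2) =
    (l : ℂ) • (X 0 ^ k * X 1 ^ (l - 1)) := by
  rw [pderiv_mul, pderiv_pow, pderiv_pow, pderiv_X_self, pderiv_X_of_ne (by decide : (0 : Fin 2) ≠ 1),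
    smul_eq_C_mul]
  simp
  ring

/-- derivatives of the composition -/
theorem pd_comp_inl (G : P2) (a : ι) : pderiv (Sum.inl a) (comp2 G f g) =
    comp2 (pderiv 0 G) f g * rename Sum.inl (pderiv a f) := by
  induction G using MvPolynomial.induction_on with
  | C c =>
    have h1 : (comp2 (C c) f g : MvPolynomial (ι ⊕ κ) ℂ) = C c := by
      unfold comp2
      rw [MvPolynomial.aeval_C]
      rfl
    rw [h1, pderiv_C, pderiv_C]
    unfold comp2
    rw [map_zero, zero_mul]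
  | add p q hp hq =>
    have h1 : ∀ p q : P2, comp2 (p + q) f g = comp2 p f g + comp2 q f g := fun p q => map_add _ _ _
    rw [h1, map_add, hp, hq, map_add, h1, add_mul]
  | mul_X p i hp =>
    have h1 : ∀ p q : P2, comp2 (p * q) f g = comp2 p f g * comp2 q f g := fun p q => map_mul _ _ _
    have h2 : ∀ p q : P2, comp2 (p + q) f g = comp2 p f g + comp2 q f g := fun p q => map_add _ _ _
    rw [h1, pderiv_mul, hp, pderiv_mul, h2, h1, h1, add_mul]
    fin_cases i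
    · have h3 : comp2 (X 0) f g = rename Sum.inl f := by
        unfold comp2
        rw [aeval_X]
        rfl
      have h4 : comp2 (pderiv 0 (X 0 : P2)) f g = 1 := by
        rw [pderiv_X_self]
        exact map_one _
      change comp2 (pderiv 0 p) f g * _ * comp2 (X 0) f g + comp2 p f g * pderiv (Sum.inl a)
        (comp2 (X 0) f g) = comp2 (pderiv 0 p) f g * comp2 (X 0) f g * _ +
          comp2 p f g * comp2 (pderiv 0 (X 0 : P2)) f g * _
      rw [h4, h3, pd_inl_inl]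
      ring
    · have h3 : comp2 (X 1) f g = rename Sum.inr g := by
        unfold comp2
        rw [aeval_X]
        rfl
      have h4 : comp2 (pderiv 0 (X 1 : P2)) f g = 0 := by
        rw [pderiv_X_of_ne (by decide : (1 : Fin 2) ≠ 0)]
        exact map_zero _
      change comp2 (pderiv 0 p) f g * _ * comp2 (X 1) f g + comp2 p f g * pderiv (Sum.inl a)
        (comp2 (X 1) f g) = comp2 (pderiv 0 p) f g * comp2 (X 1) f g * _ +
          comp2 p f g * comp2 (pderiv 0 (X 1 : P2)) f g * _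
      rw [h4, h3, pd_inl_inr]
      ring

theorem pd_comp_inr (G : P2) (a : κ) : pderiv (Sum.inr a) (comp2 G f g) =
    comp2 (pderiv 1 G) f g * rename Sum.inr (pderiv a g) := by
  induction G using MvPolynomial.induction_on with
  | C c =>
    have h1 : (comp2 (C c) f g : MvPolynomial (ι ⊕ κ) ℂ) = C c := by
      unfold comp2
      rw [MvPolynomial.aeval_C]
      rfl
    rw [h1, pderiv_C, pderiv_C]
    unfold comp2
    rw [map_zero, zero_mul]
  | add p q hp hq =>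
    have h1 : ∀ p q : P2, comp2 (p + q) f g = comp2 p f g + comp2 q f g := fun p q => map_add _ _ _
    rw [h1, map_add, hp, hq, map_add, h1, add_mul]
  | mul_X p i hp =>
    have h1 : ∀ p q : P2, comp2 (p * q) f g = comp2 p f g * comp2 q f g := fun p q => map_mul _ _ _
    have h2 : ∀ p q : P2, comp2 (p + q) f g = comp2 p f g + comp2 q f g := fun p q => map_add _ _ _
    rw [h1, pderiv_mul, hp, pderiv_mul, h2, h1, h1, add_mul]
    fin_cases i
    · have h3 : comp2 (X 0) f g = rename Sum.inl f := by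
        unfold comp2
        rw [aeval_X]
        rfl
      have h4 : comp2 (pderiv 1 (X 0 : P2)) f g = 0 := by
        rw [pderiv_X_of_ne (by decide : (0 : Fin 2) ≠ 1)]
        exact map_zero _
      change comp2 (pderiv 1 p) f g * _ * comp2 (X 0) f g + comp2 p f g * pderiv (Sum.inr a)
        (comp2 (X 0) f g) = comp2 (pderiv 1 p) f g * comp2 (X 0) f g * _ +
          comp2 p f g * comp2 (pderiv 1 (X 0 : P2)) f g * _
      rw [h4, h3, pd_inr_inl]
      ring
    · have h3 : comp2 (X 1) f g = rename Sum.inr g := by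
        unfold comp2
        rw [aeval_X]
        rfl
      have h4 : comp2 (pderiv 1 (X 1 : P2)) f g = 1 := by
        rw [pderiv_X_self]
        exact map_one _
      change comp2 (pderiv 1 p) f g * _ * comp2 (X 1) f g + comp2 p f g * pderiv (Sum.inr a)
        (comp2 (X 1) f g) = comp2 (pderiv 1 p) f g * comp2 (X 1) f g * _ +
          comp2 p f g * comp2 (pderiv 1 (X 1 : P2)) f g * _
      rw [h4, h3, pd_inr_inr]
      ring

end

section

variable {V V' ι κ : Type} [AddCommGroup V] [Module ℂ V] [AddCommGroup V'] [Module ℂ V']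
  [DecidableEq ι] [DecidableEq κ] (w : BP.WMod ℂ V ι) (w' : BP.WMod ℂ V' κ)
  (f : MvPolynomial ι ℂ) (g : MvPolynomial κ ℂ) (u : ℕ → V) (u' : ℕ → V')

theorem rul0 {fx : Bool} {be : ℂ} {G : P2} {lam lam' : P2 →ₗ[ℂ] ℂ} (h : Rul fx be 0 G lam lam')
    (k l : ℕ) : lam' (pderiv 0 G * (X 0 ^ (k + 1) * X 1 ^ l)) =
      (be - k) * lam (X 0 ^ k * X 1 ^ l) := by
  rcases Bool.eq_false_or_eq_true fx with hfx | hfx
  · have h1 := h.1 hfx (X 0 ^ k * X 1 ^ l)
    have h2 : X 0 * pderiv 0 G * (X 0 ^ k * X 1 ^ l) =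
        pderiv 0 G * (X 0 ^ (k + 1) * X 1 ^ l) := by ring
    have h3 : (X 0 : P2) * pderiv 0 (X 0 ^ k * X 1 ^ l) = (k : ℂ) • (X 0 ^ k * X 1 ^ l) := by
      rw [pd0]
      rcases k with _ | k
      · simp
      · rw [Nat.add_sub_cancel, mul_smul_comm]
        congr 1
        ring
    rw [h2, h3, map_smul, smul_eq_mul] at h1
    rw [h1]
    ring
  · obtain ⟨hbe, h1⟩ := h.2 hfx
    rw [h1, pd0, Nat.add_sub_cancel, map_smul, smul_eq_mul, hbe]
    push_cast
    ring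

theorem rul1 {fx : Bool} {be : ℂ} {G : P2} {lam lam' : P2 →ₗ[ℂ] ℂ} (h : Rul fx be 1 G lam lam')
    (k l : ℕ) : lam' (pderiv 1 G * (X 0 ^ k * X 1 ^ (l + 1))) =
      (be - l) * lam (X 0 ^ k * X 1 ^ l) := by
  rcases Bool.eq_false_or_eq_true fx with hfx | hfx
  · have h1 := h.1 hfx (X 0 ^ k * X 1 ^ l)
    have h2 : X 1 * pderiv 1 G * (X 0 ^ k * X 1 ^ l) =
        pderiv 1 G * (X 0 ^ k * X 1 ^ (l + 1)) := by ring
    have h3 : (X 1 : P2) * pderiv 1 (X 0 ^ k * X 1 ^ l) = (l : ℂ) • (X 0 ^ k * X 1 ^ l) := by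
      rw [pd1]
      rcases l with _ | l
      · simp
      · rw [Nat.add_sub_cancel, mul_smul_comm]
        congr 1
        ring
    rw [h2, h3, map_smul, smul_eq_mul] at h1
    rw [h1]
    ring
  · obtain ⟨hbe, h1⟩ := h.2 hfx
    rw [h1, pd1, Nat.add_sub_cancel, map_smul, smul_eq_mul, hbe]
    push_cast
    ring

/-- derivatives of the vector of a functional, first group of variables -/
theorem D_Zv_inl (hu0 : w.pX f (u 0) = 0) (hu : ∀ k, w.pX f (u (k + 1)) = u k)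
    (hu0' : w'.pX g (u' 0) = 0) (hu' : ∀ k, w'.pX g (u' (k + 1)) = u' k) {fx : Bool} {be : ℂ}
    (hfx : fx = true → ∀ a, w.pX (pderiv a f) (u 0) = 0)
    (hD : ∀ k a, w.D' a (u k) = (be - k) • w.pX (pderiv a f) (u (k + 1))) {G : P2} {K K' : ℕ}
    {lam lam' : P2 →ₗ[ℂ] ℂ} (hK : Sup K lam) (hK' : Sup K' lam') (h : Rul fx be 0 G lam lam')
    (a : ι) : (tens w w').D' (Sum.inl a) (Zv u u' K lam) =
      (tens w w').pX (pderiv (Sum.inl a) (comp2 G f g)) (Zv u u' K' lam') := by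
  rw [pd_comp_inl, pX_mul, pX_comm, Zv_comp w w' f g u u' hu0 hu hu0' hu' _ hK',
    Zv_eq u u' hK (max K K') (max K K') (le_max_left _ _) (le_max_left _ _),
    Zv_eq u u' (hK'.cm _) (max K K' + 1) (max K K') ((le_max_right _ _).trans (Nat.le_succ _))
      (le_max_right _ _), map_sum, map_sum, Finset.sum_range_succ']
  have hz : (tens w w').pX (rename Sum.inl (pderiv a f)) (∑ l ∈ Finset.range (max K K'),
      cm lam' (pderiv 0 G) (X 0 ^ 0 * X 1 ^ l) • (u 0 ⊗ₜ[ℂ] u' l)) = 0 := by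
    rw [map_sum]
    refine Finset.sum_eq_zero fun l _ => ?_
    rw [map_smul, pX_inl]
    rcases Bool.eq_false_or_eq_true fx with hf | hf
    · rw [hfx hf, TensorProduct.zero_tmul, smul_zero]
    · have h1 : cm lam' (pderiv 0 G) (X 0 ^ 0 * X 1 ^ l) = 0 := by
        rw [cm_apply, (h.2 hf).2, pd0]
        simp
      rw [h1, zero_smul]
  rw [hz, add_zero]
  refine Finset.sum_congr rfl fun k _ => ?_
  rw [map_sum, map_sum]
  refine Finset.sum_congr rfl fun l _ => ?_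
  rw [map_smul, map_smul, D_inl, pX_inl, hD, cm_apply, rul0 h, ← TensorProduct.smul_tmul', smul_smul,
    mul_comm (lam _)]

/-- derivatives of the vector of a functional, second group of variables -/
theorem D_Zv_inr (hu0 : w.pX f (u 0) = 0) (hu : ∀ k, w.pX f (u (k + 1)) = u k)
    (hu0' : w'.pX g (u' 0) = 0) (hu' : ∀ k, w'.pX g (u' (k + 1)) = u' k) {fx : Bool} {be : ℂ}
    (hfx : fx = true → ∀ a, w'.pX (pderiv a g) (u' 0) = 0)
    (hD : ∀ k a, w'.D' a (u' k) = (be - k) • w'.pX (pderiv a g) (u' (k + 1))) {G : P2} {K K' : ℕ}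
    {lam lam' : P2 →ₗ[ℂ] ℂ} (hK : Sup K lam) (hK' : Sup K' lam') (h : Rul fx be 1 G lam lam')
    (a : κ) : (tens w w').D' (Sum.inr a) (Zv u u' K lam) =
      (tens w w').pX (pderiv (Sum.inr a) (comp2 G f g)) (Zv u u' K' lam') := by
  rw [pd_comp_inr, pX_mul, pX_comm, Zv_comp w w' f g u u' hu0 hu hu0' hu' _ hK',
    Zv_eq u u' hK (max K K') (max K K') (le_max_left _ _) (le_max_left _ _),
    Zv_eq u u' (hK'.cm _) (max K K') (max K K' + 1) (le_max_right _ _)
      ((le_max_right _ _).trans (Nat.le_succ _)), map_sum, map_sum]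
  refine Finset.sum_congr rfl fun k _ => ?_
  rw [map_sum, map_sum, Finset.sum_range_succ']
  have hz : (tens w w').pX (rename Sum.inr (pderiv a g))
      (cm lam' (pderiv 1 G) (X 0 ^ k * X 1 ^ 0) • (u k ⊗ₜ[ℂ] u' 0)) = 0 := by
    rw [map_smul, pX_inr]
    rcases Bool.eq_false_or_eq_true fx with hf | hf
    · rw [hfx hf, TensorProduct.tmul_zero, smul_zero]
    · have h1 : cm lam' (pderiv 1 G) (X 0 ^ k * X 1 ^ 0) = 0 := by
        rw [cm_apply, (h.2 hf).2, pd1]
        simp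
      rw [h1, zero_smul]
  rw [hz, add_zero]
  refine Finset.sum_congr rfl fun l _ => ?_
  rw [map_smul, map_smul, D_inr, pX_inr, hD, cm_apply, rul1 h, TensorProduct.tmul_smul, smul_smul,
    mul_comm (lam _)]

end

/-- the normalised chain -/
theorem chain {ι : Type} [DecidableEq ι] {V : Type} [AddCommGroup V] [Module ℂ V]
    (w : BP.WMod ℂ V ι) (f : MvPolynomial ι ℂ) (be : ℂ) (hbe : ∀ n : ℕ, be ≠ n) (v : ℕ → V)
    (hD : ∀ i a, w.D' a (v i) = w.pX (pderiv a f) (v (i + 1)))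
    (hv : ∀ i : ℕ, w.pX f (v (i + 1)) = (be - i) • v i) :
    (∀ k, w.pX f ((ek be (k + 1))⁻¹ • v (k + 1)) = (ek be k)⁻¹ • v k) ∧
    ∀ k a, w.D' a ((ek be k)⁻¹ • v k) =
      (be - k) • w.pX (pderiv a f) ((ek be (k + 1))⁻¹ • v (k + 1)) := by
  have h1 : ∀ k, (ek be (k + 1))⁻¹ * (be - k) = (ek be k)⁻¹ := by
    intro k
    have h2 : be - (k : ℂ) ≠ 0 := sub_ne_zero.2 (hbe k)
    rw [ek_succ, mul_inv, mul_assoc, inv_mul_cancel₀ h2, mul_one]
  refine ⟨fun k => ?_, fun k a => ?_⟩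
  · rw [map_smul, hv, smul_smul, h1]
  · rw [map_smul, map_smul, hD, smul_smul, mul_comm, h1]

/-- the rules in the form used here -/
theorem rul_of {R : Bool} {be : ℂ} {j : Fin 2} {G : P2} {l : ℕ → (P2 →ₗ[ℂ] ℂ)}
    (h : AxR R be j G l) (hR : R = false → be = -1) :
    (∀ i, Rul R be j G (l i) (l (i + 1))) ∧ Rul R be j G 0 (l 0) := by
  refine ⟨fun i => ⟨fun hf => (h.1 hf).1 i, fun hf => ⟨hR hf, (h.2 hf).1 i⟩⟩, fun hf ψ => ?_,
    fun hf => ⟨hR hf, fun ψ => ?_⟩⟩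
  · rw [(h.1 hf).2]
    simp
  · rw [(h.2 hf).2]
    simp

end TF7Aux

open TF7Aux WBAux W4Aux in
theorem stmt_TF7 : Stmt_TF7 := by
  intro ι κ _ _ _ _ f g tU tV be be' ga G l hbe hbe' hf hg hTW hl
  obtain ⟨V, i1, i2, w, v, hv0, hf0, hdf, hfree, hD, hv⟩ := hf
  obtain ⟨V', i1', i2', w', v', hv0', hf0', hdf', hfree', hD', hv'⟩ := hg
  classical
  obtain ⟨hc1, hc2⟩ := chain w f be hbe v hD hv
  obtain ⟨hc1', hc2'⟩ := chain w' g be' hbe' v' hD' hv'
  set u : ℕ → V := fun k => (ek be k)⁻¹ • v k with hu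
  set u' : ℕ → V' := fun k => (ek be' k)⁻¹ • v' k with hu'
  have hek0 : ek be 0 = 1 := by simp [ek]
  have hek0' : ek be' 0 = 1 := by simp [ek]
  have hu0 : u 0 = v 0 := by rw [hu]; simp [hek0]
  have hu0' : u' 0 = v' 0 := by rw [hu']; simp [hek0']
  have hfu0 : w.pX f (u 0) = 0 := by rw [hu0, hf0]
  have hgu0 : w'.pX g (u' 0) = 0 := by rw [hu0', hf0']
  have hdu0 : tU = true → ∀ a, w.pX (pderiv a f) (u 0) = 0 := by
    rw [hu0]; exact hdf
  have hdu0' : tV = true → ∀ a, w'.pX (pderiv a g) (u' 0) = 0 := by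
    rw [hu0']; exact hdf'
  have hne : u 0 ≠ 0 := by rw [hu0]; exact hv0
  have hne' : u' 0 ≠ 0 := by rw [hu0']; exact hv0'
  obtain ⟨r0, r00⟩ := rul_of hTW.ax0 hfree
  obtain ⟨r1, r10⟩ := rul_of hTW.ax1 hfree'
  -- supports
  have hsup : ∀ i, ∃ K, Sup K (l i) := fun i => hTW.supp i
  choose Kf hKf using hsup
  -- the first nonzero functional
  set n := Nat.find hl with hn
  have hln : l n ≠ 0 := Nat.find_spec hl
  have hlt : ∀ i < n, l i = 0 := fun i hi => by
    by_contra h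
    exact Nat.find_min hl hi h
  have hr0 : Rul tU be 0 G 0 (l n) := by
    rcases Nat.eq_zero_or_pos n with h0 | h0
    · rw [h0]; exact r00
    · obtain ⟨m, hm⟩ : ∃ m, n = m + 1 := ⟨n - 1, by omega⟩
      have h1 := r0 m
      rw [hlt m (by omega), ← hm] at h1
      exact h1
  have hr1 : Rul tV be' 1 G 0 (l n) := by
    rcases Nat.eq_zero_or_pos n with h0 | h0
    · rw [h0]; exact r10
    · obtain ⟨m, hm⟩ : ∃ m, n = m + 1 := ⟨n - 1, by omega⟩
      have h1 := r1 m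
      rw [hlt m (by omega), ← hm] at h1
      exact h1
  refine ⟨n, V ⊗[ℂ] V', inferInstance, inferInstance, tens w w',
    fun i => Zv u u' (Kf (n + i)) (l (n + i)), ?_, ?_, ?_, ?_, ?_⟩
  · exact Zv_ne w w' f g u u' hfu0 hc1 hgu0 hc1' hne hne' (hKf _) hln
  · change (tens w w').pX (comp2 G f g) (Zv u u' (Kf (n + 0)) (l (n + 0))) = 0
    rw [Nat.add_zero, Zv_comp w w' f g u u' hfu0 hc1 hgu0 hc1' G (hKf n)]
    have h1 : cm (l n) G = 0 := by
      refine LinearMap.ext fun ψ => ?_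
      rw [cm_apply]
      rcases Nat.eq_zero_or_pos n with h0 | h0
      · rw [h0, hTW.mul0]
        rfl
      · obtain ⟨m, hm⟩ : ∃ m, n = m + 1 := ⟨n - 1, by omega⟩
        rw [hm, hTW.mulG, hlt m (by omega)]
        simp
    rw [h1, Zv_zero]
  · intro a
    change (tens w w').pX (pderiv a (comp2 G f g)) (Zv u u' (Kf (n + 0)) (l (n + 0))) = 0
    rw [Nat.add_zero]
    rcases a with a | a
    · rw [← D_Zv_inl w w' f g u u' hfu0 hc1 hgu0 hc1' hdu0 hc2 (sup_zero 0) (hKf n) hr0 a, Zv_zero,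
        map_zero]
    · rw [← D_Zv_inr w w' f g u u' hfu0 hc1 hgu0 hc1' hdu0' hc2' (sup_zero 0) (hKf n) hr1 a,
        Zv_zero, map_zero]
  · intro i a
    rcases a with a | a
    · exact D_Zv_inl w w' f g u u' hfu0 hc1 hgu0 hc1' hdu0 hc2 (hKf _) (hKf _) (r0 (n + i)) a
    · exact D_Zv_inr w w' f g u u' hfu0 hc1 hgu0 hc1' hdu0' hc2' (hKf _) (hKf _) (r1 (n + i)) a
  · intro i
    change (tens w w').pX (comp2 G f g) (Zv u u' (Kf (n + (i + 1))) (l (n + (i + 1)))) = _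
    rw [Zv_comp w w' f g u u' hfu0 hc1 hgu0 hc1' G (hKf _)]
    have h1 : cm (l (n + (i + 1))) G = (ga - (n + i : ℕ)) • l (n + i) := by
      refine LinearMap.ext fun ψ => ?_
      rw [cm_apply, LinearMap.smul_apply, smul_eq_mul]
      exact hTW.mulG (n + i) ψ
    have h2 : Sup (max (Kf (n + (i + 1))) (Kf (n + i))) (l (n + i)) :=
      (hKf _).mono (le_max_right _ _)
    rw [← Zv_mono u u' ((hKf _).cm G) (le_max_left _ (Kf (n + i))), h1]
    change _ = (ga - (n : ℂ) - i) • Zv u u' (Kf (n + i)) (l (n + i))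
    rw [← Zv_mono u u' (hKf (n + i)) (le_max_right (Kf (n + (i + 1))) _)]
    unfold Zv
    rw [Finset.smul_sum]
    refine Finset.sum_congr rfl fun x _ => ?_
    rw [LinearMap.smul_apply, smul_smul, smul_eq_mul]
    congr 2
    push_cast
    ring

end Pool.Agent.Mono.BG
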