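import Pool.Agent.Work.Monodromy.Interface7W
import Pool.Agent.Work.Monodromy7.TF7
import Pool.Agent.Work.Monodromy7.POW7
import Pool.Agent.Work.Monodromy5.Adm5

/-!
# Block AX7: the fixed axis
-/

set_option autoImplicit false
set_option linter.unusedSectionVars false
set_option linter.unusedSimpArgs false

namespace Pool.Agent.Mono.BG

open MvPolynomial TS PC RO
open scoped TensorProduct

namespace AX7Aux

open WBAux W4Aux TF7Aux POW7Aux

/-! ### vectors given by power series -/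

section Phi

variable {V ι κ : Type} [AddCommGroup V] [Module ℂ V] [DecidableEq ι] [DecidableEq κ]
  (w : BP.WMod ℂ V ι) (w' : BP.WMod ℂ (FF ℂ κ) κ) (f : MvPolynomial ι ℂ) (g : MvPolynomial κ ℂ)

/-- `∑_{k < n} f^k v ⊗ U_k` -/
noncomputable def Ph (n : ℕ) (U : PowerSeries (FF ℂ κ)) (v : V) : V ⊗[ℂ] FF ℂ κ :=
  ∑ k ∈ Finset.range n, (w.pX (f ^ k) v) ⊗ₜ[ℂ] (PowerSeries.coeff k U)

theorem Ph_addU (n : ℕ) (U U' : PowerSeries (FF ℂ κ)) (v : V) :
    Ph w f n (U + U') v = Ph w f n U v + Ph w f n U' v := by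
  unfold Ph
  rw [← Finset.sum_add_distrib]
  refine Finset.sum_congr rfl fun k _ => ?_
  rw [map_add, TensorProduct.tmul_add]

theorem Ph_addv (n : ℕ) (U : PowerSeries (FF ℂ κ)) (v v' : V) :
    Ph w f n U (v + v') = Ph w f n U v + Ph w f n U v' := by
  unfold Ph
  rw [← Finset.sum_add_distrib]
  refine Finset.sum_congr rfl fun k _ => ?_
  rw [map_add, TensorProduct.add_tmul]

theorem Ph_smulv (n : ℕ) (U : PowerSeries (FF ℂ κ)) (c : ℂ) (v : V) :
    Ph w f n U (c • v) = c • Ph w f n U v := by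
  unfold Ph
  rw [Finset.smul_sum]
  refine Finset.sum_congr rfl fun k _ => ?_
  rw [map_smul, TensorProduct.smul_tmul']

theorem Ph_zerov (n : ℕ) (U : PowerSeries (FF ℂ κ)) : Ph w f n U (0 : V) = 0 := by
  unfold Ph
  simp

theorem Ph_cR (n : ℕ) (U : PowerSeries (FF ℂ κ)) (c : ℂ) (v : V) :
    Ph w f n (cR c * U) v = c • Ph w f n U v := by
  unfold Ph
  rw [Finset.smul_sum]
  refine Finset.sum_congr rfl fun k _ => ?_
  rw [coeff_cR_mul, ← Algebra.smul_def, TensorProduct.tmul_smul]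

theorem nil_le {n k : ℕ} {v : V} (h : w.pX (f ^ n) v = 0) (hk : n ≤ k) : w.pX (f ^ k) v = 0 := by
  obtain ⟨d, rfl⟩ := Nat.exists_eq_add_of_le hk
  rw [pow_add, mul_comm, pX_mul, h, map_zero]

theorem nil_pX {n : ℕ} {v : V} (h : w.pX (f ^ n) v = 0) (p : MvPolynomial ι ℂ) :
    w.pX (f ^ n) (w.pX p v) = 0 := by
  rw [← pX_mul, mul_comm, pX_mul, h, map_zero]

theorem Ph_ext {n n' : ℕ} (U : PowerSeries (FF ℂ κ)) {v : V} (h : w.pX (f ^ n) v = 0)
    (hn : n ≤ n') : Ph w f n' U v = Ph w f n U v := by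
  symm
  unfold Ph
  refine Finset.sum_subset (Finset.range_mono hn) fun k _ hk => ?_
  rw [nil_le w f h (by simpa using hk), TensorProduct.zero_tmul]

theorem Ph_inl (n : ℕ) (U : PowerSeries (FF ℂ κ)) (v : V) (p : MvPolynomial ι ℂ) :
    (tens w w').pX (rename Sum.inl p) (Ph w f n U v) = Ph w f n U (w.pX p v) := by
  unfold Ph
  rw [map_sum]
  refine Finset.sum_congr rfl fun k _ => ?_
  rw [pX_inl, ← pX_mul, ← pX_mul, mul_comm]

theorem Ph_f (n : ℕ) (U : PowerSeries (FF ℂ κ)) (v : V) (h : w.pX (f ^ n) v = 0) :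
    Ph w f n U (w.pX f v) = Ph w f n (PowerSeries.X * U) v := by
  unfold Ph
  rcases n with _ | n
  · simp
  · rw [Finset.sum_range_succ, Finset.sum_range_succ']
    have h1 : w.pX (f ^ n) (w.pX f v) = 0 := by rw [← pX_mul, ← pow_succ, h]
    rw [h1, TensorProduct.zero_tmul, add_zero, PowerSeries.coeff_zero_X_mul,
      TensorProduct.tmul_zero, add_zero]
    refine Finset.sum_congr rfl fun k _ => ?_
    rw [← pX_mul, ← pow_succ, PowerSeries.coeff_succ_X_mul]

theorem Ph_fpow (n : ℕ) (v : V) (h : w.pX (f ^ n) v = 0) (r : ℕ) :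
    ∀ U : PowerSeries (FF ℂ κ), Ph w f n U (w.pX (f ^ r) v) = Ph w f n (PowerSeries.X ^ r * U) v := by
  induction r with
  | zero => intro U; rw [pow_zero, pow_zero, one_mul, map_one]; rfl
  | succ r ih =>
    intro U
    rw [pow_succ', pX_mul, Ph_f w f n U _ (nil_pX w f h _), ih, pow_succ, mul_assoc]

theorem Ph_inr (hw : ∀ p x, w'.pX p x = toF ℂ p * x) (n : ℕ) (U : PowerSeries (FF ℂ κ)) (v : V)
    (p : MvPolynomial κ ℂ) : (tens w w').pX (rename Sum.inr p) (Ph w f n U v) =
      Ph w f n (PowerSeries.C (toF ℂ p) * U) v := by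
  unfold Ph
  rw [map_sum]
  refine Finset.sum_congr rfl fun k _ => ?_
  rw [pX_inr, hw, PowerSeries.coeff_C_mul]

/-- substitution `a ↦ X`, `b ↦ g` -/
noncomputable def QA : P2 →ₐ[ℂ] PowerSeries (FF ℂ κ) :=
  aeval ![PowerSeries.X, PowerSeries.C (toF ℂ g)]

theorem QA_C (c : ℂ) : QA g (C c) = cR c := by
  unfold QA
  rw [aeval_C, PowerSeries.algebraMap_apply]
  rfl

theorem QA_X0 : QA g (X 0) = PowerSeries.X := by
  unfold QA
  rw [aeval_X]
  rfl

theorem QA_X1 : QA g (X 1) = PowerSeries.C (toF ℂ g) := by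
  unfold QA
  rw [aeval_X]
  rfl

theorem comp_X0 : comp2 (X 0) f g = rename Sum.inl f := by
  unfold comp2
  rw [aeval_X]
  rfl

theorem comp_X1 : comp2 (X 1) f g = rename Sum.inr g := by
  unfold comp2
  rw [aeval_X]
  rfl

theorem Ph_comp (hw : ∀ p x, w'.pX p x = toF ℂ p * x) (n : ℕ) (v : V) (h : w.pX (f ^ n) v = 0)
    (Q : P2) : ∀ U : PowerSeries (FF ℂ κ),
      (tens w w').pX (comp2 Q f g) (Ph w f n U v) = Ph w f n (QA g Q * U) v := by
  induction Q using MvPolynomial.induction_on with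
  | C c =>
    intro U
    have h1 : (comp2 (C c) f g : MvPolynomial (ι ⊕ κ) ℂ) = C c := by
      unfold comp2
      rw [MvPolynomial.aeval_C]
      rfl
    rw [h1, pX_C, QA_C, Ph_cR]
  | add p q hp hq =>
    intro U
    have h1 : comp2 (p + q) f g = comp2 p f g + comp2 q f g := map_add _ _ _
    rw [h1, pX_add, hp, hq, map_add, add_mul, Ph_addU]
  | mul_X p i hp =>
    intro U
    have h1 : comp2 (p * X i) f g = comp2 p f g * comp2 (X i) f g := map_mul _ _ _
    rw [h1, pX_mul, map_mul, mul_assoc, ← hp]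
    congr 1
    fin_cases i
    · change (tens w w').pX (comp2 (X 0) f g) (Ph w f n U v) = Ph w f n (QA g (X 0) * U) v
      rw [comp_X0, Ph_inl, Ph_f w f n U v h, QA_X0]
    · change (tens w w').pX (comp2 (X 1) f g) (Ph w f n U v) = Ph w f n (QA g (X 1) * U) v
      rw [comp_X1, Ph_inr w w' f hw, QA_X1]

theorem D_inlPh (n : ℕ) (U : PowerSeries (FF ℂ κ)) (v : V) (a : ι) :
    (tens w w').D' (Sum.inl a) (Ph w f (n + 1) U v) =
      Ph w f (n + 1) U (w.D' a v) + Ph w f n (dXf U) (w.pX (pderiv a f) v) := by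
  have key : ∀ (p : MvPolynomial ι ℂ), w.D' a (w.pX p v) = w.pX p (w.D' a v) +
      w.pX (pderiv a p) v := by
    intro p
    have := congrArg (fun T : Module.End ℂ V => T v) (w.D_pX a p)
    simpa only [Module.End.mul_apply, LinearMap.add_apply] using this
  unfold Ph
  rw [map_sum]
  simp only [D_inl, key, TensorProduct.add_tmul]
  rw [Finset.sum_add_distrib]
  congr 1
  rw [Finset.sum_range_succ']
  have h0 : w.pX (pderiv a (f ^ 0)) v = 0 := by
    rw [pow_zero, Derivation.map_one_eq_zero, map_zero]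
    rfl
  rw [h0, TensorProduct.zero_tmul, add_zero]
  refine Finset.sum_congr rfl fun k _ => ?_
  have h1 : pderiv a (f ^ (k + 1)) = C ((k : ℂ) + 1) * (f ^ k * pderiv a f) := by
    rw [Derivation.leibniz_pow, Nat.add_sub_cancel, smul_eq_mul, nsmul_eq_mul]
    congr 1
    push_cast
    simp
  rw [h1, pX_mul, pX_C, pX_mul, TensorProduct.smul_tmul]
  congr 1
  unfold dXf
  rw [PowerSeries.coeff_derivative, Algebra.smul_def]
  simp
  ring

theorem D_inrPh (n : ℕ) (U : PowerSeries (FF ℂ κ)) (v : V) (b : κ) :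
    (tens w w').D' (Sum.inr b) (Ph w f n U v) =
      Ph w f n (PowerSeries.mk fun k => w'.D' b (PowerSeries.coeff k U)) v := by
  unfold Ph
  rw [map_sum]
  refine Finset.sum_congr rfl fun k _ => ?_
  rw [D_inr, PowerSeries.coeff_mk]

end Phi

/-! ### derivations -/

section Der

variable {κ : Type} [DecidableEq κ] (g : MvPolynomial κ ℂ)

theorem der_QA (E : Derivation ℂ (PowerSeries (FF ℂ κ)) (PowerSeries (FF ℂ κ))) (Q : P2) :
    E (QA g Q) = QA g (pderiv 0 Q) * E PowerSeries.X +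
      QA g (pderiv 1 Q) * E (PowerSeries.C (toF ℂ g)) := by
  induction Q using MvPolynomial.induction_on with
  | C c =>
    have h1 : QA g (C c) = algebraMap ℂ _ c := by
      unfold QA
      rw [aeval_C]
    rw [h1, Derivation.map_algebraMap, pderiv_C, pderiv_C, map_zero, zero_mul, zero_mul, add_zero]
  | add p q hp hq =>
    simp only [map_add, hp, hq]
    ring
  | mul_X p i hp =>
    rw [map_mul, Derivation.leibniz, hp, pderiv_mul, pderiv_mul, map_add, map_add, map_mul, map_mul,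
      map_mul, map_mul]
    fin_cases i
    · have h3 : pderiv (0 : Fin 2) (X 0 : P2) = 1 := pderiv_X_self _
      have h4 : pderiv (1 : Fin 2) (X 0 : P2) = 0 := pderiv_X_of_ne (by decide)
      change QA g p • E (QA g (X 0)) + QA g (X 0) • _ =
        (_ * QA g (X 0) + _ * QA g (pderiv (0 : Fin 2) (X 0 : P2))) * _ +
        (_ * QA g (X 0) + _ * QA g (pderiv (1 : Fin 2) (X 0 : P2))) * _
      rw [h3, h4, QA_X0, map_one, map_zero, smul_eq_mul, smul_eq_mul]
      ring
    · have h3 : pderiv (1 : Fin 2) (X 1 : P2) = 1 := pderiv_X_self _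
      have h4 : pderiv (0 : Fin 2) (X 1 : P2) = 0 := pderiv_X_of_ne (by decide)
      change QA g p • E (QA g (X 1)) + QA g (X 1) • _ =
        (_ * QA g (X 1) + _ * QA g (pderiv (0 : Fin 2) (X 1 : P2))) * _ +
        (_ * QA g (X 1) + _ * QA g (pderiv (1 : Fin 2) (X 1 : P2))) * _
      rw [h3, h4, QA_X1, map_one, map_zero, smul_eq_mul, smul_eq_mul]
      ring

end Der

/-! ### the chain -/

section Chain

variable {V ι : Type} [AddCommGroup V] [Module ℂ V] [DecidableEq ι]
  (w : BP.WMod ℂ V ι) (f : MvPolynomial ι ℂ)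

/-- `(β - j) (β - j - 1) … (β - j - r + 1)` -/
noncomputable def fj (β : ℂ) (j r : ℕ) : ℂ := ∏ t ∈ Finset.range r, (β - j - t)

theorem fj_succ (β : ℂ) (j r : ℕ) : fj β j (r + 1) = fj β j r * (β - j - r) :=
  Finset.prod_range_succ _ _

theorem fj_succ' (β : ℂ) (j r : ℕ) : fj β j (r + 1) = (β - j) * fj β (j + 1) r := by
  unfold fj
  rw [Finset.prod_range_succ', mul_comm]
  congr 1
  · simp
  · refine Finset.prod_congr rfl fun t _ => ?_
    push_cast
    ring

theorem fj_ne (β : ℂ) (hβ : ∀ n : ℕ, β ≠ n) (j r : ℕ) : fj β j r ≠ 0 :=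
  Finset.prod_ne_zero_iff.2 fun t _ => by
    intro h
    apply hβ (j + t)
    push_cast
    linear_combination h

theorem chain_pow {β : ℂ} {v : ℕ → V} (hv : ∀ i : ℕ, w.pX f (v (i + 1)) = (β - i) • v i)
    (j r : ℕ) : w.pX (f ^ r) (v (j + r)) = fj β j r • v j := by
  induction r with
  | zero => simp [fj]
  | succ r ih =>
    rw [← add_assoc, pow_succ, pX_mul, hv, map_smul, ih, smul_smul, fj_succ]
    congr 1
    push_cast
    ring

theorem chain_nil {β : ℂ} {v : ℕ → V} (hv0 : w.pX f (v 0) = 0)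
    (hv : ∀ i : ℕ, w.pX f (v (i + 1)) = (β - i) • v i) {j n : ℕ} (h : j < n) :
    w.pX (f ^ n) (v j) = 0 := by
  have h1 : w.pX (f ^ (j + 1)) (v j) = 0 := by
    have h2 := chain_pow w f hv 0 j
    rw [zero_add] at h2
    rw [pow_succ', pX_mul, h2, map_smul, hv0, smul_zero]
  exact nil_le w f h1 h

end Chain

/-! ### the polynomial `K(0, g)` -/

section KZero

variable {κ : Type} [DecidableEq κ] (g : MvPolynomial κ ℂ)

/-- `K(0, g)` -/
noncomputable def K0 (K : P2) : MvPolynomial κ ℂ := aeval ![0, g] K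

theorem const_QA (K : P2) : PowerSeries.constantCoeff (QA g K) = toF ℂ (K0 g K) := by
  have h : (PowerSeries.constantCoeff.comp (QA g : P2 →+* PowerSeries (FF ℂ κ))) =
      (algebraMap (MvPolynomial κ ℂ) (FF ℂ κ)).comp
        ((aeval ![0, g] : P2 →ₐ[ℂ] MvPolynomial κ ℂ) : P2 →+* MvPolynomial κ ℂ) := by
    apply MvPolynomial.ringHom_ext
    · intro c
      simp only [RingHom.comp_apply, RingHom.coe_coe]
      rw [QA_C, cR, PowerSeries.constantCoeff_C, aeval_C, ← IsScalarTower.algebraMap_apply]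
    · intro i
      simp only [RingHom.comp_apply, RingHom.coe_coe]
      fin_cases i
      · change PowerSeries.constantCoeff (QA g (X 0)) = algebraMap _ _ (aeval ![0, g] (X 0 : P2))
        rw [QA_X0, aeval_X]
        simp
      · change PowerSeries.constantCoeff (QA g (X 1)) = algebraMap _ _ (aeval ![0, g] (X 1 : P2))
        rw [QA_X1, aeval_X, PowerSeries.constantCoeff_C]
        rfl
  exact RingHom.congr_fun h K

theorem X0_dvd_sub (K : P2) : (X 0 : P2) ∣ K - aeval ![0, (X 1 : P2)] K := by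
  induction K using MvPolynomial.induction_on with
  | C c => rw [aeval_C]; exact ⟨0, by rw [mul_zero]; exact sub_self _⟩
  | add p q hp hq =>
    rw [map_add]
    have := dvd_add hp hq
    convert this using 1
    ring
  | mul_X p i hp =>
    rw [map_mul, aeval_X]
    fin_cases i
    · change (X 0 : P2) ∣ p * X 0 - _ * 0
      rw [mul_zero, sub_zero]
      exact dvd_mul_left _ _
    · change (X 0 : P2) ∣ p * X 1 - _ * X 1
      rw [← sub_mul]
      exact dvd_mul_of_dvd_left hp _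

theorem K0_ne {K : P2} (hg : g.totalDegree ≠ 0) (hK : ¬ X 0 ∣ K) : K0 g K ≠ 0 := by
  intro h0
  set q : Polynomial ℂ := aeval ![0, (Polynomial.X : Polynomial ℂ)] K with hq
  have h1 : ∀ (A : Type) [CommRing A] [Algebra ℂ A] (a : A),
      aeval ![0, a] K = Polynomial.aeval a q := by
    intro A _ _ a
    have : (aeval ![0, a] : P2 →ₐ[ℂ] A) =
        (Polynomial.aeval a).comp (aeval ![0, (Polynomial.X : Polynomial ℂ)]) := by
      apply MvPolynomial.algHom_ext
      intro i
      fin_cases i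
      · simp
      · simp
    rw [this]
    rfl
  have h2 : q = 0 := by
    apply Polynomial.funext
    intro c
    obtain ⟨x, hx⟩ := Adm5Aux.exists_value hg c
    have h3 := congrArg (eval x) h0
    rw [K0, h1, Adm5Aux.eval_aeval, hx, map_zero] at h3
    rw [h3, Polynomial.eval_zero]
  apply hK
  have h3 := X0_dvd_sub K
  rwa [h1, h2, map_zero, sub_zero] at h3

end KZero

/-! ### powers of `K(X, g)` -/

section Pow

variable {κ : Type} [DecidableEq κ]

theorem der_U (E : Derivation ℂ (PowerSeries (FF ℂ κ)) (PowerSeries (FF ℂ κ)))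
    {Q J c c' B e0 : PowerSeries (FF ℂ κ)} {γ : ℂ} (hJ : Q * J = 1) (hc : c * c' = 1)
    (hEc : E c = -(e0 * c)) (hB : c * Q * E B = cR γ * B * E (c * Q)) (i : ℕ) :
    E (B * J ^ i) = cR (γ - i) * (E Q * (B * J ^ (i + 1))) - cR γ * e0 * (B * J ^ i) := by
  have hEB : E B = cR γ * B * (J * E Q - e0) := by
    rw [Derivation.leibniz, hEc, smul_eq_mul, smul_eq_mul] at hB
    calc E B = (c * c') * (Q * J) * E B := by rw [hc, hJ, one_mul, one_mul]
      _ = c' * J * (c * Q * E B) := by ring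
      _ = c' * J * (cR γ * B * (c * E Q + Q * -(e0 * c))) := by rw [hB]
      _ = (c * c') * (cR γ * B * (J * E Q - (Q * J) * e0)) := by ring
      _ = cR γ * B * (J * E Q - e0) := by rw [hc, hJ, one_mul, one_mul]
  have hEJ : E J = -(J * J * E Q) := by
    have h1 := congrArg E hJ
    rw [Derivation.leibniz, Derivation.map_one_eq_zero, smul_eq_mul, smul_eq_mul] at h1
    calc E J = (Q * J) * E J := by rw [hJ, one_mul]
      _ = J * (Q * E J + J * E Q) - J * J * E Q := by ring
      _ = -(J * J * E Q) := by rw [h1]; ring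
  have hEJi : E (J ^ i) = -((i : PowerSeries (FF ℂ κ)) * J ^ (i + 1) * E Q) := by
    rcases i with _ | i
    · simp
    · rw [Derivation.leibniz_pow, Nat.add_sub_cancel, hEJ, smul_eq_mul, nsmul_eq_mul]
      ring
  have hcR : (cR (γ - i) : PowerSeries (FF ℂ κ)) = cR γ - (i : PowerSeries (FF ℂ κ)) := by
    unfold cR
    rw [map_sub, map_sub]
    simp
  rw [Derivation.leibniz, hEB, hEJi, hcR, smul_eq_mul, smul_eq_mul]
  ring

theorem exists_U (g : MvPolynomial κ ℂ) (K : P2) (γ : ℂ) (hK : K0 g K ≠ 0) :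
    ∃ U : ℕ → PowerSeries (FF ℂ κ), PowerSeries.constantCoeff (U 0) = 1 ∧
      (∀ i, QA g K * U (i + 1) = U i) ∧
      (∀ i : ℕ, dXf (U i) = cR (γ - i) * (QA g (pderiv 0 K) * U (i + 1))) ∧
      ∀ (b : κ) (i : ℕ), dCf (dF ℂ b) (U i) + PowerSeries.C
        (γ • (toF ℂ (pderiv b (K0 g K)) * (toF ℂ (K0 g K))⁻¹)) * U i =
        cR (γ - i) * (QA g (pderiv 1 K) * PowerSeries.C (toF ℂ (pderiv b g)) * U (i + 1)) := by
  set k0 : FF ℂ κ := toF ℂ (K0 g K) with hk0
  have hk : k0 ≠ 0 := toF_ne hK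
  set Q := QA g K with hQ
  have hQ0 : PowerSeries.constantCoeff Q = k0 := const_QA g K
  set J : PowerSeries (FF ℂ κ) := Q⁻¹ with hJd
  have hJ : Q * J = 1 := PowerSeries.mul_inv_cancel Q (by rw [hQ0]; exact hk)
  set c : PowerSeries (FF ℂ κ) := PowerSeries.C k0⁻¹ with hc
  set c' : PowerSeries (FF ℂ κ) := PowerSeries.C k0 with hc'
  have hcc : c * c' = 1 := by rw [hc, hc', ← map_mul, inv_mul_cancel₀ hk, map_one]
  have hH : PowerSeries.constantCoeff (c * Q) = 1 := by
    rw [map_mul, hQ0, hc, PowerSeries.constantCoeff_C, inv_mul_cancel₀ hk]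
  have hy : PowerSeries.constantCoeff (c * Q - 1) = 0 := by rw [map_sub, hH, map_one, sub_self]
  set B := bs γ (c * Q - 1) with hB
  have h1 : 1 + (c * Q - 1) = c * Q := by ring
  have hE : ∀ E : Derivation ℂ (PowerSeries (FF ℂ κ)) (PowerSeries (FF ℂ κ)),
      E (c * Q - 1) = E (c * Q) := fun E => by
    rw [map_sub, Derivation.map_one_eq_zero, sub_zero]
  have hX : ∀ x : FF ℂ κ, (dXD (R := ℂ)) (PowerSeries.C x) = 0 := by
    intro x
    rw [dXD_apply]
    exact PowerSeries.derivative_C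
  have hC : ∀ (b : κ) (x : FF ℂ κ), dCD (dF ℂ b) (PowerSeries.C x) = PowerSeries.C (dF ℂ b x) := by
    intro b x
    ext n
    rw [dCD_apply, dCf, PowerSeries.coeff_mk, PowerSeries.coeff_C, PowerSeries.coeff_C]
    split_ifs <;> simp
  refine ⟨fun i => B * J ^ i, ?_, ?_, ?_, ?_⟩
  · change PowerSeries.constantCoeff (B * J ^ 0) = 1
    rw [pow_zero, mul_one]; exact constantCoeff_bs γ _
  · intro i
    change Q * (B * J ^ (i + 1)) = B * J ^ i
    rw [pow_succ]
    calc Q * (B * (J ^ i * J)) = (Q * J) * (B * J ^ i) := by ring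
      _ = B * J ^ i := by rw [hJ, one_mul]
  · intro i
    have h2 := der_bs (dXD (R := ℂ)) hE_dX γ (c * Q - 1) hy
    rw [h1, hE] at h2
    have h3 := der_U (dXD (R := ℂ)) (e0 := 0) hJ hcc (by rw [hc, hX]; ring) h2 i
    rw [mul_zero, zero_mul, sub_zero, hQ, der_QA, hX, mul_zero, add_zero, dX_X, mul_one] at h3
    rw [← dXD_apply (R := ℂ)]
    exact h3
  · intro b i
    have h2 := der_bs (dCD (dF ℂ b)) (hE_dC (dF ℂ b)) γ (c * Q - 1) hy
    rw [h1, hE] at h2
    have h3 := der_U (dCD (dF ℂ b)) (e0 := PowerSeries.C (toF ℂ (pderiv b (K0 g K)) * k0⁻¹)) hJ hcc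
      (by
        rw [hc, hC, Derivation.leibniz_inv, hk0, dF_toF, smul_eq_mul, ← map_mul, ← map_neg]
        congr 1
        ring) h2 i
    rw [hQ, der_QA, dC_X, hC, dF_toF, mul_zero, zero_add] at h3
    rw [← dCD_apply, h3]
    have h4 : (PowerSeries.C (γ • (toF ℂ (pderiv b (K0 g K)) * k0⁻¹)) : PowerSeries (FF ℂ κ)) =
        cR γ * PowerSeries.C (toF ℂ (pderiv b (K0 g K)) * k0⁻¹) := by
      unfold cR
      rw [← map_mul, Algebra.smul_def]
    rw [h4]
    ring

end Pow

end AX7Aux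

open AX7Aux TF7Aux WBAux W4Aux POW7Aux in
theorem stmt_AX7 : Stmt_AX7 := by
  intro ι κ _ _ _ _ f g β K m l hg hK hlm hβ hW
  obtain ⟨V, i1, i2, w, v, hv0, hf0, hdf, hD, hv⟩ := hW
  have hm : 1 ≤ m := by omega
  have hmC : (m : ℂ) ≠ 0 := by
    have : m ≠ 0 := by omega
    exact_mod_cast this
  set γ : ℂ := (β - l) / m with hγ
  have hγm : ∀ i : ℕ, (m : ℂ) * (γ - i) = β - (m * i + l : ℕ) := by
    intro i
    rw [hγ]
    push_cast
    field_simp
    ring
  have hγne : ∀ i : ℕ, γ - i ≠ 0 := by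
    intro i h
    have := hγm i
    rw [h, mul_zero] at this
    exact hβ (m * i + l) (by linear_combination -this)
  have hK0 := K0_ne g hg hK
  obtain ⟨U, hU0, hUK, hUX, hUb⟩ := exists_U g K γ hK0
  set w' := fw (K0 g K) hK0 γ with hw'
  have hw : ∀ p x, w'.pX p x = toF ℂ p * x := fw_pX (K0 g K) hK0 γ
  have hnil : ∀ {j n : ℕ}, j < n → w.pX (f ^ n) (v j) = 0 := fun h => chain_nil w f hf0 hv h
  have hpow : ∀ j r : ℕ, w.pX (f ^ r) (v (j + r)) = fj β j r • v j := chain_pow w f hv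
  let cc : ℕ → ℂ := fun i => ∏ t ∈ Finset.range i, ((γ - t) / fj β (m * t + l) m)
  have hcc : ∀ i, cc (i + 1) * fj β (m * i + l) m = cc i * (γ - i) := by
    intro i
    change (∏ t ∈ Finset.range (i + 1), ((γ - t) / fj β (m * t + l) m)) * fj β (m * i + l) m =
      (∏ t ∈ Finset.range i, ((γ - t) / fj β (m * t + l) m)) * (γ - i)
    rw [Finset.prod_range_succ, mul_assoc, div_mul_cancel₀ _ (fj_ne β hβ _ _)]
  have hcc2 : ∀ i, cc (i + 1) * (m : ℂ) * fj β (m * i + l + 1) (m - 1) = cc i := by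
    intro i
    obtain ⟨m', hm'⟩ : ∃ m', m = m' + 1 := ⟨m - 1, by omega⟩
    have h1 := hcc i
    have h2 : fj β (m * i + l) m = (β - (m * i + l : ℕ)) * fj β (m * i + l + 1) (m - 1) := by
      have h3 := fj_succ' β (m * i + l) m'
      rw [← hm'] at h3
      rw [h3, show m - 1 = m' by omega]
    rw [h2, ← hγm] at h1
    apply mul_left_cancel₀ (hγne i)
    linear_combination h1
  -- the vectors
  let z : ℕ → V ⊗[ℂ] FF ℂ κ := fun i => cc i • Ph w f (m * i + l + 2) (U i) (v (m * i + l))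
  have hz : ∀ i n, m * i + l + 2 ≤ n → z i = cc i • Ph w f n (U i) (v (m * i + l)) := by
    intro i n hn
    change cc i • Ph w f (m * i + l + 2) (U i) (v (m * i + l)) = _
    rw [Ph_ext w f (U i) (hnil (by omega : m * i + l < m * i + l + 2)) hn]
  have hdown : ∀ (j r n : ℕ) (S : PowerSeries (FF ℂ κ)), j + r < n →
      Ph w f n (PowerSeries.X ^ r * S) (v (j + r)) = fj β j r • Ph w f n S (v j) := by
    intro j r n S hn
    rw [← Ph_fpow w f n _ (hnil hn) r S, hpow, Ph_smulv]
  set G : P2 := X 0 ^ m * K with hG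
  have hQG : QA g G = PowerSeries.X ^ m * QA g K := by rw [hG, map_mul, map_pow, QA_X0]
  have hQG0 : QA g (pderiv 0 G) = cR (m : ℂ) * (PowerSeries.X ^ (m - 1) * QA g K) +
      PowerSeries.X ^ m * QA g (pderiv 0 K) := by
    have h1 : pderiv (0 : Fin 2) G = C (m : ℂ) * (X 0 ^ (m - 1) * K) + X 0 ^ m * pderiv 0 K := by
      rw [hG, pderiv_mul, pderiv_pow, pderiv_X_self, mul_one]
      have : (C (m : ℂ) : P2) = (m : P2) := by simp
      rw [this]; ring
    rw [h1, map_add, map_mul, map_mul, map_mul, map_pow, map_pow, QA_X0, QA_C]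
  have hQG1 : QA g (pderiv 1 G) = PowerSeries.X ^ m * QA g (pderiv 1 K) := by
    have h1 : pderiv (1 : Fin 2) G = X 0 ^ m * pderiv 1 K := by
      rw [hG, pderiv_mul, pderiv_pow, pderiv_X_of_ne (by decide : (0 : Fin 2) ≠ 1)]
      ring
    rw [h1, map_mul, map_pow, QA_X0]
  have hidx : ∀ i : ℕ, m * (i + 1) + l = m * i + l + m := fun i => by ring
  -- the partial derivative with respect to `a`
  have hstar : ∀ i : ℕ, (tens w w').pX (comp2 (pderiv 0 G) f g) (z (i + 1)) =
      cc i • (Ph w f (m * i + l + m + 2) (U i) (v (m * i + l + 1)) +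
        Ph w f (m * i + l + m + 2) (dXf (U i)) (v (m * i + l))) := by
    intro i
    set j := m * i + l with hj
    set n := j + m + 2 with hn
    rw [hz (i + 1) n (by rw [hidx i]), hidx i, ← hj, map_smul,
      Ph_comp w w' f g hw n _ (hnil (by omega))]
    have h1 : QA g (pderiv 0 G) * U (i + 1) = cR (m : ℂ) * (PowerSeries.X ^ (m - 1) * U i) +
        PowerSeries.X ^ m * (QA g (pderiv 0 K) * U (i + 1)) := by
      rw [hQG0, ← hUK i]; ring
    have h2 : Ph w f n (PowerSeries.X ^ (m - 1) * U i) (v (j + m)) =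
        fj β (j + 1) (m - 1) • Ph w f n (U i) (v (j + 1)) := by
      have h3 := hdown (j + 1) (m - 1) n (U i) (by omega)
      rwa [show j + 1 + (m - 1) = j + m by omega] at h3
    rw [h1, Ph_addU, Ph_cR, h2, hdown j m n _ (by omega), hUX i, Ph_cR, smul_add, smul_add,
      smul_smul, smul_smul, smul_smul, smul_smul, hcc2 i, hcc i]
  refine ⟨V ⊗[ℂ] FF ℂ κ, inferInstance, inferInstance, tens w w', z, ?_, ?_, ?_, ?_, ?_⟩
  · -- not zero
    intro h0
    have h1 : (tens w w').pX (rename Sum.inl (f ^ l)) (z 0) = 0 := by rw [h0, map_zero]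
    have hcc0 : cc 0 = 1 := by
      change (∏ t ∈ Finset.range 0, _) = (1 : ℂ)
      simp
    rw [hz 0 (m * 0 + l + 2) le_rfl, hcc0, one_smul, Ph_inl,
      show v (m * 0 + l) = v (0 + l) by rw [mul_zero], hpow 0 l, Ph_smulv,
      Ph_ext w f (U 0) (hnil (by omega : 0 < 1)) (by omega)] at h1
    have h2 : Ph w f 1 (U 0) (v 0) = v 0 ⊗ₜ[ℂ] (1 : FF ℂ κ) := by
      unfold Ph
      rw [Finset.sum_range_one, pow_zero, PowerSeries.coeff_zero_eq_constantCoeff_apply, hU0,
        map_one]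
      rfl
    rw [h2] at h1
    exact smul_ne_zero (fj_ne β hβ 0 l) (tmul_ne hv0 one_ne_zero) h1
  · -- `F z_0 = 0`
    rw [hz 0 (m * 0 + l + 2) le_rfl, map_smul, Ph_comp w w' f g hw _ _ (hnil (by omega)), hQG,
      mul_assoc, ← Ph_fpow w f _ _ (hnil (by omega)), hnil (by omega), Ph_zerov, smul_zero]
  · -- `dF z_0 = 0`
    intro a
    rcases a with a | a
    · rw [pd_comp_inl, mul_comm, pX_mul, hz 0 (m * 0 + l + 2) le_rfl, map_smul,
        Ph_comp w w' f g hw _ _ (hnil (by omega)), map_smul, Ph_inl, hQG0]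
      have h1 : (cR (m : ℂ) * (PowerSeries.X ^ (m - 1) * QA g K) +
          PowerSeries.X ^ m * QA g (pderiv 0 K)) * U 0 =
          PowerSeries.X ^ (m - 1) * ((cR (m : ℂ) * QA g K + PowerSeries.X * QA g (pderiv 0 K)) *
            U 0) := by
        obtain ⟨m', rfl⟩ : ∃ m', m = m' + 1 := ⟨m - 1, by omega⟩
        rw [Nat.add_sub_cancel, pow_succ]
        ring
      have h2 : w.pX (f ^ (m - 1)) (w.pX (pderiv a f) (v (m * 0 + l))) = 0 := by
        rw [← pX_mul, mul_comm, pX_mul]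
        rcases Nat.lt_or_ge l (m - 1) with h3 | h3
        · rw [hnil (by omega), map_zero]
        · have h4 : m * 0 + l = 0 + (m - 1) := by omega
          rw [h4, hpow, map_smul, hdf, smul_zero]
      rw [h1, ← Ph_fpow w f _ _ (nil_pX w f (hnil (by omega)) _), h2, Ph_zerov, smul_zero]
    · rw [pd_comp_inr, mul_comm, pX_mul, hz 0 (m * 0 + l + 2) le_rfl, map_smul,
        Ph_comp w w' f g hw _ _ (hnil (by omega)), hQG1, mul_assoc,
        ← Ph_fpow w f _ _ (hnil (by omega)), hnil (by omega), Ph_zerov, smul_zero, map_zero]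
  · -- derivatives
    intro i a
    set j := m * i + l with hj
    rcases a with a | a
    · have hL : (tens w w').D' (Sum.inl a) (z i) =
          cc i • (Ph w f (j + m + 2) (U i) (w.pX (pderiv a f) (v (j + 1))) +
            Ph w f (j + m + 2) (dXf (U i)) (w.pX (pderiv a f) (v j))) := by
        rw [hz i (j + m + 1 + 1) (by omega), ← hj, map_smul, D_inlPh, hD,
          Ph_ext w f (n := j + m + 1) (n' := j + m + 2) (dXf (U i))
            (nil_pX w f (hnil (by omega)) _) (by omega)]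
      have hR : (tens w w').pX (rename Sum.inl (pderiv a f))
          (cc i • (Ph w f (j + m + 2) (U i) (v (j + 1)) +
            Ph w f (j + m + 2) (dXf (U i)) (v j))) =
          cc i • (Ph w f (j + m + 2) (U i) (w.pX (pderiv a f) (v (j + 1))) +
            Ph w f (j + m + 2) (dXf (U i)) (w.pX (pderiv a f) (v j))) := by
        rw [map_smul, map_add, Ph_inl, Ph_inl]
      rw [pd_comp_inl, mul_comm, pX_mul, hstar i, ← hj, hL, hR]
    · have h1 : (PowerSeries.mk fun k => w'.D' a (PowerSeries.coeff k (U i))) =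
          dCf (dF ℂ a) (U i) + PowerSeries.C
            (γ • (toF ℂ (pderiv a (K0 g K)) * (toF ℂ (K0 g K))⁻¹)) * U i := by
        ext k
        rw [PowerSeries.coeff_mk, map_add, PowerSeries.coeff_C_mul, dCf, PowerSeries.coeff_mk, hw',
          fw_D]
      have hL : (tens w w').D' (Sum.inr a) (z i) = (cc i * (γ - i)) •
          Ph w f (j + m + 2) (QA g (pderiv 1 K) * PowerSeries.C (toF ℂ (pderiv a g)) * U (i + 1))
            (v j) := by
        rw [hz i (j + m + 2) (by omega), ← hj, map_smul, D_inrPh, h1, hUb a i, Ph_cR, smul_smul]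
      have hR : (tens w w').pX (comp2 (pderiv 1 G) f g) (z (i + 1)) = (cc i * (γ - i)) •
          Ph w f (j + m + 2) (QA g (pderiv 1 K) * U (i + 1)) (v j) := by
        rw [hz (i + 1) (j + m + 2) (by rw [hidx i]), hidx i, ← hj,
          map_smul, Ph_comp w w' f g hw _ _ (hnil (by omega)), hQG1, mul_assoc,
          hdown j m _ _ (by omega), smul_smul, hcc i]
      rw [pd_comp_inr, mul_comm, pX_mul, hR, hL, map_smul, Ph_inr w w' f hw]
      congr 2
      ring
  · -- multiplication by `F`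
    intro i
    set j := m * i + l with hj
    rw [hz (i + 1) (j + m + 2) (by rw [hidx i]), hidx i, ← hj, map_smul,
      Ph_comp w w' f g hw _ _ (hnil (by omega)), hQG, mul_assoc, hUK i, hdown j m _ _ (by omega),
      smul_smul, hcc i, hz i (j + m + 2) (by omega), ← hj, smul_smul, mul_comm]

end Pool.Agent.Mono.BG
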