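import Pool.Agent.Work.Monodromy7.VL7
import Pool.Agent.Work.Monodromy6.VF0

/-!
# Block CN7 (helper63): a point where `s^A w^B` is the leading term
-/

set_option autoImplicit false
set_option linter.unusedSectionVars false

namespace Pool.Agent.Mono.BV

open MvPolynomial TS RO RO.VGAux RO.TG5Aux PC PC.PL

namespace VL7

/-- the classes `c2a` are classes of constructible sets -/
theorem con_c2a {E : Type} [Finite E] {t : Fam} (ht : t.Good) (g : P2)
    {Q : Set ((E ⊕ Unit) ⊕ Unit → ℂ)} (hQ : Constructible Q) :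
    Constructible {z : (E ⊕ Unit) ⊕ t.σ → ℂ | z (Sum.inl (Sum.inr ())) ≠ 0 ∧
      (fun s => z (Sum.inr s)) ∈ t.S ∧ (Sum.elim (fun e => z (Sum.inl e)) fun _ =>
        eval ![z (Sum.inl (Sum.inr ())), eval (fun s => z (Sum.inr s)) t.u] g) ∈ Q} := by
  refine (con_ne (IP.coord _)).inter ((con_pre (F := fun z : (E ⊕ Unit) ⊕ t.σ → ℂ =>
    fun s => z (Sum.inr s)) (fun s => IP.coord _) ht.1).inter
      (con_pre (F := fun z : (E ⊕ Unit) ⊕ t.σ → ℂ => Sum.elim (fun e => z (Sum.inl e)) fun _ =>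
        eval ![z (Sum.inl (Sum.inr ())), eval (fun s => z (Sum.inr s)) t.u] g) ?_ hQ))
  rintro (e | e)
  · exact IP.coord _
  · have h := IP.ev (ι := (E ⊕ Unit) ⊕ t.σ) g (τ := fun (a : Fin 2) z =>
      (![z (Sum.inl (Sum.inr ())), eval (fun s => z (Sum.inr s)) t.u] : Fin 2 → ℂ) a) (by
        intro a
        fin_cases a
        · exact IP.coord _
        · exact IP.ev t.u fun s => IP.coord _)
    exact h

end VL7

theorem stmt_CN7 : Stmt_CN7 := by
  intro P t G A B k l ht hk hc hG E _ Q hQ m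
  haveI := t.fin
  set g : P2 := C (G.coeff (mon A B)) * X 0 ^ A * X 1 ^ B with hg
  have hev : ∀ a b : ℂ, eval ![a, b] g = G.coeff (mon A B) * a ^ A * b ^ B := by
    intro a b
    simp [hg]
  have hv : ∀ d ∈ G.support, d ≠ mon A B → k * A + l * B < k * d 0 + l * d 1 := by
    intro d hd hne
    have h := hG d hd hne
    rw [Nat.mul_comm k A, Nat.mul_comm l B, Nat.mul_comm k (d 0), Nat.mul_comm l (d 1)]
    exact h
  have hord : ∀ (z : ((E ⊕ Unit) ⊕ t.σ → ℂ) × (Unit → PowerSeries ℂ)),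
      z.1 (Sum.inl (Sum.inr ())) ≠ 0 → (fun s => z.1 (Sum.inr s)) ∈ t.S →
      (Lead Q m (fun e => z.1 (Sum.inl e)) (ev G k (z.1 (Sum.inl (Sum.inr ())))
        (arcE (eval (fun s => z.1 (Sum.inr s)) t.u) l (z.2 ()))) ↔ m = A * k + B * l ∧
        (Sum.elim (fun e => z.1 (Sum.inl e)) fun _ =>
      eval ![z.1 (Sum.inl (Sum.inr ())), eval (fun s => z.1 (Sum.inr s)) t.u] g) ∈ Q) := by
    intro z ha hS
    obtain ⟨e1, e2⟩ := ev_vertex G k l A B (z.1 (Sum.inl (Sum.inr ())))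
      (arcE (eval (fun s => z.1 (Sum.inr s)) t.u) l (z.2 ()))
      (fun j hj => VL7.coeff_arcE_lt _ _ hj) hv
    rw [VL7.coeff_arcE_self] at e2
    have e3 : PowerSeries.coeff (k * A + l * B) (ev G k (z.1 (Sum.inl (Sum.inr ())))
        (arcE (eval (fun s => z.1 (Sum.inr s)) t.u) l (z.2 ()))) ≠ 0 := by
      rw [e2]
      exact mul_ne_zero (mul_ne_zero hc (pow_ne_zero _ ha)) (pow_ne_zero _ (ht.2 _ hS))
    rw [lead_of_ord hQ e1 e3 m, e2, Nat.mul_comm k A, Nat.mul_comm l B, hev]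
  unfold e2
  by_cases hm : m = A * k + B * l
  · rw [if_pos hm]
    have hset : ES t G Q k l m = {z : ((E ⊕ Unit) ⊕ t.σ → ℂ) × (Unit → PowerSeries ℂ) |
        (∀ j < 0, PowerSeries.coeff j (z.2 ()) = 0) ∧ z.1 ∈
          {z : (E ⊕ Unit) ⊕ t.σ → ℂ | z (Sum.inl (Sum.inr ())) ≠ 0 ∧
    (fun s => z (Sum.inr s)) ∈ t.S ∧ (Sum.elim (fun e => z (Sum.inl e)) fun _ =>
      eval ![z (Sum.inl (Sum.inr ())), eval (fun s => z (Sum.inr s)) t.u] g) ∈ Q}} := by
      ext z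
      constructor
      · rintro ⟨h1, h2, h3⟩
        exact ⟨fun j hj => absurd hj (Nat.not_lt_zero j), h1, h2, ((hord z h1 h2).1 h3).2⟩
      · rintro ⟨-, h1, h2, h3⟩
        exact ⟨h1, h2, (hord z h1 h2).2 ⟨hm, h3⟩⟩
    rw [hset, vol_pl0 P (VL7.con_c2a ht g hQ.1), pow_zero, one_mul]
    rfl
  · rw [if_neg hm]
    have hset : ES t G Q k l m = ∅ := by
      rw [Set.eq_empty_iff_forall_notMem]
      rintro z ⟨h1, h2, h3⟩
      exact hm ((hord z h1 h2).1 h3).1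
    rw [hset]
    exact vol_empty P.rat (TS.VAAux.L_mul P)

end Pool.Agent.Mono.BV
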