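import Pool.Agent.Work.Monodromy7.MU7
import Pool.Agent.Work.Monodromy6.VSH

/-!
# Block CO7 (helper34): coordinate changes in the free variable at the origin
-/

set_option autoImplicit false
set_option linter.unusedSectionVars false
set_option maxHeartbeats 400000

namespace Pool.Agent.Mono.BV

open MvPolynomial TS RO RO.VGAux PC MU7Aux

namespace CO7Aux

/-! ## The first coefficient of an arc as a parameter -/

/-- the tail of an arc -/
noncomputable def tl (y : PowerSeries ℂ) : PowerSeries ℂ :=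
  PowerSeries.mk fun n => PowerSeries.coeff (n + 1) y

theorem coeff_tl (y : PowerSeries ℂ) (l : ℕ) :
    PowerSeries.coeff l (tl y) = PowerSeries.coeff (l + 1) y := by
  rw [tl, PowerSeries.coeff_mk]

theorem X_mul_tl (y : PowerSeries ℂ) :
    y = PowerSeries.X * tl y + PowerSeries.C (PowerSeries.coeff 0 y) := by
  rw [PowerSeries.coeff_zero_eq_constantCoeff_apply]
  exact PowerSeries.eq_X_mul_shift_add_const y

/-- levels -/
def KL (N : ℕ) : Fin 2 → ℕ := ![N, N + 1]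

variable {E : Type}

/-- the renaming of the coefficients -/
def rh (E : Type) (N : ℕ) : (E ⊕ Unit) ⊕ (Σ _ : Fin 2, Fin N) → E ⊕ (Σ i : Fin 2, Fin (KL N i)) :=
  Sum.elim (Sum.elim Sum.inl fun _ => Sum.inr ⟨1, (0 : Fin (N + 1))⟩)
    fun s => if s.1 = 0 then Sum.inr ⟨0, s.2⟩ else Sum.inr ⟨1, Fin.succ s.2⟩

theorem rh_bij (E : Type) (N : ℕ) : Function.Bijective (rh E N) := by
  constructor
  · rintro ((a | a) | ⟨i, l⟩) ((b | b) | ⟨j, l'⟩) h
    · simp only [rh, Sum.elim_inl, Sum.inl.injEq] at h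
      rw [h]
    · simp [rh] at h
    · fin_cases j <;> simp [rh] at h
    · simp [rh] at h
    · rfl
    · fin_cases j
      · simp [rh] at h
      · simp [rh] at h
        exact absurd h.symm (Fin.succ_ne_zero _)
    · fin_cases i <;> simp [rh] at h
    · fin_cases i
      · simp [rh] at h
      · simp [rh] at h
        exact absurd h (Fin.succ_ne_zero _)
    · fin_cases i <;> fin_cases j
      · simp [rh] at h
        rw [h]
      · simp [rh] at h
      · simp [rh] at h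
      · simp [rh] at h
        have := Fin.succ_injective _ h
        rw [this]
  · rintro (a | ⟨i, l⟩)
    · exact ⟨Sum.inl (Sum.inl a), rfl⟩
    · fin_cases i
      · exact ⟨Sum.inr ⟨0, l⟩, rfl⟩
      · obtain ⟨l, hl⟩ := l
        rcases l with _ | j
        · exact ⟨Sum.inl (Sum.inr ()), rfl⟩
        · exact ⟨Sum.inr ⟨1, ⟨j, Nat.lt_of_succ_lt_succ hl⟩⟩, rfl⟩

/-- a set described by the first coefficient and the tail of the second arc -/
def hd (C : Set ((E ⊕ Unit → ℂ) × (Fin 2 → PowerSeries ℂ))) :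
    Set ((E → ℂ) × (Fin 2 → PowerSeries ℂ)) :=
  {z | (Sum.elim z.1 (fun _ => PowerSeries.coeff 0 (z.2 1)), ![z.2 0, tl (z.2 1)]) ∈ C}

theorem vol_hd (P : HodgeMeasure) [Finite E]
    {C : Set ((E ⊕ Unit → ℂ) × (Fin 2 → PowerSeries ℂ))} (hC : Cy C) :
    vol P.rat xq (hd C) = xq * vol P.rat xq C := by
  obtain ⟨N, hN⟩ := hC
  have hCN := hN N le_rfl
  set ρ : (E ⊕ Unit) ⊕ (Σ _ : Fin 2, Fin N) ≃ E ⊕ (Σ i : Fin 2, Fin (KL N i)) :=
    Equiv.ofBijective (rh E N) (rh_bij E N) with hρ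
  have key : ∀ v : E ⊕ (Σ i : Fin 2, Fin (KL N i)) → ℂ,
      ((Sum.elim (fun p => v (Sum.inl p)) (fun _ : Unit => PowerSeries.coeff 0
        (toArc (KL N) (fun s => v (Sum.inr s)) 1)) : E ⊕ Unit → ℂ),
        (![toArc (KL N) (fun s => v (Sum.inr s)) 0,
          tl (toArc (KL N) (fun s => v (Sum.inr s)) 1)] : Fin 2 → PowerSeries ℂ)) =
        ((fun p => v (ρ (Sum.inl p))), toArc (fun _ => N) fun s => v (ρ (Sum.inr s))) := by
    intro v
    refine Prod.ext ?_ ?_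
    · funext p
      rcases p with p | p
      · rfl
      · refine (coeff_toArc (KL N) (fun s => v (Sum.inr s)) 1 0).trans ?_
        rw [dif_pos (show 0 < KL N 1 from Nat.succ_pos N)]
        rfl
    · funext i
      ext l
      refine Eq.trans ?_ (coeff_toArc (fun _ => N) (fun s => v (ρ (Sum.inr s))) i l).symm
      fin_cases i
      · refine (coeff_toArc (KL N) (fun s => v (Sum.inr s)) 0 l).trans ?_
        by_cases hl : l < N
        · rw [dif_pos (show l < KL N 0 from hl), dif_pos hl]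
          rfl
        · rw [dif_neg (show ¬ l < KL N 0 from hl), dif_neg hl]
      · refine (coeff_tl _ l).trans ((coeff_toArc (KL N) (fun s => v (Sum.inr s)) 1 (l + 1)).trans ?_)
        by_cases hl : l < N
        · rw [dif_pos (show l + 1 < KL N 1 from Nat.succ_lt_succ hl), dif_pos hl]
          rfl
        · rw [dif_neg (show ¬ l + 1 < KL N 1 from fun h => hl (Nat.lt_of_succ_lt_succ h)),
            dif_neg hl]
  have hsec : sec (KL N) (hd C) = {v : E ⊕ (Σ i : Fin 2, Fin (KL N i)) → ℂ |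
      (fun j => v (ρ j)) ∈ sec (fun _ => N) C} := by
    ext v
    change (_, _) ∈ C ↔ (_, _) ∈ C
    rw [key v]
  have hcyl : IsCyl (KL N) (hd C) := by
    constructor
    · intro p x y hxy
      have h0 : PowerSeries.coeff 0 (x 1) = PowerSeries.coeff 0 (y 1) := hxy 1 0 (Nat.succ_pos N)
      change (_, _) ∈ C ↔ (_, _) ∈ C
      dsimp only
      rw [h0]
      refine hCN.1 _ _ _ fun i l hl => ?_
      fin_cases i
      · exact hxy 0 l hl
      · exact (coeff_tl _ l).trans ((hxy 1 (l + 1) (Nat.succ_lt_succ hl)).trans (coeff_tl _ l).symm)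
    · rw [hsec]
      exact Constructible.comap _ hCN.2
  have hL := VAAux.L_mul P
  rw [vol_eq P.rat hL hcyl, vol_eq P.rat hL hCN, hsec, P.rat.reindex ρ hCN.2]
  simp only [Fin.sum_univ_two]
  have e : KL N 0 + KL N 1 = N + N + 1 := rfl
  rw [e, pow_succ]
  ring

/-! ## Parameters -/

theorem vol_ren (P : HodgeMeasure) {E' ι : Type} [Finite E] [Finite E'] [Fintype ι] (r : E ≃ E')
    {D : Set ((E → ℂ) × (ι → PowerSeries ℂ))} (hD : Cy D) :
    vol P.rat xq {z : (E' → ℂ) × (ι → PowerSeries ℂ) | ((fun e => z.1 (r e)), z.2) ∈ D} =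
      vol P.rat xq D := by
  refine vol_base P (Cy.pull hD (φ := fun e z => z.1 (r e)) (fun e => RF.par _) id) hD r ?_ ?_ ?_
  · intro z hz
    exact hz
  · intro z _ z' _ h _
    funext e
    have := congrFun h (r.symm e)
    simpa using this
  · intro z hz
    refine ⟨fun e => z.1 (r.symm e), ?_, ?_⟩
    · funext e
      simp
    · change ((fun e => z.1 (r.symm (r e))), z.2) ∈ D
      simpa using hz

/-! ## The sets -/

/-- the second arc is divisible by `t^L` -/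
def ZS (t : Fam) (G : P2) (Q : Set (E ⊕ Unit → ℂ)) (k L m : ℕ) :
    Set ((E ⊕ t.σ → ℂ) × (Fin 2 → PowerSeries ℂ)) :=
  {z | (fun s => z.1 (Sum.inr s)) ∈ t.S ∧ Lead Q m (fun e => z.1 (Sum.inl e)) (aeval ![
      arcE (eval (fun s => z.1 (Sum.inr s)) t.u) k (z.2 0), PowerSeries.X ^ L * z.2 1] G)}

/-- the same with the leading coefficient of the second arc as a parameter -/
def WS (t : Fam) (G : P2) (Q : Set (E ⊕ Unit → ℂ)) (k L m : ℕ) :
    Set (((E ⊕ t.σ) ⊕ Unit → ℂ) × (Fin 2 → PowerSeries ℂ)) :=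
  {z | (fun s => z.1 (Sum.inl (Sum.inr s))) ∈ t.S ∧
    Lead Q m (fun e => z.1 (Sum.inl (Sum.inl e))) (aeval ![
      arcE (eval (fun s => z.1 (Sum.inl (Sum.inr s))) t.u) k (z.2 0),
      arcE (z.1 (Sum.inr ())) L (z.2 1)] G)}

theorem RF_Xpow {ι : Type} {w : (E → ℂ) × (ι → PowerSeries ℂ) → PowerSeries ℂ}
    (hw : ∀ l, RF fun z => PowerSeries.coeff l (w z)) (L l : ℕ) :
    RF fun z => PowerSeries.coeff l (PowerSeries.X ^ L * w z) := by
  simp only [PowerSeries.coeff_X_pow_mul']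
  exact RF.ite _ (hw _) (RF.const 0)

theorem cy_ZS [Finite E] {t : Fam} (ht : t.Good) (G : P2) {Q : Set (E ⊕ Unit → ℂ)}
    (hQ : Constructible Q) (k L m : ℕ) : haveI := t.fin; Cy (ZS t G Q k L m) := by
  haveI := t.fin
  exact Cy.and (VL7.cy_S ht.1 Sum.inr) (VL7.cy_lead hQ m (fun e => RF.par _) fun j =>
    VL7.RF.two G (VL7.RF.arcE (VL7.RF_u t.u Sum.inr) k fun j => RF.arc 0 j)
      (RF_Xpow (fun j => RF.arc 1 j) L) j)

theorem cy_WS [Finite E] {t : Fam} (ht : t.Good) (G : P2) {Q : Set (E ⊕ Unit → ℂ)}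
    (hQ : Constructible Q) (k L m : ℕ) : haveI := t.fin; Cy (WS t G Q k L m) := by
  haveI := t.fin
  exact Cy.and (VL7.cy_S ht.1 fun s => Sum.inl (Sum.inr s)) (VL7.cy_lead hQ m
    (fun e => RF.par _) fun j => VL7.RF.two G
      (VL7.RF.arcE (VL7.RF_u t.u fun s => Sum.inl (Sum.inr s)) k fun j => RF.arc 0 j)
      (VL7.RF.arcE (RF.par _) L fun j => RF.arc 1 j) j)

theorem ZS_eq (t : Fam) (G : P2) (Q : Set (E ⊕ Unit → ℂ)) (k L m : ℕ) :
    ZS t G Q k L m = hd (WS t G Q k L m) := by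
  ext z
  have e : PowerSeries.X ^ L * z.2 1 = arcE (PowerSeries.coeff 0 (z.2 1)) L (tl (z.2 1)) := by
    conv_lhs => rw [X_mul_tl (z.2 1)]
    rw [arcE]
    ring
  change (_ ∧ Lead Q m _ (aeval ![_, PowerSeries.X ^ L * z.2 1] G)) ↔ _
  rw [e]
  exact Iff.rfl

noncomputable def vZ (P : HodgeMeasure) [Finite E] (t : Fam) (G : P2) (Q : Set (E ⊕ Unit → ℂ))
    (k L m : ℕ) : K :=
  haveI := t.fin
  vol P.rat xq (ZS t G Q k L m)

theorem evu (f : (haar 1).σ → ℂ) : eval f (haar 1).u = f () := by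
  have e1 : ∀ f : Unit → ℂ, eval f (X () : MvPolynomial Unit ℂ) = f () := fun f => eval_X _
  exact e1 f

theorem mem_XS_haar (t : Fam) (G : P2) (Q : Set (E ⊕ Unit → ℂ)) (k l m : ℕ)
    (z : (E ⊕ (t.σ ⊕ (haar 1).σ) → ℂ) × (Fin 2 → PowerSeries ℂ)) :
    z ∈ XS t (haar 1) G Q k l m ↔ (fun s => z.1 (Sum.inr (Sum.inl s))) ∈ t.S ∧
      z.1 (Sum.inr (Sum.inr ())) ≠ 0 ∧ Lead Q m (fun e => z.1 (Sum.inl e)) (aeval ![
        arcE (eval (fun s => z.1 (Sum.inr (Sum.inl s))) t.u) k (z.2 0),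
        arcE (z.1 (Sum.inr (Sum.inr ()))) l (z.2 1)] G) := by
  unfold XS
  rw [Set.mem_ofPred_eq, evu]
  exact Iff.rfl

theorem vZ_step (P : HodgeMeasure) [Finite E] {t : Fam} (ht : t.Good) (G : P2)
    {Q : Set (E ⊕ Unit → ℂ)} (hQ : QU Q) (k L m : ℕ) :
    vZ P t G Q k L m = xq * x2 P t (haar 1) G Q k L m + xq * vZ P t G Q k (L + 1) m := by
  haveI := t.fin
  have hW := cy_WS ht G hQ.1 k L m
  unfold vZ
  rw [ZS_eq t G Q k L m, vol_hd P hW, ← mul_add]
  congr 1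
  set A : Set (((E ⊕ t.σ) ⊕ Unit → ℂ) × (Fin 2 → PowerSeries ℂ)) :=
    {z | z.1 (Sum.inr ()) ≠ 0 ∧ z ∈ WS t G Q k L m} with hA
  set B : Set (((E ⊕ t.σ) ⊕ Unit → ℂ) × (Fin 2 → PowerSeries ℂ)) :=
    {z | z.1 (Sum.inr ()) = 0 ∧ z ∈ WS t G Q k L m} with hB
  have cA : Cy A := Cy.and (Cy.not (Cy.zero (RF.par _))) hW
  have cB : Cy B := Cy.and (Cy.zero (RF.par _)) hW
  have hAB : WS t G Q k L m = A ∪ B := by
    ext z
    constructor
    · intro hz
      by_cases h : z.1 (Sum.inr ()) = 0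
      · exact Or.inr ⟨h, hz⟩
      · exact Or.inl ⟨h, hz⟩
    · rintro (h | h)
      · exact h.2
      · exact h.2
  have hdis : Disjoint A B := by
    rw [Set.disjoint_left]
    rintro z h1 h2
    exact h1.1 h2.1
  rw [hAB, vol_uni P cA cB hdis]
  congr 1
  · -- the part of exact order
    have h1 := vol_ren P (Equiv.sumAssoc E t.σ Unit) cA
    rw [← h1]
    unfold x2
    refine congrArg (vol P.rat xq) ?_
    ext z
    refine Iff.trans ?_ (mem_XS_haar t G Q k L m z).symm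
    constructor
    · rintro ⟨h2, h3, h4⟩
      exact ⟨h3, h2, h4⟩
    · rintro ⟨h3, h2, h4⟩
      exact ⟨h2, h3, h4⟩
  · -- the rest
    refine vol_base P cB (cy_ZS ht G hQ.1 k (L + 1) m) Sum.inl ?_ ?_ ?_
    · rintro z ⟨h1, h2, h3⟩
      refine ⟨h2, ?_⟩
      have e : arcE (z.1 (Sum.inr ())) L (z.2 1) = PowerSeries.X ^ (L + 1) * z.2 1 := by
        rw [arcE, h1, map_zero, zero_mul, zero_add]
      rw [e] at h3
      exact h3
    · rintro z ⟨h1, -⟩ z' ⟨h1', -⟩ h2 -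
      funext s
      rcases s with s | s
      · exact congrFun h2 s
      · exact h1.trans h1'.symm
    · rintro z ⟨h1, h2⟩
      refine ⟨Sum.elim z.1 fun _ => 0, rfl, rfl, h1, ?_⟩
      have e : arcE (0 : ℂ) L (z.2 1) = PowerSeries.X ^ (L + 1) * z.2 1 := by
        rw [arcE, map_zero, zero_mul, zero_add]
      change Lead Q m _ (aeval ![_, arcE (0 : ℂ) L (z.2 1)] G)
      rw [e]
      exact h2

theorem vZ_large (P : HodgeMeasure) [Finite E] {t : Fam} (ht : t.Good) (G : P2)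
    {Q : Set (E ⊕ Unit → ℂ)} (hQ : QU Q) (k L m : ℕ) (hL : m < L) :
    vZ P t G Q k L m = y1 P t G Q k m := by
  haveI := t.fin
  have hY : Cy (YS t G Q k m) := VL7.cy_YS ht G hQ.1 k m
  obtain ⟨N, hN⟩ := hY
  have h2 := T0Aux.vol_comp P (φ := fun _ : Unit => (0 : Fin 2)) (fun _ _ _ => rfl) (hN N le_rfl)
  unfold vZ y1
  rw [← h2]
  refine congrArg (vol P.rat xq) ?_
  ext z
  have h4 : ∀ (α w : PowerSeries ℂ) (p : E → ℂ),
      Lead Q m p (aeval ![α, PowerSeries.X ^ L * w] G) ↔ Lead Q m p (aeval ![α, 0] G) := by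
    intro α w p
    refine lead_congr (two_congr G fun j hj => ?_)
    rw [PowerSeries.coeff_X_pow_mul', if_neg (by omega), map_zero]
  exact and_congr Iff.rfl (h4 _ _ _)

theorem vZ_sum (P : HodgeMeasure) [Finite E] {t : Fam} (ht : t.Good) (G : P2)
    {Q : Set (E ⊕ Unit → ℂ)} (hQ : QU Q) (k m M : ℕ) :
    vZ P t G Q k 1 m = ∑ l ∈ Finset.Icc 1 M, xq ^ l * x2 P t (haar 1) G Q k l m +
      xq ^ M * vZ P t G Q k (M + 1) m := by
  induction M with
  | zero => simp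
  | succ M ih =>
    rw [ih, vZ_step P ht G hQ k (M + 1) m, Finset.sum_Icc_succ_top (by omega), pow_succ]
    ring

/-! ## The change of coordinates -/

/-- the first arc -/
noncomputable def al (t : Fam) (k : ℕ) (p : E ⊕ t.σ → ℂ) (x : Fin 2 → PowerSeries ℂ) :
    PowerSeries ℂ :=
  arcE (eval (fun s => p (Sum.inr s)) t.u) k (x 0)

theorem aeval_poly (α : PowerSeries ℂ) (ψ : Polynomial ℂ) :
    Polynomial.aeval α ψ = aeval ![α, 0] (Polynomial.aeval (X 0 : P2) ψ) := by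
  rw [← Polynomial.aeval_algHom_apply]
  simp

/-- the change of coordinates -/
noncomputable def tz (t : Fam) (ψ : Polynomial ℂ) (k : ℕ) (p : E ⊕ t.σ → ℂ)
    (x : Fin 2 → PowerSeries ℂ) : Fin 2 → PowerSeries ℂ :=
  ![x 0, x 1 + tl (Polynomial.aeval (al t k p x) ψ)]

theorem tz_congr (t : Fam) (ψ : Polynomial ℂ) (k : ℕ) (p : E ⊕ t.σ → ℂ)
    (x y : Fin 2 → PowerSeries ℂ) (N : ℕ)
    (h : ∀ i, ∀ l < N, PowerSeries.coeff l (x i) = PowerSeries.coeff l (y i)) :
    ∀ i, ∀ l < N, PowerSeries.coeff l (tz t ψ k p x i) = PowerSeries.coeff l (tz t ψ k p y i) := by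
  have h1 : ∀ l < N + 1, PowerSeries.coeff l (al t k p x) = PowerSeries.coeff l (al t k p y) := by
    intro l hl
    rw [al, al, VL7.coeff_arcE, VL7.coeff_arcE]
    congr 1
    split_ifs with h2
    · exact h 0 _ (by omega)
    · rfl
  intro i l hl
  fin_cases i
  · exact h 0 l hl
  · change PowerSeries.coeff l (x 1 + tl _) = PowerSeries.coeff l (y 1 + tl _)
    rw [map_add, map_add, h 1 l hl, coeff_tl, coeff_tl, aeval_poly, aeval_poly]
    congr 1
    refine GJetAux.aeval_congr _ (N + 1) _ _ (fun i l hl => ?_) (l + 1) (by omega)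
    fin_cases i
    · exact h1 l hl
    · rfl

theorem RF_tz (t : Fam) (ψ : Polynomial ℂ) (k : ℕ) (i : Fin 2) (l : ℕ) :
    RF fun z : (E ⊕ t.σ → ℂ) × (Fin 2 → PowerSeries ℂ) =>
      PowerSeries.coeff l (tz t ψ k z.1 z.2 i) := by
  fin_cases i
  · exact RF.arc 0 l
  · change RF fun z : (E ⊕ t.σ → ℂ) × (Fin 2 → PowerSeries ℂ) =>
      PowerSeries.coeff l (z.2 1 + tl (Polynomial.aeval (al t k z.1 z.2) ψ))
    simp only [map_add, coeff_tl, aeval_poly]
    refine (RF.arc 1 l).add (VL7.RF.two _ ?_ (fun j => by simpa using RF.const (0 : ℂ)) _)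
    exact VL7.RF.arcE (VL7.RF_u t.u Sum.inr) k fun j => RF.arc 0 j

theorem tl_neg (y : PowerSeries ℂ) : tl (-y) = -tl y := by
  ext l
  rw [coeff_tl, map_neg, map_neg, coeff_tl]

theorem tz_neg (t : Fam) (ψ : Polynomial ℂ) (k : ℕ) (p : E ⊕ t.σ → ℂ)
    (x : Fin 2 → PowerSeries ℂ) : tz t (-ψ) k p (tz t ψ k p x) = x := by
  have e : al t k p (tz t ψ k p x) = al t k p x := rfl
  funext i
  fin_cases i
  · rfl
  · change (x 1 + tl (Polynomial.aeval (al t k p x) ψ)) +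
      tl (Polynomial.aeval (al t k p (tz t ψ k p x)) (-ψ)) = x 1
    rw [e, map_neg, tl_neg]
    ring

theorem vZ_shift (P : HodgeMeasure) [Finite E] {t : Fam} (ht : t.Good) (G : P2)
    (ψ : Polynomial ℂ) (h0 : ψ.coeff 0 = 0) {Q : Set (E ⊕ Unit → ℂ)} (hQ : QU Q) (k m : ℕ)
    (hk : 1 ≤ k) : vZ P t (shift ψ G) Q k 1 m = vZ P t G Q k 1 m := by
  haveI := t.fin
  unfold vZ
  refine VSHAux.vol_aut P (cy_ZS ht G hQ.1 k 1 m) (cy_ZS ht (shift ψ G) hQ.1 k 1 m)
    (tz t ψ k) (tz t (-ψ) k) (RF_tz t ψ k) (tz_congr t ψ k) (tz_congr t (-ψ) k) ?_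
    (tz_neg t ψ k) (fun p x => ?_)
  · intro p x
    have e1 : aeval ![al t k p x, PowerSeries.X ^ 1 * x 1] (shift ψ G) =
        aeval ![al t k p (tz t ψ k p x), PowerSeries.X ^ 1 * (tz t ψ k p x) 1] G := by
      rw [VSHAux.aeval_shift]
      have e2 : VSHAux.tsh ψ ![al t k p x, PowerSeries.X ^ 1 * x 1] =
          ![al t k p (tz t ψ k p x), PowerSeries.X ^ 1 * (tz t ψ k p x) 1] := by
        funext i
        fin_cases i
        · rfl
        · change PowerSeries.X ^ 1 * x 1 + Polynomial.aeval (al t k p x) ψ =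
            PowerSeries.X ^ 1 * (x 1 + tl (Polynomial.aeval (al t k p x) ψ))
          have e3 := X_mul_tl (Polynomial.aeval (al t k p x) ψ)
          have c0 : PowerSeries.coeff 0 (al t k p x) = 0 := VL7.coeff_arcE_lt _ _ (by omega)
          rw [VSHAux.coeff0_aeval ψ h0 _ c0, map_zero, add_zero] at e3
          conv_lhs => rw [e3]
          rw [pow_one]
          ring
      rw [e2]
    change (_ ∧ Lead Q m _ (aeval ![al t k p x, PowerSeries.X ^ 1 * x 1] (shift ψ G))) ↔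
      (_ ∧ Lead Q m _ (aeval ![al t k p (tz t ψ k p x),
        PowerSeries.X ^ 1 * (tz t ψ k p x) 1] G))
    rw [e1]
  · have := tz_neg t (-ψ) k p x
    rwa [neg_neg] at this

/-! ## The sum over the second axis -/

theorem y1_shift (P : HodgeMeasure) [Finite E] (t : Fam) (G : P2) (ψ : Polynomial ℂ)
    (h0 : ψ.coeff 0 = 0) (Q : Set (E ⊕ Unit → ℂ)) (l m : ℕ) :
    y1 P t (swp (shift ψ G)) Q l m = y1 P t (swp G) Q l m := by
  haveI := t.fin
  have e : ∀ β : PowerSeries ℂ, aeval ![β, 0] (swp (shift ψ G)) = aeval ![β, 0] (swp G) := by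
    intro β
    rw [VSHAux.aeval_swp, VSHAux.aeval_swp, VSHAux.aeval_shift]
    congr 1
    congr 1
    funext i
    fin_cases i
    · rfl
    · change β + Polynomial.aeval (0 : PowerSeries ℂ) ψ = β
      have : Polynomial.aeval (0 : PowerSeries ℂ) ψ = 0 := by
        rw [← Polynomial.coeff_zero_eq_aeval_zero', h0, map_zero]
      rw [this, add_zero]
  unfold y1
  refine congrArg (vol P.rat xq) ?_
  ext z
  simp only [YS, Set.mem_ofPred_eq, e]

theorem haar_kap (l : ℕ) : (haar 1).κ l = xq ^ l := by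
  change 1 * xq ^ l = xq ^ l
  rw [one_mul]

theorem yS_hsrc (P : HodgeMeasure) [Finite E] (G : P2) (Q : Set (E ⊕ Unit → ℂ)) (m l : ℕ) :
    yS P hsrc G Q m l = xq ^ l * y1 P (haar 1) G Q l m := by
  change ([haar 1].map fun t => t.κ l * y1 P t G Q l m).sum = _
  rw [List.map_cons, List.map_nil, List.sum_cons, List.sum_nil, add_zero, haar_kap]

theorem aS_hsrc (P : HodgeMeasure) [Finite E] (s : Src) (G : P2) (Q : Set (E ⊕ Unit → ℂ))
    (m k l : ℕ) : aS P s hsrc G Q m k l =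
      (s.ts.map fun t => t.κ k * (xq ^ l * x2 P t (haar 1) G Q k l m)).sum := by
  unfold aS
  congr 1
  refine List.map_congr_left fun t _ => ?_
  change ([haar 1].map fun t' => t.κ k * t'.κ l * x2 P t t' G Q k l m).sum = _
  rw [List.map_cons, List.map_nil, List.sum_cons, List.sum_nil, add_zero, haar_kap, mul_assoc]

theorem sum_map_sum (L : List Fam) (F : Finset ℕ) (f : ℕ → Fam → K) :
    ∑ l ∈ F, (L.map fun t => f l t).sum = (L.map fun t => ∑ l ∈ F, f l t).sum := by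
  induction L with
  | nil => simp
  | cons t L ih => simp only [List.map_cons, List.sum_cons, ← ih, Finset.sum_add_distrib]

theorem sum_k (P : HodgeMeasure) [Finite E] {s : Src} (hs : ∀ t ∈ s.ts, t.Good) (G : P2)
    {Q : Set (E ⊕ Unit → ℂ)} (hQ : QU Q) (k M m : ℕ) (hmM : m ≤ M) :
    (s.ts.map fun t => t.κ k * vZ P t G Q k 1 m).sum =
      ∑ l ∈ Finset.Icc 1 M, aS P s hsrc G Q m k l + xq ^ M * yS P s G Q m k := by
  have e1 : ∀ t ∈ s.ts, t.κ k * vZ P t G Q k 1 m =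
      ∑ l ∈ Finset.Icc 1 M, t.κ k * (xq ^ l * x2 P t (haar 1) G Q k l m) +
        xq ^ M * (t.κ k * y1 P t G Q k m) := by
    intro t ht
    rw [vZ_sum P (hs t ht) G hQ k m M, vZ_large P (hs t ht) G hQ k (M + 1) m (by omega),
      mul_add, Finset.mul_sum]
    congr 1
    ring
  rw [List.map_congr_left e1, List.sum_map_add, List.sum_map_mul_left, ← sum_map_sum]
  simp only [aS_hsrc]
  rfl

theorem mu_hsrc (P : HodgeMeasure) [Finite E] {s : Src} (hs : ∀ t ∈ s.ts, t.Good) (G : P2)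
    {Q : Set (E ⊕ Unit → ℂ)} (hQ : QU Q) (M m : ℕ) (hmM : m ≤ M) :
    mu P s hsrc G Q M m = ∑ k ∈ Finset.Icc 1 M, (s.ts.map fun t => t.κ k * vZ P t G Q k 1 m).sum +
      s.b M * ∑ l ∈ Finset.Icc 1 M, xq ^ l * y1 P (haar 1) (swp G) Q l m := by
  have hb : hsrc.b M = xq ^ M := rfl
  rw [mu_eq, hb]
  simp only [sum_k P hs G hQ _ M m hmM, yS_hsrc, Finset.sum_add_distrib, Finset.mul_sum]

theorem sum1_shift (P : HodgeMeasure) [Finite E] {s : Src} (hs : ∀ t ∈ s.ts, t.Good) (G : P2)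
    (ψ : Polynomial ℂ) (h0 : ψ.coeff 0 = 0) {Q : Set (E ⊕ Unit → ℂ)} (hQ : QU Q) (M m : ℕ) :
    ∑ k ∈ Finset.Icc 1 M, (s.ts.map fun t => t.κ k * vZ P t (shift ψ G) Q k 1 m).sum =
      ∑ k ∈ Finset.Icc 1 M, (s.ts.map fun t => t.κ k * vZ P t G Q k 1 m).sum := by
  refine Finset.sum_congr rfl fun k hk => ?_
  have e : (s.ts.map fun t => t.κ k * vZ P t (shift ψ G) Q k 1 m) =
      s.ts.map fun t => t.κ k * vZ P t G Q k 1 m := by
    refine List.map_congr_left fun t ht => ?_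
    rw [vZ_shift P (hs t ht) G ψ h0 hQ k m (Finset.mem_Icc.1 hk).1]
  rw [e]

theorem sum2_shift (P : HodgeMeasure) [Finite E] (G : P2)
    (ψ : Polynomial ℂ) (h0 : ψ.coeff 0 = 0) (Q : Set (E ⊕ Unit → ℂ)) (M m : ℕ) :
    ∑ l ∈ Finset.Icc 1 M, xq ^ l * y1 P (haar 1) (swp (shift ψ G)) Q l m =
      ∑ l ∈ Finset.Icc 1 M, xq ^ l * y1 P (haar 1) (swp G) Q l m := by
  refine Finset.sum_congr rfl fun l _ => ?_
  rw [y1_shift P _ G ψ h0 Q l m]

end CO7Aux

open CO7Aux in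
theorem stmt_CO7 : Stmt_CO7 := by
  intro P s k₀ h G ψ h0 hG E hE Q hQ M m hm hmM
  have hs : ∀ t ∈ s.ts, t.Good := fun t ht => (h.1 t ht).1
  rw [mu_hsrc P hs (shift ψ G) hQ M m hmM, mu_hsrc P hs G hQ M m hmM,
    sum1_shift P hs G ψ h0 hQ M m, sum2_shift P G ψ h0 Q M m]

end Pool.Agent.Mono.BV
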