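import Pool.Agent.Work.Monodromy7.RMX7

/-!
# Block FF7 (helper31): pairs of sources
-/

set_option autoImplicit false

namespace Pool.Agent.Mono.BV

open MvPolynomial TS RO PC RMAux

theorem stmt_FF7 (hRA : Stmt_RA7) (hSQ : Stmt_SQ75) (hPT : Stmt_PT7) (hGD : Stmt_GD7) :
    Stmt_FF7 := by
  intro P c s c' s' W W' G Λ hs hs' hΛ hG
  obtain ⟨n, ks, ss, h1, -, h2, h3⟩ := mul_split hSQ hs
  obtain ⟨n', ks', ss', h1', -, h2', h3'⟩ := mul_split hSQ hs'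
  have hreg : RegM P (fun E _ C M => ∑ i, ∑ j, muFF P c (ss i) c' (ss' j) E C M) G Λ := by
    refine regM_sum hRA _ _ fun i _ => regM_sum hRA _ _ fun j _ => ?_
    exact hPT P G c c' Λ (ks i) (ks' j) (ss i) (ss' j) hΛ
      (hGD.2.2 _ _ _ _ _ _ (h1 i) (h1' j) hG) (h2 i) (h2' j)
  refine regM_congr hRA (fun w E _ Q _ i M _ _ => ?_) hreg
  rw [h3 M _ (linS_FF1 P c c' s' _ M)]
  refine Finset.sum_congr rfl fun a _ => ?_
  exact (h3' M _ (linS_FF2 P c c' (ss a) _ M)).symm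

end Pool.Agent.Mono.BV
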