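import Pool.Agent.Work.Monodromy.Interface7V
import Pool.Agent.Work.Monodromy6.EMB

/-!
# Phase 7: sources, classes of full sets (for PK7, LM7)
-/

set_option autoImplicit false

namespace Pool.Agent.Mono.BV

open MvPolynomial TS RO PC

namespace SRX

open RO.TG5Aux VRMAux

/-! ## Sequences of a source -/

/-- the mass of the arcs of order `l` -/
noncomputable def ma (P : HodgeMeasure) (s : Src) (l : ℕ) : K :=
  (s.ts.map fun t => t.κ l * famV P t).sum

variable {P : HodgeMeasure} {s : Src} {k₀ : Kd}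

theorem step (h : s.Ok P k₀) (l : ℕ) : ma P s (l + 1) + s.b (l + 1) = s.b l := by
  have h1 := h.2.2 (l + 1)
  have h2 := h.2.2 l
  rw [Finset.sum_Icc_succ_top (by omega : 1 ≤ l + 1)] at h1
  unfold ma
  linear_combination h1 - h2

theorem step' (h : s.Ok P k₀) {l : ℕ} (hl : 1 ≤ l) : ma P s l + s.b l = s.b (l - 1) := by
  obtain ⟨l, rfl⟩ := Nat.exists_eq_add_of_le' hl
  exact step h l

theorem sum_Ico (h : s.Ok P k₀) {L : ℕ} (hL : 1 ≤ L) (n : ℕ) :
    ∑ l ∈ Finset.Ico L (L + n), ma P s l + s.b (L + n - 1) = s.b (L - 1) := by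
  induction n with
  | zero => simp
  | succ n ih =>
    rw [← add_assoc, Finset.sum_Ico_succ_top (by omega), ← ih, ← step' h (l := L + n) (by omega),
      Nat.add_sub_cancel]
    ring

theorem sum_range (h : s.Ok P k₀) (L : ℕ) (n : ℕ) :
    ∑ i ∈ Finset.range n, ma P s (L + 1 + i) = s.b L - s.b (L + n) := by
  induction n with
  | zero => simp
  | succ n ih =>
    rw [Finset.sum_range_succ, ih, ← step h (L + n), show L + 1 + n = L + n + 1 by ring]
    rw [← add_assoc]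
    ring

theorem EK.pos {κ : ℕ → K} (h : EK k₀ κ) (hk : 0 < k₀.r) : ESeq (Set.Ioi 0) κ := by
  obtain ⟨l, num, h1, h2⟩ := h
  refine ⟨l, num, fun q hq => ⟨(h1 q hq).1, ?_⟩, h2⟩
  have h3 := (h1 q hq).2.2
  change (0 : ℚ) < _
  rw [h3]
  exact hk

variable {φ : K →+* ℝ}

theorem sm {κ : ℕ → K} (hφ : 1 < φ RatFunc.X) (hk : 0 < k₀.r) (h : EK k₀ κ) :
    Summable fun m => |φ (κ m)| :=
  stmt_ESUM φ κ hφ (EK.pos h hk)

theorem bd {κ : ℕ → K} (h : Summable fun m => |φ (κ m)|) :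
    ∃ B : ℝ, 0 ≤ B ∧ ∀ m, |φ (κ m)| ≤ B :=
  ⟨∑' m, |φ (κ m)|, tsum_nonneg fun _ => abs_nonneg _,
    fun m => h.le_tsum m fun _ _ => abs_nonneg _⟩

theorem lim0 {κ : ℕ → K} (h : Summable fun m => |φ (κ m)|) :
    Filter.Tendsto (fun m => φ (κ m)) Filter.atTop (nhds 0) :=
  (Summable.of_abs h).tendsto_atTop_zero

/-- absolute summability of lists -/
theorem sm_list (L : List Fam) (κ : Fam → ℕ → K) (h : ∀ t ∈ L, Summable fun m => |φ (κ t m)|) :
    Summable fun m => |φ ((L.map fun t => κ t m).sum)| := by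
  induction L with
  | nil => simp
  | cons t L ih =>
    have h1 := h t List.mem_cons_self
    have h2 := ih fun t' ht' => h t' (List.mem_cons_of_mem _ ht')
    refine Summable.of_nonneg_of_le (fun _ => abs_nonneg _) (fun m => ?_) (h1.add h2)
    rw [List.map_cons, List.sum_cons, map_add]
    exact abs_add_le _ _

theorem sm_ma (hφ : 1 < φ RatFunc.X) (h : s.Is P k₀) : Summable fun m => |φ (ma P s m)| := by
  unfold ma
  refine sm_list s.ts (fun t m => t.κ m * famV P t) fun t ht => ?_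
  have h1 := (sm hφ h.2.2 (h.1.1 t ht).2).mul_right |φ (famV P t)|
  refine h1.congr fun m => ?_
  rw [map_mul, abs_mul]

theorem hs_ma (hφ : 1 < φ RatFunc.X) (h : s.Is P k₀) (L : ℕ) :
    HasSum (fun i => φ (ma P s (L + 1 + i))) (φ (s.b L)) := by
  have h0 := sm_ma hφ h
  have h1 : Summable fun i => φ (ma P s (L + 1 + i)) := by
    apply Summable.of_abs
    have := (summable_nat_add_iff (L + 1)).2 h0
    refine this.congr fun i => ?_
    rw [add_comm]
  rw [h1.hasSum_iff_tendsto_nat]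
  have h2 : (fun n => ∑ i ∈ Finset.range n, φ (ma P s (L + 1 + i))) =
      fun n => φ (s.b L) - φ (s.b (n + L)) := by
    funext n
    rw [← map_sum, sum_range h.1, map_sub, add_comm]
  rw [h2]
  have h3 := (lim0 (sm hφ h.2.2 h.1.2.1)).comp (Filter.tendsto_add_atTop_nat L)
  have h4 := (tendsto_const_nhds (x := φ (s.b L))).sub h3
  rw [sub_zero] at h4
  exact h4

/-! ## The free axis -/

theorem famV_haar (P : HodgeMeasure) (α : K) : famV P (haar α) = RatFunc.X - 1 :=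
  CLV.val_gm (α := Unit) P

theorem xq_ne : (xq : K) ≠ 0 := inv_ne_zero RatFunc.X_ne_zero

theorem xq_mul : (xq : K) * RatFunc.X = 1 := inv_mul_cancel₀ RatFunc.X_ne_zero

theorem ESeq_xq : EK none fun m => xq ^ m := by
  refine ⟨[(1, 1)], 1, ?_, ?_⟩
  · intro q hq
    rw [List.mem_singleton] at hq
    subst hq
    refine ⟨le_rfl, rfl, ?_⟩
    change ((1 : ℕ) : ℚ) / ((1 : ℕ) : ℚ) = 1
    norm_num
  · have h1 : (denP [(1, 1)] : PowerSeries K) = 1 - PowerSeries.C xq * PowerSeries.X := by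
      simp [denP]
    rw [h1]
    ext n
    rw [sub_mul, one_mul, mul_assoc, map_sub, PowerSeries.coeff_C_mul]
    cases n with
    | zero => simp
    | succ n =>
      rw [PowerSeries.coeff_succ_X_mul, PowerSeries.coeff_mk, PowerSeries.coeff_mk, pow_succ']
      simp [PowerSeries.coeff_one]

theorem hsrc_ok (P : HodgeMeasure) : hsrc.Ok P none := by
  refine ⟨fun t ht => ?_, ESeq_xq, fun m => ?_⟩
  · have h1 : t = haar 1 := by
      have h2 : t ∈ [haar 1] := ht
      rwa [List.mem_singleton] at h2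
    subst h1
    refine ⟨⟨con_ne (IP.coord _), fun τ hτ => ?_⟩, ?_⟩
    · change eval τ (X ()) ≠ 0
      rw [eval_X]
      exact hτ
    · have h2 : (haar 1).κ = fun m => xq ^ m := funext fun m => one_mul _
      unfold EK
      rw [h2]
      exact ESeq_xq
  · have h1 : ∀ j, (hsrc.ts.map fun t => t.κ j * famV P t).sum =
        xq ^ j * (RatFunc.X - 1) := by
      intro j
      change ([haar 1].map fun t => t.κ j * famV P t).sum = _
      rw [List.map_cons, List.map_nil, List.sum_cons, List.sum_nil, add_zero, famV_haar]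
      change (1 * xq ^ j) * _ = _
      rw [one_mul]
    induction m with
    | zero => simp
    | succ m ih =>
      rw [Finset.sum_Icc_succ_top (by omega), h1, ← ih]
      change xq ^ (m + 1) + (_ + _) = xq ^ m + _
      rw [pow_succ]
      linear_combination xq ^ m * xq_mul

theorem hsrc_is (P : HodgeMeasure) : hsrc.Is P none :=
  ⟨hsrc_ok P, fun _ => rfl, one_pos⟩

theorem is_none (h : s.Is P none) : s = hsrc := h.2.1 rfl

/-! ## Classes of full sets -/

section

variable {E : Type}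

theorem QU_full {R : Set (E ⊕ Unit → ℂ)} (hR : Constructible R) : QU (full R) :=
  ⟨(con_pre (fun j => IP.coord (Sum.inl j)) hR).and (con_ne (IP.coord _)), fun _ h => h.2⟩

theorem c1a_full (P : HodgeMeasure) [Finite E] {c : ℂ} (hc : c ≠ 0) (A : ℕ)
    {R : Set (E ⊕ Unit → ℂ)} (h0 : ∀ z ∈ R, z (Sum.inr ()) ≠ 0) :
    c1a P c A (full R) = P.rat.val R := by
  unfold c1a
  congr 1
  ext z
  constructor
  · exact fun h => h.2.1
  · exact fun h => ⟨h0 z h, h, mul_ne_zero hc (pow_ne_zero _ (h0 z h))⟩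

theorem c2a_full (P : HodgeMeasure) [Finite E] {t : Fam} (ht : t.Good) {c : ℂ} (hc : c ≠ 0)
    (A B : ℕ) {R : Set (E ⊕ Unit → ℂ)} (hR : Constructible R)
    (h0 : ∀ z ∈ R, z (Sum.inr ()) ≠ 0) :
    c2a P t (C c * X 0 ^ A * X 1 ^ B) (full R) = P.rat.val R * famV P t := by
  haveI := t.fin
  unfold c2a famV
  rw [← P.rat.prod R t.S hR ht.1]
  congr 1
  ext z
  constructor
  · exact fun h => ⟨h.2.2.1, h.2.1⟩
  · intro h
    refine ⟨h0 _ h.1, h.2, h.1, ?_⟩
    change eval _ (C c * X 0 ^ A * X 1 ^ B) ≠ 0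
    simp only [map_mul, map_pow, eval_C, eval_X, Matrix.cons_val_zero, Matrix.cons_val_one]
    exact mul_ne_zero (mul_ne_zero hc (pow_ne_zero _ (h0 _ h.1))) (pow_ne_zero _ (ht.2 _ h.2))

/-- the parameter set of a chart -/
def chR (t : Fam) (p q : ℕ) (lam : ℂ) (R : Set (E ⊕ Unit → ℂ)) : Set ((E ⊕ t.σ) ⊕ Unit → ℂ) :=
  {z | (fun s => z (Sum.inl (Sum.inr s))) ∈ t.S ∧ z (Sum.inr ()) ≠ 0 ∧
    eval (fun s => z (Sum.inl (Sum.inr s))) t.u = lam * z (Sum.inr ()) ^ q ∧
    (Sum.elim (fun e => z (Sum.inl (Sum.inl e))) fun _ => z (Sum.inr ()) ^ p) ∈ R}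

theorem con_chR {t : Fam} (ht : t.Good) (p q : ℕ) (lam : ℂ) {R : Set (E ⊕ Unit → ℂ)}
    (hR : Constructible R) : Constructible (chR t p q lam R) := by
  refine (con_pre (fun j => IP.coord (Sum.inl (Sum.inr j))) ht.1).and
    ((con_ne (IP.coord _)).and (Constructible.and ?_ ?_))
  · obtain ⟨f, hf⟩ := IP.ev t.u (τ := fun s (z : (E ⊕ t.σ) ⊕ Unit → ℂ) =>
      z (Sum.inl (Sum.inr s))) fun a => IP.coord _
    have h1 : {z : (E ⊕ t.σ) ⊕ Unit → ℂ | eval (fun s => z (Sum.inl (Sum.inr s))) t.u =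
        lam * z (Sum.inr ()) ^ q} = {z | eval z (f - C lam * X (Sum.inr ()) ^ q) = 0} := by
      ext z
      have := hf z
      simp only [Set.mem_setOf_eq, map_sub, map_mul, map_pow, eval_C, eval_X, sub_eq_zero]
      rw [← this]
    rw [h1]
    exact Constructible.zero _
  · refine con_pre (F := fun (z : (E ⊕ t.σ) ⊕ Unit → ℂ) =>
      (Sum.elim (fun e => z (Sum.inl (Sum.inl e))) fun _ => z (Sum.inr ()) ^ p : E ⊕ Unit → ℂ))
      (fun j => ?_) hR
    rcases j with e | _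
    · exact IP.coord (Sum.inl (Sum.inl e))
    · exact ⟨X (Sum.inr ()) ^ p, fun z => by simp⟩

theorem pull_full {t : Fam} (ht : t.Good) (p : ℕ) {q : ℕ} (hq : 1 ≤ q) (lam : ℂ)
    (R : Set (E ⊕ Unit → ℂ)) : pull t p q lam (full R) = full (chR t p q lam R) := by
  ext z
  constructor
  · rintro ⟨h1, h2, h3, h4⟩
    refine ⟨⟨h1, ?_, h2, h3⟩, h4⟩
    intro h5
    apply ht.2 _ h1
    change z (Sum.inl (Sum.inr ())) = 0 at h5
    rw [h2, h5, zero_pow (by omega), mul_zero]
  · rintro ⟨⟨h1, _, h2, h3⟩, h4⟩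
    exact ⟨h1, h2, h3, h4⟩

/-- the graph of a family -/
def gr (t : Fam) : Set ((Empty ⊕ t.σ) ⊕ Unit → ℂ) :=
  {z | (fun s => z (Sum.inl (Sum.inr s))) ∈ t.S ∧
    eval (fun s => z (Sum.inl (Sum.inr s))) t.u = z (Sum.inr ())}

theorem tie_full (t : Fam) : tie t QF = full (gr t) := by
  ext z
  constructor
  · rintro ⟨h1, h2, h3⟩
    exact ⟨⟨h1, h2⟩, h3⟩
  · rintro ⟨⟨h1, h2⟩, h3⟩
    exact ⟨h1, h2, h3⟩

theorem con_gr {t : Fam} (ht : t.Good) : Constructible (gr t) := by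
  refine (con_pre (fun j => IP.coord (Sum.inl (Sum.inr j))) ht.1).and ?_
  obtain ⟨f, hf⟩ := IP.ev t.u (τ := fun s (z : (Empty ⊕ t.σ) ⊕ Unit → ℂ) =>
    z (Sum.inl (Sum.inr s))) fun a => IP.coord _
  have h1 : {z : (Empty ⊕ t.σ) ⊕ Unit → ℂ | eval (fun s => z (Sum.inl (Sum.inr s))) t.u =
      z (Sum.inr ())} = {z | eval z (f - X (Sum.inr ())) = 0} := by
    ext z
    have := hf z
    simp only [Set.mem_setOf_eq, map_sub, eval_X, sub_eq_zero]
    rw [← this]
  rw [h1]
  exact Constructible.zero _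

theorem gr_ne {t : Fam} (ht : t.Good) : ∀ z ∈ gr t, z (Sum.inr ()) ≠ 0 := by
  rintro z ⟨h1, h2⟩
  rw [← h2]
  exact ht.2 _ h1

theorem val_gr (P : HodgeMeasure) {t : Fam} (ht : t.Good) :
    haveI := t.fin
    P.rat.val (gr t) = famV P t := by
  haveI := t.fin
  unfold famV
  symm
  refine P.rat.map _ _ (Sum.elim (Sum.elim (fun e => e.elim) fun s => X s) fun _ => t.u) ht.1
    (con_gr ht) ?_
  refine ⟨fun x hx => ?_, fun x _ y _ h => ?_, fun y hy => ?_⟩
  · refine ⟨?_, ?_⟩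
    · simpa using hx
    · simp
  · ext a
    have := congrFun h (Sum.inl (Sum.inr a))
    simpa using this
  · refine ⟨fun s => y (Sum.inl (Sum.inr s)), hy.1, ?_⟩
    ext a
    rcases a with (e | a) | a
    · exact e.elim
    · simp
    · simpa using hy.2

end

end SRX

end Pool.Agent.Mono.BV
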