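import Pool.Agent.Work.Monodromy7.RMY7
import Pool.Agent.Work.Monodromy7.SRX7

/-!
# Block HP7 (helper31): Haar parts over one point
-/

set_option autoImplicit false
set_option linter.unusedSectionVars false

namespace Pool.Agent.Mono.BV

open MvPolynomial TS RO RO.VGAux PC VL7

namespace HP7Aux

open RMAux

section

variable {E E' ι ι' κ σ : Type} [Finite E] [Finite E'] [Fintype ι] [Fintype ι'] [Fintype κ]
  [Finite σ]

/-- renaming of parameters and arcs -/
theorem vol_iso (P : HodgeMeasure) (e : E' ≃ E) (f : ι' ≃ ι)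
    {D : Set ((E → ℂ) × (ι → PowerSeries ℂ))} {D' : Set ((E' → ℂ) × (ι' → PowerSeries ℂ))}
    (hD' : Cy D')
    (h : ∀ p x, (p, x) ∈ D ↔ ((fun i => p (e i)), fun i => x (f i)) ∈ D') :
    vol P.rat xq D = vol P.rat xq D' := by
  have h1 : Cy {z : (E' → ℂ) × (ι → PowerSeries ℂ) | (z.1, fun i => z.2 (f i)) ∈ D'} :=
    cy_sub hD' (φ := fun z => z.1) (fun s => RF.par s) (ψ := fun z i => z.2 (f i))
      fun a l => RF.arc (f a) l
  have h2 : Cy D := by
    have h3 := cy_sub (E' := E) (ι := ι) hD' (φ := fun z i => z.1 (e i)) (fun s => RF.par _)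
      (ψ := fun z i => z.2 (f i)) fun a l => RF.arc (f a) l
    have h4 : D = {z : (E → ℂ) × (ι → PowerSeries ℂ) |
        ((fun i => z.1 (e i)), fun i => z.2 (f i)) ∈ D'} := Set.ext fun z => h z.1 z.2
    rw [h4]
    exact h3
  obtain ⟨N, hN⟩ := hD'
  rw [← T0Aux.vol_comp P f.injective (hN N le_rfl)]
  refine vol_base P h2 h1 e ?_ ?_ ?_
  · intro z hz
    exact (h z.1 z.2).1 hz
  · intro z _ z' _ h3 _
    funext a
    have := congrFun h3 (e.symm a)
    simpa using this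
  · intro z hz
    refine ⟨fun a => z.1 (e.symm a), by simp, ?_⟩
    refine (h _ _).2 ?_
    have : (fun i => z.1 (e.symm (e i))) = z.1 := by simp
    rw [this]
    exact hz

/-- product with a parameter set -/
theorem vol_prodH (P : HodgeMeasure) {H : Set (σ → ℂ)} (hH : Constructible H)
    {S : Set ((E → ℂ) × (ι → PowerSeries ℂ))} (hS : Cy S) :
    vol P.rat xq {z : (E ⊕ σ → ℂ) × (ι → PowerSeries ℂ) | (fun s => z.1 (Sum.inr s)) ∈ H ∧
      ((fun e => z.1 (Sum.inl e)), z.2) ∈ S} = P.rat.val H * vol P.rat xq S := by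
  obtain ⟨N, hN⟩ := hS
  have hc := hN N le_rfl
  set K : ι → ℕ := fun _ => N with hK
  let g : σ ⊕ (E ⊕ (Σ i, Fin (K i))) ≃ (E ⊕ σ) ⊕ (Σ i, Fin (K i)) :=
    { toFun := Sum.elim (fun s => Sum.inl (Sum.inr s))
        (Sum.elim (fun e => Sum.inl (Sum.inl e)) fun a => Sum.inr a)
      invFun := Sum.elim (Sum.elim (fun e => Sum.inr (Sum.inl e)) fun s => Sum.inl s)
        fun a => Sum.inr (Sum.inr a)
      left_inv := by rintro (s | e | a) <;> rfl
      right_inv := by rintro ((e | s) | a) <;> rfl }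
  have e1 : sec K {z : (E ⊕ σ → ℂ) × (ι → PowerSeries ℂ) | (fun s => z.1 (Sum.inr s)) ∈ H ∧
      ((fun e => z.1 (Sum.inl e)), z.2) ∈ S} =
      {x | (fun j => x (g j)) ∈ {y : σ ⊕ (E ⊕ (Σ i, Fin (K i))) → ℂ |
        (fun i => y (Sum.inl i)) ∈ H ∧ (fun i => y (Sum.inr i)) ∈ sec K S}} := rfl
  have h1 : Constructible {y : σ ⊕ (E ⊕ (Σ i, Fin (K i))) → ℂ |
        (fun i => y (Sum.inl i)) ∈ H ∧ (fun i => y (Sum.inr i)) ∈ sec K S} :=
    (Constructible.comap _ hH).and (Constructible.comap _ hc.2)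
  have h2 : IsCyl K {z : (E ⊕ σ → ℂ) × (ι → PowerSeries ℂ) |
      (fun s => z.1 (Sum.inr s)) ∈ H ∧ ((fun e => z.1 (Sum.inl e)), z.2) ∈ S} := by
    refine ⟨fun p x y hxy => ?_, ?_⟩
    · exact and_congr Iff.rfl (hc.1 _ _ _ hxy)
    · rw [e1]
      exact Constructible.comap _ h1
  have hL := VAAux.L_mul P
  rw [vol_eq P.rat hL h2, vol_eq P.rat hL hc, e1, P.rat.reindex g h1,
    P.rat.prod H (sec K S) hH hc.2]
  ring

/-- arcs of order `j` -/
theorem vol_ordA (P : HodgeMeasure) {S : Set ((E → ℂ) × (κ ⊕ Unit → PowerSeries ℂ))}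
    (hS : Cy S) (j : ℕ) :
    vol P.rat xq {z : (E → ℂ) × (κ ⊕ Unit → PowerSeries ℂ) | z ∈ S ∧
      (∀ l < j, PowerSeries.coeff l (z.2 (Sum.inr ())) = 0) ∧
        PowerSeries.coeff j (z.2 (Sum.inr ())) ≠ 0} =
    xq ^ (j + 1) * vol P.rat xq {z : (E ⊕ Unit → ℂ) × (κ ⊕ Unit → PowerSeries ℂ) |
      z.1 (Sum.inr ()) ≠ 0 ∧ ((fun e => z.1 (Sum.inl e)), Sum.elim (fun a => z.2 (Sum.inl a))
        fun _ => arcE (z.1 (Sum.inr ())) j (z.2 (Sum.inr ()))) ∈ S} := by
  classical
  have hA : Cy {z : (E → ℂ) × (κ ⊕ Unit → PowerSeries ℂ) | z ∈ S ∧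
      (∀ l < j, PowerSeries.coeff l (z.2 (Sum.inr ())) = 0) ∧
        PowerSeries.coeff j (z.2 (Sum.inr ())) ≠ 0} :=
    Cy.and hS (Cy.and (Cy.all_lt j fun l _ => Cy.zero (RF.arc _ l))
      (Cy.not (Cy.zero (RF.arc _ j))))
  have hB : Cy {z : (E ⊕ Unit → ℂ) × (κ ⊕ Unit → PowerSeries ℂ) |
      z.1 (Sum.inr ()) ≠ 0 ∧ ((fun e => z.1 (Sum.inl e)), Sum.elim (fun a => z.2 (Sum.inl a))
        fun _ => arcE (z.1 (Sum.inr ())) j (z.2 (Sum.inr ()))) ∈ S} := by
    refine Cy.and (Cy.not (Cy.zero (RF.par _))) (cy_sub hS (φ := fun z e => z.1 (Sum.inl e))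
      (fun s => RF.par _) (ψ := fun z => Sum.elim (fun a => z.2 (Sum.inl a))
        fun _ => arcE (z.1 (Sum.inr ())) j (z.2 (Sum.inr ()))) ?_)
    rintro (a | a) l
    · exact RF.arc (Sum.inl a) l
    · exact RF.arcE (RF.par (Sum.inr ())) j (fun l => RF.arc (Sum.inr ()) l) l
  obtain ⟨N1, hN1⟩ := hA
  obtain ⟨N2, hN2⟩ := hB
  set N := max N1 N2 with hN
  have hc1 := hN1 N (le_max_left _ _)
  have hc2 := hN2 N (le_max_right _ _)
  have hc1' := IsCyl.mono (K' := (Sum.elim (fun _ => N) fun _ => N + (j + 1) : κ ⊕ Unit → ℕ))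
    (by rintro (a | a); exacts [le_rfl, Nat.le_add_right _ _]) hc1
  have key := CV.vol_cvp P hc1' hc2
    (fun z => ((fun e => z.1 (Sum.inl e)), Sum.elim (fun a => z.2 (Sum.inl a))
        fun _ => arcE (z.1 (Sum.inr ())) j (z.2 (Sum.inr ()))))
    (Sum.elim (fun e => X (Sum.inl (Sum.inl e))) fun s => match s with
      | ⟨Sum.inl a, l⟩ => X (Sum.inr ⟨Sum.inl a, l⟩)
      | ⟨Sum.inr _, l⟩ => (if (l : ℕ) = j then X (Sum.inl (Sum.inr ())) else 0) +
          if h : j + 1 ≤ (l : ℕ) then X (Sum.inr ⟨Sum.inr (), ⟨(l : ℕ) - (j + 1), by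
            have := l.2
            simp only [Sum.elim_inr] at this
            omega⟩⟩) else 0) ?_ ?_ ?_ ?_
  · rw [Fintype.sum_sum_type, Fintype.sum_sum_type] at key
    simp only [Sum.elim_inl, Sum.elim_inr, Finset.univ_unique, Finset.sum_singleton] at key
    have hx : (xq : K) ≠ 0 := inv_ne_zero RatFunc.X_ne_zero
    have h3 : xq ^ (∑ _ : κ, N + N) ≠ (0 : K) := pow_ne_zero _ hx
    apply mul_right_cancel₀ h3
    rw [key, ← add_assoc, pow_add _ _ (j + 1)]
    ring
  · intro z _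
    funext a
    rcases a with e | ⟨a | a, l⟩
    · simp [CV.trd]
    · simp [CV.trd]
    · have h4 : PowerSeries.coeff (l : ℕ) (arcE (z.1 (Sum.inr ())) j (z.2 (Sum.inr ()))) =
        (if (l : ℕ) = j then z.1 (Sum.inr ()) else 0) + if j + 1 ≤ (l : ℕ) then
          PowerSeries.coeff ((l : ℕ) - (j + 1)) (z.2 (Sum.inr ())) else 0 := coeff_arcE _ _ _ _
      simp only [CV.trd, Sum.elim_inr]
      rw [h4, map_add]
      congr 1
      · split_ifs <;> simp
      · by_cases h5 : j + 1 ≤ (l : ℕ)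
        · rw [if_pos h5, dif_pos h5, eval_X]
          rfl
        · rw [if_neg h5, dif_neg h5, map_zero]
  · rintro z ⟨h4, h5⟩
    refine ⟨h5, fun l hl => ?_, ?_⟩
    · exact coeff_arcE_lt _ _ hl
    · change PowerSeries.coeff j (arcE _ j _) ≠ 0
      rw [coeff_arcE_self]
      exact h4
  · intro z _ z' _ h4
    funext a
    rcases a with (e | e) | ⟨a | a, l⟩
    · exact congrFun h4 (Sum.inl e)
    · have := congrFun h4 (Sum.inr ⟨Sum.inr (), ⟨j, by simp only [Sum.elim_inr]; omega⟩⟩)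
      simp only [CV.trd, Sum.elim_inr] at this
      rw [coeff_arcE_self, coeff_arcE_self] at this
      exact this
    · exact congrFun h4 (Sum.inr ⟨Sum.inl a, l⟩)
    · have := congrFun h4 (Sum.inr ⟨Sum.inr (), ⟨j + 1 + (l : ℕ), by
        have := l.2
        simp only [Sum.elim_inr]
        omega⟩⟩)
      simp only [CV.trd, Sum.elim_inr] at this
      rw [coeff_arcE_gt, coeff_arcE_gt] at this
      exact this
  · rintro y ⟨h4, h5, h6⟩
    have e1 : arcE (PowerSeries.coeff j (y.2 (Sum.inr ()))) j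
        (PowerSeries.mk fun l => PowerSeries.coeff (j + 1 + l) (y.2 (Sum.inr ()))) =
        y.2 (Sum.inr ()) := by
      ext l
      rcases lt_trichotomy l j with hl | hl | hl
      · rw [coeff_arcE_lt _ _ hl, h5 l hl]
      · subst hl
        rw [coeff_arcE_self]
      · obtain ⟨l, rfl⟩ := Nat.exists_eq_add_of_le (show j + 1 ≤ l from hl)
        rw [coeff_arcE_gt, PowerSeries.coeff_mk]
    have e2 : (fun z : (E ⊕ Unit → ℂ) × (κ ⊕ Unit → PowerSeries ℂ) =>
        (((fun e => z.1 (Sum.inl e)), Sum.elim (fun a => z.2 (Sum.inl a))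
        fun _ => arcE (z.1 (Sum.inr ())) j (z.2 (Sum.inr ()))) :
          (E → ℂ) × (κ ⊕ Unit → PowerSeries ℂ)))
        (Sum.elim y.1 (fun _ => PowerSeries.coeff j (y.2 (Sum.inr ()))),
          Sum.elim (fun a => y.2 (Sum.inl a))
            fun _ => PowerSeries.mk fun l => PowerSeries.coeff (j + 1 + l) (y.2 (Sum.inr ()))) =
        y := by
      refine Prod.ext rfl ?_
      funext a
      rcases a with a | a
      · rfl
      · exact e1
    refine ⟨(Sum.elim y.1 (fun _ => PowerSeries.coeff j (y.2 (Sum.inr ()))),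
          Sum.elim (fun a => y.2 (Sum.inl a))
            fun _ => PowerSeries.mk fun l => PowerSeries.coeff (j + 1 + l) (y.2 (Sum.inr ()))),
      ⟨h6, ?_⟩, ?_⟩
    · have := congrArg (· ∈ S) e2
      exact this.mpr h4
    · exact congrArg (fun w : (E → ℂ) × (κ ⊕ Unit → PowerSeries ℂ) => CV.trd _ w.1 w.2) e2

/-- the first `M` coefficients of an arc vanish -/
theorem vol_ordB (P : HodgeMeasure) {S : Set ((E → ℂ) × (κ → PowerSeries ℂ))}
    (hS : Cy S) (M : ℕ) :
    vol P.rat xq {z : (E → ℂ) × (κ ⊕ Unit → PowerSeries ℂ) |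
      (z.1, fun a => z.2 (Sum.inl a)) ∈ S ∧
      ∀ l < M, PowerSeries.coeff l (z.2 (Sum.inr ())) = 0} = xq ^ M * vol P.rat xq S := by
  classical
  obtain ⟨N, hN⟩ := hS
  have hc := hN N le_rfl
  have hc1 : IsCyl (Sum.elim (fun _ => N) fun _ => M : κ ⊕ Unit → ℕ)
      {z : (E → ℂ) × (κ ⊕ Unit → PowerSeries ℂ) | (z.1, fun a => z.2 (Sum.inl a)) ∈ S ∧
      ∀ l < M, PowerSeries.coeff l (z.2 (Sum.inr ())) = 0} := by
    refine ⟨fun p x y hxy => ?_, ?_⟩
    · refine and_congr (hc.1 _ _ _ fun i l hl => hxy (Sum.inl i) l hl) ?_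
      exact forall₂_congr fun l hl => by rw [hxy (Sum.inr ()) l hl]
    · have e1 : sec (Sum.elim (fun _ => N) fun _ => M : κ ⊕ Unit → ℕ)
          {z : (E → ℂ) × (κ ⊕ Unit → PowerSeries ℂ) | (z.1, fun a => z.2 (Sum.inl a)) ∈ S ∧
          ∀ l < M, PowerSeries.coeff l (z.2 (Sum.inr ())) = 0} =
          {v | (fun j => v ((Sum.elim Sum.inl fun s => Sum.inr ⟨Sum.inl s.1, s.2⟩ :
            E ⊕ (Σ _ : κ, Fin N) → E ⊕ (Σ i : κ ⊕ Unit, Fin ((Sum.elim (fun _ => N)
              fun _ => M : κ ⊕ Unit → ℕ) i))) j)) ∈ sec (fun _ => N) S ∧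
            ∀ l : Fin M, eval v (X (Sum.inr ⟨Sum.inr (), l⟩)) = 0} := by
        ext v
        refine and_congr Iff.rfl ?_
        simp only [eval_X]
        constructor
        · intro h l
          have := h l l.2
          rw [toArc, PowerSeries.coeff_mk, dif_pos (show (l : ℕ) < (Sum.elim (fun _ => N)
            fun _ => M : κ ⊕ Unit → ℕ) (Sum.inr ()) from l.2)] at this
          exact this
        · intro h l hl
          rw [toArc, PowerSeries.coeff_mk, dif_pos (show l < (Sum.elim (fun _ => N)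
            fun _ => M : κ ⊕ Unit → ℕ) (Sum.inr ()) from hl)]
          exact h ⟨l, hl⟩
      rw [e1]
      exact (Constructible.comap _ hc.2).and (Constructible.all fun l => Constructible.zero _)
  have key := CV.vol_cvp P hc1 hc
    (fun z => (z.1, Sum.elim z.2 fun _ => 0))
    (Sum.elim (fun e => X (Sum.inl e)) fun s => match s with
      | ⟨Sum.inl a, l⟩ => X (Sum.inr ⟨a, l⟩)
      | ⟨Sum.inr _, _⟩ => 0) ?_ ?_ ?_ ?_
  · rw [Fintype.sum_sum_type] at key
    simp only [Sum.elim_inl, Sum.elim_inr, Finset.univ_unique, Finset.sum_singleton] at key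
    have hx : (xq : K) ≠ 0 := inv_ne_zero RatFunc.X_ne_zero
    have h3 : xq ^ (∑ _ : κ, N) ≠ (0 : K) := pow_ne_zero _ hx
    apply mul_right_cancel₀ h3
    rw [key, pow_add]
    ring
  · intro z _
    funext a
    rcases a with e | ⟨a | a, l⟩
    · simp [CV.trd]
    · simp [CV.trd]
    · simp [CV.trd]
  · intro z hz
    exact ⟨hz, fun l _ => map_zero _⟩
  · intro z _ z' _ h4
    funext a
    rcases a with e | ⟨a, l⟩
    · exact congrFun h4 (Sum.inl e)
    · exact congrFun h4 (Sum.inr ⟨Sum.inl a, l⟩)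
  · rintro y ⟨h4, h5⟩
    refine ⟨(y.1, fun a => y.2 (Sum.inl a)), h4, ?_⟩
    funext a
    rcases a with e | ⟨a | a, l⟩
    · rfl
    · rfl
    · simp only [CV.trd, Sum.elim_inr, map_zero]
      exact (h5 l l.2).symm

/-- all orders -/
theorem vol_dec (P : HodgeMeasure) {S : Set ((E → ℂ) × (κ ⊕ Unit → PowerSeries ℂ))}
    (hS : Cy S) (M : ℕ) :
    vol P.rat xq S = ∑ j ∈ Finset.range M,
      vol P.rat xq {z : (E → ℂ) × (κ ⊕ Unit → PowerSeries ℂ) | z ∈ S ∧
      (∀ l < j, PowerSeries.coeff l (z.2 (Sum.inr ())) = 0) ∧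
        PowerSeries.coeff j (z.2 (Sum.inr ())) ≠ 0} +
      vol P.rat xq {z : (E → ℂ) × (κ ⊕ Unit → PowerSeries ℂ) | z ∈ S ∧
        ∀ l < M, PowerSeries.coeff l (z.2 (Sum.inr ())) = 0} := by
  have hA : ∀ j, Cy {z : (E → ℂ) × (κ ⊕ Unit → PowerSeries ℂ) | z ∈ S ∧
      (∀ l < j, PowerSeries.coeff l (z.2 (Sum.inr ())) = 0) ∧
        PowerSeries.coeff j (z.2 (Sum.inr ())) ≠ 0} := fun j =>
    Cy.and hS (Cy.and (Cy.all_lt j fun l _ => Cy.zero (RF.arc _ l))
      (Cy.not (Cy.zero (RF.arc _ j))))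
  have hT : ∀ M, Cy {z : (E → ℂ) × (κ ⊕ Unit → PowerSeries ℂ) | z ∈ S ∧
        ∀ l < M, PowerSeries.coeff l (z.2 (Sum.inr ())) = 0} := fun M =>
    Cy.and hS (Cy.all_lt M fun l _ => Cy.zero (RF.arc _ l))
  induction M with
  | zero => simp
  | succ M ih =>
    rw [Finset.sum_range_succ, add_assoc, ← vol_uni P (hA M) (hT (M + 1)) ?_]
    · rw [ih]
      congr 2
      ext z
      constructor
      · rintro ⟨h1, h2⟩
        by_cases h3 : PowerSeries.coeff M (z.2 (Sum.inr ())) = 0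
        · refine Or.inr ⟨h1, fun l hl => ?_⟩
          rcases Nat.lt_succ_iff_lt_or_eq.1 hl with h | rfl
          exacts [h2 l h, h3]
        · exact Or.inl ⟨h1, h2, h3⟩
      · rintro (⟨h1, h2, -⟩ | ⟨h1, h2⟩)
        · exact ⟨h1, h2⟩
        · exact ⟨h1, fun l hl => h2 l (by omega)⟩
    · rw [Set.disjoint_left]
      rintro z ⟨-, -, h1⟩ ⟨-, h2⟩
      exact h1 (h2 M (Nat.lt_succ_self M))

/-- the arcs `c + t y` by the order of `t y` -/
theorem vol_order (P : HodgeMeasure) (c : ℂ) {C : Set ((E → ℂ) × (κ ⊕ Unit → PowerSeries ℂ))}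
    (hC : Cy C) (n M : ℕ) (hn : ∀ p x y y', (∀ l < n, PowerSeries.coeff l y =
      PowerSeries.coeff l y') → ((p, Sum.elim x fun _ => y) ∈ C ↔ (p, Sum.elim x fun _ => y') ∈ C))
    (hM : n ≤ M + 1) :
    vol P.rat xq {z : (E → ℂ) × (κ ⊕ Unit → PowerSeries ℂ) | (z.1,
      Sum.elim (fun a => z.2 (Sum.inl a)) fun _ => PowerSeries.C c +
        PowerSeries.X * z.2 (Sum.inr ())) ∈ C} =
    ∑ l ∈ Finset.Icc 1 M, xq ^ l * vol P.rat xq {z : (E ⊕ Unit → ℂ) ×
      (κ ⊕ Unit → PowerSeries ℂ) | z.1 (Sum.inr ()) ≠ 0 ∧ ((fun e => z.1 (Sum.inl e)),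
        Sum.elim (fun a => z.2 (Sum.inl a)) fun _ => PowerSeries.C c +
          arcE (z.1 (Sum.inr ())) l (z.2 (Sum.inr ()))) ∈ C} +
    xq ^ M * vol P.rat xq {z : (E → ℂ) × (κ → PowerSeries ℂ) | (z.1,
      Sum.elim z.2 fun _ => PowerSeries.C c) ∈ C} := by
  have hS : Cy {z : (E → ℂ) × (κ ⊕ Unit → PowerSeries ℂ) | (z.1,
      Sum.elim (fun a => z.2 (Sum.inl a)) fun _ => PowerSeries.C c +
        PowerSeries.X * z.2 (Sum.inr ())) ∈ C} := by
    refine cy_sub hC (φ := fun z => z.1) (fun s => RF.par _) (ψ := fun z =>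
      Sum.elim (fun a => z.2 (Sum.inl a)) fun _ => PowerSeries.C c +
        PowerSeries.X * z.2 (Sum.inr ())) ?_
    rintro (a | a) l
    · exact RF.arc (Sum.inl a) l
    · exact RF_CX (RF.const c) (RF_X fun l => RF.arc (Sum.inr ()) l) l
  have hS0 : Cy {z : (E → ℂ) × (κ → PowerSeries ℂ) | (z.1,
      Sum.elim z.2 fun _ => PowerSeries.C c) ∈ C} := by
    refine cy_sub hC (φ := fun z => z.1) (fun s => RF.par _) (ψ := fun z =>
      Sum.elim z.2 fun _ => PowerSeries.C c) ?_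
    rintro (a | a) l
    · exact RF.arc a l
    · exact RF.const _
  rw [vol_dec P hS M]
  congr 1
  · have e1 : Finset.Icc 1 M = (Finset.range M).image fun j => j + 1 := by
      ext l
      simp only [Finset.mem_Icc, Finset.mem_image, Finset.mem_range]
      constructor
      · rintro ⟨h1, h2⟩
        exact ⟨l - 1, by omega, by omega⟩
      · rintro ⟨j, h1, rfl⟩
        omega
    rw [e1, Finset.sum_image fun a _ b _ h => Nat.succ_injective h]
    refine Finset.sum_congr rfl fun j _ => ?_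
    rw [vol_ordA P hS j]
    congr 2
    ext z
    have e2 : PowerSeries.X * arcE (z.1 (Sum.inr ())) j (z.2 (Sum.inr ())) =
        arcE (z.1 (Sum.inr ())) (j + 1) (z.2 (Sum.inr ())) := by
      unfold arcE
      ring
    refine and_congr_right fun _ => ?_
    change ((fun e => z.1 (Sum.inl e)), Sum.elim (fun a => z.2 (Sum.inl a)) fun _ =>
      PowerSeries.C c + PowerSeries.X * arcE (z.1 (Sum.inr ())) j (z.2 (Sum.inr ()))) ∈ C ↔ _
    rw [e2]
  · rw [← vol_ordB P hS0 M]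
    congr 1
    ext z
    constructor
    · rintro ⟨h1, h2⟩
      refine ⟨?_, h2⟩
      refine (hn _ _ _ _ fun l hl => ?_).1 h1
      rw [map_add]
      cases l with
      | zero => simp
      | succ l => rw [PowerSeries.coeff_succ_X_mul, h2 l (by omega), add_zero]
    · rintro ⟨h1, h2⟩
      refine ⟨?_, h2⟩
      refine (hn _ _ _ _ fun l hl => ?_).2 h1
      rw [map_add]
      cases l with
      | zero => simp
      | succ l => rw [PowerSeries.coeff_succ_X_mul, h2 l (by omega), add_zero]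

/-- no arcs -/
theorem vol_emp (P : HodgeMeasure) {D : Set ((E → ℂ) × (Empty → PowerSeries ℂ))} (hD : Cy D) :
    vol P.rat xq D = P.rat.val {p : E → ℂ | (p, Empty.elim) ∈ D} := by
  obtain ⟨N, hN⟩ := hD
  have hc := hN N le_rfl
  rw [vol_eq P.rat (VAAux.L_mul P) hc, ← P.rat.reindex
    (Equiv.sumEmpty E (Σ _ : Empty, Fin N)) hc.2]
  simp only [Finset.univ_eq_empty, Finset.sum_empty, pow_zero, mul_one]
  congr 1
  ext p
  have e1 : toArc (fun _ : Empty => N) (fun s => p ((Equiv.sumEmpty E (Σ _ : Empty, Fin N))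
      (Sum.inr s))) = (Empty.elim : Empty → PowerSeries ℂ) := Subsingleton.elim _ _
  change ((fun a => p a), toArc (fun _ : Empty => N) (fun s => p ((Equiv.sumEmpty E
    (Σ _ : Empty, Fin N)) (Sum.inr s)))) ∈ D ↔ _
  rw [e1]
  rfl

end

/-- two arcs -/
def f2 : Unit ⊕ Unit ≃ Fin 2 where
  toFun := Sum.elim (fun _ => 0) fun _ => 1
  invFun := ![Sum.inl (), Sum.inr ()]
  left_inv := by rintro (⟨⟩ | ⟨⟩) <;> rfl
  right_inv := by intro i; fin_cases i <;> rfl

/-- two arcs, exchanged -/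
def f2' : Unit ⊕ Unit ≃ Fin 2 where
  toFun := Sum.elim (fun _ => 1) fun _ => 0
  invFun := ![Sum.inr (), Sum.inl ()]
  left_inv := by rintro (⟨⟩ | ⟨⟩) <;> rfl
  right_inv := by intro i; fin_cases i <;> rfl

section

variable {E : Type} [Finite E] (P : HodgeMeasure) (c c' : ℂ)
  {C : Set ((E → ℂ) × (Fin 2 → PowerSeries ℂ))} {n M : ℕ}

theorem haar_S (z : Unit → ℂ) : z ∈ (haar 1).S ↔ z () ≠ 0 := Iff.rfl

theorem haar_u (z : Unit → ℂ) : eval z (haar 1).u = z () := by
  change eval z (X ()) = _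
  rw [eval_X]

/-- the two arcs, first arc from a family -/
def C1 (c : ℂ) (t : Fam) (k : ℕ) (C : Set ((E → ℂ) × (Fin 2 → PowerSeries ℂ))) :
    Set ((E ⊕ t.σ → ℂ) × (Unit ⊕ Unit → PowerSeries ℂ)) :=
  {z | (fun s => z.1 (Sum.inr s)) ∈ t.S ∧ ((fun e => z.1 (Sum.inl e)),
    ![PowerSeries.C c + arcE (eval (fun s => z.1 (Sum.inr s)) t.u) k (z.2 (Sum.inl ())),
      z.2 (Sum.inr ())]) ∈ C}

theorem cy_C1 (c : ℂ) {t : Fam} (ht : t.Good) (k : ℕ) (hC : Cy C) : Cy (C1 c t k C) := by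
  have := t.fin
  refine Cy.and (cy_S ht.1 Sum.inr) (cy_sub hC (φ := fun z e => z.1 (Sum.inl e))
    (fun s => RF.par _) (ψ := fun z => ![PowerSeries.C c +
      arcE (eval (fun s => z.1 (Sum.inr s)) t.u) k (z.2 (Sum.inl ())), z.2 (Sum.inr ())]) ?_)
  intro a l
  fin_cases a
  · exact RF_CX (RF.const c) (RF.arcE (RF_u t.u Sum.inr) k fun l => RF.arc _ l) l
  · exact RF.arc (Sum.inr ()) l

theorem vFH_eq {t : Fam} (ht : t.Good) (h : HT) (hH : Constructible h.H)
    (hv : ∀ z ∈ h.H, eval z h.v = c') (k : ℕ) (hC : IsCyl (fun _ => n) C) (hM : n ≤ M + 1) :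
    haveI := h.fin
    vFH P c t h k C = P.rat.val h.H * (∑ l ∈ Finset.Icc 1 M, xq ^ l *
      vFF P c t c' (haar 1) k l C + xq ^ M * vFC P c t c' k C) := by
  have := h.fin
  have := t.fin
  have hCy : Cy C := cy_of hC
  have hC1 := cy_C1 c ht k hCy
  have h0 := vol_order P c' hC1 n M (fun p x y y' hy => ?_) hM
  · have hS1 : Cy {z : (E ⊕ t.σ → ℂ) × (Unit ⊕ Unit → PowerSeries ℂ) | (z.1,
        Sum.elim (fun a => z.2 (Sum.inl a)) fun _ => PowerSeries.C c' +
          PowerSeries.X * z.2 (Sum.inr ())) ∈ C1 c t k C} := by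
      refine cy_sub hC1 (φ := fun z => z.1) (fun s => RF.par _) (ψ := fun z =>
        Sum.elim (fun a => z.2 (Sum.inl a)) fun _ => PowerSeries.C c' +
          PowerSeries.X * z.2 (Sum.inr ())) ?_
      rintro (a | a) l
      · exact RF.arc (Sum.inl a) l
      · exact RF_CX (RF.const c') (RF_X fun l => RF.arc (Sum.inr ()) l) l
    have h1 := vol_prodH P hH hS1
    have h2 : vFH P c t h k C = vol P.rat xq {z : ((E ⊕ t.σ) ⊕ h.σ → ℂ) ×
        (Unit ⊕ Unit → PowerSeries ℂ) | (fun s => z.1 (Sum.inr s)) ∈ h.H ∧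
        ((fun e => z.1 (Sum.inl e)), z.2) ∈ {z : (E ⊕ t.σ → ℂ) × (Unit ⊕ Unit → PowerSeries ℂ) |
          (z.1, Sum.elim (fun a => z.2 (Sum.inl a)) fun _ => PowerSeries.C c' +
            PowerSeries.X * z.2 (Sum.inr ())) ∈ C1 c t k C}} := by
      refine vol_iso P (Equiv.sumAssoc E t.σ h.σ) f2 ?_ ?_
      · exact Cy.and (cy_S hH Sum.inr) (cy_sub hS1 (φ := fun z e => z.1 (Sum.inl e))
          (fun s => RF.par _) (ψ := fun z => z.2) fun a l => RF.arc a l)
      · intro p x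
        constructor
        · rintro ⟨g1, g2, g3⟩
          rw [hv _ g2] at g3
          exact ⟨g2, g1, g3⟩
        · rintro ⟨g2, g1, g3⟩
          refine ⟨g1, g2, ?_⟩
          have g4 : eval (fun s => (p, x).1 (Sum.inr (Sum.inr s))) h.v = c' := hv _ g2
          rw [g4]
          exact g3
    have h3 : ∀ l : ℕ, vFF P c t c' (haar 1) k l C = vol P.rat xq {z : ((E ⊕ t.σ) ⊕ Unit → ℂ) ×
        (Unit ⊕ Unit → PowerSeries ℂ) | z.1 (Sum.inr ()) ≠ 0 ∧ ((fun e => z.1 (Sum.inl e)),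
        Sum.elim (fun a => z.2 (Sum.inl a)) fun _ => PowerSeries.C c' +
          arcE (z.1 (Sum.inr ())) l (z.2 (Sum.inr ()))) ∈ C1 c t k C} := by
      intro l
      refine vol_iso P (Equiv.sumAssoc E t.σ Unit) f2 ?_ ?_
      · refine Cy.and (Cy.not (Cy.zero (RF.par _))) (cy_sub hC1 (φ := fun z e => z.1 (Sum.inl e))
          (fun s => RF.par _) (ψ := fun z => Sum.elim (fun a => z.2 (Sum.inl a)) fun _ =>
          PowerSeries.C c' + arcE (z.1 (Sum.inr ())) l (z.2 (Sum.inr ()))) ?_)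
        rintro (a | a) l'
        · exact RF.arc (Sum.inl a) l'
        · exact RF_CX (RF.const c') (RF.arcE (RF.par _) l fun l => RF.arc (Sum.inr ()) l) l'
      · intro p x
        have g5 : eval (fun s => (p, x).1 (Sum.inr (Sum.inr s))) (haar 1).u =
          p (Sum.inr (Sum.inr ())) := haar_u _
        constructor
        · rintro ⟨g1, g2, g3⟩
          erw [g5] at g3
          exact ⟨g2, g1, g3⟩
        · rintro ⟨g2, g1, g3⟩
          refine ⟨g1, g2, ?_⟩
          erw [g5]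
          exact g3
    have h4 : vFC P c t c' k C = vol P.rat xq {z : (E ⊕ t.σ → ℂ) × (Unit → PowerSeries ℂ) |
        (z.1, Sum.elim z.2 fun _ => PowerSeries.C c') ∈ C1 c t k C} := rfl
    rw [h2, h1, h0, h4]
    simp only [h3]
  · refine and_congr Iff.rfl (hC.1 _ _ _ ?_)
    intro i l hl
    fin_cases i
    · rfl
    · exact hy l hl

/-- one arc -/
def C2 (c : ℂ) (C : Set ((E → ℂ) × (Fin 2 → PowerSeries ℂ))) :
    Set ((E → ℂ) × (Empty ⊕ Unit → PowerSeries ℂ)) :=
  {z | (z.1, ![PowerSeries.C c, z.2 (Sum.inr ())]) ∈ C}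

theorem cy_C2 (c : ℂ) (hC : Cy C) : Cy (C2 c C) := by
  refine cy_sub hC (φ := fun z => z.1) (fun s => RF.par _) (ψ := fun z =>
    ![PowerSeries.C c, z.2 (Sum.inr ())]) ?_
  intro a l
  fin_cases a
  · exact RF.const _
  · exact RF.arc (Sum.inr ()) l

theorem vCH_eq (h : HT) (hH : Constructible h.H)
    (hv : ∀ z ∈ h.H, eval z h.v = c') (hC : IsCyl (fun _ => n) C) (hM : n ≤ M + 1) :
    haveI := h.fin
    vCH P c h C = P.rat.val h.H * (∑ l ∈ Finset.Icc 1 M, xq ^ l *
      vFC P c' (haar 1) c l (swC C) + xq ^ M *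
        P.rat.val {p : E → ℂ | (p, ![PowerSeries.C c, PowerSeries.C c']) ∈ C}) := by
  have := h.fin
  have hCy : Cy C := cy_of hC
  have hC2 := cy_C2 c hCy
  have h0 := vol_order P c' hC2 n M (fun p x y y' hy => ?_) hM
  · have hS1 : Cy {z : (E → ℂ) × (Empty ⊕ Unit → PowerSeries ℂ) | (z.1,
        Sum.elim (fun a => z.2 (Sum.inl a)) fun _ => PowerSeries.C c' +
          PowerSeries.X * z.2 (Sum.inr ())) ∈ C2 c C} := by
      refine cy_sub hC2 (φ := fun z => z.1) (fun s => RF.par _) (ψ := fun z =>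
        Sum.elim (fun a => z.2 (Sum.inl a)) fun _ => PowerSeries.C c' +
          PowerSeries.X * z.2 (Sum.inr ())) ?_
      rintro (a | a) l
      · exact RF.arc (Sum.inl a) l
      · exact RF_CX (RF.const c') (RF_X fun l => RF.arc (Sum.inr ()) l) l
    have h1 := vol_prodH P hH hS1
    have h2 : vCH P c h C = vol P.rat xq {z : (E ⊕ h.σ → ℂ) ×
        (Empty ⊕ Unit → PowerSeries ℂ) | (fun s => z.1 (Sum.inr s)) ∈ h.H ∧
        ((fun e => z.1 (Sum.inl e)), z.2) ∈ {z : (E → ℂ) × (Empty ⊕ Unit → PowerSeries ℂ) |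
          (z.1, Sum.elim (fun a => z.2 (Sum.inl a)) fun _ => PowerSeries.C c' +
            PowerSeries.X * z.2 (Sum.inr ())) ∈ C2 c C}} := by
      refine vol_iso P (Equiv.refl _) (Equiv.emptySum Empty Unit) ?_ ?_
      · exact Cy.and (cy_S hH Sum.inr) (cy_sub hS1 (φ := fun z e => z.1 (Sum.inl e))
          (fun s => RF.par _) (ψ := fun z => z.2) fun a l => RF.arc a l)
      · intro p x
        constructor
        · rintro ⟨g2, g3⟩
          rw [hv _ g2] at g3
          exact ⟨g2, g3⟩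
        · rintro ⟨g2, g3⟩
          refine ⟨g2, ?_⟩
          have g4 : eval (fun s => (p, x).1 (Sum.inr s)) h.v = c' := hv _ g2
          rw [g4]
          exact g3
    have h3 : ∀ l : ℕ, vFC P c' (haar 1) c l (swC C) = vol P.rat xq {z : (E ⊕ Unit → ℂ) ×
        (Empty ⊕ Unit → PowerSeries ℂ) | z.1 (Sum.inr ()) ≠ 0 ∧ ((fun e => z.1 (Sum.inl e)),
        Sum.elim (fun a => z.2 (Sum.inl a)) fun _ => PowerSeries.C c' +
          arcE (z.1 (Sum.inr ())) l (z.2 (Sum.inr ()))) ∈ C2 c C} := by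
      intro l
      refine vol_iso P (E := E ⊕ Unit) (E' := E ⊕ Unit) (Equiv.refl _)
        (Equiv.emptySum Empty Unit) ?_ ?_
      · refine Cy.and (Cy.not (Cy.zero (RF.par _))) (cy_sub hC2 (φ := fun z e => z.1 (Sum.inl e))
          (fun s => RF.par _) (ψ := fun z => Sum.elim (fun a => z.2 (Sum.inl a)) fun _ =>
          PowerSeries.C c' + arcE (z.1 (Sum.inr ())) l (z.2 (Sum.inr ()))) ?_)
        rintro (a | a) l'
        · exact RF.arc (Sum.inl a) l'
        · exact RF_CX (RF.const c') (RF.arcE (RF.par _) l fun l => RF.arc (Sum.inr ()) l) l'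
      · intro p x
        have g5 : eval (fun s => (p, x).1 (Sum.inr s)) (haar 1).u = p (Sum.inr ()) := haar_u _
        constructor
        · rintro ⟨g2, g3⟩
          erw [g5] at g3
          exact ⟨g2, g3⟩
        · rintro ⟨g2, g3⟩
          refine ⟨g2, ?_⟩
          erw [g5]
          exact g3
    have hS2 : Cy {z : (E → ℂ) × (Empty → PowerSeries ℂ) |
        (z.1, Sum.elim z.2 fun _ => PowerSeries.C c') ∈ C2 c C} := by
      refine cy_sub hC2 (φ := fun z => z.1) (fun s => RF.par _) (ψ := fun z =>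
        Sum.elim z.2 fun _ => PowerSeries.C c') ?_
      rintro (a | a) l
      · exact a.elim
      · exact RF.const _
    have h4 : P.rat.val {p : E → ℂ | (p, ![PowerSeries.C c, PowerSeries.C c']) ∈ C} =
        vol P.rat xq {z : (E → ℂ) × (Empty → PowerSeries ℂ) |
        (z.1, Sum.elim z.2 fun _ => PowerSeries.C c') ∈ C2 c C} := (vol_emp P hS2).symm
    rw [h2, h1, h0, h4]
    simp only [h3]
  · refine hC.1 _ _ _ ?_
    intro i l hl
    fin_cases i
    · rfl
    · exact hy l hl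

theorem muFH_eq {s : Src} (hs : ∀ t ∈ s.ts, t.Good) (h : HT) (hH : Constructible h.H)
    (hv : ∀ z ∈ h.H, eval z h.v = c') (hC : IsCyl (fun _ => n) C) (hM : n ≤ M + 1) :
    haveI := h.fin
    muFH P c s h E C M = h.lam * P.rat.val h.H * muFF P c s c' hsrc E C M := by
  have := h.fin
  have e0 : ∀ f : Fam → K, (hsrc.ts.map f).sum = f (haar 1) := by
    intro f
    change ([haar 1].map f).sum = _
    simp
  have e1 : ∀ l : ℕ, (haar 1).κ l = xq ^ l := fun l => one_mul _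
  have e2 : hsrc.b M = xq ^ M := rfl
  have e3 : ∀ k : ℕ, (s.ts.map fun t => t.κ k * vFH P c t h k C).sum =
      P.rat.val h.H * (s.ts.map fun t => t.κ k * (∑ l ∈ Finset.Icc 1 M, xq ^ l *
        vFF P c t c' (haar 1) k l C + xq ^ M * vFC P c t c' k C)).sum := by
    intro k
    rw [← List.sum_map_mul_left]
    congr 1
    refine List.map_congr_left fun t ht => ?_
    rw [vFH_eq P c c' (hs t ht) h hH hv k hC hM]
    ring
  rw [muFF_eq1]
  unfold muFH
  simp only [e0, e1, e2, e3]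
  rw [vCH_eq P c c' h hH hv hC hM, ← Finset.mul_sum]
  ring

/-- a point -/
noncomputable def h0 (c' : ℂ) : HT where
  σ := Empty
  fin := inferInstance
  H := Set.univ
  v := MvPolynomial.C c'
  lam := 1

/-- two arcs, exchanged -/
def C3 (c' : ℂ) (C : Set ((E → ℂ) × (Fin 2 → PowerSeries ℂ))) :
    Set ((E → ℂ) × (Unit ⊕ Unit → PowerSeries ℂ)) :=
  {z | (z.1, ![z.2 (Sum.inr ()), PowerSeries.C c' + PowerSeries.X * z.2 (Sum.inl ())]) ∈ C}

theorem cy_C3 (c' : ℂ) (hC : Cy C) : Cy (C3 c' C) := by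
  refine cy_sub hC (φ := fun z => z.1) (fun s => RF.par _) (ψ := fun z =>
    ![z.2 (Sum.inr ()), PowerSeries.C c' + PowerSeries.X * z.2 (Sum.inl ())]) ?_
  intro a l
  fin_cases a
  · exact RF.arc (Sum.inr ()) l
  · exact RF_CX (RF.const c') (RF_X fun l => RF.arc (Sum.inl ()) l) l

theorem muHH_eq0 (h : HH) (hH : Constructible h.H)
    (hv : ∀ z ∈ h.H, eval z h.v = c ∧ eval z h.v' = c') (hC : IsCyl (fun _ => n) C)
    (hM : n ≤ M + 1) :
    haveI := h.fin
    muHH P h E C M = h.lam * P.rat.val h.H * muFH P c hsrc (h0 c') E C M := by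
  have := h.fin
  have hCy : Cy C := cy_of hC
  have hC3 := cy_C3 c' hCy
  have h0' := vol_order P c hC3 n M (fun p x y y' hy => ?_) hM
  · have hS1 : Cy {z : (E → ℂ) × (Unit ⊕ Unit → PowerSeries ℂ) | (z.1,
        Sum.elim (fun a => z.2 (Sum.inl a)) fun _ => PowerSeries.C c +
          PowerSeries.X * z.2 (Sum.inr ())) ∈ C3 c' C} := by
      refine cy_sub hC3 (φ := fun z => z.1) (fun s => RF.par _) (ψ := fun z =>
        Sum.elim (fun a => z.2 (Sum.inl a)) fun _ => PowerSeries.C c +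
          PowerSeries.X * z.2 (Sum.inr ())) ?_
      rintro (a | a) l
      · exact RF.arc (Sum.inl a) l
      · exact RF_CX (RF.const c) (RF_X fun l => RF.arc (Sum.inr ()) l) l
    have h1 := vol_prodH P hH hS1
    have h2 : vol P.rat xq {z : (E ⊕ h.σ → ℂ) × (Fin 2 → PowerSeries ℂ) |
        (fun s => z.1 (Sum.inr s)) ∈ h.H ∧ ((fun e => z.1 (Sum.inl e)),
      ![PowerSeries.C (eval (fun s => z.1 (Sum.inr s)) h.v) + PowerSeries.X * z.2 0,
        PowerSeries.C (eval (fun s => z.1 (Sum.inr s)) h.v') + PowerSeries.X * z.2 1]) ∈ C} =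
        vol P.rat xq {z : (E ⊕ h.σ → ℂ) ×
        (Unit ⊕ Unit → PowerSeries ℂ) | (fun s => z.1 (Sum.inr s)) ∈ h.H ∧
        ((fun e => z.1 (Sum.inl e)), z.2) ∈ {z : (E → ℂ) × (Unit ⊕ Unit → PowerSeries ℂ) |
          (z.1, Sum.elim (fun a => z.2 (Sum.inl a)) fun _ => PowerSeries.C c +
            PowerSeries.X * z.2 (Sum.inr ())) ∈ C3 c' C}} := by
      refine vol_iso P (Equiv.refl _) f2' ?_ ?_
      · exact Cy.and (cy_S hH Sum.inr) (cy_sub hS1 (φ := fun z e => z.1 (Sum.inl e))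
          (fun s => RF.par _) (ψ := fun z => z.2) fun a l => RF.arc a l)
      · intro p x
        constructor
        · rintro ⟨g2, g3⟩
          rw [(hv _ g2).1, (hv _ g2).2] at g3
          exact ⟨g2, g3⟩
        · rintro ⟨g2, g3⟩
          refine ⟨g2, ?_⟩
          have g4 : eval (fun s => (p, x).1 (Sum.inr s)) h.v = c := (hv _ g2).1
          have g5 : eval (fun s => (p, x).1 (Sum.inr s)) h.v' = c' := (hv _ g2).2
          rw [g4, g5]
          exact g3
    have h3 : ∀ l : ℕ, vFH P c (haar 1) (h0 c') l C = vol P.rat xq {z : (E ⊕ Unit → ℂ) ×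
        (Unit ⊕ Unit → PowerSeries ℂ) | z.1 (Sum.inr ()) ≠ 0 ∧ ((fun e => z.1 (Sum.inl e)),
        Sum.elim (fun a => z.2 (Sum.inl a)) fun _ => PowerSeries.C c +
          arcE (z.1 (Sum.inr ())) l (z.2 (Sum.inr ()))) ∈ C3 c' C} := by
      intro l
      refine vol_iso P ((Equiv.sumCongr (Equiv.refl E) (Equiv.sumEmpty Unit Empty).symm)) f2' ?_ ?_
      · refine Cy.and (Cy.not (Cy.zero (RF.par _))) (cy_sub hC3 (φ := fun z e => z.1 (Sum.inl e))
          (fun s => RF.par _) (ψ := fun z => Sum.elim (fun a => z.2 (Sum.inl a)) fun _ =>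
          PowerSeries.C c + arcE (z.1 (Sum.inr ())) l (z.2 (Sum.inr ()))) ?_)
        rintro (a | a) l'
        · exact RF.arc (Sum.inl a) l'
        · exact RF_CX (RF.const c) (RF.arcE (RF.par _) l fun l => RF.arc (Sum.inr ()) l) l'
      · intro p x
        have e1 : eval (fun s => (p, x).1 (Sum.inr (Sum.inr s))) (h0 c').v = c' := eval_C c'
        have g5 : eval (fun s => (p, x).1 (Sum.inr (Sum.inl s))) (haar 1).u =
          p (Sum.inr (Sum.inl ())) := haar_u _
        constructor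
        · rintro ⟨g2, -, g3⟩
          erw [g5, e1] at g3
          exact ⟨g2, g3⟩
        · rintro ⟨g2, g3⟩
          refine ⟨g2, trivial, ?_⟩
          erw [g5, e1]
          exact g3
    have h4 : vCH P c (h0 c') C = vol P.rat xq {z : (E → ℂ) × (Unit → PowerSeries ℂ) |
        (z.1, Sum.elim z.2 fun _ => PowerSeries.C c) ∈ C3 c' C} := by
      refine vol_iso P (Equiv.sumEmpty E Empty).symm (Equiv.refl _) ?_ ?_
      · refine cy_sub hC3 (φ := fun z => z.1) (fun s => RF.par _) (ψ := fun z =>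
          Sum.elim z.2 fun _ => PowerSeries.C c) ?_
        rintro (a | a) l
        · exact RF.arc a l
        · exact RF.const _
      · intro p x
        have e1 : eval (fun s => (p, x).1 (Sum.inr s)) (h0 c').v = c' := eval_C c'
        constructor
        · rintro ⟨-, g3⟩
          erw [e1] at g3
          exact g3
        · intro g3
          refine ⟨trivial, ?_⟩
          erw [e1]
          exact g3
    have e0 : ∀ f : Fam → K, (hsrc.ts.map f).sum = f (haar 1) := by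
      intro f
      change ([haar 1].map f).sum = _
      simp
    have e1 : ∀ l : ℕ, (haar 1).κ l = xq ^ l := fun l => one_mul _
    have e2 : hsrc.b M = xq ^ M := rfl
    have e3 : (h0 c').lam = 1 := rfl
    unfold muHH muFH
    simp only [e0, e1, e2]
    rw [h2, h1, h0', h4, e3]
    simp only [h3]
    ring
  · refine hC.1 _ _ _ ?_
    intro i l hl
    fin_cases i
    · exact hy l hl
    · rfl

end

end HP7Aux

open HP7Aux RMAux SRX in
theorem stmt_HP7 : Stmt_HP7 := by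
  refine ⟨?_, ?_⟩
  · intro P h c c' hH hv E _ C n M hC hM
    have : Finite (h0 c').σ := (h0 c').fin
    have e0 := muFH_eq P c c' (s := hsrc) (fun t ht => ((hsrc_ok P).1 t ht).1) (h0 c')
      Constructible.univ (fun z _ => eval_C c') hC hM
    have e1 : P.rat.val (h0 c').H = 1 := P.rat.point
    have e2 : (h0 c').lam = 1 := rfl
    rw [e1, e2, one_mul, one_mul] at e0
    rw [muHH_eq0 P c c' h hH hv hC hM, e0]
  · intro P c s h c' hs hH hv E _ C n M hC hM
    exact muFH_eq P c c' hs h hH hv hC hM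

end Pool.Agent.Mono.BV
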