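import Pool.Agent.Work.Monodromy7.RMY7
import Pool.Agent.Work.Monodromy7.HP7

/-!
# Block FH7 (helper31): a source and a Haar part
-/

set_option autoImplicit false

namespace Pool.Agent.Mono.BV

open MvPolynomial TS RO RO.VGAux PC

namespace FH7Aux

open RMAux SRX

/-- `F(c, y)` -/
noncomputable def rst (c : ℂ) (F : P2) : Polynomial ℂ :=
  aeval ![Polynomial.C c, Polynomial.X] F

theorem eval_rst (c y : ℂ) (F : P2) : (rst c F).eval y = eval ![c, y] F := by
  induction F using MvPolynomial.induction_on with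
  | C a => simp [rst]
  | add p q hp hq =>
    have h1 : rst c (p + q) = rst c p + rst c q := map_add _ _ _
    rw [h1, Polynomial.eval_add, map_add, hp, hq]
  | mul_X p i hp =>
    rw [rst] at hp ⊢
    rw [map_mul, Polynomial.eval_mul, map_mul, hp, aeval_X, eval_X]
    fin_cases i <;> simp

theorem rst_sub (c : ℂ) (F G : P2) : rst c (F - G) = rst c F - rst c G := map_sub _ _ _

theorem derivative_rst (c : ℂ) (F : P2) :
    Polynomial.derivative (rst c F) = rst c (pderiv 1 F) := by
  induction F using MvPolynomial.induction_on with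
  | C a => simp [rst]
  | add p q hp hq =>
    have h1 : rst c (p + q) = rst c p + rst c q := map_add _ _ _
    have h2 : rst c (pderiv 1 p + pderiv 1 q) = rst c (pderiv 1 p) + rst c (pderiv 1 q) :=
      map_add _ _ _
    rw [h1, map_add, map_add, h2, hp, hq]
  | mul_X p i hp =>
    have h1 : ∀ p q : P2, rst c (p * q) = rst c p * rst c q := fun p q => map_mul _ _ _
    have h2 : ∀ p q : P2, rst c (p + q) = rst c p + rst c q := fun p q => map_add _ _ _
    rw [h1, Polynomial.derivative_mul, hp, Derivation.leibniz, smul_eq_mul, smul_eq_mul, h2, h1,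
      h1]
    fin_cases i
    · simp [rst, pderiv_X]
      ring
    · simp [rst, pderiv_X]
      ring

/-- polynomials which vanish on the line `X 0 = c` -/
theorem dvd_of_rst {F : P2} {c : ℂ} (h : rst c F = 0) : (X 0 - C c : P2) ∣ F := by
  rw [← Ideal.mem_span_singleton, ← Ideal.Quotient.eq_zero_iff_mem]
  let I : Ideal P2 := Ideal.span {(X 0 - C c : P2)}
  have h1 : ∀ G : P2, Ideal.Quotient.mk I G =
      Ideal.Quotient.mk I (Polynomial.aeval (X 1 : P2) (rst c G)) := by
    intro G
    induction G using MvPolynomial.induction_on with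
    | C a => simp [rst]
    | add p q hp hq =>
      have h2 : rst c (p + q) = rst c p + rst c q := map_add _ _ _
      rw [h2, map_add, map_add, map_add, hp, hq]
    | mul_X p i hp =>
      have h2 : rst c (p * X i) = rst c p * rst c (X i) := map_mul _ _ _
      rw [h2, map_mul, map_mul, map_mul, ← hp]
      congr 1
      fin_cases i
      · have h3 : rst c (X 0) = Polynomial.C c := by simp [rst]
        change Ideal.Quotient.mk I (X 0) = Ideal.Quotient.mk I (Polynomial.aeval (X 1 : P2)
          (rst c (X 0)))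
        rw [h3, Polynomial.aeval_C, Ideal.Quotient.eq]
        exact Ideal.subset_span rfl
      · have h3 : rst c (X 1) = Polynomial.X := by simp [rst]
        change Ideal.Quotient.mk I (X 1) = Ideal.Quotient.mk I (Polynomial.aeval (X 1 : P2)
          (rst c (X 1)))
        rw [h3, Polynomial.aeval_X]
  have h2 := h1 F
  rw [h, map_zero, map_zero] at h2
  exact h2

theorem eval_zero_trans (x₀ : Fin 2 → ℂ) (F : P2) :
    eval 0 (aeval (fun i => X i + C (x₀ i)) F : P2) = eval x₀ F := by
  induction F using MvPolynomial.induction_on with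
  | C a => simp
  | add p q hp hq => rw [map_add, map_add, map_add, hp, hq]
  | mul_X p i hp => rw [map_mul, map_mul, map_mul, hp]; simp

theorem eval_zero_loc (G : P2) (x₀ : Fin 2 → ℂ) : eval 0 (BG.loc G x₀) = 0 := by
  rw [BG.loc, map_sub, eval_zero_trans, eval_C, sub_self]

theorem coeff_zero_eval (F : P2) : F.coeff 0 = eval 0 F := by
  rw [← constantCoeff_eq]
  induction F using MvPolynomial.induction_on with
  | C a => simp
  | add p q hp hq => rw [map_add, map_add, hp, hq]
  | mul_X p i hp => simp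

/-- `G = d + (X 0 - c)^m q` near the point `x₀` -/
theorem loc_axis {G q : P2} {c d : ℂ} {m : ℕ} (hm : 1 ≤ m) (hG : G = C d + (X 0 - C c) ^ m * q)
    {x₀ : Fin 2 → ℂ} (hx : x₀ 0 = c) (hq : eval x₀ q ≠ 0) :
    eval x₀ G = d ∧ (∀ e ∈ (BG.loc G x₀).support, m ≤ e 0) ∧ (BG.loc G x₀).coeff (mon m 0) ≠ 0 := by
  have h1 : eval x₀ G = d := by
    rw [hG]
    simp [hx, zero_pow (show m ≠ 0 by omega)]
  have h2 : BG.loc G x₀ = monomial (Finsupp.single 0 m) 1 *
      (aeval (fun i => X i + C (x₀ i)) q : P2) := by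
    rw [BG.loc, h1, ← X_pow_eq_monomial]
    conv_lhs => rw [hG]
    simp only [map_add, map_mul, map_pow, map_sub, aeval_X, aeval_C, hx]
    simp only [algebraMap_eq]
    ring
  refine ⟨h1, fun e he => ?_, ?_⟩
  · rw [mem_support_iff, h2, coeff_monomial_mul'] at he
    by_contra h3
    apply he
    rw [if_neg]
    intro h4
    have h5 := h4 0
    rw [Finsupp.single_eq_same] at h5
    omega
  · rw [h2, coeff_monomial_mul']
    have h3 : mon m 0 = Finsupp.single 0 m := by
      rw [mon, Finsupp.single_zero, add_zero]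
    rw [h3, if_pos le_rfl, tsub_self, one_mul, coeff_zero_eval, eval_zero_trans]
    exact hq

/-- partition by the value of `v` -/
def HsP (h : HT) (Y : Finset ℂ) (o : Option ℂ) : Set (h.σ → ℂ) :=
  match o with
  | none => {z | z ∈ h.H ∧ ∀ y ∈ Y, eval z h.v ≠ y}
  | some y => {z | z ∈ h.H ∧ eval z h.v = y}

theorem part_pts (h : HT) (hH : Constructible h.H) (Y : Finset ℂ) :
    Part (Finset.insertNone Y) (HsP h Y) h.H := by
  have h1 : ∀ y : ℂ, Constructible {z : h.σ → ℂ | eval z h.v = y} := by
    intro y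
    have := Constructible.zero (h.v - C y)
    simpa only [map_sub, eval_C, sub_eq_zero] using this
  refine ⟨?_, ?_, ?_⟩
  · rintro (_ | y) _
    · refine hH.and ?_
      induction Y using Finset.induction_on with
      | empty => simpa using Constructible.univ
      | insert a s ha ih =>
        have h2 : {z : h.σ → ℂ | ∀ y ∈ insert a s, eval z h.v ≠ y} =
            {z | eval z h.v = a}ᶜ ∩ {z | ∀ y ∈ s, eval z h.v ≠ y} := by
          ext z
          simp only [Finset.mem_insert, forall_eq_or_imp]
          exact Iff.rfl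
        rw [h2]
        refine Constructible.inter (Constructible.compl (h1 a)) (ih ?_)
        exact Finset.mem_insertNone.2 fun y hy => by simp at hy
    · exact hH.and (h1 y)
  · rintro (_ | y) ha (_ | y') hb hab z h2 h3
    · exact hab rfl
    · exact h2.2 y' (Finset.some_mem_insertNone.1 hb) h3.2
    · exact h3.2 y (Finset.some_mem_insertNone.1 ha) h2.2
    · exact hab (congrArg some (h2.2.symm.trans h3.2))
  · intro z
    constructor
    · intro hz
      by_cases h2 : ∀ y ∈ Y, eval z h.v ≠ y
      · exact ⟨none, Finset.none_mem_insertNone, hz, h2⟩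
      · push Not at h2
        obtain ⟨y, hy, h3⟩ := h2
        exact ⟨some y, Finset.some_mem_insertNone.2 hy, hz, h3⟩
    · rintro ⟨_ | y, _, h2⟩
      · exact h2.1
      · exact h2.1

/-- one exponent -/
theorem one_kind (hRA : Stmt_RA7) (hPT : Stmt_PT7) (hGD : Stmt_GD7) (hFS : Stmt_FS7)
    (hFM : Stmt_FM7) (P : HodgeMeasure) (c : ℂ) (s : Src) (k : Kd) (W : Set ℚ) (h : HT) (G : P2)
    (Λ : ℂ → Set ℚ) (hk : KdIn W k) (hok : s.Ok P k) (his : s.Is P k)
    (hH : Constructible h.H) (hΛ : ∀ d, Λ d ⊆ Set.Ioi 0) (hG : G.totalDegree ≠ 0)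
    (hXF : ∀ x₀ : Fin 2 → ℂ, x₀ 0 = c → eval x₀ (pderiv 1 G) = 0 →
      BG.GoodXF (Λ (eval x₀ G)) W (BG.loc G x₀))
    (hax : ∀ (x₀ : Fin 2 → ℂ) (m : ℕ), x₀ 0 = c → 1 ≤ m →
      (∀ d ∈ (BG.loc G x₀).support, m ≤ d 0) → (BG.loc G x₀).coeff (mon m 0) ≠ 0 →
        ∀ r ∈ W, r / (m : ℚ) ∈ Λ (eval x₀ G)) : RegM P (muFH P c s h) G Λ := by
  classical
  have hgood : ∀ t ∈ s.ts, t.Good := fun t ht => (hok.1 t ht).1
  -- points
  have hpt : ∀ (H : Set (h.σ → ℂ)) (y : ℂ), Constructible H → (∀ z ∈ H, eval z h.v = y) →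
      eval ![c, y] (pderiv 1 G) = 0 → RegM P (muFH P c s (reT h H)) G Λ := by
    intro H y hHc hv hy
    have := h.fin
    have h1 : RegM P (muFF P c s y hsrc) G Λ := by
      refine hPT P G c y Λ k none s hsrc hΛ ?_ his (hsrc_is P)
      exact hGD.2.1 _ W k _ hk (eval_zero_loc G _) (hXF ![c, y] rfl hy)
    refine regM_congr hRA (fun w E _ Q hQ i M _ hiM => ?_)
      (regM_mul hRA (h.lam * P.rat.val H) h1)
    exact (stmt_HP7.2 P c s (reT h H) y hgood hHc hv E (SD G w Q i) (i + 1) M
      (M5Aux.cyl_SD G w hQ.1 i) (by omega)).symm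
  by_cases h0 : rst c (pderiv 1 G) = 0
  · -- `G` is constant on the axis
    have h1 : (rst c G).natDegree = 0 := by
      rw [← Polynomial.derivative_eq_zero, derivative_rst, h0]
    obtain ⟨d, hd⟩ := Polynomial.natDegree_eq_zero.1 h1
    have h2 : rst c (G - C d) = 0 := by
      have : rst c (C d) = Polynomial.C d := by simp [rst]
      rw [rst_sub, this, ← hd, sub_self]
    have hne : G - C d ≠ 0 := by
      intro h3
      apply hG
      rw [sub_eq_zero.1 h3, totalDegree_C]
    have hnu : ¬ IsUnit (X 0 - C c : P2) := by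
      intro h3
      have h4 := (h3.map (eval ![c, 0])).ne_zero
      simp at h4
    obtain ⟨q, hq1, hq2⟩ := (FiniteMultiplicity.of_not_isUnit hnu hne).exists_eq_pow_mul_and_not_dvd
    set m := multiplicity (X 0 - C c : P2) (G - C d) with hm
    have hm1 : 1 ≤ m := by
      by_contra h3
      have h4 : m = 0 := by omega
      rw [h4, pow_zero, one_mul] at hq1
      apply hq2
      rw [← hq1]
      exact dvd_of_rst h2
    have hGq : G = C d + (X 0 - C c) ^ m * q := by
      rw [← hq1]
      ring
    have hq3 : rst c q ≠ 0 := fun h3 => hq2 (dvd_of_rst h3)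
    have hax' : k.fs = true ∨ k.r / (m : ℚ) ∈ Λ d := by
      obtain ⟨fs, r, rfl, hr, h3⟩ := hk
      rcases h3 with h3 | h3
      · exact Or.inl h3
      · right
        have h4 : ∃ y, (rst c q).eval y ≠ 0 := by
          by_contra h5
          push Not at h5
          exact hq3 (Polynomial.funext fun y => by rw [h5 y, Polynomial.eval_zero])
        obtain ⟨y, hy⟩ := h4
        rw [eval_rst] at hy
        obtain ⟨g1, g2, g3⟩ := loc_axis hm1 hGq (x₀ := ![c, y]) rfl hy
        have := hax ![c, y] m rfl hm1 g2 g3 r h3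
        rw [g1] at this
        exact this
    refine regM_FH_part hRA c hgood h (part_pts h hH (rst c q).roots.toFinset) ?_
    rintro (_ | y) hy
    · refine hFM P c s k (reT h _) G q d m Λ hok ((part_pts h hH _).con none
        Finset.none_mem_insertNone) hm1 hGq ?_ hax'
      intro z hz
      rw [← eval_rst]
      intro h3
      refine hz.2 (eval z h.v) ?_ rfl
      rw [Multiset.mem_toFinset, Polynomial.mem_roots hq3]
      exact h3
    · refine hpt _ y ((part_pts h hH _).con (some y) hy) (fun z hz => hz.2) ?_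
      rw [← eval_rst, h0, Polynomial.eval_zero]
  · refine regM_FH_part hRA c hgood h (part_pts h hH (rst c (pderiv 1 G)).roots.toFinset) ?_
    rintro (_ | y) hy
    · refine hFS P c s k (reT h _) G Λ hok ((part_pts h hH _).con none
        Finset.none_mem_insertNone) ?_
      intro z hz
      rw [← eval_rst]
      intro h3
      refine hz.2 (eval z h.v) ?_ rfl
      rw [Multiset.mem_toFinset, Polynomial.mem_roots h0]
      exact h3
    · refine hpt _ y ((part_pts h hH _).con (some y) hy) (fun z hz => hz.2) ?_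
      have h3 := Finset.some_mem_insertNone.1 hy
      rw [Multiset.mem_toFinset, Polynomial.mem_roots h0] at h3
      rw [← eval_rst]
      exact h3

end FH7Aux

open RMAux FH7Aux in
theorem stmt_FH7 (hRA : Stmt_RA7) (hSQ : Stmt_SQ75) (hPT : Stmt_PT7) (hGD : Stmt_GD7)
    (hFS : Stmt_FS7) (hFM : Stmt_FM7) : Stmt_FH7 := by
  intro P c s W h G Λ hs hH hΛ hG hXF hax
  obtain ⟨n, ks, ss, h1, hok, h2, h3⟩ := mul_split hSQ hs
  have hreg : RegM P (fun E _ C M => ∑ i, muFH P c (ss i) h E C M) G Λ :=
    regM_sum hRA _ _ fun i _ => one_kind hRA hPT hGD hFS hFM P c (ss i) (ks i) W h G Λ (h1 i)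
      (hok i) (h2 i) hH hΛ hG hXF hax
  refine regM_congr hRA (fun w E _ Q _ i M _ _ => ?_) hreg
  exact (h3 M _ (linS_FH P c h _ M)).symm

end Pool.Agent.Mono.BV
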