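import Pool.Agent.Work.Monodromy7.FS7
import Pool.Agent.Work.Monodromy4.Q1

/-!
# Block FM7 (helper60): a source and a Haar part, generic points of an axis
-/

set_option autoImplicit false
set_option linter.unusedSectionVars false

namespace Pool.Agent.Mono.BV

open MvPolynomial TS RO PC

namespace FM7Aux

open VGAux B60 B61 FS7Aux

section arcs

variable {c d : ℂ} {m : ℕ} {G q : P2}

theorem aeval_G (hG : G = C d + (X 0 - C c) ^ m * q) (α β : PowerSeries ℂ) :
    aeval ![PowerSeries.C c + α, β] G =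
      PowerSeries.C d + α ^ m * aeval ![PowerSeries.C c + α, β] q := by
  rw [hG, map_add, map_mul, map_pow, map_sub, aeval_X]
  have e1 : ∀ a : ℂ, aeval (![PowerSeries.C c + α, β] : Fin 2 → PowerSeries ℂ)
      (C a : P2) = PowerSeries.C a := by
    intro a
    rw [aeval_C]
    rfl
  rw [e1, e1]
  congr 3
  change PowerSeries.C c + α - PowerSeries.C c = α
  ring

/-- order and leading coefficient -/
theorem lead_G (hm : 1 ≤ m) (hG : G = C d + (X 0 - C c) ^ m * q) (u v : ℂ) {k : ℕ} (hk : 1 ≤ k)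
    (x y : PowerSeries ℂ) :
    PowerSeries.coeff 0 (aeval ![PowerSeries.C c + arcE u k x,
        PowerSeries.C v + PowerSeries.X * y] G) = d ∧
    (∀ j, 1 ≤ j → j < m * k → PowerSeries.coeff j (aeval ![PowerSeries.C c + arcE u k x,
        PowerSeries.C v + PowerSeries.X * y] G) = 0) ∧
    PowerSeries.coeff (m * k) (aeval ![PowerSeries.C c + arcE u k x,
        PowerSeries.C v + PowerSeries.X * y] G) = u ^ m * eval ![c, v] q := by
  classical
  have hmk : 1 ≤ m * k := Nat.mul_pos hm hk
  have h0 : ∀ j < k, PowerSeries.coeff j (arcE u k x) = 0 := by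
    intro j hj
    rw [coeff_arcE, if_neg (by omega), if_neg (by omega), add_zero]
  have h1 : PowerSeries.coeff k (arcE u k x) = u := by
    rw [coeff_arcE, if_pos rfl, if_neg (by omega), add_zero]
  obtain ⟨h2, h3⟩ := VMUAux.lead_pow (arcE u k x) (aeval ![PowerSeries.C c + arcE u k x,
        PowerSeries.C v + PowerSeries.X * y] q) m k h0
  rw [h1] at h3
  have h4 : PowerSeries.coeff 0 (aeval ![PowerSeries.C c + arcE u k x,
        PowerSeries.C v + PowerSeries.X * y] q) = eval ![c, v] q := by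
    rw [coeff0]
    congr 1
    congr 1
    funext j
    fin_cases j
    · change PowerSeries.coeff 0 (PowerSeries.C c + arcE u k x) = c
      rw [map_add, h0 0 (by omega), add_zero, PowerSeries.coeff_C, if_pos rfl]
    · change PowerSeries.coeff 0 (PowerSeries.C v + PowerSeries.X * y) = v
      rw [map_add, PowerSeries.coeff_zero_X_mul, add_zero, PowerSeries.coeff_C, if_pos rfl]
  rw [h4] at h3
  rw [aeval_G hG]
  refine ⟨?_, fun j hj hj' => ?_, ?_⟩
  · rw [map_add, h2 0 (by omega), add_zero, PowerSeries.coeff_C, if_pos rfl]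
  · rw [map_add, h2 j hj', add_zero, PowerSeries.coeff_C, if_neg (by omega)]
  · rw [map_add, h3, PowerSeries.coeff_C, if_neg (by omega), zero_add]

theorem const_G (hm : 1 ≤ m) (hG : G = C d + (X 0 - C c) ^ m * q) (β : PowerSeries ℂ) :
    aeval ![PowerSeries.C c, β] G = PowerSeries.C d := by
  have h := aeval_G hG 0 β
  rw [add_zero, zero_pow (by omega), zero_mul, add_zero] at h
  exact h

end arcs

section main

variable {E : Type} [Finite E] (P : HodgeMeasure) {c d : ℂ} {m : ℕ} {G q : P2} (t : Fam)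
  (h : HT)

/-- the new family -/
noncomputable def fm (c : ℂ) (m : ℕ) (q : P2) (h : HT) (t : Fam) : Fam where
  σ := t.σ ⊕ h.σ
  fin := haveI := t.fin; haveI := h.fin; inferInstance
  S := {z | (fun s => z (Sum.inl s)) ∈ t.S ∧ (fun s => z (Sum.inr s)) ∈ h.H}
  u := rename Sum.inl t.u ^ m * rename Sum.inr (aeval ![C c, h.v] q)
  κ := fun i => if m ∣ i then h.lam * t.κ (i / m) else 0

theorem eval_fm (z : t.σ ⊕ h.σ → ℂ) : eval z (fm c m q h t).u =
    eval (fun s => z (Sum.inl s)) t.u ^ m * eval ![c, eval (fun s => z (Sum.inr s)) h.v] q := by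
  change eval z (rename Sum.inl t.u ^ m * rename Sum.inr (aeval ![C c, h.v] q)) = _
  rw [map_mul, map_pow, eval_rename, eval_rename, eval_v0]
  rfl

/-- the parameters with the right leading coefficient -/
def YE (c d : ℂ) (m : ℕ) (q : P2) (h : HT) (t : Fam) (Q : Set (E ⊕ Bool → ℂ)) :
    Set (E ⊕ (t.σ ⊕ h.σ) → ℂ) :=
  {z | ((fun s => z (Sum.inr (Sum.inl s))) ∈ t.S ∧ (fun s => z (Sum.inr (Sum.inr s))) ∈ h.H) ∧
    Sum.elim (fun p => z (Sum.inl p)) (fun b : Bool => if b then d else
      eval (fun s => z (Sum.inr s)) (fm c m q h t).u) ∈ Q}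

/-- its class -/
noncomputable def vY (P : HodgeMeasure) (c d : ℂ) (m : ℕ) (q : P2) (h : HT) (t : Fam)
    (Q : Set (E ⊕ Bool → ℂ)) : K :=
  haveI := t.fin
  haveI := h.fin
  P.rat.val (YE c d m q h t Q)

theorem vol_none {E ι : Type} [Finite E] [Fintype ι] (P : HodgeMeasure)
    {S : Set ((E → ℂ) × (ι → PowerSeries ℂ))} (hS : ∀ z, z ∉ S) : vol P.rat xq S = 0 := by
  have h0 : S = ∅ := by
    ext z
    simp only [Set.mem_empty_iff_false, iff_false]
    exact hS z
  rw [h0]
  exact vol_empty P.rat (VAAux.L_mul P)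

theorem con_YE (ht : Constructible t.S) (hH : Constructible h.H) {Q : Set (E ⊕ Bool → ℂ)}
    (hQ : Constructible Q) : Constructible (YE c d m q h t Q) := by
  refine Constructible.and (con_RFH t h ht hH) ?_
  have h1 := Constructible.preimage (Sum.elim
      (fun e => (X (Sum.inl e) : MvPolynomial (E ⊕ (t.σ ⊕ h.σ)) ℂ))
      (fun b : Bool => if b then C d else rename Sum.inr (fm c m q h t).u)) hQ
  convert h1 using 3 with u
  apply TC5Aux.mem_cgr
  funext s
  rcases s with p | b
  · simp
  · rcases b with _ | _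
    · simp only [Sum.elim_inr, Bool.false_eq_true, if_false, eval_rename]
      rfl
    · simp

theorem cl_fm (Q : Set (E ⊕ Bool → ℂ)) : (atv (fm c m q h t) d).cl P Q =
    vY P c d m q h t Q := by
  have := t.fin
  have := h.fin
  unfold Fam2.cl vY
  congr 1
  ext (z : E ⊕ (t.σ ⊕ h.σ) → ℂ)
  have e1 : (Sum.elim (fun p => z (Sum.inl p)) ((atv (fm c m q h t) d).pt
      fun s => z (Sum.inr s))) = Sum.elim (fun p => z (Sum.inl p)) (fun b : Bool =>
        if b then d else eval (fun s => z (Sum.inr s)) (fm c m q h t).u) := by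
    funext s
    rcases s with p | b
    · rfl
    · rcases b with _ | _
      · rfl
      · change eval (fun s => z (Sum.inr s)) (C d : MvPolynomial (t.σ ⊕ h.σ) ℂ) = d
        rw [eval_C]
  constructor
  · rintro ⟨h1, h2⟩
    have h2' : Sum.elim (fun p => z (Sum.inl p)) ((atv (fm c m q h t) d).pt
      fun s => z (Sum.inr s)) ∈ Q := h2
    rw [e1] at h2'
    exact ⟨h1, h2'⟩
  · rintro ⟨h1, h2⟩
    refine ⟨h1, ?_⟩
    change Sum.elim (fun p => z (Sum.inl p)) ((atv (fm c m q h t) d).pt
      fun s => z (Sum.inr s)) ∈ Q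
    rw [e1]
    exact h2

variable (ht : t.Good) (hH : Constructible h.H) (hm : 1 ≤ m)
  (hG : G = C d + (X 0 - C c) ^ m * q) (hs : ∀ z ∈ h.H, eval ![c, eval z h.v] q ≠ 0)
  {Q : Set (E ⊕ Bool → ℂ)}

include ht hH hm hG hs in
theorem vFH_E (hQ : QOk Set.univ true Q) {k i : ℕ} (hk : 1 ≤ k) (hi : 1 ≤ i) :
    vFH P c t h k (SD G true Q i) = if i = m * k then vY P c d m q h t Q else 0 := by
  have := t.fin
  have := h.fin
  have hmk : 1 ≤ m * k := Nat.mul_pos hm hk
  split_ifs with hik
  · unfold vY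
    rw [← vol_base0 (ι := Fin 2) P (con_YE (c := c) (d := d) (m := m) (q := q) t h ht.1 hH hQ.1)]
    unfold vFH
    congr 1
    ext z
    obtain ⟨g0, g1, g2⟩ := lead_G hm hG (eval (fun s => z.1 (Sum.inr (Sum.inl s))) t.u)
      (eval (fun s => z.1 (Sum.inr (Sum.inr s))) h.v) hk (z.2 0) (z.2 1)
    have e1 : (Sum.elim (fun e => z.1 (Sum.inl e)) (dat true i (aeval ![PowerSeries.C c +
        arcE (eval (fun s => z.1 (Sum.inr (Sum.inl s))) t.u) k (z.2 0),
        PowerSeries.C (eval (fun s => z.1 (Sum.inr (Sum.inr s))) h.v) +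
          PowerSeries.X * z.2 1] G))) = Sum.elim (fun e => z.1 (Sum.inl e)) (fun b : Bool =>
        if b then d else eval (fun s => z.1 (Sum.inr s)) (fm c m q h t).u) := by
      funext s
      rcases s with p | b
      · rfl
      · rcases b with _ | _
        · change PowerSeries.coeff i _ = eval (fun s => z.1 (Sum.inr s)) (fm c m q h t).u
          rw [eval_fm, hik]
          exact g2
        · exact g0
    constructor
    · rintro ⟨h1, h2, h3, h4⟩
      have h4' : Sum.elim (fun e => z.1 (Sum.inl e)) (dat true i (aeval ![PowerSeries.C c +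
        arcE (eval (fun s => z.1 (Sum.inr (Sum.inl s))) t.u) k (z.2 0),
        PowerSeries.C (eval (fun s => z.1 (Sum.inr (Sum.inr s))) h.v) +
          PowerSeries.X * z.2 1] G)) ∈ Q := h4
      rw [e1] at h4'
      exact ⟨⟨h1, h2⟩, h4'⟩
    · rintro ⟨⟨h1, h2⟩, h4⟩
      refine ⟨h1, h2, fun j hj hj' => ?_, ?_⟩
      · have hj'' : j < i := hj'
        exact g1 j hj (by omega)
      · change Sum.elim (fun e => z.1 (Sum.inl e)) (dat true i (aeval ![PowerSeries.C c +
          arcE (eval (fun s => z.1 (Sum.inr (Sum.inl s))) t.u) k (z.2 0),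
          PowerSeries.C (eval (fun s => z.1 (Sum.inr (Sum.inr s))) h.v) +
            PowerSeries.X * z.2 1] G)) ∈ Q
        rw [e1]
        exact h4
  · unfold vFH
    refine vol_none P fun z => ?_
    rintro ⟨h1, h2, h3, h4⟩
    obtain ⟨g0, g1, g2⟩ := lead_G hm hG (eval (fun s => z.1 (Sum.inr (Sum.inl s))) t.u)
      (eval (fun s => z.1 (Sum.inr (Sum.inr s))) h.v) hk (z.2 0) (z.2 1)
    have h5 : PowerSeries.coeff i (aeval ![PowerSeries.C c +
        arcE (eval (fun s => z.1 (Sum.inr (Sum.inl s))) t.u) k (z.2 0),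
        PowerSeries.C (eval (fun s => z.1 (Sum.inr (Sum.inr s))) h.v) +
          PowerSeries.X * z.2 1] G) ≠ 0 := (hQ.2 _ h4).2 rfl
    rcases Nat.lt_or_ge i (m * k) with h6 | h6
    · exact h5 (g1 i hi h6)
    · have h7 : m * k < i := lt_of_le_of_ne h6 fun h => hik h.symm
      have h8 := h3 (m * k) hmk h7
      rw [g2] at h8
      exact mul_ne_zero (pow_ne_zero _ (ht.2 _ h1)) (hs _ h2) h8

include hm hG in
theorem vCH_E (hQ : QOk Set.univ true Q) {i : ℕ} (hi : 1 ≤ i) :
    vCH P c h (SD G true Q i) = 0 := by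
  have := h.fin
  unfold vCH
  refine vol_none P fun z => ?_
  rintro ⟨h1, h3, h4⟩
  have h5 : PowerSeries.coeff i (aeval ![PowerSeries.C c,
      PowerSeries.C (eval (fun s => z.1 (Sum.inr s)) h.v) +
        PowerSeries.X * z.2 ()] G) ≠ 0 := (hQ.2 _ h4).2 rfl
  rw [const_G hm hG, PowerSeries.coeff_C, if_neg (by omega)] at h5
  exact h5 rfl

/-- the parameters of the tail -/
def YP (E : Type) (d : ℂ) (Q : Set (E ⊕ Bool → ℂ)) : Set (E → ℂ) :=
  {w | Sum.elim (fun p => w p) (fun b : Bool => if b then d else 0) ∈ Q}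

include ht hH hm hG hs in
theorem vFH_T (hQ : Constructible Q) {k : ℕ} (hk : 1 ≤ k) (i : ℕ) :
    vFH P c t h k (SD G false Q i) = (haveI := h.fin; if i < m * k then
      famV P t * (P.rat.val h.H * P.rat.val (YP E d Q)) else 0) := by
  have := t.fin
  have := h.fin
  have hmk : 1 ≤ m * k := Nat.mul_pos hm hk
  have hY : Constructible (YP E d Q) := TC5Aux.con_pt d hQ
  split_ifs with hik
  · have hR : Constructible {z : E ⊕ (t.σ ⊕ h.σ) → ℂ | ((fun s => z (Sum.inr (Sum.inl s))) ∈ t.S ∧
        (fun s => z (Sum.inr (Sum.inr s))) ∈ h.H) ∧ (fun e => z (Sum.inl e)) ∈ YP E d Q} :=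
      Constructible.and (con_RFH t h ht.1 hH) (Constructible.comap Sum.inl hY)
    have e2 : famV P t * (P.rat.val h.H * P.rat.val (YP E d Q)) =
        P.rat.val {z : E ⊕ (t.σ ⊕ h.σ) → ℂ | ((fun s => z (Sum.inr (Sum.inl s))) ∈ t.S ∧
        (fun s => z (Sum.inr (Sum.inr s))) ∈ h.H) ∧ (fun e => z (Sum.inl e)) ∈ YP E d Q} := by
      have h3 := P.rat.prod t.S h.H ht.1 hH
      have cc : Constructible {x : t.σ ⊕ h.σ → ℂ | (fun i => x (Sum.inl i)) ∈ t.S ∧
          (fun j => x (Sum.inr j)) ∈ h.H} :=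
        Constructible.and (Constructible.comap Sum.inl ht.1) (Constructible.comap Sum.inr hH)
      have h4 := P.rat.prod (YP E d Q) _ hY cc
      unfold famV
      rw [← mul_assoc, ← h3, mul_comm, ← h4]
      congr 1
      ext z
      exact and_comm
    rw [e2, ← vol_base0 (ι := Fin 2) P hR]
    unfold vFH
    congr 1
    ext z
    obtain ⟨g0, g1, g2⟩ := lead_G hm hG (eval (fun s => z.1 (Sum.inr (Sum.inl s))) t.u)
      (eval (fun s => z.1 (Sum.inr (Sum.inr s))) h.v) hk (z.2 0) (z.2 1)
    have e1 : (Sum.elim (fun e => z.1 (Sum.inl e)) (dat false i (aeval ![PowerSeries.C c +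
        arcE (eval (fun s => z.1 (Sum.inr (Sum.inl s))) t.u) k (z.2 0),
        PowerSeries.C (eval (fun s => z.1 (Sum.inr (Sum.inr s))) h.v) +
          PowerSeries.X * z.2 1] G))) = Sum.elim (fun e => z.1 (Sum.inl e)) (fun b : Bool =>
        if b then d else 0) := by
      funext s
      rcases s with p | b
      · rfl
      · rcases b with _ | _
        · rfl
        · exact g0
    constructor
    · rintro ⟨h1, h2, h3, h4⟩
      have h4' : Sum.elim (fun e => z.1 (Sum.inl e)) (dat false i (aeval ![PowerSeries.C c +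
        arcE (eval (fun s => z.1 (Sum.inr (Sum.inl s))) t.u) k (z.2 0),
        PowerSeries.C (eval (fun s => z.1 (Sum.inr (Sum.inr s))) h.v) +
          PowerSeries.X * z.2 1] G)) ∈ Q := h4
      rw [e1] at h4'
      exact ⟨⟨h1, h2⟩, h4'⟩
    · rintro ⟨⟨h1, h2⟩, h4⟩
      refine ⟨h1, h2, fun j hj hj' => ?_, ?_⟩
      · have hj'' : j < i + 1 := hj'
        exact g1 j hj (by omega)
      · change Sum.elim (fun e => z.1 (Sum.inl e)) (dat false i (aeval ![PowerSeries.C c +
          arcE (eval (fun s => z.1 (Sum.inr (Sum.inl s))) t.u) k (z.2 0),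
          PowerSeries.C (eval (fun s => z.1 (Sum.inr (Sum.inr s))) h.v) +
            PowerSeries.X * z.2 1] G)) ∈ Q
        rw [e1]
        exact h4
  · unfold vFH
    refine vol_none P fun z => ?_
    rintro ⟨h1, h2, h3, h4⟩
    obtain ⟨g0, g1, g2⟩ := lead_G hm hG (eval (fun s => z.1 (Sum.inr (Sum.inl s))) t.u)
      (eval (fun s => z.1 (Sum.inr (Sum.inr s))) h.v) hk (z.2 0) (z.2 1)
    have h8 := h3 (m * k) hmk (by
      simp only [Bool.false_eq_true, if_false]
      omega)
    rw [g2] at h8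
    exact mul_ne_zero (pow_ne_zero _ (ht.2 _ h1)) (hs _ h2) h8

include hH hm hG in
theorem vCH_T (hQ : Constructible Q) (i : ℕ) :
    vCH P c h (SD G false Q i) =
      (haveI := h.fin; P.rat.val h.H * P.rat.val (YP E d Q)) := by
  have := h.fin
  have hY : Constructible (YP E d Q) := TC5Aux.con_pt d hQ
  have h4 := P.rat.prod (YP E d Q) h.H hY hH
  have hR : Constructible {x : E ⊕ h.σ → ℂ | (fun i => x (Sum.inl i)) ∈ YP E d Q ∧
      (fun j => x (Sum.inr j)) ∈ h.H} :=
    Constructible.and (Constructible.comap Sum.inl hY) (Constructible.comap Sum.inr hH)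
  rw [mul_comm, ← h4, ← vol_base0 (ι := Unit) P hR]
  unfold vCH
  congr 1
  ext z
  have e1 : (Sum.elim (fun e => z.1 (Sum.inl e)) (dat false i (aeval ![PowerSeries.C c,
      PowerSeries.C (eval (fun s => z.1 (Sum.inr s)) h.v) + PowerSeries.X * z.2 ()] G))) =
      Sum.elim (fun e => z.1 (Sum.inl e)) (fun b : Bool => if b then d else 0) := by
    rw [const_G hm hG]
    funext s
    rcases s with p | b
    · rfl
    · rcases b with _ | _
      · rfl
      · change PowerSeries.coeff 0 (PowerSeries.C d) = d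
        rw [PowerSeries.coeff_C, if_pos rfl]
  constructor
  · rintro ⟨h2, h3, h4⟩
    have h4' : Sum.elim (fun e => z.1 (Sum.inl e)) (dat false i (aeval ![PowerSeries.C c,
      PowerSeries.C (eval (fun s => z.1 (Sum.inr s)) h.v) + PowerSeries.X * z.2 ()] G)) ∈ Q := h4
    rw [e1] at h4'
    exact ⟨h4', h2⟩
  · rintro ⟨h4, h2⟩
    refine ⟨h2, fun j hj hj' => ?_, ?_⟩
    · change PowerSeries.coeff j (aeval ![PowerSeries.C c,
        PowerSeries.C (eval (fun s => z.1 (Sum.inr s)) h.v) + PowerSeries.X * z.2 ()] G) = 0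
      rw [const_G hm hG, PowerSeries.coeff_C, if_neg (by omega)]
    · change Sum.elim (fun e => z.1 (Sum.inl e)) (dat false i (aeval ![PowerSeries.C c,
        PowerSeries.C (eval (fun s => z.1 (Sum.inr s)) h.v) + PowerSeries.X * z.2 ()] G)) ∈ Q
      rw [e1]
      exact h4

/-- mass identity from `n` on -/
theorem mass_tail (s : Src) (k : Kd) (hs : s.Ok P k) {n M : ℕ} (hn : n ≤ M) (y : K) :
    ∑ j ∈ Finset.Icc 1 M, (if n < j then (s.ts.map fun t => t.κ j * (famV P t * y)).sum else 0) +
      s.b M * y = s.b n * y := by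
  have h1 := mass_sum P s k hs M y
  have h2 := mass_sum P s k hs n y
  rw [← h2] at h1
  have h3 : ∑ j ∈ Finset.Icc 1 M, (s.ts.map fun t => t.κ j * (famV P t * y)).sum =
      ∑ j ∈ Finset.Icc 1 n, (s.ts.map fun t => t.κ j * (famV P t * y)).sum +
      ∑ j ∈ Finset.Icc 1 M, (if n < j then
        (s.ts.map fun t => t.κ j * (famV P t * y)).sum else 0) := by
    have h4 : Finset.Icc 1 n = (Finset.Icc 1 M).filter fun j => ¬ n < j := by
      ext j
      simp only [Finset.mem_Icc, Finset.mem_filter, not_lt]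
      omega
    rw [h4, Finset.sum_filter, ← Finset.sum_add_distrib]
    refine Finset.sum_congr rfl fun j _ => ?_
    by_cases hj : n < j
    · rw [if_neg (by simpa using hj), if_pos hj, zero_add]
    · rw [if_pos hj, if_neg hj, add_zero]
  rw [h3] at h1
  linear_combination h1

end main

end FM7Aux

open FM7Aux B61 B60 in
theorem stmt_FM7 : Stmt_FM7 := by
  classical
  intro P c s k h G q d m Λ hok hH hm hG hs hΛ
  have := h.fin
  have hsub : {r : ℚ | (m : ℚ) * r ∈ {r : ℚ | k.fs = false ∧ r = k.r}} ⊆ Λ d := by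
    rintro r ⟨h1, h2⟩
    have h3 : (m : ℚ) ≠ 0 := by
      have : 0 < m := hm
      positivity
    rcases hΛ with h4 | h4
    · rw [h1] at h4
      exact absurd h4 (by decide)
    · rw [← h2, mul_div_cancel_left₀ _ h3] at h4
      exact h4
  refine ⟨[], s.ts.map fun t => (d, fm c m q h t),
    [(d, fun i => (h.lam * P.rat.val h.H) * s.b (i / m))], ?_, ?_, ⟨?_, ?_⟩, ⟨?_, ?_⟩⟩
  · intro x hx
    obtain ⟨t, ht, rfl⟩ := List.mem_map.1 hx
    have h1 := (stmt_Q1.2.2.2.2.2.2 _ _ m hm (stmt_Q1.2.2.1 _ _ h.lam (hok.1 t ht).2)).1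
    exact stmt_Q1.1 _ _ _ hsub h1
  · intro x hx
    rw [List.mem_singleton] at hx
    subst hx
    have h1 := (stmt_Q1.2.2.2.2.2.2 _ _ m hm hok.2.1).2
    exact stmt_Q1.1 _ _ _ hsub (stmt_Q1.2.2.1 _ _ _ h1)
  · intro F hF
    simp only [List.map_nil, List.nil_append, List.map_map] at hF
    obtain ⟨t, ht, rfl⟩ := List.mem_map.1 hF
    have hg := (hok.1 t ht).1
    refine ⟨Constructible.and (Constructible.comap Sum.inl hg.1) (Constructible.comap Sum.inr hH),
      ?_⟩
    rintro (τ : t.σ ⊕ h.σ → ℂ) ⟨h1, h2⟩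
    refine ⟨Set.mem_univ _, fun _ => ?_⟩
    change eval τ (fm c m q h t).u ≠ 0
    rw [eval_fm]
    exact mul_ne_zero (pow_ne_zero _ (hg.2 _ h1)) (hs _ h2)
  · intro E _ Q hQ i M hi hiM
    have hi := hi rfl
    rw [List.map_nil, List.nil_append, List.map_map, List.map_map]
    change h.lam * (∑ j ∈ Finset.Icc 1 M, (s.ts.map fun t => t.κ j *
      vFH P c t h j (SD G true Q i)).sum + s.b M * vCH P c h (SD G true Q i)) = _
    rw [vCH_E P h hm hG hQ hi, mul_zero, add_zero]
    have e1 : ∀ j ∈ Finset.Icc 1 M, (s.ts.map fun t => t.κ j *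
        vFH P c t h j (SD G true Q i)).sum = if i = m * j then
          (s.ts.map fun t => t.κ j * vY P c d m q h t Q).sum
            else 0 := by
      intro j hj
      split_ifs with hij
      · congr 1
        refine List.map_congr_left fun t ht => ?_
        rw [FM7Aux.vFH_E P t h (hok.1 t ht).1 hH hm hG hs hQ (Finset.mem_Icc.1 hj).1 hi,
          if_pos hij]
      · rw [List.map_congr_left (g := fun _ => (0 : K)) (fun t ht => by
          rw [FM7Aux.vFH_E P t h (hok.1 t ht).1 hH hm hG hs hQ (Finset.mem_Icc.1 hj).1 hi,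
            if_neg hij, mul_zero])]
        simp
    rw [Finset.sum_congr rfl e1]
    have e2 : ∀ l : List Fam, (l.map ((fun F : Fam2 => F.κ i * F.cl P Q) ∘
        (fun x : ℂ × Fam => atv x.2 x.1) ∘ fun t => (d, fm c m q h t))).sum =
        (l.map fun t => (if m ∣ i then h.lam * t.κ (i / m) else 0) *
          vY P c d m q h t Q).sum := by
      intro l
      congr 1
      refine List.map_congr_left fun t _ => ?_
      change (if m ∣ i then h.lam * t.κ (i / m) else 0) * (atv (fm c m q h t) d).cl P Q = _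
      rw [cl_fm]
    have e3 : (s.ts.map ((fun F : Fam2 => F.κ i * F.cl P Q) ∘
        (fun x : ℂ × Fam => atv x.2 x.1) ∘ fun t => (d, fm c m q h t))).sum =
        (s.ts.map fun t => (if m ∣ i then h.lam * t.κ (i / m) else 0) *
          vY P c d m q h t Q).sum := e2 s.ts
    refine Eq.trans ?_ e3.symm
    by_cases hd : m ∣ i
    · obtain ⟨n, rfl⟩ := hd
      have hn : 1 ≤ n := Nat.pos_of_ne_zero fun h => by
        rw [h, mul_zero] at hi
        omega
      have hnM : n ≤ M := le_trans (Nat.le_mul_of_pos_left n hm) hiM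
      rw [Finset.sum_eq_single_of_mem n (Finset.mem_Icc.2 ⟨hn, hnM⟩) (fun j _ hj => by
        rw [if_neg fun h => hj (Nat.eq_of_mul_eq_mul_left hm h).symm]), if_pos rfl]
      have e4 : ∀ l : List Fam, h.lam * (l.map fun t => t.κ n *
          vY P c d m q h t Q).sum =
          (l.map fun t => (if m ∣ m * n then h.lam * t.κ (m * n / m) else 0) *
          vY P c d m q h t Q).sum := by
        intro l
        induction l with
        | nil => simp
        | cons F l ih =>
          rw [List.map_cons, List.map_cons, List.sum_cons, List.sum_cons, mul_add, ih,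
            if_pos (Dvd.intro _ rfl), Nat.mul_div_cancel_left n hm, mul_assoc]
      exact e4 s.ts
    · rw [Finset.sum_eq_zero (fun j _ => by
        rw [if_neg fun h => hd ⟨j, h⟩]), mul_zero]
      have e5 : ∀ l : List Fam, 0 = (l.map fun t => (if m ∣ i then h.lam * t.κ (i / m) else 0) *
          vY P c d m q h t Q).sum := by
        intro l
        induction l with
        | nil => simp
        | cons F l ih => rw [List.map_cons, List.sum_cons, if_neg hd, zero_mul, zero_add, ← ih]
      exact e5 s.ts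
  · intro F hF
    simp only [List.map_cons, List.map_nil, List.nil_append, List.mem_singleton] at hF
    subst hF
    exact ⟨Constructible.univ, fun τ _ => ⟨Set.mem_univ _, fun h' => absurd h' (by decide)⟩⟩
  · intro E _ Q hQ i M _ hiM
    simp only [List.map_cons, List.map_nil, List.nil_append, List.sum_cons, List.sum_nil,
      add_zero]
    change h.lam * (∑ j ∈ Finset.Icc 1 M, (s.ts.map fun t => t.κ j *
      vFH P c t h j (SD G false Q i)).sum + s.b M * vCH P c h (SD G false Q i)) =
      ((h.lam * P.rat.val h.H) * s.b (i / m)) * _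
    rw [vCH_T P h hH hm hG hQ.1 i]
    have e1 : ∀ j ∈ Finset.Icc 1 M, (s.ts.map fun t => t.κ j *
        vFH P c t h j (SD G false Q i)).sum = if i / m < j then
          (s.ts.map fun t => t.κ j * (famV P t * (P.rat.val h.H * P.rat.val (YP E d Q)))).sum
            else 0 := by
      intro j hj
      have hij : i < m * j ↔ i / m < j := by
        rw [Nat.div_lt_iff_lt_mul hm, mul_comm]
      split_ifs with hij'
      · congr 1
        refine List.map_congr_left fun t ht => ?_
        rw [FM7Aux.vFH_T P t h (hok.1 t ht).1 hH hm hG hs hQ.1 (Finset.mem_Icc.1 hj).1 i,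
          if_pos (hij.2 hij')]
      · rw [List.map_congr_left (g := fun _ => (0 : K)) (fun t ht => by
          rw [FM7Aux.vFH_T P t h (hok.1 t ht).1 hH hm hG hs hQ.1 (Finset.mem_Icc.1 hj).1 i,
            if_neg fun h => hij' (hij.1 h), mul_zero])]
        simp
    rw [Finset.sum_congr rfl e1, mass_tail P s k hok (le_trans (Nat.div_le_self i m) hiM)]
    have e6 : (ptv d fun i => (h.lam * P.rat.val h.H) * s.b (i / m)).cl P Q =
        P.rat.val (YP E d Q) := TC5Aux.clx_pt P d hQ.1
    rw [e6]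
    ring

end Pool.Agent.Mono.BV
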