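import Pool.Agent.Work.Monodromy.Interface7V
import Pool.Agent.Work.Monodromy6.TI

/-!
# Phase 7, volume part, block GD7: the trees of phase 6 and of `Defs7` (helper23)
-/

set_option autoImplicit false

namespace Pool.Agent.Mono.BV

open MvPolynomial TS RO PC

namespace GD7Aux

/-! ## Divisibility by `X 0` -/

theorem dvd_of_low {G : P2} (h : ∀ d ∈ G.support, 1 ≤ d 0) : (X 0 : P2) ∣ G := by
  rw [X_dvd_iff_modMonomial_eq_zero]
  ext m
  rw [coeff_zero]
  by_cases hm : Finsupp.single (0 : Fin 2) 1 ≤ m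
  · exact coeff_modMonomial_of_le _ hm
  · rw [coeff_modMonomial_of_not_le _ hm]
    by_contra hne
    have h1 := h m (mem_support_iff.2 hne)
    apply hm
    rw [Finsupp.single_le_iff]
    exact h1

theorem low_of_dvd {G : P2} (h : (X 0 : P2) ∣ G) : ∀ d ∈ G.support, 1 ≤ d 0 := by
  intro d hd
  by_contra hlt
  rw [X_dvd_iff_modMonomial_eq_zero] at h
  have h1 := congrArg (coeff d) h
  rw [coeff_zero, coeff_modMonomial_of_not_le] at h1
  · exact (mem_support_iff.1 hd) h1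
  · intro hle
    rw [Finsupp.single_le_iff] at hle
    exact hlt hle

theorem dvd_of_shift {ψ : Polynomial ℂ} {G : P2} (h : (X 0 : P2) ∣ shift ψ G) : (X 0 : P2) ∣ G := by
  obtain ⟨H, hH⟩ := h
  have h1 := congrArg (shift (-ψ)) hH
  rw [TT.shift_zero_comp, add_neg_cancel, TT.shift_zero, map_mul] at h1
  refine ⟨shift (-ψ) H, ?_⟩
  rw [h1]
  congr 1
  simp [shift]

theorem low1 {G : P2} {p A : ℕ} (h : Low p 0 (p * A) G) (hp : 1 ≤ p) (hA : 1 ≤ A) :
    (X 0 : P2) ∣ G := by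
  refine dvd_of_low fun d hd => ?_
  have h1 := h d hd
  rw [zero_mul, add_zero] at h1
  have h2 := Nat.le_of_mul_le_mul_left h1 hp
  omega

theorem rb7_dvd {Λ W : Set ℚ} {G : P2} {p q : ℕ} {o : Option (ℂ × ℕ × ℕ × ℕ × ℕ)}
    (h : BG.RB7 Λ W G p q o) : q = 0 → (X 0 : P2) ∣ G := by
  induction h with
  | fin0 W G p q A hp hA h1 h2 h3 =>
    rintro rfl
    exact low1 h2 hp hA
  | fin1 W g h p q A₁ A₂ B hp hB g1 g2 g3 h1 h2 hN =>
    rintro rfl
    rcases Nat.eq_zero_or_pos A₂ with hA2 | hA2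
    · have hA1 : 1 ≤ A₁ := by
        by_contra hlt
        have : A₁ = 0 := by omega
        rw [this, hA2] at hN
        simp at hN
      have h5 : (X 0 : P2) ∣ g := low1 (by simpa using g2) hp hA1
      exact (dvd_pow h5 (by omega)).mul_right h
    · exact (low1 h2 hp hA2).mul_left _
  | step W G p q p' q' aL bR I hp hpq he h1 hN h2 h3 h4 ih3 ih4 =>
    rintro rfl
    rw [zero_mul, add_zero] at h1 hN
    have hA : 1 ≤ aL := by
      by_contra hlt
      have : aL = 0 := by omega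
      rw [this] at hN
      simp at hN
    exact low1 h1 hp hA
  | close W G p q c A B p' q' h1 h2 ih => exact ih
  | coord W G p q o ψ hψ h ih => exact fun hq => dvd_of_shift (ih hq)

theorem rb7_p {Λ W : Set ℚ} {G : P2} {p q : ℕ} {o : Option (ℂ × ℕ × ℕ × ℕ × ℕ)}
    (h : BG.RB7 Λ W G p q o) : 1 ≤ p := by
  induction h with
  | fin0 W G p q A hp hA h1 h2 h3 => exact hp
  | fin1 W g h p q A₁ A₂ B hp hB g1 g2 g3 h1 h2 hN => exact hp
  | step W G p q p' q' aL bR I hp hpq he h1 hN h2 h3 h4 ih3 ih4 => exact hp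
  | close W G p q c A B p' q' h1 h2 ih => exact ih
  | coord W G p q o ψ hψ h ih => exact ih

/-! ## Rates -/

theorem r_none : Kd.r none = 1 := rfl

theorem r_some (fs : Bool) (r : ℚ) : Kd.r (some (fs, r)) = r := rfl

theorem fs_none : Kd.fs none = false := rfl

theorem fs_some (fs : Bool) (r : ℚ) : Kd.fs (some (fs, r)) = fs := rfl

theorem rv6 {k : Kd} {ν A B p q : ℕ} (hk : k.r = ν) : rv k none A B p q = rate ν A B p q := by
  rw [rv, rate, hk, r_none]
  push_cast
  ring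

theorem rt6 {Λ : Set ℚ} {k : Kd} {ν A B p q : ℕ} (hk : k.r = ν) (h : rate ν A B p q ∈ Λ) :
    Rt Λ k none A B p q := by
  refine Or.inr (Or.inr ?_)
  rw [rv6 hk]
  exact h

theorem rv7 {fs : Bool} {r : ℚ} {A B p q : ℕ} :
    rv (some (fs, r)) none A B p q = BG.rate7 r A B p q := by
  rw [rv, BG.rate7, r_some, r_none, mul_one]

theorem rt7 {Λ W : Set ℚ} {k : Kd} {A B p q : ℕ} (hk : KdIn W k) (hp : 1 ≤ p)
    (h : ∀ ν ∈ W, BG.rate7 ν A B p q ∈ Λ) : Rt Λ k none A B p q := by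
  obtain ⟨fs, r, rfl, hr, h1⟩ := hk
  rcases h1 with h1 | h1
  · exact Or.inl ⟨h1, hp⟩
  · refine Or.inr (Or.inr ?_)
    rw [rv7]
    exact h r h1

theorem rt77 {Λ W W' : Set ℚ} {k k' : Kd} {A B p q : ℕ} (hk : KdIn W k) (hk' : KdIn W' k')
    (hp : 1 ≤ p) (hq : 1 ≤ q) (h : BG.SC77 Λ W W' p q A B) : Rt Λ k k' A B p q := by
  obtain ⟨fs, r, rfl, hr, h1⟩ := hk
  obtain ⟨fs', r', rfl, hr', h1'⟩ := hk'
  rcases h1 with h1 | h1
  · exact Or.inl ⟨h1, hp⟩
  rcases h1' with h1' | h1'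
  · exact Or.inr (Or.inl ⟨h1', hq⟩)
  refine Or.inr (Or.inr ?_)
  exact h.2 r h1 r' h1'

theorem rt01 {Λ W' : Set ℚ} {k k' : Kd} {A B : ℕ} (hk' : KdIn W' k')
    (h : ∀ ν' ∈ W', ν' / (B : ℚ) ∈ Λ) : Rt Λ k k' A B 0 1 := by
  obtain ⟨fs', r', rfl, hr', h1'⟩ := hk'
  rcases h1' with h1' | h1'
  · exact Or.inr (Or.inl ⟨h1', le_rfl⟩)
  refine Or.inr (Or.inr ?_)
  have h2 : rv k (some (fs', r')) A B 0 1 = r' / (B : ℚ) := by
    rw [rv, r_some]
    simp
  rw [h2]
  exact h r' h1'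

theorem rt10 {Λ W : Set ℚ} {k k' : Kd} {A B : ℕ} (hk : KdIn W k)
    (h : ∀ ν ∈ W, ν / (A : ℚ) ∈ Λ) : Rt Λ k k' A B 1 0 := by
  obtain ⟨fs, r, rfl, hr, h1⟩ := hk
  rcases h1 with h1 | h1
  · exact Or.inl ⟨h1, le_rfl⟩
  refine Or.inr (Or.inr ?_)
  have h2 : rv (some (fs, r)) k' A B 1 0 = r / (A : ℚ) := by
    rw [rv, r_some]
    simp
  rw [h2]
  exact h r h1

theorem comb6 {k : Kd} {ν p q : ℕ} (hk : k.r = ν) (hf : k.fs = false) :
    (k.comb none p q).r = ((p * ν + q : ℕ) : ℚ) ∧ (k.comb none p q).fs = false := by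
  constructor
  · rw [Kd.comb, r_some, hk, r_none]
    push_cast
    ring
  · rw [Kd.comb, fs_some, hf, fs_none]
    rfl

theorem comb7 {W : Set ℚ} {k : Kd} {p q : ℕ} (hk : KdIn W k) (hp : 1 ≤ p) :
    KdIn (BG.step7 W p q) (k.comb none p q) := by
  obtain ⟨fs, r, rfl, hr, h1⟩ := hk
  refine ⟨fs, (p : ℚ) * r + q, ?_, ?_, ?_⟩
  · rw [Kd.comb, fs_some, fs_none, r_some, r_none, mul_one, Bool.or_false]
  · have hp' : (0 : ℚ) < p := by exact_mod_cast hp
    positivity
  · rcases h1 with h1 | h1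
    · exact Or.inl h1
    · exact Or.inr ⟨r, h1, rfl⟩

theorem comb77 {W W' : Set ℚ} {k k' : Kd} {p q : ℕ} (hk : KdIn W k) (hk' : KdIn W' k')
    (hp : 1 ≤ p) : KdIn (BG.step77 W W' p q) (k.comb k' p q) := by
  obtain ⟨fs, r, rfl, hr, h1⟩ := hk
  obtain ⟨fs', r', rfl, hr', h1'⟩ := hk'
  refine ⟨fs || fs', (p : ℚ) * r + q * r', rfl, ?_, ?_⟩
  · have hp' : (0 : ℚ) < p := by exact_mod_cast hp
    positivity
  · rcases h1 with h1 | h1
    · left; rw [h1, Bool.true_or]
    rcases h1' with h1' | h1'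
    · left; rw [h1', Bool.or_true]
    exact Or.inr ⟨r, h1, r', h1', rfl⟩

/-! ## The regions -/

theorem rv_of_rb {Λ : Set ℚ} {G : P2} {ν p q : ℕ} {o : Option (ℂ × ℕ × ℕ × ℕ × ℕ)}
    (h : RB Λ G ν p q o) : ∀ k : Kd, k.r = ν → k.fs = false → 1 ≤ ν → (2 ≤ ν ∨ 1 ≤ q) →
      RV Λ k none G p q o := by
  induction h with
  | fin0 G ν p q A hp hA h1 h2 h3 =>
    intro k hk hf hν hq
    exact RV.fin0 k none G p q A hp hA h1 h2 (rt6 hk h3)
  | fin1 g h ν p q A₁ A₂ B hp hB g1 g2 g3 h1 h2 hN =>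
    intro k hk hf hν hq
    exact RV.fin1 k g h p q A₁ A₂ B hp hB g1 g2 g3 h1 h2 hN
  | step G ν p q p' q' aL bR I hp hpq he h1 hN h2 h3 h4 ih3 ih4 =>
    intro k hk hf hν hq
    have hp' := he.hp
    have hq' := he.hq
    have h5 : 1 ≤ p' * ν := Nat.mul_pos hp' hν
    refine RV.step k none G p q p' q' aL bR I hp hpq he h1 hN (rt6 hk h2) ?_ ?_
    · intro lam hl hI
      obtain ⟨e1, e2⟩ := comb6 (p := p') (q := q') hk hf
      exact ih3 lam hl hI _ e1 e2 (by omega) (Or.inl (by omega))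
    · exact ih4 k hk hf hν (Or.inr hq')
  | close G ν p q c A B p' q' h1 h2 ih =>
    intro k hk hf hν hq
    refine RV.close k none G p q c A B p' q' (ih k hk hf hν hq) ?_
    obtain ⟨c1, c2, h3⟩ := h2
    refine ⟨c1, c2, ?_⟩
    rcases h3 with ⟨a1, a2⟩ | ⟨a1, a2, a3, a4, _⟩ | ⟨a1, a2, a3, a4, _⟩
    · exact Or.inl ⟨rt6 hk a1, rt6 hk a2⟩
    · subst a3
      exact Or.inr ⟨rfl, a1, a2, rfl, rt6 hk a4⟩
    · omega
  | coord G ν p q o ψ hψ h ih =>
    intro k hk hf hν hq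
    exact RV.coord k G p q o ψ hψ (ih k hk hf hν hq)

theorem rv_of_rb7 {Λ W : Set ℚ} {G : P2} {p q : ℕ} {o : Option (ℂ × ℕ × ℕ × ℕ × ℕ)}
    (h : BG.RB7 Λ W G p q o) : ∀ k : Kd, KdIn W k → RV Λ k none G p q o := by
  induction h with
  | fin0 W G p q A hp hA h1 h2 h3 =>
    intro k hk
    exact RV.fin0 k none G p q A hp hA h1 h2 (rt7 hk hp h3)
  | fin1 W g h p q A₁ A₂ B hp hB g1 g2 g3 h1 h2 hN =>
    intro k hk
    exact RV.fin1 k g h p q A₁ A₂ B hp hB g1 g2 g3 h1 h2 hN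
  | step W G p q p' q' aL bR I hp hpq he h1 hN h2 h3 h4 ih3 ih4 =>
    intro k hk
    refine RV.step k none G p q p' q' aL bR I hp hpq he h1 hN (rt7 hk he.hp h2) ?_ (ih4 k hk)
    intro lam hl hI
    exact ih3 lam hl hI _ (comb7 hk he.hp)
  | close W G p q c A B p' q' h1 h2 ih =>
    intro k hk
    refine RV.close k none G p q c A B p' q' (ih k hk) ?_
    have hp := rb7_p h1
    obtain ⟨c1, c2, h3, h4⟩ := h2
    refine ⟨c1, c2, ?_⟩
    have r1 := rt7 hk hp h3
    rcases h4 with ⟨a1, a2⟩ | ⟨a1, a2, a3⟩ | ⟨a1, a2, a3, _⟩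
    · exact Or.inl ⟨r1, rt7 hk a1 a2⟩
    · subst a1 a2
      refine Or.inl ⟨r1, Or.inr (Or.inr ?_)⟩
      have h5 : rv k none A B 0 1 = 1 / (B : ℚ) := by
        rw [rv, r_none]
        simp
      rw [h5]
      exact a3
    · subst a3
      exact Or.inr ⟨rfl, a1, a2, rfl, r1⟩
  | coord W G p q o ψ hψ h ih =>
    intro k hk
    exact RV.coord k G p q o ψ hψ (ih k hk)

theorem rv_of_rx {Λ W W' : Set ℚ} {G : P2} {p q : ℕ} (h : BG.RX Λ W W' G p q) :
    1 ≤ q → ∀ k k' : Kd, KdIn W k → KdIn W' k' → RV Λ k k' G p q none := by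
  induction h with
  | r0 p q A hp hA h1 h2 h3 =>
    intro hq k k' hk hk'
    exact RV.fin0 k k' G p q A hp hA h1 h2 (rt77 hk hk' hp hq h3)
  | r1 p q A B hp hB h1 h2 h3 h4 h5 =>
    intro hq k k' hk hk'
    refine RV.close k k' G p q (G.coeff (mon A B)) A B 0 1
      (RV.fin2 k k' G p q A B hp hB h1 h2 (fun d hd => ?_) h4.1) ?_
    · have := h3 d hd
      rwa [zero_mul, zero_add, one_mul] at this
    · exact ⟨h4.1, by omega, Or.inl ⟨rt77 hk hk' hp hq h4, rt01 hk' h5⟩⟩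
  | rs p q p' q' aL bR I hp hpq he h1 h2 h3 h4 h5 ih =>
    intro hq k k' hk hk'
    refine RV.close k k' G p q I.leadingCoeff aL (bR + p' * I.natDegree) p' q'
      (RV.step k k' G p q p' q' aL bR I hp hpq he h1 h2.1 (rt77 hk hk' he.hp he.hq h3) ?_
        (ih he.hq k k' hk hk')) ?_
    · intro lam hl hI
      exact rv_of_rb7 (h4 lam hl hI) _ (comb77 hk hk' he.hp)
    · exact ⟨h2.1, h3.1, Or.inl ⟨rt77 hk hk' hp hq h2, rt77 hk hk' he.hp he.hq h3⟩⟩

/-! ## The origin -/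

theorem pt_of_good0 {Λ : Set ℚ} {F : P2} (h : Good0 Λ F) : Pt7 Λ none none F := by
  induction h with
  | edge F p q aL bR I he h1 h2 h3 h4 =>
    have hp := he.hp
    have hq := he.hq
    have e0 : Kd.r none = ((1 : ℕ) : ℚ) := by rw [r_none]; norm_num
    refine Pt7.edge none none F p q aL bR I he (rt6 e0 h1) ?_ ?_ ?_
    · intro lam hl hI
      obtain ⟨e1, e2⟩ := comb6 (k := none) (ν := 1) (p := p) (q := q) e0 rfl
      refine rv_of_rb (h2 lam hl hI) _ ?_ e2 (by omega) (Or.inl (by omega))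
      rw [e1, mul_one]
    · exact rv_of_rb h3 none e0 rfl le_rfl (Or.inr hq)
    · exact rv_of_rb h4 none e0 rfl le_rfl (Or.inr hp)
  | two F A B c p' q' p'' q'' hA hB h1 h2 h3 h4 =>
    have e0 : Kd.r none = ((1 : ℕ) : ℚ) := by rw [r_none]; norm_num
    refine Pt7.two none none F A B c p' q' p'' q'' hA hB h1
      (rv_of_rb h2 none e0 rfl le_rfl (Or.inr le_rfl))
      (rv_of_rb h3 none e0 rfl le_rfl (Or.inr le_rfl)) ?_
    obtain ⟨c1, c2, h5⟩ := h4
    rcases h5 with ⟨a1, a2⟩ | ⟨a1, a2, a3, a4, _⟩ | ⟨a1, a2, a3, _, a4, _⟩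
    · exact Or.inl ⟨c1, c2, Or.inl ⟨rt6 e0 a1, rt6 e0 a2⟩⟩
    · subst a3
      exact Or.inl ⟨c1, c2, Or.inr ⟨rfl, a1, a2, rfl, rt6 e0 a4⟩⟩
    · subst a3
      exact Or.inr ⟨c1, c2, rfl, a1, a2, rfl, rt6 e0 a4⟩
  | coord F ψ h0 h ih => exact Pt7.coord none F ψ h0 ih
  | swap F h ih => exact Pt7.swap none none F ih

theorem m0 (a b : ℕ) : mon a b 0 = a := by simp [mon]

theorem m1 (a b : ℕ) : mon a b 1 = b := by simp [mon]

theorem mon00 : mon 0 0 = 0 := by
  simp [mon]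

theorem coeff_of_eval {g : P2} : g.coeff (mon 0 0) = eval 0 g := by
  rw [mon00, ← constantCoeff_eq, ← MvPolynomial.eval_zero]

theorem coeff_of_pderiv {g : P2} : g.coeff (mon 0 1) = eval 0 (pderiv 1 g) := by
  induction g using MvPolynomial.induction_on' with
  | monomial d a =>
    rw [pderiv_monomial, ← coeff_of_eval, mon00, coeff_monomial, coeff_monomial]
    by_cases h : d = mon 0 1
    · subst h
      rw [if_pos rfl, if_pos, m1, Nat.cast_one, mul_one]
      ext i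
      fin_cases i <;> simp [mon]
    · rw [if_neg h]
      by_cases h0 : d 1 = 0
      · rw [h0, Nat.cast_zero, mul_zero, ite_self]
      · rw [if_neg]
        intro h2
        apply h
        have e0 := congrArg (fun f => f 0) h2
        have e1 := congrArg (fun f => f 1) h2
        simp at e0 e1
        ext i
        fin_cases i
        · show d 0 = mon 0 1 0
          rw [m0]; exact e0
        · show d 1 = mon 0 1 1
          rw [m1]; omega
  | add p q hp hq => rw [coeff_add, hp, hq, map_add, map_add]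

theorem pt_of_xf {Λ W : Set ℚ} {G : P2} (h : BG.GoodXF Λ W G) :
    ∀ k : Kd, KdIn W k → Pt7 Λ k none G := by
  induction h with
  | ray G h =>
    intro k hk
    exact Pt7.ray k G (low_of_dvd (rb7_dvd h rfl)) (rv_of_rb7 h k hk)
  | edge G p q bR I he h1 h2 h3 =>
    intro k hk
    have hp := he.hp
    have hq := he.hq
    refine Pt7.edge k none G p q 0 bR I he (rt7 hk hp h1) ?_ (rv_of_rb7 h3 k hk) ?_
    · intro lam hl hI
      exact rv_of_rb7 (h2 lam hl hI) _ (comb7 hk hp)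
    · have hB : 1 ≤ bR + p * I.natDegree := by
        have := Nat.mul_pos hp he.deg
        omega
      refine RV.fin0 none k (swp G) q p (bR + p * I.natDegree) hq hB ?_ ?_ ?_
      · rw [TT.coeff_swp, CLV.edge_lead he]
        exact Polynomial.leadingCoeff_ne_zero.2 (fun h0 => by
          have := he.deg
          rw [h0] at this
          simp at this)
      · have := TT.low_swp (CLV.edge_low he)
        rw [edgeN, mul_zero, zero_add] at this
        exact this
      · obtain ⟨fs, r, rfl, hr, h5⟩ := hk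
        rcases h5 with h5 | h5
        · exact Or.inr (Or.inl ⟨h5, hp⟩)
        · refine Or.inr (Or.inr ?_)
          have h6 : rv none (some (fs, r)) (bR + p * I.natDegree) 0 q p =
              BG.rate7 r 0 (bR + p * I.natDegree) p q := by
            rw [rv, BG.rate7, r_some, r_none]
            push_cast
            ring
          rw [h6]
          exact h1 r h5
  | comp g h B hB g0 g1 h0 hΛ =>
    intro k hk
    exact Pt7.one k g h B (by omega) (by rw [coeff_of_eval]; exact g0)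
      (by rw [coeff_of_pderiv]; exact g1) (by rw [coeff_of_eval]; exact h0) (Or.inr hΛ)
  | coord G ψ h0 h ih =>
    intro k hk
    exact Pt7.coord k G ψ h0 (ih k hk)

theorem mem_swp_support {G : P2} {d : Fin 2 →₀ ℕ} (h : d ∈ (swp G).support) :
    mon (d 1) (d 0) ∈ G.support := TT.mem_support_swp.1 h

theorem pt_of_xx {Λ W W' : Set ℚ} {G : P2} (h : BG.GoodXX Λ W W' G) (k k' : Kd) (hk : KdIn W k)
    (hk' : KdIn W' k') : Pt7 Λ k k' G := by
  cases h with
  | edge p q aL bR I he h1 h2 h3 h4 =>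
    have hp := he.hp
    have hq := he.hq
    refine Pt7.edge k k' G p q aL bR I he (rt77 hk hk' hp hq h1) ?_
      (rv_of_rx h3 hq k k' hk hk') (rv_of_rx h4 hp k' k hk' hk)
    intro lam hl hI
    exact rv_of_rb7 (h2 lam hl hI) _ (comb77 hk hk' hp)
  | mono A B hAB h1 h2 h3 h4 =>
    rcases Nat.eq_zero_or_pos A with hA | hA
    · subst hA
      have hB : 1 ≤ B := by omega
      exact Pt7.axis k k' G B hB h1 (fun d hd => (h2 d hd).2) (rt01 hk' (h4 hB))
    rcases Nat.eq_zero_or_pos B with hB | hB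
    · subst hB
      refine Pt7.swap k k' G (Pt7.axis k' k (swp G) A hA ?_ ?_ (rt01 hk (h3 hA)))
      · rw [TT.coeff_swp]; exact h1
      · intro d hd
        have h5 := (h2 _ (mem_swp_support hd)).1
        rwa [m0] at h5
    · refine Pt7.two k k' G A B (G.coeff (mon A B)) 0 1 1 0 hA hB ?_ ?_ ?_ ?_
      · intro d hd
        have e : G - C (G.coeff (mon A B)) * X 0 ^ A * X 1 ^ B =
            G - monomial (mon A B) (G.coeff (mon A B)) := by
          rw [C_mul_X_pow_eq_monomial, X_pow_eq_monomial, monomial_mul, mul_one, mon]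
        rw [e, mem_support_iff, coeff_sub, coeff_monomial] at hd
        split_ifs at hd with h5
        · exact absurd (by rw [← h5, sub_self]) hd
        · rw [sub_zero] at hd
          obtain ⟨h6, h7⟩ := h2 d (mem_support_iff.2 hd)
          by_contra hlt
          apply h5
          ext i
          fin_cases i
          · show mon A B 0 = d 0
            rw [m0]; omega
          · show mon A B 1 = d 1
            rw [m1]; omega
      · refine RV.fin2 k k' G 1 1 A B le_rfl hB h1 ?_ (fun d hd => (h2 d hd).2) (by omega)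
        intro d hd
        obtain ⟨h6, h7⟩ := h2 d hd
        omega
      · have h5 := RV.fin2 (Λ := Λ) k' k (swp G) 1 1 B A le_rfl hA (by rw [TT.coeff_swp]; exact h1)
          (by
            intro d hd
            obtain ⟨h6, h7⟩ := h2 _ (mem_swp_support hd)
            rw [m0] at h6
            rw [m1] at h7
            omega) (by
            intro d hd
            have h6 := (h2 _ (mem_swp_support hd)).1
            rwa [m0] at h6) (by omega)
        rw [TT.coeff_swp] at h5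
        exact h5
      · exact Or.inl ⟨by omega, by omega, Or.inl ⟨rt10 hk (h3 hA), rt01 hk' (h4 hB)⟩⟩

end GD7Aux

open GD7Aux in
theorem stmt_GD7 : Stmt_GD7 := by
  refine ⟨fun Λ F h => pt_of_good0 h, fun Λ W k G hk _ h => pt_of_xf h k hk,
    fun Λ W W' k k' G hk hk' h => pt_of_xx h k k' hk hk'⟩

end Pool.Agent.Mono.BV
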