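import Pool.Agent.Work.Monodromy7.RMY7
import Pool.Agent.Work.Monodromy6.TI

/-!
# Block GV7 (helper31): the final statement of the volume part
-/

set_option autoImplicit false

namespace Pool.Agent.Mono.BV

open MvPolynomial TS RO RO.VGAux PC

namespace GV7Aux

open RMAux

theorem eval_swp (x : Fin 2 → ℂ) (G : P2) : eval x (swp G) = eval ![x 1, x 0] G := by
  induction G using MvPolynomial.induction_on with
  | C a => simp [swp]
  | add p q hp hq => rw [map_add, map_add, map_add, hp, hq]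
  | mul_X p i hp =>
    rw [map_mul, map_mul, map_mul, hp]
    congr 1
    fin_cases i <;> simp [swp]

theorem pderiv_swp (G : P2) : pderiv 1 (swp G) = swp (pderiv 0 G) := by
  induction G using MvPolynomial.induction_on with
  | C a => simp [swp]
  | add p q hp hq => rw [map_add, map_add, map_add, map_add, hp, hq]
  | mul_X p i hp =>
    rw [map_mul, Derivation.leibniz, Derivation.leibniz, hp]
    simp only [smul_eq_mul, map_add, map_mul]
    fin_cases i
    · simp [swp, pderiv_X]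
    · simp [swp, pderiv_X]

theorem loc_swp (G : P2) (x₀ : Fin 2 → ℂ) :
    BG.loc (swp G) x₀ = swp (BG.loc G ![x₀ 1, x₀ 0]) := by
  have h1 : (aeval (fun i => X i + C (x₀ i)) : P2 →ₐ[ℂ] P2).comp swp =
      swp.comp (aeval (fun i => X i + C ((![x₀ 1, x₀ 0] : Fin 2 → ℂ) i))) := by
    apply MvPolynomial.algHom_ext
    intro i
    fin_cases i <;> simp [swp]
  have h2 := AlgHom.congr_fun h1 G
  simp only [AlgHom.comp_apply] at h2
  have h3 : swp (C (eval ![x₀ 1, x₀ 0] G) : P2) = C (eval ![x₀ 1, x₀ 0] G) := by simp [swp]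
  rw [BG.loc, BG.loc, map_sub, h2, eval_swp, h3]

theorem totalDegree_swp {G : P2} (hG : G.totalDegree ≠ 0) : (swp G).totalDegree ≠ 0 := by
  intro h
  apply hG
  rw [totalDegree_eq_zero_iff_eq_C] at h
  have h1 := congrArg swp h
  rw [TT.swp_swp] at h1
  rw [h1]
  have h3 : ∀ a : ℂ, swp (C a : P2) = C a := fun a => by simp [swp]
  rw [h3, totalDegree_C]

/-- the data of a regular polynomial -/
theorem mul_of_reg {P : HodgeMeasure} {ι : Type} [Fintype ι] {f : MvPolynomial ι ℂ}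
    {Λ : ℂ → Set ℚ} (hΛ : ∀ c, Λ c ⊆ Set.Ioi 0) {hs : List HT} {crit : Finset ℂ}
    {ts : ℂ → List Fam} {b : ℂ → ℕ → K} (hR : IsReg P f Set.univ Λ hs crit ts b) :
    (∀ h ∈ hs, Constructible h.H) ∧ ∀ c ∈ crit, Src.Mul P ⟨ts c, b c⟩ (Λ c) := by
  obtain ⟨h1, h2, h3, -⟩ := hR
  refine ⟨fun h hh => ?_, fun c hc => ⟨hΛ c, fun t ht => ⟨?_, (h1 c hc).1 t ht⟩, (h1 c hc).2, ?_⟩⟩
  · exact (h3.1 h.tl (List.mem_append_left _ (List.mem_map_of_mem hh))).1
  · have h4 := h2.1 (atv t c) (List.mem_append_right _ (List.mem_flatMap.2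
      ⟨c, Finset.mem_toList.2 hc, List.mem_map_of_mem ht⟩))
    exact ⟨h4.1, fun τ hτ => (h4.2 τ hτ).2 rfl⟩
  · exact stmt_M5 P ι f Set.univ hs crit ts b h2 h3 c hc

theorem aeval_comp2 {ι κ : Type} (G : P2) (f : MvPolynomial ι ℂ) (g : MvPolynomial κ ℂ)
    (z : ι ⊕ κ → PowerSeries ℂ) : aeval z (BG.comp2 G f g) =
      aeval ![aeval (fun a => z (Sum.inl a)) f, aeval (fun a => z (Sum.inr a)) g] G := by
  rw [BG.comp2, comp_aeval_apply]
  congr 2
  funext i
  fin_cases i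
  · change aeval z (rename Sum.inl f) = _
    rw [aeval_rename]
    rfl
  · change aeval z (rename Sum.inr g) = _
    rw [aeval_rename]
    rfl

end GV7Aux

open RMAux GV7Aux in
theorem stmt_GV7 (hTR : Stmt_TR7) (hRA : Stmt_RA7) (hHH : Stmt_HH7) (hFH : Stmt_FH7)
    (hFF : Stmt_FF7) : Stmt_GV7 := by
  intro P ι κ _ _ f g Λ₁ Λ₂ G Λ hΛ₁ hΛ₂ hΛ hf hg hG hsing hmult hXF hXF' hXX hax hax'
  obtain ⟨hs, crit, ts, b, hR⟩ := hf
  obtain ⟨hs', crit', ts', b', hR'⟩ := hg
  obtain ⟨hH, hM⟩ := mul_of_reg hΛ₁ hR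
  obtain ⟨hH', hM'⟩ := mul_of_reg hΛ₂ hR'
  have hA : RegM P (fun E _ C M => (hs.map fun h => (hs'.map fun h' =>
      muHH P (pair h h') E C M).sum).sum) G Λ := by
    refine regM_list hRA hs _ fun h hh => regM_list hRA hs' _ fun h' hh' => ?_
    refine hHH P (pair h h') G Λ ?_ hΛ hG hsing hmult
    exact (Constructible.comap _ (hH h hh)).and (Constructible.comap _ (hH' h' hh'))
  have hB : RegM P (fun E _ C M => (crit.toList.map fun c => (hs'.map fun h' =>
      muFH P c ⟨ts c, b c⟩ h' E C M).sum).sum) G Λ := by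
    refine regM_list hRA _ _ fun c hc => regM_list hRA hs' _ fun h' hh' => ?_
    refine hFH P c ⟨ts c, b c⟩ (Λ₁ c) h' G Λ (hM c (Finset.mem_toList.1 hc)) (hH' h' hh') hΛ hG
      ?_ ?_
    · rintro x₀ rfl h1
      exact hXF x₀ h1
    · rintro x₀ m rfl hm h1 h2
      exact hax x₀ m hm h1 h2
  have hC : RegM P (fun E _ C M => (crit'.toList.map fun c' => (hs.map fun h =>
      swM (muFH P c' ⟨ts' c', b' c'⟩ h) E C M).sum).sum) G Λ := by
    refine regM_list hRA _ _ fun c' hc' => regM_list hRA hs _ fun h hh => regM_sw hRA ?_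
    refine hFH P c' ⟨ts' c', b' c'⟩ (Λ₂ c') h (swp G) Λ (hM' c' (Finset.mem_toList.1 hc'))
      (hH h hh) hΛ (totalDegree_swp hG) ?_ ?_
    · rintro x₀ rfl h1
      rw [pderiv_swp, eval_swp] at h1
      rw [eval_swp, loc_swp]
      exact hXF' ![x₀ 1, x₀ 0] h1
    · rintro x₀ m rfl hm h1 h2
      rw [loc_swp] at h1 h2
      rw [eval_swp]
      rw [TT.coeff_swp] at h2
      refine hax' ![x₀ 1, x₀ 0] m hm ?_ h2
      intro d hd
      have h3 : mon (d 1) (d 0) ∈ (swp (BG.loc G ![x₀ 1, x₀ 0])).support := by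
        rw [TT.mem_support_swp]
        have h4 : mon (mon (d 1) (d 0) 1) (mon (d 1) (d 0) 0) = d := by
          ext i
          fin_cases i <;> simp [mon]
        rw [h4]
        exact hd
      have h5 := h1 _ h3
      simpa [mon] using h5
  have hD : RegM P (fun E _ C M => (crit.toList.map fun c => (crit'.toList.map fun c' =>
      muFF P c ⟨ts c, b c⟩ c' ⟨ts' c', b' c'⟩ E C M).sum).sum) G Λ := by
    refine regM_list hRA _ _ fun c hc => regM_list hRA _ _ fun c' hc' => ?_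
    exact hFF P c ⟨ts c, b c⟩ c' ⟨ts' c', b' c'⟩ (Λ₁ c) (Λ₂ c') G Λ
      (hM c (Finset.mem_toList.1 hc)) (hM' c' (Finset.mem_toList.1 hc')) hΛ (hXX ![c, c'])
  refine (hRA P G Λ).2.2.2.2.2 (ι ⊕ κ) (BG.comp2 G f g) _ ?_
    (regM_add hRA (regM_add hRA (regM_add hRA hA hB) hC) hD)
  intro w E _ Q hQ i hi
  rw [← hTR P ι κ f g hs hs' crit crit' ts ts' b b' hR.2.1 hR.2.2.1 hR'.2.1 hR'.2.2.1 E
    (SD G w Q i) (i + 1) i (M5Aux.cyl_SD G w hQ.1 i) le_rfl]
  congr 1
  ext z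
  change cut w i (aeval z.2 (BG.comp2 G f g)) ∧ Sum.elim z.1 (dat w i (aeval z.2
    (BG.comp2 G f g))) ∈ Q ↔ _
  rw [aeval_comp2]
  exact Iff.rfl

end Pool.Agent.Mono.BV
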