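import Pool.Agent.Work.Monodromy7.B60

/-!
# Block HG7 (helper60): pairs of Haar parts, smooth points
-/

set_option autoImplicit false
set_option linter.unusedSectionVars false

namespace Pool.Agent.Mono.BV

open MvPolynomial TS RO PC B60

theorem stmt_HG7 : Stmt_HG7 := by
  classical
  intro P h G Λ hH hs
  haveI := h.fin
  haveI := Fintype.ofFinite h.σ
  obtain ⟨h', h1, h2⟩ := stmt_VSM P (h.σ ⊕ Fin 2) (tf h G) (tz h) (con_tz h hH) (by
    rintro x ⟨hx1, hx2⟩
    obtain ⟨i, hi⟩ := hs _ hx1
    refine ⟨Sum.inr i, ?_⟩
    rw [pderiv_tf, eval_tf h _ x (fun j => congrFun hx2 j)]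
    exact hi)
  refine ⟨[{ h' with lam := lm h * h'.lam }], [], [], by simp, by simp, ?_, ?_⟩
  · have h3 := HasM_of_HasDz P h hH G true _ h1
    have e1 : [h'.ex].map (scl (lm h)) =
        ([{ h' with lam := lm h * h'.lam }] : List HT).map HT.ex ++
          ([] : List (ℂ × Fam)).map fun x => atv x.2 x.1 := by
      simp only [List.map_cons, List.map_nil, List.append_nil]
      congr 1
      unfold scl HT.ex
      congr 1
      funext i
      exact (mul_assoc _ _ _).symm
    rw [← e1]
    exact h3
  · have h3 := HasM_of_HasDz P h hH G false _ h2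
    have e1 : [h'.tl].map (scl (lm h)) =
        ([{ h' with lam := lm h * h'.lam }] : List HT).map HT.tl ++
          ([] : List (ℂ × (ℕ → K))).map fun x => ptv x.1 x.2 := by
      simp only [List.map_cons, List.map_nil, List.append_nil]
      congr 1
      unfold scl HT.tl
      congr 1
      funext i
      exact (mul_assoc _ _ _).symm
    rw [← e1]
    exact h3

end Pool.Agent.Mono.BV
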