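import Pool.Agent.Work.Monodromy7.RMY7
import Pool.Agent.Work.Monodromy7.HP7
import Pool.Agent.Work.Monodromy6.PC
import Pool.Agent.Work.Monodromy6.ALG

/-!
# Block HH7 (helper31): pairs of Haar parts

The strata of the plane are those of the block PC (helper17).
-/

set_option autoImplicit false

namespace Pool.Agent.Mono.BV

open MvPolynomial TS RO RO.VGAux PC PC.PCAux

namespace HH7Aux

/-- the plane: points where `f` is smooth, smooth points of multiple components, finitely many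
points -/
theorem strata (f : P2) (hf : f.totalDegree ≠ 0) :
    ∃ (α : Type) (S : Finset α) (Z : α → Set (Fin 2 → ℂ)),
      (∀ l ∈ S, Constructible (Z l)) ∧
      (∀ l ∈ S, ∀ l' ∈ S, l ≠ l' → ∀ x, x ∈ Z l → x ∈ Z l' → False) ∧
      (∀ x, ∃ l ∈ S, x ∈ Z l) ∧
      ∀ l ∈ S, (∀ x ∈ Z l, ∃ i, eval x (pderiv i f) ≠ 0) ∨
        (∃ (c : ℂ) (j : ℕ) (g q : P2), 2 ≤ j ∧ f = C c + g ^ j * q ∧
          ∀ x ∈ Z l, eval x g = 0 ∧ eval x q ≠ 0 ∧ ∃ i, eval x (pderiv i g) ≠ 0) ∨
        ∃ (x₀ : Fin 2 → ℂ) (c : ℂ) (n : ℕ) (u : ℕ → P2), Z l = {x₀} ∧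
          f = C c + ∏ j ∈ Finset.Icc 1 n, u j ^ j ∧ Squarefree (∏ j ∈ Finset.Icc 1 n, u j) ∧
          eval x₀ f = c ∧ ∀ i, eval x₀ (pderiv i (∏ j ∈ Finset.Icc 1 n, u j)) = 0 := by
  classical
  obtain ⟨crit, hcrit, hdec⟩ := stmt_ALG f hf
  choose! n g hfg hsq hfin using hdec
  set R : ℂ → P2 := fun c => ∏ j ∈ Finset.Icc 1 (n c), g c j with hR
  -- the labels
  let Lab : Type := Option ((ℂ × ℕ) ⊕ (Fin 2 → ℂ))
  let Z : Lab → Set (Fin 2 → ℂ) := fun l => match l with
    | none => {x | ∃ i, eval x (pderiv i f) ≠ 0}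
    | some (Sum.inl cj) => {x | eval x f = cj.1 ∧ eval x (g cj.1 cj.2) = 0 ∧
        ∃ i, eval x (pderiv i (R cj.1)) ≠ 0}
    | some (Sum.inr x₀) => {x₀}
  let Sing : ℂ → Finset (Fin 2 → ℂ) := fun c => if h : c ∈ crit then (hfin c h).toFinset else ∅
  have hSing : ∀ c ∈ crit, ∀ x, x ∈ Sing c ↔ eval x f = c ∧ ∀ i, eval x (pderiv i (R c)) = 0 := by
    intro c hc x
    simp only [Sing, dif_pos hc, Set.Finite.mem_toFinset]
    rfl
  let S1 : Finset Lab := crit.biUnion fun c => (Finset.Icc 2 (n c)).image fun j =>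
    (some (Sum.inl (c, j)) : Lab)
  let S2 : Finset Lab := crit.biUnion fun c => (Sing c).image fun x => (some (Sum.inr x) : Lab)
  let S : Finset Lab := {none} ∪ (S1 ∪ S2)
  have hmem : ∀ l ∈ S, l = none ∨ (∃ c ∈ crit, ∃ j ∈ Finset.Icc 2 (n c),
      l = some (Sum.inl (c, j))) ∨ ∃ c ∈ crit, ∃ x ∈ Sing c, l = some (Sum.inr x) := by
    intro l hl
    simp only [S, S1, S2, Finset.mem_union, Finset.mem_singleton, Finset.mem_biUnion,
      Finset.mem_image] at hl
    rcases hl with h | ⟨c, hc, j, hj, h⟩ | ⟨c, hc, x, hx, h⟩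
    · exact Or.inl h
    · exact Or.inr (Or.inl ⟨c, hc, j, hj, h.symm⟩)
    · exact Or.inr (Or.inr ⟨c, hc, x, hx, h.symm⟩)
  -- critical points
  have hroot : ∀ c ∈ crit, ∀ x : Fin 2 → ℂ, eval x f = c → ∃ j ∈ Finset.Icc 1 (n c),
      eval x (g c j) = 0 := by
    intro c hc x hx
    have h1 : eval x (∏ j ∈ Finset.Icc 1 (n c), g c j ^ j) = 0 := by
      have h2 := congrArg (eval x) (hfg c hc)
      rw [map_add, eval_C, hx] at h2
      linear_combination -h2
    rw [map_prod, Finset.prod_eq_zero_iff] at h1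
    obtain ⟨j, hj, h2⟩ := h1
    rw [map_pow] at h2
    exact ⟨j, hj, (pow_eq_zero_iff (by rw [Finset.mem_Icc] at hj; omega)).1 h2⟩
  have hpd : ∀ c ∈ crit, ∀ j ∈ Finset.Icc 1 (n c), ∀ i, pderiv i f =
      g c j ^ j * pderiv i (∏ k ∈ (Finset.Icc 1 (n c)).erase j, g c k ^ k) +
      (∏ k ∈ (Finset.Icc 1 (n c)).erase j, g c k ^ k) * (j * g c j ^ (j - 1) * pderiv i (g c j)) := by
    intro c hc j hj i
    conv_lhs => rw [hfg c hc, prod_split' (g c) (n c) j hj]
    rw [map_add, pderiv_C, zero_add, Derivation.leibniz, pderiv_pow]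
    simp only [smul_eq_mul]
  have hcr1 : ∀ c ∈ crit, ∀ j ∈ Finset.Icc 2 (n c), ∀ x : Fin 2 → ℂ, eval x (g c j) = 0 →
      ∀ i, eval x (pderiv i f) = 0 := by
    intro c hc j hj x hx i
    rw [Finset.mem_Icc] at hj
    rw [hpd c hc j (Finset.mem_Icc.2 ⟨by omega, hj.2⟩) i]
    simp only [map_add, map_mul, map_pow, hx]
    rw [zero_pow (by omega), zero_pow (by omega)]
    ring
  have hcr2 : ∀ c ∈ crit, ∀ x ∈ Sing c, ∀ i, eval x (pderiv i f) = 0 := by
    intro c hc x hx i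
    obtain ⟨h1, h2⟩ := (hSing c hc x).1 hx
    obtain ⟨j, hj, h3⟩ := hroot c hc x h1
    by_cases h4 : eval x (∏ k ∈ (Finset.Icc 1 (n c)).erase j, g c k) = 0
    · have h5 : eval x (∏ k ∈ (Finset.Icc 1 (n c)).erase j, g c k ^ k) = 0 := by
        rw [map_prod, Finset.prod_eq_zero_iff] at h4 ⊢
        obtain ⟨k, hk, h6⟩ := h4
        refine ⟨k, hk, ?_⟩
        rw [map_pow, h6, zero_pow]
        have := Finset.mem_Icc.1 (Finset.mem_of_mem_erase hk)
        omega
      rw [hpd c hc j hj i]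
      simp only [map_add, map_mul, map_pow, h3, h5]
      rw [zero_pow (by rw [Finset.mem_Icc] at hj; omega)]
      ring
    · have h6 : eval x (pderiv i (g c j)) = 0 := by
        have h7 := h2 i
        rw [hR] at h7
        simp only at h7
        rw [prod_split (g c) (n c) j hj, Derivation.leibniz] at h7
        simp only [smul_eq_mul, map_add, map_mul, h3, zero_mul, zero_add] at h7
        exact (mul_eq_zero.1 h7).resolve_left h4
      rw [hpd c hc j hj i]
      simp only [map_add, map_mul, map_pow, h3, h6]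
      rw [zero_pow (by rw [Finset.mem_Icc] at hj; omega)]
      ring
  have hZcon : ∀ l, Constructible (Z l) := by
    intro l
    rcases l with _ | ⟨⟨c, j⟩ | x₀⟩
    · have : Z none = {x | eval x (pderiv 0 f) ≠ 0 ∨ eval x (pderiv 1 f) ≠ 0} := by
        ext x
        simp only [Z, Set.mem_ofPred_eq]
        exact ⟨fun ⟨i, hi⟩ => by fin_cases i; exacts [Or.inl hi, Or.inr hi],
          fun h => h.elim (fun h => ⟨0, h⟩) fun h => ⟨1, h⟩⟩
      rw [this]
      exact (Constructible.ne _).or (Constructible.ne _)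
    · have : Z (some (Sum.inl (c, j))) = {x | eval x f = eval x (C c) ∧
          (eval x (g c j) = eval x 0 ∧ (eval x (pderiv 0 (R c)) ≠ 0 ∨
            eval x (pderiv 1 (R c)) ≠ 0))} := by
        ext x
        simp only [Z, Set.mem_ofPred_eq, eval_C, map_zero]
        refine and_congr_right fun _ => and_congr_right fun _ => ?_
        exact ⟨fun ⟨i, hi⟩ => by fin_cases i; exacts [Or.inl hi, Or.inr hi],
          fun h => h.elim (fun h => ⟨0, h⟩) fun h => ⟨1, h⟩⟩
      rw [this]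
      exact (Constructible.eq _ _).and ((Constructible.eq _ _).and
        ((Constructible.ne _).or (Constructible.ne _)))
    · have : Z (some (Sum.inr x₀)) = {x | eval x (X 0 : P2) = eval x (C (x₀ 0)) ∧
          eval x (X 1 : P2) = eval x (C (x₀ 1))} := by
        ext x
        simp only [Z, Set.mem_singleton_iff, Set.mem_ofPred_eq, eval_C, eval_X]
        constructor
        · rintro rfl
          exact ⟨rfl, rfl⟩
        · rintro ⟨h1, h2⟩
          funext i
          fin_cases i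
          exacts [h1, h2]
      rw [this]
      exact (Constructible.eq _ _).and (Constructible.eq _ _)
  have hdisj : ∀ l ∈ S, ∀ l' ∈ S, l ≠ l' → ∀ x, x ∈ Z l → x ∈ Z l' → False := by
    have key : ∀ l ∈ S, ∀ x, x ∈ Z l → (l = none ∧ ∃ i, eval x (pderiv i f) ≠ 0) ∨
        (∃ c ∈ crit, ∃ j ∈ Finset.Icc 2 (n c), l = some (Sum.inl (c, j)) ∧
          eval x f = c ∧ eval x (g c j) = 0 ∧ ∃ i, eval x (pderiv i (R c)) ≠ 0) ∨
        (∃ c ∈ crit, x ∈ Sing c ∧ l = some (Sum.inr x)) := by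
      intro l hl x hx
      rcases hmem l hl with rfl | ⟨c, hc, j, hj, rfl⟩ | ⟨c, hc, y, hy, rfl⟩
      · exact Or.inl ⟨rfl, hx⟩
      · exact Or.inr (Or.inl ⟨c, hc, j, hj, rfl, hx⟩)
      · have : x = y := hx
        subst this
        exact Or.inr (Or.inr ⟨c, hc, hy, rfl⟩)
    intro l hl l' hl' hne x hx hx'
    rcases key l hl x hx with ⟨h1, i, hi⟩ | ⟨c, hc, j, hj, h1, h2, h3, h4⟩ | ⟨c, hc, h1, h2⟩ <;>
    rcases key l' hl' x hx' with ⟨h1', i', hi'⟩ | ⟨c', hc', j', hj', h1', h2', h3', h4'⟩ |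
      ⟨c', hc', h1', h2'⟩
    · exact hne (h1.trans h1'.symm)
    · exact hi (hcr1 c' hc' j' hj' x h3' i)
    · exact hi (hcr2 c' hc' x h1' i)
    · exact hi' (hcr1 c hc j hj x h3 i')
    · have hcc : c = c' := h2.symm.trans h2'
      subst hcc
      by_cases hjj : j = j'
      · subst hjj
        exact hne (h1.trans h1'.symm)
      · obtain ⟨i, hi⟩ := h4
        have hj1 : j ∈ Finset.Icc 1 (n c) := by
          rw [Finset.mem_Icc] at hj ⊢; omega
        have hj1' : j' ∈ (Finset.Icc 1 (n c)).erase j := by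
          rw [Finset.mem_erase, Finset.mem_Icc]
          rw [Finset.mem_Icc] at hj'
          exact ⟨fun h => hjj h.symm, by omega, hj'.2⟩
        refine (nonsing (g c) (n c) j hj1 x h3 i hi).1 ?_
        rw [map_prod]
        exact Finset.prod_eq_zero hj1' h3'
    · have hcc : c = c' := h2.symm.trans ((hSing c' hc' x).1 h1').1
      subst hcc
      obtain ⟨i, hi⟩ := h4
      exact hi (((hSing c hc x).1 h1').2 i)
    · exact hi' (hcr2 c hc x h1 i')
    · have hcc : c' = c := h2'.symm.trans ((hSing c hc x).1 h1).1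
      subst hcc
      obtain ⟨i, hi⟩ := h4'
      exact hi (((hSing c' hc' x).1 h1).2 i)
    · exact hne (h2.trans h2'.symm)
  have hcov : ∀ x, ∃ l ∈ S, x ∈ Z l := by
    intro x
    by_cases h1 : ∃ i, eval x (pderiv i f) ≠ 0
    · exact ⟨none, by simp [S], h1⟩
    push Not at h1
    have hc := hcrit x h1
    set c := eval x f with hcdef
    by_cases h2 : ∀ i, eval x (pderiv i (R c)) = 0
    · refine ⟨some (Sum.inr x), ?_, rfl⟩
      have h3 : x ∈ Sing c := (hSing c hc x).2 ⟨rfl, h2⟩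
      simp only [S, S2, Finset.mem_union, Finset.mem_biUnion, Finset.mem_image]
      exact Or.inr (Or.inr ⟨c, hc, x, h3, rfl⟩)
    · push Not at h2
      obtain ⟨i, hi⟩ := h2
      obtain ⟨j, hj, h3⟩ := hroot c hc x rfl
      obtain ⟨h4, h5⟩ := nonsing (g c) (n c) j hj x h3 i hi
      have hj2 : 2 ≤ j := by
        by_contra hlt
        have hj1 : j = 1 := by
          rw [Finset.mem_Icc] at hj; omega
        subst hj1
        have h6 := h1 i
        rw [hpd c hc 1 hj i] at h6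
        simp only [map_add, map_mul, map_pow, h3] at h6
        have h7 := pow_ne (g c) _ x h4
        rw [map_prod] at h7
        simp only [map_pow] at h7
        have h8 : eval x (∏ k ∈ (Finset.Icc 1 (n c)).erase 1, g c k ^ k) ≠ 0 := pow_ne (g c) _ x h4
        apply mul_ne_zero h8 h5
        simpa using h6
      refine ⟨some (Sum.inl (c, j)), ?_, rfl, h3, i, hi⟩
      simp only [S, S1, Finset.mem_union, Finset.mem_biUnion, Finset.mem_image]
      exact Or.inr (Or.inl ⟨c, hc, j, Finset.mem_Icc.2 ⟨hj2, (Finset.mem_Icc.1 hj).2⟩, rfl⟩)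
  refine ⟨Lab, S, Z, fun l _ => hZcon l, hdisj, hcov, ?_⟩
  intro l hl
  rcases hmem l hl with rfl | ⟨c, hc, j, hj, rfl⟩ | ⟨c, hc, y, hy, rfl⟩
  · exact Or.inl fun x hx => hx
  · have hj' := Finset.mem_Icc.1 hj
    have hj1 : j ∈ Finset.Icc 1 (n c) := Finset.mem_Icc.2 ⟨by omega, hj'.2⟩
    refine Or.inr (Or.inl ⟨c, j, g c j, ∏ k ∈ (Finset.Icc 1 (n c)).erase j, g c k ^ k, hj'.1,
      ?_, ?_⟩)
    · conv_lhs => rw [hfg c hc, prod_split' (g c) (n c) j hj1]
    · rintro x ⟨hx1, hx2, i, hi⟩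
      obtain ⟨h4, h5⟩ := nonsing (g c) (n c) j hj1 x hx2 i hi
      exact ⟨hx2, pow_ne (g c) _ x h4, i, h5⟩
  · obtain ⟨h1, h2⟩ := (hSing c hc y).1 hy
    exact Or.inr (Or.inr ⟨y, c, n c, g c, rfl, hfg c hc, hsq c hc, h1, h2⟩)

end HH7Aux

open RMAux HH7Aux SRX in
theorem stmt_HH7 (hRA : Stmt_RA7) (hPT : Stmt_PT7) (hGD : Stmt_GD7) (hHG : Stmt_HG7)
    (hHM : Stmt_HM7) : Stmt_HH7 := by
  intro P h G Λ hH hΛ hG hsing hmult
  obtain ⟨α, S, Z, hZcon, hdisj, hcov, hty⟩ := strata G hG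
  have := h.fin
  let Hs : α → Set (h.σ → ℂ) := fun l => {z | z ∈ h.H ∧ ![eval z h.v, eval z h.v'] ∈ Z l}
  have hcon : ∀ l ∈ S, Constructible (Hs l) := by
    intro l hl
    have h1 := Constructible.preimage (![h.v, h.v'] : Fin 2 → MvPolynomial h.σ ℂ) (hZcon l hl)
    have h2 : Hs l = h.H ∩ {z | (fun j => eval z ((![h.v, h.v'] :
        Fin 2 → MvPolynomial h.σ ℂ) j)) ∈ Z l} := by
      ext z
      have e1 : (fun j => eval z ((![h.v, h.v'] : Fin 2 → MvPolynomial h.σ ℂ) j)) =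
          ![eval z h.v, eval z h.v'] := by
        funext j
        fin_cases j <;> rfl
      refine and_congr_right fun _ => ?_
      change _ ↔ (fun j => eval z ((![h.v, h.v'] : Fin 2 → MvPolynomial h.σ ℂ) j)) ∈ Z l
      rw [e1]
    rw [h2]
    exact Constructible.inter hH h1
  have hF : Part S Hs h.H := by
    refine ⟨hcon, ?_, ?_⟩
    · rintro a ha b hb hab z ⟨-, h1⟩ ⟨-, h2⟩
      exact hdisj a ha b hb hab _ h1 h2
    · intro z
      constructor
      · intro hz
        obtain ⟨l, hl, h1⟩ := hcov ![eval z h.v, eval z h.v']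
        exact ⟨l, hl, hz, h1⟩
      · rintro ⟨l, -, h1, -⟩
        exact h1
  refine regM_HH_part hRA h hF fun l hl => ?_
  rcases hty l hl with h1 | ⟨c, j, g, q, hj, hGg, h1⟩ | ⟨x₀, c, n, u, hZ, hGu, hsq, hx1, hx2⟩
  · exact hHG P (reH h (Hs l)) G Λ (hcon l hl) fun z hz => h1 _ hz.2
  · by_cases hne : (Hs l).Nonempty
    · obtain ⟨z₀, hz₀⟩ := hne
      refine hHM P (reH h (Hs l)) G g q c j Λ (hcon l hl) hj hGg ?_ fun z hz => h1 _ hz.2
      refine hmult c g q j hj ⟨_, (h1 _ hz₀.2).1, (h1 _ hz₀.2).2.1⟩ ?_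
      conv_lhs => rw [hGg]
      ring
    · refine regM_congr hRA (fun w E _ Q _ i M _ _ => ?_) (regM_zero hRA)
      have h2 : muHH P (reH h (Hs l)) E (SD G w Q i) M = h.lam * vol P.rat xq
          (∅ : Set ((E ⊕ h.σ → ℂ) × (Fin 2 → PowerSeries ℂ))) := by
        have : Finite (reH h (Hs l)).σ := h.fin
        change h.lam * vol (E := E ⊕ h.σ) P.rat xq _ = h.lam * vol P.rat xq _
        congr 2
        ext z
        constructor
        · rintro ⟨h3, -⟩
          exact hne ⟨_, h3⟩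
        · intro h3
          exact h3.elim
      rw [h2, vol_empty P.rat (VAAux.L_mul P), mul_zero]
  · have hx : x₀ = ![x₀ 0, x₀ 1] := by
      funext i
      fin_cases i <;> rfl
    have h1 : RegM P (muFF P (x₀ 0) hsrc (x₀ 1) hsrc) G Λ := by
      refine hPT P G (x₀ 0) (x₀ 1) Λ none none hsrc hsrc hΛ ?_ (hsrc_is P) (hsrc_is P)
      rw [← hx]
      refine hGD.1 _ _ ?_
      rw [hx1]
      exact hsing c n u hGu hsq x₀ hx1 hx2
    refine regM_congr hRA (fun w E _ Q hQ i M _ hiM => ?_)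
      (regM_mul hRA (h.lam * P.rat.val (Hs l)) h1)
    refine (stmt_HP7.1 P (reH h (Hs l)) (x₀ 0) (x₀ 1) (hcon l hl) ?_ E (SD G w Q i) (i + 1) M
      (M5Aux.cyl_SD G w hQ.1 i) (by omega)).symm
    intro z hz
    have h2 : ![eval z h.v, eval z h.v'] = x₀ := by
      have h3 := hz.2
      rw [hZ] at h3
      exact h3
    exact ⟨congrFun h2 0, congrFun h2 1⟩

end Pool.Agent.Mono.BV
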