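import Pool.Agent.Work.Monodromy7.B60
import Pool.Agent.Work.Monodromy4.Q1

/-!
# Block HM7 (helper60): pairs of Haar parts, smooth points of a multiple component
-/

set_option autoImplicit false
set_option linter.unusedSectionVars false

namespace Pool.Agent.Mono.BV

open MvPolynomial TS RO PC B60

theorem stmt_HM7 : Stmt_HM7 := by
  classical
  intro P h G g q c e Λ hH he hG hΛ hs
  haveI := h.fin
  haveI := Fintype.ofFinite h.σ
  have eG : tf h G = C c + tf h g ^ e * tf h q := by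
    rw [hG]
    unfold tf
    simp
  obtain ⟨t, b, ht, hb, h1, h2⟩ := stmt_VMU P (h.σ ⊕ Fin 2) (tf h G) (tf h g) (tf h q) c e
    (tz h) (con_tz h hH) he eG (by
    rintro x ⟨hx1, hx2⟩
    obtain ⟨h3, h4, i, hi⟩ := hs _ hx1
    have h5 : ∀ j, x (Sum.inr j) = 0 := fun j => congrFun hx2 j
    refine ⟨?_, ?_, Sum.inr i, ?_⟩
    · rw [eval_tf h _ x h5]
      exact h3
    · rw [eval_tf h _ x h5]
      exact h4
    · rw [pderiv_tf, eval_tf h _ x h5]
      exact hi)
  have hsub : ({1 / (e : ℚ)} : Set ℚ) ⊆ Λ c := by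
    intro r hr
    rw [Set.mem_singleton_iff.1 hr]
    exact hΛ
  refine ⟨[], [(c, { t with κ := fun i => lm h * t.κ i })], [(c, fun i => lm h * b i)], ?_, ?_,
    ?_, ?_⟩
  · intro x hx
    rw [List.mem_singleton] at hx
    subst hx
    exact stmt_Q1.1 _ _ _ hsub (stmt_Q1.2.2.1 _ _ _ ht)
  · intro x hx
    rw [List.mem_singleton] at hx
    subst hx
    exact stmt_Q1.1 _ _ _ hsub (stmt_Q1.2.2.1 _ _ _ hb)
  · exact HasM_of_HasDz P h hH G true _ h1
  · exact HasM_of_HasDz P h hH G false _ h2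

end Pool.Agent.Mono.BV
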