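import Pool.Agent.Work.Monodromy7.VLF

/-!
# Block HS7 (helper63): the free axis as a source
-/

set_option autoImplicit false
set_option linter.unusedSectionVars false

namespace Pool.Agent.Mono.BV

open MvPolynomial TS RO RO.VGAux PC

namespace HS7Aux

/-- partition by the order of the second arc -/
theorem vN7_sum (P : HodgeMeasure) {E : Type} [Finite E] (G : P2)
    {Q : Set ((E ⊕ Unit) ⊕ Unit → ℂ)} (hQ : Constructible Q) (α : K) (k L m n : ℕ) :
    vN7 P G Q k L m = ∑ l ∈ Finset.Ico L (L + n), xq ^ (l + 1) * e2 P (haar α) G Q k l m +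
      vN7 P G Q k (L + n) m := by
  induction n with
  | zero => simp
  | succ n ih =>
    rw [ih, VL7.vN7_step P G hQ α k (L + n) m, ← Nat.add_assoc,
      Finset.sum_Ico_succ_top (Nat.le_add_right L n)]
    ring

theorem X_xq (n : ℕ) : (RatFunc.X : K) * xq ^ (n + 1) = xq ^ n := by
  rw [xq, pow_succ, mul_comm, mul_assoc, inv_mul_cancel₀ RatFunc.X_ne_zero, mul_one]

end HS7Aux

open HS7Aux

theorem stmt_HS7 : Stmt_HS7 := by
  intro P G E _ Q hQ k L m hk hL
  rw [vN7_sum P G hQ.1 1 k L m m, VL7.vN7_far P G hQ.1 (show m + 1 ≤ L + m by omega), mul_add,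
    Finset.mul_sum]
  unfold vS hsrc
  obtain ⟨n, rfl⟩ := Nat.exists_eq_add_of_le hL
  have e1 : 1 + n + m = (1 + n + m - 1) + 1 := by omega
  congr 1
  · refine Finset.sum_congr rfl fun l _ => ?_
    rw [← mul_assoc, X_xq]
    simp [haar]
  · rw [← mul_assoc]
    congr 1
    conv_rhs => rw [e1, X_xq]

end Pool.Agent.Mono.BV
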