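import Pool.Agent.Work.Monodromy7.L0D
import Pool.Agent.Work.Monodromy6.TI

/-!
# Block L07 (helper2): the distribution at the origin, exact part
-/

set_option autoImplicit false
set_option linter.unusedSectionVars false
set_option linter.unusedVariables false
set_option maxHeartbeats 400000

namespace Pool.Agent.Mono.BV

open MvPolynomial TS RO PC

namespace L07Aux

/-- uniform constants -/
theorem unif {α : Type*} (L : List α) (p : α → (ℕ → ℕ) → Prop)
    (h : ∀ a ∈ L, ∃ C₀ : ℕ, ∀ N : ℕ → ℕ, (∀ m, 1 ≤ m → C₀ * m ≤ N m) → p a N) :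
    ∃ C₀ : ℕ, ∀ N : ℕ → ℕ, (∀ m, 1 ≤ m → C₀ * m ≤ N m) → ∀ a ∈ L, p a N := by
  induction L with
  | nil => exact ⟨0, fun N _ a ha => absurd ha List.not_mem_nil⟩
  | cons a L ih =>
    obtain ⟨C₁, h1⟩ := h a List.mem_cons_self
    obtain ⟨C₂, h2⟩ := ih fun b hb => h b (List.mem_cons_of_mem _ hb)
    refine ⟨C₁ + C₂, fun N hN b hb => ?_⟩
    rcases List.mem_cons.1 hb with rfl | hb
    · refine h1 N fun m hm => le_trans ?_ (hN m hm)
      exact Nat.mul_le_mul_right m (by omega)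
    · refine h2 N (fun m hm => le_trans ?_ (hN m hm)) b hb
      exact Nat.mul_le_mul_right m (by omega)

theorem mon_ne {a b : ℕ} (h : 1 ≤ a + b) : mon a b ≠ mon 0 0 := by
  intro h1
  have h2 := DFunLike.congr_fun h1 0
  have h3 := DFunLike.congr_fun h1 1
  rw [VRE_.mon_zero, VRE_.mon_zero] at h2
  rw [VRE_.mon_one, VRE_.mon_one] at h3
  omega

theorem low_zero {p q N : ℕ} {F : P2} (h : Low p q N F) (hN : 1 ≤ N) :
    F.coeff (mon 0 0) = 0 := by
  by_contra h1
  have h2 := h _ (mem_support_iff.2 h1)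
  rw [VRE_.mon_zero, VRE_.mon_one] at h2
  omega

theorem swp_zero {F : P2} (h : F.coeff (mon 0 0) = 0) : (swp F).coeff (mon 0 0) = 0 := by
  rw [TT.coeff_swp]
  exact h

theorem N0_pos {p q aL bR : ℕ} {I : Polynomial ℂ} (hp : 1 ≤ p) (hq : 1 ≤ q)
    (hd : 1 ≤ I.natDegree) : 1 ≤ edgeN p q aL bR I := by
  have e1 : 1 ≤ p * I.natDegree := Nat.mul_pos hp hd
  have e2 : 1 ≤ q * (bR + p * I.natDegree) := Nat.mul_pos hq (by omega)
  rw [edgeN]
  omega

theorem case_edge (hRY : Stmt_RY7) (hRP : Stmt_RP7) (hST : Stmt_ST7) (hSW : Stmt_SW7)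
    (hHS : Stmt_HS7) (hMU : Stmt_MU7) (hSQ : Stmt_SQ72) (P : HodgeMeasure) (Λ : Set ℚ) (k k' : Kd)
    (F : P2) (p q aL bR : ℕ) (I : Polynomial ℂ) (s s' : Src) (he : IsEdge F p q aL bR I)
    (h1 : Rt Λ k k' aL (bR + p * I.natDegree) p q) (hs : s.Is P k) (hs' : s'.Is P k')
    (h2 : ∀ lam : ℂ, lam ≠ 0 → I.eval (lam ^ p) = 0 → ∀ W, EK (k.comb k' p q) W →
      RE7 P Λ hsrc (chart p q lam F) W 1 0 none)
    (h3 : ∀ W, EK k W → RE7 P Λ s' F W p q none)
    (h4 : ∀ W, EK k' W → RE7 P Λ s (swp F) W q p none) :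
    Rep P Λ fun E _ Q m => mu P s s' F Q m m := by
  classical
  have hp := he.hp
  have hq := he.hq
  have hN₀ : 1 ≤ edgeN p q aL bR I := N0_pos hp hq he.deg
  have h0 : F.coeff (mon 0 0) = 0 := low_zero (VRE_.low_of_edge he) hN₀
  have h0' := swp_zero h0
  have hroot : ∀ R : ℂ, ∃ z : ℂ, z ^ p = R := fun R => IsAlgClosed.exists_pow_nat_eq R (by omega)
  choose ρ hρ using hroot
  have hg : ∀ t ∈ s.ts, t.Good := fun t ht => (hs.1.1 t ht).1
  have hg' : ∀ t ∈ s'.ts, t.Good := fun t ht => (hs'.1.1 t ht).1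
  obtain ⟨C₃, hC₃⟩ := unif s.ts (fun t N => Rep P Λ fun E _ Q m =>
        ∑ k ∈ Finset.Icc 1 (N m), t.κ k * vT P t s' F Q k (q * k / p + 1) m)
    fun t ht => rep_row (hg t ht) (h3 t.κ (hs.1.1 t ht).2)
  obtain ⟨C₄, hC₄⟩ := unif s'.ts (fun t N => Rep P Λ fun E _ Q m =>
        ∑ k ∈ Finset.Icc 1 (N m), t.κ k * vT P t s (swp F) Q k (p * k / q + 1) m)
    fun t ht => rep_row (hg' t ht) (h4 t.κ (hs'.1.1 t ht).2)
  obtain ⟨C₁, hC₁⟩ := unif s.ts (fun t N => ∀ t' ∈ s'.ts, ∀ R ∈ I.roots.toFinset.toList,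
      Rep P Λ fun E _ Q m => ∑ j ∈ Finset.Icc 1 (N m), (t.κ (p * j) * t'.κ (q * j)) *
        vP P t t' p q (ρ R) (chart p q (ρ R) F) Q j m)
    fun t ht => unif s'.ts (fun t' N => ∀ R ∈ I.roots.toFinset.toList,
      Rep P Λ fun E _ Q m => ∑ j ∈ Finset.Icc 1 (N m), (t.κ (p * j) * t'.κ (q * j)) *
        vP P t t' p q (ρ R) (chart p q (ρ R) F) Q j m)
    fun t' ht' => unif I.roots.toFinset.toList (fun R N => Rep P Λ fun E _ Q m =>
      ∑ j ∈ Finset.Icc 1 (N m), (t.κ (p * j) * t'.κ (q * j)) *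
        vP P t t' p q (ρ R) (chart p q (ρ R) F) Q j m)
    fun R hR => by
      rw [Finset.mem_toList, Multiset.mem_toFinset, Polynomial.mem_roots'] at hR
      refine rep_pull hHS (hg t ht) (hg' t' ht') p q (ρ R) (h2 (ρ R) ?_ ?_ _
        (hSQ.2.2.1 k k' t.κ t'.κ p q hp hq (hs.1.1 t ht).2 (hs'.1.1 t' ht').2))
      · intro h5
        have h6 : R = 0 := by
          rw [← hρ R, h5, zero_pow (by omega)]
        have h7 := hR.2
        rw [h6, Polynomial.IsRoot, ← Polynomial.coeff_zero_eq_eval_zero] at h7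
        exact he.coeff_zero h7
      · rw [hρ R]
        exact hR.2
  set D := C₃ + C₄ + C₁ + 1 with hD
  set M : ℕ → ℕ := fun m => p * q * (D * m) with hM
  set N : ℕ → ℕ := fun m => min (M m / p) (M m / q) with hNdef
  have hDM : ∀ m, D * m ≤ M m := fun m => by
    rw [hM]
    exact Nat.le_mul_of_pos_left _ (Nat.mul_pos hp hq)
  have hDN : ∀ m, D * m ≤ N m := fun m => by
    rw [hNdef]
    refine le_min ?_ ?_
    · rw [Nat.le_div_iff_mul_le hp]
      have : D * m * p ≤ D * m * p * q := Nat.le_mul_of_pos_right _ hq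
      calc D * m * p ≤ D * m * p * q := this
        _ = M m := by
          rw [hM]
          ring
    · rw [Nat.le_div_iff_mul_le hq]
      have : D * m * q ≤ D * m * q * p := Nat.le_mul_of_pos_right _ hp
      calc D * m * q ≤ D * m * q * p := this
        _ = M m := by
          rw [hM]
          ring
  have hcM : ∀ C, C ≤ D → ∀ m, 1 ≤ m → C * m ≤ M m := fun C hC m _ =>
    le_trans (Nat.mul_le_mul_right m hC) (hDM m)
  have hcN : ∀ C, C ≤ D → ∀ m, 1 ≤ m → C * m ≤ N m := fun C hC m _ =>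
    le_trans (Nat.mul_le_mul_right m hC) (hDN m)
  have hR3 := rep_lsum s.ts (hC₃ M (hcM C₃ (by omega)))
  have hR4 := rep_lsum s'.ts (hC₄ M (hcM C₄ (by omega)))
  have hR1 := rep_lsum s.ts fun t ht => rep_lsum s'.ts fun t' ht' =>
    rep_lsum I.roots.toFinset.toList (hC₁ N (hcN C₁ (by omega)) t ht t' ht')
  have hR0 := rep_lsum s.ts fun t ht => rep_lsum s'.ts fun t' ht' =>
    REP.fam (P := P) (Λ := Λ) (famG t t' (edgePart p q aL bR I) fun m =>
      if p * aL + q * (bR + p * I.natDegree) ∣ m then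
      t.κ (p * (m / (p * aL + q * (bR + p * I.natDegree)))) *
        t'.κ (q * (m / (p * aL + q * (bR + p * I.natDegree)))) else 0)
    (famG_good t t' (hg t ht) (hg' t' ht') _ _)
    (hSQ.2.2.2 Λ k k' t.κ t'.κ aL (bR + p * I.natDegree) p q hp hq (hs.1.1 t ht).2
      (hs'.1.1 t' ht').2 hN₀ h1)
  refine REP.congr (REP.add (REP.add hR3 hR4) (REP.add hR0 hR1)) ?_
  intro E _ Q hQ m hm
  beta_reduce
  have hmM : m ≤ M m := le_trans (Nat.le_mul_of_pos_left m (by omega)) (hDM m)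
  have hmN : m ≤ N m := le_trans (Nat.le_mul_of_pos_left m (by omega)) (hDN m)
  have hpM : p * m ≤ M m := by
    calc p * m ≤ p * m * (q * D) := Nat.le_mul_of_pos_right _ (Nat.mul_pos hq (by omega))
      _ = M m := by
        rw [hM]
        ring
  have hqM : q * m ≤ M m := by
    calc q * m ≤ q * m * (p * D) := Nat.le_mul_of_pos_right _ (Nat.mul_pos hp (by omega))
      _ = M m := by
        rw [hM]
        ring
  rw [← hMU P s s' k k' hs.1 hs'.1 F h0 E Q hQ (M m) m hm hmM,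
    mu_dec hRP hST hSW P s s' k k' hs.1 hs'.1 h0 h0' hQ p q (M m) m hp hq hmM hpM hqM,
    diag p q (M m) hp hq he.cop]
  rw [lsum_sum, lsum_sum]
  congr 1
  -- the ray
  have e1 : ∀ j ∈ Finset.Icc 1 (min (M m / p) (M m / q)), (s.ts.map fun t => (s'.ts.map fun t' =>
      t.κ (p * j) * t'.κ (q * j) * x2 P t t' F Q (p * j) (q * j) m).sum).sum =
      (if m = edgeN p q aL bR I * j then (s.ts.map fun t => (s'.ts.map fun t' =>
        (t.κ (p * j) * t'.κ (q * j)) * cc P t t' (edgePart p q aL bR I) Q).sum).sum else 0) +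
      (s.ts.map fun t => (s'.ts.map fun t' => (I.roots.toFinset.toList.map fun R =>
        (t.κ (p * j) * t'.κ (q * j)) *
          vP P t t' p q (ρ R) (chart p q (ρ R) F) Q j m).sum).sum).sum := by
    intro j hj
    have hj1 := (Finset.mem_Icc.1 hj).1
    rw [← lsum_ite, ← lsum_add]
    refine lsum_congr _ fun t ht => ?_
    rw [← lsum_ite, ← lsum_add]
    refine lsum_congr _ fun t' ht' => ?_
    haveI := t.fin
    haveI := t'.fin
    rw [(hRP P t t' F (hg t ht) (hg' t' ht') E Q hQ (p * j) (q * j) m (Nat.mul_pos hp hj1)).1,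
      hRY P t' F p q aL bR I ρ (hg' t' ht') he hρ (E ⊕ t.σ) (tie t Q) (tie_qu t (hg t ht) hQ) j m
        hj1, mul_add, lsum_mul]
    congr 1
    · rw [c2a_tie P t t' (hg t ht) (hg' t' ht') _ hQ]
      split_ifs
      · rfl
      · rw [mul_zero]
    · congr 1
      exact (Finset.sum_map_toList I.roots.toFinset fun R =>
        vP P t t' p q (ρ R) (chart p q (ρ R) F) Q j m).symm
  rw [Finset.sum_congr rfl e1, Finset.sum_add_distrib,
    VRE_.pick (edgeN p q aL bR I) m (min (M m / p) (M m / q)) hN₀ hm hmN]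
  congr 1
  · rw [← lsum_ite]
    refine lsum_congr _ fun t ht => ?_
    rw [← lsum_ite]
    refine lsum_congr _ fun t' ht' => ?_
    rw [fcl_famG P t t' _ _ hQ]
    change _ = (if edgeN p q aL bR I ∣ m then t.κ (p * (m / edgeN p q aL bR I)) *
      t'.κ (q * (m / edgeN p q aL bR I)) else 0) * _
    split_ifs
    · rfl
    · rw [zero_mul]
  · rw [lsum_sum]
    refine lsum_congr _ fun t ht => ?_
    rw [lsum_sum]
    refine lsum_congr _ fun t' ht' => ?_
    rw [lsum_sum]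

/-! ### Two branches in the axes -/

theorem rt_swap {Λ : Set ℚ} {k k' : Kd} {A B p q : ℕ} (h : Rt Λ k k' A B p q) :
    Rt Λ k' k B A q p := by
  rcases h with h | h | h
  · exact Or.inr (Or.inl h)
  · exact Or.inl h
  · refine Or.inr (Or.inr ?_)
    have e : rv k' k B A q p = rv k k' A B p q := by
      unfold rv
      rw [add_comm ((q : ℚ) * k'.r), add_comm (q * B) (p * A)]
    rw [e]
    exact h

/-- facts about resolved regions up to the first cone -/
theorem rvf {Λ : Set ℚ} {k k' : Kd} {G : P2} {p q : ℕ} {o : Option (ℂ × ℕ × ℕ × ℕ × ℕ)}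
    (h : RV Λ k k' G p q o) : ∀ (c : ℂ) (A B p' q' : ℕ), o = some (c, A, B, p', q') →
      c ≠ 0 ∧ q * p' < q' * p := by
  induction h with
  | fin0 => intro c A B p' q' h; cases h
  | fin1 k g h p q A₁ A₂ B hp hB g1 g2 g3 h1 h2 hN =>
    intro c A B' p' q' h
    simp only [Option.some.injEq, Prod.mk.injEq] at h
    obtain ⟨rfl, rfl, rfl, rfl, rfl⟩ := h
    exact ⟨mul_ne_zero (pow_ne_zero _ g1) h1, by omega⟩
  | fin2 k k' G p q A B hp hB h1 h2 h3 hN =>
    intro c A' B' p' q' h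
    simp only [Option.some.injEq, Prod.mk.injEq] at h
    obtain ⟨rfl, rfl, rfl, rfl, rfl⟩ := h
    exact ⟨h1, by omega⟩
  | step k k' G p q p' q' aL bR I hp hpq he h1 hN h2 h3 h4 _ _ =>
    intro c A B' p'' q'' h
    simp only [Option.some.injEq, Prod.mk.injEq] at h
    obtain ⟨rfl, rfl, rfl, rfl, rfl⟩ := h
    refine ⟨?_, hpq⟩
    intro h9
    have h5 := he.deg
    rw [Polynomial.leadingCoeff_eq_zero] at h9
    rw [h9, Polynomial.natDegree_zero] at h5
    omega
  | close => intro c A B p' q' h; cases h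
  | coord k G p q o ψ hψ h ih => exact ih

/-- the cone between the two axes -/
theorem rep_cone (hSQ3 : Stmt_SQ73) (hSQ4 : Stmt_SQ74) (P : HodgeMeasure) (Λ : Set ℚ)
    (hΛ : Λ ⊆ Set.Ioi 0) (k k' : Kd) (s s' : Src) (c : ℂ) (hc : c ≠ 0) (A B p' q' p'' q'' : ℕ)
    (hA : 1 ≤ A) (hB : 1 ≤ B) (hpq : p' < q') (hpq' : q'' < p'') (hs : s.Is P k)
    (hs' : s'.Is P k') (h4 : ClV' Λ k k' p'' q'' A B p' q') (t : Fam) (ht : t ∈ s.ts) (t' : Fam)
    (ht' : t' ∈ s'.ts) :
    Rep P Λ fun E _ Q m => coneW t.κ t'.κ p'' q'' A B p' q' m *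
      cc P t t' (C c * X 0 ^ A * X 1 ^ B) Q := by
  have hg := (hs.1.1 t ht).1
  have hg' := (hs'.1.1 t' ht').1
  have hp'' : 1 ≤ p'' := by omega
  have hq' : 1 ≤ q' := by omega
  have hpq2 : q'' * p' < q' * p'' := by
    calc q'' * p' ≤ p'' * p' := Nat.mul_le_mul_right _ hpq'.le
      _ < p'' * q' := Nat.mul_lt_mul_of_pos_left hpq hp''
      _ = q' * p'' := mul_comm _ _
  rcases h4 with ⟨hN, hN', ⟨r1, r2⟩ | ⟨e0, e1, e2, e3, r1⟩⟩ | ⟨hN, hN', e0, e1, e2, e3, r1⟩
  · refine REP.congr (REP.fam (P := P) (Λ := Λ) (famG t t' (C c * X 0 ^ A * X 1 ^ B)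
      fun m => coneW t.κ t'.κ p'' q'' A B p' q' m) (famG_good t t' hg hg' _ _)
      (hSQ3 Λ k k' t.κ t'.κ p'' q'' A B p' q' hpq2 hN hN' (hs.1.1 t ht).2 (hs'.1.1 t' ht').2
        r1 r2)) ?_
    intro E _ Q hQ m _
    rw [fcl_famG P t t' _ _ hQ]
    rfl
  · subst e0 e1 e2 e3
    have e4 : s' = hsrc := hs'.2.1 rfl
    subst e4
    have e5 : t' = haar 1 := List.mem_singleton.1 ht'
    subst e5
    obtain ⟨a, κ, hκ, hm⟩ := hSQ4 Λ k t.κ p'' q'' A hΛ hp'' (by rw [mul_one] at hN; exact hN)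
      hs.2.2 (hs.1.1 t ht).2 r1
    refine REP.congr (REP.add (REP.haar' (P := P) (Λ := Λ) (a * famV P t))
      (REP.fam (P := P) (Λ := Λ) (famG t (haar 1) (C c * X 0 ^ A * X 1 ^ 1) κ)
        (famG_good t (haar 1) hg hg' _ _) hκ)) ?_
    intro E _ Q hQ m hm1
    beta_reduce
    rw [fcl_famG P t (haar 1) _ _ hQ, SCD.fcl_haar P _ 1]
    have e6 : coneW t.κ (haar 1).κ p'' q'' A 1 0 1 m = a * xq ^ m + κ m := by
      rw [← hm m hm1]
      congr 1
      funext l
      change 1 * xq ^ l = _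
      rw [one_mul]
    rw [e6, add_mul]
    congr 1
    rw [cc_haar P t hg c hc A hQ]
    change a * xq ^ m * _ = a * famV P t * xq ^ m * _
    ring
  · subst e0 e1 e2 e3
    have e4 : s = hsrc := hs.2.1 rfl
    subst e4
    have e5 : t = haar 1 := List.mem_singleton.1 ht
    subst e5
    obtain ⟨a, κ, hκ, hm⟩ := hSQ4 Λ k' t'.κ q' p' B hΛ hq'
      (by
        have : 1 ≤ q' * B := Nat.mul_pos hq' hB
        omega)
      hs'.2.2 (hs'.1.1 t' ht').2 (rt_swap r1)
    refine REP.congr (REP.add (REP.haar' (P := P) (Λ := Λ) (a * famV P t'))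
      (REP.fam (P := P) (Λ := Λ) (famG (haar 1) t' (C c * X 0 ^ 1 * X 1 ^ B) κ)
        (famG_good (haar 1) t' hg hg' _ _) hκ)) ?_
    intro E _ Q hQ m hm1
    beta_reduce
    rw [fcl_famG P (haar 1) t' _ _ hQ, SCD.fcl_haar P _ 1]
    have e6 : coneW (haar 1).κ t'.κ 1 0 1 B p' q' m = a * xq ^ m + κ m := by
      rw [← hm m hm1, coneW_swap]
      congr 1
      funext l
      change 1 * xq ^ l = _
      rw [one_mul]
    rw [e6, add_mul]
    congr 1
    rw [cc_swap P (haar 1) t' hg hg' c 1 B hQ, cc_haar P t' hg' c hc B hQ]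
    change a * xq ^ m * _ = a * famV P t' * xq ^ m * _
    ring

theorem case_two (hCN : Stmt_CN7) (hRP : Stmt_RP7) (hST : Stmt_ST7) (hSW : Stmt_SW7)
    (hMU : Stmt_MU7) (hSQ3 : Stmt_SQ73) (hSQ4 : Stmt_SQ74) (hSB : PC.Stmt_SB)
    (P : HodgeMeasure) (Λ : Set ℚ)
    (hΛ : Λ ⊆ Set.Ioi 0) (k k' : Kd) (F : P2) (s s' : Src) (c : ℂ) (hc : c ≠ 0)
    (A B p' q' p'' q'' : ℕ) (hA : 1 ≤ A) (hB : 1 ≤ B) (hpq : p' < q') (hpq' : q'' < p'')
    (hs : s.Is P k) (hs' : s'.Is P k')
    (h1 : Above 1 1 (A + B) (F - C c * X 0 ^ A * X 1 ^ B))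
    (h2 : ∀ W, EK k W → RE7 P Λ s' F W 1 1 (some (c, A, B, p', q')))
    (h3 : ∀ W, EK k' W → RE7 P Λ s (swp F) W 1 1 (some (c, B, A, q'', p'')))
    (h4 : ClV' Λ k k' p'' q'' A B p' q') :
    Rep P Λ fun E _ Q m => mu P s s' F Q m m := by
  classical
  have hg : ∀ t ∈ s.ts, t.Good := fun t ht => (hs.1.1 t ht).1
  have hg' : ∀ t ∈ s'.ts, t.Good := fun t ht => (hs'.1.1 t ht).1
  have hsupp : ∀ d ∈ F.support, d ≠ mon A B → A + B < d 0 + d 1 := by
    intro d hd hne
    have h : F = (F - C c * X 0 ^ A * X 1 ^ B) + C c * X 0 ^ A * X 1 ^ B := by ring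
    rw [h] at hd
    rcases Finset.mem_union.1 (support_add hd) with h5 | h5
    · have := h1 d h5
      omega
    · exfalso
      rw [VRE_.term_eq] at h5
      exact hne (Finset.mem_singleton.1 (support_monomial_subset h5))
  have hcoef : F.coeff (mon A B) = c := by
    have h : F = (F - C c * X 0 ^ A * X 1 ^ B) + C c * X 0 ^ A * X 1 ^ B := by ring
    rw [h, coeff_add]
    have h5 : (F - C c * X 0 ^ A * X 1 ^ B).coeff (mon A B) = 0 := by
      by_contra h5
      have h6 := h1 _ (mem_support_iff.2 h5)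
      rw [VRE_.mon_zero, VRE_.mon_one, one_mul, one_mul] at h6
      exact lt_irrefl _ h6
    rw [h5, zero_add, VRE_.term_eq, coeff_monomial, if_pos rfl]
  have h0 : F.coeff (mon 0 0) = 0 := by
    by_contra h5
    have h6 := hsupp _ (mem_support_iff.2 h5) (mon_ne (by omega)).symm
    rw [VRE_.mon_zero, VRE_.mon_one] at h6
    omega
  have h0' := swp_zero h0
  obtain ⟨C₂, hC₂⟩ := unif s.ts (fun t N => Rep P Λ fun E _ Q m =>
        ∑ k ∈ Finset.Icc 1 (N m), t.κ k * vT P t s' F Q k (1 * k / 1 + 1) m -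
          (s'.ts.map fun t' => coneW t.κ t'.κ 1 1 A B p' q' m *
            cc P t t' (C c * X 0 ^ A * X 1 ^ B) Q).sum)
    fun t ht => rep_row' (hg t ht) hg' (h2 t.κ (hs.1.1 t ht).2)
  obtain ⟨C₃, hC₃⟩ := unif s'.ts (fun t' N => Rep P Λ fun E _ Q m =>
        ∑ k ∈ Finset.Icc 1 (N m), t'.κ k * vT P t' s (swp F) Q k (1 * k / 1 + 1) m -
          (s.ts.map fun t => coneW t'.κ t.κ 1 1 B A q'' p'' m *
            cc P t' t (C c * X 0 ^ B * X 1 ^ A) Q).sum)
    fun t ht => rep_row' (hg' t ht) hg (h3 t.κ (hs'.1.1 t ht).2)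
  set D := C₂ + C₃ + 1 with hD
  have hcM : ∀ C, C ≤ D → ∀ m, 1 ≤ m → C * m ≤ D * m := fun C hC m _ => Nat.mul_le_mul_right m hC
  have hR2 := rep_lsum s.ts (hC₂ (fun m => D * m) (hcM C₂ (by omega)))
  have hR3 := rep_lsum s'.ts (hC₃ (fun m => D * m) (hcM C₃ (by omega)))
  have hR4 := rep_lsum s.ts fun t ht => rep_lsum s'.ts fun t' ht' =>
    rep_cone hSQ3 hSQ4 P Λ hΛ k k' s s' c hc A B p' q' p'' q'' hA hB hpq hpq' hs hs' h4 t ht t' ht'
  refine REP.congr (REP.add (REP.add hR2 hR3) hR4) ?_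
  intro E _ Q hQ m hm
  beta_reduce
  have hmM : m ≤ D * m := Nat.le_mul_of_pos_left m (by omega)
  rw [← hMU P s s' k k' hs.1 hs'.1 F h0 E Q hQ (D * m) m hm hmM,
    mu_dec hRP hST hSW P s s' k k' hs.1 hs'.1 h0 h0' hQ 1 1 (D * m) m le_rfl le_rfl hmM
      (by rw [one_mul]; exact hmM) (by rw [one_mul]; exact hmM),
    diag 1 1 (D * m) le_rfl le_rfl (Nat.coprime_one_left 1)]
  have e1 : ∀ j ∈ Finset.Icc 1 (min (D * m / 1) (D * m / 1)),
      (s.ts.map fun t => (s'.ts.map fun t' =>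
      t.κ (1 * j) * t'.κ (1 * j) * x2 P t t' F Q (1 * j) (1 * j) m).sum).sum =
      (s.ts.map fun t => (s'.ts.map fun t' =>
        (if m = A * j + B * j then t.κ j * t'.κ j else 0) *
          cc P t t' (C c * X 0 ^ A * X 1 ^ B) Q).sum).sum := by
    intro j hj
    have hj1 := (Finset.mem_Icc.1 hj).1
    refine lsum_congr _ fun t ht => lsum_congr _ fun t' ht' => ?_
    haveI := t.fin
    rw [one_mul, (hRP P t t' F (hg t ht) (hg' t' ht') E Q hQ j j m hj1).1,
      hCN P t' F A B j j (hg' t' ht') hj1 (by rw [hcoef]; exact hc) (fun d hd hne => by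
        have := hsupp d hd hne
        rw [← add_mul, ← add_mul]
        exact Nat.mul_lt_mul_of_pos_right this hj1) (E ⊕ t.σ) (tie t Q)
          (tie_qu t (hg t ht) hQ) m, hcoef, c2a_tie P t t' (hg t ht) (hg' t' ht') _ hQ]
    split_ifs <;> ring
  have e2 : (s.ts.map fun t => (s'.ts.map fun t' => coneW t.κ t'.κ p'' q'' A B p' q' m *
      cc P t t' (C c * X 0 ^ A * X 1 ^ B) Q).sum).sum =
      (s.ts.map fun t => (s'.ts.map fun t' => coneW t.κ t'.κ 1 1 A B p' q' m *
        cc P t t' (C c * X 0 ^ A * X 1 ^ B) Q).sum).sum +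
      (s.ts.map fun t => (s'.ts.map fun t' => (∑ j ∈ Finset.Icc 1 m,
        if m = A * j + B * j then t.κ j * t'.κ j else 0) *
          cc P t t' (C c * X 0 ^ A * X 1 ^ B) Q).sum).sum +
      (s'.ts.map fun t' => (s.ts.map fun t => coneW t'.κ t.κ 1 1 B A q'' p'' m *
        cc P t' t (C c * X 0 ^ B * X 1 ^ A) Q).sum).sum := by
    rw [lsum_comm s'.ts s.ts, ← lsum_add, ← lsum_add]
    refine lsum_congr _ fun t ht => ?_
    rw [← lsum_add, ← lsum_add]
    refine lsum_congr _ fun t' ht' => ?_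
    rw [coneW_split hSB t.κ t'.κ A B p' q' p'' q'' m hpq hpq' hA hB,
      cc_swap P t' t (hg' t' ht') (hg t ht) c B A hQ]
    ring
  have e3 : ∑ j ∈ Finset.Icc 1 (min (D * m / 1) (D * m / 1)),
      (s.ts.map fun t => (s'.ts.map fun t' =>
        (if m = A * j + B * j then t.κ j * t'.κ j else 0) *
          cc P t t' (C c * X 0 ^ A * X 1 ^ B) Q).sum).sum =
      (s.ts.map fun t => (s'.ts.map fun t' => (∑ j ∈ Finset.Icc 1 m,
        if m = A * j + B * j then t.κ j * t'.κ j else 0) *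
          cc P t t' (C c * X 0 ^ A * X 1 ^ B) Q).sum).sum := by
    rw [lsum_sum]
    refine lsum_congr _ fun t ht => ?_
    rw [lsum_sum]
    refine lsum_congr _ fun t' ht' => ?_
    rw [← Finset.sum_mul]
    congr 1
    symm
    rw [Nat.div_one, min_self]
    refine Finset.sum_subset (Finset.Icc_subset_Icc_right hmM) ?_
    intro j hj hj'
    rw [Finset.mem_Icc] at hj hj'
    rw [if_neg]
    intro h5
    have h6 : j ≤ A * j := Nat.le_mul_of_pos_left j hA
    omega
  rw [Finset.sum_congr rfl e1, e3, e2, lsum_sum, lsum_sum]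
  have e4 : (s.ts.map fun t => ∑ k ∈ Finset.Icc 1 (D * m), t.κ k *
      vT P t s' F Q k (1 * k / 1 + 1) m - (s'.ts.map fun t' => coneW t.κ t'.κ 1 1 A B p' q' m *
            cc P t t' (C c * X 0 ^ A * X 1 ^ B) Q).sum).sum =
      (s.ts.map fun t => ∑ k ∈ Finset.Icc 1 (D * m), t.κ k *
        vT P t s' F Q k (1 * k / 1 + 1) m).sum -
      (s.ts.map fun t => (s'.ts.map fun t' => coneW t.κ t'.κ 1 1 A B p' q' m *
            cc P t t' (C c * X 0 ^ A * X 1 ^ B) Q).sum).sum := by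
    rw [eq_sub_iff_add_eq, ← lsum_add]
    refine lsum_congr _ fun t _ => ?_
    ring
  have e5 : (s'.ts.map fun t' => ∑ k ∈ Finset.Icc 1 (D * m), t'.κ k *
      vT P t' s (swp F) Q k (1 * k / 1 + 1) m - (s.ts.map fun t => coneW t'.κ t.κ 1 1 B A q'' p'' m *
            cc P t' t (C c * X 0 ^ B * X 1 ^ A) Q).sum).sum =
      (s'.ts.map fun t' => ∑ k ∈ Finset.Icc 1 (D * m), t'.κ k *
        vT P t' s (swp F) Q k (1 * k / 1 + 1) m).sum -
      (s'.ts.map fun t' => (s.ts.map fun t => coneW t'.κ t.κ 1 1 B A q'' p'' m *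
            cc P t' t (C c * X 0 ^ B * X 1 ^ A) Q).sum).sum := by
    rw [eq_sub_iff_add_eq, ← lsum_add]
    refine lsum_congr _ fun t _ => ?_
    ring
  rw [e4, e5]
  ring

/-! ### Axes -/

theorem vT_one (hRP : Stmt_RP7) (hST : Stmt_ST7) {E : Type} [Finite E] (P : HodgeMeasure) (t : Fam)
    (ht : t.Good) (s' : Src) (k₁ : Kd) (hs' : s'.Ok P k₁) (G : P2) {Q : Set (E ⊕ Unit → ℂ)}
    (hQ : QU Q) (k m : ℕ) (hk : 1 ≤ k) :
    vT P t s' G Q k 1 m = ∑ l ∈ Finset.Icc 1 m,
      (s'.ts.map fun t' => t'.κ l * x2 P t t' G Q k l m).sum + s'.b m * y1 P t G Q k m := by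
  rw [vT_eq hRP hST P t ht s' k₁ hs' G hQ k 1 m m hk le_rfl le_rfl (by omega)]
  rfl

/-- all pairs of arcs, by rows -/
theorem mu_row (hRP : Stmt_RP7) (hST : Stmt_ST7) {E : Type} [Finite E] (P : HodgeMeasure)
    (s s' : Src) (k₀ k₁ : Kd) (hs : s.Ok P k₀) (hs' : s'.Ok P k₁) (F : P2)
    {Q : Set (E ⊕ Unit → ℂ)} (hQ : QU Q) (M m : ℕ) (hM : m ≤ M) :
    mu P s s' F Q M m =
      ∑ k ∈ Finset.Icc 1 M, (s.ts.map fun t => t.κ k * vT P t s' F Q k 1 m).sum +
      ∑ l ∈ Finset.Icc 1 M, (s'.ts.map fun t' => s.b M * t'.κ l * y1 P t' (swp F) Q l m).sum := by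
  unfold mu
  congr 1
  rw [← Finset.sum_add_distrib]
  refine Finset.sum_congr rfl fun k hk => ?_
  have hk1 := (Finset.mem_Icc.1 hk).1
  have e1 : ∀ t ∈ s.ts, t.κ k * vT P t s' F Q k 1 m = ∑ l ∈ Finset.Icc 1 M,
      (s'.ts.map fun t' => t.κ k * t'.κ l * x2 P t t' F Q k l m).sum +
        t.κ k * s'.b M * y1 P t F Q k m := by
    intro t ht
    rw [vT_eq hRP hST P t (hs.1 t ht).1 s' k₁ hs' F hQ k 1 M m hk1 le_rfl hM (by omega), mul_add,
      Finset.mul_sum]
    congr 1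
    · refine Finset.sum_congr rfl fun l _ => ?_
      rw [← lsum_mul]
      refine lsum_congr _ fun t' _ => ?_
      ring
    · ring
  rw [lsum_congr _ e1, lsum_add, lsum_sum]

theorem case_axis (hCN : Stmt_CN7) (hZR : Stmt_ZR7) (hRP : Stmt_RP7) (P : HodgeMeasure)
    (Λ : Set ℚ) (k k' : Kd) (F : P2) (s s' : Src) (B : ℕ) (hB : 1 ≤ B) (hs : s.Is P k)
    (hs' : s'.Is P k') (h1 : F.coeff (mon 0 B) ≠ 0) (h2 : ∀ d ∈ F.support, B ≤ d 1)
    (h3 : Rt Λ k k' 0 B 0 1) : Rep P Λ fun E _ Q m => mu P s s' F Q m m := by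
  classical
  obtain ⟨q1, q2, q3, q4, q5, q6, q7⟩ := stmt_Q1
  have hg : ∀ t ∈ s.ts, t.Good := fun t ht => (hs.1.1 t ht).1
  have hg' : ∀ t ∈ s'.ts, t.Good := fun t ht => (hs'.1.1 t ht).1
  set c := F.coeff (mon 0 B) with hc
  have hR := REP.smul (s.b 0) (rep_lsum s'.ts fun t' ht' => REP.fam (P := P) (Λ := Λ)
    (famD t' c B fun m => if B ∣ m then t'.κ (m / B) else 0) (famD_good t' (hg' t' ht') c h1 B _)
    (by
      refine q1 _ _ _ ?_ (q7 _ t'.κ B hB (hs'.1.1 t' ht').2).1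
      rintro r ⟨hr1, hr2⟩
      rcases h3 with h4 | h4 | h4
      · omega
      · rw [hr1] at h4
        exact absurd h4.1 (by simp)
      · have e : rv k k' 0 B 0 1 = r := by
          unfold rv
          rw [← hr2]
          have : (B : ℚ) ≠ 0 := by
            have : B ≠ 0 := by omega
            exact_mod_cast this
          push_cast
          field_simp
          ring
        rw [e] at h4
        exact h4))
  refine REP.congr hR ?_
  intro E _ Q hQ m hm
  beta_reduce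
  have hd : ∀ d ∈ F.support, d ≠ mon 0 B → ∀ k l : ℕ, 1 ≤ k → 1 ≤ l →
      0 * k + B * l < d 0 * k + d 1 * l := by
    intro d hd hne k l hk hl
    have h4 := h2 d hd
    rcases Nat.eq_or_lt_of_le h4 with h5 | h5
    · have h6 : 1 ≤ d 0 := by
        by_contra h7
        apply hne
        ext i
        fin_cases i
        · change d 0 = mon 0 B 0
          rw [VRE_.mon_zero]
          omega
        · change d 1 = mon 0 B 1
          rw [VRE_.mon_one]
          exact h5.symm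
      rw [← h5]
      have h7 : 1 ≤ d 0 * k := Nat.mul_pos h6 hk
      omega
    · have h6 : B * l < d 1 * l := Nat.mul_lt_mul_of_pos_right h5 hl
      omega
  have e1 : ∀ k ∈ Finset.Icc 1 m, ∀ l ∈ Finset.Icc 1 m, ∀ t ∈ s.ts, ∀ t' ∈ s'.ts,
      x2 P t t' F Q k l m = if m = B * l then famV P t * d1 P t' c B Q else 0 := by
    intro k hk l hl t ht t' ht'
    haveI := t.fin
    have hk1 := (Finset.mem_Icc.1 hk).1
    have hl1 := (Finset.mem_Icc.1 hl).1
    rw [(hRP P t t' F (hg t ht) (hg' t' ht') E Q hQ k l m hk1).1,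
      hCN P t' F 0 B k l (hg' t' ht') hk1 h1 (fun d h4 h5 => hd d h4 h5 k l hk1 hl1) (E ⊕ t.σ)
        (tie t Q) (tie_qu t (hg t ht) hQ) m, zero_mul, zero_add,
      c2a_tie P t t' (hg t ht) (hg' t' ht') _ hQ, cc_zero P t t' (hg t ht) (hg' t' ht') _ B hQ]
  have e2 : ∀ k ∈ Finset.Icc 1 m, ∀ t ∈ s.ts, y1 P t F Q k m = 0 := by
    intro k hk t ht
    haveI := t.fin
    have hk1 := (Finset.mem_Icc.1 hk).1
    rw [(hRP P t t F (hg t ht) (hg t ht) E Q hQ k 0 m hk1).2]
    exact (hZR P F k hk1 (E ⊕ t.σ) (tie t Q) (tie_qu t (hg t ht) hQ) m).1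
      fun d hd => le_trans hB (h2 d hd)
  have hsw : (swp F).coeff (mon B 0) = c := by rw [TT.coeff_swp]
  have e3 : ∀ l ∈ Finset.Icc 1 m, ∀ t' ∈ s'.ts, y1 P t' (swp F) Q l m =
      if m = B * l then d1 P t' c B Q else 0 := by
    intro l hl t' ht'
    haveI := t'.fin
    have hl1 := (Finset.mem_Icc.1 hl).1
    rw [(hRP P t' t' (swp F) (hg' t' ht') (hg' t' ht') E Q hQ l 0 m hl1).2,
      (hZR P (swp F) l hl1 (E ⊕ t'.σ) (tie t' Q) (tie_qu t' (hg' t' ht') hQ) m).2 B
        (by rw [hsw]; exact h1) (fun d hd _ => by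
          have := h2 _ (TT.mem_support_swp.1 hd)
          rw [VRE_.mon_one] at this
          exact this), hsw, c1a_tie P t' (hg' t' ht') _ _ hQ]
  have hmass : ∑ k ∈ Finset.Icc 1 m, (s.ts.map fun t => t.κ k * famV P t).sum + s.b m = s.b 0 := by
    rw [add_comm]
    exact hs.1.2.2 m
  unfold mu
  have f1 : ∑ k ∈ Finset.Icc 1 m, ∑ l ∈ Finset.Icc 1 m, (s.ts.map fun t => (s'.ts.map fun t' =>
      t.κ k * t'.κ l * x2 P t t' F Q k l m).sum).sum =
      (∑ k ∈ Finset.Icc 1 m, (s.ts.map fun t => t.κ k * famV P t).sum) *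
        ∑ l ∈ Finset.Icc 1 m, (s'.ts.map fun t' => t'.κ l *
          (if m = B * l then d1 P t' c B Q else 0)).sum := by
    rw [Finset.sum_mul_sum]
    refine Finset.sum_congr rfl fun k hk => Finset.sum_congr rfl fun l hl => ?_
    rw [mul_comm, ← lsum_mul]
    refine lsum_congr _ fun t ht => ?_
    rw [mul_comm, ← lsum_mul]
    refine lsum_congr _ fun t' ht' => ?_
    rw [e1 k hk l hl t ht t' ht']
    split_ifs <;> ring
  have f2 : ∑ k ∈ Finset.Icc 1 m, (s.ts.map fun t => t.κ k * s'.b m * y1 P t F Q k m).sum = 0 := by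
    refine Finset.sum_eq_zero fun k hk => lsum_zero _ fun t ht => ?_
    rw [e2 k hk t ht, mul_zero]
  have f3 : ∑ l ∈ Finset.Icc 1 m, (s'.ts.map fun t' => s.b m * t'.κ l *
      y1 P t' (swp F) Q l m).sum = s.b m * ∑ l ∈ Finset.Icc 1 m, (s'.ts.map fun t' => t'.κ l *
          (if m = B * l then d1 P t' c B Q else 0)).sum := by
    rw [Finset.mul_sum]
    refine Finset.sum_congr rfl fun l hl => ?_
    rw [← lsum_mul]
    refine lsum_congr _ fun t' ht' => ?_
    rw [e3 l hl t' ht']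
    ring
  have f4 : ∑ l ∈ Finset.Icc 1 m, (s'.ts.map fun t' => t'.κ l *
      (if m = B * l then d1 P t' c B Q else 0)).sum =
      (s'.ts.map fun t' => (famD t' c B fun m => if B ∣ m then t'.κ (m / B) else 0).κ m *
        fcl P (famD t' c B fun m => if B ∣ m then t'.κ (m / B) else 0) Q).sum := by
    rw [lsum_sum]
    refine lsum_congr _ fun t' ht' => ?_
    have e4 : ∀ l ∈ Finset.Icc 1 m, t'.κ l * (if m = B * l then d1 P t' c B Q else 0) =
        if m = B * l then t'.κ l * d1 P t' c B Q else 0 := by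
      intro l _
      split_ifs <;> ring
    rw [Finset.sum_congr rfl e4, VRE_.pick B m m hB hm le_rfl, fcl_famD]
    change _ = (if B ∣ m then t'.κ (m / B) else 0) * _
    split_ifs <;> ring
  rw [f1, f2, f3, add_zero, ← add_mul, hmass, f4]

/-! ### One branch, free axis -/

theorem res_coeff (F : P2) (n : ℕ) :
    (aeval ![(0 : Polynomial ℂ), Polynomial.X] F).coeff n = F.coeff (mon 0 n) := by
  induction F using MvPolynomial.induction_on' with
  | monomial d a =>
    rw [aeval_monomial, Finsupp.prod_fintype _ _ (fun _ => pow_zero _), Fin.prod_univ_two,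
      coeff_monomial]
    have e1 : (algebraMap ℂ (Polynomial ℂ) a * ((![(0 : Polynomial ℂ), Polynomial.X] 0) ^ d 0 *
        (![(0 : Polynomial ℂ), Polynomial.X] 1) ^ d 1)) =
        Polynomial.C a * ((0 : Polynomial ℂ) ^ d 0 * Polynomial.X ^ d 1) := rfl
    rw [e1]
    by_cases h : d 0 = 0
    · rw [h, pow_zero, one_mul, Polynomial.coeff_C_mul, Polynomial.coeff_X_pow]
      by_cases h2 : n = d 1
      · rw [if_pos h2, if_pos, mul_one]
        ext i
        fin_cases i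
        · change d 0 = mon 0 n 0
          rw [VRE_.mon_zero, h]
        · change d 1 = mon 0 n 1
          rw [VRE_.mon_one, h2]
      · rw [if_neg h2, if_neg, mul_zero]
        intro h3
        apply h2
        rw [h3, VRE_.mon_one]
    · rw [zero_pow h, zero_mul, mul_zero, Polynomial.coeff_zero, if_neg]
      intro h3
      apply h
      rw [h3, VRE_.mon_zero]
  | add p q hp hq =>
    rw [map_add, Polynomial.coeff_add, hp, hq, coeff_add]

theorem one_coeff {g h : P2} {B : ℕ} (g0 : g.coeff (mon 0 0) = 0) :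
    (g ^ B * h).coeff (mon 0 B) = g.coeff (mon 0 1) ^ B * h.coeff (mon 0 0) ∧
      ∀ n, n < B → (g ^ B * h).coeff (mon 0 n) = 0 := by
  obtain ⟨g₁, hg₁⟩ : Polynomial.X ∣ aeval ![(0 : Polynomial ℂ), Polynomial.X] g := by
    rw [Polynomial.X_dvd_iff, res_coeff]
    exact g0
  have h1 : g₁.coeff 0 = g.coeff (mon 0 1) := by
    rw [← res_coeff, hg₁, Polynomial.coeff_X_mul]
  have h2 : aeval ![(0 : Polynomial ℂ), Polynomial.X] (g ^ B * h) =
      (g₁ ^ B * aeval ![(0 : Polynomial ℂ), Polynomial.X] h) * Polynomial.X ^ B := by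
    rw [map_mul, map_pow, hg₁]
    ring
  constructor
  · rw [← res_coeff, h2, Polynomial.coeff_mul_X_pow', if_pos le_rfl, Nat.sub_self,
      Polynomial.mul_coeff_zero, res_coeff, Polynomial.coeff_zero_eq_eval_zero,
      Polynomial.eval_pow, ← Polynomial.coeff_zero_eq_eval_zero, h1]
  · intro n hn
    rw [← res_coeff, h2, Polynomial.coeff_mul_X_pow', if_neg (by omega)]

theorem case_one (hZR : Stmt_ZR7) (hVF : Stmt_VF7) (hHS : Stmt_HS7) (hRP : Stmt_RP7)
    (hST : Stmt_ST7) (P : HodgeMeasure)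
    (Λ : Set ℚ) (k : Kd) (g h : P2) (s s' : Src) (B : ℕ) (hB : 1 ≤ B) (hs : s.Is P k)
    (hs' : s'.Is P none) (g0 : g.coeff (mon 0 0) = 0) (g1 : g.coeff (mon 0 1) ≠ 0)
    (h1 : h.coeff (mon 0 0) ≠ 0) (h2 : B = 1 ∨ ((1 : ℚ) / (B : ℚ)) ∈ Λ) :
    Rep P Λ fun E _ Q m => mu P s s' (g ^ B * h) Q m m := by
  classical
  have e0 : s' = hsrc := hs'.2.1 rfl
  subst e0
  obtain ⟨q1, q2, q3, q4, q5, q6, q7⟩ := stmt_Q1
  have hg : ∀ t ∈ s.ts, t.Good := fun t ht => (hs.1.1 t ht).1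
  have hh : (haar 1).Good := (hs'.1.1 (haar 1) (List.mem_singleton.2 rfl)).1
  set c := g.coeff (mon 0 1) ^ B * h.coeff (mon 0 0) with hc
  have hc0 : c ≠ 0 := mul_ne_zero (pow_ne_zero _ g1) h1
  obtain ⟨hco, hlow⟩ := one_coeff (h := h) (B := B) g0
  -- the representation
  have hR : Rep P Λ fun E _ Q m => s.b 0 * ((if B ∣ m then xq ^ (m / B) else 0) *
      d1 P (haar 1) c B Q) := by
    rcases h2 with h2 | h2
    · subst h2
      have hK : ∀ (E : Type) [Finite E] (Q : Set (E ⊕ Unit → ℂ)), QU Q →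
          d1 P (haar 1) c 1 Q = fcl P (haar 1) Q := by
        intro E _ Q hQ
        have hz : Fam.Good ⟨Empty, inferInstance, Set.univ, 0, fun _ => 0⟩ → True := fun _ => trivial
        have h3 := cc_haar P ⟨Unit, inferInstance, {τ | τ = fun _ => 1}, 1, fun _ => 0⟩
          ⟨Constructible.point _, fun τ _ => by rw [map_one]; exact one_ne_zero⟩ c hc0 0 hQ
        have h4 := cc_zero P ⟨Unit, inferInstance, {τ | τ = fun _ => 1}, 1, fun _ => 0⟩ (haar 1)
          ⟨Constructible.point _, fun τ _ => by rw [map_one]; exact one_ne_zero⟩ hh c 1 hQ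
        rw [h3] at h4
        have h5 : famV P ⟨Unit, inferInstance, {τ | τ = fun _ => 1}, 1, fun _ => 0⟩ = 1 :=
          P.rat.val_point _
        rw [h5, one_mul, one_mul] at h4
        exact h4.symm
      refine REP.congr (REP.haar' (P := P) (Λ := Λ) (s.b 0)) ?_
      intro E _ Q hQ m _
      beta_reduce
      rw [hK E Q hQ, SCD.fcl_haar P (s.b 0) 1, if_pos (one_dvd m), Nat.div_one]
      change _ = s.b 0 * xq ^ m * _
      ring
    · refine REP.congr (REP.smul (s.b 0) (REP.fam (P := P) (Λ := Λ)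
        (famD (haar 1) c B fun m => if B ∣ m then xq ^ (1 * (m / B)) else 0)
        (famD_good (haar 1) hh c hc0 B _) (q5 Λ B 1 hB (by exact_mod_cast h2)))) ?_
      intro E _ Q hQ m _
      beta_reduce
      rw [fcl_famD]
      change _ = s.b 0 * ((if B ∣ m then xq ^ (1 * (m / B)) else 0) * _)
      rw [one_mul]
  refine REP.congr hR ?_
  intro E _ Q hQ m hm
  beta_reduce
  set F := g ^ B * h with hF
  set δ := d1 P (haar 1) c B Q with hδ
  have e1 : ∀ k ∈ Finset.Icc 1 m, ∀ t ∈ s.ts, vT P t hsrc F Q k 1 m =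
      famV P t * ((if B ∣ m then xq ^ (m / B) else 0) * δ) := by
    intro k hk t ht
    haveI := t.fin
    have hk1 := (Finset.mem_Icc.1 hk).1
    have a1 : vT P t hsrc F Q k 1 m = RatFunc.X * vN7 P F (tie t Q) k (0 * k / 1 + 1) m := by
      rw [zero_mul, Nat.zero_div, zero_add]
      exact hHS P F (E ⊕ t.σ) (tie t Q) (tie_qu t (hg t ht) hQ) k 1 m hk1 le_rfl
    rw [a1, hF, hVF P g h 1 0 0 0 B le_rfl hB g1 (fun d _ => by omega) (fun d hd h5 => by
      by_contra h6
      have h7 : d = mon 0 0 := by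
        ext i
        fin_cases i
        · change d 0 = mon 0 0 0
          rw [VRE_.mon_zero]
          omega
        · change d 1 = mon 0 0 1
          rw [VRE_.mon_one]
          exact h5
      rw [h7, mem_support_iff] at hd
      exact hd g0) h1 (fun d _ => by omega) (E ⊕ t.σ) (tie t Q) (tie_qu t (hg t ht) hQ) k m hk1]
    have a2 : Finset.Ioc (0 * k / 1) (0 * k / 1 + m) = Finset.Icc 1 m := by
      rw [zero_mul, Nat.zero_div, zero_add]
      rfl
    rw [a2, Finset.mul_sum]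
    have a3 : ∀ l ∈ Finset.Icc 1 m, (RatFunc.X * if m = (B * 0 + 0) * k + B * l then
        xq ^ (l + 1) * c2a P (haar 1) (C (g.coeff (mon 0 1) ^ B * h.coeff (mon 0 0)) *
          X 0 ^ (B * 0 + 0) * X 1 ^ B) (tie t Q) else 0 : K) =
        if m = B * l then xq ^ l * (famV P t * δ) else 0 := by
      intro l _
      rw [mul_zero, add_zero, zero_mul, zero_add, c2a_tie P t (haar 1) (hg t ht) hh _ hQ,
        cc_zero P t (haar 1) (hg t ht) hh _ B hQ]
      split_ifs
      · have a4 : (RatFunc.X : K) * xq ^ (l + 1) = xq ^ l := by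
          rw [pow_succ, mul_comm, mul_assoc]
          have : (xq : K) * RatFunc.X = 1 := inv_mul_cancel₀ RatFunc.X_ne_zero
          rw [this, mul_one]
        rw [← mul_assoc, a4]
      · rw [mul_zero]
    rw [Finset.sum_congr rfl a3, VRE_.pick B m m hB hm le_rfl]
    split_ifs <;> ring
  have hsw : (swp F).coeff (mon B 0) = c := by
    rw [TT.coeff_swp, hF, hco]
  have e3 : ∀ l ∈ Finset.Icc 1 m, y1 P (haar 1) (swp F) Q l m = if m = B * l then δ else 0 := by
    intro l hl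
    haveI := (haar 1).fin
    have hl1 := (Finset.mem_Icc.1 hl).1
    rw [(hRP P (haar 1) (haar 1) (swp F) hh hh E Q hQ l 0 m hl1).2,
      (hZR P (swp F) l hl1 (E ⊕ (haar 1).σ) (tie (haar 1) Q) (tie_qu (haar 1) hh hQ) m).2 B
        (by rw [hsw]; exact hc0) (fun d hd h5 => by
          by_contra h6
          have h7 := TT.mem_support_swp.1 hd
          rw [h5, mem_support_iff] at h7
          exact h7 (hlow (d 0) (by omega))), hsw, c1a_tie P (haar 1) hh _ _ hQ]
  have hmass : ∑ k ∈ Finset.Icc 1 m, (s.ts.map fun t => t.κ k * famV P t).sum + s.b m = s.b 0 := by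
    rw [add_comm]
    exact hs.1.2.2 m
  rw [mu_row hRP hST P s hsrc k none hs.1 hs'.1 F hQ m m le_rfl]
  have f1 : ∑ k ∈ Finset.Icc 1 m, (s.ts.map fun t => t.κ k * vT P t hsrc F Q k 1 m).sum =
      (∑ k ∈ Finset.Icc 1 m, (s.ts.map fun t => t.κ k * famV P t).sum) *
        ((if B ∣ m then xq ^ (m / B) else 0) * δ) := by
    rw [Finset.sum_mul]
    refine Finset.sum_congr rfl fun k hk => ?_
    rw [mul_comm, ← lsum_mul]
    refine lsum_congr _ fun t ht => ?_
    rw [e1 k hk t ht]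
    ring
  have f3 : ∑ l ∈ Finset.Icc 1 m, (hsrc.ts.map fun t' => s.b m * t'.κ l *
      y1 P t' (swp F) Q l m).sum = s.b m * ((if B ∣ m then xq ^ (m / B) else 0) * δ) := by
    have a5 : ∀ l ∈ Finset.Icc 1 m, (hsrc.ts.map fun t' => s.b m * t'.κ l *
        y1 P t' (swp F) Q l m).sum = if m = B * l then s.b m * (xq ^ l * δ) else 0 := by
      intro l hl
      have a6 : (hsrc.ts.map fun t' => s.b m * t'.κ l * y1 P t' (swp F) Q l m).sum =
          s.b m * (1 * xq ^ l) * y1 P (haar 1) (swp F) Q l m := by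
        change s.b m * (1 * xq ^ l) * y1 P (haar 1) (swp F) Q l m + 0 = _
        rw [add_zero]
      rw [a6, e3 l hl]
      split_ifs <;> ring
    rw [Finset.sum_congr rfl a5, VRE_.pick B m m hB hm le_rfl]
    split_ifs <;> ring
  rw [f1, f3, ← add_mul, hmass]

/-! ### A factor `s` -/

theorem case_ray (hZR : Stmt_ZR7) (hRP : Stmt_RP7) (hST : Stmt_ST7) (hMU : Stmt_MU7)
    (P : HodgeMeasure) (Λ : Set ℚ) (k : Kd) (F : P2) (s s' : Src)
    (hs : s.Is P k) (hs' : s'.Is P none) (h1 : ∀ d ∈ F.support, 1 ≤ d 0)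
    (h2 : ∀ W, EK k W → RE7 P Λ s' F W 1 0 none) : Rep P Λ fun E _ Q m => mu P s s' F Q m m := by
  have hg : ∀ t ∈ s.ts, t.Good := fun t ht => (hs.1.1 t ht).1
  have hg' : ∀ t ∈ s'.ts, t.Good := fun t ht => (hs'.1.1 t ht).1
  have h0 : F.coeff (mon 0 0) = 0 := by
    by_contra h5
    have h6 := h1 _ (mem_support_iff.2 h5)
    rw [VRE_.mon_zero] at h6
    omega
  obtain ⟨C₃, hC₃⟩ := unif s.ts (fun t N => Rep P Λ fun E _ Q m =>
        ∑ k ∈ Finset.Icc 1 (N m), t.κ k * vT P t s' F Q k (0 * k / 1 + 1) m)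
    fun t ht => rep_row (hg t ht) (h2 t.κ (hs.1.1 t ht).2)
  have hR3 := rep_lsum s.ts (hC₃ (fun m => (C₃ + 1) * m) fun m _ =>
    Nat.mul_le_mul_right m (by omega))
  refine REP.congr hR3 ?_
  intro E _ Q hQ m hm
  beta_reduce
  have hmM : m ≤ (C₃ + 1) * m := Nat.le_mul_of_pos_left m (by omega)
  rw [← hMU P s s' k none hs.1 hs'.1 F h0 E Q hQ ((C₃ + 1) * m) m hm hmM,
    mu_row hRP hST P s s' k none hs.1 hs'.1 F hQ _ m hmM]
  have f3 : ∑ l ∈ Finset.Icc 1 ((C₃ + 1) * m), (s'.ts.map fun t' => s.b ((C₃ + 1) * m) * t'.κ l *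
      y1 P t' (swp F) Q l m).sum = 0 := by
    refine Finset.sum_eq_zero fun l hl => lsum_zero _ fun t' ht' => ?_
    haveI := t'.fin
    have hl1 := (Finset.mem_Icc.1 hl).1
    rw [(hRP P t' t' (swp F) (hg' t' ht') (hg' t' ht') E Q hQ l 0 m hl1).2,
      (hZR P (swp F) l hl1 (E ⊕ t'.σ) (tie t' Q) (tie_qu t' (hg' t' ht') hQ) m).1
        (fun d hd => by
          have := h1 _ (TT.mem_support_swp.1 hd)
          rw [VRE_.mon_zero] at this
          exact this), mul_zero]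
  rw [f3, add_zero, lsum_sum]
  refine lsum_congr _ fun t _ => Finset.sum_congr rfl fun k _ => ?_
  rw [zero_mul, Nat.zero_div, zero_add]

/-! ### The free source -/

theorem famV_haar (P : HodgeMeasure) : famV P (haar 1) = RatFunc.X - 1 := by
  have h : famV P (haar 1) = P.rat.val {τ : Unit → ℂ | τ () ≠ 0} := rfl
  rw [h, TorX.val_star, P.rat_L]

theorem haar1_good : (haar 1).Good := by
  refine ⟨?_, ?_⟩
  · have := Constructible.ne (X () : MvPolynomial Unit ℂ)
    simp only [eval_X] at this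
    exact this
  · intro (τ : Unit → ℂ) (hτ : τ () ≠ 0)
    have : eval τ (X () : MvPolynomial Unit ℂ) ≠ 0 := by
      rw [eval_X]
      exact hτ
    exact this

theorem hsrc_is (P : HodgeMeasure) : hsrc.Is P none := by
  have h1 : EK none fun m => xq ^ m := by
    have h2 := stmt_Q1.2.2.2.2.1 {r : ℚ | Kd.fs none = false ∧ r = Kd.r none} 1 1 le_rfl
      ⟨rfl, by simp [Kd.r]⟩
    have h3 : ESeq {r : ℚ | Kd.fs none = false ∧ r = Kd.r none} fun m => xq ^ m := by
      simpa using h2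
    exact h3
  refine ⟨⟨?_, h1, ?_⟩, fun _ => rfl, by norm_num [Kd.r]⟩
  · intro t ht
    have ht' : t = haar 1 := List.mem_singleton.1 ht
    subst ht'
    refine ⟨haar1_good, ?_⟩
    have h3 : (haar 1).κ = fun m => xq ^ m := by
      funext m
      exact one_mul _
    rw [h3]
    exact h1
  · intro m
    have h4 : ∀ j, (hsrc.ts.map fun t => t.κ j * famV P t).sum = xq ^ j * (RatFunc.X - 1) := by
      intro j
      change ([haar 1].map fun t => t.κ j * famV P t).sum = _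
      simp only [List.map_cons, List.map_nil, List.sum_cons, List.sum_nil, add_zero, famV_haar]
      change 1 * xq ^ j * _ = _
      rw [one_mul]
    simp only [h4]
    change xq ^ m + _ = xq ^ 0
    have h5 : (xq : K) * RatFunc.X = 1 := inv_mul_cancel₀ RatFunc.X_ne_zero
    induction m with
    | zero => simp
    | succ m ih =>
      rw [Finset.sum_Icc_succ_top (by omega), ← ih, pow_succ]
      linear_combination (xq ^ m) * h5

/-! ### The value at the origin -/

theorem coeff_of_eval {g : P2} : g.coeff (mon 0 0) = eval 0 g := by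
  have : mon 0 0 = 0 := by simp [mon]
  rw [this, ← constantCoeff_eq, ← MvPolynomial.eval_zero]

theorem eval_shift {ψ : Polynomial ℂ} (h0 : ψ.coeff 0 = 0) (F : P2) :
    eval 0 (shift ψ F) = eval 0 F := by
  have h : (eval (0 : Fin 2 → ℂ)).comp (shift ψ).toRingHom = eval 0 := by
    apply ringHom_ext
    · intro c
      change eval 0 (shift ψ (C c)) = _
      have : shift ψ (C c) = C c := (shift ψ).commutes c
      rw [this]
    · intro i
      change eval 0 (shift ψ (X i)) = _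
      unfold shift
      rw [aeval_X]
      fin_cases i
      · simp
      · have h1 : eval (0 : Fin 2 → ℂ) (Polynomial.aeval (X 0 : P2) ψ) = 0 := by
          have h2 := Polynomial.hom_eval₂ ψ (algebraMap ℂ P2) (eval (0 : Fin 2 → ℂ)) (X 0)
          have h3 : (eval (0 : Fin 2 → ℂ)).comp (algebraMap ℂ P2) = RingHom.id ℂ := by
            ext c
            simp
          rw [h3, eval_X] at h2
          have h4 : eval (0 : Fin 2 → ℂ) (Polynomial.aeval (X 0 : P2) ψ) =
              Polynomial.eval₂ (RingHom.id ℂ) ((0 : Fin 2 → ℂ) 0) ψ := h2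
          rw [h4]
          change Polynomial.eval₂ (RingHom.id ℂ) 0 ψ = 0
          rw [Polynomial.eval₂_id, ← Polynomial.coeff_zero_eq_eval_zero, h0]
        change eval (0 : Fin 2 → ℂ) (X 1 + Polynomial.aeval (X 0 : P2) ψ) = _
        rw [map_add, h1, add_zero]
        rfl
  exact congrArg (fun f => f F) h

theorem pt_zero {Λ : Set ℚ} {k k' : Kd} {F : P2} (h : Pt7 Λ k k' F) : F.coeff (mon 0 0) = 0 := by
  induction h with
  | edge k k' F p q aL bR I he h1 h2 h3 h4 =>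
    exact low_zero (VRE_.low_of_edge he) (N0_pos he.hp he.hq he.deg)
  | two k k' F A B c p' q' p'' q'' hA hB h1 h2 h3 h4 =>
    have h : F = (F - C c * X 0 ^ A * X 1 ^ B) + C c * X 0 ^ A * X 1 ^ B := by ring
    have h5 : (F - C c * X 0 ^ A * X 1 ^ B).coeff (mon 0 0) = 0 := by
      by_contra h5
      have h6 := h1 _ (mem_support_iff.2 h5)
      rw [VRE_.mon_zero, VRE_.mon_one] at h6
      omega
    rw [h, coeff_add, h5, zero_add, VRE_.term_eq, coeff_monomial, if_neg (mon_ne (by omega))]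
  | one k g h B hB g0 g1 h1 h2 => exact (one_coeff (h := h) (B := B) g0).2 0 (by omega)
  | axis k k' F B hB h1 h2 h3 =>
    by_contra h5
    have h6 := h2 _ (mem_support_iff.2 h5)
    rw [VRE_.mon_one] at h6
    omega
  | ray k F h1 h2 =>
    by_contra h5
    have h6 := h1 _ (mem_support_iff.2 h5)
    rw [VRE_.mon_zero] at h6
    omega
  | coord k F ψ h0 h ih =>
    rw [coeff_of_eval] at ih ⊢
    rw [← eval_shift h0 F]
    exact ih
  | swap k k' F h ih =>
    rw [TT.coeff_swp] at ih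
    exact ih

/-- exchange of the two sources -/
theorem mu_swap (hSW : Stmt_SW7) {E : Type} [Finite E] (P : HodgeMeasure) (s s' : Src) (k₀ k₁ : Kd)
    (hs : s.Ok P k₀) (hs' : s'.Ok P k₁) (F : P2) {Q : Set (E ⊕ Unit → ℂ)} (hQ : QU Q) (M m : ℕ) :
    mu P s s' F Q M m = mu P s' s (swp F) Q M m := by
  unfold mu
  rw [TT.swp_swp]
  have e1 : ∑ k ∈ Finset.Icc 1 M, ∑ l ∈ Finset.Icc 1 M, (s.ts.map fun t => (s'.ts.map fun t' =>
      t.κ k * t'.κ l * x2 P t t' F Q k l m).sum).sum =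
      ∑ k ∈ Finset.Icc 1 M, ∑ l ∈ Finset.Icc 1 M, (s'.ts.map fun t => (s.ts.map fun t' =>
      t.κ k * t'.κ l * x2 P t t' (swp F) Q k l m).sum).sum := by
    rw [Finset.sum_comm]
    refine Finset.sum_congr rfl fun l _ => Finset.sum_congr rfl fun k _ => ?_
    rw [lsum_comm]
    refine lsum_congr _ fun t' ht' => lsum_congr _ fun t ht => ?_
    rw [hSW P t t' F (hs.1 t ht).1 (hs'.1 t' ht').1 E Q hQ k l m]
    ring
  have e2 : ∀ (t : Fam) (c : K) (G : P2) (k : ℕ), t.κ k * c * y1 P t G Q k m =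
      c * t.κ k * y1 P t G Q k m := fun t c G k => by ring
  rw [e1]
  simp only [e2]
  ring

end L07Aux

open L07Aux in
theorem stmt_L07 (hRE : Stmt_RE7) (hRY : Stmt_RY7) (hRP : Stmt_RP7) (hST : Stmt_ST7)
    (hSW : Stmt_SW7) (hHS : Stmt_HS7) (hMU : Stmt_MU7) (hCN : Stmt_CN7) (hZR : Stmt_ZR7)
    (hVF : Stmt_VF7) (hCO : Stmt_CO7) (hSQ2 : Stmt_SQ72) (hSQ3 : Stmt_SQ73) (hSQ4 : Stmt_SQ74) :
    Stmt_L07 := by
  intro P Λ k k' F s s' hΛ h hs hs'
  change Rep P Λ fun E _ Q m => mu P s s' F Q m m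
  induction h generalizing s s' with
  | edge k k' F p q aL bR I he h1 h2 h3 h4 =>
    have hsrcIs : hsrc.Is P none := hsrc_is P
    refine case_edge hRY hRP hST hSW hHS hMU hSQ2 P Λ k k' F p q aL bR I s s' he h1 hs hs' ?_ ?_ ?_
    · intro lam hl hr W hW
      refine hRE P Λ (k.comb k' p q) none _ 1 0 none hsrc W hΛ ?_ (h2 lam hl hr) hsrcIs hW
      have hp : (0 : ℚ) < p := by exact_mod_cast he.hp
      have hq : (0 : ℚ) < q := by exact_mod_cast he.hq
      have := hs.2.2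
      have := hs'.2.2
      change 0 < (p : ℚ) * k.r + (q : ℚ) * k'.r
      positivity
    · intro W hW
      exact hRE P Λ k k' F p q none s' W hΛ hs.2.2 h3 hs' hW
    · intro W hW
      exact hRE P Λ k' k (swp F) q p none s W hΛ hs'.2.2 h4 hs hW
  | two k k' F A B c p' q' p'' q'' hA hB h1 h2 h3 h4 =>
    obtain ⟨hc, hpq⟩ := rvf h2 c A B p' q' rfl
    obtain ⟨-, hpq'⟩ := rvf h3 c B A q'' p'' rfl
    exact case_two hCN hRP hST hSW hMU hSQ3 hSQ4 stmt_SB P Λ hΛ k k' F s s' c hc A B p' q' p'' q''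
      hA hB (by omega) (by omega) hs hs' h1
      (fun W hW => hRE P Λ k k' F 1 1 _ s' W hΛ hs.2.2 h2 hs' hW)
      (fun W hW => hRE P Λ k' k (swp F) 1 1 _ s W hΛ hs'.2.2 h3 hs hW) h4
  | one k g h B hB g0 g1 h1 h2 =>
    exact case_one hZR hVF hHS hRP hST P Λ k g h s s' B hB hs hs' g0 g1 h1 h2
  | axis k k' F B hB h1 h2 h3 =>
    exact case_axis hCN hZR hRP P Λ k k' F s s' B hB hs hs' h1 h2 h3
  | ray k F h1 h2 =>
    exact case_ray hZR hRP hST hMU P Λ k F s s' hs hs' h1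
      (fun W hW => hRE P Λ k none F 1 0 none s' W hΛ hs.2.2 h2 hs' hW)
  | coord k F ψ h0 h ih =>
    have e0 : s' = hsrc := hs'.2.1 rfl
    subst e0
    have hz : F.coeff (mon 0 0) = 0 := pt_zero (Pt7.coord k F ψ h0 h)
    refine REP.congr (ih s hsrc hs hs') ?_
    intro E _ Q hQ m hm
    exact (hCO P s k hs.1 F ψ h0 hz E Q hQ m m hm le_rfl).symm
  | swap k k' F h ih =>
    refine REP.congr (ih s' s hs' hs) ?_
    intro E _ Q hQ m hm
    exact mu_swap hSW P s s' k k' hs.1 hs'.1 F hQ m m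

end Pool.Agent.Mono.BV
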