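import Pool.Agent.Work.Monodromy7.RE7B

/-!
# Block RE7: the recursion, exact part (helper61)
-/

set_option autoImplicit false
set_option linter.unusedSectionVars false
set_option linter.unusedVariables false
set_option linter.style.haveILetI false

namespace Pool.Agent.Mono.BV

open MvPolynomial TS RO PC

namespace RE7Aux

open RO.TG5Aux

/-! ## Facts about regions -/

theorem rvf {Λ : Set ℚ} {k k' : Kd} {G : P2} {p q : ℕ} {o : Option (ℂ × ℕ × ℕ × ℕ × ℕ)}
    (h : RV Λ k k' G p q o) : ∀ (c : ℂ) (A B p' q' : ℕ), o = some (c, A, B, p', q') →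
      c ≠ 0 ∧ q * p' < q' * p ∧ 1 ≤ p ∧ 1 ≤ B ∧ 1 ≤ p * A + q * B ∧ 1 ≤ p' * A + q' * B := by
  induction h with
  | fin0 => intro c A B p' q' h; cases h
  | fin1 k g h p q A₁ A₂ B hp hB g1 g2 g3 h1 h2 hN =>
    intro c A B' p' q' h
    simp only [Option.some.injEq, Prod.mk.injEq] at h
    obtain ⟨rfl, rfl, rfl, rfl, rfl⟩ := h
    refine ⟨mul_ne_zero (pow_ne_zero _ g1) h1, by omega, hp, hB, hN, ?_⟩
    omega
  | fin2 k k' G p q A B hp hB h1 h2 h3 hN =>
    intro c A B' p' q' h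
    simp only [Option.some.injEq, Prod.mk.injEq] at h
    obtain ⟨rfl, rfl, rfl, rfl, rfl⟩ := h
    exact ⟨h1, by omega, hp, hB, hN, by omega⟩
  | step k k' G p q p' q' aL bR I hp hpq he h1 hN h2 h3 h4 _ _ =>
    intro c A B' p'' q'' h
    simp only [Option.some.injEq, Prod.mk.injEq] at h
    obtain ⟨rfl, rfl, rfl, rfl, rfl⟩ := h
    have h5 := he.deg
    have h6 := he.hp
    have h7 := he.hq
    have h8 : 1 ≤ p' * I.natDegree := Nat.mul_pos h6 h5
    refine ⟨?_, hpq, hp, by omega, hN, ?_⟩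
    · intro h9
      rw [Polynomial.leadingCoeff_eq_zero] at h9
      rw [h9, Polynomial.natDegree_zero] at h5
      omega
    · have : 1 ≤ q' * (bR + p' * I.natDegree) := Nat.mul_pos h7 (by omega)
      omega
  | close => intro c A B p' q' h; cases h
  | coord k G p q o ψ hψ h ih => exact ih

/-! ## The free source -/

theorem famV_haar (P : HodgeMeasure) : famV P (haar 1) = RatFunc.X - 1 := by
  haveI : Finite (haar 1).σ := (haar 1).fin
  exact CLV.val_gm (α := Unit) P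

theorem xq_mul : (xq : K) * RatFunc.X = 1 := inv_mul_cancel₀ RatFunc.X_ne_zero

theorem hsrc_ok (P : HodgeMeasure) : hsrc.Ok P none := by
  have h1 : EK none fun m => xq ^ m := by
    have h2 := stmt_Q1.2.2.2.2.1 {r : ℚ | Kd.fs none = false ∧ r = Kd.r none} 1 1 le_rfl
      ⟨rfl, by simp [Kd.r]⟩
    have h3 : ESeq {r : ℚ | Kd.fs none = false ∧ r = Kd.r none} fun m => xq ^ m := by
      simpa using h2
    exact h3
  refine ⟨?_, h1, ?_⟩
  · intro t ht
    have ht' : t = haar 1 := by simpa [hsrc] using ht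
    subst ht'
    refine ⟨haar_good 1, ?_⟩
    have h3 : (haar 1).κ = fun m => xq ^ m := by
      funext m
      exact one_mul _
    rw [h3]
    exact h1
  · intro m
    have h4 : ∀ j, (hsrc.ts.map fun t => t.κ j * famV P t).sum = xq ^ j * (RatFunc.X - 1) := by
      intro j
      change ([haar 1].map fun t => t.κ j * famV P t).sum = _
      simp only [List.map_cons, List.map_nil, List.sum_cons, List.sum_nil, add_zero, famV_haar]
      change 1 * xq ^ j * _ = _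
      rw [one_mul]
    simp only [h4]
    change xq ^ m + _ = xq ^ 0
    induction m with
    | zero => simp
    | succ m ih =>
      rw [Finset.sum_Icc_succ_top (by omega), ← ih, pow_succ]
      linear_combination (xq ^ m) * xq_mul

theorem hsrc_is (P : HodgeMeasure) : hsrc.Is P none :=
  ⟨hsrc_ok P, fun _ => rfl, by norm_num [Kd.r]⟩

/-! ## One step -/

theorem vS_step (hST : Stmt_ST7) {P : HodgeMeasure} {s : Src} {k₀ : Kd} (hs : s.Ok P k₀) (G : P2)
    {E : Type} [Finite E] {Q : Set ((E ⊕ Unit) ⊕ Unit → ℂ)} (hQ : QU Q) {k L : ℕ} (m : ℕ)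
    (hk : 1 ≤ k) (hL : 1 ≤ L) :
    vS P s G Q k L m = (s.ts.map fun t => t.κ L * e2 P t G Q k L m).sum +
      vS P s G Q k (L + 1) m := by
  have h1 := hST P s k₀ hs G E Q hQ k L (L + m) m hk hL (by omega) (by omega)
  have h2 := hST P s k₀ hs G E Q hQ k (L + 1) (L + m) m hk (by omega) (by omega) (by omega)
  rw [← h1, ← h2, Finset.sum_eq_sum_Ico_succ_bot (by omega)]
  ring

theorem strict {G : P2} {p q p' q' A B k l : ℕ} (h1 : Low p q (p * A + q * B) G)
    (h2 : Low p' q' (p' * A + q' * B) G) (hpq : q * p' < q' * p) (hk : q * k < p * l)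
    (hl : p' * l < q' * k) :
    ∀ d ∈ G.support, d ≠ mon A B → A * k + B * l < d 0 * k + d 1 * l := by
  intro d hd hne
  have e1 := h1 d hd
  have e2 := h2 d hd
  by_contra hcon
  push Not at hcon
  zify at e1 e2 hcon hpq hk hl
  set a : ℤ := (d 0 : ℤ) with ha
  set b : ℤ := (d 1 : ℤ) with hb
  -- the combination
  have e3 : (0 : ℤ) ≤ (q' * k - p' * l) * (p * a + q * b - (p * A + q * B)) :=
    mul_nonneg (by linarith) (by linarith)
  have e4 : (0 : ℤ) ≤ (p * l - q * k) * (p' * a + q' * b - (p' * A + q' * B)) :=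
    mul_nonneg (by linarith) (by linarith)
  have e5 : ((q' : ℤ) * k - p' * l) * (p * a + q * b - (p * A + q * B)) +
      (p * l - q * k) * (p' * a + q' * b - (p' * A + q' * B)) =
        (q' * p - q * p') * (a * k + b * l - (A * k + B * l)) := by ring
  have e6 : ((q' : ℤ) * p - q * p') * (a * k + b * l - (A * k + B * l)) ≤ 0 :=
    mul_nonpos_of_nonneg_of_nonpos (by linarith) (by linarith)
  have e7 : ((q' : ℤ) * k - p' * l) * (p * a + q * b - (p * A + q * B)) = 0 := by linarith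
  have e8 : ((p : ℤ) * l - q * k) * (p' * a + q' * b - (p' * A + q' * B)) = 0 := by linarith
  have e9 : (p : ℤ) * a + q * b - (p * A + q * B) = 0 := by
    rcases mul_eq_zero.1 e7 with h | h
    · linarith
    · exact h
  have e10 : (p' : ℤ) * a + q' * b - (p' * A + q' * B) = 0 := by
    rcases mul_eq_zero.1 e8 with h | h
    · linarith
    · exact h
  have e11 : ((q' : ℤ) * p - q * p') * (a - A) = 0 := by
    linear_combination (q' : ℤ) * e9 - q * e10
  have e12 : ((q' : ℤ) * p - q * p') * (b - B) = 0 := by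
    linear_combination (p : ℤ) * e10 - p' * e9
  have e13 : (q' : ℤ) * p - q * p' ≠ 0 := by
    intro h
    linarith
  have e14 : a = A := by
    have := (mul_eq_zero.1 e11).resolve_left e13
    linarith
  have e15 : b = B := by
    have := (mul_eq_zero.1 e12).resolve_left e13
    linarith
  apply hne
  ext i
  fin_cases i
  · change d 0 = mon A B 0
    rw [VRE_.mon_zero]
    rw [ha] at e14
    exact_mod_cast e14
  · change d 1 = mon A B 1
    rw [VRE_.mon_one]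
    rw [hb] at e15
    exact_mod_cast e15

theorem per_k (hST : Stmt_ST7) (hCN : Stmt_CN7) {P : HodgeMeasure} {s : Src} {k₀ : Kd}
    (hs : s.Ok P k₀) (G : P2) (p q p' q' A B : ℕ)
    (hpp : q * p' < q' * p) (hG : G.coeff (mon A B) ≠ 0)
    (h1 : Low p q (p * A + q * B) G) (h2 : Low p' q' (p' * A + q' * B) G) {E : Type} [Finite E]
    {Q : Set ((E ⊕ Unit) ⊕ Unit → ℂ)} (hQ : QU Q) (k m L : ℕ) (hk : 1 ≤ k) (hL0 : 1 ≤ L)
    (hL : q * k < p * L) :
    ∀ l, L ≤ l → (∀ i, L ≤ i → i < l → p' * i < q' * k) →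
      vS P s G Q k L m = ∑ i ∈ Finset.Ico L l, (if m = A * k + B * i then (s.ts.map fun t =>
        t.κ i * c2a P t (C (G.coeff (mon A B)) * X 0 ^ A * X 1 ^ B) Q).sum else 0) +
          vS P s G Q k l m := by
  intro l hl
  induction l, hl using Nat.le_induction with
  | base => intro _; simp
  | succ l hl ih =>
    intro h
    rw [ih fun i hi hi' => h i hi (by omega), Finset.sum_Ico_succ_top hl, add_assoc]
    congr 1
    rw [vS_step hST hs G hQ m hk (by omega)]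
    congr 1
    have h3 : ∀ t ∈ s.ts, t.κ l * e2 P t G Q k l m = if m = A * k + B * l then
        t.κ l * c2a P t (C (G.coeff (mon A B)) * X 0 ^ A * X 1 ^ B) Q else 0 := by
      intro t ht
      rw [hCN P t G A B k l (hs.1 t ht).1 hk hG (strict h1 h2 hpp
        (lt_of_lt_of_le hL (Nat.mul_le_mul_left p hl)) (h l hl (Nat.lt_succ_self l))) E Q hQ m]
      split_ifs
      · rfl
      · rw [mul_zero]
    rw [List.map_congr_left h3]
    split_ifs
    · rfl
    · simp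

/-! ## Sums over cones -/

theorem cone_one (hSB : PC.Stmt_SB) (W κ : ℕ → K) (p q A B p' q' m N : ℕ) (hpp : q * p' < q' * p)
    (h1 : 1 ≤ p * A + q * B) (h2 : 1 ≤ p' * A + q' * B) (hN : (p + p') * m ≤ N) (I : ℕ → Finset ℕ)
    (hI : ∀ k, 1 ≤ k → ∀ l, m = A * k + B * l → (l ∈ I k ↔ q * k < p * l ∧ p' * l < q' * k))
    (c : K) :
    ∑ k ∈ Finset.Icc 1 N, W k * ∑ l ∈ I k,
      (if m = A * k + B * l then κ l * c else 0) = coneW W κ p q A B p' q' m * c := by
  classical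
  set f : ℕ → ℕ → K := fun k l => if q * k < p * l ∧ p' * l < q' * k ∧ A * k + B * l = m then
    W k * (κ l * c) else 0 with hf
  have hf0 : ∀ k l, ¬ (q * k < p * l ∧ p' * l < q' * k ∧ A * k + B * l = m) → f k l = 0 := by
    intro k l h
    simp only [hf]
    rw [if_neg h]
  have hR : coneW W κ p q A B p' q' m * c = ∑ k ∈ Finset.range ((p + p') * m + 1),
      ∑ l ∈ Finset.range ((q + q') * m + 1), f k l := by
    rw [coneW, Finset.sum_mul]
    refine Finset.sum_congr rfl fun k _ => ?_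
    rw [Finset.sum_mul]
    refine Finset.sum_congr rfl fun l _ => ?_
    simp only [hf]
    split_ifs
    · ring
    · ring
  have hin : ∀ k, 1 ≤ k → W k * ∑ l ∈ I k,
      (if m = A * k + B * l then κ l * c else 0) =
        ∑ l ∈ Finset.range ((q + q') * m + 1), f k l := by
    intro k hk
    have e1 : W k * ∑ l ∈ I k, (if m = A * k + B * l then κ l * c else 0) =
        ∑ l ∈ I k, f k l := by
      rw [Finset.mul_sum]
      refine Finset.sum_congr rfl fun l hl => ?_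
      simp only [hf]
      by_cases h : m = A * k + B * l
      · have h3 := (hI k hk l h).1 hl
        rw [if_pos h, if_pos ⟨h3.1, h3.2, h.symm⟩]
      · rw [if_neg h, if_neg (fun h4 => h h4.2.2.symm)]
        ring
    rw [e1]
    have e2 : ∑ l ∈ I k, f k l = ∑ l ∈ I k ∪ Finset.range ((q + q') * m + 1), f k l := by
      refine Finset.sum_subset Finset.subset_union_left ?_
      intro l _ hl
      refine hf0 k l fun h => hl ?_
      exact (hI k hk l h.2.2.symm).2 ⟨h.1, h.2.1⟩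
    have e3 : ∑ l ∈ Finset.range ((q + q') * m + 1), f k l =
        ∑ l ∈ I k ∪ Finset.range ((q + q') * m + 1), f k l := by
      refine Finset.sum_subset Finset.subset_union_right ?_
      intro l _ hl
      refine hf0 k l fun h => hl ?_
      have h3 := (hSB p q A B p' q' m k l hpp h1 h2 h.1 h.2.1 h.2.2).2
      exact Finset.mem_range.2 (by omega)
    rw [e2, e3]
  rw [hR]
  have e0 : ∑ k ∈ Finset.Icc 1 N, W k * ∑ l ∈ I k,
      (if m = A * k + B * l then κ l * c else 0) =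
        ∑ k ∈ Finset.Icc 1 N, ∑ l ∈ Finset.range ((q + q') * m + 1), f k l :=
    Finset.sum_congr rfl fun k hk => hin k (Finset.mem_Icc.1 hk).1
  rw [e0]
  have e4 : ∑ k ∈ Finset.Icc 1 N, ∑ l ∈ Finset.range ((q + q') * m + 1), f k l =
      ∑ k ∈ Finset.range (N + 1), ∑ l ∈ Finset.range ((q + q') * m + 1), f k l := by
    refine Finset.sum_subset ?_ ?_
    · intro k hk
      rw [Finset.mem_Icc] at hk
      exact Finset.mem_range.2 (by omega)
    · intro k hk hk'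
      rw [Finset.mem_range] at hk
      rw [Finset.mem_Icc] at hk'
      have hk0 : k = 0 := by omega
      subst hk0
      refine Finset.sum_eq_zero fun l _ => hf0 0 l ?_
      rintro ⟨_, h, _⟩
      simp at h
  have e5 : ∑ k ∈ Finset.range ((p + p') * m + 1), ∑ l ∈ Finset.range ((q + q') * m + 1), f k l =
      ∑ k ∈ Finset.range (N + 1), ∑ l ∈ Finset.range ((q + q') * m + 1), f k l := by
    refine Finset.sum_subset ?_ ?_
    · intro k hk
      rw [Finset.mem_range] at hk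
      exact Finset.mem_range.2 (by omega)
    · intro k _ hk'
      refine Finset.sum_eq_zero fun l _ => hf0 k l ?_
      intro h
      have h3 := (hSB p q A B p' q' m k l hpp h1 h2 h.1 h.2.1 h.2.2).1
      rw [Finset.mem_range] at hk'
      omega
  rw [e4, e5]

theorem cone_list (hSB : PC.Stmt_SB) (W : ℕ → K) (p q A B p' q' m N : ℕ) (hpp : q * p' < q' * p)
    (h1 : 1 ≤ p * A + q * B) (h2 : 1 ≤ p' * A + q' * B) (hN : (p + p') * m ≤ N) (I : ℕ → Finset ℕ)
    (hI : ∀ k, 1 ≤ k → ∀ l, m = A * k + B * l → (l ∈ I k ↔ q * k < p * l ∧ p' * l < q' * k))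
    (ts : List Fam) (c : Fam → K) :
    ∑ k ∈ Finset.Icc 1 N, W k * ∑ l ∈ I k,
      (if m = A * k + B * l then (ts.map fun t => t.κ l * c t).sum else 0) =
        (ts.map fun t => coneW W t.κ p q A B p' q' m * c t).sum := by
  induction ts with
  | nil => simp
  | cons t ts ih =>
    simp only [List.map_cons, List.sum_cons]
    rw [← ih, ← cone_one hSB W t.κ p q A B p' q' m N hpp h1 h2 hN I hI (c t),
      ← Finset.sum_add_distrib]
    refine Finset.sum_congr rfl fun k _ => ?_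
    rw [← mul_add, ← Finset.sum_add_distrib]
    congr 1
    refine Finset.sum_congr rfl fun l _ => ?_
    split_ifs
    · rfl
    · rw [add_zero]

/-! ## Sums over `k` -/

abbrev Fk : Type 1 := (E : Type) → [Finite E] → Set ((E ⊕ Unit) ⊕ Unit → ℂ) → ℕ → ℕ → K

/-- the sum over `k` of `f` is given by families -/
def Sm (P : HodgeMeasure) (Λ : Set ℚ) (f : Fk) : Prop :=
  ∃ F : Fn, HasT P Λ F ∧ ∃ C₀ : ℕ, ∀ (E : Type) [Finite E] (Q : Set ((E ⊕ Unit) ⊕ Unit → ℂ)),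
    QU Q → ∀ m N : ℕ, 1 ≤ m → C₀ * m ≤ N → ∑ k ∈ Finset.Icc 1 N, f E Q m k = F E Q m

theorem Sm.add {P : HodgeMeasure} {Λ : Set ℚ} {f g : Fk} (hf : Sm P Λ f) (hg : Sm P Λ g) :
    Sm P Λ (fun E _ Q m k => f E Q m k + g E Q m k) := by
  obtain ⟨F, hF, C, h⟩ := hf
  obtain ⟨G, hG, D, h'⟩ := hg
  refine ⟨_, hF.add hG, C + D, ?_⟩
  intro E _ Q hQ m N hm hN
  rw [Finset.sum_add_distrib, h E Q hQ m N hm (le_trans (Nat.mul_le_mul_right m (by omega)) hN),
    h' E Q hQ m N hm (le_trans (Nat.mul_le_mul_right m (by omega)) hN)]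

theorem Sm.zero (P : HodgeMeasure) (Λ : Set ℚ) : Sm P Λ (fun _ _ _ _ _ => 0) := by
  refine ⟨_, HasT.zero P Λ, 0, ?_⟩
  intro E _ Q hQ m N hm hN
  exact Finset.sum_const_zero

theorem Sm.congr {P : HodgeMeasure} {Λ : Set ℚ} {f g : Fk} (hf : Sm P Λ f)
    (h : ∀ (E : Type) [Finite E] (Q : Set ((E ⊕ Unit) ⊕ Unit → ℂ)), QU Q → ∀ m k : ℕ, 1 ≤ m →
      1 ≤ k → g E Q m k = f E Q m k) : Sm P Λ g := by
  obtain ⟨F, hF, C, h'⟩ := hf
  refine ⟨F, hF, C, ?_⟩
  intro E _ Q hQ m N hm hN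
  rw [← h' E Q hQ m N hm hN]
  exact Finset.sum_congr rfl fun k hk => h E Q hQ m k hm (Finset.mem_Icc.1 hk).1

theorem Sm.sum {P : HodgeMeasure} {Λ : Set ℚ} {α : Type} (s : Finset α)
    (f : α → Fk) (hf : ∀ a ∈ s, Sm P Λ (f a)) :
    Sm P Λ (fun E _ Q m k => ∑ a ∈ s, f a E Q m k) := by
  classical
  induction s using Finset.induction_on with
  | empty => simpa using Sm.zero P Λ
  | insert a s ha ih =>
    refine ((hf a (Finset.mem_insert_self a s)).add
      (ih fun b hb => hf b (Finset.mem_insert_of_mem hb))).congr ?_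
    intro E _ Q _ m k _ _
    exact Finset.sum_insert ha

theorem Sm.lsum {P : HodgeMeasure} {Λ : Set ℚ} {α : Type*} (s : List α)
    (f : α → Fk) (hf : ∀ a ∈ s, Sm P Λ (f a)) :
    Sm P Λ (fun E _ Q m k => (s.map fun a => f a E Q m k).sum) := by
  induction s with
  | nil => simpa using Sm.zero P Λ
  | cons a s ih =>
    refine ((hf a List.mem_cons_self).add
      (ih fun b hb => hf b (List.mem_cons_of_mem a hb))).congr ?_
    intro E _ Q _ m k _ _
    simp

theorem Sm.dvd {P : HodgeMeasure} {Λ : Set ℚ} {f : Fk} (hf : Sm P Λ f) (p : ℕ) (hp : 1 ≤ p) :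
    Sm P Λ (fun E _ Q m k => if p ∣ k then f E Q m (k / p) else 0) := by
  obtain ⟨F, hF, C, h'⟩ := hf
  refine ⟨F, hF, p * C, ?_⟩
  intro E _ Q hQ m N hm hN
  rw [VRE_.sum_dvd p N hp (fun k => f E Q m k)]
  refine h' E Q hQ m (N / p) hm ?_
  rw [Nat.le_div_iff_mul_le (by omega)]
  calc C * m * p = p * C * m := by ring
    _ ≤ N := hN

theorem Sm.pull {P : HodgeMeasure} {Λ : Set ℚ} {f : Fk} (hf : Sm P Λ f) {t : Fam}
    (ht : t.Good) (p q : ℕ) (lam : ℂ) :
    Sm P Λ (fun E _ Q m k => haveI := t.fin; f (E ⊕ t.σ) (BV.pull t p q lam Q) m k) := by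
  obtain ⟨F, hF, C, h'⟩ := hf
  refine ⟨_, hF.pull ht p q lam, C, ?_⟩
  intro E _ Q hQ m N hm hN
  haveI := t.fin
  exact h' (E ⊕ t.σ) _ (QU_pull ht p q lam hQ) m N hm hN

theorem Sm.pt {P : HodgeMeasure} {Λ : Set ℚ} (T : Fam2) (h1 : T.Ok {0}ᶜ true) (N₀ : ℕ)
    (hN : 1 ≤ N₀) (g : ℕ → K) (h2 : T.κ = fun m => if N₀ ∣ m then g (m / N₀) else 0)
    (h3 : ESeq Λ T.κ) : Sm P Λ (fun _ _ Q m k => if m = N₀ * k then g k * fcla P T Q else 0) := by
  refine ⟨_, HasT.single (P := P) T h1 h3, 1, ?_⟩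
  intro E _ Q hQ m N hm hN'
  have e : T.κ m = if N₀ ∣ m then g (m / N₀) else 0 := by rw [h2]
  rw [VRE_.pick N₀ m N hN hm (by omega) (fun k => g k * fcla P T Q), e]
  split_ifs
  · rfl
  · rw [zero_mul]

/-! ## The cases -/

/-- the term of the last cone -/
noncomputable def mainT (P : HodgeMeasure) (s : Src) (W : ℕ → K) (p q : ℕ)
    (o : Option (ℂ × ℕ × ℕ × ℕ × ℕ)) {E : Type} [Finite E]
    (Q : Set ((E ⊕ Unit) ⊕ Unit → ℂ)) (m : ℕ) : K :=
  match o with
  | none => 0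
  | some (c, A, B, p', q') => (s.ts.map fun t => coneW W t.κ p q A B p' q' m *
      c2a P t (C c * X 0 ^ A * X 1 ^ B) Q).sum

/-- the recursion in terms of `HasT` -/
def RE' (P : HodgeMeasure) (Λ : Set ℚ) (s : Src) (G : P2) (W : ℕ → K) (p q : ℕ)
    (o : Option (ℂ × ℕ × ℕ × ℕ × ℕ)) : Prop :=
  ∃ F : Fn, HasT P Λ F ∧ ∃ C₀ : ℕ,
    ∀ (E : Type) [Finite E] (Q : Set ((E ⊕ Unit) ⊕ Unit → ℂ)), QU Q → ∀ m N : ℕ, 1 ≤ m →
      C₀ * m ≤ N → ∑ k ∈ Finset.Icc 1 N, W k * vS P s G Q k (q * k / p + 1) m =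
        mainT P s W p q o Q m + F E Q m

theorem re_of {P : HodgeMeasure} {Λ : Set ℚ} {s : Src} {G : P2} {W : ℕ → K} {p q : ℕ}
    {o : Option (ℂ × ℕ × ℕ × ℕ × ℕ)} (h : RE' P Λ s G W p q o) : RE7 P Λ s G W p q o := by
  obtain ⟨F, ⟨hs, ts, h0, h1, h2⟩, C₀, h⟩ := h
  refine ⟨hs, ts, C₀, h0, h1, ?_⟩
  intro E _ Q hQ m N hm hN
  have h3 := h E Q hQ m N hm hN
  rw [h2 E Q hQ m hm] at h3
  rcases o with _ | ⟨c, A, B, p', q'⟩ <;> exact h3

theorem re_none {P : HodgeMeasure} {Λ : Set ℚ} {s : Src} {G : P2} {W : ℕ → K} {p q : ℕ}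
    (h : Sm P Λ fun E _ Q m k => W k * vS P s G Q k (q * k / p + 1) m) :
    RE' P Λ s G W p q none := by
  obtain ⟨F, hF, C₀, h⟩ := h
  refine ⟨F, hF, C₀, ?_⟩
  intro E _ Q hQ m N hm hN
  rw [h E Q hQ m N hm hN]
  exact (zero_add _).symm

theorem sm_none {P : HodgeMeasure} {Λ : Set ℚ} {s : Src} {G : P2} {W : ℕ → K} {p q : ℕ}
    (h : RE' P Λ s G W p q none) :
    Sm P Λ fun E _ Q m k => W k * vS P s G Q k (q * k / p + 1) m := by
  obtain ⟨F, hF, C₀, h⟩ := h
  refine ⟨F, hF, C₀, ?_⟩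
  intro E _ Q hQ m N hm hN
  rw [h E Q hQ m N hm hN]
  exact zero_add _

/-- the mass between two levels -/
theorem mass {P : HodgeMeasure} {s : Src} {k₀ : Kd} (hs : s.Ok P k₀) (L m : ℕ) :
    ∑ l ∈ Finset.Ico (L + 1) (L + 1 + m), (s.ts.map fun t => t.κ l * famV P t).sum + s.b (L + m) =
      s.b L := by
  induction m with
  | zero => simp
  | succ m ih =>
    rw [← ih, show L + 1 + (m + 1) = (L + 1 + m) + 1 by ring,
      Finset.sum_Ico_succ_top (by omega), add_assoc]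
    congr 1
    have h1 := hs.2.2 (L + m)
    have h2 := hs.2.2 (L + m + 1)
    rw [Finset.sum_Icc_succ_top (by omega)] at h2
    rw [show L + 1 + m = L + m + 1 by ring, show L + (m + 1) = L + m + 1 by ring]
    linear_combination h2 - h1

theorem flat (hCN : Stmt_CN7) (hZR : Stmt_ZR7) {P : HodgeMeasure} {s : Src} {k₀ : Kd}
    (hs : s.Ok P k₀) (G : P2) (p q A : ℕ) (hp : 1 ≤ p) (h1 : G.coeff (mon A 0) ≠ 0)
    (h2 : Low p q (p * A) G) {E : Type} [Finite E] {Q : Set ((E ⊕ Unit) ⊕ Unit → ℂ)} (hQ : QU Q)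
    (k m : ℕ) (hk : 1 ≤ k) :
    vS P s G Q k (q * k / p + 1) m =
      if m = A * k then s.b (q * k / p) * c1a P (G.coeff (mon A 0)) A Q else 0 := by
  have h3 : ∀ d ∈ G.support, d 1 = 0 → A ≤ d 0 := by
    intro d hd h0
    have h4 := h2 d hd
    rw [h0, mul_zero, add_zero] at h4
    exact Nat.le_of_mul_le_mul_left h4 (by omega)
  have h5 : Low p q (p * A + q * 0) G := by
    rw [mul_zero, add_zero]
    exact h2
  have h6 : Low 0 1 (0 * A + 1 * 0) G := fun d _ => by simp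
  have h7 : ∀ l ∈ Finset.Ico (q * k / p + 1) (q * k / p + 1 + m), ∀ t ∈ s.ts,
      t.κ l * e2 P t G Q k l m = if m = A * k then
        (t.κ l * famV P t) * c1a P (G.coeff (mon A 0)) A Q else 0 := by
    intro l hl t ht
    rw [Finset.mem_Ico] at hl
    rw [hCN P t G A 0 k l (hs.1 t ht).1 hk h1 (strict h5 h6 (by omega)
      ((VRE_.lt_iff_div hp).1 hl.1) (by omega)) E Q hQ m, zero_mul, add_zero,
      c2a_zero P (hs.1 t ht).1.1 _ _ hQ.1]
    split_ifs
    · ring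
    · rw [mul_zero]
  rw [vS, (hZR P G k hk E Q hQ m).2 A h1 h3]
  rw [Finset.sum_congr rfl fun l hl => congrArg List.sum (List.map_congr_left (h7 l hl))]
  split_ifs
  · rw [← mass hs (q * k / p) m, add_mul, Finset.sum_mul]
    congr 1
    · refine Finset.sum_congr rfl fun l _ => ?_
      rw [List.sum_map_mul_right]
    · rw [show q * k / p + 1 + m - 1 = q * k / p + m by generalize q * k / p = x; omega]
  · simp

theorem case_fin0 (hCN : Stmt_CN7) (hZR : Stmt_ZR7) (hS2 : Stmt_SQ72) {P : HodgeMeasure}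
    {Λ : Set ℚ} {k k' : Kd} {s : Src} {W : ℕ → K} (hs : s.Ok P k') (hW : EK k W)
    (G : P2) (p q A : ℕ) (hp : 1 ≤ p) (hA : 1 ≤ A) (h1 : G.coeff (mon A 0) ≠ 0)
    (h2 : Low p q (p * A) G) (h3 : Rt Λ k k' A 0 p q) : RE' P Λ s G W p q none := by
  have hE := hS2.2.1 Λ k k' W s.b p q A hp hA hW hs.2.1 h3
  refine re_none ((Sm.pt (P := P) (fa (G.coeff (mon A 0)) A fun m =>
    if A ∣ m then W (m / A) * s.b (q * (m / A) / p) else 0) (fa_ok _ h1 A _) A hA
    (fun m => W m * s.b (q * m / p)) rfl hE).congr ?_)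
  intro E _ Q hQ m k hm hk
  rw [flat hCN hZR hs G p q A hp h1 h2 hQ k m hk, fcla_fa]
  split_ifs
  · ring
  · rw [mul_zero]

theorem case_fin1 (hVF : Stmt_VF7) (hHS : Stmt_HS7) (hSB : PC.Stmt_SB) (P : HodgeMeasure)
    (Λ : Set ℚ) (W : ℕ → K) (g h : P2)
    (p q A₁ A₂ B : ℕ) (hp : 1 ≤ p) (hB : 1 ≤ B)
    (g1 : g.coeff (mon A₁ 1) ≠ 0) (g2 : Low p q (p * A₁ + q) g)
    (g3 : ∀ d ∈ g.support, d 1 = 0 → p * A₁ + q < p * d 0)
    (h1 : h.coeff (mon A₂ 0) ≠ 0) (h2 : Low p q (p * A₂) h)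
    (hN : 1 ≤ p * (B * A₁ + A₂) + q * B) : RE' P Λ hsrc (g ^ B * h) W p q
      (some (g.coeff (mon A₁ 1) ^ B * h.coeff (mon A₂ 0), B * A₁ + A₂, B, 0, 1)) := by
  refine ⟨_, HasT.zero P Λ, p, ?_⟩
  intro E _ Q hQ m N hm hN'
  rw [add_zero]
  set c := g.coeff (mon A₁ 1) ^ B * h.coeff (mon A₂ 0) with hc
  set cV := c2a P (haar 1) (C c * X 0 ^ (B * A₁ + A₂) * X 1 ^ B) Q with hcV
  have e : ∀ k ∈ Finset.Icc 1 N, W k * vS P hsrc (g ^ B * h) Q k (q * k / p + 1) m =
      W k * ∑ l ∈ Finset.Ioc (q * k / p) (q * k / p + m),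
        (if m = (B * A₁ + A₂) * k + B * l then (haar 1).κ l * cV else 0) := by
    intro k hk
    have hk1 := (Finset.mem_Icc.1 hk).1
    rw [hHS P (g ^ B * h) E Q hQ k (q * k / p + 1) m hk1 (Nat.le_add_left 1 _),
      hVF P g h p q A₁ A₂ B hp hB g1 g2 g3 h1 h2 E Q hQ k m hk1, Finset.mul_sum]
    congr 1
    refine Finset.sum_congr rfl fun l _ => ?_
    split_ifs
    · change RatFunc.X * (xq ^ (l + 1) * cV) = 1 * xq ^ l * cV
      rw [pow_succ]
      linear_combination (xq ^ l * cV) * xq_mul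
    · rw [mul_zero]
  rw [Finset.sum_congr rfl e, cone_one hSB W (haar 1).κ p q (B * A₁ + A₂) B 0 1 m N (by omega) hN
    (by omega) (by omega) (fun k => Finset.Ioc (q * k / p) (q * k / p + m)) ?_ cV]
  · change _ = ([haar 1].map fun t => _).sum
    simp only [List.map_cons, List.map_nil, List.sum_cons, List.sum_nil, add_zero]
    rfl
  · intro k hk l hl
    rw [Finset.mem_Ioc, ← VRE_.lt_iff_div hp, Nat.succ_le_iff]
    have h3 : l ≤ B * l := Nat.le_mul_of_pos_left l hB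
    generalize q * k / p = s
    constructor
    · rintro ⟨h4, _⟩
      exact ⟨h4, by omega⟩
    · rintro ⟨h4, _⟩
      exact ⟨h4, by omega⟩

theorem case_fin2 (hCN : Stmt_CN7) (hZR : Stmt_ZR7) (hSB : PC.Stmt_SB) {P : HodgeMeasure}
    (Λ : Set ℚ) {k₀ : Kd} {s : Src} (W : ℕ → K) (hs : s.Ok P k₀)
    (G : P2) (p q A B : ℕ) (hp : 1 ≤ p) (hB : 1 ≤ B) (h1 : G.coeff (mon A B) ≠ 0)
    (h2 : Low p q (p * A + q * B) G) (h3 : ∀ d ∈ G.support, B ≤ d 1)
    (hN : 1 ≤ p * A + q * B) :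
    RE' P Λ s G W p q (some (G.coeff (mon A B), A, B, 0, 1)) := by
  refine ⟨_, HasT.zero P Λ, p, ?_⟩
  intro E _ Q hQ m N hm hN'
  rw [add_zero]
  have h6 : Low 0 1 (0 * A + 1 * B) G := fun d hd => by
    have := h3 d hd
    omega
  have e : ∀ k ∈ Finset.Icc 1 N, W k * vS P s G Q k (q * k / p + 1) m =
      W k * ∑ l ∈ Finset.Ico (q * k / p + 1) (q * k / p + 1 + m),
        (if m = A * k + B * l then (s.ts.map fun t => t.κ l *
          c2a P t (C (G.coeff (mon A B)) * X 0 ^ A * X 1 ^ B) Q).sum else 0) := by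
    intro k hk
    have hk1 := (Finset.mem_Icc.1 hk).1
    congr 1
    rw [vS, (hZR P G k hk1 E Q hQ m).1 (fun d hd => le_trans hB (h3 d hd)), mul_zero, add_zero]
    refine Finset.sum_congr rfl fun l hl => ?_
    rw [Finset.mem_Ico] at hl
    have h7 : ∀ t ∈ s.ts, t.κ l * e2 P t G Q k l m = if m = A * k + B * l then t.κ l *
        c2a P t (C (G.coeff (mon A B)) * X 0 ^ A * X 1 ^ B) Q else 0 := by
      intro t ht
      rw [hCN P t G A B k l (hs.1 t ht).1 hk1 h1 (strict h2 h6 (by omega)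
        ((VRE_.lt_iff_div hp).1 hl.1) (by omega)) E Q hQ m]
      split_ifs
      · rfl
      · rw [mul_zero]
    rw [List.map_congr_left h7]
    split_ifs
    · rfl
    · simp
  rw [Finset.sum_congr rfl e]
  refine cone_list hSB W p q A B 0 1 m N (by omega) hN (by omega) (by omega)
    (fun k => Finset.Ico (q * k / p + 1) (q * k / p + 1 + m)) ?_ s.ts
    (fun t => c2a P t (C (G.coeff (mon A B)) * X 0 ^ A * X 1 ^ B) Q)
  intro k hk l hl
  rw [Finset.mem_Ico, ← VRE_.lt_iff_div hp]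
  have h3 : l ≤ B * l := Nat.le_mul_of_pos_left l hB
  generalize q * k / p = s
  constructor
  · rintro ⟨h4, _⟩
    exact ⟨h4, by omega⟩
  · rintro ⟨h4, _⟩
    exact ⟨h4, by omega⟩

/-- the points of a ray, one family of the source -/
theorem ray_one (hRY : Stmt_RY7) (hHS : Stmt_HS7) (hS2 : Stmt_SQ72) {P : HodgeMeasure}
    {Λ : Set ℚ} {k k' : Kd} {W : ℕ → K} (hW : EK k W) {t : Fam} (ht : t.Good)
    (hκ : EK k' t.κ) (G : P2) (p' q' aL bR : ℕ) (I : Polynomial ℂ)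
    (he : IsEdge G p' q' aL bR I) (ρ : ℂ → ℂ) (hρ : ∀ R, ρ R ^ p' = R)
    (h2 : Rt Λ k k' aL (bR + p' * I.natDegree) p' q')
    (h3 : ∀ R ∈ I.roots.toFinset, ∀ W' : ℕ → K, EK (k.comb k' p' q') W' →
      RE' P Λ hsrc (chart p' q' (ρ R) G) W' 1 0 none) :
    Sm P Λ (fun E _ Q m j => W (p' * j) * (t.κ (q' * j) * e2 P t G Q (p' * j) (q' * j) m)) := by
  have hp' := he.hp
  have hq' := he.hq
  set N₀ := edgeN p' q' aL bR I with hN₀
  have hN₀' : N₀ = p' * aL + q' * (bR + p' * I.natDegree) := rfl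
  have hN₀1 : 1 ≤ N₀ := by
    have h5 : 1 ≤ p' * I.natDegree := Nat.mul_pos hp' he.deg
    have : 1 ≤ q' * (bR + p' * I.natDegree) := Nat.mul_pos hq' (by omega)
    omega
  have hE : ESeq Λ fun m => if N₀ ∣ m then W (p' * (m / N₀)) * t.κ (q' * (m / N₀)) else 0 :=
    hS2.2.2.2 Λ k k' W t.κ aL (bR + p' * I.natDegree) p' q' hp' hq' hW hκ hN₀1 h2
  have hW' : EK (k.comb k' p' q') fun j => W (p' * j) * t.κ (q' * j) :=
    hS2.2.2.1 k k' W t.κ p' q' hp' hq' hW hκ
  have a1 := Sm.pt (P := P) (cf t (edgePart p' q' aL bR I) fun m =>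
    if N₀ ∣ m then W (p' * (m / N₀)) * t.κ (q' * (m / N₀)) else 0) (cf_ok ht.1 _ _) N₀ hN₀1
    (fun j => W (p' * j) * t.κ (q' * j)) rfl hE
  have a2 := Sm.sum (P := P) (Λ := Λ) I.roots.toFinset _ fun R hR =>
    (sm_none (h3 R hR _ hW')).pull ht p' q' (ρ R)
  refine (a1.add a2).congr ?_
  intro E _ Q hQ m j hm hj
  haveI := t.fin
  have h5 := hRY P t G p' q' aL bR I ρ ht he hρ E Q hQ j m hj
  have h6 : ∀ R ∈ I.roots.toFinset, W (p' * j) * t.κ (q' * j) * vS P hsrc (chart p' q' (ρ R) G)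
      (BV.pull t p' q' (ρ R) Q) j (0 * j / 1 + 1) m = W (p' * j) * t.κ (q' * j) *
        (RatFunc.X * vN7 P (chart p' q' (ρ R) G) (BV.pull t p' q' (ρ R) Q) j 1 m) := by
    intro R _
    rw [zero_mul, Nat.zero_div, zero_add, hHS P _ _ _ (QU_pull ht p' q' (ρ R) hQ) j 1 m hj le_rfl]
  change W (p' * j) * (t.κ (q' * j) * e2 P t G Q (p' * j) (q' * j) m) =
    (if m = N₀ * j then W (p' * j) * t.κ (q' * j) * fcla P (cf t (edgePart p' q' aL bR I) _) Q
      else 0) + ∑ R ∈ I.roots.toFinset, W (p' * j) * t.κ (q' * j) *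
        vS P hsrc (chart p' q' (ρ R) G) (BV.pull t p' q' (ρ R) Q) j (0 * j / 1 + 1) m
  rw [Finset.sum_congr rfl h6, h5, fcla_cf P ht.1 _ _ hQ, ← Finset.mul_sum _ _ (W (p' * j) * t.κ (q' * j))]
  split_ifs
  · ring
  · ring

theorem case_step (hST : Stmt_ST7) (hCN : Stmt_CN7) (hRY : Stmt_RY7) (hHS : Stmt_HS7)
    (hSB : PC.Stmt_SB) (hS2 : Stmt_SQ72) {P : HodgeMeasure} {Λ : Set ℚ} {k k' : Kd} {s : Src}
    {W : ℕ → K} (hs : s.Ok P k') (hW : EK k W) (G : P2) (p q p' q' aL bR : ℕ)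
    (I : Polynomial ℂ) (hp : 1 ≤ p)
    (hpq : q * p' < q' * p) (he : IsEdge G p' q' aL bR I)
    (h1 : Low p q (p * aL + q * (bR + p' * I.natDegree)) G)
    (hN : 1 ≤ p * aL + q * (bR + p' * I.natDegree))
    (h2 : Rt Λ k k' aL (bR + p' * I.natDegree) p' q')
    (h3 : ∀ lam : ℂ, lam ≠ 0 → I.eval (lam ^ p') = 0 → ∀ W' : ℕ → K,
      EK (k.comb k' p' q') W' → RE' P Λ hsrc (chart p' q' lam G) W' 1 0 none)
    (h4 : RE' P Λ s G W p' q' none) :
    RE' P Λ s G W p q (some (I.leadingCoeff, aL, bR + p' * I.natDegree, p', q')) := by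
  classical
  set B := bR + p' * I.natDegree with hB
  have hp' := he.hp
  have hq' := he.hq
  have hB1 : 1 ≤ B := by
    have : 1 ≤ p' * I.natDegree := Nat.mul_pos hp' he.deg
    omega
  have hNN : 1 ≤ p' * aL + q' * B := by
    have : 1 ≤ q' * B := Nat.mul_pos hq' hB1
    omega
  have hroot : ∀ R : ℂ, ∃ z : ℂ, z ^ p' = R := fun R => IsAlgClosed.exists_pow_nat_eq R (by omega)
  choose ρ hρ using hroot
  have hch : ∀ R ∈ I.roots.toFinset, ∀ W' : ℕ → K, EK (k.comb k' p' q') W' →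
      RE' P Λ hsrc (chart p' q' (ρ R) G) W' 1 0 none := by
    intro R hR
    rw [Multiset.mem_toFinset, Polynomial.mem_roots'] at hR
    refine h3 (ρ R) ?_ ?_
    · intro h0
      have h5 : R = 0 := by
        rw [← hρ R, h0, zero_pow (by omega)]
      have h6 := hR.2
      rw [h5, Polynomial.IsRoot, ← Polynomial.coeff_zero_eq_eval_zero] at h6
      exact he.coeff_zero h6
    · rw [hρ R]
      exact hR.2
  have hcG : G.coeff (mon aL B) = I.leadingCoeff := VRE_.coeff_edge he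
  have hcG0 : G.coeff (mon aL B) ≠ 0 := by
    rw [hcG]
    intro h9
    rw [Polynomial.leadingCoeff_eq_zero] at h9
    have h5 := he.deg
    rw [h9, Polynomial.natDegree_zero] at h5
    omega
  have hlow' : Low p' q' (p' * aL + q' * B) G := VRE_.low_of_edge he
  -- the rays
  have hray : Sm P Λ (fun E _ Q m k₁ => if p' ∣ k₁ then (s.ts.map fun t => W (p' * (k₁ / p')) *
      (t.κ (q' * (k₁ / p')) * e2 P t G Q (p' * (k₁ / p')) (q' * (k₁ / p')) m)).sum else 0) :=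
    (Sm.lsum (P := P) (Λ := Λ) s.ts (fun t E _ Q m j => W (p' * j) * (t.κ (q' * j) *
      e2 P t G Q (p' * j) (q' * j) m)) fun t ht => ray_one hRY hHS hS2 hW (hs.1 t ht).1
        (hs.1 t ht).2 G p' q' aL bR I he ρ hρ h2 hch).dvd p' hp'
  obtain ⟨F₁, hF₁, C₁, hC₁⟩ := hray.add (sm_none h4)
  refine ⟨F₁, hF₁, (p + p') + C₁, ?_⟩
  intro E _ Q hQ m N hm hC0
  have hm1 : (p + p') * m ≤ N := le_trans (Nat.mul_le_mul_right m (by omega)) hC0
  have hm2 : C₁ * m ≤ N := le_trans (Nat.mul_le_mul_right m (by omega)) hC0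
  rw [← hC₁ E Q hQ m N hm hm2]
  have e : ∀ k₁ ∈ Finset.Icc 1 N, W k₁ * vS P s G Q k₁ (q * k₁ / p + 1) m =
      W k₁ * (∑ l ∈ Finset.Ico (q * k₁ / p + 1) (VRE_.l1 p' q' k₁),
        (if m = aL * k₁ + B * l then (s.ts.map fun t => t.κ l *
          c2a P t (C I.leadingCoeff * X 0 ^ aL * X 1 ^ B) Q).sum else 0)) +
      ((if p' ∣ k₁ then (s.ts.map fun t => W (p' * (k₁ / p')) *
      (t.κ (q' * (k₁ / p')) * e2 P t G Q (p' * (k₁ / p')) (q' * (k₁ / p')) m)).sum else 0) +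
        W k₁ * vS P s G Q k₁ (q' * k₁ / p' + 1) m) := by
    intro k₁ hk
    have hk1 := (Finset.mem_Icc.1 hk).1
    have h5 := per_k hST hCN hs G p q p' q' aL B hpq hcG0 h1 hlow' hQ k₁ m (q * k₁ / p + 1) hk1
      (Nat.le_add_left 1 _) ((VRE_.lt_iff_div hp).1 le_rfl) (VRE_.l1 p' q' k₁) (VRE_.L_le hp' he.cop hpq hk1)
      (fun i _ hi => (VRE_.l1_iff hp' he.cop i).1 hi)
    rw [h5, mul_add, hcG]
    congr 1
    rw [VRE_.l1]
    split_ifs with hd
    · obtain ⟨j, rfl⟩ := hd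
      have hj : 1 ≤ j := by
        rcases Nat.eq_zero_or_pos j with h | h
        · subst h; simp at hk1
        · exact h
      rw [Nat.mul_div_cancel_left j (by omega), show q' * (p' * j) = p' * (q' * j) by ring,
        Nat.mul_div_cancel_left (q' * j) (by omega),
        vS_step hST hs G hQ m hk1 (Nat.mul_pos hq' hj), mul_add, List.sum_map_mul_left]
    · rw [zero_add]
  rw [Finset.sum_congr rfl e, Finset.sum_add_distrib]
  congr 1
  refine cone_list hSB W p q aL B p' q' m N hpq hN hNN hm1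
    (fun k₁ => Finset.Ico (q * k₁ / p + 1) (VRE_.l1 p' q' k₁)) ?_ s.ts
    (fun t => c2a P t (C I.leadingCoeff * X 0 ^ aL * X 1 ^ B) Q)
  intro k₁ hk l hl
  rw [Finset.mem_Ico, VRE_.lt_iff_div hp, VRE_.l1_iff hp' he.cop]

theorem case_close (hS3 : Stmt_SQ73) (hS4 : Stmt_SQ74) {P : HodgeMeasure} {Λ : Set ℚ}
    (hΛ : Λ ⊆ Set.Ioi 0) {k k' : Kd} (hr : 0 < k.r) {s : Src} {W : ℕ → K} (hs : s.Is P k')
    (hW : EK k W) (G : P2) (p q : ℕ) (c : ℂ) (A B p' q' : ℕ) (hc : c ≠ 0) (hp : 1 ≤ p)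
    (hpq : q * p' < q' * p) (h2 : ClV Λ k k' p q A B p' q')
    (h1 : RE' P Λ s G W p q (some (c, A, B, p', q'))) : RE' P Λ s G W p q none := by
  obtain ⟨F, hF, C₀, h⟩ := h1
  have h5 : HasT P Λ (fun E _ Q m => (s.ts.map fun t => coneW W t.κ p q A B p' q' m *
      c2a P t (C c * X 0 ^ A * X 1 ^ B) Q).sum) := by
    obtain ⟨n1, n2, h2 | h2⟩ := h2
    · refine HasT.lsum s.ts _ fun t ht => ?_
      refine (HasT.single (P := P) (cf t (C c * X 0 ^ A * X 1 ^ B) fun m =>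
        coneW W t.κ p q A B p' q' m) (cf_ok (hs.1.1 t ht).1.1 _ _)
        (hS3 Λ k k' W t.κ p q A B p' q' hpq n1 n2 hW (hs.1.1 t ht).2 h2.1 h2.2)).congr ?_
      intro E _ Q hQ m hm
      rw [fcla_cf P (hs.1.1 t ht).1.1 _ _ hQ]
      rfl
    · obtain ⟨rfl, rfl, rfl, rfl, h3⟩ := h2
      obtain rfl := hs.2.1 rfl
      rw [mul_one] at n1
      obtain ⟨a, κ, e1, e2⟩ := hS4 Λ k W p q A hΛ hp n1 hr hW h3
      refine ((HasT.haar (P := P) (Λ := Λ) (hta a) (hta_ok a).1 (hta_ok a).2).add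
        (HasT.single (P := P) (cf (haar 1) (C c * X 0 ^ A * X 1 ^ 1) κ)
          (cf_ok (haar_good 1).1 _ _) e1)).congr ?_
      intro E _ Q hQ m hm
      rw [fcla_cf P (haar_good 1).1 _ _ hQ, ← c2a_haar P a c hc A hQ]
      change ([haar 1].map fun t => _).sum = a * xq ^ m * _ + κ m * _
      simp only [List.map_cons, List.map_nil, List.sum_cons, List.sum_nil, add_zero]
      have e3 : (haar 1).κ = fun l => xq ^ l := by
        funext l
        exact one_mul _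
      rw [e3, e2 m hm]
      ring
  refine ⟨_, h5.add hF, C₀, ?_⟩
  intro E _ Q hQ m N hm hN
  rw [h E Q hQ m N hm hN]
  exact (zero_add _).symm

theorem case_coord (hSH : Stmt_SH7) (hHS : Stmt_HS7) (P : HodgeMeasure)
    (Λ : Set ℚ) (W : ℕ → K) (G : P2) (p q : ℕ) (o : Option (ℂ × ℕ × ℕ × ℕ × ℕ)) (ψ : Polynomial ℂ)
    (hψ : ∀ j ∈ ψ.support, q < p * j) (h : RE' P Λ hsrc (shift ψ G) W p q o) :
    RE' P Λ hsrc G W p q o := by
  obtain ⟨F, hF, C₀, h⟩ := h
  refine ⟨F, hF, C₀, ?_⟩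
  intro E _ Q hQ m N hm hN
  rw [← h E Q hQ m N hm hN]
  refine Finset.sum_congr rfl fun k hk => ?_
  have hk1 := (Finset.mem_Icc.1 hk).1
  rw [hHS P G E Q hQ k (q * k / p + 1) m hk1 (Nat.le_add_left 1 _),
    hHS P (shift ψ G) E Q hQ k (q * k / p + 1) m hk1 (Nat.le_add_left 1 _),
    hSH P G k (q * k / p + 1) ψ ?_ E Q hQ m]
  intro j hj
  have h5 := hψ j hj
  have hp : 1 ≤ p := by
    rcases Nat.eq_zero_or_pos p with h | h
    · subst h; simp at h5
    · exact h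
  rw [VRE_.lt_iff_div hp]
  calc q * k < p * j * k := (Nat.mul_lt_mul_right (by omega)).2 h5
    _ = p * (k * j) := by ring

end RE7Aux

open RE7Aux in
/-- the recursion, exact part -/
theorem stmt_RE7 (hCN : Stmt_CN7) (hZR : Stmt_ZR7) (hRY : Stmt_RY7) (hVF : Stmt_VF7)
    (hSH : Stmt_SH7) (hHS : Stmt_HS7) (hST : Stmt_ST7) (hS2 : Stmt_SQ72) (hS3 : Stmt_SQ73)
    (hS4 : Stmt_SQ74) : Stmt_RE7 := by
  intro P Λ k k' G p q o s W hΛ hr h hs hW
  refine re_of ?_
  have hSB := PC.stmt_SB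
  induction h generalizing s W with
  | fin0 k k' G p q A hp hA h1 h2 h3 =>
    exact case_fin0 hCN hZR hS2 hs.1 hW G p q A hp hA h1 h2 h3
  | fin1 k g h p q A₁ A₂ B hp hB g1 g2 g3 h1 h2 hN =>
    obtain rfl := hs.2.1 rfl
    exact case_fin1 hVF hHS hSB P Λ W g h p q A₁ A₂ B hp hB g1 g2 g3 h1 h2 hN
  | fin2 k k' G p q A B hp hB h1 h2 h3 hN =>
    exact case_fin2 hCN hZR hSB Λ W hs.1 G p q A B hp hB h1 h2 h3 hN
  | step k k' G p q p' q' aL bR I hp hpq he h1 hN h2 _ _ ih3 ih4 =>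
    refine case_step hST hCN hRY hHS hSB hS2 hs.1 hW G p q p' q' aL bR I hp hpq he h1 hN h2
      (fun lam hl hr' W' hW' => ih3 lam hl hr' hsrc W' ?_ (hsrc_is P) hW') (ih4 s W hr hs hW)
    have h5 : (0 : ℚ) < p' := by exact_mod_cast he.hp
    have h6 : (0 : ℚ) < q' := by exact_mod_cast he.hq
    exact add_pos (mul_pos h5 hr) (mul_pos h6 hs.2.2)
  | close k k' G p q c A B p' q' h1 h2 ih =>
    obtain ⟨hc, hpq, hp, -⟩ := rvf h1 c A B p' q' rfl
    exact case_close hS3 hS4 hΛ hr hs hW G p q c A B p' q' hc hp hpq h2 (ih s W hr hs hW)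
  | coord k G p q o ψ hψ h ih =>
    obtain rfl := hs.2.1 rfl
    exact case_coord hSH hHS P Λ W G p q o ψ hψ (ih hsrc W hr hs hW)

end Pool.Agent.Mono.BV
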