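import Pool.Agent.Work.Monodromy7.DEC7
import Pool.Agent.Work.Monodromy7.RE7
import Pool.Agent.Work.Monodromy6.TI
import Pool.Agent.Work.Monodromy6.VM0

/-!
# Block LM7: the mass at the origin
-/

set_option autoImplicit false

namespace Pool.Agent.Mono.BV

open MvPolynomial TS RO PC

namespace LM7Aux

open VRMAux SRX PK7Aux DEC7 MU7Aux

/-! ## Double sums -/

/-- sums of levels, in both orders -/
theorem dbl (a : ℕ → ℕ → ℝ) (s E : ℕ → ℝ) (hE : Summable E) (h : ∀ k, HB (a k) (s k) (E k)) :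
    ∃ (T : ℝ) (A : ℕ → ℝ), HasSum s T ∧ HasSum A T ∧ ∀ m, HasSum (fun k => a k m) (A m) := by
  have hE0 : ∀ k, 0 ≤ E k := fun k => (h k).nonneg
  set F : ℕ × ℕ → ℝ := fun z => a z.1 z.2 with hF
  have hsumF : Summable F := by
    apply Summable.of_abs
    refine summable_of_sum_le (c := ∑' k, E k) (fun z => abs_nonneg _) fun u => ?_
    have h2 : u ⊆ u.image Prod.fst ×ˢ u.image Prod.snd := by
      intro z hz
      rw [Finset.mem_product]
      exact ⟨Finset.mem_image_of_mem _ hz, Finset.mem_image_of_mem _ hz⟩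
    calc ∑ z ∈ u, |F z| ≤ ∑ z ∈ u.image Prod.fst ×ˢ u.image Prod.snd, |F z| :=
          Finset.sum_le_sum_of_subset_of_nonneg h2 fun _ _ _ => abs_nonneg _
      _ = ∑ k ∈ u.image Prod.fst, ∑ m ∈ u.image Prod.snd, |F (k, m)| := Finset.sum_product _ _ _
      _ ≤ ∑ k ∈ u.image Prod.fst, E k := Finset.sum_le_sum fun k _ => (h k).2 _
      _ ≤ ∑' k, E k := hE.sum_le_tsum _ fun k _ => hE0 k
  have hsw : Summable fun z : ℕ × ℕ => F (z.2, z.1) :=
    (Equiv.prodComm ℕ ℕ).summable_iff.2 hsumF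
  have hsw' : HasSum (fun z : ℕ × ℕ => F (z.2, z.1)) (∑' z, F z) :=
    (Equiv.prodComm ℕ ℕ).hasSum_iff.2 hsumF.hasSum
  have hfib : ∀ m, Summable fun k => F (k, m) := fun m => hsw.prod_factor m
  refine ⟨∑' z, F z, fun m => ∑' k, F (k, m), ?_, ?_, fun m => (hfib m).hasSum⟩
  · exact hsumF.hasSum.prod_fiberwise fun k => (h k).1
  · exact hsw'.prod_fiberwise fun m => (hfib m).hasSum

/-- a tail as a sum over all indices -/
theorem tail {f b : ℕ → ℝ} (h : ∀ L, HasSum (fun i => f (L + i)) (b L)) {L : ℕ} (hL : 1 ≤ L) :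
    HasSum (fun l : ℕ => if L ≤ l + 1 then f l else 0) (b (L - 1)) := by
  obtain ⟨L', rfl⟩ := Nat.exists_eq_add_of_le' hL
  rw [Nat.add_sub_cancel]
  have h2 := (hasSum_nat_add_iff (f := fun l : ℕ => if L' + 1 ≤ l + 1 then f l
    else 0) L' (g := b L')).1 ?_
  · have h3 : ∑ i ∈ Finset.range L', (if L' + 1 ≤ i + 1 then f i else 0) = 0 := by
      apply Finset.sum_eq_zero
      intro i hi
      rw [Finset.mem_range] at hi
      rw [if_neg (by omega)]
    rw [h3, add_zero] at h2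
    exact h2
  · have h6 : (fun n => if L' + 1 ≤ n + L' + 1 then f (n + L') else 0) =
        fun n => f (L' + n) := by
      funext n
      rw [if_pos (by omega), add_comm]
    change HasSum (fun n => if L' + 1 ≤ n + L' + 1 then f (n + L') else 0) _
    rw [h6]
    exact h L'

/-- the two halves of the quadrant -/
theorem halves {a a' b b' : ℕ → ℝ} (h : ∀ L, HasSum (fun i => a (L + i)) (b L))
    (h' : ∀ L, HasSum (fun i => a' (L + i)) (b' L)) (ha : Summable fun i => |a i|)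
    (ha' : Summable fun i => |a' i|) {p q : ℕ} (hp : 1 ≤ p)
    (hq : 1 ≤ q) (hc : p.Coprime q) {T₁ T₂ : ℝ}
    (hT₁ : HasSum (fun k : ℕ => a k * b' (LA p q (k + 1) - 1)) T₁)
    (hT₂ : HasSum (fun l : ℕ => a' l * b (p * (l + 1) / q)) T₂) :
    T₁ + T₂ = b 0 * b' 0 := by
  set W : ℕ × ℕ → ℝ := fun z => a z.1 * a' z.2 with hW
  have hWs : Summable W := by
    refine summable_mul_of_summable_norm ?_ ?_
    · exact ha
    · exact ha'
  have h0 : HasSum a (b 0) := by
    have := h 0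
    simpa using this
  have h0' : HasSum a' (b' 0) := by
    have := h' 0
    simpa using this
  have hWsum : HasSum W (b 0 * b' 0) := by
    have h2 : HasSum (fun k : ℕ => a k * b' 0) (∑' z, W z) :=
      hWs.hasSum.prod_fiberwise fun k => h0'.mul_left _
    have h3 := h0.mul_right (b' 0)
    rw [← h2.unique h3]
    exact hWs.hasSum
  set W₁ : ℕ × ℕ → ℝ := fun z => if LA p q (z.1 + 1) ≤ z.2 + 1 then W z else 0 with hW₁
  set W₂ : ℕ × ℕ → ℝ := fun z => if p * (z.2 + 1) / q + 1 ≤ z.1 + 1 then W z else 0 with hW₂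
  have hs₁ : Summable W₁ := by
    have h2 := hWs.indicator {z : ℕ × ℕ | LA p q (z.1 + 1) ≤ z.2 + 1}
    refine h2.congr fun z => ?_
    change _ = (if LA p q (z.1 + 1) ≤ z.2 + 1 then W z else 0)
    rw [Set.indicator_apply]
    rfl
  have hs₂ : Summable W₂ := by
    have h2 := hWs.indicator {z : ℕ × ℕ | p * (z.2 + 1) / q + 1 ≤ z.1 + 1}
    refine h2.congr fun z => ?_
    change _ = (if p * (z.2 + 1) / q + 1 ≤ z.1 + 1 then W z else 0)
    rw [Set.indicator_apply]
    rfl
  have hadd : ∀ z, W z = W₁ z + W₂ z := by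
    intro z
    change W z = (if LA p q (z.1 + 1) ≤ z.2 + 1 then W z else 0) +
      (if p * (z.2 + 1) / q + 1 ≤ z.1 + 1 then W z else 0)
    by_cases h : LA p q (z.1 + 1) ≤ z.2 + 1
    · rw [if_pos h, if_neg, add_zero]
      intro h2
      exact (half_iff hp hq hc).1 h2 h
    · rw [if_neg h, if_pos ((half_iff hp hq hc).2 h), zero_add]
  have e₁ : HasSum (fun k : ℕ => a k * b' (LA p q (k + 1) - 1)) (∑' z, W₁ z) := by
    refine hs₁.hasSum.prod_fiberwise fun k => ?_
    have h2 := (tail h' (LA_pos hp hq hc (Nat.le_add_left 1 k))).mul_left (a k)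
    refine h2.congr_fun ?_ |> fun h => h
    intro l
    change (if LA p q (k + 1) ≤ l + 1 then W (k, l) else 0) = _
    split_ifs
    · rfl
    · rw [mul_zero]
  have e₂ : HasSum (fun l : ℕ => a' l * b (p * (l + 1) / q)) (∑' z, W₂ z) := by
    have hsw : HasSum (fun z : ℕ × ℕ => W₂ (z.2, z.1)) (∑' z, W₂ z) :=
      (Equiv.prodComm ℕ ℕ).hasSum_iff.2 hs₂.hasSum
    refine hsw.prod_fiberwise fun l => ?_
    have h2 := (tail h (Nat.le_add_left 1 (p * (l + 1) / q))).mul_left (a' l)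
    rw [Nat.add_sub_cancel] at h2
    refine h2.congr_fun ?_ |> fun h => h
    intro k
    change (if p * (l + 1) / q + 1 ≤ k + 1 then W (k, l) else 0) = _
    split_ifs
    · exact mul_comm _ _
    · rw [mul_zero]
  have h2 : HasSum W (∑' z, W₁ z + ∑' z, W₂ z) := by
    have h3 := hs₁.hasSum.add hs₂.hasSum
    refine h3.congr_fun ?_ |> fun h => h
    exact hadd
  rw [hT₁.unique e₁, hT₂.unique e₂, h2.unique hWsum]

/-! ## Rows -/

section

variable {P : HodgeMeasure} {φ : K →+* ℝ} {s s' : Src} {k₀ k₁ : Kd}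

theorem tails (hφ : 1 < φ RatFunc.X) (h : s.Is P k₀) (L : ℕ) :
    HasSum (fun i => φ (ma P s (L + i + 1))) (φ (s.b L)) := by
  refine (hs_ma hφ h L).congr_fun ?_ |> fun h => h
  intro i
  rw [show L + i + 1 = L + 1 + i by ring]

theorem sm_list' (T : List Fam) (κ : Fam → ℕ → ℝ) (h : ∀ t ∈ T, Summable fun m => κ t m) :
    Summable fun m => (T.map fun t => κ t m).sum := by
  induction T with
  | nil => simp
  | cons t T ih =>
    simp only [List.map_cons, List.sum_cons]
    exact (h t List.mem_cons_self).add (ih fun t' ht' => h t' (List.mem_cons_of_mem _ ht'))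

theorem rowHB (hφ : 1 < φ RatFunc.X) (h : s.Is P k₀) (F : P2) (L : ℕ → ℕ) (B : ℕ → ℝ)
    (h1 : ∀ t ∈ s.ts, ∃ C : ℝ, ∀ k : ℕ, 1 ≤ k →
      HB (fun m => φ (vt P t s' F QF k (L k) m)) (φ (famV P t) * B k) C) :
    ∃ E : ℕ → ℝ, Summable E ∧ ∀ k : ℕ, 1 ≤ k →
      HB (fun m => φ (vT P s s' F QF k (L k) m)) (φ (ma P s k) * B k) (E k) := by
  have h2 : ∀ t : Fam, ∃ C : ℝ, t ∈ s.ts → ∀ k : ℕ, 1 ≤ k →
      HB (fun m => φ (vt P t s' F QF k (L k) m)) (φ (famV P t) * B k) C := by
    intro t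
    by_cases ht : t ∈ s.ts
    · obtain ⟨C, hC⟩ := h1 t ht
      exact ⟨C, fun _ => hC⟩
    · exact ⟨0, fun h => absurd h ht⟩
  choose C hC using h2
  refine ⟨fun k => (s.ts.map fun t => |φ (t.κ k)| * C t).sum, ?_, fun k hk => ?_⟩
  · refine sm_list' s.ts (fun (t : Fam) (k : ℕ) => |φ (t.κ k)| * C t) fun t ht => ?_
    exact (sm hφ h.2.2 (h.1.1 t ht).2).mul_right _
  · have h5 := HB.listSum s.ts
      (fun (t : Fam) (m : ℕ) => φ (t.κ k) * φ (vt P t s' F QF k (L k) m))
      (fun t : Fam => φ (t.κ k) * (φ (famV P t) * B k)) (fun t => |φ (t.κ k)| * C t)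
      fun t ht => (hC t ht k hk).smul _
    refine h5.congr (fun m => ?_) ?_ le_rfl
    · unfold vT
      rw [map_list_sum, List.map_map]
      congr 1
      refine List.map_congr_left fun t _ => ?_
      exact map_mul _ _ _
    · unfold ma
      rw [map_list_sum, List.map_map, ← List.sum_map_mul_right]
      congr 1
      refine List.map_congr_left fun t _ => ?_
      change _ = φ (t.κ k * famV P t) * B k
      rw [map_mul]
      ring

theorem low_zero {p q N : ℕ} {F : P2} (hN : 1 ≤ N) (hF : Low p q N F) :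
    F.coeff (mon 0 0) = 0 := by
  by_contra h
  have h1 := hF _ (mem_support_iff.2 h)
  rw [CLV.mon_apply0, CLV.mon_apply1] at h1
  omega

theorem mass (hST : Stmt_ST7) (hRP : Stmt_RP7) (hSW : Stmt_SW7) (hMU : Stmt_MU7)
    (hφ : 1 < φ RatFunc.X) (h : s.Is P k₀) (h' : s'.Is P k₁) {F : P2} {p q N : ℕ} (hp : 1 ≤ p)
    (hq : 1 ≤ q) (hc : p.Coprime q) (hN : 1 ≤ N) (hF : Low p q N F)
    (h1 : ∀ t ∈ s.ts, ∃ C : ℝ, ∀ k : ℕ, 1 ≤ k →
      HB (fun m => φ (vt P t s' F QF k (LA p q k) m))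
        (φ (famV P t) * φ (s'.b (LA p q k - 1))) C)
    (h2 : ∀ t ∈ s'.ts, ∃ C : ℝ, ∀ k : ℕ, 1 ≤ k →
      HB (fun m => φ (vt P t s (swp F) QF k (p * k / q + 1) m))
        (φ (famV P t) * φ (s.b (p * k / q))) C) :
    HasSum (fun m : ℕ => φ (if m = 0 then 0 else mu P s s' F QF m m))
      (φ (s.b 0 * s'.b 0)) := by
  have h0 := low_zero hN hF
  obtain ⟨E, e1, e2⟩ := rowHB hφ h F (LA p q) (fun k => φ (s'.b (LA p q k - 1))) h1
  obtain ⟨E', e1', e2'⟩ := rowHB hφ h' (swp F) (fun k => p * k / q + 1)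
    (fun k => φ (s.b (p * k / q))) h2
  obtain ⟨T₁, A₁, t1, t2, t3⟩ := dbl
    (fun k m => φ (vT P s s' F QF (k + 1) (LA p q (k + 1)) m)) _ (fun k => E (k + 1))
    ((summable_nat_add_iff 1).2 e1) fun k => e2 (k + 1) (Nat.le_add_left 1 k)
  obtain ⟨T₂, A₂, s1, s2, s3⟩ := dbl
    (fun k m => φ (vT P s' s (swp F) QF (k + 1) (p * (k + 1) / q + 1) m)) _ (fun k => E' (k + 1))
    ((summable_nat_add_iff 1).2 e1') fun k => e2' (k + 1) (Nat.le_add_left 1 k)
  have hT := halves (a := fun i => φ (ma P s (i + 1))) (a' := fun i => φ (ma P s' (i + 1)))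
    (b := fun L => φ (s.b L)) (b' := fun L => φ (s'.b L)) (tails hφ h) (tails hφ h')
    ((summable_nat_add_iff 1).2 (sm_ma hφ h)) ((summable_nat_add_iff 1).2 (sm_ma hφ h'))
    hp hq hc t1 s1
  have h3 := t2.add s2
  rw [hT, ← map_mul] at h3
  refine h3.congr_fun ?_ |> fun h => h
  intro m
  have l1 := (t3 m).tendsto_sum_nat
  have l2 := (s3 m).tendsto_sum_nat
  have l3 := l1.add l2
  refine tendsto_nhds_unique ?_ l3
  rcases Nat.eq_zero_or_pos m with hm | hm
  · subst hm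
    rw [if_pos rfl, map_zero]
    have hz : ∀ n : ℕ, (∑ k ∈ Finset.range n, φ (vT P s s' F QF (k + 1) (LA p q (k + 1)) 0)) +
        ∑ k ∈ Finset.range n, φ (vT P s' s (swp F) QF (k + 1) (p * (k + 1) / q + 1) 0) = 0 := by
      intro n
      have hlow : ∀ (G : P2), G.coeff (mon 0 0) = 0 → ∀ k L : ℕ, 1 ≤ k → 1 ≤ L →
          ∀ d ∈ G.support, 0 < k * d 0 + L * d 1 := by
        intro G hG k L hk hL d hd
        rcases supp_ne hG hd with h4 | h4
        · have := Nat.mul_pos hk h4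
          omega
        · have := Nat.mul_pos hL h4
          omega
      rw [Finset.sum_eq_zero, Finset.sum_eq_zero, add_zero]
      · intro k _
        rw [vT_zero h'.1 CLV.QU_QF (hlow (swp F) (swp_coeff F h0) _ _ (Nat.le_add_left 1 k)
          (Nat.le_add_left 1 _)), map_zero]
      · intro k _
        rw [vT_zero h.1 CLV.QU_QF (hlow F h0 _ _ (Nat.le_add_left 1 k)
          (LA_pos hp hq hc (Nat.le_add_left 1 k))), map_zero]
    refine Filter.Tendsto.congr (fun n => (hz n).symm) tendsto_const_nhds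
  · rw [if_neg (by omega)]
    refine Filter.Tendsto.congr' ?_ tendsto_const_nhds
    rw [Filter.EventuallyEq, Filter.eventually_atTop]
    refine ⟨(p + q) * m, fun n hn => ?_⟩
    have hmn : m ≤ n := by
      calc m = 1 * m := (one_mul m).symm
        _ ≤ (p + q) * m := Nat.mul_le_mul_right _ (by omega)
        _ ≤ n := hn
    rw [← hMU P s s' k₀ k₁ h.1 h'.1 F h0 Empty QF CLV.QU_QF n m hm hmn,
      mu_dec hST hRP hSW h.1 h'.1 h0 CLV.QU_QF hp hq hc hn, map_add, map_sum, map_sum,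
      VM0Aux.sum_Icc_shift, VM0Aux.sum_Icc_shift]

theorem vt_gr (P : HodgeMeasure) (t : Fam) (s' : Src) (F : P2) (k L m : ℕ) :
    vt P t s' F QF k L m = (haveI := t.fin; vS P s' F (full (gr t)) k L m) := by
  unfold vt
  rw [tie_full]

/-- the rows of the closed half above an edge -/
theorem at_LA (hST : Stmt_ST7) (hRY : Stmt_RY7) (hRC : Stmt_RC7)
    (hHS : Stmt_HS7) (hφ : 1 < φ RatFunc.X) (h : s.Is P k₀) (G : P2)
    (p q aL bR : ℕ) (I : Polynomial ℂ) (he : IsEdge G p q aL bR I)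
    (h3 : ∀ lam : ℂ, lam ≠ 0 → I.eval (lam ^ p) = 0 → PK7 P φ hsrc (chart p q lam G) 1 0)
    (h4 : PK7 P φ s G p q) {E : Type} [Finite E] {R : Set (E ⊕ Unit → ℂ)} (hR : Constructible R)
    (h0 : ∀ z ∈ R, z (Sum.inr ()) ≠ 0) :
    ∃ C : ℝ, ∀ k : ℕ, 1 ≤ k → HB (fun m => φ (vS P s G (full R) k (LA p q k) m))
      (φ (P.rat.val R) * φ (s.b (LA p q k - 1))) C := by
  have hp := he.hp
  have hq := he.hq
  obtain ⟨C', hC'⟩ := h4 E R hR h0
  obtain ⟨D, hD0, hD⟩ := ray hRY hRC hHS hφ h G p q aL bR I he h3 hR h0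
  refine ⟨D + C', fun k hk => ?_⟩
  unfold LA
  split_ifs with hd
  · obtain ⟨k', rfl⟩ := hd
    have hk' : 1 ≤ k' := by
      rcases Nat.eq_zero_or_pos k' with h | h
      · rw [h] at hk
        omega
      · exact h
    have hL : 1 ≤ q * k' := Nat.mul_pos hq hk'
    rw [Nat.mul_div_cancel_left _ hp]
    have e0 : q * (p * k') / p = q * k' := by
      have : q * (p * k') = p * (q * k') := by ring
      rw [this, Nat.mul_div_cancel_left _ hp]
    have h5 := hC' (p * k') hk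
    rw [e0] at h5
    refine ((hD k' hk').add h5).congr (fun m => ?_) ?_ le_rfl
    · rw [vS_step hST h.1 G (QU_full hR) m hk hL, map_add]
    · rw [← step' h.1 hL, map_add]
      ring
  · refine (hC' k hk).congr (fun _ => rfl) ?_ ?_
    · rw [Nat.add_sub_cancel]
    · linarith

theorem coef_mid {F : P2} {A B : ℕ} {c : ℂ}
    (h1 : Above 1 1 (A + B) (F - C c * X 0 ^ A * X 1 ^ B)) :
    F.coeff (mon A B) = c ∧
      ∀ d ∈ F.support, d ≠ mon A B → A + B < d 0 + d 1 := by
  have hmono : (C c * X 0 ^ A * X 1 ^ B : P2) = monomial (mon A B) c := by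
    rw [X_pow_eq_monomial, X_pow_eq_monomial, C_apply, monomial_mul, monomial_mul, mul_one,
      mul_one, zero_add]
    rfl
  constructor
  · by_contra h
    have h3 : mon A B ∈ (F - C c * X 0 ^ A * X 1 ^ B).support := by
      rw [mem_support_iff, coeff_sub, hmono, coeff_monomial, if_pos rfl, sub_ne_zero]
      exact h
    have h4 := h1 _ h3
    rw [CLV.mon_apply0, CLV.mon_apply1] at h4
    omega
  · intro d hd h
    have h3 : d ∈ (F - C c * X 0 ^ A * X 1 ^ B).support := by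
      rw [mem_support_iff, coeff_sub, hmono, coeff_monomial, if_neg (Ne.symm h), sub_zero]
      exact mem_support_iff.1 hd
    have h4 := h1 _ h3
    omega

/-- the rows of the closed half when `F` has the leading term `c x^A y^B` -/
theorem at_mid (hCN : Stmt_CN7) (hST : Stmt_ST7) (hφ : 1 < φ RatFunc.X) (h : s.Is P k₀) (F : P2)
    (A B : ℕ) (c : ℂ) (hc : c ≠ 0) (h1 : Above 1 1 (A + B) (F - C c * X 0 ^ A * X 1 ^ B))
    (h4 : PK7 P φ s F 1 1) {E : Type} [Finite E] {R : Set (E ⊕ Unit → ℂ)} (hR : Constructible R)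
    (h0 : ∀ z ∈ R, z (Sum.inr ()) ≠ 0) :
    ∃ C : ℝ, ∀ k : ℕ, 1 ≤ k → HB (fun m => φ (vS P s F (full R) k (LA 1 1 k) m))
      (φ (P.rat.val R) * φ (s.b (LA 1 1 k - 1))) C := by
  obtain ⟨hcoef, hsup⟩ := coef_mid h1
  obtain ⟨C', hC'⟩ := h4 E R hR h0
  obtain ⟨B', hB0, hB'⟩ := bd (sm_ma hφ h)
  refine ⟨|φ (P.rat.val R)| * B' + C', fun k hk => ?_⟩
  have hLA : LA 1 1 k = k := by
    unfold LA
    rw [if_pos (one_dvd k), Nat.div_one, one_mul]
  have h5 := hC' k hk
  rw [one_mul, Nat.div_one] at h5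
  rw [hLA]
  have h6 := HB.single (A * k + B * k) (φ (P.rat.val R) * φ (ma P s k))
  refine (h6.add h5).congr (fun m => ?_) ?_ ?_
  · rw [vS_step hST h.1 F (QU_full hR) m hk hk, map_add]
    congr 1
    have h7 : ∀ t ∈ s.ts, t.κ k * e2 P t F (full R) k k m =
        (if m = A * k + B * k then P.rat.val R else 0) * (t.κ k * famV P t) := by
      intro t ht
      rw [hCN P t F A B k k (h.1.1 t ht).1 hk (by rw [hcoef]; exact hc) (fun d hd hne => by
        have h8 := hsup d hd hne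
        rw [← add_mul, ← add_mul]
        exact Nat.mul_lt_mul_of_pos_right h8 hk) E (full R) (QU_full hR) m, hcoef,
        c2a_full P (h.1.1 t ht).1 hc A B hR h0]
      split_ifs
      · ring
      · ring
    rw [List.map_congr_left h7, List.sum_map_mul_left]
    split_ifs
    · rw [map_mul]
      rfl
    · rw [zero_mul, map_zero]
  · rw [← step' h.1 hk, map_add]
    ring
  · rw [abs_mul]
    have := mul_le_mul_of_nonneg_left (hB' k) (abs_nonneg (φ (P.rat.val R)))
    linarith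

/-! ## Rows only -/

theorem mu_rows (hST : Stmt_ST7) (hRP : Stmt_RP7) (h : s.Ok P k₀) (h' : s'.Ok P k₁) {F : P2}
    (h0 : F.coeff (mon 0 0) = 0) {E : Type} [Finite E] {Q : Set (E ⊕ Unit → ℂ)} (hQ : QU Q)
    {M m : ℕ} (hm : m ≤ M) :
    mu P s s' F Q M m = ∑ k ∈ Finset.Icc 1 M, vT P s s' F Q k 1 m +
      s.b M * ∑ l ∈ Finset.Icc 1 M, yS P s' (swp F) Q m l := by
  rw [mu_eq]
  congr 1
  rw [Finset.mul_sum, ← Finset.sum_add_distrib]
  refine Finset.sum_congr rfl fun k hk => ?_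
  rw [Finset.mem_Icc] at hk
  rw [row hST hRP h h' h0 hQ (M := M) hk.1 le_rfl hm (fun h => by omega)]
  rfl

theorem yS_swp (hZR : Stmt_ZR7) (hRP : Stmt_RP7) (h : s.Ok P k₀) {F : P2} {B : ℕ}
    (hc1 : F.coeff (mon 0 B) ≠ 0) (hc2 : ∀ d ∈ F.support, d 0 = 0 → B ≤ d 1) {m l : ℕ}
    (hl : 1 ≤ l) : yS P s (swp F) QF m l = if m = B * l then ma P s l else 0 := by
  have h1 : ∀ t ∈ s.ts, t.κ l * y1 P t (swp F) QF l m =
      (if m = B * l then 1 else 0) * (t.κ l * famV P t) := by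
    intro t ht
    haveI := t.fin
    have hg := (h.1 t ht).1
    rw [(hRP P t t (swp F) hg hg Empty QF CLV.QU_QF l 0 m hl).2, tie_full,
      (hZR P (swp F) l hl (Empty ⊕ t.σ) (full (gr t)) (QU_full (con_gr hg)) m).2 B
        (by rw [TT.coeff_swp]; exact hc1) (fun d hd hd1 => by
          have h2 := hc2 _ (TT.mem_support_swp.1 hd)
          rw [CLV.mon_apply0, CLV.mon_apply1] at h2
          exact h2 hd1), c1a_full P (by rw [TT.coeff_swp]; exact hc1) B (gr_ne hg),
      val_gr P hg]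
    split_ifs
    · ring
    · ring
  rw [yS, List.map_congr_left h1, List.sum_map_mul_left]
  split_ifs
  · rw [one_mul]
    rfl
  · rw [zero_mul]

theorem massB (hZR : Stmt_ZR7) (hST : Stmt_ST7) (hRP : Stmt_RP7) (hφ : 1 < φ RatFunc.X)
    (h : s.Is P k₀) (h' : s'.Is P k₁) {F : P2} (h0 : F.coeff (mon 0 0) = 0) {B : ℕ} (hB : 1 ≤ B)
    (hv : ∀ t ∈ s.ts, ∀ k m : ℕ, 1 ≤ k → vt P t s' F QF k 1 m =
      ∑ l ∈ Finset.Icc 1 m, if m = B * l then famV P t * ma P s' l else 0)
    (hc1 : F.coeff (mon 0 B) ≠ 0) (hc2 : ∀ d ∈ F.support, d 0 = 0 → B ≤ d 1) :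
    HasSum (fun m : ℕ => φ (if m = 0 then 0 else mu P s s' F QF m m))
      (φ (s.b 0 * s'.b 0)) := by
  have h1 := (toAxis (A := 0) (k := 0) (L := 1) (B := B) (v := φ (s.b 0))
    (f := fun m : ℕ => φ (if m = 0 then 0 else mu P s s' F QF m m)) hφ h' hB le_rfl ?_).1
  · rw [Nat.sub_self, ← map_mul] at h1
    exact h1
  · intro m
    have e0 : Finset.Ico 1 (1 + m) = Finset.Icc 1 m := by
      ext l
      rw [Finset.mem_Ico, Finset.mem_Icc]
      omega
    rw [e0]
    rcases Nat.eq_zero_or_pos m with hm | hm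
    · subst hm
      simp
    · rw [if_neg (by omega), mu_rows hST hRP h.1 h'.1 h0 CLV.QU_QF le_rfl]
      have e1 : ∀ k ∈ Finset.Icc 1 m, vT P s s' F QF k 1 m =
          ma P s k * ∑ l ∈ Finset.Icc 1 m, if m = B * l then ma P s' l else 0 := by
        intro k hk
        rw [Finset.mem_Icc] at hk
        unfold vT ma
        rw [← List.sum_map_mul_right]
        congr 1
        refine List.map_congr_left fun t ht => ?_
        rw [hv t ht k m hk.1, mul_assoc]
        congr 1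
        rw [Finset.mul_sum]
        refine Finset.sum_congr rfl fun l _ => ?_
        split_ifs
        · rfl
        · rw [mul_zero]
      have e2 : ∀ l ∈ Finset.Icc 1 m, yS P s' (swp F) QF m l =
          if m = B * l then ma P s' l else 0 := by
        intro l hl
        rw [Finset.mem_Icc] at hl
        exact yS_swp hZR hRP h'.1 hc1 hc2 hl.1
      rw [Finset.sum_congr rfl e1, Finset.sum_congr rfl e2, ← Finset.sum_mul, ← add_mul]
      have e3 : ∑ k ∈ Finset.Icc 1 m, ma P s k + s.b m = s.b 0 := by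
        rw [add_comm]
        exact h.1.2.2 m
      rw [e3, Finset.mul_sum, map_sum]
      refine Finset.sum_congr rfl fun l _ => ?_
      rw [zero_mul, zero_add]
      split_ifs
      · rw [map_mul]
      · rw [mul_zero, map_zero]

/-! ## The axis `s = 0` -/

/-- the restriction to `s = 0` -/
noncomputable def rst : P2 →ₐ[ℂ] Polynomial ℂ := aeval ![0, Polynomial.X]

theorem rst_coeff (F : P2) (j : ℕ) : (rst F).coeff j = F.coeff (mon 0 j) := by
  induction F using MvPolynomial.induction_on' with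
  | monomial d c =>
    unfold rst
    rw [aeval_monomial, coeff_monomial]
    have h1 : (d.prod fun i k => (![0, Polynomial.X] : Fin 2 → Polynomial ℂ) i ^ k) =
        (0 : Polynomial ℂ) ^ d 0 * Polynomial.X ^ d 1 := by
      rw [Finsupp.prod_fintype _ _ (fun i => pow_zero _), Fin.prod_univ_two]
      rfl
    rw [h1]
    by_cases h : d = mon 0 j
    · rw [if_pos h, h, CLV.mon_apply0, CLV.mon_apply1, pow_zero, one_mul]
      change (Polynomial.C c * Polynomial.X ^ j).coeff j = c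
      rw [Polynomial.coeff_C_mul_X_pow, if_pos rfl]
    · rw [if_neg h]
      change (Polynomial.C c * (0 ^ d 0 * Polynomial.X ^ d 1)).coeff j = 0
      rcases Nat.eq_zero_or_pos (d 0) with h2 | h2
      · rw [h2, pow_zero, one_mul, Polynomial.coeff_C_mul_X_pow, if_neg]
        intro h3
        apply h
        ext i
        fin_cases i
        · change d 0 = mon 0 j 0
          rw [CLV.mon_apply0, h2]
        · change d 1 = mon 0 j 1
          rw [CLV.mon_apply1, h3]
      · rw [zero_pow (by omega), zero_mul, mul_zero, Polynomial.coeff_zero]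
  | add p q hp hq => rw [map_add, Polynomial.coeff_add, coeff_add, hp, hq]

/-- the order of `g^B h` on the axis -/
theorem one_axis {g h : P2} {B : ℕ} (g0 : g.coeff (mon 0 0) = 0) (g1 : g.coeff (mon 0 1) ≠ 0)
    (h1 : h.coeff (mon 0 0) ≠ 0) : (g ^ B * h).coeff (mon 0 B) ≠ 0 ∧
      ∀ d ∈ (g ^ B * h).support, d 0 = 0 → B ≤ d 1 := by
  have e0 : (rst g).coeff 0 = 0 := by rw [rst_coeff, g0]
  obtain ⟨v, hv⟩ := Polynomial.X_dvd_iff.2 e0
  have e1 : v.coeff 0 ≠ 0 := by
    have h2 : (rst g).coeff 1 = v.coeff 0 := by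
      rw [hv]
      exact Polynomial.coeff_X_mul v 0
    rw [← h2, rst_coeff]
    exact g1
  have e2 : rst (g ^ B * h) = (v ^ B * rst h) * Polynomial.X ^ B := by
    rw [map_mul, map_pow, hv, mul_pow]
    ring
  constructor
  · rw [← rst_coeff, e2]
    have h3 := Polynomial.coeff_mul_X_pow (v ^ B * rst h) B 0
    rw [zero_add] at h3
    rw [h3, Polynomial.mul_coeff_zero, Polynomial.coeff_zero_eq_eval_zero, Polynomial.eval_pow,
      ← Polynomial.coeff_zero_eq_eval_zero, rst_coeff]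
    exact mul_ne_zero (pow_ne_zero _ e1) h1
  · intro d hd hd0
    by_contra hlt
    have h2 : d = mon 0 (d 1) := by
      ext i
      fin_cases i
      · change d 0 = mon 0 (d 1) 0
        rw [CLV.mon_apply0, hd0]
      · change d 1 = mon 0 (d 1) 1
        rw [CLV.mon_apply1]
    rw [mem_support_iff, h2, ← rst_coeff, e2] at hd
    apply hd
    rw [Polynomial.coeff_mul_X_pow', if_neg (by omega)]

theorem case_one (hHS : Stmt_HS7) (hVF : Stmt_VF7) (hZR : Stmt_ZR7) (hST : Stmt_ST7)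
    (hRP : Stmt_RP7) (hφ : 1 < φ RatFunc.X) (hs : s.Is P k₀) (g h : P2) (B : ℕ) (hB : 1 ≤ B)
    (g0 : g.coeff (mon 0 0) = 0) (g1 : g.coeff (mon 0 1) ≠ 0) (h1 : h.coeff (mon 0 0) ≠ 0) :
    HasSum (fun m : ℕ => φ (if m = 0 then 0 else mu P s hsrc (g ^ B * h) QF m m))
      (φ (s.b 0 * hsrc.b 0)) := by
  obtain ⟨a1, a2⟩ := one_axis (B := B) g0 g1 h1
  have h0 : (g ^ B * h).coeff (mon 0 0) = 0 := by
    by_contra hne
    have h3 := a2 _ (mem_support_iff.2 hne) (CLV.mon_apply0 0 0)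
    rw [CLV.mon_apply1] at h3
    omega
  refine massB hZR hST hRP hφ hs (hsrc_is P) h0 hB (fun t ht k m hk => ?_) a1 a2
  haveI := t.fin
  have hg := (hs.1.1 t ht).1
  have h2 := fin1_eq (P := P) hHS hVF g h 1 0 0 0 B le_rfl hB g1 (fun d _ => Nat.zero_le _)
    (fun d hd hd1 => by
      rcases supp_ne g0 hd with h3 | h3
      · omega
      · omega) h1 (fun d _ => Nat.zero_le _) (con_gr hg) (gr_ne hg) k m hk
  rw [zero_mul, Nat.zero_div, zero_add, val_gr P hg] at h2
  rw [vt_gr]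
  change vS P hsrc (g ^ B * h) (full (gr t)) k 1 m = _
  rw [h2]
  have e0 : Finset.Ico 1 (1 + m) = Finset.Icc 1 m := by
    ext l
    rw [Finset.mem_Ico, Finset.mem_Icc]
    omega
  rw [e0]
  refine Finset.sum_congr rfl fun l _ => ?_
  rw [mul_zero, zero_add, zero_mul, zero_add]

theorem case_axis (hCN : Stmt_CN7) (hZR : Stmt_ZR7) (hST : Stmt_ST7)
    (hRP : Stmt_RP7) (hφ : 1 < φ RatFunc.X) (hs : s.Is P k₀) (hs' : s'.Is P k₁) (F : P2) (B : ℕ)
    (hB : 1 ≤ B) (h1 : F.coeff (mon 0 B) ≠ 0) (h2 : ∀ d ∈ F.support, B ≤ d 1) :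
    HasSum (fun m : ℕ => φ (if m = 0 then 0 else mu P s s' F QF m m))
      (φ (s.b 0 * s'.b 0)) := by
  have h0 : F.coeff (mon 0 0) = 0 := by
    by_contra hne
    have h3 := h2 _ (mem_support_iff.2 hne)
    rw [CLV.mon_apply1] at h3
    omega
  refine massB hZR hST hRP hφ hs hs' h0 hB (fun t ht k m hk => ?_) h1 fun d hd _ => h2 d hd
  haveI := t.fin
  have hg := (hs.1.1 t ht).1
  have h3 := fin2_eq hCN hZR hs' F 1 0 0 B le_rfl hB h1 (fun d hd => by
    rw [mul_zero, zero_mul]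
    exact Nat.zero_le _) h2 (con_gr hg) (gr_ne hg) k m hk
  rw [zero_mul, Nat.zero_div, zero_add, val_gr P hg] at h3
  rw [vt_gr]
  change vS P s' F (full (gr t)) k 1 m = _
  rw [h3]
  have e0 : Finset.Ico 1 (1 + m) = Finset.Icc 1 m := by
    ext l
    rw [Finset.mem_Ico, Finset.mem_Icc]
    omega
  rw [e0]
  refine Finset.sum_congr rfl fun l _ => ?_
  rw [zero_add]

theorem case_ray (hZR : Stmt_ZR7) (hST : Stmt_ST7) (hRP : Stmt_RP7) (hMU : Stmt_MU7)
    (hφ : 1 < φ RatFunc.X) (hs : s.Is P k₀) (hs' : s'.Is P k₁) (F : P2)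
    (h1 : ∀ d ∈ F.support, 1 ≤ d 0) (hPK : PK7 P φ s' F 1 0) :
    HasSum (fun m : ℕ => φ (if m = 0 then 0 else mu P s s' F QF m m))
      (φ (s.b 0 * s'.b 0)) := by
  have h0 : F.coeff (mon 0 0) = 0 := by
    by_contra hne
    have h3 := h1 _ (mem_support_iff.2 hne)
    rw [CLV.mon_apply0] at h3
    omega
  obtain ⟨E, e1, e2⟩ := rowHB hφ hs F (s' := s') (fun _ => 1) (fun _ => φ (s'.b 0)) (fun t ht => by
    haveI := t.fin
    have hg := (hs.1.1 t ht).1
    obtain ⟨C, hC⟩ := hPK (Empty ⊕ t.σ) (gr t) (con_gr hg) (gr_ne hg)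
    refine ⟨C, fun k hk => ?_⟩
    have h2 := hC k hk
    rw [zero_mul, Nat.zero_div, zero_add, val_gr P hg] at h2
    exact h2.congr (fun m => by rw [vt_gr]) rfl le_rfl)
  obtain ⟨T, A, t1, t2, t3⟩ := dbl
    (fun k m => φ (vT P s s' F QF (k + 1) 1 m)) _ (fun k => E (k + 1))
    ((summable_nat_add_iff 1).2 e1) fun k => e2 (k + 1) (Nat.le_add_left 1 k)
  have hT : T = φ (s.b 0 * s'.b 0) := by
    have h2 : HasSum (fun i => φ (ma P s (i + 1))) (φ (s.b 0)) := by
      have h3 := tails hφ hs 0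
      simpa using h3
    rw [map_mul]
    exact t1.unique (h2.mul_right _)
  rw [hT] at t2
  refine t2.congr_fun ?_ |> fun h => h
  intro m
  have l1 := (t3 m).tendsto_sum_nat
  refine tendsto_nhds_unique ?_ l1
  rcases Nat.eq_zero_or_pos m with hm | hm
  · subst hm
    rw [if_pos rfl, map_zero]
    have hz : ∀ n : ℕ, ∑ k ∈ Finset.range n, φ (vT P s s' F QF (k + 1) 1 0) = 0 := by
      intro n
      apply Finset.sum_eq_zero
      intro k _
      rw [vT_zero hs.1 CLV.QU_QF, map_zero]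
      intro d hd
      have := h1 d hd
      have h3 : 0 < (k + 1) * d 0 := Nat.mul_pos (Nat.succ_pos k) this
      omega
    exact Filter.Tendsto.congr (fun n => (hz n).symm) tendsto_const_nhds
  · rw [if_neg (by omega)]
    refine Filter.Tendsto.congr' ?_ tendsto_const_nhds
    rw [Filter.EventuallyEq, Filter.eventually_atTop]
    refine ⟨m, fun n hn => ?_⟩
    rw [← hMU P s s' k₀ k₁ hs.1 hs'.1 F h0 Empty QF CLV.QU_QF n m hm hn,
      mu_rows hST hRP hs.1 hs'.1 h0 CLV.QU_QF hn]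
    have h4 : ∑ l ∈ Finset.Icc 1 n, yS P s' (swp F) QF m l = 0 := by
      apply Finset.sum_eq_zero
      intro l hl
      rw [Finset.mem_Icc] at hl
      rw [yS]
      apply List.sum_eq_zero
      intro x hx
      obtain ⟨t, ht, rfl⟩ := List.mem_map.1 hx
      haveI := t.fin
      have hg := (hs'.1.1 t ht).1
      rw [(hRP P t t (swp F) hg hg Empty QF CLV.QU_QF l 0 m hl.1).2,
        (hZR P (swp F) l hl.1 (Empty ⊕ t.σ) (tie t QF) (QU_tie hg CLV.QU_QF) m).1 (fun d hd => by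
          have h2 := h1 _ (TT.mem_support_swp.1 hd)
          rwa [CLV.mon_apply0] at h2), mul_zero]
    rw [h4, mul_zero, add_zero, map_sum, VM0Aux.sum_Icc_shift]

/-! ## Symmetry and coordinate changes -/

theorem mu_swp (hSW : Stmt_SW7) (h : s.Ok P k₀) (h' : s'.Ok P k₁) (F : P2) {E : Type} [Finite E]
    {Q : Set (E ⊕ Unit → ℂ)} (hQ : QU Q) (M m : ℕ) :
    mu P s' s (swp F) Q M m = mu P s s' F Q M m := by
  rw [mu_eq, mu_eq, TT.swp_swp, Finset.sum_comm]
  have e1 : ∑ k ∈ Finset.Icc 1 M, ∑ l ∈ Finset.Icc 1 M, aS P s' s (swp F) Q m l k =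
      ∑ k ∈ Finset.Icc 1 M, ∑ l ∈ Finset.Icc 1 M, aS P s s' F Q m k l :=
    Finset.sum_congr rfl fun k _ => Finset.sum_congr rfl fun l _ => aS_swp hSW h h' F hQ m k l
  rw [e1]
  ring

theorem shift_zero_coeff (ψ : Polynomial ℂ) (h0 : ψ.coeff 0 = 0) (F : P2) :
    (shift ψ F).coeff (mon 0 0) = F.coeff (mon 0 0) := by
  have h5 : mon 0 0 = 0 := by simp [mon]
  rw [h5]
  have h1 : ∀ F : P2, constantCoeff (shift ψ F) = constantCoeff F := by
    intro F
    rw [shift]
    induction F using MvPolynomial.induction_on with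
    | C a => simp
    | add p q hp hq => rw [map_add, map_add, map_add, hp, hq]
    | mul_X p i hp =>
      rw [map_mul, map_mul, map_mul, hp, aeval_X]
      fin_cases i
      · simp
      · have h2 : constantCoeff (Polynomial.aeval (X 0 : P2) ψ) = 0 := by
          have h3 : constantCoeff (Polynomial.aeval (X 0 : P2) ψ) =
              Polynomial.eval₂ (RingHom.id ℂ) 0 ψ := by
            rw [Polynomial.aeval_def, Polynomial.hom_eval₂]
            congr 1
            · ext a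
              simp
            · simp
          rw [h3, Polynomial.eval₂_at_zero]
          simpa using h0
        simp [h2]
  exact h1 F

theorem pt0 {Λ : Set ℚ} {k k' : Kd} {F : P2} (h : Pt7 Λ k k' F) : F.coeff (mon 0 0) = 0 := by
  induction h with
  | edge k k' F p q aL bR I he h1 h2 h3 h4 =>
    refine low_zero (N := edgeN p q aL bR I) ?_ (CLV.edge_low he)
    have h5 := he.deg
    have h6 := he.hp
    have h7 := he.hq
    have h8 : 1 ≤ p * I.natDegree := Nat.mul_pos h6 h5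
    have h9 : 1 ≤ q * (bR + p * I.natDegree) := Nat.mul_pos h7 (by omega)
    unfold edgeN
    omega
  | two k k' F A B c p' q' p'' q'' hA hB h1 h2 h3 h4 =>
    by_contra hne
    have h5 := (coef_mid h1).2 _ (mem_support_iff.2 hne) (fun h => by
      have := (CLV.mon_inj h).1
      omega)
    rw [CLV.mon_apply0, CLV.mon_apply1] at h5
    omega
  | one k g h B hB g0 g1 h1 h2 =>
    by_contra hne
    have h3 := (one_axis (B := B) g0 g1 h1).2 _ (mem_support_iff.2 hne) (CLV.mon_apply0 0 0)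
    rw [CLV.mon_apply1] at h3
    omega
  | axis k k' F B hB h1 h2 h3 =>
    by_contra hne
    have h3 := h2 _ (mem_support_iff.2 hne)
    rw [CLV.mon_apply1] at h3
    omega
  | ray k F h1 h2 =>
    by_contra hne
    have h3 := h1 _ (mem_support_iff.2 hne)
    rw [CLV.mon_apply0] at h3
    omega
  | coord k F ψ h0 h ih =>
    rw [← shift_zero_coeff ψ h0]
    exact ih
  | swap k k' F h ih =>
    rw [TT.coeff_swp] at ih
    exact ih

end

end LM7Aux

open LM7Aux SRX VRMAux PK7Aux DEC7 in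
theorem stmt_LM7 (hPK : Stmt_PK7) (hCN : Stmt_CN7) (hZR : Stmt_ZR7) (hRY : Stmt_RY7)
    (hRC : Stmt_RC7) (hVF : Stmt_VF7) (hHS : Stmt_HS7) (hST : Stmt_ST7) (hRP : Stmt_RP7)
    (hSW : Stmt_SW7) (hMU : Stmt_MU7) (hCO : Stmt_CO7) : Stmt_LM7 := by
  intro P φ Λ k k' F s s' hφ h
  induction h generalizing s s' with
  | edge k k' F p q aL bR I he h1 h2 h3 h4 =>
    intro hs hs'
    refine mass hST hRP hSW hMU hφ hs hs' he.hp he.hq he.cop (N := edgeN p q aL bR I) ?_
      (CLV.edge_low he) (fun t ht => ?_) fun t ht => ?_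
    · have h5 := he.deg
      have h6 := he.hp
      have h7 := he.hq
      have h8 : 1 ≤ p * I.natDegree := Nat.mul_pos h6 h5
      have h9 : 1 ≤ q * (bR + p * I.natDegree) := Nat.mul_pos h7 (by omega)
      unfold edgeN
      omega
    · haveI := t.fin
      have hg := (hs.1.1 t ht).1
      obtain ⟨C, hC⟩ := at_LA hST hRY hRC hHS hφ hs' F p q aL bR I he
        (fun lam hl hl2 => hPK P φ Λ _ _ _ 1 0 none hsrc hφ (h2 lam hl hl2) (hsrc_is P))
        (hPK P φ Λ _ _ _ p q none s' hφ h3 hs') (con_gr hg) (gr_ne hg)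
      refine ⟨C, fun k hk => (hC k hk).congr (fun m => by rw [vt_gr]) ?_ le_rfl⟩
      rw [val_gr P hg]
    · haveI := t.fin
      have hg := (hs'.1.1 t ht).1
      obtain ⟨C, hC⟩ := hPK P φ Λ _ _ _ q p none s hφ h4 hs (Empty ⊕ t.σ) (gr t) (con_gr hg)
        (gr_ne hg)
      refine ⟨C, fun k hk => (hC k hk).congr (fun m => by rw [vt_gr]) ?_ le_rfl⟩
      rw [val_gr P hg]
  | two k k' F A B c p' q' p'' q'' hA hB h1 h2 h3 h4 =>
    intro hs hs'
    obtain ⟨hc1, hc2⟩ := coef_mid h1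
    have hc : c ≠ 0 := (RE7Aux.rvf h2 c A B p' q' rfl).1
    refine mass hST hRP hSW hMU hφ hs hs' le_rfl le_rfl (Nat.coprime_one_left 1) (N := A + B)
      (by omega) ?_ (fun t ht => ?_) fun t ht => ?_
    · intro d hd
      by_cases hdm : d = mon A B
      · rw [hdm, CLV.mon_apply0, CLV.mon_apply1]
        omega
      · have := hc2 d hd hdm
        omega
    · haveI := t.fin
      have hg := (hs.1.1 t ht).1
      obtain ⟨C, hC⟩ := at_mid hCN hST hφ hs' F A B c hc h1
        (hPK P φ Λ _ _ _ 1 1 _ s' hφ h2 hs') (con_gr hg) (gr_ne hg)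
      refine ⟨C, fun k hk => (hC k hk).congr (fun m => by rw [vt_gr]) ?_ le_rfl⟩
      rw [val_gr P hg]
    · haveI := t.fin
      have hg := (hs'.1.1 t ht).1
      obtain ⟨C, hC⟩ := hPK P φ Λ _ _ _ 1 1 _ s hφ h3 hs (Empty ⊕ t.σ) (gr t) (con_gr hg)
        (gr_ne hg)
      refine ⟨C, fun k hk => (hC k hk).congr (fun m => by rw [vt_gr]) ?_ le_rfl⟩
      rw [val_gr P hg]
  | one k g h B hB g0 g1 h1 h2 =>
    intro hs hs'
    rw [is_none hs']
    exact case_one hHS hVF hZR hST hRP hφ hs g h B hB g0 g1 h1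
  | axis k k' F B hB h1 h2 h3 =>
    intro hs hs'
    exact case_axis hCN hZR hST hRP hφ hs hs' F B hB h1 h2
  | ray k F h1 h2 =>
    intro hs hs'
    exact case_ray hZR hST hRP hMU hφ hs hs' F h1 (hPK P φ Λ _ _ _ 1 0 none s' hφ h2 hs')
  | coord k F ψ h0 h ih =>
    intro hs hs'
    have h1 := ih s s' hs hs'
    have h2 := is_none hs'
    have h3 := pt0 h
    rw [shift_zero_coeff ψ h0] at h3
    refine h1.congr_fun ?_ |> fun h => h
    intro m
    rcases Nat.eq_zero_or_pos m with hm | hm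
    · rw [if_pos hm, if_pos hm]
    · rw [if_neg (by omega), if_neg (by omega), h2,
        hCO P s k hs.1 F ψ h0 h3 Empty QF CLV.QU_QF m m hm le_rfl]
  | swap k k' F h ih =>
    intro hs hs'
    have h1 := ih s' s hs' hs
    rw [mul_comm] at h1
    refine h1.congr_fun ?_ |> fun h => h
    intro m
    rw [mu_swp hSW hs.1 hs'.1 F CLV.QU_QF]

end Pool.Agent.Mono.BV
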