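import Pool.Agent.Work.Monodromy7.SRX7

/-!
# Block PK7: the arcs over a region with `G = 0` have volume zero
-/

set_option autoImplicit false

namespace Pool.Agent.Mono.BV

open MvPolynomial TS RO PC

namespace PK7Aux

open RO.TG5Aux VRMAux SRX

/-! ## Bounded sums -/

theorem HB.listSum {ι : Type 1} (L : List ι) (f : ι → ℕ → ℝ) (S C : ι → ℝ)
    (h : ∀ i ∈ L, HB (f i) (S i) (C i)) :
    HB (fun m => (L.map fun i => f i m).sum) (L.map S).sum (L.map C).sum := by
  induction L with
  | nil => simpa using HB.zero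
  | cons a L ih =>
    simp only [List.map_cons, List.sum_cons]
    exact (h a List.mem_cons_self).add (ih fun i hi => h i (List.mem_cons_of_mem _ hi))

variable {P : HodgeMeasure} {φ : K →+* ℝ} {s : Src} {k₀ : Kd}

/-- a cone up to the axis -/
theorem toAxis (hφ : 1 < φ RatFunc.X) (h : s.Is P k₀) {A B k L : ℕ} (hB : 1 ≤ B) (hL : 1 ≤ L)
    (v : ℝ) {f : ℕ → ℝ} (hf : ∀ m, f m = ∑ l ∈ Finset.Ico L (L + m),
      if m = A * k + B * l then v * φ (ma P s l) else 0) :
    HB f (v * φ (s.b (L - 1))) (|v| * ∑' m, |φ (ma P s m)|) := by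
  obtain ⟨L, rfl⟩ := Nat.exists_eq_add_of_le' hL
  set e : ℕ → ℕ := fun i => A * k + B * (L + 1 + i) with he
  have hinj : Function.Injective e := by
    intro i j hij
    change A * k + B * (L + 1 + i) = A * k + B * (L + 1 + j) at hij
    have h3 := Nat.add_left_cancel hij
    have h4 := Nat.eq_of_mul_eq_mul_left hB h3
    omega
  have hfe : ∀ i, f (e i) = v * φ (ma P s (L + 1 + i)) := by
    intro i
    rw [hf, Finset.sum_eq_single (L + 1 + i)]
    · rw [if_pos rfl]
    · intro l _ hl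
      rw [if_neg]
      intro h3
      change A * k + B * (L + 1 + i) = _ at h3
      have h4 := Nat.eq_of_mul_eq_mul_left hB (Nat.add_left_cancel h3)
      exact hl h4.symm
    · intro h3
      exfalso
      apply h3
      rw [Finset.mem_Ico]
      have h4 : L + 1 + i ≤ e i := by
        change L + 1 + i ≤ A * k + B * (L + 1 + i)
        exact (Nat.le_mul_of_pos_left _ hB).trans (Nat.le_add_left _ _)
      exact ⟨Nat.le_add_right _ _, by omega⟩
  have hf0 : ∀ m, m ∉ Set.range e → f m = 0 := by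
    intro m hm
    rw [hf]
    apply Finset.sum_eq_zero
    intro l hl
    rw [if_neg]
    intro h3
    apply hm
    rw [Finset.mem_Ico] at hl
    refine ⟨l - (L + 1), ?_⟩
    change A * k + B * (L + 1 + (l - (L + 1))) = m
    rw [Nat.add_sub_cancel' hl.1, h3]
  have h1 := (hs_ma hφ h L).mul_left v
  have hsum : HasSum f (v * φ (s.b L)) := by
    rw [← hinj.hasSum_iff hf0]
    refine h1.congr_fun ?_ |> fun h => h
    intro i
    exact hfe i
  refine ⟨hsum, fun u => ?_⟩
  have h2 := sm_ma hφ h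
  have h3 : Summable fun m => |v| * |φ (ma P s m)| := h2.mul_left _
  have h4 : ∀ m, |f m| = 0 ∨ ∃ i, m = e i := by
    intro m
    by_cases hm : m ∈ Set.range e
    · obtain ⟨i, hi⟩ := hm
      exact Or.inr ⟨i, hi.symm⟩
    · left
      rw [hf0 m hm, abs_zero]
  have h5 : Summable fun i => |f (e i)| := by
    have h6 := (summable_nat_add_iff (L + 1)).2 h3
    refine h6.congr fun i => ?_
    rw [hfe, abs_mul, add_comm]
  have h6 : HasSum (fun m => |f m|) (∑' i, |f (e i)|) := by
    rw [← hinj.hasSum_iff (fun m hm => by rw [hf0 m hm, abs_zero])]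
    exact h5.hasSum
  refine (sum_le_hasSum u (fun _ _ => abs_nonneg _) h6).trans ?_
  rw [← tsum_mul_left]
  have h7 : ∀ i, |f (e i)| = |v| * |φ (ma P s (i + (L + 1)))| := by
    intro i
    rw [hfe, abs_mul, add_comm]
  rw [tsum_congr h7]
  have h8 := h3.sum_add_tsum_nat_add (L + 1)
  rw [← h8]
  have h9 : 0 ≤ ∑ i ∈ Finset.range (L + 1), |v| * |φ (ma P s i)| :=
    Finset.sum_nonneg fun _ _ => mul_nonneg (abs_nonneg _) (abs_nonneg _)
  linarith

/-! ## The step -/

theorem vS_step (hST : Stmt_ST7) (h : s.Ok P k₀) (G : P2) {E : Type} [Finite E]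
    {Q : Set ((E ⊕ Unit) ⊕ Unit → ℂ)} (hQ : QU Q) {k L : ℕ} (m : ℕ) (hk : 1 ≤ k) (hL : 1 ≤ L) :
    vS P s G Q k L m = (s.ts.map fun t => t.κ L * e2 P t G Q k L m).sum +
      vS P s G Q k (L + 1) m := by
  rw [← hST P s k₀ h G E Q hQ k L (L + m) m hk hL (by omega) (by omega)]
  rw [Finset.sum_eq_sum_Ico_succ_bot (by omega : L < L + m + 1)]
  unfold vS
  rw [show L + 1 + m = L + m + 1 by ring, Nat.add_sub_cancel]
  ring

/-- exponents in the open cone -/
theorem cone_min {G : P2} {p q p' q' A B k l : ℕ} (hk : q * k < p * l) (hl : p' * l < q' * k)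
    (h1 : Low p q (p * A + q * B) G) (h2 : Low p' q' (p' * A + q' * B) G) :
    ∀ d ∈ G.support, d ≠ mon A B → A * k + B * l < d 0 * k + d 1 * l := by
  intro d hd hne
  have e1 := h1 d hd
  have e2 := h2 d hd
  obtain ⟨x, hx⟩ := Nat.exists_eq_add_of_lt hk
  obtain ⟨y, hy⟩ := Nat.exists_eq_add_of_lt hl
  by_contra hcon
  have hcon := Nat.le_of_not_lt hcon
  -- work over the integers
  have i1 : ((p : ℤ) * A + q * B) ≤ p * d 0 + q * d 1 := by exact_mod_cast e1
  have i2 : ((p' : ℤ) * A + q' * B) ≤ p' * d 0 + q' * d 1 := by exact_mod_cast e2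
  have i3 : ((d 0 : ℤ) * k + d 1 * l) ≤ A * k + B * l := by exact_mod_cast hcon
  have hk' : (0 : ℤ) < p * l - q * k := by
    have : ((q : ℤ) * k) < p * l := by exact_mod_cast hk
    linarith
  have hl' : (0 : ℤ) < q' * k - p' * l := by
    have : ((p' : ℤ) * l) < q' * k := by exact_mod_cast hl
    linarith
  set a : ℤ := (d 0 : ℤ) - A with ha
  set b : ℤ := (d 1 : ℤ) - B with hb
  have j1 : 0 ≤ p * a + q * b := by rw [ha, hb]; linarith
  have j2 : 0 ≤ p' * a + q' * b := by rw [ha, hb]; linarith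
  have j3 : a * k + b * l ≤ 0 := by rw [ha, hb]; linarith
  -- (p l - q k) (p' a + q' b) + (q' k - p' l) (p a + q b) = (p q' - q p') (a k + b l)
  have j4 : (p * l - q * k) * (p' * a + q' * b) + (q' * k - p' * l) * (p * a + q * b) =
      ((p : ℤ) * q' - q * p') * (a * k + b * l) := by ring
  have hk0 : 0 < k := by
    rcases Nat.eq_zero_or_pos k with h | h
    · rw [h] at hl
      simp at hl
    · exact h
  have hl0 : 0 < l := by
    rcases Nat.eq_zero_or_pos l with h | h
    · rw [h] at hk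
      simp at hk
    · exact h
  have hD : (0 : ℤ) < p * q' - q * p' := by
    by_contra hcon2
    have h3 : (p : ℤ) * q' ≤ q * p' := by linarith [not_lt.1 hcon2]
    have h4 : (q : ℤ) * k < p * l := by linarith
    have h5 : (p' : ℤ) * l < q' * k := by linarith
    have k0 : (0 : ℤ) < k := by exact_mod_cast hk0
    have l0 : (0 : ℤ) < l := by exact_mod_cast hl0
    have p0 : (0 : ℤ) ≤ p := by positivity
    have q0 : (0 : ℤ) ≤ q := by positivity
    have p'0 : (0 : ℤ) ≤ p' := by positivity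
    have q'0 : (0 : ℤ) ≤ q' := by positivity
    have q'1 : (0 : ℤ) < q' := by
      rcases q'0.lt_or_eq with h | h
      · exact h
      · rw [← h, zero_mul] at h5
        nlinarith
    have h6 : (q : ℤ) * p' * l ≤ q * q' * k := by nlinarith
    have h7 : (q : ℤ) * k * q' < p * l * q' := by nlinarith
    have h8 : (p : ℤ) * q' * l ≤ q * p' * l := by nlinarith
    nlinarith
  have j5 : (p * l - q * k) * (p' * a + q' * b) + (q' * k - p' * l) * (p * a + q * b) ≤ 0 := by
    rw [j4]
    exact mul_nonpos_of_nonneg_of_nonpos hD.le j3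
  have j6 : (p' : ℤ) * a + q' * b = 0 := by
    by_contra h
    have h3 : 0 < (p' : ℤ) * a + q' * b := lt_of_le_of_ne j2 (Ne.symm h)
    have h4 := mul_pos hk' h3
    have h5 := mul_nonneg hl'.le j1
    linarith
  have j7 : (p : ℤ) * a + q * b = 0 := by
    by_contra h
    have h3 : 0 < (p : ℤ) * a + q * b := lt_of_le_of_ne j1 (Ne.symm h)
    have h4 := mul_pos hl' h3
    have h5 := mul_nonneg hk'.le j2
    linarith
  have j8 : ((p : ℤ) * q' - q * p') * a = 0 := by linear_combination (q' : ℤ) * j7 - q * j6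
  have j9 : ((p : ℤ) * q' - q * p') * b = 0 := by linear_combination (p : ℤ) * j6 - p' * j7
  have a0 : a = 0 := by
    rcases mul_eq_zero.1 j8 with h | h
    · exact absurd h hD.ne'
    · exact h
  have b0 : b = 0 := by
    rcases mul_eq_zero.1 j9 with h | h
    · exact absurd h hD.ne'
    · exact h
  apply hne
  ext i
  fin_cases i
  · change d 0 = mon A B 0
    rw [CLV.mon_apply0]
    have : (d 0 : ℤ) = A := by linarith
    exact_mod_cast this
  · change d 1 = mon A B 1
    rw [CLV.mon_apply1]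
    have : (d 1 : ℤ) = B := by linarith
    exact_mod_cast this

theorem L_gt {p q k : ℕ} (hp : 1 ≤ p) : q * k < p * (q * k / p + 1) := by
  have h5 := Nat.lt_succ_iff.2 (Nat.le_refl (q * k / p))
  exact lt_of_lt_of_eq ((Nat.div_lt_iff_lt_mul hp).1 h5) (mul_comm _ _)

theorem L_le {p q k l : ℕ} (hp : 1 ≤ p) (h : q * k < p * l) : q * k / p + 1 ≤ l := by
  rw [Nat.succ_le_iff, Nat.div_lt_iff_lt_mul hp, mul_comm l p]
  exact h

section

variable {E : Type} [Finite E] {R : Set (E ⊕ Unit → ℂ)}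

theorem fin0 (hCN : Stmt_CN7) (hZR : Stmt_ZR7) (hφ : 1 < φ RatFunc.X) (h : s.Is P k₀) (G : P2)
    (p q A : ℕ) (hp : 1 ≤ p) (h1 : G.coeff (mon A 0) ≠ 0)
    (h2 : Low p q (p * A) G) (hR : Constructible R) (h0 : ∀ z ∈ R, z (Sum.inr ()) ≠ 0) :
    ∃ C : ℝ, ∀ k : ℕ, 1 ≤ k → HB (fun m => φ (vS P s G (full R) k (q * k / p + 1) m))
      (φ (P.rat.val R) * φ (s.b (q * k / p))) C := by
  obtain ⟨B, hB0, hB⟩ := bd (sm hφ h.2.2 h.1.2.1)
  refine ⟨|φ (P.rat.val R)| * B, fun k hk => ?_⟩
  refine (HB.single (A * k) (φ (P.rat.val R) * φ (s.b (q * k / p)))).congr (fun m => ?_) rfl ?_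
  · have hQ := QU_full hR
    have hz := (hZR P G k hk E (full R) hQ m).2 A h1 fun d hd hd1 => by
      have h3 := h2 d hd
      rw [hd1, mul_zero, add_zero] at h3
      exact le_of_mul_le_mul_left h3 hp
    rw [c1a_full P h1 A h0] at hz
    have hc : ∀ l ∈ Finset.Ico (q * k / p + 1) (q * k / p + 1 + m),
        (s.ts.map fun t => t.κ l * e2 P t G (full R) k l m).sum =
          if m = A * k then P.rat.val R * ma P s l else 0 := by
      intro l hl
      rw [Finset.mem_Ico] at hl
      have h3 : q * k < p * l := (L_gt hp).trans_le (Nat.mul_le_mul_left _ hl.1)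
      have h4 : ∀ d ∈ G.support, d ≠ mon A 0 → A * k + 0 * l < d 0 * k + d 1 * l := by
        intro d hd hne
        rw [zero_mul, add_zero]
        have h5 := h2 d hd
        rcases Nat.eq_zero_or_pos (d 1) with hd1 | hd1
        · rw [hd1, mul_zero, add_zero] at h5
          have h6 := le_of_mul_le_mul_left h5 hp
          have h7 : A ≠ d 0 := by
            intro h8
            apply hne
            ext i
            fin_cases i
            · change d 0 = mon A 0 0
              rw [CLV.mon_apply0, h8]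
            · change d 1 = mon A 0 1
              rw [CLV.mon_apply1, hd1]
          rw [hd1, zero_mul, add_zero]
          exact Nat.mul_lt_mul_of_pos_right (lt_of_le_of_ne h6 h7) hk
        · have h6 : p * (A * k) < p * (d 0 * k + d 1 * l) := by
            calc p * (A * k) = p * A * k := by ring
              _ ≤ (p * d 0 + q * d 1) * k := Nat.mul_le_mul_right _ h5
              _ = p * (d 0 * k) + d 1 * (q * k) := by ring
              _ < p * (d 0 * k) + d 1 * (p * l) :=
                  Nat.add_lt_add_left (Nat.mul_lt_mul_of_pos_left h3 hd1) _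
              _ = p * (d 0 * k + d 1 * l) := by ring
          exact lt_of_mul_lt_mul_left h6 (Nat.zero_le _)
      have h5 : ∀ t ∈ s.ts, t.κ l * e2 P t G (full R) k l m =
          (if m = A * k then P.rat.val R else 0) * (t.κ l * famV P t) := by
        intro t ht
        rw [hCN P t G A 0 k l (h.1.1 t ht).1 hk h1 h4 E (full R) hQ m,
          c2a_full P (h.1.1 t ht).1 h1 A 0 hR h0, zero_mul, add_zero]
        split_ifs
        · ring
        · ring
      rw [List.map_congr_left h5, List.sum_map_mul_left]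
      split_ifs
      · rfl
      · rw [zero_mul]
    unfold vS
    rw [Finset.sum_congr rfl hc, hz]
    split_ifs with hm
    · rw [← Finset.mul_sum, ← map_mul]
      congr 1
      have h6 := sum_Ico h.1 (L := q * k / p + 1) (Nat.le_add_left 1 _) m
      rw [Nat.add_sub_cancel] at h6
      rw [← h6]
      ring
    · rw [Finset.sum_const_zero, mul_zero, add_zero, map_zero]
  · rw [abs_mul]
    exact mul_le_mul_of_nonneg_left (hB _) (abs_nonneg _)

/-- `B ≥ 1` and the axis -/
theorem finB (hφ : 1 < φ RatFunc.X) (h : s.Is P k₀) (G : P2) (p q A B : ℕ) (hB : 1 ≤ B)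
    (hv : ∀ k m : ℕ, 1 ≤ k → vS P s G (full R) k (q * k / p + 1) m =
      ∑ l ∈ Finset.Ico (q * k / p + 1) (q * k / p + 1 + m),
        if m = A * k + B * l then P.rat.val R * ma P s l else 0) :
    ∃ C : ℝ, ∀ k : ℕ, 1 ≤ k → HB (fun m => φ (vS P s G (full R) k (q * k / p + 1) m))
      (φ (P.rat.val R) * φ (s.b (q * k / p))) C := by
  refine ⟨_, fun k hk => toAxis (A := A) (k := k) (L := q * k / p + 1) hφ h hB (Nat.le_add_left 1 _)
    (φ (P.rat.val R)) fun m => ?_⟩
  rw [hv k m hk, map_sum]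
  refine Finset.sum_congr rfl fun l _ => ?_
  split_ifs
  · rw [map_mul]
  · rw [map_zero]

theorem fin2_eq (hCN : Stmt_CN7) (hZR : Stmt_ZR7) (h : s.Is P k₀) (G : P2)
    (p q A B : ℕ) (hp : 1 ≤ p) (hB : 1 ≤ B) (h1 : G.coeff (mon A B) ≠ 0)
    (h2 : Low p q (p * A + q * B) G) (h3 : ∀ d ∈ G.support, B ≤ d 1) (hR : Constructible R)
    (h0 : ∀ z ∈ R, z (Sum.inr ()) ≠ 0) (k m : ℕ) (hk : 1 ≤ k) :
    vS P s G (full R) k (q * k / p + 1) m =
      ∑ l ∈ Finset.Ico (q * k / p + 1) (q * k / p + 1 + m),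
        if m = A * k + B * l then P.rat.val R * ma P s l else 0 := by
  have hQ := QU_full hR
  have hz := (hZR P G k hk E (full R) hQ m).1 fun d hd => hB.trans (h3 d hd)
  have hc : ∀ l ∈ Finset.Ico (q * k / p + 1) (q * k / p + 1 + m),
      (s.ts.map fun t => t.κ l * e2 P t G (full R) k l m).sum =
        if m = A * k + B * l then P.rat.val R * ma P s l else 0 := by
    intro l hl
    rw [Finset.mem_Ico] at hl
    have h4 : q * k < p * l := (L_gt hp).trans_le (Nat.mul_le_mul_left _ hl.1)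
    have h5 : ∀ d ∈ G.support, d ≠ mon A B → A * k + B * l < d 0 * k + d 1 * l := by
      intro d hd hne
      have h6 := h2 d hd
      obtain ⟨e, he⟩ := Nat.exists_eq_add_of_le (h3 d hd)
      rw [he] at h6 ⊢
      rcases Nat.eq_zero_or_pos e with he0 | he0
      · rw [he0, add_zero] at h6 ⊢
        have h7 := le_of_mul_le_mul_left (Nat.le_of_add_le_add_right h6) hp
        have h8 : A ≠ d 0 := by
          intro h9
          apply hne
          ext i
          fin_cases i
          · change d 0 = mon A B 0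
            rw [CLV.mon_apply0, h9]
          · change d 1 = mon A B 1
            rw [CLV.mon_apply1, he, he0, add_zero]
        exact Nat.add_lt_add_right (Nat.mul_lt_mul_of_pos_right (lt_of_le_of_ne h7 h8) hk) _
      · have h7 : p * (A * k + B * l) < p * (d 0 * k + (B + e) * l) := by
          have h8 : p * A ≤ p * d 0 + q * e := by
            have : q * (B + e) = q * B + q * e := by ring
            omega
          calc p * (A * k + B * l) = p * A * k + p * B * l := by ring
            _ ≤ (p * d 0 + q * e) * k + p * B * l :=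
                Nat.add_le_add_right (Nat.mul_le_mul_right _ h8) _
            _ = p * (d 0 * k) + p * B * l + e * (q * k) := by ring
            _ < p * (d 0 * k) + p * B * l + e * (p * l) :=
                Nat.add_lt_add_left (Nat.mul_lt_mul_of_pos_left h4 he0) _
            _ = p * (d 0 * k + (B + e) * l) := by ring
        exact lt_of_mul_lt_mul_left h7 (Nat.zero_le _)
    have h6 : ∀ t ∈ s.ts, t.κ l * e2 P t G (full R) k l m =
        (if m = A * k + B * l then P.rat.val R else 0) * (t.κ l * famV P t) := by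
      intro t ht
      rw [hCN P t G A B k l (h.1.1 t ht).1 hk h1 h5 E (full R) hQ m,
        c2a_full P (h.1.1 t ht).1 h1 A B hR h0]
      split_ifs
      · ring
      · ring
    rw [List.map_congr_left h6, List.sum_map_mul_left]
    split_ifs
    · rfl
    · rw [zero_mul]
  unfold vS
  rw [Finset.sum_congr rfl hc, hz, mul_zero, add_zero]

theorem fin2 (hCN : Stmt_CN7) (hZR : Stmt_ZR7) (hφ : 1 < φ RatFunc.X) (h : s.Is P k₀) (G : P2)
    (p q A B : ℕ) (hp : 1 ≤ p) (hB : 1 ≤ B) (h1 : G.coeff (mon A B) ≠ 0)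
    (h2 : Low p q (p * A + q * B) G) (h3 : ∀ d ∈ G.support, B ≤ d 1) (hR : Constructible R)
    (h0 : ∀ z ∈ R, z (Sum.inr ()) ≠ 0) :
    ∃ C : ℝ, ∀ k : ℕ, 1 ≤ k → HB (fun m => φ (vS P s G (full R) k (q * k / p + 1) m))
      (φ (P.rat.val R) * φ (s.b (q * k / p))) C :=
  finB hφ h G p q A B hB fun k m hk => fin2_eq hCN hZR h G p q A B hp hB h1 h2 h3 hR h0 k m hk

theorem fin1_eq (hHS : Stmt_HS7) (hVF : Stmt_VF7)
    (g h : P2) (p q A₁ A₂ B : ℕ) (hp : 1 ≤ p) (hB : 1 ≤ B)
    (g1 : g.coeff (mon A₁ 1) ≠ 0) (g2 : Low p q (p * A₁ + q) g)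
    (g3 : ∀ d ∈ g.support, d 1 = 0 → p * A₁ + q < p * d 0)
    (h1 : h.coeff (mon A₂ 0) ≠ 0) (h2 : Low p q (p * A₂) h) (hR : Constructible R)
    (h0 : ∀ z ∈ R, z (Sum.inr ()) ≠ 0) (k m : ℕ) (hk : 1 ≤ k) :
    vS P hsrc (g ^ B * h) (full R) k (q * k / p + 1) m =
      ∑ l ∈ Finset.Ico (q * k / p + 1) (q * k / p + 1 + m),
        if m = (B * A₁ + A₂) * k + B * l then P.rat.val R * ma P hsrc l else 0 := by
  have hQ := QU_full hR
  have hg : (haar 1).Good := ((hsrc_ok P).1 (haar 1) (by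
    change haar 1 ∈ [haar 1]
    exact List.mem_singleton_self _)).1
  rw [hHS P _ E (full R) hQ k (q * k / p + 1) m hk (Nat.le_add_left 1 _),
    hVF P g h p q A₁ A₂ B hp hB g1 g2 g3 h1 h2 E (full R) hQ k m hk, Finset.mul_sum]
  have e1 : Finset.Ioc (q * k / p) (q * k / p + m) =
      Finset.Ico (q * k / p + 1) (q * k / p + 1 + m) := by
    ext l
    rw [Finset.mem_Ioc, Finset.mem_Ico]
    omega
  rw [e1]
  refine Finset.sum_congr rfl fun l _ => ?_
  split_ifs
  · rw [c2a_full P hg (mul_ne_zero (pow_ne_zero _ g1) h1) _ B hR h0]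
    have e2 : ma P hsrc l = xq ^ l * famV P (haar 1) := by
      unfold ma
      change ([haar 1].map fun t => t.κ l * famV P t).sum = _
      rw [List.map_cons, List.map_nil, List.sum_cons, List.sum_nil, add_zero]
      change (1 * xq ^ l) * _ = _
      rw [one_mul]
    rw [e2, pow_succ]
    linear_combination (xq ^ l * (P.rat.val R * famV P (haar 1))) * xq_mul
  · rw [mul_zero]

theorem fin1 (hHS : Stmt_HS7) (hVF : Stmt_VF7) (hφ : 1 < φ RatFunc.X)
    (g h : P2) (p q A₁ A₂ B : ℕ) (hp : 1 ≤ p) (hB : 1 ≤ B)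
    (g1 : g.coeff (mon A₁ 1) ≠ 0) (g2 : Low p q (p * A₁ + q) g)
    (g3 : ∀ d ∈ g.support, d 1 = 0 → p * A₁ + q < p * d 0)
    (h1 : h.coeff (mon A₂ 0) ≠ 0) (h2 : Low p q (p * A₂) h) (hR : Constructible R)
    (h0 : ∀ z ∈ R, z (Sum.inr ()) ≠ 0) :
    ∃ C : ℝ, ∀ k : ℕ, 1 ≤ k →
      HB (fun m => φ (vS P hsrc (g ^ B * h) (full R) k (q * k / p + 1) m))
        (φ (P.rat.val R) * φ (hsrc.b (q * k / p))) C :=
  finB hφ (hsrc_is P) _ p q (B * A₁ + A₂) B hB fun k m hk =>
    fin1_eq hHS hVF g h p q A₁ A₂ B hp hB g1 g2 g3 h1 h2 hR h0 k m hk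

/-- descent through the cone -/
theorem cone_desc (hCN : Stmt_CN7) (hST : Stmt_ST7) (h : s.Is P k₀) (G : P2)
    (p q p' q' A B : ℕ) (h1 : G.coeff (mon A B) ≠ 0)
    (h2 : Low p q (p * A + q * B) G) (h3 : Low p' q' (p' * A + q' * B) G)
    (hR : Constructible R) (h0 : ∀ z ∈ R, z (Sum.inr ()) ≠ 0) (k : ℕ) (hk : 1 ≤ k)
    (l₁ : ℕ) (hl₁ : ∀ l < l₁, p' * l < q' * k) (C : ℝ)
    (hC : HB (fun m => φ (vS P s G (full R) k l₁ m))
      (φ (P.rat.val R) * φ (s.b (l₁ - 1))) C) (d : ℕ) :
    ∀ l, l + d = l₁ → q * k < p * l →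
      HB (fun m => φ (vS P s G (full R) k l m)) (φ (P.rat.val R) * φ (s.b (l - 1)))
        (C + |φ (P.rat.val R)| * ∑ i ∈ Finset.Ico l l₁, |φ (ma P s i)|) := by
  induction d with
  | zero =>
    intro l hl _
    rw [add_zero] at hl
    subst hl
    rw [Finset.Ico_self, Finset.sum_empty, mul_zero, add_zero]
    exact hC
  | succ d ih =>
    intro l hl hlk
    have hl1 : 1 ≤ l := by
      rcases Nat.eq_zero_or_pos l with h | h
      · rw [h] at hlk
        simp at hlk
      · exact h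
    have h4 : q * k < p * (l + 1) := hlk.trans_le (Nat.mul_le_mul_left _ (Nat.le_succ l))
    have h5 := ih (l + 1) (by omega) h4
    have h6 := HB.single (A * k + B * l) (φ (P.rat.val R) * φ (ma P s l))
    have hQ := QU_full hR
    have hmin := cone_min hlk (hl₁ l (by omega)) h2 h3
    refine (h6.add h5).congr (fun m => ?_) ?_ ?_
    · rw [vS_step hST h.1 G hQ m hk hl1, map_add]
      congr 1
      have h7 : ∀ t ∈ s.ts, t.κ l * e2 P t G (full R) k l m =
          (if m = A * k + B * l then P.rat.val R else 0) * (t.κ l * famV P t) := by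
        intro t ht
        rw [hCN P t G A B k l (h.1.1 t ht).1 hk h1 hmin E (full R) hQ m,
          c2a_full P (h.1.1 t ht).1 h1 A B hR h0]
        split_ifs
        · ring
        · ring
      rw [List.map_congr_left h7, List.sum_map_mul_left]
      split_ifs
      · rw [map_mul]
        rfl
      · rw [zero_mul, map_zero]
    · rw [← step' h.1 hl1, map_add, Nat.add_sub_cancel]
      ring
    · rw [Finset.sum_eq_sum_Ico_succ_bot (by omega : l < l₁), abs_mul]
      apply le_of_eq
      ring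

/-- a point of an edge, one family -/
theorem ray1 (hRY : Stmt_RY7) (hRC : Stmt_RC7) (hHS : Stmt_HS7) {t : Fam} (ht : t.Good) (G : P2)
    (p q aL bR : ℕ) (I : Polynomial ℂ) (he : IsEdge G p q aL bR I)
    (h3 : ∀ lam : ℂ, lam ≠ 0 → I.eval (lam ^ p) = 0 → PK7 P φ hsrc (chart p q lam G) 1 0)
    (hR : Constructible R) (h0 : ∀ z ∈ R, z (Sum.inr ()) ≠ 0) :
    ∃ D : ℝ, ∀ k : ℕ, 1 ≤ k →
      HB (fun m => φ (e2 P t G (full R) (p * k) (q * k) m)) (φ (P.rat.val R) * φ (famV P t)) D := by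
  classical
  haveI := t.fin
  have hp := he.hp
  have hI : I ≠ 0 := by
    intro h
    have := he.coeff_zero
    rw [h] at this
    simp at this
  have hroot0 : ∀ R ∈ I.roots.toFinset, R ≠ 0 := by
    intro R hR h
    rw [h] at hR
    have h3 := Multiset.mem_toFinset.1 hR
    rw [Polynomial.mem_roots hI, Polynomial.IsRoot, ← Polynomial.coeff_zero_eq_eval_zero] at h3
    exact he.coeff_zero h3
  have hρ : ∀ R : ℂ, ∃ r : ℂ, r ^ p = R := fun R => IsAlgClosed.exists_pow_nat_eq R hp
  choose ρ hρ using hρ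
  have hch : ∀ r : ℂ, ∃ D : ℝ, r ∈ I.roots.toFinset → ∀ k : ℕ, 1 ≤ k →
      HB (fun m => φ (vS P hsrc (chart p q (ρ r) G) (full (chR t p q (ρ r) R)) k 1 m))
        (φ (P.rat.val (chR t p q (ρ r) R))) D := by
    intro r
    by_cases hr : r ∈ I.roots.toFinset
    · have hr0 : ρ r ≠ 0 := by
        intro h
        have h5 := hρ r
        rw [h, zero_pow (by omega)] at h5
        exact hroot0 r hr h5.symm
      have hr1 : I.eval (ρ r ^ p) = 0 := by
        rw [hρ]
        have := Multiset.mem_toFinset.1 hr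
        rwa [Polynomial.mem_roots hI] at this
      obtain ⟨D, hD⟩ := h3 (ρ r) hr0 hr1 (E ⊕ t.σ) (chR t p q (ρ r) R) (con_chR ht p q (ρ r) hR)
        fun z hz => hz.2.1
      refine ⟨D, fun _ k hk => ?_⟩
      have h5 := hD k hk
      rw [zero_mul, Nat.zero_div, zero_add] at h5
      refine h5.congr (fun _ => rfl) ?_ le_rfl
      have h6 : hsrc.b 0 = 1 := pow_zero _
      rw [h6, map_one, mul_one]
    · exact ⟨0, fun h => absurd h hr⟩
  choose D hD using hch
  refine ⟨|φ (c2a P t (edgePart p q aL bR I) (full R))| + ∑ r ∈ I.roots.toFinset, D r,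
    fun k hk => ?_⟩
  have hQ := QU_full hR
  have h6 := HB.sum I.roots.toFinset
    (fun r m => φ (vS P hsrc (chart p q (ρ r) G) (full (chR t p q (ρ r) R)) k 1 m))
    (fun r => φ (P.rat.val (chR t p q (ρ r) R))) D fun r hr => hD r hr k hk
  have h7 := HB.single (edgeN p q aL bR I * k) (φ (c2a P t (edgePart p q aL bR I) (full R)))
  refine (h7.add h6).congr (fun m => ?_) ?_ le_rfl
  · rw [hRY P t G p q aL bR I ρ ht he hρ E (full R) hQ k m hk, map_add, map_sum]
    congr 1
    · split_ifs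
      · rfl
      · rw [map_zero]
    · refine Finset.sum_congr rfl fun r _ => ?_
      rw [pull_full ht p he.hq, hHS P _ (E ⊕ t.σ) _ (QU_full (con_chR ht p q (ρ r) hR)) k 1 m hk
        le_rfl]
  · rw [← map_mul, hRC P t p q aL bR I ρ ht hp he.hq he.cop hI he.coeff_zero hρ E R hR h0,
      map_add, map_sum]
    rfl

/-- a point of an edge -/
theorem ray (hRY : Stmt_RY7) (hRC : Stmt_RC7) (hHS : Stmt_HS7) (hφ : 1 < φ RatFunc.X)
    (h : s.Is P k₀) (G : P2)
    (p q aL bR : ℕ) (I : Polynomial ℂ) (he : IsEdge G p q aL bR I)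
    (h3 : ∀ lam : ℂ, lam ≠ 0 → I.eval (lam ^ p) = 0 → PK7 P φ hsrc (chart p q lam G) 1 0)
    (hR : Constructible R) (h0 : ∀ z ∈ R, z (Sum.inr ()) ≠ 0) :
    ∃ D : ℝ, 0 ≤ D ∧ ∀ k : ℕ, 1 ≤ k →
      HB (fun m => φ ((s.ts.map fun t => t.κ (q * k) * e2 P t G (full R) (p * k) (q * k) m).sum))
        (φ (P.rat.val R) * φ (ma P s (q * k))) D := by
  have h1 : ∀ t : Fam, ∃ D : ℝ, t ∈ s.ts → ∀ k : ℕ, 1 ≤ k →
      HB (fun m => φ (t.κ (q * k) * e2 P t G (full R) (p * k) (q * k) m))
        (φ (P.rat.val R) * φ (t.κ (q * k) * famV P t)) D := by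
    intro t
    by_cases ht : t ∈ s.ts
    · obtain ⟨D, hD⟩ := ray1 hRY hRC hHS (h.1.1 t ht).1 G p q aL bR I he h3 hR h0
      obtain ⟨B, hB0, hB⟩ := bd (sm hφ h.2.2 (h.1.1 t ht).2)
      refine ⟨B * D, fun _ k hk => ?_⟩
      refine ((hD k hk).smul (φ (t.κ (q * k)))).congr (fun m => map_mul _ _ _) ?_ ?_
      · rw [map_mul]
        ring
      · exact mul_le_mul_of_nonneg_right (hB _) (hD k hk).nonneg
    · exact ⟨0, fun h => absurd h ht⟩
  choose D hD using h1
  have h2 : ∀ k : ℕ, 1 ≤ k →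
      HB (fun m => φ ((s.ts.map fun t => t.κ (q * k) * e2 P t G (full R) (p * k) (q * k) m).sum))
        (φ (P.rat.val R) * φ (ma P s (q * k))) (s.ts.map D).sum := by
    intro k hk
    have h5 := HB.listSum s.ts
      (fun (t : Fam) (m : ℕ) => φ (t.κ (q * k) * e2 P t G (full R) (p * k) (q * k) m))
      (fun t : Fam => φ (P.rat.val R) * φ (t.κ (q * k) * famV P t)) D
      fun t ht => hD t ht k hk
    refine h5.congr (fun m => ?_) ?_ le_rfl
    · rw [map_list_sum, List.map_map]
      rfl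
    · rw [List.sum_map_mul_left, ma, map_list_sum, List.map_map]
      rfl
  exact ⟨_, (h2 1 le_rfl).nonneg, h2⟩

theorem step_case (hCN : Stmt_CN7) (hST : Stmt_ST7) (hRY : Stmt_RY7) (hRC : Stmt_RC7)
    (hHS : Stmt_HS7) (hφ : 1 < φ RatFunc.X) (h : s.Is P k₀) (G : P2)
    (p q p' q' aL bR : ℕ) (I : Polynomial ℂ) (hp : 1 ≤ p) (hpq : q * p' < q' * p)
    (he : IsEdge G p' q' aL bR I) (h1 : Low p q (p * aL + q * (bR + p' * I.natDegree)) G)
    (h3 : ∀ lam : ℂ, lam ≠ 0 → I.eval (lam ^ p') = 0 → PK7 P φ hsrc (chart p' q' lam G) 1 0)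
    (h4 : PK7 P φ s G p' q') (hR : Constructible R) (h0 : ∀ z ∈ R, z (Sum.inr ()) ≠ 0) :
    ∃ C : ℝ, ∀ k : ℕ, 1 ≤ k → HB (fun m => φ (vS P s G (full R) k (q * k / p + 1) m))
      (φ (P.rat.val R) * φ (s.b (q * k / p))) C := by
  have hp' := he.hp
  have hq' := he.hq
  have hI : I ≠ 0 := by
    intro h
    have := he.coeff_zero
    rw [h] at this
    simp at this
  have hlead : G.coeff (mon aL (bR + p' * I.natDegree)) ≠ 0 := by
    rw [CLV.edge_lead he]
    exact Polynomial.leadingCoeff_ne_zero.2 hI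
  have hlow : Low p' q' (p' * aL + q' * (bR + p' * I.natDegree)) G := CLV.edge_low he
  obtain ⟨C', hC'⟩ := h4 E R hR h0
  have hC'0 : 0 ≤ C' := (hC' 1 le_rfl).nonneg
  obtain ⟨D, hD0, hD⟩ := ray hRY hRC hHS hφ h G p' q' aL bR I he h3 hR h0
  refine ⟨(D + C') + |φ (P.rat.val R)| * ∑' i, |φ (ma P s i)|, fun k hk => ?_⟩
  -- the end of the cone
  obtain ⟨l₁, hl1, hl2, hl3⟩ : ∃ l₁, (∀ l < l₁, p' * l < q' * k) ∧ q' * k ≤ p' * l₁ ∧
      HB (fun m => φ (vS P s G (full R) k l₁ m)) (φ (P.rat.val R) * φ (s.b (l₁ - 1)))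
        (D + C') := by
    by_cases hd : p' ∣ k
    · obtain ⟨k', rfl⟩ := hd
      have hk' : 1 ≤ k' := by
        rcases Nat.eq_zero_or_pos k' with h | h
        · rw [h] at hk
          omega
        · exact h
      have hL : 1 ≤ q' * k' := Nat.mul_pos hq' hk'
      refine ⟨q' * k', ?_, ?_, ?_⟩
      · intro l hl
        have h5 := Nat.mul_lt_mul_of_pos_left hl hp'
        calc p' * l < p' * (q' * k') := h5
          _ = q' * (p' * k') := by ring
      · apply le_of_eq
        ring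
      · have e0 : q' * (p' * k') / p' = q' * k' := by
          have : q' * (p' * k') = p' * (q' * k') := by ring
          rw [this, Nat.mul_div_cancel_left _ hp']
        have h5 := hC' (p' * k') hk
        rw [e0] at h5
        refine ((hD k' hk').add h5).congr (fun m => ?_) ?_ le_rfl
        · rw [vS_step hST h.1 G (QU_full hR) m hk hL, map_add]
        · rw [← step' h.1 hL, map_add]
          ring
    · refine ⟨q' * k / p' + 1, ?_, ?_, ?_⟩
      · intro l hl
        have h5 : p' * l ≤ q' * k := by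
          rw [mul_comm]
          exact (Nat.le_div_iff_mul_le hp').1 (Nat.lt_succ_iff.1 hl)
        rcases h5.lt_or_eq with h6 | h6
        · exact h6
        · exfalso
          apply hd
          exact he.cop.dvd_of_dvd_mul_left (Dvd.intro l h6)
      · exact (L_gt hp').le
      · refine (hC' k hk).congr (fun _ => rfl) rfl ?_
        linarith
  have hle : q * k / p + 1 ≤ l₁ := by
    apply L_le hp
    have h6 : p' * (q * k) < p' * (p * l₁) := by
      calc p' * (q * k) = q * p' * k := by ring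
        _ < q' * p * k := Nat.mul_lt_mul_of_pos_right hpq hk
        _ = p * (q' * k) := by ring
        _ ≤ p * (p' * l₁) := Nat.mul_le_mul_left _ hl2
        _ = p' * (p * l₁) := by ring
    exact lt_of_mul_lt_mul_left h6 (Nat.zero_le _)
  obtain ⟨d, hd⟩ := Nat.exists_eq_add_of_le hle
  have h6 := cone_desc hCN hST h G p q p' q' aL (bR + p' * I.natDegree) hlead h1 hlow hR h0 k hk l₁
    hl1 (D + C') hl3 d (q * k / p + 1) hd.symm (L_gt hp)
  refine h6.congr (fun _ => rfl) ?_ ?_
  · rw [Nat.add_sub_cancel]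
  · have h7 := (sm_ma hφ h).sum_le_tsum (Finset.Ico (q * k / p + 1) l₁) fun _ _ => abs_nonneg _
    have h8 := mul_le_mul_of_nonneg_left h7 (abs_nonneg (φ (P.rat.val R)))
    linarith

end

end PK7Aux

open PK7Aux SRX VRMAux in
theorem stmt_PK7 (hCN : Stmt_CN7) (hZR : Stmt_ZR7) (hRY : Stmt_RY7) (hRC : Stmt_RC7)
    (hVF : Stmt_VF7) (hSH : Stmt_SH7) (hHS : Stmt_HS7) (hST : Stmt_ST7) : Stmt_PK7 := by
  intro P φ Λ k k' G p q o s hφ h
  induction h generalizing s with
  | fin0 k k' G p q A hp hA h1 h2 h3 =>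
    intro hs E _ R hR h0
    exact fin0 hCN hZR hφ hs G p q A hp h1 h2 hR h0
  | fin1 k g h p q A₁ A₂ B hp hB g1 g2 g3 h1 h2 hN =>
    intro hs E _ R hR h0
    rw [is_none hs]
    exact fin1 hHS hVF hφ g h p q A₁ A₂ B hp hB g1 g2 g3 h1 h2 hR h0
  | fin2 k k' G p q A B hp hB h1 h2 h3 hN =>
    intro hs E _ R hR h0
    exact fin2 hCN hZR hφ hs G p q A B hp hB h1 h2 h3 hR h0
  | step k k' G p q p' q' aL bR I hp hpq he h1 hN h2 h3 h4 ih3 ih4 =>
    intro hs E _ R hR h0
    exact step_case hCN hST hRY hRC hHS hφ hs G p q p' q' aL bR I hp hpq he h1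
      (fun lam hl hl2 => ih3 lam hl hl2 hsrc (hsrc_is P)) (ih4 s hs) hR h0
  | close k k' G p q c A B p' q' h1 h2 ih => exact ih s
  | coord k G p q o ψ hψ h ih =>
    intro hs E _ R hR h0
    obtain ⟨C, hC⟩ := ih s hs E R hR h0
    rw [is_none hs] at hC ⊢
    refine ⟨C, fun k hk => ?_⟩
    refine (hC k hk).congr (fun m => ?_) rfl le_rfl
    have hQ := QU_full hR
    rw [hHS P _ E _ hQ k _ m hk (Nat.le_add_left 1 _), hHS P _ E _ hQ k _ m hk
      (Nat.le_add_left 1 _), hSH P G k (q * k / p + 1) ψ ?_ E _ hQ m]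
    intro j hj
    have h5 := hψ j hj
    have hp : 1 ≤ p := by
      rcases Nat.eq_zero_or_pos p with h6 | h6
      · rw [h6] at h5
        omega
      · exact h6
    apply L_le hp
    calc q * k < p * j * k := Nat.mul_lt_mul_of_pos_right h5 hk
      _ = p * (k * j) := by ring

end Pool.Agent.Mono.BV
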