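import Pool.Agent.Work.Monodromy7.VL7
import Pool.Agent.Work.Monodromy6.VPT
import Pool.Agent.Work.Monodromy6.EMB


/-!
# Block PT7 (helper23): the distribution at a point, from the exact part and the mass
-/

set_option autoImplicit false
set_option linter.unusedSectionVars false

namespace Pool.Agent.Mono.BV

open MvPolynomial TS RO RO.VGAux PC PC.VPTAux

namespace PT7Aux

/-! ## Arcs at the point `(c, c')` -/

theorem pair_eq (c c' : ℂ) (α β : PowerSeries ℂ) :
    (![PowerSeries.C c + α, PowerSeries.C c' + β] : Fin 2 → PowerSeries ℂ) =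
      fun i => (![α, β] : Fin 2 → PowerSeries ℂ) i + PowerSeries.C ((![c, c'] : Fin 2 → ℂ) i) := by
  funext i
  fin_cases i
  · exact add_comm _ _
  · exact add_comm _ _

theorem loc_eq (h : P2) (x₀ : Fin 2 → ℂ) : BG.loc h x₀ = Ft h x₀ := rfl

theorem zero_pair {α β : PowerSeries ℂ} (hα : PowerSeries.coeff 0 α = 0)
    (hβ : PowerSeries.coeff 0 β = 0) :
    ∀ i, PowerSeries.coeff 0 ((![α, β] : Fin 2 → PowerSeries ℂ) i) = 0 := by
  intro i
  fin_cases i
  · exact hα
  · exact hβ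

section

variable {E : Type} [Finite E]

theorem mem_true (h : P2) (c c' : ℂ) {α β : PowerSeries ℂ} (hα : PowerSeries.coeff 0 α = 0)
    (hβ : PowerSeries.coeff 0 β = 0) (Q : Set (E ⊕ Bool → ℂ)) (p : E → ℂ) {i : ℕ} (hi : 1 ≤ i) :
    (p, ![PowerSeries.C c + α, PowerSeries.C c' + β]) ∈ SD h true Q i ↔
      Lead (Qc Q (eval ![c, c'] h)) i p (aeval ![α, β] (BG.loc h ![c, c'])) := by
  have hz := zero_pair hα hβ
  rw [pair_eq, loc_eq]
  constructor
  · rintro ⟨h2, h3⟩
    refine ⟨?_, ?_⟩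
    · intro l hl
      rcases Nat.eq_zero_or_pos l with rfl | hl0
      · exact coeff_zero_Ft h ![c, c'] _ hz
      · have := h2 l hl0 (by simpa using hl)
        simp only at this
        rw [aeval_Ft, map_add, PowerSeries.coeff_C, if_neg (by omega), add_zero] at this
        exact this
    · change Sum.elim p (dat true i (aeval (fun j => (![α, β] : Fin 2 → PowerSeries ℂ) j +
        PowerSeries.C ((![c, c'] : Fin 2 → ℂ) j)) h)) ∈ Q at h3
      rw [dat_t h ![c, c'] p _ hz i hi] at h3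
      exact h3
  · rintro ⟨h2, h3⟩
    refine ⟨?_, ?_⟩
    · intro l hl1 hl2
      rw [aeval_Ft, map_add, h2 l (by simpa using hl2), zero_add, PowerSeries.coeff_C,
        if_neg (by omega)]
    · change Sum.elim p (dat true i (aeval (fun j => (![α, β] : Fin 2 → PowerSeries ℂ) j +
        PowerSeries.C ((![c, c'] : Fin 2 → ℂ) j)) h)) ∈ Q
      rw [dat_t h ![c, c'] p _ hz i hi]
      exact h3

theorem mem_false (h : P2) (c c' : ℂ) {α β : PowerSeries ℂ} (hα : PowerSeries.coeff 0 α = 0)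
    (hβ : PowerSeries.coeff 0 β = 0) (Q : Set (E ⊕ Bool → ℂ)) (p : E → ℂ) (i : ℕ) :
    (p, ![PowerSeries.C c + α, PowerSeries.C c' + β]) ∈ SD h false Q i ↔
      p ∈ Bc Q (eval ![c, c'] h) ∧
        ∀ j < i + 1, PowerSeries.coeff j (aeval ![α, β] (BG.loc h ![c, c'])) = 0 := by
  have hz := zero_pair hα hβ
  rw [pair_eq, loc_eq]
  constructor
  · rintro ⟨h2, h3⟩
    refine ⟨?_, ?_⟩
    · change Sum.elim p (dat false i (aeval (fun j => (![α, β] : Fin 2 → PowerSeries ℂ) j +
        PowerSeries.C ((![c, c'] : Fin 2 → ℂ) j)) h)) ∈ Q at h3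
      rw [dat_f h ![c, c'] p _ hz i] at h3
      exact h3
    · intro l hl
      rcases Nat.eq_zero_or_pos l with rfl | hl0
      · exact coeff_zero_Ft h ![c, c'] _ hz
      · have := h2 l hl0 (by simpa using hl)
        simp only at this
        rw [aeval_Ft, map_add, PowerSeries.coeff_C, if_neg (by omega), add_zero] at this
        exact this
  · rintro ⟨h3, h2⟩
    refine ⟨?_, ?_⟩
    · intro l hl1 hl2
      rw [aeval_Ft, map_add, h2 l (by simpa using hl2), zero_add, PowerSeries.coeff_C,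
        if_neg (by omega)]
    · change Sum.elim p (dat false i (aeval (fun j => (![α, β] : Fin 2 → PowerSeries ℂ) j +
        PowerSeries.C ((![c, c'] : Fin 2 → ℂ) j)) h)) ∈ Q
      rw [dat_f h ![c, c'] p _ hz i]
      exact h3

end

/-! ## Volumes -/

theorem vol_p0 (P : HodgeMeasure) {F ι : Type} [Finite F] [Fintype ι] {R : Set (F → ℂ)}
    (hR : Constructible R) :
    vol P.rat xq {z : (F → ℂ) × (ι → PowerSeries ℂ) | z.1 ∈ R} = P.rat.val R := by
  have h0 : IsCyl (fun _ => 0) {z : (F → ℂ) × (ι → PowerSeries ℂ) | z.1 ∈ R} :=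
    ⟨fun _ _ _ _ => Iff.rfl, Constructible.comap _ hR⟩
  have h2 : IsEmpty (Σ _ : ι, Fin 0) := ⟨fun s => s.2.elim0⟩
  rw [vol_eq P.rat (VAAux.L_mul P) h0, Finset.sum_const_zero, pow_zero, mul_one]
  exact M5Aux.val_reindex' P (Equiv.sumEmpty F (Σ _ : ι, Fin 0)) h0.2 hR fun x => Iff.rfl

theorem tail_step (P : HodgeMeasure) {E' F ι : Type} [Finite E'] [Finite F] [Fintype ι]
    {D : Set ((F → ℂ) × (ι → PowerSeries ℂ))} (hD : Cy D) {B : Set (E' → ℂ)}
    (hB : Constructible B) (r : E' → F) (A : (F → ℂ) × (ι → PowerSeries ℂ) → PowerSeries ℂ)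
    (hA : ∀ l, RF fun z => PowerSeries.coeff l (A z)) (i : ℕ) :
    vol P.rat xq {z | z ∈ D ∧ (fun e => z.1 (r e)) ∈ B ∧
      ∀ j < i + 1, PowerSeries.coeff j (A z) = 0} =
    vol P.rat xq {z | z ∈ D ∧ (fun e => z.1 (r e)) ∈ B ∧
      ∀ j < i + 1 + 1, PowerSeries.coeff j (A z) = 0} +
    vol P.rat xq {z | z ∈ D ∧ Lead (QB B) (i + 1) (fun e => z.1 (r e)) (A z)} := by
  have c1 : Cy {z | z ∈ D ∧ (fun e => z.1 (r e)) ∈ B ∧
      ∀ j < i + 1 + 1, PowerSeries.coeff j (A z) = 0} :=
    Cy.and hD (Cy.and (VL7.cy_S hB r) (Cy.all_lt (i + 1 + 1) fun l _ => Cy.zero (hA l)))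
  have c2 : Cy {z | z ∈ D ∧ Lead (QB B) (i + 1) (fun e => z.1 (r e)) (A z)} :=
    Cy.and hD (VL7.cy_lead (con_QB hB) (i + 1) (fun e => RF.par _) hA)
  rw [← vol_uni P c1 c2]
  · congr 1
    ext z
    constructor
    · rintro ⟨h0, h1, h3⟩
      by_cases h4 : PowerSeries.coeff (i + 1) (A z) = 0
      · left
        refine ⟨h0, h1, fun j hj => ?_⟩
        rcases Nat.lt_succ_iff_lt_or_eq.1 hj with h | rfl
        · exact h3 j h
        · exact h4
      · right
        exact ⟨h0, h3, h1, h4⟩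
    · rintro (⟨h0, h1, h3⟩ | ⟨h0, h3, h1, h4⟩)
      · exact ⟨h0, h1, fun j hj => h3 j (by omega)⟩
      · exact ⟨h0, h1, h3⟩
  · rw [Set.disjoint_left]
    rintro z ⟨-, -, h3⟩ ⟨-, -, h4⟩
    exact h4.2 (h3 (i + 1) (by omega))

section

variable {E : Type}

/-- tails, two families -/
def XT (t t' : Fam) (G : P2) (B : Set (E → ℂ)) (k l i : ℕ) :
    Set ((E ⊕ (t.σ ⊕ t'.σ) → ℂ) × (Fin 2 → PowerSeries ℂ)) :=
  {z | ((fun s => z.1 (Sum.inr (Sum.inl s))) ∈ t.S ∧ (fun s => z.1 (Sum.inr (Sum.inr s))) ∈ t'.S) ∧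
    (fun e => z.1 (Sum.inl e)) ∈ B ∧ ∀ j < i + 1, PowerSeries.coeff j (aeval ![
      arcE (eval (fun s => z.1 (Sum.inr (Sum.inl s))) t.u) k (z.2 0),
      arcE (eval (fun s => z.1 (Sum.inr (Sum.inr s))) t'.u) l (z.2 1)] G) = 0}

/-- tails, one family -/
def YT (t : Fam) (G : P2) (B : Set (E → ℂ)) (k i : ℕ) :
    Set ((E ⊕ t.σ → ℂ) × (Unit → PowerSeries ℂ)) :=
  {z | (fun s => z.1 (Sum.inr s)) ∈ t.S ∧
    (fun e => z.1 (Sum.inl e)) ∈ B ∧ ∀ j < i + 1, PowerSeries.coeff j (aeval ![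
      arcE (eval (fun s => z.1 (Sum.inr s)) t.u) k (z.2 ()), 0] G) = 0}

noncomputable def vXT (P : HodgeMeasure) [Finite E] (t t' : Fam) (G : P2) (B : Set (E → ℂ))
    (k l i : ℕ) : K :=
  haveI := t.fin
  haveI := t'.fin
  vol P.rat xq (XT t t' G B k l i)

noncomputable def vYT (P : HodgeMeasure) [Finite E] (t : Fam) (G : P2) (B : Set (E → ℂ))
    (k i : ℕ) : K :=
  haveI := t.fin
  vol P.rat xq (YT t G B k i)

variable [Finite E]

theorem vXT_step (P : HodgeMeasure) {t t' : Fam} (ht : t.Good) (ht' : t'.Good) (G : P2)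
    {B : Set (E → ℂ)} (hB : Constructible B) (k l i : ℕ) :
    vXT P t t' G B k l i = vXT P t t' G B k l (i + 1) + x2 P t t' G (QB B) k l (i + 1) := by
  have := t.fin
  have := t'.fin
  have hD : Cy {z : (E ⊕ (t.σ ⊕ t'.σ) → ℂ) × (Fin 2 → PowerSeries ℂ) |
      (fun s => z.1 (Sum.inr (Sum.inl s))) ∈ t.S ∧ (fun s => z.1 (Sum.inr (Sum.inr s))) ∈ t'.S} :=
    Cy.and (VL7.cy_S ht.1 fun s => Sum.inr (Sum.inl s))
      (VL7.cy_S ht'.1 fun s => Sum.inr (Sum.inr s))
  have h := tail_step P hD hB Sum.inl (fun z => aeval ![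
      arcE (eval (fun s => z.1 (Sum.inr (Sum.inl s))) t.u) k (z.2 0),
      arcE (eval (fun s => z.1 (Sum.inr (Sum.inr s))) t'.u) l (z.2 1)] G)
    (fun j => VL7.RF.two G (VL7.RF.arcE (VL7.RF_u t.u fun s => Sum.inr (Sum.inl s)) k
      fun j => RF.arc 0 j) (VL7.RF.arcE (VL7.RF_u t'.u fun s => Sum.inr (Sum.inr s)) l
        fun j => RF.arc 1 j) j) i
  have e : x2 P t t' G (QB B) k l (i + 1) = vol P.rat xq
      {z : (E ⊕ (t.σ ⊕ t'.σ) → ℂ) × (Fin 2 → PowerSeries ℂ) |
        z ∈ {z : (E ⊕ (t.σ ⊕ t'.σ) → ℂ) × (Fin 2 → PowerSeries ℂ) |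
        (fun s => z.1 (Sum.inr (Sum.inl s))) ∈ t.S ∧
        (fun s => z.1 (Sum.inr (Sum.inr s))) ∈ t'.S} ∧
        Lead (QB B) (i + 1) (fun e => z.1 (Sum.inl e)) (aeval ![
      arcE (eval (fun s => z.1 (Sum.inr (Sum.inl s))) t.u) k (z.2 0),
      arcE (eval (fun s => z.1 (Sum.inr (Sum.inr s))) t'.u) l (z.2 1)] G)} := by
    unfold x2
    congr 1
    ext z
    exact and_assoc.symm
  rw [e]
  exact h

theorem vYT_step (P : HodgeMeasure) {t : Fam} (ht : t.Good) (G : P2)
    {B : Set (E → ℂ)} (hB : Constructible B) (k i : ℕ) :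
    vYT P t G B k i = vYT P t G B k (i + 1) + y1 P t G (QB B) k (i + 1) := by
  have := t.fin
  exact tail_step P (VL7.cy_S ht.1 Sum.inr) hB Sum.inl (fun z => aeval ![
      arcE (eval (fun s => z.1 (Sum.inr s)) t.u) k (z.2 ()), 0] G)
    (fun j => VL7.RF.two G (VL7.RF.arcE (VL7.RF_u t.u Sum.inr) k
      fun j => RF.arc () j) (fun j => by simpa using RF.const (0 : ℂ)) j) i

end

theorem arc0 (c : ℂ) {k : ℕ} (hk : 1 ≤ k) (w : PowerSeries ℂ) :
    PowerSeries.coeff 0 (arcE c k w) = 0 :=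
  VL7.coeff_arcE_lt c w hk

section

variable {E : Type} [Finite E]

theorem vXT_zero (P : HodgeMeasure) {t t' : Fam} (ht : t.Good) (ht' : t'.Good) (h : P2)
    (x₀ : Fin 2 → ℂ) {B : Set (E → ℂ)} (hB : Constructible B) {k l : ℕ} (hk : 1 ≤ k)
    (hl : 1 ≤ l) :
    vXT P t t' (BG.loc h x₀) B k l 0 = P.rat.val B * (famV P t * famV P t') := by
  have := t.fin
  have := t'.fin
  have hS : Constructible {v : t.σ ⊕ t'.σ → ℂ | (fun s => v (Sum.inl s)) ∈ t.S ∧
      (fun s => v (Sum.inr s)) ∈ t'.S} :=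
    Constructible.and (Constructible.comap _ ht.1) (Constructible.comap _ ht'.1)
  have hR : Constructible {v : E ⊕ (t.σ ⊕ t'.σ) → ℂ | (fun s => v (Sum.inl s)) ∈ B ∧
      (fun s => v (Sum.inr s)) ∈ {v : t.σ ⊕ t'.σ → ℂ | (fun s => v (Sum.inl s)) ∈ t.S ∧
      (fun s => v (Sum.inr s)) ∈ t'.S}} :=
    Constructible.and (Constructible.comap _ hB) (Constructible.comap _ hS)
  have e1 : famV P t * famV P t' = P.rat.val {v : t.σ ⊕ t'.σ → ℂ | (fun s => v (Sum.inl s)) ∈ t.S ∧
      (fun s => v (Sum.inr s)) ∈ t'.S} := (P.rat.prod _ _ ht.1 ht'.1).symm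
  rw [e1, ← P.rat.prod _ _ hB hS, ← vol_p0 (ι := Fin 2) P hR]
  unfold vXT
  congr 1
  ext z
  constructor
  · rintro ⟨⟨h1, h2⟩, h3, -⟩
    exact ⟨h3, h1, h2⟩
  · rintro ⟨h3, h1, h2⟩
    refine ⟨⟨h1, h2⟩, h3, fun j hj => ?_⟩
    have : j = 0 := by omega
    subst this
    exact coeff_zero_Ft h x₀ _ (zero_pair (arc0 _ hk _) (arc0 _ hl _))

theorem vYT_zero (P : HodgeMeasure) {t : Fam} (ht : t.Good) (G : P2)
    (hG : ∀ α : PowerSeries ℂ, PowerSeries.coeff 0 α = 0 →
      PowerSeries.coeff 0 (aeval ![α, 0] G) = 0) {B : Set (E → ℂ)} (hB : Constructible B)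
    {k : ℕ} (hk : 1 ≤ k) :
    vYT P t G B k 0 = P.rat.val B * famV P t := by
  have := t.fin
  have hR : Constructible {v : E ⊕ t.σ → ℂ | (fun s => v (Sum.inl s)) ∈ B ∧
      (fun s => v (Sum.inr s)) ∈ t.S} :=
    Constructible.and (Constructible.comap _ hB) (Constructible.comap _ ht.1)
  have e1 : famV P t = P.rat.val t.S := rfl
  rw [e1, ← P.rat.prod _ _ hB ht.1, ← vol_p0 (ι := Unit) P hR]
  unfold vYT
  congr 1
  ext z
  constructor
  · rintro ⟨h1, h3, -⟩
    exact ⟨h3, h1⟩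
  · rintro ⟨h3, h1⟩
    refine ⟨h1, h3, fun j hj => ?_⟩
    have : j = 0 := by omega
    subst this
    exact hG _ (arc0 _ hk _)

/-! ## The tail functional -/

/-- the tails of all pairs -/
noncomputable def muT (P : HodgeMeasure) (s s' : Src) (G : P2) (B : Set (E → ℂ)) (M i : ℕ) : K :=
  ∑ k ∈ Finset.Icc 1 M, ∑ l ∈ Finset.Icc 1 M, (s.ts.map fun t => (s'.ts.map fun t' =>
      t.κ k * t'.κ l * vXT P t t' G B k l i).sum).sum +
    ∑ k ∈ Finset.Icc 1 M, (s.ts.map fun t => t.κ k * s'.b M * vYT P t G B k i).sum +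
    ∑ l ∈ Finset.Icc 1 M, (s'.ts.map fun t' => s.b M * t'.κ l * vYT P t' (swp G) B l i).sum +
    s.b M * s'.b M * P.rat.val B

theorem muT_step (P : HodgeMeasure) {s s' : Src} (hs : ∀ t ∈ s.ts, t.Good)
    (hs' : ∀ t ∈ s'.ts, t.Good) (G : P2) {B : Set (E → ℂ)} (hB : Constructible B) (M i : ℕ) :
    muT P s s' G B M i = muT P s s' G B M (i + 1) + mu P s s' G (QB B) M (i + 1) := by
  have e1 : ∀ k l, (s.ts.map fun t => (s'.ts.map fun t' =>
      t.κ k * t'.κ l * vXT P t t' G B k l i).sum).sum =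
      (s.ts.map fun t => (s'.ts.map fun t' =>
        t.κ k * t'.κ l * vXT P t t' G B k l (i + 1)).sum).sum +
      (s.ts.map fun t => (s'.ts.map fun t' =>
        t.κ k * t'.κ l * x2 P t t' G (QB B) k l (i + 1)).sum).sum := by
    intro k l
    rw [← List.sum_map_add]
    congr 1
    refine List.map_congr_left fun t ht => ?_
    rw [← List.sum_map_add]
    congr 1
    refine List.map_congr_left fun t' ht' => ?_
    rw [vXT_step P (hs t ht) (hs' t' ht') G hB]
    ring
  have e2 : ∀ k, (s.ts.map fun t => t.κ k * s'.b M * vYT P t G B k i).sum =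
      (s.ts.map fun t => t.κ k * s'.b M * vYT P t G B k (i + 1)).sum +
      (s.ts.map fun t => t.κ k * s'.b M * y1 P t G (QB B) k (i + 1)).sum := by
    intro k
    rw [← List.sum_map_add]
    congr 1
    refine List.map_congr_left fun t ht => ?_
    rw [vYT_step P (hs t ht) G hB]
    ring
  have e3 : ∀ l, (s'.ts.map fun t' => s.b M * t'.κ l * vYT P t' (swp G) B l i).sum =
      (s'.ts.map fun t' => s.b M * t'.κ l * vYT P t' (swp G) B l (i + 1)).sum +
      (s'.ts.map fun t' => s.b M * t'.κ l * y1 P t' (swp G) (QB B) l (i + 1)).sum := by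
    intro k
    rw [← List.sum_map_add]
    congr 1
    refine List.map_congr_left fun t ht => ?_
    rw [vYT_step P (hs' t ht) (swp G) hB]
    ring
  unfold muT mu
  simp only [e1, e2, e3, Finset.sum_add_distrib]
  ring

theorem prod_list (L L' : List Fam) (f g : Fam → K) (v : K) (a b : Fam → K) :
    (L.map fun t => (L'.map fun t' => a t * b t' * (v * (f t * g t'))).sum).sum =
      v * ((L.map fun t => a t * f t).sum * (L'.map fun t' => b t' * g t').sum) := by
  rw [← List.sum_map_mul_right, ← List.sum_map_mul_left]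
  congr 1
  refine List.map_congr_left fun t _ => ?_
  rw [← List.sum_map_mul_left, ← List.sum_map_mul_left]
  congr 1
  refine List.map_congr_left fun t' _ => ?_
  ring

theorem aeval_swp2 (G : P2) (α : PowerSeries ℂ) :
    aeval ![α, 0] (swp G) = aeval ![0, α] G := by
  unfold swp
  rw [← AlgHom.comp_apply, comp_aeval]
  congr 2
  funext i
  fin_cases i <;> simp

theorem muT_zero (P : HodgeMeasure) {s s' : Src} {k k' : Kd} (hs : s.Ok P k) (hs' : s'.Ok P k')
    (h : P2) (x₀ : Fin 2 → ℂ) {B : Set (E → ℂ)} (hB : Constructible B) (M : ℕ) :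
    muT P s s' (BG.loc h x₀) B M 0 = P.rat.val B * (s.b 0 * s'.b 0) := by
  have e1 : ∀ k ∈ Finset.Icc 1 M, ∀ l ∈ Finset.Icc 1 M, (s.ts.map fun t => (s'.ts.map fun t' =>
      t.κ k * t'.κ l * vXT P t t' (BG.loc h x₀) B k l 0).sum).sum =
      P.rat.val B * ((s.ts.map fun t => t.κ k * famV P t).sum *
        (s'.ts.map fun t' => t'.κ l * famV P t').sum) := by
    intro k hk l hl
    rw [← prod_list]
    congr 1
    refine List.map_congr_left fun t ht => ?_
    congr 1
    refine List.map_congr_left fun t' ht' => ?_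
    rw [vXT_zero P (hs.1 t ht).1 (hs'.1 t' ht').1 h x₀ hB (Finset.mem_Icc.1 hk).1
      (Finset.mem_Icc.1 hl).1]
  have e2 : ∀ k ∈ Finset.Icc 1 M, (s.ts.map fun t => t.κ k * s'.b M *
      vYT P t (BG.loc h x₀) B k 0).sum =
      P.rat.val B * ((s.ts.map fun t => t.κ k * famV P t).sum * s'.b M) := by
    intro k hk
    rw [← List.sum_map_mul_right, ← List.sum_map_mul_left]
    congr 1
    refine List.map_congr_left fun t ht => ?_
    rw [vYT_zero P (hs.1 t ht).1 (BG.loc h x₀) (fun α hα => coeff_zero_Ft h x₀ _ (zero_pair hα (map_zero _)))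
      hB (Finset.mem_Icc.1 hk).1]
    ring
  have e3 : ∀ l ∈ Finset.Icc 1 M, (s'.ts.map fun t' => s.b M * t'.κ l *
      vYT P t' (swp (BG.loc h x₀)) B l 0).sum =
      P.rat.val B * (s.b M * (s'.ts.map fun t' => t'.κ l * famV P t').sum) := by
    intro k hk
    rw [← List.sum_map_mul_left, ← List.sum_map_mul_left]
    congr 1
    refine List.map_congr_left fun t ht => ?_
    rw [vYT_zero P (hs'.1 t ht).1 (swp (BG.loc h x₀)) (fun α hα => by
      rw [aeval_swp2]
      exact coeff_zero_Ft h x₀ _ (zero_pair (map_zero _) hα)) hB (Finset.mem_Icc.1 hk).1]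
    ring
  unfold muT
  rw [Finset.sum_congr rfl fun k hk => Finset.sum_congr rfl fun l hl => e1 k hk l hl,
    Finset.sum_congr rfl e2, Finset.sum_congr rfl e3]
  rw [← hs.2.2 M, ← hs'.2.2 M]
  simp only [← Finset.mul_sum, ← Finset.sum_mul]
  ring

end

/-! ## `muFF` -/

section

variable {E : Type} [Finite E]

theorem vFF_true (P : HodgeMeasure) (h : P2) (c c' : ℂ) (t t' : Fam) (Q : Set (E ⊕ Bool → ℂ))
    {k l i : ℕ} (hk : 1 ≤ k) (hl : 1 ≤ l) (hi : 1 ≤ i) :
    vFF P c t c' t' k l (SD h true Q i) =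
      x2 P t t' (BG.loc h ![c, c']) (Qc Q (eval ![c, c'] h)) k l i := by
  unfold vFF x2
  congr 1
  ext z
  exact and_congr_right fun _ => and_congr_right fun _ =>
    mem_true h c c' (arc0 _ hk _) (arc0 _ hl _) Q _ hi

theorem vFF_false (P : HodgeMeasure) (h : P2) (c c' : ℂ) (t t' : Fam) (Q : Set (E ⊕ Bool → ℂ))
    {k l i : ℕ} (hk : 1 ≤ k) (hl : 1 ≤ l) :
    vFF P c t c' t' k l (SD h false Q i) =
      vXT P t t' (BG.loc h ![c, c']) (Bc Q (eval ![c, c'] h)) k l i := by
  unfold vFF vXT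
  congr 1
  ext z
  refine Iff.trans (and_congr_right fun _ => and_congr_right fun _ =>
    mem_false h c c' (arc0 _ hk _) (arc0 _ hl _) Q _ i) ?_
  exact and_assoc.symm

theorem vFC_true (P : HodgeMeasure) (h : P2) (c c' : ℂ) (t : Fam) (Q : Set (E ⊕ Bool → ℂ))
    {k i : ℕ} (hk : 1 ≤ k) (hi : 1 ≤ i) :
    vFC P c t c' k (SD h true Q i) =
      y1 P t (BG.loc h ![c, c']) (Qc Q (eval ![c, c'] h)) k i := by
  unfold vFC y1
  congr 1
  ext z
  refine and_congr_right fun _ => ?_
  have h1 := mem_true h c c' (α := arcE (eval (fun s => z.1 (Sum.inr s)) t.u) k (z.2 ()))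
    (β := 0) (arc0 _ hk _) (map_zero _) Q (fun e => z.1 (Sum.inl e)) hi
  rw [add_zero] at h1
  exact h1

theorem vFC_false (P : HodgeMeasure) (h : P2) (c c' : ℂ) (t : Fam) (Q : Set (E ⊕ Bool → ℂ))
    {k i : ℕ} (hk : 1 ≤ k) :
    vFC P c t c' k (SD h false Q i) =
      vYT P t (BG.loc h ![c, c']) (Bc Q (eval ![c, c'] h)) k i := by
  unfold vFC vYT
  congr 1
  ext z
  refine and_congr_right fun _ => ?_
  have h1 := mem_false h c c' (α := arcE (eval (fun s => z.1 (Sum.inr s)) t.u) k (z.2 ()))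
    (β := 0) (arc0 _ hk _) (map_zero _) Q (fun e => z.1 (Sum.inl e)) i
  rw [add_zero] at h1
  exact h1

theorem vFC_true' (P : HodgeMeasure) (h : P2) (c c' : ℂ) (t : Fam) (Q : Set (E ⊕ Bool → ℂ))
    {k i : ℕ} (hk : 1 ≤ k) (hi : 1 ≤ i) :
    vFC P c' t c k (swC (SD h true Q i)) =
      y1 P t (swp (BG.loc h ![c, c'])) (Qc Q (eval ![c, c'] h)) k i := by
  unfold vFC y1
  congr 1
  ext z
  refine and_congr_right fun _ => ?_
  have h1 := mem_true h c c' (α := 0)
    (β := arcE (eval (fun s => z.1 (Sum.inr s)) t.u) k (z.2 ())) (map_zero _)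
    (arc0 _ hk _) Q (fun e => z.1 (Sum.inl e)) hi
  rw [add_zero] at h1
  rw [aeval_swp2]
  exact h1

theorem vFC_false' (P : HodgeMeasure) (h : P2) (c c' : ℂ) (t : Fam) (Q : Set (E ⊕ Bool → ℂ))
    {k i : ℕ} (hk : 1 ≤ k) :
    vFC P c' t c k (swC (SD h false Q i)) =
      vYT P t (swp (BG.loc h ![c, c'])) (Bc Q (eval ![c, c'] h)) k i := by
  unfold vFC vYT
  congr 1
  ext z
  refine and_congr_right fun _ => ?_
  have h1 := mem_false h c c' (α := 0)
    (β := arcE (eval (fun s => z.1 (Sum.inr s)) t.u) k (z.2 ())) (map_zero _)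
    (arc0 _ hk _) Q (fun e => z.1 (Sum.inl e)) i
  rw [add_zero] at h1
  rw [aeval_swp2]
  exact h1

theorem loc00 (h : P2) (x₀ : Fin 2 → ℂ) : PowerSeries.coeff 0
    (aeval (![0, 0] : Fin 2 → PowerSeries ℂ) (BG.loc h x₀)) = 0 :=
  coeff_zero_Ft h x₀ _ (zero_pair (map_zero _) (map_zero _))

theorem aeval00 (G : P2) : aeval (![0, 0] : Fin 2 → PowerSeries ℂ) G =
    PowerSeries.C (eval 0 G) := by
  have h1 : (![0, 0] : Fin 2 → PowerSeries ℂ) = fun _ => PowerSeries.C 0 := by
    funext i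
    fin_cases i <;> simp
  rw [h1]
  induction G using MvPolynomial.induction_on with
  | C a => simp [MvPolynomial.algHom_C]
  | add p q hp hq => simp only [map_add, hp, hq]
  | mul_X p i hp => simp only [map_mul, aeval_X, eval_X, hp]; simp

theorem eval_loc (h : P2) (x₀ : Fin 2 → ℂ) : eval 0 (BG.loc h x₀) = 0 := by
  have h1 := loc00 h x₀
  rw [aeval00] at h1
  simpa using h1

theorem muFF_true (P : HodgeMeasure) (h : P2) (c c' : ℂ) (s s' : Src) {Q : Set (E ⊕ Bool → ℂ)}
    (hQ : QOk Set.univ true Q) {i : ℕ} (M : ℕ) (hi : 1 ≤ i) :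
    muFF P c s c' s' E (SD h true Q i) M =
      mu P s s' (BG.loc h ![c, c']) (Qc Q (eval ![c, c'] h)) M i := by
  have e0 : {p : E → ℂ | (p, ![PowerSeries.C c, PowerSeries.C c']) ∈ SD h true Q i} = ∅ := by
    rw [Set.eq_empty_iff_forall_notMem]
    intro p hp
    have h1 := mem_true h c c' (α := 0) (β := 0) (map_zero _) (map_zero _) Q p hi
    rw [add_zero, add_zero] at h1
    have h2 := (h1.1 hp).2
    have h3 := (hQ.2 _ h2).2 rfl
    rw [aeval00, eval_loc] at h3
    apply h3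
    simp
  have e4 : P.rat.val (∅ : Set (E → ℂ)) = 0 := P.rat.val_empty
  unfold muFF mu
  rw [e0, e4, mul_zero, add_zero]
  congr 1
  · congr 1
    · refine Finset.sum_congr rfl fun k hk => Finset.sum_congr rfl fun l hl => ?_
      congr 1
      refine List.map_congr_left fun t _ => ?_
      congr 1
      refine List.map_congr_left fun t' _ => ?_
      rw [vFF_true P h c c' t t' Q (Finset.mem_Icc.1 hk).1 (Finset.mem_Icc.1 hl).1 hi]
    · refine Finset.sum_congr rfl fun k hk => ?_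
      congr 1
      refine List.map_congr_left fun t _ => ?_
      rw [vFC_true P h c c' t Q (Finset.mem_Icc.1 hk).1 hi]
  · refine Finset.sum_congr rfl fun k hk => ?_
    congr 1
    refine List.map_congr_left fun t _ => ?_
    rw [vFC_true' P h c c' t Q (Finset.mem_Icc.1 hk).1 hi]

theorem muFF_false (P : HodgeMeasure) (h : P2) (c c' : ℂ) (s s' : Src) (Q : Set (E ⊕ Bool → ℂ))
    (i M : ℕ) :
    muFF P c s c' s' E (SD h false Q i) M =
      muT P s s' (BG.loc h ![c, c']) (Bc Q (eval ![c, c'] h)) M i := by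
  have e0 : {p : E → ℂ | (p, ![PowerSeries.C c, PowerSeries.C c']) ∈ SD h false Q i} =
      Bc Q (eval ![c, c'] h) := by
    ext p
    have h1 := mem_false h c c' (α := 0) (β := 0) (map_zero _) (map_zero _) Q p i
    rw [add_zero, add_zero] at h1
    refine h1.trans ⟨fun h2 => h2.1, fun h2 => ⟨h2, fun j _ => ?_⟩⟩
    rw [aeval00, eval_loc, map_zero, map_zero]
  unfold muFF muT
  rw [e0]
  congr 1
  congr 1
  · congr 1
    · refine Finset.sum_congr rfl fun k hk => Finset.sum_congr rfl fun l hl => ?_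
      congr 1
      refine List.map_congr_left fun t _ => ?_
      congr 1
      refine List.map_congr_left fun t' _ => ?_
      rw [vFF_false P h c c' t t' Q (Finset.mem_Icc.1 hk).1 (Finset.mem_Icc.1 hl).1]
    · refine Finset.sum_congr rfl fun k hk => ?_
      congr 1
      refine List.map_congr_left fun t _ => ?_
      rw [vFC_false P h c c' t Q (Finset.mem_Icc.1 hk).1]
  · refine Finset.sum_congr rfl fun k hk => ?_
    congr 1
    refine List.map_congr_left fun t _ => ?_
    rw [vFC_false' P h c c' t Q (Finset.mem_Icc.1 hk).1]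

end

end PT7Aux

open PT7Aux

theorem stmt_PT7 (hL7 : Stmt_L07) (hM7 : Stmt_LM7) (hMU : Stmt_MU7) : Stmt_PT7 := by
  classical
  intro P h c c' Λ₀ k k' s s' hΛ₀ hG hs hs'
  set d : ℂ := eval ![c, c'] h with hd
  set Λ : Set ℚ := Λ₀ d with hΛd
  have hΛ : Λ ⊆ Set.Ioi 0 := hΛ₀ d
  obtain ⟨φ, hφ⟩ := stmt_EMB
  obtain ⟨α, ts, hts, hex⟩ := hL7 P Λ k k' _ s s' hΛ hG hs hs'
  have hmass := hM7 P φ Λ k k' _ s s' hφ hG hs hs'
  have hG0 : (BG.loc h ![c, c']).coeff (mon 0 0) = 0 := by
    have h1 : mon 0 0 = 0 := by simp [mon]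
    have h2 := eval_loc h ![c, c']
    rw [MvPolynomial.eval_zero, constantCoeff_eq] at h2
    rw [h1]
    exact h2
  -- the sequences
  have hQ3 := stmt_Q3.1
  have hv : ∀ t ∈ ts, ∃ v : K, ESeq Λ fun m => v - ∑ j ∈ Finset.range (m + 1), t.κ j :=
    fun t ht => hQ3 Λ t.κ hΛ (hts t ht).2
  choose! v hv using hv
  set b : ℕ → K := fun m => (ts.map fun t => famV P t *
    (v t - ∑ j ∈ Finset.range (m + 1), t.κ j)).sum with hb
  have hbE : ESeq Λ b := ESeq_sum Λ ts (famV P)
    (fun t m => v t - ∑ j ∈ Finset.range (m + 1), t.κ j) hv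
  set c0 : K := α + (ts.map fun t => famV P t * (v t - t.κ 0)).sum with hc0
  have hgood : ∀ t ∈ haar α :: ts, t.Good := by
    intro t ht
    rcases List.mem_cons.1 ht with rfl | h
    · exact haar_good α
    · exact (hts t h).1
  -- the volumes of the exact sets with all leading coefficients
  set g : ℕ → K := fun m => ((haar α :: ts).map fun t => t.κ m * famV P t).sum with hg
  have hvolB : ∀ (E : Type) [Finite E] (B : Set (E → ℂ)), Constructible B → ∀ m, 1 ≤ m →
      mu P s s' (BG.loc h ![c, c']) (QB B) m m = P.rat.val B * g m := by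
    intro E _ B hB m hm
    rw [hex E (QB B) ⟨con_QB hB, fun z hz => hz.2⟩ m hm]
    simp only [hg]
    rw [← List.sum_map_mul_left]
    congr 1
    apply List.map_congr_left
    intro t ht
    rw [fcl_QB P (hgood t ht) hB]
    ring
  have hsumg : ∀ i, ∑ j ∈ Finset.range i, g (j + 1) = c0 - α * xq ^ i - b i := by
    intro i
    have h1 : ∀ m, g m = α * (xq ^ m * (P.rat.L - 1)) +
        (ts.map fun t => t.κ m * famV P t).sum := by
      intro m
      simp only [hg, List.map_cons, List.sum_cons, famV_haar]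
      change α * xq ^ m * (P.rat.L - 1) + _ = _
      ring
    rw [Finset.sum_congr rfl (fun j _ => h1 (j + 1)), Finset.sum_add_distrib, ← Finset.mul_sum,
      geom P i, sum_list]
    simp only [hc0, hb]
    have h2 : (ts.map fun t => ∑ j ∈ Finset.range i, t.κ (j + 1) * famV P t).sum =
        (ts.map fun t => famV P t * (v t - t.κ 0)).sum -
        (ts.map fun t => famV P t * (v t - ∑ j ∈ Finset.range (i + 1), t.κ j)).sum := by
      rw [← sum_sub]
      congr 1
      apply List.map_congr_left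
      intro t _
      rw [Finset.sum_range_succ' (fun j => t.κ j), ← Finset.sum_mul]
      ring
    rw [h2]
    ring
  -- the constant
  have hconst : s.b 0 * s'.b 0 = c0 := by
    apply φ.injective
    have hq : (fun m : ℕ => φ (if m = 0 then 0 else mu P s s' (BG.loc h ![c, c']) QF m m)) =
        fun m => if m = 0 then 0 else φ (g m) := by
      funext m
      have hQF : (QF : Set (Empty ⊕ Unit → ℂ)) = QB Set.univ := by
        ext z
        simp [QF, QB]
      split_ifs with hm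
      · rw [map_zero]
      · rw [hQF, hvolB Empty Set.univ Constructible.univ m (by omega), P.rat.point, one_mul]
    rw [hq] at hmass
    have h1 := hmass.tendsto_sum_nat
    have h2 : (fun n : ℕ => ∑ i ∈ Finset.range (n + 1), (if i = 0 then (0 : ℝ) else φ (g i))) =
        fun n => φ c0 - φ α * φ xq ^ n - φ (b n) := by
      funext n
      rw [Finset.sum_range_succ']
      simp only [Nat.add_eq_zero_iff, one_ne_zero, and_false, if_false, if_true, add_zero]
      rw [← map_sum, hsumg n, map_sub, map_sub, map_mul, map_pow]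
    have h3 := (Filter.tendsto_add_atTop_iff_nat 1).2 h1
    rw [h2] at h3
    have hxq : φ xq = (φ RatFunc.X)⁻¹ := by rw [xq, map_inv₀]
    have h4 : Filter.Tendsto (fun n : ℕ => φ xq ^ n) Filter.atTop (nhds 0) := by
      apply tendsto_pow_atTop_nhds_zero_of_lt_one
      · rw [hxq]
        exact inv_nonneg.mpr (by linarith)
      · rw [hxq]
        exact inv_lt_one_of_one_lt₀ hφ
    have h5 : Filter.Tendsto (fun n : ℕ => φ (b n)) Filter.atTop (nhds 0) := by
      have h6 := stmt_ESUM φ b hφ (stmt_Q1.1 Λ (Set.Ioi 0) b hΛ hbE)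
      have h7 := h6.tendsto_atTop_zero
      exact (tendsto_zero_iff_abs_tendsto_zero _).2 h7
    have h6 : Filter.Tendsto (fun n => φ c0 - φ α * φ xq ^ n - φ (b n)) Filter.atTop
        (nhds (φ c0 - φ α * 0 - 0)) := ((tendsto_const_nhds.sub (h4.const_mul _)).sub h5)
    have h7 := tendsto_nhds_unique h3 h6
    rw [h7]
    ring
  -- the tails
  have htail : ∀ (E : Type) [Finite E] (B : Set (E → ℂ)), Constructible B → ∀ M i, i ≤ M →
      muT P s s' (BG.loc h ![c, c']) B M i = P.rat.val B * (α * xq ^ i + b i) := by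
    intro E _ B hB M i hi
    have key : ∀ i, i ≤ M → muT P s s' (BG.loc h ![c, c']) B M i =
        P.rat.val B * (s.b 0 * s'.b 0) - ∑ j ∈ Finset.range i, P.rat.val B * g (j + 1) := by
      intro i
      induction i with
      | zero =>
        intro _
        rw [muT_zero P hs.1 hs'.1 h ![c, c'] hB M]
        simp
      | succ i ih =>
        intro hi
        have h1 := muT_step P (fun t ht => (hs.1.1 t ht).1) (fun t ht => (hs'.1.1 t ht).1)
          (BG.loc h ![c, c']) hB M i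
        rw [ih (by omega), hMU P s s' k k' hs.1 hs'.1 _ hG0 E (QB B)
          ⟨con_QB hB, fun z hz => hz.2⟩ M (i + 1) (by omega) hi, hvolB E B hB (i + 1)
          (by omega)] at h1
        rw [Finset.sum_range_succ]
        linear_combination -h1
    rw [key i hi, ← Finset.mul_sum, hsumg i, hconst]
    ring
  refine ⟨[⟨Empty, inferInstance, Set.univ, C d, α⟩], ts.map fun t => (d, t), [(d, b)],
    ?_, ?_, ⟨?_, ?_⟩, ⟨?_, ?_⟩⟩
  · intro x hx
    obtain ⟨t, ht, rfl⟩ := List.mem_map.1 hx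
    exact (hts t ht).2
  · intro x hx
    rw [List.mem_singleton] at hx
    subst hx
    exact hbE
  · intro G hGm
    rw [List.map_singleton, List.mem_append, List.mem_singleton, List.map_map] at hGm
    rcases hGm with rfl | hGm
    · refine ⟨O5Aux.con_ex (ι := Empty) Constructible.univ, ?_⟩
      rintro (τ : Empty ⊕ Unit → ℂ) ⟨-, h2⟩
      refine ⟨Set.mem_univ _, fun _ => ?_⟩
      have h3 : eval τ (MvPolynomial.X (Sum.inr ()) : MvPolynomial (Empty ⊕ Unit) ℂ) ≠ 0 := by
        rw [eval_X]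
        exact h2
      exact h3
    · obtain ⟨t, ht, rfl⟩ := List.mem_map.1 hGm
      exact ⟨(hts t ht).1.1, fun τ hτ => ⟨Set.mem_univ _, fun _ => (hts t ht).1.2 τ hτ⟩⟩
  · intro E _ Q hQ i M hi hiM
    have hi1 : 1 ≤ i := hi rfl
    have hcon := con_Qc hQ.1 d
    have hQU : QU (Qc Q d) := ⟨hcon, fun z hz => by
      have := (hQ.2 _ hz).2 rfl
      simpa using this⟩
    rw [muFF_true P h c c' s s' hQ M hi1, hMU P s s' k k' hs.1 hs'.1 _ hG0 E _ hQU M i hi1 hiM,
      hex E (Qc Q d) hQU i hi1]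
    simp only [List.map_cons, List.sum_cons, List.map_map, List.map_nil, List.singleton_append]
    congr 1
    · change α * xq ^ i * _ = α * xq ^ i * _
      congr 1
      exact cl_haar P α d hQ.1
    · congr 1
      apply List.map_congr_left
      intro t _
      change t.κ i * _ = t.κ i * _
      congr 1
      exact cl_atv' P d t Q
  · intro G hGm
    rw [List.map_singleton, List.map_singleton, List.mem_append, List.mem_singleton,
      List.mem_singleton] at hGm
    rcases hGm with rfl | rfl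
    · exact ⟨Constructible.univ, fun τ _ => ⟨Set.mem_univ _, fun h => absurd h (by decide)⟩⟩
    · exact ⟨Constructible.univ, fun τ _ => ⟨Set.mem_univ _, fun h => absurd h (by decide)⟩⟩
  · intro E _ Q hQ i M _ hiM
    have hB := con_Bc hQ.1 d
    rw [muFF_false P h c c' s s' Q i M, htail E (Bc Q d) hB M i hiM]
    have hcl : ∀ (G : Fam2) (e : G.σ ≃ Empty), G.S = Set.univ →
        (∀ τ, eval τ G.v = d) → (∀ τ, eval τ G.u = 0) → G.cl P Q = P.rat.val (Bc Q d) := by
      intro G e hS hv hu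
      have := G.fin
      unfold Fam2.cl
      have h3 : ∀ z : E ⊕ G.σ → ℂ, (Sum.elim (fun p => z (Sum.inl p)) (G.pt
          fun s => z (Sum.inr s))) = Sum.elim (fun e => z (Sum.inl e)) fun b : Bool =>
            if b then d else 0 := by
        intro z
        funext s
        rcases s with s | b
        · rfl
        · cases b
          · exact hu _
          · exact hv _
      have h4 : {z : E ⊕ G.σ → ℂ | (fun s => z (Sum.inr s)) ∈ G.S ∧
          Sum.elim (fun p => z (Sum.inl p)) (G.pt fun s => z (Sum.inr s)) ∈ Q} =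
          {z : E ⊕ G.σ → ℂ | (fun e => z (Sum.inl e)) ∈ Bc Q d} := by
        ext z
        simp only [Set.mem_ofPred_eq, h3, hS, Set.mem_univ, true_and]
        rfl
      rw [h4]
      exact M5Aux.val_reindex' P ((Equiv.sumCongr (Equiv.refl E) e).trans
        (Equiv.sumEmpty E Empty)) (Constructible.comap _ hB) hB (fun x => Iff.rfl)
    simp only [List.map_cons, List.map_nil, List.sum_cons, List.sum_nil, add_zero,
      List.singleton_append]
    rw [hcl (HT.tl ⟨Empty, inferInstance, Set.univ, C d, α⟩) (Equiv.refl Empty) rfl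
      (fun τ => eval_C d) (fun τ => map_zero _), hcl (ptv d b) (Equiv.refl Empty) rfl
      (fun τ => eval_C d) (fun τ => map_zero _)]
    change _ = α * xq ^ i * _ + b i * _
    ring

end Pool.Agent.Mono.BV
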