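import Pool.Agent.Work.Monodromy7.TAAux
import Pool.Agent.Work.Monodromy5.TG5F

/-!
# Phase 7, block RA7 (helper21): algebra of distributions
-/

set_option autoImplicit false
set_option linter.unusedSectionVars false

namespace Pool.Agent.Mono.BV

open MvPolynomial TS PC RO RO.VGAux

namespace RA7Aux

theorem hasM_add (P : HodgeMeasure) {μ μ' : Meas} {h : P2} {w : Bool} {A A' B B' : List Fam2}
    (h1 : HasM P μ h w (A ++ B)) (h2 : HasM P μ' h w (A' ++ B')) :
    HasM P (fun E _ C M => μ E C M + μ' E C M) h w ((A ++ A') ++ (B ++ B')) := by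
  refine ⟨?_, ?_⟩
  · intro G hG
    rcases List.mem_append.1 hG with hG | hG
    · rcases List.mem_append.1 hG with hG | hG
      · exact h1.1 G (List.mem_append_left _ hG)
      · exact h2.1 G (List.mem_append_left _ hG)
    · rcases List.mem_append.1 hG with hG | hG
      · exact h1.1 G (List.mem_append_right _ hG)
      · exact h2.1 G (List.mem_append_right _ hG)
  · intro E _ Q hQ i M hi hM
    have e1 := h1.2 E Q hQ i M hi hM
    have e2 := h2.2 E Q hQ i M hi hM
    simp only [List.map_append, List.sum_append] at e1 e2 ⊢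
    rw [e1, e2]
    ring

/-- multiplication of the coefficients of a family -/
noncomputable def sm (a : K) (G : Fam2) : Fam2 := { G with κ := fun i => a * G.κ i }

theorem hasM_smul (P : HodgeMeasure) {μ : Meas} {h : P2} {w : Bool} {A : List Fam2} (a : K)
    (h1 : HasM P μ h w A) : HasM P (fun E _ C M => a * μ E C M) h w (A.map (sm a)) := by
  refine ⟨?_, ?_⟩
  · intro G hG
    obtain ⟨G', hG', rfl⟩ := List.mem_map.1 hG
    exact h1.1 G' hG'
  · intro E _ Q hQ i M hi hM
    change a * μ E (SD h w Q i) M = _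
    rw [h1.2 E Q hQ i M hi hM, List.map_map, ← List.sum_map_mul_left]
    congr 1
    refine List.map_congr_left fun G _ => ?_
    change a * (G.κ i * G.cl P Q) = a * G.κ i * G.cl P Q
    ring

/-- multiplication of a Haar part -/
noncomputable def smh (a : K) (h : HT) : HT := { h with lam := a * h.lam }

theorem sm_ex (a : K) (h : HT) : (smh a h).ex = sm a h.ex := by
  unfold smh sm HT.ex
  simp only [mul_assoc]

theorem sm_tl (a : K) (h : HT) : (smh a h).tl = sm a h.tl := by
  unfold smh sm HT.tl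
  simp only [mul_assoc]

theorem swC_SD {E : Type} (h : P2) (w : Bool) (Q : Set (E ⊕ Bool → ℂ)) (i : ℕ) :
    swC (SD h w Q i) = SD (swp h) w Q i := by
  ext z
  change (cut w i (aeval ![z.2 1, z.2 0] h) ∧ Sum.elim z.1 (dat w i (aeval ![z.2 1, z.2 0] h)) ∈ Q)
    ↔ (cut w i (aeval z.2 (swp h)) ∧ Sum.elim z.1 (dat w i (aeval z.2 (swp h))) ∈ Q)
  rw [VSHAux.aeval_swp]
  exact Iff.rfl

end RA7Aux

open RA7Aux in
theorem stmt_RA7 : Stmt_RA7 := by
  intro P h Λ
  obtain ⟨q1, q2, q3, -⟩ := stmt_Q1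
  refine ⟨?_, ?_, ?_, ?_, ?_, ?_⟩
  · refine ⟨[], [], [], by simp, by simp, ⟨by simp, ?_⟩, ⟨by simp, ?_⟩⟩
    · intro E _ Q _ i M _ _
      simp
    · intro E _ Q _ i M _ _
      simp
  · rintro μ μ' ⟨hs, L, L', hL, hL', hE, hT⟩ ⟨hs2, L2, L2', hL2, hL2', hE2, hT2⟩
    refine ⟨hs ++ hs2, L ++ L2, L' ++ L2', ?_, ?_, ?_, ?_⟩
    · intro x hx
      rcases List.mem_append.1 hx with hx | hx
      · exact hL x hx
      · exact hL2 x hx
    · intro x hx
      rcases List.mem_append.1 hx with hx | hx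
      · exact hL' x hx
      · exact hL2' x hx
    · rw [List.map_append, List.map_append]
      exact hasM_add P hE hE2
    · rw [List.map_append, List.map_append]
      exact hasM_add P hT hT2
  · rintro μ a ⟨hs, L, L', hL, hL', hE, hT⟩
    refine ⟨hs.map (smh a), L.map fun x => (x.1, { x.2 with κ := fun i => a * x.2.κ i }),
      L'.map fun x => (x.1, fun i => a * x.2 i), ?_, ?_, ?_, ?_⟩
    · intro x hx
      obtain ⟨y, hy, rfl⟩ := List.mem_map.1 hx
      exact q3 _ _ a (hL y hy)
    · intro x hx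
      obtain ⟨y, hy, rfl⟩ := List.mem_map.1 hx
      exact q3 _ _ a (hL' y hy)
    · have h1 := hasM_smul P a hE
      rw [List.map_append, List.map_map, List.map_map] at h1
      rw [List.map_map, List.map_map]
      have e1 : (HT.ex ∘ smh a) = (sm a ∘ HT.ex) := funext fun x => sm_ex a x
      rw [e1]
      exact h1
    · have h1 := hasM_smul P a hT
      rw [List.map_append, List.map_map, List.map_map] at h1
      rw [List.map_map, List.map_map]
      have e1 : (HT.tl ∘ smh a) = (sm a ∘ HT.tl) := funext fun x => sm_tl a x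
      rw [e1]
      exact h1
  · rintro μ μ' heq ⟨hs, L, L', hL, hL', hE, hT⟩
    refine ⟨hs, L, L', hL, hL', ⟨hE.1, ?_⟩, ⟨hT.1, ?_⟩⟩
    · intro E _ Q hQ i M hi hM
      rw [← hE.2 E Q hQ i M hi hM]
      exact (heq true E Q hQ i M hi hM).symm
    · intro E _ Q hQ i M hi hM
      rw [← hT.2 E Q hQ i M hi hM]
      exact (heq false E Q hQ i M hi hM).symm
  · rintro μ ⟨hs, L, L', hL, hL', hE, hT⟩
    refine ⟨hs, L, L', hL, hL', ⟨hE.1, ?_⟩, ⟨hT.1, ?_⟩⟩
    · intro E _ Q hQ i M hi hM
      rw [← hE.2 E Q hQ i M hi hM, ← swC_SD]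
      rfl
    · intro E _ Q hQ i M hi hM
      rw [← hT.2 E Q hQ i M hi hM, ← swC_SD]
      rfl
  · rintro ι _ F μ heq ⟨hs, L, L', hL, hL', hE, hT⟩
    refine TG5Aux.reg_of_lists hs L L' ?_ ?_ ?_ ?_ ?_ (unif_all P F Set.univ)
    · intro h hh
      exact ⟨(hT.1 h.tl (List.mem_append_left _ (List.mem_map_of_mem hh))).1,
        fun _ _ => Set.mem_univ _⟩
    · intro x hx _
      have h1 := hE.1 (atv x.2 x.1) (List.mem_append_right _ (List.mem_map.2 ⟨x, hx, rfl⟩))
      exact ⟨hL x hx, h1.1, fun τ hτ => (h1.2 τ hτ).2 rfl⟩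
    · intro x hx _
      exact hL' x hx
    · intro E _ Q hQ i hi
      rw [heq true E Q hQ i fun _ => hi, hE.2 E Q hQ i i (fun _ => hi) le_rfl, List.map_append,
        List.sum_append, List.map_map, List.map_map]
      rfl
    · intro E _ Q hQ i
      rw [heq false E Q hQ i fun h => absurd h (by simp),
        hT.2 E Q hQ i i (fun h => absurd h (by simp)) le_rfl, List.map_append,
        List.sum_append, List.map_map, List.map_map]
      rfl

end Pool.Agent.Mono.BV
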