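import Pool.Agent.Work.Monodromy7.RY7

/-!
# Block RC7: classes of the points of a ray which belongs to an edge
-/

set_option autoImplicit false
set_option linter.unusedSectionVars false
set_option linter.style.haveILetI false
set_option linter.unusedSimpArgs false

namespace Pool.Agent.Mono.BV

open MvPolynomial TS RO PC RO.VGAux PC.VREPAux PC.VRAYAux PC.VRAux RP7Aux RY7Aux

namespace RC7Aux

section

variable {E : Type} {t : Fam} {R₀ : Set (E ⊕ Unit → ℂ)} {p q : ℕ}

theorem QU_full (hR : Constructible R₀) : QU (full R₀) := by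
  constructor
  · refine Constructible.and ?_ ?_
    · exact Constructible.comap (fun e => Sum.inl e) hR
    · have h0 := Constructible.ne (X (Sum.inr ()) : MvPolynomial ((E ⊕ Unit) ⊕ Unit) ℂ)
      simp only [eval_X] at h0
      exact h0
  · rintro z ⟨_, h⟩
    exact h

/-- `(p, a) ∈ R₀`, `τ ∈ S` -/
def A0 (t : Fam) (R₀ : Set (E ⊕ Unit → ℂ)) : Set ((E ⊕ Unit) ⊕ t.σ → ℂ) :=
  {z | (fun e => z (Sum.inl e)) ∈ R₀ ∧ (fun s => z (Sum.inr s)) ∈ t.S}

/-- the part over the root `R` -/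
def A1 (t : Fam) (R₀ : Set (E ⊕ Unit → ℂ)) (p q : ℕ) (R : ℂ) : Set ((E ⊕ Unit) ⊕ t.σ → ℂ) :=
  {z | z ∈ A0 t R₀ ∧
    eval (fun s => z (Sum.inr s)) t.u ^ p = R * z (Sum.inl (Sum.inr ())) ^ q}

/-- the same part, parametrised -/
def A2 (t : Fam) (R₀ : Set (E ⊕ Unit → ℂ)) (p q : ℕ) (lam : ℂ) : Set ((E ⊕ t.σ) ⊕ Unit → ℂ) :=
  {z | (fun s => z (Sum.inl (Sum.inr s))) ∈ t.S ∧ z (Sum.inr ()) ≠ 0 ∧
    eval (fun s => z (Sum.inl (Sum.inr s))) t.u = lam * z (Sum.inr ()) ^ q ∧
    (Sum.elim (fun e => z (Sum.inl (Sum.inl e))) fun _ => z (Sum.inr ()) ^ p) ∈ R₀}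

theorem con_A0 (ht : t.Good) (hR : Constructible R₀) : Constructible (A0 t R₀) :=
  Constructible.and (Constructible.comap (fun e => Sum.inl e) hR)
    (Constructible.comap (fun s => Sum.inr s) ht.1)

theorem con_A1 (ht : t.Good) (hR : Constructible R₀) (R : ℂ) :
    Constructible (A1 t R₀ p q R) := by
  refine Constructible.and (con_A0 ht hR) ?_
  have h := Constructible.zero ((rename (fun s => Sum.inr s) t.u ^ p -
    C R * X (Sum.inl (Sum.inr ())) ^ q) : MvPolynomial ((E ⊕ Unit) ⊕ t.σ) ℂ)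
  convert h using 2
  ext z
  simp only [Set.mem_ofPred_eq, map_sub, map_mul, map_pow, eval_rename, eval_X, eval_C]
  constructor
  · intro h2
    rw [sub_eq_zero]
    exact h2
  · intro h2
    rw [sub_eq_zero] at h2
    exact h2

theorem con_A2 (ht : t.Good) (hR : Constructible R₀) (lam : ℂ) :
    Constructible (A2 t R₀ p q lam) := by
  refine Constructible.and ?_ (Constructible.and ?_ (Constructible.and ?_ ?_))
  · exact Constructible.comap (fun s => Sum.inl (Sum.inr s)) ht.1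
  · have h0 := Constructible.ne (X (Sum.inr ()) : MvPolynomial ((E ⊕ t.σ) ⊕ Unit) ℂ)
    simp only [eval_X] at h0
    exact h0
  · have h := Constructible.zero ((rename (fun s => Sum.inl (Sum.inr s)) t.u -
      C lam * X (Sum.inr ()) ^ q) : MvPolynomial ((E ⊕ t.σ) ⊕ Unit) ℂ)
    convert h using 2
    ext z
    simp only [Set.mem_ofPred_eq, map_sub, map_mul, map_pow, eval_rename, eval_X, eval_C]
    constructor
    · intro h2
      rw [sub_eq_zero]
      exact h2
    · intro h2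
      rw [sub_eq_zero] at h2
      exact h2
  · have h := Constructible.preimage (Sum.elim
      (fun e => X (Sum.inl (Sum.inl e))) (fun _ => X (Sum.inr ()) ^ p) : E ⊕ Unit →
        MvPolynomial ((E ⊕ t.σ) ⊕ Unit) ℂ) hR
    convert h using 2
    ext z
    have e1 : (Sum.elim (fun e => z (Sum.inl (Sum.inl e))) fun _ => z (Sum.inr ()) ^ p) =
        fun j => eval z ((Sum.elim
      (fun e => X (Sum.inl (Sum.inl e))) (fun _ => X (Sum.inr ()) ^ p) : E ⊕ Unit →
        MvPolynomial ((E ⊕ t.σ) ⊕ Unit) ℂ) j) := by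
      funext i
      rcases i with i | i
      · simp
      · simp
    change _ ∈ R₀ ↔ _ ∈ R₀
    rw [e1]

theorem val_A1 (P : HodgeMeasure) [Finite E] (ht : t.Good) (hR : Constructible R₀)
    (hR0 : ∀ z ∈ R₀, z (Sum.inr ()) ≠ 0) (hpq : p.Coprime q) (lam : ℂ) (hl : lam ≠ 0) :
    haveI := t.fin
    P.rat.val (A1 t R₀ p q (lam ^ p)) = P.rat.val (A2 t R₀ p q lam) := by
  haveI := t.fin
  symm
  refine P.rat.map _ _ (Sum.elim (Sum.elim (fun e => X (Sum.inl (Sum.inl e)))
    fun _ => X (Sum.inr ()) ^ p) fun s => X (Sum.inl (Sum.inr s))) (con_A2 ht hR lam)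
    (con_A1 ht hR _) ?_
  have hmap : ∀ z : (E ⊕ t.σ) ⊕ Unit → ℂ, (fun j => eval z ((Sum.elim (Sum.elim
      (fun e => X (Sum.inl (Sum.inl e))) fun _ => X (Sum.inr ()) ^ p)
      fun s => X (Sum.inl (Sum.inr s)) : (E ⊕ Unit) ⊕ t.σ →
        MvPolynomial ((E ⊕ t.σ) ⊕ Unit) ℂ) j)) =
      Sum.elim (Sum.elim (fun e => z (Sum.inl (Sum.inl e))) fun _ => z (Sum.inr ()) ^ p)
        fun s => z (Sum.inl (Sum.inr s)) := by
    intro z
    funext i
    rcases i with (i | i) | i
    · simp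
    · simp
    · simp
  refine ⟨?_, ?_, ?_⟩
  · rintro z ⟨h1, h2, h3, h4⟩
    beta_reduce
    rw [hmap]
    refine ⟨⟨h4, h1⟩, ?_⟩
    change eval (fun s => z (Sum.inl (Sum.inr s))) t.u ^ p = lam ^ p * (z (Sum.inr ()) ^ p) ^ q
    rw [h3]
    ring
  · rintro z ⟨h1, h2, h3, h4⟩ z' ⟨h1', h2', h3', h4'⟩ h
    beta_reduce at h
    rw [hmap, hmap] at h
    have ea : z (Sum.inr ()) ^ p = z' (Sum.inr ()) ^ p := congrFun h (Sum.inl (Sum.inr ()))
    have es : (fun s => z (Sum.inl (Sum.inr s))) = fun s => z' (Sum.inl (Sum.inr s)) := by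
      funext s
      exact congrFun h (Sum.inr s)
    have eb : z (Sum.inr ()) ^ q = z' (Sum.inr ()) ^ q := by
      rw [es, h3'] at h3
      exact (mul_left_cancel₀ hl h3).symm
    funext i
    rcases i with (i | i) | i
    · exact congrFun h (Sum.inl (Sum.inl i))
    · exact congrFun es i
    · exact unique_c hpq h2' ea eb
  · rintro y ⟨⟨h1, h2⟩, h4⟩
    set a := y (Sum.inl (Sum.inr ())) with ha
    set b := eval (fun s => y (Sum.inr s)) t.u with hb
    have ha0 : a ≠ 0 := hR0 _ h1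
    have hb0 : b ≠ 0 := ht.2 _ h2
    have hd : (b / lam) ^ p = a ^ q := by
      rw [div_pow, h4]
      field_simp
    obtain ⟨c, hc0, hc1, hc2⟩ := exists_c hpq ha0 (div_ne_zero hb0 hl) hd
    have e3 : (Sum.elim (fun e => y (Sum.inl (Sum.inl e))) fun _ : Unit => c ^ p) =
        fun e => y (Sum.inl e) := by
      funext i
      rcases i with i | i
      · rfl
      · exact hc1
    refine ⟨Sum.elim (Sum.elim (fun e => y (Sum.inl (Sum.inl e))) fun s => y (Sum.inr s))
      fun _ => c, ⟨h2, hc0, ?_, ?_⟩, ?_⟩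
    · change b = lam * c ^ q
      rw [hc2]
      field_simp
    · change (Sum.elim (fun e => y (Sum.inl (Sum.inl e))) fun _ : Unit => c ^ p) ∈ R₀
      rw [e3]
      exact h1
    · beta_reduce
      rw [hmap]
      funext i
      rcases i with (i | i) | i
      · rfl
      · exact hc1
      · rfl

end

end RC7Aux

open RC7Aux

theorem stmt_RC7 : Stmt_RC7 := by
  intro P t p q aL bR I ρ ht hp hq hpq hI0 hI hρ E _ R₀ hR hR0
  classical
  haveI := t.fin
  have hroot0 : ∀ R ∈ I.roots.toFinset, R ≠ 0 := by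
    intro R hRR h
    rw [Multiset.mem_toFinset, Polynomial.mem_roots hI0, Polynomial.IsRoot, h,
      ← Polynomial.coeff_zero_eq_eval_zero] at hRR
    exact hI hRR
  have hp0 : p ≠ 0 := by omega
  have hprod : P.rat.val R₀ * famV P t = P.rat.val (A0 t R₀) :=
    (P.rat.prod R₀ t.S hR ht.1).symm
  have hcB := con_B7 ht (edgePart p q aL bR I) (QU_full hR)
  have hset : A0 t R₀ = B7 t (edgePart p q aL bR I) (full R₀) ∪
      ⋃ R ∈ I.roots.toFinset, A1 t R₀ p q R := by
    ext z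
    constructor
    · rintro ⟨h1, h2⟩
      have h0 : z (Sum.inl (Sum.inr ())) ≠ 0 := hR0 _ h1
      have hb : eval (fun s => z (Sum.inr s)) t.u ≠ 0 := ht.2 _ h2
      by_cases hee : eval ![z (Sum.inl (Sum.inr ())), eval (fun s => z (Sum.inr s)) t.u]
            (edgePart p q aL bR I) = 0
      · refine Or.inr ?_
        rw [VRAux.eval_edge _ _ _ _ _ _ _ h0] at hee
        have h5 : I.eval (eval (fun s => z (Sum.inr s)) t.u ^ p /
            z (Sum.inl (Sum.inr ())) ^ q) = 0 :=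
          (mul_eq_zero.mp hee).resolve_left
            (mul_ne_zero (pow_ne_zero _ h0) (pow_ne_zero _ hb))
        simp only [Set.mem_iUnion]
        refine ⟨eval (fun s => z (Sum.inr s)) t.u ^ p /
            z (Sum.inl (Sum.inr ())) ^ q, ?_, ⟨h1, h2⟩, ?_⟩
        · rw [Multiset.mem_toFinset, Polynomial.mem_roots hI0]
          exact h5
        · rw [div_mul_cancel₀ _ (pow_ne_zero _ h0)]
      · exact Or.inl ⟨h0, h2, h1, hee⟩
    · rintro (⟨h1, h2, h3, h4⟩ | hz)
      · exact ⟨h3, h2⟩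
      · simp only [Set.mem_iUnion] at hz
        obtain ⟨R, _, hz⟩ := hz
        exact hz.1
  have hSRb : ∀ R ∈ I.roots.toFinset, ∀ z ∈ A1 t R₀ p q R,
      z (Sum.inl (Sum.inr ())) ≠ 0 ∧
      eval (fun s => z (Sum.inr s)) t.u ^ p / z (Sum.inl (Sum.inr ())) ^ q = R := by
    rintro R _ z ⟨⟨h1, h2⟩, h4⟩
    have h0 : z (Sum.inl (Sum.inr ())) ≠ 0 := hR0 _ h1
    exact ⟨h0, by rw [h4, mul_div_cancel_right₀ _ (pow_ne_zero _ h0)]⟩
  -- as sets of arcs
  set W : Set ((E ⊕ Unit) ⊕ t.σ → ℂ) → Set (((E ⊕ Unit) ⊕ t.σ → ℂ) × (Unit → PowerSeries ℂ)) :=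
    fun B => {z | z.1 ∈ B} with hW
  have hWv : ∀ B, Constructible B → vol P.rat xq (W B) = P.rat.val B := fun B hB =>
    vol_param P hB
  have hWc : ∀ B, Constructible B → Cy (W B) := fun B hB => Cy.param hB
  have hWset : W (A0 t R₀) = W (B7 t (edgePart p q aL bR I) (full R₀)) ∪
      ⋃ R ∈ I.roots.toFinset, W (A1 t R₀ p q R) := by
    ext z
    change z.1 ∈ A0 t R₀ ↔ _
    rw [hset]
    simp only [Set.mem_union, Set.mem_iUnion, hW]
    exact Iff.rfl
  have hcR : ∀ R ∈ I.roots.toFinset, Cy (W (A1 t R₀ p q R)) := fun R _ =>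
    hWc _ (con_A1 ht hR R)
  have hd2 : Disjoint (W (B7 t (edgePart p q aL bR I) (full R₀)))
      (⋃ R ∈ I.roots.toFinset, W (A1 t R₀ p q R)) := by
    rw [Set.disjoint_left]
    intro z hz hz'
    simp only [Set.mem_iUnion] at hz'
    obtain ⟨R, hRR, hz'⟩ := hz'
    obtain ⟨g1, g3⟩ := hSRb R hRR z.1 hz'
    obtain ⟨h1, h2, h3, h4⟩ := hz
    apply h4
    change eval ![z.1 (Sum.inl (Sum.inr ())), eval (fun s => z.1 (Sum.inr s)) t.u]
      (edgePart p q aL bR I) = 0
    rw [VRAux.eval_edge _ _ _ _ _ _ _ h1, g3]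
    rw [Multiset.mem_toFinset, Polynomial.mem_roots hI0] at hRR
    have : I.eval R = 0 := hRR
    rw [this, mul_zero]
  rw [hprod, ← hWv _ (con_A0 ht hR), hWset, vol_uni P (hWc _ hcB) (Cy.biUnion _ hcR) hd2,
    vol_biU P _ hcR, hWv _ hcB]
  · congr 1
    refine Finset.sum_congr rfl fun R hRR => ?_
    have hl : ρ R ≠ 0 := by
      intro h
      have h1 := hρ R
      rw [h, zero_pow hp0] at h1
      exact hroot0 R hRR h1.symm
    have := val_A1 (q := q) P ht hR hR0 hpq (ρ R) hl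
    rw [hρ R] at this
    rw [hWv _ (con_A1 ht hR R), this]
    rfl
  · intro R hRR R' hR' hne
    rw [Set.disjoint_left]
    intro z hz hz'
    exact hne ((hSRb R hRR z.1 hz).2.symm.trans (hSRb R' hR' z.1 hz').2)

end Pool.Agent.Mono.BV
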