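import Pool.Agent.Work.Monodromy.Interface7V
import Pool.Agent.Work.Monodromy6.VREP
import Pool.Agent.Work.Monodromy6.PL

/-!
# Block RP7: reparametrisation to `s = a t^k`
-/

set_option autoImplicit false
set_option linter.unusedSectionVars false
set_option linter.style.haveILetI false
set_option linter.unusedSimpArgs false

namespace Pool.Agent.Mono.BV

open MvPolynomial TS RO PC RO.VGAux PC.VREPAux

namespace RP7Aux

section lib

variable {E ι : Type}

theorem cyl_cy [Finite E] [Fintype ι] {C : Set ((E → ℂ) × (ι → PowerSeries ℂ))} (hC : Cy C) :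
    ∃ N0, ∀ K : ι → ℕ, (∀ i, N0 ≤ K i) → IsCyl K C := by
  obtain ⟨N0, h⟩ := hC
  exact ⟨N0, fun K hK => IsCyl.mono hK (h N0 le_rfl)⟩

theorem coeff_arcE (c : ℂ) (k : ℕ) (w : PowerSeries ℂ) (j : ℕ) :
    PowerSeries.coeff j (arcE c k w) =
      if j < k then 0 else if j = k then c else PowerSeries.coeff (j - (k + 1)) w := by
  rw [arcE, map_add, PowerSeries.coeff_C_mul, PowerSeries.coeff_X_pow,
    PowerSeries.coeff_X_pow_mul']
  by_cases h1 : j < k
  · rw [if_pos h1, if_neg (by omega), if_neg (by omega)]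
    ring
  · by_cases h2 : j = k
    · rw [if_neg h1, if_pos h2, if_pos h2, if_neg (by omega)]
      ring
    · rw [if_neg h1, if_neg h2, if_neg h2, if_pos (by omega)]
      ring

theorem RF_arcE {c : (E → ℂ) × (ι → PowerSeries ℂ) → ℂ} (hc : RF c)
    {w : (E → ℂ) × (ι → PowerSeries ℂ) → PowerSeries ℂ}
    (hw : ∀ j, RF fun z => PowerSeries.coeff j (w z)) (k j : ℕ) :
    RF fun z => PowerSeries.coeff j (arcE (c z) k (w z)) := by
  simp only [coeff_arcE]
  exact RF.ite _ (RF.const 0) (RF.ite _ hc (hw _))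

/-- regular functions of the parameters -/
theorem RF_eval {σ : Type} (r : σ → E) (u : MvPolynomial σ ℂ) :
    RF fun z : (E → ℂ) × (ι → PowerSeries ℂ) => eval (fun s => z.1 (r s)) u :=
  RF.eval (fun s => RF.par (r s)) u

theorem Cy_par {σ : Type} [Finite σ] (r : σ → E) {S : Set (σ → ℂ)} (hS : Constructible S) :
    Cy {z : (E → ℂ) × (ι → PowerSeries ℂ) | (fun s => z.1 (r s)) ∈ S} :=
  Cy.mem hS fun s => RF.par (r s)

/-- the tail -/
noncomputable def tl (n : ℕ) (F : PowerSeries ℂ) : PowerSeries ℂ :=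
  PowerSeries.mk fun j => PowerSeries.coeff (j + n) F

theorem arcE_tl (k : ℕ) (F : PowerSeries ℂ) (h : ∀ j < k, PowerSeries.coeff j F = 0) :
    arcE (PowerSeries.coeff k F) k (tl (k + 1) F) = F := by
  ext j
  rw [coeff_arcE, tl, PowerSeries.coeff_mk]
  by_cases h1 : j < k
  · rw [if_pos h1, h j h1]
  · by_cases h2 : j = k
    · rw [if_neg h1, if_pos h2, h2]
    · rw [if_neg h1, if_neg h2, show j - (k + 1) + (k + 1) = j by omega]

theorem xq_ne : xq ≠ 0 := by
  rw [xq]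
  exact inv_ne_zero RatFunc.X_ne_zero

/-- arcs `c_i t^{n_i} + t^{n_i + 1} x_i` -/
theorem vol_arcs (P : HodgeMeasure) [Finite E] [Fintype ι] (n : ι → ℕ)
    (c : ι → MvPolynomial E ℂ) {S S' : Set ((E → ℂ) × (ι → PowerSeries ℂ))} (hS : Cy S)
    (hS' : Cy S') (h1 : ∀ p x, (p, fun i => arcE (eval p (c i)) (n i) (x i)) ∈ S ↔ (p, x) ∈ S')
    (h2 : ∀ z ∈ S, ∀ i, (∀ j < n i, PowerSeries.coeff j (z.2 i) = 0) ∧
      PowerSeries.coeff (n i) (z.2 i) = eval z.1 (c i)) :
    vol P.rat xq S = xq ^ (∑ i, (n i + 1)) * vol P.rat xq S' := by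
  classical
  obtain ⟨N, hN⟩ := cyl_cy hS
  obtain ⟨N', hN'⟩ := cyl_cy hS'
  set M := max N N' with hM
  set K : ι → ℕ := fun i => n i + 1 + M with hK
  set K' : ι → ℕ := fun _ => M with hK'
  have hc : IsCyl K S := hN K fun i => by
    have := le_max_left N N'
    simp only [hK]
    omega
  have hc' : IsCyl K' S' := hN' K' fun i => le_max_right N N'
  have key := CV.vol_cv P hc hc' (fun p x i => arcE (eval p (c i)) (n i) (x i))
    (fun s => if h1 : (s.2 : ℕ) < n s.1 then 0 else if h2 : (s.2 : ℕ) = n s.1 then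
      rename Sum.inl (c s.1) else X (Sum.inr ⟨s.1, ⟨(s.2 : ℕ) - (n s.1 + 1), by
        have := s.2.2
        simp only [hK] at this
        simp only [hK']
        omega⟩⟩)) ?_ ?_ ?_ ?_
  · have e1 : ∑ i, K i = (∑ i, (n i + 1)) + ∑ i, K' i := by
      rw [← Finset.sum_add_distrib]
    rw [e1, pow_add] at key
    have h3 : xq ^ (∑ i, K' i) ≠ 0 := pow_ne_zero _ xq_ne
    refine mul_right_cancel₀ h3 ?_
    rw [key]
    ring
  · intro p x _ s
    simp only [coeff_arcE]
    split_ifs with h3 h4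
    · rw [map_zero]
    · rw [eval_rename]
      rfl
    · rw [eval_X]
      rfl
  · intro p x hx
    exact (h1 p x).2 hx
  · intro p x x' _ _ h i l hl
    have h3 := h i (l + (n i + 1)) (by
      simp only [hK]
      simp only [hK'] at hl
      omega)
    rw [coeff_arcE, coeff_arcE, if_neg (by omega), if_neg (by omega), if_neg (by omega),
      if_neg (by omega), Nat.add_sub_cancel] at h3
    exact h3
  · intro p y hy
    have h3 := h2 _ hy
    have h4 : (fun i => arcE (eval p (c i)) (n i) (tl (n i + 1) (y i))) = y := by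
      funext i
      have h5 := arcE_tl (n i) (y i) (h3 i).1
      rw [(h3 i).2] at h5
      exact h5
    refine ⟨fun i => tl (n i + 1) (y i), ?_, ?_⟩
    · rw [← h1, h4]
      exact hy
    · intro i l _
      exact congrArg (PowerSeries.coeff l) (congrFun h4 i)

/-- prescribing further coefficients of an arc in an invariant set -/
theorem core (P : HodgeMeasure) [Finite E] [Fintype ι] (a0 : ι)
    {D : Set ((E → ℂ) × (ι → PowerSeries ℂ))} (hD : Cy D)
    (hinv : ∀ (r : ℕ), 1 ≤ r → ∀ (t : ℂ) (p : E → ℂ) (x : ι → PowerSeries ℂ),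
      (p, UA.act r t x) ∈ D ↔ (p, x) ∈ D) {k : ℕ} (hk : 1 ≤ k)
    (hord : ∀ z ∈ D, (∀ j < k, PowerSeries.coeff j (z.2 a0) = 0) ∧
      PowerSeries.coeff k (z.2 a0) ≠ 0) (e : ℕ) :
    vol P.rat xq {z | z ∈ D ∧ ∀ j, k < j → j < k + 1 + e → PowerSeries.coeff j (z.2 a0) = 0} =
      xq ^ e * vol P.rat xq D := by
  have hs := steps (f := (X a0 : MvPolynomial ι ℂ)) P (QX_ok (E := E)) hk e (fun _ => 0) hD hinv
  have e0 : PD (X a0 : MvPolynomial ι ℂ) (QX E) k 0 (fun _ => 0) ∩ D = D := by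
    ext z
    simp only [PD, SD, Set.mem_inter_iff, Set.mem_ofPred_eq, aeval_X, QX, dat, ldc, cut,
      Sum.elim_inr, if_true, Bool.false_eq_true, if_false]
    constructor
    · exact fun h => h.2
    · intro h
      obtain ⟨h1, h3⟩ := hord z h
      exact ⟨⟨⟨fun l _ hl => h1 l hl, h1 0 (by omega), h3⟩, fun l hl => absurd hl
        (Nat.not_lt_zero l)⟩, h⟩
  have e1 : PD (X a0 : MvPolynomial ι ℂ) (QX E) k e (fun _ => 0) ∩ D =
      {z | z ∈ D ∧ ∀ j, k < j → j < k + 1 + e → PowerSeries.coeff j (z.2 a0) = 0} := by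
    ext z
    simp only [PD, SD, Set.mem_inter_iff, Set.mem_ofPred_eq, aeval_X, QX, dat, ldc, cut,
      Sum.elim_inr, if_true, Bool.false_eq_true, if_false, map_zero]
    constructor
    · rintro ⟨⟨⟨h1, h2, h3⟩, h6⟩, h4⟩
      refine ⟨h4, fun j hj hj' => ?_⟩
      have h9 := h6 (j - (k + 1)) (by omega)
      rw [show k + 1 + (j - (k + 1)) = j by omega] at h9
      exact h9
    · rintro ⟨h, h6⟩
      obtain ⟨h1, h3⟩ := hord z h
      exact ⟨⟨⟨fun l _ hl => h1 l hl, h1 0 (by omega), h3⟩,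
        fun l hl => h6 (k + 1 + l) (by omega) (by omega)⟩, h⟩
  rw [e0, e1] at hs
  exact hs

end lib

section two

variable {E : Type} (t t' : Fam) (G : P2) (Q : Set (E ⊕ Unit → ℂ)) (k l m : ℕ)

/-- the leading coefficients -/
noncomputable def cc (E : Type) (t t' : Fam) : Fin 2 → MvPolynomial (E ⊕ (t.σ ⊕ t'.σ)) ℂ :=
  ![rename (fun s => Sum.inr (Sum.inl s)) t.u, rename (fun s => Sum.inr (Sum.inr s)) t'.u]

/-- the arcs `X = u t^k + …`, `Y = u' t^l + …` -/
def DX : Set ((E ⊕ (t.σ ⊕ t'.σ) → ℂ) × (Fin 2 → PowerSeries ℂ)) :=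
  {z | (fun s => z.1 (Sum.inr (Sum.inl s))) ∈ t.S ∧ (fun s => z.1 (Sum.inr (Sum.inr s))) ∈ t'.S ∧
    ((∀ j < k, PowerSeries.coeff j (z.2 0) = 0) ∧
      PowerSeries.coeff k (z.2 0) = eval (fun s => z.1 (Sum.inr (Sum.inl s))) t.u) ∧
    ((∀ j < l, PowerSeries.coeff j (z.2 1) = 0) ∧
      PowerSeries.coeff l (z.2 1) = eval (fun s => z.1 (Sum.inr (Sum.inr s))) t'.u) ∧
    Lead Q m (fun e => z.1 (Sum.inl e)) (aeval z.2 G)}

variable {t t' G Q k l m}

theorem Cy_XS [Finite E] (ht : t.Good) (ht' : t'.Good) (hQ : QU Q) :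
    Cy (XS t t' G Q k l m) := by
  haveI := t.fin
  haveI := t'.fin
  refine Cy.and (Cy_par _ ht.1) (Cy.and (Cy_par _ ht'.1) (PL.cy_lead hQ.1 m Sum.inl ?_))
  intro n
  have h := PL.RF.aeval (E := E ⊕ (t.σ ⊕ t'.σ)) (ι := Fin 2) (u := fun (i : Fin 2) z => (![
      arcE (eval (fun s => z.1 (Sum.inr (Sum.inl s))) t.u) k (z.2 0),
      arcE (eval (fun s => z.1 (Sum.inr (Sum.inr s))) t'.u) l (z.2 1)] :
        Fin 2 → PowerSeries ℂ) i) ?_ G n
  · exact h
  · intro i j
    fin_cases i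
    · exact RF_arcE (RF_eval _ _) (fun j => RF.arc 0 j) k j
    · exact RF_arcE (RF_eval _ _) (fun j => RF.arc 1 j) l j

theorem Cy_DX [Finite E] (ht : t.Good) (ht' : t'.Good) (hQ : QU Q) :
    Cy (DX t t' G Q k l m) := by
  haveI := t.fin
  haveI := t'.fin
  refine Cy.and (Cy_par _ ht.1) (Cy.and (Cy_par _ ht'.1) (Cy.and (Cy.and
    (Cy.all_lt k fun j _ => Cy.zero (RF.arc 0 j)) (Cy.eq (RF.arc 0 k) (RF_eval _ _)))
    (Cy.and (Cy.and (Cy.all_lt l fun j _ => Cy.zero (RF.arc 1 j))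
      (Cy.eq (RF.arc 1 l) (RF_eval _ _))) (PL.cy_lead hQ.1 m Sum.inl fun n => RF.coef G n))))

theorem x2_DX (P : HodgeMeasure) [Finite E] (ht : t.Good) (ht' : t'.Good) (hQ : QU Q) :
    haveI := t.fin
    haveI := t'.fin
    vol P.rat xq (DX t t' G Q k l m) = xq ^ (k + 1 + (l + 1)) * x2 P t t' G Q k l m := by
  haveI := t.fin
  haveI := t'.fin
  have h := vol_arcs P (![k, l] : Fin 2 → ℕ) (cc E t t') (Cy_DX (G := G) (k := k) (l := l)
    (m := m) ht ht' hQ) (Cy_XS (G := G) (k := k) (l := l) (m := m) ht ht' hQ) ?_ ?_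
  · rw [h, Fin.sum_univ_two]
    rfl
  · intro p x
    have e1 : (fun i => arcE (eval p (cc E t t' i)) ((![k, l] : Fin 2 → ℕ) i) (x i)) =
        ![arcE (eval (fun s => p (Sum.inr (Sum.inl s))) t.u) k (x 0),
          arcE (eval (fun s => p (Sum.inr (Sum.inr s))) t'.u) l (x 1)] := by
      funext i
      fin_cases i
      · simp only [Fin.zero_eta, Matrix.cons_val_zero, cc, eval_rename]
        rfl
      · simp only [Fin.mk_one, Matrix.cons_val_one, Matrix.cons_val_zero, cc, eval_rename]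
        rfl
    rw [e1]
    constructor
    · rintro ⟨h1, h2, _, _, h5⟩
      exact ⟨h1, h2, h5⟩
    · rintro ⟨h1, h2, h5⟩
      refine ⟨h1, h2, ⟨fun j hj => ?_, ?_⟩, ⟨fun j hj => ?_, ?_⟩, h5⟩
      · exact (coeff_arcE _ _ _ _).trans (if_pos hj)
      · refine (coeff_arcE _ _ _ _).trans ?_
        rw [if_neg (lt_irrefl k), if_pos rfl]
      · exact (coeff_arcE _ _ _ _).trans (if_pos hj)
      · refine (coeff_arcE _ _ _ _).trans ?_
        rw [if_neg (lt_irrefl l), if_pos rfl]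
  · rintro z ⟨_, _, h3, h4, _⟩ i
    fin_cases i
    · simp only [Fin.zero_eta, Matrix.cons_val_zero, cc, eval_rename]
      exact h3
    · simp only [Fin.mk_one, Matrix.cons_val_one, Matrix.cons_val_zero, cc, eval_rename]
      exact h4

/-- order and leading coefficient are invariant -/
theorem lead_inv (r : ℕ) (hr : 1 ≤ r) (s : ℂ) (n : ℕ) (c : ℂ) (F : PowerSeries ℂ) :
    ((∀ j < n, PowerSeries.coeff j (UA.sb r s F) = 0) ∧ PowerSeries.coeff n (UA.sb r s F) = c) ↔
      (∀ j < n, PowerSeries.coeff j F = 0) ∧ PowerSeries.coeff n F = c := by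
  rw [van_iff r hr s n F]
  refine and_congr_right fun h => ?_
  rw [(sb_lead r s n F h).2 hr]

theorem DX_inv (r : ℕ) (hr : 1 ≤ r) (s : ℂ) (p : E ⊕ (t.σ ⊕ t'.σ) → ℂ)
    (x : Fin 2 → PowerSeries ℂ) : (p, UA.act r s x) ∈ DX t t' G Q k l m ↔
      (p, x) ∈ DX t t' G Q k l m := by
  refine and_congr Iff.rfl (and_congr Iff.rfl (and_congr ?_ (and_congr ?_ ?_)))
  · exact lead_inv r hr s k _ (x 0)
  · exact lead_inv r hr s l _ (x 1)
  · change Lead Q m _ (aeval (UA.act r s x) G) ↔ _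
    rw [UA.f_act, lead_iff Q m _ r hr s]

theorem Cy_ES' {E₁ : Type} [Finite E₁] (ht : t.Good) {Q₁ : Set ((E₁ ⊕ Unit) ⊕ Unit → ℂ)}
    (hQ : QU Q₁) : Cy (ES t G Q₁ k l m) := by
  haveI := t.fin
  refine Cy.and (Cy.not (Cy.zero (RF.par _))) (Cy.and (Cy_par _ ht.1)
    (PL.cy_lead hQ.1 m Sum.inl ?_))
  intro n
  have h := PL.RF.aeval (E := (E₁ ⊕ Unit) ⊕ t.σ) (ι := Unit) (u := fun (i : Fin 2) z => (![
      PowerSeries.C (z.1 (Sum.inl (Sum.inr ()))) * PowerSeries.X ^ k,
      arcE (eval (fun s => z.1 (Sum.inr s)) t.u) l (z.2 ())] :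
        Fin 2 → PowerSeries ℂ) i) ?_ G n
  · exact h
  · intro i j
    fin_cases i
    · simp only [Fin.zero_eta, Matrix.cons_val_zero, coeff_CX]
      exact RF.ite _ (RF.par _) (RF.const 0)
    · exact RF_arcE (RF_eval _ _) (fun j => RF.arc () j) l j

theorem QU_tie [Finite E] (ht : t.Good) (hQ : QU Q) : QU (tie t Q) := by
  haveI := t.fin
  constructor
  · refine Constructible.and ?_ (Constructible.and ?_ ?_)
    · exact Constructible.comap (fun s => Sum.inl (Sum.inl (Sum.inr s))) ht.1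
    · have h := Constructible.zero ((rename (fun s => Sum.inl (Sum.inl (Sum.inr s))) t.u -
        X (Sum.inl (Sum.inr ()))) : MvPolynomial (((E ⊕ t.σ) ⊕ Unit) ⊕ Unit) ℂ)
      convert h using 2
      ext z
      simp only [Set.mem_ofPred_eq, map_sub, eval_rename, eval_X]
      constructor
      · intro h2
        rw [sub_eq_zero]
        exact h2
      · intro h2
        rw [sub_eq_zero] at h2
        exact h2
    · have h := Constructible.comap (Sum.elim (fun e => Sum.inl (Sum.inl (Sum.inl e)))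
        (fun _ => Sum.inr ()) : E ⊕ Unit → ((E ⊕ t.σ) ⊕ Unit) ⊕ Unit) hQ.1
      convert h using 2
      ext z
      have e1 : (Sum.elim (fun e => z (Sum.inl (Sum.inl (Sum.inl e)))) fun _ => z (Sum.inr ())) =
          fun i => z ((Sum.elim (fun e => Sum.inl (Sum.inl (Sum.inl e)))
        (fun _ => Sum.inr ()) : E ⊕ Unit → ((E ⊕ t.σ) ⊕ Unit) ⊕ Unit) i) := by
        funext i
        rcases i with i | i <;> rfl
      change _ ∈ Q ↔ _ ∈ Q
      rw [e1]
  · rintro z ⟨_, _, h3⟩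
    exact hQ.2 _ h3

/-- `((p, τ, a, τ'), w) ↦ ((p, τ, τ'), (a t^k, u' t^l + t^{l+1} w))` -/
noncomputable def tR (t t' : Fam) (k l : ℕ)
    (z : (((E ⊕ t.σ) ⊕ Unit) ⊕ t'.σ → ℂ) × (Unit → PowerSeries ℂ)) :
    (E ⊕ (t.σ ⊕ t'.σ) → ℂ) × (Fin 2 → PowerSeries ℂ) :=
  (Sum.elim (fun e => z.1 (Sum.inl (Sum.inl (Sum.inl e)))) (Sum.elim
    (fun s => z.1 (Sum.inl (Sum.inl (Sum.inr s)))) fun s => z.1 (Sum.inr s)),
    ![PowerSeries.C (z.1 (Sum.inl (Sum.inr ()))) * PowerSeries.X ^ k,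
      arcE (eval (fun s => z.1 (Sum.inr s)) t'.u) l (z.2 ())])

/-- the polynomials for `tR` -/
noncomputable def pR (E : Type) (t t' : Fam) (k l M : ℕ) (K : Fin 2 → ℕ)
    (hK : K 1 = l + 1 + M) : (E ⊕ (t.σ ⊕ t'.σ)) ⊕ (Σ i : Fin 2, Fin (K i)) →
    MvPolynomial ((((E ⊕ t.σ) ⊕ Unit) ⊕ t'.σ) ⊕ (Σ _ : Unit, Fin M)) ℂ :=
  Sum.elim (Sum.elim (fun e => X (Sum.inl (Sum.inl (Sum.inl (Sum.inl e))))) (Sum.elim
    (fun s => X (Sum.inl (Sum.inl (Sum.inl (Sum.inr s))))) fun s => X (Sum.inl (Sum.inr s))))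
    fun s => if h0 : s.1 = 0 then
      (if (s.2 : ℕ) = k then X (Sum.inl (Sum.inl (Sum.inr ()))) else 0) else
      if h1 : (s.2 : ℕ) < l then 0 else if h2 : (s.2 : ℕ) = l then
        rename (fun s => Sum.inl (Sum.inr s)) t'.u else X (Sum.inr ⟨(), ⟨(s.2 : ℕ) - (l + 1), by
          have h4 : s.1 = 1 := by omega
          have h3 : (s.2 : ℕ) < K 1 := lt_of_lt_of_eq s.2.2 (congrArg K h4)
          omega⟩⟩)

theorem trd_tR (k l M : ℕ) (K : Fin 2 → ℕ) (hK : K 1 = l + 1 + M)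
    (z : (((E ⊕ t.σ) ⊕ Unit) ⊕ t'.σ → ℂ) × (Unit → PowerSeries ℂ)) :
    CV.trd K (tR t t' k l z).1 (tR t t' k l z).2 =
      fun a => eval (CV.trd (fun _ : Unit => M) z.1 z.2) (pR E t t' k l M K hK a) := by
  funext a
  rcases a with (e | (e | e)) | ⟨i, j⟩
  · simp only [pR, Sum.elim_inl, eval_X]
    rfl
  · simp only [pR, Sum.elim_inl, Sum.elim_inr, eval_X]
    rfl
  · simp only [pR, Sum.elim_inl, Sum.elim_inr, eval_X]
    rfl
  · by_cases hi : i = 0
    · subst hi
      simp only [pR, Sum.elim_inr, dif_pos]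
      change PowerSeries.coeff (j : ℕ)
        (PowerSeries.C (z.1 (Sum.inl (Sum.inr ()))) * PowerSeries.X ^ k) = _
      rw [coeff_CX]
      split_ifs
      · rw [eval_X]
        rfl
      · rw [map_zero]
    · have hi1 : i = 1 := by omega
      subst hi1
      simp only [pR, Sum.elim_inr, dif_neg hi]
      change PowerSeries.coeff (j : ℕ) (arcE (eval (fun s => z.1 (Sum.inr s)) t'.u) l (z.2 ())) = _
      rw [coeff_arcE]
      split_ifs with h1 h2
      · rw [map_zero]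
      · rw [eval_rename]
        rfl
      · rw [eval_X]
        rfl

theorem x2_e2 (P : HodgeMeasure) [Finite E] (ht : t.Good) (ht' : t'.Good) (hQ : QU Q)
    (hk : 1 ≤ k) :
    haveI := t.fin
    x2 P t t' G Q k l m = e2 P t' G (tie t Q) k l m := by
  classical
  haveI := t.fin
  haveI := t'.fin
  have hDX := Cy_DX (G := G) (k := k) (l := l) (m := m) ht ht' hQ
  obtain ⟨N, hN⟩ := cyl_cy hDX
  have hQt := QU_tie ht hQ
  have hES := Cy_ES' (G := G) (k := k) (l := l) (m := m) ht' hQt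
  obtain ⟨N', hN'⟩ := cyl_cy hES
  have h1 := core P (0 : Fin 2) hDX DX_inv hk (fun z hz => ⟨hz.2.2.1.1, by
    rw [hz.2.2.1.2]
    exact ht.2 _ hz.1⟩) N
  rw [x2_DX P ht ht' hQ] at h1
  set S : Set ((E ⊕ (t.σ ⊕ t'.σ) → ℂ) × (Fin 2 → PowerSeries ℂ)) :=
    {z | z ∈ DX t t' G Q k l m ∧ ∀ j, k < j → j < k + 1 + N → PowerSeries.coeff j (z.2 0) = 0}
    with hS
  set M := max N N' with hM
  set K : Fin 2 → ℕ := ![k + 1 + N, l + 1 + M] with hK
  have hK0 : K 0 = k + 1 + N := rfl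
  have hK1 : K 1 = l + 1 + M := rfl
  have hcD : IsCyl K (DX t t' G Q k l m) := hN K fun i => by
    have h5 := le_max_left N N'
    fin_cases i
    · change N ≤ k + 1 + N
      omega
    · change N ≤ l + 1 + M
      omega
  have hCyS : Cy S := by
    refine Cy.and hDX ?_
    have h2 : Cy {z : (E ⊕ (t.σ ⊕ t'.σ) → ℂ) × (Fin 2 → PowerSeries ℂ) |
        ∀ j < k + 1 + N, k < j → PowerSeries.coeff j (z.2 0) = 0} :=
      Cy.all_lt _ fun j _ => Cy.imp fun _ => Cy.zero (RF.arc 0 j)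
    convert h2 using 2
    ext z
    exact ⟨fun h j h3 h4 => h j h4 h3, fun h j h3 h4 => h j h4 h3⟩
  have hcS : IsCyl K S := by
    refine ⟨fun p x y h => and_congr (hcD.1 p x y h) ?_, O5Aux.con_sec hCyS K⟩
    refine forall_congr' fun j => forall_congr' fun _ => forall_congr' fun hj => ?_
    change PowerSeries.coeff j (x 0) = 0 ↔ PowerSeries.coeff j (y 0) = 0
    rw [h 0 j hj]
  have hcE : IsCyl (fun _ : Unit => M) (ES t' G (tie t Q) k l m) :=
    hN' _ fun _ => le_max_right N N'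
  have hmem : ∀ z : (((E ⊕ t.σ) ⊕ Unit) ⊕ t'.σ → ℂ) × (Unit → PowerSeries ℂ),
      z ∈ ES t' G (tie t Q) k l m → tR t t' k l z ∈ S := by
    rintro z ⟨h2, h3, h4, h5, h6, h7⟩
    refine ⟨⟨h5, h3, ⟨fun j hj => ?_, ?_⟩, ⟨fun j hj => ?_, ?_⟩, h4, h7⟩, fun j hj _ => ?_⟩
    · change PowerSeries.coeff j
        (PowerSeries.C (z.1 (Sum.inl (Sum.inr ()))) * PowerSeries.X ^ k) = 0
      rw [coeff_CX, if_neg (by omega)]
    · change PowerSeries.coeff k
        (PowerSeries.C (z.1 (Sum.inl (Sum.inr ()))) * PowerSeries.X ^ k) = _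
      rw [coeff_CX, if_pos rfl]
      exact h6.symm
    · exact (coeff_arcE _ _ _ _).trans (if_pos hj)
    · refine (coeff_arcE _ _ _ _).trans ?_
      rw [if_neg (lt_irrefl l), if_pos rfl]
      rfl
    · change PowerSeries.coeff j
        (PowerSeries.C (z.1 (Sum.inl (Sum.inr ()))) * PowerSeries.X ^ k) = 0
      rw [coeff_CX, if_neg (by omega)]
  have key := CV.vol_cvp P hcS hcE (tR t t' k l) (pR E t t' k l M K hK1)
    (fun z _ => trd_tR k l M K hK1 z) hmem ?_ ?_
  · rw [h1, Fin.sum_univ_two, hK0, hK1] at key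
    simp only [Finset.sum_const, Finset.card_univ, Fintype.card_unit, smul_eq_mul, one_mul] at key
    have h3 : xq ^ (k + 1 + N + (l + 1 + M)) ≠ 0 := pow_ne_zero _ xq_ne
    refine mul_right_cancel₀ h3 ?_
    have h4 : e2 P t' G (tie t Q) k l m = vol P.rat xq (ES t' G (tie t Q) k l m) := rfl
    rw [h4, ← key]
    have h5 : xq ^ (k + 1 + N + (l + 1 + M)) = xq ^ N * xq ^ (k + 1 + (l + 1)) * xq ^ M := by
      rw [← pow_add, ← pow_add]
      congr 1
      omega
    rw [h5]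
    ring
  · intro z _ z' _ h
    funext a
    rcases a with (((e | e) | ⟨⟩) | e) | ⟨⟨⟩, j⟩
    · exact congrFun h (Sum.inl (Sum.inl e))
    · exact congrFun h (Sum.inl (Sum.inr (Sum.inl e)))
    · have h2 := congrFun h (Sum.inr ⟨0, ⟨k, by rw [hK0]; omega⟩⟩)
      change PowerSeries.coeff k
        (PowerSeries.C (z.1 (Sum.inl (Sum.inr ()))) * PowerSeries.X ^ k) =
        PowerSeries.coeff k
          (PowerSeries.C (z'.1 (Sum.inl (Sum.inr ()))) * PowerSeries.X ^ k) at h2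
      rw [coeff_CX, coeff_CX, if_pos rfl, if_pos rfl] at h2
      exact h2
    · exact congrFun h (Sum.inl (Sum.inr (Sum.inr e)))
    · have h2 := congrFun h (Sum.inr ⟨1, ⟨(j : ℕ) + (l + 1), by
        have := j.2
        rw [hK1]
        omega⟩⟩)
      change PowerSeries.coeff ((j : ℕ) + (l + 1))
        (arcE (eval (fun s => z.1 (Sum.inr s)) t'.u) l (z.2 ())) =
        PowerSeries.coeff ((j : ℕ) + (l + 1))
          (arcE (eval (fun s => z'.1 (Sum.inr s)) t'.u) l (z'.2 ())) at h2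
      rw [coeff_arcE, coeff_arcE, if_neg (by omega), if_neg (by omega), if_neg (by omega),
        if_neg (by omega), Nat.add_sub_cancel] at h2
      exact h2
  · rintro y ⟨hy, hy'⟩
    obtain ⟨h2, h3, h4, h5, h6, h7⟩ := hy
    set z : (((E ⊕ t.σ) ⊕ Unit) ⊕ t'.σ → ℂ) × (Unit → PowerSeries ℂ) :=
      (Sum.elim (Sum.elim (Sum.elim (fun e => y.1 (Sum.inl e))
        fun s => y.1 (Sum.inr (Sum.inl s))) fun _ => PowerSeries.coeff k (y.2 0))
        fun s => y.1 (Sum.inr (Sum.inr s)), fun _ => tl (l + 1) (y.2 1)) with hz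
    have hY : arcE (eval (fun s => z.1 (Sum.inr s)) t'.u) l (z.2 ()) = y.2 1 := by
      have h8 := arcE_tl l (y.2 1) h5.1
      rw [h5.2] at h8
      exact h8
    have e1 : CV.trd K (tR t t' k l z).1 (tR t t' k l z).2 = CV.trd K y.1 y.2 := by
      funext a
      rcases a with (e | (e | e)) | ⟨i, j⟩
      · rfl
      · rfl
      · rfl
      · by_cases hi : i = 0
        · subst hi
          change PowerSeries.coeff (j : ℕ) (PowerSeries.C (PowerSeries.coeff k (y.2 0)) *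
            PowerSeries.X ^ k) = PowerSeries.coeff (j : ℕ) (y.2 0)
          rw [coeff_CX]
          split_ifs with hj
          · rw [hj]
          · rcases Nat.lt_or_ge (j : ℕ) k with h8 | h8
            · exact (h4.1 j h8).symm
            · exact (hy' j (by omega) j.2).symm
        · have hi1 : i = 1 := by omega
          subst hi1
          change PowerSeries.coeff (j : ℕ)
            (arcE (eval (fun s => z.1 (Sum.inr s)) t'.u) l (z.2 ())) =
              PowerSeries.coeff (j : ℕ) (y.2 1)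
          rw [hY]
    refine ⟨z, ?_, e1⟩
    have hyD : tR t t' k l z ∈ DX t t' G Q k l m :=
      (CV.mem_trd hcD e1).2 ⟨h2, h3, h4, h5, h6, h7⟩
    obtain ⟨g1, g2, g3, g4, g5, g6⟩ := hyD
    refine ⟨?_, g2, g5, g1, ?_, g6⟩
    · change PowerSeries.coeff k (y.2 0) ≠ 0
      rw [h4.2]
      exact ht.2 _ h2
    · exact h4.2.symm

end two

section one

variable {E : Type} {t : Fam} {G : P2} {Q : Set (E ⊕ Unit → ℂ)} {k m : ℕ}

/-- the arcs `X = u t^k + …` -/
def DY (t : Fam) (G : P2) (Q : Set (E ⊕ Unit → ℂ)) (k m : ℕ) :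
    Set ((E ⊕ t.σ → ℂ) × (Unit → PowerSeries ℂ)) :=
  {z | (fun s => z.1 (Sum.inr s)) ∈ t.S ∧
    ((∀ j < k, PowerSeries.coeff j (z.2 ()) = 0) ∧
      PowerSeries.coeff k (z.2 ()) = eval (fun s => z.1 (Sum.inr s)) t.u) ∧
    Lead Q m (fun e => z.1 (Sum.inl e)) (aeval (![z.2 (), 0] : Fin 2 → PowerSeries ℂ) G)}

theorem Cy_YS [Finite E] (ht : t.Good) (hQ : QU Q) : Cy (YS t G Q k m) := by
  haveI := t.fin
  refine Cy.and (Cy_par _ ht.1) (PL.cy_lead hQ.1 m Sum.inl ?_)
  intro n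
  have h := PL.RF.aeval (E := E ⊕ t.σ) (ι := Unit) (u := fun (i : Fin 2) z => (![
      arcE (eval (fun s => z.1 (Sum.inr s)) t.u) k (z.2 ()), 0] :
        Fin 2 → PowerSeries ℂ) i) ?_ G n
  · exact h
  · intro i j
    fin_cases i
    · exact RF_arcE (RF_eval _ _) (fun j => RF.arc () j) k j
    · simp only [Fin.mk_one, Matrix.cons_val_one, Matrix.cons_val_zero, map_zero]
      exact RF.const 0

theorem Cy_DY [Finite E] (ht : t.Good) (hQ : QU Q) : Cy (DY t G Q k m) := by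
  haveI := t.fin
  refine Cy.and (Cy_par _ ht.1) (Cy.and (Cy.and
    (Cy.all_lt k fun j _ => Cy.zero (RF.arc () j)) (Cy.eq (RF.arc () k) (RF_eval _ _)))
    (PL.cy_lead hQ.1 m Sum.inl ?_))
  intro n
  have h := PL.RF.aeval (E := E ⊕ t.σ) (ι := Unit) (u := fun (i : Fin 2) z => (![
      z.2 (), 0] : Fin 2 → PowerSeries ℂ) i) ?_ G n
  · exact h
  · intro i j
    fin_cases i
    · exact RF.arc () j
    · simp only [Fin.mk_one, Matrix.cons_val_one, Matrix.cons_val_zero, map_zero]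
      exact RF.const 0

theorem y1_DY (P : HodgeMeasure) [Finite E] (ht : t.Good) (hQ : QU Q) :
    haveI := t.fin
    vol P.rat xq (DY t G Q k m) = xq ^ (k + 1) * y1 P t G Q k m := by
  haveI := t.fin
  have h := vol_arcs P (fun _ : Unit => k)
    (fun _ => (rename (fun s => Sum.inr s) t.u : MvPolynomial (E ⊕ t.σ) ℂ))
    (Cy_DY (G := G) (k := k) (m := m) ht hQ) (Cy_YS (G := G) (k := k) (m := m) ht hQ) ?_ ?_
  · rw [h]
    simp only [Finset.sum_const, Finset.card_univ, Fintype.card_unit, smul_eq_mul, one_mul]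
    rfl
  · intro p x
    have e1 : eval p (rename (fun s => Sum.inr s) t.u : MvPolynomial (E ⊕ t.σ) ℂ) =
        eval (fun s => p (Sum.inr s)) t.u := by
      rw [eval_rename]
      rfl
    rw [e1]
    constructor
    · rintro ⟨h1, _, h5⟩
      exact ⟨h1, h5⟩
    · rintro ⟨h1, h5⟩
      refine ⟨h1, ⟨fun j hj => ?_, ?_⟩, h5⟩
      · exact (coeff_arcE _ _ _ _).trans (if_pos hj)
      · refine (coeff_arcE _ _ _ _).trans ?_
        rw [if_neg (lt_irrefl k), if_pos rfl]
  · rintro z ⟨_, h3, _⟩ ⟨⟩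
    rw [eval_rename]
    exact h3

theorem DY_inv (r : ℕ) (hr : 1 ≤ r) (s : ℂ) (p : E ⊕ t.σ → ℂ)
    (x : Unit → PowerSeries ℂ) : (p, UA.act r s x) ∈ DY t G Q k m ↔
      (p, x) ∈ DY t G Q k m := by
  refine and_congr Iff.rfl (and_congr ?_ ?_)
  · exact lead_inv r hr s k _ (x ())
  · have e1 : (![UA.act r s x (), 0] : Fin 2 → PowerSeries ℂ) =
        UA.act r s (![x (), 0] : Fin 2 → PowerSeries ℂ) := by
      funext i
      fin_cases i
      · rfl
      · exact (map_zero (UA.sb r s)).symm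
    change Lead Q m _ (aeval (![UA.act r s x (), 0] : Fin 2 → PowerSeries ℂ) G) ↔ _
    rw [e1, UA.f_act, lead_iff Q m _ r hr s]

theorem y1_e0 (P : HodgeMeasure) [Finite E] (ht : t.Good) (hQ : QU Q) (hk : 1 ≤ k) :
    haveI := t.fin
    y1 P t G Q k m = e0 P G (tie t Q) k m := by
  classical
  haveI := t.fin
  have hDY := Cy_DY (G := G) (k := k) (m := m) ht hQ
  obtain ⟨N, hN⟩ := cyl_cy hDY
  have h1 := core P () hDY DY_inv hk (fun z hz => ⟨hz.2.1.1, by
    rw [hz.2.1.2]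
    exact ht.2 _ hz.1⟩) N
  rw [y1_DY P ht hQ] at h1
  set S : Set ((E ⊕ t.σ → ℂ) × (Unit → PowerSeries ℂ)) :=
    {z | z ∈ DY t G Q k m ∧ ∀ j, k < j → j < k + 1 + N → PowerSeries.coeff j (z.2 ()) = 0}
    with hS
  set K : Unit → ℕ := fun _ => k + 1 + N with hK
  have hcD : IsCyl K (DY t G Q k m) := hN K fun _ => by
    simp only [hK]
    omega
  have hCyS : Cy S := by
    refine Cy.and hDY ?_
    have h2 : Cy {z : (E ⊕ t.σ → ℂ) × (Unit → PowerSeries ℂ) |
        ∀ j < k + 1 + N, k < j → PowerSeries.coeff j (z.2 ()) = 0} :=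
      Cy.all_lt _ fun j _ => Cy.imp fun _ => Cy.zero (RF.arc () j)
    convert h2 using 2
    ext z
    exact ⟨fun h j h3 h4 => h j h4 h3, fun h j h3 h4 => h j h4 h3⟩
  have hcS : IsCyl K S := by
    refine ⟨fun p x y h => and_congr (hcD.1 p x y h) ?_, O5Aux.con_sec hCyS K⟩
    refine forall_congr' fun j => forall_congr' fun _ => forall_congr' fun hj => ?_
    change PowerSeries.coeff j (x ()) = 0 ↔ PowerSeries.coeff j (y ()) = 0
    rw [h () j hj]
  have hQt := QU_tie ht hQ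
  -- the parameter set
  set B : Set ((E ⊕ t.σ) ⊕ Unit → ℂ) := {z | z (Sum.inr ()) ≠ 0 ∧ Lead (tie t Q) m z
    (ev G k (z (Sum.inr ())) 0)} with hB
  have hBc : Constructible B := by
    have hcy : Cy {z : ((E ⊕ t.σ) ⊕ Unit → ℂ) × (Empty → PowerSeries ℂ) |
        z.1 (Sum.inr ()) ≠ 0 ∧ Lead (tie t Q) m z.1 (ev G k (z.1 (Sum.inr ())) 0)} := by
      refine Cy.and (Cy.not (Cy.zero (RF.par _))) (PL.cy_lead hQt.1 m (fun e => e) ?_)
      intro n
      have h := PL.RF.aeval (E := (E ⊕ t.σ) ⊕ Unit) (ι := Empty) (u := fun (i : Fin 2) z => (![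
          PowerSeries.C (z.1 (Sum.inr ())) * PowerSeries.X ^ k, 0] :
            Fin 2 → PowerSeries ℂ) i) ?_ G n
      · exact h
      · intro i j
        fin_cases i
        · simp only [Fin.zero_eta, Matrix.cons_val_zero, coeff_CX]
          exact RF.ite _ (RF.par _) (RF.const 0)
        · simp only [Fin.mk_one, Matrix.cons_val_one, Matrix.cons_val_zero, map_zero]
          exact RF.const 0
    have h2 := O5Aux.con_sec hcy (fun _ : Empty => 0)
    have h3 := Constructible.preimage (fun a : ((E ⊕ t.σ) ⊕ Unit) ⊕ (Σ _ : Empty, Fin 0) =>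
      (Sum.elim (fun e => X e) (fun s => Empty.elim s.1) a :
        MvPolynomial ((E ⊕ t.σ) ⊕ Unit) ℂ)) h2
    convert h3 using 2
    ext z
    change (z ∈ B) ↔ (_ ∧ Lead (tie t Q) m _ _)
    simp only [Sum.elim_inl, eval_X]
    exact Iff.rfl
  have hval : P.rat.val B = P.rat.val (sec K S) := by
    have hmap : ∀ z : (E ⊕ t.σ) ⊕ Unit → ℂ, (fun a => eval z
        ((Sum.elim (fun e => X (Sum.inl e)) fun s : (Σ i : Unit, Fin (K i)) =>
          if (s.2 : ℕ) = k then X (Sum.inr ()) else 0 :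
          (E ⊕ t.σ) ⊕ (Σ i : Unit, Fin (K i)) → MvPolynomial ((E ⊕ t.σ) ⊕ Unit) ℂ) a)) =
        CV.trd K (fun e => z (Sum.inl e)) (fun _ => PowerSeries.C (z (Sum.inr ())) *
          PowerSeries.X ^ k) := by
      intro z
      funext a
      rcases a with a | a
      · simp only [Sum.elim_inl, eval_X]
        rfl
      · simp only [Sum.elim_inr]
        change _ = PowerSeries.coeff (a.2 : ℕ) (PowerSeries.C (z (Sum.inr ())) *
          PowerSeries.X ^ k)
        rw [coeff_CX]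
        split_ifs
        · rw [eval_X]
        · rw [map_zero]
    have hin : ∀ z ∈ B, ((fun e => z (Sum.inl e)), fun _ : Unit => PowerSeries.C
        (z (Sum.inr ())) * PowerSeries.X ^ k) ∈ S := by
      rintro z ⟨h2, h4, h5, h6, h7⟩
      refine ⟨⟨h5, ⟨fun j hj => ?_, ?_⟩, h4, h7⟩, fun j hj _ => ?_⟩
      · change PowerSeries.coeff j (PowerSeries.C (z (Sum.inr ())) * PowerSeries.X ^ k) = 0
        rw [coeff_CX, if_neg (by omega)]
      · change PowerSeries.coeff k (PowerSeries.C (z (Sum.inr ())) * PowerSeries.X ^ k) = _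
        rw [coeff_CX, if_pos rfl]
        exact h6.symm
      · change PowerSeries.coeff j (PowerSeries.C (z (Sum.inr ())) * PowerSeries.X ^ k) = 0
        rw [coeff_CX, if_neg (by omega)]
    refine P.rat.map B (sec K S) (Sum.elim (fun e => X (Sum.inl e))
      fun s : (Σ i : Unit, Fin (K i)) => if (s.2 : ℕ) = k then X (Sum.inr ()) else 0)
      hBc hcS.2 ⟨?_, ?_, ?_⟩
    · intro z hz
      beta_reduce
      rw [hmap]
      exact (mem_sec_trd hcS ((fun e => z (Sum.inl e)), fun _ : Unit => PowerSeries.C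
        (z (Sum.inr ())) * PowerSeries.X ^ k)).2 (hin z hz)
    · intro z _ z' _ hzz
      beta_reduce at hzz
      rw [hmap, hmap] at hzz
      funext a
      rcases a with a | ⟨⟩
      · exact congrFun hzz (Sum.inl a)
      · have h2 := congrFun hzz (Sum.inr ⟨(), ⟨k, by simp only [hK]; omega⟩⟩)
        change PowerSeries.coeff k (PowerSeries.C (z (Sum.inr ())) * PowerSeries.X ^ k) =
          PowerSeries.coeff k (PowerSeries.C (z' (Sum.inr ())) * PowerSeries.X ^ k) at h2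
        rw [coeff_CX, coeff_CX, if_pos rfl, if_pos rfl] at h2
        exact h2
    · intro v hv
      obtain ⟨⟨h2, h3, h4⟩, h5⟩ : ((fun p => v (Sum.inl p)), toArc K fun s => v (Sum.inr s)) ∈
        S := hv
      set y : PowerSeries ℂ := toArc K (fun s => v (Sum.inr s)) () with hy
      have e1 : CV.trd K (fun e => v (Sum.inl e)) (fun _ : Unit =>
          PowerSeries.C (PowerSeries.coeff k y) * PowerSeries.X ^ k) = v := by
        have h8 := CV.trd_toArc K v
        rw [← h8]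
        funext a
        rcases a with a | ⟨⟨⟩, j⟩
        · rfl
        · change PowerSeries.coeff (j : ℕ) (PowerSeries.C (PowerSeries.coeff k y) *
            PowerSeries.X ^ k) = PowerSeries.coeff (j : ℕ) y
          rw [coeff_CX]
          split_ifs with hj
          · rw [hj]
          · rcases Nat.lt_or_ge (j : ℕ) k with h9 | h9
            · exact (h3.1 j h9).symm
            · exact (h5 j (by omega) j.2).symm
      refine ⟨Sum.elim (fun e => v (Sum.inl e)) fun _ => PowerSeries.coeff k y, ?_, ?_⟩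
      · have h10 : ((fun e => v (Sum.inl e)), fun _ : Unit =>
            PowerSeries.C (PowerSeries.coeff k y) * PowerSeries.X ^ k) ∈ DY t G Q k m := by
          refine (CV.mem_trd hcD (z := ((fun e => v (Sum.inl e)), fun _ : Unit =>
            PowerSeries.C (PowerSeries.coeff k y) * PowerSeries.X ^ k))
            (z' := ((fun p => v (Sum.inl p)), toArc K fun s => v (Sum.inr s))) ?_).2 ⟨h2, h3, h4⟩
          rw [e1]
          exact (CV.trd_toArc K v).symm
        obtain ⟨g1, g2, g3⟩ := h10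
        refine ⟨?_, g3.1, g1, ?_, g3.2⟩
        · change PowerSeries.coeff k y ≠ 0
          rw [h3.2]
          exact ht.2 _ h2
        · exact h3.2.symm
      · beta_reduce
        rw [hmap]
        exact e1
  have h2 : vol P.rat xq S = P.rat.val (sec K S) * xq ^ (∑ i, K i) :=
    vol_eq P.rat (TS.VAAux.L_mul P) hcS
  have h3 : e0 P G (tie t Q) k m = P.rat.val B := rfl
  rw [h3, hval]
  rw [h1] at h2
  simp only [Finset.sum_const, Finset.card_univ, Fintype.card_unit, smul_eq_mul, one_mul,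
    hK] at h2
  have h4 : xq ^ (k + 1 + N) ≠ 0 := pow_ne_zero _ xq_ne
  refine mul_right_cancel₀ h4 ?_
  rw [← h2, pow_add xq (k + 1) N]
  ring

end one

end RP7Aux

open RP7Aux

theorem stmt_RP7 : Stmt_RP7 := by
  intro P t t' G ht ht' E _ Q hQ k l m hk
  exact ⟨x2_e2 P ht ht' hQ hk, y1_e0 P ht hQ hk⟩

end Pool.Agent.Mono.BV
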