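import Pool.Agent.Work.Monodromy7.RP7
import Pool.Agent.Work.Monodromy6.VRAY

/-!
# Block RY7: a point of a ray which belongs to an edge
-/

set_option autoImplicit false
set_option linter.unusedSectionVars false
set_option linter.style.haveILetI false
set_option linter.unusedSimpArgs false

namespace Pool.Agent.Mono.BV

open MvPolynomial TS RO PC RO.VGAux PC.VREPAux PC.VRAYAux PC.VRAux RP7Aux

namespace RY7Aux

section

variable {E : Type}

/-- sets of parameters -/
theorem vol_param (P : HodgeMeasure) {ι : Type} [Finite E] [Fintype ι] {B : Set (E → ℂ)}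
    (hB : Constructible B) :
    vol P.rat xq {z : (E → ℂ) × (ι → PowerSeries ℂ) | z.1 ∈ B} = P.rat.val B := by
  have hc : IsCyl (fun _ : ι => 0) {z : (E → ℂ) × (ι → PowerSeries ℂ) | z.1 ∈ B} :=
    IsCyl.param hB
  rw [vol_eq P.rat (TS.VAAux.L_mul P) hc]
  simp only [Finset.sum_const_zero, pow_zero, mul_one]
  refine P.rat.map _ _ (fun e => X (Sum.inl e)) hc.2 hB ⟨?_, ?_, ?_⟩
  · intro v hv
    simp only [eval_X]
    exact hv
  · intro v _ v' _ h
    funext s
    rcases s with s | ⟨i, j⟩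
    · have := congrFun h s
      simpa only [eval_X] using this
    · exact absurd j.2 (Nat.not_lt_zero _)
  · intro r hr
    refine ⟨Sum.elim r fun _ => 0, hr, ?_⟩
    funext e
    simp only [eval_X, Sum.elim_inl]

theorem Cy_NS7 [Finite E] (G : P2) {Q : Set ((E ⊕ Unit) ⊕ Unit → ℂ)} (hQ : Constructible Q)
    (k L m : ℕ) : Cy (NS7 G Q k L m) :=
  Cy.and (Cy.not (Cy.zero (RF.par _))) (Cy.and (Cy.all_lt L fun l _ => Cy.zero (RF.arc () l))
    (PL.cy_lead hQ m (fun e => e) fun l => PL.RF.ev G k _ () l))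

variable {t : Fam} {G : P2} {Q : Set ((E ⊕ Unit) ⊕ Unit → ℂ)} {p q k m : ℕ}

theorem QU_pull [Finite E] (ht : t.Good) (lam : ℂ) (hQ : QU Q) : QU (pull t p q lam Q) := by
  haveI := t.fin
  constructor
  · refine Constructible.and ?_ (Constructible.and ?_ ?_)
    · exact Constructible.comap (fun s => Sum.inl (Sum.inl (Sum.inr s))) ht.1
    · have h := Constructible.zero ((rename (fun s => Sum.inl (Sum.inl (Sum.inr s))) t.u -
        C lam * X (Sum.inl (Sum.inr ())) ^ q) : MvPolynomial (((E ⊕ t.σ) ⊕ Unit) ⊕ Unit) ℂ)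
      convert h using 2
      ext z
      simp only [Set.mem_ofPred_eq, map_sub, map_mul, map_pow, eval_rename, eval_X, eval_C]
      constructor
      · intro h2
        rw [sub_eq_zero]
        exact h2
      · intro h2
        rw [sub_eq_zero] at h2
        exact h2
    · have h := Constructible.preimage (Sum.elim (Sum.elim
        (fun e => X (Sum.inl (Sum.inl (Sum.inl e)))) fun _ => X (Sum.inl (Sum.inr ())) ^ p)
        (fun _ => X (Sum.inr ())) : (E ⊕ Unit) ⊕ Unit →
          MvPolynomial (((E ⊕ t.σ) ⊕ Unit) ⊕ Unit) ℂ) hQ.1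
      convert h using 2
      ext z
      have e1 : (Sum.elim (Sum.elim (fun e => z (Sum.inl (Sum.inl (Sum.inl e))))
          fun _ => z (Sum.inl (Sum.inr ())) ^ p) fun _ => z (Sum.inr ())) =
          fun j => eval z ((Sum.elim (Sum.elim
        (fun e => X (Sum.inl (Sum.inl (Sum.inl e)))) fun _ => X (Sum.inl (Sum.inr ())) ^ p)
        (fun _ => X (Sum.inr ())) : (E ⊕ Unit) ⊕ Unit →
          MvPolynomial (((E ⊕ t.σ) ⊕ Unit) ⊕ Unit) ℂ) j) := by
        funext i
        rcases i with (i | i) | i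
        · simp
        · simp
        · simp
      change _ ∈ Q ↔ _ ∈ Q
      rw [e1]
  · rintro z ⟨_, _, h3⟩
    exact hQ.2 _ h3

/-- the part over the root `R` -/
def SR7 (t : Fam) (G : P2) (Q : Set ((E ⊕ Unit) ⊕ Unit → ℂ)) (p q k m : ℕ) (R : ℂ) :
    Set (((E ⊕ Unit) ⊕ t.σ → ℂ) × (Unit → PowerSeries ℂ)) :=
  {z | z ∈ ES t G Q (p * k) (q * k) m ∧
    eval (fun s => z.1 (Sum.inr s)) t.u ^ p = R * z.1 (Sum.inl (Sum.inr ())) ^ q}

theorem Cy_SR7 [Finite E] (ht : t.Good) (hQ : QU Q) (R : ℂ) :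
    Cy (SR7 t G Q p q k m R) := by
  haveI := t.fin
  refine Cy.and (Cy_ES' ht hQ) (Cy.eq ?_ ?_)
  · have := RF_eval (ι := Unit) (fun s => Sum.inr s : t.σ → (E ⊕ Unit) ⊕ t.σ) (t.u ^ p)
    simpa only [map_pow] using this
  · have := RF_eval (ι := Unit) (fun _ => Sum.inl (Sum.inr ()) : Unit → (E ⊕ Unit) ⊕ t.σ)
      (C R * X () ^ q)
    simpa only [map_mul, map_pow, eval_C, eval_X] using this

/-- the map -/
noncomputable def tau7 (t : Fam) (p q : ℕ)
    (z : ((E ⊕ t.σ) ⊕ Unit → ℂ) × (Unit → PowerSeries ℂ)) :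
    ((E ⊕ Unit) ⊕ t.σ → ℂ) × (Unit → PowerSeries ℂ) :=
  (Sum.elim (Sum.elim (fun e => z.1 (Sum.inl (Sum.inl e))) fun _ => z.1 (Sum.inr ()) ^ p)
    fun s => z.1 (Sum.inl (Sum.inr s)),
    fun _ => PowerSeries.C (z.1 (Sum.inr ()) ^ q) * tl 1 (z.2 ()))

/-- its polynomials -/
noncomputable def phi7 (E : Type) (t : Fam) (p q n : ℕ) :
    ((E ⊕ Unit) ⊕ t.σ) ⊕ (Σ _ : Unit, Fin n) →
      MvPolynomial (((E ⊕ t.σ) ⊕ Unit) ⊕ (Σ _ : Unit, Fin (n + 1))) ℂ :=
  Sum.elim (Sum.elim (Sum.elim (fun e => X (Sum.inl (Sum.inl (Sum.inl e))))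
    fun _ => X (Sum.inl (Sum.inr ())) ^ p) fun s => X (Sum.inl (Sum.inl (Sum.inr s))))
    fun s => X (Sum.inl (Sum.inr ())) ^ q * X (Sum.inr ⟨(), ⟨(s.2 : ℕ) + 1, by
      have := s.2.2
      omega⟩⟩)

theorem coeff_tau7 (z : ((E ⊕ t.σ) ⊕ Unit → ℂ) × (Unit → PowerSeries ℂ)) (j : ℕ) :
    PowerSeries.coeff j ((tau7 t p q z).2 ()) =
      z.1 (Sum.inr ()) ^ q * PowerSeries.coeff (j + 1) (z.2 ()) := by
  change PowerSeries.coeff j (PowerSeries.C (z.1 (Sum.inr ()) ^ q) * tl 1 (z.2 ())) = _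
  rw [PowerSeries.coeff_C_mul, tl, PowerSeries.coeff_mk]

theorem trd_tau7 (n : ℕ) (z : ((E ⊕ t.σ) ⊕ Unit → ℂ) × (Unit → PowerSeries ℂ)) :
    CV.trd (fun _ => n) (tau7 t p q z).1 (tau7 t p q z).2 =
      fun a => eval (CV.trd (fun _ => n + 1) z.1 z.2) (phi7 E t p q n a) := by
  funext a
  rcases a with ((e | u) | s) | ⟨u, j⟩
  · simp only [phi7, Sum.elim_inl, eval_X]
    rfl
  · simp only [phi7, Sum.elim_inl, Sum.elim_inr, map_pow, eval_X]
    rfl
  · simp only [phi7, Sum.elim_inl, Sum.elim_inr, eval_X]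
    rfl
  · change PowerSeries.coeff (j : ℕ) ((tau7 t p q z).2 ()) = _
    rw [coeff_tau7]
    simp only [phi7, Sum.elim_inr, map_mul, map_pow, eval_X]
    rfl

/-- the arcs correspond -/
theorem arc_tau7 (lam c : ℂ) (n : ℕ) (w : PowerSeries ℂ) (hw : PowerSeries.coeff 0 w = 0) :
    PowerSeries.C c * PowerSeries.X ^ n * (PowerSeries.C lam + w) =
      arcE (lam * c) n (PowerSeries.C c * tl 1 w) := by
  have h1 : w = PowerSeries.X * tl 1 w := by
    ext j
    rcases j with _ | j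
    · rw [hw, PowerSeries.coeff_zero_X_mul]
    · rw [PowerSeries.coeff_succ_X_mul, tl, PowerSeries.coeff_mk]
  conv_lhs => rw [h1]
  rw [arcE, map_mul]
  ring

theorem X_xq : (RatFunc.X : K) * xq = 1 := by
  rw [xq]
  exact mul_inv_cancel₀ RatFunc.X_ne_zero

theorem root_piece7 (P : HodgeMeasure) [Finite E] (ht : t.Good) (hQ : QU Q)
    (hpq : p.Coprime q) (hp : 1 ≤ p) (lam : ℂ) (hl : lam ≠ 0) :
    haveI := t.fin
    vol P.rat xq (SR7 t G Q p q k m (lam ^ p)) =
      RatFunc.X * vN7 P (chart p q lam G) (pull t p q lam Q) k 1 m := by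
  haveI := t.fin
  obtain ⟨N, hN⟩ := cyl_cy (Cy_SR7 (G := G) (p := p) (q := q) (k := k) (m := m) ht hQ (lam ^ p))
  have hQp := QU_pull (p := p) (q := q) ht lam hQ
  obtain ⟨N', hN'⟩ := cyl_cy (Cy_NS7 (chart p q lam G) hQp.1 k 1 m)
  set n := max N N' with hn
  have hS : IsCyl (fun _ : Unit => n) (SR7 t G Q p q k m (lam ^ p)) :=
    hN _ fun _ => le_max_left _ _
  have hS' : IsCyl (fun _ : Unit => n + 1) (NS7 (chart p q lam G) (pull t p q lam Q) k 1 m) :=
    hN' _ fun _ => (le_max_right N N').trans (Nat.le_succ _)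
  have hev : ∀ z ∈ NS7 (chart p q lam G) (pull t p q lam Q) k 1 m,
      ev (chart p q lam G) k (z.1 (Sum.inr ())) (z.2 ()) =
        ev G (p * k) (z.1 (Sum.inr ()) ^ p) (arcE (eval (fun s => z.1 (Sum.inl (Sum.inr s))) t.u)
          (q * k) ((tau7 t p q z).2 ())) := by
    rintro z ⟨_, h2, _, _, h4, _⟩
    have h5 : eval (fun s => z.1 (Sum.inl (Sum.inr s))) t.u = lam * z.1 (Sum.inr ()) ^ q := h4
    rw [ev_chart, arc_tau7 lam _ _ _ (h2 0 (by omega)), h5]
    rfl
  have key := CV.vol_cvp P hS hS' (tau7 t p q) (phi7 E t p q n)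
    (fun z _ => trd_tau7 n z) ?_ ?_ ?_
  · simp only [Finset.univ_unique, Finset.sum_singleton] at key
    rw [vN7]
    have hx : (xq : K) ^ n ≠ 0 := pow_ne_zero _ xq_ne
    refine mul_right_cancel₀ hx ?_
    have h1 := X_xq
    have h2 : vol P.rat xq (SR7 t G Q p q k m (lam ^ p)) * xq ^ n = RatFunc.X *
        (vol P.rat xq (SR7 t G Q p q k m (lam ^ p)) * xq ^ (n + 1)) := by
      rw [pow_succ]
      linear_combination (-(vol P.rat xq (SR7 t G Q p q k m (lam ^ p)) * xq ^ n)) * h1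
    rw [h2, key]
    ring
  · intro z hz
    have h7 := hev z hz
    obtain ⟨h1, h2, h3, h4, h5, h6⟩ := hz
    have h5' : eval (fun s => z.1 (Sum.inl (Sum.inr s))) t.u = lam * z.1 (Sum.inr ()) ^ q := h5
    refine ⟨⟨pow_ne_zero _ h1, h4, ?_, ?_⟩, ?_⟩
    · intro j hj
      have h8 := h3 j hj
      rw [h7] at h8
      exact h8
    · rw [h7] at h6
      exact h6
    · change eval (fun s => z.1 (Sum.inl (Sum.inr s))) t.u ^ p =
        lam ^ p * (z.1 (Sum.inr ()) ^ p) ^ q
      rw [h5']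
      ring
  · rintro z ⟨h1, h2, _, _, h3, _⟩ z' ⟨h1', h2', _, _, h3', _⟩ h
    have ea : z.1 (Sum.inr ()) ^ p = z'.1 (Sum.inr ()) ^ p :=
      congrFun h (Sum.inl (Sum.inl (Sum.inr ())))
    have es : (fun s => z.1 (Sum.inl (Sum.inr s))) = fun s => z'.1 (Sum.inl (Sum.inr s)) := by
      funext s
      exact congrFun h (Sum.inl (Sum.inr s))
    have g3 : eval (fun s => z.1 (Sum.inl (Sum.inr s))) t.u = lam * z.1 (Sum.inr ()) ^ q := h3
    have g3' : eval (fun s => z'.1 (Sum.inl (Sum.inr s))) t.u = lam * z'.1 (Sum.inr ()) ^ q := h3'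
    have eb : z.1 (Sum.inr ()) ^ q = z'.1 (Sum.inr ()) ^ q := by
      rw [es, g3'] at g3
      exact (mul_left_cancel₀ hl g3).symm
    have ec := unique_c hpq h1' ea eb
    funext a
    rcases a with ((e | s) | u) | ⟨⟨⟩, ⟨j, hj⟩⟩
    · exact congrFun h (Sum.inl (Sum.inl (Sum.inl e)))
    · exact congrFun es s
    · exact ec
    · rcases j with _ | j
      · exact (h2 0 (by omega)).trans (h2' 0 (by omega)).symm
      · have h4 := congrFun h (Sum.inr ⟨(), ⟨j, by omega⟩⟩)
        change PowerSeries.coeff j ((tau7 t p q z).2 ()) =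
          PowerSeries.coeff j ((tau7 t p q z').2 ()) at h4
        rw [coeff_tau7, coeff_tau7, eb] at h4
        exact mul_left_cancel₀ (pow_ne_zero _ h1') h4
  · rintro y ⟨⟨h1, h2, h3⟩, h4⟩
    set a := y.1 (Sum.inl (Sum.inr ())) with ha
    set b := eval (fun s => y.1 (Sum.inr s)) t.u with hb
    have hb0 : b ≠ 0 := ht.2 _ h2
    have hd : (b / lam) ^ p = a ^ q := by
      rw [div_pow, h4]
      field_simp
    obtain ⟨c, hc0, hc1, hc2⟩ := exists_c hpq h1 (div_ne_zero hb0 hl) hd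
    have hcq : c ^ q ≠ 0 := pow_ne_zero _ hc0
    let z : ((E ⊕ t.σ) ⊕ Unit → ℂ) × (Unit → PowerSeries ℂ) :=
      (Sum.elim (Sum.elim (fun e => y.1 (Sum.inl (Sum.inl e))) fun s => y.1 (Sum.inr s))
        fun _ => c, fun _ => PowerSeries.X * (PowerSeries.C (c ^ q)⁻¹ * y.2 ()))
    have htau : tau7 t p q z = y := by
      refine Prod.ext ?_ ?_
      · funext e
        rcases e with (e | u) | s
        · rfl
        · exact hc1
        · rfl
      · funext u
        ext j
        have h8 := coeff_tau7 (p := p) (q := q) z j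
        have h9 : PowerSeries.coeff j ((tau7 t p q z).2 u) =
            c ^ q * PowerSeries.coeff (j + 1)
              (PowerSeries.X * (PowerSeries.C (c ^ q)⁻¹ * y.2 ())) := h8
        rw [h9, PowerSeries.coeff_succ_X_mul, PowerSeries.coeff_C_mul, ← mul_assoc,
          mul_inv_cancel₀ hcq, one_mul]
    have hzu : eval (fun s => z.1 (Sum.inl (Sum.inr s))) t.u = lam * z.1 (Sum.inr ()) ^ q := by
      change b = lam * c ^ q
      rw [hc2]
      field_simp
    have hz0 : PowerSeries.coeff 0 (z.2 ()) = 0 := PowerSeries.coeff_zero_X_mul _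
    have h7 : ev (chart p q lam G) k (z.1 (Sum.inr ())) (z.2 ()) =
        ev G (p * k) (y.1 (Sum.inl (Sum.inr ())))
          (arcE (eval (fun s => y.1 (Sum.inr s)) t.u) (q * k) (y.2 ())) := by
      rw [ev_chart, arc_tau7 lam _ _ _ hz0, ← hzu]
      have e1 : z.1 (Sum.inr ()) ^ p = y.1 (Sum.inl (Sum.inr ())) := hc1
      have e2 : PowerSeries.C (z.1 (Sum.inr ()) ^ q) * tl 1 (z.2 ()) = y.2 () :=
        congrFun (congrArg Prod.snd htau) ()
      rw [e1, e2]
      rfl
    refine ⟨z, ⟨hc0, ?_, ?_, ?_, hzu, ?_⟩, by rw [htau]⟩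
    · intro j hj
      obtain rfl : j = 0 := by omega
      exact hz0
    · intro j hj
      rw [h7]
      exact h3.1 j hj
    · exact h2
    · rw [h7]
      have e3 : (Sum.elim (Sum.elim (fun e => y.1 (Sum.inl (Sum.inl e)))
          fun _ => z.1 (Sum.inr ()) ^ p) fun _ : Unit => PowerSeries.coeff m
            (ev G (p * k) (y.1 (Sum.inl (Sum.inr ())))
              (arcE (eval (fun s => y.1 (Sum.inr s)) t.u) (q * k) (y.2 ())))) =
          Sum.elim (fun e => y.1 (Sum.inl e)) fun _ : Unit => PowerSeries.coeff m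
            (ev G (p * k) (y.1 (Sum.inl (Sum.inr ())))
              (arcE (eval (fun s => y.1 (Sum.inr s)) t.u) (q * k) (y.2 ()))) := by
        funext i
        rcases i with (i | i) | i
        · rfl
        · exact hc1
        · rfl
      have h8 := h3.2
      rw [← e3] at h8
      exact h8

/-- the part on which `g(a, u(τ))` is the leading coefficient -/
def B7 (t : Fam) (g : P2) (Q : Set ((E ⊕ Unit) ⊕ Unit → ℂ)) : Set ((E ⊕ Unit) ⊕ t.σ → ℂ) :=
  {z | z (Sum.inl (Sum.inr ())) ≠ 0 ∧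
    (fun s => z (Sum.inr s)) ∈ t.S ∧ (Sum.elim (fun e => z (Sum.inl e)) fun _ =>
      eval ![z (Sum.inl (Sum.inr ())), eval (fun s => z (Sum.inr s)) t.u] g) ∈ Q}

theorem con_B7 [Finite E] (ht : t.Good) (g : P2) (hQ : QU Q) : Constructible (B7 t g Q) := by
  haveI := t.fin
  refine Constructible.and ?_ (Constructible.and ?_ ?_)
  · have h0 := Constructible.ne (X (Sum.inl (Sum.inr ())) : MvPolynomial ((E ⊕ Unit) ⊕ t.σ) ℂ)
    simp only [eval_X] at h0
    exact h0
  · exact Constructible.comap (fun s => Sum.inr s) ht.1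
  · have h := Constructible.preimage (Sum.elim (fun e => X (Sum.inl e))
      (fun _ => aeval ![X (Sum.inl (Sum.inr ())), rename (fun s => Sum.inr s) t.u] g) :
        (E ⊕ Unit) ⊕ Unit → MvPolynomial ((E ⊕ Unit) ⊕ t.σ) ℂ) hQ.1
    convert h using 2
    ext z
    have e1 : (Sum.elim (fun e => z (Sum.inl e)) fun _ => eval ![z (Sum.inl (Sum.inr ())),
        eval (fun s => z (Sum.inr s)) t.u] g) = fun j => eval z ((Sum.elim (fun e => X (Sum.inl e))
      (fun _ => aeval ![X (Sum.inl (Sum.inr ())), rename (fun s => Sum.inr s) t.u] g) :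
        (E ⊕ Unit) ⊕ Unit → MvPolynomial ((E ⊕ Unit) ⊕ t.σ) ℂ) j) := by
      funext i
      rcases i with i | i
      · simp
      · simp only [Sum.elim_inr]
        have h2 : ∀ F : P2, eval z (aeval ![X (Sum.inl (Sum.inr ())),
            rename (fun s => Sum.inr s) t.u] F) = eval ![z (Sum.inl (Sum.inr ())),
              eval (fun s => z (Sum.inr s)) t.u] F := by
          intro F
          induction F using MvPolynomial.induction_on with
          | C c => simp
          | add f g hf hg => rw [map_add, map_add, map_add, hf, hg]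
          | mul_X f i hf =>
            rw [map_mul, map_mul, map_mul, hf, aeval_X, eval_X]
            congr 1
            fin_cases i
            · simp
            · simp only [Fin.mk_one, Matrix.cons_val_one, Matrix.cons_val_zero, eval_rename]
              rfl
        exact (h2 g).symm
    change _ ∈ Q ↔ _ ∈ Q
    rw [e1]

end

end RY7Aux

open RY7Aux

theorem stmt_RY7 : Stmt_RY7 := by
  intro P t G p q aL bR I ρ ht he hρ E _ Q hQ k m hk
  classical
  haveI := t.fin
  set N := edgeN p q aL bR I with hN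
  have hI0 : I ≠ 0 := by
    rintro h
    exact he.coeff_zero (by rw [h, Polynomial.coeff_zero])
  have hroot0 : ∀ R ∈ I.roots.toFinset, R ≠ 0 := by
    intro R hR h
    rw [Multiset.mem_toFinset, Polynomial.mem_roots hI0, Polynomial.IsRoot, h,
      ← Polynomial.coeff_zero_eq_eval_zero] at hR
    exact he.coeff_zero hR
  have hp0 : p ≠ 0 := by
    have := he.hp
    omega
  -- the leading coefficient
  have hlead : ∀ z : ((E ⊕ Unit) ⊕ t.σ → ℂ) × (Unit → PowerSeries ℂ),
      (∀ j < N * k, PowerSeries.coeff j (ev G (p * k) (z.1 (Sum.inl (Sum.inr ())))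
        (arcE (eval (fun s => z.1 (Sum.inr s)) t.u) (q * k) (z.2 ()))) = 0) ∧
      PowerSeries.coeff (N * k) (ev G (p * k) (z.1 (Sum.inl (Sum.inr ())))
        (arcE (eval (fun s => z.1 (Sum.inr s)) t.u) (q * k) (z.2 ()))) =
        eval ![z.1 (Sum.inl (Sum.inr ())), eval (fun s => z.1 (Sum.inr s)) t.u]
          (edgePart p q aL bR I) := by
    intro z
    have h1 := ev_lead he k hk (z.1 (Sum.inl (Sum.inr ())))
      (arcE (eval (fun s => z.1 (Sum.inr s)) t.u) (q * k) (z.2 ()))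
      (fun j hj => (coeff_arcE _ _ _ _).trans (if_pos hj))
    have h2 : PowerSeries.coeff (q * k)
        (arcE (eval (fun s => z.1 (Sum.inr s)) t.u) (q * k) (z.2 ())) =
        eval (fun s => z.1 (Sum.inr s)) t.u := by
      rw [coeff_arcE, if_neg (lt_irrefl _), if_pos rfl]
    rw [h2] at h1
    exact h1
  set A1 : Set (((E ⊕ Unit) ⊕ t.σ → ℂ) × (Unit → PowerSeries ℂ)) :=
    if m = N * k then {z | z.1 ∈ B7 t (edgePart p q aL bR I) Q} else ∅ with hA1
  have hcB := con_B7 ht (edgePart p q aL bR I) hQ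
  have hcA1 : Cy A1 := by
    rw [hA1]
    split_ifs
    · exact Cy.param hcB
    · exact ⟨0, fun _ _ => IsCyl.empty⟩
  have hvA1 : vol P.rat xq A1 = if m = N * k then
      c2a P t (edgePart p q aL bR I) Q else 0 := by
    rw [hA1]
    split_ifs
    · exact vol_param P hcB
    · exact vol_empty P.rat (TS.VAAux.L_mul P)
  have hmA1 : ∀ z ∈ A1, m = N * k ∧ z.1 ∈ B7 t (edgePart p q aL bR I) Q := by
    intro z hz
    rw [hA1] at hz
    split_ifs at hz with h
    · exact ⟨h, hz⟩
    · exact absurd hz (Set.notMem_empty z)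
  have hset : ES t G Q (p * k) (q * k) m = A1 ∪
      ⋃ R ∈ I.roots.toFinset, SR7 t G Q p q k m R := by
    ext z
    constructor
    · rintro ⟨h1, h2, h3, h4⟩
      obtain ⟨l1, l2⟩ := hlead z
      have hb : eval (fun s => z.1 (Sum.inr s)) t.u ≠ 0 := ht.2 _ h2
      by_cases hee : eval ![z.1 (Sum.inl (Sum.inr ())), eval (fun s => z.1 (Sum.inr s)) t.u]
            (edgePart p q aL bR I) = 0
      · refine Or.inr ?_
        rw [VRAux.eval_edge _ _ _ _ _ _ _ h1] at hee
        have h5 : I.eval (eval (fun s => z.1 (Sum.inr s)) t.u ^ p /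
            z.1 (Sum.inl (Sum.inr ())) ^ q) = 0 :=
          (mul_eq_zero.mp hee).resolve_left
            (mul_ne_zero (pow_ne_zero _ h1) (pow_ne_zero _ hb))
        simp only [Set.mem_iUnion]
        refine ⟨eval (fun s => z.1 (Sum.inr s)) t.u ^ p /
            z.1 (Sum.inl (Sum.inr ())) ^ q, ?_, ⟨h1, h2, h3, h4⟩, ?_⟩
        · rw [Multiset.mem_toFinset, Polynomial.mem_roots hI0]
          exact h5
        · rw [div_mul_cancel₀ _ (pow_ne_zero _ h1)]
      · refine Or.inl ?_
        have hm : m = N * k := by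
          rcases lt_trichotomy m (N * k) with h | h | h
          · exact absurd (l1 m h) (hQ.2 _ h4)
          · exact h
          · refine absurd ?_ hee
            rw [← l2]
            exact h3 _ h
        rw [hA1, if_pos hm]
        refine ⟨h1, h2, ?_⟩
        rw [hm, l2] at h4
        exact h4
    · rintro (hz | hz)
      · obtain ⟨hm, h1, h2, h4⟩ := hmA1 z hz
        obtain ⟨l1, l2⟩ := hlead z
        refine ⟨h1, h2, ?_, ?_⟩
        · rw [hm]
          exact l1
        · rw [hm, l2]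
          exact h4
      · simp only [Set.mem_iUnion] at hz
        obtain ⟨R, hR, hz⟩ := hz
        exact hz.1
  have hSRb : ∀ R ∈ I.roots.toFinset, ∀ z ∈ SR7 t G Q p q k m R,
      z.1 (Sum.inl (Sum.inr ())) ≠ 0 ∧
      eval (fun s => z.1 (Sum.inr s)) t.u ^ p / z.1 (Sum.inl (Sum.inr ())) ^ q = R := by
    rintro R hR z ⟨⟨h1, h2, h3⟩, h4⟩
    refine ⟨h1, ?_⟩
    rw [h4, mul_div_cancel_right₀ _ (pow_ne_zero _ h1)]
  have hd2 : Disjoint A1 (⋃ R ∈ I.roots.toFinset, SR7 t G Q p q k m R) := by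
    rw [Set.disjoint_left]
    intro z hz hz'
    simp only [Set.mem_iUnion] at hz'
    obtain ⟨R, hR, hz'⟩ := hz'
    obtain ⟨g1, g3⟩ := hSRb R hR z hz'
    obtain ⟨-, h1, h2, h4⟩ := hmA1 z hz
    refine hQ.2 _ h4 ?_
    change eval ![z.1 (Sum.inl (Sum.inr ())), eval (fun s => z.1 (Sum.inr s)) t.u]
      (edgePart p q aL bR I) = 0
    rw [VRAux.eval_edge _ _ _ _ _ _ _ h1, g3]
    rw [Multiset.mem_toFinset, Polynomial.mem_roots hI0] at hR
    have : I.eval R = 0 := hR
    rw [this, mul_zero]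
  have hcSR : ∀ R ∈ I.roots.toFinset, Cy (SR7 t G Q p q k m R) := fun R _ =>
    Cy_SR7 ht hQ R
  have h1 : e2 P t G Q (p * k) (q * k) m = vol P.rat xq (ES t G Q (p * k) (q * k) m) := rfl
  rw [h1, hset, vol_uni P hcA1 (Cy.biUnion _ hcSR) hd2, vol_biU P _ hcSR, hvA1]
  · congr 1
    refine Finset.sum_congr rfl fun R hR => ?_
    have hl : ρ R ≠ 0 := by
      intro h
      have h1 := hρ R
      rw [h, zero_pow hp0] at h1
      exact hroot0 R hR h1.symm
    have := root_piece7 (G := G) (k := k) (m := m) P ht hQ he.cop he.hp (ρ R) hl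
    rw [hρ R] at this
    exact this
  · intro R hR R' hR' hne
    rw [Set.disjoint_left]
    intro z hz hz'
    exact hne ((hSRb R hR z hz).2.symm.trans (hSRb R' hR' z hz').2)

end Pool.Agent.Mono.BV
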