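import Pool.Agent.Work.Monodromy7.VL7
import Pool.Agent.Work.Monodromy6.VSH

/-!
# Block SH7 (helper63): coordinate changes, the leading coefficient visible
-/

set_option autoImplicit false
set_option linter.unusedSectionVars false

namespace Pool.Agent.Mono.BV

open MvPolynomial TS RO RO.VGAux PC PC.VSHAux

theorem stmt_SH7 : Stmt_SH7 := by
  intro P G k L ψ hψ E _ Q hQ m
  unfold vN7
  refine vol_aut P (VL7.cy_NS7 G hQ.1 k L m) (VL7.cy_NS7 (shift ψ G) hQ.1 k L m)
    (fun p x _ => x () + ps ψ k p) (fun p x _ => x () - ps ψ k p) ?_ ?_ ?_ ?_ ?_ ?_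
  · intro i l
    simp only [map_add]
    refine (RF.arc () l).add ?_
    simp only [ps, coeff_psi]
    refine RF_sum _ fun j _ => RF.ite _ ((RF.const _).mul (RF_pow (RF.par _) j)) (RF.const 0)
  · intro p x y N h i l hl
    simp only [map_add]
    rw [h () l hl]
  · intro p x y N h i l hl
    simp only [map_sub]
    rw [h () l hl]
  · intro p x
    have hlow : ∀ l < L, PowerSeries.coeff l (ps ψ k p) = 0 := by
      intro l hl
      rw [ps, coeff_psi]
      refine Finset.sum_eq_zero fun j hj => ?_
      have h1 := hψ j hj
      rw [if_neg (by omega)]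
    simp only [NS7, Set.mem_ofPred_eq]
    rw [ev_shift]
    refine and_congr Iff.rfl (and_congr ?_ Iff.rfl)
    refine forall_congr' fun l => forall_congr' fun hl => ?_
    rw [map_add, hlow l hl, add_zero]
  · intro p x
    funext i
    simp
  · intro p x
    funext i
    simp

end Pool.Agent.Mono.BV
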