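import Pool.Agent.Work.Monodromy7.SQBase

/-!
# Block SQ72: multisections (helper54)
-/

set_option autoImplicit false

namespace Pool.Agent.Mono.BV

open TS SQAux

namespace SQAux

/-- finite support -/
theorem fin_of_empty {κ : ℕ → K} (h : ESeq ∅ κ) : ∃ M, ∀ m, M ≤ m → κ m = 0 := by
  obtain ⟨l, num, hl, e⟩ := h
  have hl0 : l = [] := by
    rcases l with _ | ⟨q, l⟩
    · rfl
    · exact absurd (hl q List.mem_cons_self).2 (by simp)
  subst hl0
  refine ⟨num.natDegree + 1, fun m hm => ?_⟩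
  have := congrArg (PowerSeries.coeff m) e
  rw [Q1Aux.denP_nil, Polynomial.coe_one, one_mul, PowerSeries.coeff_mk, Polynomial.coeff_coe,
    Polynomial.coeff_eq_zero_of_natDegree_lt (by omega)] at this
  exact this

theorem EK.fin {k : Kd} {κ : ℕ → K} (h : EK k κ) (hk : k.fs = true) :
    ∃ M, ∀ m, M ≤ m → κ m = 0 := by
  apply fin_of_empty
  refine Q1Aux.mono ?_ h
  rintro r ⟨h1, _⟩
  rw [hk] at h1
  simp at h1

/-- the sequence `b (q j / p)` -/
theorem floorq {k' : Kd} {b : ℕ → K} (p q : ℕ) (hp : 1 ≤ p) (h : EK k' b) :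
    ESeq {r | ¬ (k'.fs = true ∧ 1 ≤ q) ∧ r = (q : ℚ) * k'.r / p} fun j => b (q * j / p) := by
  have h1 := Q1Aux.floor p hp h
  rcases Nat.eq_zero_or_pos q with rfl | hq
  · have h2 : (fun j => b (0 * j / p)) = fun _ => b 0 := by
      funext j
      rw [zero_mul, Nat.zero_div]
    rw [h2]
    refine Q1Aux.mono ?_ (const (b 0))
    rintro r rfl
    exact ⟨by simp, by simp⟩
  · refine Q1Aux.mono ?_ (multi q hq h1)
    rintro r ⟨s, ⟨h2, h3⟩, h4⟩
    refine ⟨?_, ?_⟩
    · rintro ⟨h5, _⟩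
      rw [h2] at h5
      simp at h5
    · rw [h4]
      have : (p : ℚ) ≠ 0 := by
        have : p ≠ 0 := by omega
        exact_mod_cast this
      rw [← h3]
      field_simp

end SQAux

theorem stmt_SQ72 : Stmt_SQ72 := by
  refine ⟨?_, ?_, ?_, ?_⟩
  · intro k κ p hp h
    refine Q1Aux.mono ?_ (multi p hp h)
    rintro r ⟨s, ⟨h1, h2⟩, h3⟩
    exact ⟨h1, by rw [h3, h2]⟩
  · intro Λ k k' W b p q A hp hA hW hb hR
    have h1 := ray1 1 hW
    have h2 : (fun i => W (1 * i)) = W := by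
      funext i
      rw [one_mul]
    rw [h2] at h1
    have h3 := stmt_Q2 _ _ _ _ h1 (floorq p q hp hb)
    have h4 := Q1Aux.scale A hA h3
    refine Q1Aux.mono ?_ h4
    rintro r ⟨a, ⟨h5, h6⟩, c, ⟨h7, h8⟩, h9⟩
    have hpq : (p : ℚ) ≠ 0 := by
      have : p ≠ 0 := by omega
      exact_mod_cast this
    have hAq : (A : ℚ) ≠ 0 := by
      have : A ≠ 0 := by omega
      exact_mod_cast this
    rcases hR with hR | hR | hR
    · exact absurd ⟨hR.1, le_rfl⟩ h5
    · exact absurd hR h7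
    · convert hR using 1
      unfold rv
      rw [mul_zero, add_zero, Nat.cast_mul]
      rw [h6, h8] at h9
      field_simp
      have h10 : (p : ℚ) * ((A : ℚ) * r) = p * (((1 : ℕ) : ℚ) * k.r + (q : ℚ) * k'.r / p) := by
        rw [h9]
      field_simp at h10
      rw [Nat.cast_one] at h10
      linear_combination h10
  · intro k k' W κ p q hp hq hW hκ
    refine Q1Aux.mono ?_ (ray2 p q hW hκ)
    rintro r ⟨h1, h2, h3⟩
    have h4 : k.fs = false := by
      by_contra h
      exact h1 ⟨by simpa using h, hp⟩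
    have h5 : k'.fs = false := by
      by_contra h
      exact h2 ⟨by simpa using h, hq⟩
    refine ⟨?_, ?_⟩
    · change (k.fs || k'.fs) = false
      rw [h4, h5]
      rfl
    · rw [h3]
      rfl
  · intro Λ k k' W κ A B p q _ _ hW hκ hN hR
    exact ray3 A B p q hW hκ hN hR

end Pool.Agent.Mono.BV
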