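import Pool.Agent.Work.Monodromy7.SQ71
import Pool.Agent.Work.Monodromy6.SB

/-!
# Block SQ73: cones (helper54)
-/

set_option autoImplicit false

namespace Pool.Agent.Mono.BV

open TS SQAux

namespace SQAux

/-- double sums -/
theorem dconv {Λ : Set ℚ} (w N N' : ℕ) (hN : 1 ≤ N) (hN' : 1 ≤ N') {U V : ℕ → K}
    (hU : ESeq Λ fun m => if N ∣ m then U (m / N) else 0)
    (hV : ESeq Λ fun m => if N' ∣ m then V (m / N') else 0) :
    ESeq Λ fun m => ∑ i ∈ Finset.range (m + 1), ∑ j ∈ Finset.range (m + 1),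
      if w + N * i + N' * j = m then U i * V j else 0 := by
  have h1 := delay (Q1Aux.conv hU hV) w
  rw [Set.union_self] at h1
  have e : (fun m => ∑ i ∈ Finset.range (m + 1), ∑ j ∈ Finset.range (m + 1),
      if w + N * i + N' * j = m then U i * V j else 0) = fun m => if w ≤ m then
        (fun m => ∑ i ∈ Finset.range (m + 1), (if N ∣ i then U (i / N) else 0) *
          (if N' ∣ (m - i) then V ((m - i) / N') else 0)) (m - w) else 0 := by
    funext m
    split_ifs with hw
    · obtain ⟨n, rfl⟩ := Nat.exists_eq_add_of_le hw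
      rw [Nat.add_sub_cancel_left, ← Finset.sum_product', ← Finset.sum_filter]
      have h2 : ∀ i, (if N ∣ i then U (i / N) else 0) *
          (if N' ∣ (n - i) then V ((n - i) / N') else 0) =
          if N ∣ i ∧ N' ∣ (n - i) then U (i / N) * V ((n - i) / N') else 0 := by
        intro i
        by_cases ha : N ∣ i
        · by_cases hb : N' ∣ (n - i)
          · rw [if_pos ha, if_pos hb, if_pos ⟨ha, hb⟩]
          · simp [hb]
        · simp [ha]
      change _ = ∑ i ∈ Finset.range (n + 1), _
      rw [Finset.sum_congr rfl fun i _ => h2 i, ← Finset.sum_filter]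
      refine Finset.sum_nbij' (fun z => N * z.1) (fun x => (x / N, (n - x) / N')) ?_ ?_ ?_ ?_ ?_
      · intro z hz
        rw [Finset.mem_filter] at hz ⊢
        have h3 : N * z.1 + N' * z.2 = n := by
          have := hz.2
          omega
        refine ⟨Finset.mem_range.2 (by omega), Dvd.intro _ rfl, ?_⟩
        have h4 : n - N * z.1 = N' * z.2 := by omega
        rw [h4]
        exact Dvd.intro _ rfl
      · intro x hx
        rw [Finset.mem_filter, Finset.mem_range] at hx
        obtain ⟨hx1, ⟨a, ha⟩, ⟨b, hb⟩⟩ := hx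
        rw [Finset.mem_filter, Finset.mem_product, Finset.mem_range, Finset.mem_range]
        have h5 : x / N = a := by rw [ha, Nat.mul_div_cancel_left _ hN]
        have h6 : (n - x) / N' = b := by rw [hb, Nat.mul_div_cancel_left _ hN']
        rw [h5, h6]
        have h7 : a ≤ N * a := Nat.le_mul_of_pos_left _ hN
        have h8 : b ≤ N' * b := Nat.le_mul_of_pos_left _ hN'
        dsimp only
        refine ⟨⟨by omega, by omega⟩, by omega⟩
      · intro z hz
        rw [Finset.mem_filter] at hz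
        have h3 : N * z.1 + N' * z.2 = n := by
          have := hz.2
          omega
        have h4 : n - N * z.1 = N' * z.2 := by omega
        ext
        · exact Nat.mul_div_cancel_left _ hN
        · change (n - N * z.1) / N' = z.2
          rw [h4, Nat.mul_div_cancel_left _ hN']
      · intro x hx
        rw [Finset.mem_filter] at hx
        exact Nat.mul_div_cancel' hx.2.1
      · intro z hz
        rw [Finset.mem_filter] at hz
        have h3 : N * z.1 + N' * z.2 = n := by
          have := hz.2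
          omega
        have h4 : n - N * z.1 = N' * z.2 := by omega
        rw [h4, Nat.mul_div_cancel_left _ hN, Nat.mul_div_cancel_left _ hN']
    · apply Finset.sum_eq_zero
      intro i _
      apply Finset.sum_eq_zero
      intro j _
      rw [if_neg]
      omega
  rw [e]
  exact h1

/-- coordinates of a composed point -/
theorem comp_pt {p q p' q' D x y i j : ℕ} (hD : q * p' + D = p * q') :
    q' * (p * i + p' * j + x) + p' * y = p' * (q * i + q' * j + y) + (D * i + q' * x) ∧
    p * (q * i + q' * j + y) + q * x = q * (p * i + p' * j + x) + (D * j + p * y) := by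
  constructor
  · zify at hD ⊢
    linear_combination (-(i : ℤ)) * hD
  · zify at hD ⊢
    linear_combination (-(j : ℤ)) * hD

/-- decomposition of a point of the open cone -/
theorem dec_pt {p q p' q' D x y : ℕ} (hD : q * p' + D = p * q') (hDpos : 0 < D)
    (h1 : q * x < p * y) (h2 : p' * y < q' * x) :
    p * ((q' * x - p' * y - 1) / D) + p' * ((p * y - q * x - 1) / D) ≤ x ∧
    q * ((q' * x - p' * y - 1) / D) + q' * ((p * y - q * x - 1) / D) ≤ y := by
  obtain ⟨j, hj⟩ := Nat.exists_eq_add_of_lt h1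
  obtain ⟨i, hi⟩ := Nat.exists_eq_add_of_lt h2
  have hj' : p * y = q * x + (j + 1) := by rw [hj, add_assoc]
  have hi' : q' * x = p' * y + (i + 1) := by rw [hi, add_assoc]
  obtain ⟨c1, c2⟩ := PC.SBAux.coords hD hi' hj'
  have e1 : q' * x - p' * y - 1 = i := by omega
  have e2 : p * y - q * x - 1 = j := by omega
  rw [e1, e2]
  have a1 : D * (i / D) ≤ i := Nat.mul_div_le i D
  have a2 : D * (j / D) ≤ j := Nat.mul_div_le j D
  constructor
  · apply Nat.le_of_mul_le_mul_left _ hDpos
    rw [c1]
    calc D * (p * (i / D) + p' * (j / D)) = p * (D * (i / D)) + p' * (D * (j / D)) := by ring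
      _ ≤ p * (i + 1) + p' * (j + 1) :=
        Nat.add_le_add (Nat.mul_le_mul_left _ (by omega)) (Nat.mul_le_mul_left _ (by omega))
  · apply Nat.le_of_mul_le_mul_left _ hDpos
    rw [c2]
    calc D * (q * (i / D) + q' * (j / D)) = q * (D * (i / D)) + q' * (D * (j / D)) := by ring
      _ ≤ q * (i + 1) + q' * (j + 1) :=
        Nat.add_le_add (Nat.mul_le_mul_left _ (by omega)) (Nat.mul_le_mul_left _ (by omega))

theorem EK.shift {k : Kd} {κ : ℕ → K} (h : EK k κ) (c : ℕ) : EK k fun m => κ (m + c) :=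
  SQAux.shift h c

end SQAux

open PC SBAux in
theorem stmt_SQ73 : Stmt_SQ73 := by
  intro Λ k k' W κ p q A B p' q' h h1 h2 hW hκ hR hR'
  obtain ⟨D₀, hD₀⟩ := Nat.exists_eq_add_of_lt h
  obtain ⟨D, hD1⟩ : ∃ D, D = D₀ + 1 := ⟨_, rfl⟩
  have hDpos : 0 < D := by omega
  have hD : q * p' + D = p * q' := by
    rw [mul_comm p q', hD₀, hD1, add_assoc]
  set S : ℕ → Finset (ℕ × ℕ) := fun m =>
    (Finset.range ((p + p') * m + 1) ×ˢ Finset.range ((q + q') * m + 1)).filter
      (fun z => q * z.1 < p * z.2 ∧ p' * z.2 < q' * z.1 ∧ A * z.1 + B * z.2 = m) with hS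
  have memS : ∀ m z, z ∈ S m ↔
      q * z.1 < p * z.2 ∧ p' * z.2 < q' * z.1 ∧ A * z.1 + B * z.2 = m := by
    intro m z
    rw [hS, Finset.mem_filter, Finset.mem_product, Finset.mem_range, Finset.mem_range]
    constructor
    · exact fun h => h.2
    · intro hz
      have hb := stmt_SB p q A B p' q' m z.1 z.2 h h1 h2 hz.1 hz.2.1 hz.2.2
      exact ⟨⟨Nat.lt_succ_of_le hb.1, Nat.lt_succ_of_le hb.2⟩, hz⟩
  have hcone : ∀ m, coneW W κ p q A B p' q' m = ∑ z ∈ S m, W z.1 * κ z.2 := by
    intro m
    unfold coneW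
    rw [← Finset.sum_product', hS, Finset.sum_filter]
  -- the fundamental box
  set Box : Finset (ℕ × ℕ) := (Finset.range (p + p' + 1) ×ˢ Finset.range (q + q' + 1)).filter
    (fun z => (q * z.1 < p * z.2 ∧ p * z.2 ≤ q * z.1 + D) ∧
      (p' * z.2 < q' * z.1 ∧ q' * z.1 ≤ p' * z.2 + D)) with hBox
  have memBox : ∀ z, z ∈ Box ↔ (q * z.1 < p * z.2 ∧ p * z.2 ≤ q * z.1 + D) ∧
      (p' * z.2 < q' * z.1 ∧ q' * z.1 ≤ p' * z.2 + D) := by
    intro z
    rw [hBox, Finset.mem_filter, Finset.mem_product, Finset.mem_range, Finset.mem_range]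
    constructor
    · exact fun h => h.2
    · intro hz
      refine ⟨?_, hz⟩
      obtain ⟨⟨z1, z2⟩, z3, z4⟩ := hz
      obtain ⟨j, hj⟩ := Nat.exists_eq_add_of_lt z1
      obtain ⟨i, hi⟩ := Nat.exists_eq_add_of_lt z3
      have hj' : p * z.2 = q * z.1 + (j + 1) := by rw [hj, add_assoc]
      have hi' : q' * z.1 = p' * z.2 + (i + 1) := by rw [hi, add_assoc]
      have c1 := (coords hD hi' hj').1
      have c2 := (coords hD hi' hj').2
      have hi2 : i + 1 ≤ D := by omega
      have hj2 : j + 1 ≤ D := by omega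
      constructor
      · apply Nat.lt_succ_of_le
        apply Nat.le_of_mul_le_mul_left _ hDpos
        rw [c1, mul_comm D]
        nlinarith
      · apply Nat.lt_succ_of_le
        apply Nat.le_of_mul_le_mul_left _ hDpos
        rw [c2, mul_comm D]
        nlinarith
  clear_value Box S
  -- decomposition of the cone
  have hdec : ∀ m, ∑ z ∈ S m, W z.1 * κ z.2 =
      ∑ z₀ ∈ Box, ∑ i ∈ Finset.range (m + 1), ∑ j ∈ Finset.range (m + 1),
        if (A * z₀.1 + B * z₀.2) + (p * A + q * B) * i + (p' * A + q' * B) * j = m then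
          W (p * i + p' * j + z₀.1) * κ (q * i + q' * j + z₀.2) else 0 := by
    intro m
    have e1 : ∑ z₀ ∈ Box, ∑ i ∈ Finset.range (m + 1), ∑ j ∈ Finset.range (m + 1),
        (if (A * z₀.1 + B * z₀.2) + (p * A + q * B) * i + (p' * A + q' * B) * j = m then
          W (p * i + p' * j + z₀.1) * κ (q * i + q' * j + z₀.2) else 0) =
        ∑ t ∈ (Box ×ˢ (Finset.range (m + 1) ×ˢ Finset.range (m + 1))).filter
          (fun t => (A * t.1.1 + B * t.1.2) + (p * A + q * B) * t.2.1 +
            (p' * A + q' * B) * t.2.2 = m),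
          W (p * t.2.1 + p' * t.2.2 + t.1.1) * κ (q * t.2.1 + q' * t.2.2 + t.1.2) := by
      rw [Finset.sum_filter, Finset.sum_product]
      apply Finset.sum_congr rfl
      intro z₀ _
      rw [Finset.sum_product]
    rw [e1]
    have hdec : ∀ z ∈ S m, ∃ x y : ℕ, ((x, y) : ℕ × ℕ) ∈ Box ∧
        z.1 = p * ((q' * z.1 - p' * z.2 - 1) / D) + p' * ((p * z.2 - q * z.1 - 1) / D) + x ∧
        z.2 = q * ((q' * z.1 - p' * z.2 - 1) / D) + q' * ((p * z.2 - q * z.1 - 1) / D) + y := by
      intro z hz
      obtain ⟨hz1, hz2, hz3⟩ := (memS m z).1 hz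
      obtain ⟨d1, d2⟩ := dec_pt hD hDpos hz1 hz2
      obtain ⟨x, hx⟩ := Nat.exists_eq_add_of_le d1
      obtain ⟨y, hy⟩ := Nat.exists_eq_add_of_le d2
      refine ⟨x, y, ?_, hx, hy⟩
      rw [memBox]
      set i := (q' * z.1 - p' * z.2 - 1) / D with hi
      set j := (p * z.2 - q * z.1 - 1) / D with hj
      obtain ⟨c1, c2⟩ := comp_pt (x := x) (y := y) (i := i) (j := j) hD
      rw [← hx, ← hy] at c1 c2
      have b1 := Nat.div_add_mod (q' * z.1 - p' * z.2 - 1) D
      have b2 := Nat.div_add_mod (p * z.2 - q * z.1 - 1) D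
      have b3 := Nat.mod_lt (q' * z.1 - p' * z.2 - 1) hDpos
      have b4 := Nat.mod_lt (p * z.2 - q * z.1 - 1) hDpos
      rw [← hi] at b1
      rw [← hj] at b2
      dsimp only
      omega
    have hcomp : ∀ x y i j : ℕ, ((x, y) : ℕ × ℕ) ∈ Box →
        (q * (p * i + p' * j + x) < p * (q * i + q' * j + y) ∧
          p' * (q * i + q' * j + y) < q' * (p * i + p' * j + x)) ∧
        (q' * (p * i + p' * j + x) - p' * (q * i + q' * j + y) - 1) / D = i ∧
        (p * (q * i + q' * j + y) - q * (p * i + p' * j + x) - 1) / D = j := by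
      intro x y i j hxy
      rw [memBox] at hxy
      obtain ⟨⟨a1, a2⟩, a3, a4⟩ := hxy
      dsimp only at a1 a2 a3 a4
      obtain ⟨c1, c2⟩ := comp_pt (x := x) (y := y) (i := i) (j := j) hD
      refine ⟨⟨by omega, by omega⟩, ?_, ?_⟩
      · rw [Nat.div_eq_iff hDpos]
        rw [mul_comm D i] at c1
        omega
      · rw [Nat.div_eq_iff hDpos]
        rw [mul_comm D j] at c2
        omega
    refine Finset.sum_nbij'
      (fun z => ((z.1 - (p * ((q' * z.1 - p' * z.2 - 1) / D) + p' * ((p * z.2 - q * z.1 - 1) / D)),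
          z.2 - (q * ((q' * z.1 - p' * z.2 - 1) / D) + q' * ((p * z.2 - q * z.1 - 1) / D))),
        ((q' * z.1 - p' * z.2 - 1) / D, (p * z.2 - q * z.1 - 1) / D)))
      (fun t => (p * t.2.1 + p' * t.2.2 + t.1.1, q * t.2.1 + q' * t.2.2 + t.1.2)) ?_ ?_ ?_ ?_ ?_
    · intro z hz
      obtain ⟨x, y, hb, hx, hy⟩ := hdec z hz
      obtain ⟨hz1, hz2, hz3⟩ := (memS m z).1 hz
      set i := (q' * z.1 - p' * z.2 - 1) / D with hi
      set j := (p * z.2 - q * z.1 - 1) / D with hj
      have e2 : z.1 - (p * i + p' * j) = x := by omega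
      have e3 : z.2 - (q * i + q' * j) = y := by omega
      rw [e2, e3, Finset.mem_filter, Finset.mem_product, Finset.mem_product]
      dsimp only
      have e4 : A * x + B * y + (p * A + q * B) * i + (p' * A + q' * B) * j = m := by
        rw [← hz3, hx, hy]
        ring
      have e5 : i ≤ (p * A + q * B) * i := Nat.le_mul_of_pos_left _ h1
      have e6 : j ≤ (p' * A + q' * B) * j := Nat.le_mul_of_pos_left _ h2
      exact ⟨⟨hb, Finset.mem_range.2 (by omega), Finset.mem_range.2 (by omega)⟩, e4⟩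
    · rintro ⟨⟨x, y⟩, i, j⟩ ht
      rw [Finset.mem_filter, Finset.mem_product, Finset.mem_product] at ht
      dsimp only at ht ⊢
      rw [memS]
      obtain ⟨c1, _, _⟩ := hcomp x y i j ht.1.1
      refine ⟨c1.1, c1.2, ?_⟩
      rw [← ht.2]
      ring
    · intro z hz
      obtain ⟨x, y, hb, hx, hy⟩ := hdec z hz
      ext
      · dsimp only
        omega
      · dsimp only
        omega
    · rintro ⟨⟨x, y⟩, i, j⟩ ht
      rw [Finset.mem_filter, Finset.mem_product, Finset.mem_product] at ht
      dsimp only at ht ⊢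
      obtain ⟨_, c2, c3⟩ := hcomp x y i j ht.1.1
      rw [c2, c3, Nat.add_sub_cancel_left, Nat.add_sub_cancel_left]
    · intro z hz
      obtain ⟨x, y, hb, hx, hy⟩ := hdec z hz
      congr 2
      · dsimp only
        omega
      · dsimp only
        omega
  -- each piece
  have hpiece : ∀ z₀ : ℕ × ℕ, ESeq Λ fun m => ∑ i ∈ Finset.range (m + 1),
      ∑ j ∈ Finset.range (m + 1),
        if (A * z₀.1 + B * z₀.2) + (p * A + q * B) * i + (p' * A + q' * B) * j = m then
          W (p * i + p' * j + z₀.1) * κ (q * i + q' * j + z₀.2) else 0 := by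
    intro z₀
    obtain ⟨n, φ, χ, hφ, e1⟩ := stmt_SQ71 _ _ (EK.shift hW z₀.1)
    obtain ⟨n', φ', χ', hφ', e2⟩ := stmt_SQ71 _ _ (EK.shift hκ z₀.2)
    have h3 : ∀ s t, ESeq Λ fun m => ∑ i ∈ Finset.range (m + 1), ∑ j ∈ Finset.range (m + 1),
        if (A * z₀.1 + B * z₀.2) + (p * A + q * B) * i + (p' * A + q' * B) * j = m then
          (φ s (p * i) * φ' t (q * i)) * (χ s (p' * j) * χ' t (q' * j)) else 0 := by
      intro s t
      exact dconv (A * z₀.1 + B * z₀.2) (p * A + q * B) (p' * A + q' * B) h1 h2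
        (U := fun i => φ s (p * i) * φ' t (q * i)) (V := fun j => χ s (p' * j) * χ' t (q' * j))
        (ray3 A B p q (hφ s).1 (hφ' t).1 h1 hR) (ray3 A B p' q' (hφ s).2 (hφ' t).2 h2 hR')
    have h4 := SQAux.sum Finset.univ (fun s m => ∑ t, ∑ i ∈ Finset.range (m + 1),
        ∑ j ∈ Finset.range (m + 1),
        if (A * z₀.1 + B * z₀.2) + (p * A + q * B) * i + (p' * A + q' * B) * j = m then
          (φ s (p * i) * φ' t (q * i)) * (χ s (p' * j) * χ' t (q' * j)) else 0)
      (fun s _ => SQAux.sum Finset.univ _ fun t _ => h3 s t)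
    convert h4 using 2 with m
    simp_rw [Finset.sum_comm (s := (Finset.univ : Finset (Fin n'))) (t := Finset.range (m + 1))]
    simp_rw [Finset.sum_comm (s := (Finset.univ : Finset (Fin n))) (t := Finset.range (m + 1))]
    apply Finset.sum_congr rfl
    intro i _
    apply Finset.sum_congr rfl
    intro j _
    split_ifs with hc
    · rw [e1, e2, Finset.sum_mul_sum]
      apply Finset.sum_congr rfl
      intro s _
      apply Finset.sum_congr rfl
      intro t _
      ring
    · simp
  have h5 := SQAux.sum Box _ fun z₀ _ => hpiece z₀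
  have e : (fun m => coneW W κ p q A B p' q' m) = fun m => ∑ z₀ ∈ Box,
      ∑ i ∈ Finset.range (m + 1), ∑ j ∈ Finset.range (m + 1),
        if (A * z₀.1 + B * z₀.2) + (p * A + q * B) * i + (p' * A + q' * B) * j = m then
          W (p * i + p' * j + z₀.1) * κ (q * i + q' * j + z₀.2) else 0 := by
    funext m
    rw [hcone, hdec]
  rw [e]
  exact h5

end Pool.Agent.Mono.BV
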