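import Pool.Agent.Work.Monodromy7.SQ73

/-!
# Block SQ74: cones with Haar part (helper54)
-/

set_option autoImplicit false

namespace Pool.Agent.Mono.BV

open TS SQAux

namespace SQAux

theorem EK_haar : EK none fun l => xq ^ l := by
  have h1 : ESeq ({r | Kd.fs none = false ∧ r = Kd.r none} : Set ℚ)
      fun m => if 1 ∣ m then xq ^ (1 * (m / 1)) else 0 :=
    Q1Aux.geo 1 1 le_rfl ⟨rfl, by simp [Kd.r]⟩
  have e : (fun l => (xq : K) ^ l) = fun m => if 1 ∣ m then xq ^ (1 * (m / 1)) else 0 := by
    funext m
    simp
  rw [EK, e]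
  exact h1

end SQAux

theorem stmt_SQ74 : Stmt_SQ74 := by
  intro Λ k W p q A hΛ hp hN _ hW hR
  have hN' : 1 ≤ p * A + q * 1 := by omega
  set N := p * A + q * 1 with hNd
  -- thresholds
  let w : ℕ → ℕ := fun r => A * r + (q * r / p + 1)
  have hdiv : ∀ j r, q * (p * j + r) / p = q * j + q * r / p := by
    intro j r
    have : q * (p * j + r) = p * (q * j) + q * r := by ring
    rw [this, Nat.mul_add_div hp]
  have hw : ∀ j r, w (p * j + r) = N * j + w r := by
    intro j r
    change A * (p * j + r) + (q * (p * j + r) / p + 1) = N * j + (A * r + (q * r / p + 1))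
    rw [hdiv, hNd]
    ring
  -- the sequence `D`
  let D : ℕ → K := fun i => ∑ r ∈ Finset.range p, xq ^ (q * r / p + 1) *
    (if w r ≤ i then (fun m => if N ∣ m then W (p * (m / N) + r) * xq ^ (q * (m / N)) else 0)
      (i - w r) else 0)
  have hD : ESeq Λ D := by
    refine SQAux.sum _ (fun r i => xq ^ (q * r / p + 1) *
      (if w r ≤ i then (fun m => if N ∣ m then W (p * (m / N) + r) * xq ^ (q * (m / N)) else 0)
      (i - w r) else 0)) fun r _ => ?_
    refine Q1Aux.smul _ (delay (κ := fun m => if N ∣ m then W (p * (m / N) + r) *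
      xq ^ (q * (m / N)) else 0) ?_ (w r))
    exact ray3 A 1 p q (EK.shift hW r) EK_haar hN' hR
  obtain ⟨a, ha⟩ := stmt_Q4 Λ D hΛ hD
  refine ⟨a - W 0, fun m => ((∑ j ∈ Finset.range m, D j * xq ^ (m - j)) - a * xq ^ m) + D m,
    Q1Aux.add ha hD, ?_⟩
  intro m hm
  -- the inner sum
  have hE : coneW W (fun l => xq ^ l) p q A 1 0 1 m + W 0 * xq ^ m =
      ∑ k ∈ (Finset.range (p * m + 1)).filter (fun k => w k ≤ m), W k * xq ^ (m - A * k) := by
    have h0 : 0 ∈ (Finset.range (p * m + 1)).filter (fun k => w k ≤ m) := by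
      rw [Finset.mem_filter, Finset.mem_range]
      refine ⟨by omega, ?_⟩
      change A * 0 + (q * 0 / p + 1) ≤ m
      simpa using hm
    rw [← Finset.add_sum_erase _ _ h0, mul_zero, Nat.sub_zero, add_comm]
    congr 1
    unfold coneW
    have h1 : ∀ k ∈ Finset.range ((p + 0) * m + 1),
        (∑ l ∈ Finset.range ((q + 1) * m + 1),
          if q * k < p * l ∧ 0 * l < 1 * k ∧ A * k + 1 * l = m then W k * xq ^ l else 0) =
        if k ≠ 0 ∧ w k ≤ m then W k * xq ^ (m - A * k) else 0 := by
      intro k _
      have hiff : ∀ l, A * k + l = m → (q * k < p * l ↔ w k ≤ m) := by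
        intro l hl
        change q * k < p * l ↔ A * k + (q * k / p + 1) ≤ m
        rw [← hl, add_le_add_iff_left, Nat.add_one_le_iff, Nat.div_lt_iff_lt_mul hp, mul_comm l p]
      split_ifs with hk
      · have hAk : A * k + (m - A * k) = m := by
          have h5 : A * k + (q * k / p + 1) ≤ m := hk.2
          exact Nat.add_sub_cancel' ((Nat.le_add_right _ _).trans h5)
        rw [Finset.sum_eq_single (m - A * k)]
        · rw [if_pos]
          exact ⟨(hiff _ hAk).2 hk.2, by omega, by omega⟩
        · intro l _ hl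
          rw [if_neg]
          rintro ⟨_, _, h⟩
          omega
        · intro hl
          exfalso
          apply hl
          rw [Finset.mem_range]
          have : m ≤ (q + 1) * m := Nat.le_mul_of_pos_left _ (Nat.succ_pos q)
          omega
      · apply Finset.sum_eq_zero
        intro l _
        rw [if_neg]
        rintro ⟨h2, h3, h4⟩
        apply hk
        exact ⟨by omega, (hiff l (by omega)).1 h2⟩
    rw [Finset.sum_congr rfl h1, ← Finset.sum_filter]
    apply Finset.sum_congr _ fun _ _ => rfl
    ext k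
    rw [Finset.mem_filter, Finset.mem_erase, Finset.mem_filter, add_zero]
    tauto
  -- reindexing
  have hre : ∑ k ∈ (Finset.range (p * m + 1)).filter (fun k => w k ≤ m), W k * xq ^ (m - A * k) =
      ∑ i ∈ Finset.range (m + 1), D i * xq ^ (m - i) := by
    have e1 : ∑ i ∈ Finset.range (m + 1), D i * xq ^ (m - i) =
        ∑ t ∈ (Finset.range (m + 1) ×ˢ Finset.range p).filter
          (fun t => w t.2 ≤ t.1 ∧ N ∣ t.1 - w t.2),
          xq ^ (q * t.2 / p + 1) * (W (p * ((t.1 - w t.2) / N) + t.2) *
            xq ^ (q * ((t.1 - w t.2) / N))) * xq ^ (m - t.1) := by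
      rw [Finset.sum_filter, Finset.sum_product]
      apply Finset.sum_congr rfl
      intro i _
      change (∑ r ∈ Finset.range p, _) * _ = _
      rw [Finset.sum_mul]
      apply Finset.sum_congr rfl
      intro r _
      dsimp only
      by_cases h1 : w r ≤ i
      · by_cases h2 : N ∣ i - w r
        · rw [if_pos h1, if_pos h2, if_pos ⟨h1, h2⟩]
        · simp [h1, h2]
      · simp [h1]
    rw [e1]
    refine Finset.sum_nbij' (fun k => (w k, k % p)) (fun t => p * ((t.1 - w t.2) / N) + t.2)
      ?_ ?_ ?_ ?_ ?_
    · intro k hk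
      rw [Finset.mem_filter, Finset.mem_range] at hk
      rw [Finset.mem_filter, Finset.mem_product, Finset.mem_range, Finset.mem_range]
      dsimp only
      have h1 := hw (k / p) (k % p)
      rw [Nat.div_add_mod] at h1
      refine ⟨⟨by omega, Nat.mod_lt _ hp⟩, by omega, ?_⟩
      rw [h1, Nat.add_sub_cancel]
      exact Dvd.intro _ rfl
    · rintro ⟨i, r⟩ ht
      rw [Finset.mem_filter, Finset.mem_product, Finset.mem_range, Finset.mem_range] at ht
      obtain ⟨⟨h1, h2⟩, h3, ⟨j, hj⟩⟩ := ht
      dsimp only at h1 h2 h3 hj ⊢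
      rw [hj, Nat.mul_div_cancel_left _ hN', Finset.mem_filter, Finset.mem_range, hw]
      have h4 : N * j + w r = i := by omega
      refine ⟨?_, by omega⟩
      -- `k < p m + 1`
      have h5 : w (p * j + r) ≤ m := by rw [hw]; omega
      set k := p * j + r with hk
      have h6 : A * k + (q * k / p + 1) ≤ m := h5
      have h7 : q * k < p * (q * k / p + 1) := by
        have := Nat.lt_mul_div_succ (q * k) hp
        simpa [mul_comm] using this
      have h8 : N * k ≤ p * m := by
        calc N * k = p * (A * k) + q * k := by rw [hNd]; ring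
          _ ≤ p * (A * k) + p * (q * k / p + 1) := by omega
          _ = p * (A * k + (q * k / p + 1)) := by ring
          _ ≤ p * m := Nat.mul_le_mul_left _ h6
      have h9 : k ≤ N * k := Nat.le_mul_of_pos_left _ hN'
      omega
    · intro k hk
      dsimp only
      have h1 := hw (k / p) (k % p)
      rw [Nat.div_add_mod] at h1
      rw [h1, Nat.add_sub_cancel, Nat.mul_div_cancel_left _ hN', Nat.div_add_mod]
    · rintro ⟨i, r⟩ ht
      rw [Finset.mem_filter, Finset.mem_product, Finset.mem_range, Finset.mem_range] at ht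
      obtain ⟨⟨h1, h2⟩, h3, ⟨j, hj⟩⟩ := ht
      dsimp only at h1 h2 h3 hj ⊢
      rw [hj, Nat.mul_div_cancel_left _ hN', hw, Nat.mul_add_mod, Nat.mod_eq_of_lt h2]
      have h4 : N * j + w r = i := by omega
      rw [h4]
    · intro k hk
      rw [Finset.mem_filter, Finset.mem_range] at hk
      dsimp only
      have h1 := hw (k / p) (k % p)
      rw [Nat.div_add_mod] at h1
      rw [h1, Nat.add_sub_cancel, Nat.mul_div_cancel_left _ hN', Nat.div_add_mod]
      have h2 := hdiv (k / p) (k % p)
      rw [Nat.div_add_mod] at h2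
      have h3 : w k = A * k + (q * k / p + 1) := rfl
      have h4 : m - A * k = (q * (k % p) / p + 1) + q * (k / p) + (m - (N * (k / p) + w (k % p))) := by
        rw [← h1]
        have h5 : w k ≤ m := hk.2
        rw [h3] at h5
        rw [h2] at h3 h5
        rw [h3]
        generalize q * (k % p) / p = x at *
        generalize q * (k / p) = y at *
        generalize A * k = z at *
        omega
      rw [h4, pow_add, pow_add]
      ring
  rw [Finset.sum_range_succ, Nat.sub_self, pow_zero, mul_one] at hre
  rw [hre] at hE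
  linear_combination hE

end Pool.Agent.Mono.BV
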