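import Pool.Agent.Work.Monodromy7.SQBase

/-!
# Block SQ75: splitting a source into sources with one exponent (helper54)
-/

set_option autoImplicit false

namespace Pool.Agent.Mono.BV

open TS SQAux Polynomial RO

namespace SQAux

/-- coprime factors -/
theorem coprime_fac {N ν N' ν' : ℕ} (hN : 1 ≤ N) (hN' : 1 ≤ N')
    (h : (ν : ℚ) / (N : ℚ) ≠ (ν' : ℚ) / (N' : ℚ)) :
    IsCoprime (1 - C (xq ^ ν) * X ^ N : K[X]) (1 - C (xq ^ ν') * X ^ N') := by
  have h1 : (1 - C (xq ^ ν) * X ^ N : K[X]) ∣ 1 - C (xq ^ (ν * N')) * X ^ (N * N') := by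
    have e : (C (xq ^ (ν * N')) * X ^ (N * N') : K[X]) = (C (xq ^ ν) * X ^ N) ^ N' := by
      rw [mul_pow, ← pow_mul, ← C_pow, ← pow_mul]
    rw [e]
    simpa using sub_dvd_pow_sub_pow (1 : K[X]) (C (xq ^ ν) * X ^ N) N'
  have h2 : (1 - C (xq ^ ν') * X ^ N' : K[X]) ∣ 1 - C (xq ^ (ν' * N)) * X ^ (N * N') := by
    have e : (C (xq ^ (ν' * N)) * X ^ (N * N') : K[X]) = (C (xq ^ ν') * X ^ N') ^ N := by
      rw [mul_pow, ← pow_mul, ← C_pow, ← pow_mul, mul_comm N N']
    rw [e]
    simpa using sub_dvd_pow_sub_pow (1 : K[X]) (C (xq ^ ν') * X ^ N') N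
  have h3 : (xq : K) ^ (ν * N') ≠ xq ^ (ν' * N) := by
    intro h0
    have h4 := Q3Aux.xpow_inj h0
    apply h
    have hNq : (N : ℚ) ≠ 0 := by
      have : N ≠ 0 := by omega
      exact_mod_cast this
    have hNq' : (N' : ℚ) ≠ 0 := by
      have : N' ≠ 0 := by omega
      exact_mod_cast this
    rw [div_eq_div_iff hNq hNq']
    exact_mod_cast h4
  have h4 : (xq : K) ^ (ν' * N) - xq ^ (ν * N') ≠ 0 := sub_ne_zero.2 h3.symm
  set α : K := xq ^ (ν * N') with hα
  set β : K := xq ^ (ν' * N) with hβ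
  have h5 : IsCoprime (1 - C α * X ^ (N * N') : K[X]) (1 - C β * X ^ (N * N')) := by
    refine ⟨C (β / (β - α)), C (-α / (β - α)), ?_⟩
    have e1 : β / (β - α) + -α / (β - α) = 1 := by
      field_simp
      ring
    have e2 : β / (β - α) * α + -α / (β - α) * β = 0 := by
      field_simp
      ring
    have e3 : C (β / (β - α)) + C (-α / (β - α)) = (1 : K[X]) := by
      rw [← C_add, e1, C_1]
    have e4 : C (β / (β - α)) * C α + C (-α / (β - α)) * C β = (0 : K[X]) := by
      rw [← C_mul, ← C_mul, ← C_add, e2, C_0]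
    linear_combination e3 - X ^ (N * N') * e4
  exact (h5.of_isCoprime_of_dvd_left h1).of_isCoprime_of_dvd_right h2

theorem coprime_denP {l l' : List (ℕ × ℕ)}
    (h : ∀ q ∈ l, ∀ q' ∈ l', IsCoprime (1 - C (xq ^ q.2) * X ^ q.1 : K[X])
      (1 - C (xq ^ q'.2) * X ^ q'.1)) : IsCoprime (denP l) (denP l') := by
  induction l with
  | nil =>
    rw [Q1Aux.denP_nil]
    exact isCoprime_one_left
  | cons q l ih =>
    rw [Q1Aux.denP_cons]
    refine IsCoprime.mul_left ?_ (ih fun a ha => h a (List.mem_cons_of_mem _ ha))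
    have h1 : ∀ q' ∈ l', IsCoprime (1 - C (xq ^ q.2) * X ^ q.1 : K[X])
      (1 - C (xq ^ q'.2) * X ^ q'.1) := h q List.mem_cons_self
    clear ih h
    induction l' with
    | nil =>
      rw [Q1Aux.denP_nil]
      exact isCoprime_one_right
    | cons q' l' ih =>
      rw [Q1Aux.denP_cons]
      exact IsCoprime.mul_right (h1 q' List.mem_cons_self)
        (ih fun a ha => h1 a (List.mem_cons_of_mem _ ha))

theorem denP_filter (l : List (ℕ × ℕ)) (p : ℕ × ℕ → Bool) :
    denP l = denP (l.filter p) * denP (l.filter fun q => !p q) := by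
  induction l with
  | nil => simp [denP]
  | cons q l ih =>
    rw [Q1Aux.denP_cons, List.filter_cons, List.filter_cons, ih]
    cases hp : p q
    · simp only [Bool.not_false, if_true, Bool.false_eq_true, if_false, Q1Aux.denP_cons]
      ring
    · simp only [Bool.not_true, if_true, Bool.false_eq_true, if_false, Q1Aux.denP_cons]
      ring

/-- partial fractions -/
theorem split_fin (E : Finset ℚ) : ∀ κ : ℕ → K, ESeq (E : Set ℚ) κ →
    ∃ (g : ℚ → ℕ → K) (h : ℕ → K), (∀ r ∈ E, ESeq {r} (g r)) ∧ ESeq ∅ h ∧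
      ∀ m, κ m = h m + ∑ r ∈ E, g r m := by
  classical
  induction E using Finset.induction_on with
  | empty =>
    intro κ hκ
    refine ⟨fun _ _ => 0, κ, by simp, ?_, by simp⟩
    simpa using hκ
  | insert r E hr ih =>
    rintro κ ⟨l, num, hl, e⟩
    set l₁ := l.filter fun q => decide ((q.2 : ℚ) / (q.1 : ℚ) = r) with hl₁
    set l₂ := l.filter fun q => !decide ((q.2 : ℚ) / (q.1 : ℚ) = r) with hl₂
    have hden : denP l = denP l₁ * denP l₂ := denP_filter l _
    have h1 : ∀ q ∈ l₁, 1 ≤ q.1 ∧ (q.2 : ℚ) / (q.1 : ℚ) ∈ ({r} : Set ℚ) := by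
      intro q hq
      rw [hl₁, List.mem_filter] at hq
      exact ⟨(hl q hq.1).1, by simpa using hq.2⟩
    have h2 : ∀ q ∈ l₂, 1 ≤ q.1 ∧ (q.2 : ℚ) / (q.1 : ℚ) ∈ (E : Set ℚ) := by
      intro q hq
      rw [hl₂, List.mem_filter] at hq
      refine ⟨(hl q hq.1).1, ?_⟩
      have h3 := (hl q hq.1).2
      rw [Finset.mem_coe, Finset.mem_insert] at h3
      rcases h3 with h3 | h3
      · simp [h3] at hq
      · exact h3
    obtain ⟨u, v, huv⟩ : IsCoprime (denP l₁) (denP l₂) := by
      apply coprime_denP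
      intro q hq q' hq'
      apply coprime_fac (h1 q hq).1 (h2 q' hq').1
      intro h0
      have h3 := (h2 q' hq').2
      rw [← h0, (Set.mem_singleton_iff.1 (h1 q hq).2)] at h3
      exact hr (Finset.mem_coe.1 h3)
    let κ₁ : ℕ → K := fun m => PowerSeries.coeff m (((v * denP l₂ : K[X]) : PowerSeries K) *
      PowerSeries.mk κ)
    let κ₂ : ℕ → K := fun m => PowerSeries.coeff m (((u * denP l₁ : K[X]) : PowerSeries K) *
      PowerSeries.mk κ)
    have e1 : PowerSeries.mk κ₁ = ((v * denP l₂ : K[X]) : PowerSeries K) * PowerSeries.mk κ := by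
      ext m
      rw [PowerSeries.coeff_mk]
    have e2 : PowerSeries.mk κ₂ = ((u * denP l₁ : K[X]) : PowerSeries K) * PowerSeries.mk κ := by
      ext m
      rw [PowerSeries.coeff_mk]
    rw [hden, Polynomial.coe_mul] at e
    have hκ₁ : ESeq {r} κ₁ := by
      refine ⟨l₁, v * num, h1, ?_⟩
      rw [e1, Polynomial.coe_mul, Polynomial.coe_mul, ← e]
      ring
    have hκ₂ : ESeq (E : Set ℚ) κ₂ := by
      refine ⟨l₂, u * num, h2, ?_⟩
      rw [e2, Polynomial.coe_mul, Polynomial.coe_mul, ← e]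
      ring
    have hsum : ∀ m, κ m = κ₁ m + κ₂ m := by
      intro m
      have e3 : PowerSeries.mk κ = PowerSeries.mk κ₁ + PowerSeries.mk κ₂ := by
        rw [e1, e2, ← add_mul, ← Polynomial.coe_add]
        have e4 : v * denP l₂ + u * denP l₁ = 1 := by
          rw [← huv]
          ring
        rw [e4, Polynomial.coe_one, one_mul]
      have e5 := congrArg (PowerSeries.coeff m) e3
      rw [map_add, PowerSeries.coeff_mk, PowerSeries.coeff_mk, PowerSeries.coeff_mk] at e5
      exact e5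
    obtain ⟨g, h, hg, hh, e6⟩ := ih κ₂ hκ₂
    refine ⟨fun s => if s = r then κ₁ else g s, h, ?_, hh, ?_⟩
    · intro s hs
      rcases Finset.mem_insert.1 hs with rfl | hs
      · simpa using hκ₁
      · have : s ≠ r := fun h0 => hr (h0 ▸ hs)
        simpa [this] using hg s hs
    · intro m
      rw [hsum, e6, Finset.sum_insert hr]
      have e7 : ∑ s ∈ E, (if s = r then κ₁ else g s) m = ∑ s ∈ E, g s m := by
        apply Finset.sum_congr rfl
        intro s hs
        have : s ≠ r := fun h0 => hr (h0 ▸ hs)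
        simp [this]
      rw [e7]
      simp only [if_true]
      ring

/-- finitely many exponents -/
theorem fin_exp {Λ : Set ℚ} {κ : ℕ → K} (h : ESeq Λ κ) :
    ∃ E : Finset ℚ, (E : Set ℚ) ⊆ Λ ∧ ESeq (E : Set ℚ) κ := by
  classical
  obtain ⟨l, num, hl, e⟩ := h
  refine ⟨(l.map fun q => (q.2 : ℚ) / (q.1 : ℚ)).toFinset, ?_, l, num, ?_, e⟩
  · intro r hr
    rw [Finset.mem_coe, List.mem_toFinset, List.mem_map] at hr
    obtain ⟨q, hq, rfl⟩ := hr
    exact (hl q hq).2
  · intro q hq
    refine ⟨(hl q hq).1, ?_⟩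
    rw [Finset.mem_coe, List.mem_toFinset, List.mem_map]
    exact ⟨q, hq, rfl⟩

theorem fin_exp_list {Λ : Set ℚ} (ts : List Fam) (h : ∀ t ∈ ts, ESeq Λ t.κ) :
    ∃ E : Finset ℚ, (E : Set ℚ) ⊆ Λ ∧ ∀ t ∈ ts, ESeq (E : Set ℚ) t.κ := by
  classical
  induction ts with
  | nil => exact ⟨∅, by simp, by simp⟩
  | cons t ts ih =>
    obtain ⟨E, h1, h2⟩ := ih fun t ht => h t (List.mem_cons_of_mem _ ht)
    obtain ⟨E', h3, h4⟩ := fin_exp (h t List.mem_cons_self)
    refine ⟨E ∪ E', ?_, ?_⟩
    · rw [Finset.coe_union]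
      exact Set.union_subset h1 h3
    · intro t' ht'
      rcases List.mem_cons.1 ht' with rfl | ht'
      · exact Q1Aux.mono (by simp) h4
      · exact Q1Aux.mono (by simp) (h2 t' ht')

theorem sum_list {Λ : Set ℚ} {α : Type*} (ts : List α) (f : α → ℕ → K)
    (h : ∀ t ∈ ts, ESeq Λ (f t)) : ESeq Λ fun m => (ts.map fun t => f t m).sum := by
  induction ts with
  | nil => simpa using (zero : ESeq Λ fun _ => 0)
  | cons t ts ih =>
    simpa using Q1Aux.add (h t List.mem_cons_self) (ih fun t ht => h t (List.mem_cons_of_mem _ ht))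

/-- change of the first term -/
theorem kill0 {Λ : Set ℚ} {κ : ℕ → K} (h : ESeq Λ κ) : ESeq Λ fun m => if m = 0 then 0 else κ m := by
  have h1 : ESeq Λ fun m => if m = 0 then -κ 0 else 0 :=
    Q1Aux.fin 1 fun m hm => by rw [if_neg (by omega)]
  have h2 := Q1Aux.add h h1
  have e : (fun m => if m = 0 then 0 else κ m) = fun m => κ m + (if m = 0 then -κ 0 else 0) := by
    funext m
    split_ifs with hm
    · rw [hm]
      ring
    · ring
  rw [e]
  exact h2

end SQAux

theorem stmt_SQ75 : Stmt_SQ75 := by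
  classical
  intro Λ ts P b hΛ hts hb hmass
  obtain ⟨E₁, h1, h2⟩ := fin_exp_list ts fun t ht => (hts t ht).2
  set E := E₁ with hE
  have hch : ∀ t : Fam, ∃ (g : ℚ → ℕ → K) (h : ℕ → K), t ∈ ts →
      (∀ r ∈ E, ESeq {r} (g r)) ∧ ESeq ∅ h ∧ ∀ m, t.κ m = h m + ∑ r ∈ E, g r m := by
    intro t
    by_cases ht : t ∈ ts
    · obtain ⟨g, h, h3⟩ := split_fin E t.κ (h2 t ht)
      exact ⟨g, h, fun _ => h3⟩
    · exact ⟨fun _ _ => 0, fun _ => 0, fun h => absurd h ht⟩
  choose g h hgh using hch
  -- the components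
  let κs : Option E → Fam → ℕ → K := fun i t => i.elim (h t) fun r => g t r
  let ks : Option E → Kd := fun i => i.elim (some (true, 1)) fun r => some (false, (r : ℚ))
  have hκs : ∀ i, ∀ t ∈ ts, EK (ks i) (κs i t) := by
    intro i t ht
    rcases i with _ | r
    · refine Q1Aux.mono ?_ (hgh t ht).2.1
      intro r hr
      exact absurd hr (by simp)
    · refine Q1Aux.mono ?_ ((hgh t ht).1 r r.2)
      intro s hs
      rw [Set.mem_singleton_iff] at hs
      subst hs
      exact ⟨rfl, rfl⟩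
  have hsumκ : ∀ t ∈ ts, ∀ m, t.κ m = ∑ i, κs i t m := by
    intro t ht m
    rw [(hgh t ht).2.2 m, Fintype.sum_option]
    congr 1
    exact (Finset.sum_coe_sort E fun r => g t r m).symm
  have hpos : ∀ i, {r | (ks i).fs = false ∧ r = (ks i).r} ⊆ Set.Ioi (0 : ℚ) := by
    intro i
    rcases i with _ | r
    · rintro s ⟨h3, _⟩
      simp [ks, Kd.fs] at h3
    · rintro s ⟨_, h3⟩
      have : s = (r : ℚ) := h3
      rw [this]
      exact hΛ (h1 r.2)
  have hr : ∀ i : Option E, ∃ v : K, EK (ks i) fun m => v - ∑ j ∈ Finset.range (m + 1),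
      (if j = 0 then 0 else (ts.map fun t => κs i t j * famV P t).sum) := by
    intro i
    refine stmt_Q3.1 _ _ (hpos i) (kill0 (sum_list ts (fun t j => κs i t j * famV P t) ?_))
    intro t ht
    have h3 := Q1Aux.smul (famV P t) (hκs i t ht)
    simpa [mul_comm] using h3
  choose v hv using hr
  let bs : Option E → ℕ → K := fun i m => v i - ∑ j ∈ Finset.range (m + 1),
      (if j = 0 then 0 else (ts.map fun t => κs i t j * famV P t).sum)
  have hIcc : ∀ (f : ℕ → K) (m : ℕ), ∑ j ∈ Finset.range (m + 1), (if j = 0 then 0 else f j) =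
      ∑ j ∈ Finset.Icc 1 m, f j := by
    intro f m
    induction m with
    | zero => simp
    | succ m ih =>
      rw [Finset.sum_range_succ, ih, if_neg (by omega), Finset.sum_Icc_succ_top (by omega)]
  have hmassi : ∀ i m, bs i m + ∑ j ∈ Finset.Icc 1 m,
      (ts.map fun t => κs i t j * famV P t).sum = bs i 0 := by
    intro i m
    have e1 : bs i m = v i - ∑ j ∈ Finset.Icc 1 m, (ts.map fun t => κs i t j * famV P t).sum := by
      change v i - _ = _
      rw [hIcc]
    have e2 : bs i 0 = v i := by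
      change v i - _ = _
      rw [hIcc]
      simp
    rw [e1, e2]
    ring
  have hbi : ∀ i, EK (ks i) (bs i) := hv
  -- the sum of the tails
  have hswap : ∀ j, ∑ i, (ts.map fun t => κs i t j * famV P t).sum =
      (ts.map fun t => t.κ j * famV P t).sum := by
    intro j
    have h3 : ∀ l : List Fam, (∀ t ∈ l, t ∈ ts) → ∑ i, (l.map fun t => κs i t j * famV P t).sum =
        (l.map fun t => t.κ j * famV P t).sum := by
      intro l
      induction l with
      | nil => simp
      | cons t l ih =>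
        intro hl
        simp only [List.map_cons, List.sum_cons]
        rw [Finset.sum_add_distrib, ih fun t ht => hl t (List.mem_cons_of_mem _ ht),
          hsumκ t (hl t List.mem_cons_self) j, Finset.sum_mul]
    exact h3 ts fun _ ht => ht
  have hconst : ∀ m, ∑ i, bs i m - b m = ∑ i, v i - b 0 := by
    intro m
    have e1 : ∑ i, bs i m = ∑ i, v i - ∑ j ∈ Finset.Icc 1 m,
        (ts.map fun t => t.κ j * famV P t).sum := by
      change ∑ i, (v i - _) = _
      rw [Finset.sum_sub_distrib]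
      congr 1
      simp_rw [hIcc]
      rw [Finset.sum_comm]
      exact Finset.sum_congr rfl fun j _ => hswap j
    rw [e1]
    linear_combination -hmass m
  have hzero : ∑ i, v i - b 0 = 0 := by
    apply stmt_Q3.2
    have e1 : (fun _ : ℕ => ∑ i, v i - b 0) = fun m => (∑ i, bs i m) + (-1) * b m := by
      funext m
      rw [← hconst m]
      ring
    rw [e1]
    refine Q1Aux.add (SQAux.sum _ bs fun i _ => Q1Aux.mono (hpos i) (hbi i))
      (Q1Aux.smul _ (Q1Aux.mono hΛ hb))
  have hsumb : ∀ m, b m = ∑ i, bs i m := by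
    intro m
    have := hconst m
    rw [hzero, sub_eq_zero] at this
    exact this.symm
  -- transport to `Fin n`
  let e := Fintype.equivFin (Option E)
  refine ⟨Fintype.card (Option E), fun i => ks (e.symm i), fun i => κs (e.symm i),
    fun i => bs (e.symm i), ?_, ?_, ?_, ?_⟩
  · intro i
    rcases hi : e.symm i with _ | r
    · refine ⟨true, 1, ?_, one_pos, Or.inl rfl⟩
      simp [ks, hi]
    · refine ⟨false, r, ?_, hΛ (h1 r.2), Or.inr (h1 r.2)⟩
      simp [ks, hi]
  · intro i
    refine ⟨?_, hbi _, ?_⟩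
    · intro t ht
      rw [List.mem_map] at ht
      obtain ⟨t', ht', rfl⟩ := ht
      exact ⟨(hts t' ht').1, hκs _ t' ht'⟩
    · intro m
      refine Eq.trans ?_ (hmassi (e.symm i) m)
      refine congrArg (fun z => bs (e.symm i) m + z) ?_
      apply Finset.sum_congr rfl
      intro j _
      rw [List.map_map]
      rfl
  · intro t ht m
    rw [hsumκ t ht m]
    exact (Equiv.sum_comp e.symm fun i => κs i t m).symm
  · intro m
    rw [hsumb m]
    exact (Equiv.sum_comp e.symm fun i => bs i m).symm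

end Pool.Agent.Mono.BV
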