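import Pool.Agent.Work.Monodromy7.VLF

/-!
# Block ST7 (helper63): the end of the sum in `vS` is arbitrary
-/

set_option autoImplicit false
set_option linter.unusedSectionVars false

namespace Pool.Agent.Mono.BV

open MvPolynomial TS RO RO.VGAux PC

namespace ST7Aux

/-- mass identity, one step -/
theorem mass_step {P : HodgeMeasure} {s : Src} {k₀ : Kd} (hs : s.Ok P k₀) (m : ℕ) :
    s.b (m + 1) + (s.ts.map fun t => t.κ (m + 1) * famV P t).sum = s.b m := by
  have h1 := hs.2.2 (m + 1)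
  have h2 := hs.2.2 m
  rw [Finset.sum_Icc_succ_top (by omega)] at h1
  linear_combination h1 - h2

/-- the partial sums do not change -/
theorem step {P : HodgeMeasure} {s : Src} {k₀ : Kd} (hs : s.Ok P k₀) (G : P2) {E : Type}
    [Finite E] {Q : Set ((E ⊕ Unit) ⊕ Unit → ℂ)} (hQ : QU Q) (k L M m : ℕ) (hm : m ≤ M)
    (hL : L ≤ M + 1) :
    ∑ l ∈ Finset.Ico L (M + 1 + 1), (s.ts.map fun t => t.κ l * e2 P t G Q k l m).sum +
      s.b (M + 1) * e0 P G Q k m =
    ∑ l ∈ Finset.Ico L (M + 1), (s.ts.map fun t => t.κ l * e2 P t G Q k l m).sum +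
      s.b M * e0 P G Q k m := by
  rw [Finset.sum_Ico_succ_top hL]
  have h1 : (s.ts.map fun t => t.κ (M + 1) * e2 P t G Q k (M + 1) m).sum =
      (s.ts.map fun t => t.κ (M + 1) * famV P t).sum * e0 P G Q k m := by
    rw [← List.sum_map_mul_right]
    congr 1
    refine List.map_congr_left fun t ht => ?_
    rw [VL7.e2_far P (hs.1 t ht).1 G hQ.1 (show m + 1 ≤ M + 1 by omega)]
    ring
  rw [h1, ← mass_step hs M]
  ring

theorem steps {P : HodgeMeasure} {s : Src} {k₀ : Kd} (hs : s.Ok P k₀) (G : P2) {E : Type}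
    [Finite E] {Q : Set ((E ⊕ Unit) ⊕ Unit → ℂ)} (hQ : QU Q) (k L M m n : ℕ) (hm : m ≤ M)
    (hL : L ≤ M + 1) :
    ∑ l ∈ Finset.Ico L (M + n + 1), (s.ts.map fun t => t.κ l * e2 P t G Q k l m).sum +
      s.b (M + n) * e0 P G Q k m =
    ∑ l ∈ Finset.Ico L (M + 1), (s.ts.map fun t => t.κ l * e2 P t G Q k l m).sum +
      s.b M * e0 P G Q k m := by
  induction n with
  | zero => rfl
  | succ n ih =>
    rw [← ih]
    exact step hs G hQ k L (M + n) m (by omega) (by omega)

end ST7Aux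

open ST7Aux

theorem stmt_ST7 : Stmt_ST7 := by
  intro P s k₀ hs G E _ Q hQ k L M m hk hL hm hM
  have h1 := steps hs G hQ k L M m (L + m - 1) hm hM
  have h2 := steps hs G hQ k L (L + m - 1) m M (by omega) (by omega)
  rw [Nat.add_comm (L + m - 1) M] at h2
  rw [← h1, h2]
  unfold vS
  rw [show L + m - 1 + 1 = L + m by omega]

end Pool.Agent.Mono.BV
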