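import Pool.Agent.Work.Monodromy7.VLR
import Pool.Agent.Work.Monodromy6.VSH

/-!
# Block SW7 (helper63): symmetry
-/

set_option autoImplicit false
set_option linter.unusedSectionVars false

namespace Pool.Agent.Mono.BV

open MvPolynomial TS RO RO.VGAux PC

theorem stmt_SW7 : Stmt_SW7 := by
  intro P t t' G ht ht' E _ Q hQ k l m
  haveI := t.fin
  haveI := t'.fin
  have h := VL7.vol_ren P (VL7.cy_XS ht' ht (swp G) hQ.1 l k m)
    (Equiv.sumCongr (Equiv.refl E) (Equiv.sumComm t'.σ t.σ)) (Equiv.swap (0 : Fin 2) 1)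
  unfold x2
  rw [← h]
  congr 1
  ext z
  simp only [XS, Set.mem_ofPred_eq, Equiv.sumCongr_apply, Sum.map_inl, Sum.map_inr,
    Equiv.sumComm_apply, Sum.swap_inl, Sum.swap_inr, Equiv.refl_apply, Equiv.swap_apply_left,
    Equiv.swap_apply_right, VSHAux.aeval_swp]
  have e : ∀ α β : PowerSeries ℂ, VSHAux.tsw ![β, α] = ![α, β] := fun _ _ => rfl
  rw [e]
  exact and_left_comm

end Pool.Agent.Mono.BV
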