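import Pool.Agent.Work.Monodromy7.TAAux

/-!
# Phase 7, block RH7 (helper21): exact terms and tail of a Haar part
-/

set_option autoImplicit false
set_option linter.unusedSectionVars false

namespace Pool.Agent.Mono.BV

open MvPolynomial TS PC RO RO.VGAux

namespace RH7Aux

open TAAux

/-- the coefficients from `k` on -/
noncomputable def sh (k : ℕ) (x : PowerSeries ℂ) : PowerSeries ℂ :=
  PowerSeries.mk fun j => PowerSeries.coeff (k + j) x

theorem arcE_sh (m : ℕ) (x : PowerSeries ℂ) (h : ∀ l < m, PowerSeries.coeff l x = 0) :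
    arcE (PowerSeries.coeff m x) m (sh (m + 1) x) = x := by
  ext l
  rw [coeff_arcE]
  rcases lt_trichotomy l m with h1 | h1 | h1
  · rw [if_neg (by omega), if_neg (by omega), h l h1, add_zero]
  · subst h1
    rw [if_pos rfl, if_neg (by omega), add_zero]
  · rw [if_neg (by omega), if_pos (by omega), sh, PowerSeries.coeff_mk, zero_add]
    congr 2
    omega

theorem X_sh (m : ℕ) (x : PowerSeries ℂ) (h : ∀ l < m, PowerSeries.coeff l x = 0) :
    PowerSeries.X ^ m * sh m x = x := by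
  ext l
  rw [PowerSeries.coeff_X_pow_mul']
  by_cases h1 : m ≤ l
  · rw [if_pos h1, sh, PowerSeries.coeff_mk]
    congr 2
    omega
  · rw [if_neg h1, h l (by omega)]

theorem X_arcE (c : ℂ) (k : ℕ) (w : PowerSeries ℂ) :
    PowerSeries.X * arcE c k w = arcE c (k + 1) w := by
  unfold arcE
  ring

section

variable {E κ : Type}

/-- the arcs `v(z) + t x`, where the coefficients of `x` below `m` vanish -/
def TM (h : HT) (C : Set ((E → ℂ) × (Unit ⊕ κ → PowerSeries ℂ))) (m : ℕ) :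
    Set ((E ⊕ h.σ → ℂ) × (Unit ⊕ κ → PowerSeries ℂ)) :=
  {z | (∀ l < m, PowerSeries.coeff l (z.2 (Sum.inl ())) = 0) ∧
    (fun s => z.1 (Sum.inr s)) ∈ h.H ∧ ((fun e => z.1 (Sum.inl e)), Sum.elim (fun _ : Unit =>
      PowerSeries.C (eval (fun s => z.1 (Sum.inr s)) h.v) + PowerSeries.X * z.2 (Sum.inl ()))
        fun a => z.2 (Sum.inr a)) ∈ C}

/-- the same with coefficient `m` different from `0` -/
def RM (h : HT) (C : Set ((E → ℂ) × (Unit ⊕ κ → PowerSeries ℂ))) (m : ℕ) :
    Set ((E ⊕ h.σ → ℂ) × (Unit ⊕ κ → PowerSeries ℂ)) :=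
  {z | ¬ PowerSeries.coeff m (z.2 (Sum.inl ())) = 0 ∧ z ∈ TM h C m}

/-- the leading coefficient as a parameter -/
def VM (h : HT) (C : Set ((E → ℂ) × (Unit ⊕ κ → PowerSeries ℂ))) (m : ℕ) :
    Set (((E ⊕ h.σ) ⊕ Unit → ℂ) × (Unit ⊕ κ → PowerSeries ℂ)) :=
  {z | ¬ z.1 (Sum.inr ()) = 0 ∧
    (fun s => z.1 (Sum.inl (Sum.inr s))) ∈ h.H ∧ ((fun e => z.1 (Sum.inl (Sum.inl e))),
      Sum.elim (fun _ : Unit => PowerSeries.C (eval (fun s => z.1 (Sum.inl (Sum.inr s))) h.v) +
        arcE (z.1 (Sum.inr ())) (m + 1) (z.2 (Sum.inl ()))) fun a => z.2 (Sum.inr a)) ∈ C}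

/-- no arc -/
def V0 (h : HT) (C : Set ((E → ℂ) × (Unit ⊕ κ → PowerSeries ℂ))) :
    Set ((E ⊕ h.σ → ℂ) × (Unit ⊕ κ → PowerSeries ℂ)) :=
  {z | (fun s => z.1 (Sum.inr s)) ∈ h.H ∧ ((fun e => z.1 (Sum.inl e)), Sum.elim (fun _ : Unit =>
      PowerSeries.C (eval (fun s => z.1 (Sum.inr s)) h.v) + 0)
        fun a => z.2 (Sum.inr a)) ∈ C}

variable [Finite E] [Fintype κ]

theorem cy_TM (h : HT) (hH : Constructible h.H)
    {C : Set ((E → ℂ) × (Unit ⊕ κ → PowerSeries ℂ))} (hC : Cy C) (m : ℕ) : Cy (TM h C m) := by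
  have := h.fin
  refine Cy.and (Cy.all_lt m fun l _ => Cy.zero (RF.arc _ l)) (Cy.and
    (Cy.mem hH (φ := fun s z => z.1 (Sum.inr s)) fun s => RF.par _)
    (cy_comp' hC (φ := fun z e => z.1 (Sum.inl e)) (ψ := fun z => Sum.elim (fun _ : Unit =>
      PowerSeries.C (eval (fun s => z.1 (Sum.inr s)) h.v) + PowerSeries.X * z.2 (Sum.inl ()))
        fun a => z.2 (Sum.inr a)) (fun s => RF.par _) ?_))
  rintro (k | k)
  · exact RS.add (RS.C (RF.pe (fun s => RF.par _) _)) (RS.Xmul (RS.arc _))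
  · exact RS.arc _

theorem cy_RM (h : HT) (hH : Constructible h.H)
    {C : Set ((E → ℂ) × (Unit ⊕ κ → PowerSeries ℂ))} (hC : Cy C) (m : ℕ) : Cy (RM h C m) :=
  Cy.and (Cy.not (Cy.zero (RF.arc _ m))) (cy_TM h hH hC m)

theorem cy_VM (h : HT) (hH : Constructible h.H)
    {C : Set ((E → ℂ) × (Unit ⊕ κ → PowerSeries ℂ))} (hC : Cy C) (m : ℕ) : Cy (VM h C m) := by
  have := h.fin
  refine Cy.and (Cy.not (Cy.zero (RF.par _))) (Cy.and
    (Cy.mem hH (φ := fun s z => z.1 (Sum.inl (Sum.inr s))) fun s => RF.par _)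
    (cy_comp' hC (φ := fun z e => z.1 (Sum.inl (Sum.inl e))) (ψ := fun z =>
      Sum.elim (fun _ : Unit => PowerSeries.C (eval (fun s => z.1 (Sum.inl (Sum.inr s))) h.v) +
        arcE (z.1 (Sum.inr ())) (m + 1) (z.2 (Sum.inl ()))) fun a => z.2 (Sum.inr a))
          (fun s => RF.par _) ?_))
  rintro (k | k)
  · exact RS.add (RS.C (RF.pe (fun s => RF.par _) _)) (RS.arcE (RF.par _) (RS.arc _) _)
  · exact RS.arc _

theorem cy_V0 (h : HT) (hH : Constructible h.H)
    {C : Set ((E → ℂ) × (Unit ⊕ κ → PowerSeries ℂ))} (hC : Cy C) : Cy (V0 h C) := by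
  have := h.fin
  refine Cy.and (Cy.mem hH (φ := fun s z => z.1 (Sum.inr s)) fun s => RF.par _)
    (cy_comp' hC (φ := fun z e => z.1 (Sum.inl e)) (ψ := fun z => Sum.elim (fun _ : Unit =>
      PowerSeries.C (eval (fun s => z.1 (Sum.inr s)) h.v) + 0)
        fun a => z.2 (Sum.inr a)) (fun s => RF.par _) ?_)
  rintro (k | k)
  · exact RS.add (RS.C (RF.pe (fun s => RF.par _) _)) RS.zero
  · exact RS.arc _

theorem step (P : HodgeMeasure) (h : HT) (hH : Constructible h.H)
    {C : Set ((E → ℂ) × (Unit ⊕ κ → PowerSeries ℂ))} (hC : Cy C) (m : ℕ) :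
    haveI := h.fin
    vol P.rat xq (TM h C m) = vol P.rat xq (RM h C m) + vol P.rat xq (TM h C (m + 1)) := by
  have := h.fin
  rw [← vol_uni P (cy_RM h hH hC m) (cy_TM h hH hC (m + 1))]
  · congr 1
    ext z
    constructor
    · intro hz
      by_cases h0 : PowerSeries.coeff m (z.2 (Sum.inl ())) = 0
      · refine Or.inr ⟨fun l hl => ?_, hz.2⟩
        rcases Nat.lt_succ_iff_lt_or_eq.1 hl with h1 | rfl
        · exact hz.1 l h1
        · exact h0
      · exact Or.inl ⟨h0, hz⟩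
    · rintro (hz | hz)
      · exact hz.2
      · exact ⟨fun l hl => hz.1 l (by omega), hz.2⟩
  · rw [Set.disjoint_left]
    rintro z h1 h2
    exact h1.1 (h2.1 m (Nat.lt_succ_self m))

theorem vol_RM (P : HodgeMeasure) (h : HT) (hH : Constructible h.H)
    {C : Set ((E → ℂ) × (Unit ⊕ κ → PowerSeries ℂ))} (hC : Cy C) (m : ℕ) :
    haveI := h.fin
    vol P.rat xq (RM h C m) = xq ^ (m + 1) * vTA P h.ex true (m + 1) C := by
  have := h.fin
  have key := vol_cvr P (cy_RM h hH hC m) (cy_VM h hH hC m)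
    (Sum.elim (fun _ => m + 1) fun _ => 0) rfl
    (fun z => ((fun e => z.1 (Sum.inl e)), Sum.elim (fun _ : Unit =>
      arcE (z.1 (Sum.inr ())) m (z.2 (Sum.inl ()))) fun a => z.2 (Sum.inr a)))
    (fun e => RF.par _) (fun p x y => rfl) ?_ ?_ ?_ ?_ ?_
  · rw [key]
    simp only [Fintype.sum_sum_type, Sum.elim_inl, Sum.elim_inr, Finset.sum_const_zero, add_zero,
      Finset.univ_unique, Finset.sum_singleton]
    congr 1
    unfold vTA
    simp only [if_true]
    rw [← vol_par P (Equiv.sumAssoc E h.σ Unit) (cy_VM h hH hC m)]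
    congr 1
    ext z
    change (_ ∧ _ ∧ _) ↔ (((fun s => z.1 (Sum.inr (Sum.inl s))) ∈ h.H ∧
      z.1 (Sum.inr (Sum.inr ())) ≠ 0) ∧ ((fun e => z.1 (Sum.inl e)), Sum.elim (fun _ : Unit =>
        PowerSeries.C (eval (fun s => z.1 (Sum.inr s)) (rename Sum.inl h.v)) +
        arcE (eval (fun s => z.1 (Sum.inr s)) (X (Sum.inr ()))) (m + 1) (z.2 (Sum.inl ())))
          fun a => z.2 (Sum.inr a)) ∈ C)
    rw [eval_rename, eval_X]
    constructor
    · rintro ⟨h1, h2, h3⟩
      exact ⟨⟨h2, h1⟩, h3⟩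
    · rintro ⟨⟨h2, h1⟩, h3⟩
      exact ⟨h1, h2, h3⟩
  · rintro (i | i)
    · exact RS.arcE (RF.par _) (RS.arc _) m
    · exact RS.arc _
  · rintro N p x y hxy (i | i) l hl
    · change PowerSeries.coeff l (arcE _ m _) = PowerSeries.coeff l (arcE _ m _)
      have hl' : l < N + (m + 1) := hl
      rw [coeff_arcE, coeff_arcE]
      by_cases h2 : m + 1 ≤ l
      · rw [if_pos h2, if_pos h2, hxy (Sum.inl ()) (l - (m + 1)) (by omega)]
      · rw [if_neg h2, if_neg h2]
    · exact hxy (Sum.inr i) l hl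
  · intro N z _ z' _ h1 h2
    have h3 : z.1 (Sum.inr ()) = z'.1 (Sum.inr ()) := by
      have := h2 (Sum.inl ()) m (by change m < N + (m + 1); omega)
      change PowerSeries.coeff m (arcE _ m _) = PowerSeries.coeff m (arcE _ m _) at this
      rw [coeff_arcE, coeff_arcE, if_pos rfl, if_pos rfl, if_neg (by omega),
        if_neg (by omega), add_zero, add_zero] at this
      exact this
    refine ⟨?_, ?_⟩
    · funext s
      rcases s with s | s
      · exact congrFun h1 s
      · exact h3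
    · rintro (j | j) l hl
      · have := h2 (Sum.inl ()) (m + 1 + l) (by change m + 1 + l < N + (m + 1); omega)
        change PowerSeries.coeff (m + 1 + l) (arcE _ m _) =
          PowerSeries.coeff (m + 1 + l) (arcE _ m _) at this
        have h5 : ¬ m + 1 + l = m := by omega
        have h6 : m + 1 ≤ m + 1 + l := by omega
        simp only [coeff_arcE, if_neg h5, if_pos h6, zero_add, Nat.add_sub_cancel_left] at this
        exact this
      · exact h2 (Sum.inr j) l hl
  · rintro z ⟨h1, h2, h3⟩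
    refine ⟨?_, ?_, h2, ?_⟩
    · change ¬ PowerSeries.coeff m (arcE _ m _) = 0
      rw [coeff_arcE, if_pos rfl, if_neg (by omega), add_zero]
      exact h1
    · intro l hl
      change PowerSeries.coeff l (arcE _ m _) = 0
      rw [coeff_arcE, if_neg (by omega), if_neg (by omega), add_zero]
    · have h4 := h3
      rw [← X_arcE] at h4
      exact h4
  · rintro y ⟨h1, h2, h3, h4⟩
    have e : (Sum.elim (fun _ : Unit => arcE (PowerSeries.coeff m (y.2 (Sum.inl ()))) m
        (sh (m + 1) (y.2 (Sum.inl ())))) fun a => y.2 (Sum.inr a)) = y.2 := by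
      funext s
      rcases s with ⟨⟩ | s
      · exact arcE_sh m _ h2
      · rfl
    refine ⟨(Sum.elim y.1 fun _ => PowerSeries.coeff m (y.2 (Sum.inl ())),
      Sum.elim (fun _ => sh (m + 1) (y.2 (Sum.inl ()))) fun a => y.2 (Sum.inr a)),
      ⟨h1, h3, ?_⟩, Prod.ext rfl e⟩
    change (_, Sum.elim (fun _ : Unit => _ + arcE (PowerSeries.coeff m (y.2 (Sum.inl ()))) (m + 1)
      (sh (m + 1) (y.2 (Sum.inl ())))) _) ∈ C
    rw [← X_arcE, arcE_sh m _ h2]
    exact h4

theorem vol_TM (P : HodgeMeasure) (h : HT) (hH : Constructible h.H)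
    {C : Set ((E → ℂ) × (Unit ⊕ κ → PowerSeries ℂ))} {n M : ℕ} (hC : IsCyl (fun _ => n) C)
    (hn : n ≤ M + 1) :
    haveI := h.fin
    vol P.rat xq (TM h C M) = xq ^ M * vTA P h.tl false M C := by
  have := h.fin
  have hlow : ∀ (c x : PowerSeries ℂ), ∀ l < n, PowerSeries.coeff l (c + PowerSeries.X *
      (PowerSeries.X ^ M * x)) = PowerSeries.coeff l (c + 0) := by
    intro c x l hl
    rw [map_add, map_add, map_zero]
    congr 1
    rcases l with _ | l
    · rw [PowerSeries.coeff_zero_X_mul]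
    · rw [PowerSeries.coeff_succ_X_mul, PowerSeries.coeff_X_pow_mul', if_neg (by omega)]
  have key := vol_cvr P (cy_TM h hH (cy_of hC) M) (cy_V0 h hH (cy_of hC))
    (Sum.elim (fun _ => M) fun _ => 0) rfl
    (fun z => (z.1, Sum.elim (fun _ : Unit =>
      PowerSeries.X ^ M * z.2 (Sum.inl ())) fun a => z.2 (Sum.inr a)))
    (fun e => RF.par _) (fun p x y => rfl) ?_ ?_ ?_ ?_ ?_
  · rw [key]
    simp only [Fintype.sum_sum_type, Sum.elim_inl, Sum.elim_inr, Finset.sum_const_zero, add_zero,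
      Finset.univ_unique, Finset.sum_singleton]
    rfl
  · rintro (i | i)
    · intro l
      change RF fun z : (E ⊕ h.σ → ℂ) × (Unit ⊕ κ → PowerSeries ℂ) =>
        PowerSeries.coeff l (PowerSeries.X ^ M * z.2 (Sum.inl ()))
      simp only [PowerSeries.coeff_X_pow_mul']
      exact RF.ite _ (RF.arc _ _) (RF.const 0)
    · exact RS.arc _
  · rintro N p x y hxy (i | i) l hl
    · change PowerSeries.coeff l (PowerSeries.X ^ M * _) =
        PowerSeries.coeff l (PowerSeries.X ^ M * _)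
      have hl' : l < N + M := hl
      rw [PowerSeries.coeff_X_pow_mul', PowerSeries.coeff_X_pow_mul']
      by_cases h2 : M ≤ l
      · rw [if_pos h2, if_pos h2, hxy (Sum.inl ()) (l - M) (by omega)]
      · rw [if_neg h2, if_neg h2]
    · exact hxy (Sum.inr i) l hl
  · intro N z _ z' _ h1 h2
    refine ⟨h1, ?_⟩
    rintro (j | j) l hl
    · have := h2 (Sum.inl ()) (M + l) (by change M + l < N + M; omega)
      change PowerSeries.coeff (M + l) (PowerSeries.X ^ M * _) =
        PowerSeries.coeff (M + l) (PowerSeries.X ^ M * _) at this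
      rw [PowerSeries.coeff_X_pow_mul', PowerSeries.coeff_X_pow_mul', if_pos (by omega),
        if_pos (by omega), Nat.add_sub_cancel_left] at this
      exact this
    · exact h2 (Sum.inr j) l hl
  · rintro z ⟨h2, h3⟩
    refine ⟨?_, h2, (hC.1 _ _ _ ?_).2 h3⟩
    · intro l hl
      change PowerSeries.coeff l (PowerSeries.X ^ M * _) = 0
      rw [PowerSeries.coeff_X_pow_mul', if_neg (by omega)]
    · rintro (k | k) l hl
      · exact hlow _ _ l hl
      · rfl
  · rintro y ⟨h2, h3, h4⟩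
    have e : (Sum.elim (fun _ : Unit => PowerSeries.X ^ M * sh M (y.2 (Sum.inl ())))
        fun a => y.2 (Sum.inr a)) = y.2 := by
      funext s
      rcases s with ⟨⟩ | s
      · exact X_sh M _ h2
      · rfl
    refine ⟨(y.1, Sum.elim (fun _ => sh M (y.2 (Sum.inl ()))) fun a => y.2 (Sum.inr a)),
      ⟨h3, (hC.1 _ _ _ ?_).2 h4⟩, Prod.ext rfl e⟩
    rintro (k | k) l hl
    · have h5 := hlow (PowerSeries.C (eval (fun s => y.1 (Sum.inr s)) h.v))
        (sh M (y.2 (Sum.inl ()))) l hl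
      rw [X_sh M _ h2] at h5
      exact h5.symm
    · rfl

end

end RH7Aux

open TAAux RH7Aux in
theorem stmt_RH7 : Stmt_RH7 := by
  intro P h hH E κ _ _ C n M hC hn
  have := h.fin
  have hCy := cy_of hC
  have h0 : ∀ m, vol P.rat xq (TM h C 0) = (∑ i ∈ Finset.Icc 1 m, xq ^ i * vTA P h.ex true i C) +
      vol P.rat xq (TM h C m) := by
    intro m
    induction m with
    | zero => simp
    | succ m ih =>
      rw [ih, step P h hH hCy m, vol_RM P h hH hCy m, Finset.sum_Icc_succ_top (by omega)]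
      ring
  have h1 := h0 M
  rw [vol_TM P h hH hC hn] at h1
  have h2 : TM h C 0 = {z : (E ⊕ h.σ → ℂ) × (Unit ⊕ κ → PowerSeries ℂ) |
        (fun s => z.1 (Sum.inr s)) ∈ h.H ∧ ((fun e => z.1 (Sum.inl e)),
          Sum.elim (fun _ : Unit => PowerSeries.C (eval (fun s => z.1 (Sum.inr s)) h.v) +
            PowerSeries.X * z.2 (Sum.inl ())) fun a => z.2 (Sum.inr a)) ∈ C} := by
    ext z
    exact ⟨fun hz => hz.2, fun hz => ⟨fun l hl => absurd hl (Nat.not_lt_zero l), hz⟩⟩
  rw [h2] at h1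
  rw [h1, mul_add, Finset.mul_sum]
  congr 1
  · refine Finset.sum_congr rfl fun i _ => ?_
    change h.lam * xq ^ i * _ = _
    ring
  · change h.lam * xq ^ M * _ = _
    ring

end Pool.Agent.Mono.BV
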