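import Pool.Agent.Work.Monodromy7.TA7
import Pool.Agent.Work.Monodromy7.RH7

/-!
# Phase 7, block TR7 (helper21): transfer to plane arcs, pairs
-/

set_option autoImplicit false
set_option linter.unusedSectionVars false

namespace Pool.Agent.Mono.BV

open MvPolynomial TS PC RO RO.VGAux

namespace TR7Aux

open TAAux

/-! ## Lists -/

/-- the functional given by the families `ts` and the tail `b` -/
noncomputable def Lf (ts : List Fam) (b : K) (M : ℕ) (Φ : Fam → ℕ → K) (Ψ : K) : K :=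
  ∑ k ∈ Finset.Icc 1 M, (ts.map fun t => t.κ k * Φ t k).sum + b * Ψ

theorem Lf_zero (ts : List Fam) (b : K) (M : ℕ) : Lf ts b M (fun _ _ => 0) 0 = 0 := by
  simp [Lf]

theorem Lf_add (ts : List Fam) (b : K) (M : ℕ) (Φ Φ' : Fam → ℕ → K) (Ψ Ψ' : K) :
    Lf ts b M (fun t k => Φ t k + Φ' t k) (Ψ + Ψ') = Lf ts b M Φ Ψ + Lf ts b M Φ' Ψ' := by
  simp only [Lf, mul_add, List.sum_map_add, Finset.sum_add_distrib]
  ring

theorem Lf_smul (ts : List Fam) (b : K) (M : ℕ) (a : K) (Φ : Fam → ℕ → K) (Ψ : K) :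
    Lf ts b M (fun t k => a * Φ t k) (a * Ψ) = a * Lf ts b M Φ Ψ := by
  simp only [Lf, mul_add, Finset.mul_sum, ← List.sum_map_mul_left]
  congr 1
  · refine Finset.sum_congr rfl fun k _ => ?_
    congr 1
    refine List.map_congr_left fun t _ => ?_
    ring
  · ring

theorem Lf_list {α : Type*} (ts : List Fam) (b : K) (M : ℕ) (l : List α) (Φ : Fam → ℕ → α → K)
    (Ψ : α → K) : Lf ts b M (fun t k => (l.map fun x => Φ t k x).sum) (l.map fun x => Ψ x).sum =
      (l.map fun x => Lf ts b M (fun t k => Φ t k x) (Ψ x)).sum := by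
  induction l with
  | nil => simpa using Lf_zero ts b M
  | cons x l ih =>
    simp only [List.map_cons, List.sum_cons]
    rw [← ih, ← Lf_add]

theorem Lf_congr (ts : List Fam) (b : K) (M : ℕ) {Φ Φ' : Fam → ℕ → K} {Ψ Ψ' : K}
    (h : ∀ t ∈ ts, ∀ k ∈ Finset.Icc 1 M, Φ t k = Φ' t k) (h' : Ψ = Ψ') :
    Lf ts b M Φ Ψ = Lf ts b M Φ' Ψ' := by
  unfold Lf
  rw [h']
  congr 1
  refine Finset.sum_congr rfl fun k hk => ?_
  congr 1
  refine List.map_congr_left fun t ht => ?_
  rw [h t ht k hk]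

theorem sum_comm_list {α β : Type*} (l : List α) (l' : List β) (F : α → β → K) :
    (l.map fun x => (l'.map fun y => F x y).sum).sum =
      (l'.map fun y => (l.map fun x => F x y).sum).sum := by
  induction l with
  | nil => simp
  | cons x l ih =>
    simp only [List.map_cons, List.sum_cons, List.sum_map_add, ih]

theorem sum_fin_list {α β : Type*} (s : Finset β) (l : List α) (F : β → α → K) :
    ∑ k ∈ s, (l.map fun x => F k x).sum = (l.map fun x => ∑ k ∈ s, F k x).sum := by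
  induction l with
  | nil => simp
  | cons x l ih => simp only [List.map_cons, List.sum_cons, Finset.sum_add_distrib, ih]

theorem sum_flatMap {α β : Type*} (l : List α) (g : α → List β) (F : β → K) :
    ((l.flatMap g).map F).sum = (l.map fun a => ((g a).map F).sum).sum := by
  induction l with
  | nil => simp
  | cons x l ih => simp only [List.flatMap_cons, List.map_append, List.sum_append, List.map_cons,
      List.sum_cons, ih]

section

variable {E ι κ : Type}

/-- the arcs with given data below `m` -/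
def SM (f : MvPolynomial ι ℂ) (C : Set ((E → ℂ) × (Unit ⊕ κ → PowerSeries ℂ))) (w : Bool)
    (i : ℕ) : Set ((E → ℂ) × (ι ⊕ κ → PowerSeries ℂ)) :=
  {z | cut w i (aeval (fun a => z.2 (Sum.inl a)) f) ∧
    (w = true → PowerSeries.coeff i (aeval (fun a => z.2 (Sum.inl a)) f) ≠ 0) ∧
    (z.1, Sum.elim (fun _ : Unit => aeval (fun a => z.2 (Sum.inl a)) f)
      fun a => z.2 (Sum.inr a)) ∈ C}

/-- a Haar part, `v(z) + t x` -/
def SH (h : HT) (C : Set ((E → ℂ) × (Unit ⊕ κ → PowerSeries ℂ))) :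
    Set ((E ⊕ h.σ → ℂ) × (Unit ⊕ κ → PowerSeries ℂ)) :=
  {z | (fun s => z.1 (Sum.inr s)) ∈ h.H ∧ ((fun e => z.1 (Sum.inl e)), Sum.elim (fun _ : Unit =>
    PowerSeries.C (eval (fun s => z.1 (Sum.inr s)) h.v) + PowerSeries.X * z.2 (Sum.inl ()))
      fun a => z.2 (Sum.inr a)) ∈ C}

/-- a family at the value `c` -/
def SE (c : ℂ) (t : Fam) (k : ℕ) (C : Set ((E → ℂ) × (Unit ⊕ κ → PowerSeries ℂ))) :
    Set ((E ⊕ t.σ → ℂ) × (Unit ⊕ κ → PowerSeries ℂ)) :=
  {z | (fun s => z.1 (Sum.inr s)) ∈ t.S ∧ ((fun e => z.1 (Sum.inl e)), Sum.elim (fun _ : Unit =>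
    PowerSeries.C c + arcE (eval (fun s => z.1 (Sum.inr s)) t.u) k (z.2 (Sum.inl ())))
      fun a => z.2 (Sum.inr a)) ∈ C}

/-- the value `c` -/
def ST (c : ℂ) (C : Set ((E → ℂ) × (Unit ⊕ κ → PowerSeries ℂ))) :
    Set ((E → ℂ) × (κ → PowerSeries ℂ)) :=
  {z | (z.1, Sum.elim (fun _ : Unit => PowerSeries.C c) z.2) ∈ C}

variable [Finite E] [Fintype ι] [Fintype κ]

noncomputable def VH (P : HodgeMeasure) (h : HT)
    (C : Set ((E → ℂ) × (Unit ⊕ κ → PowerSeries ℂ))) : K :=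
  haveI := h.fin
  vol P.rat xq (SH h C)

noncomputable def VE (P : HodgeMeasure) (c : ℂ) (t : Fam) (k : ℕ)
    (C : Set ((E → ℂ) × (Unit ⊕ κ → PowerSeries ℂ))) : K :=
  haveI := t.fin
  vol P.rat xq (SE c t k C)

noncomputable def VT (P : HodgeMeasure) (c : ℂ)
    (C : Set ((E → ℂ) × (Unit ⊕ κ → PowerSeries ℂ))) : K :=
  vol P.rat xq (ST c C)

theorem cy_SM (f : MvPolynomial ι ℂ) {C : Set ((E → ℂ) × (Unit ⊕ κ → PowerSeries ℂ))}
    (hC : Cy C) (w : Bool) (i : ℕ) : Cy (SM f C w i) := by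
  refine Cy.and (Cy.cutL f w i) (Cy.and (Cy.imp fun _ => Cy.not (Cy.zero (RF.coefL f i)))
    (cy_comp' hC (φ := fun z => z.1) (ψ := fun z =>
      Sum.elim (fun _ : Unit => aeval (fun a => z.2 (Sum.inl a)) f) fun a => z.2 (Sum.inr a))
      (fun s => RF.par _) ?_))
  rintro (k | k)
  · exact fun l => RF.coefL f l
  · exact RS.arc _

theorem step (P : HodgeMeasure) (f : MvPolynomial ι ℂ)
    {C : Set ((E → ℂ) × (Unit ⊕ κ → PowerSeries ℂ))} (hC : Cy C) (m : ℕ) :
    vol P.rat xq (SM f C false m) = vol P.rat xq (SM f C true (m + 1)) +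
      vol P.rat xq (SM f C false (m + 1)) := by
  rw [← vol_uni P (cy_SM f hC true (m + 1)) (cy_SM f hC false (m + 1))]
  · congr 1
    ext z
    constructor
    · rintro ⟨h1, -, h3⟩
      by_cases h0 : PowerSeries.coeff (m + 1) (aeval (fun a => z.2 (Sum.inl a)) f) = 0
      · refine Or.inr ⟨fun l hl hl' => ?_, fun h => absurd h Bool.false_ne_true, h3⟩
        simp only [Bool.false_eq_true, if_false] at hl'
        rcases Nat.lt_succ_iff_lt_or_eq.1 hl' with h2 | rfl
        · exact h1 l hl (by simpa using h2)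
        · exact h0
      · exact Or.inl ⟨fun l hl hl' => h1 l hl (by simpa using hl'), fun _ => h0, h3⟩
    · rintro (⟨h1, -, h3⟩ | ⟨h1, -, h3⟩)
      · exact ⟨fun l hl hl' => h1 l hl (by simpa using hl'),
          fun h => absurd h Bool.false_ne_true, h3⟩
      · refine ⟨fun l hl hl' => h1 l hl ?_, fun h => absurd h Bool.false_ne_true, h3⟩
        simp only [Bool.false_eq_true, if_false] at hl' ⊢
        omega
  · rw [Set.disjoint_left]
    rintro z ⟨-, h1, -⟩ ⟨h2, -, -⟩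
    exact h1 rfl (h2 (m + 1) (by omega) (by simp))

theorem split (P : HodgeMeasure) (f : MvPolynomial ι ℂ)
    {C : Set ((E → ℂ) × (Unit ⊕ κ → PowerSeries ℂ))} (hC : Cy C) (M : ℕ) :
    vol P.rat xq {z : (E → ℂ) × (ι ⊕ κ → PowerSeries ℂ) |
      (z.1, Sum.elim (fun _ : Unit => aeval (fun a => z.2 (Sum.inl a)) f)
        fun a => z.2 (Sum.inr a)) ∈ C} =
      ∑ i ∈ Finset.Icc 1 M, vol P.rat xq (SM f C true i) + vol P.rat xq (SM f C false M) := by
  have h0 : {z : (E → ℂ) × (ι ⊕ κ → PowerSeries ℂ) |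
      (z.1, Sum.elim (fun _ : Unit => aeval (fun a => z.2 (Sum.inl a)) f)
        fun a => z.2 (Sum.inr a)) ∈ C} = SM f C false 0 := by
    ext z
    refine ⟨fun h => ⟨fun l hl hl' => ?_, fun h => absurd h Bool.false_ne_true, h⟩,
      fun h => h.2.2⟩
    simp only [Bool.false_eq_true, if_false] at hl'
    omega
  rw [h0]
  induction M with
  | zero => simp
  | succ m ih =>
    rw [ih, step P f hC m, Finset.sum_Icc_succ_top (by omega)]
    ring

theorem vTA_atv (P : HodgeMeasure) (c : ℂ) (t : Fam) (k : ℕ)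
    (C : Set ((E → ℂ) × (Unit ⊕ κ → PowerSeries ℂ))) :
    vTA P (atv t c) true k C = VE P c t k C := by
  have := t.fin
  have h : {z : (E ⊕ t.σ → ℂ) × (Unit ⊕ κ → PowerSeries ℂ) |
      (fun s => z.1 (Sum.inr s)) ∈ t.S ∧ ((fun e => z.1 (Sum.inl e)),
    Sum.elim (fun _ : Unit => PowerSeries.C (eval (fun s => z.1 (Sum.inr s))
      (MvPolynomial.C c : MvPolynomial t.σ ℂ)) +
      arcE (eval (fun s => z.1 (Sum.inr s)) t.u) k (z.2 (Sum.inl ())))
      fun a => z.2 (Sum.inr a)) ∈ C} = SE c t k C := by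
    ext z
    simp only [eval_C]
    exact Iff.rfl
  exact congrArg (fun S : Set ((E ⊕ t.σ → ℂ) × (Unit ⊕ κ → PowerSeries ℂ)) =>
    vol P.rat xq S) h

theorem vTA_ptv (P : HodgeMeasure) (c : ℂ) (b : ℕ → K) (k : ℕ)
    {C : Set ((E → ℂ) × (Unit ⊕ κ → PowerSeries ℂ))} (hC : Cy C) :
    vTA P (ptv c b) false k C = VT P c C := by
  have cy1 : Cy (ST c C) := by
    refine cy_comp' hC (φ := fun z => z.1) (ψ := fun z => Sum.elim (fun _ : Unit =>
      PowerSeries.C c) z.2) (fun s => RF.par _) ?_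
    rintro (k | k)
    · exact RS.C (RF.const c)
    · exact RS.arc _
  have cy2 := cy1.pull (E' := E ⊕ Empty) (ι := κ) (φ := fun e z => z.1 (Sum.inl e))
    (fun e => RF.par _) id
  have h1 := vol_par P (Equiv.sumEmpty E Empty).symm cy1
  have h2 := vol_arc P (φ := (Sum.inr : κ → Unit ⊕ κ)) Sum.inr_injective cy2
  have h3 : {z : (E ⊕ Empty → ℂ) × (Unit ⊕ κ → PowerSeries ℂ) |
      (fun s => z.1 (Sum.inr s)) ∈ (Set.univ : Set (Empty → ℂ)) ∧
    ((fun e => z.1 (Sum.inl e)),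
    Sum.elim (fun _ : Unit => PowerSeries.C (eval (fun s => z.1 (Sum.inr s))
      (MvPolynomial.C c : MvPolynomial Empty ℂ)) + 0) fun a => z.2 (Sum.inr a)) ∈ C} =
    {z | (z.1, fun i => z.2 (Sum.inr i)) ∈ {z : (E ⊕ Empty → ℂ) × (κ → PowerSeries ℂ) |
      ((fun s => z.1 (Sum.inl s)), fun a => z.2 (id a)) ∈ ST c C}} := by
    ext z
    simp only [eval_C, add_zero]
    exact ⟨fun h => h.2, fun h => ⟨Set.mem_univ _, h⟩⟩
  exact ((congrArg (vol P.rat xq) h3).trans h2).trans h1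

/-- one polynomial -/
theorem one (P : HodgeMeasure) (f : MvPolynomial ι ℂ) (hs : List HT) (crit : Finset ℂ)
    (ts : ℂ → List Fam) (b : ℂ → ℕ → K) (h1 : HasD P f Set.univ true (exF hs crit ts))
    (h2 : HasD P f Set.univ false (tlF hs crit b))
    {C : Set ((E → ℂ) × (Unit ⊕ κ → PowerSeries ℂ))} {n M : ℕ} (hC : IsCyl (fun _ => n) C)
    (hn : n ≤ M + 1) :
    vol P.rat xq {z : (E → ℂ) × (ι ⊕ κ → PowerSeries ℂ) |
      (z.1, Sum.elim (fun _ : Unit => aeval (fun a => z.2 (Sum.inl a)) f)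
        fun a => z.2 (Sum.inr a)) ∈ C} = (hs.map fun h => h.lam * VH P h C).sum +
      (crit.toList.map fun c => Lf (ts c) (b c M) M (fun t k => VE P c t k C) (VT P c C)).sum := by
  have hCy := cy_of hC
  rw [split P f hCy M]
  have e1 : ∀ i ∈ Finset.Icc 1 M, vol P.rat xq (SM f C true i) =
      ((exF hs crit ts).map fun G => G.κ i * vTA P G true i C).sum := fun i hi =>
    stmt_TA7 P ι f true _ h1 E κ C n hC i (fun _ => (Finset.mem_Icc.1 hi).1)
      (fun h => absurd h.symm Bool.false_ne_true)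
  have e2 : vol P.rat xq (SM f C false M) =
      ((tlF hs crit b).map fun G => G.κ M * vTA P G false M C).sum :=
    stmt_TA7 P ι f false _ h2 E κ C n hC M (fun h => absurd h Bool.false_ne_true) fun _ => hn
  rw [Finset.sum_congr rfl e1, e2]
  unfold exF tlF
  simp only [List.map_append, List.sum_append, List.map_map, sum_flatMap, Finset.sum_add_distrib]
  have e3 : ∑ i ∈ Finset.Icc 1 M, (hs.map ((fun G : Fam2 => G.κ i * vTA P G true i C) ∘
      HT.ex)).sum + (hs.map ((fun G : Fam2 => G.κ M * vTA P G false M C) ∘ HT.tl)).sum =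
      (hs.map fun h => h.lam * VH P h C).sum := by
    have e4 := sum_fin_list (Finset.Icc 1 M) hs fun i h => h.ex.κ i * vTA P h.ex true i C
    change ∑ i ∈ Finset.Icc 1 M, (hs.map fun h => h.ex.κ i * vTA P h.ex true i C).sum +
      (hs.map fun h => h.tl.κ M * vTA P h.tl false M C).sum = _
    rw [e4, ← List.sum_map_add]
    congr 1
    refine List.map_congr_left fun h hh => ?_
    refine stmt_RH7 P h ?_ E κ C n M hC hn
    exact (h2.1 h.tl (List.mem_append_left _ (List.mem_map_of_mem hh))).1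
  have e5 : ∑ i ∈ Finset.Icc 1 M, (crit.toList.map fun c => ((ts c).map ((fun G : Fam2 =>
      G.κ i * vTA P G true i C) ∘ fun t => atv t c)).sum).sum +
      (crit.toList.map ((fun G : Fam2 => G.κ M * vTA P G false M C) ∘ fun c => ptv c (b c))).sum =
      (crit.toList.map fun c => Lf (ts c) (b c M) M (fun t k => VE P c t k C) (VT P c C)).sum := by
    rw [sum_fin_list]
    change _ + (crit.toList.map fun c => (ptv c (b c)).κ M * vTA P (ptv c (b c)) false M C).sum = _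
    rw [← List.sum_map_add]
    congr 1
    refine List.map_congr_left fun c _ => ?_
    rw [vTA_ptv P c (b c) M hCy]
    unfold Lf
    congr 1
    refine Finset.sum_congr rfl fun k _ => ?_
    congr 1
    refine List.map_congr_left fun t _ => ?_
    change t.κ k * vTA P (atv t c) true k C = _
    rw [vTA_atv]
  rw [← e3, ← e5]
  ring

end

/-! ## Pairs -/

section two

variable {E E' J κ : Type}

/-- the first arc is `α`, the second arc is the arc `inl ()` -/
def D2 (B : Set (E' → ℂ)) (r : E → E') (α : (E' → ℂ) × (J → PowerSeries ℂ) → PowerSeries ℂ)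
    (C : Set ((E → ℂ) × (Fin 2 → PowerSeries ℂ))) :
    Set ((E' → ℂ) × (Unit ⊕ J → PowerSeries ℂ)) :=
  {z | z.1 ∈ B ∧ ((fun e => z.1 (r e)),
    ![α (z.1, fun j => z.2 (Sum.inr j)), z.2 (Sum.inl ())]) ∈ C}

/-- the first arc is `α`, the second arc is `g(y)` -/
def G2 (B : Set (E' → ℂ)) (r : E → E') (α : (E' → ℂ) × (J → PowerSeries ℂ) → PowerSeries ℂ)
    (g : MvPolynomial κ ℂ) (C : Set ((E → ℂ) × (Fin 2 → PowerSeries ℂ))) :
    Set ((E' → ℂ) × (J ⊕ κ → PowerSeries ℂ)) :=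
  {z | z.1 ∈ B ∧ ((fun e => z.1 (r e)),
    ![α (z.1, fun j => z.2 (Sum.inl j)), aeval (fun a => z.2 (Sum.inr a)) g]) ∈ C}

/-- low coefficients depend on low coefficients only -/
def Lo (n : ℕ) (α : (E' → ℂ) × (J → PowerSeries ℂ) → PowerSeries ℂ) : Prop :=
  ∀ p x y, (∀ j, ∀ l < n, PowerSeries.coeff l (x j) = PowerSeries.coeff l (y j)) →
    ∀ l < n, PowerSeries.coeff l (α (p, x)) = PowerSeries.coeff l (α (p, y))

variable [Finite E] [Finite E'] [Fintype J] [Fintype κ]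

theorem cyl_D2 {B : Set (E' → ℂ)} (hB : Constructible B) (r : E → E')
    {α : (E' → ℂ) × (J → PowerSeries ℂ) → PowerSeries ℂ} (hα : RS α) {n : ℕ} (hα' : Lo n α)
    {C : Set ((E → ℂ) × (Fin 2 → PowerSeries ℂ))} (hC : IsCyl (fun _ => n) C) :
    IsCyl (fun _ => n) (D2 B r α C) := by
  refine isCyl_of (Cy.and (Cy.param hB) (cy_comp' (cy_of hC) (φ := fun z e => z.1 (r e))
    (ψ := fun z => ![α (z.1, fun j => z.2 (Sum.inr j)), z.2 (Sum.inl ())])
    (fun s => RF.par _) ?_)) ?_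
  · intro k
    fin_cases k
    · exact RS.co hα Sum.inr
    · exact RS.arc _
  · intro p x y h
    refine and_congr Iff.rfl (hC.1 _ _ _ ?_)
    intro i l hl
    fin_cases i
    · exact hα' p _ _ (fun j l hl => h (Sum.inr j) l hl) l hl
    · exact h (Sum.inl ()) l hl

theorem two (P : HodgeMeasure) (g : MvPolynomial κ ℂ) (hs : List HT) (crit : Finset ℂ)
    (ts : ℂ → List Fam) (b : ℂ → ℕ → K) (h1 : HasD P g Set.univ true (exF hs crit ts))
    (h2 : HasD P g Set.univ false (tlF hs crit b)) {B : Set (E' → ℂ)} (hB : Constructible B)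
    (r : E → E') {α : (E' → ℂ) × (J → PowerSeries ℂ) → PowerSeries ℂ} (hα : RS α) {n M : ℕ}
    (hα' : Lo n α) {C : Set ((E → ℂ) × (Fin 2 → PowerSeries ℂ))} (hC : IsCyl (fun _ => n) C)
    (hn : n ≤ M + 1) :
    vol P.rat xq (G2 B r α g C) = (hs.map fun h => h.lam * VH P h (D2 B r α C)).sum +
      (crit.toList.map fun c => Lf (ts c) (b c M) M (fun t k => VE P c t k (D2 B r α C))
        (VT P c (D2 B r α C))).sum := by
  have hD := cyl_D2 hB r hα hα' hC
  rw [← one P g hs crit ts b h1 h2 hD hn]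
  have cyS : Cy {z : (E' → ℂ) × (κ ⊕ J → PowerSeries ℂ) |
      (z.1, Sum.elim (fun _ : Unit => aeval (fun a => z.2 (Sum.inl a)) g)
        fun a => z.2 (Sum.inr a)) ∈ D2 B r α C} := by
    refine cy_comp' (cy_of hD) (φ := fun z => z.1) (ψ := fun z =>
      Sum.elim (fun _ : Unit => aeval (fun a => z.2 (Sum.inl a)) g) fun a => z.2 (Sum.inr a))
      (fun s => RF.par _) ?_
    rintro (k | k)
    · exact fun l => RF.coefL g l
    · exact RS.arc _
  exact vol_swap P cyS

theorem cy_SH (h : HT) (hH : Constructible h.H)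
    {C : Set ((E → ℂ) × (Unit ⊕ κ → PowerSeries ℂ))} (hC : Cy C) : Cy (SH h C) := by
  have := h.fin
  refine Cy.and (Cy.mem hH (φ := fun s z => z.1 (Sum.inr s)) fun s => RF.par _)
    (cy_comp' hC (φ := fun z e => z.1 (Sum.inl e)) (ψ := fun z => Sum.elim (fun _ : Unit =>
    PowerSeries.C (eval (fun s => z.1 (Sum.inr s)) h.v) + PowerSeries.X * z.2 (Sum.inl ()))
      fun a => z.2 (Sum.inr a)) (fun s => RF.par _) ?_)
  rintro (k | k)
  · exact RS.add (RS.C (RF.pe (fun s => RF.par _) _)) (RS.Xmul (RS.arc _))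
  · exact RS.arc _

theorem cy_SE (c : ℂ) (t : Fam) (ht : Constructible t.S) (k : ℕ)
    {C : Set ((E → ℂ) × (Unit ⊕ κ → PowerSeries ℂ))} (hC : Cy C) : Cy (SE c t k C) := by
  have := t.fin
  refine Cy.and (Cy.mem ht (φ := fun s z => z.1 (Sum.inr s)) fun s => RF.par _)
    (cy_comp' hC (φ := fun z e => z.1 (Sum.inl e)) (ψ := fun z => Sum.elim (fun _ : Unit =>
    PowerSeries.C c + arcE (eval (fun s => z.1 (Sum.inr s)) t.u) k (z.2 (Sum.inl ())))
      fun a => z.2 (Sum.inr a)) (fun s => RF.par _) ?_)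
  rintro (i | i)
  · exact RS.add (RS.C (RF.const c)) (RS.arcE (RF.pe (fun s => RF.par _) _) (RS.arc _) k)
  · exact RS.arc _

theorem cy_ST (c : ℂ) {C : Set ((E → ℂ) × (Unit ⊕ κ → PowerSeries ℂ))} (hC : Cy C) :
    Cy (ST c C) := by
  refine cy_comp' hC (φ := fun z => z.1) (ψ := fun z => Sum.elim (fun _ : Unit =>
    PowerSeries.C c) z.2) (fun s => RF.par _) ?_
  rintro (k | k)
  · exact RS.C (RF.const c)
  · exact RS.arc _

end two

/-! ## The three kinds of first arcs -/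

/-- `inl () ↦ 1`, `inr () ↦ 0` -/
def s1 : Unit ⊕ Unit ≃ Fin 2 where
  toFun := Sum.elim (fun _ => 1) fun _ => 0
  invFun := ![Sum.inr (), Sum.inl ()]
  left_inv := by rintro (⟨⟩ | ⟨⟩) <;> rfl
  right_inv := by intro i; fin_cases i <;> rfl

/-- `inl () ↦ 0`, `inr () ↦ 1` -/
def s2 : Unit ⊕ Unit ≃ Fin 2 where
  toFun := Sum.elim (fun _ => 0) fun _ => 1
  invFun := ![Sum.inl (), Sum.inr ()]
  left_inv := by rintro (⟨⟩ | ⟨⟩) <;> rfl
  right_inv := by intro i; fin_cases i <;> rfl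

/-- exchange of two groups of parameters -/
def rB (E σ τ : Type) : (E ⊕ σ) ⊕ τ ≃ E ⊕ (τ ⊕ σ) where
  toFun := Sum.elim (Sum.elim (fun e => Sum.inl e) fun s => Sum.inr (Sum.inr s))
    fun t => Sum.inr (Sum.inl t)
  invFun := Sum.elim (fun e => Sum.inl (Sum.inl e))
    (Sum.elim (fun t => Sum.inr t) fun s => Sum.inl (Sum.inr s))
  left_inv := by rintro ((e | s) | t) <;> rfl
  right_inv := by rintro (e | (t | s)) <;> rfl

noncomputable def aH (E : Type) (h : HT) (z : (E ⊕ h.σ → ℂ) × (Unit → PowerSeries ℂ)) :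
    PowerSeries ℂ :=
  PowerSeries.C (eval (fun s => z.1 (Sum.inr s)) h.v) + PowerSeries.X * z.2 ()

noncomputable def aE (E : Type) (c : ℂ) (t : Fam) (k : ℕ)
    (z : (E ⊕ t.σ → ℂ) × (Unit → PowerSeries ℂ)) : PowerSeries ℂ :=
  PowerSeries.C c + arcE (eval (fun s => z.1 (Sum.inr s)) t.u) k (z.2 ())

noncomputable def aT (E : Type) (c : ℂ) (_ : (E → ℂ) × (Empty → PowerSeries ℂ)) :
    PowerSeries ℂ := PowerSeries.C c

theorem rs_aH (E : Type) (h : HT) : RS (aH E h) :=
  RS.add (RS.C (RF.pe (fun _ => RF.par _) _)) (RS.Xmul (RS.arc _))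

theorem rs_aE (E : Type) (c : ℂ) (t : Fam) (k : ℕ) : RS (aE E c t k) :=
  RS.add (RS.C (RF.const c)) (RS.arcE (RF.pe (fun _ => RF.par _) _) (RS.arc _) k)

theorem rs_aT (E : Type) (c : ℂ) : RS (aT E c) := RS.C (RF.const c)

theorem lo_aH (E : Type) (h : HT) (n : ℕ) : Lo n (aH E h) := by
  intro p x y hxy l hl
  unfold aH
  rw [map_add, map_add]
  congr 1
  rcases l with _ | l
  · rw [PowerSeries.coeff_zero_X_mul, PowerSeries.coeff_zero_X_mul]
  · rw [PowerSeries.coeff_succ_X_mul, PowerSeries.coeff_succ_X_mul]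
    exact hxy () l (by omega)

theorem lo_aE (E : Type) (c : ℂ) (t : Fam) (k n : ℕ) : Lo n (aE E c t k) := by
  intro p x y hxy l hl
  unfold aE
  rw [map_add, map_add, coeff_arcE, coeff_arcE]
  congr 2
  by_cases h2 : k + 1 ≤ l
  · rw [if_pos h2, if_pos h2]
    exact hxy () _ (by omega)
  · rw [if_neg h2, if_neg h2]

theorem lo_aT (E : Type) (c : ℂ) (n : ℕ) : Lo n (aT E c) := fun _ _ _ _ _ _ => rfl

def BH (E : Type) (h : HT) : Set (E ⊕ h.σ → ℂ) := {p | (fun s => p (Sum.inr s)) ∈ h.H}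

def BE (E : Type) (t : Fam) : Set (E ⊕ t.σ → ℂ) := {p | (fun s => p (Sum.inr s)) ∈ t.S}

section ids

variable {E : Type} [Finite E] (P : HodgeMeasure) {C : Set ((E → ℂ) × (Fin 2 → PowerSeries ℂ))}
  {n : ℕ}

def DH (h : HT) (C : Set ((E → ℂ) × (Fin 2 → PowerSeries ℂ))) :
    Set ((E ⊕ h.σ → ℂ) × (Unit ⊕ Unit → PowerSeries ℂ)) := D2 (BH E h) Sum.inl (aH E h) C

def DE (c : ℂ) (t : Fam) (k : ℕ) (C : Set ((E → ℂ) × (Fin 2 → PowerSeries ℂ))) :
    Set ((E ⊕ t.σ → ℂ) × (Unit ⊕ Unit → PowerSeries ℂ)) := D2 (BE E t) Sum.inl (aE E c t k) C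

def DC (c : ℂ) (C : Set ((E → ℂ) × (Fin 2 → PowerSeries ℂ))) :
    Set ((E → ℂ) × (Unit ⊕ Empty → PowerSeries ℂ)) := D2 Set.univ id (aT E c) C

theorem cy_DH (h : HT) (hH : Constructible h.H) (hC : IsCyl (fun _ => n) C) : Cy (DH h C) := by
  have := h.fin
  exact cy_of (cyl_D2 (Constructible.comap (fun s => (Sum.inr s : E ⊕ h.σ)) hH) Sum.inl
    (rs_aH E h) (lo_aH E h n) hC)

theorem cy_DE (c : ℂ) (t : Fam) (hS : Constructible t.S) (k : ℕ) (hC : IsCyl (fun _ => n) C) :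
    Cy (DE c t k C) := by
  have := t.fin
  exact cy_of (cyl_D2 (Constructible.comap (fun s => (Sum.inr s : E ⊕ t.σ)) hS) Sum.inl
    (rs_aE E c t k) (lo_aE E c t k n) hC)

theorem cy_DC (c : ℂ) (hC : IsCyl (fun _ => n) C) : Cy (DC c C) :=
  cy_of (cyl_D2 Constructible.univ id (rs_aT E c) (lo_aT E c n) hC)

noncomputable def VHH (h h' : HT) (C : Set ((E → ℂ) × (Fin 2 → PowerSeries ℂ))) : K :=
  haveI := h.fin
  VH P h' (DH h C)

noncomputable def VHE (h : HT) (c' : ℂ) (t' : Fam) (k : ℕ)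
    (C : Set ((E → ℂ) × (Fin 2 → PowerSeries ℂ))) : K :=
  haveI := h.fin
  VE P c' t' k (DH h C)

noncomputable def VHT (h : HT) (c' : ℂ) (C : Set ((E → ℂ) × (Fin 2 → PowerSeries ℂ))) : K :=
  haveI := h.fin
  VT P c' (DH h C)

noncomputable def VEH (c : ℂ) (t : Fam) (k : ℕ) (h' : HT)
    (C : Set ((E → ℂ) × (Fin 2 → PowerSeries ℂ))) : K :=
  haveI := t.fin
  VH P h' (DE c t k C)

noncomputable def VEE (c : ℂ) (t : Fam) (k : ℕ) (c' : ℂ) (t' : Fam) (l : ℕ)
    (C : Set ((E → ℂ) × (Fin 2 → PowerSeries ℂ))) : K :=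
  haveI := t.fin
  VE P c' t' l (DE c t k C)

noncomputable def VET (c : ℂ) (t : Fam) (k : ℕ) (c' : ℂ)
    (C : Set ((E → ℂ) × (Fin 2 → PowerSeries ℂ))) : K :=
  haveI := t.fin
  VT P c' (DE c t k C)

theorem id_HH (h h' : HT) (hH : Constructible h.H) (hH' : Constructible h'.H)
    (hC : IsCyl (fun _ => n) C) (M : ℕ) :
    muHH P (pair h h') E C M = h.lam * (h'.lam * VHH P h h' C) := by
  have := h.fin
  have := h'.fin
  set S' : Set ((E ⊕ (h.σ ⊕ h'.σ) → ℂ) × (Fin 2 → PowerSeries ℂ)) :=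
    {z | ((fun s => z.1 (Sum.inr (Sum.inl s))) ∈ h.H ∧
      (fun s => z.1 (Sum.inr (Sum.inr s))) ∈ h'.H) ∧ ((fun e => z.1 (Sum.inl e)),
      ![PowerSeries.C (eval (fun s => z.1 (Sum.inr s)) (rename Sum.inl h.v)) +
        PowerSeries.X * z.2 0,
        PowerSeries.C (eval (fun s => z.1 (Sum.inr s)) (rename Sum.inr h'.v)) +
        PowerSeries.X * z.2 1]) ∈ C} with hS'
  have key : vol P.rat xq S' = vol P.rat xq (SH h' (DH h C)) := by
    refine vol_ren P (Equiv.sumAssoc E h.σ h'.σ) s1 (cy_SH h' hH' (cy_DH h hH hC)) ?_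
    intro p x
    change ((_ ∧ _) ∧ ((fun e => p (Sum.inl e)),
      ![PowerSeries.C (eval (fun s => p (Sum.inr s)) (rename Sum.inl h.v)) +
        PowerSeries.X * x 0,
        PowerSeries.C (eval (fun s => p (Sum.inr s)) (rename Sum.inr h'.v)) +
        PowerSeries.X * x 1]) ∈ C) ↔ _
    rw [eval_rename, eval_rename]
    constructor
    · rintro ⟨⟨h1, h2⟩, h3⟩
      exact ⟨h2, h1, h3⟩
    · rintro ⟨h2, h1, h3⟩
      exact ⟨⟨h1, h2⟩, h3⟩
  have e : muHH P (pair h h') E C M = (h.lam * h'.lam) * vol P.rat xq S' := rfl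
  rw [e, key, mul_assoc]
  rfl

theorem id_HE (h : HT) (c' : ℂ) (t' : Fam) (k : ℕ) (hH : Constructible h.H)
    (hS : Constructible t'.S) (hC : IsCyl (fun _ => n) C) :
    vFH P c' t' h k (swC C) = VHE P h c' t' k C := by
  have := h.fin
  have := t'.fin
  refine vol_ren P (rB E h.σ t'.σ) s2 (cy_SE c' t' hS k (cy_DH h hH hC)) ?_
  intro p x
  exact Iff.rfl

theorem id_HT (h : HT) (c' : ℂ) : vCH P c' h (swC C) = VHT P h c' C := rfl

theorem id_EH (c : ℂ) (t : Fam) (k : ℕ) (h' : HT) (hH : Constructible h'.H)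
    (hS : Constructible t.S) (hC : IsCyl (fun _ => n) C) :
    vFH P c t h' k C = VEH P c t k h' C := by
  have := h'.fin
  have := t.fin
  refine vol_ren P (Equiv.sumAssoc E t.σ h'.σ) s1 (cy_SH h' hH (cy_DE c t hS k hC)) ?_
  intro p x
  constructor
  · rintro ⟨h1, h2, h3⟩
    exact ⟨h2, h1, h3⟩
  · rintro ⟨h2, h1, h3⟩
    exact ⟨h1, h2, h3⟩

theorem id_TH (c : ℂ) (h' : HT) (hH : Constructible h'.H) (hC : IsCyl (fun _ => n) C) :
    vCH P c h' C = VH P h' (DC c C) := by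
  have := h'.fin
  refine vol_ren P (Equiv.refl _) (Equiv.sumEmpty Unit Empty)
    (cy_SH h' hH (cy_DC c hC)) ?_
  intro p x
  constructor
  · rintro ⟨h1, h2⟩
    exact ⟨h1, Set.mem_univ _, h2⟩
  · rintro ⟨h1, -, h2⟩
    exact ⟨h1, h2⟩

theorem id_EE (c : ℂ) (t : Fam) (k : ℕ) (c' : ℂ) (t' : Fam) (l : ℕ) (hS : Constructible t.S)
    (hS' : Constructible t'.S) (hC : IsCyl (fun _ => n) C) :
    vFF P c t c' t' k l C = VEE P c t k c' t' l C := by
  have := t.fin
  have := t'.fin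
  refine vol_ren P (Equiv.sumAssoc E t.σ t'.σ) s1 (cy_SE c' t' hS' l (cy_DE c t hS k hC)) ?_
  intro p x
  constructor
  · rintro ⟨h1, h2, h3⟩
    exact ⟨h2, h1, h3⟩
  · rintro ⟨h2, h1, h3⟩
    exact ⟨h1, h2, h3⟩

theorem id_ET (c : ℂ) (t : Fam) (k : ℕ) (c' : ℂ) : vFC P c t c' k C = VET P c t k c' C := rfl

theorem id_TE (c c' : ℂ) (t' : Fam) (l : ℕ) (hS : Constructible t'.S)
    (hC : IsCyl (fun _ => n) C) : vFC P c' t' c l (swC C) = VE P c' t' l (DC c C) := by
  have := t'.fin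
  refine vol_ren P (Equiv.refl _) (Equiv.sumEmpty Unit Empty)
    (cy_SE c' t' hS l (cy_DC c hC)) ?_
  intro p x
  constructor
  · rintro ⟨h1, h2⟩
    exact ⟨h1, Set.mem_univ _, h2⟩
  · rintro ⟨h1, -, h2⟩
    exact ⟨h1, h2⟩

theorem id_TT (c c' : ℂ) (hC : IsCyl (fun _ => n) C) :
    P.rat.val {p : E → ℂ | (p, ![PowerSeries.C c, PowerSeries.C c']) ∈ C} =
      VT P c' (DC c C) := by
  have cy1 : Cy (ST c' (DC c C)) := cy_ST c' (cy_DC c hC)
  have hB : Constructible {p : E → ℂ | (p, ![PowerSeries.C c, PowerSeries.C c']) ∈ C} := by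
    have := con_param cy1 (fun _ => 0) fun p y => by
      rw [Subsingleton.elim y fun _ => 0]
    convert this using 2
    ext p
    exact ⟨fun h => ⟨Set.mem_univ _, h⟩, fun h => h.2⟩
  rw [← vol_param (ι := Empty) P hB]
  unfold VT
  congr 1
  ext z
  exact ⟨fun h => ⟨Set.mem_univ _, h⟩, fun h => h.2⟩

end ids

/-! ## Assembly -/

section asm

variable {E κ : Type} [Finite E] [Fintype κ]

/-- the second arc is `g(y)` -/
def C1 (g : MvPolynomial κ ℂ) (C : Set ((E → ℂ) × (Fin 2 → PowerSeries ℂ))) :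
    Set ((E → ℂ) × (Unit ⊕ κ → PowerSeries ℂ)) :=
  {z | (z.1, ![z.2 (Sum.inl ()), aeval (fun a => z.2 (Sum.inr a)) g]) ∈ C}

theorem cyl_C1 (g : MvPolynomial κ ℂ) {C : Set ((E → ℂ) × (Fin 2 → PowerSeries ℂ))} {n : ℕ}
    (hC : IsCyl (fun _ => n) C) : IsCyl (fun _ => n) (C1 g C) := by
  classical
  refine isCyl_of (cy_comp' (cy_of hC) (φ := fun z => z.1) (ψ := fun z =>
    ![z.2 (Sum.inl ()), aeval (fun a => z.2 (Sum.inr a)) g]) (fun s => RF.par _) ?_) ?_
  · intro k
    fin_cases k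
    · exact RS.arc _
    · exact fun l => RF.coefR g l
  · intro p x y h
    refine hC.1 _ _ _ ?_
    intro i l hl
    fin_cases i
    · exact h (Sum.inl ()) l hl
    · exact GJetAux.aeval_congr g n _ _ (fun a l hl => h (Sum.inr a) l hl) l hl

variable (P : HodgeMeasure) (g : MvPolynomial κ ℂ) (hs : List HT) (crit : Finset ℂ)
    (ts : ℂ → List Fam) (b : ℂ → ℕ → K)

theorem cons_h (h2 : HasD P g Set.univ false (tlF hs crit b)) {h : HT} (hh : h ∈ hs) :
    Constructible h.H := (h2.1 h.tl (List.mem_append_left _ (List.mem_map_of_mem hh))).1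

theorem cons_t (h1 : HasD P g Set.univ true (exF hs crit ts)) {c : ℂ} (hc : c ∈ crit.toList)
    {t : Fam} (ht : t ∈ ts c) : Constructible t.S :=
  (h1.1 (atv t c) (List.mem_append_right _ (List.mem_flatMap.2 ⟨c, hc,
    List.mem_map_of_mem ht⟩))).1

theorem st_H (h1 : HasD P g Set.univ true (exF hs crit ts))
    (h2 : HasD P g Set.univ false (tlF hs crit b)) (h : HT) (hH : Constructible h.H)
    {C : Set ((E → ℂ) × (Fin 2 → PowerSeries ℂ))} {n M : ℕ} (hC : IsCyl (fun _ => n) C)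
    (hn : n ≤ M + 1) :
    h.lam * VH P h (C1 g C) = (hs.map fun h' => muHH P (pair h h') E C M).sum +
      (crit.toList.map fun c' => swM (muFH P c' ⟨ts c', b c'⟩ h) E C M).sum := by
  have := h.fin
  have e1 : VH P h (C1 g C) = vol P.rat xq (G2 (BH E h) Sum.inl (aH E h) g C) := rfl
  have e2 := two (M := M) (B := BH E h) P g hs crit ts b h1 h2
    (Constructible.comap (fun s => (Sum.inr s : E ⊕ h.σ)) hH) Sum.inl
    (rs_aH E h) (lo_aH E h n) hC hn
  rw [e1, e2, mul_add, ← List.sum_map_mul_left, ← List.sum_map_mul_left]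
  congr 1
  · congr 1
    refine List.map_congr_left fun h' hh' => ?_
    rw [id_HH P h h' hH (cons_h P g hs crit b h2 hh') hC M]
    rfl
  · congr 1
    refine List.map_congr_left fun c' hc' => ?_
    change _ = h.lam * (∑ k ∈ Finset.Icc 1 M, ((ts c').map fun t =>
      t.κ k * vFH P c' t h k (swC C)).sum + b c' M * vCH P c' h (swC C))
    congr 1
    unfold Lf
    rw [id_HT P h c']
    congr 1
    refine Finset.sum_congr rfl fun k _ => ?_
    congr 1
    refine List.map_congr_left fun t ht => ?_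
    rw [id_HE P h c' t k hH (cons_t P g hs crit ts h1 hc' ht) hC]
    rfl

theorem st_E (h1 : HasD P g Set.univ true (exF hs crit ts))
    (h2 : HasD P g Set.univ false (tlF hs crit b)) (c : ℂ) (t : Fam) (k : ℕ)
    (hS : Constructible t.S)
    {C : Set ((E → ℂ) × (Fin 2 → PowerSeries ℂ))} {n M : ℕ} (hC : IsCyl (fun _ => n) C)
    (hn : n ≤ M + 1) :
    VE P c t k (C1 g C) = (hs.map fun h' => h'.lam * vFH P c t h' k C).sum +
      (crit.toList.map fun c' => Lf (ts c') (b c' M) M (fun t' l => vFF P c t c' t' k l C)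
        (vFC P c t c' k C)).sum := by
  have := t.fin
  have e1 : VE P c t k (C1 g C) = vol P.rat xq (G2 (BE E t) Sum.inl (aE E c t k) g C) := rfl
  have e2 := two (M := M) (B := BE E t) P g hs crit ts b h1 h2
    (Constructible.comap (fun s => (Sum.inr s : E ⊕ t.σ)) hS) Sum.inl
    (rs_aE E c t k) (lo_aE E c t k n) hC hn
  rw [e1, e2]
  congr 1
  · congr 1
    refine List.map_congr_left fun h' hh' => ?_
    rw [id_EH P c t k h' (cons_h P g hs crit b h2 hh') hS hC]
    rfl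
  · congr 1
    refine List.map_congr_left fun c' hc' => ?_
    refine Lf_congr _ _ _ (fun t' ht' l _ => ?_) rfl
    rw [id_EE P c t k c' t' l hS (cons_t P g hs crit ts h1 hc' ht') hC]
    rfl

theorem st_T (h1 : HasD P g Set.univ true (exF hs crit ts))
    (h2 : HasD P g Set.univ false (tlF hs crit b)) (c : ℂ)
    {C : Set ((E → ℂ) × (Fin 2 → PowerSeries ℂ))} {n M : ℕ} (hC : IsCyl (fun _ => n) C)
    (hn : n ≤ M + 1) :
    VT P c (C1 g C) = (hs.map fun h' => h'.lam * vCH P c h' C).sum +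
      (crit.toList.map fun c' => Lf (ts c') (b c' M) M (fun t' l => vFC P c' t' c l (swC C))
        (P.rat.val {p : E → ℂ | (p, ![PowerSeries.C c, PowerSeries.C c']) ∈ C})).sum := by
  have e1 : VT P c (C1 g C) = vol P.rat xq (G2 Set.univ id (aT E c) g C) := by
    refine (vol_ren P (Equiv.refl _) (Equiv.emptySum Empty κ).symm
      (cy_ST c (cy_of (cyl_C1 g hC))) ?_).symm
    intro p x
    exact ⟨fun h => h.2, fun h => ⟨Set.mem_univ _, h⟩⟩
  have e2 := two (M := M) P g hs crit ts b h1 h2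
    (Constructible.univ : Constructible (Set.univ : Set (E → ℂ))) id
    (rs_aT E c) (lo_aT E c n) hC hn
  rw [e1, e2]
  congr 1
  · congr 1
    refine List.map_congr_left fun h' hh' => ?_
    rw [id_TH P c h' (cons_h P g hs crit b h2 hh') hC]
    rfl
  · congr 1
    refine List.map_congr_left fun c' hc' => ?_
    refine Lf_congr _ _ _ (fun t' ht' l _ => ?_) ?_
    · rw [id_TE P c c' t' l (cons_t P g hs crit ts h1 hc' ht') hC]
      rfl
    · rw [id_TT P c c' hC]
      rfl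

theorem muFH_eq (c : ℂ) (l : List Fam) (b : ℕ → K) (h' : HT)
    (C : Set ((E → ℂ) × (Fin 2 → PowerSeries ℂ))) (M : ℕ) :
    muFH P c ⟨l, b⟩ h' E C M =
      Lf l (b M) M (fun t k => h'.lam * vFH P c t h' k C) (h'.lam * vCH P c h' C) := by
  rw [Lf_smul]
  rfl

theorem muFF_eq (c : ℂ) (l : List Fam) (b : ℕ → K) (c' : ℂ) (l' : List Fam) (b' : ℕ → K)
    (C : Set ((E → ℂ) × (Fin 2 → PowerSeries ℂ))) (M : ℕ) :
    muFF P c ⟨l, b⟩ c' ⟨l', b'⟩ E C M = Lf l (b M) M
      (fun t k => Lf l' (b' M) M (fun t' j => vFF P c t c' t' k j C) (vFC P c t c' k C))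
      (Lf l' (b' M) M (fun t' j => vFC P c' t' c j (swC C))
        (P.rat.val {p : E → ℂ | (p, ![PowerSeries.C c, PowerSeries.C c']) ∈ C})) := by
  have e1 : ∀ k, (l.map fun t => t.κ k * (∑ j ∈ Finset.Icc 1 M, (l'.map fun t' =>
      t'.κ j * vFF P c t c' t' k j C).sum + b' M * vFC P c t c' k C)).sum =
      ∑ j ∈ Finset.Icc 1 M, (l.map fun t => (l'.map fun t' =>
        t.κ k * t'.κ j * vFF P c t c' t' k j C).sum).sum +
        (l.map fun t => t.κ k * b' M * vFC P c t c' k C).sum := by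
    intro k
    rw [sum_fin_list, ← List.sum_map_add]
    congr 1
    refine List.map_congr_left fun t _ => ?_
    rw [mul_add, Finset.mul_sum]
    congr 1
    · refine Finset.sum_congr rfl fun j _ => ?_
      rw [← List.sum_map_mul_left]
      congr 1
      refine List.map_congr_left fun t' _ => ?_
      ring
    · ring
  have e2 : b M * (∑ j ∈ Finset.Icc 1 M, (l'.map fun t' => t'.κ j *
      vFC P c' t' c j (swC C)).sum + b' M *
        P.rat.val {p : E → ℂ | (p, ![PowerSeries.C c, PowerSeries.C c']) ∈ C}) =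
      ∑ j ∈ Finset.Icc 1 M, (l'.map fun t' => b M * t'.κ j * vFC P c' t' c j (swC C)).sum +
        b M * b' M * P.rat.val {p : E → ℂ | (p, ![PowerSeries.C c, PowerSeries.C c']) ∈ C} := by
    rw [mul_add, Finset.mul_sum]
    congr 1
    · refine Finset.sum_congr rfl fun j _ => ?_
      rw [← List.sum_map_mul_left]
      congr 1
      refine List.map_congr_left fun t' _ => ?_
      ring
    · ring
  unfold Lf
  rw [e2, Finset.sum_congr rfl fun k _ => e1 k, Finset.sum_add_distrib]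
  unfold muFF
  ring

end asm

end TR7Aux

open TAAux TR7Aux in
theorem stmt_TR7 : Stmt_TR7 := by
  intro P ι κ _ _ f g hs hs' crit crit' ts ts' b b' hf1 hf2 hg1 hg2 E _ C n M hC hn
  have h0 := one P f hs crit ts b hf1 hf2 (cyl_C1 g hC) hn
  refine h0.trans ?_
  have e1 : (hs.map fun h => h.lam * VH P h (C1 g C)).sum =
      (hs.map fun h => (hs'.map fun h' => muHH P (pair h h') E C M).sum).sum +
      (crit'.toList.map fun c' => (hs.map fun h =>
        swM (muFH P c' ⟨ts' c', b' c'⟩ h) E C M).sum).sum := by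
    rw [sum_comm_list crit'.toList hs, ← List.sum_map_add]
    congr 1
    refine List.map_congr_left fun h hh => ?_
    exact st_H P g hs' crit' ts' b' hg1 hg2 h (cons_h P f hs crit b hf2 hh) hC hn
  have e2 : (crit.toList.map fun c => Lf (ts c) (b c M) M (fun t k => VE P c t k (C1 g C))
      (VT P c (C1 g C))).sum =
      (crit.toList.map fun c => (hs'.map fun h' => muFH P c ⟨ts c, b c⟩ h' E C M).sum).sum +
      (crit.toList.map fun c => (crit'.toList.map fun c' =>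
        muFF P c ⟨ts c, b c⟩ c' ⟨ts' c', b' c'⟩ E C M).sum).sum := by
    rw [← List.sum_map_add]
    congr 1
    refine List.map_congr_left fun c hc => ?_
    rw [Lf_congr (ts c) (b c M) M (fun t ht k _ => st_E P g hs' crit' ts' b' hg1 hg2 c t k
      (cons_t P f hs crit ts hf1 hc ht) hC hn) (st_T P g hs' crit' ts' b' hg1 hg2 c hC hn),
      Lf_add, Lf_list, Lf_list]
    congr 1
    · congr 1
      refine List.map_congr_left fun h' _ => ?_
      rw [muFH_eq]
    · congr 1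
      refine List.map_congr_left fun c' _ => ?_
      rw [muFF_eq]
  rw [e1, e2]
  ring

end Pool.Agent.Mono.BV
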