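import Pool.Agent.Work.Monodromy.Interface7V
import Pool.Agent.Work.Monodromy6.VF1

/-!
# Phase 7, volume part: block VF7 (helper34), adapted from VF1 (helper73)
-/

set_option autoImplicit false
set_option linter.unusedSectionVars false

namespace Pool.Agent.Mono.BV

open MvPolynomial TS RO RO.VGAux PC PC.VF1Aux

namespace VF7Aux

variable {E : Type} [Finite E]

theorem cy_NS7 (G : P2) {Q : Set ((E ⊕ Unit) ⊕ Unit → ℂ)} (hQ : Constructible Q) (k L m : ℕ) :
    Cy (NS7 G Q k L m) :=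
  Cy.and (Cy.not (Cy.zero (RF.par _))) (Cy.and (Cy.all_lt L fun l _ => Cy.zero (RF.arc () l))
    (PL.cy_lead hQ m id fun l => PL.RF.ev G k _ () l))

/-- the set in `c2a` -/
def R7 (u : P2) (Q : Set ((E ⊕ Unit) ⊕ Unit → ℂ)) : Set ((E ⊕ Unit) ⊕ Unit → ℂ) :=
  {z | z (Sum.inl (Sum.inr ())) ≠ 0 ∧ z (Sum.inr ()) ≠ 0 ∧
    (Sum.elim (fun e => z (Sum.inl e)) fun _ => eval ![z (Sum.inl (Sum.inr ())),
      z (Sum.inr ())] u) ∈ Q}

theorem c2a_haar (P : HodgeMeasure) (u : P2) (Q : Set ((E ⊕ Unit) ⊕ Unit → ℂ)) :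
    c2a P (haar 1) u Q = P.rat.val (R7 u Q) := by
  have e : {z : (E ⊕ Unit) ⊕ (haar 1).σ → ℂ | z (Sum.inl (Sum.inr ())) ≠ 0 ∧
      (fun s => z (Sum.inr s)) ∈ (haar 1).S ∧ (Sum.elim (fun e => z (Sum.inl e)) fun _ =>
        eval ![z (Sum.inl (Sum.inr ())), eval (fun s => z (Sum.inr s)) (haar 1).u] u) ∈ Q} =
      R7 u Q := by
    ext z
    have e1 : eval (fun s => z (Sum.inr s)) (haar 1).u = z (Sum.inr ()) := by
      have h0 : ∀ f : Unit → ℂ, eval f (X () : MvPolynomial Unit ℂ) = f () := fun f => eval_X _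
      exact h0 fun s => z (Sum.inr s)
    simp only [R7, Set.mem_ofPred_eq]
    rw [e1]
    rfl
  unfold c2a
  rw [e]
  rfl

theorem eval_pair {σ : Type} (z : σ → ℂ) (a b : σ) (u : P2) :
    eval z (aeval ![(X a : MvPolynomial σ ℂ), X b] u) = eval ![z a, z b] u := by
  induction u using MvPolynomial.induction_on with
  | C a => simp
  | add p q hp hq => rw [map_add, map_add, map_add, hp, hq]
  | mul_X p i hp =>
    rw [map_mul, map_mul, map_mul, hp, aeval_X, eval_X]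
    fin_cases i <;> simp

theorem con_R7 (u : P2) {Q : Set ((E ⊕ Unit) ⊕ Unit → ℂ)} (hQ : Constructible Q) :
    Constructible (R7 u Q) := by
  have h1 : Constructible {z : (E ⊕ Unit) ⊕ Unit → ℂ |
      (Sum.elim (fun e => z (Sum.inl e)) fun _ => eval ![z (Sum.inl (Sum.inr ())),
        z (Sum.inr ())] u) ∈ Q} := by
    have h := Constructible.preimage (fun j : (E ⊕ Unit) ⊕ Unit =>
      Sum.elim (fun e => (X (Sum.inl e) : MvPolynomial ((E ⊕ Unit) ⊕ Unit) ℂ))
        (fun _ => aeval ![X (Sum.inl (Sum.inr ())), X (Sum.inr ())] u) j) hQ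
    convert h using 1
    ext z
    have e : (Sum.elim (fun e => z (Sum.inl e)) fun _ => eval ![z (Sum.inl (Sum.inr ())),
        z (Sum.inr ())] u) =
        fun j : (E ⊕ Unit) ⊕ Unit => eval z (Sum.elim (fun e => (X (Sum.inl e) :
          MvPolynomial ((E ⊕ Unit) ⊕ Unit) ℂ)) (fun _ =>
            aeval ![X (Sum.inl (Sum.inr ())), X (Sum.inr ())] u) j) := by
      funext j
      rcases j with j | j
      · simp
      · simp only [Sum.elim_inr]
        exact (eval_pair z _ _ u).symm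
    simp only [Set.mem_ofPred_eq]
    rw [e]
  have h2 := TS.TKAux.cne (X (Sum.inl (Sum.inr ())) : MvPolynomial ((E ⊕ Unit) ⊕ Unit) ℂ)
  have h3 := TS.TKAux.cne (X (Sum.inr ()) : MvPolynomial ((E ⊕ Unit) ⊕ Unit) ℂ)
  simp only [eval_X] at h2 h3
  exact TS.TKAux.cand h2 (TS.TKAux.cand h3 h1)

variable {g h : P2} {p q k L A A₂ B : ℕ}

/-- the graph -/
def Gr7 (g h : P2) (Q : Set ((E ⊕ Unit) ⊕ Unit → ℂ)) (k L m A B l : ℕ) :
    Set (((E ⊕ Unit) ⊕ Unit → ℂ) × (Unit → PowerSeries ℂ)) :=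
  {z | ((fun e => z.1 (Sum.inl e)), z.2) ∈ NS7 (g ^ B * h) Q k L m ∧
    g.coeff (mon A 1) * z.1 (Sum.inl (Sum.inr ())) ^ A * z.1 (Sum.inr ()) =
      PowerSeries.coeff (k * A + l) (ev g k (z.1 (Sum.inl (Sum.inr ()))) (z.2 ()))}

theorem cy_Gr7 (g h : P2) {Q : Set ((E ⊕ Unit) ⊕ Unit → ℂ)} (hQ : Constructible Q)
    (k L m A B l : ℕ) : Cy (Gr7 g h Q k L m A B l) := by
  refine Cy.and ?_ ?_
  · exact Cy.pull (cy_NS7 (g ^ B * h) hQ k L m) (φ := fun s z => z.1 (Sum.inl s))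
      (fun s => RF.par _) id
  · refine Cy.eq ?_ (PL.RF.ev g k (Sum.inl (Sum.inr ())) () (k * A + l))
    have h1 : RF fun z : ((E ⊕ Unit) ⊕ Unit → ℂ) × (Unit → PowerSeries ℂ) =>
        MvPolynomial.eval (fun s => z.1 s)
          (C (g.coeff (mon A 1)) * X (Sum.inl (Sum.inr ())) ^ A * X (Sum.inr ()) :
            MvPolynomial ((E ⊕ Unit) ⊕ Unit) ℂ) := RF.eval (fun s => RF.par s) _
    simpa only [map_mul, map_pow, eval_C, eval_X] using h1

/-- arcs `0` up to the level `l` over the set in `c2a` -/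
def T7 (u : P2) (Q : Set ((E ⊕ Unit) ⊕ Unit → ℂ)) (l : ℕ) :
    Set (((E ⊕ Unit) ⊕ Unit → ℂ) × (Unit → PowerSeries ℂ)) :=
  {z | (∀ j < l + 1, PowerSeries.coeff j (z.2 ()) = 0) ∧ z.1 ∈ R7 u Q}

theorem cy_T7 (u : P2) {Q : Set ((E ⊕ Unit) ⊕ Unit → ℂ)} (hQ : Constructible Q) (l : ℕ) :
    Cy (T7 u Q l) :=
  Cy.and (Cy.all_lt (l + 1) fun j _ => Cy.zero (RF.arc () j)) (Cy.param (con_R7 u hQ))

theorem vol_NS_Gr7 (P : HodgeMeasure) {Q : Set ((E ⊕ Unit) ⊕ Unit → ℂ)} (hQ : QU Q)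
    (H : Hg g p q k L A) (m l : ℕ) :
    vol P.rat xq (Gr7 g h Q k L m A B l) = vol P.rat xq (NS7 (g ^ B * h) Q k L m) := by
  refine vol_base P (cy_Gr7 g h hQ.1 k L m A B l) (cy_NS7 _ hQ.1 k L m) Sum.inl ?_ ?_ ?_
  · intro z hz
    exact hz.1
  · rintro z ⟨⟨ha, -⟩, h2⟩ z' ⟨-, h2'⟩ h3 h4
    have e0 : z.1 (Sum.inl (Sum.inr ())) = z'.1 (Sum.inl (Sum.inr ())) :=
      congrFun h3 (Sum.inr ())
    have ha' : z.1 (Sum.inl (Sum.inr ())) ≠ 0 := ha
    rw [← h4, ← e0] at h2'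
    funext s
    rcases s with s | s
    · exact congrFun h3 s
    · have h5 : g.coeff (mon A 1) * z.1 (Sum.inl (Sum.inr ())) ^ A * z.1 (Sum.inr ()) =
          g.coeff (mon A 1) * z.1 (Sum.inl (Sum.inr ())) ^ A * z'.1 (Sum.inr ()) := by
        rw [h2, h2']
      exact mul_left_cancel₀ (mul_ne_zero H.c (pow_ne_zero _ ha')) h5
  · intro z hz
    have ha : z.1 (Sum.inr ()) ≠ 0 := hz.1
    refine ⟨Sum.elim z.1 fun _ =>
      PowerSeries.coeff (k * A + l) (ev g k (z.1 (Sum.inr ())) (z.2 ())) /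
        (g.coeff (mon A 1) * z.1 (Sum.inr ()) ^ A), ?_, ?_, ?_⟩
    · funext e
      rfl
    · exact hz
    · have hc := mul_ne_zero H.c (pow_ne_zero A ha)
      simp only [Sum.elim_inr, Sum.elim_inl]
      rw [mul_div_cancel₀ _ hc]

theorem vol_Gr_T7 (P : HodgeMeasure) {Q : Set ((E ⊕ Unit) ⊕ Unit → ℂ)} (hQ : QU Q)
    (H : Hg g p q k L A) (hB : 1 ≤ B) (hc : h.coeff (mon A₂ 0) ≠ 0) (h2 : Low p q (p * A₂) h)
    (l m : ℕ) (hl : L ≤ l) (hm : m = (B * A + A₂) * k + B * l) :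
    vol P.rat xq (Gr7 g h Q k L m A B l) = vol P.rat xq (T7 (uu g h A A₂ B) Q l) := by
  obtain ⟨N1, hN1⟩ := cy_Gr7 g h hQ.1 k L m A B l
  obtain ⟨N2, hN2⟩ := cy_T7 (uu g h A A₂ B) hQ.1 l
  set N := max N1 N2 with hN
  have key := CV.vol_cv P (K := fun _ : Unit => N) (K' := fun _ : Unit => N)
    (hN2 N (le_max_right _ _)) (hN1 N (le_max_left _ _))
    (fun _ x _ => PowerSeries.mk fun j => if j ≤ l then 0 else PowerSeries.coeff j (x ()))
    (fun s => if (s.2 : ℕ) ≤ l then 0 else X (Sum.inr s)) ?_ ?_ ?_ ?_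
  · have hx : (xq : K) ^ (∑ _ : Unit, N) ≠ 0 := pow_ne_zero _ (inv_ne_zero RatFunc.X_ne_zero)
    exact (mul_right_cancel₀ hx key).symm
  · intro pp x _ s
    simp only [PowerSeries.coeff_mk]
    split_ifs with h
    · simp
    · rw [eval_X]
      rfl
  · rintro pp x ⟨⟨ha, hw, hlead⟩, h4⟩
    have ha' : pp (Sum.inl (Sum.inr ())) ≠ 0 := ha
    refine ⟨fun j hj => ?_, ?_⟩
    · simp only [PowerSeries.coeff_mk]
      rw [if_pos (by omega)]
    · obtain ⟨l', hl', hm', h5, h6⟩ := (lead_iff hQ H hB hc h2 ha' (x ()) hw m _).1 hlead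
      have hll : l = l' := by
        have : B * l = B * l' := by omega
        exact Nat.eq_of_mul_eq_mul_left (by omega) this
      subst hll
      have h7 := hQ.2 _ h6
      have h4' : g.coeff (mon A 1) * pp (Sum.inl (Sum.inr ())) ^ A * pp (Sum.inr ()) =
        PowerSeries.coeff (k * A + l) (ev g k (pp (Sum.inl (Sum.inr ()))) (x ())) := h4
      rw [← h4'] at h6 h7
      refine ⟨ha', ?_, ?_⟩
      · intro h8
        have h8' : pp (Sum.inr ()) = 0 := h8
        apply h7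
        simp only [Sum.elim_inr]
        rw [h8', mul_zero, zero_pow (by omega), zero_mul]
      · rw [eval_uu g h A A₂ B (pp (Sum.inl (Sum.inr ()))) (pp (Sum.inr ()))
          ![pp (Sum.inl (Sum.inr ())), pp (Sum.inr ())] rfl rfl]
        exact h6
  · rintro pp x x' ⟨⟨ha, hw, hlead⟩, h4⟩ ⟨⟨-, hw', hlead'⟩, h4'⟩ h5
    have ha' : pp (Sum.inl (Sum.inr ())) ≠ 0 := ha
    obtain ⟨l1, -, hm1, h6, -⟩ := (lead_iff hQ H hB hc h2 ha' (x ()) hw m _).1 hlead
    obtain ⟨l2, -, hm2, h7, -⟩ := (lead_iff hQ H hB hc h2 ha' (x' ()) hw' m _).1 hlead'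
    have hl1 : l = l1 := Nat.eq_of_mul_eq_mul_left (by omega : 0 < B) (by omega)
    have hl2 : l = l2 := Nat.eq_of_mul_eq_mul_left (by omega : 0 < B) (by omega)
    subst hl1
    subst hl2
    have h8 := H.uniq ha' hw hw' (l + 1) (fun j hj => by
      rcases Nat.lt_or_ge j l with h | h
      · exact (h6 j h).trans (h7 j h).symm
      · have : j = l := by omega
        subst this
        exact h4.symm.trans h4')
    intro i j hj
    rcases Nat.lt_or_ge j (l + 1) with h | h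
    · exact h8 j h
    · have h9 := h5 () j hj
      simp only [PowerSeries.coeff_mk] at h9
      rw [if_neg (by omega), if_neg (by omega)] at h9
      exact h9
  · rintro pp y ⟨hy, ha, hb, hQ'⟩
    obtain ⟨w, h5, h6, h7⟩ := H.exist ha (y ())
      (fun j => if j < l then 0 else
        g.coeff (mon A 1) * pp (Sum.inl (Sum.inr ())) ^ A * pp (Sum.inr ()))
      (l + 1 - L)
    have h6l : PowerSeries.coeff (k * A + l) (ev g k (pp (Sum.inl (Sum.inr ()))) w) =
        g.coeff (mon A 1) * pp (Sum.inl (Sum.inr ())) ^ A * pp (Sum.inr ()) := by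
      rw [h6 l hl (by omega), if_neg (by omega)]
    have hdv := PowerSeries.X_pow_dvd_iff.1
      (H.dvd (pp (Sum.inl (Sum.inr ()))) (PowerSeries.X_pow_dvd_iff.2 h5))
    refine ⟨fun _ => w, ⟨⟨ha, h5, ?_⟩, h6l.symm⟩, ?_⟩
    · refine (lead_iff hQ H hB hc h2 ha w h5 m _).2 ⟨l, hl, hm, ?_, ?_⟩
      · intro j hj
        rcases Nat.lt_or_ge j L with h | h
        · exact hdv _ (by omega)
        · rw [h6 j h (by omega), if_pos hj]
      · have e := eval_uu g h A A₂ B (pp (Sum.inl (Sum.inr ()))) (pp (Sum.inr ()))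
          ![pp (Sum.inl (Sum.inr ())), pp (Sum.inr ())] rfl rfl
        rw [e] at hQ'
        have e2 : (Sum.elim (fun e => pp (Sum.inl e)) fun _ : Unit =>
            PowerSeries.coeff (k * A + l) (ev g k (pp (Sum.inl (Sum.inr ()))) w) ^ B *
              (h.coeff (mon A₂ 0) * pp (Sum.inl (Sum.inr ())) ^ A₂)) =
            Sum.elim (fun e => pp (Sum.inl e)) fun _ : Unit =>
              (g.coeff (mon A 1) * pp (Sum.inl (Sum.inr ())) ^ A * pp (Sum.inr ())) ^ B *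
                (h.coeff (mon A₂ 0) * pp (Sum.inl (Sum.inr ())) ^ A₂) := by
          rw [h6l]
        exact e2 ▸ hQ'
    · intro i j _
      simp only [PowerSeries.coeff_mk]
      split_ifs with h
      · exact (hy j (by omega)).symm
      · exact h7 j (by omega)

end VF7Aux

open VF7Aux in
theorem stmt_VF7 : Stmt_VF7 := by
  intro P g h p q A₁ A₂ B hp hB hg hlow hzero hh hlow2 E _ Q hQ k m hk
  set L := q * k / p + 1 with hL
  have H : Hg g p q k L A₁ := ⟨hp, hk, hL, hg, hlow, hzero⟩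
  have hval : ∀ l, L ≤ l → m = (B * A₁ + A₂) * k + B * l →
      vN7 P (g ^ B * h) Q k L m = xq ^ (l + 1) *
        c2a P (haar 1) (C (g.coeff (mon A₁ 1) ^ B * h.coeff (mon A₂ 0)) *
              X 0 ^ (B * A₁ + A₂) * X 1 ^ B) Q := by
    intro l hl hm
    rw [vN7, ← vol_NS_Gr7 (B := B) (h := h) P hQ H m l, vol_Gr_T7 P hQ H hB hh hlow2 l m hl hm,
      c2a_haar]
    exact PL.vol_pl0 P (con_R7 _ hQ.1) (l + 1)
  by_cases hex : ∃ l, L ≤ l ∧ m = (B * A₁ + A₂) * k + B * l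
  · obtain ⟨l, hl, hm⟩ := hex
    rw [hval l hl hm, Finset.sum_eq_single_of_mem l]
    · rw [if_pos hm]
    · rw [Finset.mem_Ioc]
      have h9 : l ≤ B * l := Nat.le_mul_of_pos_left _ (by omega)
      have h10 : q * k / p + 1 ≤ l := hl
      generalize q * k / p = t at h10
      constructor
      · omega
      · omega
    · intro l' _ hne
      rw [if_neg]
      intro hm'
      exact hne (Nat.eq_of_mul_eq_mul_left (by omega : 0 < B) (by omega))
  · rw [Finset.sum_eq_zero]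
    · rw [vN7]
      have e : NS7 (g ^ B * h) Q k L m = ∅ := by
        ext z
        simp only [Set.mem_empty_iff_false, iff_false]
        rintro ⟨ha, hw, hlead⟩
        obtain ⟨l, hl, hm, -⟩ := (lead_iff hQ H hB hh hlow2 ha (z.2 ()) hw m _).1 hlead
        exact hex ⟨l, hl, hm⟩
      rw [e]
      exact vol_empty P.rat (VAAux.L_mul P)
    · intro l hl
      rw [if_neg]
      intro hm
      exact hex ⟨l, by have := Finset.mem_Ioc.1 hl; omega, hm⟩

end Pool.Agent.Mono.BV
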