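import Pool.Agent.Work.Monodromy7.VL7
import Pool.Agent.Work.Monodromy6.VF0

/-!
# Block ZR7 (helper63): the arcs `(a t^k, 0)`
-/

set_option autoImplicit false
set_option linter.unusedSectionVars false

namespace Pool.Agent.Mono.BV

open MvPolynomial TS RO RO.VGAux PC PC.PL

theorem stmt_ZR7 : Stmt_ZR7 := by
  intro P G k hk E _ Q hQ m
  constructor
  · intro h
    have hset : {z : E ⊕ Unit → ℂ | z (Sum.inr ()) ≠ 0 ∧
        Lead Q m z (ev G k (z (Sum.inr ())) 0)} = ∅ := by
      rw [Set.eq_empty_iff_forall_notMem]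
      rintro z ⟨-, -, h2⟩
      have h3 := hQ.2 _ h2
      refine h3 ?_
      change PowerSeries.coeff m (ev G k (z (Sum.inr ())) 0) = 0
      have h4 : ev G k (z (Sum.inr ())) 0 = 0 := by
        rw [ev_eq]
        refine Finset.sum_eq_zero fun d hd => ?_
        rw [zero_pow (by have := h d hd; omega), mul_zero, mul_zero]
      rw [h4, map_zero]
    unfold e0
    rw [hset]
    exact X0.val_empty P.rat
  · intro A hA hmin
    have hv : ∀ d ∈ G.support, d ≠ mon A 0 →
        k * A + (k * A + 1) * 0 < k * d 0 + (k * A + 1) * d 1 := by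
      intro d hd hne
      rcases Nat.eq_zero_or_pos (d 1) with h0 | h0
      · have h2 : A ≤ d 0 := hmin d hd h0
        have h3 : A ≠ d 0 := fun h => hne (eq_mon h.symm h0)
        have h4 : A < d 0 := lt_of_le_of_ne h2 h3
        rw [h0, Nat.mul_zero, Nat.add_zero, Nat.add_zero]
        exact Nat.mul_lt_mul_of_pos_left h4 hk
      · have h5 : (k * A + 1) * 1 ≤ (k * A + 1) * d 1 := Nat.mul_le_mul_left _ h0
        omega
    have hord : ∀ z : E ⊕ Unit → ℂ, z (Sum.inr ()) ≠ 0 →
        (Lead Q m z (ev G k (z (Sum.inr ())) 0) ↔ m = A * k ∧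
          (Sum.elim z fun _ => G.coeff (mon A 0) * z (Sum.inr ()) ^ A) ∈ Q) := by
      intro z ha
      obtain ⟨h1, h2⟩ := ev_vertex G k (k * A + 1) A 0 (z (Sum.inr ())) 0 (fun j _ => by simp) hv
      rw [pow_zero, mul_one] at h2
      rw [Nat.mul_zero, Nat.add_zero] at h1 h2
      have h3 : PowerSeries.coeff (k * A) (ev G k (z (Sum.inr ())) 0) ≠ 0 := by
        rw [h2]
        exact mul_ne_zero hA (pow_ne_zero _ ha)
      rw [lead_of_ord hQ h1 h3 m, h2, Nat.mul_comm k A]
    unfold e0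
    by_cases hm : m = A * k
    · rw [if_pos hm]
      unfold c1a
      congr 1
      ext z
      constructor
      · rintro ⟨h1, h2⟩
        exact ⟨h1, ((hord z h1).1 h2).2⟩
      · rintro ⟨h1, h2⟩
        exact ⟨h1, (hord z h1).2 ⟨hm, h2⟩⟩
    · rw [if_neg hm]
      have hset : {z : E ⊕ Unit → ℂ | z (Sum.inr ()) ≠ 0 ∧
          Lead Q m z (ev G k (z (Sum.inr ())) 0)} = ∅ := by
        rw [Set.eq_empty_iff_forall_notMem]
        rintro z ⟨h1, h2⟩
        exact hm ((hord z h1).1 h2).1
      rw [hset]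
      exact X0.val_empty P.rat

end Pool.Agent.Mono.BV
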