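import Pool.Agent.Work.Monodromy7.RE7
import Pool.Agent.Work.Monodromy7.CN7
import Pool.Agent.Work.Monodromy7.ZR7
import Pool.Agent.Work.Monodromy7.RY7
import Pool.Agent.Work.Monodromy7.RC7
import Pool.Agent.Work.Monodromy7.VF7
import Pool.Agent.Work.Monodromy7.SH7
import Pool.Agent.Work.Monodromy7.HS7
import Pool.Agent.Work.Monodromy7.ST7
import Pool.Agent.Work.Monodromy7.RP7
import Pool.Agent.Work.Monodromy7.SW7
import Pool.Agent.Work.Monodromy7.MU7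
import Pool.Agent.Work.Monodromy7.SQ72
import Pool.Agent.Work.Monodromy7.SQ73
import Pool.Agent.Work.Monodromy7.SQ74
import Pool.Agent.Work.Monodromy7.SQ75
import Pool.Agent.Work.Monodromy7.L07
import Pool.Agent.Work.Monodromy7.GD7
import Pool.Agent.Work.Monodromy7.PT7
import Pool.Agent.Work.Monodromy7.TR7
import Pool.Agent.Work.Monodromy7.RA7
import Pool.Agent.Work.Monodromy7.HG7
import Pool.Agent.Work.Monodromy7.HM7
import Pool.Agent.Work.Monodromy7.FS7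
import Pool.Agent.Work.Monodromy7.FM7
import Pool.Agent.Work.Monodromy7.HH7
import Pool.Agent.Work.Monodromy7.FH7
import Pool.Agent.Work.Monodromy7.FF7
import Pool.Agent.Work.Monodromy7.GV7
import Pool.Agent.Work.Monodromy7.CO7
import Pool.Agent.Work.Monodromy7.PK7
import Pool.Agent.Work.Monodromy7.LM7

/-!
# Phase 7 (binary gates): the volume part (helper61)
-/

set_option autoImplicit false

namespace Pool.Agent.Mono.BV

theorem re7 : Stmt_RE7 :=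
  stmt_RE7 stmt_CN7 stmt_ZR7 stmt_RY7 stmt_VF7 stmt_SH7 stmt_HS7 stmt_ST7 stmt_SQ72 stmt_SQ73
    stmt_SQ74

theorem mu7 : Stmt_MU7 := stmt_MU7 stmt_SW7

theorem l07_of (hCO : Stmt_CO7) : Stmt_L07 :=
  stmt_L07 re7 stmt_RY7 stmt_RP7 stmt_ST7 stmt_SW7 stmt_HS7 mu7 stmt_CN7 stmt_ZR7 stmt_VF7 hCO
    stmt_SQ72 stmt_SQ73 stmt_SQ74

theorem pt7_of (hCO : Stmt_CO7) (hLM : Stmt_LM7) : Stmt_PT7 := stmt_PT7 (l07_of hCO) hLM mu7

theorem gv7_of (hCO : Stmt_CO7) (hLM : Stmt_LM7) : Stmt_GV7 :=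
  stmt_GV7 stmt_TR7 stmt_RA7 (stmt_HH7 stmt_RA7 (pt7_of hCO hLM) stmt_GD7 stmt_HG7 stmt_HM7)
    (stmt_FH7 stmt_RA7 stmt_SQ75 (pt7_of hCO hLM) stmt_GD7 stmt_FS7 stmt_FM7)
    (stmt_FF7 stmt_RA7 stmt_SQ75 (pt7_of hCO hLM) stmt_GD7)

theorem pk7 : Stmt_PK7 :=
  stmt_PK7 stmt_CN7 stmt_ZR7 stmt_RY7 stmt_RC7 stmt_VF7 stmt_SH7 stmt_HS7 stmt_ST7

theorem lm7 : Stmt_LM7 :=
  stmt_LM7 pk7 stmt_CN7 stmt_ZR7 stmt_RY7 stmt_RC7 stmt_VF7 stmt_HS7 stmt_ST7 stmt_RP7 stmt_SW7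
    mu7 stmt_CO7

/-- the volume part of phase 7 -/
theorem gv7 : Stmt_GV7 := gv7_of stmt_CO7 lm7

end Pool.Agent.Mono.BV
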