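import Pool.Agent.Work.Monodromy7.AV7

/-!
# Block COR7 (phase 7): the core of the witness part
-/

set_option autoImplicit false
set_option maxHeartbeats 400000

namespace Pool.Agent.Mono.BG

open MvPolynomial TS PC RO

namespace COR7Aux

/-! ### logarithmic derivatives -/

section

variable {R MM : Type} [CommRing R] [CommRing MM] [Algebra R MM] (D : Derivation R MM MM)

theorem dl_mul (x x' y y' : MM) (hx : x * x' = 1) (hy : y * y' = 1) :
    D (x * y) * (x' * y') = D x * x' + D y * y' := by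
  rw [D.leibniz, smul_eq_mul, smul_eq_mul]
  linear_combination (D y * y') * hx + (D x * x') * hy

theorem dl_pow (x x' : MM) (hx : x * x' = 1) (n : ℕ) :
    D (x ^ n) * x' ^ n = n * (D x * x') := by
  induction n with
  | zero => simp
  | succ n ih =>
    have h1 : x ^ n * x' ^ n = 1 := by rw [← mul_pow, hx, one_pow]
    rw [pow_succ, pow_succ, dl_mul D _ _ _ _ h1 hx, ih]
    push_cast
    ring

theorem dl_prod {ι : Type} (s : Finset ι) (f f' : ι → MM) (h : ∀ i ∈ s, f i * f' i = 1) :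
    D (∏ i ∈ s, f i) * (∏ i ∈ s, f' i) = ∑ i ∈ s, D (f i) * f' i := by
  classical
  induction s using Finset.induction_on with
  | empty => simp
  | insert a s ha ih =>
    have h2 : (∏ i ∈ s, f i) * (∏ i ∈ s, f' i) = 1 := by
      rw [← Finset.prod_mul_distrib]
      exact Finset.prod_eq_one fun i hi => h i (Finset.mem_insert_of_mem hi)
    rw [Finset.prod_insert ha, Finset.sum_insert ha, Finset.prod_insert ha,
      dl_mul D _ _ _ _ (h a (Finset.mem_insert_self _ _)) h2,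
      ih fun i hi => h i (Finset.mem_insert_of_mem hi)]

end

/-! ### the ring `MT S` -/

section

variable (S : Finset ℂ)

theorem DT_alg (F : Polynomial RT) :
    DT S (algebraMap (Polynomial RT) (MT S) F) =
      algebraMap (Polynomial RT) (MT S) (Polynomial.derivative F) :=
  locDer_algebraMap _ _ _

theorem DT_Y : DT S (YT S) = 1 := by
  unfold YT
  rw [DT_alg, Polynomial.derivative_X, map_one]

theorem algC (c : ℂ) : algebraMap ℂ (MT S) c =
    algebraMap (Polynomial RT) (MT S) (Polynomial.C (PowerSeries.C c)) := by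
  rw [IsScalarTower.algebraMap_apply ℂ (Polynomial RT) (MT S),
    IsScalarTower.algebraMap_apply ℂ RT (Polynomial RT)]
  rfl

theorem DT_C (c : ℂ) : DT S (algebraMap ℂ (MT S) c) = 0 := by
  rw [algC, DT_alg, Polynomial.derivative_C, map_zero]

theorem den_inv : algebraMap (Polynomial RT) (MT S) (denT S) *
    IsLocalization.Away.invSelf (denT S) = 1 := IsLocalization.Away.mul_invSelf (denT S)

theorem Y_Yi : YT S * YiT S = 1 := by
  unfold YT YiT
  rw [← mul_assoc, ← map_mul]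
  exact den_inv S

theorem Q_inv {P : ℂ} (hP : P ∈ S) : (YT S - algebraMap ℂ (MT S) P) * QT S P = 1 := by
  unfold YT QT
  rw [algC, ← map_sub, ← mul_assoc, ← map_mul]
  have h1 : (Polynomial.X - Polynomial.C (PowerSeries.C P)) * (Polynomial.X *
      ∏ P' ∈ S.erase P, (Polynomial.X - Polynomial.C (PowerSeries.C P'))) = denT S := by
    unfold denT
    rw [← Finset.mul_prod_erase S _ hP]
    ring
  rw [h1]
  exact den_inv S

end

/-! ### the edge polynomial -/

section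

variable {MM : Type} [CommRing MM] [Algebra ℂ MM]

theorem aeval_I (Y : MM) (I : Polynomial ℂ) :
    Polynomial.aeval Y I = algebraMap ℂ MM I.leadingCoeff *
      ∏ P ∈ I.roots.toFinset, (Y - algebraMap ℂ MM P) ^ I.rootMultiplicity P := by
  have h1 : I = Polynomial.C I.leadingCoeff *
      (I.roots.map fun y => Polynomial.X - Polynomial.C y).prod :=
    (IsAlgClosed.splits I).eq_prod_roots
  conv_lhs => rw [h1]
  rw [map_mul, Polynomial.aeval_C, map_multiset_prod, Multiset.map_map,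
    Finset.prod_multiset_map_count]
  congr 1
  refine Finset.prod_congr rfl fun P _ => ?_
  rw [Polynomial.count_roots]
  simp

end

theorem gam (I : Polynomial ℂ) (hI : I ≠ 0) (γ₀ : ℕ) :
    (YT I.roots.toFinset ^ γ₀ * Polynomial.aeval (YT I.roots.toFinset) I) *
      (YiT I.roots.toFinset ^ γ₀ * algebraMap ℂ (MT I.roots.toFinset) (I.leadingCoeff)⁻¹ *
        ∏ P ∈ I.roots.toFinset, QT I.roots.toFinset P ^ I.rootMultiplicity P) = 1 ∧
    DT I.roots.toFinset (YT I.roots.toFinset ^ γ₀ * Polynomial.aeval (YT I.roots.toFinset) I) *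
      (YiT I.roots.toFinset ^ γ₀ * algebraMap ℂ (MT I.roots.toFinset) (I.leadingCoeff)⁻¹ *
        ∏ P ∈ I.roots.toFinset, QT I.roots.toFinset P ^ I.rootMultiplicity P) =
      (γ₀ : MT I.roots.toFinset) * YiT I.roots.toFinset + ∑ P ∈ I.roots.toFinset,
        (I.rootMultiplicity P : MT I.roots.toFinset) * QT I.roots.toFinset P := by
  have hlc : I.leadingCoeff ≠ 0 := Polynomial.leadingCoeff_ne_zero.2 hI
  have h0 : YT I.roots.toFinset * YiT I.roots.toFinset = 1 := Y_Yi _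
  have h1 : YT I.roots.toFinset ^ γ₀ * YiT I.roots.toFinset ^ γ₀ = 1 := by
    rw [← mul_pow, h0, one_pow]
  have h2 : algebraMap ℂ (MT I.roots.toFinset) I.leadingCoeff *
      algebraMap ℂ (MT I.roots.toFinset) (I.leadingCoeff)⁻¹ = 1 := by
    rw [← map_mul, mul_inv_cancel₀ hlc, map_one]
  have h3 : ∀ P ∈ I.roots.toFinset, (YT I.roots.toFinset -
      algebraMap ℂ (MT I.roots.toFinset) P) ^ I.rootMultiplicity P *
      QT I.roots.toFinset P ^ I.rootMultiplicity P = 1 := fun P hP => by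
    rw [← mul_pow, Q_inv _ hP, one_pow]
  have h4 : (∏ P ∈ I.roots.toFinset, (YT I.roots.toFinset -
      algebraMap ℂ (MT I.roots.toFinset) P) ^ I.rootMultiplicity P) *
      (∏ P ∈ I.roots.toFinset, QT I.roots.toFinset P ^ I.rootMultiplicity P) = 1 := by
    rw [← Finset.prod_mul_distrib]
    exact Finset.prod_eq_one h3
  have h5 : DT I.roots.toFinset (YT I.roots.toFinset ^ γ₀) * YiT I.roots.toFinset ^ γ₀ =
      (γ₀ : MT I.roots.toFinset) * YiT I.roots.toFinset := by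
    rw [dl_pow _ _ _ h0, DT_Y, one_mul]
  have h6 : DT I.roots.toFinset (∏ P ∈ I.roots.toFinset, (YT I.roots.toFinset -
      algebraMap ℂ (MT I.roots.toFinset) P) ^ I.rootMultiplicity P) *
      (∏ P ∈ I.roots.toFinset, QT I.roots.toFinset P ^ I.rootMultiplicity P) =
      ∑ P ∈ I.roots.toFinset,
        (I.rootMultiplicity P : MT I.roots.toFinset) * QT I.roots.toFinset P := by
    rw [dl_prod _ _ _ _ h3]
    refine Finset.sum_congr rfl fun P hP => ?_
    rw [dl_pow _ _ _ (Q_inv _ hP), map_sub, DT_Y, DT_C, sub_zero, one_mul]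
  have h7 : algebraMap ℂ (MT I.roots.toFinset) I.leadingCoeff *
      (∏ P ∈ I.roots.toFinset, (YT I.roots.toFinset -
        algebraMap ℂ (MT I.roots.toFinset) P) ^ I.rootMultiplicity P) *
      (algebraMap ℂ (MT I.roots.toFinset) (I.leadingCoeff)⁻¹ *
      (∏ P ∈ I.roots.toFinset, QT I.roots.toFinset P ^ I.rootMultiplicity P)) = 1 := by
    linear_combination h4 + (∏ P ∈ I.roots.toFinset, (YT I.roots.toFinset -
      algebraMap ℂ (MT I.roots.toFinset) P) ^ I.rootMultiplicity P) *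
      (∏ P ∈ I.roots.toFinset, QT I.roots.toFinset P ^ I.rootMultiplicity P) * h2
  rw [aeval_I]
  constructor
  · linear_combination h7 + (algebraMap ℂ (MT I.roots.toFinset) I.leadingCoeff *
      (∏ P ∈ I.roots.toFinset, (YT I.roots.toFinset -
        algebraMap ℂ (MT I.roots.toFinset) P) ^ I.rootMultiplicity P) *
      (algebraMap ℂ (MT I.roots.toFinset) (I.leadingCoeff)⁻¹ *
      (∏ P ∈ I.roots.toFinset, QT I.roots.toFinset P ^ I.rootMultiplicity P))) * h1
  · rw [mul_assoc (YiT I.roots.toFinset ^ γ₀), dl_mul _ _ _ _ _ h1 h7, h5,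
      dl_mul _ _ _ _ _ h2 h4, h6, DT_C, zero_mul, zero_add]

/-! ### linear functions of the parameter -/

/-- `x + y t` -/
noncomputable def lin (x y : ℂ) : RT := PowerSeries.C x + PowerSeries.C y * PowerSeries.X

theorem lin_cc (x y : ℂ) : PowerSeries.constantCoeff (lin x y) = x := by
  unfold lin
  simp

theorem lin_c1 (x y : ℂ) : PowerSeries.coeff 1 (lin x y) = y := by
  unfold lin
  rw [map_add, PowerSeries.coeff_C, if_neg one_ne_zero, zero_add, PowerSeries.coeff_C_mul,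
    PowerSeries.coeff_one_X, mul_one]

theorem lin_add (x y x' y' : ℂ) : lin x y + lin x' y' = lin (x + x') (y + y') := by
  unfold lin
  rw [map_add, map_add]
  ring

theorem lin_nat_mul (n : ℕ) (x y : ℂ) : (n : RT) * lin x y = lin (n * x) (n * y) := by
  unfold lin
  rw [map_mul, map_mul, map_natCast]
  ring

theorem int_lin (d : ℤ) : (d : RT) = lin d 0 := by
  unfold lin
  rw [map_intCast, map_zero, zero_mul, add_zero]

theorem nat_lin (d : ℕ) : (d : RT) = lin d 0 := by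
  unfold lin
  rw [map_natCast, map_zero, zero_mul, add_zero]

theorem lin_neg_sub (x y : ℂ) : -lin x y - 1 = lin (-x - 1) (-y) := by
  unfold lin
  rw [map_sub, map_neg, map_neg, map_one]
  ring

theorem lin_ne_int {x y : ℂ} (hy : y ≠ 0) (d : ℤ) : lin x y ≠ (d : RT) := by
  intro h
  rw [int_lin] at h
  have h1 := congrArg (PowerSeries.coeff 1) h
  rw [lin_c1, lin_c1] at h1
  exact hy h1

theorem lin_ne_int0 {x y : ℂ} (d : ℤ) (hx : x ≠ d) : lin x y ≠ (d : RT) := by
  intro h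
  rw [int_lin] at h
  have h1 := congrArg PowerSeries.constantCoeff h
  rw [lin_cc, lin_cc] at h1
  exact hx h1

theorem lin_zero : lin 0 0 = 0 := by
  unfold lin
  simp

/-! ### the numbers -/

/-- the exponent at `Y = 0` is not an integer in the case `bR = 0`, `p ≥ 2`, `j = 0` -/
theorem not_int (p q p' q' aL d : ℕ) (z : ℤ) (M H i n k k' : ℕ) (be be' ga : ℚ)
    (hpq : p * q' = p' * q + 1) (hp : 2 ≤ p)
    (hn : ((p * aL + q * (0 + p * d) : ℕ) : ℤ) ∣ (p * M * k + (p * i + q * 0) * k' : ℤ) - n)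
    (hga : ((p * (M + H) + q : ℕ) : ℚ) + (p * M) * (-be - 1) + (p * i + q * 0 : ℕ) * (-be' - 1)
      + n + (p * aL + q * (0 + p * d) : ℕ) * ga = 0) :
    (p' * (aL + q * d) + q' * 0 : ℕ) * ga + (p' * M : ℕ) * (-be - 1) +
      (p' * i + q' * 0 : ℕ) * (-be' - 1) ≠ (z : ℚ) := by
  intro h
  have h1 : (p : ℚ) * z = -(p' * (p * (M + H) + q + n)) := by
    rw [← h]
    push_cast at hga ⊢
    linear_combination (p' : ℚ) * hga
  have h2 : (p : ℤ) * z = -(p' * (p * (M + H) + q + n)) := by exact_mod_cast h1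
  have h3 : (p : ℤ) ∣ n := by
    obtain ⟨c, hc⟩ := hn
    refine ⟨M * k + i * k' - (aL + q * d) * c, ?_⟩
    push_cast at hc
    linear_combination -hc
  obtain ⟨c, hc⟩ := h3
  have hpqZ : (p : ℤ) * q' = p' * q + 1 := by exact_mod_cast hpq
  have h4 : (p : ℤ) ∣ 1 := by
    refine ⟨q' + z + p' * (M + H) + p' * c, ?_⟩
    rw [hc] at h2
    linear_combination -hpqZ - h2
  have h5 : (p : ℤ) ≤ 1 := Int.le_of_dvd one_pos h4
  have h6 : p ≤ 1 := by exact_mod_cast h5
  omega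

theorem exists_res (N : ℕ) (hN : 1 ≤ N) (k₀ : ℤ) :
    ∃ k : ℕ, k < N ∧ (k₀ = 0 → k = 0) ∧ ∃ c : ℤ, k₀ = k + N * c := by
  have hN0 : (N : ℤ) ≠ 0 := by
    have : N ≠ 0 := by omega
    exact_mod_cast this
  have h1 := Int.emod_nonneg k₀ hN0
  have h2 := Int.emod_lt_of_pos k₀ (show (0 : ℤ) < N by exact_mod_cast hN)
  have h3 := Int.emod_add_mul_ediv k₀ N
  refine ⟨(k₀ % N).toNat, ?_, ?_, k₀ / N, ?_⟩
  · omega
  · intro h
    rw [h]
    simp
  · rw [Int.toNat_of_nonneg h1]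
    exact h3.symm

/-! ### the coordinate `b` along the divisor -/

theorem chart_Phi {M H e : ℕ} {Φ : Polynomial ℂ} (hc : Chart M H e Φ) : Φ.coeff 0 = 0 := by
  induction hc with
  | base Φ h => exact h
  | step hc p q hp hq hpq lam hl Θ ih =>
    rw [Polynomial.coeff_add, Polynomial.coeff_add, Polynomial.coeff_zero_eq_eval_zero,
      Polynomial.eval_comp, Polynomial.eval_pow, Polynomial.eval_X, zero_pow (by omega),
      ← Polynomial.coeff_zero_eq_eval_zero, ih, Polynomial.coeff_C_mul,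
      Polynomial.mul_coeff_zero, Polynomial.coeff_X_pow, Polynomial.coeff_X_pow,
      if_neg (by omega), if_neg (by omega)]
    ring

theorem chart_X0 (M H : ℕ) (Φ : Polynomial ℂ) : chartMap M H Φ (X 0) = X 0 ^ M := by
  unfold chartMap
  rw [aeval_X]
  rfl

theorem chart_X1 (M H : ℕ) (Φ : Polynomial ℂ) :
    chartMap M H Φ (X 1) = Polynomial.aeval (X 0 : P2) Φ + X 0 ^ H * X 1 := by
  unfold chartMap
  rw [aeval_X]
  rfl

/-- `b` vanishes along the divisor -/
theorem b_dvd {M H e : ℕ} {Φ : Polynomial ℂ} (hc : Chart M H e Φ) {MM : Type} [CommRing MM]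
    [Algebra ℂ MM] (Y : MM) (p q p' q' : ℕ) (hp : 1 ≤ p) (hq : 1 ≤ q) :
    ∃ B : PowerSeries MM, torR p q p' q' Y (chartMap M H Φ (X 1)) = PowerSeries.X ^ 1 * B := by
  have h0 := chart_Phi hc
  obtain ⟨Ψ, hΨ⟩ : Polynomial.X ∣ Φ := Polynomial.X_dvd_iff.2 h0
  have h1 : PowerSeries.X ^ 1 ∣ torR p q p' q' Y (chartMap M H Φ (X 1)) := by
    rw [chart_X1, map_add, hΨ, map_mul, map_mul, Polynomial.aeval_X, map_mul, map_pow,
      AV7Aux.tor_X0, AV7Aux.tor_X1]
    refine dvd_add ?_ ?_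
    · exact Dvd.dvd.mul_right (Dvd.dvd.mul_left (pow_dvd_pow _ hp) _) _
    · exact Dvd.dvd.mul_left (Dvd.dvd.mul_left (pow_dvd_pow _ hq) _) _
  obtain ⟨B, hB⟩ := h1
  exact ⟨B, hB⟩

end COR7Aux

open COR7Aux in
theorem stmt_COR7 (hRES : Stmt_RES7) (hLEX : Stmt_LEX7) (hAV : Stmt_AV7) (hT : Stmt_TOR7)
    (hSP : Stmt_SPEC7) : Stmt_COR7 := by
  intro G M H e Φ p q p' q' aL bR I tV i j cb lam lam' k₀ k₀' s₁ s₂ hc hp hq hpq hE he hV hV' hbe
    hbe' hs hT1 hT2
  have hM := AV7Aux.chart_M hc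
  have hd := hE.deg
  have hI0 := hE.coeff_zero
  have hI : I ≠ 0 := by
    intro h
    rw [h] at hI0
    simp at hI0
  have hq'1 : 1 ≤ q' := by
    rcases Nat.eq_zero_or_pos q' with h | h
    · rw [h] at hpq
      omega
    · exact h
  obtain ⟨N, hN⟩ : ∃ N, N = edgeN p q aL bR I := ⟨_, rfl⟩
  have hN' : N = p * aL + q * (bR + p * I.natDegree) := hN
  have hN1 : 1 ≤ N := by
    have h1 : 1 ≤ bR + p * I.natDegree := by
      have := Nat.mul_le_mul hp hd
      omega
    have h2 := Nat.mul_le_mul hq h1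
    omega
  obtain ⟨k, -, hk0, x, hx⟩ := exists_res N hN1 k₀
  obtain ⟨k', -, hk0', x', hx'⟩ := exists_res N hN1 k₀'
  obtain ⟨n, hnN, -, y, hy⟩ := exists_res N hN1 (p * M * k + (p * i + q * j) * k')
  obtain ⟨K, hK⟩ : ∃ K, (p' * i + q' * j) * k' + p' * n + p' * (M + H) + q' = K + 1 :=
    ⟨(p' * i + q' * j) * k' + p' * n + p' * (M + H) + q' - 1, by omega⟩
  obtain ⟨nb, hnb⟩ : ∃ nb, nb = p * i + q * j := ⟨_, rfl⟩
  obtain ⟨c₁, hc₁⟩ : ∃ c₁, c₁ = p' * i + q' * j := ⟨_, rfl⟩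
  obtain ⟨γ₀, hγ₀⟩ : ∃ γ₀, γ₀ = p' * (aL + q * I.natDegree) + q' * bR := ⟨_, rfl⟩
  obtain ⟨ν, hν⟩ : ∃ ν, ν = p * (M + H) + q := ⟨_, rfl⟩
  obtain ⟨n₁, hn₁⟩ : ∃ n₁, n₁ = p * M * s₁ + nb * s₂ := ⟨_, rfl⟩
  obtain ⟨be, hbedef⟩ : ∃ be : ℚ, be = -lam + k₀ := ⟨_, rfl⟩
  obtain ⟨be', hbe'def⟩ : ∃ be' : ℚ, be' = -lam' + k₀' := ⟨_, rfl⟩
  rw [← hbedef] at hbe
  rw [← hbe'def] at hbe'
  have hNQ : (0 : ℚ) < N := by exact_mod_cast hN1
  have hNC : (N : ℂ) ≠ 0 := by
    have : N ≠ 0 := by omega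
    exact_mod_cast this
  -- the exponent
  obtain ⟨z, hz⟩ : ∃ z : ℤ, (p * M * k₀ + nb * k₀' : ℤ) = n + N * z := by
    refine ⟨p * M * x + nb * x' + y, ?_⟩
    have hnbZ : (nb : ℤ) = p * i + q * j := by exact_mod_cast hnb
    rw [hx, hx', hnbZ]
    linear_combination hy
  obtain ⟨ga, hga⟩ : ∃ ga : ℚ, (ν : ℚ) + (p * M) * (-be - 1) + nb * (-be' - 1) + n + N * ga = 0 :=
    ⟨-((ν : ℚ) + (p * M) * (-be - 1) + nb * (-be' - 1) + n) / N, by
      field_simp
      ring⟩
  have hgar : ga = -(((p * (M + H) + q : ℕ) + p * M * (lam - 1) +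
      (p * i + q * j : ℕ) * (lam' - 1)) / (N : ℚ)) + z := by
    have hzQ : (p * M * k₀ + nb * k₀' : ℚ) = n + N * z := by exact_mod_cast hz
    rw [← hν, ← hnb]
    rw [hbedef, hbe'def] at hga
    have h1 : (N : ℚ) * ga = N * (-(((ν : ℚ) + p * M * (lam - 1) +
        nb * (lam' - 1)) / (N : ℚ)) + z) := by
      field_simp
      linear_combination hga + hzQ
    exact mul_left_cancel₀ hNQ.ne' h1
  have hνle : (p : ℚ) * M + nb ≤ ν := by
    cases tV with
    | true =>
      have h1 := (hV rfl).2.2.2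
      rw [← hnb, ← hν] at h1
      exact_mod_cast h1
    | false =>
      obtain ⟨h1, h2, -⟩ := hV' rfl
      have h3 : nb = 0 := by rw [hnb, h1, h2]; ring
      have h4 : p * M + nb ≤ ν := by
        rw [h3, hν]
        have : p * M ≤ p * (M + H) := Nat.mul_le_mul_left p (by omega)
        omega
      exact_mod_cast h4
  have hga0 : ga < 0 := by
    have h1 : (0 : ℚ) < (p * M) * (-be) := by
      have h2 : (0 : ℚ) < p := by exact_mod_cast hp
      have h3 : (0 : ℚ) < M := by exact_mod_cast hM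
      have h4 : 0 < -be := by linarith
      positivity
    have h5 : (0 : ℚ) ≤ nb * (-be') := by
      have h4 : 0 < -be' := by linarith
      positivity
    have h6 : (0 : ℚ) ≤ n := by positivity
    have h7 : (N : ℚ) * ga < 0 := by linarith
    by_contra h8
    push Not at h8
    have := mul_nonneg hNQ.le h8
    linarith
  refine ⟨ga, z, hga0, ?_, ?_⟩
  · rw [hgar, hN]
  -- the deformation
  obtain ⟨beT, hbeT⟩ : ∃ beT, beT = lin (be : ℂ) (-(s₁ : ℂ)) := ⟨_, rfl⟩
  obtain ⟨beT', hbeT'⟩ : ∃ beT', beT' = lin (be' : ℂ) (-(s₂ : ℂ)) := ⟨_, rfl⟩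
  obtain ⟨gaT, hgaT⟩ : ∃ gaT, gaT = lin (ga : ℂ) (-((n₁ : ℂ) / N)) := ⟨_, rfl⟩
  have hn₁0 : (n₁ : ℂ) ≠ 0 := by
    have h1 : 1 ≤ n₁ := by
      rw [hn₁, hnb]
      exact hs
    have : n₁ ≠ 0 := by omega
    exact_mod_cast this
  have hslope : -((n₁ : ℂ) / N) ≠ 0 := neg_ne_zero.2 (div_ne_zero hn₁0 hNC)
  have hgaC : (ν : ℂ) + (p * M) * (-(be : ℂ) - 1) + nb * (-(be' : ℂ) - 1) + n + N * (ga : ℂ) = 0 := by
    have h1 := congrArg (fun t : ℚ => (t : ℂ)) hga
    push_cast at h1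
    exact h1
  have hrel : (ν : RT) + ((p * M : ℕ) : RT) * (-beT - 1) + (nb : RT) * (-beT' - 1) + (n : RT) +
      (N : RT) * gaT = 0 := by
    rw [hbeT, hbeT', hgaT, lin_neg_sub, lin_neg_sub, lin_nat_mul, lin_nat_mul, lin_nat_mul,
      nat_lin ν, nat_lin n, lin_add, lin_add, lin_add, lin_add, ← lin_zero]
    congr 1
    · rw [← hgaC]
      push_cast
      ring
    · rw [hn₁]
      push_cast
      field_simp
      ring
  obtain ⟨a₀, ha₀⟩ : ∃ a₀ : RT, a₀ = (γ₀ : RT) * gaT + ((p' * M : ℕ) : RT) * (-beT - 1) +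
    (c₁ : RT) * (-beT' - 1) := ⟨_, rfl⟩
  obtain ⟨aP, haP⟩ : ∃ aP : ℂ → RT, aP = fun P => (I.rootMultiplicity P : RT) * gaT := ⟨_, rfl⟩
  obtain ⟨x₀, hx₀⟩ : ∃ x₀ : ℚ, x₀ = γ₀ * ga + (p' * M : ℕ) * (-be - 1) + c₁ * (-be' - 1) :=
    ⟨_, rfl⟩
  obtain ⟨σ₀, hσ₀⟩ : ∃ σ₀ : ℂ, (N : ℂ) * σ₀ = (N : ℂ) * (p' * M * s₁ + c₁ * s₂) - n₁ * γ₀ :=
    ⟨((N : ℂ) * (p' * M * s₁ + c₁ * s₂) - n₁ * γ₀) / N, by field_simp⟩
  have ha₀lin : a₀ = lin (x₀ : ℂ) σ₀ := by
    rw [ha₀, hbeT, hbeT', hgaT, lin_neg_sub, lin_neg_sub, lin_nat_mul, lin_nat_mul, lin_nat_mul,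
      lin_add, lin_add]
    congr 1
    · rw [hx₀]
      push_cast
      ring
    · apply mul_left_cancel₀ hNC
      rw [hσ₀]
      push_cast
      field_simp
      ring
  have hT0C : ((N : ℂ) * (p' * M * s₁ + c₁ * s₂) - n₁ * γ₀) =
      (((N : ℤ) * (p' * M * s₁ + c₁ * s₂) - n₁ * γ₀ : ℤ) : ℂ) := by push_cast; ring
  have hTsub : (N : ℤ) * (p' * M * s₁ + c₁ * s₂) - n₁ * γ₀ =
      ((edgeN p q aL bR I : ℤ) * (p' * M * s₁ + (p' * i + q' * j) * s₂) -
        (p * M * s₁ + (p * i + q * j) * s₂) * (p' * (aL + q * I.natDegree) + q' * bR)) := by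
    rw [hN, hc₁, hn₁, hγ₀, hnb]
    push_cast
    ring
  have hsumT : a₀ + ∑ P ∈ I.roots.toFinset, aP P =
      lin ((x₀ : ℂ) + I.natDegree * (ga : ℂ)) (σ₀ + I.natDegree * (-((n₁ : ℂ) / N))) := by
    have h1 : ∑ P ∈ I.roots.toFinset, aP P = (I.natDegree : RT) * gaT := by
      rw [haP, ← Finset.sum_mul, ← AV7Aux.sum_mult I]
      push_cast
      rfl
    rw [h1, ha₀lin, hgaT, lin_nat_mul, lin_add]
  have hcard : I.roots.toFinset.Nonempty := by
    rw [Finset.nonempty_iff_ne_empty]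
    intro h
    have h1 := AV7Aux.sum_mult I
    rw [h, Finset.sum_empty] at h1
    omega
  have h0S : (0 : ℂ) ∉ I.roots.toFinset := by
    intro h
    rw [Multiset.mem_toFinset, Polynomial.mem_roots hI, Polynomial.IsRoot,
      ← Polynomial.coeff_zero_eq_eval_zero] at h
    exact hI0 h
  have hc1 : ∀ P ∈ I.roots.toFinset, ∀ j : ℕ, 1 ≤ j → aP P ≠ j := by
    intro P hP j _ h
    rw [haP] at h
    change (I.rootMultiplicity P : RT) * gaT = j at h
    have h1 := AV7Aux.mult_pos hP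
    rw [hgaT, lin_nat_mul] at h
    refine lin_ne_int (mul_ne_zero ?_ hslope) (j : ℤ) (by rw [h]; push_cast; rfl)
    have : I.rootMultiplicity P ≠ 0 := by omega
    exact_mod_cast this
  have hc2 : ∀ d : ℤ, a₀ + ∑ P ∈ I.roots.toFinset, aP P ≠ d := by
    intro d
    rw [hsumT]
    apply lin_ne_int
    intro h
    apply hT1
    have h1 : (N : ℂ) * (σ₀ + I.natDegree * (-((n₁ : ℂ) / N))) = 0 := by rw [h, mul_zero]
    rw [mul_add, hσ₀, hT0C, hTsub] at h1
    have h2 : (N : ℂ) * (I.natDegree * (-((n₁ : ℂ) / N))) =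
        -((I.natDegree * (p * M * s₁ + (p * i + q * j) * s₂) : ℤ) : ℂ) := by
      rw [hn₁, hnb]
      push_cast
      field_simp
    rw [h2] at h1
    have h3 : (((edgeN p q aL bR I : ℤ) * (p' * M * s₁ + (p' * i + q' * j) * s₂) -
        (p * M * s₁ + (p * i + q * j) * s₂) * (p' * (aL + q * I.natDegree) + q' * bR) -
        I.natDegree * (p * M * s₁ + (p * i + q * j) * s₂) : ℤ) : ℂ) = ((0 : ℤ) : ℂ) := by
      push_cast at h1 ⊢
      linear_combination h1
    exact_mod_cast h3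
  have hc3 : (∀ d : ℤ, a₀ ≠ d) ∨ (a₀ = 0 ∧ K = 0 ∧ 2 ≤ I.roots.toFinset.card) := by
    rcases hT2 with h1 | h1 | h1
    · left
      intro d
      rw [ha₀lin]
      apply lin_ne_int
      intro h
      apply h1
      rw [← hTsub]
      rw [h, mul_zero, hT0C] at hσ₀
      exact_mod_cast hσ₀.symm
    · left
      intro d
      rw [ha₀lin]
      apply lin_ne_int0
      intro h
      obtain ⟨hb, hp2, hj⟩ := h1
      have h2 : x₀ = d := by exact_mod_cast h
      rw [hx₀, hγ₀, hc₁] at h2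
      rw [hj, hb] at h2
      refine not_int p q p' q' aL I.natDegree d M H i n k k' be be' ga hpq hp2 ?_ ?_ h2
      · refine ⟨y, ?_⟩
        rw [hb] at hN'
        rw [← hN']
        rw [hj] at hy
        push_cast at hy ⊢
        linear_combination hy
      · rw [hb] at hN'
        rw [hnb, hj] at hga
        rw [← hN', ← hν]
        exact hga
    · right
      obtain ⟨hb, hp1, hp'0, hq'1', hj, hcd⟩ := h1
      refine ⟨?_, ?_, hcd⟩
      · have h2 : γ₀ = 0 := by rw [hγ₀, hb, hp'0]; ring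
        have h3 : c₁ = 0 := by rw [hc₁, hp'0, hj]; ring
        rw [ha₀, h2, h3, hp'0]
        simp
      · rw [hp'0, hj, hq'1'] at hK
        omega
  obtain ⟨K', hK'⟩ := hAV (MT I.roots.toFinset) (YT I.roots.toFinset) (YiT I.roots.toFinset)
    (QT I.roots.toFinset) M H e Φ p q p' q' aL bR I i j k k' n K cb hc hp hq hpq hI0 hd he
    (Y_Yi _) (fun P hP => Q_inv _ hP) (fun hk => by
      cases tV with
      | true => exact ⟨(hV rfl).1, (hV rfl).2.2.1⟩
      | false => exact absurd (hk0' (hV' rfl).2.2.2.1) hk) ⟨y, by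
        rw [← hN]
        linear_combination hy⟩ (le_of_eq hK)
  obtain ⟨L, m, h, hL, -, hdeg, hLom⟩ := hLEX I.roots.toFinset a₀ aP K K' 0 hcard h0S hc1 hc2 hc3
  obtain ⟨t, ψ, φ, hψ, hφ⟩ := hK' m h hdeg
  -- the chart
  obtain ⟨σ, hσ⟩ : ∃ σ : P2 →ₐ[ℂ] PowerSeries (MT I.roots.toFinset),
      σ = (torR p q p' q' (YT I.roots.toFinset)).comp (chartMap M H Φ) := ⟨_, rfl⟩
  have hσv : ∀ F, σ F = torR p q p' q' (YT I.roots.toFinset) (chartMap M H Φ F) := fun F => by
    rw [hσ]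
    rfl
  obtain ⟨Γ, hΓ, hΓ0⟩ := hT.2.1 (MT I.roots.toFinset) (YT I.roots.toFinset) p q p' q' aL bR I _
    hpq hE
  have hJ := hT.2.2 RT (MT I.roots.toFinset) (DT I.roots.toFinset) (YT I.roots.toFinset) M H p q
    p' q' Φ (DT_Y _) hM hp hq hpq
  have hA : σ (X 0) = PowerSeries.X ^ (p * M) * PowerSeries.C (YT I.roots.toFinset ^ (p' * M)) := by
    rw [hσv, chart_X0, map_pow, AV7Aux.tor_X0, mul_pow, ← map_pow, ← pow_mul, ← pow_mul, mul_comm]
  have hYYi : YT I.roots.toFinset * YiT I.roots.toFinset = 1 := Y_Yi _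
  obtain ⟨nbR, B, iB, hnbR, hB, hB0, hrelB, hDB⟩ : ∃ (nbR : ℕ)
      (B : PowerSeries (MT I.roots.toFinset)) (iB : MT I.roots.toFinset), 1 ≤ nbR ∧
      σ (X 1) = PowerSeries.X ^ nbR * B ∧
      (if tV then PowerSeries.constantCoeff B * iB = 1 else beT' = -1) ∧
      (nbR : RT) * (-beT' - 1) = (nb : RT) * (-beT' - 1) ∧
      algebraMap RT (MT I.roots.toFinset) (-beT' - 1) *
        (DT I.roots.toFinset (PowerSeries.constantCoeff B) * iB) =
      algebraMap RT (MT I.roots.toFinset) (-beT' - 1) *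
        ((c₁ : MT I.roots.toFinset) * YiT I.roots.toFinset) := by
    cases tV with
    | true =>
      obtain ⟨hcb, h1, h2, -⟩ := hV rfl
      obtain ⟨B, hB, hB0⟩ := AV7Aux.tor_lead (MM := MT I.roots.toFinset) hT p q p' q'
        (YT I.roots.toFinset) _ cb i j h2
      rw [← hc₁] at hB0
      have h3 : algebraMap ℂ (MT I.roots.toFinset) cb *
          algebraMap ℂ (MT I.roots.toFinset) cb⁻¹ = 1 := by
        rw [← map_mul, mul_inv_cancel₀ hcb, map_one]
      have h4 : YT I.roots.toFinset ^ c₁ * YiT I.roots.toFinset ^ c₁ = 1 := by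
        rw [← mul_pow, hYYi, one_pow]
      refine ⟨nb, B, algebraMap ℂ (MT I.roots.toFinset) cb⁻¹ * YiT I.roots.toFinset ^ c₁, ?_, ?_,
        ?_, rfl, ?_⟩
      · rw [hnb]
        exact h1
      · rw [hσv, hB, hnb]
      · rw [if_pos rfl, hB0]
        linear_combination h4 + (YT I.roots.toFinset ^ c₁ * YiT I.roots.toFinset ^ c₁) * h3
      · rw [hB0, dl_mul _ _ _ _ _ h3 h4, DT_C, zero_mul, zero_add, dl_pow _ _ _ hYYi, DT_Y,
          one_mul]
    | false =>
      obtain ⟨-, -, h1, h2, h3⟩ := hV' rfl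
      have h4 : beT' = -1 := by
        rw [hbeT', hbe'def, h1, h2, h3]
        unfold lin
        push_cast
        simp
      obtain ⟨B, hB⟩ := b_dvd hc (YT I.roots.toFinset) p q p' q' hp hq
      refine ⟨1, B, 0, le_refl _, ?_, ?_, ?_, ?_⟩
      · rw [hσv, hB]
      · exact h4
      · rw [h4]
        ring
      · rw [h4]
        simp
  obtain ⟨hg1, hg2⟩ := gam I hI γ₀
  rw [← hγ₀] at hΓ0 hφ
  have hνp : ν - 1 = p * (M + H) + q - 1 := by rw [hν]
  obtain ⟨l, hl, hlψ⟩ := hRES RT (MT I.roots.toFinset) (DT I.roots.toFinset) L σ G true tV beT beT'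
    gaT N ν n (p * M) nbR (PowerSeries.C (YT I.roots.toFinset ^ (p' * M))) B Γ
    (PowerSeries.C ((M : MT I.roots.toFinset) *
      YT I.roots.toFinset ^ (p' * (M + H) + q' - 1)))
    (YiT I.roots.toFinset ^ (p' * M)) iB
    (YiT I.roots.toFinset ^ γ₀ * algebraMap ℂ (MT I.roots.toFinset) (I.leadingCoeff)⁻¹ *
        ∏ P ∈ I.roots.toFinset, QT I.roots.toFinset P ^ I.rootMultiplicity P)
    hN1 (by rw [hν]; omega) hnN (Nat.mul_pos hp hM) hnbR hA hB (by rw [hσv, hΓ, hN])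
    (by rw [hνp, hσv, hσv]; exact hJ) (by rw [hΓ0]; exact hg1)
    (by
      rw [if_pos rfl, PowerSeries.constantCoeff_C, ← mul_pow, hYYi, one_pow])
    hB0 (by rw [hrelB]; exact hrel)
    (by
      left
      intro h1
      refine lin_ne_int hslope (-1) (?_ : lin (ga : ℂ) (-((n₁ : ℂ) / N)) = ((-1 : ℤ) : RT))
      rw [← hgaT]
      push_cast
      linear_combination h1)
    (by
      intro g
      have h1 := hL g
      rw [← h1]
      congr 1
      unfold nabT
      rw [LinearMap.add_apply, LinearMap.mulLeft_apply, hDB, hΓ0, hg2,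
        PowerSeries.constantCoeff_C, dl_pow _ _ _ hYYi, DT_Y, one_mul, ha₀, haP]
      simp only [map_add, map_mul, map_natCast, Finset.mul_sum]
      have h2 : ∀ x : MT I.roots.toFinset, (DT I.roots.toFinset : MT I.roots.toFinset →ₗ[RT]
        MT I.roots.toFinset) x = DT I.roots.toFinset x := fun _ => rfl
      rw [h2]
      have h3 : ∀ P : ℂ, (I.rootMultiplicity P : MT I.roots.toFinset) *
          algebraMap RT (MT I.roots.toFinset) gaT * QT I.roots.toFinset P =
          algebraMap RT (MT I.roots.toFinset) gaT *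
            ((I.rootMultiplicity P : MT I.roots.toFinset) * QT I.roots.toFinset P) := fun P => by
        ring
      simp only [h3, ← Finset.mul_sum]
      ring)
  have hlt : l t ψ ≠ 0 := by
    rw [hlψ t ψ φ (by rw [hσv, hψ, hN])]
    refine mul_ne_zero ?_ ?_
    · rw [Finset.prod_ne_zero_iff]
      intro c _ h1
      refine lin_ne_int hslope (c : ℤ) (?_ : lin (ga : ℂ) (-((n₁ : ℂ) / N)) = ((c : ℤ) : RT))
      rw [← hgaT]
      push_cast
      linear_combination h1
    · rw [PowerSeries.constantCoeff_C, hφ]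
      exact hLom
  obtain ⟨l', hl', hne⟩ := hSP true tV beT beT' gaT G l hl ⟨t, fun h1 => hlt (by rw [h1]; rfl)⟩
  refine ⟨l', ?_, hne⟩
  rw [hbeT, hbeT', hgaT, lin_cc, lin_cc, lin_cc, hbedef, hbe'def] at hl'
  exact hl'

end Pool.Agent.Mono.BG
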