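import Pool.Agent.Work.Monodromy7.RESF
import Pool.Agent.Work.Monodromy6.EW6
import Pool.Agent.Work.Monodromy6.NV6
import Pool.Agent.Work.Monodromy6.CH6
import Pool.Agent.Work.Monodromy6.LF6
import Pool.Agent.Work.Monodromy6.JAC6

/-!
# Block EX7F: good edges, both coordinates free (the proof of `stmt_EW6`, functionals at the origin)
-/

set_option autoImplicit false
set_option linter.unusedSectionVars false

namespace Pool.Agent.Mono.BG

open MvPolynomial TS PC RO

namespace EX7FAux

theorem chart_zero {M H e : ℕ} {Φ : Polynomial ℂ} (hc : Chart M H e Φ) : Φ.coeff 0 = 0 := by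
  induction hc with
  | base Φ h => exact h
  | step hc p q hp hq hpq lam hl Θ ih =>
    rw [Polynomial.coeff_zero_eq_eval_zero] at ih ⊢
    rw [Polynomial.eval_add, Polynomial.eval_add, Polynomial.eval_comp, Polynomial.eval_mul,
      Polynomial.eval_mul, Polynomial.eval_pow, Polynomial.eval_pow, Polynomial.eval_pow,
      Polynomial.eval_X, zero_pow (by omega), ih, zero_pow (by omega), zero_pow (by omega)]
    simp

theorem const_toric0 (p q p' q' : ℕ) (hp : 1 ≤ p) (hq : 1 ≤ q) (y₁ : ℂ) (F : P2) :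
    PowerSeries.constantCoeff (toric p q p' q' y₁ F) = RatFunc.C (eval 0 F) := by
  have h0 : ∀ i : Fin 2, PowerSeries.constantCoeff (toric p q p' q' y₁ (X i)) = 0 := by
    intro i
    fin_cases i
    · change PowerSeries.constantCoeff (toric p q p' q' y₁ (X 0)) = 0
      unfold toric
      rw [aeval_X]
      simp [zero_pow (by omega : p ≠ 0)]
    · change PowerSeries.constantCoeff (toric p q p' q' y₁ (X 1)) = 0
      unfold toric
      rw [aeval_X]
      simp [zero_pow (by omega : q ≠ 0)]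
  induction F using MvPolynomial.induction_on with
  | C a =>
    rw [EWB.toric_C, PowerSeries.constantCoeff_C, eval_C]
  | add F G hF hG => rw [map_add, map_add, hF, hG, map_add, map_add]
  | mul_X F i hF =>
    rw [map_mul, map_mul, h0, mul_zero, map_mul, eval_X, Pi.zero_apply, mul_zero, map_zero]

theorem const_zero (p q p' q' : ℕ) (hp : 1 ≤ p) (hq : 1 ≤ q) (y₁ : ℂ) (M H : ℕ) (hM : 1 ≤ M)
    (Φ : Polynomial ℂ) (hΦ : Φ.coeff 0 = 0) (i : Fin 2) :
    PowerSeries.constantCoeff (toric p q p' q' y₁ (chartMap M H Φ (X i))) = 0 := by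
  rw [const_toric0 p q p' q' hp hq]
  have h1 : eval 0 (chartMap M H Φ (X i)) = 0 := by
    fin_cases i
    · change eval 0 (chartMap M H Φ (X 0)) = 0
      unfold chartMap
      rw [aeval_X]
      simp [zero_pow (by omega : M ≠ 0)]
    · change eval 0 (chartMap M H Φ (X 1)) = 0
      unfold chartMap
      rw [aeval_X]
      have h2 : eval (0 : Fin 2 → ℂ) (Polynomial.aeval (X 0 : P2) Φ) = 0 := by
        have h3 := Polynomial.hom_eval₂ Φ (algebraMap ℂ P2) (eval (0 : Fin 2 → ℂ)) (X 0)
        rw [Polynomial.aeval_def, h3, eval_X, Pi.zero_apply, Polynomial.eval₂_at_zero, hΦ, map_zero]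
      change eval 0 (Polynomial.aeval (X 0 : P2) Φ + X 0 ^ H * X 1) = 0
      rw [map_add, h2, map_mul, eval_X, Pi.zero_apply, mul_zero, add_zero]
  rw [h1, map_zero]

open EWB in
theorem ex7f (hNV : Stmt_NV6) (hRES : Stmt_RESF) (hCH : Stmt_CH6) (hLF : Stmt_LF6)
    (hJ : Stmt_JAC6) : Stmt_EX7F := by
  rintro f r ⟨M, H, e, Φ, p, q, aL, bR, I, hc, hE, heb, hsp, hr⟩
  have hΦ0 := chart_zero hc
  let α : P2 ≃ₐ[ℂ] P2 := AlgEquiv.refl
  obtain ⟨_, _, hM, hKe⟩ := hCH M H e Φ hc
  obtain ⟨p', q', hpq⟩ := EWAux.exists_pq p q hE.hp hE.hq hE.cop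
  have hp := hE.hp
  have hq := hE.hq
  have hI : I ≠ 0 := by
    intro h
    have := hE.deg
    rw [h] at this
    simp at this
  obtain ⟨y₁, hroot⟩ : ∃ y, I.IsRoot y := by
    apply IsAlgClosed.exists_root
    rw [Polynomial.degree_eq_natDegree hI]
    have := hE.deg
    intro h
    have h1 : I.natDegree = 0 := by exact_mod_cast h
    omega
  have hy : y₁ ≠ 0 := by
    intro h
    rw [h, Polynomial.IsRoot, ← Polynomial.coeff_zero_eq_eval_zero] at hroot
    exact hE.coeff_zero hroot
  set n := I.natDegree with hn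
  set K := M + H with hK
  have hN : edgeN p q aL bR I = p * aL + q * (bR + p * n) := rfl
  set N := edgeN p q aL bR I with hNdef
  have hn1 : 1 ≤ n := hE.deg
  have hbL : 1 ≤ bR + p * n := by nlinarith
  have hqbL : bR + p * n ≤ q * (bR + p * n) := Nat.le_mul_of_pos_left _ hq
  have hN1 : 1 ≤ N := by
    rw [hN]
    omega
  have hK1 : 1 ≤ K := by omega
  set ν := p * K + q with hν
  set ν' := p' * K + q' with hν'
  set A := p' * aL + q' * bR + p' * q * n with hA
  have hq'1 : 1 ≤ q' := by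
    rcases Nat.eq_zero_or_pos q' with h | h
    · rw [h] at hpq
      omega
    · exact h
  have hν'1 : 1 ≤ ν' := by omega
  have hNQ : (0 : ℚ) < N := by exact_mod_cast hN1
  have hνQ : (0 : ℚ) < ν := by
    have : 0 < ν := by omega
    exact_mod_cast this
  have hr0 : 0 < r := by
    rw [hr]
    exact div_pos hνQ hNQ
  set α₀ : ℚ := ν' - r * A with hα₀
  set αi : ℚ := r * ((A : ℚ) + n) - ν' with hαi
  have f0 : (p : ℚ) * α₀ = 1 - bR * r := by
    have := al0 (K := K) (aL := aL) (bR := bR) (n := n) (q := q) (p' := p') (q' := q') hp hpq N hN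
      hN1
    rw [hα₀, hr]
    exact this
  have fi : (N : ℚ) * αi = K * ((bR : ℚ) + p * n) - aL := by
    have := alinf (K := K) (aL := aL) (bR := bR) (n := n) (p := p) (p' := p') (q' := q') hpq N hN
      hN1 hq
    rw [hαi, hr]
    exact this
  have hNQ' : (N : ℚ) = p * aL + q * (bR + p * n) := by
    rw [hN]
    push_cast
    ring
  have g3 : ¬ (2 ≤ p ∨ 1 ≤ bR) → α₀ = 1 := by
    intro h
    have hp1 : p = 1 := by omega
    have hb0 : bR = 0 := by omega
    rw [hp1, hb0] at f0
    push_cast at f0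
    linarith
  have g4 : ¬ (2 ≤ q ∨ 1 ≤ aL) → αi = 1 := by
    intro h
    have hq1 : q = 1 := by omega
    have ha0 : aL = 0 := by omega
    have he0 : e = 0 := by
      rw [ha0] at heb
      rcases Nat.eq_zero_or_pos e with h0 | h0
      · exact h0
      · have := Nat.mul_le_mul h0 hbL
        omega
    have hK' : K = 1 := by omega
    rw [hK', ha0] at fi
    rw [hq1, ha0] at hNQ'
    push_cast at fi hNQ'
    have h5 : (N : ℚ) * αi = N * 1 := by
      rw [fi, hNQ']
      ring
    exact mul_left_cancel₀ hNQ.ne' h5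
  have l3 : (2 ≤ p ∨ 1 ≤ bR) → α₀ < 1 := by
    intro h
    have hpQ : (1 : ℚ) ≤ p := by exact_mod_cast hp
    have hb : (0 : ℚ) ≤ bR * r := by positivity
    by_contra h1
    push Not at h1
    rcases h with h | h
    · have : (2 : ℚ) ≤ p := by exact_mod_cast h
      nlinarith
    · have : (1 : ℚ) ≤ bR := by exact_mod_cast h
      nlinarith
  have l4 : (2 ≤ q ∨ 1 ≤ aL) → αi < 1 := by
    intro h
    have h1 : K * (bR + p * n) < aL + N := by
      have h2 : K * (bR + p * n) ≤ (e + 1) * (bR + p * n) := Nat.mul_le_mul_right _ hKe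
      have h3 : (e + 1) * (bR + p * n) ≤ aL + (bR + p * n) := by
        have : (e + 1) * (bR + p * n) = e * (bR + p * n) + (bR + p * n) := by ring
        omega
      have h4 : bR + p * n < N := by
        rw [hN]
        rcases h with h | h
        · have := Nat.mul_le_mul h (le_refl (bR + p * n))
          omega
        · have := Nat.mul_le_mul hp h
          omega
      omega
    have h2 : (K : ℚ) * ((bR : ℚ) + p * n) < aL + N := by exact_mod_cast h1
    have h3 : (N : ℚ) * αi < N * 1 := by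
      rw [fi]
      linarith
    exact lt_of_mul_lt_mul_left h3 hNQ.le
  have hT0 : ∀ y ∈ I.roots.toFinset.erase y₁, y ≠ 0 := by
    intro y hy' h
    rw [h] at hy'
    have h3 := Multiset.mem_toFinset.1 (Finset.mem_of_mem_erase hy')
    rw [Polynomial.mem_roots hI, Polynomial.IsRoot, ← Polynomial.coeff_zero_eq_eval_zero] at h3
    exact hE.coeff_zero h3
  -- the exponents are smaller than one
  have hlt : ∀ P ∈ SS y₁ I (2 ≤ p ∨ 1 ≤ bR) (2 ≤ q ∨ 1 ≤ aL), aa y₁ I r α₀ αi P < 1 := by
    intro P hP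
    unfold SS at hP
    rw [Finset.mem_union, Finset.mem_union, Finset.mem_image] at hP
    rcases hP with (⟨y, hy1, rfl⟩ | hP) | hP
    · rw [aa_ps (Finset.ne_of_mem_erase hy1) (hT0 y hy1)]
      have h1 : 1 ≤ I.roots.count y :=
        Multiset.one_le_count_iff_mem.2 (Multiset.mem_toFinset.1 (Finset.mem_of_mem_erase hy1))
      have h2 : (1 : ℚ) ≤ (I.roots.count y : ℚ) := by exact_mod_cast h1
      nlinarith
    · split_ifs at hP with hc1
      · rw [Finset.mem_singleton.1 hP, aa_ps0 hy]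
        exact l3 hc1
      · exact absurd hP (Finset.notMem_empty _)
    · split_ifs at hP with hc2
      · rw [Finset.mem_singleton.1 hP, aa_zero]
        exact l4 hc2
      · exact absurd hP (Finset.notMem_empty _)
  have hmem : y₁ ∈ I.roots.toFinset := by
    rw [Multiset.mem_toFinset, Polynomial.mem_roots hI]
    exact hroot
  have hcardT : (I.roots.toFinset.erase y₁).card + 1 = I.roots.toFinset.card :=
    Finset.card_erase_add_one hmem
  have hcard : (SS y₁ I (2 ≤ p ∨ 1 ≤ bR) (2 ≤ q ∨ 1 ≤ aL)).card + 1 = special p q aL bR I := by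
    rw [Finset.card_eq_sum_ones, sum_SS y₁ hy I hE.coeff_zero, ← Finset.card_eq_sum_ones]
    unfold special
    omega
  have hcond : 2 ≤ (SS y₁ I (2 ≤ p ∨ 1 ≤ bR) (2 ≤ q ∨ 1 ≤ aL)).card ∨
      ∃ (P : ℂ) (k : ℕ), SS y₁ I (2 ≤ p ∨ 1 ≤ bR) (2 ≤ q ∨ 1 ≤ aL) = {P} ∧
        aa y₁ I r α₀ αi P = -(k : ℚ) := by
    rcases hsp with hsp | ⟨hp1, hq1, ha0, hb0, hn2, hr2⟩
    · left
      omega
    · right
      have hc1 : ¬ (2 ≤ p ∨ 1 ≤ bR) := by omega
      have hc2 : ¬ (2 ≤ q ∨ 1 ≤ aL) := by omega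
      have hT1 : (I.roots.toFinset.erase y₁).card = 1 := by omega
      obtain ⟨y, hyT⟩ := Finset.card_eq_one.1 hT1
      have hyT' : y ∈ I.roots.toFinset.erase y₁ := by
        rw [hyT]
        exact Finset.mem_singleton_self y
      refine ⟨ps y₁ y, 0, ?_, ?_⟩
      · unfold SS
        rw [if_neg hc1, if_neg hc2, hyT]
        simp
      · rw [aa_ps (Finset.ne_of_mem_erase hyT') (hT0 y hyT')]
        have he0 : e = 0 := by
          rw [ha0] at heb
          rcases Nat.eq_zero_or_pos e with h0 | h0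
          · exact h0
          · have := Nat.mul_le_mul h0 hbL
            omega
        have hK' : K = 1 := by omega
        have hr1 : r = 1 := by
          rw [hr, hN, hν, hK', hp1, hq1, ha0, hb0, hn2]
          norm_num
        have hcount : I.roots.count y = 1 := by
          have h1 : I.roots.card = n := (Polynomial.splits_iff_card_roots).1 (IsAlgClosed.splits I)
          have h2 : I.roots.toFinset.card = I.roots.card := by rw [hr2, h1, hn2]
          have h3 : I.roots.Nodup := by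
            rw [← Multiset.dedup_card_eq_card_iff_nodup]
            exact h2
          exact Multiset.count_eq_one_of_mem h3
            (Multiset.mem_toFinset.1 (Finset.mem_of_mem_erase hyT'))
        rw [hr1, hcount]
        norm_num
  obtain ⟨h, hh⟩ := hNV (SS y₁ I (2 ≤ p ∨ 1 ≤ bR) (2 ≤ q ∨ 1 ≤ aL)) (aa y₁ I r α₀ αi)
    (fun P hP k hk hk' => by
      have h1 := hlt P hP
      rw [hk'] at h1
      have h2 : (1 : ℚ) ≤ k := by exact_mod_cast hk
      linarith) hcond
  set D := h.natDegree with hD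
  set j := p * (p * e + q) * (D + 1) with hj
  have hpe : 1 ≤ p * (p * e + q) := by
    have h1 : 1 ≤ p * e + q := by omega
    exact le_trans (by norm_num) (Nat.mul_le_mul hp h1)
  have hDj : D ≤ j := by
    have := Nat.mul_le_mul hpe (le_refl (D + 1))
    omega
  obtain ⟨P, hPdeg, hPval⟩ := numerator y₁ I h hroot hE.deg j hDj
  rw [← hn] at hPdeg
  -- the Jacobian
  obtain ⟨cJ, hcJ, hcJ'⟩ := hJ.2 α
  have hMC : (M : ℂ) ≠ 0 := by
    have : M ≠ 0 := by omega
    exact_mod_cast this
  set κ : ℂ := y₁ / (cJ * -(M : ℂ)) with hκ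
  have hκ' : κ * (cJ * -(M : ℂ)) = y₁ := div_mul_cancel₀ _ (mul_ne_zero hcJ (neg_ne_zero.2 hMC))
  obtain ⟨φ₀, φ', hφ, hφ'⟩ := lead hLF hc p q p' q' hp hq hpq y₁ (N * (D + 1))
    (Polynomial.C κ * (Polynomial.X ^ ((p * e + q) * (D + 1) * bR) * P)) (by
      refine (Polynomial.natDegree_C_mul_le _ _).trans ((Polynomial.natDegree_mul_le).trans ?_)
      rw [Polynomial.natDegree_X_pow]
      have h1 : (p * e + q) * (D + 1) * bR + n * j = ((p * e + q) * (bR + p * n)) * (D + 1) := by
        rw [hj]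
        ring
      have h2 : (p * e + q) * (bR + p * n) ≤ N := by
        have h3 := Nat.mul_le_mul_left p heb
        have h4 : (p * e + q) * (bR + p * n) = p * (e * (bR + p * n)) + q * (bR + p * n) := by ring
        rw [hN, h4]
        omega
      calc (p * e + q) * (D + 1) * bR + P.natDegree ≤ (p * e + q) * (D + 1) * bR + n * j := by
            omega
        _ ≤ N * (D + 1) := by
            rw [h1]
            exact Nat.mul_le_mul_right _ h2)
  obtain ⟨G, hG, hG0⟩ := toric_expand hE p' q' hpq y₁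
  have hYY := YY_ne y₁
  have hG0' : PowerSeries.constantCoeff G = YY y₁ ^ A * Polynomial.aeval (YY y₁) I := hG0
  have hGne : PowerSeries.constantCoeff G ≠ 0 := by
    rw [hG0']
    exact mul_ne_zero (pow_ne_zero _ hYY) (aeval_ne y₁ hI)
  have hval : PowerSeries.constantCoeff φ' = RatFunc.C κ * algebraMap (Polynomial ℂ) KZ h *
      (YY y₁ ^ A * Polynomial.aeval (YY y₁) I) ^ j := by
    rw [hφ', map_mul, map_mul, map_pow, Polynomial.aeval_X, Polynomial.aeval_C, ← Cmap, hPval]
    have h1 : p' * (p * e + q) * (N * (D + 1)) + (p * e + q) * (D + 1) * bR = A * j := by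
      have h2 : p * A = p' * N + bR := by
        rw [hN, hA]
        exact num_A hpq
      calc p' * (p * e + q) * (N * (D + 1)) + (p * e + q) * (D + 1) * bR
          = (p' * N + bR) * ((p * e + q) * (D + 1)) := by ring
        _ = A * j := by
          rw [← h2, hj]
          ring
    rw [mul_pow, ← pow_mul (YY y₁) A j, ← h1, pow_add]
    ring
  set σ : P2 →ₐ[ℂ] PowerSeries KZ :=
    ((toric p q p' q' y₁).comp (chartMap M H Φ)).comp (α : P2 →ₐ[ℂ] P2) with hσ
  have hσv : ∀ F : P2, σ F = toric p q p' q' y₁ (chartMap M H Φ (α F)) := fun F => rfl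
  have hJσ : jac σ = PowerSeries.X ^ (ν - 1) * (PowerSeries.C (RatFunc.C cJ) * PowerSeries.C
      (-(M : KZ) * YY y₁ ^ (ν' - 1) * (ZZ⁻¹) ^ 2)) := by
    rw [hσ, hcJ', hJ.1 M H p q p' q' Φ y₁ hM hp hq hpq]
    ring
  rw [hr]
  refine hRES f σ (fun i => ?_) N ν j G _ φ' (α.symm φ₀) hN1 (by omega) ?_ hGne hJσ ?_ ?_
  · rw [hσv]
    exact const_zero p q p' q' hp hq y₁ M H hM Φ hΦ0 i
  · rw [hσv]
    exact hG
  · rw [hσv, α.apply_symm_apply, hφ]
    congr 2
    rw [hj]
    ring
  · intro g hg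
    have hrC : ((r : ℚ) : ℂ) = (ν : ℂ) / (N : ℂ) := by
      rw [hr]
      push_cast
      rfl
    have hgauge := gauge y₁ hy I hE.coeff_zero hroot A ν' (2 ≤ p ∨ 1 ≤ bR) (2 ≤ q ∨ 1 ≤ aL) r α₀ αi
      hα₀ hαi g3 g4
    rw [hrC, ← hG0'] at hgauge
    have hU : (YY y₁ ^ ν')⁻¹ * (ZZ * (ZZ - RatFunc.C (ps y₁ 0))) *
        ∏ P ∈ SS y₁ I (2 ≤ p ∨ 1 ≤ bR) (2 ≤ q ∨ 1 ≤ aL), (ZZ - RatFunc.C P)⁻¹ ≠ (0 : KZ) :=
      mul_ne_zero (mul_ne_zero (inv_ne_zero (pow_ne_zero _ hYY)) (mul_ne_zero ZZ_ne (LP_ne _)))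
        (Finset.prod_ne_zero_iff.2 fun P _ => inv_ne_zero (LP_ne P))
    have key := twist _ _ _ _ _ g hU hgauge hg
    refine hh _ (key.trans ?_)
    rw [hval, map_mul, PowerSeries.constantCoeff_C, PowerSeries.constantCoeff_C, ← hG0']
    refine final_alg hYY ZZ_ne hGne (C_ne hy) (YY_form hy) hν'1 ?_
    rw [← map_natCast (RatFunc.C : ℂ →+* KZ), ← map_neg, ← map_mul, ← map_mul, hκ']

end EX7FAux

theorem stmt_EX7F : Stmt_EX7F :=
  EX7FAux.ex7f stmt_NV6 stmt_RESF stmt_CH6 stmt_LF6 stmt_JAC6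

end Pool.Agent.Mono.BG
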