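import Pool.Agent.Work.Monodromy.Interface7W
import Pool.Agent.Work.Monodromy4.WB

/-!
# Block STR7: chains of vectors
-/

set_option autoImplicit false

namespace Pool.Agent.Mono.BG

open MvPolynomial TS PC RO

open WBAux in
theorem stmt_STR7 : Stmt_STR7 := by
  refine ⟨?_, ?_⟩
  · intro ι _ f β h
    obtain ⟨V, i1, i2, w, v, h0, h1, h2, h3, h4⟩ := h
    exact ⟨V, i1, i2, w, v, h0, h1, fun _ => h2, fun h => absurd h (by decide), h3, h4⟩
  · intro ι _ _ f hf
    have hf0 : f ≠ 0 := by
      rintro rfl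
      exact hf totalDegree_zero
    have h0 : toF ℂ f ≠ 0 := toF_ne hf0
    set w := fw (1 : MvPolynomial ι ℂ) one_ne_zero 0 with hw
    set N : Submodule ℂ (FF ℂ ι) := SS (1 : MvPolynomial ι ℂ) with hN
    have hX : ∀ i, N ≤ N.comap (w.X' i) := fun i x hx => SS_mul 1 (X i) hx
    have hDw : ∀ i x, w.D' i x = dF ℂ i x := by
      intro i x
      rw [hw, fw_D, zero_smul, zero_mul, add_zero]
    have hD : ∀ i, N ≤ N.comap (w.D' i) := by
      intro i x hx
      rw [Submodule.mem_comap, hDw]
      exact SS_dF 1 i hx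
    set c : ℕ → ℂ := fun i => (-1) ^ i * (i.factorial : ℂ) with hc
    have hcs : ∀ i, c (i + 1) = -((i : ℂ) + 1) * c i := by
      intro i
      rw [hc]
      simp only [Nat.factorial_succ, pow_succ]
      push_cast
      ring
    set v : ℕ → FF ℂ ι := fun i => c i • (toF ℂ f)⁻¹ ^ (i + 1) with hv
    refine ⟨FF ℂ ι ⧸ N, inferInstance, inferInstance, quot w N hX hD, fun i => N.mkQ (v i),
      ?_, ?_, ?_, ?_, ?_, ?_⟩
    · intro h
      have h1 : v 0 ∈ N := (Submodule.Quotient.mk_eq_zero N).1 h
      obtain ⟨j, q, hq⟩ := h1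
      rw [toF_one, one_pow, mul_one, hv] at hq
      simp only [hc, pow_zero, Nat.factorial_zero, Nat.cast_one, mul_one, one_smul, zero_add,
        pow_one] at hq
      have h2 : toF ℂ (q * f) = toF ℂ 1 := by
        rw [toF_mul, ← hq, inv_mul_cancel₀ h0, toF_one]
      have h3 : q * f = 1 := toF_inj h2
      have h4 : IsUnit f := IsUnit.of_mul_eq_one q (by rw [mul_comm]; exact h3)
      rw [MvPolynomial.isUnit_iff_totalDegree_of_isReduced] at h4
      exact hf h4.2
    · change (quot w N hX hD).pX f (N.mkQ (v 0)) = 0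
      rw [quot_pX]
      refine (Submodule.Quotient.mk_eq_zero N).2 ?_
      rw [hw, fw_pX, hv]
      have h1 : toF ℂ f * (c 0 • (toF ℂ f)⁻¹ ^ (0 + 1)) = toF ℂ 1 := by
        rw [hc]
        simp only [pow_zero, Nat.factorial_zero, Nat.cast_one, mul_one, one_smul, zero_add,
          pow_one]
        rw [mul_inv_cancel₀ h0, toF_one]
      rw [h1]
      exact SS_toF 1 1
    · intro h
      exact absurd h (by decide)
    · exact fun _ => rfl
    · intro i a
      change (quot w N hX hD).D' a (N.mkQ (v i)) = (quot w N hX hD).pX (pderiv a f)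
        (N.mkQ (v (i + 1)))
      rw [quot_pX, quot_D]
      congr 1
      rw [hDw, hw, fw_pX, hv]
      simp only
      rw [Derivation.map_smul, dF_invpow _ hf0, hcs]
      simp only [Algebra.smul_def, map_mul, map_neg, map_add, map_one, map_natCast]
      push_cast
      ring
    · intro i
      change (quot w N hX hD).pX f (N.mkQ (v (i + 1))) = ((-1 : ℂ) - i) • N.mkQ (v i)
      rw [quot_pX, ← map_smul]
      congr 1
      rw [hw, fw_pX, hv]
      simp only
      rw [hcs, smul_smul, pow_succ _ (i + 1), show (-1 : ℂ) - i = -((i : ℂ) + 1) by ring,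
        mul_smul_comm]
      congr 1
      rw [mul_comm, mul_assoc, inv_mul_cancel₀ h0, mul_one]

end Pool.Agent.Mono.BG
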