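import Pool.Agent.Work.Monodromy7.TF7
import Pool.Agent.Work.Monodromy7.STR7
import Pool.Agent.Work.Monodromy7.EX7F

/-!
# Block CTX7: summary of the witness part
-/

set_option autoImplicit false
set_option linter.unusedSectionVars false

namespace Pool.Agent.Mono.BG

open MvPolynomial TS PC RO

namespace CTX7Aux

/-! ### values of polynomials -/

section val

variable {ι : Type} [Fintype ι]

theorem exists_zero (f : MvPolynomial ι ℂ) (hf : f.totalDegree ≠ 0) : ∃ x, eval x f = 0 := by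
  by_contra hcon
  push Not at hcon
  have h1 : (1 : MvPolynomial ι ℂ) ∈ (Ideal.span {f}).radical := by
    rw [← MvPolynomial.vanishingIdeal_zeroLocus_eq_radical (K := ℂ)]
    rw [MvPolynomial.mem_vanishingIdeal_iff]
    intro x hx
    rw [MvPolynomial.mem_zeroLocus_iff] at hx
    exfalso
    have := hx f (Ideal.subset_span rfl)
    exact hcon x (by simpa [MvPolynomial.aeval_eq_eval] using this)
  have h2 : (Ideal.span {f}).radical = ⊤ := (Ideal.eq_top_iff_one _).2 h1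
  have h3 : Ideal.span {f} = ⊤ := Ideal.radical_eq_top.1 h2
  have h4 : IsUnit f := Ideal.span_singleton_eq_top.1 h3
  rw [MvPolynomial.isUnit_iff_totalDegree_of_isReduced] at h4
  exact hf h4.2

theorem sub_C_degree (f : MvPolynomial ι ℂ) (hf : f.totalDegree ≠ 0) (c : ℂ) :
    (f - C c).totalDegree ≠ 0 := by
  intro h
  rw [totalDegree_eq_zero_iff_eq_C] at h
  refine hf ?_
  have h1 : f = C (coeff 0 (f - C c) + c) := by
    rw [map_add, ← h]
    ring
  rw [h1]
  exact totalDegree_C _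

theorem surj (f : MvPolynomial ι ℂ) (hf : f.totalDegree ≠ 0) (c : ℂ) : ∃ x, eval x f = c := by
  obtain ⟨x, hx⟩ := exists_zero (f - C c) (sub_C_degree f hf c)
  rw [map_sub, eval_C, sub_eq_zero] at hx
  exact ⟨x, hx⟩

end val

/-! ### compositions -/

section comp

variable {ι κ : Type}

theorem comp2_X0 (f : MvPolynomial ι ℂ) (g : MvPolynomial κ ℂ) :
    comp2 (X 0) f g = rename Sum.inl f := by
  unfold comp2
  rw [aeval_X]
  rfl

theorem comp2_X1 (f : MvPolynomial ι ℂ) (g : MvPolynomial κ ℂ) :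
    comp2 (X 1) f g = rename Sum.inr g := by
  unfold comp2
  rw [aeval_X]
  rfl

theorem comp2_C (f : MvPolynomial ι ℂ) (g : MvPolynomial κ ℂ) (c : ℂ) :
    (comp2 (C c) f g : MvPolynomial (ι ⊕ κ) ℂ) = C c := by
  unfold comp2
  rw [MvPolynomial.aeval_C]
  rfl

theorem comp2_mul (f : MvPolynomial ι ℂ) (g : MvPolynomial κ ℂ) (p q : P2) :
    comp2 (p * q) f g = comp2 p f g * comp2 q f g := map_mul _ _ _

theorem comp2_pow (f : MvPolynomial ι ℂ) (g : MvPolynomial κ ℂ) (p : P2) (n : ℕ) :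
    comp2 (p ^ n) f g = comp2 p f g ^ n := map_pow _ _ _

theorem comp2_sub (f : MvPolynomial ι ℂ) (g : MvPolynomial κ ℂ) (p q : P2) :
    comp2 (p - q) f g = comp2 p f g - comp2 q f g := map_sub _ _ _

theorem comp2_subC (f : MvPolynomial ι ℂ) (g : MvPolynomial κ ℂ) (p : P2) (d : ℂ) :
    comp2 (p - C d) f g = comp2 p f g - C d := by
  rw [comp2_sub, comp2_C]

/-- translations -/
theorem comp2_tr (f : MvPolynomial ι ℂ) (g : MvPolynomial κ ℂ) (Q : P2) (x : Fin 2 → ℂ) :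
    comp2 (aeval (fun i => X i + C (x i)) Q) (f - C (x 0)) (g - C (x 1)) = comp2 Q f g := by
  have h : (aeval ![rename Sum.inl (f - C (x 0)), rename Sum.inr (g - C (x 1))] :
      P2 →ₐ[ℂ] MvPolynomial (ι ⊕ κ) ℂ).comp (aeval (fun i => (X i + C (x i) : P2))) =
      aeval ![rename Sum.inl f, rename Sum.inr g] := by
    refine MvPolynomial.algHom_ext fun i => ?_
    rw [AlgHom.comp_apply, aeval_X, aeval_X, map_add, aeval_X, MvPolynomial.aeval_C]
    fin_cases i
    · change rename Sum.inl (f - C (x 0)) + C (x 0) = rename Sum.inl f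
      rw [map_sub, rename_C]
      ring
    · change rename Sum.inr (g - C (x 1)) + C (x 1) = rename Sum.inr g
      rw [map_sub, rename_C]
      ring
  exact congrArg (fun φ : P2 →ₐ[ℂ] MvPolynomial (ι ⊕ κ) ℂ => φ Q) h

theorem comp2_loc (f : MvPolynomial ι ℂ) (g : MvPolynomial κ ℂ) (P : P2) (x : Fin 2 → ℂ) :
    comp2 (loc P x) (f - C (x 0)) (g - C (x 1)) = comp2 P f g - C (eval x P) := by
  unfold loc
  rw [comp2_subC, comp2_tr]

theorem eval_comp2 (f : MvPolynomial ι ℂ) (g : MvPolynomial κ ℂ) (P : P2) (z : ι ⊕ κ → ℂ) :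
    eval z (comp2 P f g) =
      eval ![eval (fun a => z (Sum.inl a)) f, eval (fun a => z (Sum.inr a)) g] P := by
  induction P using MvPolynomial.induction_on with
  | C c => rw [comp2_C, eval_C, eval_C]
  | add p q hp hq =>
    have h : comp2 (p + q) f g = comp2 p f g + comp2 q f g := map_add _ _ _
    rw [h, map_add, hp, hq, map_add]
  | mul_X p i hp =>
    rw [comp2_mul, map_mul, hp, map_mul]
    congr 1
    rw [eval_X]
    fin_cases i
    · change eval z (comp2 (X 0) f g) = _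
      rw [comp2_X0, eval_rename]
      rfl
    · change eval z (comp2 (X 1) f g) = _
      rw [comp2_X1, eval_rename]
      rfl

theorem exists_pt [Fintype ι] [Fintype κ] (f : MvPolynomial ι ℂ) (g : MvPolynomial κ ℂ)
    (hf : f.totalDegree ≠ 0) (hg : g.totalDegree ≠ 0) (x : Fin 2 → ℂ) :
    ∃ z : ι ⊕ κ → ℂ, ∀ P : P2, eval z (comp2 P f g) = eval x P := by
  obtain ⟨z1, h1⟩ := surj f hf (x 0)
  obtain ⟨z2, h2⟩ := surj g hg (x 1)
  refine ⟨Sum.elim z1 z2, fun P => ?_⟩
  rw [eval_comp2]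
  have h3 : (fun a => Sum.elim z1 z2 (Sum.inl a)) = z1 := rfl
  have h4 : (fun a => Sum.elim z1 z2 (Sum.inr a)) = z2 := rfl
  rw [h3, h4, h1, h2]
  congr 2
  funext i
  fin_cases i <;> rfl

theorem comp2_ne [Fintype ι] [Fintype κ] (f : MvPolynomial ι ℂ) (g : MvPolynomial κ ℂ)
    (hf : f.totalDegree ≠ 0) (hg : g.totalDegree ≠ 0) (P : P2) (hP : P ≠ 0) :
    comp2 P f g ≠ 0 := by
  intro h
  refine hP (MvPolynomial.funext fun x => ?_)
  obtain ⟨z, hz⟩ := exists_pt f g hf hg x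
  rw [← hz P, h, map_zero, map_zero]

/-- exchange of the two polynomials -/
theorem comp2_swp (f : MvPolynomial ι ℂ) (g : MvPolynomial κ ℂ) (P : P2) :
    comp2 (swp P) g f = rename (Equiv.sumComm ι κ) (comp2 P f g) := by
  have h : (aeval ![rename Sum.inl g, rename Sum.inr f] :
      P2 →ₐ[ℂ] MvPolynomial (κ ⊕ ι) ℂ).comp swp =
      (rename (Equiv.sumComm ι κ)).comp (aeval ![rename Sum.inl f, rename Sum.inr g]) := by
    refine MvPolynomial.algHom_ext fun i => ?_
    unfold swp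
    rw [AlgHom.comp_apply, AlgHom.comp_apply, aeval_X, aeval_X]
    fin_cases i
    · change aeval ![rename Sum.inl g, rename Sum.inr f] (X 1 : P2) =
        rename (Equiv.sumComm ι κ) (rename Sum.inl f)
      rw [aeval_X, rename_rename]
      rfl
    · change aeval ![rename Sum.inl g, rename Sum.inr f] (X 0 : P2) =
        rename (Equiv.sumComm ι κ) (rename Sum.inr g)
      rw [aeval_X, rename_rename]
      rfl
  exact congrArg (fun φ : P2 →ₐ[ℂ] MvPolynomial (κ ⊕ ι) ℂ => φ P) h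

theorem swp_swp (P : P2) : swp (swp P) = P := by
  have h : swp.comp swp = AlgHom.id ℂ P2 := by
    refine MvPolynomial.algHom_ext fun i => ?_
    unfold swp
    fin_cases i <;> simp [aeval_X]
  exact congrArg (fun φ : P2 →ₐ[ℂ] P2 => φ P) h

end comp

/-! ### the sets of exponents -/

section sets

variable {ι κ : Type} [Fintype ι] [Fintype κ] [DecidableEq ι] [DecidableEq κ]

/-- the exponents of a polynomial at the value `0` -/
def W0 {ι : Type} [DecidableEq ι] (f : MvPolynomial ι ℂ) : Set ℚ := {r : ℚ | 0 < r ∧ WitClass f r}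

/-- from functionals to witnesses -/
theorem of_TW (f : MvPolynomial ι ℂ) (g : MvPolynomial κ ℂ) (tU tV : Bool) (be be' : ℚ) (G : P2)
    (r : ℚ) (hbe : be < 0) (hbe' : be' < 0) (hf : Str f tU (be : ℂ)) (hg : Str g tV (be' : ℂ))
    (h : HasTW tU tV be be' G r) : WitClass (comp2 G f g) r := by
  obtain ⟨ga, z, hga, hgar, l, hTW, hl⟩ := h
  have hne : ∀ b : ℚ, b < 0 → ∀ n : ℕ, (b : ℂ) ≠ n := by
    intro b hb n h1
    have h2 : b = (n : ℚ) := by exact_mod_cast h1
    have h3 : (0 : ℚ) ≤ n := Nat.cast_nonneg n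
    linarith
  obtain ⟨k, hk⟩ := stmt_TF7 ι κ f g tU tV be be' ga G l (hne be hbe) (hne be' hbe') hf hg hTW hl
  refine ⟨ga - k, z - k, ?_, ?_, ?_⟩
  · have h3 : (0 : ℚ) ≤ k := Nat.cast_nonneg k
    linarith
  · rw [hgar]
    push_cast
    ring
  · push_cast
    exact hk

theorem swap_set (f : MvPolynomial ι ℂ) (g : MvPolynomial κ ℂ) (G : P2) :
    W0 (comp2 (swp G) g f) = W0 (comp2 G f g) := by
  have h : ∀ (ι κ : Type) [DecidableEq ι] [DecidableEq κ] (f : MvPolynomial ι ℂ)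
      (g : MvPolynomial κ ℂ) (G : P2), W0 (comp2 G f g) ⊆ W0 (comp2 (swp G) g f) := by
    intro ι κ _ _ f g G r hr
    obtain ⟨hr0, β, k, hβ, hβr, hW⟩ := hr
    refine ⟨hr0, β, k, hβ, hβr, ?_⟩
    rw [comp2_swp]
    exact WBAux.wit_rename (Equiv.sumComm ι κ) _ _ hW
  refine Set.Subset.antisymm ?_ (h ι κ f g G)
  have h1 := h κ ι g f (swp G)
  rw [swp_swp] at h1
  exact h1

/-- multiple components -/
theorem mulc (hMF : Stmt_MF7) (f : MvPolynomial ι ℂ) (g : MvPolynomial κ ℂ)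
    (hf : f.totalDegree ≠ 0) (hg : g.totalDegree ≠ 0) (G : P2) (hG : G ≠ 0) (k h : P2) (m : ℕ)
    (hm : 2 ≤ m) (hx : ∃ x, eval x k = 0 ∧ eval x h ≠ 0) (hkh : G = k ^ m * h) :
    1 / (m : ℚ) ∈ W0 (comp2 G f g) := by
  obtain ⟨x, hx1, hx2⟩ := hx
  have hk : k ≠ 0 := by
    rintro rfl
    rw [zero_pow (by omega), zero_mul] at hkh
    exact hG hkh
  obtain ⟨z, hz⟩ := exists_pt f g hf hg x
  have h1 := hMF (ι ⊕ κ) (comp2 k f g) (comp2 h f g) m hm (comp2_ne f g hf hg k hk)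
    ⟨z, by rw [hz, hx1], by rw [hz]; exact hx2⟩
  have hm0 : (0 : ℚ) < m := by
    have : 0 < m := by omega
    exact_mod_cast this
  refine ⟨by positivity, -1 / (m : ℚ), 0, ?_, ?_, ?_⟩
  · exact div_neg_of_neg_of_pos (by norm_num) hm0
  · push_cast
    ring
  · rw [hkh, comp2_mul, comp2_pow]
    push_cast
    exact h1

/-- the axis -/
theorem axisc (hAX : Stmt_AX7) (f : MvPolynomial ι ℂ) (g : MvPolynomial κ ℂ)
    (hg : g.totalDegree ≠ 0) (G : P2) (ν : ℚ) (hν : ν ∈ W0 f) (m : ℕ) (K : P2) (hm : 1 ≤ m)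
    (hG : G = X 0 ^ m * K) (hK : ¬ X 0 ∣ K) : ν / (m : ℚ) ∈ W0 (comp2 G f g) := by
  obtain ⟨hν0, β, k₀, hβ, hβν, hW⟩ := hν
  have hm0 : (0 : ℚ) < m := by exact_mod_cast hm
  have hmZ : (m : ℤ) ≠ 0 := by
    have : m ≠ 0 := by omega
    exact_mod_cast this
  set l : ℕ := (k₀ % m).toNat with hl
  have hl1 : (l : ℤ) = k₀ % m := Int.toNat_of_nonneg (Int.emod_nonneg _ hmZ)
  have hl2 : l < m := by
    have h1 : k₀ % (m : ℤ) < m := Int.emod_lt_of_pos _ (by exact_mod_cast hm)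
    rw [← hl1] at h1
    exact_mod_cast h1
  obtain ⟨z, hz⟩ : ∃ z : ℤ, k₀ - l = m * z := by
    refine ⟨k₀ / m, ?_⟩
    rw [hl1]
    have := Int.emod_add_mul_ediv k₀ m
    linarith
  have h1 := hAX ι κ f g (β : ℂ) K m l hg hK hl2 (fun n hn => by
    have h2 : β = (n : ℚ) := by exact_mod_cast hn
    have h3 : (0 : ℚ) ≤ n := Nat.cast_nonneg n
    linarith) hW
  refine ⟨div_pos hν0 hm0, (β - l) / m, z, ?_, ?_, ?_⟩
  · refine div_neg_of_neg_of_pos ?_ hm0
    have h3 : (0 : ℚ) ≤ l := Nat.cast_nonneg l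
    linarith
  · have hz' : ((k₀ : ℚ) - l) = m * z := by exact_mod_cast hz
    rw [hβν]
    field_simp
    linear_combination hz'
  · rw [hG]
    push_cast
    exact h1

theorem wit_str (f : MvPolynomial ι ℂ) (β : ℚ) (h : Wit f (β : ℂ)) : Str f true (β : ℂ) :=
  stmt_STR7.1 ι f β h

theorem free_str (f : MvPolynomial ι ℂ) (h : f.totalDegree ≠ 0) : Str f false (((-1 : ℚ)) : ℂ) := by
  have h1 := stmt_STR7.2 ι f h
  have h2 : (((-1 : ℚ)) : ℂ) = -1 := by push_cast; ring
  rw [h2]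
  exact h1

theorem edgeN_pos {F : P2} {p q aL bR : ℕ} {I : Polynomial ℂ} (h : IsEdge F p q aL bR I) :
    (0 : ℚ) < (edgeN p q aL bR I : ℚ) := by
  have h1 : 1 ≤ q * (bR + p * I.natDegree) := by
    have h2 : 1 ≤ p * I.natDegree := Nat.mul_pos h.hp h.deg
    exact Nat.mul_pos h.hq (by omega)
  have h3 : 0 < edgeN p q aL bR I := by
    unfold edgeN
    omega
  exact_mod_cast h3

/-- the first context -/
theorem ctx1 (hEX : Stmt_EX7) (hAX : Stmt_AX7) (hMF : Stmt_MF7) (f : MvPolynomial ι ℂ)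
    (g : MvPolynomial κ ℂ) (hf : f.totalDegree ≠ 0) (hg : g.totalDegree ≠ 0) (G : P2)
    (hG : G ≠ 0) : Ctx1 (W0 (comp2 G f g)) (W0 f) G := by
  refine ⟨?_, ?_, ?_⟩
  · rintro ν ⟨hν0, β, k₀, hβ, hβν, hW⟩ M H e Φ p q aL bR I hc hE heb hsp
    refine ⟨?_, ?_⟩
    · have hN := edgeN_pos hE
      have hq : (0 : ℚ) < q := by exact_mod_cast hE.hq
      positivity
    · have h1 := hEX.1 G M H e Φ p q aL bR I ν k₀ hc hE heb hsp (by rw [← hβν]; exact hβ)
      rw [← hβν] at h1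
      exact of_TW f g true false β (-1) G _ hβ (by norm_num) (wit_str f β hW) (free_str g hg) h1
  · intro ν hν m K hm hGK hK
    exact axisc hAX f g hg G ν hν m K hm hGK hK
  · intro k h m hm hx hkh
    exact mulc hMF f g hf hg G hG k h m hm hx hkh

theorem swp_ne {G : P2} (hG : G ≠ 0) : swp G ≠ 0 := by
  intro h
  refine hG ?_
  rw [← swp_swp G, h, map_zero]

/-- the second context -/
theorem ctx2 (hEX : Stmt_EX7) (hAX : Stmt_AX7) (hMF : Stmt_MF7) (f : MvPolynomial ι ℂ)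
    (g : MvPolynomial κ ℂ) (hf : f.totalDegree ≠ 0) (hg : g.totalDegree ≠ 0) (G : P2)
    (hG : G ≠ 0) : Ctx2 (W0 (comp2 G f g)) (W0 f) (W0 g) G := by
  refine ⟨?_, ?_, ?_, ?_, ?_⟩
  · rintro ν ⟨hν0, β, k₀, hβ, hβν, hW⟩ ν' ⟨hν0', β', k₀', hβ', hβν', hW'⟩ p q aL bR I hE
    refine ⟨?_, ?_⟩
    · have hN := edgeN_pos hE
      have hq : (0 : ℚ) < q := by exact_mod_cast hE.hq
      have hp : (0 : ℚ) < p := by exact_mod_cast hE.hp
      positivity
    · have h1 := hEX.2.2 G p q aL bR I ν ν' k₀ k₀' hE (by rw [← hβν]; exact hβ)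
        (by rw [← hβν']; exact hβ')
      rw [← hβν, ← hβν'] at h1
      exact of_TW f g true true β β' G _ hβ hβ' (wit_str f β hW) (wit_str g β' hW') h1
  · rintro ν ⟨hν0, β, k₀, hβ, hβν, hW⟩ ν' ⟨hν0', β', k₀', hβ', hβν', hW'⟩ M H e Φ p q aL bR I h hc
      h1 hhH hΦ hΦ' hE heb hsp
    refine ⟨?_, ?_⟩
    · have hN := edgeN_pos hE
      have hq : (0 : ℚ) < q := by exact_mod_cast hE.hq
      have hp : (0 : ℚ) < p := by exact_mod_cast hE.hp
      have hH : (h : ℚ) ≤ H := by exact_mod_cast hhH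
      have hM0 : (0 : ℚ) ≤ M := Nat.cast_nonneg M
      have hh0 : (0 : ℚ) ≤ h := Nat.cast_nonneg h
      have h2 : (0 : ℚ) ≤ p * (M * ν + h * ν' - h + H) := by
        refine mul_nonneg hp.le ?_
        have h3 := mul_nonneg hM0 hν0.le
        have h4 := mul_nonneg hh0 hν0'.le
        linarith
      exact div_pos (by linarith) hN
    · have h2 := hEX.2.1 G M H e Φ p q aL bR I h ν ν' k₀ k₀' hc h1 hhH hΦ hΦ' hE heb hsp
        (by rw [← hβν]; exact hβ) (by rw [← hβν']; exact hβ')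
      rw [← hβν, ← hβν'] at h2
      exact of_TW f g true true β β' G _ hβ hβ' (wit_str f β hW) (wit_str g β' hW') h2
  · intro ν hν m K hm hGK hK
    exact axisc hAX f g hg G ν hν m K hm hGK hK
  · intro ν' hν' m K hm hGK hK
    rw [← swap_set]
    refine axisc hAX g f hf (swp G) ν' hν' m (swp K) hm ?_ ?_
    · rw [hGK, map_mul, map_pow]
      congr 2
      unfold swp
      rw [aeval_X]
      rfl
    · rintro ⟨K', hK'⟩
      refine hK ⟨swp K', ?_⟩
      rw [← swp_swp K, hK', map_mul]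
      congr 1
      unfold swp
      rw [aeval_X]
      rfl
  · intro k h m hm hx hkh
    exact mulc hMF f g hf hg G hG k h m hm hx hkh

/-- translation by `x` -/
noncomputable def trA (x : Fin 2 → ℂ) : P2 ≃ₐ[ℂ] P2 :=
  AlgEquiv.ofAlgHom (aeval fun i => X i + C (x i)) (aeval fun i => X i - C (x i))
    (by
      refine MvPolynomial.algHom_ext fun i => ?_
      rw [AlgHom.comp_apply, aeval_X, map_sub, aeval_X, MvPolynomial.aeval_C, AlgHom.id_apply]
      change X i + C (x i) - C (x i) = X i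
      ring)
    (by
      refine MvPolynomial.algHom_ext fun i => ?_
      rw [AlgHom.comp_apply, aeval_X, map_add, aeval_X, MvPolynomial.aeval_C, AlgHom.id_apply]
      change X i - C (x i) + C (x i) = X i
      ring)

theorem trA_apply (x : Fin 2 → ℂ) (F : P2) : trA x F = aeval (fun i => X i + C (x i)) F := rfl

theorem trA_symm_X (x : Fin 2 → ℂ) (i : Fin 2) : (trA x).symm (X i) = X i - C (x i) := by
  change aeval (fun i => X i - C (x i)) (X i : P2) = _
  rw [aeval_X]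

/-- both coordinates free, all automorphisms -/
theorem free (hAUT : Stmt_AUT7) (f : MvPolynomial ι ℂ) (g : MvPolynomial κ ℂ)
    (hf : f.totalDegree ≠ 0) (hg : g.totalDegree ≠ 0) (F : P2) (r : ℚ) (h : PCExp F r) :
    WitClass (comp2 F f g) r := by
  obtain ⟨α, hα⟩ := h
  have h1 := stmt_EX7F (α F) r hα
  set x : Fin 2 → ℂ := fun i => eval 0 (α (X i)) with hx
  set α' : P2 ≃ₐ[ℂ] P2 := (trA x).symm.trans α with hα'
  have h2 : ∀ i, eval 0 (α' (X i)) = 0 := by
    intro i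
    rw [hα', AlgEquiv.trans_apply, trA_symm_X, map_sub, map_sub]
    have h3 : α (C (x i)) = C (x i) := by
      have := α.commutes (x i)
      simpa [MvPolynomial.algebraMap_eq] using this
    rw [h3, eval_C, hx, sub_self]
  have h3 : α' (trA x F) = α F := by
    rw [hα', AlgEquiv.trans_apply, AlgEquiv.symm_apply_apply]
  have h4 := hAUT α' (trA x F) r h2 (by rw [h3]; exact h1)
  have h5 := of_TW (f - C (x 0)) (g - C (x 1)) false false (-1) (-1) (trA x F) r (by norm_num)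
    (by norm_num) (free_str _ (sub_C_degree f hf _)) (free_str _ (sub_C_degree g hg _)) h4
  rw [trA_apply, comp2_tr] at h5
  exact h5

theorem loc_ne (P : P2) (hP : P.totalDegree ≠ 0) (x : Fin 2 → ℂ) : loc P x ≠ 0 := by
  intro h
  unfold loc at h
  have h1 : trA x P = trA x (C (eval x P)) := by
    rw [trA_apply, trA_apply, MvPolynomial.aeval_C]
    exact sub_eq_zero.1 h
  have h2 := (trA x).injective h1
  rw [h2] at hP
  exact hP (totalDegree_C _)

theorem sub_ne (P : P2) (hP : P.totalDegree ≠ 0) (d : ℂ) : P - C d ≠ 0 := by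
  intro h
  rw [sub_eq_zero.1 h] at hP
  exact hP (totalDegree_C _)

end sets

end CTX7Aux

open CTX7Aux in
theorem ctx7_of (hEX : Stmt_EX7) (hAX : Stmt_AX7) (hMF : Stmt_MF7) (hAUT : Stmt_AUT7) :
    Stmt_CTX7 := by
  intro ι κ _ _ _ _ f g P hf hg hP
  have hW : ∀ d, wset (comp2 P f g) d = W0 (comp2 (P - C d) f g) := by
    intro d
    rw [comp2_subC]
    rfl
  have hL : ∀ x₀ : Fin 2 → ℂ, wset (comp2 P f g) (eval x₀ P) =
      W0 (comp2 (loc P x₀) (f - C (x₀ 0)) (g - C (x₀ 1))) := by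
    intro x₀
    rw [comp2_loc]
    rfl
  refine ⟨?_, ?_, ?_⟩
  · intro d r hr h
    rw [hW]
    exact ⟨hr, free hAUT f g hf hg (P - C d) r h⟩
  · intro d k h m hm hx hkh
    rw [hW]
    exact mulc hMF f g hf hg (P - C d) (sub_ne P hP d) k h m hm hx hkh
  · intro x₀
    have hf' := sub_C_degree f hf (x₀ 0)
    have hg' := sub_C_degree g hg (x₀ 1)
    have hG := loc_ne P hP x₀
    rw [hL]
    refine ⟨?_, ?_, ?_, ?_⟩
    · exact ctx1 hEX hAX hMF _ _ hf' hg' _ hG
    · rw [← swap_set]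
      exact ctx1 hEX hAX hMF _ _ hg' hf' _ (swp_ne hG)
    · exact ctx2 hEX hAX hMF _ _ hf' hg' _ hG
    · rw [← swap_set]
      exact ctx2 hEX hAX hMF _ _ hg' hf' _ (swp_ne hG)

end Pool.Agent.Mono.BG
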