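import Pool.Agent.Work.Monodromy.Interface7W
import Pool.Agent.Work.Monodromy6.EWA

/-!
# Phase 7, block EX7 (helper6): the three kinds of edges, `a` fixed
-/

set_option autoImplicit false

namespace Pool.Agent.Mono.BG

open MvPolynomial TS PC RO

namespace EX7Aux

theorem chart_pos {M H e : ℕ} {Φ : Polynomial ℂ} (h : Chart M H e Φ) : 1 ≤ M := by
  induction h with
  | base Φ h => exact le_rfl
  | step hc p q hp hq hpq lam hl Θ ih => exact Nat.mul_pos hp ih

theorem exists_pq' (p q : ℕ) (hp : 1 ≤ p) (hq : 1 ≤ q) (h : p.Coprime q) :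
    ∃ p' q' : ℕ, p * q' = p' * q + 1 ∧ (p = 1 → p' = 0 ∧ q' = 1) := by
  rcases Nat.lt_or_ge 1 p with h1 | h1
  · obtain ⟨p', q', h2⟩ := EWAux.exists_pq p q hp hq h
    exact ⟨p', q', h2, fun h3 => absurd h3 (by omega)⟩
  · have h2 : p = 1 := by omega
    subst h2
    exact ⟨0, 1, by omega, fun _ => ⟨rfl, rfl⟩⟩

theorem T0AB (p q p' q' aL bR d X : ℤ) (h : p * q' = p' * q + 1) :
    (p * aL + q * (bR + p * d)) * (p' * X) - (p * X) * (p' * (aL + q * d) + q' * bR) =
      -(X * bR) := by
  linear_combination (-(X * bR)) * h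

theorem T0C (p q p' q' aL bR d s : ℤ) (h : p * q' = p' * q + 1) :
    (p * aL + q * (bR + p * d)) * (p' * s + q') -
      (p * s + q) * (p' * (aL + q * d) + q' * bR) = (aL + q * d) - s * bR := by
  linear_combination ((aL + q * d) - s * bR) * h

theorem condAB (p q p' q' aL bR X : ℕ) (I : Polynomial ℂ) (hp : 1 ≤ p)
    (hX : 1 ≤ X) (hd : 1 ≤ I.natDegree) (h : p * q' = p' * q + 1)
    (hc : 2 ≤ I.roots.toFinset.card + (if 2 ≤ p ∨ 1 ≤ bR then 1 else 0))
    (hp1 : p = 1 → p' = 0 ∧ q' = 1) :
    ((edgeN p q aL bR I : ℤ) * (p' * X) - (p * X) * (p' * (aL + q * I.natDegree) + q' * bR) -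
      I.natDegree * (p * X) ≠ 0) ∧
    ((edgeN p q aL bR I : ℤ) * (p' * X) - (p * X) * (p' * (aL + q * I.natDegree) + q' * bR) ≠ 0 ∨
      (bR = 0 ∧ 2 ≤ p) ∨ (bR = 0 ∧ p = 1 ∧ p' = 0 ∧ q' = 1 ∧ 2 ≤ I.roots.toFinset.card)) := by
  have hZ : (p : ℤ) * q' = p' * q + 1 := by exact_mod_cast h
  have hN : (edgeN p q aL bR I : ℤ) = p * aL + q * (bR + p * I.natDegree) := by
    unfold edgeN
    push_cast
    ring
  have e := T0AB p q p' q' aL bR I.natDegree X hZ
  rw [hN, e]
  have hp' : (1 : ℤ) ≤ p := by exact_mod_cast hp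
  have hX' : (1 : ℤ) ≤ X := by exact_mod_cast hX
  have hd' : (1 : ℤ) ≤ I.natDegree := by exact_mod_cast hd
  have hb' : (0 : ℤ) ≤ bR := by positivity
  constructor
  · have h1 : (1 : ℤ) ≤ I.natDegree * (p * X) := by
      have : (1 : ℤ) ≤ p * X := by nlinarith
      nlinarith
    have h2 : (0 : ℤ) ≤ X * bR := by positivity
    intro h3
    linarith
  · rcases Nat.eq_zero_or_pos bR with h0 | h0
    · right
      subst h0
      rcases Nat.lt_or_ge 1 p with h1 | h1
      · exact Or.inl ⟨rfl, h1⟩
      · right
        have h2 : p = 1 := by omega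
        obtain ⟨h3, h4⟩ := hp1 h2
        refine ⟨rfl, h2, h3, h4, ?_⟩
        rw [if_neg (by omega)] at hc
        omega
    · left
      have h1 : (1 : ℤ) ≤ bR := by exact_mod_cast h0
      intro h3
      have : (1 : ℤ) ≤ X * bR := by nlinarith
      linarith

theorem chart_id (G : P2) : chartMap 1 0 0 G = G := by
  have : chartMap 1 0 0 = AlgHom.id ℂ P2 := by
    apply MvPolynomial.algHom_ext
    intro i
    unfold chartMap
    fin_cases i <;> simp
  rw [this]
  rfl

/-- the leading term of `b = Φ(s) + s^H v` -/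
theorem above_b (M H : ℕ) (Φ : Polynomial ℂ) (h p q : ℕ) (hp : 1 ≤ p) (hq : 1 ≤ q) (hh : h ≤ H)
    (h0 : ∀ j < h, Φ.coeff j = 0) :
    Above p q (p * h + q * 0) (chartMap M H Φ (X 1) - C (Φ.coeff h) * X 0 ^ h * X 1 ^ 0) := by
  classical
  have e1 : chartMap M H Φ (X 1) - C (Φ.coeff h) * X 0 ^ h * X 1 ^ 0 =
      ∑ j ∈ Φ.support.erase h, monomial (Finsupp.single (0 : Fin 2) j) (Φ.coeff j) +
        monomial (Finsupp.single (0 : Fin 2) H + Finsupp.single 1 1) (1 : ℂ) := by
    have e2 : chartMap M H Φ (X 1) = Polynomial.aeval (X 0 : P2) Φ + X 0 ^ H * X 1 := by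
      simp [chartMap]
    have e3 : Polynomial.aeval (X 0 : P2) Φ =
        ∑ j ∈ insert h Φ.support, monomial (Finsupp.single (0 : Fin 2) j) (Φ.coeff j) := by
      rw [Polynomial.aeval_eq_sum_range, Finset.sum_subset (s₂ := Finset.range (Φ.natDegree + 1 + h + 1))
        (fun x hx => by
          rw [Finset.mem_range] at hx ⊢
          omega)
        (fun x _ hx => by
          rw [Finset.mem_range] at hx
          rw [Polynomial.coeff_eq_zero_of_natDegree_lt (by omega), zero_smul])]
      symm
      rw [Finset.sum_subset (s₂ := Finset.range (Φ.natDegree + 1 + h + 1))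
        (fun x hx => by
          rw [Finset.mem_insert] at hx
          rw [Finset.mem_range]
          rcases hx with hx | hx
          · omega
          · have := Polynomial.le_natDegree_of_mem_supp x hx
            omega)
        (fun x _ hx => by
          rw [Finset.mem_insert, not_or, Polynomial.notMem_support_iff] at hx
          rw [hx.2, map_zero])]
      refine Finset.sum_congr rfl fun j _ => ?_
      rw [MvPolynomial.smul_eq_C_mul, X_pow_eq_monomial, C_mul_monomial, mul_one]
    have e4 : (X 0 ^ H * X 1 : P2) =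
        monomial (Finsupp.single (0 : Fin 2) H + Finsupp.single 1 1) (1 : ℂ) := by
      rw [X_pow_eq_monomial, X, monomial_mul, mul_one]
    have e5 : (C (Φ.coeff h) * X 0 ^ h * X 1 ^ 0 : P2) =
        monomial (Finsupp.single (0 : Fin 2) h) (Φ.coeff h) := by
      rw [pow_zero, mul_one, X_pow_eq_monomial, C_mul_monomial, mul_one]
    rw [e2, e3, e4, e5, ← Finset.insert_erase (Finset.mem_insert_self h Φ.support),
      Finset.sum_insert (Finset.notMem_erase _ _), Finset.erase_insert_eq_erase]
    ring
  rw [e1]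
  intro d hd
  rcases Finset.mem_union.1 (support_add hd) with h1 | h1
  · obtain ⟨j, hj, hj'⟩ := Finset.mem_biUnion.1 (support_sum h1)
    rw [Finset.mem_erase] at hj
    have h2 := Finset.mem_singleton.1 (support_monomial_subset hj')
    have h3 : h < j := by
      rcases Nat.lt_or_ge h j with h4 | h4
      · exact h4
      · exfalso
        exact (Polynomial.mem_support_iff.1 hj.2) (h0 j (by omega))
    rw [h2]
    simp only [Finsupp.single_apply]
    have h5 : p * h < p * j := Nat.mul_lt_mul_of_pos_left h3 hp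
    simp
    omega
  · have h2 := Finset.mem_singleton.1 (support_monomial_subset h1)
    rw [h2]
    have h3 : p * h ≤ p * H := Nat.mul_le_mul_left p hh
    simp [Finsupp.add_apply, Finsupp.single_apply]
    omega

end EX7Aux

open EX7Aux

theorem stmt_EX7 (hC : Stmt_COR7) : Stmt_EX7 := by
  refine ⟨?_, ?_, ?_⟩
  · intro G M H e Φ p q aL bR I lam k₀ hch hedge he hc hlam
    obtain ⟨p', q', hpq, hp1⟩ := exists_pq' p q hedge.hp hedge.hq hedge.cop
    have hM := chart_pos hch
    obtain ⟨c1, c2⟩ := condAB p q p' q' aL bR M I hedge.hp hM hedge.deg hpq hc hp1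
    have key := hC G M H e Φ p q p' q' aL bR I false 0 0 1 lam 1 k₀ 0 1 0 hch hedge.hp hedge.hq
      hpq hedge he (fun h => absurd h (by decide)) (fun _ => ⟨rfl, rfl, rfl, rfl, rfl⟩) hlam
      (by norm_num) (by
        have := Nat.mul_pos hedge.hp hM
        simp only [mul_one, mul_zero, add_zero]
        omega) (by
        simpa using c1) (by
        rcases c2 with c2 | c2 | c2
        · left
          simpa using c2
        · right; left
          exact ⟨c2.1, c2.2, rfl⟩
        · right; right
          exact ⟨c2.1, c2.2.1, c2.2.2.1, c2.2.2.2.1, rfl, c2.2.2.2.2⟩)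
    convert key using 2
    · push_cast
      norm_num
    · push_cast
      ring
  · intro G M H e Φ p q aL bR I h lam lam' k₀ k₀' hch hh1 hhH hΦ hΦ0 hedge he hc hlam hlam'
    obtain ⟨p', q', hpq, hp1⟩ := exists_pq' p q hedge.hp hedge.hq hedge.cop
    have hM := chart_pos hch
    obtain ⟨c1, c2⟩ := condAB p q p' q' aL bR (M + h) I hedge.hp (by omega) hedge.deg hpq hc hp1
    have key := hC G M H e Φ p q p' q' aL bR I true h 0 (Φ.coeff h) lam lam' k₀ k₀' 1 1 hch
      hedge.hp hedge.hq hpq hedge he (fun _ => ⟨hΦ, ?_, above_b M H Φ h p q hedge.hp hedge.hq hhH hΦ0,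
        ?_⟩) (fun h => absurd h (by decide)) hlam hlam' ?_ ?_ ?_
    · convert key using 2
      push_cast
      ring
    · have := Nat.mul_pos hedge.hp hh1
      omega
    · have h1 : p * h ≤ p * H := Nat.mul_le_mul_left p hhH
      rw [Nat.mul_add]
      omega
    · have := Nat.mul_pos hedge.hp hM
      simp only [mul_one, mul_zero, add_zero]
      omega
    · intro h0
      apply c1
      push_cast
      push_cast at h0
      linear_combination h0
    · rcases c2 with c2 | c2 | c2
      · left
        intro h0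
        apply c2
        push_cast
        push_cast at h0
        linear_combination h0
      · right; left
        exact ⟨c2.1, c2.2, rfl⟩
      · right; right
        exact ⟨c2.1, c2.2.1, c2.2.2.1, c2.2.2.2.1, rfl, c2.2.2.2.2⟩
  · intro G p q aL bR I lam lam' k₀ k₀' hedge hlam hlam'
    obtain ⟨p', q', hpq⟩ := EWAux.exists_pq p q hedge.hp hedge.hq hedge.cop
    have hZ : (p : ℤ) * q' = p' * q + 1 := by exact_mod_cast hpq
    have hN : (edgeN p q aL bR I : ℤ) = p * aL + q * (bR + p * I.natDegree) := by
      unfold edgeN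
      push_cast
      ring
    have hp' : (1 : ℤ) ≤ p := by exact_mod_cast hedge.hp
    have hq' : (1 : ℤ) ≤ q := by exact_mod_cast hedge.hq
    have hd' : (1 : ℤ) ≤ I.natDegree := by exact_mod_cast hedge.deg
    have hb' : (0 : ℤ) ≤ bR := by positivity
    have ha' : (0 : ℤ) ≤ aL := by positivity
    set s := aL + q * I.natDegree + aL + 1 with hs
    have hsZ : (s : ℤ) = aL + q * I.natDegree + aL + 1 := by
      rw [hs]
      push_cast
      ring
    have e1 := T0C p q p' q' aL bR I.natDegree s hZ
    have key := hC G 1 0 0 0 p q p' q' aL bR I true 0 1 1 lam lam' k₀ k₀' s 1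
      (Chart.base 0 (Polynomial.coeff_zero 0)) hedge.hp hedge.hq hpq (by rwa [chart_id])
      (by rw [zero_mul]; exact Nat.zero_le _) (fun _ => ⟨one_ne_zero, ?_, ?_, ?_⟩)
      (fun h => absurd h (by decide)) hlam hlam' ?_ ?_ ?_
    · convert key using 2
      push_cast
      ring
    · have := hedge.hq
      omega
    · intro d hd
      rw [chart_id, C_1, one_mul, pow_zero, one_mul, pow_one, sub_self] at hd
      simp at hd
    · omega
    · have := hedge.hq
      simp only [mul_zero, mul_one, zero_add]
      omega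
    · intro h0
      have h1 : ((aL : ℤ) + q * I.natDegree) - s * bR - I.natDegree * (p * s + q) = 0 := by
        rw [← e1]
        rw [hN] at h0
        push_cast at h0
        linear_combination h0
      have h2 : (s : ℤ) ≤ s * (bR + I.natDegree * p) := by
        have : (1 : ℤ) ≤ bR + I.natDegree * p := by nlinarith
        have hs0 : (0 : ℤ) ≤ s := by positivity
        nlinarith
      have h3 : (0 : ℤ) ≤ q * I.natDegree := by positivity
      nlinarith
    · left
      intro h0
      have h1 : ((aL : ℤ) + q * I.natDegree) - s * bR = 0 := by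
        rw [← e1]
        rw [hN] at h0
        push_cast at h0
        linear_combination h0
      have h3 : (1 : ℤ) ≤ q * I.natDegree := by nlinarith
      rcases Nat.eq_zero_or_pos bR with h4 | h4
      · rw [h4] at h1
        push_cast at h1
        linarith
      · have h5 : (1 : ℤ) ≤ bR := by exact_mod_cast h4
        have hs0 : (0 : ℤ) ≤ s := by positivity
        nlinarith

end Pool.Agent.Mono.BG
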