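import Pool.Agent.Work.Monodromy7.LEXB

/-!
# The test forms are not all exact up to torsion (helper26)
-/

set_option autoImplicit false

namespace Pool.Agent.Mono.BG.LEX7Aux

open Polynomial

/-- the identity of numerators -/
theorem num_eq (S : Finset ℂ) (a₀ : RT) (a : ℂ → RT) (g : MT S) (q w : Polynomial RT)
    (i k m l : ℕ) (h : g * io S (X ^ i * dS S ^ k) = io S q)
    (hw : nabT S a₀ a g * io S (dS S ^ m) = io S w) (hl : k + 1 = m + l) :
    derivative q * denT S + q * (al S a₀ a - ((i : Polynomial RT) * dS S +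
        (k : Polynomial RT) * X * derivative (dS S))) = w * (X ^ (i + 1) * dS S ^ l) := by
  apply io_inj S
  rw [← nab S a₀ a g q i k h, map_mul (io S) w, ← hw, mul_assoc, ← map_mul]
  congr 2
  rw [hl, pow_add]; ring

theorem dS_dvd (S : Finset ℂ) (q : Polynomial RT)
    (h : ∀ P ∈ S, q.eval (PowerSeries.C P) = 0) : dS S ∣ q := by
  unfold dS
  apply Finset.prod_dvd_of_coprime
  · intro P _ P' _ hne
    apply cop_lin
    rw [eval_sub, eval_X, eval_C, ← map_sub]
    exact unit_C _ (sub_ne_zero.2 hne)
  · intro P hP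
    exact dvd_iff_isRoot.2 (h P hP)

/-- the poles on `S` -/
theorem lemA (S : Finset ℂ) (h0 : (0 : ℂ) ∉ S) (a₀ : RT) (a : ℂ → RT)
    (hP : ∀ P ∈ S, ∀ j : ℕ, 1 ≤ j → a P ≠ j) (g : MT S) (w : Polynomial RT) (i m : ℕ)
    (hw : nabT S a₀ a g * io S (dS S ^ (m + 1)) = io S w) (l : ℕ) :
    ∀ q : Polynomial RT, g * io S (X ^ i * dS S ^ (m + l)) = io S q →
      ∃ q' : Polynomial RT, g * io S (X ^ i * dS S ^ m) = io S q' := by
  induction l with
  | zero => intro q h; exact ⟨q, h⟩
  | succ l ih =>
    intro q h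
    have h1 := num_eq S a₀ a g q w i (m + (l + 1)) (m + 1) (l + 1) h hw (by omega)
    have h2 : dS S ∣ q := by
      apply dS_dvd
      intro P hPS
      have h3 := congrArg (eval (PowerSeries.C P)) h1
      simp only [den_eq, eval_add, eval_mul, eval_sub, eval_pow, dS_eval S P hPS,
        al_eval S a₀ a P hPS, dS_der_eval S P hPS, eval_X, eval_natCast, pow_succ, mul_zero,
        zero_add] at h3
      have h4 : eval (PowerSeries.C P) q * ((a P - ((m + (l + 1) : ℕ) : RT)) * (PowerSeries.C P *
          eval (PowerSeries.C P) (dP S P))) = 0 := by linear_combination h3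
      rcases mul_eq_zero.1 h4 with h5 | h5
      · exact h5
      · exfalso
        rcases mul_eq_zero.1 h5 with h6 | h6
        · exact hP P hPS _ (by omega) (sub_eq_zero.1 h6)
        · have hP0 : P ≠ 0 := fun h => h0 (h ▸ hPS)
          exact ((unit_C P hP0).mul (dP_eval_unit S P)).ne_zero h6
    obtain ⟨q₁, hq₁⟩ := h2
    apply ih q₁
    have hu : IsUnit (io S (dS S)) := by
      apply isUnit_of_mul_isUnit_right (x := io S X)
      rw [← map_mul, ← den_eq]
      exact IsUnit.of_mul_eq_one _ (io_inv S)
    apply hu.mul_left_injective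
    simp only
    rw [mul_assoc, ← map_mul, ← map_mul]
    have e1 : X ^ i * dS S ^ (m + l) * dS S = X ^ i * dS S ^ (m + (l + 1)) := by
      rw [← add_assoc, pow_succ]; ring
    rw [e1, h, hq₁, mul_comm]

/-- the pole at `0` -/
theorem lemB (S : Finset ℂ) (h0 : (0 : ℂ) ∉ S) (a₀ : RT) (a : ℂ → RT)
    (ha₀ : ∀ j : ℕ, 1 ≤ j → a₀ ≠ j) (g : MT S) (w : Polynomial RT) (m : ℕ)
    (hw : nabT S a₀ a g * io S (dS S ^ (m + 1)) = io S w) (i : ℕ) :
    ∀ q : Polynomial RT, g * io S (X ^ i * dS S ^ m) = io S q →
      ∃ q' : Polynomial RT, g * io S (X ^ 0 * dS S ^ m) = io S q' := by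
  induction i with
  | zero => intro q h; exact ⟨q, h⟩
  | succ i ih =>
    intro q h
    have h1 := num_eq S a₀ a g q w (i + 1) m (m + 1) 0 h hw (by omega)
    have h2 : X ∣ q := by
      rw [X_dvd_iff, coeff_zero_eq_eval_zero]
      have h3 := congrArg (eval 0) h1
      simp only [den_eq, al, eval_add, eval_mul, eval_sub, eval_pow, eval_X, eval_natCast, eval_C,
        pow_succ, mul_zero, zero_mul, zero_add, add_zero, eval_finsetSum] at h3
      have h4 : eval 0 q * ((a₀ - ((i + 1 : ℕ) : RT)) * eval 0 (dS S)) = 0 := by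
        linear_combination h3
      rcases mul_eq_zero.1 h4 with h5 | h5
      · exact h5
      · exfalso
        rcases mul_eq_zero.1 h5 with h6 | h6
        · exact ha₀ _ (by omega) (sub_eq_zero.1 h6)
        · exact (dS_eval_zero S h0).ne_zero h6
    obtain ⟨q₁, hq₁⟩ := h2
    apply ih q₁
    have hu : IsUnit (io S X) := by
      apply isUnit_of_mul_isUnit_left (y := io S (dS S))
      rw [← map_mul, ← den_eq]
      exact IsUnit.of_mul_eq_one _ (io_inv S)
    apply hu.mul_left_injective
    simp only
    rw [mul_assoc, ← map_mul, ← map_mul]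
    have e1 : X ^ i * dS S ^ m * X = X ^ (i + 1) * dS S ^ m := by
      rw [pow_succ]; ring
    rw [e1, h, hq₁, mul_comm]

/-- the zero at `0` -/
theorem lemC (S : Finset ℂ) (h0 : (0 : ℂ) ∉ S) (a₀ : RT) (a : ℂ → RT)
    (ha₀ : ∀ d : ℤ, a₀ ≠ d) (q : Polynomial RT) (r : RT) (K j m : ℕ)
    (hE : derivative q * denT S + q * (al S a₀ a - (((0 : ℕ) : Polynomial RT) * dS S +
        (m : Polynomial RT) * X * derivative (dS S))) = C r * X ^ (j + K) * (X ^ (0 + 1) *
          dS S ^ 0)) (n : ℕ) (hn : n ≤ K + 1) : X ^ n ∣ q := by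
  induction n with
  | zero => simp
  | succ n ih =>
    obtain ⟨q₁, hq₁⟩ := ih (by omega)
    have h1 : ((n : Polynomial RT) * q₁ + X * derivative q₁) * dS S + q₁ * (al S a₀ a -
        (m : Polynomial RT) * X * derivative (dS S)) = C r * X ^ (j + K - n) * X := by
      have hX : (X ^ n : Polynomial RT) ≠ 0 := pow_ne_zero _ X_ne_zero
      apply mul_left_cancel₀ hX
      have e1 : (X : Polynomial RT) ^ (j + K) = X ^ n * X ^ (j + K - n) := by
        rw [← pow_add]; congr 1; omega
      have e2 : derivative q * denT S = X ^ n * (((n : Polynomial RT) * q₁ + X * derivative q₁) *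
          dS S) := by
        rw [hq₁, derivative_mul, derivative_X_pow, den_eq]
        cases n with
        | zero => simp; ring
        | succ n => simp; ring
      rw [e1, e2] at hE
      rw [hq₁] at hE
      simp only [Nat.cast_zero, zero_mul, zero_add, pow_one, pow_zero, mul_one] at hE
      linear_combination hE
    have h2 : X ∣ q₁ := by
      rw [X_dvd_iff, coeff_zero_eq_eval_zero]
      have h3 := congrArg (eval 0) h1
      simp only [al, eval_add, eval_mul, eval_sub, eval_pow, eval_X, eval_natCast, eval_C,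
        mul_zero, zero_mul, add_zero, sub_zero, eval_finsetSum] at h3
      have h4 : eval 0 q₁ * ((a₀ + (n : RT)) * eval 0 (dS S)) = 0 := by
        linear_combination h3
      rcases mul_eq_zero.1 h4 with h5 | h5
      · exact h5
      · exfalso
        rcases mul_eq_zero.1 h5 with h6 | h6
        · apply ha₀ (-(n : ℤ))
          push_cast
          linear_combination h6
        · exact (dS_eval_zero S h0).ne_zero h6
    obtain ⟨q₂, hq₂⟩ := h2
    exact ⟨q₂, by rw [hq₁, hq₂, pow_succ]; ring⟩

/-- the degree -/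
theorem lemD (S : Finset ℂ) (a₀ : RT) (a : ℂ → RT)
    (hinf : ∀ d : ℤ, a₀ + ∑ P ∈ S, a P ≠ d) (q : Polynomial RT) (r : RT) (K j m : ℕ)
    (hE : derivative q * denT S + q * (al S a₀ a - (((0 : ℕ) : Polynomial RT) * dS S +
        (m : Polynomial RT) * X * derivative (dS S))) = C r * X ^ (j + K) * (X ^ (0 + 1) *
          dS S ^ 0)) (hq : q ≠ 0) : q.natDegree + S.card ≤ j + K + 1 := by
  by_contra hlt
  push Not at hlt
  set e := q.natDegree
  set s := S.card
  have h1 : (C r * X ^ (j + K) * (X ^ (0 + 1) * dS S ^ 0) : Polynomial RT).coeff (e + s) = 0 := by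
    have : (C r * X ^ (j + K) * (X ^ (0 + 1) * dS S ^ 0) : Polynomial RT) =
        C r * X ^ (j + K + 1) := by
      simp only [zero_add, pow_one, pow_zero, mul_one, mul_assoc, ← pow_succ]
    rw [this, coeff_C_mul_X_pow, if_neg (by omega)]
  obtain ⟨a1, a2⟩ := al_natDegree S a₀ a
  have hDn : (dS S).natDegree = s := dS_natDegree S
  have hD1 : (dS S).coeff s = 1 := by rw [← hDn]; exact (dS_monic S).coeff_natDegree
  have h2 : (al S a₀ a - (((0 : ℕ) : Polynomial RT) * dS S +
        (m : Polynomial RT) * X * derivative (dS S))).natDegree ≤ s ∧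
      (al S a₀ a - (((0 : ℕ) : Polynomial RT) * dS S +
        (m : Polynomial RT) * X * derivative (dS S))).coeff s = a₀ + ∑ P ∈ S, a P -
          (m * s : ℕ) := by
    have e1 : (al S a₀ a - (((0 : ℕ) : Polynomial RT) * dS S +
        (m : Polynomial RT) * X * derivative (dS S))) =
          al S a₀ a - C (m : RT) * (X * derivative (dS S)) := by
      rw [map_natCast]; push_cast; ring
    have e2 : (X * derivative (dS S)).natDegree ≤ s ∧
        (X * derivative (dS S)).coeff s = (s : RT) := by
      rcases Nat.eq_zero_or_pos s with hs | hs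
      · have : dS S = 1 := by
          have hS : S = ∅ := Finset.card_eq_zero.1 hs
          rw [hS]; rfl
        rw [this, hs]; simp
      · constructor
        · have := natDegree_derivative_le (dS S)
          refine natDegree_mul_le.trans ?_
          rw [natDegree_X]; omega
        · obtain ⟨s', hs'⟩ : ∃ s', s = s' + 1 := ⟨s - 1, by omega⟩
          rw [hs', coeff_X_mul, coeff_derivative, ← hs', hD1, hs']
          push_cast; ring
    rw [e1]
    constructor
    · exact (natDegree_sub_le _ _).trans (max_le a1 ((natDegree_C_mul_le _ _).trans e2.1))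
    · rw [coeff_sub, a2, coeff_C_mul, e2.2]; push_cast; ring
  have h3 : (derivative q * denT S).coeff (e + s) = (e : RT) * q.coeff e := by
    rcases Nat.eq_zero_or_pos e with he | he
    · have : derivative q = 0 := derivative_of_natDegree_zero he
      rw [this, he]; simp
    · obtain ⟨e', he'⟩ : ∃ e', e = e' + 1 := ⟨e - 1, by omega⟩
      have e1 : e + s = e' + (s + 1) := by omega
      rw [e1, coeff_mul_add_eq_of_natDegree_le (by
        have := natDegree_derivative_le q; omega) (den_natDegree S).le, coeff_derivative, ← he']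
      have := (den_monic S).coeff_natDegree
      rw [den_natDegree] at this
      rw [this, he']
      push_cast; ring
  have h4 := congrArg (fun p => coeff p (e + s)) hE
  rw [coeff_add, h3, coeff_mul_add_eq_of_natDegree_le le_rfl h2.1, h2.2, h1] at h4
  have h5 : q.coeff e * ((e : RT) + (a₀ + ∑ P ∈ S, a P) - (m * s : ℕ)) = 0 := by
    linear_combination h4
  rcases mul_eq_zero.1 h5 with h6 | h6
  · exact hq (leadingCoeff_eq_zero.1 h6)
  · apply hinf ((m * s : ℕ) - (e : ℤ))
    push_cast at h6 ⊢
    linear_combination h6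

theorem om_mul (S : Finset ℂ) (K m j : ℕ) :
    omT S K m (X ^ j) * io S (dS S ^ m) = io S (X ^ (j + K)) := by
  unfold omT
  rw [aeval_X_pow, mul_assoc]
  have h1 : (∏ P ∈ S, QT S P ^ m) * io S (dS S ^ m) = 1 := by
    rw [Finset.prod_pow, map_pow, ← mul_pow]
    have : (∏ P ∈ S, QT S P) * io S (dS S) = 1 := by
      unfold dS
      rw [map_prod, ← Finset.prod_mul_distrib]
      apply Finset.prod_eq_one
      intro P hP
      unfold QT
      have e1 : X * (∏ P' ∈ S.erase P, (X - C (PowerSeries.C P'))) * (X - C (PowerSeries.C P)) =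
          denT S := by
        rw [den_eq, ← dS_eq S P hP]; unfold dP; ring
      rw [mul_assoc, mul_comm (IsLocalization.Away.invSelf (denT S)), ← mul_assoc, ← map_mul, e1]
      exact io_inv S
    rw [this, one_pow]
  rw [h1, mul_one]
  unfold YT
  rw [← pow_add, ← map_pow]

end LEX7Aux

open LEX7Aux Polynomial in
theorem stmt_LEXC : Stmt_LEXC := by
  intro S a₀ a K K' m₀ hne h0 hP hinf h00
  classical
  set s := S.card with hs
  have hs1 : 1 ≤ s := Finset.card_pos.2 hne
  by_contra hcon
  push Not at hcon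
  -- `m = M + 1`
  set M := m₀ + K + K' + 1 with hM
  have hM1 : K + K' + 1 ≤ M * s := by
    calc K + K' + 1 ≤ M := by omega
      _ = M * 1 := (mul_one M).symm
      _ ≤ M * s := Nat.mul_le_mul_left M hs1
  have hMs : (M + 1) * s = M * s + s := by ring
  set n := (M + 1) * s - (K + K') + 1 with hn
  have key : ∀ j : Fin n, ∃ (r : RT) (g : MT S), r ≠ 0 ∧
      nabT S a₀ a g = r • omT S K (M + 1) (X ^ (j : ℕ)) := by
    intro j
    obtain ⟨r, hr, g, hg⟩ := hcon (M + 1) (X ^ (j : ℕ)) (by omega) (by
      rw [natDegree_X_pow]; have := j.2; omega)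
    exact ⟨r, g, hr, hg⟩
  choose r g hr hg using key
  have ha₀ : ∀ j : ℕ, 1 ≤ j → a₀ ≠ j := by
    intro j hj
    rcases h00 with h | ⟨h, _, _⟩
    · have := h j; push_cast at this; exact this
    · rw [h]; intro hz
      have h1 := congrArg PowerSeries.constantCoeff hz
      rw [map_zero, map_natCast] at h1
      have h2 : j = 0 := by exact_mod_cast h1.symm
      omega
  have hw : ∀ j : Fin n, nabT S a₀ a (g j) * io S (dS S ^ (M + 1)) =
      io S (C (r j) * X ^ ((j : ℕ) + K)) := by
    intro j
    rw [hg j, smul_mul_assoc, om_mul, Algebra.smul_def, algMap_eq, ← map_mul]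
  have hq : ∀ j : Fin n, ∃ q : Polynomial RT, g j * io S (X ^ 0 * dS S ^ M) = io S q := by
    intro j
    obtain ⟨⟨q, y⟩, hq⟩ := IsLocalization.surj (Submonoid.powers (denT S)) (g j)
    obtain ⟨y, k, hy⟩ := y
    simp only at hq hy
    subst hy
    have h1 : g j * io S (X ^ (M + k) * dS S ^ (M + k)) = io S (q * denT S ^ M) := by
      rw [← den_pow, add_comm, pow_add, map_mul, ← mul_assoc, map_mul]
      congr 1
    obtain ⟨q', hq'⟩ := lemA S h0 a₀ a hP (g j) _ (M + k) M (hw j) k _ h1
    exact lemB S h0 a₀ a ha₀ (g j) _ M (hw j) _ _ hq'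
  choose q hq using hq
  have hE : ∀ j : Fin n, derivative (q j) * denT S + q j * (al S a₀ a -
      (((0 : ℕ) : Polynomial RT) * dS S + (M : Polynomial RT) * X * derivative (dS S))) =
        C (r j) * X ^ ((j : ℕ) + K) * (X ^ (0 + 1) * dS S ^ 0) := fun j =>
    num_eq S a₀ a (g j) (q j) _ 0 M (M + 1) 0 (hq j) (hw j) (by omega)
  have hdeg : ∀ j : Fin n, q j = 0 ∨ (q j).natDegree + s ≤ (j : ℕ) + K + 1 := by
    intro j
    by_cases h : q j = 0
    · exact Or.inl h
    · exact Or.inr (lemD S a₀ a hinf (q j) (r j) K j M (hE j) h)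
  -- a linear relation
  obtain ⟨c, hc0, hc⟩ : ∃ c : Fin n → RT, c ≠ 0 ∧ ∑ j, C (c j) * q j = 0 := by
    -- `q j = X^u p j` with `p j` of degree `< n'`, `n' < n`
    obtain ⟨u, n', p, hn', hp, hpd⟩ : ∃ (u n' : ℕ) (p : Fin n → Polynomial RT), n' < n ∧
        (∀ j, q j = X ^ u * p j) ∧ ∀ j i, n' ≤ i → (p j).coeff i = 0 := by
      rcases h00 with h | ⟨h, hK, hcard⟩
      · have h1 : ∀ j, X ^ (K + 1) ∣ q j := fun j =>
          lemC S h0 a₀ a h (q j) (r j) K j M (hE j) (K + 1) le_rfl
        choose p hp using h1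
        refine ⟨K + 1, M * s - (K + K') + 1, p, by omega, hp, ?_⟩
        intro j i hi
        have h2 : (p j).coeff i = (q j).coeff (i + (K + 1)) := by
          rw [hp j, coeff_X_pow_mul]
        rw [h2]
        rcases hdeg j with h3 | h3
        · rw [h3, coeff_zero]
        · apply coeff_eq_zero_of_natDegree_lt
          have := j.2
          omega
      · refine ⟨0, M * s + 2 - K', q, by omega, fun j => by simp, ?_⟩
        intro j i hi
        rcases hdeg j with h3 | h3
        · rw [h3, coeff_zero]
        · apply coeff_eq_zero_of_natDegree_lt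
          have := j.2
          omega
    let φ : (Fin n → RT) →ₗ[RT] (Fin n' → RT) :=
      { toFun := fun c i => ∑ j, c j * (p j).coeff i
        map_add' := by intro c c'; ext1 i; simp [add_mul, Finset.sum_add_distrib]
        map_smul' := by
          intro x c; ext1 i
          simp only [Pi.smul_apply, smul_eq_mul, RingHom.id_apply, Finset.mul_sum, mul_assoc] }
    have hφ : ¬ Function.Injective φ := by
      intro h
      have := card_le_of_injective RT φ h
      simp only [Fintype.card_fin] at this
      omega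
    rw [injective_iff_map_eq_zero] at hφ
    push Not at hφ
    obtain ⟨c, hc, hc0⟩ := hφ
    refine ⟨c, hc0, ?_⟩
    have h1 : ∑ j, C (c j) * p j = 0 := by
      refine Polynomial.ext fun i => ?_
      rw [finsetSum_coeff, coeff_zero]
      simp only [coeff_C_mul]
      by_cases hi : i < n'
      · exact congrFun hc ⟨i, hi⟩
      · apply Finset.sum_eq_zero
        intro j _
        rw [hpd j i (by omega), mul_zero]
    have h2 : ∑ j, C (c j) * q j = X ^ u * ∑ j, C (c j) * p j := by
      rw [Finset.mul_sum]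
      apply Finset.sum_congr rfl
      intro j _
      rw [hp j]; ring
    rw [h2, h1, mul_zero]
  -- the same relation for `g`
  have hu : IsUnit (io S (X ^ 0 * dS S ^ M)) := by
    rw [pow_zero, one_mul, map_pow]
    apply IsUnit.pow
    apply isUnit_of_mul_isUnit_right (x := io S X)
    rw [← map_mul, ← den_eq]
    exact IsUnit.of_mul_eq_one _ (io_inv S)
  have hg0 : ∑ j, c j • g j = 0 := by
    apply hu.mul_left_injective
    simp only
    rw [zero_mul, Finset.sum_mul]
    have : ∀ j ∈ Finset.univ, c j • g j * io S (X ^ 0 * dS S ^ M) = io S (C (c j) * q j) := by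
      intro j _
      rw [smul_mul_assoc, hq j, Algebra.smul_def, algMap_eq, ← map_mul]
    rw [Finset.sum_congr rfl this, ← map_sum, hc, map_zero]
  have h1 : ∑ j, C (c j) * (C (r j) * X ^ ((j : ℕ) + K)) = 0 := by
    apply io_inj S
    rw [map_sum, map_zero]
    have h2 := congrArg (fun x => nabT S a₀ a x * io S (dS S ^ (M + 1))) hg0
    rw [map_sum, map_zero, zero_mul, Finset.sum_mul] at h2
    rw [← h2]
    apply Finset.sum_congr rfl
    intro j _
    rw [map_smul, smul_mul_assoc, hw j, Algebra.smul_def, algMap_eq, ← map_mul]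
  apply hc0
  funext j
  have h2 := congrArg (fun p => coeff p ((j : ℕ) + K)) h1
  simp only [coeff_zero, finsetSum_coeff] at h2
  rw [Finset.sum_eq_single j] at h2
  · rw [coeff_C_mul, coeff_C_mul_X_pow, if_pos rfl] at h2
    exact (mul_eq_zero.1 h2).resolve_right (hr j)
  · intro i _ hij
    rw [coeff_C_mul, coeff_C_mul_X_pow, if_neg, mul_zero]
    intro h
    exact hij (Fin.ext (by omega))
  · intro h; exact absurd (Finset.mem_univ j) h

end Pool.Agent.Mono.BG
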