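import Pool.Agent.Work.Monodromy7.LEXA
import Pool.Agent.Work.Monodromy7.LEXC

/-!
# The linear form over the ring of the deformation (helper26)
-/

set_option autoImplicit false

namespace Pool.Agent.Mono.BG

theorem lex7_of (hA : Stmt_LEXA) (hB : Stmt_LEXB) (hC : Stmt_LEXC) : Stmt_LEX7 := by
  intro S a₀ a K K' m₀ hne h0 hP hinf h00
  obtain ⟨m, h, h1, h2, h3⟩ := hC S a₀ a K K' m₀ hne h0 hP hinf h00
  obtain ⟨s, hs⟩ := hB S a₀ a h0
  obtain ⟨L, h4, h5⟩ := hA (MT S) (LinearMap.range (nabT S a₀ a)) s (omT S K m h) hs h3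
  exact ⟨L, m, h, fun g => h4 _ ⟨g, rfl⟩, h1, h2, h5⟩

theorem stmt_LEX7 : Stmt_LEX7 := lex7_of stmt_LEXA stmt_LEXB stmt_LEXC

end Pool.Agent.Mono.BG
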