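import Pool.Agent.Work.Monodromy.Interface7W
import Pool.Agent.Work.Monodromy6.CH6

/-!
# Block LF7: leading forms along an edge
-/

set_option autoImplicit false
set_option linter.unusedSectionVars false

namespace Pool.Agent.Mono.BG

open MvPolynomial TS PC RO

namespace LF7Aux

open CH6Aux

/-- all monomials have weight at least `n` -/
def Wt (p q n : ℕ) (F : P2) : Prop := ∀ d ∈ F.support, n ≤ p * d 0 + q * d 1

variable {p q : ℕ}

theorem wt_mono {n m : ℕ} {F : P2} (h : Wt p q n F) (hm : m ≤ n) : Wt p q m F :=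
  fun d hd => hm.trans (h d hd)

theorem wt_add {n : ℕ} {F G : P2} (hF : Wt p q n F) (hG : Wt p q n G) : Wt p q n (F + G) := by
  intro d hd
  rcases Finset.mem_union.1 (MvPolynomial.support_add hd) with h | h
  · exact hF d h
  · exact hG d h

theorem wt_mul {n m : ℕ} {F G : P2} (hF : Wt p q n F) (hG : Wt p q m G) :
    Wt p q (n + m) (F * G) := by
  intro d hd
  obtain ⟨a, ha, b, hb, rfl⟩ := Finset.mem_add.1 (MvPolynomial.support_mul F G hd)
  have h1 := hF a ha
  have h2 := hG b hb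
  simp only [Finsupp.add_apply]
  nlinarith

theorem wt_zero (F : P2) : Wt p q 0 F := fun _ _ => Nat.zero_le _

theorem wt_X0 : Wt p q p (X 0) := by
  intro d hd
  rw [MvPolynomial.support_X, Finset.mem_singleton] at hd
  rw [hd]
  simp

theorem wt_X1 : Wt p q q (X 1) := by
  intro d hd
  rw [MvPolynomial.support_X, Finset.mem_singleton] at hd
  rw [hd]
  simp

theorem wt_pow {n : ℕ} {F : P2} (hF : Wt p q n F) (k : ℕ) : Wt p q (k * n) (F ^ k) := by
  induction k with
  | zero =>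
    rw [Nat.zero_mul]
    exact wt_zero _
  | succ k ih =>
    rw [pow_succ, Nat.succ_mul]
    exact wt_mul ih hF

theorem wt_mul_left {n : ℕ} {F : P2} (G : P2) (hF : Wt p q n F) : Wt p q n (G * F) := by
  have h := wt_mul (wt_zero G) hF
  rwa [Nat.zero_add] at h

theorem wt_mul_right {n : ℕ} {F : P2} (G : P2) (hF : Wt p q n F) : Wt p q n (F * G) :=
  wt_mul hF (wt_zero G)

/-- `F₀` is the leading form of `F` -/
def LT (p q n : ℕ) (F F₀ : P2) : Prop := Wt p q n F₀ ∧ Wt p q (n + 1) (F - F₀)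

theorem lt_mul {n m : ℕ} {F F₀ G G₀ : P2} (hF : LT p q n F F₀) (hG : LT p q m G G₀) :
    LT p q (n + m) (F * G) (F₀ * G₀) := by
  refine ⟨wt_mul hF.1 hG.1, ?_⟩
  have h1 : F * G - F₀ * G₀ = (F - F₀) * G₀ + (F₀ + (F - F₀)) * (G - G₀) := by ring
  rw [h1]
  refine wt_add ?_ ?_
  · exact wt_mono (wt_mul hF.2 hG.1) (by omega)
  · exact wt_mono (wt_mul (wt_add hF.1 (wt_mono hF.2 (Nat.le_succ _))) hG.2) (by omega)

theorem lt_pow {n : ℕ} {F F₀ : P2} (hF : LT p q n F F₀) (k : ℕ) :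
    LT p q (k * n) (F ^ k) (F₀ ^ k) := by
  induction k with
  | zero =>
    rw [Nat.zero_mul, pow_zero, pow_zero]
    refine ⟨wt_zero _, ?_⟩
    rw [sub_self]
    intro d hd
    simp at hd
  | succ k ih =>
    rw [pow_succ, pow_succ, Nat.succ_mul]
    exact lt_mul ih hF

theorem wt_e0 (hp : 1 ≤ p) (hq : 1 ≤ q) (h : P2) : Wt p q 1 (h - C (e0 h)) := by
  obtain ⟨A, B, hAB⟩ := decomp h
  have h1 : h - C (e0 h) = X 0 * A + X 1 * B := by
    conv_lhs =>
      enter [1]
      rw [hAB]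
    ring
  rw [h1]
  exact wt_add (wt_mul_right _ (wt_mono wt_X0 hp)) (wt_mul_right _ (wt_mono wt_X1 hq))

end LF7Aux

open CH6Aux LF7Aux

theorem stmt_LF7 : Stmt_LF7 := by
  intro M H e Φ hc p q hp hq _ m a ham
  obtain ⟨hCA, -, -⟩ := ca_chart hc
  obtain ⟨χ, h, g, h1, h2⟩ := approx hCA q
  obtain ⟨φ, ω, h3, h4⟩ := hCA.2 (p * e + q) (by nlinarith)
  have hK : q < p * (q + 1) := by nlinarith
  have l1 : LT p q (p * e + q) (chartMap M H Φ χ) (C (e0 h) * X 0 ^ e * X 1) := by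
    refine ⟨?_, ?_⟩
    · have := wt_mul (wt_mul_left (C (e0 h)) (wt_pow (wt_X0 (p := p) (q := q)) e)) wt_X1
      exact wt_mono this (by rw [Nat.mul_comm])
    · have e1 : chartMap M H Φ χ - C (e0 h) * X 0 ^ e * X 1 =
          X 0 ^ e * X 1 * (h - C (e0 h)) + X 0 ^ (e + (q + 1)) * g := by
        rw [h1]
        ring
      rw [e1]
      refine wt_add ?_ ?_
      · have := wt_mul (wt_mul (wt_pow (wt_X0 (p := p) (q := q)) e) wt_X1) (wt_e0 hp hq h)
        exact wt_mono this (by rw [Nat.mul_comm e p])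
      · have := wt_mul_right g (wt_pow (wt_X0 (p := p) (q := q)) (e + (q + 1)))
        refine wt_mono this ?_
        nlinarith
  have l2 : LT p q (p * (p * e + q)) (chartMap M H Φ φ) (C (e0 ω) * X 0 ^ (p * e + q)) := by
    refine ⟨?_, ?_⟩
    · have := wt_mul_left (C (e0 ω)) (wt_pow (wt_X0 (p := p) (q := q)) (p * e + q))
      exact wt_mono this (by rw [Nat.mul_comm])
    · have e1 : chartMap M H Φ φ - C (e0 ω) * X 0 ^ (p * e + q) =
          X 0 ^ (p * e + q) * (ω - C (e0 ω)) := by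
        rw [h3]
        ring
      rw [e1]
      have := wt_mul (wt_pow (wt_X0 (p := p) (q := q)) (p * e + q)) (wt_e0 hp hq ω)
      exact wt_mono this (by rw [Nat.mul_comm (p * e + q) p])
  obtain ⟨k, rfl⟩ : ∃ k, m = a + k := ⟨m - a, by omega⟩
  refine ⟨χ ^ (p * a) * φ ^ k, e0 h ^ (p * a) * e0 ω ^ k,
    mul_ne_zero (pow_ne_zero _ h2) (pow_ne_zero _ h4), ?_⟩
  have l3 := lt_mul (lt_pow l1 (p * a)) (lt_pow l2 k)
  have e1 : chartMap M H Φ (χ ^ (p * a) * φ ^ k) =
      chartMap M H Φ χ ^ (p * a) * chartMap M H Φ φ ^ k := by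
    rw [map_mul, map_pow, map_pow]
  have e2 : (p * e + q) * (a + k) - q * a = e * (p * a) + (p * e + q) * k := by
    have : (p * e + q) * (a + k) = (e * (p * a) + (p * e + q) * k) + q * a := by ring
    omega
  have e3 : (C (e0 h ^ (p * a) * e0 ω ^ k) * X 0 ^ ((p * e + q) * (a + k) - q * a) *
      X 1 ^ (p * a) : P2) =
      (C (e0 h) * X 0 ^ e * X 1) ^ (p * a) * (C (e0 ω) * X 0 ^ (p * e + q)) ^ k := by
    rw [e2]
    simp only [map_mul, map_pow, mul_pow, pow_add, ← pow_mul]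
    ring
  intro d hd
  rw [e1, e3] at hd
  have h5 := l3.2 d hd
  have e4 : p * a * (p * e + q) + k * (p * (p * e + q)) = p * (p * e + q) * (a + k) := by ring
  rw [e4] at h5
  omega

end Pool.Agent.Mono.BG
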