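import Pool.Agent.Work.Monodromy.Interface7W
import Pool.Agent.Work.Monodromy6.MF6

/-!
# Block MF7: witnesses for multiple components (as MF6)
-/

set_option autoImplicit false
set_option linter.unusedSectionVars false

namespace Pool.Agent.Mono.BG

open MvPolynomial TS PC RO

open PC.MF6Aux W7Aux in
theorem stmt_MF7 : Stmt_MF7 := by
  intro ι _ _ g h m hm hg0 hx
  obtain ⟨x0, hgx, hhx⟩ := hx
  have hm0 : (m : ℂ) ≠ 0 := by
    have : m ≠ 0 := by omega
    exact_mod_cast this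
  have hh0 : h ≠ 0 := by
    rintro rfl
    exact hhx (map_zero _)
  have hinj := IsFractionRing.injective (MvPolynomial ι ℂ) (FF ℂ ι)
  have hne : ∀ p : MvPolynomial ι ℂ, p ≠ 0 → toF ℂ p ≠ 0 := by
    intro p hp h
    exact hp (hinj (h.trans (map_zero _).symm))
  set G : FF ℂ ι := toF ℂ g with hG
  set H : FF ℂ ι := toF ℂ h with hH
  have hG0 : G ≠ 0 := hne g hg0
  have hH0 : H ≠ 0 := hne h hh0
  set b : ℂ := -1 / (m : ℂ) with hb
  set B : FF ℂ ι := algebraMap ℂ (FF ℂ ι) b with hB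
  have hdH : ∀ i, dF ℂ i H = toF ℂ (pderiv i h) := fun i => dF_toF ℂ i h
  have hdG : ∀ i, dF ℂ i G = toF ℂ (pderiv i g) := fun i => dF_toF ℂ i g
  set N : Submodule ℂ (FF ℂ ι) := PC.MF6Aux.loc h with hN
  have hpoly : ∀ p : MvPolynomial ι ℂ, toF ℂ p ∈ N := fun p => ⟨0, p, by simp⟩
  have hmulN : ∀ (p : MvPolynomial ι ℂ), ∀ x ∈ N, toF ℂ p * x ∈ N := by
    rintro p x ⟨n, r, hx⟩
    exact ⟨n, p * r, by rw [toF_mul, ← hx]; ring⟩
  have hX : ∀ i, N ≤ N.comap ((wT H hH0 b).X' i) := fun i x hx => hmulN (X i) x hx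
  have hD : ∀ i, N ≤ N.comap ((wT H hH0 b).D' i) := by
    rintro i x ⟨n, p, hx⟩
    change dF ℂ i x + B * (dF ℂ i H * H⁻¹) * x ∈ N
    have h1 := congrArg (fun y => dF ℂ i y) hx
    simp only [Derivation.leibniz, Derivation.leibniz_pow, smul_eq_mul, nsmul_eq_mul,
      dF_toF] at h1
    have hB' : B = toF ℂ (C b) := by
      rw [toF, ← MvPolynomial.algebraMap_eq, ← IsScalarTower.algebraMap_apply]
    refine ⟨n + 1, pderiv i p * h - C (n : ℂ) * (p * pderiv i h) + C b * (pderiv i h * p), ?_⟩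
    have h2 : toF ℂ (pderiv i p * h - C (n : ℂ) * (p * pderiv i h) + C b * (pderiv i h * p)) =
        toF ℂ (pderiv i p) * H - (n : FF ℂ ι) * (toF ℂ p * toF ℂ (pderiv i h)) +
          B * (toF ℂ (pderiv i h) * toF ℂ p) := by
      rw [hB', map_natCast (C : ℂ →+* MvPolynomial ι ℂ)]
      simp [toF, hH]
    rw [h2, ← h1, ← hx, hdH]
    rcases n with _ | n
    · simp only [Nat.cast_zero, zero_mul, pow_zero, mul_one, mul_zero,
        zero_add, pow_one]
      rw [← hH]
      field_simp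
      ring
    · simp only [Nat.add_sub_cancel]
      push_cast
      field_simp
      ring
  let c : ℕ → ℂ := fun i => ∏ l ∈ Finset.range i, (b - l)
  have hc : ∀ i, c (i + 1) = c i * (b - i) := fun i => Finset.prod_range_succ _ _
  let u : ℕ → FF ℂ ι := fun i => G⁻¹ ^ (1 + m * i) * H⁻¹ ^ i
  have hf : toF ℂ (g ^ m * h) = G ^ m * H := by simp [toF, hG, hH]
  have hpd : ∀ a, toF ℂ (pderiv a (g ^ m * h)) =
      (m : FF ℂ ι) * G ^ (m - 1) * toF ℂ (pderiv a g) * H + G ^ m * toF ℂ (pderiv a h) := by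
    intro a
    rw [Derivation.leibniz, Derivation.leibniz_pow]
    simp only [smul_eq_mul, nsmul_eq_mul]
    simp only [toF, map_add, map_mul, map_pow, map_natCast]
    simp only [toF] at hG hH
    rw [← hG, ← hH]
    ring
  refine ⟨FF ℂ ι ⧸ N, inferInstance, inferInstance, quot (wT H hH0 b) N hX hD,
    fun i => N.mkQ (c i • u i), ?_, ?_, ?_, ?_, ?_⟩
  · intro h1
    have h2 : c 0 • u 0 = G⁻¹ := by simp [c, u]
    simp only [h2] at h1
    rw [Submodule.mkQ_apply, Submodule.Quotient.mk_eq_zero] at h1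
    obtain ⟨n, p, hp⟩ := h1
    have h3 : toF ℂ (h ^ n) = toF ℂ (g * p) := by
      rw [toF_mul, ← hp, ← hG, toF, map_pow]
      change H ^ n = G * (G⁻¹ * H ^ n)
      rw [mul_inv_cancel_left₀ hG0]
    have h4 : h ^ n = g * p := hinj h3
    have h5 := congrArg (fun P => eval x0 P) h4
    simp only [map_pow, map_mul, hgx, zero_mul] at h5
    exact pow_ne_zero n hhx h5
  · simp only
    rw [quot_pX, pX_wT, Submodule.mkQ_apply, Submodule.Quotient.mk_eq_zero, hf]
    have h1 : G ^ m * H * c 0 • u 0 = toF ℂ (g ^ (m - 1) * h) := by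
      obtain ⟨n, rfl⟩ : ∃ n, m = n + 1 := ⟨m - 1, by omega⟩
      simp only [c, u, Finset.range_zero, Finset.prod_empty, one_smul, mul_zero, add_zero, pow_one,
        pow_zero, mul_one, Nat.add_sub_cancel]
      rw [toF_mul, ← hH]
      have : toF ℂ (g ^ n) = G ^ n := by simp [toF, hG]
      rw [this, pow_succ]
      field_simp
    rw [h1]
    exact hpoly _
  · intro a
    simp only
    rw [quot_pX, pX_wT, Submodule.mkQ_apply, Submodule.Quotient.mk_eq_zero, hpd]
    have h1 : ((m : FF ℂ ι) * G ^ (m - 1) * toF ℂ (pderiv a g) * H +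
        G ^ m * toF ℂ (pderiv a h)) * c 0 • u 0 =
        toF ℂ (C (m : ℂ) * (g ^ (m - 2) * (pderiv a g * h)) + g ^ (m - 1) * pderiv a h) := by
      obtain ⟨n, rfl⟩ : ∃ n, m = n + 2 := ⟨m - 2, by omega⟩
      simp only [c, u, Finset.range_zero, Finset.prod_empty, one_smul, mul_zero, add_zero, pow_one,
        pow_zero, mul_one, Nat.add_sub_cancel, show n + 2 - 1 = n + 1 from rfl]
      rw [map_natCast (C : ℂ →+* MvPolynomial ι ℂ)]
      simp only [toF, map_add, map_mul, map_pow, map_natCast]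
      simp only [toF] at hG hH
      rw [← hG, ← hH]
      field_simp
      push_cast
      ring
    rw [h1]
    exact hpoly _
  · intro i a
    simp only
    rw [quot_pX, quot_D, pX_wT]
    congr 1
    have h1 : (wT H hH0 b).D' a (c i • u i) = c i •
        (-(1 + (m : FF ℂ ι) * i) * (G⁻¹ ^ (2 + m * i) * H⁻¹ ^ i) * toF ℂ (pderiv a g) +
          (B - i) * (G⁻¹ ^ (1 + m * i) * H⁻¹ ^ (i + 1)) * toF ℂ (pderiv a h)) := by
      rw [map_smul]
      congr 1
      change dF ℂ a (u i) + B * (dF ℂ a H * H⁻¹) * u i = _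
      simp only [u]
      rw [Derivation.leibniz, Derivation.leibniz_pow, Derivation.leibniz_pow,
        Derivation.leibniz_inv, Derivation.leibniz_inv, hdG, hdH]
      simp only [smul_eq_mul, nsmul_eq_mul, Nat.add_sub_cancel_left]
      rcases i with _ | i
      · simp only [Nat.cast_zero, mul_zero, add_zero, pow_zero, zero_mul, mul_one, zero_add,
          pow_one, Nat.cast_one]
        ring
      · simp only [Nat.add_sub_cancel]
        push_cast
        have e1 : H⁻¹ ^ (i + 1 + 1) = H⁻¹ ^ i * H⁻¹ * H⁻¹ := by rw [pow_succ, pow_succ]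
        have e2 : H⁻¹ ^ (i + 1) = H⁻¹ ^ i * H⁻¹ := pow_succ _ _
        have e3 : G⁻¹ ^ (2 + m * (i + 1)) = G⁻¹ ^ (m * (i + 1)) * G⁻¹ ^ 2 := by
          rw [add_comm, pow_add]
        have e4 : G⁻¹ ^ (1 + m * (i + 1)) = G⁻¹ ^ (m * (i + 1)) * G⁻¹ := by
          rw [add_comm, pow_succ]
        rw [e1, e2, e3, e4]
        ring
    rw [h1, hpd, hc]
    have h2 : G ^ (m - 1) * G⁻¹ ^ (1 + m * (i + 1)) = G⁻¹ ^ (2 + m * i) := by
      have : 1 + m * (i + 1) = (m - 1) + (2 + m * i) := by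
        obtain ⟨n, rfl⟩ : ∃ n, m = n + 2 := ⟨m - 2, by omega⟩
        simp only [show n + 2 - 1 = n + 1 from rfl]
        ring
      rw [this, pow_add, ← mul_assoc, ← mul_pow, mul_inv_cancel₀ hG0, one_pow, one_mul]
    have h2' : G ^ m * G⁻¹ ^ (1 + m * (i + 1)) = G⁻¹ ^ (1 + m * i) := by
      have : 1 + m * (i + 1) = m + (1 + m * i) := by ring
      rw [this, pow_add, ← mul_assoc, ← mul_pow, mul_inv_cancel₀ hG0, one_pow, one_mul]
    have h3 : (c i * (b - i)) • u (i + 1) =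
        c i • ((B - i) * (G⁻¹ ^ (1 + m * (i + 1)) * H⁻¹ ^ (i + 1))) := by
      rw [mul_smul, Algebra.smul_def (b - i), map_sub, map_natCast]
    rw [h3, mul_smul_comm]
    congr 1
    have h4 : (m : FF ℂ ι) * (B - i) = -(1 + (m : FF ℂ ι) * i) := by
      rw [hB, ← map_natCast (algebraMap ℂ (FF ℂ ι)) m, ← map_natCast (algebraMap ℂ (FF ℂ ι)) i,
        ← map_one (algebraMap ℂ (FF ℂ ι)), ← map_sub, ← map_mul, ← map_mul, ← map_add, ← map_neg]
      congr 1
      rw [hb]
      field_simp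
      ring
    have h5 : H * H⁻¹ ^ (i + 1) = H⁻¹ ^ i := by
      rw [pow_succ']
      rw [← mul_assoc, mul_inv_cancel₀ hH0, one_mul]
    rw [← h4, ← h2, ← h2', ← h5]
    ring
  · intro i
    simp only
    rw [quot_pX, pX_wT, ← map_smul, hc, hf]
    congr 1
    have h2' : G ^ m * G⁻¹ ^ (1 + m * (i + 1)) = G⁻¹ ^ (1 + m * i) := by
      have : 1 + m * (i + 1) = m + (1 + m * i) := by ring
      rw [this, pow_add, ← mul_assoc, ← mul_pow, mul_inv_cancel₀ hG0, one_pow, one_mul]
    have h5 : H * H⁻¹ ^ (i + 1) = H⁻¹ ^ i := by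
      rw [pow_succ']
      rw [← mul_assoc, mul_inv_cancel₀ hH0, one_mul]
    have h6 : G ^ m * H * u (i + 1) = u i := by
      simp only [u]
      rw [← h2', ← h5]
      ring
    rw [mul_smul_comm, h6, smul_smul, mul_comm (c i)]

end Pool.Agent.Mono.BG
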