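import Pool.Agent.Work.Monodromy7.POW7

/-!
# Block RES7: residues along `X = 0` over a ring
-/

set_option autoImplicit false
set_option linter.unusedSectionVars false

namespace Pool.Agent.Mono.BG

open MvPolynomial TS PC RO

namespace RES7Aux

open POW7Aux

section

variable {R M : Type} [CommRing R] [Algebra ℂ R] [CommRing M] [Algebra ℂ M] [Algebra R M]
  [IsScalarTower ℂ R M]

/-! ### derivations -/

theorem dXC (D : Derivation R M M) (F : PowerSeries M) :
    dXD (R := R) (dCD D F) = dCD D (dXD (R := R) F) := by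
  ext n
  rw [dXD_apply, dCD_apply, dCD_apply, dXD_apply, dXf, dXf, dCf, dCf, PowerSeries.coeff_mk,
    PowerSeries.coeff_derivative, PowerSeries.coeff_derivative, PowerSeries.coeff_mk,
    Derivation.leibniz]
  have : D ((n : M) + 1) = 0 := by
    have h : ((n : M) + 1) = algebraMap R M ((n : R) + 1) := by simp
    rw [h, Derivation.map_algebraMap]
  rw [this, smul_zero, zero_add, smul_eq_mul, mul_comm]

/-- the bracket -/
noncomputable def br (D : Derivation R M M) (A B : PowerSeries M) : PowerSeries M :=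
  dXD (R := R) A * dCD D B - dCD D A * dXD (R := R) B

theorem chain (E : Derivation R (PowerSeries M) (PowerSeries M)) (σ : P2 →ₐ[ℂ] PowerSeries M)
    (φ : P2) : E (σ φ) = σ (pderiv 0 φ) * E (σ (X 0)) + σ (pderiv 1 φ) * E (σ (X 1)) := by
  induction φ using MvPolynomial.induction_on with
  | C a =>
    have h : σ (C a) = algebraMap ℂ (PowerSeries M) a := σ.commutes a
    have h1 : algebraMap ℂ (PowerSeries M) a = algebraMap R (PowerSeries M) (algebraMap ℂ R a) :=
      IsScalarTower.algebraMap_apply ℂ R (PowerSeries M) a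
    rw [h, h1, Derivation.map_algebraMap, pderiv_C, pderiv_C, map_zero]
    ring
  | add p q hp hq =>
    rw [map_add, map_add, hp, hq, map_add, map_add, map_add, map_add]
    ring
  | mul_X p i hp =>
    rw [map_mul, Derivation.leibniz, hp, Derivation.leibniz, Derivation.leibniz]
    simp only [smul_eq_mul, map_add, map_mul]
    fin_cases i
    · simp [pderiv_X]
      ring
    · simp [pderiv_X]
      ring

theorem br_mul (D : Derivation R M M) (u v b : PowerSeries M) :
    br D (u * v) b = u * br D v b + v * br D u b := by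
  rw [br, br, br, Derivation.leibniz, Derivation.leibniz]
  simp only [smul_eq_mul]
  ring

theorem br_leib (D : Derivation R M M) (T b : PowerSeries M) :
    dXD (R := R) (T * dCD D b) - dCD D (T * dXD (R := R) b) = br D T b := by
  have h3 := dXC D b
  rw [br, Derivation.leibniz, Derivation.leibniz]
  simp only [smul_eq_mul]
  linear_combination T * h3

theorem br0 (D : Derivation R M M) (σ : P2 →ₐ[ℂ] PowerSeries M) (φ : P2) :
    br D (σ φ) (σ (X 1)) = br D (σ (X 0)) (σ (X 1)) * σ (pderiv 0 φ) := by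
  rw [br, chain (dXD (R := R)) σ φ, chain (dCD D) σ φ, br]
  ring

theorem br1 (D : Derivation R M M) (σ : P2 →ₐ[ℂ] PowerSeries M) (φ : P2) :
    br D (σ φ) (σ (X 0)) = -(br D (σ (X 0)) (σ (X 1)) * σ (pderiv 1 φ)) := by
  rw [br, chain (dXD (R := R)) σ φ, chain (dCD D) σ φ, br]
  ring

theorem coeff_dX (n : ℕ) (hn : 1 ≤ n) (B : PowerSeries M) :
    PowerSeries.coeff (n - 1) (dXD (R := R) B) = n * PowerSeries.coeff n B := by
  obtain ⟨n, rfl⟩ : ∃ k, n = k + 1 := ⟨n - 1, by omega⟩
  rw [dXD_apply, dXf, PowerSeries.coeff_derivative, Nat.add_sub_cancel]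
  push_cast
  ring

theorem coeff_dC (D : Derivation R M M) (n : ℕ) (B : PowerSeries M) :
    PowerSeries.coeff n (dCD D B) = D (PowerSeries.coeff n B) := by
  rw [dCD_apply, dCf, PowerSeries.coeff_mk]

theorem br_XG (D : Derivation R M M) (N : ℕ) (hN : 1 ≤ N) (G h : PowerSeries M) :
    br D (PowerSeries.X ^ N * G) h = PowerSeries.X ^ (N - 1) * ((N : PowerSeries M) *
      (G * dCD D h) + PowerSeries.X * br D G h) := by
  obtain ⟨N, rfl⟩ : ∃ k, N = k + 1 := ⟨N - 1, by omega⟩
  rw [br, br, Derivation.leibniz, Derivation.leibniz, Derivation.leibniz_pow,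
    Derivation.leibniz_pow, dX_X, dC_X]
  simp only [smul_eq_mul, nsmul_eq_mul, Nat.add_sub_cancel]
  push_cast
  ring

theorem dC_Xpow (D : Derivation R M M) (n : ℕ) (B : PowerSeries M) :
    dCD D (PowerSeries.X ^ n * B) = PowerSeries.X ^ n * dCD D B := by
  rw [Derivation.leibniz, Derivation.leibniz_pow, dC_X]
  simp

theorem coeff_nat_mul (m k : ℕ) (B : PowerSeries M) :
    PowerSeries.coeff k ((m : PowerSeries M) * B) = m * PowerSeries.coeff k B := by
  rw [← map_natCast (PowerSeries.C (R := M)), PowerSeries.coeff_C_mul]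

theorem coeff_X_mul' (m : ℕ) (hm : 1 ≤ m) (B : PowerSeries M) :
    PowerSeries.coeff m (PowerSeries.X * B) = PowerSeries.coeff (m - 1) B := by
  obtain ⟨m, rfl⟩ : ∃ k, m = k + 1 := ⟨m - 1, by omega⟩
  rw [Nat.add_sub_cancel, mul_comm, PowerSeries.coeff_succ_mul_X]

theorem L_alg (L : M →ₗ[R] R) (r : R) (x : M) : L (algebraMap R M r * x) = r * L x := by
  rw [← Algebra.smul_def, map_smul, smul_eq_mul]

/-! ### the main identity -/

/-- logarithmic derivatives of `T = Γ^ε A^(-be-1) B^(-be'-1)` up to the leading factor -/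
structure LD (D : Derivation R M M) (Γ Γi A Ai B Bi : PowerSeries M) (be be' : R) (τ : M) (ε : R)
    (T : PowerSeries M) : Prop where
  hX : dXD (R := R) T = T * (cR ε * Γi * dXD (R := R) Γ + cR (-be - 1) * Ai * dXD (R := R) A +
    cR (-be' - 1) * Bi * dXD (R := R) B)
  hZ : dCD D T = T * (cR ε * Γi * dCD D Γ + cR (-be - 1) * Ai * dCD D A +
    cR (-be' - 1) * Bi * dCD D B) - PowerSeries.C τ * T

theorem LD.swap {D : Derivation R M M} {Γ Γi A Ai B Bi : PowerSeries M} {be be' : R} {τ : M}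
    {ε : R} {T : PowerSeries M} (h : LD D Γ Γi A Ai B Bi be be' τ ε T) :
    LD D Γ Γi B Bi A Ai be' be τ ε T :=
  ⟨by rw [h.hX]; ring, by rw [h.hZ]; ring⟩

theorem lemU (D : Derivation R M M) (L : M →ₗ[R] R) (τ : M) (hL : ∀ g, L (D g + τ * g) = 0)
    (N m na nb : ℕ) (hN : 1 ≤ N) (hm : 1 ≤ m) (hnb : 1 ≤ nb)
    (Γ Γi A Ai B Bi T : PowerSeries M) (ε be be' : R) (hΓ : Γ * Γi = 1)
    (hB : B * Bi = 1 ∨ be' = -1) (hT : LD D Γ Γi A Ai B Bi be be' τ ε T)
    (hrel : ε * N + m = na * (be + 1) + nb * (be' + 1)) (W0 : PowerSeries M) :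
    ε * L (PowerSeries.coeff (m + N - 1) (T * Γi *
      br D (PowerSeries.X ^ N * Γ) (PowerSeries.X ^ nb * B) * W0)) =
    (be + 1) * L ((na : M) * PowerSeries.coeff m (T * W0 * dCD D (PowerSeries.X ^ nb * B)) +
      PowerSeries.coeff (m - 1) (T * W0 * Ai * br D A (PowerSeries.X ^ nb * B))) -
      L (PowerSeries.coeff (m - 1) (T * br D W0 (PowerSeries.X ^ nb * B))) := by
  set b : PowerSeries M := PowerSeries.X ^ nb * B with hb
  have e1 := br_XG D N hN Γ b
  have e2 : T * Γi * br D (PowerSeries.X ^ N * Γ) b * W0 = PowerSeries.X ^ (N - 1) *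
      ((N : PowerSeries M) * (T * W0 * dCD D b) +
        PowerSeries.X * (T * W0 * Γi * br D Γ b)) := by
    rw [e1]
    linear_combination (PowerSeries.X ^ (N - 1) * (N : PowerSeries M) * dCD D b * W0 * T) * hΓ
  have e4 : PowerSeries.coeff (m + N - 1) (T * Γi * br D (PowerSeries.X ^ N * Γ) b * W0) =
      N * PowerSeries.coeff m (T * W0 * dCD D b) +
        PowerSeries.coeff (m - 1) (T * W0 * Γi * br D Γ b) := by
    rw [e2, show m + N - 1 = m + (N - 1) by omega, PowerSeries.coeff_X_pow_mul, map_add,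
      coeff_nat_mul, coeff_X_mul' m hm]
  -- the factor B
  have hBb : PowerSeries.X * br D B b = -((nb : PowerSeries M) * (B * dCD D b)) := by
    obtain ⟨k, hk⟩ : ∃ k, nb = k + 1 := ⟨nb - 1, by omega⟩
    rw [hb, br, dC_Xpow, Derivation.leibniz, Derivation.leibniz_pow, dX_X, hk]
    simp only [smul_eq_mul, nsmul_eq_mul, Nat.add_sub_cancel]
    push_cast
    ring
  have hBc : algebraMap R M (be' + 1) * PowerSeries.coeff (m - 1) (T * W0 * Bi * br D B b) =
      -(algebraMap R M (be' + 1) * (nb * PowerSeries.coeff m (T * W0 * dCD D b))) := by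
    rcases hB with hB | hB
    · have h1 : PowerSeries.X * (T * W0 * Bi * br D B b) =
          -((nb : PowerSeries M) * (T * W0 * dCD D b)) := by
        linear_combination (T * W0 * Bi) * hBb - ((nb : PowerSeries M) * (T * W0 * dCD D b)) * hB
      rw [← coeff_X_mul' m hm, h1, map_neg, coeff_nat_mul]
      ring
    · rw [hB]
      simp
  -- the identity of power series
  have hc : ∀ x y : R, cR (M := M) (x * y) = cR x * cR y := fun x y => by
    unfold cR; rw [map_mul, map_mul]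
  have hneg : ∀ x : R, cR (M := M) (-x - 1) = -cR (x + 1) := fun x => by
    unfold cR
    rw [← map_neg, ← map_neg]
    congr 2
    ring
  have key : cR ε * (T * W0 * Γi * br D Γ b) = dXD (R := R) (T * W0 * dCD D b) -
      dCD D (T * W0 * dXD (R := R) b) - T * br D W0 b +
      cR (be + 1) * (T * W0 * Ai * br D A b) + cR (be' + 1) * (T * W0 * Bi * br D B b) -
      PowerSeries.C τ * (T * W0 * dXD (R := R) b) := by
    have hx := hT.hX
    have hz := hT.hZ
    rw [hneg, hneg] at hx hz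
    have h5 : br D T b = T * (cR ε * Γi * br D Γ b + -cR (be + 1) * Ai * br D A b +
        -cR (be' + 1) * Bi * br D B b) + PowerSeries.C τ * T * dXD (R := R) b := by
      rw [br, br, br, br]
      linear_combination (dCD D b) * hx - (dXD (R := R) b) * hz
    rw [br_leib, br_mul, h5]
    ring
  have k2 := congrArg (PowerSeries.coeff (m - 1)) key
  rw [map_sub, map_add, map_add, map_sub, map_sub, coeff_cR_mul, coeff_cR_mul, coeff_cR_mul,
    coeff_dX m hm, coeff_dC, PowerSeries.coeff_C_mul, hBc] at k2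
  set g := PowerSeries.coeff (m - 1) (T * W0 * dXD (R := R) b) with hg
  set c1 := PowerSeries.coeff m (T * W0 * dCD D b) with hc1
  set c2 := PowerSeries.coeff (m - 1) (T * W0 * Γi * br D Γ b) with hc2
  set c3 := PowerSeries.coeff (m - 1) (T * W0 * Ai * br D A b) with hc3
  set c4 := PowerSeries.coeff (m - 1) (T * br D W0 b) with hc4
  have hrel' : algebraMap R M ε * N + m = na * algebraMap R M (be + 1) +
      nb * algebraMap R M (be' + 1) := by
    have := congrArg (algebraMap R M) hrel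
    simpa using this
  have k3 : algebraMap R M ε * (N * c1 + c2) =
      algebraMap R M (be + 1) * (na * c1 + c3) - c4 - (D g + τ * g) := by
    linear_combination k2 + c1 * hrel'
  rw [e4, ← L_alg, k3, map_sub, map_sub, hL, sub_zero, L_alg]

/-- fixed coordinate -/
theorem lemF (D : Derivation R M M) (L : M →ₗ[R] R) (τ : M) (hL : ∀ g, L (D g + τ * g) = 0)
    (N m na nb : ℕ) (hN : 1 ≤ N) (hm : 1 ≤ m) (hna : 1 ≤ na) (hnb : 1 ≤ nb)
    (Γ Γi A Ai B Bi T : PowerSeries M) (ε be be' : R) (hΓ : Γ * Γi = 1) (hA : A * Ai = 1)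
    (hB : B * Bi = 1 ∨ be' = -1) (hT : LD D Γ Γi A Ai B Bi be be' τ ε T)
    (hrel : ε * N + m = na * (be + 1) + nb * (be' + 1)) (W : PowerSeries M) :
    ε * L (PowerSeries.coeff (m + N - 1) (T * Γi *
      br D (PowerSeries.X ^ N * Γ) (PowerSeries.X ^ nb * B) * (PowerSeries.X ^ na * A * W))) =
    be * L (PowerSeries.coeff (m - 1) (T * W *
      br D (PowerSeries.X ^ na * A) (PowerSeries.X ^ nb * B))) -
      L (PowerSeries.coeff (m - 1) (T * (PowerSeries.X ^ na * A) *
        br D W (PowerSeries.X ^ nb * B))) := by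
  rw [lemU D L τ hL N m na nb hN hm hnb Γ Γi A Ai B Bi T ε be be' hΓ hB hT hrel]
  set b : PowerSeries M := PowerSeries.X ^ nb * B with hb
  have h1 : (na : M) * PowerSeries.coeff m (T * (PowerSeries.X ^ na * A * W) * dCD D b) +
      PowerSeries.coeff (m - 1) (T * (PowerSeries.X ^ na * A * W) * Ai * br D A b) =
      PowerSeries.coeff (m - 1) (T * W * br D (PowerSeries.X ^ na * A) b) := by
    obtain ⟨k, hk⟩ : ∃ k, na = k + 1 := ⟨na - 1, by omega⟩
    have h2 : T * (PowerSeries.X ^ na * A * W) * dCD D b =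
        PowerSeries.X * (PowerSeries.X ^ (na - 1) * A * T * W * dCD D b) := by
      rw [hk, Nat.add_sub_cancel]
      ring
    have h3 : T * (PowerSeries.X ^ na * A * W) * Ai * br D A b =
        T * W * (PowerSeries.X ^ na * br D A b) := by
      linear_combination (T * W * PowerSeries.X ^ na * br D A b) * hA
    have h4 := br_XG D na hna A b
    have h5 : PowerSeries.X ^ (na - 1) * PowerSeries.X = (PowerSeries.X : PowerSeries M) ^ na := by
      rw [hk, Nat.add_sub_cancel, pow_succ]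
    rw [h2, coeff_X_mul' m hm, h3, ← coeff_nat_mul, ← map_add, h4]
    congr 1
    linear_combination -(T * W * br D A b) * h5
  have h2 : br D (PowerSeries.X ^ na * A * W) b = PowerSeries.X ^ na * A * br D W b +
      W * br D (PowerSeries.X ^ na * A) b := br_mul D _ _ _
  have h3 : T * br D (PowerSeries.X ^ na * A * W) b =
      T * (PowerSeries.X ^ na * A) * br D W b + T * W * br D (PowerSeries.X ^ na * A) b := by
    rw [h2]
    ring
  rw [h1, h3, map_add, map_add]
  ring

/-- free coordinate -/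
theorem lemG (D : Derivation R M M) (L : M →ₗ[R] R) (τ : M) (hL : ∀ g, L (D g + τ * g) = 0)
    (N m na nb : ℕ) (hN : 1 ≤ N) (hm : 1 ≤ m) (hnb : 1 ≤ nb)
    (Γ Γi A Ai B Bi T : PowerSeries M) (ε be be' : R) (hΓ : Γ * Γi = 1) (hbe : be = -1)
    (hB : B * Bi = 1 ∨ be' = -1) (hT : LD D Γ Γi A Ai B Bi be be' τ ε T)
    (hrel : ε * N + m = na * (be + 1) + nb * (be' + 1)) (W : PowerSeries M) :
    ε * L (PowerSeries.coeff (m + N - 1) (T * Γi *
      br D (PowerSeries.X ^ N * Γ) (PowerSeries.X ^ nb * B) * W)) =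
      -L (PowerSeries.coeff (m - 1) (T * br D W (PowerSeries.X ^ nb * B))) := by
  rw [lemU D L τ hL N m na nb hN hm hnb Γ Γi A Ai B Bi T ε be be' hΓ hB hT hrel, hbe]
  ring

/-! ### powers -/

theorem dC_C (D : Derivation R M M) (a : M) : dCD D (PowerSeries.C a) = PowerSeries.C (D a) := by
  ext n
  rw [dCD_apply, dCf, PowerSeries.coeff_mk, PowerSeries.coeff_C, PowerSeries.coeff_C]
  split_ifs <;> simp

theorem dX_C (a : M) : dXD (R := R) (PowerSeries.C a) = 0 := by
  rw [dXD_apply, dXf]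
  exact PowerSeries.derivative_C

theorem powU (D : Derivation R M M) (Γ Γi : PowerSeries M) (iΓ : M) (e : R)
    (h : PowerSeries.constantCoeff Γ * iΓ = 1) (hi : Γ * Γi = 1) :
    ∃ U : PowerSeries M, PowerSeries.constantCoeff U = 1 ∧
      dXD (R := R) U = U * (cR e * Γi * dXD (R := R) Γ) ∧
      dCD D U = U * (cR e * Γi * dCD D Γ) -
        PowerSeries.C (algebraMap R M e * (D (PowerSeries.constantCoeff Γ) * iΓ)) * U := by
  set c := PowerSeries.constantCoeff Γ with hc
  obtain ⟨U, hU0, hU1, hU2⟩ := stmt_POW7 R M D (PowerSeries.C iΓ * Γ) e (by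
    rw [map_mul, PowerSeries.constantCoeff_C, mul_comm]; exact h)
  have hcc : PowerSeries.C c * PowerSeries.C iΓ = (1 : PowerSeries M) := by
    rw [← map_mul, h, map_one]
  have hD : c * D iΓ = -(D c * iΓ) := by
    have h1 : D (c * iΓ) = 0 := by rw [h, Derivation.map_one_eq_zero]
    rw [Derivation.leibniz, smul_eq_mul, smul_eq_mul] at h1
    linear_combination h1
  refine ⟨U, hU0, ?_, ?_⟩
  · have h1 : dXf (PowerSeries.C iΓ * Γ) = PowerSeries.C iΓ * dXD (R := R) Γ := by
      rw [← dXD_apply (R := R), Derivation.leibniz, dX_C]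
      simp
    rw [h1] at hU1
    rw [← dXD_apply (R := R)] at hU1
    change PowerSeries.C iΓ * Γ * dXD (R := R) U = cR e * U * (PowerSeries.C iΓ * dXD (R := R) Γ)
      at hU1
    linear_combination (PowerSeries.C c * Γi) * hU1 -
      (Γ * Γi * dXD (R := R) U - cR e * U * Γi * dXD (R := R) Γ) * hcc -
      (dXD (R := R) U) * hi
  · have h1 : dCf D (PowerSeries.C iΓ * Γ) = PowerSeries.C iΓ * dCD D Γ +
        PowerSeries.C (D iΓ) * Γ := by
      rw [← dCD_apply, Derivation.leibniz, dC_C]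
      simp only [smul_eq_mul]
      ring
    rw [h1, ← dCD_apply] at hU2
    change PowerSeries.C iΓ * Γ * dCD D U = cR e * U * (PowerSeries.C iΓ * dCD D Γ +
      PowerSeries.C (D iΓ) * Γ) at hU2
    have h2 : PowerSeries.C (algebraMap R M e * (D c * iΓ)) =
        -(cR e * (PowerSeries.C c * PowerSeries.C (D iΓ))) := by
      rw [← map_mul, hD, cR, map_mul, map_neg]
      ring
    rw [h2]
    linear_combination (PowerSeries.C c * Γi) * hU2 -
      (Γ * Γi * dCD D U - cR e * U * Γi * dCD D Γ) * hcc -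
      (dCD D U - cR e * PowerSeries.C c * PowerSeries.C (D iΓ) * U) * hi

theorem exists_inv (Γ : PowerSeries M) (iΓ : M) (h : PowerSeries.constantCoeff Γ * iΓ = 1) :
    ∃ Γi : PowerSeries M, Γ * Γi = 1 ∧ PowerSeries.constantCoeff Γi = iΓ := by
  have h1 : IsUnit Γ := PowerSeries.isUnit_iff_constantCoeff.2 (IsUnit.of_mul_eq_one iΓ h)
  obtain ⟨Γi, hi⟩ := isUnit_iff_exists_inv.1 h1
  refine ⟨Γi, hi, ?_⟩
  have h2 := congrArg PowerSeries.constantCoeff hi
  rw [map_mul, map_one] at h2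
  linear_combination iΓ * h2 - PowerSeries.constantCoeff Γi * h

theorem powA (D : Derivation R M M) (A : PowerSeries M) (iA : M) (be : R)
    (h : PowerSeries.constantCoeff A * iA = 1 ∨ be = -1) :
    ∃ U Ai : PowerSeries M, PowerSeries.constantCoeff U = 1 ∧
      (PowerSeries.constantCoeff A * iA = 1 → A * Ai = 1) ∧
      dXD (R := R) U = U * (cR (-be - 1) * Ai * dXD (R := R) A) ∧
      dCD D U = U * (cR (-be - 1) * Ai * dCD D A) -
        PowerSeries.C (algebraMap R M (-be - 1) * (D (PowerSeries.constantCoeff A) * iA)) * U := by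
  by_cases h1 : PowerSeries.constantCoeff A * iA = 1
  · obtain ⟨Ai, hAi, _⟩ := exists_inv A iA h1
    obtain ⟨U, h2, h3, h4⟩ := powU D A Ai iA (-be - 1) h1 hAi
    exact ⟨U, Ai, h2, fun _ => hAi, h3, h4⟩
  · have hbe : -be - 1 = (0 : R) := by
      rw [h.resolve_left h1]
      ring
    refine ⟨1, 0, by simp, fun h2 => absurd h2 h1, ?_, ?_⟩
    · rw [Derivation.map_one_eq_zero, hbe]
      simp
    · rw [Derivation.map_one_eq_zero, hbe]
      simp

theorem LD.step {D : Derivation R M M} {Γ Γi A Ai B Bi : PowerSeries M} {be be' : R} {τ : M}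
    {ε : R} {T : PowerSeries M} (hi : Γ * Γi = 1) (h : LD D Γ Γi A Ai B Bi be be' τ ε T) :
    LD D Γ Γi A Ai B Bi be be' τ (ε - 1) (T * Γi) := by
  have h1 : ∀ E : Derivation R (PowerSeries M) (PowerSeries M), E Γi = -(Γi * Γi * E Γ) := by
    intro E
    have h2 : E (Γ * Γi) = 0 := by rw [hi, Derivation.map_one_eq_zero]
    rw [Derivation.leibniz, smul_eq_mul, smul_eq_mul] at h2
    linear_combination Γi * h2 - (E Γi) * hi
  have h3 : cR (M := M) (ε - 1) = cR ε - 1 := by
    unfold cR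
    rw [map_sub, map_sub, map_one, map_one]
  refine ⟨?_, ?_⟩
  · rw [Derivation.leibniz, smul_eq_mul, smul_eq_mul, h1, h.hX, h3]
    ring
  · rw [Derivation.leibniz, smul_eq_mul, smul_eq_mul, h1, h.hZ, h3]
    ring

theorem LD.up {D : Derivation R M M} {Γ Γi A Ai B Bi : PowerSeries M} {be be' : R} {τ : M}
    {ε : R} {T : PowerSeries M} (hi : Γ * Γi = 1) (h : LD D Γ Γi A Ai B Bi be be' τ ε T) :
    LD D Γ Γi A Ai B Bi be be' τ (ε + 1) (T * Γ) := by
  have h3 : cR (M := M) (ε + 1) = cR ε + 1 := by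
    unfold cR
    rw [map_add, map_add, map_one, map_one]
  refine ⟨?_, ?_⟩
  · rw [Derivation.leibniz, smul_eq_mul, smul_eq_mul, h.hX, h3]
    linear_combination -(T * dXD (R := R) Γ) * hi
  · rw [Derivation.leibniz, smul_eq_mul, smul_eq_mul, h.hZ, h3]
    linear_combination -(T * dCD D Γ) * hi

theorem LD.pow {D : Derivation R M M} {Γ Γi A Ai B Bi : PowerSeries M} {be be' : R} {τ : M}
    {ε : R} {T : PowerSeries M} (hi : Γ * Γi = 1) (h : LD D Γ Γi A Ai B Bi be be' τ ε T) (i : ℕ) :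
    LD D Γ Γi A Ai B Bi be be' τ (ε - i) (T * Γi ^ i) := by
  induction i with
  | zero => simpa using h
  | succ i ih =>
    have h1 := ih.step hi
    have h2 : ε - i - 1 = ε - ((i + 1 : ℕ) : R) := by push_cast; ring
    rw [h2, mul_assoc, ← pow_succ] at h1
    exact h1

/-! ### the axis rules at the level of one step -/

/-- the rule for the coordinate `a` (the other coordinate is `b`), `J` is the bracket `{a, b}` -/
theorem rule (D : Derivation R M M) (L : M →ₗ[R] R) (τ : M) (hL : ∀ g, L (D g + τ * g) = 0)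
    (N ν na nb : ℕ) (hN : 1 ≤ N) (hν : 1 ≤ ν) (hna : 1 ≤ na) (hnb : 1 ≤ nb)
    (Γ Γi A Ai B Bi T : PowerSeries M) (ε be be' : R) (hΓ : Γ * Γi = 1) (fx : Bool)
    (hA : if fx then A * Ai = 1 else be = -1)
    (hB : B * Bi = 1 ∨ be' = -1) (hT : LD D Γ Γi A Ai B Bi be be' τ ε T) (m : ℕ) (hm : 1 ≤ m)
    (hrel : ε * N + m = na * (be + 1) + nb * (be' + 1)) (W W' Ja G' : PowerSeries M)
    (hJ : br D (PowerSeries.X ^ na * A) (PowerSeries.X ^ nb * B) = Ja)
    (hW : br D W (PowerSeries.X ^ nb * B) = Ja * W')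
    (hG : br D (PowerSeries.X ^ N * Γ) (PowerSeries.X ^ nb * B) = Ja * G') :
    (fx = true → ε * L (PowerSeries.coeff (m + N - 1) (T * Γi * (PowerSeries.X ^ na * A * G' * W) *
      Ja)) = be * L (PowerSeries.coeff (m - 1) (T * W * Ja)) -
        L (PowerSeries.coeff (m - 1) (T * (PowerSeries.X ^ na * A * W') * Ja))) ∧
    (fx = false → ε * L (PowerSeries.coeff (m + N - 1) (T * Γi * (G' * W) * Ja)) =
      -L (PowerSeries.coeff (m - 1) (T * W' * Ja))) := by
  refine ⟨fun hf => ?_, fun hf => ?_⟩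
  · rw [hf] at hA
    have h1 := lemF D L τ hL N m na nb hN hm hna hnb Γ Γi A Ai B Bi T ε be be' hΓ hA hB hT hrel W
    rw [hG, hJ, hW] at h1
    rw [show T * Γi * (PowerSeries.X ^ na * A * G' * W) * Ja =
      T * Γi * (Ja * G') * (PowerSeries.X ^ na * A * W) by ring, h1,
      show T * (PowerSeries.X ^ na * A) * (Ja * W') = T * (PowerSeries.X ^ na * A * W') * Ja by ring]
  · rw [hf] at hA
    have h1 := lemG D L τ hL N m na nb hN hm hnb Γ Γi A Ai B Bi T ε be be' hΓ hA hB hT hrel W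
    rw [hG, hW] at h1
    rw [show T * Γi * (G' * W) * Ja = T * Γi * (Ja * G') * W by ring, h1,
      show T * (Ja * W') = T * W' * Ja by ring]

/-- the first step -/
theorem rule0 [IsDomain R] (D : Derivation R M M) (L : M →ₗ[R] R) (τ : M)
    (hL : ∀ g, L (D g + τ * g) = 0)
    (N ν n na nb : ℕ) (hN : 1 ≤ N) (hν : 1 ≤ ν) (hn : n < N) (hna : 1 ≤ na) (hnb : 1 ≤ nb)
    (Γ Γi A Ai B Bi S : PowerSeries M) (ga be be' : R) (hΓ : Γ * Γi = 1) (fx fx' : Bool)
    (hA : if fx then A * Ai = 1 else be = -1)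
    (hB : if fx' then B * Bi = 1 else be' = -1)
    (hS : LD D Γ Γi A Ai B Bi be be' τ ga S)
    (hrel : (ν : R) + na * (-be - 1) + nb * (-be' - 1) + n + N * ga = 0)
    (hga : ga + 1 ≠ 0 ∨ (fx = false ∧ fx' = false)) (W W' Ja J G' : PowerSeries M)
    (hJ : br D (PowerSeries.X ^ na * A) (PowerSeries.X ^ nb * B) = Ja)
    (hJa : Ja = PowerSeries.X ^ (ν - 1) * J)
    (hW : br D W (PowerSeries.X ^ nb * B) = Ja * W')
    (hG : br D (PowerSeries.X ^ N * Γ) (PowerSeries.X ^ nb * B) = Ja * G') :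
    (fx = true → L (PowerSeries.coeff (n + ν - 1) (S * (PowerSeries.X ^ na * A * G' * W) *
      Ja)) = 0) ∧
    (fx = false → L (PowerSeries.coeff (n + ν - 1) (S * (G' * W) * Ja)) = 0) := by
  have hB' : B * Bi = 1 ∨ be' = -1 := by
    rcases Bool.eq_false_or_eq_true fx' with h | h
    · rw [h] at hB
      exact Or.inl hB
    · rw [h] at hB
      exact Or.inr hB
  -- the bracket of `g`
  have hbr := br_XG D N hN Γ (PowerSeries.X ^ nb * B)
  have hzero : ∀ V : PowerSeries M, n + ν ≤ N →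
      PowerSeries.coeff (n + ν - 1) (V * br D (PowerSeries.X ^ N * Γ) (PowerSeries.X ^ nb * B)) =
        0 := by
    intro V hle
    have hdC : dCD D (PowerSeries.X ^ nb * B) = PowerSeries.X *
        (PowerSeries.X ^ (nb - 1) * dCD D B) := by
      rw [dC_Xpow]
      obtain ⟨k, hk⟩ : ∃ k, nb = k + 1 := ⟨nb - 1, by omega⟩
      rw [hk, Nat.add_sub_cancel, pow_succ]
      ring
    have h1 : V * br D (PowerSeries.X ^ N * Γ) (PowerSeries.X ^ nb * B) =
        PowerSeries.X ^ N * (V * ((N : PowerSeries M) * (Γ * (PowerSeries.X ^ (nb - 1) *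
          dCD D B)) + br D Γ (PowerSeries.X ^ nb * B))) := by
      rw [hbr]
      obtain ⟨k, hk⟩ : ∃ k, N = k + 1 := ⟨N - 1, by omega⟩
      rw [hdC, hk, Nat.add_sub_cancel, pow_succ]
      ring
    rw [h1]
    exact PowerSeries.X_pow_dvd_iff.1 ⟨_, rfl⟩ _ (by omega)
  rcases Nat.lt_or_ge N (n + ν) with hlt | hle
  · -- use the rule for `S Γ`
    have hga' : ga + 1 ≠ 0 := by
      rcases hga with h | ⟨h1, h2⟩
      · exact h
      · intro h3
        rw [h1] at hA
        rw [h2] at hB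
        have h4 : ga = -1 := by linear_combination h3
        simp only [Bool.false_eq_true, if_false] at hA hB
        rw [h4, hA, hB] at hrel
        have h5 : ((n + ν : ℕ) : R) = ((N : ℕ) : R) := by
          push_cast
          linear_combination hrel
        have h6 : CharZero R := charZero_of_injective_algebraMap (algebraMap ℂ R).injective
        have h7 := Nat.cast_injective h5
        omega
    have hm : 1 ≤ n + ν - N := by omega
    have hrel' : (ga + 1) * (N : R) + ((n + ν - N : ℕ) : R) = na * (be + 1) + nb * (be' + 1) := by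
      rw [Nat.cast_sub hlt.le]
      push_cast
      linear_combination hrel
    have hr := rule D L τ hL N ν na nb hN hν hna hnb Γ Γi A Ai B Bi (S * Γ) (ga + 1) be be' hΓ fx
      hA hB' (hS.up hΓ) (n + ν - N) hm hrel' W W' Ja G' hJ hW hG
    have hidx : n + ν - N + N - 1 = n + ν - 1 := by omega
    have hSS : S * Γ * Γi = S := by rw [mul_assoc, hΓ, mul_one]
    have hz : ∀ V : PowerSeries M, PowerSeries.coeff (n + ν - N - 1) (V * Ja) = 0 := by
      intro V
      rw [hJa, show V * (PowerSeries.X ^ (ν - 1) * J) = PowerSeries.X ^ (ν - 1) * (V * J) by ring]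
      exact PowerSeries.X_pow_dvd_iff.1 ⟨_, rfl⟩ _ (by omega)
    refine ⟨fun hf => ?_, fun hf => ?_⟩
    · have h1 := hr.1 hf
      rw [hidx, hSS, hz, hz, map_zero, mul_zero, sub_zero] at h1
      exact (mul_eq_zero.1 h1).resolve_left hga'
    · have h1 := hr.2 hf
      rw [hidx, hSS, hz, map_zero, neg_zero] at h1
      exact (mul_eq_zero.1 h1).resolve_left hga'
  · refine ⟨fun _ => ?_, fun _ => ?_⟩
    · rw [show S * (PowerSeries.X ^ na * A * G' * W) * Ja =
        S * (PowerSeries.X ^ na * A * W) * (Ja * G') by ring, ← hG, hzero _ hle, map_zero]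
    · rw [show S * (G' * W) * Ja = S * W * (Ja * G') by ring, ← hG, hzero _ hle, map_zero]

end

end RES7Aux

open POW7Aux RES7Aux in
theorem stmt_RES7 : Stmt_RES7 := by
  intro R M _ _ _ _ _ _ _ D L σ G tU tV be be' ga N ν n na nb A B Γ J iA iB iΓ hN hν hn hna hnb
    hX0 hX1 hσG hJac hiΓ hA0 hB0 hrel hga hL
  set τ : M := algebraMap R M (-be - 1) * (D (PowerSeries.constantCoeff A) * iA) +
      algebraMap R M (-be' - 1) * (D (PowerSeries.constantCoeff B) * iB) +
      algebraMap R M ga * (D (PowerSeries.constantCoeff Γ) * iΓ) with hτ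
  have hbool : ∀ (t : Bool) (p q : Prop), (if t then p else q) → p ∨ q := by
    intro t p q h
    rcases Bool.eq_false_or_eq_true t with ht | ht
    · rw [ht] at h
      exact Or.inl h
    · rw [ht] at h
      exact Or.inr h
  obtain ⟨Γi, hΓ, hΓi0⟩ := exists_inv Γ iΓ hiΓ
  obtain ⟨Ug, hUg0, hUgX, hUgZ⟩ := powU D Γ Γi iΓ ga hiΓ hΓ
  obtain ⟨Ua, Ai, hUa0, hAi, hUaX, hUaZ⟩ := powA D A iA be (hbool _ _ _ hA0)
  obtain ⟨Ub, Bi, hUb0, hBi, hUbX, hUbZ⟩ := powA D B iB be' (hbool _ _ _ hB0)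
  have hA : if tU then A * Ai = 1 else be = -1 := by
    rcases Bool.eq_false_or_eq_true tU with ht | ht
    · rw [ht] at hA0 ⊢
      exact hAi hA0
    · rw [ht] at hA0 ⊢
      exact hA0
  have hB : if tV then B * Bi = 1 else be' = -1 := by
    rcases Bool.eq_false_or_eq_true tV with ht | ht
    · rw [ht] at hB0 ⊢
      exact hBi hB0
    · rw [ht] at hB0 ⊢
      exact hB0
  set S : PowerSeries M := Ug * Ua * Ub with hS
  have hS0 : PowerSeries.constantCoeff S = 1 := by
    rw [hS, map_mul, map_mul, hUg0, hUa0, hUb0, one_mul, one_mul]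
  have hLD : LD D Γ Γi A Ai B Bi be be' τ ga S := by
    refine ⟨?_, ?_⟩
    · rw [hS, Derivation.leibniz, Derivation.leibniz, hUgX, hUaX, hUbX]
      simp only [smul_eq_mul]
      ring
    · rw [hS, Derivation.leibniz, Derivation.leibniz, hUgZ, hUaZ, hUbZ, hτ]
      simp only [smul_eq_mul, map_add]
      ring
  -- the bracket
  set Ja : PowerSeries M := br D (σ (X 0)) (σ (X 1)) with hJa
  have hJa' : Ja = PowerSeries.X ^ (ν - 1) * J := by
    rw [hJa, ← hJac]
    rfl
  -- the functionals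
  set idx : ℕ → ℕ := fun i => n + N * i + ν - 1 with hidx
  set c : ℕ → R := fun i => ∏ k ∈ Finset.range i, (ga - k) with hc
  have hcs : ∀ i, c (i + 1) = c i * (ga - i) := fun i => by
    rw [hc]
    simp only
    rw [Finset.prod_range_succ]
  set l : ℕ → (P2 →ₗ[ℂ] R) := fun i => (LinearMap.mulLeft ℂ (c i)) ∘ₗ (L.restrictScalars ℂ) ∘ₗ
    ((PowerSeries.coeff (idx i) : PowerSeries M →ₗ[M] M).restrictScalars ℂ) ∘ₗ
    (LinearMap.mulRight ℂ Ja) ∘ₗ (LinearMap.mulLeft ℂ (S * Γi ^ i)) ∘ₗ σ.toLinearMap with hl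
  have hlapp : ∀ i ψ, l i ψ = c i * L (PowerSeries.coeff (idx i) (S * Γi ^ i * σ ψ * Ja)) :=
    fun i ψ => rfl
  have hrel1 : ∀ i : ℕ, (ga - i) * (N : R) + ((n + N * i + ν : ℕ) : R) =
      na * (be + 1) + nb * (be' + 1) := by
    intro i
    push_cast
    linear_combination hrel
  have hm : ∀ i, 1 ≤ n + N * i + ν := fun i => by omega
  have hidx1 : ∀ i, idx (i + 1) = n + N * i + ν + N - 1 := fun i => by
    rw [hidx]
    simp only
    ring_nf
  have hG0 : br D (PowerSeries.X ^ N * Γ) (PowerSeries.X ^ nb * B) = Ja * σ (pderiv 0 G) := by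
    rw [← hσG, ← hX1]
    exact br0 D σ G
  have hG1 : br D (PowerSeries.X ^ N * Γ) (PowerSeries.X ^ na * A) = -Ja * σ (pderiv 1 G) := by
    rw [← hσG, ← hX0, br1 D σ G]
    ring
  have hψ0 : ∀ ψ, br D (σ ψ) (PowerSeries.X ^ nb * B) = Ja * σ (pderiv 0 ψ) := fun ψ => by
    rw [← hX1]
    exact br0 D σ ψ
  have hψ1 : ∀ ψ, br D (σ ψ) (PowerSeries.X ^ na * A) = -Ja * σ (pderiv 1 ψ) := fun ψ => by
    rw [← hX0, br1 D σ ψ]
    ring
  have hJ0 : br D (PowerSeries.X ^ na * A) (PowerSeries.X ^ nb * B) = Ja := by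
    rw [← hX0, ← hX1]
  have hJ1 : br D (PowerSeries.X ^ nb * B) (PowerSeries.X ^ na * A) = -Ja := by
    rw [← hJ0, br, br]
    ring
  refine ⟨l, ⟨?_, ?_, ?_, ?_, ?_⟩, ?_⟩
  · -- support
    intro i
    refine ⟨n + N * i + 1, fun a b hab ψ => ?_⟩
    rw [hlapp]
    have h1 : S * Γi ^ i * σ (X 0 ^ a * X 1 ^ b * ψ) * Ja = PowerSeries.X ^ (a + b + (ν - 1)) *
        (S * Γi ^ i * (PowerSeries.X ^ ((na - 1) * a) * A ^ a) *
          (PowerSeries.X ^ ((nb - 1) * b) * B ^ b) * σ ψ * J) := by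
      rw [map_mul, map_mul, map_pow, map_pow, hX0, hX1, hJa']
      obtain ⟨k, hk⟩ : ∃ k, na = k + 1 := ⟨na - 1, by omega⟩
      obtain ⟨k', hk'⟩ : ∃ k', nb = k' + 1 := ⟨nb - 1, by omega⟩
      rw [hk, hk', Nat.add_sub_cancel, Nat.add_sub_cancel]
      ring
    rw [h1]
    have h2 : PowerSeries.coeff (idx i) (PowerSeries.X ^ (a + b + (ν - 1)) *
        (S * Γi ^ i * (PowerSeries.X ^ ((na - 1) * a) * A ^ a) *
          (PowerSeries.X ^ ((nb - 1) * b) * B ^ b) * σ ψ * J)) = 0 :=
      PowerSeries.X_pow_dvd_iff.1 ⟨_, rfl⟩ _ (by rw [hidx]; simp only; omega)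
    rw [h2, map_zero, mul_zero]
  · -- multiplication by G
    intro i ψ
    rw [hlapp, hlapp, hcs]
    have h1 : S * Γi ^ (i + 1) * σ (G * ψ) * Ja = PowerSeries.X ^ N *
        (S * Γi ^ i * σ ψ * Ja) := by
      rw [map_mul, hσG, pow_succ]
      linear_combination (PowerSeries.X ^ N * S * Γi ^ i * σ ψ * Ja) * hΓ
    have h2 : idx (i + 1) = idx i + N := by
      rw [hidx1, hidx]
      simp only
      omega
    rw [h1, h2, PowerSeries.coeff_X_pow_mul]
    ring
  · intro ψ
    rw [hlapp]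
    have h1 : S * Γi ^ 0 * σ (G * ψ) * Ja = PowerSeries.X ^ (N + (ν - 1)) *
        (S * Γ * σ ψ * J) := by
      rw [map_mul, hσG, pow_zero, hJa', pow_add]
      ring
    rw [h1]
    have h2 : PowerSeries.coeff (idx 0) (PowerSeries.X ^ (N + (ν - 1)) *
        (S * Γ * σ ψ * J)) = 0 :=
      PowerSeries.X_pow_dvd_iff.1 ⟨_, rfl⟩ _ (by rw [hidx]; simp only; omega)
    rw [h2, map_zero, mul_zero]
  · -- the coordinate a
    have hr := fun (i : ℕ) (ψ : P2) => rule D L τ hL N ν na nb hN hν hna hnb Γ Γi A Ai B Bi (S * Γi ^ i)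
      (ga - i) be be' hΓ tU hA (by
        rcases Bool.eq_false_or_eq_true tV with h | h
        · rw [h] at hB
          exact Or.inl hB
        · rw [h] at hB
          exact Or.inr hB) (hLD.pow hΓ i) (n + N * i + ν) (hm i) (hrel1 i) (σ ψ) (σ (pderiv 0 ψ)) Ja
      (σ (pderiv 0 G)) hJ0 (hψ0 ψ) hG0
    have hr0 := fun (ψ : P2) => rule0 D L τ hL N ν n na nb hN hν hn hna hnb Γ Γi A Ai B Bi S ga be be' hΓ
      tU tV hA hB hLD hrel hga (σ ψ) (σ (pderiv 0 ψ)) Ja J (σ (pderiv 0 G)) hJ0 hJa' (hψ0 ψ) hG0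
    refine ⟨fun hf => ⟨fun i ψ => ?_, fun ψ => ?_⟩, fun hf => ⟨fun i ψ => ?_, fun ψ => ?_⟩⟩
    · rw [hlapp, hlapp, hlapp, hcs, hidx1, map_mul σ, map_mul σ, map_mul σ, hX0, pow_succ, ← mul_assoc S]
      have h1 := (hr i ψ).1 hf
      linear_combination (c i) * h1
    · rw [hlapp, map_mul σ, map_mul σ, hX0, pow_zero, mul_one]
      have h1 := (hr0 ψ).1 hf
      have h2 : idx 0 = n + ν - 1 := by rw [hidx]; simp
      rw [h2, h1, mul_zero]
    · rw [hlapp, hlapp, hcs, hidx1, map_mul σ, pow_succ, ← mul_assoc S]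
      have h1 := (hr i ψ).2 hf
      linear_combination (c i) * h1
    · rw [hlapp, map_mul σ, pow_zero, mul_one]
      have h1 := (hr0 ψ).2 hf
      have h2 : idx 0 = n + ν - 1 := by rw [hidx]; simp
      rw [h2, h1, mul_zero]
  · -- the coordinate b
    have hrel2 : (ν : R) + nb * (-be' - 1) + na * (-be - 1) + n + N * ga = 0 := by
      linear_combination hrel
    have hJb : -Ja = PowerSeries.X ^ (ν - 1) * (-J) := by
      rw [hJa']
      ring
    have hr := fun (i : ℕ) (ψ : P2) => rule D L τ hL N ν nb na hN hν hnb hna Γ Γi B Bi A Ai (S * Γi ^ i)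
      (ga - i) be' be hΓ tV hB (by
        rcases Bool.eq_false_or_eq_true tU with h | h
        · rw [h] at hA
          exact Or.inl hA
        · rw [h] at hA
          exact Or.inr hA) (hLD.pow hΓ i).swap (n + N * i + ν) (hm i)
      (by rw [hrel1 i, add_comm]) (σ ψ) (σ (pderiv 1 ψ)) (-Ja)
      (σ (pderiv 1 G)) hJ1 (hψ1 ψ) hG1
    have hr0 := fun (ψ : P2) => rule0 D L τ hL N ν n nb na hN hν hn hnb hna Γ Γi B Bi A Ai S ga be' be hΓ
      tV tU hB hA hLD.swap hrel2 (by
        rcases hga with h | ⟨h1, h2⟩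
        · exact Or.inl h
        · exact Or.inr ⟨h2, h1⟩) (σ ψ) (σ (pderiv 1 ψ)) (-Ja) (-J) (σ (pderiv 1 G)) hJ1 hJb (hψ1 ψ)
      hG1
    have hneg : ∀ (k : ℕ) (V : PowerSeries M), PowerSeries.coeff k (V * -Ja) =
        -PowerSeries.coeff k (V * Ja) := fun k V => by rw [mul_neg, map_neg]
    refine ⟨fun hf => ⟨fun i ψ => ?_, fun ψ => ?_⟩, fun hf => ⟨fun i ψ => ?_, fun ψ => ?_⟩⟩
    · rw [hlapp, hlapp, hlapp, hcs, hidx1, map_mul σ, map_mul σ, map_mul σ, hX1, pow_succ, ← mul_assoc S]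
      have h1 := (hr i ψ).1 hf
      rw [hneg, hneg, hneg, map_neg, map_neg, map_neg] at h1
      linear_combination -(c i) * h1
    · rw [hlapp, map_mul σ, map_mul σ, hX1, pow_zero, mul_one]
      have h1 := (hr0 ψ).1 hf
      rw [hneg, map_neg, neg_eq_zero] at h1
      have h2 : idx 0 = n + ν - 1 := by rw [hidx]; simp
      rw [h2, h1, mul_zero]
    · rw [hlapp, hlapp, hcs, hidx1, map_mul σ, pow_succ, ← mul_assoc S]
      have h1 := (hr i ψ).2 hf
      rw [hneg, hneg, map_neg, map_neg] at h1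
      linear_combination -(c i) * h1
    · rw [hlapp, map_mul σ, pow_zero, mul_one]
      have h1 := (hr0 ψ).2 hf
      rw [hneg, map_neg, neg_eq_zero] at h1
      have h2 : idx 0 = n + ν - 1 := by rw [hidx]; simp
      rw [h2, h1, mul_zero]
  · -- the values
    intro i ψ φ hφ
    rw [hlapp]
    have h1 : S * Γi ^ i * σ ψ * Ja = PowerSeries.X ^ (n + N * i + (ν - 1)) *
        (S * Γi ^ i * φ * J) := by
      rw [hφ, hJa', pow_add (PowerSeries.X : PowerSeries M) (n + N * i) (ν - 1)]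
      ring
    have h2 : idx i = 0 + (n + N * i + (ν - 1)) := by
      rw [hidx]
      simp only
      omega
    rw [h1, h2, PowerSeries.coeff_X_pow_mul, PowerSeries.coeff_zero_eq_constantCoeff_apply,
      map_mul (PowerSeries.constantCoeff (R := M)), map_mul (PowerSeries.constantCoeff (R := M)),
      map_mul (PowerSeries.constantCoeff (R := M)), map_pow, hS0, hΓi0]
    congr 2
    ring

end Pool.Agent.Mono.BG
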