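import Pool.Agent.Work.Monodromy.Interface7W
import Pool.Agent.Work.Monodromy6.JAC6

/-!
# Block TOR7: toric charts over a ring
-/

set_option autoImplicit false
set_option linter.unusedSectionVars false

namespace Pool.Agent.Mono.BG

open MvPolynomial TS PC RO

namespace TOR7Aux

section

variable {MM : Type} [CommRing MM] [Algebra ℂ MM]

theorem torR_zero (p q p' q' : ℕ) (Y : MM) : torR p q p' q' Y (X 0) =
    PowerSeries.C (Y ^ p') * PowerSeries.X ^ p := by
  rw [torR, aeval_X]
  rfl

theorem torR_one (p q p' q' : ℕ) (Y : MM) : torR p q p' q' Y (X 1) =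
    PowerSeries.C (Y ^ q') * PowerSeries.X ^ q := by
  rw [torR, aeval_X]
  rfl

theorem torR_C (p q p' q' : ℕ) (Y : MM) (c : ℂ) :
    torR p q p' q' Y (C c) = PowerSeries.C (algebraMap ℂ MM c) := by
  have h : torR p q p' q' Y (C c) = algebraMap ℂ (PowerSeries MM) c :=
    (torR p q p' q' Y).commutes c
  rw [h, PowerSeries.algebraMap_apply]

theorem torR_mono (p q p' q' : ℕ) (Y : MM) (a b : ℕ) :
    torR p q p' q' Y (X 0 ^ a * X 1 ^ b) =
      PowerSeries.C (Y ^ (p' * a + q' * b)) * PowerSeries.X ^ (p * a + q * b) := by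
  rw [map_mul, map_pow, map_pow, torR_zero, torR_one, mul_pow, mul_pow, pow_add, pow_add,
    pow_mul, pow_mul, pow_mul, pow_mul]
  simp only [map_mul, map_pow]
  ring

theorem torR_edge (p q p' q' aL bR : ℕ) (Y : MM) (I : Polynomial ℂ)
    (hpq : p * q' = p' * q + 1) :
    torR p q p' q' Y (edgePart p q aL bR I) = PowerSeries.X ^ (edgeN p q aL bR I) *
      PowerSeries.C (Y ^ (p' * (aL + q * I.natDegree) + q' * bR) * Polynomial.aeval Y I) := by
  unfold edgePart
  rw [map_sum, Polynomial.aeval_eq_sum_range, Finset.mul_sum, map_sum, Finset.mul_sum]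
  refine Finset.sum_congr rfl fun k hk => ?_
  have hk' : k ≤ I.natDegree := Nat.lt_succ_iff.1 (Finset.mem_range.1 hk)
  obtain ⟨l, hl⟩ := Nat.exists_eq_add_of_le hk'
  rw [mul_assoc, map_mul, torR_mono, torR_C, Algebra.smul_def]
  have e1 : p * (aL + q * (I.natDegree - k)) + q * (bR + p * k) = edgeN p q aL bR I := by
    unfold edgeN
    rw [hl, Nat.add_sub_cancel_left]
    ring
  have e2 : p' * (aL + q * (I.natDegree - k)) + q' * (bR + p * k) =
      (p' * (aL + q * I.natDegree) + q' * bR) + k := by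
    rw [hl, Nat.add_sub_cancel_left]
    have h3 : q' * (p * k) = (p' * q + 1) * k := by
      rw [← hpq]
      ring
    calc p' * (aL + q * l) + q' * (bR + p * k)
        = p' * aL + p' * q * l + q' * bR + q' * (p * k) := by ring
      _ = _ := by
        rw [h3]
        ring
  rw [e1, e2, pow_add]
  simp only [map_mul]
  ring

theorem torR_above (p q p' q' N : ℕ) (Y : MM) (R : P2) (hR : Above p q N R) :
    ∃ R' : PowerSeries MM, torR p q p' q' Y R = PowerSeries.X ^ (N + 1) * R' := by
  have h1 : PowerSeries.X ^ (N + 1) ∣ torR p q p' q' Y R := by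
    rw [R.as_sum, map_sum]
    refine Finset.dvd_sum fun d hd => ?_
    have h2 := hR d hd
    have h3 : (monomial d (coeff d R) : P2) = C (coeff d R) * (X 0 ^ (d 0) * X 1 ^ (d 1)) := by
      rw [monomial_eq, Finsupp.prod_fintype _ _ (fun _ => pow_zero _), Fin.prod_univ_two]
    rw [h3, map_mul, torR_mono]
    exact Dvd.dvd.mul_left (Dvd.dvd.mul_left (pow_dvd_pow _ (by omega)) _) _
  obtain ⟨R', hR'⟩ := h1
  exact ⟨R', hR'⟩

end

section

variable {R MM : Type} [CommRing R] [Algebra ℂ R] [CommRing MM] [Algebra ℂ MM] [Algebra R MM]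
  [IsScalarTower ℂ R MM] (D : Derivation R MM MM)

/-- the derivation `D` on the coefficients, as a derivation -/
noncomputable def dCD : Derivation ℂ (PowerSeries MM) (PowerSeries MM) where
  toFun := dCf D
  map_add' F G := by
    ext n
    simp [dCf]
  map_smul' c F := by
    ext n
    rw [RingHom.id_apply, dCf, PowerSeries.coeff_mk, PowerSeries.coeff_smul,
      PowerSeries.coeff_smul, dCf, PowerSeries.coeff_mk]
    have h1 : ∀ x : MM, c • x = algebraMap ℂ R c • x := fun x => by
      rw [algebraMap_smul]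
    rw [h1, h1, D.map_smul]
  map_one_eq_zero' := by
    ext n
    change PowerSeries.coeff n (dCf D 1) = _
    rw [dCf, PowerSeries.coeff_mk, PowerSeries.coeff_one]
    split_ifs <;> simp
  leibniz' F G := by
    ext n
    change PowerSeries.coeff n (dCf D (F * G)) =
      PowerSeries.coeff n (F * dCf D G + G * dCf D F)
    rw [mul_comm G (dCf D F), map_add, dCf, PowerSeries.coeff_mk, PowerSeries.coeff_mul,
      PowerSeries.coeff_mul, PowerSeries.coeff_mul, map_sum, ← Finset.sum_add_distrib]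
    refine Finset.sum_congr rfl fun x _ => ?_
    rw [dCf, dCf, PowerSeries.coeff_mk, PowerSeries.coeff_mk, Derivation.leibniz, smul_eq_mul,
      smul_eq_mul]
    ring

/-- `d/dX` as a derivation over `ℂ` -/
noncomputable def dXD : Derivation ℂ (PowerSeries MM) (PowerSeries MM) :=
  (PowerSeries.derivative MM).restrictScalars ℂ

theorem dXD_apply (F : PowerSeries MM) : dXD F = dXf F := rfl

theorem dCD_apply (F : PowerSeries MM) : dCD D F = dCf D F := rfl

theorem dCf_C (a : MM) : dCf D (PowerSeries.C a) = PowerSeries.C (D a) := by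
  ext n
  rw [dCf, PowerSeries.coeff_mk, PowerSeries.coeff_C, PowerSeries.coeff_C]
  split_ifs <;> simp

theorem dXf_C (a : MM) : dXf (PowerSeries.C a) = 0 := by
  simp [dXf]

theorem dCf_X : dCf D (PowerSeries.X : PowerSeries MM) = 0 := by
  ext n
  rw [dCf, PowerSeries.coeff_mk, PowerSeries.coeff_X]
  split_ifs <;> simp

theorem dXf_X : dXf (PowerSeries.X : PowerSeries MM) = 1 := by
  simp [dXf]

theorem jacobian (Y : MM) (M H p q p' q' : ℕ) (Φ : Polynomial ℂ) (hDY1 : D Y = 1)
    (hM : 1 ≤ M) (hp : 1 ≤ p) (hq : 1 ≤ q) (hpq : p * q' = p' * q + 1) :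
    dXf (torR p q p' q' Y (chartMap M H Φ (X 0))) * dCf D (torR p q p' q' Y (chartMap M H Φ (X 1))) -
      dCf D (torR p q p' q' Y (chartMap M H Φ (X 0))) *
        dXf (torR p q p' q' Y (chartMap M H Φ (X 1))) =
      PowerSeries.X ^ (p * (M + H) + q - 1) *
        PowerSeries.C ((M : MM) * Y ^ (p' * (M + H) + q' - 1)) := by
  obtain ⟨M, rfl⟩ : ∃ k, M = k + 1 := ⟨M - 1, by omega⟩
  obtain ⟨p, rfl⟩ : ∃ k, p = k + 1 := ⟨p - 1, by omega⟩
  obtain ⟨q, rfl⟩ : ∃ k, q = k + 1 := ⟨q - 1, by omega⟩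
  obtain ⟨q', rfl⟩ : ∃ k, q' = k + 1 := ⟨q' - 1, by
    rcases Nat.eq_zero_or_pos q' with h | h
    · subst h
      omega
    · omega⟩
  set Yc : PowerSeries MM := PowerSeries.C Y with hY
  set T : PowerSeries MM := PowerSeries.X with hT
  set s : PowerSeries MM := Yc ^ p' * T ^ (p + 1) with hs
  set v : PowerSeries MM := Yc ^ (q' + 1) * T ^ (q + 1) with hv
  have hs0 : torR (p + 1) (q + 1) p' (q' + 1) Y (X 0) = s := by
    rw [torR_zero, hs, map_pow]
  have hv0 : torR (p + 1) (q + 1) p' (q' + 1) Y (X 1) = v := by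
    rw [torR_one, hv, map_pow]
  have hx : torR (p + 1) (q + 1) p' (q' + 1) Y (chartMap (M + 1) H Φ (X 0)) = s ^ (M + 1) := by
    rw [chartMap, aeval_X]
    simp only [Matrix.cons_val_zero, map_pow]
    rw [hs0]
  have hy : torR (p + 1) (q + 1) p' (q' + 1) Y (chartMap (M + 1) H Φ (X 1)) =
      Polynomial.aeval s Φ + s ^ H * v := by
    rw [chartMap, aeval_X]
    simp only [Matrix.cons_val_one, Matrix.cons_val_zero, map_add, map_mul, map_pow]
    rw [← Polynomial.aeval_algHom_apply, hs0, hv0]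
  have hDY : dCD D Yc = 1 := by
    rw [dCD_apply, hY, dCf_C, hDY1, map_one]
  have hDX : (dXD : Derivation ℂ (PowerSeries MM) (PowerSeries MM)) Yc = 0 := by
    rw [dXD_apply, hY, dXf_C]
  have hDT : dCD D T = 0 := by rw [dCD_apply, hT, dCf_X]
  have hDT2 : (dXD : Derivation ℂ (PowerSeries MM) (PowerSeries MM)) T = 1 := by
    rw [dXD_apply, hT, dXf_X]
  have hg : ∀ (E : Derivation ℂ (PowerSeries MM) (PowerSeries MM)) (a b : ℕ),
      E (Yc ^ a * T ^ b) = Yc ^ a * (b * T ^ (b - 1) * E T) +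
        T ^ b * (a * Yc ^ (a - 1) * E Yc) := by
    intro E a b
    rw [Derivation.leibniz, Derivation.leibniz_pow, Derivation.leibniz_pow]
    simp only [smul_eq_mul, nsmul_eq_mul]
    ring
  have hrel : ((p : PowerSeries MM) + 1) * (q' + 1) = p' * (q + 1) + 1 := by
    exact_mod_cast congrArg (fun n : ℕ => (n : PowerSeries MM)) hpq
  have hsv : dXD s * dCD D v - dCD D s * dXD v = Yc ^ (p' + q') * T ^ (p + q + 1) := by
    rw [hs, hv, hg, hg, hg, hg, hDY, hDX, hDT, hDT2]
    rcases p' with _ | p'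
    · simp only [Nat.add_sub_cancel]
      push_cast at hrel ⊢
      linear_combination (Yc ^ q' * T ^ (p + q + 1)) * hrel
    · simp only [Nat.add_sub_cancel]
      push_cast at hrel ⊢
      linear_combination (Yc ^ (p' + 1 + q') * T ^ (p + q + 1)) * hrel
  have key := JAC6Aux.wedge dXD (dCD D) s v (M + 1) H Φ
  rw [hsv] at key
  rw [hx, hy]
  have e1 : (p + 1) * (M + 1 + H) + (q + 1) - 1 = (p + 1) * (M + H) + (p + q + 1) := by
    have : (p + 1) * (M + 1 + H) + (q + 1) = ((p + 1) * (M + H) + (p + q + 1)) + 1 := by ring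
    omega
  have e2 : p' * (M + 1 + H) + (q' + 1) - 1 = p' * (M + H) + (p' + q') := by
    have : p' * (M + 1 + H) + (q' + 1) = (p' * (M + H) + (p' + q')) + 1 := by ring
    omega
  rw [e1, e2]
  refine (Eq.trans key ?_)
  rw [hs, Nat.add_sub_cancel]
  simp only [map_mul, map_pow, map_natCast, mul_pow, pow_add, ← pow_mul, ← hY]
  ring

end

end TOR7Aux

open TOR7Aux

theorem stmt_TOR7 : Stmt_TOR7 := by
  refine ⟨?_, ?_, ?_⟩
  · intro MM _ _ Y p q p' q' N F hF
    exact torR_above p q p' q' N Y F hF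
  · intro MM _ _ Y p q p' q' aL bR I F hpq hE
    obtain ⟨R', hR'⟩ := torR_above p q p' q' _ Y _ hE.above
    refine ⟨PowerSeries.C (Y ^ (p' * (aL + q * I.natDegree) + q' * bR) *
      Polynomial.aeval Y I) + PowerSeries.X * R', ?_, ?_⟩
    · have h1 : F = edgePart p q aL bR I + (F - edgePart p q aL bR I) := by ring
      rw [h1, map_add, hR', torR_edge p q p' q' aL bR Y I hpq]
      ring
    · rw [map_add, PowerSeries.constantCoeff_C, map_mul, PowerSeries.constantCoeff_X, zero_mul,
        add_zero]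
  · intro R MM _ _ _ _ _ _ D Y M H p q p' q' Φ hDY hM hp hq hpq
    exact jacobian D Y M H p q p' q' Φ hDY hM hp hq hpq

end Pool.Agent.Mono.BG
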