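import Pool.Agent.Work.Monodromy7.TREE7
import Pool.Agent.Work.Monodromy7.CTX7
import Pool.Agent.Work.Monodromy7.AX7
import Pool.Agent.Work.Monodromy7.MF7
import Pool.Agent.Work.Monodromy7.AUT7
import Pool.Agent.Work.Monodromy7.EX7
import Pool.Agent.Work.Monodromy7.COR7
import Pool.Agent.Work.Monodromy7.AV7
import Pool.Agent.Work.Monodromy7.LF7
import Pool.Agent.Work.Monodromy7.TOR7
import Pool.Agent.Work.Monodromy7.LEX7
import Pool.Agent.Work.Monodromy7.RES7
import Pool.Agent.Work.Monodromy7.SPEC7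

/-!
# Phase 7 (binary gates): the witness part
-/

set_option autoImplicit false

namespace Pool.Agent.Mono.BG

theorem av7 : Stmt_AV7 := stmt_AV7 stmt_LF7 stmt_TOR7

theorem cor7 : Stmt_COR7 := stmt_COR7 stmt_RES7 stmt_LEX7 av7 stmt_TOR7 stmt_SPEC7

theorem ex7 : Stmt_EX7 := stmt_EX7 cor7

theorem ctx7 : Stmt_CTX7 := ctx7_of ex7 stmt_AX7 stmt_MF7 stmt_AUT7

theorem tree7 : Stmt_TREE7 := stmt_TREE7 ctx7

end Pool.Agent.Mono.BG
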