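import Pool.Agent.Work.Monodromy7.CTX7
import Pool.Agent.Work.Monodromy7.GV7
import Pool.Agent.Work.Monodromy4.Q1
import Pool.Agent.Work.Monodromy.Interface7T

/-!
# Phase 7: the glue
-/

set_option autoImplicit false
set_option linter.unusedSectionVars false

namespace Pool.Agent.Mono.BG

open MvPolynomial TS PC RO

namespace BG7Aux

theorem reg_mono {P : HodgeMeasure} {ι : Type} [Fintype ι] {f : MvPolynomial ι ℂ} {X : Set ℂ}
    {Λ Λ' : ℂ → Set ℚ} (h : Reg P f X Λ) (hΛ : ∀ c, Λ c ⊆ Λ' c) : Reg P f X Λ' := by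
  obtain ⟨hs, crit, ts, b, h1, h2⟩ := h
  refine ⟨hs, crit, ts, b, fun c hc => ?_, h2⟩
  obtain ⟨h3, h4⟩ := h1 c hc
  exact ⟨fun t ht => stmt_Q1.1 _ _ _ (hΛ c) (h3 t ht), stmt_Q1.1 _ _ _ (hΛ c) h4⟩

theorem wset_pos {ι : Type} [DecidableEq ι] (f : MvPolynomial ι ℂ) (c : ℂ) :
    wset f c ⊆ Set.Ioi 0 := fun _ hr => hr.1

theorem good_reg {ι : Type} [Fintype ι] [DecidableEq ι] {f : MvPolynomial ι ℂ}
    (h : Good5 ι f) (P : HodgeMeasure) : Reg P f Set.univ (wset f) := by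
  obtain ⟨Λ, h1, h2, h3⟩ := h.2 P
  exact reg_mono h3 fun c r hr => ⟨h1 c hr, h2 c r hr⟩

theorem comp2_degree {ι κ : Type} [Fintype ι] [Fintype κ] [DecidableEq ι] [DecidableEq κ]
    (f : MvPolynomial ι ℂ) (g : MvPolynomial κ ℂ) (P : P2) (hf : f.totalDegree ≠ 0)
    (hg : g.totalDegree ≠ 0) (hP : P.totalDegree ≠ 0) : (comp2 P f g).totalDegree ≠ 0 := by
  intro h
  rw [totalDegree_eq_zero_iff_eq_C] at h
  apply hP
  rw [totalDegree_eq_zero_iff_eq_C]
  have h1 : P = C (coeff 0 (comp2 P f g)) := by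
    apply MvPolynomial.funext
    intro x
    obtain ⟨a, ha⟩ := CTX7Aux.surj f hf (x 0)
    obtain ⟨b, hb⟩ := CTX7Aux.surj g hg (x 1)
    have h2 : eval (Sum.elim a b) (comp2 P f g) = eval x P := by
      unfold comp2
      rw [aeval_def, ← coe_eval₂Hom, ← RingHom.comp_apply]
      have h3 : (eval (Sum.elim a b)).comp (eval₂Hom (algebraMap ℂ (MvPolynomial (ι ⊕ κ) ℂ))
          ![rename Sum.inl f, rename Sum.inr g]) = eval x := by
        apply MvPolynomial.ringHom_ext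
        · intro r
          simp
        · intro i
          fin_cases i
          · simp [eval_rename, ha]
          · simp [eval_rename, hb]
      rw [h3]
    rw [← h2, h, eval_C]
    simp
  rw [h1]
  simp

theorem axis_div (G : P2) (m : ℕ) (j : Fin 2) (h1 : ∀ d ∈ G.support, m ≤ d j) :
    ∃ K : P2, G = X j ^ m * K := by
  have h2 : (X j ^ m : P2) ∣ G := by
    rw [X_pow_eq_monomial, monomial_one_dvd_iff_modMonomial_eq_zero]
    ext d
    by_cases hd : d ∈ G.support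
    · have h3 : Finsupp.single j m ≤ d := by
        rw [Finsupp.single_le_iff]
        exact h1 d hd
      rw [coeff_modMonomial_of_le _ h3, coeff_zero]
    · rw [notMem_support_iff] at hd
      by_cases h3 : Finsupp.single j m ≤ d
      · rw [coeff_modMonomial_of_le _ h3, coeff_zero]
      · rw [coeff_modMonomial_of_not_le _ h3, hd, coeff_zero]
  exact h2

theorem axis_nd (K : P2) (j : Fin 2) (h : K.coeff 0 ≠ 0) : ¬ (X j : P2) ∣ K := by
  rintro ⟨K', rfl⟩
  apply h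
  rw [← constantCoeff_eq]
  simp

end BG7Aux

open BG7Aux in
theorem stmt_BG (hGV : BV.Stmt_GV7) (hC : Stmt_CTX7) (hT : Stmt_TREE7) : Stmt_BG := by
  intro ι κ _ _ _ _ f g P hP hf hg
  refine ⟨comp2_degree f g P hf.1 hg.1 hP, fun M => ⟨wset (comp2 P f g), wset_pos _,
    fun c r hr => hr.2, ?_⟩⟩
  have hc := hC ι κ f g P hf.1 hg.1 hP
  have ht := hT ι κ f g P hf.1 hg.1 hP
  refine hGV M ι κ f g (wset f) (wset g) P (wset (comp2 P f g)) (wset_pos _) (wset_pos _)
    (wset_pos _) (good_reg hf M) (good_reg hg M) hP ?_ ?_ ?_ ?_ ?_ ?_ ?_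
  · intro c n u hu hsq x₀ hx hcr
    subst hx
    exact (ht x₀).1 n u hu hsq hcr
  · intro c u q e he hx hG
    exact hc.2.1 c u q e he hx hG
  · intro x₀ h
    exact (ht x₀).2.2.1 h
  · intro x₀ h
    exact (ht x₀).2.2.2.1 h
  · intro x₀
    exact (ht x₀).2.2.2.2
  · intro x₀ m hm h1 h2 r hr
    obtain ⟨K, hK⟩ := axis_div _ m 0 h1
    refine (hc.2.2 x₀).1.axis r hr m K hm hK (axis_nd K 0 ?_)
    rw [hK, show mon m 0 = Finsupp.single (0 : Fin 2) m + 0 by
      ext i; fin_cases i <;> simp [mon], X_pow_eq_monomial, coeff_monomial_mul, one_mul] at h2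
    exact h2
  · intro x₀ m hm h1 h2 r hr
    obtain ⟨K, hK⟩ := axis_div _ m 1 h1
    refine (hc.2.2 x₀).2.2.1.axis1 r hr m K hm hK (axis_nd K 1 ?_)
    rw [hK, show mon 0 m = Finsupp.single (1 : Fin 2) m + 0 by
      ext i; fin_cases i <;> simp [mon], X_pow_eq_monomial, coeff_monomial_mul, one_mul] at h2
    exact h2

end Pool.Agent.Mono.BG
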