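import Pool.Agent.Work.Monodromy5.All5
import Pool.Agent.Work.Monodromy6.SQ6
import Pool.Agent.Work.Monodromy7.BG7
import Pool.Agent.Work.Monodromy7.All7V
import Pool.Agent.Work.Monodromy7.AllW7
import Pool.Agent.Work.Monodromy7.Final7

/-!
# Phase 7: the monodromy conjecture for formulas with binary gates
-/

set_option autoImplicit false

namespace Pool.Agent.Mono.RO

open TS

theorem all_BG : BG.Stmt_BG := BG.stmt_BG BV.gv7 BG.ctx7 BG.tree7

/-- the monodromy conjecture for formulas with binary gates -/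
theorem mc_gate {ι : Type} [Fintype ι] {f : MvPolynomial ι ℂ} (h : GateFormula ι f)
    (P : HodgeMeasure) (R : RatFunc ℚ) (hR : IsTopologicalZeta P f R) : GoodPoles f R :=
  gate_top all_Adm all_Adm5 stmt_SQ6 all_BG all_TM5 h P R hR

/-- the monodromy conjecture for formulas with binary gates, twisted -/
theorem mc_gate_tw {ι : Type} [Fintype ι] {f : MvPolynomial ι ℂ} (h : GateFormula ι f)
    (P : HodgeMeasure) (e : ℕ) (he : 1 ≤ e) (R : RatFunc ℚ) (hR : IsTwTopZeta P f e R) :
    GoodPoles f R :=
  gate_tw all_Adm all_Adm5 stmt_SQ6 all_BG all_TM5 h P e he R hR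

end Pool.Agent.Mono.RO
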