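import Pool.Agent.Work.Monodromy.Interface7V
import Pool.Agent.Work.Monodromy6.VSH
import Pool.Agent.Work.Monodromy6.VSM
import Pool.Agent.Work.Monodromy6.VMU
import Pool.Agent.Work.Monodromy6.PL

/-!
# Tools (helper60): arcs with given starting point, pairs of Haar parts
-/

set_option autoImplicit false
set_option linter.unusedSectionVars false

namespace Pool.Agent.Mono.BV

open MvPolynomial TS RO PC

namespace B60

open VGAux

theorem xq_ne : (xq : K) ≠ 0 := by
  rw [xq]
  exact inv_ne_zero RatFunc.X_ne_zero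

section

variable {E E' ι κ : Type}

/-- substitution of arcs with regular coefficients -/
theorem Cy_sub [Finite E] [Fintype κ] [Fintype ι] {C : Set ((E → ℂ) × (κ → PowerSeries ℂ))}
    (hC : Cy C) {φ : E → (E' → ℂ) × (ι → PowerSeries ℂ) → ℂ} (hφ : ∀ e, RF (φ e))
    {ψ : κ → (E' → ℂ) × (ι → PowerSeries ℂ) → PowerSeries ℂ}
    (hψ : ∀ i l, RF fun z => PowerSeries.coeff l (ψ i z)) :
    Cy {z : (E' → ℂ) × (ι → PowerSeries ℂ) | ((fun e => φ e z), fun i => ψ i z) ∈ C} := by
  classical
  obtain ⟨N, hN⟩ := hC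
  have hc := hN N le_rfl
  set Φ : E ⊕ (Σ _ : κ, Fin N) → (E' → ℂ) × (ι → PowerSeries ℂ) → ℂ :=
    Sum.elim φ fun s z => PowerSeries.coeff (s.2 : ℕ) (ψ s.1 z) with hΦ
  have h := Cy.mem (E := E ⊕ (Σ _ : κ, Fin N)) (ι := ι) (E' := E') hc.2 (φ := Φ) (by
    rintro (e | s)
    · exact hφ e
    · exact hψ s.1 s.2)
  convert h using 1
  ext z
  change _ ↔ ((fun e => Φ (Sum.inl e) z), toArc (fun _ => N) fun s => Φ (Sum.inr s) z) ∈ C
  refine hc.1 _ _ _ fun i l hl => ?_
  rw [coeff_toArc, dif_pos hl]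
  rfl

/-- arcs with a given starting point -/
theorem vol_org (P : HodgeMeasure) [Finite E] [Fintype ι] (c : ι → MvPolynomial E ℂ)
    {C : Set ((E → ℂ) × (ι → PowerSeries ℂ))} (hC : Cy C) :
    vol P.rat xq {z : (E → ℂ) × (ι → PowerSeries ℂ) |
      (∀ i, PowerSeries.coeff 0 (z.2 i) = eval z.1 (c i)) ∧ z ∈ C} =
    xq ^ Fintype.card ι * vol P.rat xq {z : (E → ℂ) × (ι → PowerSeries ℂ) |
      (z.1, fun i => PowerSeries.C (eval z.1 (c i)) + PowerSeries.X * z.2 i) ∈ C} := by
  classical
  have := Fintype.ofFinite E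
  have hRc : ∀ i, RF fun z : (E → ℂ) × (ι → PowerSeries ℂ) => eval z.1 (c i) := fun i =>
    RF.eval (fun e => RF.par e) (c i)
  have hS : Cy {z : (E → ℂ) × (ι → PowerSeries ℂ) |
      (∀ i, PowerSeries.coeff 0 (z.2 i) = eval z.1 (c i)) ∧ z ∈ C} := by
    refine Cy.and ?_ hC
    have h : Cy {z : (E → ℂ) × (ι → PowerSeries ℂ) |
        (fun i => PowerSeries.coeff 0 (z.2 i) - eval z.1 (c i)) ∈ ({0} : Set (ι → ℂ))} := by
      refine Cy.mem (Constructible.point 0) (fun i => ?_)
      have h1 := (RF.arc (E := E) (ι := ι) i 0).add ((RF.const (-1)).mul (hRc i))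
      convert h1 using 1
      funext z
      ring
    convert h using 2
    ext z
    constructor
    · intro h1
      funext i
      change PowerSeries.coeff 0 (z.2 i) - eval z.1 (c i) = 0
      rw [h1 i, sub_self]
    · intro h1 i
      have h2 : PowerSeries.coeff 0 (z.2 i) - eval z.1 (c i) = 0 := congrFun h1 i
      exact sub_eq_zero.1 h2
  have hS' : Cy {z : (E → ℂ) × (ι → PowerSeries ℂ) |
      (z.1, fun i => PowerSeries.C (eval z.1 (c i)) + PowerSeries.X * z.2 i) ∈ C} := by
    refine Cy_sub hC (φ := fun e z => z.1 e)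
      (ψ := fun i z => PowerSeries.C (eval z.1 (c i)) + PowerSeries.X * z.2 i)
      (fun e => RF.par e) fun i l => ?_
    rcases l with _ | l
    · have e1 : (fun z : (E → ℂ) × (ι → PowerSeries ℂ) => PowerSeries.coeff 0
          (PowerSeries.C (eval z.1 (c i)) + PowerSeries.X * z.2 i)) = fun z => eval z.1 (c i) := by
        funext z
        rw [map_add, PowerSeries.coeff_zero_X_mul, add_zero, PowerSeries.coeff_C, if_pos rfl]
      rw [e1]
      exact hRc i
    · have e1 : (fun z : (E → ℂ) × (ι → PowerSeries ℂ) => PowerSeries.coeff (l + 1)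
          (PowerSeries.C (eval z.1 (c i)) + PowerSeries.X * z.2 i)) =
          fun z => PowerSeries.coeff l (z.2 i) := by
        funext z
        rw [map_add, PowerSeries.coeff_succ_X_mul, PowerSeries.coeff_C,
          if_neg (Nat.succ_ne_zero l), zero_add]
      rw [e1]
      exact RF.arc i l
  obtain ⟨N, hN⟩ := hS
  obtain ⟨N', hN'⟩ := hS'
  set n := max N N' with hn
  have hc := hN (n + 1) (le_trans (le_max_left _ _) (Nat.le_succ n))
  have hc' := hN' n (le_max_right _ _)
  have key := CV.vol_cv P hc hc'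
    (fun p x i => PowerSeries.C (eval p (c i)) + PowerSeries.X * x i)
    (fun s => if h : (s.2 : ℕ) = 0 then rename Sum.inl (c s.1) else
      X (Sum.inr ⟨s.1, ⟨(s.2 : ℕ) - 1, by have := s.2.2; omega⟩⟩)) ?_ ?_ ?_ ?_
  · have hx : (xq : K) ^ (∑ _j : ι, n) ≠ 0 := pow_ne_zero _ xq_ne
    refine mul_right_cancel₀ hx (key.trans ?_)
    have e1 : ∑ _i : ι, (n + 1) = Fintype.card ι + ∑ _i : ι, n := by
      simp [Finset.sum_const, Finset.card_univ]
      ring
    rw [e1, pow_add]
    ring
  · rintro p x _ ⟨i, ⟨l, hl⟩⟩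
    change PowerSeries.coeff l (PowerSeries.C (eval p (c i)) + PowerSeries.X * x i) = _
    rcases l with _ | l
    · rw [map_add, PowerSeries.coeff_zero_X_mul, add_zero, PowerSeries.coeff_C, if_pos rfl,
        dif_pos rfl, eval_rename]
      rfl
    · rw [map_add, PowerSeries.coeff_succ_X_mul, PowerSeries.coeff_C,
        if_neg (Nat.succ_ne_zero l), zero_add, dif_neg (Nat.succ_ne_zero l), eval_X]
      rfl
  · intro p x hx
    refine ⟨fun i => ?_, hx⟩
    change PowerSeries.coeff 0 (PowerSeries.C (eval p (c i)) + PowerSeries.X * x i) = _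
    rw [map_add, PowerSeries.coeff_zero_X_mul, add_zero, PowerSeries.coeff_C, if_pos rfl]
  · intro p x x' _ _ hxx j l hl
    have h1 := hxx j (l + 1) (by omega)
    simp only [map_add, PowerSeries.coeff_succ_X_mul] at h1
    exact add_left_cancel h1
  · intro p y hy
    have e1 : (fun i => PowerSeries.C (eval p (c i)) + PowerSeries.X *
        PowerSeries.mk fun l => PowerSeries.coeff (l + 1) (y i)) = y := by
      funext i
      ext l
      rcases l with _ | l
      · rw [map_add, PowerSeries.coeff_zero_X_mul, add_zero, PowerSeries.coeff_C, if_pos rfl]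
        exact (hy.1 i).symm
      · rw [map_add, PowerSeries.coeff_succ_X_mul, PowerSeries.coeff_C,
          if_neg (Nat.succ_ne_zero l), zero_add, PowerSeries.coeff_mk]
    refine ⟨fun i => PowerSeries.mk fun l => PowerSeries.coeff (l + 1) (y i), ?_, fun i l _ => ?_⟩
    · change (p, fun i => PowerSeries.C (eval p (c i)) + PowerSeries.X *
        PowerSeries.mk fun l => PowerSeries.coeff (l + 1) (y i)) ∈ C
      rw [e1]
      exact hy.2
    · exact congrArg (PowerSeries.coeff l) (congrFun e1 i)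

end

section trick

variable {E : Type}

/-- the polynomial `G(v(x) + a, v'(x) + b)` -/
noncomputable def tf (h : HH) (G : P2) : MvPolynomial (h.σ ⊕ Fin 2) ℂ :=
  aeval (fun j => rename Sum.inl ((![h.v, h.v'] : Fin 2 → MvPolynomial h.σ ℂ) j) +
    X (Sum.inr j)) G

/-- the starting points -/
def tz (h : HH) : Set (h.σ ⊕ Fin 2 → ℂ) :=
  {x | (fun s => x (Sum.inl s)) ∈ h.H ∧ (fun j => x (Sum.inr j)) ∈ ({0} : Set (Fin 2 → ℂ))}

theorem con_tz (h : HH) (hH : Constructible h.H) : Constructible (tz h) :=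
  Constructible.and (Constructible.comap Sum.inl hH)
    (Constructible.comap Sum.inr (Constructible.point 0))

theorem coeff0 {ι : Type} [Fintype ι] (f : MvPolynomial ι ℂ) (x : ι → PowerSeries ℂ) :
    PowerSeries.coeff 0 (aeval x f) = eval (fun a => PowerSeries.coeff 0 (x a)) f :=
  VMUAux.coeff_zero' f x

theorem vol_trick (P : HodgeMeasure) (h : HH) [Fintype h.σ] (hH : Constructible h.H) [Finite E]
    {C : Set ((E → ℂ) × (Fin 2 → PowerSeries ℂ))} (hC : Cy C) :
    vol P.rat xq {z : (E → ℂ) × (h.σ ⊕ Fin 2 → PowerSeries ℂ) |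
      (fun a => PowerSeries.coeff 0 (z.2 a)) ∈ tz h ∧
      (z.1, fun j => aeval (fun s => z.2 (Sum.inl s))
        ((![h.v, h.v'] : Fin 2 → MvPolynomial h.σ ℂ) j) + z.2 (Sum.inr j)) ∈ C} =
    xq ^ (Fintype.card h.σ + 2) * vol P.rat xq
      {z : (E ⊕ h.σ → ℂ) × (Fin 2 → PowerSeries ℂ) | (fun s => z.1 (Sum.inr s)) ∈ h.H ∧
        ((fun e => z.1 (Sum.inl e)),
          ![PowerSeries.C (eval (fun s => z.1 (Sum.inr s)) h.v) + PowerSeries.X * z.2 0,
            PowerSeries.C (eval (fun s => z.1 (Sum.inr s)) h.v') + PowerSeries.X * z.2 1]) ∈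
          C} := by
  classical
  have := Fintype.ofFinite E
  obtain ⟨vv, hvv⟩ : ∃ vv : Fin 2 → MvPolynomial h.σ ℂ, vv = ![h.v, h.v'] := ⟨_, rfl⟩
  rw [← hvv]
  have hz := con_tz h hH
  -- the condition on the starting point
  have c0 : Cy {z : (E → ℂ) × (h.σ ⊕ Fin 2 → PowerSeries ℂ) |
      (fun a => PowerSeries.coeff 0 (z.2 a)) ∈ tz h} :=
    Cy.mem (E := h.σ ⊕ Fin 2) hz (φ := fun a z => PowerSeries.coeff 0 (z.2 a))
      fun a => RF.arc a 0
  have rx : ∀ (j : Fin 2) (l : ℕ), RF fun z : (E → ℂ) × (h.σ ⊕ Fin 2 → PowerSeries ℂ) =>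
      PowerSeries.coeff l (aeval (fun s => z.2 (Sum.inl s)) (vv j)) := by
    intro j l
    have h1 := RF.coef (E := E) (rename Sum.inl (vv j) : MvPolynomial (h.σ ⊕ Fin 2) ℂ) l
    convert h1 using 2 with z
    rw [aeval_rename]
    rfl
  have rz : ∀ (j : Fin 2), RF fun z : (E → ℂ) × (h.σ ⊕ Fin 2 → PowerSeries ℂ) =>
      eval (fun s => PowerSeries.coeff 0 (z.2 (Sum.inl s))) (vv j) := fun j =>
    RF.eval (fun s => RF.arc (Sum.inl s) 0) (vv j)
  have rC : ∀ (φ : (E → ℂ) × (h.σ ⊕ Fin 2 → PowerSeries ℂ) → ℂ) (l : ℕ), RF φ →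
      RF fun z => PowerSeries.coeff l (PowerSeries.C (φ z)) := by
    intro φ l hφ
    simp only [PowerSeries.coeff_C]
    exact RF.ite _ hφ (RF.const 0)
  set S1 : Set ((E → ℂ) × (h.σ ⊕ Fin 2 → PowerSeries ℂ)) :=
    {z | (fun a => PowerSeries.coeff 0 (z.2 a)) ∈ tz h ∧
      (z.1, fun j => aeval (fun s => z.2 (Sum.inl s)) (vv j) + z.2 (Sum.inr j)) ∈ C} with hS1
  set S2 : Set ((E → ℂ) × (h.σ ⊕ Fin 2 → PowerSeries ℂ)) :=
    {z | (fun a => PowerSeries.coeff 0 (z.2 a)) ∈ tz h ∧
      (z.1, fun j => PowerSeries.C (eval (fun s => PowerSeries.coeff 0 (z.2 (Sum.inl s))) (vv j)) +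
        z.2 (Sum.inr j)) ∈ C} with hS2
  set C3 : Set ((E ⊕ h.σ → ℂ) × (h.σ ⊕ Fin 2 → PowerSeries ℂ)) :=
    {z | (fun s => z.1 (Sum.inr s)) ∈ h.H ∧ ((fun e => z.1 (Sum.inl e)),
      fun j => PowerSeries.C (eval (fun s => z.1 (Sum.inr s)) (vv j)) + z.2 (Sum.inr j)) ∈ C}
    with hC3
  obtain ⟨c, hc⟩ : ∃ c : h.σ ⊕ Fin 2 → MvPolynomial (E ⊕ h.σ) ℂ,
      c = Sum.elim (fun s => X (Sum.inr s)) fun _ => 0 := ⟨_, rfl⟩
  have cS1 : Cy S1 := by
    refine Cy.and c0 (Cy_sub hC (φ := fun e z => z.1 e) (ψ := fun j z =>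
      aeval (fun s => z.2 (Sum.inl s)) (vv j) + z.2 (Sum.inr j)) (fun e => RF.par e) fun j l => ?_)
    simp only [map_add]
    exact (rx j l).add (RF.arc _ _)
  have cS2 : Cy S2 := by
    refine Cy.and c0 (Cy_sub hC (φ := fun e z => z.1 e) (ψ := fun j z =>
      PowerSeries.C (eval (fun s => PowerSeries.coeff 0 (z.2 (Sum.inl s))) (vv j)) +
        z.2 (Sum.inr j)) (fun e => RF.par e) fun j l => ?_)
    simp only [map_add]
    exact (rC _ l (rz j)).add (RF.arc _ _)
  have rE : ∀ (j : Fin 2), RF fun z : (E ⊕ h.σ → ℂ) × (h.σ ⊕ Fin 2 → PowerSeries ℂ) =>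
      eval (fun s => z.1 (Sum.inr s)) (vv j) := fun j =>
    RF.eval (fun s => RF.par (Sum.inr s)) (vv j)
  have cC3 : Cy C3 := by
    refine Cy.and (Cy.mem (E := h.σ) hH (φ := fun s z => z.1 (Sum.inr s))
      fun s => RF.par _) (Cy_sub hC (φ := fun e z => z.1 (Sum.inl e)) (ψ := fun j z =>
      PowerSeries.C (eval (fun s => z.1 (Sum.inr s)) (vv j)) +
        z.2 (Sum.inr j)) (fun e => RF.par _) fun j l => ?_)
    simp only [map_add, PowerSeries.coeff_C]
    exact (RF.ite _ (rE j) (RF.const 0)).add (RF.arc _ _)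
  -- step 1: automorphism
  have step1 : vol P.rat xq S2 = vol P.rat xq S1 := by
    refine VSHAux.vol_aut P cS1 cS2
      (fun _ y => Sum.elim (fun s => y (Sum.inl s)) fun j => y (Sum.inr j) +
        PowerSeries.C (eval (fun s => PowerSeries.coeff 0 (y (Sum.inl s))) (vv j)) -
        aeval (fun s => y (Sum.inl s)) (vv j))
      (fun _ y => Sum.elim (fun s => y (Sum.inl s)) fun j => y (Sum.inr j) -
        PowerSeries.C (eval (fun s => PowerSeries.coeff 0 (y (Sum.inl s))) (vv j)) +
        aeval (fun s => y (Sum.inl s)) (vv j)) ?_ ?_ ?_ ?_ ?_ ?_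
    · rintro (s | j) l
      · exact RF.arc _ _
      · have h1 := ((RF.arc (E := E) (ι := h.σ ⊕ Fin 2) (Sum.inr j) l).add
          (rC _ l (rz j))).add ((RF.const (-1)).mul (rx j l))
        convert h1 using 1
        funext z
        simp only [Sum.elim_inr, map_add, map_sub]
        ring
    · rintro p x y N hxy (s | j) l hl
      · exact hxy _ _ hl
      · simp only [Sum.elim_inr, map_add, map_sub, PowerSeries.coeff_C]
        rw [hxy _ l hl, GJetAux.aeval_congr (vv j) N (fun s => x (Sum.inl s))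
          (fun s => y (Sum.inl s)) (fun s l hl => hxy _ l hl) l hl]
        congr 2
        split_ifs with h0
        · congr 1
          congr 1
          funext s
          exact hxy _ 0 (by omega)
        · rfl
    · rintro p x y N hxy (s | j) l hl
      · exact hxy _ _ hl
      · simp only [Sum.elim_inr, map_add, map_sub, PowerSeries.coeff_C]
        rw [hxy _ l hl, GJetAux.aeval_congr (vv j) N (fun s => x (Sum.inl s))
          (fun s => y (Sum.inl s)) (fun s l hl => hxy _ l hl) l hl]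
        congr 2
        split_ifs with h0
        · congr 1
          congr 1
          funext s
          exact hxy _ 0 (by omega)
        · rfl
    · intro p x
      have e0 : (fun a => PowerSeries.coeff 0 ((Sum.elim (fun s => x (Sum.inl s)) fun j =>
          x (Sum.inr j) + PowerSeries.C (eval (fun s => PowerSeries.coeff 0 (x (Sum.inl s)))
            (vv j)) - aeval (fun s => x (Sum.inl s)) (vv j) :
              h.σ ⊕ Fin 2 → PowerSeries ℂ) a)) = fun a => PowerSeries.coeff 0 (x a) := by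
        funext a
        rcases a with s | j
        · rfl
        · simp only [Sum.elim_inr, map_add, map_sub]
          rw [coeff0, PowerSeries.coeff_C, if_pos rfl]
          ring
      change (_ ∧ _) ↔ (_ ∧ _)
      dsimp only
      rw [e0]
      refine and_congr Iff.rfl ?_
      have e1 : (fun j => PowerSeries.C (eval (fun s => PowerSeries.coeff 0 (x (Sum.inl s)))
          (vv j)) + x (Sum.inr j)) = fun j => aeval (fun s => (Sum.elim (fun s => x (Sum.inl s))
          fun j => x (Sum.inr j) + PowerSeries.C (eval (fun s => PowerSeries.coeff 0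
            (x (Sum.inl s))) (vv j)) - aeval (fun s => x (Sum.inl s)) (vv j) :
              h.σ ⊕ Fin 2 → PowerSeries ℂ) (Sum.inl s)) (vv j) +
          (Sum.elim (fun s => x (Sum.inl s)) fun j => x (Sum.inr j) +
            PowerSeries.C (eval (fun s => PowerSeries.coeff 0 (x (Sum.inl s))) (vv j)) -
              aeval (fun s => x (Sum.inl s)) (vv j) : h.σ ⊕ Fin 2 → PowerSeries ℂ)
                (Sum.inr j) := by
        funext j
        simp only [Sum.elim_inl, Sum.elim_inr]
        ring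
      rw [e1]
    · intro p x
      funext a
      rcases a with s | j
      · rfl
      · simp only [Sum.elim_inl, Sum.elim_inr]
        ring
    · intro p x
      funext a
      rcases a with s | j
      · rfl
      · simp only [Sum.elim_inl, Sum.elim_inr]
        ring
  -- step 2: the starting point as a parameter
  set S3 : Set ((E ⊕ h.σ → ℂ) × (h.σ ⊕ Fin 2 → PowerSeries ℂ)) :=
    {z | (∀ a, PowerSeries.coeff 0 (z.2 a) = eval z.1 (c a)) ∧ z ∈ C3} with hS3
  have cS3 : Cy S3 := by
    refine Cy.and ?_ cC3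
    have h1 : Cy {z : (E ⊕ h.σ → ℂ) × (h.σ ⊕ Fin 2 → PowerSeries ℂ) |
        (fun a => PowerSeries.coeff 0 (z.2 a) - eval z.1 (c a)) ∈
          ({0} : Set (h.σ ⊕ Fin 2 → ℂ))} := by
      refine Cy.mem (Constructible.point 0) (fun a => ?_)
      have h1 := (RF.arc (E := E ⊕ h.σ) (ι := h.σ ⊕ Fin 2) a 0).add
        ((RF.const (-1)).mul (RF.eval (fun e => RF.par e) (c a)))
      convert h1 using 1
      funext z
      ring
    convert h1 using 2
    ext z
    constructor
    · intro h1
      funext i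
      change PowerSeries.coeff 0 (z.2 i) - eval z.1 (c i) = 0
      rw [h1 i, sub_self]
    · intro h1 i
      have h2 : PowerSeries.coeff 0 (z.2 i) - eval z.1 (c i) = 0 := congrFun h1 i
      exact sub_eq_zero.1 h2
  have step2 : vol P.rat xq S3 = vol P.rat xq S2 := by
    refine vol_base P cS3 cS2 Sum.inl ?_ ?_ ?_
    · rintro ⟨p, y⟩ ⟨h1, h2, h3⟩
      have e1 : ∀ s, PowerSeries.coeff 0 (y (Sum.inl s)) = p (Sum.inr s) := by
        intro s
        have h4 := h1 (Sum.inl s)
        rw [hc, Sum.elim_inl, eval_X] at h4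
        exact h4
      have e2 : ∀ j, PowerSeries.coeff 0 (y (Sum.inr j)) = 0 := by
        intro j
        have h4 := h1 (Sum.inr j)
        rw [hc, Sum.elim_inr, map_zero] at h4
        exact h4
      refine ⟨⟨?_, ?_⟩, ?_⟩
      · change (fun s => PowerSeries.coeff 0 (y (Sum.inl s))) ∈ h.H
        rw [show (fun s => PowerSeries.coeff 0 (y (Sum.inl s))) = fun s => p (Sum.inr s) from
          funext e1]
        exact h2
      · exact funext e2
      · change ((fun e => p (Sum.inl e)), fun j => PowerSeries.C (eval (fun s =>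
          PowerSeries.coeff 0 (y (Sum.inl s))) (vv j)) + y (Sum.inr j)) ∈ C
        rw [show (fun s => PowerSeries.coeff 0 (y (Sum.inl s))) = fun s => p (Sum.inr s) from
          funext e1]
        exact h3
    · rintro ⟨p, y⟩ ⟨h1, -⟩ ⟨p', y'⟩ ⟨h1', -⟩ he hy
      change p = p'
      have he' : ∀ e, p (Sum.inl e) = p' (Sum.inl e) := fun e => congrFun he e
      have hy' : y = y' := hy
      subst hy'
      funext a
      rcases a with e | s
      · exact he' e
      · have h4 := h1 (Sum.inl s)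
        have h5 := h1' (Sum.inl s)
        rw [hc, Sum.elim_inl, eval_X] at h4 h5
        exact h4.symm.trans h5
    · rintro ⟨p, y⟩ ⟨⟨h1, h1'⟩, h2⟩
      refine ⟨Sum.elim p fun s => PowerSeries.coeff 0 (y (Sum.inl s)), rfl, fun a => ?_, h1, h2⟩
      rcases a with s | j
      · rw [hc, Sum.elim_inl, eval_X]
        rfl
      · rw [hc, Sum.elim_inr, map_zero]
        exact congrFun h1' j
  -- step 3: arcs with given starting point
  have step3 := vol_org P c cC3
  -- step 4: forget the arcs of the parameters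
  set S5 : Set ((E ⊕ h.σ → ℂ) × (Fin 2 → PowerSeries ℂ)) :=
    {z | (fun s => z.1 (Sum.inr s)) ∈ h.H ∧ ((fun e => z.1 (Sum.inl e)),
          ![PowerSeries.C (eval (fun s => z.1 (Sum.inr s)) h.v) + PowerSeries.X * z.2 0,
            PowerSeries.C (eval (fun s => z.1 (Sum.inr s)) h.v') + PowerSeries.X * z.2 1]) ∈
          C} with hS5
  have e5 : ∀ (p : E ⊕ h.σ → ℂ) (y : Fin 2 → PowerSeries ℂ),
      (fun j => PowerSeries.C (eval (fun s => p (Sum.inr s)) (vv j)) + PowerSeries.X * y j) =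
      ![PowerSeries.C (eval (fun s => p (Sum.inr s)) h.v) + PowerSeries.X * y 0,
            PowerSeries.C (eval (fun s => p (Sum.inr s)) h.v') + PowerSeries.X * y 1] := by
    intro p y
    funext j
    fin_cases j
    · simp [hvv]
    · simp [hvv]
  have cS5 : Cy S5 := by
    have h1 : Cy {z : (E ⊕ h.σ → ℂ) × (Fin 2 → PowerSeries ℂ) |
        ((fun s => z.1 (Sum.inr s)) ∈ h.H) ∧ ((fun e => z.1 (Sum.inl e)),
          fun j => PowerSeries.C (eval (fun s => z.1 (Sum.inr s)) (vv j)) +
            PowerSeries.X * z.2 j) ∈ C} := by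
      refine Cy.and (Cy.mem (E := h.σ) hH (φ := fun s z => z.1 (Sum.inr s))
        fun s => RF.par _) (Cy_sub hC (φ := fun e z => z.1 (Sum.inl e)) (ψ := fun j z =>
        PowerSeries.C (eval (fun s => z.1 (Sum.inr s)) (vv j)) +
          PowerSeries.X * z.2 j) (fun e => RF.par _) fun j l => ?_)
      have hj : RF fun z : (E ⊕ h.σ → ℂ) × (Fin 2 → PowerSeries ℂ) =>
        eval (fun s => z.1 (Sum.inr s)) (vv j) := RF.eval (fun s => RF.par (Sum.inr s)) (vv j)
      simp only [map_add, PowerSeries.coeff_C]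
      refine (RF.ite _ hj (RF.const 0)).add ?_
      rcases l with _ | l
      · simp only [PowerSeries.coeff_zero_X_mul]
        exact RF.const 0
      · simp only [PowerSeries.coeff_succ_X_mul]
        exact RF.arc j l
    convert h1 using 1
    ext z
    change (_ ∧ _) ↔ (_ ∧ _)
    rw [e5]
  obtain ⟨N5, h5⟩ := cS5
  have step4 := T0Aux.vol_comp P (φ := (Sum.inr : Fin 2 → h.σ ⊕ Fin 2)) Sum.inr_injective
    (h5 N5 le_rfl)
  rw [← step1, ← step2, step3, ← step4, Fintype.card_sum, Fintype.card_fin]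
  congr 2
  ext z
  change (_ ∧ _) ↔ (_ ∧ _)
  refine and_congr Iff.rfl ?_
  rw [← e5]
  have e6 : (fun j => PowerSeries.C (eval (fun s => z.1 (Sum.inr s)) (vv j)) +
      (PowerSeries.C (eval z.1 (c (Sum.inr j))) + PowerSeries.X * z.2 (Sum.inr j))) =
      fun j => PowerSeries.C (eval (fun s => z.1 (Sum.inr s)) (vv j)) +
        PowerSeries.X * z.2 (Sum.inr j) := by
    funext j
    rw [hc, Sum.elim_inr, map_zero, map_zero, zero_add]
  exact iff_of_eq (congrArg (fun y => ((fun e => z.1 (Sum.inl e)), y) ∈ C) e6)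

theorem Cy_SD' {ι : Type} [Fintype ι] [Finite E] (f : MvPolynomial ι ℂ) (w : Bool)
    {Q : Set (E ⊕ Bool → ℂ)} (hQ : Constructible Q) (i : ℕ) : Cy (SD f w Q i) :=
  Cy.and (Cy.cutH f w i) (Cy.mem hQ (O5Aux.RF_dat f w i))

theorem aeval_tf (h : HH) (G : P2) {A : Type} [CommRing A] [Algebra ℂ A]
    (x : h.σ ⊕ Fin 2 → A) : aeval x (tf h G) =
      aeval (fun j => aeval (fun s => x (Sum.inl s))
        ((![h.v, h.v'] : Fin 2 → MvPolynomial h.σ ℂ) j) + x (Sum.inr j)) G := by
  unfold tf
  rw [← AlgHom.comp_apply, comp_aeval]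
  congr 2
  funext j
  rw [map_add, aeval_X, aeval_rename]
  rfl

theorem eval_tf (h : HH) (G : P2) (x : h.σ ⊕ Fin 2 → ℂ) (hx : ∀ j, x (Sum.inr j) = 0) :
    eval x (tf h G) = eval ![eval (fun s => x (Sum.inl s)) h.v,
      eval (fun s => x (Sum.inl s)) h.v'] G := by
  have h1 := aeval_tf h G x
  rw [aeval_eq_eval, aeval_eq_eval] at h1
  change eval x (tf h G) = _ at h1
  rw [h1]
  change eval _ G = _
  congr 1
  congr 1
  funext j
  rw [hx, add_zero]
  fin_cases j <;> rfl

theorem pderiv_tf (h : HH) (G : P2) (i : Fin 2) :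
    pderiv (Sum.inr i) (tf h G) = tf h (pderiv i G) := by
  classical
  unfold tf
  induction G using MvPolynomial.induction_on with
  | C a => simp
  | add p q hp hq => simp only [map_add, hp, hq]
  | mul_X p j hp =>
    have e1 : pderiv (Sum.inr i) (rename Sum.inl ((![h.v, h.v'] :
        Fin 2 → MvPolynomial h.σ ℂ) j) : MvPolynomial (h.σ ⊕ Fin 2) ℂ) = 0 := by
      apply pderiv_eq_zero_of_notMem_vars
      intro hm
      have h2 := MvPolynomial.vars_rename (Sum.inl : h.σ → h.σ ⊕ Fin 2)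
        ((![h.v, h.v'] : Fin 2 → MvPolynomial h.σ ℂ) j)
      have h3 := h2 hm
      simp at h3
    rw [map_mul, aeval_X, Derivation.leibniz, hp, map_add, e1, zero_add, Derivation.leibniz,
      map_add, smul_eq_mul, smul_eq_mul, smul_eq_mul, smul_eq_mul, map_mul, map_mul, aeval_X]
    congr 1
    congr 1
    by_cases hij : j = i
    · subst hij
      rw [pderiv_X_self, pderiv_X_self, map_one]
    · rw [pderiv_X_of_ne (by intro h; exact hij (Sum.inr_injective h)), pderiv_X_of_ne hij,
        map_zero]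

/-- the factor -/
noncomputable def lm (h : HH) [Fintype h.σ] : K := h.lam * (xq ^ (Fintype.card h.σ + 2))⁻¹

theorem muHH_SD (P : HodgeMeasure) (h : HH) [Fintype h.σ] (hH : Constructible h.H) [Finite E]
    (G : P2) (w : Bool) {Q : Set (E ⊕ Bool → ℂ)} (hQ : Constructible Q) (i M : ℕ) :
    muHH P h E (SD G w Q i) M = lm h * vol P.rat xq (SDz (tf h G) (tz h) w Q i) := by
  have h1 := vol_trick P h hH (Cy_SD' G w hQ i)
  have e1 : {z : (E → ℂ) × (h.σ ⊕ Fin 2 → PowerSeries ℂ) |
      (fun a => PowerSeries.coeff 0 (z.2 a)) ∈ tz h ∧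
      (z.1, fun j => aeval (fun s => z.2 (Sum.inl s))
        ((![h.v, h.v'] : Fin 2 → MvPolynomial h.σ ℂ) j) + z.2 (Sum.inr j)) ∈ SD G w Q i} =
      SDz (tf h G) (tz h) w Q i := by
    ext z
    change (_ ∧ _ ∧ _) ↔ ((_ ∧ _) ∧ _)
    rw [aeval_tf]
    exact and_comm
  rw [e1] at h1
  rw [h1, lm, mul_assoc, ← mul_assoc ((xq ^ (Fintype.card h.σ + 2))⁻¹),
    inv_mul_cancel₀ (pow_ne_zero _ xq_ne), one_mul]
  rfl

/-- multiply the coefficients by `a` -/
noncomputable def scl (a : K) (G : Fam2) : Fam2 := { G with κ := fun i => a * G.κ i }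

theorem scl_cl (a : K) (G : Fam2) (P : HodgeMeasure) [Finite E] (Q : Set (E ⊕ Bool → ℂ)) :
    (scl a G).cl P Q = G.cl P Q := rfl

theorem HasM_of_HasDz (P : HodgeMeasure) (h : HH) [Fintype h.σ] (hH : Constructible h.H)
    (G : P2) (w : Bool) (Gs : List Fam2) (hD : HasDz P (tf h G) (tz h) w Gs) :
    HasM P (muHH P h) G w (Gs.map (scl (lm h))) := by
  constructor
  · intro F hF
    obtain ⟨F', hF', rfl⟩ := List.mem_map.1 hF
    exact hD.1 F' hF'
  · intro E _ Q hQ i M hi _
    rw [muHH_SD P h hH G w hQ.1 i M, hD.2 E Q hQ i hi, List.map_map]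
    have h1 : ∀ l : List Fam2, lm h * (l.map fun F => F.κ i * F.cl P Q).sum =
        (l.map ((fun F : Fam2 => F.κ i * F.cl P Q) ∘ scl (lm h))).sum := by
      intro l
      induction l with
      | nil => simp
      | cons F l ih =>
        rw [List.map_cons, List.map_cons, List.sum_cons, List.sum_cons, mul_add, ih]
        congr 1
        change _ = (lm h * F.κ i) * F.cl P Q
        ring
    exact h1 Gs

end trick

end B60

end Pool.Agent.Mono.BV
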