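import Pool.Agent.Work.Monodromy7.B60

/-!
# Tools (helper60): triangular families of power series
-/

set_option autoImplicit false
set_option linter.unusedSectionVars false

namespace Pool.Agent.Mono.BV

open MvPolynomial TS RO PC

namespace B61

open VGAux B60

section

variable {E E' ι : Type}

theorem vol_base0 (P : HodgeMeasure) [Finite E] [Fintype ι] {R : Set (E → ℂ)}
    (hR : Constructible R) :
    vol P.rat xq {z : (E → ℂ) × (ι → PowerSeries ℂ) | z.1 ∈ R} = P.rat.val R := by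
  classical
  have h : IsCyl (fun _ : ι => 0) {z : (E → ℂ) × (ι → PowerSeries ℂ) | z.1 ∈ R} :=
    IsCyl.param hR
  rw [vol_eq P.rat (VAAux.L_mul P) h]
  simp only [Finset.sum_const_zero, pow_zero, mul_one]
  refine P.rat.map _ _ (fun e => X (Sum.inl e)) h.2 hR ⟨?_, ?_, ?_⟩
  · intro v hv
    simp only [eval_X]
    exact hv
  · intro v _ v' _ hvv
    funext s
    rcases s with e | s
    · have := congrFun hvv e
      simpa only [eval_X] using this
    · exact s.2.elim0
  · intro r hr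
    refine ⟨Sum.elim r fun _ => 0, hr, ?_⟩
    funext e
    simp only [eval_X, Sum.elim_inl]

/-- the first coefficients of a triangular family are prescribed -/
theorem tri (P : HodgeMeasure) [Finite E] [Fintype ι] [DecidableEq ι] (j0 : ι)
    (Φ : (E → ℂ) → (ι → PowerSeries ℂ) → PowerSeries ℂ) (d : (E → ℂ) → ℂ) {R : Set (E → ℂ)}
    (hR : Constructible R)
    (h1 : ∀ l, RF fun z : (E → ℂ) × (ι → PowerSeries ℂ) => PowerSeries.coeff l (Φ z.1 z.2))
    (h2 : ∀ p x y n, (∀ i, ∀ l < n, PowerSeries.coeff l (x i) = PowerSeries.coeff l (y i)) →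
      ∀ l ≤ n, PowerSeries.coeff l (Φ p x) = PowerSeries.coeff l (Φ p y))
    (h3 : ∀ p ∈ R, ∀ x N t, PowerSeries.coeff (N + 1)
      (Φ p (Function.update x j0 (x j0 + PowerSeries.C t * PowerSeries.X ^ N))) =
        PowerSeries.coeff (N + 1) (Φ p x) + t * d p)
    (h4 : ∀ p ∈ R, d p ≠ 0) (B : ℕ → MvPolynomial E ℂ) (N : ℕ) :
    vol P.rat xq {z : (E → ℂ) × (ι → PowerSeries ℂ) | z.1 ∈ R ∧
      ∀ l < N, PowerSeries.coeff (l + 1) (Φ z.1 z.2) = eval z.1 (B l)} =
    xq ^ N * P.rat.val R := by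
  have := Fintype.ofFinite E
  have cD : ∀ (N : ℕ) (K : ι → ℕ), (∀ i, N ≤ K i) →
      IsCyl K {z : (E → ℂ) × (ι → PowerSeries ℂ) | z.1 ∈ R ∧
        ∀ l < N, PowerSeries.coeff (l + 1) (Φ z.1 z.2) = eval z.1 (B l)} := by
    intro N K hK
    have hcy : Cy {z : (E → ℂ) × (ι → PowerSeries ℂ) | z.1 ∈ R ∧
        ∀ l < N, PowerSeries.coeff (l + 1) (Φ z.1 z.2) = eval z.1 (B l)} :=
      Cy.and (Cy.param hR) (Cy.all_lt N fun l _ => Cy.eq (h1 (l + 1))
        (RF.eval (fun e => RF.par e) (B l)))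
    refine ⟨fun p x y hxy => ?_, O5Aux.con_sec hcy _⟩
    have e1 := h2 p x y N fun i l hl => hxy i l (lt_of_lt_of_le hl (hK i))
    change (_ ∧ _) ↔ (_ ∧ _)
    refine and_congr Iff.rfl (forall_congr' fun l => forall_congr' fun hl => ?_)
    dsimp only
    rw [e1 (l + 1) (by omega)]
  induction N with
  | zero =>
    rw [pow_zero, one_mul, ← vol_base0 (ι := ι) P hR]
    congr 1
    ext z
    constructor
    · exact fun h => h.1
    · exact fun h => ⟨h, fun l hl => absurd hl (Nat.not_lt_zero l)⟩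
  | succ N ih =>
    rw [pow_succ', mul_assoc, ← ih]
    refine O5Aux.vol_step P (K := fun j => if j = j0 then N else N + 1) (K' := fun _ => N + 1) j0
      (by simp) (fun j hj => by simp [hj]) (cD (N + 1) _ fun _ => le_rfl)
      (cD N _ fun j => ?_) ?_ ?_ ?_
    · split_ifs <;> omega
    · rintro z ⟨g1, g2⟩
      exact ⟨g1, fun l hl => g2 l (by omega)⟩
    · simp only [if_true]
      rintro ⟨p, x⟩ ⟨g1, g2⟩
      have hd : d p ≠ 0 := h4 p g1
      refine ⟨(eval p (B N) - PowerSeries.coeff (N + 1) (Φ p x)) / d p, g1, fun l hl => ?_⟩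
      dsimp only
      by_cases hlN : l = N
      · subst hlN
        rw [h3 p g1, div_mul_cancel₀ _ hd]
        ring
      · rw [← g2 l (by omega)]
        refine h2 p _ _ N (fun j l' hl' => ?_) (l + 1) (by omega)
        exact O5Aux.coeff_upd_arc _ _ _ _ _ _ fun _ => by omega
    · simp only [if_true]
      rintro ⟨p, x⟩ ⟨g1, g2⟩ t t' ⟨-, g3⟩ ⟨-, g4⟩
      have hd : d p ≠ 0 := h4 p g1
      have g5 := g3 N (by omega)
      have g6 := g4 N (by omega)
      dsimp only at g5 g6
      rw [h3 p g1] at g5 g6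
      have g7 : t * d p = t' * d p := by linear_combination g5 - g6
      exact mul_right_cancel₀ hd g7

/-- points and leading coefficients -/
def RE1 (v₀ : MvPolynomial E' ℂ) (r : E → E') (R : Set (E' → ℂ)) (Q : Set (E ⊕ Bool → ℂ)) :
    Set (E' ⊕ Unit → ℂ) :=
  {u | (fun e => u (Sum.inl e)) ∈ R ∧ Sum.elim (fun e => u (Sum.inl (r e))) (fun b : Bool =>
    if b then eval (fun e => u (Sum.inl e)) v₀ else u (Sum.inr ())) ∈ Q}

theorem con_RE1 (v₀ : MvPolynomial E' ℂ) (r : E → E') {R : Set (E' → ℂ)} (hR : Constructible R)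
    {Q : Set (E ⊕ Bool → ℂ)} (hQ : Constructible Q) : Constructible (RE1 v₀ r R Q) := by
  refine Constructible.and (Constructible.comap Sum.inl hR) ?_
  have h1 := Constructible.preimage (Sum.elim
      (fun e => (X (Sum.inl (r e)) : MvPolynomial (E' ⊕ Unit) ℂ))
      (fun b : Bool => if b then rename Sum.inl v₀ else X (Sum.inr ()))) hQ
  convert h1 using 3 with u
  apply TC5Aux.mem_cgr
  funext s
  rcases s with p | b
  · simp
  · rcases b with _ | _
    · simp
    · simp only [Sum.elim_inr, if_true, eval_rename]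
      rfl

def RT1 (v₀ : MvPolynomial E' ℂ) (r : E → E') (R : Set (E' → ℂ)) (Q : Set (E ⊕ Bool → ℂ)) :
    Set (E' → ℂ) :=
  {u | u ∈ R ∧ Sum.elim (fun e => u (r e)) (fun b : Bool =>
    if b then eval u v₀ else 0) ∈ Q}

theorem con_RT1 (v₀ : MvPolynomial E' ℂ) (r : E → E') {R : Set (E' → ℂ)} (hR : Constructible R)
    {Q : Set (E ⊕ Bool → ℂ)} (hQ : Constructible Q) : Constructible (RT1 v₀ r R Q) := by
  refine Constructible.and hR ?_
  have h1 := Constructible.preimage (Sum.elim
      (fun e => (X (r e) : MvPolynomial E' ℂ)) (fun b : Bool => if b then v₀ else 0)) hQ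
  convert h1 using 3 with u
  apply TC5Aux.mem_cgr
  funext s
  rcases s with p | b
  · simp
  · rcases b with _ | _
    · simp
    · simp

variable {E₀ : Type}

/-- the set of arcs -/
def TS1 (Φ : (E' → ℂ) → (ι → PowerSeries ℂ) → PowerSeries ℂ) (r : E → E') (R : Set (E' → ℂ))
    (w : Bool) (Q : Set (E ⊕ Bool → ℂ)) (i : ℕ) : Set ((E' → ℂ) × (ι → PowerSeries ℂ)) :=
  {z | z.1 ∈ R ∧ cut w i (Φ z.1 z.2) ∧
    Sum.elim (fun e => z.1 (r e)) (dat w i (Φ z.1 z.2)) ∈ Q}

theorem triE (P : HodgeMeasure) [Finite E] [Finite E'] [Fintype ι] [DecidableEq ι] (j0 : ι)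
    (Φ : (E' → ℂ) → (ι → PowerSeries ℂ) → PowerSeries ℂ) (d : (E' → ℂ) → ℂ) {R : Set (E' → ℂ)}
    (hR : Constructible R)
    (h1 : ∀ l, RF fun z : (E' → ℂ) × (ι → PowerSeries ℂ) => PowerSeries.coeff l (Φ z.1 z.2))
    (h2 : ∀ p x y n, (∀ i, ∀ l < n, PowerSeries.coeff l (x i) = PowerSeries.coeff l (y i)) →
      ∀ l ≤ n, PowerSeries.coeff l (Φ p x) = PowerSeries.coeff l (Φ p y))
    (h3 : ∀ p ∈ R, ∀ x N t, PowerSeries.coeff (N + 1)
      (Φ p (Function.update x j0 (x j0 + PowerSeries.C t * PowerSeries.X ^ N))) =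
        PowerSeries.coeff (N + 1) (Φ p x) + t * d p)
    (h4 : ∀ p ∈ R, d p ≠ 0) (v₀ : MvPolynomial E' ℂ)
    (h5 : ∀ p ∈ R, ∀ x, PowerSeries.coeff 0 (Φ p x) = eval p v₀) (r : E → E')
    {Q : Set (E ⊕ Bool → ℂ)} (hQ : Constructible Q) {i : ℕ} (hi : 1 ≤ i) :
    vol P.rat xq (TS1 Φ r R true Q i) = xq ^ i * P.rat.val (RE1 v₀ r R Q) := by
  have := Fintype.ofFinite E'
  have := Fintype.ofFinite E
  have hR' := con_RE1 v₀ r hR hQ
  have key := tri (E := E' ⊕ Unit) P j0 (fun p x => Φ (fun e => p (Sum.inl e)) x)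
    (fun p => d fun e => p (Sum.inl e)) hR' ?_ (fun p x y n h => h2 _ x y n h)
    (fun p hp x N t => h3 _ hp.1 x N t) (fun p hp => h4 _ hp.1)
    (fun l => if l + 1 < i then 0 else X (Sum.inr ())) i
  · rw [← key]
    symm
    have hcy : Cy (TS1 Φ r R true Q i) := by
      refine Cy.and (Cy.param hR) (Cy.and ?_ ?_)
      · have h : {z : (E' → ℂ) × (ι → PowerSeries ℂ) | cut true i (Φ z.1 z.2)} =
            {z | ∀ l < i, 1 ≤ l → PowerSeries.coeff l (Φ z.1 z.2) = 0} := by
          ext z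
          exact ⟨fun h l hl hl' => h l hl' hl, fun h l hl hl' => h l hl' hl⟩
        rw [h]
        exact Cy.all_lt i fun l _ => Cy.imp fun _ => Cy.zero (h1 l)
      · refine Cy.mem hQ (φ := fun s z => Sum.elim (fun e => z.1 (r e))
          (dat true i (Φ z.1 z.2)) s) ?_
        rintro (e | b)
        · exact RF.par (r e)
        · rcases b with _ | _
          · exact h1 i
          · exact h1 0
    refine vol_base P ?_ hcy Sum.inl ?_ ?_ ?_
    · refine Cy.and (Cy.param hR') (Cy.all_lt i fun l _ => Cy.eq ?_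
        (RF.eval (fun e => RF.par e) _))
      have h6 := h1 (l + 1)
      obtain ⟨N0, h6⟩ := h6
      refine ⟨N0, fun N hN => ⟨fun p x y h => (h6 N hN).1 _ x y h, ?_⟩⟩
      obtain ⟨A, hA⟩ := (h6 N hN).2
      refine ⟨rename (Sum.elim (fun e => Sum.inl (Sum.inl e)) Sum.inr) A, fun v => ?_⟩
      rw [eval_rename]
      exact hA (fun s => v (Sum.elim (fun e => Sum.inl (Sum.inl e)) Sum.inr s))
    · rintro ⟨p, x⟩ ⟨⟨g1, g2⟩, g3⟩
      have g4 : PowerSeries.coeff i (Φ (fun e => p (Sum.inl e)) x) = p (Sum.inr ()) := by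
        have := g3 (i - 1) (by omega)
        dsimp only at this
        rw [if_neg (by omega), show i - 1 + 1 = i by omega, eval_X] at this
        exact this
      refine ⟨g1, fun l hl hl' => ?_, ?_⟩
      · have hl'' : l < i := hl'
        have := g3 (l - 1) (by omega)
        dsimp only at this
        rw [if_pos (by omega), show l - 1 + 1 = l by omega, map_zero] at this
        exact this
      · have e1 : (Sum.elim (fun e => p (Sum.inl (r e)))
            (dat true i (Φ (fun e => p (Sum.inl e)) x))) =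
            Sum.elim (fun e => p (Sum.inl (r e))) (fun b : Bool =>
              if b then eval (fun e => p (Sum.inl e)) v₀ else p (Sum.inr ())) := by
          funext s
          rcases s with e | b
          · rfl
          · rcases b with _ | _
            · exact g4
            · exact h5 _ g1 x
        change Sum.elim (fun e => p (Sum.inl (r e)))
            (dat true i (Φ (fun e => p (Sum.inl e)) x)) ∈ Q
        rw [e1]
        exact g2
    · rintro ⟨p, x⟩ ⟨-, g3⟩ ⟨p', x'⟩ ⟨-, g3'⟩ g5 g6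
      have g6' : x = x' := g6
      subst g6'
      have g5' : (fun e => p (Sum.inl e)) = fun e => p' (Sum.inl e) := g5
      have g4 := g3 (i - 1) (by omega)
      have g4' := g3' (i - 1) (by omega)
      dsimp only at g4 g4'
      rw [if_neg (by omega), show i - 1 + 1 = i by omega, eval_X] at g4 g4'
      change p = p'
      funext s
      rcases s with e | ⟨⟩
      · exact congrFun g5' e
      · rw [← g4, ← g4', g5']
    · rintro ⟨p, x⟩ ⟨g1, g2, g3⟩
      refine ⟨Sum.elim p fun _ => PowerSeries.coeff i (Φ p x), rfl, ⟨g1, ?_⟩, fun l hl => ?_⟩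
      · have e1 : (Sum.elim (fun e => p (r e)) (dat true i (Φ p x))) =
            Sum.elim (fun e => p (r e)) (fun b : Bool =>
              if b then eval p v₀ else PowerSeries.coeff i (Φ p x)) := by
          funext s
          rcases s with e | b
          · rfl
          · rcases b with _ | _
            · rfl
            · exact h5 _ g1 x
        have g3' : Sum.elim (fun e => p (r e)) (dat true i (Φ p x)) ∈ Q := g3
        rw [e1] at g3'
        exact g3'
      · dsimp only
        change PowerSeries.coeff (l + 1) (Φ p x) = _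
        split_ifs with hl'
        · rw [map_zero]
          exact g2 (l + 1) (by omega) hl'
        · rw [eval_X, show l + 1 = i by omega]
          rfl
  · intro l
    have h6 := h1 l
    obtain ⟨N0, h6⟩ := h6
    refine ⟨N0, fun N hN => ⟨fun p x y h => (h6 N hN).1 _ x y h, ?_⟩⟩
    obtain ⟨A, hA⟩ := (h6 N hN).2
    refine ⟨rename (Sum.elim (fun e => Sum.inl (Sum.inl e)) Sum.inr) A, fun v => ?_⟩
    rw [eval_rename]
    exact hA (fun s => v (Sum.elim (fun e => Sum.inl (Sum.inl e)) Sum.inr s))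

theorem triT (P : HodgeMeasure) [Finite E] [Finite E'] [Fintype ι] [DecidableEq ι] (j0 : ι)
    (Φ : (E' → ℂ) → (ι → PowerSeries ℂ) → PowerSeries ℂ) (d : (E' → ℂ) → ℂ) {R : Set (E' → ℂ)}
    (hR : Constructible R)
    (h1 : ∀ l, RF fun z : (E' → ℂ) × (ι → PowerSeries ℂ) => PowerSeries.coeff l (Φ z.1 z.2))
    (h2 : ∀ p x y n, (∀ i, ∀ l < n, PowerSeries.coeff l (x i) = PowerSeries.coeff l (y i)) →
      ∀ l ≤ n, PowerSeries.coeff l (Φ p x) = PowerSeries.coeff l (Φ p y))
    (h3 : ∀ p ∈ R, ∀ x N t, PowerSeries.coeff (N + 1)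
      (Φ p (Function.update x j0 (x j0 + PowerSeries.C t * PowerSeries.X ^ N))) =
        PowerSeries.coeff (N + 1) (Φ p x) + t * d p)
    (h4 : ∀ p ∈ R, d p ≠ 0) (v₀ : MvPolynomial E' ℂ)
    (h5 : ∀ p ∈ R, ∀ x, PowerSeries.coeff 0 (Φ p x) = eval p v₀) (r : E → E')
    {Q : Set (E ⊕ Bool → ℂ)} (hQ : Constructible Q) (i : ℕ) :
    vol P.rat xq (TS1 Φ r R false Q i) = xq ^ i * P.rat.val (RT1 v₀ r R Q) := by
  have hR' := con_RT1 v₀ r hR hQ
  rw [← tri P j0 Φ d hR' h1 h2 (fun p hp x N t => h3 _ hp.1 x N t) (fun p hp => h4 _ hp.1)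
    (fun _ => 0) i]
  congr 1
  ext ⟨p, x⟩
  have e1 : p ∈ R → (Sum.elim (fun e => p (r e)) (dat false i (Φ p x))) =
      Sum.elim (fun e => p (r e)) (fun b : Bool => if b then eval p v₀ else 0) := by
    intro hp
    funext s
    rcases s with e | b
    · rfl
    · rcases b with _ | _
      · rfl
      · exact h5 _ hp x
  constructor
  · rintro ⟨g1, g2, g3⟩
    have g3' : Sum.elim (fun e => p (r e)) (dat false i (Φ p x)) ∈ Q := g3
    rw [e1 g1] at g3'
    refine ⟨⟨g1, g3'⟩, fun l hl => ?_⟩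
    rw [map_zero]
    refine g2 (l + 1) (by omega) ?_
    simp only [Bool.false_eq_true, if_false]
    omega
  · rintro ⟨⟨g1, g2⟩, g3⟩
    refine ⟨g1, fun l hl hl' => ?_, ?_⟩
    · simp only [Bool.false_eq_true, if_false] at hl'
      have := g3 (l - 1) (by omega)
      rw [map_zero, show l - 1 + 1 = l by omega] at this
      exact this
    · change Sum.elim (fun e => p (r e)) (dat false i (Φ p x)) ∈ Q
      rw [e1 g1]
      exact g2

end

end B61

end Pool.Agent.Mono.BV
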