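import Pool.Agent.Work.Monodromy7.VL7
import Pool.Agent.Work.Monodromy6.CV
import Pool.Agent.Work.Monodromy6.DEC

/-!
# Block MU7 (helper34): the end of the sums in `mu` is arbitrary
-/

set_option autoImplicit false
set_option linter.unusedSectionVars false

namespace Pool.Agent.Mono.BV

open MvPolynomial TS RO RO.VGAux PC

namespace MU7Aux

/-- the renaming of the variables of a product -/
def renP {E F E' : Type} (T : Type) (e : E ⊕ F ≃ E') : (E ⊕ T) ⊕ F ≃ E' ⊕ T where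
  toFun := Sum.elim (Sum.elim (fun a => Sum.inl (e (Sum.inl a))) Sum.inr)
    fun b => Sum.inl (e (Sum.inr b))
  invFun := Sum.elim (fun a' => (e.symm a').elim (fun a => Sum.inl (Sum.inl a)) Sum.inr)
    fun s => Sum.inl (Sum.inr s)
  left_inv := by
    rintro ((a | s) | b)
    · simp
    · rfl
    · simp
  right_inv := by
    rintro (a' | s)
    · simp only [Sum.elim_inl]
      rcases h : e.symm a' with a | b
      · simp only [Sum.elim_inl]
        rw [← h, Equiv.apply_symm_apply]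
      · simp only [Sum.elim_inr]
        rw [← h, Equiv.apply_symm_apply]
    · rfl

/-- product with a set of parameters -/
theorem vol_pp (P : HodgeMeasure) {E F E' ι : Type} [Finite E] [Finite F] [Finite E'] [Fintype ι]
    (e : E ⊕ F ≃ E') {H : Set (F → ℂ)} (hH : Constructible H)
    {D : Set ((E → ℂ) × (ι → PowerSeries ℂ))} (hD : Cy D) :
    vol P.rat xq {z : (E' → ℂ) × (ι → PowerSeries ℂ) |
      (fun b => z.1 (e (Sum.inr b))) ∈ H ∧ ((fun a => z.1 (e (Sum.inl a))), z.2) ∈ D} =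
      P.rat.val H * vol P.rat xq D := by
  obtain ⟨N, hN⟩ := hD
  have hDN := hN N le_rfl
  have hprod : Constructible {y : (E ⊕ (Σ _ : ι, Fin N)) ⊕ F → ℂ |
      (fun i => y (Sum.inl i)) ∈ sec (fun _ => N) D ∧ (fun b => y (Sum.inr b)) ∈ H} :=
    Constructible.prodSet hDN.2 hH
  have hsec : sec (fun _ => N) {z : (E' → ℂ) × (ι → PowerSeries ℂ) |
      (fun b => z.1 (e (Sum.inr b))) ∈ H ∧ ((fun a => z.1 (e (Sum.inl a))), z.2) ∈ D} =
      {x : E' ⊕ (Σ _ : ι, Fin N) → ℂ | (fun j => x (renP _ e j)) ∈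
        {y : (E ⊕ (Σ _ : ι, Fin N)) ⊕ F → ℂ |
          (fun i => y (Sum.inl i)) ∈ sec (fun _ => N) D ∧ (fun b => y (Sum.inr b)) ∈ H}} := by
    ext x
    change (_ ∧ _) ↔ (_ ∧ _)
    rw [and_comm]
    exact Iff.rfl
  have hcyl : IsCyl (fun _ => N) {z : (E' → ℂ) × (ι → PowerSeries ℂ) |
      (fun b => z.1 (e (Sum.inr b))) ∈ H ∧ ((fun a => z.1 (e (Sum.inl a))), z.2) ∈ D} := by
    constructor
    · intro p x y hxy
      exact and_congr Iff.rfl (hDN.1 _ _ _ hxy)
    · rw [hsec]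
      exact Constructible.comap _ hprod
  have hL := VAAux.L_mul P
  rw [vol_eq P.rat hL hcyl, vol_eq P.rat hL hDN, hsec, P.rat.reindex (renP _ e) hprod,
    P.rat.prod _ _ hDN.2 hH]
  ring

/-- `Lead` does not see coefficients above `m` -/
theorem lead_congr {E : Type} {Q : Set (E ⊕ Unit → ℂ)} {m : ℕ} {p : E → ℂ} {F F' : PowerSeries ℂ}
    (h : ∀ j < m + 1, PowerSeries.coeff j F = PowerSeries.coeff j F') :
    Lead Q m p F ↔ Lead Q m p F' := by
  unfold Lead
  rw [h m (by omega)]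
  refine and_congr (forall_congr' fun j => forall_congr' fun hj => ?_) Iff.rfl
  rw [h j (by omega)]

theorem two_congr (G : P2) {α β β' : PowerSeries ℂ} {n : ℕ}
    (h : ∀ j < n, PowerSeries.coeff j β = PowerSeries.coeff j β') :
    ∀ j < n, PowerSeries.coeff j (aeval ![α, β] G) = PowerSeries.coeff j (aeval ![α, β'] G) := by
  refine GJetAux.aeval_congr G n _ _ fun i l hl => ?_
  fin_cases i
  · rfl
  · exact h l hl

/-- the second arc is small -/
theorem x2_small (P : HodgeMeasure) {E : Type} [Finite E] {t t' : Fam} (ht : t.Good)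
    (ht' : t'.Good) (G : P2) {Q : Set (E ⊕ Unit → ℂ)} (hQ : QU Q) (k l m : ℕ) (hl : m < l) :
    x2 P t t' G Q k l m = famV P t' * y1 P t G Q k m := by
  haveI := t.fin
  haveI := t'.fin
  have hY : Cy (YS t G Q k m) := VL7.cy_YS ht G hQ.1 k m
  set e : (E ⊕ t.σ) ⊕ t'.σ ≃ E ⊕ (t.σ ⊕ t'.σ) := Equiv.sumAssoc E t.σ t'.σ with he
  have h1 := vol_pp P e ht'.1 hY
  have hC : Cy {z : (E ⊕ (t.σ ⊕ t'.σ) → ℂ) × (Unit → PowerSeries ℂ) |
      (fun b => z.1 (e (Sum.inr b))) ∈ t'.S ∧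
        ((fun a => z.1 (e (Sum.inl a))), z.2) ∈ YS t G Q k m} :=
    Cy.and (VL7.cy_S ht'.1 fun b => e (Sum.inr b))
      (Cy.pull hY (φ := fun a z => z.1 (e (Sum.inl a))) (fun a => RF.par _) id)
  obtain ⟨N, hN⟩ := hC
  have h2 := T0Aux.vol_comp P (φ := fun _ : Unit => (0 : Fin 2)) (fun _ _ _ => rfl) (hN N le_rfl)
  have h3 : XS t t' G Q k l m = {z : (E ⊕ (t.σ ⊕ t'.σ) → ℂ) × (Fin 2 → PowerSeries ℂ) |
      (z.1, fun _ : Unit => z.2 0) ∈ {z : (E ⊕ (t.σ ⊕ t'.σ) → ℂ) × (Unit → PowerSeries ℂ) |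
      (fun b => z.1 (e (Sum.inr b))) ∈ t'.S ∧
        ((fun a => z.1 (e (Sum.inl a))), z.2) ∈ YS t G Q k m}} := by
    ext z
    have h4 : ∀ (α : PowerSeries ℂ) (c : ℂ) (w : PowerSeries ℂ) (p : E → ℂ),
        Lead Q m p (aeval ![α, arcE c l w] G) ↔ Lead Q m p (aeval ![α, 0] G) := by
      intro α c w p
      refine lead_congr (two_congr G fun j hj => ?_)
      rw [VL7.coeff_arcE_lt c w (by omega), map_zero]
    constructor
    · rintro ⟨a1, a2, a3⟩
      exact ⟨a2, a1, (h4 _ _ _ _).1 a3⟩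
    · rintro ⟨a2, a1, a3⟩
      exact ⟨a1, a2, (h4 _ _ _ _).2 a3⟩
  unfold x2
  rw [h3, h2, h1]
  rfl

theorem aeval_zero_coeff (G : P2) (h0 : G.coeff (mon 0 0) = 0) {α β : PowerSeries ℂ} {n : ℕ}
    (hα : ∀ j < n, PowerSeries.coeff j α = 0) (hβ : ∀ j < n, PowerSeries.coeff j β = 0) :
    ∀ j < n, PowerSeries.coeff j (aeval ![α, β] G) = 0 := by
  intro j hj
  have h1 := GJetAux.aeval_congr G n ![α, β] (fun _ => 0) (fun i l hl => by
    fin_cases i
    · simpa using hα l hl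
    · simpa using hβ l hl) j hj
  rw [h1]
  have h2 : (aeval (fun _ : Fin 2 => (0 : PowerSeries ℂ)) G) = 0 := by
    have h3 := MvPolynomial.aeval_zero (S₁ := PowerSeries ℂ) (σ := Fin 2) G
    have h4 : constantCoeff G = 0 := by
      have h5 : mon 0 0 = 0 := by simp [mon]
      rw [h5] at h0
      exact h0
    have h6 : (fun _ : Fin 2 => (0 : PowerSeries ℂ)) = 0 := rfl
    rw [h6, h3, h4, map_zero]
  rw [h2, map_zero]

theorem y1_zero (P : HodgeMeasure) {E : Type} [Finite E] (t : Fam) (G : P2)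
    (h0 : G.coeff (mon 0 0) = 0) {Q : Set (E ⊕ Unit → ℂ)} (hQ : QU Q) (k m : ℕ) (hk : m < k) :
    y1 P t G Q k m = 0 := by
  haveI := t.fin
  have h1 : YS t G Q k m = ∅ := by
    ext z
    simp only [Set.mem_empty_iff_false, iff_false]
    rintro ⟨-, -, h⟩
    have h2 := aeval_zero_coeff G h0 (α := arcE (eval (fun s => z.1 (Sum.inr s)) t.u) k (z.2 ()))
      (β := 0) (n := m + 1) (fun j hj => VL7.coeff_arcE_lt _ _ (by omega))
      (fun j _ => map_zero _) m (by omega)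
    exact hQ.2 _ h h2
  unfold y1
  rw [h1]
  exact vol_empty P.rat (VAAux.L_mul P)

theorem swp_coeff (G : P2) (h0 : G.coeff (mon 0 0) = 0) : (swp G).coeff (mon 0 0) = 0 := by
  have h5 : mon 0 0 = 0 := by simp [mon]
  rw [h5] at h0 ⊢
  have h1 : ∀ F : P2, constantCoeff (swp F) = constantCoeff F := by
    intro F
    rw [swp]
    induction F using MvPolynomial.induction_on with
    | C a => simp
    | add p q hp hq => rw [map_add, map_add, map_add, hp, hq]
    | mul_X p i hp =>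
      rw [map_mul, map_mul, map_mul, hp, aeval_X]
      fin_cases i <;> simp
  exact (h1 G).trans h0

section

variable {E : Type} [Finite E] (P : HodgeMeasure) (s s' : Src) (G : P2) (Q : Set (E ⊕ Unit → ℂ))

/-- the total weight at the level `k` -/
noncomputable def fS (k : ℕ) : K := (s.ts.map fun t => t.κ k * famV P t).sum

/-- the sum over the families with the second arc zero -/
noncomputable def yS (m k : ℕ) : K := (s.ts.map fun t => t.κ k * y1 P t G Q k m).sum

/-- the sum over the pairs of families -/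
noncomputable def aS (m k l : ℕ) : K :=
  (s.ts.map fun t => (s'.ts.map fun t' => t.κ k * t'.κ l * x2 P t t' G Q k l m).sum).sum

theorem mu_eq (M m : ℕ) : mu P s s' G Q M m =
    ∑ k ∈ Finset.Icc 1 M, ∑ l ∈ Finset.Icc 1 M, aS P s s' G Q m k l +
      s'.b M * ∑ k ∈ Finset.Icc 1 M, yS P s G Q m k +
      s.b M * ∑ l ∈ Finset.Icc 1 M, yS P s' (swp G) Q m l := by
  unfold mu
  congr 1
  · congr 1
    rw [Finset.mul_sum]
    refine Finset.sum_congr rfl fun k _ => ?_
    rw [yS, ← List.sum_map_mul_left]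
    congr 1
    refine List.map_congr_left fun t _ => ?_
    ring
  · rw [Finset.mul_sum]
    refine Finset.sum_congr rfl fun k _ => ?_
    rw [yS, ← List.sum_map_mul_left]
    congr 1
    refine List.map_congr_left fun t _ => ?_
    ring

variable {P s s' G Q}

theorem aS_right (hs : ∀ t ∈ s.ts, t.Good) (hs' : ∀ t ∈ s'.ts, t.Good) (hQ : QU Q) {m k l : ℕ}
    (hl : m < l) : aS P s s' G Q m k l = yS P s G Q m k * fS P s' l := by
  rw [yS, fS, ← List.sum_map_mul_right, aS]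
  congr 1
  refine List.map_congr_left fun t ht => ?_
  rw [← List.sum_map_mul_left]
  congr 1
  refine List.map_congr_left fun t' ht' => ?_
  rw [x2_small P (hs t ht) (hs' t' ht') G hQ k l m hl]
  ring

theorem aS_left (hSW : Stmt_SW7) (hs : ∀ t ∈ s.ts, t.Good) (hs' : ∀ t ∈ s'.ts, t.Good)
    (hQ : QU Q) {m k l : ℕ} (hk : m < k) :
    aS P s s' G Q m k l = fS P s k * yS P s' (swp G) Q m l := by
  rw [yS, fS, ← List.sum_map_mul_right, aS]
  congr 1
  refine List.map_congr_left fun t ht => ?_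
  rw [← List.sum_map_mul_left]
  congr 1
  refine List.map_congr_left fun t' ht' => ?_
  rw [hSW P t t' G (hs t ht) (hs' t' ht') E Q hQ k l m,
    x2_small P (hs' t' ht') (hs t ht) (swp G) hQ l k m hk]
  ring

theorem yS_zero (h0 : G.coeff (mon 0 0) = 0) (hQ : QU Q) {m k : ℕ} (hk : m < k) :
    yS P s G Q m k = 0 := by
  rw [yS]
  refine List.sum_eq_zero fun x hx => ?_
  obtain ⟨t, -, rfl⟩ := List.mem_map.1 hx
  rw [y1_zero P t G h0 hQ k m hk, mul_zero]

theorem mass_step {k₀ : Kd} (h : s.Ok P k₀) (M : ℕ) : s.b (M + 1) + fS P s (M + 1) = s.b M := by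
  have h1 := h.2.2 (M + 1)
  have h2 := h.2.2 M
  rw [Finset.sum_Icc_succ_top (by omega)] at h1
  have e : fS P s (M + 1) = (s.ts.map fun t => t.κ (M + 1) * famV P t).sum := rfl
  rw [e]
  linear_combination h1 - h2

theorem mu_step (hSW : Stmt_SW7) {k₀ k₁ : Kd} (h : s.Ok P k₀) (h' : s'.Ok P k₁)
    (h0 : G.coeff (mon 0 0) = 0) (hQ : QU Q) {M m : ℕ} (hm : m ≤ M) :
    mu P s s' G Q (M + 1) m = mu P s s' G Q M m := by
  have hs : ∀ t ∈ s.ts, t.Good := fun t ht => (h.1 t ht).1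
  have hs' : ∀ t ∈ s'.ts, t.Good := fun t ht => (h'.1 t ht).1
  rw [mu_eq, mu_eq]
  have i1 : ∀ g : ℕ → K, ∑ k ∈ Finset.Icc 1 (M + 1), g k =
      ∑ k ∈ Finset.Icc 1 M, g k + g (M + 1) := fun g => Finset.sum_Icc_succ_top (by omega) g
  simp only [i1]
  rw [Finset.sum_add_distrib]
  have e1 : ∑ k ∈ Finset.Icc 1 M, aS P s s' G Q m k (M + 1) =
      (∑ k ∈ Finset.Icc 1 M, yS P s G Q m k) * fS P s' (M + 1) := by
    rw [Finset.sum_mul]
    exact Finset.sum_congr rfl fun k _ => aS_right hs hs' hQ (by omega)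
  have e2 : ∑ l ∈ Finset.Icc 1 M, aS P s s' G Q m (M + 1) l =
      fS P s (M + 1) * ∑ l ∈ Finset.Icc 1 M, yS P s' (swp G) Q m l := by
    rw [Finset.mul_sum]
    exact Finset.sum_congr rfl fun l _ => aS_left hSW hs hs' hQ (by omega)
  have e3 : aS P s s' G Q m (M + 1) (M + 1) = 0 := by
    rw [aS_right hs hs' hQ (by omega), yS_zero h0 hQ (by omega), zero_mul]
  rw [e1, e2, e3, yS_zero h0 hQ (by omega), yS_zero (swp_coeff G h0) hQ (by omega)]
  have m1 := mass_step h M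
  have m2 := mass_step h' M
  rw [← m1, ← m2]
  ring

end

end MU7Aux

open MU7Aux in
theorem stmt_MU7 (hSW : Stmt_SW7) : Stmt_MU7 := by
  intro P s s' k₀ k₁ h h' G h0 E _ Q hQ M m hm hmM
  induction M, hmM using Nat.le_induction with
  | base => rfl
  | succ M hM ih => exact (mu_step hSW h h' h0 hQ hM).trans ih

end Pool.Agent.Mono.BV
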