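import Pool.Agent.Work.Monodromy7.PK7
import Pool.Agent.Work.Monodromy7.MU7
import Pool.Agent.Work.Monodromy6.DEC

/-!
# Phase 7: decomposition of the pairs of arcs at the origin (for LM7, L07)
-/

set_option autoImplicit false

namespace Pool.Agent.Mono.BV

open MvPolynomial TS RO PC

namespace DEC7

open RO.TG5Aux SRX MU7Aux

/-! ## Vanishing -/

section

variable {E : Type} [Finite E]

theorem e2_zero (P : HodgeMeasure) (t : Fam) (G : P2) {Q : Set ((E ⊕ Unit) ⊕ Unit → ℂ)}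
    (hQ : QU Q) {k l m : ℕ} (h : ∀ d ∈ G.support, m < k * d 0 + l * d 1) :
    e2 P t G Q k l m = 0 := by
  haveI := t.fin
  have h1 : ES t G Q k l m = ∅ := by
    ext z
    simp only [Set.mem_empty_iff_false, iff_false]
    rintro ⟨-, -, h2⟩
    refine hQ.2 _ h2.2 ?_
    refine DEC.ord_ge G _ k l (m + 1) (fun j hj => ?_) (fun j hj => ?_) h m (Nat.lt_succ_self m)
    · change PowerSeries.coeff j (PowerSeries.C _ * PowerSeries.X ^ k) = 0
      rw [PowerSeries.coeff_C_mul, PowerSeries.coeff_X_pow, if_neg (by omega), mul_zero]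
    · exact VL7.coeff_arcE_lt _ _ hj
  unfold e2
  rw [h1]
  exact vol_empty P.rat (VAAux.L_mul P)

theorem con_empty {ι : Type} : Constructible (∅ : Set (ι → ℂ)) := by
  have h : (∅ : Set (ι → ℂ)) = {x | (fun _ : ι → ℂ => (1 : ℂ)) x = 0} := by
    ext x
    simp
  rw [h]
  exact con_zero (IP.const 1)

theorem e0_zero (P : HodgeMeasure) (G : P2) {Q : Set ((E ⊕ Unit) ⊕ Unit → ℂ)}
    (hQ : QU Q) {k m : ℕ} (h : ∀ d ∈ G.support, d 1 = 0 → m < k * d 0) :
    e0 P G Q k m = 0 := by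
  have h1 : {z : E ⊕ Unit → ℂ | z (Sum.inr ()) ≠ 0 ∧
      Lead Q m z (ev G k (z (Sum.inr ())) 0)} = ∅ := by
    ext z
    simp only [Set.mem_empty_iff_false, iff_false]
    rintro ⟨-, h2⟩
    refine hQ.2 _ h2.2 ?_
    refine DEC.ord_ge G _ k (m + 1) (m + 1) (fun j hj => ?_) (fun j hj => ?_) ?_ m
      (Nat.lt_succ_self m)
    · change PowerSeries.coeff j (PowerSeries.C _ * PowerSeries.X ^ k) = 0
      rw [PowerSeries.coeff_C_mul, PowerSeries.coeff_X_pow, if_neg (by omega), mul_zero]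
    · exact map_zero _
    · intro d hd
      rcases Nat.eq_zero_or_pos (d 1) with h3 | h3
      · have := h d hd h3
        omega
      · calc m + 1 = (m + 1) * 1 := (mul_one _).symm
          _ ≤ (m + 1) * d 1 := Nat.mul_le_mul_left _ h3
          _ ≤ k * d 0 + (m + 1) * d 1 := Nat.le_add_left _ _
  unfold e0
  rw [h1]
  have h2 := P.rat.union (∅ : Set (E ⊕ Unit → ℂ)) ∅ con_empty con_empty (disjoint_bot_left)
  rw [Set.union_self] at h2
  exact left_eq_add.1 h2

theorem vS_zero (P : HodgeMeasure) (s : Src) (G : P2) {Q : Set ((E ⊕ Unit) ⊕ Unit → ℂ)}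
    (hQ : QU Q) {k L m : ℕ} (h : ∀ d ∈ G.support, m < k * d 0 + L * d 1) :
    vS P s G Q k L m = 0 := by
  unfold vS
  rw [e0_zero P G hQ fun d hd h1 => by
    have := h d hd
    rwa [h1, mul_zero, add_zero] at this, mul_zero, add_zero]
  apply Finset.sum_eq_zero
  intro l hl
  rw [Finset.mem_Ico] at hl
  apply List.sum_eq_zero
  intro x hx
  obtain ⟨t, -, rfl⟩ := List.mem_map.1 hx
  rw [e2_zero P t G hQ fun d hd => (h d hd).trans_le
    (Nat.add_le_add_left (Nat.mul_le_mul_right _ hl.1) _), mul_zero]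

end

/-! ## Rows -/

section

variable {E : Type} [Finite E] {P : HodgeMeasure} {s s' : Src} {k₀ k₁ : Kd}
  {Q : Set (E ⊕ Unit → ℂ)}

theorem QU_tie {t : Fam} (ht : t.Good) (hQ : QU Q) : QU (tie t Q) := by
  refine ⟨(con_pre (fun j => IP.coord (Sum.inl (Sum.inl (Sum.inr j)))) ht.1).and
    (Constructible.and ?_ ?_), fun z hz => hQ.2 _ hz.2.2⟩
  · obtain ⟨f, hf⟩ := IP.ev t.u (τ := fun s (z : ((E ⊕ t.σ) ⊕ Unit) ⊕ Unit → ℂ) =>
      z (Sum.inl (Sum.inl (Sum.inr s)))) fun a => IP.coord _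
    have h1 : {z : ((E ⊕ t.σ) ⊕ Unit) ⊕ Unit → ℂ |
        eval (fun s => z (Sum.inl (Sum.inl (Sum.inr s)))) t.u = z (Sum.inl (Sum.inr ()))} =
        {z | eval z (f - X (Sum.inl (Sum.inr ()))) = 0} := by
      ext z
      have := hf z
      simp only [Set.mem_setOf_eq, map_sub, eval_X, sub_eq_zero]
      rw [← this]
    rw [h1]
    exact Constructible.zero _
  · refine con_pre (F := fun (z : ((E ⊕ t.σ) ⊕ Unit) ⊕ Unit → ℂ) =>
      (Sum.elim (fun e => z (Sum.inl (Sum.inl (Sum.inl e)))) fun _ => z (Sum.inr ()) :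
        E ⊕ Unit → ℂ)) (fun j => ?_) hQ.1
    rcases j with e | _
    · exact IP.coord _
    · exact IP.coord _

theorem supp_ne {F : P2} (h0 : F.coeff (mon 0 0) = 0) {d : Fin 2 →₀ ℕ} (hd : d ∈ F.support) :
    1 ≤ d 0 ∨ 1 ≤ d 1 := by
  by_contra h
  have h1 : d 0 = 0 ∧ d 1 = 0 := by omega
  have h2 : d = mon 0 0 := by
    ext i
    fin_cases i
    · change d 0 = mon 0 0 0
      rw [CLV.mon_apply0, h1.1]
    · change d 1 = mon 0 0 1
      rw [CLV.mon_apply1, h1.2]
  rw [mem_support_iff, h2] at hd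
  exact hd h0

/-- one family and a source -/
noncomputable def vt (P : HodgeMeasure) (t : Fam) (s' : Src) (F : P2) (Q : Set (E ⊕ Unit → ℂ))
    (k L m : ℕ) : K :=
  haveI := t.fin
  vS P s' F (tie t Q) k L m

/-- a row of pairs of arcs -/
noncomputable def vT (P : HodgeMeasure) (s s' : Src) (F : P2) (Q : Set (E ⊕ Unit → ℂ))
    (k L m : ℕ) : K :=
  (s.ts.map fun t => t.κ k * vt P t s' F Q k L m).sum

theorem row (hST : Stmt_ST7) (hRP : Stmt_RP7) (h : s.Ok P k₀) (h' : s'.Ok P k₁) {F : P2}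
    (h0 : F.coeff (mon 0 0) = 0) (hQ : QU Q) {M m k L : ℕ} (hk : 1 ≤ k) (hL : 1 ≤ L) (hm : m ≤ M)
    (hbig : M + 1 < L → m < k) :
    vT P s s' F Q k L m =
      ∑ l ∈ Finset.Ico L (M + 1), aS P s s' F Q m k l + s'.b M * yS P s F Q m k := by
  unfold vT vt
  rcases Nat.lt_or_ge (M + 1) L with hLM | hLM
  · have hmk := hbig hLM
    rw [Finset.Ico_eq_empty_of_le hLM.le, Finset.sum_empty, yS_zero h0 hQ hmk, mul_zero, add_zero]
    apply List.sum_eq_zero
    intro x hx
    obtain ⟨t, ht, rfl⟩ := List.mem_map.1 hx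
    haveI := t.fin
    rw [vS_zero P s' F (QU_tie (h.1 t ht).1 hQ), mul_zero]
    intro d hd
    rcases supp_ne h0 hd with h1 | h1
    · calc m < k := hmk
        _ = k * 1 := (mul_one _).symm
        _ ≤ k * d 0 := Nat.mul_le_mul_left _ h1
        _ ≤ k * d 0 + L * d 1 := Nat.le_add_right _ _
    · calc m < L := by omega
        _ = L * 1 := (mul_one _).symm
        _ ≤ L * d 1 := Nat.mul_le_mul_left _ h1
        _ ≤ k * d 0 + L * d 1 := Nat.le_add_left _ _
  · have h1 : ∀ t ∈ s.ts, (haveI := t.fin; t.κ k * vS P s' F (tie t Q) k L m) =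
        ∑ l ∈ Finset.Ico L (M + 1), (s'.ts.map fun t' => t.κ k * t'.κ l *
          x2 P t t' F Q k l m).sum + s'.b M * (t.κ k * y1 P t F Q k m) := by
      intro t ht
      haveI := t.fin
      rw [← hST P s' k₁ h' F (E ⊕ t.σ) (tie t Q) (QU_tie (h.1 t ht).1 hQ) k L M m hk hL hm hLM,
        mul_add, Finset.mul_sum]
      congr 1
      · refine Finset.sum_congr rfl fun l _ => ?_
        rw [← List.sum_map_mul_left]
        congr 1
        refine List.map_congr_left fun t' ht' => ?_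
        rw [(hRP P t t' F (h.1 t ht).1 (h'.1 t' ht').1 E Q hQ k l m hk).1]
        ring
      · rw [(hRP P t t F (h.1 t ht).1 (h.1 t ht).1 E Q hQ k 0 m hk).2]
        ring
    rw [List.map_congr_left h1, List.sum_map_add, yS, List.sum_map_mul_left]
    congr 1
    unfold aS
    induction s.ts with
    | nil => simp
    | cons t ts ih =>
      simp only [List.map_cons, List.sum_cons]
      rw [Finset.sum_add_distrib, ih]

/-! ## The two halves -/

theorem aS_swp (hSW : Stmt_SW7) (h : s.Ok P k₀) (h' : s'.Ok P k₁) (F : P2) (hQ : QU Q)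
    (m k l : ℕ) : aS P s' s (swp F) Q m l k = aS P s s' F Q m k l := by
  unfold aS
  have h1 : ∀ (L L' : List Fam) (f : Fam → Fam → K),
      (L'.map fun t' => (L.map fun t => f t t').sum).sum =
        (L.map fun t => (L'.map fun t' => f t t').sum).sum := by
    intro L L' f
    induction L with
    | nil => simp
    | cons a L ih =>
      simp only [List.map_cons, List.sum_cons]
      rw [← ih, List.sum_map_add]
  rw [h1 s.ts s'.ts fun t t' => t'.κ l * t.κ k * x2 P t' t (swp F) Q l k m]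
  congr 1
  refine List.map_congr_left fun t ht => ?_
  congr 1
  refine List.map_congr_left fun t' ht' => ?_
  rw [hSW P t t' F (h.1 t ht).1 (h'.1 t' ht').1 E Q hQ k l m]
  ring

theorem sum_cut (f : ℕ → K) {L M : ℕ} (hL : 1 ≤ L) :
    ∑ l ∈ Finset.Ico L (M + 1), f l = ∑ l ∈ Finset.Icc 1 M, if L ≤ l then f l else 0 := by
  rw [← Finset.sum_filter]
  refine Finset.sum_congr ?_ fun _ _ => rfl
  ext l
  rw [Finset.mem_Ico, Finset.mem_filter, Finset.mem_Icc]
  omega

theorem LA_pos {p q k : ℕ} (hp : 1 ≤ p) (hq : 1 ≤ q) (hc : p.Coprime q) (hk : 1 ≤ k) :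
    1 ≤ LA p q k := by
  have : 0 < LA p q k := by
    rw [DEC.lt_LA hp hc, mul_zero]
    exact Nat.mul_pos hq hk
  exact this

theorem half_iff {p q k l : ℕ} (hp : 1 ≤ p) (hq : 1 ≤ q) (hc : p.Coprime q) :
    p * l / q + 1 ≤ k ↔ ¬ LA p q k ≤ l := by
  rw [not_le, DEC.lt_LA hp hc, Nat.succ_le_iff, Nat.div_lt_iff_lt_mul hq, mul_comm k q]

/-- `mu` is the sum over the half `{p l ≥ q k}` (rows `k`) and over the half `{p l < q k}`
(rows `l`) -/
theorem mu_dec (hST : Stmt_ST7) (hRP : Stmt_RP7) (hSW : Stmt_SW7) (h : s.Ok P k₀)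
    (h' : s'.Ok P k₁) {F : P2} (h0 : F.coeff (mon 0 0) = 0) (hQ : QU Q) {p q M m : ℕ}
    (hp : 1 ≤ p) (hq : 1 ≤ q) (hc : p.Coprime q) (hM : (p + q) * m ≤ M) :
    mu P s s' F Q M m = ∑ k ∈ Finset.Icc 1 M, vT P s s' F Q k (LA p q k) m +
      ∑ l ∈ Finset.Icc 1 M, vT P s' s (swp F) Q l (p * l / q + 1) m := by
  have hmM : m ≤ M := by
    calc m = 1 * m := (one_mul m).symm
      _ ≤ (p + q) * m := Nat.mul_le_mul_right _ (by omega)
      _ ≤ M := hM
  have hpm : p * m ≤ M := (Nat.mul_le_mul_right _ (Nat.le_add_right p q)).trans hM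
  have hqm : q * m ≤ M := (Nat.mul_le_mul_right _ (Nat.le_add_left q p)).trans hM
  have e1 : ∀ k ∈ Finset.Icc 1 M, vT P s s' F Q k (LA p q k) m =
      (∑ l ∈ Finset.Icc 1 M, if LA p q k ≤ l then aS P s s' F Q m k l else 0) +
        s'.b M * yS P s F Q m k := by
    intro k hk
    rw [Finset.mem_Icc] at hk
    rw [row hST hRP h h' h0 hQ (M := M) hk.1 (LA_pos hp hq hc hk.1) hmM,
      sum_cut _ (LA_pos hp hq hc hk.1)]
    intro h1
    rw [DEC.lt_LA hp hc] at h1
    by_contra h2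
    have h3 : q * k ≤ q * m := Nat.mul_le_mul_left _ (by omega)
    have h4 : M + 1 ≤ p * (M + 1) := Nat.le_mul_of_pos_left _ hp
    omega
  have e2 : ∀ l ∈ Finset.Icc 1 M, vT P s' s (swp F) Q l (p * l / q + 1) m =
      (∑ k ∈ Finset.Icc 1 M, if LA p q k ≤ l then 0 else aS P s s' F Q m k l) +
        s.b M * yS P s' (swp F) Q m l := by
    intro l hl
    rw [Finset.mem_Icc] at hl
    rw [row hST hRP h' h (swp_coeff F h0) hQ (M := M) hl.1 (Nat.le_add_left 1 _) hmM,
      sum_cut _ (Nat.le_add_left 1 _)]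
    · congr 1
      refine Finset.sum_congr rfl fun k _ => ?_
      rw [aS_swp hSW h h' F hQ]
      by_cases h1 : LA p q k ≤ l
      · rw [if_pos h1, if_neg (fun h2 => (half_iff hp hq hc).1 h2 h1)]
      · rw [if_neg h1, if_pos ((half_iff hp hq hc).2 h1)]
    · intro h1
      by_contra h2
      have h3 : p * l ≤ p * m := Nat.mul_le_mul_left _ (by omega)
      have h4 : p * l / q ≤ p * l := Nat.div_le_self _ _
      omega
  rw [Finset.sum_congr rfl e1, Finset.sum_congr rfl e2, Finset.sum_add_distrib,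
    Finset.sum_add_distrib, mu_eq, ← Finset.mul_sum, ← Finset.mul_sum]
  have e3 : ∑ l ∈ Finset.Icc 1 M, ∑ k ∈ Finset.Icc 1 M,
      (if LA p q k ≤ l then 0 else aS P s s' F Q m k l) =
      ∑ k ∈ Finset.Icc 1 M, ∑ l ∈ Finset.Icc 1 M,
        (if LA p q k ≤ l then 0 else aS P s s' F Q m k l) := Finset.sum_comm
  have e4 : ∑ k ∈ Finset.Icc 1 M, ∑ l ∈ Finset.Icc 1 M, aS P s s' F Q m k l =
      ∑ k ∈ Finset.Icc 1 M, ∑ l ∈ Finset.Icc 1 M,
        (if LA p q k ≤ l then aS P s s' F Q m k l else 0) +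
      ∑ k ∈ Finset.Icc 1 M, ∑ l ∈ Finset.Icc 1 M,
        (if LA p q k ≤ l then 0 else aS P s s' F Q m k l) := by
    rw [← Finset.sum_add_distrib]
    refine Finset.sum_congr rfl fun k _ => ?_
    rw [← Finset.sum_add_distrib]
    refine Finset.sum_congr rfl fun l _ => ?_
    split_ifs <;> simp
  rw [e3, e4]
  ring

theorem vT_zero (h : s.Ok P k₀) {F : P2} (hQ : QU Q) {k L m : ℕ}
    (h1 : ∀ d ∈ F.support, m < k * d 0 + L * d 1) : vT P s s' F Q k L m = 0 := by
  unfold vT vt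
  apply List.sum_eq_zero
  intro x hx
  obtain ⟨t, ht, rfl⟩ := List.mem_map.1 hx
  haveI := t.fin
  rw [vS_zero P s' F (QU_tie (h.1 t ht).1 hQ) h1, mul_zero]

/-- rows with large `k` -/
theorem low_big {p q N k L m : ℕ} {F : P2} (hp : 1 ≤ p) (hN : 1 ≤ N) (hF : Low p q N F)
    (hL : q * k ≤ p * L) (hk : p * m < k) : ∀ d ∈ F.support, m < k * d 0 + L * d 1 := by
  intro d hd
  have h1 := hF d hd
  have h2 : p * m < p * (k * d 0 + L * d 1) := by
    calc p * m < k := hk
      _ = 1 * k := (one_mul k).symm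
      _ ≤ (p * d 0 + q * d 1) * k := Nat.mul_le_mul_right _ (hN.trans h1)
      _ = p * k * d 0 + q * k * d 1 := by ring
      _ ≤ p * k * d 0 + p * L * d 1 := Nat.add_le_add_left (Nat.mul_le_mul_right _ hL) _
      _ = p * (k * d 0 + L * d 1) := by ring
  exact lt_of_mul_lt_mul_left h2 (Nat.zero_le _)

end

end DEC7

end Pool.Agent.Mono.BV
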