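import Pool.Agent.Work.Monodromy7.B61

/-!
# Block FS7 (helper60): a source and a Haar part, smooth points
-/

set_option autoImplicit false
set_option linter.unusedSectionVars false

namespace Pool.Agent.Mono.BV

open MvPolynomial TS RO PC

namespace FS7Aux

open VGAux B60 B61

theorem eval_v0 {E' : Type} (G : P2) (c : ℂ) (vz : MvPolynomial E' ℂ) (p : E' → ℂ) :
    eval p (aeval ![C c, vz] G : MvPolynomial E' ℂ) = eval ![c, eval p vz] G := by
  induction G using MvPolynomial.induction_on with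
  | C a => simp
  | add p q hp hq => simp only [map_add, hp, hq]
  | mul_X q j hq =>
    rw [map_mul, aeval_X, map_mul, hq, map_mul, eval_X]
    congr 1
    fin_cases j <;> simp

section gen

variable {E E' ι : Type} [Finite E] [Finite E'] [Fintype ι] [DecidableEq ι]

theorem RF_arcX {j0 : ι} (vz : MvPolynomial E' ℂ) (l : ℕ) :
    RF fun z : (E' → ℂ) × (ι → PowerSeries ℂ) => PowerSeries.coeff l
      (PowerSeries.C (eval z.1 vz) + PowerSeries.X * z.2 j0) := by
  simp only [map_add, PowerSeries.coeff_C]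
  refine (RF.ite _ (RF.eval (fun e => RF.par e) vz) (RF.const 0)).add ?_
  rcases l with _ | l
  · simp only [PowerSeries.coeff_zero_X_mul]
    exact RF.const 0
  · simp only [PowerSeries.coeff_succ_X_mul]
    exact RF.arc j0 l

/-- the family of power series -/
noncomputable def Ph (G : P2) (j0 : ι) (A : (E' → ℂ) → (ι → PowerSeries ℂ) → PowerSeries ℂ)
    (vz : MvPolynomial E' ℂ) (p : E' → ℂ) (x : ι → PowerSeries ℂ) : PowerSeries ℂ :=
  aeval ![A p x, PowerSeries.C (eval p vz) + PowerSeries.X * x j0] G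

variable (P : HodgeMeasure) (j0 : ι) (G : P2) (c : ℂ)
  (A : (E' → ℂ) → (ι → PowerSeries ℂ) → PowerSeries ℂ) (vz : MvPolynomial E' ℂ)

theorem Ph_RF (hA1 : ∀ l, RF fun z : (E' → ℂ) × (ι → PowerSeries ℂ) =>
    PowerSeries.coeff l (A z.1 z.2)) (l : ℕ) :
    RF fun z : (E' → ℂ) × (ι → PowerSeries ℂ) => PowerSeries.coeff l (Ph G j0 A vz z.1 z.2) := by
  have h := PL.RF.aeval (E := E') (ι := ι)
    (u := fun (j : Fin 2) z => (![A z.1 z.2, PowerSeries.C (eval z.1 vz) +
      PowerSeries.X * z.2 j0] : Fin 2 → PowerSeries ℂ) j) ?_ G l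
  · exact h
  · intro j l
    fin_cases j
    · exact hA1 l
    · exact RF_arcX vz l

theorem Ph_congr (hA2 : ∀ p x y n,
      (∀ i, ∀ l < n, PowerSeries.coeff l (x i) = PowerSeries.coeff l (y i)) →
      ∀ l ≤ n, PowerSeries.coeff l (A p x) = PowerSeries.coeff l (A p y)) (p : E' → ℂ)
    (x y : ι → PowerSeries ℂ) (n : ℕ)
    (h : ∀ i, ∀ l < n, PowerSeries.coeff l (x i) = PowerSeries.coeff l (y i)) :
    ∀ l ≤ n, PowerSeries.coeff l (Ph G j0 A vz p x) = PowerSeries.coeff l (Ph G j0 A vz p y) := by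
  intro l hl
  refine GJetAux.aeval_congr G (n + 1) _ _ (fun j l hl => ?_) l (by omega)
  fin_cases j
  · exact hA2 p x y n h l (by omega)
  · change PowerSeries.coeff l (PowerSeries.C (eval p vz) + PowerSeries.X * x j0) =
      PowerSeries.coeff l (PowerSeries.C (eval p vz) + PowerSeries.X * y j0)
    rw [map_add, map_add]
    congr 1
    rcases l with _ | l
    · rw [PowerSeries.coeff_zero_X_mul, PowerSeries.coeff_zero_X_mul]
    · rw [PowerSeries.coeff_succ_X_mul, PowerSeries.coeff_succ_X_mul]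
      exact h j0 l (by omega)

theorem Ph_zero (hA0 : ∀ p x, PowerSeries.coeff 0 (A p x) = c) (p : E' → ℂ)
    (x : ι → PowerSeries ℂ) :
    PowerSeries.coeff 0 (Ph G j0 A vz p x) = eval ![c, eval p vz] G := by
  unfold Ph
  rw [coeff0]
  congr 1
  congr 1
  funext j
  fin_cases j
  · exact hA0 p x
  · change PowerSeries.coeff 0 (PowerSeries.C (eval p vz) + PowerSeries.X * x j0) = eval p vz
    rw [map_add, PowerSeries.coeff_zero_X_mul, add_zero, PowerSeries.coeff_C, if_pos rfl]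

theorem Ph_upd (hA3 : ∀ p x s, A p (Function.update x j0 s) = A p x)
    (hA0 : ∀ p x, PowerSeries.coeff 0 (A p x) = c) (p : E' → ℂ)
    (x : ι → PowerSeries ℂ) (N : ℕ) (t : ℂ) :
    PowerSeries.coeff (N + 1) (Ph G j0 A vz p
      (Function.update x j0 (x j0 + PowerSeries.C t * PowerSeries.X ^ N))) =
      PowerSeries.coeff (N + 1) (Ph G j0 A vz p x) +
        t * eval ![c, eval p vz] (pderiv 1 G) := by
  have e1 : (![A p (Function.update x j0 (x j0 + PowerSeries.C t * PowerSeries.X ^ N)),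
      PowerSeries.C (eval p vz) + PowerSeries.X * (Function.update x j0
        (x j0 + PowerSeries.C t * PowerSeries.X ^ N)) j0] : Fin 2 → PowerSeries ℂ) =
      Function.update ![A p x, PowerSeries.C (eval p vz) + PowerSeries.X * x j0] 1
        ((![A p x, PowerSeries.C (eval p vz) + PowerSeries.X * x j0] :
          Fin 2 → PowerSeries ℂ) 1 + PowerSeries.C t * PowerSeries.X ^ (N + 1)) := by
    funext j
    fin_cases j
    · change A p (Function.update x j0 (x j0 + PowerSeries.C t * PowerSeries.X ^ N)) = A p x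
      exact hA3 _ _ _
    · change PowerSeries.C (eval p vz) + PowerSeries.X * (Function.update x j0
        (x j0 + PowerSeries.C t * PowerSeries.X ^ N)) j0 =
        PowerSeries.C (eval p vz) + PowerSeries.X * x j0 +
          PowerSeries.C t * PowerSeries.X ^ (N + 1)
      rw [Function.update_self]
      ring
  unfold Ph
  rw [e1, O5Aux.coeff_upd G _ 1 (by omega) t]
  congr 2
  congr 1
  congr 1
  funext j
  fin_cases j
  · exact hA0 p x
  · change PowerSeries.coeff 0 (PowerSeries.C (eval p vz) + PowerSeries.X * x j0) = eval p vz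
    rw [map_add, PowerSeries.coeff_zero_X_mul, add_zero, PowerSeries.coeff_C, if_pos rfl]

variable {R : Set (E' → ℂ)} (hR : Constructible R)
  (hA1 : ∀ l, RF fun z : (E' → ℂ) × (ι → PowerSeries ℂ) => PowerSeries.coeff l (A z.1 z.2))
  (hA2 : ∀ p x y n, (∀ i, ∀ l < n, PowerSeries.coeff l (x i) = PowerSeries.coeff l (y i)) →
      ∀ l ≤ n, PowerSeries.coeff l (A p x) = PowerSeries.coeff l (A p y))
  (hA3 : ∀ p x s, A p (Function.update x j0 s) = A p x)
  (hA0 : ∀ p x, PowerSeries.coeff 0 (A p x) = c)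
  (hd : ∀ p ∈ R, eval ![c, eval p vz] (pderiv 1 G) ≠ 0) (r : E → E')
  {Q : Set (E ⊕ Bool → ℂ)} (hQ : Constructible Q)

include hR hA1 hA2 hA3 hA0 hd hQ

theorem genE {i : ℕ} (hi : 1 ≤ i) : vol P.rat xq (TS1 (Ph G j0 A vz) r R true Q i) =
    xq ^ i * P.rat.val (RE1 (aeval ![C c, vz] G) r R Q) :=
  triE P j0 (Ph G j0 A vz) (fun p => eval ![c, eval p vz] (pderiv 1 G)) hR
    (Ph_RF j0 G A vz hA1) (Ph_congr j0 G A vz hA2)
    (fun p _ x N t => Ph_upd j0 G c A vz hA3 hA0 p x N t) hd _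
    (fun p _ x => by
      rw [eval_v0]
      exact Ph_zero j0 G c A vz hA0 p x) r hQ hi

theorem genT (i : ℕ) : vol P.rat xq (TS1 (Ph G j0 A vz) r R false Q i) =
    xq ^ i * P.rat.val (RT1 (aeval ![C c, vz] G) r R Q) :=
  triT P j0 (Ph G j0 A vz) (fun p => eval ![c, eval p vz] (pderiv 1 G)) hR
    (Ph_RF j0 G A vz hA1) (Ph_congr j0 G A vz hA2)
    (fun p _ x N t => Ph_upd j0 G c A vz hA3 hA0 p x N t) hd _
    (fun p _ x => by
      rw [eval_v0]
      exact Ph_zero j0 G c A vz hA0 p x) r hQ i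

end gen

/-- the Haar part -/
noncomputable def hp (c : ℂ) (h : HT) (G : P2) (a : K) : HT where
  σ := h.σ
  fin := h.fin
  H := h.H
  v := aeval ![C c, h.v] G
  lam := a

section main

variable {E : Type} [Finite E] (P : HodgeMeasure)

/-- the parameters for `vFH` -/
def RFH (E : Type) (t : Fam) (h : HT) : Set (E ⊕ (t.σ ⊕ h.σ) → ℂ) :=
  {p | (fun s => p (Sum.inr (Sum.inl s))) ∈ t.S ∧ (fun s => p (Sum.inr (Sum.inr s))) ∈ h.H}

theorem con_RFH (t : Fam) (h : HT) (ht : Constructible t.S) (hH : Constructible h.H) :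
    Constructible (RFH E t h) :=
  Constructible.and (Constructible.comap (fun s => Sum.inr (Sum.inl s)) ht)
    (Constructible.comap (fun s => Sum.inr (Sum.inr s)) hH)

/-- the parameters for `vCH` -/
def RCH (E : Type) (h : HT) : Set (E ⊕ h.σ → ℂ) := {p | (fun s => p (Sum.inr s)) ∈ h.H}

theorem con_RCH (h : HT) (hH : Constructible h.H) : Constructible (RCH E h) :=
  Constructible.comap Sum.inr hH

theorem pt_ex (c : ℂ) (h : HT) (G : P2) (a : K) (z : E ⊕ (h.σ ⊕ Unit) → ℂ) :
    (Sum.elim (fun p => z (Sum.inl p)) ((hp c h G a).ex.pt fun s => z (Sum.inr s))) =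
      Sum.elim (fun p => z (Sum.inl p)) (fun b : Bool =>
        if b then eval ![c, eval (fun s => z (Sum.inr (Sum.inl s))) h.v] G else
          z (Sum.inr (Sum.inr ()))) := by
  funext s
  rcases s with p | b
  · rfl
  · rcases b with _ | _
    · change eval (fun s => z (Sum.inr s)) (X (Sum.inr ()) : MvPolynomial (h.σ ⊕ Unit) ℂ) = _
      rw [eval_X]
      rfl
    · change eval (fun s => z (Sum.inr s)) (rename Sum.inl (aeval ![C c, h.v] G) :
        MvPolynomial (h.σ ⊕ Unit) ℂ) = _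
      rw [eval_rename, eval_v0]
      rfl

theorem pt_tl (c : ℂ) (h : HT) (G : P2) (a : K) (z : E ⊕ h.σ → ℂ) :
    (Sum.elim (fun p => z (Sum.inl p)) ((hp c h G a).tl.pt fun s => z (Sum.inr s))) =
      Sum.elim (fun p => z (Sum.inl p)) (fun b : Bool =>
        if b then eval ![c, eval (fun s => z (Sum.inr s)) h.v] G else 0) := by
  funext s
  rcases s with p | b
  · rfl
  · rcases b with _ | _
    · change eval (fun s => z (Sum.inr s)) (0 : MvPolynomial h.σ ℂ) = _
      rw [map_zero]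
      rfl
    · change eval (fun s => z (Sum.inr s)) (aeval ![C c, h.v] G : MvPolynomial h.σ ℂ) = _
      rw [eval_v0]
      rfl

/-- the set of the class of the Haar part, exact -/
def XE (c : ℂ) (h : HT) (G : P2) (Q : Set (E ⊕ Bool → ℂ)) : Set (E ⊕ (h.σ ⊕ Unit) → ℂ) :=
  {z | (fun s => z (Sum.inr (Sum.inl s))) ∈ h.H ∧ Sum.elim (fun p => z (Sum.inl p))
    (fun b : Bool => if b then eval ![c, eval (fun s => z (Sum.inr (Sum.inl s))) h.v] G else
      z (Sum.inr (Sum.inr ()))) ∈ Q}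

/-- the set of the class of the Haar part, tail -/
def XT (c : ℂ) (h : HT) (G : P2) (Q : Set (E ⊕ Bool → ℂ)) : Set (E ⊕ h.σ → ℂ) :=
  {z | (fun s => z (Sum.inr s)) ∈ h.H ∧ Sum.elim (fun p => z (Sum.inl p))
    (fun b : Bool => if b then eval ![c, eval (fun s => z (Sum.inr s)) h.v] G else 0) ∈ Q}

theorem con_XE (c : ℂ) (h : HT) (G : P2) (hH : Constructible h.H) {Q : Set (E ⊕ Bool → ℂ)}
    (hQ : Constructible Q) : Constructible (XE c h G Q) := by
  refine Constructible.and (Constructible.comap (fun s => Sum.inr (Sum.inl s)) hH) ?_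
  have h1 := Constructible.preimage (Sum.elim
      (fun e => (X (Sum.inl e) : MvPolynomial (E ⊕ (h.σ ⊕ Unit)) ℂ))
      (fun b : Bool => if b then rename (fun s => Sum.inr (Sum.inl s)) (aeval ![C c, h.v] G :
        MvPolynomial h.σ ℂ) else X (Sum.inr (Sum.inr ())))) hQ
  convert h1 using 3 with u
  apply TC5Aux.mem_cgr
  funext s
  rcases s with p | b
  · simp
  · rcases b with _ | _
    · simp
    · simp only [Sum.elim_inr, if_true, eval_rename, eval_v0]
      rfl

theorem con_XT (c : ℂ) (h : HT) (G : P2) (hH : Constructible h.H) {Q : Set (E ⊕ Bool → ℂ)}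
    (hQ : Constructible Q) : Constructible (XT c h G Q) := by
  refine Constructible.and (Constructible.comap Sum.inr hH) ?_
  have h1 := Constructible.preimage (Sum.elim
      (fun e => (X (Sum.inl e) : MvPolynomial (E ⊕ h.σ) ℂ))
      (fun b : Bool => if b then rename Sum.inr (aeval ![C c, h.v] G :
        MvPolynomial h.σ ℂ) else 0)) hQ
  convert h1 using 3 with u
  apply TC5Aux.mem_cgr
  funext s
  rcases s with p | b
  · simp
  · rcases b with _ | _
    · simp
    · simp only [Sum.elim_inr, if_true, eval_rename, eval_v0]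
      rfl

theorem cl_ex (c : ℂ) (h : HT) (G : P2) (a : K) {Q : Set (E ⊕ Bool → ℂ)}
    (hQ : QOk Set.univ true Q) :
    (hp c h G a).ex.cl P Q = (haveI := h.fin; P.rat.val (XE c h G Q)) := by
  unfold Fam2.cl
  congr 1
  ext (z : E ⊕ (h.σ ⊕ Unit) → ℂ)
  constructor
  · rintro ⟨⟨h1, -⟩, h2⟩
    have h2' : Sum.elim (fun p => z (Sum.inl p)) ((hp c h G a).ex.pt fun s => z (Sum.inr s)) ∈
        Q := h2
    rw [pt_ex] at h2'
    exact ⟨h1, h2'⟩
  · rintro ⟨h1, h2⟩
    refine ⟨⟨h1, (hQ.2 _ h2).2 rfl⟩, ?_⟩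
    change Sum.elim (fun p => z (Sum.inl p)) ((hp c h G a).ex.pt fun s => z (Sum.inr s)) ∈ Q
    rw [pt_ex]
    exact h2

theorem cl_tl (c : ℂ) (h : HT) (G : P2) (a : K) (Q : Set (E ⊕ Bool → ℂ)) :
    (hp c h G a).tl.cl P Q = (haveI := h.fin; P.rat.val (XT c h G Q)) := by
  unfold Fam2.cl
  congr 1
  ext (z : E ⊕ h.σ → ℂ)
  constructor
  · rintro ⟨h1, h2⟩
    have h2' : Sum.elim (fun p => z (Sum.inl p)) ((hp c h G a).tl.pt fun s => z (Sum.inr s)) ∈
        Q := h2
    rw [pt_tl] at h2'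
    exact ⟨h1, h2'⟩
  · rintro ⟨h1, h2⟩
    refine ⟨h1, ?_⟩
    change Sum.elim (fun p => z (Sum.inl p)) ((hp c h G a).tl.pt fun s => z (Sum.inr s)) ∈ Q
    rw [pt_tl]
    exact h2

/-! arcs `α = c + arcE` -/

theorem coeff_arcE (c : ℂ) (k : ℕ) (w : PowerSeries ℂ) (l : ℕ) :
    PowerSeries.coeff l (arcE c k w) = (if l = k then c else 0) +
      if k + 1 ≤ l then PowerSeries.coeff (l - (k + 1)) w else 0 := by
  unfold arcE
  rw [map_add, PowerSeries.coeff_C_mul, PowerSeries.coeff_X_pow, PowerSeries.coeff_X_pow_mul']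
  split_ifs <;> simp

/-- the first arc in `vFH` -/
noncomputable def AF (E : Type) (c : ℂ) (t : Fam) (h : HT) (k : ℕ) (p : E ⊕ (t.σ ⊕ h.σ) → ℂ)
    (x : Fin 2 → PowerSeries ℂ) : PowerSeries ℂ :=
  PowerSeries.C c + arcE (eval (fun s => p (Sum.inr (Sum.inl s))) t.u) k (x 0)

theorem AF_RF (c : ℂ) (t : Fam) (h : HT) (k l : ℕ) :
    RF fun z : (E ⊕ (t.σ ⊕ h.σ) → ℂ) × (Fin 2 → PowerSeries ℂ) =>
      PowerSeries.coeff l (AF E c t h k z.1 z.2) := by
  unfold AF
  simp only [map_add, coeff_arcE]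
  have h1 : RF fun z : (E ⊕ (t.σ ⊕ h.σ) → ℂ) × (Fin 2 → PowerSeries ℂ) =>
      eval (fun s => z.1 (Sum.inr (Sum.inl s))) t.u := RF.eval (fun s => RF.par _) t.u
  exact (RF.const _).add ((RF.ite _ h1 (RF.const 0)).add (RF.ite _ (RF.arc 0 _) (RF.const 0)))

theorem AF_congr (c : ℂ) (t : Fam) (h : HT) (k : ℕ) (p : E ⊕ (t.σ ⊕ h.σ) → ℂ)
    (x y : Fin 2 → PowerSeries ℂ) (n : ℕ)
    (hxy : ∀ i, ∀ l < n, PowerSeries.coeff l (x i) = PowerSeries.coeff l (y i)) :
    ∀ l ≤ n, PowerSeries.coeff l (AF E c t h k p x) = PowerSeries.coeff l (AF E c t h k p y) := by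
  intro l hl
  unfold AF
  simp only [map_add, coeff_arcE]
  congr 2
  split_ifs with h1
  · exact hxy 0 _ (by omega)
  · rfl

theorem AF_zero (c : ℂ) (t : Fam) (h : HT) {k : ℕ} (hk : 1 ≤ k) (p : E ⊕ (t.σ ⊕ h.σ) → ℂ)
    (x : Fin 2 → PowerSeries ℂ) : PowerSeries.coeff 0 (AF E c t h k p x) = c := by
  unfold AF
  rw [map_add, coeff_arcE, if_neg (by omega), if_neg (by omega), PowerSeries.coeff_C, if_pos rfl]
  simp

/-- the new order of the parameters -/
def e3 (E A B : Type) : (E ⊕ (A ⊕ B)) ⊕ Unit ≃ A ⊕ (E ⊕ (B ⊕ Unit)) where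
  toFun := Sum.elim (Sum.elim (fun e => Sum.inr (Sum.inl e)) (Sum.elim Sum.inl
    fun b => Sum.inr (Sum.inr (Sum.inl b)))) fun u => Sum.inr (Sum.inr (Sum.inr u))
  invFun := Sum.elim (fun a => Sum.inl (Sum.inr (Sum.inl a))) (Sum.elim
    (fun e => Sum.inl (Sum.inl e)) (Sum.elim (fun b => Sum.inl (Sum.inr (Sum.inr b))) Sum.inr))
  left_inv := by rintro ((e | (a | b)) | u) <;> rfl
  right_inv := by rintro (a | (e | (b | u))) <;> rfl

/-- the new order of the parameters -/
def e2' (E A B : Type) : E ⊕ (A ⊕ B) ≃ A ⊕ (E ⊕ B) where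
  toFun := Sum.elim (fun e => Sum.inr (Sum.inl e)) (Sum.elim Sum.inl
    fun b => Sum.inr (Sum.inr b))
  invFun := Sum.elim (fun a => Sum.inr (Sum.inl a)) (Sum.elim Sum.inl
    fun b => Sum.inr (Sum.inr b))
  left_inv := by rintro (e | (a | b)) <;> rfl
  right_inv := by rintro (a | (e | b)) <;> rfl

variable (c : ℂ) (t : Fam) (h : HT) (G : P2) (ht : Constructible t.S) (hH : Constructible h.H)
  (hs : ∀ z ∈ h.H, eval ![c, eval z h.v] (pderiv 1 G) ≠ 0)
  {Q : Set (E ⊕ Bool → ℂ)}

include ht hH in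
theorem val_RE (hQ : Constructible Q) :
    haveI := t.fin
    haveI := h.fin
    P.rat.val (RE1 (aeval ![C c, rename (fun s => Sum.inr (Sum.inr s)) h.v] G)
      (Sum.inl : E → E ⊕ (t.σ ⊕ h.σ)) (RFH E t h) Q) = famV P t * P.rat.val (XE c h G Q) := by
  have := t.fin
  have := h.fin
  unfold famV
  rw [← P.rat.prod t.S (XE c h G Q) ht (con_XE c h G hH hQ)]
  refine X0.val_reindex P.rat (e3 E t.σ h.σ) (con_RE1 _ _ (con_RFH t h ht hH) hQ)
    (Constructible.and (Constructible.comap Sum.inl ht)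
      (Constructible.comap Sum.inr (con_XE c h G hH hQ))) fun x => ?_
  have e1 : (Sum.elim (fun e => x (Sum.inl (Sum.inl e))) (fun b : Bool =>
      if b then eval (fun e => x (Sum.inl e)) (aeval ![C c, rename (fun s => Sum.inr (Sum.inr s))
        h.v] G : MvPolynomial (E ⊕ (t.σ ⊕ h.σ)) ℂ) else x (Sum.inr ()))) =
      Sum.elim (fun e => x (Sum.inl (Sum.inl e))) (fun b : Bool =>
        if b then eval ![c, eval (fun s => x (Sum.inl (Sum.inr (Sum.inr s)))) h.v] G else
          x (Sum.inr ())) := by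
    rw [eval_v0, eval_rename]
    rfl
  constructor
  · rintro ⟨⟨h1, h2⟩, h3⟩
    have h3' : Sum.elim (fun e => x (Sum.inl (Sum.inl e))) (fun b : Bool =>
      if b then eval (fun e => x (Sum.inl e)) (aeval ![C c, rename (fun s => Sum.inr (Sum.inr s))
        h.v] G : MvPolynomial (E ⊕ (t.σ ⊕ h.σ)) ℂ) else x (Sum.inr ())) ∈ Q := h3
    rw [e1] at h3'
    exact ⟨h1, h2, h3'⟩
  · rintro ⟨h1, h2, h3⟩
    refine ⟨⟨h1, h2⟩, ?_⟩
    change Sum.elim (fun e => x (Sum.inl (Sum.inl e))) (fun b : Bool =>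
      if b then eval (fun e => x (Sum.inl e)) (aeval ![C c, rename (fun s => Sum.inr (Sum.inr s))
        h.v] G : MvPolynomial (E ⊕ (t.σ ⊕ h.σ)) ℂ) else x (Sum.inr ())) ∈ Q
    rw [e1]
    exact h3

include ht hH in
theorem val_RT (hQ : Constructible Q) :
    haveI := t.fin
    haveI := h.fin
    P.rat.val (RT1 (aeval ![C c, rename (fun s => Sum.inr (Sum.inr s)) h.v] G)
      (Sum.inl : E → E ⊕ (t.σ ⊕ h.σ)) (RFH E t h) Q) = famV P t * P.rat.val (XT c h G Q) := by
  have := t.fin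
  have := h.fin
  unfold famV
  rw [← P.rat.prod t.S (XT c h G Q) ht (con_XT c h G hH hQ)]
  refine X0.val_reindex P.rat (e2' E t.σ h.σ) (con_RT1 _ _ (con_RFH t h ht hH) hQ)
    (Constructible.and (Constructible.comap Sum.inl ht)
      (Constructible.comap Sum.inr (con_XT c h G hH hQ))) fun x => ?_
  have e1 : (Sum.elim (fun e => x (Sum.inl e)) (fun b : Bool =>
      if b then eval x (aeval ![C c, rename (fun s => Sum.inr (Sum.inr s))
        h.v] G : MvPolynomial (E ⊕ (t.σ ⊕ h.σ)) ℂ) else 0)) =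
      Sum.elim (fun e => x (Sum.inl e)) (fun b : Bool =>
        if b then eval ![c, eval (fun s => x (Sum.inr (Sum.inr s))) h.v] G else 0) := by
    rw [eval_v0, eval_rename]
    rfl
  constructor
  · rintro ⟨⟨h1, h2⟩, h3⟩
    rw [e1] at h3
    exact ⟨h1, h2, h3⟩
  · rintro ⟨h1, h2, h3⟩
    refine ⟨⟨h1, h2⟩, ?_⟩
    rw [e1]
    exact h3

include ht hH hs in
theorem vFH_E (hQ : Constructible Q) {k i : ℕ} (hk : 1 ≤ k) (hi : 1 ≤ i) :
    vFH P c t h k (SD G true Q i) =
      (haveI := h.fin; xq ^ i * (famV P t * P.rat.val (XE c h G Q))) := by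
  classical
  have := t.fin
  have := h.fin
  rw [← val_RE P c t h G ht hH hQ, ← genE P (1 : Fin 2) G c (AF E c t h k)
    (rename (fun s => Sum.inr (Sum.inr s)) h.v) (con_RFH t h ht hH) (AF_RF c t h k)
    (AF_congr c t h k) (fun p x s => ?_) (AF_zero c t h hk) (fun p hp => ?_) Sum.inl hQ hi]
  · unfold vFH
    congr 1
    ext z
    change (_ ∧ _ ∧ _) ↔ ((_ ∧ _) ∧ _)
    rw [and_assoc]
    refine and_congr Iff.rfl (and_congr Iff.rfl ?_)
    unfold Ph AF
    rw [eval_rename]
    exact Iff.rfl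
  · unfold AF
    rw [Function.update_of_ne (by decide)]
  · rw [eval_rename]
    exact hs _ hp.2

include ht hH hs in
theorem vFH_T (hQ : Constructible Q) {k : ℕ} (hk : 1 ≤ k) (i : ℕ) :
    vFH P c t h k (SD G false Q i) =
      (haveI := h.fin; xq ^ i * (famV P t * P.rat.val (XT c h G Q))) := by
  classical
  have := t.fin
  have := h.fin
  rw [← val_RT P c t h G ht hH hQ, ← genT P (1 : Fin 2) G c (AF E c t h k)
    (rename (fun s => Sum.inr (Sum.inr s)) h.v) (con_RFH t h ht hH) (AF_RF c t h k)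
    (AF_congr c t h k) (fun p x s => ?_) (AF_zero c t h hk) (fun p hp => ?_) Sum.inl hQ i]
  · unfold vFH
    congr 1
    ext z
    change (_ ∧ _ ∧ _) ↔ ((_ ∧ _) ∧ _)
    rw [and_assoc]
    refine and_congr Iff.rfl (and_congr Iff.rfl ?_)
    unfold Ph AF
    rw [eval_rename]
    exact Iff.rfl
  · unfold AF
    rw [Function.update_of_ne (by decide)]
  · rw [eval_rename]
    exact hs _ hp.2

theorem C_RF {E' ι : Type} (c : ℂ) (l : ℕ) :
    RF fun _ : (E' → ℂ) × (ι → PowerSeries ℂ) => PowerSeries.coeff l (PowerSeries.C c) :=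
  RF.const _

include hH hs in
theorem vCH_E (hQ : Constructible Q) {i : ℕ} (hi : 1 ≤ i) :
    vCH P c h (SD G true Q i) = (haveI := h.fin; xq ^ i * P.rat.val (XE c h G Q)) := by
  classical
  have := h.fin
  have key := genE P () G c (fun (_ : E ⊕ h.σ → ℂ) (_ : Unit → PowerSeries ℂ) =>
    PowerSeries.C c) (rename Sum.inr h.v) (con_RCH h hH) (fun l => C_RF c l)
    (fun _ _ _ _ _ _ _ => rfl) (fun _ _ _ => rfl)
    (fun _ _ => by rw [PowerSeries.coeff_C, if_pos rfl]) (fun p hp => by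
      rw [eval_rename]
      exact hs _ hp) Sum.inl hQ hi
  have e1 : P.rat.val (RE1 (aeval ![C c, rename Sum.inr h.v] G) (Sum.inl : E → E ⊕ h.σ)
      (RCH E h) Q) = P.rat.val (XE c h G Q) := by
    refine X0.val_reindex P.rat (Equiv.sumAssoc E h.σ Unit) (con_RE1 _ _ (con_RCH h hH) hQ)
      (con_XE c h G hH hQ) fun x => ?_
    have e1 : (Sum.elim (fun e => x (Sum.inl (Sum.inl e))) (fun b : Bool =>
        if b then eval (fun e => x (Sum.inl e)) (aeval ![C c, rename Sum.inr
          h.v] G : MvPolynomial (E ⊕ h.σ) ℂ) else x (Sum.inr ()))) =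
        Sum.elim (fun e => x (Sum.inl (Sum.inl e))) (fun b : Bool =>
          if b then eval ![c, eval (fun s => x (Sum.inl (Sum.inr s))) h.v] G else
            x (Sum.inr ())) := by
      rw [eval_v0, eval_rename]
      rfl
    constructor
    · rintro ⟨h1, h3⟩
      have h3' : Sum.elim (fun e => x (Sum.inl (Sum.inl e))) (fun b : Bool =>
        if b then eval (fun e => x (Sum.inl e)) (aeval ![C c, rename Sum.inr
          h.v] G : MvPolynomial (E ⊕ h.σ) ℂ) else x (Sum.inr ())) ∈ Q := h3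
      rw [e1] at h3'
      exact ⟨h1, h3'⟩
    · rintro ⟨h1, h3⟩
      refine ⟨h1, ?_⟩
      change Sum.elim (fun e => x (Sum.inl (Sum.inl e))) (fun b : Bool =>
        if b then eval (fun e => x (Sum.inl e)) (aeval ![C c, rename Sum.inr
          h.v] G : MvPolynomial (E ⊕ h.σ) ℂ) else x (Sum.inr ())) ∈ Q
      rw [e1]
      exact h3
  rw [← e1, ← key]
  unfold vCH
  congr 1
  ext z
  change (_ ∧ _) ↔ (_ ∧ _)
  refine and_congr Iff.rfl ?_
  unfold Ph
  rw [eval_rename]
  exact Iff.rfl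

include hH hs in
theorem vCH_T (hQ : Constructible Q) (i : ℕ) :
    vCH P c h (SD G false Q i) = (haveI := h.fin; xq ^ i * P.rat.val (XT c h G Q)) := by
  classical
  have := h.fin
  have key := genT P () G c (fun (_ : E ⊕ h.σ → ℂ) (_ : Unit → PowerSeries ℂ) =>
    PowerSeries.C c) (rename Sum.inr h.v) (con_RCH h hH) (fun l => C_RF c l)
    (fun _ _ _ _ _ _ _ => rfl) (fun _ _ _ => rfl)
    (fun _ _ => by rw [PowerSeries.coeff_C, if_pos rfl]) (fun p hp => by
      rw [eval_rename]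
      exact hs _ hp) Sum.inl hQ i
  have e1 : RT1 (aeval ![C c, rename Sum.inr h.v] G) (Sum.inl : E → E ⊕ h.σ)
      (RCH E h) Q = XT c h G Q := by
    ext x
    have e1 : (Sum.elim (fun e => x (Sum.inl e)) (fun b : Bool =>
        if b then eval x (aeval ![C c, rename Sum.inr
          h.v] G : MvPolynomial (E ⊕ h.σ) ℂ) else 0)) =
        Sum.elim (fun e => x (Sum.inl e)) (fun b : Bool =>
          if b then eval ![c, eval (fun s => x (Sum.inr s)) h.v] G else 0) := by
      rw [eval_v0, eval_rename]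
      rfl
    constructor
    · rintro ⟨h1, h3⟩
      rw [e1] at h3
      exact ⟨h1, h3⟩
    · rintro ⟨h1, h3⟩
      refine ⟨h1, ?_⟩
      rw [e1]
      exact h3
  rw [← e1, ← key]
  unfold vCH
  congr 1
  ext z
  change (_ ∧ _) ↔ (_ ∧ _)
  refine and_congr Iff.rfl ?_
  unfold Ph
  rw [eval_rename]
  exact Iff.rfl

/-- mass identity, weighted -/
theorem mass_sum (s : Src) (k : Kd) (hs : s.Ok P k) (M : ℕ) (y : K) :
    ∑ j ∈ Finset.Icc 1 M, (s.ts.map fun t => t.κ j * (famV P t * y)).sum + s.b M * y =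
      s.b 0 * y := by
  rw [← hs.2.2 M, add_mul, Finset.sum_mul, add_comm]
  congr 1
  refine Finset.sum_congr rfl fun j _ => ?_
  have h1 : ∀ l : List Fam, (l.map fun t => t.κ j * (famV P t * y)).sum =
      (l.map fun t => t.κ j * famV P t).sum * y := by
    intro l
    induction l with
    | nil => simp
    | cons F l ih =>
      rw [List.map_cons, List.map_cons, List.sum_cons, List.sum_cons, ih]
      ring
  exact h1 s.ts

end main

end FS7Aux

open FS7Aux B61 B60 in
theorem stmt_FS7 : Stmt_FS7 := by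
  classical
  intro P c s k h G Λ hok hH hs
  refine ⟨[hp c h G (h.lam * s.b 0)], [], [], by simp, by simp, ⟨?_, ?_⟩, ⟨?_, ?_⟩⟩
  · intro F hF
    simp only [List.map_cons, List.map_nil, List.append_nil, List.mem_singleton] at hF
    subst hF
    refine ⟨O5Aux.con_ex hH, ?_⟩
    rintro (τ : h.σ ⊕ Unit → ℂ) ⟨h1, h2⟩
    refine ⟨Set.mem_univ _, fun _ => ?_⟩
    have h3 : eval τ (MvPolynomial.X (Sum.inr ()) : MvPolynomial (h.σ ⊕ Unit) ℂ) ≠ 0 := by
      rw [eval_X]
      exact h2
    exact h3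
  · intro E _ Q hQ i M hi _
    have hi := hi rfl
    simp only [List.map_cons, List.map_nil, List.append_nil, List.sum_cons, List.sum_nil,
      add_zero]
    rw [cl_ex P c h G _ hQ]
    change h.lam * (∑ j ∈ Finset.Icc 1 M, (s.ts.map fun t => t.κ j *
      vFH P c t h j (SD G true Q i)).sum + s.b M * vCH P c h (SD G true Q i)) =
      (h.lam * s.b 0) * xq ^ i * _
    rw [vCH_E P c h G hH hs hQ.1 hi]
    have e1 : ∀ j ∈ Finset.Icc 1 M, (s.ts.map fun t => t.κ j *
        vFH P c t h j (SD G true Q i)).sum = (s.ts.map fun t => t.κ j * (famV P t *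
          (haveI := h.fin; xq ^ i * P.rat.val (XE c h G Q)))).sum := by
      intro j hj
      congr 1
      refine List.map_congr_left fun t ht => ?_
      rw [vFH_E P c t h G (hok.1 t ht).1.1 hH hs hQ.1 (Finset.mem_Icc.1 hj).1 hi]
      ring
    rw [Finset.sum_congr rfl e1, mass_sum P s k hok]
    ring
  · intro F hF
    simp only [List.map_cons, List.map_nil, List.append_nil, List.mem_singleton] at hF
    subst hF
    exact ⟨hH, fun τ h => ⟨Set.mem_univ _, fun h' => absurd h' (by decide)⟩⟩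
  · intro E _ Q hQ i M _ _
    simp only [List.map_cons, List.map_nil, List.append_nil, List.sum_cons, List.sum_nil,
      add_zero]
    rw [cl_tl P c h G _ Q]
    change h.lam * (∑ j ∈ Finset.Icc 1 M, (s.ts.map fun t => t.κ j *
      vFH P c t h j (SD G false Q i)).sum + s.b M * vCH P c h (SD G false Q i)) =
      (h.lam * s.b 0) * xq ^ i * _
    rw [vCH_T P c h G hH hs hQ.1 i]
    have e1 : ∀ j ∈ Finset.Icc 1 M, (s.ts.map fun t => t.κ j *
        vFH P c t h j (SD G false Q i)).sum = (s.ts.map fun t => t.κ j * (famV P t *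
          (haveI := h.fin; xq ^ i * P.rat.val (XT c h G Q)))).sum := by
      intro j hj
      congr 1
      refine List.map_congr_left fun t ht => ?_
      rw [vFH_T P c t h G (hok.1 t ht).1.1 hH hs hQ.1 (Finset.mem_Icc.1 hj).1 i]
      ring
    rw [Finset.sum_congr rfl e1, mass_sum P s k hok]
    ring

end Pool.Agent.Mono.BV
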