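import Pool.Agent.Work.Monodromy7.RE7

/-!
# Block L07, preparation: from families over `a` to families (helper61)
-/

set_option autoImplicit false
set_option linter.unusedSectionVars false
set_option linter.unusedVariables false
set_option linter.style.haveILetI false

namespace Pool.Agent.Mono.BV

open MvPolynomial TS RO PC

namespace L07X

open RO.TG5Aux RE7Aux

/-! ## Functionals of `Q : Set (E ⊕ Unit → ℂ)` (`PC.VRE_.HasT`) -/

abbrev Fq : Type 1 := (E : Type) → [Finite E] → Set (E ⊕ Unit → ℂ) → ℕ → K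

/-- `F` is given by a Haar part and families with exponents in `Λ` -/
abbrev HasF (P : HodgeMeasure) (Λ : Set ℚ) (F : Fq) : Prop := VRE_.HasT P Λ F

theorem HasF.lsum {P : HodgeMeasure} {Λ : Set ℚ} {α : Type*} (s : List α)
    (F : α → Fq) (hF : ∀ a ∈ s, HasF P Λ (F a)) :
    HasF P Λ (fun E _ Q m => (s.map fun a => F a E Q m).sum) := by
  induction s with
  | nil => simpa using VRE_.HasT.zero P Λ
  | cons a s ih =>
    refine VRE_.HasT.congr (VRE_.HasT.add (hF a List.mem_cons_self)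
      (ih fun b hb => hF b (List.mem_cons_of_mem a hb))) ?_
    intro E _ Q _ m _
    simp

theorem con_tie {E : Type} {t : Fam} (ht : Constructible t.S) {Q : Set (E ⊕ Unit → ℂ)}
    (hQ : Constructible Q) : Constructible (tie t Q) := by
  refine Constructible.and (Constructible.comap _ ht) (Constructible.and
    (con_eq (IP.ev t.u fun a => IP.coord _) (IP.coord _)) (con_pre ?_ hQ))
  rintro (e | e)
  · exact IP.coord _
  · exact IP.coord _

theorem QU_tie {E : Type} {t : Fam} (ht : t.Good) {Q : Set (E ⊕ Unit → ℂ)} (hQ : QU Q) :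
    QU (tie t Q) :=
  ⟨con_tie ht.1 hQ.1, fun z hz => hQ.2 _ hz.2.2⟩

/-! ## Tied families -/

/-- the family `T` with `v = u_t(τ)` -/
noncomputable def tf (t : Fam) (T : Fam2) : Fam where
  σ := t.σ ⊕ T.σ
  fin := haveI := t.fin; haveI := T.fin; inferInstance
  S := {z | (fun s => z (Sum.inl s)) ∈ t.S ∧ (fun s => z (Sum.inr s)) ∈ T.S ∧
    eval (fun s => z (Sum.inl s)) t.u = eval (fun s => z (Sum.inr s)) T.v}
  u := rename Sum.inr T.u
  κ := T.κ

theorem con_tf {t : Fam} (ht : Constructible t.S) {T : Fam2} (hT : Constructible T.S) :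
    Constructible (tf t T).S :=
  Constructible.and (Constructible.comap _ ht) (Constructible.and (Constructible.comap _ hT)
    (con_eq (IP.ev t.u fun a => IP.coord _) (IP.ev T.v fun a => IP.coord _)))

theorem tf_good {t : Fam} (ht : t.Good) {T : Fam2} (hT : T.Ok {0}ᶜ true) : (tf t T).Good := by
  refine ⟨con_tf ht.1 hT.1, ?_⟩
  intro τ hτ
  have e2 : eval τ (tf t T).u = eval (fun s => τ (Sum.inr s)) T.u := ev_ren Sum.inr T.u τ
  rw [e2]
  exact (hT.2 _ hτ.2.1).2 rfl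

theorem fcla_tie (P : HodgeMeasure) {E : Type} [Finite E] {t : Fam} (ht : Constructible t.S)
    {T : Fam2} (hT : Constructible T.S) {Q : Set (E ⊕ Unit → ℂ)} (hQ : Constructible Q) :
    haveI := t.fin
    fcla P T (tie t Q) = fcl P (tf t T) Q := by
  haveI := t.fin
  haveI := T.fin
  haveI := (tf t T).fin
  have hS := con_tf ht hT
  refine X0.val_reindex P.rat (Equiv.sumAssoc E t.σ T.σ) (con_fcla hT (con_tie ht hQ))
    (Constructible.and (Constructible.comap _ hS) (con_pre ?_ hQ)) ?_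
  · rintro (e | e)
    · exact IP.coord _
    · exact IP.ev (tf t T).u fun a => IP.coord _
  intro z
  have e2 : eval (fun s => z ((Equiv.sumAssoc E t.σ T.σ).symm (Sum.inr s))) (tf t T).u =
      eval (fun s => z (Sum.inr s)) T.u := ev_ren Sum.inr T.u _
  have key : (Sum.elim (fun e => z (Sum.inl (Sum.inl e))) fun _ => eval (fun s =>
      z ((Equiv.sumAssoc E t.σ T.σ).symm (Sum.inr s))) (tf t T).u : E ⊕ Unit → ℂ) =
        Sum.elim (fun e => z (Sum.inl (Sum.inl e))) fun _ => eval (fun s => z (Sum.inr s)) T.u := by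
    rw [e2]
  constructor
  · rintro ⟨h1, h2, h3, h4⟩
    exact ⟨⟨h2, h1, h3⟩, (congrArg (fun f => f ∈ Q) key).mpr h4⟩
  · rintro ⟨⟨h2, h1, h3⟩, h4⟩
    exact ⟨h1, h2, h3, (congrArg (fun f => f ∈ Q) key).mp h4⟩

/-- `{(τ, z) : v(z) = u_t(τ)}` -/
def thS (t : Fam) (h : HT) : Set (t.σ ⊕ h.σ → ℂ) :=
  {z | (fun s => z (Sum.inl s)) ∈ t.S ∧ (fun s => z (Sum.inr s)) ∈ h.H ∧
    eval (fun s => z (Sum.inl s)) t.u = eval (fun s => z (Sum.inr s)) h.v}

theorem con_thS {t : Fam} (ht : Constructible t.S) {h : HT} (hH : Constructible h.H) :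
    Constructible (thS t h) :=
  Constructible.and (Constructible.comap _ ht) (Constructible.and (Constructible.comap _ hH)
    (con_eq (IP.ev t.u fun a => IP.coord _) (IP.ev h.v fun a => IP.coord _)))

/-- the density of the Haar part `h` tied to `t` -/
noncomputable def thA (P : HodgeMeasure) (t : Fam) (h : HT) : K :=
  haveI := t.fin
  haveI := h.fin
  h.lam * P.rat.val (thS t h)

theorem fcl_haar (P : HodgeMeasure) {E : Type} [Finite E] (α : K) (Q : Set (E ⊕ Unit → ℂ)) :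
    fcl P (haar α) Q = P.rat.val {z : E ⊕ Unit → ℂ | z (Sum.inr ()) ≠ 0 ∧ z ∈ Q} := by
  unfold fcl
  congr 1
  ext z
  have e1 : eval (fun s => z (Sum.inr s)) (haar α).u = z (Sum.inr ()) := eval_X _
  have key : (Sum.elim (fun e => z (Sum.inl e)) fun _ => eval (fun s => z (Sum.inr s))
      (haar α).u : E ⊕ Unit → ℂ) = z := by
    rw [e1]
    funext j
    rcases j with j | j
    · rfl
    · rfl
  constructor
  · rintro ⟨h1, h2⟩
    exact ⟨h1, (congrArg (fun f => f ∈ Q) key).mp h2⟩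
  · rintro ⟨h1, h2⟩
    exact ⟨h1, (congrArg (fun f => f ∈ Q) key).mpr h2⟩

theorem fcla_tie_ex (P : HodgeMeasure) {E : Type} [Finite E] {t : Fam} (ht : Constructible t.S)
    {h : HT} (hH : Constructible h.H) {Q : Set (E ⊕ Unit → ℂ)} (hQ : Constructible Q) :
    haveI := t.fin
    haveI := h.fin
    fcla P h.ex (tie t Q) = P.rat.val (thS t h) * fcl P (haar 1) Q := by
  haveI := t.fin
  haveI := h.fin
  haveI := h.ex.fin
  have c1 : Constructible {z : E ⊕ Unit → ℂ | z (Sum.inr ()) ≠ 0 ∧ z ∈ Q} :=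
    Constructible.and (con_ne (IP.coord _)) hQ
  rw [fcl_haar, ← P.rat.prod _ _ (con_thS ht hH) c1]
  have c2 := Constructible.and
    (Constructible.comap (fun j : t.σ ⊕ h.σ => (Sum.inl j : (t.σ ⊕ h.σ) ⊕ (E ⊕ Unit)))
      (con_thS ht hH))
    (Constructible.comap (fun j : E ⊕ Unit => (Sum.inr j : (t.σ ⊕ h.σ) ⊕ (E ⊕ Unit))) c1)
  let eq : (E ⊕ t.σ) ⊕ (h.σ ⊕ Unit) ≃ (t.σ ⊕ h.σ) ⊕ (E ⊕ Unit) :=
    { toFun := Sum.elim (Sum.elim (fun e => Sum.inr (Sum.inl e)) fun s => Sum.inl (Sum.inl s))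
        (Sum.elim (fun s => Sum.inl (Sum.inr s)) fun s => Sum.inr (Sum.inr s))
      invFun := Sum.elim (Sum.elim (fun s => Sum.inl (Sum.inr s)) fun s => Sum.inr (Sum.inl s))
        (Sum.elim (fun e => Sum.inl (Sum.inl e)) fun s => Sum.inr (Sum.inr s))
      left_inv := by rintro ((_ | _) | (_ | _)) <;> rfl
      right_inv := by rintro ((_ | _) | (_ | _)) <;> rfl }
  refine X0.val_reindex P.rat eq (con_fcla (con_ex' hH) (con_tie ht hQ)) c2 ?_
  intro z
  have e1 : eval (fun s => z (Sum.inr s)) h.ex.v =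
      eval (fun s => z (Sum.inr (Sum.inl s))) h.v := ev_ren Sum.inl h.v _
  have e2 : eval (fun s => z (Sum.inr s)) h.ex.u = z (Sum.inr (Sum.inr ())) := eval_X _
  have key : (Sum.elim (fun e => z (Sum.inl (Sum.inl e))) fun _ => eval (fun s => z (Sum.inr s))
      h.ex.u : E ⊕ Unit → ℂ) = fun j => z (eq.symm (Sum.inr j)) := by
    rw [e2]
    funext j
    rcases j with j | j
    · rfl
    · rfl
  constructor
  · rintro ⟨⟨h1, h2⟩, h3, h4, h5⟩
    refine ⟨⟨h3, h1, ?_⟩, h2, (congrArg (fun f => f ∈ Q) key).mp h5⟩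
    exact Eq.trans h4 e1
  · rintro ⟨⟨h3, h1, h4⟩, h2, h5⟩
    refine ⟨⟨h1, h2⟩, h3, ?_, (congrArg (fun f => f ∈ Q) key).mpr h5⟩
    exact Eq.trans h4 e1.symm

/-- families over `a` give families after `a = u_t(τ)` -/
theorem tie_has {P : HodgeMeasure} {Λ : Set ℚ} {F : Fn} (hF : HasT P Λ F) {t : Fam}
    (ht : t.Good) : HasF P Λ (fun E _ Q m => haveI := t.fin; F (E ⊕ t.σ) (tie t Q) m) := by
  obtain ⟨hs, ts, h0, h1, h2⟩ := hF
  have a1 : HasF P Λ (fun E _ Q m => (hs.map fun h => thA P t h * xq ^ m *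
      fcl P (haar 1) Q).sum) := HasF.lsum hs _ fun h _ => VRE_.HasT.haar P Λ (thA P t h)
  have a2 : HasF P Λ (fun E _ Q m => (ts.map fun T => (tf t T).κ m * fcl P (tf t T) Q).sum) :=
    HasF.lsum ts (fun T E _ Q m => (tf t T).κ m * fcl P (tf t T) Q) fun T hT =>
      VRE_.HasT.single (tf t T) (tf_good ht (h1 T hT).1) (h1 T hT).2
  refine VRE_.HasT.congr (VRE_.HasT.add a1 a2) ?_
  intro E _ Q hQ m hm
  haveI := t.fin
  change F (E ⊕ t.σ) (tie t Q) m = _
  rw [h2 (E ⊕ t.σ) _ (QU_tie ht hQ) m hm]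
  simp only [List.map_append, List.sum_append, List.map_map]
  congr 1
  · congr 1
    refine List.map_congr_left fun h hh => ?_
    change h.lam * xq ^ m * fcla P h.ex (tie t Q) = thA P t h * xq ^ m * fcl P (haar 1) Q
    rw [fcla_tie_ex P ht.1 (h0 h hh).1 hQ.1, thA]
    ring
  · congr 1
    refine List.map_congr_left fun T hT => ?_
    rw [fcla_tie P ht.1 (h1 T hT).1.1 hQ.1]
    rfl

/-! ## Sums over `k` -/

abbrev Fkq : Type 1 := (E : Type) → [Finite E] → Set (E ⊕ Unit → ℂ) → ℕ → ℕ → K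

/-- the sum over `k` of `f` is given by families -/
def SmF (P : HodgeMeasure) (Λ : Set ℚ) (f : Fkq) : Prop :=
  ∃ F : Fq, HasF P Λ F ∧ ∃ C₀ : ℕ, ∀ (E : Type) [Finite E] (Q : Set (E ⊕ Unit → ℂ)),
    QU Q → ∀ m N : ℕ, 1 ≤ m → C₀ * m ≤ N → ∑ k ∈ Finset.Icc 1 N, f E Q m k = F E Q m

theorem SmF.add {P : HodgeMeasure} {Λ : Set ℚ} {f g : Fkq} (hf : SmF P Λ f) (hg : SmF P Λ g) :
    SmF P Λ (fun E _ Q m k => f E Q m k + g E Q m k) := by
  obtain ⟨F, hF, C, h⟩ := hf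
  obtain ⟨G, hG, D, h'⟩ := hg
  refine ⟨_, VRE_.HasT.add hF hG, C + D, ?_⟩
  intro E _ Q hQ m N hm hN
  rw [Finset.sum_add_distrib, h E Q hQ m N hm (le_trans (Nat.mul_le_mul_right m (by omega)) hN),
    h' E Q hQ m N hm (le_trans (Nat.mul_le_mul_right m (by omega)) hN)]

theorem SmF.zero (P : HodgeMeasure) (Λ : Set ℚ) : SmF P Λ (fun _ _ _ _ _ => 0) := by
  refine ⟨_, VRE_.HasT.zero P Λ, 0, ?_⟩
  intro E _ Q hQ m N hm hN
  exact Finset.sum_const_zero

theorem SmF.congr {P : HodgeMeasure} {Λ : Set ℚ} {f g : Fkq} (hf : SmF P Λ f)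
    (h : ∀ (E : Type) [Finite E] (Q : Set (E ⊕ Unit → ℂ)), QU Q → ∀ m k : ℕ, 1 ≤ m →
      1 ≤ k → g E Q m k = f E Q m k) : SmF P Λ g := by
  obtain ⟨F, hF, C, h'⟩ := hf
  refine ⟨F, hF, C, ?_⟩
  intro E _ Q hQ m N hm hN
  rw [← h' E Q hQ m N hm hN]
  exact Finset.sum_congr rfl fun k hk => h E Q hQ m k hm (Finset.mem_Icc.1 hk).1

theorem SmF.lsum {P : HodgeMeasure} {Λ : Set ℚ} {α : Type*} (s : List α)
    (f : α → Fkq) (hf : ∀ a ∈ s, SmF P Λ (f a)) :
    SmF P Λ (fun E _ Q m k => (s.map fun a => f a E Q m k).sum) := by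
  induction s with
  | nil => simpa using SmF.zero P Λ
  | cons a s ih =>
    refine ((hf a List.mem_cons_self).add
      (ih fun b hb => hf b (List.mem_cons_of_mem a hb))).congr ?_
    intro E _ Q _ m k _ _
    simp

/-- families over `a` give families after `a = u_t(τ)`, sums -/
theorem sm_tie {P : HodgeMeasure} {Λ : Set ℚ} {f : Fk} (hf : Sm P Λ f) {t : Fam}
    (ht : t.Good) : SmF P Λ (fun E _ Q m k => haveI := t.fin; f (E ⊕ t.σ) (tie t Q) m k) := by
  obtain ⟨F, hF, C, h'⟩ := hf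
  refine ⟨_, tie_has hF ht, C, ?_⟩
  intro E _ Q hQ m N hm hN
  haveI := t.fin
  exact h' (E ⊕ t.σ) _ (QU_tie ht hQ) m N hm hN

/-- the region without a last cone -/
theorem sm_of {P : HodgeMeasure} {Λ : Set ℚ} {s : Src} {G : P2} {W : ℕ → K} {p q : ℕ}
    (h : RE7 P Λ s G W p q none) :
    Sm P Λ fun E _ Q m k => W k * vS P s G Q k (q * k / p + 1) m := by
  obtain ⟨hs, ts, C₀, h0, h1, h2⟩ := h
  refine ⟨_, ⟨hs, ts, h0, h1, fun _ _ _ _ _ _ => rfl⟩, C₀, ?_⟩
  intro E _ Q hQ m N hm hN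
  rw [h2 E Q hQ m N hm hN]
  exact zero_add _

/-- `RE7` in terms of `HasT` -/
theorem re'_of {P : HodgeMeasure} {Λ : Set ℚ} {s : Src} {G : P2} {W : ℕ → K} {p q : ℕ}
    {o : Option (ℂ × ℕ × ℕ × ℕ × ℕ)} (h : RE7 P Λ s G W p q o) : RE' P Λ s G W p q o := by
  obtain ⟨hs, ts, C₀, h0, h1, h2⟩ := h
  refine ⟨_, ⟨hs, ts, h0, h1, fun _ _ _ _ _ _ => rfl⟩, C₀, ?_⟩
  intro E _ Q hQ m N hm hN
  have h3 := h2 E Q hQ m N hm hN
  rcases o with _ | ⟨c, A, B, p', q'⟩ <;> exact h3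

/-! ## Cones -/

/-- pairs of points of two families -/
noncomputable def pr (t t' : Fam) (c : ℂ) (A B : ℕ) (κ : ℕ → K) : Fam where
  σ := t.σ ⊕ t'.σ
  fin := haveI := t.fin; haveI := t'.fin; inferInstance
  S := {z | (fun s => z (Sum.inl s)) ∈ t.S ∧ (fun s => z (Sum.inr s)) ∈ t'.S}
  u := C c * rename Sum.inl t.u ^ A * rename Sum.inr t'.u ^ B
  κ := κ

theorem ev_pr' {α β : Type} (u : MvPolynomial α ℂ) (u' : MvPolynomial β ℂ) (c : ℂ) (A B : ℕ)
    (z : α ⊕ β → ℂ) : eval z (C c * rename Sum.inl u ^ A * rename Sum.inr u' ^ B) =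
      c * eval (fun s => z (Sum.inl s)) u ^ A * eval (fun s => z (Sum.inr s)) u' ^ B := by
  rw [map_mul, map_mul, map_pow, map_pow, eval_C, ev_ren, ev_ren]

theorem ev_pr (t t' : Fam) (c : ℂ) (A B : ℕ) (κ : ℕ → K) (z : t.σ ⊕ t'.σ → ℂ) :
    eval z (pr t t' c A B κ).u = c * eval (fun s => z (Sum.inl s)) t.u ^ A *
      eval (fun s => z (Sum.inr s)) t'.u ^ B := ev_pr' t.u t'.u c A B z

theorem pr_good {t t' : Fam} (ht : t.Good) (ht' : t'.Good) {c : ℂ} (hc : c ≠ 0) (A B : ℕ)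
    (κ : ℕ → K) : (pr t t' c A B κ).Good := by
  refine ⟨Constructible.and (Constructible.comap _ ht.1) (Constructible.comap _ ht'.1), ?_⟩
  intro τ hτ
  have e : eval τ (pr t t' c A B κ).u = _ := ev_pr t t' c A B κ τ
  rw [e]
  exact mul_ne_zero (mul_ne_zero hc (pow_ne_zero _ (ht.2 _ hτ.1))) (pow_ne_zero _ (ht'.2 _ hτ.2))

theorem con_fcl {E : Type} {t : Fam} (ht : Constructible t.S) {Q : Set (E ⊕ Unit → ℂ)}
    (hQ : Constructible Q) : Constructible {z : E ⊕ t.σ → ℂ | (fun s => z (Sum.inr s)) ∈ t.S ∧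
      (Sum.elim (fun e => z (Sum.inl e)) fun _ => eval (fun s => z (Sum.inr s)) t.u) ∈ Q} := by
  refine Constructible.and (Constructible.comap _ ht) (con_pre ?_ hQ)
  rintro (e | e)
  · exact IP.coord _
  · exact IP.ev t.u fun a => IP.coord _

/-- the class of a cone, tied -/
theorem c2a_tie (P : HodgeMeasure) {E : Type} [Finite E] {t t' : Fam} (ht : t.Good)
    (ht' : t'.Good) {c : ℂ} (hc : c ≠ 0) (A B : ℕ) (κ : ℕ → K) {Q : Set (E ⊕ Unit → ℂ)}
    (hQ : QU Q) :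
    haveI := t.fin
    c2a P t' (C c * X 0 ^ A * X 1 ^ B) (tie t Q) = fcl P (pr t t' c A B κ) Q := by
  haveI := t.fin
  haveI := t'.fin
  haveI := (pr t t' c A B κ).fin
  have hg := pr_good ht ht' hc A B κ
  -- `((E ⊕ t.σ) ⊕ Unit) ⊕ t'.σ → E ⊕ (t.σ ⊕ t'.σ)`, forgetting `a`
  symm
  refine P.rat.val_of_inv (con_fcl hg.1 hQ.1)
    (con_c2a ht'.1 (C c * X 0 ^ A * X 1 ^ B) (con_tie ht.1 hQ.1))
    (Sum.elim (Sum.elim (Sum.elim (fun e => X (Sum.inl e)) fun s => X (Sum.inr (Sum.inl s)))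
      fun _ => rename (fun s => Sum.inr (Sum.inl s)) t.u) fun s => X (Sum.inr (Sum.inr s)))
    (fun y => Sum.elim (fun e => y (Sum.inl (Sum.inl (Sum.inl e))))
      (Sum.elim (fun s => y (Sum.inl (Sum.inl (Sum.inr s)))) fun s => y (Sum.inr s))) ?_ ?_ ?_ ?_
  · rintro z ⟨⟨h1, h2⟩, h3⟩
    have e3 : eval z (rename (fun s => (Sum.inr (Sum.inl s) : E ⊕ (t.σ ⊕ t'.σ))) t.u) =
      eval (fun s => z (Sum.inr (Sum.inl s))) t.u := ev_ren _ t.u z
    refine ⟨?_, ?_, ?_, ?_, ?_⟩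
    · change eval z (rename (fun s => (Sum.inr (Sum.inl s) : E ⊕ (t.σ ⊕ t'.σ))) t.u) ≠ 0
      rw [e3]
      exact ht.2 _ h1
    · have e4 : (fun s => eval z (X (Sum.inr (Sum.inr s)) : MvPolynomial (E ⊕ (t.σ ⊕ t'.σ)) ℂ)) =
          fun s => z (Sum.inr (Sum.inr s)) := by
        funext s
        exact eval_X _
      change (fun s => eval z (X (Sum.inr (Sum.inr s)) : MvPolynomial (E ⊕ (t.σ ⊕ t'.σ)) ℂ)) ∈ t'.S
      rw [e4]
      exact h2
    · have e4 : (fun s => eval z (X (Sum.inr (Sum.inl s)) : MvPolynomial (E ⊕ (t.σ ⊕ t'.σ)) ℂ)) =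
          fun s => z (Sum.inr (Sum.inl s)) := by
        funext s
        exact eval_X _
      change (fun s => eval z (X (Sum.inr (Sum.inl s)) : MvPolynomial (E ⊕ (t.σ ⊕ t'.σ)) ℂ)) ∈ t.S
      rw [e4]
      exact h1
    · have e4 : (fun s => eval z (X (Sum.inr (Sum.inl s)) : MvPolynomial (E ⊕ (t.σ ⊕ t'.σ)) ℂ)) =
          fun s => z (Sum.inr (Sum.inl s)) := by
        funext s
        exact eval_X _
      change eval (fun s => eval z (X (Sum.inr (Sum.inl s)) : MvPolynomial (E ⊕ (t.σ ⊕ t'.σ)) ℂ))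
        t.u = eval z (rename (fun s => (Sum.inr (Sum.inl s) : E ⊕ (t.σ ⊕ t'.σ))) t.u)
      rw [e4, e3]
    · have e4 : (fun s => eval z (X (Sum.inr (Sum.inr s)) : MvPolynomial (E ⊕ (t.σ ⊕ t'.σ)) ℂ)) =
          fun s => z (Sum.inr (Sum.inr s)) := by
        funext s
        exact eval_X _
      refine (congrArg (fun f => f ∈ Q) ?_).mp h3
      funext j
      rcases j with j | j
      · have e7 : eval z (X (Sum.inl j) : MvPolynomial (E ⊕ (t.σ ⊕ t'.σ)) ℂ) = z (Sum.inl j) :=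
          eval_X _
        exact e7.symm
      · have e5 : eval (fun s => z (Sum.inr s)) (pr t t' c A B κ).u = _ :=
          ev_pr t t' c A B κ fun s => z (Sum.inr s)
        have e6 : eval ![eval z (rename (fun s => (Sum.inr (Sum.inl s) : E ⊕ (t.σ ⊕ t'.σ))) t.u),
            eval (fun s => eval z (X (Sum.inr (Sum.inr s)) : MvPolynomial (E ⊕ (t.σ ⊕ t'.σ)) ℂ))
              t'.u] (C c * X 0 ^ A * X 1 ^ B : P2) = c *
            eval (fun s => z (Sum.inr (Sum.inl s))) t.u ^ A *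
              eval (fun s => z (Sum.inr (Sum.inr s))) t'.u ^ B := by
          rw [eval_vm, e3, e4]
        exact e5.trans e6.symm
  · rintro y ⟨h1, h2, h3, h4, h5⟩
    refine ⟨⟨h3, h2⟩, ?_⟩
    refine (congrArg (fun f => f ∈ Q) ?_).mp h5
    funext j
    rcases j with j | j
    · rfl
    · have h4' : eval (fun s => y (Sum.inl (Sum.inl (Sum.inr s)))) t.u =
        y (Sum.inl (Sum.inr ())) := h4
      have e5 : eval ![y (Sum.inl (Sum.inr ())), eval (fun s => y (Sum.inr s)) t'.u]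
          (C c * X 0 ^ A * X 1 ^ B : P2) = c *
            eval (fun s => y (Sum.inl (Sum.inl (Sum.inr s)))) t.u ^ A *
              eval (fun s => y (Sum.inr s)) t'.u ^ B := by
        rw [eval_vm, h4']
      exact e5.trans (ev_pr t t' c A B κ (Sum.elim (fun s => y (Sum.inl (Sum.inl (Sum.inr s))))
        fun s => y (Sum.inr s))).symm
  · rintro z _
    funext j
    rcases j with j | (j | j)
    · exact eval_X _
    · exact eval_X _
    · exact eval_X _
  · rintro y ⟨h1, h2, h3, h4, h5⟩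
    funext j
    rcases j with ((j | j) | j) | j
    · exact eval_X _
    · exact eval_X _
    · exact (ev_ren (fun s => (Sum.inr (Sum.inl s) : E ⊕ (t.σ ⊕ t'.σ))) t.u _).trans h4
    · exact eval_X _

end L07X

end Pool.Agent.Mono.BV
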