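import Pool.Agent.Work.Monodromy7.L07X

/-!
# Block L07, cones at the origin (helper61)
-/

set_option autoImplicit false
set_option linter.unusedSectionVars false
set_option linter.unusedVariables false
set_option linter.style.haveILetI false

namespace Pool.Agent.Mono.BV

open MvPolynomial TS RO PC

namespace L07X

open RO.TG5Aux RE7Aux

/-! ## Sums over boxes -/

/-- the sum over a box -/
noncomputable def coneB (W κ : ℕ → K) (p q A B p' q' m M : ℕ) : K :=
  ∑ k ∈ Finset.range M, ∑ l ∈ Finset.range M,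
    if q * k < p * l ∧ p' * l < q' * k ∧ A * k + B * l = m then W k * κ l else 0

theorem coneW_eq (W κ : ℕ → K) (p q A B p' q' m M : ℕ) (h1 : q * p' < q' * p)
    (h2 : 1 ≤ p * A + q * B) (h3 : 1 ≤ p' * A + q' * B) (h4 : (p + p') * m < M)
    (h5 : (q + q') * m < M) : coneW W κ p q A B p' q' m = coneB W κ p q A B p' q' m M := by
  have hSB := PC.stmt_SB
  unfold coneW coneB
  have e1 : Finset.range ((p + p') * m + 1) ⊆ Finset.range M :=
    Finset.range_subset_range.2 h4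
  have e2 : Finset.range ((q + q') * m + 1) ⊆ Finset.range M :=
    Finset.range_subset_range.2 h5
  rw [← Finset.sum_subset e1]
  · refine Finset.sum_congr rfl fun k _ => ?_
    refine Finset.sum_subset e2 fun l _ hl => ?_
    rw [if_neg]
    rintro ⟨h6, h7, h8⟩
    have := (hSB p q A B p' q' m k l h1 h2 h3 h6 h7 h8).2
    rw [Finset.mem_range] at hl
    omega
  · intro k _ hk
    refine Finset.sum_eq_zero fun l _ => ?_
    rw [if_neg]
    rintro ⟨h6, h7, h8⟩
    have := (hSB p q A B p' q' m k l h1 h2 h3 h6 h7 h8).1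
    rw [Finset.mem_range] at hk
    omega

theorem coneB_swap (W κ : ℕ → K) (p q A B p' q' m M : ℕ) :
    coneB W κ p q A B p' q' m M = coneB κ W q' p' B A q p m M := by
  unfold coneB
  rw [Finset.sum_comm]
  refine Finset.sum_congr rfl fun l _ => Finset.sum_congr rfl fun k _ => ?_
  by_cases h : q * k < p * l ∧ p' * l < q' * k ∧ A * k + B * l = m
  · rw [if_pos h, if_pos ⟨h.2.1, h.1, by rw [← h.2.2, add_comm]⟩, mul_comm]
  · rw [if_neg h, if_neg]
    rintro ⟨h1, h2, h3⟩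
    exact h ⟨h2, h1, by rw [← h3, add_comm]⟩

theorem coneW_swap (W κ : ℕ → K) (p q A B p' q' m : ℕ) (h1 : q * p' < q' * p)
    (h2 : 1 ≤ p * A + q * B) (h3 : 1 ≤ p' * A + q' * B) :
    coneW W κ p q A B p' q' m = coneW κ W q' p' B A q p m := by
  have b1 : ∀ a : ℕ, a ≤ p + q + p' + q' → a * m < (p + q + p' + q') * m + 1 := by
    intro a ha
    have := Nat.mul_le_mul_right m ha
    omega
  rw [coneW_eq W κ p q A B p' q' m ((p + q + p' + q') * m + 1) h1 h2 h3 (b1 _ (by omega))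
    (b1 _ (by omega)), coneW_eq κ W q' p' B A q p m ((p + q + p' + q') * m + 1)
      (by rw [mul_comm p' q, mul_comm p q']; exact h1) (by omega) (by omega) (b1 _ (by omega))
        (b1 _ (by omega)), coneB_swap]

theorem diag_sum (W κ : ℕ → K) (A B m M : ℕ) (hAB : 1 ≤ A + B) (hM : m < M) :
    ∑ k ∈ Finset.range M, ∑ l ∈ Finset.range M,
      (if k = l ∧ 1 ≤ k ∧ A * k + B * l = m then W k * κ l else 0) =
    ∑ k ∈ Finset.Icc 1 m, if m = (A + B) * k then W k * κ k else 0 := by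
  have h1 : ∀ k ∈ Finset.range M, ∑ l ∈ Finset.range M,
      (if k = l ∧ 1 ≤ k ∧ A * k + B * l = m then W k * κ l else 0) =
        if 1 ≤ k ∧ A * k + B * k = m then W k * κ k else 0 := by
    intro k hk
    rw [Finset.sum_eq_single k]
    · by_cases h : 1 ≤ k ∧ A * k + B * k = m
      · rw [if_pos ⟨rfl, h.1, h.2⟩, if_pos h]
      · rw [if_neg h, if_neg fun h' => h ⟨h'.2.1, h'.2.2⟩]
    · intro l _ hl
      rw [if_neg fun h' => hl h'.1.symm]
    · intro h
      exact absurd hk h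
  rw [Finset.sum_congr rfl h1]
  symm
  have e1 : Finset.Icc 1 m ⊆ Finset.range M := by
    intro k hk
    rw [Finset.mem_Icc] at hk
    rw [Finset.mem_range]
    omega
  rw [← Finset.sum_subset e1]
  · refine Finset.sum_congr rfl fun k hk => ?_
    rw [Finset.mem_Icc] at hk
    by_cases h : m = (A + B) * k
    · rw [if_pos h, if_pos ⟨hk.1, by rw [h, add_mul]⟩]
    · rw [if_neg h, if_neg fun h' => h (by rw [← h'.2, add_mul])]
  · intro k _ hk
    rw [if_neg]
    rintro ⟨h2, h3⟩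
    apply hk
    rw [Finset.mem_Icc]
    refine ⟨h2, ?_⟩
    rw [← h3, ← add_mul]
    exact Nat.le_mul_of_pos_left k hAB

theorem cone_split (W κ : ℕ → K) (A B p' q' p'' q'' m : ℕ)
    (h1 : p' < q') (h2 : q'' < p'') (hA : 1 ≤ A) (hB : 1 ≤ B) :
    coneW W κ p'' q'' A B p' q' m = coneW W κ 1 1 A B p' q' m +
      (∑ k ∈ Finset.Icc 1 m, if m = (A + B) * k then W k * κ k else 0) +
        coneW κ W 1 1 B A q'' p'' m := by
  have hp'' : 1 ≤ p'' := by omega
  have hq' : 1 ≤ q' := by omega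
  have n1 : 1 ≤ p'' * A + q'' * B := by
    have : 1 ≤ p'' * A := Nat.mul_pos hp'' hA
    omega
  have n2 : 1 ≤ p' * A + q' * B := by
    have : 1 ≤ q' * B := Nat.mul_pos hq' hB
    omega
  have n3 : 1 ≤ 1 * A + 1 * B := by omega
  have e0 : coneW κ W 1 1 B A q'' p'' m = coneW W κ p'' q'' A B 1 1 m :=
    coneW_swap κ W 1 1 B A q'' p'' m (by omega) (by omega) (by omega)
  rw [e0]
  set M := (p'' + q'' + p' + q' + 2) * m + 1 with hM
  have s1 : q'' * p' < q' * p'' := by
    calc q'' * p' ≤ p'' * p' := Nat.mul_le_mul_right _ h2.le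
      _ < p'' * q' := Nat.mul_lt_mul_of_pos_left h1 hp''
      _ = q' * p'' := mul_comm _ _
  have b1 : ∀ a b : ℕ, a ≤ p'' + q'' + p' + q' + 2 → a * m < M := by
    intro a b ha
    have := Nat.mul_le_mul_right m ha
    omega
  rw [coneW_eq W κ p'' q'' A B p' q' m M s1 n1 n2 (b1 _ 0 (by omega)) (b1 _ 0 (by omega)),
    coneW_eq W κ 1 1 A B p' q' m M (by omega) n3 n2 (b1 _ 0 (by omega)) (b1 _ 0 (by omega)),
    coneW_eq W κ p'' q'' A B 1 1 m M (by omega) n1 n3 (b1 _ 0 (by omega)) (b1 _ 0 (by omega)),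
    ← diag_sum W κ A B m M (by omega) (by
      have : m ≤ (p'' + q'' + p' + q' + 2) * m := Nat.le_mul_of_pos_left m (by omega)
      omega)]
  unfold coneB
  rw [← Finset.sum_add_distrib, ← Finset.sum_add_distrib]
  refine Finset.sum_congr rfl fun k _ => ?_
  rw [← Finset.sum_add_distrib, ← Finset.sum_add_distrib]
  refine Finset.sum_congr rfl fun l _ => ?_
  rcases lt_trichotomy k l with h | h | h
  · -- right of the diagonal
    have g1 : 1 * k < 1 * l := by omega
    have g2 : q'' * k < p'' * l := by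
      calc q'' * k ≤ p'' * k := Nat.mul_le_mul_right _ h2.le
        _ < p'' * l := Nat.mul_lt_mul_of_pos_left h hp''
    have g3 : ¬ (1 * l < 1 * k) := by omega
    have g4 : k ≠ l := by omega
    simp only [g1, g2, g3, g4, true_and, false_and, and_false, if_false, add_zero]
  · subst h
    have g1 : ¬ (1 * k < 1 * k) := lt_irrefl _
    simp only [g1, false_and, and_false, if_false, true_and, zero_add, add_zero]
    by_cases hk : 1 ≤ k
    · have g2 : q'' * k < p'' * k := Nat.mul_lt_mul_of_pos_right h2 hk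
      have g3 : p' * k < q' * k := Nat.mul_lt_mul_of_pos_right h1 hk
      simp only [g2, g3, hk, true_and]
    · have g2 : ¬ q'' * k < p'' * k := by
        have : k = 0 := by omega
        subst this
        simp
      simp only [g2, hk, false_and, if_false]
  · have g1 : 1 * l < 1 * k := by omega
    have g2 : p' * l < q' * k := by
      calc p' * l ≤ q' * l := Nat.mul_le_mul_right _ h1.le
        _ < q' * k := Nat.mul_lt_mul_of_pos_left h hq'
    have g3 : ¬ (1 * k < 1 * l) := by omega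
    have g4 : k ≠ l := by omega
    simp only [g1, g2, g3, g4, true_and, false_and, if_false, zero_add]

/-! ## The final cone -/

theorem Rt_swap {Λ : Set ℚ} {k k' : Kd} {A B p q : ℕ} (h : Rt Λ k k' A B p q) :
    Rt Λ k' k B A q p := by
  rcases h with h | h | h
  · exact Or.inr (Or.inl h)
  · exact Or.inl h
  · refine Or.inr (Or.inr ?_)
    unfold rv at h ⊢
    rw [add_comm ((q : ℚ) * k'.r), add_comm (q * B)]
    exact h

/-- exchange of the two families -/
theorem fcl_pr_swap (P : HodgeMeasure) {E : Type} [Finite E] {t t' : Fam} (ht : t.Good)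
    (ht' : t'.Good) {c : ℂ} (hc : c ≠ 0) (A B : ℕ) (κ κ' : ℕ → K) {Q : Set (E ⊕ Unit → ℂ)}
    (hQ : QU Q) : fcl P (pr t t' c A B κ) Q = fcl P (pr t' t c B A κ') Q := by
  haveI := t.fin
  haveI := t'.fin
  haveI := (pr t t' c A B κ).fin
  haveI := (pr t' t c B A κ').fin
  refine X0.val_reindex P.rat (Equiv.sumCongr (Equiv.refl E) (Equiv.sumComm t.σ t'.σ))
    (con_fcl (pr_good ht ht' hc A B κ).1 hQ.1) (con_fcl (pr_good ht' ht hc B A κ').1 hQ.1) ?_
  intro z
  set Z : E ⊕ (t'.σ ⊕ t.σ) → ℂ := fun j =>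
    z ((Equiv.sumCongr (Equiv.refl E) (Equiv.sumComm t.σ t'.σ)).symm j) with hZ
  have e1 : eval (fun s => z (Sum.inr s)) (pr t t' c A B κ).u =
      c * eval (fun s => z (Sum.inr (Sum.inl s))) t.u ^ A *
        eval (fun s => z (Sum.inr (Sum.inr s))) t'.u ^ B :=
    ev_pr t t' c A B κ fun s => z (Sum.inr s)
  have e2 : eval (fun s => Z (Sum.inr s)) (pr t' t c B A κ').u =
      c * eval (fun s => Z (Sum.inr (Sum.inl s))) t'.u ^ B *
        eval (fun s => Z (Sum.inr (Sum.inr s))) t.u ^ A :=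
    ev_pr t' t c B A κ' fun s => Z (Sum.inr s)
  have e3 : (fun s => Z (Sum.inr (Sum.inl s))) = fun s => z (Sum.inr (Sum.inr s)) := rfl
  have e4 : (fun s => Z (Sum.inr (Sum.inr s))) = fun s => z (Sum.inr (Sum.inl s)) := rfl
  have key : (Sum.elim (fun e => z (Sum.inl e)) fun _ => eval (fun s => z (Sum.inr s))
      (pr t t' c A B κ).u : E ⊕ Unit → ℂ) = Sum.elim (fun e => Z (Sum.inl e)) fun _ =>
        eval (fun s => Z (Sum.inr s)) (pr t' t c B A κ').u := by
    rw [e1, e2, e3, e4]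
    have e5 : (fun e => Z (Sum.inl e)) = fun e => z (Sum.inl e) := rfl
    rw [e5, mul_right_comm]
  constructor
  · rintro ⟨⟨h1, h2⟩, h3⟩
    exact ⟨⟨h2, h1⟩, (congrArg (fun f => f ∈ Q) key).mp h3⟩
  · rintro ⟨⟨h2, h1⟩, h3⟩
    exact ⟨⟨h1, h2⟩, (congrArg (fun f => f ∈ Q) key).mpr h3⟩

/-- cone up to a free axis with `B = 1` -/
theorem haar_cone (hS4 : Stmt_SQ74) {P : HodgeMeasure} {Λ : Set ℚ} (hΛ : Λ ⊆ Set.Ioi 0) {k : Kd}
    (hr : 0 < k.r) {t : Fam} (ht : t.Good) (hκ : EK k t.κ) (p q A : ℕ) (hp : 1 ≤ p)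
    (hN : 1 ≤ p * A + q) (h3 : Rt Λ k none A 1 p q) (c : ℂ) (hc : c ≠ 0) :
    HasF P Λ (fun E _ Q m => coneW t.κ (haar 1).κ p q A 1 0 1 m *
      fcl P (pr t (haar 1) c A 1 fun _ => 0) Q) := by
  obtain ⟨a, κ, e1, e2⟩ := hS4 Λ k t.κ p q A hΛ hp hN hr hκ h3
  have a1 := tie_has (HasT.haar (P := P) (Λ := Λ) (hta a) (hta_ok a).1 (hta_ok a).2) ht
  have a2 := VRE_.HasT.single (P := P) (pr t (haar 1) c A 1 κ)
    (pr_good ht (haar_good 1) hc A 1 κ) e1
  refine VRE_.HasT.congr (VRE_.HasT.add a1 a2) ?_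
  intro E _ Q hQ m hm
  haveI := t.fin
  change _ = a * xq ^ m * fcla P (hta a).ex (tie t Q) + κ m * fcl P (pr t (haar 1) c A 1 κ) Q
  rw [← c2a_haar P a c hc A (QU_tie ht hQ),
    c2a_tie P ht (haar_good 1) hc A 1 (fun _ => 0) hQ]
  have e3 : (haar 1).κ = fun l => xq ^ l := by
    funext l
    exact one_mul _
  have e4 : fcl P (pr t (haar 1) c A 1 κ) Q = fcl P (pr t (haar 1) c A 1 fun _ => 0) Q := rfl
  rw [e3, e2 m hm, e4]
  ring

theorem clv_has (hS3 : Stmt_SQ73) (hS4 : Stmt_SQ74) {P : HodgeMeasure} {Λ : Set ℚ}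
    (hΛ : Λ ⊆ Set.Ioi 0) {k k' : Kd} {s s' : Src} (hs : s.Is P k) (hs' : s'.Is P k')
    (p q A B p' q' : ℕ) (c : ℂ) (hc : c ≠ 0) (hp : 1 ≤ p) (hq' : 1 ≤ q')
    (hpq : q * p' < q' * p) (h : ClV' Λ k k' p q A B p' q') :
    HasF P Λ (fun E _ Q m => (s.ts.map fun t => (s'.ts.map fun t' =>
      coneW t.κ t'.κ p q A B p' q' m * fcl P (pr t t' c A B fun _ => 0) Q).sum).sum) := by
  rcases h with ⟨n1, n2, h | h⟩ | ⟨n1, n2, rfl, rfl, rfl, rfl, h⟩
  · refine HasF.lsum s.ts _ fun t ht => HasF.lsum s'.ts _ fun t' ht' => ?_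
    exact VRE_.HasT.single (P := P) (pr t t' c A B fun m => coneW t.κ t'.κ p q A B p' q' m)
      (pr_good (hs.1.1 t ht).1 (hs'.1.1 t' ht').1 hc A B _)
      (hS3 Λ k k' t.κ t'.κ p q A B p' q' hpq n1 n2 (hs.1.1 t ht).2 (hs'.1.1 t' ht').2 h.1 h.2)
  · obtain ⟨rfl, rfl, rfl, rfl, h3⟩ := h
    obtain rfl := hs'.2.1 rfl
    rw [mul_one] at n1
    refine HasF.lsum s.ts _ fun t ht => ?_
    refine VRE_.HasT.congr (haar_cone hS4 hΛ hs.2.2 (hs.1.1 t ht).1 (hs.1.1 t ht).2 p q A hp n1 h3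
      c hc) ?_
    intro E _ Q hQ m hm
    change ([haar 1].map fun t' => _).sum = _
    simp only [List.map_cons, List.map_nil, List.sum_cons, List.sum_nil, add_zero]
  · obtain rfl := hs.2.1 rfl
    have n2' : 1 ≤ q' * B + p' := by omega
    have a1 : HasF P Λ (fun E _ Q m => (s'.ts.map fun t' => coneW t'.κ (haar 1).κ q' p' B 1 0 1 m *
        fcl P (pr t' (haar 1) c B 1 fun _ => 0) Q).sum) :=
      HasF.lsum s'.ts _ fun t' ht' => haar_cone hS4 hΛ hs'.2.2 (hs'.1.1 t' ht').1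
        (hs'.1.1 t' ht').2 q' p' B hq' n2' (Rt_swap h) c hc
    refine VRE_.HasT.congr a1 ?_
    intro E _ Q hQ m hm
    change ([haar 1].map fun t => _).sum = _
    simp only [List.map_cons, List.map_nil, List.sum_cons, List.sum_nil, add_zero]
    congr 1
    refine List.map_congr_left fun t' ht' => ?_
    rw [coneW_swap (haar 1).κ t'.κ 1 0 1 B p' q' m hpq n1 n2,
      fcl_pr_swap P (haar_good 1) (hs'.1.1 t' ht').1 hc 1 B (fun _ => 0) (fun _ => 0) hQ]

end L07X

end Pool.Agent.Mono.BV
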