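import Pool.Agent.Work.Monodromy.Interface7V
import Pool.Agent.Work.Monodromy6.REP

/-!
# Block L07, part A (helper2): classes
-/

set_option autoImplicit false
set_option linter.unusedSectionVars false
set_option linter.unusedVariables false
set_option maxHeartbeats 400000

namespace Pool.Agent.Mono.BV

open MvPolynomial TS RO PC

namespace L07Aux

/-! ### Constructible sets -/

theorem con_pre {α β : Type} (φ : β → MvPolynomial α ℂ) {Q : Set (β → ℂ)} (hQ : Constructible Q)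
    {f : (α → ℂ) → β → ℂ} (hf : ∀ z b, f z b = eval z (φ b)) : Constructible {z | f z ∈ Q} := by
  have h := Constructible.preimage φ hQ
  convert h using 1
  ext z
  have : f z = fun b => eval z (φ b) := funext fun b => hf z b
  rw [Set.mem_ofPred_eq, this]
  exact Iff.rfl

theorem con_eq {α : Type} (φ ψ : MvPolynomial α ℂ) {f g : (α → ℂ) → ℂ} (hf : ∀ z, f z = eval z φ)
    (hg : ∀ z, g z = eval z ψ) : Constructible {z | f z = g z} := by
  have h := Constructible.eq φ ψ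
  convert h using 1
  ext z
  rw [Set.mem_ofPred_eq, Set.mem_ofPred_eq, hf, hg]

theorem con_ne {α : Type} (φ : MvPolynomial α ℂ) {f : (α → ℂ) → ℂ} (hf : ∀ z, f z = eval z φ) :
    Constructible {z | f z ≠ 0} := by
  have h := Constructible.ne φ
  convert h using 1
  ext z
  rw [Set.mem_ofPred_eq, Set.mem_ofPred_eq, hf]

/-! ### Parameter sets with further parameters -/

section

variable {E E' A : Type}

/-- `{(p, α, a; r) : (α, a) ∈ Z, (p, r) ∈ Q}` -/
def tieE (ε : E ⊕ A ≃ E') (Z : Set (A ⊕ Unit → ℂ)) (Q : Set (E ⊕ Unit → ℂ)) :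
    Set ((E' ⊕ Unit) ⊕ Unit → ℂ) :=
  {z | (Sum.elim (fun s => z (Sum.inl (Sum.inl (ε (Sum.inr s)))))
      fun _ => z (Sum.inl (Sum.inr ()))) ∈ Z ∧
    (Sum.elim (fun e => z (Sum.inl (Sum.inl (ε (Sum.inl e))))) fun _ => z (Sum.inr ())) ∈ Q}

theorem tieE_qu (ε : E ⊕ A ≃ E') {Z : Set (A ⊕ Unit → ℂ)} (hZ : Constructible Z)
    {Q : Set (E ⊕ Unit → ℂ)} (hQ : QU Q) : QU (tieE ε Z Q) := by
  refine ⟨?_, fun z hz => ?_⟩
  · refine Constructible.and ?_ ?_
    · refine con_pre (Sum.elim (fun s => X (Sum.inl (Sum.inl (ε (Sum.inr s)))))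
        fun _ => X (Sum.inl (Sum.inr ()))) hZ ?_
      intro z b
      rcases b with b | b <;> simp
    · refine con_pre (Sum.elim (fun e => X (Sum.inl (Sum.inl (ε (Sum.inl e)))))
        fun _ => X (Sum.inr ())) hQ.1 ?_
      intro z b
      rcases b with b | b <;> simp
  · exact hQ.2 _ hz.2

/-- the parameter set of a child, over the parameters of the source -/
def SA {σ : Type} (Z : Set (A ⊕ Unit → ℂ)) (S : Set (σ → ℂ)) (v : MvPolynomial σ ℂ) :
    Set (A ⊕ σ → ℂ) :=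
  {z | (fun s => z (Sum.inr s)) ∈ S ∧
    (Sum.elim (fun a => z (Sum.inl a)) fun _ => eval (fun s => z (Sum.inr s)) v) ∈ Z}

theorem SA_con {σ : Type} {Z : Set (A ⊕ Unit → ℂ)} (hZ : Constructible Z) {S : Set (σ → ℂ)}
    (hS : Constructible S) (v : MvPolynomial σ ℂ) : Constructible (SA Z S v) := by
  refine Constructible.and (Constructible.comap Sum.inr hS) ?_
  refine con_pre (Sum.elim (fun a => X (Sum.inl a)) fun _ => rename Sum.inr v) hZ ?_
  intro z b
  rcases b with b | b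
  · simp
  · simp only [Sum.elim_inr, eval_rename]
    rfl

/-- the parameters of a child, over the parameters of the source -/
noncomputable def famA [Finite A] (Z : Set (A ⊕ Unit → ℂ)) (g : Fam2) : Fam where
  σ := A ⊕ g.σ
  fin := haveI := g.fin; inferInstance
  S := SA Z g.S g.v
  u := rename Sum.inr g.u
  κ := g.κ

theorem famA_good [Finite A] {Z : Set (A ⊕ Unit → ℂ)} (hZ : Constructible Z) (g : Fam2)
    (hg : g.Ok {0}ᶜ true) : (famA Z g).Good := by
  refine ⟨SA_con hZ hg.1 g.v, ?_⟩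
  intro (τ : A ⊕ g.σ → ℂ) (hτ : τ ∈ SA Z g.S g.v)
  have h1 := (hg.2 _ hτ.1).2 rfl
  have h2 : eval τ (rename Sum.inr g.u : MvPolynomial (A ⊕ g.σ) ℂ) =
      eval (fun s => τ (Sum.inr s)) g.u := by
    rw [eval_rename]
    rfl
  intro h3
  apply h1
  rw [← h2]
  exact h3

theorem fclA_con {σ : Type} {Z : Set (A ⊕ Unit → ℂ)} (hZ : Constructible Z) {S : Set (σ → ℂ)}
    (hS : Constructible S) (v u : MvPolynomial σ ℂ) {Q : Set (E ⊕ Unit → ℂ)}
    (hQ : Constructible Q) : Constructible {z : E ⊕ (A ⊕ σ) → ℂ |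
      (fun s => z (Sum.inr s)) ∈ SA Z S v ∧
      (Sum.elim (fun e => z (Sum.inl e)) fun _ =>
        eval (fun s => z (Sum.inr s)) (rename Sum.inr u : MvPolynomial (A ⊕ σ) ℂ)) ∈ Q} := by
  refine Constructible.and (Constructible.comap Sum.inr (SA_con hZ hS v)) ?_
  refine con_pre (Sum.elim (fun e => X (Sum.inl e)) fun _ =>
    rename Sum.inr (rename Sum.inr u : MvPolynomial (A ⊕ σ) ℂ)) hQ ?_
  intro z b
  rcases b with b | b
  · simp
  · simp only [Sum.elim_inr, eval_rename]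
    rfl

theorem fcla_tieE (P : HodgeMeasure) [Finite E] [Finite E'] [Finite A] (ε : E ⊕ A ≃ E')
    {Z : Set (A ⊕ Unit → ℂ)} (hZ : Constructible Z) (g : Fam2) (hg : Constructible g.S)
    {Q : Set (E ⊕ Unit → ℂ)} (hQ : Constructible Q) :
    fcla P g (tieE ε Z Q) = fcl P (famA Z g) Q := by
  haveI := g.fin
  let e : E ⊕ (A ⊕ g.σ) ≃ E' ⊕ g.σ :=
    (Equiv.sumAssoc E A g.σ).symm.trans (Equiv.sumCongr ε (Equiv.refl _))
  have h := P.rat.reindex e (fclA_con hZ hg g.v g.u hQ)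
  have h' : fcl P (famA Z g) Q = P.rat.val {z : E ⊕ (A ⊕ g.σ) → ℂ |
      (fun s => z (Sum.inr s)) ∈ SA Z g.S g.v ∧
      (Sum.elim (fun e => z (Sum.inl e)) fun _ =>
        eval (fun s => z (Sum.inr s)) (rename Sum.inr g.u : MvPolynomial (A ⊕ g.σ) ℂ)) ∈ Q} := rfl
  rw [h', ← h]
  unfold fcla
  congr 1
  ext z
  have hu : eval (fun s => (fun j => z (e j)) (Sum.inr s))
      (rename Sum.inr g.u : MvPolynomial (A ⊕ g.σ) ℂ) =
      eval (fun s => z (Sum.inr s)) g.u := by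
    rw [eval_rename]
    rfl
  have h1 : z ∈ {x : E' ⊕ g.σ → ℂ | (fun j => x (e j)) ∈ {z : E ⊕ (A ⊕ g.σ) → ℂ |
      (fun s => z (Sum.inr s)) ∈ SA Z g.S g.v ∧
      (Sum.elim (fun e => z (Sum.inl e)) fun _ =>
        eval (fun s => z (Sum.inr s)) (rename Sum.inr g.u : MvPolynomial (A ⊕ g.σ) ℂ)) ∈ Q}} ↔
      (fun s => (fun j => z (e j)) (Sum.inr s)) ∈ SA Z g.S g.v ∧
      (Sum.elim (fun x => (fun j => z (e j)) (Sum.inl x)) fun _ =>
        eval (fun s => (fun j => z (e j)) (Sum.inr s))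
          (rename Sum.inr g.u : MvPolynomial (A ⊕ g.σ) ℂ)) ∈ Q := Iff.rfl
  rw [h1, hu]
  constructor
  · rintro ⟨h1, h2, h3⟩
    exact ⟨⟨h1, h2⟩, h3⟩
  · rintro ⟨⟨h1, h2⟩, h3⟩
    exact ⟨h1, h2, h3⟩

/-- the class of the points of a Haar part, over the parameters of the source -/
noncomputable def haarA (P : HodgeMeasure) [Finite A] (Z : Set (A ⊕ Unit → ℂ)) (h : HT) : K :=
  haveI := h.fin
  P.rat.val (SA Z h.H h.v)

theorem fcla_exE (P : HodgeMeasure) [Finite E] [Finite E'] [Finite A] (ε : E ⊕ A ≃ E')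
    {Z : Set (A ⊕ Unit → ℂ)} (hZ : Constructible Z) (h : HT) (hh : Constructible h.H)
    {Q : Set (E ⊕ Unit → ℂ)} (hQ : Constructible Q) :
    fcla P h.ex (tieE ε Z Q) = haarA P Z h * fcl P (haar 1) Q := by
  haveI := h.fin
  let e : (E ⊕ Unit) ⊕ (A ⊕ h.σ) ≃ E' ⊕ (h.σ ⊕ Unit) :=
    { toFun := Sum.elim (Sum.elim (fun x => Sum.inl (ε (Sum.inl x))) fun x => Sum.inr (Sum.inr x))
        (Sum.elim (fun x => Sum.inl (ε (Sum.inr x))) fun x => Sum.inr (Sum.inl x))
      invFun := Sum.elim (fun y => Sum.elim (fun x => Sum.inl (Sum.inl x))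
        (fun x => Sum.inr (Sum.inl x)) (ε.symm y))
        (Sum.elim (fun x => Sum.inr (Sum.inr x)) fun x => Sum.inl (Sum.inr x))
      left_inv := by
        rintro ((x | x) | (x | x)) <;> simp
      right_inv := by
        rintro (y | (x | x))
        · simp only [Sum.elim_inl]
          obtain ⟨w, rfl⟩ := ε.surjective y
          rw [Equiv.symm_apply_apply]
          rcases w with w | w <;> simp
        · simp
        · simp }
  have h1 : Constructible (SA Z h.H h.v) := SA_con hZ hh h.v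
  have h2 := SCD.con_fclh (E := E) hQ
  have h3 := P.rat.prod _ _ h2 h1
  have h4 := P.rat.reindex e (Constructible.prodSet h2 h1)
  have h5 : fcl P (haar 1) Q = P.rat.val {z : E ⊕ Unit → ℂ | (fun s => z (Sum.inr s)) ∈
      {τ : Unit → ℂ | τ () ≠ 0} ∧ (Sum.elim (fun e => z (Sum.inl e)) fun _ =>
        eval (fun s => z (Sum.inr s)) (X () : MvPolynomial Unit ℂ)) ∈ Q} := rfl
  rw [h5, mul_comm]
  unfold haarA
  rw [← h3]
  refine Eq.trans ?_ h4
  unfold fcla
  congr 1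
  ext z
  have hv0 : ∀ w : h.σ ⊕ Unit → ℂ, eval w (rename Sum.inl h.v : MvPolynomial (h.σ ⊕ Unit) ℂ) =
      eval (fun s => w (Sum.inl s)) h.v := fun w => by
    rw [eval_rename]
    rfl
  have hX : eval (fun s => z (Sum.inr s)) h.ex.u = z (Sum.inr (Sum.inr ())) := eval_X _
  have hv : eval (fun s => z (Sum.inr s)) h.ex.v = eval (fun s => z (Sum.inr (Sum.inl s))) h.v :=
    hv0 _
  have hX' : eval (fun _ : Unit => z (Sum.inr (Sum.inr ()))) (X () : MvPolynomial Unit ℂ) =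
      z (Sum.inr (Sum.inr ())) := eval_X _
  have key : (((fun s => z (Sum.inr (Sum.inl s))) ∈ h.H ∧ z (Sum.inr (Sum.inr ())) ≠ 0) ∧
      (Sum.elim (fun s => z (Sum.inl (ε (Sum.inr s)))) fun _ =>
        eval (fun s => z (Sum.inr s)) h.ex.v) ∈ Z ∧
      (Sum.elim (fun x => z (Sum.inl (ε (Sum.inl x)))) fun _ =>
        eval (fun s => z (Sum.inr s)) h.ex.u) ∈ Q) ↔
      ((z (Sum.inr (Sum.inr ())) ≠ 0 ∧ (Sum.elim (fun x => z (Sum.inl (ε (Sum.inl x)))) fun _ =>
        eval (fun _ : Unit => z (Sum.inr (Sum.inr ()))) (X () : MvPolynomial Unit ℂ)) ∈ Q) ∧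
      (fun s => z (Sum.inr (Sum.inl s))) ∈ h.H ∧
      (Sum.elim (fun s => z (Sum.inl (ε (Sum.inr s)))) fun _ =>
        eval (fun s => z (Sum.inr (Sum.inl s))) h.v) ∈ Z) := by
    rw [hX, hv, hX']
    constructor
    · rintro ⟨⟨h6, h7⟩, h8, h9⟩
      exact ⟨⟨h7, h9⟩, h6, h8⟩
    · rintro ⟨⟨h7, h9⟩, h6, h8⟩
      exact ⟨⟨h6, h7⟩, h8, h9⟩
  exact key

end

end L07Aux

end Pool.Agent.Mono.BV
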