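import Pool.Agent.Work.Monodromy7.L0A
import Pool.Agent.Work.Monodromy6.VRE

/-!
# Block L07, part B (helper2): classes of pairs of sources
-/

set_option autoImplicit false
set_option linter.unusedSectionVars false
set_option linter.unusedVariables false
set_option maxHeartbeats 400000

namespace Pool.Agent.Mono.BV

open MvPolynomial TS RO PC

namespace L07Aux

/-! ### Two sources -/

section

variable {E : Type}

theorem tie_eq (t : Fam) (Q : Set (E ⊕ Unit → ℂ)) : tie t Q = tieE (Equiv.refl (E ⊕ t.σ))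
    {w : t.σ ⊕ Unit → ℂ | (fun s => w (Sum.inl s)) ∈ t.S ∧
      eval (fun s => w (Sum.inl s)) t.u = w (Sum.inr ())} Q := by
  ext z
  constructor
  · rintro ⟨h1, h2, h3⟩
    exact ⟨⟨h1, h2⟩, h3⟩
  · rintro ⟨⟨h1, h2⟩, h3⟩
    exact ⟨h1, h2, h3⟩

theorem tieZ_con (t : Fam) (ht : t.Good) : Constructible {w : t.σ ⊕ Unit → ℂ |
    (fun s => w (Sum.inl s)) ∈ t.S ∧ eval (fun s => w (Sum.inl s)) t.u = w (Sum.inr ())} := by
  refine Constructible.and (Constructible.comap Sum.inl ht.1) ?_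
  refine con_eq (rename Sum.inl t.u) (X (Sum.inr ())) ?_ ?_
  · intro z
    rw [eval_rename]
    rfl
  · intro z
    rw [eval_X]

theorem tie_qu (t : Fam) (ht : t.Good) {Q : Set (E ⊕ Unit → ℂ)} (hQ : QU Q) : QU (tie t Q) := by
  rw [tie_eq]
  exact tieE_qu _ (tieZ_con t ht) hQ

/-- the class of `{(p, τ, τ') : (p, g(u(τ), u'(τ'))) ∈ Q}` -/
noncomputable def cc (P : HodgeMeasure) [Finite E] (t t' : Fam) (g : P2)
    (Q : Set (E ⊕ Unit → ℂ)) : K :=
  haveI := t.fin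
  haveI := t'.fin
  P.rat.val {z : E ⊕ (t.σ ⊕ t'.σ) → ℂ | (fun s => z (Sum.inr (Sum.inl s))) ∈ t.S ∧
    (fun s => z (Sum.inr (Sum.inr s))) ∈ t'.S ∧ (Sum.elim (fun e => z (Sum.inl e)) fun _ =>
      eval ![eval (fun s => z (Sum.inr (Sum.inl s))) t.u,
        eval (fun s => z (Sum.inr (Sum.inr s))) t'.u] g) ∈ Q}

theorem eval_two {α : Type} (a b : MvPolynomial α ℂ) (g : P2) (z : α → ℂ) :
    eval z (aeval ![a, b] g) = eval ![eval z a, eval z b] g := by
  have h : (eval z).comp (aeval ![a, b] : P2 →ₐ[ℂ] MvPolynomial α ℂ).toRingHom =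
      eval ![eval z a, eval z b] := by
    apply ringHom_ext
    · intro c
      simp
    · intro i
      fin_cases i <;> simp
  exact congrArg (fun f => f g) h

theorem cc_con (t t' : Fam) (ht : t.Good) (ht' : t'.Good) (g : P2) {Q : Set (E ⊕ Unit → ℂ)}
    (hQ : Constructible Q) : Constructible {z : E ⊕ (t.σ ⊕ t'.σ) → ℂ |
      (fun s => z (Sum.inr (Sum.inl s))) ∈ t.S ∧
    (fun s => z (Sum.inr (Sum.inr s))) ∈ t'.S ∧ (Sum.elim (fun e => z (Sum.inl e)) fun _ =>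
      eval ![eval (fun s => z (Sum.inr (Sum.inl s))) t.u,
        eval (fun s => z (Sum.inr (Sum.inr s))) t'.u] g) ∈ Q} := by
  refine Constructible.and (Constructible.comap (fun s => Sum.inr (Sum.inl s)) ht.1)
    (Constructible.and (Constructible.comap (fun s => Sum.inr (Sum.inr s)) ht'.1) ?_)
  refine con_pre (Sum.elim (fun e => X (Sum.inl e)) fun _ =>
    aeval ![rename (fun s => Sum.inr (Sum.inl s)) t.u,
      rename (fun s => Sum.inr (Sum.inr s)) t'.u] g) hQ ?_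
  intro z b
  rcases b with b | b
  · simp
  · simp only [Sum.elim_inr]
    rw [eval_two, eval_rename, eval_rename]
    rfl

/-- the class of an edge -/
theorem c2a_tie (P : HodgeMeasure) [Finite E] (t t' : Fam) (ht : t.Good) (ht' : t'.Good) (g : P2)
    {Q : Set (E ⊕ Unit → ℂ)} (hQ : QU Q) :
    haveI := t.fin
    c2a P t' g (tie t Q) = cc P t t' g Q := by
  haveI := t.fin
  haveI := t'.fin
  have hcon : Constructible {z : ((E ⊕ t.σ) ⊕ Unit) ⊕ t'.σ → ℂ |
      z (Sum.inl (Sum.inr ())) ≠ 0 ∧ (fun s => z (Sum.inr s)) ∈ t'.S ∧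
      (Sum.elim (fun e => z (Sum.inl e)) fun _ =>
        eval ![z (Sum.inl (Sum.inr ())), eval (fun s => z (Sum.inr s)) t'.u] g) ∈ tie t Q} := by
    refine Constructible.and (con_ne (X (Sum.inl (Sum.inr ()))) fun z => by rw [eval_X])
      (Constructible.and (Constructible.comap Sum.inr ht'.1) ?_)
    refine con_pre (Sum.elim (fun e => X (Sum.inl e)) fun _ =>
      aeval ![X (Sum.inl (Sum.inr ())), rename Sum.inr t'.u] g) (tie_qu t ht hQ).1 ?_
    intro z b
    rcases b with b | b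
    · simp
    · simp only [Sum.elim_inr]
      rw [eval_two, eval_rename, eval_X]
      rfl
  unfold c2a cc
  refine P.rat.val_of_inv hcon (cc_con t t' ht ht' g hQ.1)
    (Sum.elim (fun e => X (Sum.inl (Sum.inl (Sum.inl e))))
      (Sum.elim (fun s => X (Sum.inl (Sum.inl (Sum.inr s)))) fun s => X (Sum.inr s)))
    (fun y => Sum.elim (Sum.elim (Sum.elim (fun e => y (Sum.inl e)) fun s =>
      y (Sum.inr (Sum.inl s))) fun _ => eval (fun s => y (Sum.inr (Sum.inl s))) t.u)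
        fun s => y (Sum.inr (Sum.inr s))) ?_ ?_ ?_ ?_
  · rintro z ⟨h1, h2, h3, h4, h5⟩
    have h4' : eval (fun s => z (Sum.inl (Sum.inl (Sum.inr s)))) t.u =
      z (Sum.inl (Sum.inr ())) := h4
    simp only [Set.mem_ofPred_eq, Sum.elim_inr, Sum.elim_inl, eval_X]
    refine ⟨h3, h2, ?_⟩
    rw [h4']
    exact h5
  · rintro y ⟨h1, h2, h3⟩
    exact ⟨ht.2 _ h1, h2, h1, rfl, h3⟩
  · rintro z ⟨h1, h2, h3, h4, h5⟩
    have h4' : eval (fun s => z (Sum.inl (Sum.inl (Sum.inr s)))) t.u =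
      z (Sum.inl (Sum.inr ())) := h4
    funext j
    rcases j with ((j | j) | ⟨⟩) | j
    · simp
    · simp
    · simp only [Sum.elim_inl, Sum.elim_inr, eval_X]
      exact h4'
    · simp
  · rintro y ⟨h1, h2, h3⟩
    funext j
    rcases j with j | j | j <;> simp

/-- the family of an edge -/
noncomputable def famG (t t' : Fam) (g : P2) (κ : ℕ → K) : Fam where
  σ := t.σ ⊕ t'.σ
  fin := haveI := t.fin; haveI := t'.fin; inferInstance
  S := {z | (fun s => z (Sum.inl s)) ∈ t.S ∧ (fun s => z (Sum.inr s)) ∈ t'.S ∧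
    eval ![eval (fun s => z (Sum.inl s)) t.u, eval (fun s => z (Sum.inr s)) t'.u] g ≠ 0}
  u := aeval ![rename Sum.inl t.u, rename Sum.inr t'.u] g
  κ := κ

theorem famG_good (t t' : Fam) (ht : t.Good) (ht' : t'.Good) (g : P2) (κ : ℕ → K) :
    (famG t t' g κ).Good := by
  constructor
  · refine Constructible.and (Constructible.comap Sum.inl ht.1)
      (Constructible.and (Constructible.comap Sum.inr ht'.1) ?_)
    refine con_ne (aeval ![rename Sum.inl t.u, rename Sum.inr t'.u] g) fun z => ?_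
    rw [eval_two, eval_rename, eval_rename]
    rfl
  · intro (τ : t.σ ⊕ t'.σ → ℂ) hτ
    have h1 : eval τ (aeval ![rename Sum.inl t.u, rename Sum.inr t'.u] g) =
        eval ![eval (fun s => τ (Sum.inl s)) t.u, eval (fun s => τ (Sum.inr s)) t'.u] g := by
      rw [eval_two, eval_rename, eval_rename]
      rfl
    intro h2
    apply hτ.2.2
    rw [← h1]
    exact h2

theorem fcl_famG (P : HodgeMeasure) [Finite E] (t t' : Fam) (g : P2) (κ : ℕ → K)
    {Q : Set (E ⊕ Unit → ℂ)} (hQ : QU Q) : fcl P (famG t t' g κ) Q = cc P t t' g Q := by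
  haveI := t.fin
  haveI := t'.fin
  refine VRE_.fcl_mk P _ _ κ Q ?_
  intro z
  have h1 : eval (fun s => z (Sum.inr s)) (aeval ![rename Sum.inl t.u, rename Sum.inr t'.u] g :
      MvPolynomial (t.σ ⊕ t'.σ) ℂ) =
      eval ![eval (fun s => z (Sum.inr (Sum.inl s))) t.u,
        eval (fun s => z (Sum.inr (Sum.inr s))) t'.u] g := by
    rw [eval_two, eval_rename, eval_rename]
    rfl
  rw [h1]
  constructor
  · rintro ⟨h2, h3, h4⟩
    exact ⟨⟨h2, h3, hQ.2 _ h4⟩, h4⟩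
  · rintro ⟨⟨h2, h3, -⟩, h4⟩
    exact ⟨h2, h3, h4⟩

theorem eval_mono2 (c x y : ℂ) (A B : ℕ) :
    eval ![x, y] (C c * X 0 ^ A * X 1 ^ B : P2) = c * x ^ A * y ^ B := by
  simp

theorem cc_swap (P : HodgeMeasure) [Finite E] (t t' : Fam) (ht : t.Good) (ht' : t'.Good) (c : ℂ)
    (A B : ℕ) {Q : Set (E ⊕ Unit → ℂ)} (hQ : QU Q) :
    cc P t t' (C c * X 0 ^ A * X 1 ^ B) Q = cc P t' t (C c * X 0 ^ B * X 1 ^ A) Q := by
  haveI := t.fin
  haveI := t'.fin
  have h := P.rat.reindex (Equiv.sumCongr (Equiv.refl E) (Equiv.sumComm t'.σ t.σ))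
    (cc_con t' t ht' ht (C c * X 0 ^ B * X 1 ^ A) hQ.1)
  unfold cc
  rw [← h]
  congr 1
  ext z
  have key : ((fun s => z (Sum.inr (Sum.inl s))) ∈ t.S ∧
      (fun s => z (Sum.inr (Sum.inr s))) ∈ t'.S ∧ (Sum.elim (fun e => z (Sum.inl e)) fun _ =>
      eval ![eval (fun s => z (Sum.inr (Sum.inl s))) t.u,
        eval (fun s => z (Sum.inr (Sum.inr s))) t'.u] (C c * X 0 ^ A * X 1 ^ B : P2)) ∈ Q) ↔
      ((fun s => z (Sum.inr (Sum.inr s))) ∈ t'.S ∧
      (fun s => z (Sum.inr (Sum.inl s))) ∈ t.S ∧ (Sum.elim (fun e => z (Sum.inl e)) fun _ =>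
      eval ![eval (fun s => z (Sum.inr (Sum.inr s))) t'.u,
        eval (fun s => z (Sum.inr (Sum.inl s))) t.u] (C c * X 0 ^ B * X 1 ^ A : P2)) ∈ Q) := by
    rw [eval_mono2, eval_mono2, mul_right_comm]
    tauto
  exact key

/-- `B = 1`, the second source is the free axis: a Haar part -/
theorem cc_haar (P : HodgeMeasure) [Finite E] (t : Fam) (ht : t.Good) (c : ℂ) (hc : c ≠ 0)
    (A : ℕ) {Q : Set (E ⊕ Unit → ℂ)} (hQ : QU Q) :
    cc P t (haar 1) (C c * X 0 ^ A * X 1 ^ 1) Q = famV P t * fcl P (haar 1) Q := by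
  haveI := t.fin
  have hh : (haar 1).Good := by
    refine ⟨?_, ?_⟩
    · have := Constructible.ne (X () : MvPolynomial Unit ℂ)
      simp only [eval_X] at this
      exact this
    · intro (τ : Unit → ℂ) (hτ : τ () ≠ 0)
      have : eval τ (X () : MvPolynomial Unit ℂ) ≠ 0 := by
        rw [eval_X]
        exact hτ
      exact this
  have h2 := SCD.con_fclh (E := E) hQ.1
  have h3 := P.rat.prod _ _ h2 ht.1
  have h5 : fcl P (haar 1) Q = P.rat.val {z : E ⊕ Unit → ℂ | (fun s => z (Sum.inr s)) ∈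
      {τ : Unit → ℂ | τ () ≠ 0} ∧ (Sum.elim (fun e => z (Sum.inl e)) fun _ =>
        eval (fun s => z (Sum.inr s)) (X () : MvPolynomial Unit ℂ)) ∈ Q} := rfl
  have h6 : famV P t = P.rat.val t.S := rfl
  rw [h5, h6, mul_comm (P.rat.val t.S), ← h3]
  have hcc : cc P t (haar 1) (C c * X 0 ^ A * X 1 ^ 1) Q =
      P.rat.val {z : E ⊕ (t.σ ⊕ Unit) → ℂ | (fun s => z (Sum.inr (Sum.inl s))) ∈ t.S ∧
        z (Sum.inr (Sum.inr ())) ≠ 0 ∧ (Sum.elim (fun e => z (Sum.inl e)) fun _ =>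
          c * eval (fun s => z (Sum.inr (Sum.inl s))) t.u ^ A * z (Sum.inr (Sum.inr ())) ^ 1)
            ∈ Q} := by
    unfold cc
    congr 1
    ext z
    have h7 : eval ![eval (fun s => z (Sum.inr (Sum.inl s))) t.u,
        eval (fun s => z (Sum.inr (Sum.inr s))) (haar 1).u] (C c * X 0 ^ A * X 1 ^ 1 : P2) =
        c * eval (fun s => z (Sum.inr (Sum.inl s))) t.u ^ A * z (Sum.inr (Sum.inr ())) ^ 1 := by
      rw [eval_mono2]
      congr 2
      exact eval_X _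
    have key : ((fun s => z (Sum.inr (Sum.inl s))) ∈ t.S ∧
        (fun s => z (Sum.inr (Sum.inr s))) ∈ (haar 1).S ∧ (Sum.elim (fun e => z (Sum.inl e))
          fun _ => eval ![eval (fun s => z (Sum.inr (Sum.inl s))) t.u,
            eval (fun s => z (Sum.inr (Sum.inr s))) (haar 1).u]
              (C c * X 0 ^ A * X 1 ^ 1 : P2)) ∈ Q) ↔
        ((fun s => z (Sum.inr (Sum.inl s))) ∈ t.S ∧
        z (Sum.inr (Sum.inr ())) ≠ 0 ∧ (Sum.elim (fun e => z (Sum.inl e)) fun _ =>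
          c * eval (fun s => z (Sum.inr (Sum.inl s))) t.u ^ A * z (Sum.inr (Sum.inr ())) ^ 1)
            ∈ Q) := by
      rw [h7]
      exact Iff.rfl
    exact key
  rw [hcc]
  have hcon : Constructible {z : E ⊕ (t.σ ⊕ Unit) → ℂ | (fun s => z (Sum.inr (Sum.inl s))) ∈ t.S ∧
        z (Sum.inr (Sum.inr ())) ≠ 0 ∧ (Sum.elim (fun e => z (Sum.inl e)) fun _ =>
          c * eval (fun s => z (Sum.inr (Sum.inl s))) t.u ^ A * z (Sum.inr (Sum.inr ())) ^ 1)
            ∈ Q} := by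
    refine Constructible.and (Constructible.comap (fun s => Sum.inr (Sum.inl s)) ht.1)
      (Constructible.and (con_ne (X (Sum.inr (Sum.inr ()))) fun z => by rw [eval_X]) ?_)
    refine con_pre (Sum.elim (fun e => X (Sum.inl e)) fun _ =>
      C c * rename (fun s => Sum.inr (Sum.inl s)) t.u ^ A * X (Sum.inr (Sum.inr ())) ^ 1) hQ.1 ?_
    intro z b
    rcases b with b | b
    · simp
    · simp only [Sum.elim_inr, map_mul, map_pow, eval_C, eval_X]
      rw [eval_rename]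
      rfl
  have e1 : ∀ z : E ⊕ Unit → ℂ, (Sum.elim (fun e => z (Sum.inl e)) fun _ =>
      eval (fun s => z (Sum.inr s)) (X () : MvPolynomial Unit ℂ)) = z := by
    intro z
    funext j
    rcases j with j | ⟨⟩
    · rfl
    · simp
  have hev : ∀ z : E ⊕ (t.σ ⊕ Unit) → ℂ, eval z (C c *
      rename (fun s => Sum.inr (Sum.inl s)) t.u ^ A * X (Sum.inr (Sum.inr ()))) =
        c * eval (fun s => z (Sum.inr (Sum.inl s))) t.u ^ A * z (Sum.inr (Sum.inr ())) := by
    intro z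
    simp only [map_mul, map_pow, eval_C, eval_X]
    rw [eval_rename]
    rfl
  refine P.rat.val_of_inv hcon (Constructible.prodSet h2 ht.1)
    (Sum.elim (Sum.elim (fun e => X (Sum.inl e)) fun _ => C c *
      rename (fun s => Sum.inr (Sum.inl s)) t.u ^ A * X (Sum.inr (Sum.inr ())))
        fun s => X (Sum.inr (Sum.inl s)))
    (fun y => Sum.elim (fun e => y (Sum.inl (Sum.inl e))) (Sum.elim (fun s => y (Sum.inr s))
      fun _ => y (Sum.inl (Sum.inr ())) / (c * eval (fun s => y (Sum.inr s)) t.u ^ A)))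
    ?_ ?_ ?_ ?_
  · rintro z ⟨h7, h8, h9⟩
    have h10 : c * eval (fun s => z (Sum.inr (Sum.inl s))) t.u ^ A ≠ 0 :=
      mul_ne_zero hc (pow_ne_zero _ (ht.2 _ h7))
    simp only [Set.mem_ofPred_eq, Sum.elim_inl, Sum.elim_inr, eval_X, hev]
    refine ⟨⟨mul_ne_zero h10 h8, ?_⟩, h7⟩
    rw [pow_one] at h9
    exact h9
  · rintro y ⟨⟨h7, h8⟩, h9⟩
    have h7' : y (Sum.inl (Sum.inr ())) ≠ 0 := h7
    have h8' : (fun i => y (Sum.inl i)) ∈ Q := by
      have := e1 (fun i => y (Sum.inl i))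
      rw [← this]
      exact h8
    have h10 : c * eval (fun s => y (Sum.inr s)) t.u ^ A ≠ 0 :=
      mul_ne_zero hc (pow_ne_zero _ (ht.2 _ h9))
    refine ⟨h9, div_ne_zero h7' h10, ?_⟩
    convert h8' using 1
    funext j
    rcases j with j | ⟨⟩
    · rfl
    · simp only [Sum.elim_inr, Sum.elim_inl, pow_one]
      exact mul_div_cancel₀ _ h10
  · rintro z ⟨h7, h8, h9⟩
    have h10 : c * eval (fun s => z (Sum.inr (Sum.inl s))) t.u ^ A ≠ 0 :=
      mul_ne_zero hc (pow_ne_zero _ (ht.2 _ h7))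
    funext j
    rcases j with j | j | ⟨⟩
    · simp
    · simp
    · simp only [Sum.elim_inl, Sum.elim_inr, eval_X, hev]
      exact mul_div_cancel_left₀ _ h10
  · rintro y ⟨⟨h7, h8⟩, h9⟩
    have h10 : c * eval (fun s => y (Sum.inr s)) t.u ^ A ≠ 0 :=
      mul_ne_zero hc (pow_ne_zero _ (ht.2 _ h9))
    funext j
    rcases j with (j | ⟨⟩) | j
    · simp
    · simp only [Sum.elim_inl, Sum.elim_inr, hev]
      exact mul_div_cancel₀ _ h10
    · simp

/-- the class of `{(p, τ) : (p, c u(τ)^A) ∈ Q}` -/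
noncomputable def d1 (P : HodgeMeasure) [Finite E] (t : Fam) (c : ℂ) (A : ℕ)
    (Q : Set (E ⊕ Unit → ℂ)) : K :=
  haveI := t.fin
  P.rat.val {z : E ⊕ t.σ → ℂ | (fun s => z (Sum.inr s)) ∈ t.S ∧
    (Sum.elim (fun e => z (Sum.inl e)) fun _ => c * eval (fun s => z (Sum.inr s)) t.u ^ A) ∈ Q}

theorem d1_con (t : Fam) (ht : t.Good) (c : ℂ) (A : ℕ) {Q : Set (E ⊕ Unit → ℂ)}
    (hQ : Constructible Q) : Constructible {z : E ⊕ t.σ → ℂ | (fun s => z (Sum.inr s)) ∈ t.S ∧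
    (Sum.elim (fun e => z (Sum.inl e)) fun _ =>
      c * eval (fun s => z (Sum.inr s)) t.u ^ A) ∈ Q} := by
  refine Constructible.and (Constructible.comap Sum.inr ht.1) ?_
  refine con_pre (Sum.elim (fun e => X (Sum.inl e)) fun _ => C c * rename Sum.inr t.u ^ A) hQ ?_
  intro z b
  rcases b with b | b
  · simp
  · simp only [Sum.elim_inr, map_mul, map_pow, eval_C]
    rw [eval_rename]
    rfl

theorem cc_zero (P : HodgeMeasure) [Finite E] (t t' : Fam) (ht : t.Good) (ht' : t'.Good) (c : ℂ)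
    (B : ℕ) {Q : Set (E ⊕ Unit → ℂ)} (hQ : QU Q) :
    cc P t t' (C c * X 0 ^ 0 * X 1 ^ B) Q = famV P t * d1 P t' c B Q := by
  haveI := t.fin
  haveI := t'.fin
  let e : (E ⊕ t'.σ) ⊕ t.σ ≃ E ⊕ (t.σ ⊕ t'.σ) :=
    (Equiv.sumAssoc E t'.σ t.σ).trans (Equiv.sumCongr (Equiv.refl E) (Equiv.sumComm t'.σ t.σ))
  have h2 := d1_con t' ht' c B hQ.1
  have h3 := P.rat.prod _ _ h2 ht.1
  have h4 := P.rat.reindex e (Constructible.prodSet h2 ht.1)
  have h6 : famV P t = P.rat.val t.S := rfl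
  rw [h6, mul_comm (P.rat.val t.S)]
  unfold d1
  rw [← h3]
  refine Eq.trans ?_ h4
  unfold cc
  congr 1
  ext z
  have h7 : eval ![eval (fun s => z (Sum.inr (Sum.inl s))) t.u,
      eval (fun s => z (Sum.inr (Sum.inr s))) t'.u] (C c * X 0 ^ 0 * X 1 ^ B : P2) =
      c * eval (fun s => z (Sum.inr (Sum.inr s))) t'.u ^ B := by
    rw [eval_mono2, pow_zero, mul_one]
  have key : ((fun s => z (Sum.inr (Sum.inl s))) ∈ t.S ∧
      (fun s => z (Sum.inr (Sum.inr s))) ∈ t'.S ∧ (Sum.elim (fun e => z (Sum.inl e)) fun _ =>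
      eval ![eval (fun s => z (Sum.inr (Sum.inl s))) t.u,
        eval (fun s => z (Sum.inr (Sum.inr s))) t'.u] (C c * X 0 ^ 0 * X 1 ^ B : P2)) ∈ Q) ↔
      (((fun s => z (Sum.inr (Sum.inr s))) ∈ t'.S ∧ (Sum.elim (fun e => z (Sum.inl e)) fun _ =>
        c * eval (fun s => z (Sum.inr (Sum.inr s))) t'.u ^ B) ∈ Q) ∧
        (fun s => z (Sum.inr (Sum.inl s))) ∈ t.S) := by
    rw [h7]
    tauto
  exact key

theorem c1a_tie (P : HodgeMeasure) [Finite E] (t : Fam) (ht : t.Good) (c : ℂ) (A : ℕ)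
    {Q : Set (E ⊕ Unit → ℂ)} (hQ : QU Q) :
    haveI := t.fin
    c1a P c A (tie t Q) = d1 P t c A Q := by
  haveI := t.fin
  have hcon : Constructible {z : (E ⊕ t.σ) ⊕ Unit → ℂ | z (Sum.inr ()) ≠ 0 ∧
      (Sum.elim z fun _ => c * z (Sum.inr ()) ^ A) ∈ tie t Q} := by
    refine Constructible.and (con_ne (X (Sum.inr ())) fun z => by rw [eval_X]) ?_
    refine con_pre (Sum.elim (fun e => X e) fun _ => C c * X (Sum.inr ()) ^ A)
      (tie_qu t ht hQ).1 ?_
    intro z b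
    rcases b with b | b
    · simp
    · simp
  unfold c1a d1
  refine P.rat.val_of_inv hcon (d1_con t ht c A hQ.1)
    (Sum.elim (fun e => X (Sum.inl (Sum.inl e))) fun s => X (Sum.inl (Sum.inr s)))
    (fun y => Sum.elim (Sum.elim (fun e => y (Sum.inl e)) fun s => y (Sum.inr s))
      fun _ => eval (fun s => y (Sum.inr s)) t.u) ?_ ?_ ?_ ?_
  · rintro z ⟨h1, h2, h3, h4⟩
    have h3' : eval (fun s => z (Sum.inl (Sum.inr s))) t.u = z (Sum.inr ()) := h3
    simp only [Set.mem_ofPred_eq, Sum.elim_inr, Sum.elim_inl, eval_X]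
    refine ⟨h2, ?_⟩
    rw [h3']
    exact h4
  · rintro y ⟨h1, h2⟩
    exact ⟨ht.2 _ h1, h1, rfl, h2⟩
  · rintro z ⟨h1, h2, h3, h4⟩
    have h3' : eval (fun s => z (Sum.inl (Sum.inr s))) t.u = z (Sum.inr ()) := h3
    funext j
    rcases j with (j | j) | ⟨⟩
    · simp
    · simp
    · simp only [Sum.elim_inr, Sum.elim_inl, eval_X]
      exact h3'
  · rintro y ⟨h1, h2⟩
    funext j
    rcases j with j | j <;> simp

/-- the family of an axis -/
noncomputable def famD (t : Fam) (c : ℂ) (A : ℕ) (κ : ℕ → K) : Fam where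
  σ := t.σ
  fin := t.fin
  S := t.S
  u := C c * t.u ^ A
  κ := κ

theorem famD_good (t : Fam) (ht : t.Good) (c : ℂ) (hc : c ≠ 0) (A : ℕ) (κ : ℕ → K) :
    (famD t c A κ).Good := by
  refine ⟨ht.1, ?_⟩
  intro (τ : t.σ → ℂ) (hτ : τ ∈ t.S)
  have h1 : eval τ (C c * t.u ^ A) ≠ 0 := by
    rw [map_mul, map_pow, eval_C]
    exact mul_ne_zero hc (pow_ne_zero _ (ht.2 _ hτ))
  exact h1

theorem fcl_famD (P : HodgeMeasure) [Finite E] (t : Fam) (c : ℂ) (A : ℕ) (κ : ℕ → K)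
    (Q : Set (E ⊕ Unit → ℂ)) : fcl P (famD t c A κ) Q = d1 P t c A Q := by
  haveI := t.fin
  refine VRE_.fcl_mk P _ _ κ Q ?_
  intro z
  rw [map_mul, map_pow, eval_C]
  exact Iff.rfl

end

end L07Aux

end Pool.Agent.Mono.BV
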