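import Pool.Agent.Work.Monodromy7.L0B

/-!
# Block L07, part C (helper2): decomposition of the pairs of arcs
-/

set_option autoImplicit false
set_option linter.unusedSectionVars false
set_option linter.unusedVariables false
set_option maxHeartbeats 400000

namespace Pool.Agent.Mono.BV

open MvPolynomial TS RO PC

namespace L07Aux

/-! ### Lists -/

theorem lsum_congr {α : Type*} (L : List α) {f g : α → K} (h : ∀ t ∈ L, f t = g t) :
    (L.map f).sum = (L.map g).sum := by
  rw [List.map_congr_left h]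

theorem lsum_add {α : Type*} (L : List α) (f g : α → K) :
    (L.map fun t => f t + g t).sum = (L.map f).sum + (L.map g).sum := by
  induction L with
  | nil => simp
  | cons a L ih =>
    rw [List.map_cons, List.sum_cons, List.map_cons, List.sum_cons, List.map_cons, List.sum_cons,
      ih]
    ring

theorem lsum_mul {α : Type*} (L : List α) (c : K) (f : α → K) :
    (L.map fun t => c * f t).sum = c * (L.map f).sum := by
  induction L with
  | nil => simp
  | cons a L ih =>
    rw [List.map_cons, List.sum_cons, List.map_cons, List.sum_cons, ih]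
    ring

theorem lsum_zero {α : Type*} (L : List α) {f : α → K} (h : ∀ t ∈ L, f t = 0) :
    (L.map f).sum = 0 := by
  induction L with
  | nil => simp
  | cons a L ih =>
    rw [List.map_cons, List.sum_cons, h a List.mem_cons_self,
      ih fun t ht => h t (List.mem_cons_of_mem _ ht), add_zero]

theorem lsum_sum {α β : Type*} (L : List α) (s : Finset β) (f : β → α → K) :
    ∑ k ∈ s, (L.map fun t => f k t).sum = (L.map fun t => ∑ k ∈ s, f k t).sum := by
  induction L with
  | nil => simp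
  | cons a L ih =>
    simp only [List.map_cons, List.sum_cons]
    rw [Finset.sum_add_distrib, ih]

theorem lsum_comm {α β : Type*} (L : List α) (L' : List β) (f : α → β → K) :
    (L.map fun t => (L'.map fun t' => f t t').sum).sum =
      (L'.map fun t' => (L.map fun t => f t t').sum).sum := by
  induction L with
  | nil =>
    simp only [List.map_nil, List.sum_nil]
    exact (lsum_zero L' fun _ _ => rfl).symm
  | cons a L ih =>
    simp only [List.map_cons, List.sum_cons]
    rw [lsum_add, ih]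

theorem lsum_ite {α : Type*} (L : List α) (c : Prop) [Decidable c] (f : α → K) :
    (L.map fun t => if c then f t else 0).sum = if c then (L.map f).sum else 0 := by
  split_ifs
  · rfl
  · exact lsum_zero L fun _ _ => rfl

/-! ### Vanishing -/

theorem dvd_aeval {G : P2} (h0 : G.coeff (mon 0 0) = 0) (f : Fin 2 → PowerSeries ℂ) (n : ℕ)
    (h : ∀ i, PowerSeries.X ^ n ∣ f i) : PowerSeries.X ^ n ∣ aeval f G := by
  rw [G.as_sum, map_sum]
  refine Finset.dvd_sum fun d hd => ?_
  rw [aeval_monomial, Finsupp.prod_fintype _ _ (fun _ => pow_zero _), Fin.prod_univ_two]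
  refine Dvd.dvd.mul_left ?_ _
  by_cases h1 : d 0 = 0
  · by_cases h2 : d 1 = 0
    · exfalso
      have h3 : d = mon 0 0 := by
        ext i
        fin_cases i
        · simp [mon, h1]
        · simp [mon, h2]
      rw [h3, mem_support_iff] at hd
      exact hd h0
    · exact Dvd.dvd.mul_left ((h 1).trans (dvd_pow_self _ h2)) _
  · exact Dvd.dvd.mul_right ((h 0).trans (dvd_pow_self _ h1)) _

theorem not_lead {E' : Type} {Q : Set (E' ⊕ Unit → ℂ)} (hQ : QU Q) {m : ℕ} {p : E' → ℂ}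
    {F : PowerSeries ℂ} (h : PowerSeries.X ^ (m + 1) ∣ F) : ¬ Lead Q m p F := by
  rintro ⟨-, h2⟩
  apply hQ.2 _ h2
  exact PowerSeries.X_pow_dvd_iff.1 h m (Nat.lt_succ_self m)

theorem arcE_dvd (c : ℂ) (k n : ℕ) (w : PowerSeries ℂ) (h : n ≤ k) :
    PowerSeries.X ^ n ∣ arcE c k w := by
  unfold arcE
  exact dvd_add (Dvd.dvd.mul_left (pow_dvd_pow _ h) _)
    (Dvd.dvd.mul_right (pow_dvd_pow _ (by omega)) _)

section

variable {E : Type} [Finite E]

theorem vempty (P : HodgeMeasure) {E' ι : Type} [Finite E'] [Fintype ι] :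
    vol P.rat xq (∅ : Set ((E' → ℂ) × (ι → PowerSeries ℂ))) = 0 := by
  apply vol_empty
  rw [P.rat_L]
  exact mul_inv_cancel₀ RatFunc.X_ne_zero

theorem x2_zero (P : HodgeMeasure) (t t' : Fam) {G : P2} (h0 : G.coeff (mon 0 0) = 0)
    {Q : Set (E ⊕ Unit → ℂ)} (hQ : QU Q) (k l m : ℕ) (hk : m < k) (hl : m < l) :
    x2 P t t' G Q k l m = 0 := by
  haveI := t.fin
  haveI := t'.fin
  have h : XS t t' G Q k l m = ∅ := by
    rw [Set.eq_empty_iff_forall_notMem]
    rintro z ⟨-, -, h3⟩
    refine not_lead hQ (dvd_aeval h0 _ (m + 1) fun i => ?_) h3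
    fin_cases i
    · exact arcE_dvd _ _ _ _ hk
    · exact arcE_dvd _ _ _ _ hl
  unfold x2
  rw [h]
  exact vempty P

theorem y1_zero (P : HodgeMeasure) (t : Fam) {G : P2} (h0 : G.coeff (mon 0 0) = 0)
    {Q : Set (E ⊕ Unit → ℂ)} (hQ : QU Q) (k m : ℕ) (hk : m < k) : y1 P t G Q k m = 0 := by
  haveI := t.fin
  have h : YS t G Q k m = ∅ := by
    rw [Set.eq_empty_iff_forall_notMem]
    rintro z ⟨-, h3⟩
    refine not_lead hQ (dvd_aeval h0 _ (m + 1) fun i => ?_) h3
    fin_cases i
    · exact arcE_dvd _ _ _ _ hk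
    · exact dvd_zero _
  unfold y1
  rw [h]
  exact vempty P

/-- the volume of a row, over the parameters of the first source -/
noncomputable def vT (P : HodgeMeasure) (t : Fam) (s' : Src) (G : P2) (Q : Set (E ⊕ Unit → ℂ))
    (k L m : ℕ) : K :=
  haveI := t.fin
  vS P s' G (tie t Q) k L m

theorem vT_eq (hRP : Stmt_RP7) (hST : Stmt_ST7) (P : HodgeMeasure) (t : Fam) (ht : t.Good)
    (s' : Src) (k₁ : Kd) (hs' : s'.Ok P k₁) (G : P2) {Q : Set (E ⊕ Unit → ℂ)} (hQ : QU Q)
    (k L M m : ℕ) (hk : 1 ≤ k) (hL : 1 ≤ L) (hM : m ≤ M) (hLM : L ≤ M + 1) :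
    vT P t s' G Q k L m = ∑ l ∈ Finset.Ico L (M + 1),
      (s'.ts.map fun t' => t'.κ l * x2 P t t' G Q k l m).sum + s'.b M * y1 P t G Q k m := by
  haveI := t.fin
  unfold vT
  rw [← hST P s' k₁ hs' G (E ⊕ t.σ) (tie t Q) (tie_qu t ht hQ) k L M m hk hL hM hLM]
  congr 1
  · refine Finset.sum_congr rfl fun l _ => lsum_congr _ fun t' ht' => ?_
    rw [(hRP P t t' G ht (hs'.1 t' ht').1 E Q hQ k l m hk).1]
  · rw [(hRP P t t G ht ht E Q hQ k 0 m hk).2]

theorem vT_zero (hRP : Stmt_RP7) (hST : Stmt_ST7) (P : HodgeMeasure) (t : Fam) (ht : t.Good)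
    (s' : Src) (k₁ : Kd) (hs' : s'.Ok P k₁) {G : P2} (h0 : G.coeff (mon 0 0) = 0)
    {Q : Set (E ⊕ Unit → ℂ)} (hQ : QU Q) (k L m : ℕ) (hk : m < k) (hL : m < L) :
    vT P t s' G Q k L m = 0 := by
  rw [vT_eq hRP hST P t ht s' k₁ hs' G hQ k L L m (by omega) (by omega) (by omega) (by omega),
    y1_zero P t h0 hQ k m hk, mul_zero, add_zero]
  refine Finset.sum_eq_zero fun l hl => lsum_zero _ fun t' _ => ?_
  rw [Finset.mem_Ico] at hl
  rw [x2_zero P t t' h0 hQ k l m hk (by omega), mul_zero]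

theorem vT_row (hRP : Stmt_RP7) (hST : Stmt_ST7) (P : HodgeMeasure) (t : Fam) (ht : t.Good)
    (s' : Src) (k₁ : Kd) (hs' : s'.Ok P k₁) {G : P2} (h0 : G.coeff (mon 0 0) = 0)
    {Q : Set (E ⊕ Unit → ℂ)} (hQ : QU Q) (p q k M m : ℕ) (hp : 1 ≤ p) (hk : 1 ≤ k) (hM : m ≤ M)
    (hqM : q * m ≤ M) :
    vT P t s' G Q k (q * k / p + 1) m = ∑ l ∈ Finset.Icc 1 M, (if q * k < p * l then
      (s'.ts.map fun t' => t'.κ l * x2 P t t' G Q k l m).sum else 0) +
        s'.b M * y1 P t G Q k m := by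
  have hfil : ∀ l, q * k < p * l ↔ q * k / p + 1 ≤ l := fun l => (VRE_.lt_iff_div hp).symm
  rcases Nat.lt_or_ge (M + 1) (q * k / p + 1) with h | h
  · -- far rows
    have h1 : M + 1 ≤ q * k / p := by omega
    have h2 : (M + 1) * p ≤ q * k := (Nat.le_div_iff_mul_le hp).1 h1
    have h3 : M + 1 ≤ q * k := le_trans (Nat.le_mul_of_pos_right _ hp) h2
    have h4 : m < k := by
      by_contra h5
      have : q * k ≤ q * m := Nat.mul_le_mul_left q (by omega)
      omega
    rw [vT_zero hRP hST P t ht s' k₁ hs' h0 hQ k _ m h4 (by omega), y1_zero P t h0 hQ k m h4,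
      mul_zero, add_zero]
    symm
    refine Finset.sum_eq_zero fun l hl => ?_
    rw [Finset.mem_Icc] at hl
    rw [if_neg]
    rw [hfil]
    omega
  · rw [vT_eq hRP hST P t ht s' k₁ hs' G hQ k _ M m hk (Nat.le_add_left 1 _) hM h,
      ← Finset.sum_filter]
    congr 1
    refine Finset.sum_congr ?_ fun _ _ => rfl
    ext l
    rw [Finset.mem_Ico, Finset.mem_filter, Finset.mem_Icc, hfil]
    generalize q * k / p = r
    omega

/-- all pairs of arcs: the regions on both sides of the ray `(p, q)`, and the ray -/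
theorem mu_dec (hRP : Stmt_RP7) (hST : Stmt_ST7) (hSW : Stmt_SW7) (P : HodgeMeasure) (s s' : Src)
    (k₀ k₁ : Kd) (hs : s.Ok P k₀) (hs' : s'.Ok P k₁) {F : P2} (h0 : F.coeff (mon 0 0) = 0)
    (h0' : (swp F).coeff (mon 0 0) = 0)
    {Q : Set (E ⊕ Unit → ℂ)} (hQ : QU Q) (p q M m : ℕ) (hp : 1 ≤ p) (hq : 1 ≤ q) (hM : m ≤ M)
    (hpM : p * m ≤ M) (hqM : q * m ≤ M) :
    mu P s s' F Q M m =
      ∑ k ∈ Finset.Icc 1 M, (s.ts.map fun t => t.κ k * vT P t s' F Q k (q * k / p + 1) m).sum +
      ∑ l ∈ Finset.Icc 1 M,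
        (s'.ts.map fun t' => t'.κ l * vT P t' s (swp F) Q l (p * l / q + 1) m).sum +
      ∑ k ∈ Finset.Icc 1 M, ∑ l ∈ Finset.Icc 1 M, (if q * k = p * l then
        (s.ts.map fun t => (s'.ts.map fun t' =>
          t.κ k * t'.κ l * x2 P t t' F Q k l m).sum).sum else 0) := by
  set f : ℕ → ℕ → K := fun k l => (s.ts.map fun t => (s'.ts.map fun t' =>
      t.κ k * t'.κ l * x2 P t t' F Q k l m).sum).sum with hf
  have e1 : ∑ k ∈ Finset.Icc 1 M,
      (s.ts.map fun t => t.κ k * vT P t s' F Q k (q * k / p + 1) m).sum =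
      ∑ k ∈ Finset.Icc 1 M, ∑ l ∈ Finset.Icc 1 M, (if q * k < p * l then f k l else 0) +
      ∑ k ∈ Finset.Icc 1 M, (s.ts.map fun t => t.κ k * s'.b M * y1 P t F Q k m).sum := by
    rw [← Finset.sum_add_distrib]
    refine Finset.sum_congr rfl fun k hk => ?_
    have hk1 := (Finset.mem_Icc.1 hk).1
    have e2 : (s.ts.map fun t => t.κ k * vT P t s' F Q k (q * k / p + 1) m).sum =
        (s.ts.map fun t => (∑ l ∈ Finset.Icc 1 M, (if q * k < p * l then
          (s'.ts.map fun t' => t.κ k * t'.κ l * x2 P t t' F Q k l m).sum else 0)) +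
          t.κ k * s'.b M * y1 P t F Q k m).sum := by
      refine lsum_congr _ fun t ht => ?_
      rw [vT_row hRP hST P t (hs.1 t ht).1 s' k₁ hs' h0 hQ p q k M m hp hk1 hM hqM, mul_add,
        Finset.mul_sum]
      congr 1
      · refine Finset.sum_congr rfl fun l _ => ?_
        split_ifs
        · rw [← lsum_mul]
          refine lsum_congr _ fun t' _ => ?_
          ring
        · rw [mul_zero]
      · ring
    rw [e2, lsum_add, ← lsum_sum]
    congr 1
    refine Finset.sum_congr rfl fun l _ => ?_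
    rw [lsum_ite]
  have e3 : ∑ l ∈ Finset.Icc 1 M,
      (s'.ts.map fun t' => t'.κ l * vT P t' s (swp F) Q l (p * l / q + 1) m).sum =
      ∑ k ∈ Finset.Icc 1 M, ∑ l ∈ Finset.Icc 1 M, (if p * l < q * k then f k l else 0) +
      ∑ l ∈ Finset.Icc 1 M, (s'.ts.map fun t' => s.b M * t'.κ l * y1 P t' (swp F) Q l m).sum := by
    rw [Finset.sum_comm (s := Finset.Icc 1 M) (t := Finset.Icc 1 M), ← Finset.sum_add_distrib]
    refine Finset.sum_congr rfl fun l hl => ?_
    have hl1 := (Finset.mem_Icc.1 hl).1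
    have e2 : (s'.ts.map fun t' => t'.κ l * vT P t' s (swp F) Q l (p * l / q + 1) m).sum =
        (s'.ts.map fun t' => (∑ k ∈ Finset.Icc 1 M, (if p * l < q * k then
          (s.ts.map fun t => t.κ k * t'.κ l * x2 P t t' F Q k l m).sum else 0)) +
          s.b M * t'.κ l * y1 P t' (swp F) Q l m).sum := by
      refine lsum_congr _ fun t' ht' => ?_
      rw [vT_row hRP hST P t' (hs'.1 t' ht').1 s k₀ hs h0' hQ q p l M m hq hl1 hM hpM, mul_add,
        Finset.mul_sum]
      congr 1
      · refine Finset.sum_congr rfl fun k _ => ?_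
        split_ifs
        · rw [← lsum_mul]
          refine lsum_congr _ fun t ht => ?_
          rw [← hSW P t t' F (hs.1 t ht).1 (hs'.1 t' ht').1 E Q hQ k l m]
          ring
        · rw [mul_zero]
      · ring
    rw [e2, lsum_add, ← lsum_sum]
    congr 1
    refine Finset.sum_congr rfl fun k _ => ?_
    rw [lsum_ite, lsum_comm]
  have e4 : ∑ k ∈ Finset.Icc 1 M, ∑ l ∈ Finset.Icc 1 M, f k l =
      ∑ k ∈ Finset.Icc 1 M, ∑ l ∈ Finset.Icc 1 M, (if q * k < p * l then f k l else 0) +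
      ∑ k ∈ Finset.Icc 1 M, ∑ l ∈ Finset.Icc 1 M, (if p * l < q * k then f k l else 0) +
      ∑ k ∈ Finset.Icc 1 M, ∑ l ∈ Finset.Icc 1 M, (if q * k = p * l then f k l else 0) := by
    rw [← Finset.sum_add_distrib, ← Finset.sum_add_distrib]
    refine Finset.sum_congr rfl fun k _ => ?_
    rw [← Finset.sum_add_distrib, ← Finset.sum_add_distrib]
    refine Finset.sum_congr rfl fun l _ => ?_
    rcases lt_trichotomy (q * k) (p * l) with h | h | h
    · rw [if_pos h, if_neg (by omega), if_neg (by omega)]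
      ring
    · rw [if_neg (by omega), if_neg (by omega), if_pos h]
      ring
    · rw [if_neg (by omega), if_pos h, if_neg (by omega)]
      ring
  rw [e1, e3]
  unfold mu
  rw [show (∑ k ∈ Finset.Icc 1 M, ∑ l ∈ Finset.Icc 1 M, (s.ts.map fun t => (s'.ts.map fun t' =>
      t.κ k * t'.κ l * x2 P t t' F Q k l m).sum).sum) =
        ∑ k ∈ Finset.Icc 1 M, ∑ l ∈ Finset.Icc 1 M, f k l from rfl, e4]
  ring

end

end L07Aux

end Pool.Agent.Mono.BV
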