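import Pool.Agent.Work.Monodromy7.L0C
import Pool.Agent.Work.Monodromy6.SB

/-!
# Block L07, part D (helper2): representations, sums over the ray, cones
-/

set_option autoImplicit false
set_option linter.unusedSectionVars false
set_option linter.unusedVariables false
set_option maxHeartbeats 400000

namespace Pool.Agent.Mono.BV

open MvPolynomial TS RO PC

namespace L07Aux

/-! ### Representations -/

theorem rep_lsum {P : HodgeMeasure} {Λ : Set ℚ} {α : Type*} (L : List α)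
    {F : α → ∀ (E : Type) [Finite E], Set (E ⊕ Unit → ℂ) → ℕ → K}
    (h : ∀ i ∈ L, Rep P Λ (F i)) : Rep P Λ fun E _ Q m => (L.map fun i => F i E Q m).sum := by
  induction L with
  | nil =>
    refine REP.congr REP.zero ?_
    intro E _ Q _ m _
    simp
  | cons a L ih =>
    refine REP.congr (REP.add (h a List.mem_cons_self)
      (ih fun i hi => h i (List.mem_cons_of_mem _ hi))) ?_
    intro E _ Q _ m _
    simp only [List.map_cons, List.sum_cons]

/-- the term of the last cone -/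
noncomputable def mainC (P : HodgeMeasure) (s : Src) (W : ℕ → K) (p q : ℕ)
    (o : Option (ℂ × ℕ × ℕ × ℕ × ℕ)) {E' : Type} [Finite E']
    (Q' : Set ((E' ⊕ Unit) ⊕ Unit → ℂ)) (m : ℕ) : K :=
  match o with
  | none => 0
  | some (c, A, B, p', q') => (s.ts.map fun t => coneW W t.κ p q A B p' q' m *
      c2a P t (C c * X 0 ^ A * X 1 ^ B) Q').sum

theorem re7E {P : HodgeMeasure} {Λ : Set ℚ} {s : Src} {G : P2} {W : ℕ → K} {p q : ℕ}
    {o : Option (ℂ × ℕ × ℕ × ℕ × ℕ)} (h : RE7 P Λ s G W p q o) {A : Type} [Finite A]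
    {Z : Set (A ⊕ Unit → ℂ)} (hZ : Constructible Z) :
    ∃ (α : K) (ts : List Fam) (C₀ : ℕ), (∀ t ∈ ts, t.Good ∧ ESeq Λ t.κ) ∧
      ∀ (E E' : Type) [Finite E] [Finite E'] (ε : E ⊕ A ≃ E') (Q : Set (E ⊕ Unit → ℂ)), QU Q →
        ∀ m N : ℕ, 1 ≤ m → C₀ * m ≤ N →
        ∑ k ∈ Finset.Icc 1 N, W k * vS P s G (tieE ε Z Q) k (q * k / p + 1) m =
          mainC P s W p q o (tieE ε Z Q) m +
            ((haar α :: ts).map fun t => t.κ m * fcl P t Q).sum := by
  obtain ⟨hs, ts, C₀, h1, h2, h3⟩ := h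
  have h4 : ∀ (E : Type) [Finite E] (Q : Set ((E ⊕ Unit) ⊕ Unit → ℂ)), QU Q → ∀ m N : ℕ, 1 ≤ m →
      C₀ * m ≤ N →
      ∑ k ∈ Finset.Icc 1 N, W k * vS P s G Q k (q * k / p + 1) m =
        mainC P s W p q o Q m + ((hs.map HT.ex ++ ts).map fun t => t.κ m * fcla P t Q).sum := by
    rcases o with _ | ⟨c, A, B, p', q'⟩ <;> exact h3
  refine ⟨(hs.map fun h => h.lam * haarA P Z h).sum, ts.map (famA Z), C₀, ?_, ?_⟩
  · intro t ht
    obtain ⟨g, hg, rfl⟩ := List.mem_map.1 ht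
    exact ⟨famA_good hZ g (h2 g hg).1, (h2 g hg).2⟩
  · intro E E' _ _ ε Q hQ m N hm hN
    rw [h4 E' (tieE ε Z Q) (tieE_qu ε hZ hQ) m N hm hN]
    congr 1
    rw [List.map_append, List.sum_append, List.map_cons, List.sum_cons, List.map_map,
      List.map_map]
    congr 1
    · have e1 : (haar (hs.map fun h => h.lam * haarA P Z h).sum).κ m *
          fcl P (haar (hs.map fun h => h.lam * haarA P Z h).sum) Q =
          (xq ^ m * fcl P (haar 1) Q) * (hs.map fun h => h.lam * haarA P Z h).sum := by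
        rw [SCD.fcl_haar P _ 1]
        simp only [haar]
        ring
      rw [e1, ← lsum_mul]
      refine lsum_congr _ fun h hh => ?_
      have e2 : ((fun t : Fam2 => t.κ m * fcla P t (tieE ε Z Q)) ∘ HT.ex) h =
          (h.lam * xq ^ m) * fcla P h.ex (tieE ε Z Q) := rfl
      rw [e2, fcla_exE P ε hZ h (h1 h hh).1 hQ.1]
      ring
    · refine lsum_congr _ fun g hg => ?_
      have e2 : ((fun t : Fam => t.κ m * fcl P t Q) ∘ famA Z) g =
          g.κ m * fcl P (famA Z g) Q := rfl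
      rw [e2, fcla_tieE P ε hZ g (h2 g hg).1.1 hQ.1]

/-- a resolved region, one family of the first source -/
theorem rep_row {P : HodgeMeasure} {Λ : Set ℚ} {s' : Src} {F : P2} {t : Fam} {p q : ℕ}
    (ht : t.Good) (h : RE7 P Λ s' F t.κ p q none) : ∃ C₀ : ℕ, ∀ N : ℕ → ℕ,
      (∀ m, 1 ≤ m → C₀ * m ≤ N m) → Rep P Λ fun E _ Q m =>
        ∑ k ∈ Finset.Icc 1 (N m), t.κ k * vT P t s' F Q k (q * k / p + 1) m := by
  haveI := t.fin
  obtain ⟨α, ts, C₀, h1, h2⟩ := re7E h (tieZ_con t ht)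
  refine ⟨C₀, fun N hN => ⟨α, ts, h1, ?_⟩⟩
  intro E _ Q hQ m hm
  have h3 := h2 E (E ⊕ t.σ) (Equiv.refl _) Q hQ m (N m) hm (hN m hm)
  rw [← tie_eq] at h3
  simp only [mainC, zero_add] at h3
  exact h3

/-- a region resolved up to the first cone -/
theorem rep_row' {P : HodgeMeasure} {Λ : Set ℚ} {s' : Src} {F : P2} {t : Fam} {p q : ℕ} {c : ℂ}
    {A B p' q' : ℕ} (ht : t.Good) (hs' : ∀ t' ∈ s'.ts, t'.Good)
    (h : RE7 P Λ s' F t.κ p q (some (c, A, B, p', q'))) : ∃ C₀ : ℕ, ∀ N : ℕ → ℕ,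
      (∀ m, 1 ≤ m → C₀ * m ≤ N m) → Rep P Λ fun E _ Q m =>
        ∑ k ∈ Finset.Icc 1 (N m), t.κ k * vT P t s' F Q k (q * k / p + 1) m -
          (s'.ts.map fun t' => coneW t.κ t'.κ p q A B p' q' m *
            cc P t t' (C c * X 0 ^ A * X 1 ^ B) Q).sum := by
  haveI := t.fin
  obtain ⟨α, ts, C₀, h1, h2⟩ := re7E h (tieZ_con t ht)
  refine ⟨C₀, fun N hN => ⟨α, ts, h1, ?_⟩⟩
  intro E _ Q hQ m hm
  have h3 := h2 E (E ⊕ t.σ) (Equiv.refl _) Q hQ m (N m) hm (hN m hm)
  rw [← tie_eq] at h3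
  simp only [mainC] at h3
  have h4 : (s'.ts.map fun t' => coneW t.κ t'.κ p q A B p' q' m *
      c2a P t' (C c * X 0 ^ A * X 1 ^ B) (tie t Q)).sum =
      (s'.ts.map fun t' => coneW t.κ t'.κ p q A B p' q' m *
            cc P t t' (C c * X 0 ^ A * X 1 ^ B) Q).sum := by
    refine lsum_congr _ fun t' ht' => ?_
    rw [c2a_tie P t t' ht (hs' t' ht') _ hQ]
  rw [h4] at h3
  have h5 : ∑ k ∈ Finset.Icc 1 (N m), t.κ k * vT P t s' F Q k (q * k / p + 1) m =
      ∑ k ∈ Finset.Icc 1 (N m), t.κ k * vS P s' F (tie t Q) k (q * k / p + 1) m := rfl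
  beta_reduce
  rw [h5, h3]
  ring

/-! ### Charts at the points of an edge -/

/-- the set of `pull` and `tie` -/
def pullZ (t t' : Fam) (p q : ℕ) (lam : ℂ) : Set ((t.σ ⊕ t'.σ) ⊕ Unit → ℂ) :=
  {w | (fun s => w (Sum.inl (Sum.inr s))) ∈ t'.S ∧
    eval (fun s => w (Sum.inl (Sum.inr s))) t'.u = lam * w (Sum.inr ()) ^ q ∧
    (fun s => w (Sum.inl (Sum.inl s))) ∈ t.S ∧
    eval (fun s => w (Sum.inl (Sum.inl s))) t.u = w (Sum.inr ()) ^ p}

theorem pullZ_con (t t' : Fam) (ht : t.Good) (ht' : t'.Good) (p q : ℕ) (lam : ℂ) :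
    Constructible (pullZ t t' p q lam) := by
  refine Constructible.and (Constructible.comap (fun s => Sum.inl (Sum.inr s)) ht'.1)
    (Constructible.and ?_ (Constructible.and
      (Constructible.comap (fun s => Sum.inl (Sum.inl s)) ht.1) ?_))
  · refine con_eq (rename (fun s => Sum.inl (Sum.inr s)) t'.u) (C lam * X (Sum.inr ()) ^ q) ?_ ?_
    · intro z
      rw [eval_rename]
      rfl
    · intro z
      simp
  · refine con_eq (rename (fun s => Sum.inl (Sum.inl s)) t.u) (X (Sum.inr ()) ^ p) ?_ ?_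
    · intro z
      rw [eval_rename]
      rfl
    · intro z
      simp

theorem pull_eq {E : Type} (t t' : Fam) (p q : ℕ) (lam : ℂ) (Q : Set (E ⊕ Unit → ℂ)) :
    pull t' p q lam (tie t Q) =
      tieE (Equiv.sumAssoc E t.σ t'.σ).symm (pullZ t t' p q lam) Q := by
  ext z
  constructor
  · rintro ⟨h1, h2, h3, h4, h5⟩
    exact ⟨⟨h1, h2, h3, h4⟩, h5⟩
  · rintro ⟨⟨h1, h2, h3, h4⟩, h5⟩
    exact ⟨h1, h2, h3, h4, h5⟩

/-- the arcs at a point of an edge -/
noncomputable def vP {E : Type} [Finite E] (P : HodgeMeasure) (t t' : Fam) (p q : ℕ) (lam : ℂ)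
    (G : P2) (Q : Set (E ⊕ Unit → ℂ)) (k m : ℕ) : K :=
  haveI := t.fin
  haveI := t'.fin
  RatFunc.X * vN7 P G (pull t' p q lam (tie t Q)) k 1 m

theorem pull_qu {E : Type} (t t' : Fam) (ht : t.Good) (ht' : t'.Good) (p q : ℕ) (lam : ℂ)
    {Q : Set (E ⊕ Unit → ℂ)} (hQ : QU Q) : QU (pull t' p q lam (tie t Q)) := by
  rw [pull_eq]
  exact tieE_qu _ (pullZ_con t t' ht ht' p q lam) hQ

theorem rep_pull (hHS : Stmt_HS7) {P : HodgeMeasure} {Λ : Set ℚ} {G : P2} {t t' : Fam}
    {W : ℕ → K} (ht : t.Good) (ht' : t'.Good) (p q : ℕ) (lam : ℂ)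
    (h : RE7 P Λ hsrc G W 1 0 none) : ∃ C₀ : ℕ, ∀ N : ℕ → ℕ,
      (∀ m, 1 ≤ m → C₀ * m ≤ N m) → Rep P Λ fun E _ Q m =>
        ∑ k ∈ Finset.Icc 1 (N m), W k * vP P t t' p q lam G Q k m := by
  haveI := t.fin
  haveI := t'.fin
  obtain ⟨α, ts, C₀, h1, h2⟩ := re7E h (pullZ_con t t' ht ht' p q lam)
  refine ⟨C₀, fun N hN => ⟨α, ts, h1, ?_⟩⟩
  intro E _ Q hQ m hm
  have h3 := h2 E ((E ⊕ t.σ) ⊕ t'.σ) (Equiv.sumAssoc E t.σ t'.σ).symm Q hQ m (N m) hm (hN m hm)
  rw [← pull_eq] at h3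
  simp only [mainC, zero_add] at h3
  rw [← h3]
  refine Finset.sum_congr rfl fun k hk => ?_
  have hk1 := (Finset.mem_Icc.1 hk).1
  rw [hHS P G _ _ (pull_qu t t' ht ht' p q lam hQ) k _ m hk1 (Nat.le_add_left 1 _), zero_mul,
    Nat.zero_div, zero_add]
  rfl

/-! ### Sums over the ray -/

theorem diag (p q M : ℕ) (hp : 1 ≤ p) (hq : 1 ≤ q) (hc : p.Coprime q) (f : ℕ → ℕ → K) :
    ∑ k ∈ Finset.Icc 1 M, ∑ l ∈ Finset.Icc 1 M, (if q * k = p * l then f k l else 0) =
      ∑ j ∈ Finset.Icc 1 (min (M / p) (M / q)), f (p * j) (q * j) := by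
  rw [← Finset.sum_product', ← Finset.sum_filter]
  symm
  refine Finset.sum_bij (fun j _ => (p * j, q * j)) ?_ ?_ ?_ ?_
  · intro j hj
    rw [Finset.mem_Icc] at hj
    have h1 : j * p ≤ M := (Nat.le_div_iff_mul_le hp).1 (le_trans hj.2 (min_le_left _ _))
    have h2 : j * q ≤ M := (Nat.le_div_iff_mul_le hq).1 (le_trans hj.2 (min_le_right _ _))
    rw [Finset.mem_filter, Finset.mem_product, Finset.mem_Icc, Finset.mem_Icc]
    have h3 : p * j ≤ M := by
      rw [mul_comm]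
      exact h1
    have h4 : q * j ≤ M := by
      rw [mul_comm]
      exact h2
    refine ⟨⟨⟨Nat.mul_pos hp hj.1, h3⟩, ⟨Nat.mul_pos hq hj.1, h4⟩⟩, ?_⟩
    ring
  · intro a _ b _ h
    simp only [Prod.mk.injEq] at h
    exact Nat.eq_of_mul_eq_mul_left hp h.1
  · rintro ⟨k, l⟩ h
    rw [Finset.mem_filter, Finset.mem_product, Finset.mem_Icc, Finset.mem_Icc] at h
    obtain ⟨⟨⟨h1, h2⟩, h3, h4⟩, h5⟩ := h
    have h5' : q * k = p * l := h5
    have h6 : p ∣ k := by
      have : p ∣ q * k := ⟨l, h5'⟩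
      exact hc.dvd_of_dvd_mul_left this
    obtain ⟨j, rfl⟩ := h6
    have h7 : l = q * j := by
      have : p * l = p * (q * j) := by
        rw [← h5']
        ring
      exact Nat.eq_of_mul_eq_mul_left hp this
    subst h7
    have hj : 1 ≤ j := by
      rcases Nat.eq_zero_or_pos j with h | h
      · subst h
        simp at h1
      · exact h
    refine ⟨j, ?_, rfl⟩
    rw [Finset.mem_Icc]
    refine ⟨hj, le_min ?_ ?_⟩
    · rw [Nat.le_div_iff_mul_le hp, mul_comm]
      exact h2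
    · rw [Nat.le_div_iff_mul_le hq, mul_comm]
      exact h4
  · intro j _
    rfl

/-! ### Cones -/

/-- the sum over a box -/
noncomputable def coneB (W κ : ℕ → K) (p q A B p' q' m M : ℕ) : K :=
  ∑ k ∈ Finset.range M, ∑ l ∈ Finset.range M,
    if q * k < p * l ∧ p' * l < q' * k ∧ A * k + B * l = m then W k * κ l else 0

theorem coneW_eq (hSB : PC.Stmt_SB) (W κ : ℕ → K) (p q A B p' q' m M : ℕ) (h1 : q * p' < q' * p)
    (h2 : 1 ≤ p * A + q * B) (h3 : 1 ≤ p' * A + q' * B) (h4 : (p + p') * m < M)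
    (h5 : (q + q') * m < M) : coneW W κ p q A B p' q' m = coneB W κ p q A B p' q' m M := by
  unfold coneW coneB
  have e1 : Finset.range ((p + p') * m + 1) ⊆ Finset.range M :=
    Finset.range_subset_range.2 h4
  have e2 : Finset.range ((q + q') * m + 1) ⊆ Finset.range M :=
    Finset.range_subset_range.2 h5
  rw [← Finset.sum_subset e1]
  · refine Finset.sum_congr rfl fun k _ => ?_
    refine Finset.sum_subset e2 fun l _ hl => ?_
    rw [if_neg]
    rintro ⟨h6, h7, h8⟩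
    have := (hSB p q A B p' q' m k l h1 h2 h3 h6 h7 h8).2
    rw [Finset.mem_range] at hl
    omega
  · intro k _ hk
    refine Finset.sum_eq_zero fun l _ => ?_
    rw [if_neg]
    rintro ⟨h6, h7, h8⟩
    have := (hSB p q A B p' q' m k l h1 h2 h3 h6 h7 h8).1
    rw [Finset.mem_range] at hk
    omega

theorem coneW_swap (W κ : ℕ → K) (p q A B p' q' m : ℕ) :
    coneW W κ p q A B p' q' m = coneW κ W q' p' B A q p m := by
  unfold coneW
  rw [Finset.sum_comm, add_comm q q', add_comm p p']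
  refine Finset.sum_congr rfl fun l _ => Finset.sum_congr rfl fun k _ => ?_
  have h : (q * k < p * l ∧ p' * l < q' * k ∧ A * k + B * l = m) ↔
      (p' * l < q' * k ∧ q * k < p * l ∧ B * l + A * k = m) := by
    rw [add_comm (B * l)]
    tauto
  by_cases h1 : q * k < p * l ∧ p' * l < q' * k ∧ A * k + B * l = m
  · rw [if_pos h1, if_pos (h.1 h1), mul_comm]
  · rw [if_neg h1, if_neg fun h2 => h1 (h.2 h2)]

theorem coneW_split (hSB : PC.Stmt_SB) (W κ : ℕ → K) (A B p' q' p'' q'' m : ℕ)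
    (h1 : p' < q') (h2 : q'' < p'') (hA : 1 ≤ A) (hB : 1 ≤ B) :
    coneW W κ p'' q'' A B p' q' m = coneW W κ 1 1 A B p' q' m +
      (∑ k ∈ Finset.Icc 1 m, if m = A * k + B * k then W k * κ k else 0) +
        coneW κ W 1 1 B A q'' p'' m := by
  have e0 : coneW κ W 1 1 B A q'' p'' m = coneW W κ p'' q'' A B 1 1 m := by
    rw [coneW_swap κ W 1 1 B A q'' p'' m]
  rw [e0]
  set M := (p'' + q'' + p' + q' + 2) * m + 1 with hM
  have hp'' : 1 ≤ p'' := by omega
  have hq' : 1 ≤ q' := by omega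
  have n1 : 1 ≤ p'' * A + q'' * B := by
    have : 1 ≤ p'' * A := Nat.mul_pos hp'' hA
    omega
  have n2 : 1 ≤ p' * A + q' * B := by
    have : 1 ≤ q' * B := Nat.mul_pos hq' hB
    omega
  have n3 : 1 ≤ 1 * A + 1 * B := by omega
  have s1 : q'' * p' < q' * p'' := by
    calc q'' * p' ≤ p'' * p' := Nat.mul_le_mul_right _ h2.le
      _ < p'' * q' := Nat.mul_lt_mul_of_pos_left h1 hp''
      _ = q' * p'' := mul_comm _ _
  have b1 : ∀ a b : ℕ, a ≤ p'' + q'' + p' + q' + 2 → a * m < M := by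
    intro a b ha
    have := Nat.mul_le_mul_right m ha
    omega
  have hdiag : (∑ k ∈ Finset.Icc 1 m, if m = A * k + B * k then W k * κ k else 0) =
      ∑ k ∈ Finset.range M, ∑ l ∈ Finset.range M,
      (if k = l ∧ 1 ≤ k ∧ A * k + B * l = m then W k * κ l else 0) := by
    have h3 : ∀ k ∈ Finset.range M, ∑ l ∈ Finset.range M,
        (if k = l ∧ 1 ≤ k ∧ A * k + B * l = m then W k * κ l else 0) =
          if 1 ≤ k ∧ A * k + B * k = m then W k * κ k else 0 := by
      intro k hk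
      rw [Finset.sum_eq_single k]
      · by_cases h : 1 ≤ k ∧ A * k + B * k = m
        · rw [if_pos ⟨rfl, h.1, h.2⟩, if_pos h]
        · rw [if_neg h, if_neg fun h' => h ⟨h'.2.1, h'.2.2⟩]
      · intro l _ hl
        rw [if_neg fun h' => hl h'.1.symm]
      · intro h
        exact absurd hk h
    rw [Finset.sum_congr rfl h3]
    have e1 : Finset.Icc 1 m ⊆ Finset.range M := by
      intro k hk
      rw [Finset.mem_Icc] at hk
      rw [Finset.mem_range]
      have : m ≤ (p'' + q'' + p' + q' + 2) * m := Nat.le_mul_of_pos_left m (by omega)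
      omega
    rw [← Finset.sum_subset e1]
    · refine Finset.sum_congr rfl fun k hk => ?_
      rw [Finset.mem_Icc] at hk
      by_cases h : m = A * k + B * k
      · rw [if_pos h, if_pos ⟨hk.1, h.symm⟩]
      · rw [if_neg h, if_neg fun h' => h h'.2.symm]
    · intro k _ hk
      rw [if_neg]
      rintro ⟨h4, h5⟩
      apply hk
      rw [Finset.mem_Icc]
      refine ⟨h4, ?_⟩
      rw [← h5, ← add_mul]
      exact Nat.le_mul_of_pos_left k (by omega)
  rw [coneW_eq hSB W κ p'' q'' A B p' q' m M s1 n1 n2 (b1 _ 0 (by omega)) (b1 _ 0 (by omega)),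
    coneW_eq hSB W κ 1 1 A B p' q' m M (by omega) n3 n2 (b1 _ 0 (by omega)) (b1 _ 0 (by omega)),
    coneW_eq hSB W κ p'' q'' A B 1 1 m M (by omega) n1 n3 (b1 _ 0 (by omega)) (b1 _ 0 (by omega)),
    hdiag]
  unfold coneB
  rw [← Finset.sum_add_distrib, ← Finset.sum_add_distrib]
  refine Finset.sum_congr rfl fun k _ => ?_
  rw [← Finset.sum_add_distrib, ← Finset.sum_add_distrib]
  refine Finset.sum_congr rfl fun l _ => ?_
  rcases lt_trichotomy k l with h | h | h
  · have g1 : 1 * k < 1 * l := by omega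
    have g2 : q'' * k < p'' * l := by
      calc q'' * k ≤ p'' * k := Nat.mul_le_mul_right _ h2.le
        _ < p'' * l := Nat.mul_lt_mul_of_pos_left h hp''
    have g3 : ¬ (1 * l < 1 * k) := by omega
    have g4 : k ≠ l := by omega
    simp only [g1, g2, g3, g4, true_and, false_and, and_false, if_false, add_zero]
  · subst h
    have g1 : ¬ (1 * k < 1 * k) := lt_irrefl _
    simp only [g1, false_and, and_false, if_false, true_and, zero_add, add_zero]
    by_cases hk : 1 ≤ k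
    · have g2 : q'' * k < p'' * k := Nat.mul_lt_mul_of_pos_right h2 hk
      have g3 : p' * k < q' * k := Nat.mul_lt_mul_of_pos_right h1 hk
      simp only [g2, g3, hk, true_and]
    · have g2 : ¬ q'' * k < p'' * k := by
        have : k = 0 := by omega
        subst this
        simp
      simp only [g2, hk, false_and, if_false]
  · have g1 : 1 * l < 1 * k := by omega
    have g2 : p' * l < q' * k := by
      calc p' * l ≤ q' * l := Nat.mul_le_mul_right _ h1.le
        _ < q' * k := Nat.mul_lt_mul_of_pos_left h hq'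
    have g3 : ¬ (1 * k < 1 * l) := by omega
    have g4 : k ≠ l := by omega
    simp only [g1, g2, g3, g4, true_and, false_and, if_false, zero_add]

end L07Aux

end Pool.Agent.Mono.BV
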