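import Pool.Agent.Work.Monodromy.Interface7W

/-!
# Linear forms on finitely generated modules over `ℂ[[t]]` (helper26)
-/

set_option autoImplicit false

namespace Pool.Agent.Mono.BG

theorem stmt_LEXA : Stmt_LEXA := by
  intro M _ _ N s ω hs hω
  -- the quotient is finitely generated
  have hfin : Module.Finite RT (M ⧸ N) := by
    classical
    refine ⟨⟨s.image (Submodule.mkQ N), ?_⟩⟩
    rw [Finset.coe_image, ← Submodule.map_span, ← Submodule.range_mkQ N, LinearMap.range_eq_map]
    apply le_antisymm
    · exact Submodule.map_mono le_top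
    · rw [← hs, Submodule.map_sup]
      have : Submodule.map N.mkQ N = ⊥ := by
        rw [← LinearMap.le_ker_iff_map]; simp
      rw [this, bot_sup_eq]
  let T := Submodule.torsion RT (M ⧸ N)
  have hfin2 : Module.Finite RT ((M ⧸ N) ⧸ T) := inferInstance
  have htf : Module.IsTorsionFree RT ((M ⧸ N) ⧸ T) := inferInstance
  have hfree : Module.Free RT ((M ⧸ N) ⧸ T) := inferInstance
  have h1 : (T.mkQ (N.mkQ ω)) ≠ 0 := by
    intro h
    rw [Submodule.mkQ_apply, Submodule.Quotient.mk_eq_zero, Submodule.mem_torsion_iff] at h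
    obtain ⟨r, hr⟩ := h
    have h2 : (r : RT) • ω ∈ N := by
      rw [← Submodule.Quotient.mk_eq_zero, ← Submodule.mkQ_apply, map_smul]
      exact hr
    exact hω r (nonZeroDivisors.coe_ne_zero r) h2
  let b := Module.Free.chooseBasis RT ((M ⧸ N) ⧸ T)
  have h2 : ∃ i, b.repr (T.mkQ (N.mkQ ω)) i ≠ 0 := by
    by_contra hcon
    push Not at hcon
    apply h1
    apply b.repr.injective
    rw [map_zero]
    exact Finsupp.ext fun i => hcon i
  obtain ⟨i, hi⟩ := h2
  refine ⟨(b.coord i).comp (T.mkQ.comp N.mkQ), ?_, ?_⟩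
  · intro x hx
    have : N.mkQ x = 0 := by simpa using hx
    simp only [LinearMap.comp_apply, this, map_zero]
  · simpa [Module.Basis.coord_apply] using hi

end Pool.Agent.Mono.BG
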