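import Pool.Agent.Work.Monodromy7.LEXN

/-!
# The cokernel of `nabT` is finitely generated (helper26)
-/

set_option autoImplicit false

namespace Pool.Agent.Mono.BG.LEX7Aux

open Polynomial

theorem cop_lin (c : RT) (β : Polynomial RT) (h : IsUnit (β.eval c)) :
    IsCoprime (X - C c) β := by
  obtain ⟨u, hu⟩ := h
  obtain ⟨γ, hγ⟩ := X_sub_C_dvd_sub_C_eval (a := c) (p := β)
  refine ⟨-(C (↑u⁻¹ : RT) * γ), C (↑u⁻¹ : RT), ?_⟩
  have h1 : C (↑u⁻¹ : RT) * C (eval c β) = 1 := by
    rw [← C_mul, ← hu, Units.inv_mul, C_1]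
  linear_combination C (↑u⁻¹ : RT) * hγ + h1

theorem unit_C (z : ℂ) (hz : z ≠ 0) : IsUnit (PowerSeries.C z : RT) :=
  (IsUnit.mk0 z hz).map PowerSeries.C

theorem unit_of (r : RT) (h : PowerSeries.constantCoeff r ≠ 0) : IsUnit r :=
  PowerSeries.isUnit_iff_constantCoeff.2 (IsUnit.mk0 _ h)

theorem dP_eval_ne (S : Finset ℂ) (P P' : ℂ) (hP : P ∈ S) (h : P ≠ P') :
    (dP S P').eval (PowerSeries.C P) = 0 := by
  unfold dP
  rw [eval_prod]
  exact Finset.prod_eq_zero (Finset.mem_erase.2 ⟨h, hP⟩) (by simp)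

theorem dP_eval (S : Finset ℂ) (P : ℂ) :
    (dP S P).eval (PowerSeries.C P) = PowerSeries.C (∏ P' ∈ S.erase P, (P - P')) := by
  unfold dP
  rw [eval_prod, map_prod]
  exact Finset.prod_congr rfl fun P' _ => by simp

theorem dP_eval_unit (S : Finset ℂ) (P : ℂ) : IsUnit ((dP S P).eval (PowerSeries.C P)) := by
  rw [dP_eval]
  apply unit_C
  rw [Finset.prod_ne_zero_iff]
  intro P' hP'
  exact sub_ne_zero.2 (Finset.ne_of_mem_erase hP').symm

theorem dS_eval (S : Finset ℂ) (P : ℂ) (hP : P ∈ S) : (dS S).eval (PowerSeries.C P) = 0 := by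
  rw [← dS_eq S P hP]; simp

theorem dS_der_eval (S : Finset ℂ) (P : ℂ) (hP : P ∈ S) :
    (derivative (dS S)).eval (PowerSeries.C P) = (dP S P).eval (PowerSeries.C P) := by
  rw [← dS_eq S P hP]; simp

theorem dS_eval_zero (S : Finset ℂ) (h0 : (0 : ℂ) ∉ S) : IsUnit ((dS S).eval 0) := by
  have : (dS S).eval 0 = PowerSeries.C (∏ P ∈ S, (-P)) := by
    unfold dS
    rw [eval_prod, map_prod]
    exact Finset.prod_congr rfl fun P' _ => by simp
  rw [this]
  apply unit_C
  rw [Finset.prod_ne_zero_iff]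
  intro P hP hz
  exact h0 (by rwa [neg_eq_zero.1 hz] at hP)

theorem al_eval (S : Finset ℂ) (a₀ : RT) (a : ℂ → RT) (P : ℂ) (hP : P ∈ S) :
    (al S a₀ a).eval (PowerSeries.C P) =
      PowerSeries.C P * (a P * (dP S P).eval (PowerSeries.C P)) := by
  unfold al
  rw [eval_add, eval_mul, dS_eval S P hP, mul_zero, zero_add, eval_mul, eval_X, eval_finsetSum,
    Finset.sum_eq_single P]
  · simp
  · intro P' _ hne
    rw [eval_mul, dP_eval_ne S P P' hP hne.symm, mul_zero]
  · intro h; exact absurd hP h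

/-- numerator of `nabT` of `1 / den^m` -/
noncomputable def bet (S : Finset ℂ) (a₀ : RT) (a : ℂ → RT) (m : ℕ) : Polynomial RT :=
  al S a₀ a - ((m : Polynomial RT) * dS S + (m : Polynomial RT) * X * derivative (dS S))

theorem cop (S : Finset ℂ) (h0 : (0 : ℂ) ∉ S) (a₀ : RT) (a : ℂ → RT) (m : ℕ)
    (hm0 : PowerSeries.constantCoeff a₀ ≠ m) (hm : ∀ P ∈ S, PowerSeries.constantCoeff (a P) ≠ m) :
    IsCoprime (denT S) (bet S a₀ a m) := by
  rw [den_eq]
  apply IsCoprime.mul_left
  · have h1 : (X : Polynomial RT) = X - C 0 := by simp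
    rw [h1]
    apply cop_lin
    have h2 : (bet S a₀ a m).eval 0 = (a₀ - m) * (dS S).eval 0 := by
      unfold bet al
      simp
      ring
    rw [h2]
    apply IsUnit.mul _ (dS_eval_zero S h0)
    apply unit_of
    rw [map_sub, map_natCast]
    exact sub_ne_zero.2 hm0
  · unfold dS
    apply IsCoprime.prod_left
    intro P hP
    apply cop_lin
    have h2 : (bet S a₀ a m).eval (PowerSeries.C P) =
        PowerSeries.C P * ((a P - m) * (dP S P).eval (PowerSeries.C P)) := by
      unfold bet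
      rw [eval_sub, al_eval S a₀ a P hP]
      simp only [eval_add, eval_mul, eval_natCast, eval_X, dS_eval S P hP, dS_der_eval S P hP]
      ring
    rw [h2]
    have hP0 : P ≠ 0 := fun h => h0 (h ▸ hP)
    apply (unit_C P hP0).mul
    apply IsUnit.mul _ (dP_eval_unit S P)
    apply unit_of
    rw [map_sub, map_natCast]
    exact sub_ne_zero.2 (hm P hP)

/-- `1/den` -/
noncomputable abbrev iv (S : Finset ℂ) : MT S := IsLocalization.Away.invSelf (denT S)

theorem iv_pow (S : Finset ℂ) (m : ℕ) : io S (denT S ^ m) * iv S ^ m = 1 := by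
  rw [map_pow, ← mul_pow, io_inv, one_pow]

theorem den_pow (S : Finset ℂ) (m : ℕ) : denT S ^ m = X ^ m * dS S ^ m := by
  rw [den_eq, mul_pow]

/-- `nabT` of `p / den^m` -/
theorem nab_frac (S : Finset ℂ) (a₀ : RT) (a : ℂ → RT) (p : Polynomial RT) (m : ℕ) :
    nabT S a₀ a (io S p * iv S ^ m) * io S (denT S ^ (m + 1)) =
      io S (derivative p * denT S + p * bet S a₀ a m) := by
  rw [den_pow]
  apply nab
  rw [← den_pow, mul_assoc, mul_comm (iv S ^ m), iv_pow, mul_one]

/-- lowering the order of the poles -/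
theorem step1 (S : Finset ℂ) (a₀ : RT) (a : ℂ → RT) (m₀ : ℕ)
    (hc : ∀ m, m₀ ≤ m → IsCoprime (denT S) (bet S a₀ a m)) (k : ℕ) :
    ∀ (g : MT S) (q : Polynomial RT), g * io S (denT S ^ (m₀ + k)) = io S q →
      ∃ (g₂ : MT S) (q₂ : Polynomial RT), g - g₂ ∈ LinearMap.range (nabT S a₀ a) ∧
        g₂ * io S (denT S ^ m₀) = io S q₂ := by
  induction k with
  | zero =>
    intro g q h
    exact ⟨g, q, by simp, h⟩
  | succ k ih =>
    intro g q h
    obtain ⟨u, v, huv⟩ := hc (m₀ + k) (by omega)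
    -- `q = den (q u) + bet (q v)`
    set g₁ : MT S := io S (q * v) * iv S ^ (m₀ + k)
    have h1 := nab_frac S a₀ a (q * v) (m₀ + k)
    change nabT S a₀ a g₁ * _ = _ at h1
    have h2 : (g - nabT S a₀ a g₁) * io S (denT S ^ (m₀ + k)) =
        io S (q * u - derivative (q * v)) := by
      have h3 : (g - nabT S a₀ a g₁) * io S (denT S ^ (m₀ + k + 1)) =
          io S (denT S * (q * u - derivative (q * v))) := by
        rw [sub_mul, h1]
        rw [← add_assoc] at h
        rw [h, ← map_sub]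
        congr 1
        linear_combination (-q) * huv
      rw [pow_succ, map_mul (io S) (denT S ^ (m₀ + k)), map_mul (io S) (denT S), ← mul_assoc,
        mul_comm (io S (denT S))] at h3
      have h4 := congrArg (fun x => x * iv S) h3
      simpa only [mul_assoc, io_inv, mul_one] using h4
    obtain ⟨g₂, q₂, h3, h4⟩ := ih _ _ h2
    refine ⟨g₂, q₂, ?_, h4⟩
    have : g - g₂ = (g - nabT S a₀ a g₁ - g₂) + nabT S a₀ a g₁ := by ring
    rw [this]
    exact Submodule.add_mem _ h3 ⟨g₁, rfl⟩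

theorem al_natDegree (S : Finset ℂ) (a₀ : RT) (a : ℂ → RT) :
    (al S a₀ a).natDegree ≤ S.card ∧ (al S a₀ a).coeff S.card = a₀ + ∑ P ∈ S, a P := by
  have h1 : ∀ P ∈ S, (X * (C (a P) * dP S P)).natDegree ≤ S.card ∧
      (X * (C (a P) * dP S P)).coeff S.card = a P := by
    intro P hP
    have h2 : (dP S P).Monic := monic_prod_of_monic _ _ fun P _ => monic_X_sub_C _
    have h3 : (dP S P).natDegree = S.card - 1 := by
      unfold dP
      rw [natDegree_prod_of_monic _ _ fun P _ => monic_X_sub_C _]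
      simp [Finset.card_erase_of_mem hP]
    have h4 : 1 ≤ S.card := Finset.card_pos.2 ⟨P, hP⟩
    have h5 : (X * (C (a P) * dP S P) : Polynomial RT) = C (a P) * (X * dP S P) := by ring
    have h6 : (X * dP S P).Monic := monic_X.mul h2
    have h7 : (X * dP S P).natDegree = S.card := by
      rw [monic_X.natDegree_mul h2, natDegree_X, h3]; omega
    rw [h5]
    constructor
    · exact (natDegree_C_mul_le _ _).trans h7.le
    · rw [coeff_C_mul, ← h7, h6.coeff_natDegree, mul_one]
  have h2 : al S a₀ a = C a₀ * dS S + ∑ P ∈ S, X * (C (a P) * dP S P) := by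
    unfold al; rw [Finset.mul_sum]
  rw [h2]
  constructor
  · apply natDegree_add_le_of_degree_le
    · exact (natDegree_C_mul_le _ _).trans (dS_natDegree S).le
    · exact natDegree_sum_le_of_forall_le _ _ fun P hP => (h1 P hP).1
  · rw [coeff_add, coeff_C_mul, finsetSum_coeff, Finset.sum_congr rfl fun P hP => (h1 P hP).2]
    congr 1
    have := (dS_monic S).coeff_natDegree
    rw [dS_natDegree] at this
    rw [this, mul_one]

theorem den_natDegree (S : Finset ℂ) : (denT S).natDegree = S.card + 1 := by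
  rw [den_eq, monic_X.natDegree_mul (dS_monic S), natDegree_X, dS_natDegree, add_comm]

theorem bet_eq (S : Finset ℂ) (a₀ : RT) (a : ℂ → RT) (m : ℕ) :
    bet S a₀ a m = al S a₀ a - (m : Polynomial RT) * derivative (denT S) := by
  unfold bet
  rw [den_eq, derivative_mul, derivative_X]; ring

theorem bet_natDegree (S : Finset ℂ) (a₀ : RT) (a : ℂ → RT) (m : ℕ) :
    (bet S a₀ a m).natDegree ≤ S.card ∧ (bet S a₀ a m).coeff S.card =
      a₀ + ∑ P ∈ S, a P - (m * (S.card + 1) : ℕ) := by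
  rw [bet_eq]
  obtain ⟨h1, h2⟩ := al_natDegree S a₀ a
  have h3 : (derivative (denT S)).natDegree ≤ S.card := by
    have := natDegree_derivative_le (denT S)
    rwa [den_natDegree] at this
  constructor
  · refine (natDegree_sub_le _ _).trans (max_le h1 ?_)
    rw [← map_natCast C m]
    exact (natDegree_C_mul_le _ _).trans h3
  · rw [coeff_sub, h2, ← map_natCast C m, coeff_C_mul, coeff_derivative]
    have := (den_monic S).coeff_natDegree
    rw [den_natDegree] at this
    rw [this]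
    push_cast
    ring

/-- numerator of `nabT (Y^k / den^m)` -/
noncomputable def rho (S : Finset ℂ) (a₀ : RT) (a : ℂ → RT) (m k : ℕ) : Polynomial RT :=
  derivative (X ^ k) * denT S + X ^ k * bet S a₀ a m

theorem rho_deg (S : Finset ℂ) (a₀ : RT) (a : ℂ → RT) (m k : ℕ) :
    (rho S a₀ a m k).natDegree ≤ k + S.card ∧ (rho S a₀ a m k).coeff (k + S.card) =
      k + (a₀ + ∑ P ∈ S, a P) - (m * (S.card + 1) : ℕ) := by
  obtain ⟨h1, h2⟩ := bet_natDegree S a₀ a m
  unfold rho
  have h3 : (X ^ k * bet S a₀ a m).natDegree ≤ k + S.card := by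
    refine natDegree_mul_le.trans ?_
    rw [natDegree_X_pow]; omega
  have h4 : (X ^ k * bet S a₀ a m).coeff (k + S.card) =
      a₀ + ∑ P ∈ S, a P - (m * (S.card + 1) : ℕ) := by
    rw [add_comm k, coeff_X_pow_mul, h2]
  have h5 : (derivative (X ^ k) * denT S).natDegree ≤ k + S.card ∧
      (derivative (X ^ k) * denT S).coeff (k + S.card) = (k : RT) := by
    rw [derivative_X_pow]
    cases k with
    | zero => simp
    | succ k =>
      have e1 : k + 1 - 1 = k := rfl
      rw [e1, mul_assoc]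
      constructor
      · refine (natDegree_C_mul_le _ _).trans (natDegree_mul_le.trans ?_)
        rw [natDegree_X_pow, den_natDegree]; omega
      · have e2 : k + 1 + S.card = S.card + 1 + k := by omega
        rw [coeff_C_mul, e2, coeff_X_pow_mul]
        have := (den_monic S).coeff_natDegree
        rw [den_natDegree] at this
        rw [this, mul_one]
  constructor
  · exact natDegree_add_le_of_degree_le h5.1 h3
  · rw [coeff_add, h4, h5.2]; ring

/-- lowering the degree -/
theorem step2 (S : Finset ℂ) (a₀ : RT) (a : ℂ → RT) (m N : ℕ) (hN : S.card ≤ N)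
    (hu : ∀ k, N ≤ k + S.card →
      IsUnit ((k : RT) + (a₀ + ∑ P ∈ S, a P) - (m * (S.card + 1) : ℕ))) (e : ℕ) :
    ∀ (g : MT S) (q : Polynomial RT), (∀ j, N + e ≤ j → q.coeff j = 0) →
      g * io S (denT S ^ (m + 1)) = io S q →
      ∃ (g₂ : MT S) (q₂ : Polynomial RT), g - g₂ ∈ LinearMap.range (nabT S a₀ a) ∧
        (∀ j, N ≤ j → q₂.coeff j = 0) ∧ g₂ * io S (denT S ^ (m + 1)) = io S q₂ := by
  induction e with
  | zero =>
    intro g q hq h
    exact ⟨g, q, by simp, hq, h⟩
  | succ e ih =>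
    intro g q hq h
    set k := N + e - S.card with hk
    have hk' : k + S.card = N + e := by omega
    obtain ⟨u, hu⟩ := hu k (by omega)
    obtain ⟨r1, r2⟩ := rho_deg S a₀ a m k
    rw [← hu, hk'] at r2
    rw [hk'] at r1
    set c : RT := q.coeff (N + e) * (↑u⁻¹ : RT)
    set g₁ : MT S := io S (X ^ k) * iv S ^ m
    have h1 := nab_frac S a₀ a (X ^ k) m
    change nabT S a₀ a g₁ * _ = io S (rho S a₀ a m k) at h1
    have h2 : (g - nabT S a₀ a (c • g₁)) * io S (denT S ^ (m + 1)) =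
        io S (q - C c * rho S a₀ a m k) := by
      rw [map_smul, sub_mul, h, smul_mul_assoc, h1, map_sub, map_mul, Algebra.smul_def, algMap_eq]
    obtain ⟨g₂, q₂, h3, h4, h5⟩ := ih _ _ (fun j hj => by
      rw [coeff_sub, coeff_C_mul]
      rcases Nat.eq_or_lt_of_le hj with h6 | h6
      · rw [← h6, r2]
        have : c * (u : RT) = q.coeff (N + e) := by
          change q.coeff (N + e) * (↑u⁻¹ : RT) * (u : RT) = _
          rw [mul_assoc, Units.inv_mul, mul_one]
        rw [this, sub_self]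
      · rw [hq j (by omega), coeff_eq_zero_of_natDegree_lt (by omega), mul_zero, sub_zero]) h2
    refine ⟨g₂, q₂, ?_, h4, h5⟩
    have : g - g₂ = (g - nabT S a₀ a (c • g₁) - g₂) + nabT S a₀ a (c • g₁) := by ring
    rw [this]
    exact Submodule.add_mem _ h3 ⟨c • g₁, rfl⟩

end LEX7Aux

open LEX7Aux Polynomial in
theorem stmt_LEXB : Stmt_LEXB := by
  intro S a₀ a h0
  classical
  -- a bound for the exceptional integers
  obtain ⟨m₀, hm₀⟩ : ∃ m₀ : ℕ, ‖PowerSeries.constantCoeff a₀‖ < m₀ ∧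
      ∀ P ∈ S, ‖PowerSeries.constantCoeff (a P)‖ < m₀ := by
    obtain ⟨m₁, hm₁⟩ := exists_nat_gt (‖PowerSeries.constantCoeff a₀‖ +
      ∑ P ∈ S, ‖PowerSeries.constantCoeff (a P)‖)
    refine ⟨m₁, ?_, ?_⟩
    · have : 0 ≤ ∑ P ∈ S, ‖PowerSeries.constantCoeff (a P)‖ :=
        Finset.sum_nonneg fun _ _ => norm_nonneg _
      linarith
    · intro P hP
      have h1 := Finset.single_le_sum (f := fun P => ‖PowerSeries.constantCoeff (a P)‖)
        (fun _ _ => norm_nonneg _) hP
      have h2 : 0 ≤ ‖PowerSeries.constantCoeff a₀‖ := norm_nonneg _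
      linarith
  have hc : ∀ m, m₀ ≤ m → IsCoprime (denT S) (bet S a₀ a m) := by
    intro m hm
    have hmm : (m₀ : ℝ) ≤ m := by exact_mod_cast hm
    apply cop S h0
    · intro h
      have := hm₀.1
      rw [h, Complex.norm_natCast] at this
      linarith
    · intro P hP h
      have := hm₀.2 P hP
      rw [h, Complex.norm_natCast] at this
      linarith
  obtain ⟨N, hN1, hN2⟩ : ∃ N : ℕ, S.card ≤ N ∧ ∀ k, N ≤ k + S.card →
      IsUnit ((k : RT) + (a₀ + ∑ P ∈ S, a P) - (m₀ * (S.card + 1) : ℕ)) := by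
    obtain ⟨N₁, hN₁⟩ := exists_nat_gt (‖PowerSeries.constantCoeff (a₀ + ∑ P ∈ S, a P)‖ +
      (m₀ * (S.card + 1) : ℕ))
    refine ⟨N₁ + S.card, by omega, ?_⟩
    intro k hk
    have hk' : (N₁ : ℝ) ≤ k := by exact_mod_cast (by omega : N₁ ≤ k)
    apply unit_of
    intro h
    rw [map_sub, map_add, map_natCast, map_natCast] at h
    have h1 : PowerSeries.constantCoeff (a₀ + ∑ P ∈ S, a P) =
        ((m₀ * (S.card + 1) : ℕ) : ℂ) - (k : ℂ) := by linear_combination h
    have h2 : ‖(k : ℂ)‖ ≤ ‖PowerSeries.constantCoeff (a₀ + ∑ P ∈ S, a P)‖ +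
        ‖((m₀ * (S.card + 1) : ℕ) : ℂ)‖ := by
      have h3 : (k : ℂ) = ((m₀ * (S.card + 1) : ℕ) : ℂ) -
        PowerSeries.constantCoeff (a₀ + ∑ P ∈ S, a P) := by rw [h1]; ring
      rw [add_comm]
      calc ‖(k : ℂ)‖ = _ := by rw [h3]
        _ ≤ _ := norm_sub_le _ _
    rw [Complex.norm_natCast, Complex.norm_natCast] at h2
    linarith
  refine ⟨(Finset.range N).image fun j => io S (X ^ j) * iv S ^ (m₀ + 1), ?_⟩
  rw [eq_top_iff]
  intro g _
  obtain ⟨⟨q, y⟩, hq⟩ := IsLocalization.surj (Submonoid.powers (denT S)) g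
  obtain ⟨y, n, hy⟩ := y
  simp only at hq hy
  subst hy
  -- `g den^n = q`
  have h1 : g * io S (denT S ^ (m₀ + n)) = io S (q * denT S ^ m₀) := by
    rw [add_comm, pow_add, map_mul, ← mul_assoc, map_mul]
    congr 1
  obtain ⟨g₁, q₁, h2, h3⟩ := step1 S a₀ a m₀ hc n g _ h1
  have h4 : g₁ * io S (denT S ^ (m₀ + 1)) = io S (q₁ * denT S) := by
    rw [pow_succ, map_mul, ← mul_assoc, h3, map_mul]
  obtain ⟨g₂, q₂, h5, h6, h7⟩ := step2 S a₀ a m₀ N hN1 hN2 ((q₁ * denT S).natDegree + 1) g₁ _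
    (fun j hj => coeff_eq_zero_of_natDegree_lt (by omega)) h4
  have h8 : g = ((g - g₁) + (g₁ - g₂)) + g₂ := by ring
  rw [h8]
  apply Submodule.add_mem_sup (Submodule.add_mem _ h2 h5)
  have h9 : g₂ = io S q₂ * iv S ^ (m₀ + 1) := by
    have := congrArg (fun x => x * iv S ^ (m₀ + 1)) h7
    simpa only [mul_assoc, iv_pow, mul_one] using this
  have h10 : q₂ = ∑ j ∈ Finset.range N, C (q₂.coeff j) * X ^ j := by
    refine Polynomial.ext fun i => ?_
    rw [finsetSum_coeff]
    simp only [coeff_C_mul_X_pow]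
    rw [Finset.sum_ite_eq]
    split_ifs with h
    · rfl
    · exact h6 i (by simpa using h)
  rw [h9, h10, map_sum, Finset.sum_mul]
  apply Submodule.sum_mem
  intro j hj
  rw [map_mul, mul_assoc, ← algMap_eq, ← Algebra.smul_def]
  apply Submodule.smul_mem
  apply Submodule.subset_span
  rw [Finset.coe_image]
  exact ⟨j, by simpa using hj, rfl⟩

end Pool.Agent.Mono.BG
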