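import Pool.Agent.Work.Monodromy.Interface7W
import Pool.Agent.Work.Monodromy.Frac

/-!
# The twisted derivation `nabT` on fractions (helper26)
-/

set_option autoImplicit false

namespace Pool.Agent.Mono.BG.LEX7Aux

open Polynomial

/-- `∏ (Y - P)` -/
noncomputable def dS (S : Finset ℂ) : Polynomial RT := ∏ P ∈ S, (X - C (PowerSeries.C P))

/-- `∏_{P' ≠ P} (Y - P')` -/
noncomputable def dP (S : Finset ℂ) (P : ℂ) : Polynomial RT :=
  ∏ P' ∈ S.erase P, (X - C (PowerSeries.C P'))

/-- numerator of `a₀ / Y + ∑ a_P / (Y - P)` -/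
noncomputable def al (S : Finset ℂ) (a₀ : RT) (a : ℂ → RT) : Polynomial RT :=
  C a₀ * dS S + X * ∑ P ∈ S, C (a P) * dP S P

/-- the inclusion of the polynomials -/
noncomputable abbrev io (S : Finset ℂ) : Polynomial RT →+* MT S := algebraMap (Polynomial RT) (MT S)

theorem den_eq (S : Finset ℂ) : denT S = X * dS S := rfl

theorem dS_eq (S : Finset ℂ) (P : ℂ) (hP : P ∈ S) :
    (X - C (PowerSeries.C P)) * dP S P = dS S := by
  unfold dP dS
  exact Finset.mul_prod_erase S (fun P => (X - C (PowerSeries.C P) : Polynomial RT)) hP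

theorem dS_monic (S : Finset ℂ) : (dS S).Monic :=
  monic_prod_of_monic _ _ fun P _ => monic_X_sub_C _

theorem den_monic (S : Finset ℂ) : (denT S).Monic := by
  rw [den_eq]; exact monic_X.mul (dS_monic S)

theorem dS_natDegree (S : Finset ℂ) : (dS S).natDegree = S.card := by
  unfold dS
  rw [natDegree_prod_of_monic _ _ fun P _ => monic_X_sub_C _]
  simp

theorem io_inj (S : Finset ℂ) : Function.Injective (io S) :=
  IsLocalization.injective (MT S) (M := Submonoid.powers (denT S))
    (powers_le_nonZeroDivisors_of_noZeroDivisors (den_monic S).ne_zero)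

theorem io_inv (S : Finset ℂ) : io S (denT S) * IsLocalization.Away.invSelf (denT S) = 1 :=
  IsLocalization.Away.mul_invSelf (denT S)

theorem algMap_eq (S : Finset ℂ) (r : RT) : algebraMap RT (MT S) r = io S (C r) := by
  rw [IsScalarTower.algebraMap_apply RT (Polynomial RT) (MT S)]; rfl

theorem beta (S : Finset ℂ) (a₀ : RT) (a : ℂ → RT) :
    (algebraMap RT (MT S) a₀ * YiT S + ∑ P ∈ S, algebraMap RT (MT S) (a P) * QT S P) *
      io S (denT S) = io S (al S a₀ a) := by
  rw [add_mul, Finset.sum_mul]
  have h1 : YiT S * io S (denT S) = io S (dS S) := by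
    unfold YiT
    rw [mul_assoc, mul_comm _ (io S (denT S)), io_inv, mul_one]; rfl
  have h2 : ∀ P, QT S P * io S (denT S) = io S (X * dP S P) := by
    intro P
    unfold QT
    rw [mul_assoc, mul_comm _ (io S (denT S)), io_inv, mul_one]; rfl
  have h3 : ∀ P ∈ S, algebraMap RT (MT S) (a P) * QT S P * io S (denT S) =
      io S (X * (C (a P) * dP S P)) := by
    intro P _
    rw [mul_assoc, h2, algMap_eq, ← map_mul]
    congr 1; ring
  rw [Finset.sum_congr rfl h3, mul_assoc, h1, algMap_eq, ← map_mul, ← map_sum, ← map_add]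
  congr 1
  unfold al
  rw [Finset.mul_sum]

theorem DT_io (S : Finset ℂ) (q : Polynomial RT) : DT S (io S q) = io S (derivative q) :=
  locDer_algebraMap _ _ _

theorem der_pow (S : Finset ℂ) (i k : ℕ) :
    derivative (X ^ i * dS S ^ k) * denT S =
      X ^ i * dS S ^ k * ((i : Polynomial RT) * dS S + (k : Polynomial RT) * X *
        derivative (dS S)) := by
  rw [den_eq, derivative_mul, derivative_X_pow, derivative_pow]
  cases i with
  | zero =>
    cases k with
    | zero => simp
    | succ k => simp; ring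
  | succ i =>
    cases k with
    | zero => simp; ring
    | succ k => simp; ring

/-- `nabT` of a fraction -/
theorem nab (S : Finset ℂ) (a₀ : RT) (a : ℂ → RT) (g : MT S) (q : Polynomial RT) (i k : ℕ)
    (h : g * io S (X ^ i * dS S ^ k) = io S q) :
    nabT S a₀ a g * io S (X ^ (i + 1) * dS S ^ (k + 1)) =
      io S (derivative q * denT S + q * (al S a₀ a - ((i : Polynomial RT) * dS S +
        (k : Polynomial RT) * X * derivative (dS S)))) := by
  have h1 : DT S g * io S (X ^ i * dS S ^ k) + g * io S (derivative (X ^ i * dS S ^ k)) =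
      io S (derivative q) := by
    rw [← DT_io, ← DT_io, ← h, Derivation.leibniz]
    simp only [smul_eq_mul]
    ring
  have h2 : X ^ (i + 1) * dS S ^ (k + 1) = X ^ i * dS S ^ k * denT S := by rw [den_eq]; ring
  have h3 : nabT S a₀ a g = DT S g + (algebraMap RT (MT S) a₀ * YiT S +
      ∑ P ∈ S, algebraMap RT (MT S) (a P) * QT S P) * g := rfl
  have h4 := beta S a₀ a
  set β := algebraMap RT (MT S) a₀ * YiT S + ∑ P ∈ S, algebraMap RT (MT S) (a P) * QT S P
  rw [h3, h2]
  have h5 : io S (derivative (X ^ i * dS S ^ k)) * io S (denT S) = io S (X ^ i * dS S ^ k) *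
      io S ((i : Polynomial RT) * dS S + (k : Polynomial RT) * X * derivative (dS S)) := by
    rw [← map_mul, ← map_mul, der_pow]
  simp only [map_mul, map_add, map_sub] at h5 ⊢ h h1 h4 ⊢
  linear_combination (io S (denT S)) * h1 + (β * io S (denT S) - (io S (i : Polynomial RT) * io S (dS S) + io S (k : Polynomial RT) * io S X * io S (derivative (dS S)))) * h + (io S q) * h4 - g * h5

end Pool.Agent.Mono.BG.LEX7Aux
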