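import Pool.Agent.Work.Monodromy.Interface7V
import Pool.Agent.Work.Monodromy5.TG5D
import Pool.Agent.Work.Monodromy6.VRE
import Pool.Agent.Work.Monodromy6.SB

/-!
# Block RE7, part A: functionals given by families (helper61)
-/

set_option autoImplicit false
set_option linter.unusedSectionVars false
set_option linter.unusedVariables false
set_option linter.style.haveILetI false

namespace Pool.Agent.Mono.BV

open MvPolynomial TS RO PC

namespace RE7Aux

open RO.TG5Aux

/-! ## Functionals -/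

abbrev Fn : Type 1 := (E : Type) → [Finite E] → Set ((E ⊕ Unit) ⊕ Unit → ℂ) → ℕ → K

/-- `F` is given by Haar parts and families with exponents in `Λ` -/
def HasT (P : HodgeMeasure) (Λ : Set ℚ) (F : Fn) : Prop :=
  ∃ (hs : List HT) (ts : List Fam2), (∀ h ∈ hs, Constructible h.H ∧ ∀ τ ∈ h.H, eval τ h.v ≠ 0) ∧
    (∀ t ∈ ts, t.Ok {0}ᶜ true ∧ ESeq Λ t.κ) ∧
    ∀ (E : Type) [Finite E] (Q : Set ((E ⊕ Unit) ⊕ Unit → ℂ)), QU Q → ∀ m : ℕ, 1 ≤ m →
      F E Q m = ((hs.map HT.ex ++ ts).map fun t => t.κ m * fcla P t Q).sum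

theorem HasT.add {P : HodgeMeasure} {Λ : Set ℚ} {F G : Fn} (hF : HasT P Λ F)
    (hG : HasT P Λ G) : HasT P Λ (fun E _ Q m => F E Q m + G E Q m) := by
  obtain ⟨hs, ts, h0, h1, h2⟩ := hF
  obtain ⟨hs', ts', g0, g1, g2⟩ := hG
  refine ⟨hs ++ hs', ts ++ ts', ?_, ?_, ?_⟩
  · intro t ht
    rcases List.mem_append.1 ht with h | h
    · exact h0 t h
    · exact g0 t h
  · intro t ht
    rcases List.mem_append.1 ht with h | h
    · exact h1 t h
    · exact g1 t h
  · intro E _ Q hQ m hm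
    change F E Q m + G E Q m = _
    rw [h2 E Q hQ m hm, g2 E Q hQ m hm]
    simp only [List.map_append, List.sum_append]
    ring

theorem HasT.zero (P : HodgeMeasure) (Λ : Set ℚ) : HasT P Λ (fun _ _ _ _ => 0) := by
  refine ⟨[], [], by simp, by simp, ?_⟩
  intro E _ Q hQ m hm
  simp

theorem HasT.single {P : HodgeMeasure} {Λ : Set ℚ} (t : Fam2) (h1 : t.Ok {0}ᶜ true)
    (h2 : ESeq Λ t.κ) : HasT P Λ (fun _ _ Q m => t.κ m * fcla P t Q) := by
  refine ⟨[], [t], by simp, ?_, ?_⟩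
  · intro s hs
    rw [List.mem_singleton] at hs
    subst hs
    exact ⟨h1, h2⟩
  · intro E _ Q hQ m hm
    simp

theorem HasT.haar {P : HodgeMeasure} {Λ : Set ℚ} (h : HT) (h1 : Constructible h.H)
    (h2 : ∀ τ ∈ h.H, eval τ h.v ≠ 0) :
    HasT P Λ (fun _ _ Q m => h.lam * xq ^ m * fcla P h.ex Q) := by
  refine ⟨[h], [], ?_, by simp, ?_⟩
  · intro s hs
    rw [List.mem_singleton] at hs
    subst hs
    exact ⟨h1, h2⟩
  · intro E _ Q hQ m hm
    simp only [List.map_cons, List.map_nil, List.append_nil, List.sum_cons, List.sum_nil, add_zero]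
    rfl

theorem HasT.congr {P : HodgeMeasure} {Λ : Set ℚ} {F G : Fn} (hF : HasT P Λ F)
    (h : ∀ (E : Type) [Finite E] (Q : Set ((E ⊕ Unit) ⊕ Unit → ℂ)), QU Q → ∀ m : ℕ, 1 ≤ m →
      G E Q m = F E Q m) : HasT P Λ G := by
  obtain ⟨hs, ts, h0, h1, h2⟩ := hF
  refine ⟨hs, ts, h0, h1, ?_⟩
  intro E _ Q hQ m hm
  rw [h E Q hQ m hm, h2 E Q hQ m hm]

theorem HasT.sum {P : HodgeMeasure} {Λ : Set ℚ} {α : Type} (s : Finset α)
    (F : α → Fn) (hF : ∀ a ∈ s, HasT P Λ (F a)) : HasT P Λ (fun E _ Q m => ∑ a ∈ s, F a E Q m) := by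
  classical
  induction s using Finset.induction_on with
  | empty => simpa using HasT.zero P Λ
  | insert a s ha ih =>
    refine ((hF a (Finset.mem_insert_self a s)).add
      (ih fun b hb => hF b (Finset.mem_insert_of_mem hb))).congr ?_
    intro E _ Q _ m _
    exact Finset.sum_insert ha

theorem HasT.lsum {P : HodgeMeasure} {Λ : Set ℚ} {α : Type*} (s : List α)
    (F : α → Fn) (hF : ∀ a ∈ s, HasT P Λ (F a)) :
    HasT P Λ (fun E _ Q m => (s.map fun a => F a E Q m).sum) := by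
  induction s with
  | nil => simpa using HasT.zero P Λ
  | cons a s ih =>
    refine ((hF a List.mem_cons_self).add
      (ih fun b hb => hF b (List.mem_cons_of_mem a hb))).congr ?_
    intro E _ Q _ m _
    simp

theorem HasT.smul {P : HodgeMeasure} {Λ : Set ℚ} {F : Fn} (hF : HasT P Λ F) (a : K) :
    HasT P Λ (fun E _ Q m => a * F E Q m) := by
  obtain ⟨hs, ts, h0, h1, h2⟩ := hF
  refine ⟨hs.map fun h => { h with lam := a * h.lam },
    ts.map fun t => { t with κ := fun m => a * t.κ m }, ?_, ?_, ?_⟩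
  · intro t ht
    obtain ⟨s, hs, rfl⟩ := List.mem_map.1 ht
    exact h0 s hs
  · intro t ht
    obtain ⟨s, hs, rfl⟩ := List.mem_map.1 ht
    exact ⟨(h1 s hs).1, stmt_Q1.2.2.1 _ _ a (h1 s hs).2⟩
  · intro E _ Q hQ m hm
    change a * F E Q m = _
    rw [h2 E Q hQ m hm]
    simp only [List.map_append, List.sum_append, List.map_map]
    rw [mul_add, ← List.sum_map_mul_left, ← List.sum_map_mul_left]
    congr 1
    · congr 1
      refine List.map_congr_left fun h _ => ?_
      change a * (h.lam * xq ^ m * fcla P h.ex Q) = a * h.lam * xq ^ m * fcla P h.ex Q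
      ring
    · congr 1
      refine List.map_congr_left fun t _ => ?_
      change a * (t.κ m * fcla P t Q) = a * t.κ m * fcla P t Q
      ring

/-! ## Classes -/

theorem pow_IP (n : ℕ) {ι : Type} {g : (ι → ℂ) → ℂ} (hg : IP g) : IP fun x => g x ^ n := by
  obtain ⟨φ, hφ⟩ := hg
  refine ⟨φ ^ n, fun x => ?_⟩
  simp only [map_pow, hφ]

theorem con_eq {ι : Type} {g g' : (ι → ℂ) → ℂ} (h : IP g) (h' : IP g') :
    Constructible {x | g x = g' x} := by
  have h1 : IP fun x => g x + (-1) * g' x := h.add ((IP.const (-1)).mul h')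
  convert con_zero h1 using 1
  ext z
  simp only [Set.mem_ofPred_eq]
  constructor
  · intro h
    rw [h]
    ring
  · intro h
    linear_combination h

theorem ev_ren {α β : Type} (f : α → β) (v : MvPolynomial α ℂ) (τ : β → ℂ) :
    eval τ (rename f v) = eval (fun s => τ (f s)) v := by
  rw [eval_rename]
  rfl

theorem ev_renp {α β : Type} (f : α → β) (v : MvPolynomial α ℂ) (p : ℕ) (τ : β → ℂ) :
    eval τ (rename f v ^ p) = eval (fun s => τ (f s)) v ^ p := by
  rw [map_pow, ev_ren]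

theorem con_fcla {E : Type} {t : Fam2} (ht : Constructible t.S)
    {Q : Set ((E ⊕ Unit) ⊕ Unit → ℂ)} (hQ : Constructible Q) :
    Constructible {z : E ⊕ t.σ → ℂ | (fun s => z (Sum.inr s)) ∈ t.S ∧
    (Sum.elim (Sum.elim (fun e => z (Sum.inl e)) fun _ => eval (fun s => z (Sum.inr s)) t.v)
      fun _ => eval (fun s => z (Sum.inr s)) t.u) ∈ Q} := by
  refine Constructible.and (Constructible.comap _ ht) (con_pre ?_ hQ)
  rintro ((e | e) | e)
  · exact IP.coord _
  · exact IP.ev t.v fun a => IP.coord _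
  · exact IP.ev t.u fun a => IP.coord _

theorem con_pull {E : Type} {t : Fam} (ht : Constructible t.S) (p q : ℕ) (lam : ℂ)
    {Q : Set ((E ⊕ Unit) ⊕ Unit → ℂ)} (hQ : Constructible Q) :
    Constructible (pull t p q lam Q) := by
  refine Constructible.and (Constructible.comap _ ht) (Constructible.and
    (con_eq (IP.ev t.u fun a => IP.coord _) ((IP.const lam).mul (pow_IP q (IP.coord _))))
    (con_pre ?_ hQ))
  rintro ((e | e) | e)
  · exact IP.coord _
  · exact pow_IP p (IP.coord _)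
  · exact IP.coord _

theorem QU_pull {E : Type} {t : Fam} (ht : t.Good) (p q : ℕ) (lam : ℂ)
    {Q : Set ((E ⊕ Unit) ⊕ Unit → ℂ)} (hQ : QU Q) : QU (pull t p q lam Q) :=
  ⟨con_pull ht.1 p q lam hQ.1, fun z hz => hQ.2 _ hz.2.2⟩

/-- the family `T` over the ray -/
noncomputable def pf (t : Fam) (p q : ℕ) (lam : ℂ) (T : Fam2) : Fam2 where
  σ := t.σ ⊕ T.σ
  fin := haveI := t.fin; haveI := T.fin; inferInstance
  S := {z | (fun s => z (Sum.inl s)) ∈ t.S ∧ (fun s => z (Sum.inr s)) ∈ T.S ∧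
    eval (fun s => z (Sum.inl s)) t.u = lam * eval (fun s => z (Sum.inr s)) T.v ^ q}
  v := rename Sum.inr T.v ^ p
  u := rename Sum.inr T.u
  κ := T.κ

theorem pf_ok {t : Fam} (ht : t.Good) (p q : ℕ) (lam : ℂ) {T : Fam2} (hT : T.Ok {0}ᶜ true) :
    (pf t p q lam T).Ok {0}ᶜ true := by
  refine ⟨?_, ?_⟩
  · exact Constructible.and (Constructible.comap _ ht.1) (Constructible.and
      (Constructible.comap _ hT.1) (con_eq (IP.ev t.u fun a => IP.coord _)
        ((IP.const lam).mul (pow_IP q (IP.ev T.v fun a => IP.coord _)))))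
  · intro τ hτ
    obtain ⟨-, h2, -⟩ := hτ
    have h3 := hT.2 _ h2
    have e1 : eval τ (pf t p q lam T).v = eval (fun s => τ (Sum.inr s)) T.v ^ p :=
      ev_renp Sum.inr T.v p τ
    have e2 : eval τ (pf t p q lam T).u = eval (fun s => τ (Sum.inr s)) T.u :=
      ev_ren Sum.inr T.u τ
    rw [e1, e2]
    exact ⟨pow_ne_zero _ h3.1, h3.2⟩

theorem fcla_pull (P : HodgeMeasure) {E : Type} [Finite E] {t : Fam} (ht : t.Good) (p q : ℕ)
    (lam : ℂ) {T : Fam2} (hT : Constructible T.S) {Q : Set ((E ⊕ Unit) ⊕ Unit → ℂ)} (hQ : QU Q) :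
    haveI := t.fin
    fcla P T (pull t p q lam Q) = fcla P (pf t p q lam T) Q := by
  haveI := t.fin
  haveI := T.fin
  have hS : Constructible (pf t p q lam T).S :=
    Constructible.and (Constructible.comap _ ht.1) (Constructible.and
      (Constructible.comap _ hT) (con_eq (IP.ev t.u fun a => IP.coord _)
        ((IP.const lam).mul (pow_IP q (IP.ev T.v fun a => IP.coord _)))))
  refine X0.val_reindex P.rat (Equiv.sumAssoc E t.σ T.σ) (con_fcla hT (con_pull ht.1 p q lam hQ.1))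
    (con_fcla hS hQ.1) ?_
  intro z
  have e1 : eval (fun s => z ((Equiv.sumAssoc E t.σ T.σ).symm (Sum.inr s))) (pf t p q lam T).v =
      eval (fun s => z (Sum.inr s)) T.v ^ p := ev_renp Sum.inr T.v p _
  have e2 : eval (fun s => z ((Equiv.sumAssoc E t.σ T.σ).symm (Sum.inr s))) (pf t p q lam T).u =
      eval (fun s => z (Sum.inr s)) T.u := ev_ren Sum.inr T.u _
  have key : (Sum.elim (Sum.elim (fun e => z (Sum.inl (Sum.inl e))) fun _ => eval (fun s =>
      z ((Equiv.sumAssoc E t.σ T.σ).symm (Sum.inr s))) (pf t p q lam T).v) fun _ =>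
        eval (fun s => z ((Equiv.sumAssoc E t.σ T.σ).symm (Sum.inr s))) (pf t p q lam T).u :
          (E ⊕ Unit) ⊕ Unit → ℂ) = Sum.elim (Sum.elim (fun e => z (Sum.inl (Sum.inl e)))
      fun _ => eval (fun s => z (Sum.inr s)) T.v ^ p) fun _ => eval (fun s => z (Sum.inr s)) T.u := by
    rw [e1, e2]
  constructor
  · rintro ⟨h1, h2, h3, h4⟩
    exact ⟨⟨h2, h1, h3⟩, (congrArg (fun f => f ∈ Q) key).mpr h4⟩
  · rintro ⟨⟨h2, h1, h3⟩, h4⟩
    exact ⟨h1, h2, h3, (congrArg (fun f => f ∈ Q) key).mp h4⟩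

/-- the Haar part `h` over the ray -/
noncomputable def ph (t : Fam) (p q : ℕ) (lam : ℂ) (h : HT) : HT where
  σ := t.σ ⊕ h.σ
  fin := haveI := t.fin; haveI := h.fin; inferInstance
  H := {z | (fun s => z (Sum.inl s)) ∈ t.S ∧ (fun s => z (Sum.inr s)) ∈ h.H ∧
    eval (fun s => z (Sum.inl s)) t.u = lam * eval (fun s => z (Sum.inr s)) h.v ^ q}
  v := rename Sum.inr h.v ^ p
  lam := h.lam

theorem ph_ok {t : Fam} (ht : t.Good) (p q : ℕ) (lam : ℂ) {h : HT} (hH : Constructible h.H)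
    (hv : ∀ τ ∈ h.H, eval τ h.v ≠ 0) : Constructible (ph t p q lam h).H ∧
      ∀ τ ∈ (ph t p q lam h).H, eval τ (ph t p q lam h).v ≠ 0 := by
  refine ⟨?_, ?_⟩
  · exact Constructible.and (Constructible.comap _ ht.1) (Constructible.and
      (Constructible.comap _ hH) (con_eq (IP.ev t.u fun a => IP.coord _)
        ((IP.const lam).mul (pow_IP q (IP.ev h.v fun a => IP.coord _)))))
  · intro τ hτ
    obtain ⟨-, h2, -⟩ := hτ
    have e1 : eval τ (ph t p q lam h).v = eval (fun s => τ (Sum.inr s)) h.v ^ p :=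
      ev_renp Sum.inr h.v p τ
    rw [e1]
    exact pow_ne_zero _ (hv _ h2)

theorem con_ex' {h : HT} (hH : Constructible h.H) : Constructible h.ex.S :=
  Constructible.and (Constructible.comap _ hH) (con_ne (IP.coord _))

theorem ex_ok {h : HT} (hH : Constructible h.H) (hv : ∀ τ ∈ h.H, eval τ h.v ≠ 0) :
    h.ex.Ok {0}ᶜ true := by
  refine ⟨con_ex' hH, ?_⟩
  intro τ hτ
  have e1 : eval τ h.ex.v = eval (fun s => τ (Sum.inl s)) h.v := ev_ren Sum.inl h.v τ
  have e2 : eval τ h.ex.u = τ (Sum.inr ()) := eval_X _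
  rw [e1, e2]
  exact ⟨hv _ hτ.1, fun _ => hτ.2⟩

theorem fcla_ph (P : HodgeMeasure) {E : Type} [Finite E] {t : Fam} (ht : t.Good) (p q : ℕ)
    (lam : ℂ) {h : HT} (hH : Constructible h.H) {Q : Set ((E ⊕ Unit) ⊕ Unit → ℂ)} (hQ : QU Q) :
    fcla P (pf t p q lam h.ex) Q = fcla P (ph t p q lam h).ex Q := by
  haveI := t.fin
  haveI := h.fin
  haveI := (pf t p q lam h.ex).fin
  haveI := (ph t p q lam h).ex.fin
  have hS : Constructible (pf t p q lam h.ex).S :=
    Constructible.and (Constructible.comap _ ht.1) (Constructible.and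
      (Constructible.comap _ (con_ex' hH)) (con_eq (IP.ev t.u fun a => IP.coord _)
        ((IP.const lam).mul (pow_IP q (IP.ev h.ex.v fun a => IP.coord _)))))
  have hS' : Constructible (ph t p q lam h).ex.S := con_ex'
    (Constructible.and (Constructible.comap _ ht.1) (Constructible.and
      (Constructible.comap _ hH) (con_eq (IP.ev t.u fun a => IP.coord _)
        ((IP.const lam).mul (pow_IP q (IP.ev h.v fun a => IP.coord _))))))
  refine X0.val_reindex P.rat (Equiv.sumCongr (Equiv.refl E) (Equiv.sumAssoc t.σ h.σ Unit).symm)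
    (con_fcla hS hQ.1) (con_fcla hS' hQ.1) ?_
  intro z
  have e1 : eval (fun s => z (Sum.inr s)) (pf t p q lam h.ex).v =
      eval (fun s => z (Sum.inr (Sum.inr (Sum.inl s)))) h.v ^ p := by
    have e3 : eval (fun s => z (Sum.inr s)) (pf t p q lam h.ex).v =
      eval (fun s => z (Sum.inr (Sum.inr s))) h.ex.v ^ p := ev_renp Sum.inr h.ex.v p _
    rw [e3]
    congr 1
    exact ev_ren Sum.inl h.v _
  have e2 : eval (fun s => z (Sum.inr s)) (pf t p q lam h.ex).u =
      z (Sum.inr (Sum.inr (Sum.inr ()))) := by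
    have e3 : eval (fun s => z (Sum.inr s)) (pf t p q lam h.ex).u =
      eval (fun s => z (Sum.inr (Sum.inr s))) h.ex.u := ev_ren Sum.inr h.ex.u _
    rw [e3]
    exact eval_X _
  have e4 : eval (fun s => z (Sum.inr (Sum.inr s))) h.ex.v =
      eval (fun s => z (Sum.inr (Sum.inr (Sum.inl s)))) h.v := ev_ren Sum.inl h.v _
  set Z : E ⊕ (ph t p q lam h).ex.σ → ℂ := fun j =>
    z ((Equiv.sumCongr (Equiv.refl E) (Equiv.sumAssoc t.σ h.σ Unit).symm).symm j) with hZ
  have f1 : eval (fun s => Z (Sum.inr s)) (ph t p q lam h).ex.v =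
      eval (fun s => z (Sum.inr (Sum.inr (Sum.inl s)))) h.v ^ p := by
    have e3 : eval (fun s => Z (Sum.inr s)) (ph t p q lam h).ex.v =
      eval (fun s => Z (Sum.inr (Sum.inl s))) (ph t p q lam h).v :=
        ev_ren Sum.inl (ph t p q lam h).v _
    rw [e3]
    exact ev_renp Sum.inr h.v p _
  have f2 : eval (fun s => Z (Sum.inr s)) (ph t p q lam h).ex.u =
      z (Sum.inr (Sum.inr (Sum.inr ()))) := eval_X _
  have key : (Sum.elim (Sum.elim (fun e => z (Sum.inl e)) fun _ => eval (fun s =>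
      z (Sum.inr s)) (pf t p q lam h.ex).v) fun _ =>
        eval (fun s => z (Sum.inr s)) (pf t p q lam h.ex).u : (E ⊕ Unit) ⊕ Unit → ℂ) =
      Sum.elim (Sum.elim (fun e => Z (Sum.inl e)) fun _ => eval (fun s =>
      Z (Sum.inr s)) (ph t p q lam h).ex.v) fun _ =>
        eval (fun s => Z (Sum.inr s)) (ph t p q lam h).ex.u := by
    rw [e1, e2, f1, f2]
    rfl
  constructor
  · rintro ⟨⟨h1, ⟨h2, h3⟩, h4⟩, h5⟩
    refine ⟨⟨⟨h1, h2, ?_⟩, h3⟩, (congrArg (fun f => f ∈ Q) key).mp h5⟩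
    exact h4.trans (congrArg (fun x => lam * x ^ q) e4)
  · rintro ⟨⟨⟨h1, h2, h4⟩, h3⟩, h5⟩
    refine ⟨⟨h1, ⟨h2, h3⟩, ?_⟩, (congrArg (fun f => f ∈ Q) key).mpr h5⟩
    exact Eq.trans h4 (congrArg (fun x => lam * x ^ q) e4.symm)

theorem HasT.pull {P : HodgeMeasure} {Λ : Set ℚ} {F : Fn} (hF : HasT P Λ F) {t : Fam}
    (ht : t.Good) (p q : ℕ) (lam : ℂ) :
    HasT P Λ (fun E _ Q m => haveI := t.fin; F (E ⊕ t.σ) (BV.pull t p q lam Q) m) := by
  obtain ⟨hs, ts, h0, h1, h2⟩ := hF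
  refine ⟨hs.map fun h => ph t p q lam h, ts.map fun T => pf t p q lam T, ?_, ?_, ?_⟩
  · intro h hh
    obtain ⟨h', hh', rfl⟩ := List.mem_map.1 hh
    exact ph_ok ht p q lam (h0 h' hh').1 (h0 h' hh').2
  · intro T hT
    obtain ⟨T', hT', rfl⟩ := List.mem_map.1 hT
    exact ⟨pf_ok ht p q lam (h1 T' hT').1, (h1 T' hT').2⟩
  · intro E _ Q hQ m hm
    haveI := t.fin
    change F (E ⊕ t.σ) (BV.pull t p q lam Q) m = _
    rw [h2 (E ⊕ t.σ) _ (QU_pull ht p q lam hQ) m hm]
    simp only [List.map_append, List.sum_append, List.map_map]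
    congr 1
    · congr 1
      refine List.map_congr_left fun h hh => ?_
      change h.ex.κ m * fcla P h.ex (BV.pull t p q lam Q) = h.ex.κ m * fcla P (ph t p q lam h).ex Q
      rw [← fcla_ph P ht p q lam (h0 h hh).1 hQ, ← fcla_pull P ht p q lam (con_ex' (h0 h hh).1) hQ]
    · congr 1
      refine List.map_congr_left fun T hT => ?_
      change T.κ m * fcla P T (BV.pull t p q lam Q) = T.κ m * fcla P (pf t p q lam T) Q
      rw [← fcla_pull P ht p q lam (h1 T hT).1.1 hQ]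

end RE7Aux

end Pool.Agent.Mono.BV
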