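import Pool.Agent.Work.Monodromy7.RE7A

/-!
# Block RE7, part B: families of the regions, sums (helper61)
-/

set_option autoImplicit false
set_option linter.unusedSectionVars false
set_option linter.unusedVariables false
set_option linter.style.haveILetI false

namespace Pool.Agent.Mono.BV

open MvPolynomial TS RO PC

namespace RE7Aux

open RO.TG5Aux

/-! ## Families -/

/-- the family `a ↦ (a, c a^A)` -/
noncomputable def fa (c : ℂ) (A : ℕ) (κ : ℕ → K) : Fam2 where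
  σ := Unit
  fin := inferInstance
  S := {τ | τ () ≠ 0}
  v := X ()
  u := C c * X () ^ A
  κ := κ

theorem ev_cx (c : ℂ) (A : ℕ) (τ : Unit → ℂ) :
    eval τ (C c * X () ^ A : MvPolynomial Unit ℂ) = c * τ () ^ A := by
  simp

theorem fa_ok (c : ℂ) (hc : c ≠ 0) (A : ℕ) (κ : ℕ → K) : (fa c A κ).Ok {0}ᶜ true := by
  have h1 : Constructible {τ : Unit → ℂ | τ () ≠ 0} := by
    simpa only [eval_X] using Constructible.ne (X () : MvPolynomial Unit ℂ)
  refine ⟨h1, ?_⟩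
  intro τ hτ
  have hτ' : τ () ≠ 0 := hτ
  have e1 : eval τ (fa c A κ).v = τ () := eval_X _
  have e2 : eval τ (fa c A κ).u = c * τ () ^ A := ev_cx c A τ
  rw [e1, e2]
  exact ⟨hτ', fun _ => mul_ne_zero hc (pow_ne_zero _ hτ')⟩

theorem fcla_fa (P : HodgeMeasure) (c : ℂ) (A : ℕ) (κ : ℕ → K) {E : Type} [Finite E]
    (Q : Set ((E ⊕ Unit) ⊕ Unit → ℂ)) : fcla P (fa c A κ) Q = c1a P c A Q := by
  unfold fcla c1a
  congr 1
  ext z
  have e1 : eval (fun s => z (Sum.inr s)) (fa c A κ).v = z (Sum.inr ()) := eval_X _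
  have e2 : eval (fun s => z (Sum.inr s)) (fa c A κ).u = c * z (Sum.inr ()) ^ A := ev_cx c A _
  have key : (Sum.elim (Sum.elim (fun e => z (Sum.inl e)) fun _ => eval (fun s =>
      z (Sum.inr s)) (fa c A κ).v) fun _ =>
        eval (fun s => z (Sum.inr s)) (fa c A κ).u : (E ⊕ Unit) ⊕ Unit → ℂ) =
      Sum.elim z fun _ => c * z (Sum.inr ()) ^ A := by
    rw [e1, e2]
    funext j
    rcases j with (j | j) | j
    · rfl
    · rfl
    · rfl
  constructor
  · rintro ⟨h1, h2⟩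
    exact ⟨h1, (congrArg (fun f => f ∈ Q) key).mp h2⟩
  · rintro ⟨h1, h2⟩
    exact ⟨h1, (congrArg (fun f => f ∈ Q) key).mpr h2⟩

/-- the family `(a, τ) ↦ (a, g(a, u(τ)))` -/
noncomputable def cf (t : Fam) (g : P2) (κ : ℕ → K) : Fam2 where
  σ := Unit ⊕ t.σ
  fin := haveI := t.fin; inferInstance
  S := {z | z (Sum.inl ()) ≠ 0 ∧ (fun s => z (Sum.inr s)) ∈ t.S ∧
    eval ![z (Sum.inl ()), eval (fun s => z (Sum.inr s)) t.u] g ≠ 0}
  v := X (Sum.inl ())
  u := bind₁ ![X (Sum.inl ()), rename Sum.inr t.u] g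
  κ := κ

theorem eval_vec {α : Type} (τ : α → ℂ) (x y : MvPolynomial α ℂ) (g : P2) :
    eval τ (bind₁ ![x, y] g) = eval ![eval τ x, eval τ y] g := by
  have h1 : eval τ (bind₁ ![x, y] g) = eval (fun j => eval τ ((![x, y] : Fin 2 → _) j)) g :=
    eval₂Hom_bind₁ (RingHom.id ℂ) τ ![x, y] g
  rw [h1]
  congr 2
  funext j
  fin_cases j <;> rfl

theorem IP_vec {α : Type} {x y : (α → ℂ) → ℂ} (hx : IP x) (hy : IP y) (g : P2) :
    IP fun τ => eval ![x τ, y τ] g := by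
  obtain ⟨φ, hφ⟩ := hx
  obtain ⟨ψ, hψ⟩ := hy
  refine ⟨bind₁ ![φ, ψ] g, fun τ => ?_⟩
  rw [eval_vec]
  simp only [hφ, hψ]

theorem cf_u (t : Fam) (g : P2) (κ : ℕ → K) (τ : (cf t g κ).σ → ℂ) :
    eval τ (cf t g κ).u = eval ![τ (Sum.inl ()), eval (fun s => τ (Sum.inr s)) t.u] g := by
  have h1 : eval τ (cf t g κ).u = eval ![eval τ (X (Sum.inl ()) : MvPolynomial (Unit ⊕ t.σ) ℂ),
    eval τ (rename Sum.inr t.u : MvPolynomial (Unit ⊕ t.σ) ℂ)] g := eval_vec τ _ _ g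
  rw [h1]
  have h2 : eval τ (X (Sum.inl ()) : MvPolynomial (Unit ⊕ t.σ) ℂ) = τ (Sum.inl ()) := eval_X _
  have h3 : eval τ (rename Sum.inr t.u : MvPolynomial (Unit ⊕ t.σ) ℂ) =
    eval (fun s => τ (Sum.inr s)) t.u := ev_ren Sum.inr t.u τ
  rw [h2, h3]

theorem con_cf {t : Fam} (ht : Constructible t.S) (g : P2) (κ : ℕ → K) :
    Constructible (cf t g κ).S :=
  Constructible.and (con_ne (IP.coord _)) (Constructible.and (Constructible.comap _ ht)
    (con_ne (IP_vec (IP.coord _) (IP.ev t.u fun a => IP.coord _) g)))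

theorem cf_ok {t : Fam} (ht : Constructible t.S) (g : P2) (κ : ℕ → K) :
    (cf t g κ).Ok {0}ᶜ true := by
  refine ⟨con_cf ht g κ, ?_⟩
  intro τ hτ
  have e1 : eval τ (cf t g κ).v = τ (Sum.inl ()) := eval_X _
  rw [e1, cf_u]
  exact ⟨hτ.1, fun _ => hτ.2.2⟩

theorem con_c2a {E : Type} {t : Fam} (ht : Constructible t.S) (g : P2)
    {Q : Set ((E ⊕ Unit) ⊕ Unit → ℂ)} (hQ : Constructible Q) :
    Constructible {z : (E ⊕ Unit) ⊕ t.σ → ℂ | z (Sum.inl (Sum.inr ())) ≠ 0 ∧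
      (fun s => z (Sum.inr s)) ∈ t.S ∧ (Sum.elim (fun e => z (Sum.inl e)) fun _ =>
        eval ![z (Sum.inl (Sum.inr ())), eval (fun s => z (Sum.inr s)) t.u] g) ∈ Q} := by
  refine Constructible.and (con_ne (IP.coord _)) (Constructible.and (Constructible.comap _ ht)
    (con_pre ?_ hQ))
  rintro (e | e)
  · exact IP.coord _
  · exact IP_vec (IP.coord _) (IP.ev t.u fun a => IP.coord _) g

theorem fcla_cf (P : HodgeMeasure) {E : Type} [Finite E] {t : Fam} (ht : Constructible t.S)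
    (g : P2) (κ : ℕ → K) {Q : Set ((E ⊕ Unit) ⊕ Unit → ℂ)} (hQ : QU Q) :
    fcla P (cf t g κ) Q = c2a P t g Q := by
  haveI := t.fin
  haveI := (cf t g κ).fin
  refine X0.val_reindex P.rat (Equiv.sumAssoc E Unit t.σ).symm (con_fcla (con_cf ht g κ) hQ.1)
    (con_c2a ht g hQ.1) ?_
  intro z
  have e1 : eval (fun s => z (Sum.inr s)) (cf t g κ).v = z (Sum.inr (Sum.inl ())) := eval_X _
  have e2 : eval (fun s => z (Sum.inr s)) (cf t g κ).u =
      eval ![z (Sum.inr (Sum.inl ())), eval (fun s => z (Sum.inr (Sum.inr s))) t.u] g :=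
    cf_u t g κ _
  have key : (Sum.elim (Sum.elim (fun e => z (Sum.inl e)) fun _ => eval (fun s =>
      z (Sum.inr s)) (cf t g κ).v) fun _ =>
        eval (fun s => z (Sum.inr s)) (cf t g κ).u : (E ⊕ Unit) ⊕ Unit → ℂ) =
      Sum.elim (fun e : E ⊕ Unit => z ((Equiv.sumAssoc E Unit t.σ) (Sum.inl e))) fun _ =>
        eval ![z (Sum.inr (Sum.inl ())), eval (fun s => z (Sum.inr (Sum.inr s))) t.u] g := by
    rw [e1, e2]
    funext j
    rcases j with (j | j) | j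
    · rfl
    · rfl
    · rfl
  constructor
  · rintro ⟨⟨h1, h2, h3⟩, h4⟩
    exact ⟨h1, h2, (congrArg (fun f => f ∈ Q) key).mp h4⟩
  · rintro ⟨h1, h2, h4⟩
    have h5 := hQ.2 _ h4
    exact ⟨⟨h1, h2, h5⟩, (congrArg (fun f => f ∈ Q) key).mpr h4⟩

/-- `B = 0`: a product -/
theorem c2a_zero (P : HodgeMeasure) {E : Type} [Finite E] {t : Fam} (ht : Constructible t.S)
    (c : ℂ) (A : ℕ) {Q : Set ((E ⊕ Unit) ⊕ Unit → ℂ)} (hQ : Constructible Q) :
    c2a P t (C c * X 0 ^ A * X 1 ^ 0) Q = famV P t * c1a P c A Q := by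
  haveI := t.fin
  have h1 : Constructible {z : E ⊕ Unit → ℂ | z (Sum.inr ()) ≠ 0 ∧
      (Sum.elim z fun _ => c * z (Sum.inr ()) ^ A : (E ⊕ Unit) ⊕ Unit → ℂ) ∈ Q} := by
    refine Constructible.and (con_ne (IP.coord _)) (con_pre ?_ hQ)
    rintro (e | e)
    · exact IP.coord _
    · exact (IP.const c).mul (pow_IP A (IP.coord _))
  have h2 := P.rat.prod _ _ h1 ht
  unfold famV c1a
  rw [mul_comm (P.rat.val t.S), ← h2]
  unfold c2a
  congr 1
  ext z
  have e1 : eval ![z (Sum.inl (Sum.inr ())), eval (fun s => z (Sum.inr s)) t.u]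
      (C c * X 0 ^ A * X 1 ^ 0 : P2) = c * z (Sum.inl (Sum.inr ())) ^ A := by
    simp
  constructor
  · rintro ⟨h1, h2, h3⟩
    rw [e1] at h3
    exact ⟨⟨h1, h3⟩, h2⟩
  · rintro ⟨⟨h1, h3⟩, h2⟩
    refine ⟨h1, h2, ?_⟩
    rw [e1]
    exact h3

/-- the Haar part of a cone up to `(0, 1)` with `B = 1` -/
noncomputable def hta (lam : K) : HT where
  σ := Unit
  fin := inferInstance
  H := {τ | τ () ≠ 0}
  v := X ()
  lam := lam

theorem hta_ok (lam : K) : Constructible (hta lam).H ∧ ∀ τ ∈ (hta lam).H, eval τ (hta lam).v ≠ 0 := by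
  have h1 : Constructible {τ : Unit → ℂ | τ () ≠ 0} := by
    simpa only [eval_X] using Constructible.ne (X () : MvPolynomial Unit ℂ)
  refine ⟨h1, ?_⟩
  intro τ hτ
  have e1 : eval τ (hta lam).v = τ () := eval_X _
  rw [e1]
  exact hτ

theorem haar_good (α : K) : (haar α).Good := by
  have h1 : Constructible {τ : Unit → ℂ | τ () ≠ 0} := by
    simpa only [eval_X] using Constructible.ne (X () : MvPolynomial Unit ℂ)
  refine ⟨h1, ?_⟩
  intro τ hτ
  have e1 : eval τ (haar α).u = τ () := eval_X _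
  rw [e1]
  exact hτ

theorem eval_vm (x y c : ℂ) (A B : ℕ) : eval ![x, y] (C c * X 0 ^ A * X 1 ^ B : P2) =
    c * x ^ A * y ^ B := by
  simp

theorem c2a_haar (P : HodgeMeasure) {E : Type} [Finite E] (lam : K) (c : ℂ) (hc : c ≠ 0) (A : ℕ)
    {Q : Set ((E ⊕ Unit) ⊕ Unit → ℂ)} (hQ : QU Q) :
    c2a P (haar 1) (C c * X 0 ^ A * X 1 ^ 1) Q = fcla P (hta lam).ex Q := by
  set S₁ : Set ((E ⊕ Unit) ⊕ Unit → ℂ) := {z | z (Sum.inl (Sum.inr ())) ≠ 0 ∧
    z (Sum.inr ()) ≠ 0 ∧ (Sum.elim (fun e => z (Sum.inl e)) fun _ =>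
      c * z (Sum.inl (Sum.inr ())) ^ A * z (Sum.inr ())) ∈ Q} with hS₁
  set S₂ : Set (E ⊕ (Unit ⊕ Unit) → ℂ) := {z | (z (Sum.inr (Sum.inl ())) ≠ 0 ∧
    z (Sum.inr (Sum.inr ())) ≠ 0) ∧ (Sum.elim (Sum.elim (fun e => z (Sum.inl e)) fun _ =>
      z (Sum.inr (Sum.inl ()))) fun _ => z (Sum.inr (Sum.inr ()))) ∈ Q} with hS₂
  have e1 : c2a P (haar 1) (C c * X 0 ^ A * X 1 ^ 1) Q = P.rat.val S₁ := by
    unfold c2a
    congr 1
    ext z
    have e0 : eval ![z (Sum.inl (Sum.inr ())), eval (fun s => z (Sum.inr s)) (haar 1).u]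
        (C c * X 0 ^ A * X 1 ^ 1 : P2) = c * z (Sum.inl (Sum.inr ())) ^ A * z (Sum.inr ()) := by
      rw [eval_vm, pow_one]
      congr 1
      exact eval_X _
    constructor
    · rintro ⟨h1, h2, h3⟩
      rw [e0] at h3
      exact ⟨h1, h2, h3⟩
    · rintro ⟨h1, h2, h3⟩
      refine ⟨h1, h2, ?_⟩
      rw [e0]
      exact h3
  have e2 : fcla P (hta lam).ex Q = P.rat.val S₂ := by
    unfold fcla
    congr 1
    ext z
    have f1 : eval (fun s => z (Sum.inr s)) (hta lam).ex.v = z (Sum.inr (Sum.inl ())) := by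
      have e3 : eval (fun s => z (Sum.inr s)) (hta lam).ex.v =
        eval (fun s => z (Sum.inr (Sum.inl s))) (hta lam).v := ev_ren Sum.inl (hta lam).v _
      rw [e3]
      exact eval_X _
    have f2 : eval (fun s => z (Sum.inr s)) (hta lam).ex.u =
      z (Sum.inr (Sum.inr ())) := eval_X _
    have key : (Sum.elim (Sum.elim (fun e => z (Sum.inl e)) fun _ => eval (fun s =>
        z (Sum.inr s)) (hta lam).ex.v) fun _ =>
          eval (fun s => z (Sum.inr s)) (hta lam).ex.u : (E ⊕ Unit) ⊕ Unit → ℂ) =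
        (Sum.elim (Sum.elim (fun e => z (Sum.inl e)) fun _ =>
          z (Sum.inr (Sum.inl ()))) fun _ => z (Sum.inr (Sum.inr ()))) := by
      rw [f1, f2]
    constructor
    · rintro ⟨h1, h2⟩
      exact ⟨h1, (congrArg (fun f => f ∈ Q) key).mp h2⟩
    · rintro ⟨h1, h2⟩
      exact ⟨h1, (congrArg (fun f => f ∈ Q) key).mpr h2⟩
  rw [e1, e2]
  have c1 : Constructible S₁ := by
    refine Constructible.and (con_ne (IP.coord _)) (Constructible.and (con_ne (IP.coord _))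
      (con_pre ?_ hQ.1))
    rintro (e | e)
    · exact IP.coord _
    · exact ((IP.const c).mul (pow_IP A (IP.coord _))).mul (IP.coord _)
  have c2 : Constructible S₂ := by
    refine Constructible.and (Constructible.and (con_ne (IP.coord _)) (con_ne (IP.coord _)))
      (con_pre ?_ hQ.1)
    rintro ((e | e) | e)
    · exact IP.coord _
    · exact IP.coord _
    · exact IP.coord _
  refine P.rat.val_of_inv c1 c2
    (Sum.elim (fun e => X (Sum.inl (Sum.inl e))) (Sum.elim (fun _ => X (Sum.inl (Sum.inr ())))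
      fun _ => C c * X (Sum.inl (Sum.inr ())) ^ A * X (Sum.inr ())))
    (fun y => Sum.elim (Sum.elim (fun e => y (Sum.inl e)) fun _ => y (Sum.inr (Sum.inl ())))
      fun _ => y (Sum.inr (Sum.inr ())) / (c * y (Sum.inr (Sum.inl ())) ^ A)) ?_ ?_ ?_ ?_
  · rintro z ⟨h1, h2, h3⟩
    refine ⟨⟨?_, ?_⟩, ?_⟩
    · simpa using h1
    · have : c * z (Sum.inl (Sum.inr ())) ^ A * z (Sum.inr ()) ≠ 0 :=
        mul_ne_zero (mul_ne_zero hc (pow_ne_zero _ h1)) h2
      simpa using this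
    · convert h3 using 1
      funext j
      rcases j with (j | j) | j
      · simp
      · simp
      · simp
  · rintro y ⟨⟨h1, h2⟩, h3⟩
    have h4 : c * y (Sum.inr (Sum.inl ())) ^ A ≠ 0 := mul_ne_zero hc (pow_ne_zero _ h1)
    refine ⟨h1, ?_, ?_⟩
    · exact div_ne_zero h2 h4
    · convert h3 using 1
      funext j
      rcases j with (j | j) | j
      · rfl
      · rfl
      · change c * y (Sum.inr (Sum.inl ())) ^ A * (y (Sum.inr (Sum.inr ())) /
          (c * y (Sum.inr (Sum.inl ())) ^ A)) = y (Sum.inr (Sum.inr ()))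
        rw [mul_div_cancel₀ _ h4]
  · rintro z ⟨h1, h2, h3⟩
    have h4 : c * z (Sum.inl (Sum.inr ())) ^ A ≠ 0 := mul_ne_zero hc (pow_ne_zero _ h1)
    funext j
    rcases j with (j | j) | j
    · simp
    · simp
    · simp only [Sum.elim_inr, Sum.elim_inl, map_mul, map_pow, eval_C, eval_X]
      rw [mul_div_cancel_left₀ _ h4]
  · rintro y ⟨⟨h1, h2⟩, h3⟩
    have h4 : c * y (Sum.inr (Sum.inl ())) ^ A ≠ 0 := mul_ne_zero hc (pow_ne_zero _ h1)
    funext j
    rcases j with j | (j | j)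
    · simp
    · simp
    · simp only [Sum.elim_inr, map_mul, map_pow, eval_C, eval_X, Sum.elim_inl]
      rw [mul_div_cancel₀ _ h4]

end RE7Aux

end Pool.Agent.Mono.BV
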