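import Pool.Agent.Work.Monodromy7.RES7
import Pool.Agent.Work.Monodromy6.RES6

/-!
# Block RESF: residues for two free coordinates, as functionals at the origin
-/

set_option autoImplicit false

namespace Pool.Agent.Mono.BG

open MvPolynomial TS PC RO

theorem stmt_RESF : Stmt_RESF := by
  intro f σ hσ N ν j G J' φ' φ hN hν hf hG hjac hφ hne
  set l0 : KZ := DZ (PowerSeries.constantCoeff G) / PowerSeries.constantCoeff G with hl0
  obtain ⟨L, hL, hLe⟩ := RESAux.exists_form (RESAux.theta ((ν : ℂ) / N) l0)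
    (PowerSeries.constantCoeff φ' * PowerSeries.constantCoeff J' *
        (PowerSeries.constantCoeff G ^ j)⁻¹) hne
  obtain ⟨A, hA⟩ := PowerSeries.X_dvd_iff.2 (hσ 0)
  obtain ⟨B, hB⟩ := PowerSeries.X_dvd_iff.2 (hσ 1)
  have hN0 : (N : ℚ) ≠ 0 := by
    have : N ≠ 0 := by omega
    exact_mod_cast this
  have hNC : (N : ℂ) ≠ 0 := by
    have : N ≠ 0 := by omega
    exact_mod_cast this
  set ga : ℚ := -((ν : ℚ) / N) with hga
  have hgaC : ((ga : ℚ) : ℂ) = -((ν : ℂ) / N) := by rw [hga]; push_cast; ring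
  have hga0 : ga < 0 := by
    have h1 : (0 : ℚ) < ν := by exact_mod_cast hν
    have h2 : (0 : ℚ) < N := by exact_mod_cast hN
    rw [hga]
    have := div_pos h1 h2
    linarith
  have key := stmt_RES7 ℂ KZ DZ L σ f false false (-1) (-1) ((ga : ℚ) : ℂ) N ν 0 1 1 A B G J' 0 0
    (PowerSeries.constantCoeff G)⁻¹ hN hν (by omega) le_rfl le_rfl (by rw [pow_one]; exact hA)
    (by rw [pow_one]; exact hB) hf hjac (mul_inv_cancel₀ hG) (by simp) (by simp)
    (by
      rw [hgaC]
      push_cast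
      field_simp
      ring)
    (Or.inr ⟨rfl, rfl⟩) (by
      intro g
      have h1 := hL g
      rw [RESAux.theta_apply] at h1
      rw [← h1]
      congr 1
      rw [hgaC]
      have h2 : algebraMap ℂ KZ (-((ν : ℂ) / N)) = -RatFunc.C ((ν : ℂ) / N) := by
        rw [map_neg]
        rfl
      rw [h2, hl0]
      have h3 : algebraMap ℂ KZ (-(-1) - 1) = 0 := by
        rw [show (-(-1) - 1 : ℂ) = 0 by ring, map_zero]
      rw [h3]
      ring)
  obtain ⟨l, hTW, hval⟩ := key
  refine ⟨ga, 0, hga0, by rw [hga]; push_cast; ring, l, ?_, j, ?_⟩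
  · have h1 : (((-1 : ℚ) : ℚ) : ℂ) = -1 := by push_cast; ring
    rw [h1]
    exact hTW
  · intro h
    have h1 := hval j φ φ' (by rw [zero_add]; exact hφ)
    rw [h, LinearMap.zero_apply] at h1
    have h2 : (∏ k ∈ Finset.range j, (((ga : ℚ) : ℂ) - k)) ≠ 0 := by
      refine Finset.prod_ne_zero_iff.2 fun k _ hk => ?_
      have h3 : ((ga - k : ℚ) : ℂ) = 0 := by
        push_cast
        exact hk
      have h4 : ga - k = 0 := by exact_mod_cast h3
      have h5 : (0 : ℚ) ≤ k := Nat.cast_nonneg k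
      linarith
    have h3 : L (PowerSeries.constantCoeff φ' * PowerSeries.constantCoeff J' *
        (PowerSeries.constantCoeff G)⁻¹ ^ j) ≠ 0 := by
      rw [inv_pow]
      exact hLe
    exact (mul_ne_zero h2 h3) h1.symm

end Pool.Agent.Mono.BG
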