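import Pool.Agent.Work.Monodromy.Interface7V

/-!
# Phase 7, assembly of the volume part: tools (helper31)

Sums of regular functionals; functionals which are linear in a source; splitting of sources.
-/

set_option autoImplicit false

namespace Pool.Agent.Mono.BV

open MvPolynomial TS RO PC

namespace RMAux

/-! ## Regular functionals -/

section

variable {P : HodgeMeasure} {h : P2} {Λ : ℂ → Set ℚ}

theorem regM_zero (hRA : Stmt_RA7) : RegM P (fun _ _ _ _ => 0) h Λ := (hRA P h Λ).1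

theorem regM_add (hRA : Stmt_RA7) {μ μ' : Meas} (h1 : RegM P μ h Λ) (h2 : RegM P μ' h Λ) :
    RegM P (fun E _ C M => μ E C M + μ' E C M) h Λ := (hRA P h Λ).2.1 μ μ' h1 h2

theorem regM_mul (hRA : Stmt_RA7) {μ : Meas} (a : K) (h1 : RegM P μ h Λ) :
    RegM P (fun E _ C M => a * μ E C M) h Λ := (hRA P h Λ).2.2.1 μ a h1

theorem regM_congr (hRA : Stmt_RA7) {μ μ' : Meas}
    (e : ∀ (w : Bool) (E : Type) [Finite E] (Q : Set (E ⊕ Bool → ℂ)),
      QOk Set.univ w Q → ∀ i M : ℕ, (w = true → 1 ≤ i) → i ≤ M →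
        μ E (SD h w Q i) M = μ' E (SD h w Q i) M) (h1 : RegM P μ h Λ) : RegM P μ' h Λ :=
  (hRA P h Λ).2.2.2.1 μ μ' e h1

theorem regM_sw (hRA : Stmt_RA7) {μ : Meas} (h1 : RegM P μ (swp h) Λ) : RegM P (swM μ) h Λ :=
  (hRA P h Λ).2.2.2.2.1 μ h1

theorem regM_sum (hRA : Stmt_RA7) {α : Type*} (s : Finset α) (μ : α → Meas)
    (hμ : ∀ a ∈ s, RegM P (μ a) h Λ) : RegM P (fun E _ C M => ∑ a ∈ s, μ a E C M) h Λ := by
  classical
  induction s using Finset.induction_on with
  | empty => simpa using regM_zero hRA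
  | insert a s ha ih =>
    have h1 := regM_add hRA (hμ a (Finset.mem_insert_self a s))
      (ih fun b hb => hμ b (Finset.mem_insert_of_mem hb))
    simpa only [Finset.sum_insert ha] using h1

theorem regM_list (hRA : Stmt_RA7) {α : Type*} (l : List α) (μ : α → Meas)
    (hμ : ∀ a ∈ l, RegM P (μ a) h Λ) :
    RegM P (fun E _ C M => (l.map fun a => μ a E C M).sum) h Λ := by
  induction l with
  | nil => simpa using regM_zero hRA
  | cons a l ih =>
    have h1 := regM_add hRA (hμ a List.mem_cons_self)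
      (ih fun b hb => hμ b (List.mem_cons_of_mem _ hb))
    simpa only [List.map_cons, List.sum_cons] using h1

end

/-! ## Functionals which are linear in a source -/

/-- linear functionals of a source, known up to the level `M` -/
def LinS (M : ℕ) (μ : Src → K) : Prop :=
  ∃ (Φ : ℕ → Fam → K) (Ψ : K), (∀ k t f, Φ k { t with κ := f } = Φ k t) ∧
    ∀ s : Src, μ s = ∑ k ∈ Finset.Icc 1 M, (s.ts.map fun t => t.κ k * Φ k t).sum + s.b M * Ψ

/-- the source with other weights -/
def rep (s : Src) (κs : Fam → ℕ → K) (b : ℕ → K) : Src :=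
  ⟨s.ts.map fun t => { t with κ := κs t }, b⟩

theorem list_split {n : ℕ} (ts : List Fam) (κs : Fin n → Fam → ℕ → K) (Φ : Fam → K) (k : ℕ)
    (hΦ : ∀ t f, Φ { t with κ := f } = Φ t) (h1 : ∀ t ∈ ts, t.κ k = ∑ i, κs i t k) :
    (ts.map fun t => t.κ k * Φ t).sum =
      ∑ i, ((ts.map fun t => ({ t with κ := κs i t } : Fam)).map fun t => t.κ k * Φ t).sum := by
  induction ts with
  | nil => simp
  | cons t ts ih =>
    simp only [List.map_cons, List.sum_cons]
    rw [ih fun t' ht' => h1 t' (List.mem_cons_of_mem _ ht'), h1 t List.mem_cons_self,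
      Finset.sum_add_distrib, Finset.sum_mul]
    simp only [hΦ]

theorem linS_split {M : ℕ} {μ : Src → K} (h : LinS M μ) {n : ℕ} (s : Src)
    (κs : Fin n → Fam → ℕ → K) (bs : Fin n → ℕ → K)
    (h1 : ∀ t ∈ s.ts, ∀ m, t.κ m = ∑ i, κs i t m) (h2 : ∀ m, s.b m = ∑ i, bs i m) :
    μ s = ∑ i, μ (rep s (κs i) (bs i)) := by
  obtain ⟨Φ, Ψ, hΦ, hμ⟩ := h
  rw [hμ s]
  simp only [hμ (rep s _ _)]
  rw [Finset.sum_add_distrib, Finset.sum_comm, h2 M, Finset.sum_mul]
  congr 1
  refine Finset.sum_congr rfl fun k _ => ?_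
  exact list_split s.ts κs (Φ k) k (hΦ k) fun t ht => h1 t ht k

theorem muFF_eq1 (P : HodgeMeasure) {E : Type} [Finite E] (c c' : ℂ) (s s' : Src)
    (C : Set ((E → ℂ) × (Fin 2 → PowerSeries ℂ))) (M : ℕ) :
    muFF P c s c' s' E C M = ∑ k ∈ Finset.Icc 1 M, (s.ts.map fun t => t.κ k *
      (∑ l ∈ Finset.Icc 1 M, (s'.ts.map fun t' => t'.κ l * vFF P c t c' t' k l C).sum +
        s'.b M * vFC P c t c' k C)).sum +
      s.b M * (∑ l ∈ Finset.Icc 1 M, (s'.ts.map fun t' =>
        t'.κ l * vFC P c' t' c l (swC C)).sum +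
      s'.b M * P.rat.val {p : E → ℂ | (p, ![PowerSeries.C c, PowerSeries.C c']) ∈ C}) := by
  unfold muFF
  have e1 : ∀ k l : ℕ, (s.ts.map fun t => (s'.ts.map fun t' =>
      t.κ k * t'.κ l * vFF P c t c' t' k l C).sum).sum =
      (s.ts.map fun t => t.κ k * (s'.ts.map fun t' => t'.κ l * vFF P c t c' t' k l C).sum).sum := by
    intro k l
    congr 1
    refine List.map_congr_left fun t _ => ?_
    rw [← List.sum_map_mul_left]
    congr 1
    refine List.map_congr_left fun t' _ => ?_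
    ring
  have e2 : ∀ l : ℕ, (s'.ts.map fun t' => s.b M * t'.κ l * vFC P c' t' c l (swC C)).sum =
      s.b M * (s'.ts.map fun t' => t'.κ l * vFC P c' t' c l (swC C)).sum := by
    intro l
    rw [← List.sum_map_mul_left]
    congr 1
    refine List.map_congr_left fun t' _ => ?_
    ring
  have e3 : ∀ k : ℕ, (s.ts.map fun t => t.κ k * (∑ l ∈ Finset.Icc 1 M, (s'.ts.map fun t' =>
      t'.κ l * vFF P c t c' t' k l C).sum + s'.b M * vFC P c t c' k C)).sum =
      ∑ l ∈ Finset.Icc 1 M, (s.ts.map fun t => t.κ k * (s'.ts.map fun t' =>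
        t'.κ l * vFF P c t c' t' k l C).sum).sum +
        (s.ts.map fun t => t.κ k * s'.b M * vFC P c t c' k C).sum := by
    intro k
    have : ∀ ts : List Fam, (ts.map fun t => t.κ k * (∑ l ∈ Finset.Icc 1 M, (s'.ts.map fun t' =>
      t'.κ l * vFF P c t c' t' k l C).sum + s'.b M * vFC P c t c' k C)).sum =
      ∑ l ∈ Finset.Icc 1 M, (ts.map fun t => t.κ k * (s'.ts.map fun t' =>
        t'.κ l * vFF P c t c' t' k l C).sum).sum +
        (ts.map fun t => t.κ k * s'.b M * vFC P c t c' k C).sum := by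
      intro ts
      induction ts with
      | nil => simp
      | cons t ts ih =>
        simp only [List.map_cons, List.sum_cons, Finset.sum_add_distrib]
        rw [ih, mul_add, Finset.mul_sum]
        ring
    exact this s.ts
  simp only [e1, e2, e3]
  rw [Finset.sum_add_distrib, mul_add, Finset.mul_sum]
  ring

theorem linS_FF1 (P : HodgeMeasure) {E : Type} [Finite E] (c c' : ℂ) (s' : Src)
    (C : Set ((E → ℂ) × (Fin 2 → PowerSeries ℂ))) (M : ℕ) :
    LinS M fun s => muFF P c s c' s' E C M :=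
  ⟨_, _, fun _ _ _ => rfl, fun s => muFF_eq1 P c c' s s' C M⟩

theorem linS_FF2 (P : HodgeMeasure) {E : Type} [Finite E] (c c' : ℂ) (s : Src)
    (C : Set ((E → ℂ) × (Fin 2 → PowerSeries ℂ))) (M : ℕ) :
    LinS M fun s' => muFF P c s c' s' E C M := by
  refine ⟨fun l t' => ∑ k ∈ Finset.Icc 1 M, (s.ts.map fun t =>
      t.κ k * vFF P c t c' t' k l C).sum + s.b M * vFC P c' t' c l (swC C),
    ∑ k ∈ Finset.Icc 1 M, (s.ts.map fun t => t.κ k * vFC P c t c' k C).sum +
      s.b M * P.rat.val {p : E → ℂ | (p, ![PowerSeries.C c, PowerSeries.C c']) ∈ C},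
    fun k t f => rfl, fun s' => ?_⟩
  unfold muFF
  have e0 : ∀ (ts ts' : List Fam) (k l : ℕ), (ts.map fun t => (ts'.map fun t' =>
      t.κ k * t'.κ l * vFF P c t c' t' k l C).sum).sum =
      (ts'.map fun t' => t'.κ l * (ts.map fun t => t.κ k * vFF P c t c' t' k l C).sum).sum := by
    intro ts ts' k l
    induction ts with
    | nil => simp
    | cons t ts ih =>
      simp only [List.map_cons, List.sum_cons]
      rw [ih, ← List.sum_map_add]
      congr 1
      refine List.map_congr_left fun t' _ => ?_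
      ring
  have e1 : ∀ k l : ℕ, (s.ts.map fun t => (s'.ts.map fun t' =>
      t.κ k * t'.κ l * vFF P c t c' t' k l C).sum).sum =
      (s'.ts.map fun t' => t'.κ l * (s.ts.map fun t => t.κ k * vFF P c t c' t' k l C).sum).sum :=
    fun k l => e0 s.ts s'.ts k l
  have e2 : ∀ k : ℕ, (s.ts.map fun t => t.κ k * s'.b M * vFC P c t c' k C).sum =
      s'.b M * (s.ts.map fun t => t.κ k * vFC P c t c' k C).sum := by
    intro k
    rw [← List.sum_map_mul_left]
    congr 1
    refine List.map_congr_left fun t _ => ?_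
    ring
  have e3 : ∀ (ts' : List Fam) (l : ℕ), (ts'.map fun t' => t'.κ l * (∑ k ∈ Finset.Icc 1 M,
      (s.ts.map fun t => t.κ k * vFF P c t c' t' k l C).sum +
        s.b M * vFC P c' t' c l (swC C))).sum =
      ∑ k ∈ Finset.Icc 1 M, (ts'.map fun t' => t'.κ l * (s.ts.map fun t =>
        t.κ k * vFF P c t c' t' k l C).sum).sum +
        (ts'.map fun t' => s.b M * t'.κ l * vFC P c' t' c l (swC C)).sum := by
    intro ts' l
    induction ts' with
    | nil => simp
    | cons t ts ih =>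
      simp only [List.map_cons, List.sum_cons, Finset.sum_add_distrib]
      rw [ih, mul_add, Finset.mul_sum]
      ring
  simp only [e1, e2, e3]
  rw [Finset.sum_add_distrib, mul_add, Finset.mul_sum, Finset.sum_comm]
  ring

theorem linS_FH (P : HodgeMeasure) {E : Type} [Finite E] (c : ℂ) (h : HT)
    (C : Set ((E → ℂ) × (Fin 2 → PowerSeries ℂ))) (M : ℕ) :
    LinS M fun s => muFH P c s h E C M := by
  refine ⟨fun k t => h.lam * vFH P c t h k C, h.lam * vCH P c h C, fun k t f => rfl,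
    fun s => ?_⟩
  unfold muFH
  have e1 : ∀ k : ℕ, (s.ts.map fun t => t.κ k * (h.lam * vFH P c t h k C)).sum =
      h.lam * (s.ts.map fun t => t.κ k * vFH P c t h k C).sum := by
    intro k
    rw [← List.sum_map_mul_left]
    congr 1
    refine List.map_congr_left fun t _ => ?_
    ring
  simp only [e1]
  rw [mul_add, Finset.mul_sum]
  ring

/-- a source with exponents in `W` is a sum of sources with one exponent -/
theorem mul_split (hSQ : Stmt_SQ75) {P : HodgeMeasure} {s : Src} {W : Set ℚ} (hs : s.Mul P W) :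
    ∃ (n : ℕ) (ks : Fin n → Kd) (ss : Fin n → Src), (∀ i, KdIn W (ks i)) ∧
      (∀ i, (ss i).Ok P (ks i)) ∧ (∀ i, (ss i).Is P (ks i)) ∧
      ∀ (M : ℕ) (μ : Src → K), LinS M μ → μ s = ∑ i, μ (ss i) := by
  obtain ⟨hW, h1, h2, h3⟩ := hs
  obtain ⟨n, ks, κs, bs, g1, g2, g3, g4⟩ := hSQ W s.ts P s.b hW h1 h2 h3
  refine ⟨n, ks, fun i => rep s (κs i) (bs i), g1, g2, fun i => ⟨g2 i, ?_, ?_⟩, ?_⟩
  · intro h
    obtain ⟨fs, r, h4, _⟩ := g1 i
    rw [h4] at h
    exact absurd h (by simp)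
  · obtain ⟨fs, r, h4, h5, _⟩ := g1 i
    rw [h4]
    exact h5
  · intro M μ hμ
    exact linS_split hμ s κs bs g3 g4

end RMAux

end Pool.Agent.Mono.BV
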