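import Pool.Agent.Work.Monodromy.Interface7V
import Pool.Agent.Work.Monodromy6.PL

/-!
# Phase 7, volume part: cylinders (helper63)
-/

set_option autoImplicit false
set_option linter.unusedSectionVars false

namespace Pool.Agent.Mono.BV

open MvPolynomial TS RO RO.VGAux PC

namespace VL7

section

variable {E ι : Type}

/-- the condition on the leading coefficient, parameters regular functions -/
theorem cy_lead {E' : Type} [Finite E'] [Fintype ι] {Q : Set (E' ⊕ Unit → ℂ)}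
    (hQ : Constructible Q) (m : ℕ) {r : E' → (E → ℂ) × (ι → PowerSeries ℂ) → ℂ}
    {s : (E → ℂ) × (ι → PowerSeries ℂ) → PowerSeries ℂ} (hr : ∀ e, RF (r e))
    (hs : ∀ l, RF fun z => PowerSeries.coeff l (s z)) :
    Cy {z : (E → ℂ) × (ι → PowerSeries ℂ) | Lead Q m (fun e => r e z) (s z)} := by
  refine Cy.and (Cy.all_lt m fun l _ => Cy.zero (hs l)) ?_
  have h := Cy.mem (E' := E) (ι := ι) hQ (φ := Sum.elim (fun e z => r e z)
    fun _ z => PowerSeries.coeff m (s z)) (by rintro (e | b); exacts [hr e, hs m])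
  have e : {z : (E → ℂ) × (ι → PowerSeries ℂ) | Sum.elim (fun e => r e z)
      (fun _ : Unit => PowerSeries.coeff m (s z)) ∈ Q} =
      {z | (fun a : E' ⊕ Unit => (Sum.elim (fun e z => r e z)
        fun _ z => PowerSeries.coeff m (s z) : E' ⊕ Unit → (E → ℂ) × (ι → PowerSeries ℂ) → ℂ)
          a z) ∈ Q} := by
    ext z
    have e1 : Sum.elim (fun e => r e z) (fun _ : Unit => PowerSeries.coeff m (s z)) =
        fun a : E' ⊕ Unit => (Sum.elim (fun e z => r e z)
        fun _ z => PowerSeries.coeff m (s z) : E' ⊕ Unit → (E → ℂ) × (ι → PowerSeries ℂ) → ℂ)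
          a z := by
      funext a
      rcases a with a | a <;> rfl
    change _ ∈ Q ↔ _ ∈ Q
    rw [e1]
  rw [e]
  exact h

/-- the coefficients of an arc `c t^k + t^{k+1} w` -/
theorem coeff_arcE (c : ℂ) (k : ℕ) (w : PowerSeries ℂ) (l : ℕ) :
    PowerSeries.coeff l (arcE c k w) =
      (if l = k then c else 0) + if k + 1 ≤ l then PowerSeries.coeff (l - (k + 1)) w else 0 := by
  rw [arcE, map_add, PowerSeries.coeff_C_mul, PowerSeries.coeff_X_pow,
    PowerSeries.coeff_X_pow_mul']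
  congr 1
  split_ifs <;> simp

theorem coeff_arcE_lt (c : ℂ) {k l : ℕ} (w : PowerSeries ℂ) (h : l < k) :
    PowerSeries.coeff l (arcE c k w) = 0 := by
  rw [coeff_arcE, if_neg (by omega), if_neg (by omega), add_zero]

theorem coeff_arcE_self (c : ℂ) (k : ℕ) (w : PowerSeries ℂ) :
    PowerSeries.coeff k (arcE c k w) = c := by
  rw [coeff_arcE, if_pos rfl, if_neg (by omega), add_zero]

theorem coeff_arcE_gt (c : ℂ) (k l : ℕ) (w : PowerSeries ℂ) :
    PowerSeries.coeff (k + 1 + l) (arcE c k w) = PowerSeries.coeff l w := by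
  rw [coeff_arcE, if_neg (by omega), if_pos (by omega), zero_add]
  congr 2
  omega

theorem RF.arcE {φ : (E → ℂ) × (ι → PowerSeries ℂ) → ℂ} (hφ : RF φ) (k : ℕ)
    {w : (E → ℂ) × (ι → PowerSeries ℂ) → PowerSeries ℂ}
    (hw : ∀ l, RF fun z => PowerSeries.coeff l (w z)) (l : ℕ) :
    RF fun z => PowerSeries.coeff l (BV.arcE (φ z) k (w z)) := by
  simp only [coeff_arcE]
  exact (RF.ite _ hφ (RF.const 0)).add (RF.ite _ (hw _) (RF.const 0))

/-- `G(α, β)` for arcs with regular coefficients -/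
theorem RF.two [Fintype ι] (G : P2) {α β : (E → ℂ) × (ι → PowerSeries ℂ) → PowerSeries ℂ}
    (hα : ∀ l, RF fun z => PowerSeries.coeff l (α z))
    (hβ : ∀ l, RF fun z => PowerSeries.coeff l (β z)) (l : ℕ) :
    RF fun z => PowerSeries.coeff l (MvPolynomial.aeval ![α z, β z] G) := by
  have h := PL.RF.aeval (E := E) (ι := ι)
    (u := fun (j : Fin 2) z => (![α z, β z] : Fin 2 → PowerSeries ℂ) j) ?_ G l
  · exact h
  · intro j l
    fin_cases j
    · exact hα l
    · exact hβ l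

/-- `G(a t^k, w)` -/
theorem RF.ev [Fintype ι] (G : P2) (k : ℕ) (e : E)
    {w : (E → ℂ) × (ι → PowerSeries ℂ) → PowerSeries ℂ}
    (hw : ∀ l, RF fun z => PowerSeries.coeff l (w z)) (l : ℕ) :
    RF fun z => PowerSeries.coeff l (PC.ev G k (z.1 e) (w z)) := by
  refine RF.two G (α := fun z => PowerSeries.C (z.1 e) * PowerSeries.X ^ k) (fun l => ?_) hw l
  simp only [PowerSeries.coeff_C_mul_X_pow]
  exact RF.ite _ (RF.par e) (RF.const 0)

theorem cy_NS7 [Finite E] (G : P2) {Q : Set ((E ⊕ Unit) ⊕ Unit → ℂ)} (hQ : Constructible Q)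
    (k L m : ℕ) : Cy (NS7 G Q k L m) :=
  Cy.and (Cy.not (Cy.zero (RF.par _))) (Cy.and (Cy.all_lt L fun l _ => Cy.zero (RF.arc () l))
    (cy_lead hQ m (fun e => RF.par e) fun l => RF.ev G k _ (fun l => RF.arc () l) l))

theorem cy_S [Finite E] {σ : Type} [Finite σ] {S : Set (σ → ℂ)} (hS : Constructible S)
    (r : σ → E) : Cy {z : (E → ℂ) × (ι → PowerSeries ℂ) | (fun s => z.1 (r s)) ∈ S} :=
  Cy.mem hS (φ := fun s z => z.1 (r s)) fun s => RF.par (r s)

theorem RF_u {σ : Type} (u : MvPolynomial σ ℂ) (r : σ → E) :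
    RF fun z : (E → ℂ) × (ι → PowerSeries ℂ) => eval (fun s => z.1 (r s)) u :=
  RF.eval (fun s => RF.par (r s)) u

theorem cy_ES [Finite E] {t : Fam} (ht : t.Good) (G : P2) {Q : Set ((E ⊕ Unit) ⊕ Unit → ℂ)}
    (hQ : Constructible Q) (k l m : ℕ) : haveI := t.fin; Cy (ES t G Q k l m) := by
  haveI := t.fin
  exact Cy.and (Cy.not (Cy.zero (RF.par _))) (Cy.and (cy_S ht.1 Sum.inr)
    (cy_lead hQ m (fun e => RF.par _) fun j => RF.ev G k _
      (RF.arcE (RF_u t.u Sum.inr) l fun j => RF.arc () j) j))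

theorem cy_XS [Finite E] {t t' : Fam} (ht : t.Good) (ht' : t'.Good) (G : P2)
    {Q : Set (E ⊕ Unit → ℂ)} (hQ : Constructible Q) (k l m : ℕ) :
    haveI := t.fin; haveI := t'.fin; Cy (XS t t' G Q k l m) := by
  haveI := t.fin
  haveI := t'.fin
  exact Cy.and (cy_S ht.1 fun s => Sum.inr (Sum.inl s)) (Cy.and
    (cy_S ht'.1 fun s => Sum.inr (Sum.inr s)) (cy_lead hQ m (fun e => RF.par _) fun j =>
      RF.two G (RF.arcE (RF_u t.u fun s => Sum.inr (Sum.inl s)) k fun j => RF.arc 0 j)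
        (RF.arcE (RF_u t'.u fun s => Sum.inr (Sum.inr s)) l fun j => RF.arc 1 j) j))

theorem cy_YS [Finite E] {t : Fam} (ht : t.Good) (G : P2)
    {Q : Set (E ⊕ Unit → ℂ)} (hQ : Constructible Q) (k m : ℕ) :
    haveI := t.fin; Cy (YS t G Q k m) := by
  haveI := t.fin
  exact Cy.and (cy_S ht.1 Sum.inr) (cy_lead hQ m (fun e => RF.par _) fun j =>
    RF.two G (RF.arcE (RF_u t.u Sum.inr) k fun j => RF.arc () j)
      (fun j => by simpa using RF.const (0 : ℂ)) j)

end

end VL7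

end Pool.Agent.Mono.BV
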