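import Pool.Agent.Work.Monodromy7.RMX7
import Pool.Agent.Work.Monodromy7.VL7
import Pool.Agent.Work.Monodromy5.M5

/-!
# Phase 7, assembly of the volume part: cylinders and partitions (helper31)
-/

set_option autoImplicit false
set_option linter.unusedSectionVars false

namespace Pool.Agent.Mono.BV

open MvPolynomial TS RO RO.VGAux PC VL7

namespace RMAux

/-! ## Cylinders -/

section

variable {E E' ι κ : Type}

theorem cy_of [Finite E] [Fintype ι] {C : Set ((E → ℂ) × (ι → PowerSeries ℂ))} {n : ℕ}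
    (h : IsCyl (fun _ => n) C) : Cy C :=
  ⟨n, fun _ hN => IsCyl.mono (fun _ => hN) h⟩

/-- substitution of arcs with regular coefficients -/
theorem cy_sub [Finite E] [Finite κ] {C : Set ((E → ℂ) × (κ → PowerSeries ℂ))} (hC : Cy C)
    {φ : (E' → ℂ) × (ι → PowerSeries ℂ) → E → ℂ} (h : ∀ s, RF fun z => φ z s)
    {ψ : (E' → ℂ) × (ι → PowerSeries ℂ) → κ → PowerSeries ℂ}
    (h' : ∀ a l, RF fun z => PowerSeries.coeff l (ψ z a)) :
    Cy {z : (E' → ℂ) × (ι → PowerSeries ℂ) | (φ z, ψ z) ∈ C} := by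
  obtain ⟨N, hN⟩ := hC
  obtain ⟨h1, h2⟩ := hN N le_rfl
  have h3 := Cy.mem (E' := E') (ι := ι) h2 (φ := Sum.elim (fun s z => φ z s)
    fun s z => PowerSeries.coeff (s.2 : ℕ) (ψ z s.1)) (by
      rintro (e | s)
      exacts [h e, h' s.1 s.2])
  have e : {z : (E' → ℂ) × (ι → PowerSeries ℂ) | (φ z, ψ z) ∈ C} =
      {z | (fun a : E ⊕ (Σ _ : κ, Fin N) => (Sum.elim (fun s z => φ z s)
        (fun s z => PowerSeries.coeff (s.2 : ℕ) (ψ z s.1)) :
          E ⊕ (Σ _ : κ, Fin N) → (E' → ℂ) × (ι → PowerSeries ℂ) → ℂ) a z) ∈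
            sec (fun _ => N) C} := by
    ext z
    refine h1 (φ z) (ψ z) _ fun i l hl => ?_
    rw [toArc, PowerSeries.coeff_mk, dif_pos hl]
    rfl
  rw [e]
  exact h3

theorem cy_swC [Finite E] {C : Set ((E → ℂ) × (Fin 2 → PowerSeries ℂ))} (hC : Cy C) :
    Cy (swC C) := by
  refine cy_sub hC (φ := fun z => z.1) (fun s => RF.par s) (ψ := fun z => ![z.2 1, z.2 0]) ?_
  intro a l
  fin_cases a
  · exact RF.arc 1 l
  · exact RF.arc 0 l

theorem RF_CX {φ : (E → ℂ) × (ι → PowerSeries ℂ) → ℂ} (hφ : RF φ)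
    {w : (E → ℂ) × (ι → PowerSeries ℂ) → PowerSeries ℂ}
    (hw : ∀ l, RF fun z => PowerSeries.coeff l (w z)) (l : ℕ) :
    RF fun z => PowerSeries.coeff l (PowerSeries.C (φ z) + w z) := by
  simp only [map_add, PowerSeries.coeff_C]
  exact (RF.ite _ hφ (RF.const 0)).add (hw l)

theorem RF_X {w : (E → ℂ) × (ι → PowerSeries ℂ) → PowerSeries ℂ}
    (hw : ∀ l, RF fun z => PowerSeries.coeff l (w z)) (l : ℕ) :
    RF fun z => PowerSeries.coeff l (PowerSeries.X * w z) := by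
  cases l with
  | zero => simpa using RF.const (0 : ℂ)
  | succ l => simpa only [PowerSeries.coeff_succ_X_mul] using hw l

end

/-! ## Partitions of parameter sets -/

/-- `H` is the disjoint union of the constructible sets `Hs a`, `a ∈ F` -/
structure Part {α σ : Type} (F : Finset α) (Hs : α → Set (σ → ℂ)) (H : Set (σ → ℂ)) : Prop where
  con : ∀ a ∈ F, Constructible (Hs a)
  dis : ∀ a ∈ F, ∀ b ∈ F, a ≠ b → ∀ z, z ∈ Hs a → z ∈ Hs b → False
  cov : ∀ z, z ∈ H ↔ ∃ a ∈ F, z ∈ Hs a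

section

variable {E ι α σ : Type} [Finite E] [Fintype ι] [Finite σ] {F : Finset α}
  {Hs : α → Set (σ → ℂ)} {H : Set (σ → ℂ)}

theorem vol_part (P : HodgeMeasure) (hF : Part F Hs H) (r : σ → E)
    {B : Set ((E → ℂ) × (ι → PowerSeries ℂ))} (hB : Cy B) :
    vol P.rat xq {z : (E → ℂ) × (ι → PowerSeries ℂ) | (fun s => z.1 (r s)) ∈ H ∧ z ∈ B} =
      ∑ a ∈ F, vol P.rat xq {z : (E → ℂ) × (ι → PowerSeries ℂ) |
        (fun s => z.1 (r s)) ∈ Hs a ∧ z ∈ B} := by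
  classical
  have h0 := vol_biU P F (s := fun a => {z : (E → ℂ) × (ι → PowerSeries ℂ) |
    (fun s => z.1 (r s)) ∈ Hs a ∧ z ∈ B}) (fun a ha => Cy.and (cy_S (hF.con a ha) r) hB) ?_
  · rw [← h0]
    congr 1
    ext z
    simp only [Set.mem_iUnion]
    constructor
    · rintro ⟨h1, h2⟩
      obtain ⟨a, ha, h3⟩ := (hF.cov _).1 h1
      exact ⟨a, ha, h3, h2⟩
    · rintro ⟨a, ha, h3, h2⟩
      exact ⟨(hF.cov _).2 ⟨a, ha, h3⟩, h2⟩
  · intro a ha b hb hab
    rw [Set.disjoint_left]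
    rintro z ⟨h1, -⟩ ⟨h2, -⟩
    exact hF.dis a ha b hb hab _ h1 h2

end

/-- another set of starting points -/
def reH (h : HH) (H : Set (h.σ → ℂ)) : HH := { h with H := H }

/-- another set of starting points -/
def reT (h : HT) (H : Set (h.σ → ℂ)) : HT := { h with H := H }

theorem cy_HH {E : Type} [Finite E] (h : HH) {C : Set ((E → ℂ) × (Fin 2 → PowerSeries ℂ))}
    (hC : Cy C) : Cy {z : (E ⊕ h.σ → ℂ) × (Fin 2 → PowerSeries ℂ) |
      ((fun e => z.1 (Sum.inl e)),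
      ![PowerSeries.C (eval (fun s => z.1 (Sum.inr s)) h.v) + PowerSeries.X * z.2 0,
        PowerSeries.C (eval (fun s => z.1 (Sum.inr s)) h.v') + PowerSeries.X * z.2 1]) ∈ C} := by
  refine cy_sub hC (φ := fun z e => z.1 (Sum.inl e)) (fun s => RF.par _) (ψ := fun z =>
    ![PowerSeries.C (eval (fun s => z.1 (Sum.inr s)) h.v) + PowerSeries.X * z.2 0,
        PowerSeries.C (eval (fun s => z.1 (Sum.inr s)) h.v') + PowerSeries.X * z.2 1]) ?_
  intro a l
  fin_cases a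
  · exact RF_CX (RF_u h.v Sum.inr) (RF_X fun l => RF.arc 0 l) l
  · exact RF_CX (RF_u h.v' Sum.inr) (RF_X fun l => RF.arc 1 l) l

theorem cy_FH {E : Type} [Finite E] (c : ℂ) (t : Fam) (h : HT) (k : ℕ)
    {C : Set ((E → ℂ) × (Fin 2 → PowerSeries ℂ))} (hC : Cy C) :
    Cy {z : (E ⊕ (t.σ ⊕ h.σ) → ℂ) × (Fin 2 → PowerSeries ℂ) |
    ((fun e => z.1 (Sum.inl e)), ![PowerSeries.C c +
      arcE (eval (fun s => z.1 (Sum.inr (Sum.inl s))) t.u) k (z.2 0),
      PowerSeries.C (eval (fun s => z.1 (Sum.inr (Sum.inr s))) h.v) +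
        PowerSeries.X * z.2 1]) ∈ C} := by
  refine cy_sub hC (φ := fun z e => z.1 (Sum.inl e)) (fun s => RF.par _) (ψ := fun z =>
    ![PowerSeries.C c + arcE (eval (fun s => z.1 (Sum.inr (Sum.inl s))) t.u) k (z.2 0),
      PowerSeries.C (eval (fun s => z.1 (Sum.inr (Sum.inr s))) h.v) +
        PowerSeries.X * z.2 1]) ?_
  intro a l
  fin_cases a
  · exact RF_CX (RF.const c) (RF.arcE (RF_u t.u fun s => Sum.inr (Sum.inl s)) k
      fun l => RF.arc 0 l) l
  · exact RF_CX (RF_u h.v fun s => Sum.inr (Sum.inr s)) (RF_X fun l => RF.arc 1 l) l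

theorem cy_CH {E : Type} [Finite E] (c : ℂ) (h : HT)
    {C : Set ((E → ℂ) × (Fin 2 → PowerSeries ℂ))} (hC : Cy C) :
    Cy {z : (E ⊕ h.σ → ℂ) × (Unit → PowerSeries ℂ) |
    ((fun e => z.1 (Sum.inl e)), ![PowerSeries.C c,
      PowerSeries.C (eval (fun s => z.1 (Sum.inr s)) h.v) + PowerSeries.X * z.2 ()]) ∈ C} := by
  refine cy_sub hC (φ := fun z e => z.1 (Sum.inl e)) (fun s => RF.par _) (ψ := fun z =>
    ![PowerSeries.C c,
      PowerSeries.C (eval (fun s => z.1 (Sum.inr s)) h.v) + PowerSeries.X * z.2 ()]) ?_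
  intro a l
  fin_cases a
  · have h1 : RF fun z : (E ⊕ h.σ → ℂ) × (Unit → PowerSeries ℂ) =>
        PowerSeries.coeff l (PowerSeries.C c) := RF.const _
    exact h1
  · exact RF_CX (RF_u h.v Sum.inr) (RF_X fun l => RF.arc () l) l

theorem muHH_part (P : HodgeMeasure) (h : HH) {α : Type} {F : Finset α}
    {Hs : α → Set (h.σ → ℂ)} (hF : Part F Hs h.H) {E : Type} [Finite E]
    {C : Set ((E → ℂ) × (Fin 2 → PowerSeries ℂ))} (hC : Cy C) (M : ℕ) :
    muHH P h E C M = ∑ a ∈ F, muHH P (reH h (Hs a)) E C M := by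
  have := h.fin
  have h1 := congrArg (h.lam * ·) (vol_part P hF (E := E ⊕ h.σ) Sum.inr (cy_HH h hC))
  simp only [Finset.mul_sum] at h1
  exact h1

theorem vFH_part (P : HodgeMeasure) (c : ℂ) {t : Fam} (ht : Constructible t.S) (h : HT) (k : ℕ)
    {α : Type} {F : Finset α} {Hs : α → Set (h.σ → ℂ)} (hF : Part F Hs h.H) {E : Type}
    [Finite E] {C : Set ((E → ℂ) × (Fin 2 → PowerSeries ℂ))} (hC : Cy C) :
    vFH P c t h k C = ∑ a ∈ F, vFH P c t (reT h (Hs a)) k C := by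
  have := h.fin
  have := t.fin
  have h1 := vol_part P hF (E := E ⊕ (t.σ ⊕ h.σ)) (fun s => Sum.inr (Sum.inr s))
    (Cy.and (cy_S (ι := Fin 2) ht fun s => Sum.inr (Sum.inl s)) (cy_FH c t h k hC))
  have e : ∀ H : Set (h.σ → ℂ), vFH P c t (reT h H) k C =
      vol P.rat xq {z : (E ⊕ (t.σ ⊕ h.σ) → ℂ) × (Fin 2 → PowerSeries ℂ) |
        (fun s => z.1 (Sum.inr (Sum.inr s))) ∈ H ∧ z ∈ {z : (E ⊕ (t.σ ⊕ h.σ) → ℂ) ×
          (Fin 2 → PowerSeries ℂ) | (fun s => z.1 (Sum.inr (Sum.inl s))) ∈ t.S ∧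
          ((fun e => z.1 (Sum.inl e)), ![PowerSeries.C c +
      arcE (eval (fun s => z.1 (Sum.inr (Sum.inl s))) t.u) k (z.2 0),
      PowerSeries.C (eval (fun s => z.1 (Sum.inr (Sum.inr s))) h.v) +
        PowerSeries.X * z.2 1]) ∈ C}} := by
    intro H
    unfold vFH
    congr 1
    ext z
    exact and_left_comm
  have e0 := e h.H
  change vFH P c t h k C = _ at e0
  rw [e0, h1]
  exact Finset.sum_congr rfl fun a _ => (e (Hs a)).symm

theorem vCH_part (P : HodgeMeasure) (c : ℂ) (h : HT)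
    {α : Type} {F : Finset α} {Hs : α → Set (h.σ → ℂ)} (hF : Part F Hs h.H) {E : Type}
    [Finite E] {C : Set ((E → ℂ) × (Fin 2 → PowerSeries ℂ))} (hC : Cy C) :
    vCH P c h C = ∑ a ∈ F, vCH P c (reT h (Hs a)) C := by
  have := h.fin
  exact vol_part P hF (E := E ⊕ h.σ) Sum.inr (cy_CH c h hC)

theorem muFH_part (P : HodgeMeasure) (c : ℂ) {s : Src} (hs : ∀ t ∈ s.ts, t.Good) (h : HT)
    {α : Type} {F : Finset α} {Hs : α → Set (h.σ → ℂ)} (hF : Part F Hs h.H) {E : Type}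
    [Finite E] {C : Set ((E → ℂ) × (Fin 2 → PowerSeries ℂ))} (hC : Cy C) (M : ℕ) :
    muFH P c s h E C M = ∑ a ∈ F, muFH P c s (reT h (Hs a)) E C M := by
  have e1 : ∀ (ts : List Fam), (∀ t ∈ ts, t.Good) → ∀ k : ℕ,
      (ts.map fun t => t.κ k * vFH P c t h k C).sum =
        ∑ a ∈ F, (ts.map fun t => t.κ k * vFH P c t (reT h (Hs a)) k C).sum := by
    intro ts hts k
    induction ts with
    | nil => simp
    | cons t ts ih =>
      simp only [List.map_cons, List.sum_cons]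
      rw [ih fun t' ht' => hts t' (List.mem_cons_of_mem _ ht'), Finset.sum_add_distrib,
        ← Finset.mul_sum, vFH_part P c (hts t List.mem_cons_self).1 h k hF hC]
  have e2 : ∑ k ∈ Finset.Icc 1 M, (s.ts.map fun t => t.κ k * vFH P c t h k C).sum +
      s.b M * vCH P c h C = ∑ a ∈ F, (∑ k ∈ Finset.Icc 1 M, (s.ts.map fun t =>
        t.κ k * vFH P c t (reT h (Hs a)) k C).sum + s.b M * vCH P c (reT h (Hs a)) C) := by
    rw [Finset.sum_add_distrib, ← Finset.mul_sum, ← vCH_part P c h hF hC, Finset.sum_comm]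
    congr 1
    exact Finset.sum_congr rfl fun k _ => e1 s.ts hs k
  have e3 := congrArg (h.lam * ·) e2
  simp only [Finset.mul_sum] at e3
  exact e3

theorem cy_SD {E : Type} [Finite E] (G : P2) (w : Bool) {Q : Set (E ⊕ Bool → ℂ)}
    (hQ : Constructible Q) (i : ℕ) : Cy (SD G w Q i) :=
  cy_of (M5Aux.cyl_SD G w hQ i)

/-- `RegM` from a partition of the starting points -/
theorem regM_HH_part (hRA : Stmt_RA7) {P : HodgeMeasure} {G : P2} {Λ : ℂ → Set ℚ} (h : HH)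
    {α : Type} {F : Finset α} {Hs : α → Set (h.σ → ℂ)} (hF : Part F Hs h.H)
    (h1 : ∀ a ∈ F, RegM P (muHH P (reH h (Hs a))) G Λ) : RegM P (muHH P h) G Λ := by
  refine regM_congr hRA (fun w E _ Q hQ i M _ _ => ?_) (regM_sum hRA F _ h1)
  exact (muHH_part P h hF (cy_SD G w hQ.1 i) M).symm

theorem regM_FH_part (hRA : Stmt_RA7) {P : HodgeMeasure} {G : P2} {Λ : ℂ → Set ℚ} (c : ℂ)
    {s : Src} (hs : ∀ t ∈ s.ts, t.Good) (h : HT)
    {α : Type} {F : Finset α} {Hs : α → Set (h.σ → ℂ)} (hF : Part F Hs h.H)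
    (h1 : ∀ a ∈ F, RegM P (muFH P c s (reT h (Hs a))) G Λ) : RegM P (muFH P c s h) G Λ := by
  refine regM_congr hRA (fun w E _ Q hQ i M _ _ => ?_) (regM_sum hRA F _ h1)
  exact (muFH_part P c hs h hF (cy_SD G w hQ.1 i) M).symm

end RMAux

end Pool.Agent.Mono.BV
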