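import Pool.Agent.Work.Monodromy.Interface7W

/-!
# Block SPEC7: specialisation at `t = 0`
-/

set_option autoImplicit false

namespace Pool.Agent.Mono.BG

open MvPolynomial TS PC RO

namespace SPEC7Aux

/-- the coefficient `v` of a functional -/
noncomputable def cf (v : ℕ) (l : P2 →ₗ[ℂ] RT) : P2 →ₗ[ℂ] ℂ where
  toFun ψ := PowerSeries.coeff v (l ψ)
  map_add' x y := by rw [map_add, map_add]
  map_smul' c x := by
    rw [map_smul, RingHom.id_apply, PowerSeries.coeff_smul]

theorem cf_apply (v : ℕ) (l : P2 →ₗ[ℂ] RT) (ψ : P2) : cf v l ψ = PowerSeries.coeff v (l ψ) := rfl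

/-- the coefficient `v` of a product, if the smaller coefficients of the second factor vanish -/
theorem coeff_mul_of (v : ℕ) (a x : RT) (h : ∀ j < v, PowerSeries.coeff j x = 0) :
    PowerSeries.coeff v (a * x) = PowerSeries.constantCoeff a * PowerSeries.coeff v x := by
  rw [PowerSeries.coeff_mul, Finset.sum_eq_single (0, v)]
  · rw [PowerSeries.coeff_zero_eq_constantCoeff_apply]
  · rintro ⟨i, j⟩ hij hne
    have h1 : i + j = v := Finset.HasAntidiagonal.mem_antidiagonal.1 hij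
    have h2 : j < v := by
      rcases Nat.lt_or_ge j v with h3 | h3
      · exact h3
      · exfalso
        refine hne ?_
        have h4 : i = 0 := by omega
        have h5 : j = v := by omega
        rw [h4, h5]
    rw [h j h2, mul_zero]
  · intro h1
    exact absurd (Finset.HasAntidiagonal.mem_antidiagonal.2 (zero_add v)) h1

theorem axr (fx : Bool) (be : RT) (j : Fin 2) (G : P2) (l : ℕ → (P2 →ₗ[ℂ] RT)) (v : ℕ)
    (hv : ∀ i ψ, ∀ k < v, PowerSeries.coeff k (l i ψ) = 0) (h : AxR fx be j G l) :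
    AxR fx (PowerSeries.constantCoeff be) j G fun i => cf v (l i) := by
  refine ⟨fun hf => ⟨fun i ψ => ?_, fun ψ => ?_⟩, fun hf => ⟨fun i ψ => ?_, fun ψ => ?_⟩⟩
  · rw [cf_apply, cf_apply, cf_apply, (h.1 hf).1, map_sub, coeff_mul_of v _ _ (hv i ψ)]
  · rw [cf_apply, (h.1 hf).2, map_zero]
  · rw [cf_apply, cf_apply, (h.2 hf).1, map_neg]
  · rw [cf_apply, (h.2 hf).2, map_zero]

end SPEC7Aux

open SPEC7Aux in
theorem stmt_SPEC7 : Stmt_SPEC7 := by
  intro tU tV be be' ga G l hTW hl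
  classical
  -- the least order
  have hex : ∃ v : ℕ, ∃ i ψ, PowerSeries.coeff v (l i ψ) ≠ 0 := by
    obtain ⟨i, hi⟩ := hl
    by_contra hcon
    push Not at hcon
    refine hi (LinearMap.ext fun ψ => PowerSeries.ext fun v => ?_)
    rw [hcon v i ψ]
    simp
  set v := Nat.find hex with hv
  obtain ⟨i₀, ψ₀, hne⟩ := Nat.find_spec hex
  have hlt : ∀ i ψ, ∀ k < v, PowerSeries.coeff k (l i ψ) = 0 := by
    intro i ψ k hk
    by_contra h
    exact Nat.find_min hex hk ⟨i, ψ, h⟩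
  refine ⟨fun i => cf v (l i), ⟨?_, ?_, ?_, axr _ _ _ _ _ _ hlt hTW.ax0,
    axr _ _ _ _ _ _ hlt hTW.ax1⟩, i₀, fun h => hne ?_⟩
  · intro i
    obtain ⟨K, hK⟩ := hTW.supp i
    refine ⟨K, fun a b hab ψ => ?_⟩
    rw [cf_apply, hK a b hab ψ, map_zero]
  · intro i ψ
    rw [cf_apply, cf_apply, hTW.mulG, coeff_mul_of v _ _ (hlt i ψ), map_sub, map_natCast]
  · intro ψ
    rw [cf_apply, hTW.mul0, map_zero]
  · have h1 := congrArg (fun L : P2 →ₗ[ℂ] ℂ => L ψ₀) h
    exact h1

end Pool.Agent.Mono.BG
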