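import Pool.Agent.Work.Monodromy7.SQBase

/-!
# Block SQ71: shifts (helper54)
-/

set_option autoImplicit false

namespace Pool.Agent.Mono.BV

open TS SQAux

theorem stmt_SQ71 : Stmt_SQ71 := by
  intro Λ κ h
  have hsh := fun c => shift h c
  obtain ⟨l, num, hl, e⟩ := h
  set den : Polynomial K := denP l with hden
  set D : ℕ := max den.natDegree (num.natDegree + 1) with hD
  have hc1 : PowerSeries.constantCoeff (den : PowerSeries K) ≠ 0 := by
    rw [hden, constCoeff_denP l fun q hq => (hl q hq).1]
    exact one_ne_zero
  -- the functions
  let χ : ℕ → ℕ → K := fun s b => ∑ i ∈ Finset.range (s + 1), den.coeff i * κ (b + (s - i))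
  let φ : ℕ → ℕ → K := fun s a => PowerSeries.coeff a
    ((PowerSeries.X : PowerSeries K) ^ s * (den : PowerSeries K)⁻¹)
  refine ⟨D, fun i => φ i, fun i => χ i, ?_, ?_⟩
  · intro i
    constructor
    · refine ⟨l, Polynomial.X ^ (i : ℕ), hl, ?_⟩
      have h1 : PowerSeries.mk (φ i) = (PowerSeries.X : PowerSeries K) ^ (i : ℕ) *
          (den : PowerSeries K)⁻¹ := by
        ext a
        rw [PowerSeries.coeff_mk]
      rw [h1, Polynomial.coe_pow, Polynomial.coe_X, ← hden, mul_left_comm,
        PowerSeries.mul_inv_cancel _ hc1, mul_one]
    · exact SQAux.sum _ (fun j b => den.coeff j * κ (b + ((i : ℕ) - j))) fun j _ =>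
        Q1Aux.smul _ (hsh _)
  · intro a b
    have h1 : (den : PowerSeries K) * PowerSeries.mk (fun m => κ (m + b)) =
        ∑ s ∈ Finset.range D, PowerSeries.C (χ s b) * PowerSeries.X ^ s := by
      ext s
      have h2 : PowerSeries.coeff s ((den : PowerSeries K) * PowerSeries.mk fun m => κ (m + b)) =
          χ s b := by
        rw [PowerSeries.coeff_mul, Finset.Nat.sum_antidiagonal_eq_sum_range_succ
          (fun i j => PowerSeries.coeff i (den : PowerSeries K) *
            PowerSeries.coeff j (PowerSeries.mk fun m => κ (m + b)))]
        apply Finset.sum_congr rfl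
        intro i _
        rw [Polynomial.coeff_coe, PowerSeries.coeff_mk]
        congr 2
        omega
      rw [h2, map_sum]
      by_cases hs : s < D
      · rw [Finset.sum_eq_single_of_mem s (Finset.mem_range.2 hs)]
        · rw [PowerSeries.coeff_C_mul, PowerSeries.coeff_X_pow_self, mul_one]
        · intro t _ hts
          rw [PowerSeries.coeff_C_mul, PowerSeries.coeff_X_pow, if_neg hts.symm, mul_zero]
      · have h3 : ∑ t ∈ Finset.range D, PowerSeries.coeff s (PowerSeries.C (χ t b) *
            (PowerSeries.X : PowerSeries K) ^ t) = 0 := by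
          apply Finset.sum_eq_zero
          intro t ht
          have := Finset.mem_range.1 ht
          rw [PowerSeries.coeff_C_mul, PowerSeries.coeff_X_pow, if_neg (by omega), mul_zero]
        rw [h3]
        -- the coefficient `s + b` of `num`
        have h4 : PowerSeries.coeff (s + b) ((den : PowerSeries K) * PowerSeries.mk κ) = χ s b := by
          rw [PowerSeries.coeff_mul, Finset.Nat.sum_antidiagonal_eq_sum_range_succ
            (fun i j => PowerSeries.coeff i (den : PowerSeries K) *
              PowerSeries.coeff j (PowerSeries.mk κ))]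
          symm
          apply Finset.sum_subset_zero_on_sdiff
          · intro i hi
            rw [Finset.mem_range] at hi ⊢
            omega
          · intro i hi
            rw [Finset.mem_sdiff, Finset.mem_range, Finset.mem_range] at hi
            rw [Polynomial.coeff_coe, Polynomial.coeff_eq_zero_of_natDegree_lt, zero_mul]
            omega
          · intro i hi
            rw [Finset.mem_range] at hi
            rw [Polynomial.coeff_coe, PowerSeries.coeff_mk]
            congr 2
            omega
        rw [← h4, e, Polynomial.coeff_coe, Polynomial.coeff_eq_zero_of_natDegree_lt]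
        omega
    have h5 : PowerSeries.mk (fun m => κ (m + b)) =
        ∑ s ∈ Finset.range D, PowerSeries.C (χ s b) * (PowerSeries.X ^ s *
          (den : PowerSeries K)⁻¹) := by
      have h6 : PowerSeries.mk (fun m => κ (m + b)) = (den : PowerSeries K)⁻¹ *
          ((den : PowerSeries K) * PowerSeries.mk (fun m => κ (m + b))) := by
        rw [← mul_assoc, PowerSeries.inv_mul_cancel _ hc1, one_mul]
      rw [h6, h1, Finset.mul_sum]
      apply Finset.sum_congr rfl
      intro s _
      ring
    have h7 := congrArg (PowerSeries.coeff a) h5
    rw [PowerSeries.coeff_mk, map_sum] at h7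
    rw [h7, Finset.sum_range]
    apply Finset.sum_congr rfl
    intro i _
    rw [PowerSeries.coeff_C_mul, mul_comm]

end Pool.Agent.Mono.BV
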