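import Pool.Agent.Work.Monodromy.Interface7V
import Pool.Agent.Work.Monodromy4.Q2
import Pool.Agent.Work.Monodromy4.Q3

/-!
# Tools for the blocks SQ71 - SQ75 (helper54)
-/

set_option autoImplicit false

namespace Pool.Agent.Mono.BV

open TS

namespace SQAux

/-- the constant term of `denP` -/
theorem constCoeff_denP (l : List (ℕ × ℕ)) (hl : ∀ q ∈ l, 1 ≤ q.1) :
    PowerSeries.constantCoeff (denP l : PowerSeries K) = 1 := by
  induction l with
  | nil => simp [denP]
  | cons q l ih =>
    rw [Q1Aux.denP_cons, Polynomial.coe_mul, map_mul,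
      ih (fun q hq => hl q (List.mem_cons_of_mem _ hq)), mul_one, Polynomial.constantCoeff_coe]
    have h1 : q.1 ≠ 0 := by
      have := hl q List.mem_cons_self
      omega
    simp [Polynomial.coeff_X_pow, h1.symm]

/-- shift by one -/
theorem shift1 {Λ : Set ℚ} {κ : ℕ → K} (h : ESeq Λ κ) : ESeq Λ fun m => κ (m + 1) := by
  obtain ⟨l, num, hl, e⟩ := h
  have h1 : (PowerSeries.X : PowerSeries K) * PowerSeries.mk (fun m => κ (m + 1)) =
      PowerSeries.mk κ - PowerSeries.C (κ 0) := by
    ext n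
    rcases n with _ | n
    · rw [PowerSeries.coeff_zero_X_mul]
      simp
    · rw [PowerSeries.coeff_succ_X_mul, map_sub, PowerSeries.coeff_mk, PowerSeries.coeff_mk,
        PowerSeries.coeff_C, if_neg (by omega), sub_zero]
  have h2 : (PowerSeries.X : PowerSeries K) * ((denP l : PowerSeries K) *
      PowerSeries.mk (fun m => κ (m + 1))) =
      ((num - Polynomial.C (κ 0) * denP l : Polynomial K) : PowerSeries K) := by
    rw [mul_left_comm, h1, mul_sub, e, Polynomial.coe_sub, Polynomial.coe_mul, Polynomial.coe_C]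
    ring
  have h3 : (num - Polynomial.C (κ 0) * denP l).coeff 0 = 0 := by
    have := congrArg (PowerSeries.coeff 0) h2
    rw [PowerSeries.coeff_zero_X_mul, Polynomial.coeff_coe] at this
    exact this.symm
  obtain ⟨r, hr⟩ := Polynomial.X_dvd_iff.2 h3
  refine ⟨l, r, hl, ?_⟩
  rw [hr, Polynomial.coe_mul, Polynomial.coe_X] at h2
  exact mul_left_cancel₀ PowerSeries.X_ne_zero h2

theorem shift {Λ : Set ℚ} {κ : ℕ → K} (h : ESeq Λ κ) (c : ℕ) : ESeq Λ fun m => κ (m + c) := by
  induction c with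
  | zero => exact h
  | succ c ih =>
    have := shift1 ih
    have e : (fun m => κ (m + 1 + c)) = fun m => κ (m + (c + 1)) := by
      funext m
      congr 1
      omega
    rw [← e]
    exact this

theorem sum {Λ : Set ℚ} {ι : Type*} (s : Finset ι) (f : ι → ℕ → K) (h : ∀ i ∈ s, ESeq Λ (f i)) :
    ESeq Λ fun m => ∑ i ∈ s, f i m := by
  classical
  induction s using Finset.induction_on with
  | empty => exact Q1Aux.fin 0 fun m _ => by simp
  | insert a s ha ih =>
    have h1 := Q1Aux.add (h a (Finset.mem_insert_self _ _))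
      (ih fun i hi => h i (Finset.mem_insert_of_mem hi))
    have e : (fun m => ∑ i ∈ insert a s, f i m) = fun m => f a m + ∑ i ∈ s, f i m := by
      funext m
      rw [Finset.sum_insert ha]
    rw [e]
    exact h1

theorem zero {Λ : Set ℚ} : ESeq Λ fun _ => 0 := Q1Aux.fin 0 fun _ _ => rfl

/-- multisection -/
theorem multi {Λ : Set ℚ} {κ : ℕ → K} (p : ℕ) (hp : 1 ≤ p) (h : ESeq Λ κ) :
    ESeq {r | ∃ s ∈ Λ, r = (p : ℚ) * s} fun m => κ (p * m) := by
  obtain ⟨l, num, hl, e⟩ := h
  have hp0 : p ≠ 0 := by omega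
  -- the new list
  set l' : List (ℕ × ℕ) := l.map fun q => (q.1, p * q.2) with hl'
  have hdvd : ∃ g : Polynomial K, Polynomial.expand K p (denP l') = denP l * g := by
    rw [hl']
    clear e hl hl'
    induction l with
    | nil => exact ⟨1, by simp [denP]⟩
    | cons q l ih =>
      obtain ⟨g, hg⟩ := ih
      obtain ⟨g', hg'⟩ : (1 - Polynomial.C (xq ^ q.2) * Polynomial.X ^ q.1 : Polynomial K) ∣
          1 - Polynomial.C (xq ^ (p * q.2)) * Polynomial.X ^ (q.1 * p) := by
        have h1 : (Polynomial.C (xq ^ (p * q.2)) * Polynomial.X ^ (q.1 * p) : Polynomial K) =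
            (Polynomial.C (xq ^ q.2) * Polynomial.X ^ q.1) ^ p := by
          rw [mul_pow, ← pow_mul, ← Polynomial.C_pow, ← pow_mul, mul_comm p q.2]
        rw [h1]
        simpa using sub_dvd_pow_sub_pow (1 : Polynomial K)
          (Polynomial.C (xq ^ q.2) * Polynomial.X ^ q.1) p
      refine ⟨g' * g, ?_⟩
      rw [List.map_cons, Q1Aux.denP_cons, Q1Aux.denP_cons, map_mul, hg]
      have h2 : Polynomial.expand K p (1 - Polynomial.C (xq ^ (p * q.2)) * Polynomial.X ^ q.1) =
          1 - Polynomial.C (xq ^ (p * q.2)) * Polynomial.X ^ (q.1 * p) := by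
        have h3 : Polynomial.expand K p (Polynomial.X ^ q.1) = Polynomial.X ^ (q.1 * p) := by
          rw [map_pow, Polynomial.expand_X, ← pow_mul, mul_comm p q.1]
        rw [map_sub, map_one, map_mul, Polynomial.expand_C, h3]
      change Polynomial.expand K p (1 - Polynomial.C (xq ^ (p * q.2)) * Polynomial.X ^ q.1) *
        (denP l * g) = _
      rw [h2, hg']
      ring
  obtain ⟨g, hg⟩ := hdvd
  have h3 : ((Polynomial.expand K p (denP l') : Polynomial K) : PowerSeries K) *
      PowerSeries.mk κ = ((num * g : Polynomial K) : PowerSeries K) := by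
    rw [hg, Polynomial.coe_mul, Polynomial.coe_mul, ← e]
    ring
  -- coefficients of the multiples of `p`
  refine ⟨l', Polynomial.contract p (num * g), ?_, ?_⟩
  · intro q hq
    rw [hl', List.mem_map] at hq
    obtain ⟨q', hq', rfl⟩ := hq
    obtain ⟨h4, h5⟩ := hl q' hq'
    refine ⟨h4, _, h5, ?_⟩
    push_cast
    ring
  · ext n
    rw [Polynomial.coeff_coe, Polynomial.coeff_contract hp0]
    have h4 := congrArg (PowerSeries.coeff (p * n)) h3
    rw [Polynomial.coeff_coe, mul_comm p n] at h4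
    rw [← h4, PowerSeries.coeff_mul, PowerSeries.coeff_mul]
    symm
    -- only the pairs divisible by `p` count
    have h5 : (Finset.HasAntidiagonal.antidiagonal n).image (fun z => (z.1 * p, z.2 * p)) ⊆
        Finset.HasAntidiagonal.antidiagonal (n * p) := by
      intro z hz
      obtain ⟨w, hw, rfl⟩ := Finset.mem_image.1 hz
      rw [Finset.HasAntidiagonal.mem_antidiagonal] at hw ⊢
      rw [← add_mul, hw]
    rw [← Finset.sum_subset h5, Finset.sum_image]
    · apply Finset.sum_congr rfl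
      intro z _
      rw [Polynomial.coeff_coe, Polynomial.coeff_coe, Polynomial.coeff_expand hp,
        if_pos (Dvd.intro_left _ rfl), Nat.mul_div_cancel _ hp, PowerSeries.coeff_mk,
        PowerSeries.coeff_mk, mul_comm z.2 p]
    · intro z _ w _ hzw
      have h6 := (Prod.mk.injEq _ _ _ _).mp hzw
      ext
      · exact Nat.eq_of_mul_eq_mul_right hp h6.1
      · exact Nat.eq_of_mul_eq_mul_right hp h6.2
    · intro z hz hzn
      rw [Polynomial.coeff_coe, Polynomial.coeff_expand hp]
      split_ifs with hd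
      · exfalso
        apply hzn
        rw [Finset.HasAntidiagonal.mem_antidiagonal] at hz
        obtain ⟨a, ha⟩ := hd
        have h7 : p ∣ z.2 := by
          have : p ∣ z.1 + z.2 := by rw [hz]; exact Dvd.intro_left _ rfl
          exact (Nat.dvd_add_right (Dvd.intro _ ha.symm)).1 this
        obtain ⟨b, hb⟩ := h7
        refine Finset.mem_image.2 ⟨(a, b), ?_, ?_⟩
        · rw [Finset.HasAntidiagonal.mem_antidiagonal]
          apply Nat.eq_of_mul_eq_mul_right hp
          rw [← hz, ha, hb]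
          ring
        · ext
          · simp [ha, mul_comm]
          · simp [hb, mul_comm]
      · rw [zero_mul]

/-- constants -/
theorem const (c : K) : ESeq {0} fun _ => c := by
  have h1 : ESeq ({0} : Set ℚ) fun m => if 1 ∣ m then xq ^ (0 * (m / 1)) else 0 :=
    Q1Aux.geo 1 0 le_rfl (by simp)
  have h2 := Q1Aux.smul c h1
  have e : (fun _ : ℕ => c) = fun m => c * (if 1 ∣ m then xq ^ (0 * (m / 1)) else 0) := by
    funext m
    simp
  rw [e]
  exact h2

/-- forward shift -/
theorem delay {Λ : Set ℚ} {κ : ℕ → K} (h : ESeq Λ κ) (w : ℕ) :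
    ESeq Λ fun m => if w ≤ m then κ (m - w) else 0 := by
  obtain ⟨l, num, hl, e⟩ := h
  refine ⟨l, num * Polynomial.X ^ w, hl, ?_⟩
  rw [Polynomial.coe_mul, Polynomial.coe_pow, Polynomial.coe_X, ← e, mul_assoc]
  congr 1
  ext n
  rw [PowerSeries.coeff_mk, PowerSeries.coeff_mul_X_pow']
  simp

/-- sequences along a ray, one factor -/
theorem ray1 {k : Kd} {W : ℕ → K} (p : ℕ) (h : EK k W) :
    ESeq {r | ¬ (k.fs = true ∧ 1 ≤ p) ∧ r = (p : ℚ) * k.r} fun i => W (p * i) := by
  rcases Nat.eq_zero_or_pos p with rfl | hp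
  · have h1 : (fun i => W (0 * i)) = fun _ => W 0 := by
      funext i
      rw [zero_mul]
    rw [h1]
    refine Q1Aux.mono ?_ (const (W 0))
    rintro r rfl
    exact ⟨by simp, by simp⟩
  · refine Q1Aux.mono ?_ (multi p hp h)
    rintro r ⟨s, ⟨h1, h2⟩, h3⟩
    refine ⟨?_, by rw [h3, h2]⟩
    rintro ⟨h4, -⟩
    rw [h1] at h4
    exact absurd h4 (by simp)

/-- sequences along a ray -/
theorem ray2 {k k' : Kd} {W κ : ℕ → K} (p q : ℕ) (h : EK k W) (h' : EK k' κ) :
    ESeq {r | ¬ (k.fs = true ∧ 1 ≤ p) ∧ ¬ (k'.fs = true ∧ 1 ≤ q) ∧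
      r = (p : ℚ) * k.r + (q : ℚ) * k'.r} fun i => W (p * i) * κ (q * i) := by
  refine Q1Aux.mono ?_ (stmt_Q2 _ _ _ _ (ray1 p h) (ray1 q h'))
  rintro r ⟨a, ⟨h1, h2⟩, b, ⟨h3, h4⟩, h5⟩
  exact ⟨h1, h3, by rw [h5, h2, h4]⟩

/-- sequences along a ray, dilated -/
theorem ray3 {Λ : Set ℚ} {k k' : Kd} {W κ : ℕ → K} (A B p q : ℕ) (h : EK k W) (h' : EK k' κ)
    (hN : 1 ≤ p * A + q * B) (hR : Rt Λ k k' A B p q) :
    ESeq Λ fun m => if p * A + q * B ∣ m then W (p * (m / (p * A + q * B))) *
      κ (q * (m / (p * A + q * B))) else 0 := by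
  have h1 := Q1Aux.scale (p * A + q * B) hN (ray2 p q h h')
  refine Q1Aux.mono ?_ h1
  rintro r ⟨h2, h3, h4⟩
  rcases hR with hR | hR | hR
  · exact absurd hR h2
  · exact absurd hR h3
  · convert hR using 1
    unfold rv
    rw [← h4]
    have : ((p * A + q * B : ℕ) : ℚ) ≠ 0 := by
      have : p * A + q * B ≠ 0 := by omega
      exact_mod_cast this
    field_simp

end SQAux

end Pool.Agent.Mono.BV
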