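import Pool.Agent.Work.Monodromy.Interface7T
import Pool.Agent.Work.Monodromy6.TREE

/-! Phase 7, tree part: the region theorem. -/

set_option autoImplicit false
set_option linter.unusedSimpArgs false
set_option linter.unusedVariables false

namespace Pool.Agent.Mono.BG.T7

open MvPolynomial PC PC.TT

/-- classes of charts with sets of rates -/
structure Tower (Λ : Set ℚ) (n : ℕ) (g : ℕ → P2)
    (K : ℕ → ℕ → ℕ → Polynomial ℂ → Set ℚ → Prop) : Prop where
  ne : RR n g ≠ 0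
  mul : ∀ j ∈ Finset.Icc 1 n, 2 ≤ j → ¬ IsUnit (g j) → 1 / (j : ℚ) ∈ Λ
  cert : ∃ (a b : P2) (ρ : Polynomial ℂ), ρ ≠ 0 ∧
    a * RR n g + b * pderiv 1 (RR n g) = Polynomial.aeval (X 0 : P2) ρ
  chart : ∀ {M H e : ℕ} {Φ : Polynomial ℂ} {W : Set ℚ}, K M H e Φ W → Chart M H e Φ
  child : ∀ {M H e : ℕ} {Φ : Polynomial ℂ} {W : Set ℚ}, K M H e Φ W → ∀ {p q : ℕ}, 1 ≤ p → 1 ≤ q →
    p.Coprime q → ∀ {lam : ℂ}, lam ≠ 0 → K (p * M) (p * H + q) (p * (p * e + q))
      (Φ.comp (Polynomial.X ^ p) + Polynomial.C lam * Polynomial.X ^ (p * H + q)) (step7 W p q)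
  shift : ∀ {M H e : ℕ} {Φ : Polynomial ℂ} {W : Set ℚ}, K M H e Φ W → ∀ ψ : Polynomial ℂ,
    ψ.coeff 0 = 0 → K M H e (Φ + Polynomial.X ^ H * ψ) W
  exp : ∀ {M H e : ℕ} {Φ : Polynomial ℂ} {W : Set ℚ}, K M H e Φ W → ∀ {p q aL bR : ℕ}
    {I : Polynomial ℂ}, IsEdge (chartMap M H Φ (TT.FF n g)) p q aL bR I →
    e * (bR + p * I.natDegree) ≤ aL →
    2 ≤ I.roots.toFinset.card + (if 2 ≤ p ∨ 1 ≤ bR then 1 else 0) →
    ∀ ν ∈ W, rate7 ν aL (bR + p * I.natDegree) p q ∈ Λ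

variable {Λ : Set ℚ} {n : ℕ} {g : ℕ → P2} {K : ℕ → ℕ → ℕ → Polynomial ℂ → Set ℚ → Prop}

lemma Tower.g_ne (h : Tower Λ n g K) {j : ℕ} (hj : j ∈ Finset.Icc 1 n) : g j ≠ 0 := by
  intro h0
  apply h.ne
  exact Finset.prod_eq_zero hj h0

/-! ## Reduced height one -/

lemma split_one (hC : Tower Λ n g K) {M H e : ℕ} {Φ : Polynomial ℂ} (hc : Chart M H e Φ)
    {p q A B AR : ℕ} (hp : 1 ≤ p) (hF : Vtx (chartMap M H Φ (TT.FF n g)) p q A B)
    (hR : Vtx (chartMap M H Φ (RR n g)) p q AR 1) :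
    ∃ (gg hh : P2) (A1 A2 : ℕ), chartMap M H Φ (TT.FF n g) = gg ^ B * hh ∧ Vtx gg p q A1 1 ∧
      Vtx hh p q A2 0 ∧ A = B * A1 + A2 ∧ 1 ≤ B ∧
      (chartMap M H Φ (TT.FF n g)).coeff (mon A B) =
        gg.coeff (mon A1 1) ^ B * hh.coeff (mon A2 0) ∧ (2 ≤ B → 1 / (B : ℚ) ∈ Λ) := by
  classical
  have hex : ∀ j : ℕ, ∃ z : ℕ × ℕ, j ∈ Finset.Icc 1 n →
      Vtx (chartMap M H Φ (g j)) p q z.1 z.2 := by
    intro j
    by_cases hj : j ∈ Finset.Icc 1 n
    · obtain ⟨A', B', h⟩ := exists_vtx hp q (Chart.map_ne_zero hc (hC.g_ne hj))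
      exact ⟨(A', B'), fun _ => h⟩
    · exact ⟨(0, 0), fun h => absurd h hj⟩
  choose z hz using hex
  have hRp : chartMap M H Φ (RR n g) = ∏ j ∈ Finset.Icc 1 n, chartMap M H Φ (g j) := by
    unfold RR; rw [map_prod]
  have hFp : chartMap M H Φ (TT.FF n g) = ∏ j ∈ Finset.Icc 1 n, chartMap M H Φ (g j) ^ j := by
    unfold TT.FF; rw [map_prod]; simp only [map_pow]
  have hR' := vtx_prod (Finset.Icc 1 n) (fun j => chartMap M H Φ (g j)) (fun j => (z j).1)
    (fun j => (z j).2) hp (fun j hj => hz j hj)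
  rw [← hRp] at hR'
  obtain ⟨_, hsum⟩ := hR.unique hp hR'
  -- the factor of height one
  obtain ⟨j0, hj0, hj0z⟩ : ∃ j0 ∈ Finset.Icc 1 n, (z j0).2 ≠ 0 := by
    by_contra hall
    push Not at hall
    rw [Finset.sum_eq_zero hall] at hsum
    omega
  have hsum2 := Finset.add_sum_erase (Finset.Icc 1 n) (fun j => (z j).2) hj0
  have hj01 : (z j0).2 = 1 := by omega
  have hrest : ∀ j ∈ (Finset.Icc 1 n).erase j0, (z j).2 = 0 := by
    have : ∑ j ∈ (Finset.Icc 1 n).erase j0, (z j).2 = 0 := by omega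
    exact Finset.sum_eq_zero_iff.1 this
  set gg := chartMap M H Φ (g j0) with hgg
  set hh := ∏ j ∈ (Finset.Icc 1 n).erase j0, chartMap M H Φ (g j) ^ j with hhh
  have hFgh : chartMap M H Φ (TT.FF n g) = gg ^ j0 * hh := by
    rw [hFp, hgg, hhh, Finset.mul_prod_erase (Finset.Icc 1 n)
      (fun j => chartMap M H Φ (g j) ^ j) hj0]
  have hVg : Vtx gg p q (z j0).1 1 := by rw [← hj01]; exact hz j0 hj0
  have hVh : Vtx hh p q (∑ j ∈ (Finset.Icc 1 n).erase j0, j * (z j).1) 0 := by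
    have := vtx_prod ((Finset.Icc 1 n).erase j0) (fun j => chartMap M H Φ (g j) ^ j)
      (fun j => j * (z j).1) (fun j => j * (z j).2) hp
      (fun j hj => (hz j (Finset.mem_of_mem_erase hj)).pow hp j)
    rwa [Finset.sum_eq_zero (s := (Finset.Icc 1 n).erase j0) (f := fun j => j * (z j).2)
      (fun j hj => by rw [hrest j hj, mul_zero])] at this
  set A2 := ∑ j ∈ (Finset.Icc 1 n).erase j0, j * (z j).1 with hA2
  have hj0p := (Finset.mem_Icc.1 hj0).1
  have hVF := (hVg.pow hp j0).mul hp hVh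
  rw [← hFgh] at hVF
  obtain ⟨eA, eB⟩ := hF.unique hp hVF
  rw [mul_one, add_zero] at eB
  subst eB
  have hcoef : (chartMap M H Φ (TT.FF n g)).coeff (mon A B) =
      gg.coeff (mon (z B).1 1) ^ B * hh.coeff (mon A2 0) := by
    have c1 : ∀ {X : P2} {a b : ℕ}, Vtx X p q a b →
        X.coeff (mon a b) = (inF p q X).trailingCoeff := by
      intro X a b hX
      have := inF_coeff hp q (F := X) (d := mon a b) (by rw [hX.ord hp]; simp [TT.W])
      rw [mon_one] at this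
      rw [← this, Polynomial.trailingCoeff, hX.natTrailingDegree hp]
    rw [c1 hF, c1 hVg, c1 hVh, hFgh, inF_mul, Polynomial.trailingCoeff_mul]
    congr 1
    have : ∀ m : ℕ, (inF p q (gg ^ m)).trailingCoeff = (inF p q gg).trailingCoeff ^ m := by
      intro m
      induction m with
      | zero =>
        have : inF p q (1 : P2) = 1 := by
          have := inF_C p q 1
          simpa using this
        rw [pow_zero, pow_zero, this]
        simp [Polynomial.trailingCoeff]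
      | succ m ih => rw [pow_succ, inF_mul, Polynomial.trailingCoeff_mul, ih, pow_succ]
    exact this B
  refine ⟨gg, hh, (z B).1, A2, hFgh, hVg, hVh, eA, hj0p, hcoef, ?_⟩
  intro hB2
  apply hC.mul B hj0 hB2
  intro hu
  obtain ⟨c, hc0, hcC⟩ : ∃ c : ℂ, c ≠ 0 ∧ g B = C c := by
    obtain ⟨c, hcu, hcg⟩ := MvPolynomial.isUnit_iff_eq_C_of_isReduced.1 hu
    exact ⟨c, hcu.ne_zero, hcg⟩
  have h1 : gg = C c := by rw [hgg, hcC, chartMap, aeval_C]; rfl
  have h2 := vtx_C p q hc0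
  rw [← h1] at h2
  have := (hVg.unique hp h2).2
  omega

lemma reg_one7 (hC : Tower Λ n g K) {M H e : ℕ} {Φ : Polynomial ℂ} {W : Set ℚ}
    (hc : K M H e Φ W) {p q A B AR : ℕ} (hp : 1 ≤ p)
    (hF : Vtx (chartMap M H Φ (TT.FF n g)) p q A B)
    (hR : Vtx (chartMap M H Φ (RR n g)) p q AR 1) (hN : 1 ≤ p * A + q * B) :
    RB7 Λ W (chartMap M H Φ (TT.FF n g)) p q
      (some ((chartMap M H Φ (TT.FF n g)).coeff (mon A B), A, B, 0, 1)) ∧
      (2 ≤ B → 1 / (B : ℚ) ∈ Λ) := by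
  obtain ⟨gg, hh, A1, A2, hFgh, hVg, hVh, eA, hB1, hcoef, hΛ⟩ := split_one hC (hC.chart hc) hp hF hR
  refine ⟨?_, hΛ⟩
  have h1 := RB7.fin1 (Λ := Λ) W gg hh p q A1 A2 B hp hB1 hVg.ne
    (by intro d hd; have := hVg.le d hd; rw [mul_one] at this; exact this)
    (by intro d hd h0; have := hVg.lt d hd (by omega); rw [h0, mul_one] at this; simpa using this)
    hVh.ne (by intro d hd; have := hVh.le d hd; simpa using this)
    (by rw [← eA]; exact hN)
  rw [hcoef, eA, hFgh]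
  exact h1

/-! ## Regions -/

/-- result for a region -/
def SomeOK7 (Λ W : Set ℚ) (G : P2) (p q A B : ℕ) : Prop :=
  ∃ p' q' : ℕ, RB7 Λ W G p q (some (G.coeff (mon A B), A, B, p', q')) ∧ 1 ≤ p' * A + q' * B ∧
    ((1 ≤ p' ∧ ∀ ν ∈ W, rate7 ν A B p' q' ∈ Λ) ∨
      (p' = 0 ∧ q' = 1 ∧ (B = 1 ∨ 1 / (B : ℚ) ∈ Λ)))

/-- closing a region -/
lemma none_of_some7 {W : Set ℚ} {G : P2} {p q A B : ℕ} (hN : 1 ≤ p * A + q * B)
    (hr : ∀ ν ∈ W, rate7 ν A B p q ∈ Λ) (h : SomeOK7 Λ W G p q A B) : RB7 Λ W G p q none := by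
  obtain ⟨p', q', h1, h2, h3⟩ := h
  refine RB7.close W G p q _ A B p' q' h1 ⟨hN, h2, hr, ?_⟩
  rcases h3 with h3 | ⟨h3, h4, h5 | h5⟩
  · exact Or.inl h3
  · by_cases h6 : ∃ ν ∈ W, rate7 ν A B p q = 1
    · obtain ⟨ν, hν, h7⟩ := h6
      refine Or.inr (Or.inl ⟨h3, h4, ?_⟩)
      have := hr ν hν
      rw [h7] at this
      rw [h5]
      simpa using this
    · push Not at h6
      exact Or.inr (Or.inr ⟨h3, h4, h5, h6⟩)
  · exact Or.inr (Or.inl ⟨h3, h4, h5⟩)

lemma rate7_child (ν : ℚ) (A B p q μ : ℕ) :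
    rate7 ((p : ℚ) * ν + q) (p * A + q * B) μ 1 0 = rate7 ν A B p q := by
  unfold rate7
  simp

lemma rate7_congr {ν : ℚ} {A B A' B' p q : ℕ} (h : p * A' + q * B' = p * A + q * B) :
    rate7 ν A' B' p q = rate7 ν A B p q := by
  unfold rate7
  rw [h]

lemma rates_child {W : Set ℚ} {A B p q μ : ℕ} (h : ∀ ν ∈ W, rate7 ν A B p q ∈ Λ) :
    ∀ ν ∈ step7 W p q, rate7 ν (p * A + q * B) μ 1 0 ∈ Λ := by
  rintro ν' ⟨ν, hν, rfl⟩
  rw [rate7_child]
  exact h ν hν

/-- a good edge gives everything, from the result for the children and the next region -/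
lemma edge_core7 (hC : Tower Λ n g K) {M H e : ℕ} {Φ : Polynomial ℂ} {W : Set ℚ}
    (hc : K M H e Φ W) {p q A B AR BR p2 q2 bR : ℕ} {I : Polynomial ℂ} (hp : 1 ≤ p)
    (hF : Vtx (chartMap M H Φ (TT.FF n g)) p q A B) (hR : Vtx (chartMap M H Φ (RR n g)) p q AR BR)
    (heA : e * B ≤ A)
    (hgood : GoodNext (chartMap M H Φ (TT.FF n g)) (chartMap M H Φ (RR n g)) p q A B AR BR p2 q2 bR I)
    (ihN : ∀ {M H e : ℕ} {Φ : Polynomial ℂ} {W : Set ℚ}, K M H e Φ W →
      ∀ {p q A B AR BR' : ℕ}, 1 ≤ p →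
      Vtx (chartMap M H Φ (TT.FF n g)) p q A B → Vtx (chartMap M H Φ (RR n g)) p q AR BR' →
      BR' < BR → e * B ≤ A → 1 ≤ p * A + q * B → (∀ ν ∈ W, rate7 ν A B p q ∈ Λ) →
      RB7 Λ W (chartMap M H Φ (TT.FF n g)) p q none) :
    (∀ ν ∈ W, rate7 ν A B p2 q2 ∈ Λ) ∧
    (∀ lam : ℂ, lam ≠ 0 → I.eval (lam ^ p2) = 0 →
      RB7 Λ (step7 W p2 q2) (chart p2 q2 lam (chartMap M H Φ (TT.FF n g))) 1 0 none) ∧
    RB7 Λ W (chartMap M H Φ (TT.FF n g)) p2 q2 none := by
  have hp2 := hgood.edge.hp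
  have hq2 := hgood.edge.hq
  have hG0 := hF.ne_zero
  have hR0 := hR.ne_zero
  have hI0 : I ≠ 0 := by
    intro h0
    have := hgood.edge.deg
    rw [h0] at this; simp at this
  have hB1 : 1 ≤ B := by
    have h1 := hgood.hB
    have h2 : 1 ≤ p2 * I.natDegree := Nat.mul_pos hp2 hgood.edge.deg
    omega
  have hN2 : 1 ≤ p2 * A + q2 * B := by
    have : 1 ≤ q2 * B := Nat.mul_pos hq2 hB1
    omega
  -- the exponent
  have hrΛ : ∀ ν ∈ W, rate7 ν A B p2 q2 ∈ Λ := by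
    have := hC.exp hc hgood.edge (by rw [hgood.hB]; exact heA) hgood.sp
    rw [hgood.hB] at this
    exact this
  refine ⟨hrΛ, fun lam hl hlam => ?_, ?_⟩
  · -- children
    have hcc := hC.child hc hp2 hq2 hgood.edge.cop hl
    have hVF := vtx_chart hp2 q2 lam hG0
    have hVR := vtx_chart hp2 q2 lam hR0
    rw [chart_chartMap] at hVF hVR ⊢
    rw [hgood.ordG] at hVF
    have hmult : (inF p2 q2 (chartMap M H Φ (TT.FF n g))).rootMultiplicity lam ≤ I.natDegree := by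
      have hex : Polynomial.expand ℂ p2 I ≠ 0 := by rwa [Ne, Polynomial.expand_eq_zero hp2]
      rw [hgood.inG, Polynomial.rootMultiplicity_mul
        (mul_ne_zero (pow_ne_zero _ Polynomial.X_ne_zero) hex),
        Polynomial.rootMultiplicity_eq_zero (p := Polynomial.X ^ bR) (by
          rw [Polynomial.IsRoot, Polynomial.eval_pow, Polynomial.eval_X]
          exact pow_ne_zero _ hl), zero_add]
      exact rootMult_expand hI0 hp2 hl
    refine ihN hcc le_rfl hVF hVR (hgood.mult lam hl) ?_ ?_ (rates_child hrΛ)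
    · set μ := (inF p2 q2 (chartMap M H Φ (TT.FF n g))).rootMultiplicity lam with hμ
      have h1 : p2 * μ ≤ B := by
        have := Nat.mul_le_mul_left p2 hmult
        have := hgood.hB
        omega
      calc p2 * (p2 * e + q2) * μ = (p2 * e + q2) * (p2 * μ) := by ring
        _ ≤ (p2 * e + q2) * B := Nat.mul_le_mul_left _ h1
        _ = p2 * (e * B) + q2 * B := by ring
        _ ≤ p2 * A + q2 * B := Nat.add_le_add_right (Nat.mul_le_mul_left p2 heA) _
    · omega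
  · obtain ⟨A', B', hV'⟩ := exists_vtx hp2 q2 hG0
    obtain ⟨AR', BR', hVR'⟩ := exists_vtx hp2 q2 hR0
    have hB' : B' ≤ B := height_mono hp hF hV' hgood.hlt
    have hordeq : p2 * A' + q2 * B' = p2 * A + q2 * B :=
      (hV'.ord hp2).symm.trans hgood.ordG
    have hA' : A ≤ A' := by
      have h1 : q2 * B' ≤ q2 * B := Nat.mul_le_mul_left q2 hB'
      have h2 : p2 * A ≤ p2 * A' := by omega
      exact Nat.le_of_mul_le_mul_left h2 hp2
    have hBR' : BR' < BR := by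
      rw [← hVR'.natTrailingDegree hp2]; exact hgood.multR
    refine ihN hc hp2 hV' hVR' hBR' ?_ (by omega) (fun ν hν => by
      rw [rate7_congr hordeq]; exact hrΛ ν hν)
    exact (Nat.mul_le_mul_left e hB').trans (heA.trans hA')

theorem region7 (hC : Tower Λ n g K) : ∀ (k : ℕ) {M H e : ℕ} {Φ : Polynomial ℂ} {W : Set ℚ},
    K M H e Φ W → ∀ {p q A B AR BR : ℕ}, 1 ≤ p →
      Vtx (chartMap M H Φ (TT.FF n g)) p q A B → Vtx (chartMap M H Φ (RR n g)) p q AR BR →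
      BR < k → e * B ≤ A → 1 ≤ p * A + q * B →
      (1 ≤ B → SomeOK7 Λ W (chartMap M H Φ (TT.FF n g)) p q A B) ∧
      ((∀ ν ∈ W, rate7 ν A B p q ∈ Λ) → RB7 Λ W (chartMap M H Φ (TT.FF n g)) p q none) := by
  intro k
  induction k with
  | zero => intro M H e Φ W hc p q A B AR BR hp hF hR hk; omega
  | succ k ih =>
    intro M H e Φ W hc p q A B AR BR hp hF hR hk heA hN
    have hsome : 1 ≤ B → SomeOK7 Λ W (chartMap M H Φ (TT.FF n g)) p q A B := by
      intro hB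
      have hGR : ∃ N, chartMap M H Φ (TT.FF n g) ∣ chartMap M H Φ (RR n g) ^ N :=
        ⟨n, by rw [← map_pow]; exact map_dvd _ (FF_dvd_pow n g)⟩
      have hBR1 := vtx_pos_of_dvd_pow hp hF hR hGR hB
      rcases Nat.lt_or_ge BR 2 with h2 | h2
      · have hBR : BR = 1 := by omega
        subst hBR
        obtain ⟨h3, h4⟩ := reg_one7 hC hc hp hF hR hN
        refine ⟨0, 1, h3, by omega, Or.inr ⟨rfl, rfl, ?_⟩⟩
        rcases Nat.lt_or_ge B 2 with h5 | h5
        · exact Or.inl (by omega)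
        · exact Or.inr (h4 h5)
      · obtain ⟨a, b, ρ₀, hρ₀, hab⟩ := hC.cert
        obtain ⟨ρ, hρ, hcert⟩ := cert_chart hρ₀ hab (Chart.M_pos (hC.chart hc)) H
        obtain ⟨ψ, hψ, p2, q2, bR, I, hgood⟩ := key hρ h2 ρ.natTrailingDegree
          (chartMap M H Φ (TT.FF n g)) (chartMap M H Φ (RR n g)) p q hp hF hR
          (map_dvd _ (RR_dvd_FF n g)) hGR (hcert Φ) (by nlinarith)
        have hψ0 : ψ.coeff 0 = 0 := by
          by_contra hne
          have := hψ 0 (Polynomial.mem_support_iff.2 hne)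
          omega
        have hc' := hC.shift hc ψ hψ0
        have hF' := hF.shift hp ψ hψ
        have hR' := hR.shift hp ψ hψ
        have hcoef := hF.coeff_shift hp ψ hψ
        rw [shift_chartMap] at hF' hcoef
        rw [shift_chartMap] at hR'
        rw [shift_chartMap, shift_chartMap] at hgood
        obtain ⟨hr1, hch, hnx⟩ := edge_core7 hC hc' hp hF' hR' heA hgood
          (fun {M H e Φ W} hc {p q A B AR BR'} hp hF hR hlt heA hN hr =>
            (ih hc hp hF hR (by omega) heA hN).2 hr)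
        refine ⟨p2, q2, ?_, ?_, Or.inl ⟨hgood.edge.hp, hr1⟩⟩
        · refine RB7.coord _ _ _ _ _ ψ hψ ?_
          rw [shift_chartMap]
          have hst := RB7.step (Λ := Λ) W (chartMap M H (Φ + Polynomial.X ^ H * ψ) (TT.FF n g))
            p q p2 q2 A bR I hp hgood.hlt hgood.edge
            (by rw [hgood.hB]; exact fun d hd => hF'.le d hd) (by rw [hgood.hB]; exact hN)
            (by rw [hgood.hB]; exact hr1) hch hnx
          rw [hgood.hB, hgood.lead, hcoef] at hst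
          exact hst
        · have := hgood.edge.hq
          nlinarith
    refine ⟨hsome, fun hr => ?_⟩
    rcases Nat.eq_zero_or_pos B with h0 | h0
    · subst h0
      rw [mul_zero, add_zero] at hN
      have hA : 1 ≤ A := by
        rcases Nat.eq_zero_or_pos A with h | h
        · rw [h] at hN; omega
        · exact h
      exact RB7.fin0 _ _ p q A hp hA hF.ne (by intro d hd; have := hF.le d hd; simpa using this) hr
    · exact none_of_some7 hN hr (hsome h0)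

end Pool.Agent.Mono.BG.T7
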