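import Pool.Agent.Work.Monodromy7.T7A
import Pool.Agent.Work.Monodromy6.CERT
import Pool.Agent.Work.Monodromy6.ALG0

/-! Phase 7, tree part: multiple factors, towers, free coordinates. -/

set_option autoImplicit false
set_option linter.unusedSimpArgs false
set_option linter.unusedVariables false

namespace Pool.Agent.Mono.BG.T7

open MvPolynomial PC PC.TT

/-! ## Multiple factors -/

lemma exists_pt {π h : P2} (hπ : Irreducible π) (hnd : ¬ π ∣ h) :
    ∃ x : Fin 2 → ℂ, eval x π = 0 ∧ eval x h ≠ 0 := by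
  by_contra hall
  push Not at hall
  have hprime : Prime π := UniqueFactorizationMonoid.irreducible_iff_prime.1 hπ
  have hmem : h ∈ (Ideal.span {π}).radical := by
    rw [← MvPolynomial.vanishingIdeal_zeroLocus_eq_radical (K := ℂ)]
    rw [MvPolynomial.mem_vanishingIdeal_iff]
    intro x hx
    rw [MvPolynomial.mem_zeroLocus_iff] at hx
    have h1 := hx π (Ideal.subset_span rfl)
    simp only [MvPolynomial.aeval_eq_eval] at h1 ⊢
    exact hall x h1
  obtain ⟨k, hk⟩ := hmem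
  rw [Ideal.mem_span_singleton] at hk
  exact hnd (hprime.dvd_of_dvd_pow hk)

/-- a factor of multiplicity `j ≥ 2` -/
lemma mul_of {n : ℕ} {g : ℕ → P2} (hsq : Squarefree (RR n g)) {j : ℕ}
    (hj : j ∈ Finset.Icc 1 n) (hu : ¬ IsUnit (g j)) :
    ∃ k h : P2, TT.FF n g = k ^ j * h ∧ ∃ x, eval x k = 0 ∧ eval x h ≠ 0 := by
  classical
  have hgj : g j ≠ 0 := by
    intro h0
    exact hsq.ne_zero (Finset.prod_eq_zero hj h0)
  obtain ⟨π, hπ, u, hπu⟩ := WfDvdMonoid.exists_irreducible_factor hu hgj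
  have hprime : Prime π := UniqueFactorizationMonoid.irreducible_iff_prime.1 hπ
  set h : P2 := u ^ j * ∏ i ∈ (Finset.Icc 1 n).erase j, g i ^ i with hh
  have hFF : TT.FF n g = π ^ j * h := by
    unfold TT.FF
    rw [← Finset.mul_prod_erase (Finset.Icc 1 n) (fun i => g i ^ i) hj, hh]
    rw [hπu, mul_pow]; ring
  have hRR : RR n g = g j * ∏ i ∈ (Finset.Icc 1 n).erase j, g i := by
    unfold RR
    rw [Finset.mul_prod_erase (Finset.Icc 1 n) (fun i => g i) hj]
  have hnd : ¬ π ∣ h := by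
    intro hd
    have hsq2 : ¬ π * π ∣ RR n g := fun h2 => hπ.not_isUnit (hsq _ h2)
    rcases hprime.dvd_or_dvd hd with h1 | h1
    · have h2 := hprime.dvd_of_dvd_pow h1
      apply hsq2
      rw [hRR, hπu]
      exact dvd_mul_of_dvd_left (mul_dvd_mul_left π h2) _
    · obtain ⟨i, hi, h2⟩ := (hprime.dvd_finsetProd_iff _).1 h1
      have h3 := hprime.dvd_of_dvd_pow h2
      apply hsq2
      rw [hRR]
      exact mul_dvd_mul ⟨u, hπu⟩ (h3.trans (Finset.dvd_prod_of_mem g hi))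
  exact ⟨π, h, hFF, exists_pt hπ hnd⟩

/-! ## Free coordinates -/

theorem tff {Λ : Set ℚ} {P : P2} {x₀ : Fin 2 → ℂ} {n : ℕ} {g : ℕ → P2}
    (hP : P = C (eval x₀ P) + ∏ j ∈ Finset.Icc 1 n, g j ^ j)
    (hsq : Squarefree (∏ j ∈ Finset.Icc 1 n, g j))
    (hcrit : ∀ i, eval x₀ (pderiv i (∏ j ∈ Finset.Icc 1 n, g j)) = 0)
    (hexp : ∀ r : ℚ, 0 < r → PCExp (P - C (eval x₀ P)) r → r ∈ Λ)
    (hmul : ∀ (k h : P2) (m : ℕ), 2 ≤ m → (∃ x, eval x k = 0 ∧ eval x h ≠ 0) →
      P - C (eval x₀ P) = k ^ m * h → 1 / (m : ℚ) ∈ Λ) : Good0 Λ (loc P x₀) := by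
  have hFF : P - C (eval x₀ P) = TT.FF n g := by
    rw [TT.FF, ← sub_eq_iff_eq_add'.2 hP]
  have hsq' : Squarefree (TT.RR n g) := hsq
  have hPre : Pre Λ n g := by
    refine ⟨hsq', ?_, ?_⟩
    · intro r hr hr0
      exact hexp r hr0 (by rw [hFF]; exact hr)
    · intro j hj hj2 hu
      obtain ⟨k, h, h1, h2⟩ := mul_of hsq' hj hu
      exact hmul k h j hj2 h2 (by rw [hFF]; exact h1)
  have hP' := hPre.map (transE x₀)
  have hF : loc P x₀ = TT.FF n (fun j => transE x₀ (g j)) := by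
    rw [FF_map, ← hFF, map_sub]
    unfold loc
    congr 1
    simp [transE]
  rw [hF]
  refine level0 stmt_CERT hP' ?_
  rw [RR_map]
  have hlow : Low 1 1 2 (transE x₀ (TT.RR n g)) := by
    apply low_two_of
    · rw [eval_zero_transE]
      have h1 : MvPolynomial.eval x₀ (TT.FF n g) = 0 := by
        rw [← hFF, map_sub, eval_C, sub_self]
      unfold TT.FF at h1
      rw [map_prod, Finset.prod_eq_zero_iff] at h1
      obtain ⟨j, hj, h2⟩ := h1
      rw [map_pow] at h2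
      unfold TT.RR
      rw [map_prod]
      exact Finset.prod_eq_zero hj (pow_eq_zero_iff (by have := (Finset.mem_Icc.1 hj).1; omega) |>.1 h2)
    · intro i
      rw [pderiv_transE, eval_zero_transE]
      exact hcrit i
  have hne : transE x₀ (TT.RR n g) ≠ 0 := by
    intro h0
    exact hsq'.ne_zero ((transE x₀).injective (by rw [h0, map_zero]))
  obtain ⟨A, B, hV⟩ := exists_vtx le_rfl 1 hne
  rw [hV.ord le_rfl]
  have := hlow _ (mem_support_iff.2 hV.ne)
  simpa using this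

/-! ## Decomposition -/

lemma exists_dec {G : P2} (hG : G ≠ 0) :
    ∃ (n : ℕ) (g : ℕ → P2), G = TT.FF n g ∧ Squarefree (RR n g) := by
  obtain ⟨n, g, _, h1, h2⟩ := ALGAux.decomp G hG
  exact ⟨n, g, h1, h2⟩

/-! ## The tower of a fixed and a free coordinate -/

/-- charts with the rates `M ν + H` -/
def K1 (W : Set ℚ) (M H e : ℕ) (Φ : Polynomial ℂ) (V : Set ℚ) : Prop :=
  Chart M H e Φ ∧ ∀ r ∈ V, ∃ ν ∈ W, r = (M : ℚ) * ν + H

lemma tower1 {Λ W : Set ℚ} {n : ℕ} {g : ℕ → P2} (hsq : Squarefree (RR n g))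
    (h : Ctx1 Λ W (TT.FF n g)) : Tower Λ n g (K1 W) where
  ne := hsq.ne_zero
  mul := by
    intro j hj hj2 hu
    obtain ⟨k, h', h1, h2⟩ := mul_of hsq hj hu
    exact h.mul k h' j hj2 h2 h1
  cert := stmt_CERT _ hsq
  chart := fun h => h.1
  child := by
    rintro M H e Φ V ⟨h1, h2⟩ p q hp hq hpq lam hl
    refine ⟨Chart.child h1 hp hq hpq hl, ?_⟩
    rintro r ⟨s, hs, rfl⟩
    obtain ⟨ν, hν, rfl⟩ := h2 s hs
    refine ⟨ν, hν, ?_⟩
    push_cast
    ring
  shift := fun h ψ hψ => ⟨Chart.addShift h.1 ψ hψ, h.2⟩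
  exp := by
    rintro M H e Φ V ⟨h1, h2⟩ p q aL bR I hI he hsp r hr
    obtain ⟨ν, hν, rfl⟩ := h2 r hr
    have := h.exp ν hν M H e Φ p q aL bR I h1 hI he hsp
    unfold rate7
    unfold edgeN at this
    exact this

/-! ## The tower of two fixed coordinates -/

/-- charts of level at least one with the rates `M ν + h ν' - h + H` -/
def K2 (W W' : Set ℚ) (M H e : ℕ) (Φ : Polynomial ℂ) (V : Set ℚ) : Prop :=
  Chart M H e Φ ∧ ∃ h : ℕ, 1 ≤ h ∧ h ≤ H ∧ Φ.coeff h ≠ 0 ∧ (∀ j < h, Φ.coeff j = 0) ∧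
    ∀ r ∈ V, ∃ ν ∈ W, ∃ ν' ∈ W', r = (M : ℚ) * ν + h * ν' - h + H

lemma coeff_comp_X_pow {Φ : Polynomial ℂ} {p : ℕ} (hp : 1 ≤ p) (k : ℕ) :
    (Φ.comp (Polynomial.X ^ p)).coeff k = if p ∣ k then Φ.coeff (k / p) else 0 := by
  have : Φ.comp (Polynomial.X ^ p) = Polynomial.expand ℂ p Φ := by
    rw [Polynomial.expand_eq_comp_X_pow]
  rw [this, Polynomial.coeff_expand (by omega)]

lemma tower2 {Λ W W' : Set ℚ} {n : ℕ} {g : ℕ → P2} (hsq : Squarefree (RR n g))
    (h : Ctx2 Λ W W' (TT.FF n g)) : Tower Λ n g (K2 W W') where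
  ne := hsq.ne_zero
  mul := by
    intro j hj hj2 hu
    obtain ⟨k, h', h1, h2⟩ := mul_of hsq hj hu
    exact h.mul k h' j hj2 h2 h1
  cert := stmt_CERT _ hsq
  chart := fun h => h.1
  child := by
    rintro M H e Φ V ⟨h1, k, hk1, hkH, hk, hlow, h2⟩ p q hp hq hpq lam hl
    have hkH' : p * k < p * H + q := by
      have := Nat.mul_le_mul_left p hkH
      omega
    refine ⟨Chart.child h1 hp hq hpq hl, p * k, Nat.mul_pos hp hk1, hkH'.le, ?_, ?_, ?_⟩
    · rw [Polynomial.coeff_add, coeff_comp_X_pow hp, if_pos (dvd_mul_right p k),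
        Nat.mul_div_cancel_left _ (by omega), Polynomial.coeff_C_mul_X_pow, if_neg (by omega),
        add_zero]
      exact hk
    · intro j hj
      rw [Polynomial.coeff_add, coeff_comp_X_pow hp, Polynomial.coeff_C_mul_X_pow,
        if_neg (show ¬ j = p * H + q by omega), add_zero]
      split_ifs with h3
      · obtain ⟨i, rfl⟩ := h3
        rw [Nat.mul_div_cancel_left _ (by omega)]
        exact hlow i (Nat.lt_of_mul_lt_mul_left hj)
      · rfl
    · rintro r ⟨s, hs, rfl⟩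
      obtain ⟨ν, hν, ν', hν', rfl⟩ := h2 s hs
      refine ⟨ν, hν, ν', hν', ?_⟩
      push_cast
      ring
  shift := by
    rintro M H e Φ V ⟨h1, k, hk1, hkH, hk, hlow, h2⟩ ψ hψ
    have hz : ∀ j ≤ k, (Polynomial.X ^ H * ψ).coeff j = 0 := by
      intro j hj
      rw [Polynomial.coeff_X_pow_mul']
      split_ifs with h3
      · rw [show j - H = 0 by omega, hψ]
      · rfl
    refine ⟨Chart.addShift h1 ψ hψ, k, hk1, hkH, ?_, ?_, h2⟩
    · rw [Polynomial.coeff_add, hz k le_rfl, add_zero]; exact hk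
    · intro j hj
      rw [Polynomial.coeff_add, hz j hj.le, add_zero]; exact hlow j hj
  exp := by
    rintro M H e Φ V ⟨h1, k, hk1, hkH, hk, hlow, h2⟩ p q aL bR I hI he hsp r hr
    obtain ⟨ν, hν, ν', hν', rfl⟩ := h2 r hr
    have := h.exp1 ν hν ν' hν' M H e Φ p q aL bR I k h1 hk1 hkH hk hlow hI he hsp
    unfold rate7
    unfold edgeN at this
    exact this

end Pool.Agent.Mono.BG.T7
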