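import Pool.Agent.Work.Monodromy7.T7B

/-! Phase 7, tree part: `a` fixed, `b` free. -/

set_option autoImplicit false
set_option linter.unusedSimpArgs false
set_option linter.unusedVariables false

namespace Pool.Agent.Mono.BG.T7

open MvPolynomial PC PC.TT

/-- the power of a coordinate which divides `G` -/
lemma axis_factor {G : P2} {i : Fin 2} {A : ℕ} (h : ∀ d ∈ G.support, A ≤ d i)
    {d0 : Fin 2 →₀ ℕ} (hd0 : G.coeff d0 ≠ 0) (hA : d0 i = A) :
    ∃ K : P2, G = X i ^ A * K ∧ ¬ X i ∣ K := by
  have hX : ∀ m : ℕ, (X i ^ m : P2) = monomial (Finsupp.single i m) 1 := by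
    intro m; rw [X_pow_eq_monomial]
  refine ⟨G.divMonomial (Finsupp.single i A), ?_, ?_⟩
  · have h1 := divMonomial_add_modMonomial G (Finsupp.single i A)
    have h2 : G.modMonomial (Finsupp.single i A) = 0 := by
      ext d
      rw [coeff_zero]
      by_cases hd : Finsupp.single i A ≤ d
      · exact coeff_modMonomial_of_le _ hd
      · rw [coeff_modMonomial_of_not_le _ hd]
        by_contra hne
        apply hd
        rw [Finsupp.single_le_iff]
        exact h d (mem_support_iff.2 hne)
    rw [h2, add_zero] at h1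
    rw [hX]; exact h1.symm
  · rintro ⟨K', hK'⟩
    have h1 := divMonomial_add_modMonomial G (Finsupp.single i A)
    have h2 : G.modMonomial (Finsupp.single i A) = 0 := by
      ext d
      rw [coeff_zero]
      by_cases hd : Finsupp.single i A ≤ d
      · exact coeff_modMonomial_of_le _ hd
      · rw [coeff_modMonomial_of_not_le _ hd]
        by_contra hne
        apply hd
        rw [Finsupp.single_le_iff]
        exact h d (mem_support_iff.2 hne)
    rw [h2, add_zero, ← hX, hK', ← mul_assoc, ← pow_succ, hX] at h1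
    apply hd0
    rw [← h1, coeff_monomial_mul', if_neg]
    rw [Finsupp.single_le_iff, hA]
    omega

lemma eval_zero_coeff (Q : P2) : eval (0 : Fin 2 → ℂ) Q = Q.coeff 0 := by
  rw [MvPolynomial.eval_zero, constantCoeff_eq]

lemma mon_zero_zero : mon 0 0 = 0 := by
  apply ext2 <;> simp

lemma coeff_pderiv_one (Q : P2) : eval (0 : Fin 2 → ℂ) (pderiv 1 Q) = Q.coeff (mon 0 1) := by
  rw [eval_zero_coeff, coeff_pderiv]
  have : (0 : Fin 2 →₀ ℕ) + Finsupp.single 1 1 = mon 0 1 := by apply ext2 <;> simp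
  rw [this]; simp

theorem txf {Λ W : Set ℚ} {G : P2} (hG : G ≠ 0) (h0 : eval 0 G = 0)
    (h1 : eval 0 (pderiv 1 G) = 0) (hctx : Ctx1 Λ W G) : GoodXF Λ W G := by
  classical
  obtain ⟨n, g, rfl, hsq⟩ := exists_dec hG
  have hT := tower1 hsq hctx
  have hRne : RR n g ≠ 0 := hsq.ne_zero
  obtain ⟨A, B, hF⟩ := exists_vtx le_rfl 0 hG
  obtain ⟨AR, BR, hR⟩ := exists_vtx le_rfl 0 hRne
  have hb : ∀ ψ : Polynomial ℂ, ψ.coeff 0 = 0 → K1 W 1 0 0 ψ W := by
    intro ψ hψ
    exact ⟨Chart.base ψ hψ, fun r hr => ⟨r, hr, by simp⟩⟩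
  have hAle : ∀ d ∈ (TT.FF n g).support, A ≤ d 0 := by
    intro d hd; have := hF.le d hd; simpa using this
  rcases Nat.eq_zero_or_pos A with hA | hA
  · subst hA
    have hB : 1 ≤ B := by
      rcases Nat.eq_zero_or_pos B with hB | hB
      · exfalso
        subst hB
        have := hF.ne
        rw [mon_zero_zero, ← eval_zero_coeff] at this
        exact this h0
      · exact hB
    have hBR := vtx_pos_of_dvd_pow le_rfl hF hR ⟨n, FF_dvd_pow n g⟩ hB
    rcases Nat.lt_or_ge BR 2 with h2 | h2
    · -- one multiple component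
      have hBR1 : BR = 1 := by omega
      subst hBR1
      have hF' : Vtx (chartMap 1 0 0 (TT.FF n g)) 1 0 0 B := by rw [chart_base_id]; exact hF
      have hR' : Vtx (chartMap 1 0 0 (RR n g)) 1 0 AR 1 := by rw [chart_base_id]; exact hR
      obtain ⟨gg, hh, A1, A2, hFgh, hVg, hVh, eA, hB1, hcoef, hΛ⟩ :=
        split_one hT (Chart.base 0 (by simp)) le_rfl hF' hR'
      rw [chart_base_id] at hFgh hcoef
      have hA1 : A1 = 0 := by
        rcases Nat.eq_zero_or_pos A1 with h | h
        · exact h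
        · have : 1 ≤ B * A1 := Nat.mul_pos hB1 h
          omega
      have hA2 : A2 = 0 := by omega
      subst hA1 hA2
      have hB2 : 2 ≤ B := by
        by_contra hlt
        have hB1 : B = 1 := by omega
        subst hB1
        rw [coeff_pderiv_one] at h1
        exact hF.ne h1
      rw [hFgh]
      refine GoodXF.comp gg hh B hB2 ?_ ?_ ?_ (hΛ hB2)
      · rw [eval_zero_coeff]
        by_contra hne
        have := hVg.lt 0 (mem_support_iff.2 hne) (by simp)
        simp at this
      · rw [coeff_pderiv_one]; exact hVg.ne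
      · rw [eval_zero_coeff, ← mon_zero_zero]; exact hVh.ne
    · -- first edge
      obtain ⟨a, b, ρ₀, hρ₀, hab⟩ := hT.cert
      obtain ⟨ψ, hψ, p2, q2, bR, I, hgood⟩ := key hρ₀ h2 ρ₀.natTrailingDegree
        (TT.FF n g) (RR n g) 1 0 le_rfl hF hR (RR_dvd_FF n g) ⟨n, FF_dvd_pow n g⟩ ⟨a, b, hab⟩
        (by omega)
      have hψ0 : ψ.coeff 0 = 0 := by
        by_contra hne
        have := hψ 0 (Polynomial.mem_support_iff.2 hne)
        omega
      have hc' := hb ψ hψ0
      have hF' := hF.shift le_rfl ψ hψ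
      have hR' := hR.shift le_rfl ψ hψ
      rw [← chartMap_one_zero] at hF' hR'
      rw [← chartMap_one_zero, ← chartMap_one_zero] at hgood
      obtain ⟨hr1, hch, hnx⟩ := edge_core7 hT hc' le_rfl hF' hR' (by omega) hgood
        (fun {M H e Φ W} hc {p q A B AR BR'} hp hF hR hlt heA hN hr =>
          (region7 hT (BR' + 1) hc hp hF hR (by omega) heA hN).2 hr)
      refine GoodXF.coord _ ψ hψ0 ?_
      rw [← chartMap_one_zero]
      refine GoodXF.edge _ p2 q2 bR I hgood.edge ?_ hch hnx
      rw [hgood.hB]; exact hr1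
  · -- `a` divides `G`
    refine GoodXF.ray _ ?_
    have hF' : Vtx (chartMap 1 0 0 (TT.FF n g)) 1 0 A B := by rw [chart_base_id]; exact hF
    have hR' : Vtx (chartMap 1 0 0 (RR n g)) 1 0 AR BR := by rw [chart_base_id]; exact hR
    have := (region7 hT (BR + 1) (hb 0 (by simp)) le_rfl hF' hR' (by omega) (by omega)
      (by omega)).2 ?_
    · rwa [chart_base_id] at this
    · intro ν hν
      obtain ⟨K', hK, hnd⟩ := axis_factor hAle hF.ne (by simp)
      have h3 := hctx.axis ν hν A K' hA hK hnd
      unfold rate7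
      simpa using h3

end Pool.Agent.Mono.BG.T7
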