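import Pool.Agent.Work.Monodromy7.T7C

/-! Phase 7, tree part: both coordinates fixed. -/

set_option autoImplicit false
set_option linter.unusedSimpArgs false
set_option linter.unusedVariables false

namespace Pool.Agent.Mono.BG.T7

open MvPolynomial PC PC.TT

variable {Λ W W' : Set ℚ} {n : ℕ} {g : ℕ → P2}

/-- the data of a compact edge of level `0` -/
structure Edge0 (G : P2) (p q A B bR : ℕ) (I : Polynomial ℂ) : Prop where
  edge : IsEdge G p q A bR I
  hB : bR + p * I.natDegree = B
  inG : inF p q G = Polynomial.X ^ bR * Polynomial.expand ℂ p I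
  ordG : ordN p q G = p * A + q * B
  hlt : (inF p q G).natTrailingDegree < B

/-- the next edge -/
lemma edge0_next {G : P2} {p q A B : ℕ} (hp : 1 ≤ p) (hV : Vtx G p q A B)
    (hex : ∃ d ∈ G.support, d 1 < B) :
    ∃ (p2 q2 bR : ℕ) (I : Polynomial ℂ), q * p2 < q2 * p ∧ Edge0 G p2 q2 A B bR I := by
  obtain ⟨p2, q2, hp2, hq2, hcop, hslope, hord, d, hd, hdB, hdW⟩ := next_edge hp hV hex
  have hnon : (inF p2 q2 G).natTrailingDegree < B := by
    refine lt_of_le_of_lt (Polynomial.natTrailingDegree_le_of_ne_zero ?_) hdB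
    rw [inF_coeff hp2 q2 (d := d) (by rw [hord]; exact hdW)]
    exact mem_support_iff.1 hd
  obtain ⟨I, hI1, hI2, hI3, hI4⟩ := isEdge_of hp hV hslope hp2 hq2 hcop hord hnon
  exact ⟨p2, q2, _, I, hslope, hI1, hI2, hI3, hord, hnon⟩

lemma Edge0.sc77 {p q A B bR : ℕ} {I : Polynomial ℂ}
    (hctx : Ctx2 Λ W W' (TT.FF n g)) (h : Edge0 (TT.FF n g) p q A B bR I) :
    SC77 Λ W W' p q A B := by
  have hp := h.edge.hp
  have hq := h.edge.hq
  have hB := h.hB
  have hd : 1 ≤ p * I.natDegree := Nat.mul_pos hp h.edge.deg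
  constructor
  · have : 1 ≤ q * B := Nat.mul_pos hq (by omega)
    omega
  · intro ν hν ν' hν'
    have := hctx.exp0 ν hν ν' hν' p q A bR I h.edge
    unfold edgeN at this
    rw [hB] at this
    exact this

/-- the children of level `1` -/
lemma Edge0.children (hsq : Squarefree (RR n g)) (hctx : Ctx2 Λ W W' (TT.FF n g))
    {p q A B bR : ℕ} {I : Polynomial ℂ} (h : Edge0 (TT.FF n g) p q A B bR I) (hG0 : TT.FF n g ≠ 0) :
    ∀ lam : ℂ, lam ≠ 0 → I.eval (lam ^ p) = 0 →
      RB7 Λ (step77 W W' p q) (chart p q lam (TT.FF n g)) 1 0 none := by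
  intro lam hl hlam
  have hT := tower2 hsq hctx
  have hp := h.edge.hp
  have hq := h.edge.hq
  obtain ⟨hN, hrates⟩ := h.sc77 hctx
  have hI0 : I ≠ 0 := by
    intro h0
    have := h.edge.deg
    rw [h0] at this; simp at this
  have hmult : (inF p q (TT.FF n g)).rootMultiplicity lam ≤ I.natDegree := by
    have hex : Polynomial.expand ℂ p I ≠ 0 := by rwa [Ne, Polynomial.expand_eq_zero hp]
    rw [h.inG, Polynomial.rootMultiplicity_mul
      (mul_ne_zero (pow_ne_zero _ Polynomial.X_ne_zero) hex),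
      Polynomial.rootMultiplicity_eq_zero (p := Polynomial.X ^ bR) (by
        rw [Polynomial.IsRoot, Polynomial.eval_pow, Polynomial.eval_X]
        exact pow_ne_zero _ hl), zero_add]
    exact rootMult_expand hI0 hp hl
  have hVF := vtx_chart hp q lam hG0
  have hVR := vtx_chart hp q lam hsq.ne_zero
  have e1 : ∀ F : P2, chart p q lam F = chartMap (p * 1) (p * 0 + q)
      ((0 : Polynomial ℂ).comp (Polynomial.X ^ p) +
        Polynomial.C lam * Polynomial.X ^ (p * 0 + q)) F := by
    intro F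
    rw [← chart_chartMap, chart_base_id]
  have hK : K2 W W' (p * 1) (p * 0 + q) (p * (p * 0 + q))
      ((0 : Polynomial ℂ).comp (Polynomial.X ^ p) +
        Polynomial.C lam * Polynomial.X ^ (p * 0 + q)) (step77 W W' p q) := by
    refine ⟨Chart.child (Chart.base 0 (by simp)) hp hq h.edge.cop hl, q, hq, by omega, ?_, ?_, ?_⟩
    · simp [hl]
    · intro j hj
      rw [Polynomial.zero_comp, zero_add, Polynomial.coeff_C_mul_X_pow, if_neg (by omega)]
    · rintro r ⟨ν, hν, ν', hν', rfl⟩
      refine ⟨ν, hν, ν', hν', ?_⟩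
      push_cast
      ring
  rw [h.ordG] at hVF
  rw [e1] at hVF hVR ⊢
  refine (region7 hT _ hK le_rfl hVF hVR (Nat.lt_succ_self _) ?_ (by omega)).2 ?_
  · set μ := (inF p q (TT.FF n g)).rootMultiplicity lam with hμ
    have h1 : p * μ ≤ B := by
      have := Nat.mul_le_mul_left p hmult
      have := h.hB
      omega
    calc p * (p * 0 + q) * μ = q * (p * μ) := by ring
      _ ≤ q * B := Nat.mul_le_mul_left _ h1
      _ ≤ p * A + q * B := by omega
  · rintro r ⟨ν, hν, ν', hν', rfl⟩
    have := hrates ν hν ν' hν'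
    unfold rate7
    simpa using this

/-- the region to the right -/
theorem rx (hsq : Squarefree (RR n g)) (hctx : Ctx2 Λ W W' (TT.FF n g)) (hG0 : TT.FF n g ≠ 0) :
    ∀ (k p q A B : ℕ), 1 ≤ p → Vtx (TT.FF n g) p q A B → B < k → SC77 Λ W W' p q A B →
      RX Λ W W' (TT.FF n g) p q := by
  intro k
  induction k with
  | zero => intro p q A B _ _ h; omega
  | succ k ih =>
    intro p q A B hp hV hk hS
    by_cases hex : ∃ d ∈ (TT.FF n g).support, d 1 < B
    · obtain ⟨p2, q2, bR, I, hlt, he⟩ := edge0_next hp hV hex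
      have hS2 := he.sc77 hctx
      have hp2 := he.edge.hp
      obtain ⟨A', B', hV'⟩ := exists_vtx hp2 q2 hG0
      have hB' : B' < B := by
        rw [← hV'.natTrailingDegree hp2]; exact he.hlt
      have hord : p2 * A' + q2 * B' = p2 * A + q2 * B := (hV'.ord hp2).symm.trans he.ordG
      have hnx := ih p2 q2 A' B' hp2 hV' (by omega) (by
        refine ⟨by rw [hord]; exact hS2.1, fun ν hν ν' hν' => ?_⟩
        rw [hord]; exact hS2.2 ν hν ν' hν')
      have hB := he.hB
      refine RX.rs _ p q p2 q2 A bR I hp hlt he.edge ?_ ?_ ?_ (he.children hsq hctx hG0) hnx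
      · rw [hB]; exact fun d hd => hV.le d hd
      · rw [hB]; exact hS
      · rw [hB]; exact hS2
    · push Not at hex
      rcases Nat.eq_zero_or_pos B with h0 | h0
      · subst h0
        have hA : 1 ≤ A := by
          have := hS.1
          rcases Nat.eq_zero_or_pos A with h | h
          · rw [h] at this; simp at this
          · exact h
        exact RX.r0 _ p q A hp hA hV.ne (by intro d hd; have := hV.le d hd; simpa using this) hS
      · refine RX.r1 _ p q A B hp h0 hV.ne (fun d hd => hV.le d hd) ?_ hS ?_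
        · intro d hd
          have := hex d hd
          omega
        · intro ν' hν'
          obtain ⟨K', hK, hnd⟩ := axis_factor (i := 1) (A := B) hex hV.ne (by simp)
          exact hctx.axis1 ν' hν' B K' h0 hK hnd

theorem txx {G : P2} (hG : G ≠ 0) (h0 : eval 0 G = 0) (hctx : Ctx2 Λ W W' G) :
    GoodXX Λ W W' G := by
  classical
  obtain ⟨n, g, rfl, hsq⟩ := exists_dec hG
  obtain ⟨A, B, hF⟩ := exists_vtx le_rfl 0 hG
  have hAle : ∀ d ∈ (TT.FF n g).support, A ≤ d 0 := by
    intro d hd; have := hF.le d hd; simpa using this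
  have hAB : 1 ≤ A + B := by
    by_contra hlt
    have hA : A = 0 := by omega
    have hB : B = 0 := by omega
    subst hA hB
    have := hF.ne
    rw [mon_zero_zero, ← eval_zero_coeff] at this
    exact this h0
  have hax0 : 1 ≤ A → ∀ ν ∈ W, ν / (A : ℚ) ∈ Λ := by
    intro hA ν hν
    obtain ⟨K', hK, hnd⟩ := axis_factor hAle hF.ne (by simp)
    exact hctx.axis0 ν hν A K' hA hK hnd
  by_cases hex : ∃ d ∈ (TT.FF n g).support, d 1 < B
  · obtain ⟨p2, q2, bR, I, hlt, he⟩ := edge0_next le_rfl hF hex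
    have hS := he.sc77 hctx
    have hp2 := he.edge.hp
    have hq2 := he.edge.hq
    obtain ⟨A', B', hV'⟩ := exists_vtx hp2 q2 hG
    have hord : p2 * A' + q2 * B' = p2 * A + q2 * B := (hV'.ord hp2).symm.trans he.ordG
    have hR := rx hsq hctx hG (B' + 1) p2 q2 A' B' hp2 hV' (by omega) (by
      refine ⟨by rw [hord]; exact hS.1, fun ν hν ν' hν' => ?_⟩
      rw [hord]; exact hS.2 ν hν ν' hν')
    have hB1 : 1 ≤ B := by
      have := he.hlt
      omega
    refine GoodXX.edge _ p2 q2 A bR I he.edge (by rw [he.hB]; exact hS)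
      (he.children hsq hctx hG) hR ?_
    have hlow : Low q2 p2 (q2 * B + p2 * A) (swp (TT.FF n g)) := by
      have h3 := low_ordN hp2 q2 (TT.FF n g)
      rw [he.ordG, add_comm] at h3
      exact low_swp h3
    have hS' : SC77 Λ W' W q2 p2 B A := by
      refine ⟨by have := hS.1; omega, fun ν' hν' ν hν => ?_⟩
      have := hS.2 ν hν ν' hν'
      rw [add_comm ((q2 : ℚ) * ν'), add_comm (q2 * B)]
      exact this
    rcases Nat.eq_zero_or_pos A with hA | hA
    · subst hA
      refine RX.r0 _ q2 p2 B hq2 hB1 (by rw [coeff_swp]; exact hF.ne) ?_ hS'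
      simpa using hlow
    · refine RX.r1 _ q2 p2 B A hq2 hA (by rw [coeff_swp]; exact hF.ne) hlow ?_ hS' (hax0 hA)
      intro d hd
      have := hAle _ (mem_support_swp.1 hd)
      rw [mon_zero] at this
      omega
  · push Not at hex
    refine GoodXX.mono _ A B hAB hF.ne (fun d hd => ⟨hAle d hd, hex d hd⟩) hax0 ?_
    intro hB ν' hν'
    obtain ⟨K', hK, hnd⟩ := axis_factor (i := 1) (A := B) hex hF.ne (by simp)
    exact hctx.axis1 ν' hν' B K' hB hK hnd

end Pool.Agent.Mono.BG.T7
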