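import Pool.Agent.Work.Monodromy7.TAAux

/-!
# Phase 7, block TA7 (helper21): transfer to plane arcs, one polynomial
-/

set_option autoImplicit false
set_option linter.unusedSectionVars false

namespace Pool.Agent.Mono.BV

open MvPolynomial TS PC RO RO.VGAux

namespace TA7Aux

open TAAux

section

variable {E ι κ : Type}

/-- the data of an exact arc: value, leading coefficient, `n` further coefficients -/
def DT (i n : ℕ) (C : Set ((E → ℂ) × (Unit ⊕ κ → PowerSeries ℂ))) :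
    Set (((E ⊕ (Σ _ : Unit, Fin n)) ⊕ Bool → ℂ) × (κ → PowerSeries ℂ)) :=
  {z | ¬ z.1 (Sum.inr false) = 0 ∧ ((fun p => z.1 (Sum.inl (Sum.inl p))),
    Sum.elim (fun _ : Unit => PowerSeries.C (z.1 (Sum.inr true)) + arcE (z.1 (Sum.inr false)) i
      (toArc (fun _ : Unit => n) (fun s => z.1 (Sum.inl (Sum.inr s))) ())) z.2) ∈ C}

/-- the data of a tail -/
def DF (C : Set ((E → ℂ) × (Unit ⊕ κ → PowerSeries ℂ))) :
    Set ((E ⊕ Bool → ℂ) × (κ → PowerSeries ℂ)) :=
  {z | ((fun p => z.1 (Sum.inl p)),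
    Sum.elim (fun _ : Unit => PowerSeries.C (z.1 (Sum.inr true))) z.2) ∈ C}

variable [Finite E] [Fintype ι] [Fintype κ]

theorem cyl_DT (i : ℕ) {n : ℕ} {C : Set ((E → ℂ) × (Unit ⊕ κ → PowerSeries ℂ))}
    (hC : IsCyl (fun _ => n) C) : IsCyl (fun _ => n) (DT i n C) := by
  refine isCyl_of (Cy.and (Cy.not (Cy.zero (RF.par _))) (cy_comp' (cy_of hC)
    (φ := fun z p => z.1 (Sum.inl (Sum.inl p)))
    (ψ := fun z => Sum.elim (fun _ : Unit => PowerSeries.C (z.1 (Sum.inr true)) +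
      arcE (z.1 (Sum.inr false)) i
      (toArc (fun _ : Unit => n) (fun s => z.1 (Sum.inl (Sum.inr s))) ())) z.2)
    (fun s => RF.par _) ?_)) ?_
  · rintro (k | k)
    · exact RS.add (RS.C (RF.par _)) (RS.arcE (RF.par _) (RS.toArc (fun s => RF.par _) _) i)
    · exact RS.arc k
  · intro p x y h
    refine and_congr Iff.rfl (hC.1 _ _ _ ?_)
    rintro (k | k) l hl
    · rfl
    · exact h k l hl

theorem cyl_DF {n : ℕ} {C : Set ((E → ℂ) × (Unit ⊕ κ → PowerSeries ℂ))}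
    (hC : IsCyl (fun _ => n) C) : IsCyl (fun _ => n) (DF C) := by
  refine isCyl_of (cy_comp' (cy_of hC)
    (φ := fun z p => z.1 (Sum.inl p))
    (ψ := fun z => Sum.elim (fun _ : Unit => PowerSeries.C (z.1 (Sum.inr true))) z.2)
    (fun s => RF.par _) ?_) ?_
  · rintro (k | k)
    · exact RS.C (RF.par _)
    · exact RS.arc k
  · intro p x y h
    refine hC.1 _ _ _ ?_
    rintro (k | k) l hl
    · rfl
    · exact h k l hl

/-- an exact arc is given by its data below the level `i + 1 + n` -/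
theorem agree {i n : ℕ} (hi : 1 ≤ i) {F : PowerSeries ℂ} (hF : cut true i F)
    {w : (Σ _ : Unit, Fin n) → ℂ}
    (hw : ∀ s : Σ _ : Unit, Fin n, w s = PowerSeries.coeff (i + 1 + (s.2 : ℕ)) F)
    (l : ℕ) (hl : l < n) : PowerSeries.coeff l (PowerSeries.C (PowerSeries.coeff 0 F) +
      arcE (PowerSeries.coeff i F) i (toArc (fun _ : Unit => n) w ())) =
      PowerSeries.coeff l F := by
  rw [map_add, coeff_arcE, PowerSeries.coeff_C]
  rcases Nat.eq_zero_or_pos l with h0 | h0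
  · subst h0
    rw [if_pos rfl, if_neg (by omega), if_neg (by omega)]
    ring
  rw [if_neg (by omega)]
  rcases lt_trichotomy l i with h | h | h
  · rw [if_neg (by omega), if_neg (by omega), hF l h0 h]
    ring
  · subst h
    rw [if_pos rfl, if_neg (by omega)]
    ring
  · have h2 : l - (i + 1) < n := by omega
    rw [if_neg (by omega), if_pos (by omega), coeff_toArc, dif_pos h2, hw]
    have h3 : i + 1 + (l - (i + 1)) = l := by omega
    simp only [h3]
    ring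

/-- the exact arcs -/
def SA (f : MvPolynomial ι ℂ) (i : ℕ) (C : Set ((E → ℂ) × (Unit ⊕ κ → PowerSeries ℂ))) :
    Set ((E → ℂ) × (ι ⊕ κ → PowerSeries ℂ)) :=
  {z | cut true i (aeval (fun a => z.2 (Sum.inl a)) f) ∧
    ((true : Bool) = true → PowerSeries.coeff i (aeval (fun a => z.2 (Sum.inl a)) f) ≠ 0) ∧
    (z.1, Sum.elim (fun _ : Unit => aeval (fun a => z.2 (Sum.inl a)) f)
      fun a => z.2 (Sum.inr a)) ∈ C}

/-- the prescribed coefficients -/
noncomputable def AA7 (E κ : Type) (n l : ℕ) :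
    MvPolynomial (((E ⊕ (Σ _ : Unit, Fin n)) ⊕ Bool) ⊕ ((κ × ℕ) ⊕ ℕ)) ℂ :=
  if h : l < n then X (Sum.inl (Sum.inl (Sum.inr ⟨(), ⟨l, h⟩⟩))) else 0

/-- the same arcs with the coefficients as parameters -/
def SBt (f : MvPolynomial ι ℂ) (i n : ℕ) (C : Set ((E → ℂ) × (Unit ⊕ κ → PowerSeries ℂ))) :
    Set ((E ⊕ (Σ _ : Unit, Fin n) → ℂ) × (ι ⊕ κ → PowerSeries ℂ)) :=
  {z | cut true i (aeval (fun a => z.2 (Sum.inl a)) f) ∧
    ((Sum.elim z.1 (dat true i (aeval (fun a => z.2 (Sum.inl a)) f))),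
      fun a => z.2 (Sum.inr a)) ∈ DT i n C ∧
    ∀ l < n, PowerSeries.coeff (i + 1 + l) (aeval (fun a => z.2 (Sum.inl a)) f) =
      eval (Sum.elim (Sum.elim z.1 (dat true i (aeval (fun a => z.2 (Sum.inl a)) f)))
        (Sum.elim (fun s => PowerSeries.coeff s.2 (z.2 (Sum.inr s.1)))
          fun s => if s < l then
            PowerSeries.coeff (i + 1 + s) (aeval (fun a => z.2 (Sum.inl a)) f) else 0))
        (AA7 E κ n l)}

theorem eval_AA7 (n l : ℕ) (h : l < n)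
    (v : ((E ⊕ (Σ _ : Unit, Fin n)) ⊕ Bool) ⊕ ((κ × ℕ) ⊕ ℕ) → ℂ) :
    eval v (AA7 E κ n l) = v (Sum.inl (Sum.inl (Sum.inr ⟨(), ⟨l, h⟩⟩))) := by
  rw [AA7, dif_pos h, eval_X]

theorem mem_SBt (f : MvPolynomial ι ℂ) (i n : ℕ)
    (C : Set ((E → ℂ) × (Unit ⊕ κ → PowerSeries ℂ)))
    (z : (E ⊕ (Σ _ : Unit, Fin n) → ℂ) × (ι ⊕ κ → PowerSeries ℂ)) :
    z ∈ SBt f i n C ↔ cut true i (aeval (fun a => z.2 (Sum.inl a)) f) ∧
      (¬ PowerSeries.coeff i (aeval (fun a => z.2 (Sum.inl a)) f) = 0 ∧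
      ((fun p => z.1 (Sum.inl p)), Sum.elim (fun _ : Unit =>
        PowerSeries.C (PowerSeries.coeff 0 (aeval (fun a => z.2 (Sum.inl a)) f)) +
        arcE (PowerSeries.coeff i (aeval (fun a => z.2 (Sum.inl a)) f)) i
        (toArc (fun _ : Unit => n) (fun s => z.1 (Sum.inr s)) ())) fun a => z.2 (Sum.inr a)) ∈ C) ∧
      ∀ s : Σ _ : Unit, Fin n, z.1 (Sum.inr s) =
        PowerSeries.coeff (i + 1 + (s.2 : ℕ)) (aeval (fun a => z.2 (Sum.inl a)) f) := by
  refine and_congr Iff.rfl (and_congr Iff.rfl ?_)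
  constructor
  · rintro h ⟨⟨⟩, l⟩
    rw [h l l.2, eval_AA7 _ _ l.2]
    rfl
  · intro h l hl
    rw [eval_AA7 _ _ hl]
    exact (h ⟨(), ⟨l, hl⟩⟩).symm

theorem cy_SA (f : MvPolynomial ι ℂ) (i : ℕ) {n : ℕ}
    {C : Set ((E → ℂ) × (Unit ⊕ κ → PowerSeries ℂ))} (hC : IsCyl (fun _ => n) C) :
    Cy (SA f i C) := by
  refine Cy.and (Cy.cutL f true i) (Cy.and (Cy.imp fun _ => Cy.not (Cy.zero (RF.coefL f i)))
    (cy_comp' (cy_of hC) (φ := fun z => z.1) (ψ := fun z =>
      Sum.elim (fun _ : Unit => aeval (fun a => z.2 (Sum.inl a)) f) fun a => z.2 (Sum.inr a))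
      (fun s => RF.par _) ?_))
  rintro (k | k)
  · exact fun l => RF.coefL f l
  · exact RS.arc _

theorem cy_SBt (f : MvPolynomial ι ℂ) (i : ℕ) {n : ℕ}
    {C : Set ((E → ℂ) × (Unit ⊕ κ → PowerSeries ℂ))} (hC : IsCyl (fun _ => n) C) :
    Cy (SBt f i n C) := by
  refine Cy.and (Cy.cutL f true i) (Cy.and
    (cy_comp' (cy_of (cyl_DT i hC)) (φ := fun z =>
      Sum.elim z.1 (dat true i (aeval (fun a => z.2 (Sum.inl a)) f)))
      (ψ := fun z a => z.2 (Sum.inr a)) ?_ fun k => RS.arc _)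
    (Cy.all_lt n fun l hl => ?_))
  · rintro (e | b)
    · exact RF.par _
    · exact RF.prm (E := E ⊕ (Σ _ : Unit, Fin n)) f i (Sum.inr b)
  · have h : {z : (E ⊕ (Σ _ : Unit, Fin n) → ℂ) × (ι ⊕ κ → PowerSeries ℂ) |
        PowerSeries.coeff (i + 1 + l) (aeval (fun a => z.2 (Sum.inl a)) f) =
      eval (Sum.elim (Sum.elim z.1 (dat true i (aeval (fun a => z.2 (Sum.inl a)) f)))
        (Sum.elim (fun s => PowerSeries.coeff s.2 (z.2 (Sum.inr s.1)))
          fun s => if s < l then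
            PowerSeries.coeff (i + 1 + s) (aeval (fun a => z.2 (Sum.inl a)) f) else 0))
        (AA7 E κ n l)} = {z | PowerSeries.coeff (i + 1 + l) (aeval (fun a => z.2 (Sum.inl a)) f) =
          z.1 (Sum.inr ⟨(), ⟨l, hl⟩⟩)} := by
      ext z
      change _ = _ ↔ _ = _
      rw [eval_AA7 _ _ hl]
      rfl
    rw [h]
    exact Cy.eq (RF.coefL f _) (RF.par _)

theorem vol_SBt (P : HodgeMeasure) (f : MvPolynomial ι ℂ) {i : ℕ} (hi : 1 ≤ i) {n : ℕ}
    {C : Set ((E → ℂ) × (Unit ⊕ κ → PowerSeries ℂ))} (hC : IsCyl (fun _ => n) C) :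
    vol P.rat xq (SBt f i n C) = vol P.rat xq (SA f i C) := by
  refine vol_base P (cy_SBt f i hC) (cy_SA f i hC) Sum.inl ?_ ?_ ?_
  · intro z hz
    obtain ⟨h1, ⟨h2, h3⟩, h4⟩ := (mem_SBt f i n C z).1 hz
    refine ⟨h1, fun _ => h2, (hC.1 _ _ _ ?_).1 h3⟩
    rintro (k | k) l hl
    · exact agree hi h1 h4 l hl
    · rfl
  · intro z hz z' hz' h1 h2
    obtain ⟨-, -, h4⟩ := (mem_SBt f i n C z).1 hz
    obtain ⟨-, -, h4'⟩ := (mem_SBt f i n C z').1 hz'
    funext s
    rcases s with s | s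
    · exact congrFun h1 s
    · rw [h4, h4', h2]
  · rintro z ⟨h1, h2, h3⟩
    refine ⟨Sum.elim z.1 fun s => PowerSeries.coeff (i + 1 + (s.2 : ℕ))
      (aeval (fun a => z.2 (Sum.inl a)) f), rfl, (mem_SBt f i n C _).2
        ⟨h1, ⟨h2 rfl, (hC.1 _ _ _ ?_).2 h3⟩, fun s => rfl⟩⟩
    rintro (k | k) l hl
    · exact agree hi h1 (fun s => rfl) l hl
    · rfl

/-- the equivalence of the parameter sets -/
def eqp (E σ J : Type) : (E ⊕ σ) ⊕ J ≃ (E ⊕ J) ⊕ σ where
  toFun := Sum.elim (Sum.elim (fun e => Sum.inl (Sum.inl e)) Sum.inr) fun j => Sum.inl (Sum.inr j)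
  invFun := Sum.elim (Sum.elim (fun e => Sum.inl (Sum.inl e)) Sum.inr) fun j => Sum.inl (Sum.inr j)
  left_inv := by rintro ((e | s) | j) <;> rfl
  right_inv := by rintro ((e | s) | j) <;> rfl

theorem vTA_true (P : HodgeMeasure) (G : Fam2) (hG : G.Ok Set.univ true) (i : ℕ) {n : ℕ}
    {C : Set ((E → ℂ) × (Unit ⊕ κ → PowerSeries ℂ))} (hC : IsCyl (fun _ => n) C) :
    vTA P G true i C = xq ^ n * G.volR P (DT i n C) := by
  have := G.fin
  unfold vTA Fam2.volR
  simp only [if_true]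
  set V : Set ((E ⊕ G.σ → ℂ) × (Unit ⊕ κ → PowerSeries ℂ)) :=
    {z : (E ⊕ G.σ → ℂ) × (Unit ⊕ κ → PowerSeries ℂ) | (fun s => z.1 (Sum.inr s)) ∈ G.S ∧
    ((fun e => z.1 (Sum.inl e)), Sum.elim (fun _ : Unit =>
      PowerSeries.C (eval (fun s => z.1 (Sum.inr s)) G.v) +
        arcE (eval (fun s => z.1 (Sum.inr s)) G.u) i (z.2 (Sum.inl ())))
      fun a => z.2 (Sum.inr a)) ∈ C} with hV
  have cyV : Cy V := by
    refine Cy.and (Cy.mem hG.1 (φ := fun s z => z.1 (Sum.inr s)) fun s => RF.par _)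
      (cy_comp' (cy_of hC) (φ := fun z e => z.1 (Sum.inl e)) (ψ := fun z =>
        Sum.elim (fun _ : Unit => PowerSeries.C (eval (fun s => z.1 (Sum.inr s)) G.v) +
        arcE (eval (fun s => z.1 (Sum.inr s)) G.u) i (z.2 (Sum.inl ())))
      fun a => z.2 (Sum.inr a)) (fun s => RF.par _) ?_)
    rintro (k | k)
    · exact RS.add (RS.C (RF.pe (fun s => RF.par _) _))
        (RS.arcE (RF.pe (fun s => RF.par _) _) (RS.arc _) i)
    · exact RS.arc _
  have h1 := vol_swap (κ := κ) P cyV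
  rw [← h1]
  set V' : Set ((E ⊕ G.σ → ℂ) × (κ ⊕ Unit → PowerSeries ℂ)) :=
    {z | (z.1, fun i => z.2 (Sum.swap i)) ∈ V} with hV'
  have cylV' : IsCyl (fun _ => n) V' := by
    refine isCyl_of (cyV.pull (φ := fun e z => z.1 e) (fun e => RF.par _) Sum.swap) ?_
    intro p x y h
    refine and_congr Iff.rfl (hC.1 _ _ _ ?_)
    rintro (k | k) l hl
    · have hl' : l < n := hl
      change PowerSeries.coeff l (_ + arcE _ i (x (Sum.inr ()))) =
        PowerSeries.coeff l (_ + arcE _ i (y (Sum.inr ())))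
      rw [map_add, map_add, coeff_arcE, coeff_arcE]
      by_cases h2 : i + 1 ≤ l
      · rw [if_pos h2, if_pos h2, h (Sum.inr ()) (l - (i + 1)) (by omega)]
      · rw [if_neg h2, if_neg h2]
    · exact h (Sum.inl k) l hl
  rw [U5Aux.vol_jt P cylV', Fintype.card_unit, one_mul]
  congr 1
  have cyJ : Cy (U5Aux.jt n V') := cy_of (U5Aux.cyl_jt cylV')
  rw [← vol_par P (eqp E G.σ (Σ _ : Unit, Fin n)) cyJ]
  congr 1
  ext z
  constructor
  · rintro ⟨h2, h3⟩
    exact ⟨h2, (hG.2 _ h2).2 rfl, h3⟩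
  · rintro ⟨h2, -, h3⟩
    exact ⟨h2, h3⟩

theorem vTA_false (P : HodgeMeasure) (G : Fam2) (hG : Constructible G.S) (i : ℕ) {n : ℕ}
    {C : Set ((E → ℂ) × (Unit ⊕ κ → PowerSeries ℂ))} (hC : IsCyl (fun _ => n) C) :
    vTA P G false i C = G.volR P (DF C) := by
  have := G.fin
  unfold vTA Fam2.volR
  simp only [Bool.false_eq_true, if_false, add_zero]
  have cyW : Cy {z : (E ⊕ G.σ → ℂ) × (κ → PowerSeries ℂ) | (fun s => z.1 (Sum.inr s)) ∈ G.S ∧
      ((Sum.elim (fun p => z.1 (Sum.inl p)) (G.pt fun s => z.1 (Sum.inr s))), z.2) ∈ DF C} := by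
    refine Cy.and (Cy.mem hG (φ := fun s z => z.1 (Sum.inr s)) fun s => RF.par _)
      (cy_comp' (cy_of (cyl_DF hC)) (φ := fun z => Sum.elim (fun p => z.1 (Sum.inl p))
        (G.pt fun s => z.1 (Sum.inr s))) (ψ := fun z => z.2) ?_ fun k => RS.arc k)
    rintro (e | b)
    · exact RF.par _
    · exact RF.ite (b = true) (RF.pe (fun s => RF.par _) _) (RF.pe (fun s => RF.par _) _)
  exact vol_arc P (φ := (Sum.inr : κ → Unit ⊕ κ)) Sum.inr_injective cyW

end

end TA7Aux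

open TAAux TA7Aux in
theorem stmt_TA7 : Stmt_TA7 := by
  intro P ι _ f w Gs hf E κ _ _ C n hC i hi hn
  cases w
  · have h1 := stmt_R5 P ι f Set.univ false Gs hf E κ (DF C) n (cyl_DF hC)
      (fun z _ => ⟨Set.mem_univ _, fun h => absurd h Bool.false_ne_true⟩) i hi
    have h2 : (Gs.map fun G => G.κ i * vTA P G false i C).sum =
        (Gs.map fun G => G.κ i * G.volR P (DF C)).sum := by
      congr 1
      refine List.map_congr_left fun G hG => ?_
      rw [vTA_false P G (hf.1 G hG).1 i hC]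
    rw [h2, ← h1]
    congr 1
    ext z
    change (_ ∧ _ ∧ _) ↔ (_ ∧ _)
    constructor
    · rintro ⟨h3, -, h4⟩
      refine ⟨h3, (hC.1 _ _ _ ?_).1 h4⟩
      rintro (k | k) l hl
      · rcases Nat.eq_zero_or_pos l with h0 | h0
        · subst h0
          change _ = PowerSeries.coeff 0 (PowerSeries.C (PowerSeries.coeff 0 _))
          rw [PowerSeries.coeff_C, if_pos rfl]
          rfl
        · change _ = PowerSeries.coeff l (PowerSeries.C _)
          rw [PowerSeries.coeff_C, if_neg (by omega)]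
          have hl' : l < n := hl
          exact h3 l h0 (by have := hn rfl; simp only [Bool.false_eq_true, if_false]; omega)
      · rfl
    · rintro ⟨h3, h4⟩
      refine ⟨h3, fun h => absurd h Bool.false_ne_true, (hC.1 _ _ _ ?_).2 h4⟩
      rintro (k | k) l hl
      · rcases Nat.eq_zero_or_pos l with h0 | h0
        · subst h0
          change _ = PowerSeries.coeff 0 (PowerSeries.C (PowerSeries.coeff 0 _))
          rw [PowerSeries.coeff_C, if_pos rfl]
          rfl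
        · change _ = PowerSeries.coeff l (PowerSeries.C _)
          rw [PowerSeries.coeff_C, if_neg (by omega)]
          have hl' : l < n := hl
          exact h3 l h0 (by have := hn rfl; simp only [Bool.false_eq_true, if_false]; omega)
      · rfl
  · have hi' := hi rfl
    have h1 := stmt_U5 P ι f Set.univ (unif_all P f Set.univ) (E ⊕ (Σ _ : Unit, Fin n)) κ
      (DT i n C) n (cyl_DT i hC) (fun z hz => ⟨Set.mem_univ _, hz.1⟩) i n hi' (AA7 E κ n)
    have h2 := stmt_R5 P ι f Set.univ true Gs hf (E ⊕ (Σ _ : Unit, Fin n)) κ (DT i n C) n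
      (cyl_DT i hC) (fun z hz => ⟨Set.mem_univ _, fun _ => hz.1⟩) i hi
    rw [h2] at h1
    have h3 : (Gs.map fun G => G.κ i * vTA P G true i C).sum =
        xq ^ n * (Gs.map fun G => G.κ i * G.volR P (DT i n C)).sum := by
      rw [← List.sum_map_mul_left]
      congr 1
      refine List.map_congr_left fun G hG => ?_
      rw [vTA_true P G (hf.1 G hG) i hC]
      ring
    rw [h3, ← h1]
    exact (vol_SBt P f hi' hC).symm

end Pool.Agent.Mono.BV
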