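import Pool.Agent.Work.Monodromy.Interface7V
import Pool.Agent.Work.Monodromy5.R5
import Pool.Agent.Work.Monodromy5.U5
import Pool.Agent.Work.Monodromy6.VSH
import Pool.Agent.Work.Monodromy6.PL

/-!
# Phase 7, transfer blocks TA7, RH7, TR7, RA7 (helper21): tools for cylinders and volumes
-/

set_option autoImplicit false
set_option linter.unusedSectionVars false

namespace Pool.Agent.Mono.BV

open MvPolynomial TS PC RO RO.VGAux

namespace TAAux

open VSHAux

section lib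

variable {E E' ι κ : Type}

/-- substitution of regular parameters and of arcs with regular coefficients -/
theorem cy_comp [Finite E] [Fintype κ] {C : Set ((E → ℂ) × (κ → PowerSeries ℂ))} (hC : Cy C)
    {φ : E → (E' → ℂ) × (ι → PowerSeries ℂ) → ℂ} (hφ : ∀ s, RF (φ s))
    {ψ : κ → (E' → ℂ) × (ι → PowerSeries ℂ) → PowerSeries ℂ}
    (hψ : ∀ k l, RF fun z => PowerSeries.coeff l (ψ k z)) :
    Cy {z : (E' → ℂ) × (ι → PowerSeries ℂ) | ((fun s => φ s z), fun k => ψ k z) ∈ C} := by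
  obtain ⟨N, hN⟩ := hC
  obtain ⟨h1, h2⟩ := hN N le_rfl
  have h := Cy.mem h2 (φ := (Sum.elim φ fun (s : Σ _ : κ, Fin N) z =>
    PowerSeries.coeff (s.2 : ℕ) (ψ s.1 z) : E ⊕ (Σ _ : κ, Fin N) →
      (E' → ℂ) × (ι → PowerSeries ℂ) → ℂ)) (by rintro (s | s); exacts [hφ s, hψ _ _])
  have e : {z : (E' → ℂ) × (ι → PowerSeries ℂ) | ((fun s => φ s z), fun k => ψ k z) ∈ C} =
      {z | (fun s => (Sum.elim φ fun (s : Σ _ : κ, Fin N) z =>
        PowerSeries.coeff (s.2 : ℕ) (ψ s.1 z) : E ⊕ (Σ _ : κ, Fin N) →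
          (E' → ℂ) × (ι → PowerSeries ℂ) → ℂ) s z) ∈ sec (fun _ => N) C} := by
    ext z
    refine h1 _ _ _ ?_
    intro k l hl
    rw [coeff_toArc, dif_pos hl]
    rfl
  rw [e]
  exact h

/-- the same, in the form of two functions -/
theorem cy_comp' [Finite E] [Fintype κ] {C : Set ((E → ℂ) × (κ → PowerSeries ℂ))} (hC : Cy C)
    {φ : (E' → ℂ) × (ι → PowerSeries ℂ) → E → ℂ} (hφ : ∀ s, RF fun z => φ z s)
    {ψ : (E' → ℂ) × (ι → PowerSeries ℂ) → κ → PowerSeries ℂ}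
    (hψ : ∀ k l, RF fun z => PowerSeries.coeff l (ψ z k)) :
    Cy {z : (E' → ℂ) × (ι → PowerSeries ℂ) | (φ z, ψ z) ∈ C} :=
  cy_comp hC (φ := fun s z => φ z s) hφ (ψ := fun k z => ψ z k) hψ

theorem isCyl_of [Fintype ι] {C : Set ((E → ℂ) × (ι → PowerSeries ℂ))} (hC : Cy C) {K : ι → ℕ}
    (h : ∀ p x y, (∀ i, ∀ l < K i, PowerSeries.coeff l (x i) = PowerSeries.coeff l (y i)) →
      ((p, x) ∈ C ↔ (p, y) ∈ C)) : IsCyl K C := ⟨h, O5Aux.con_sec hC K⟩

theorem cy_of [Finite E] [Fintype ι] {C : Set ((E → ℂ) × (ι → PowerSeries ℂ))} {n : ℕ}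
    (hC : IsCyl (fun _ => n) C) : Cy C :=
  ⟨n, fun _ hN => hC.mono fun _ => hN⟩

/-! Coefficients -/

theorem coeff_arcE (c : ℂ) (k l : ℕ) (w : PowerSeries ℂ) :
    PowerSeries.coeff l (arcE c k w) = (if l = k then c else 0) +
      if k + 1 ≤ l then PowerSeries.coeff (l - (k + 1)) w else 0 := by
  rw [arcE, map_add, PowerSeries.coeff_C_mul_X_pow, PowerSeries.coeff_X_pow_mul']

/-- series with regular coefficients -/
def RS (s : (E → ℂ) × (ι → PowerSeries ℂ) → PowerSeries ℂ) : Prop :=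
  ∀ l, RF fun z => PowerSeries.coeff l (s z)

theorem RS.arc (i : ι) : RS fun z : (E → ℂ) × (ι → PowerSeries ℂ) => z.2 i := fun l => RF.arc i l

theorem RS.C {φ : (E → ℂ) × (ι → PowerSeries ℂ) → ℂ} (h : RF φ) :
    RS fun z => PowerSeries.C (φ z) := by
  intro l
  simp only [PowerSeries.coeff_C]
  exact RF.ite _ h (RF.const 0)

theorem RS.add {s t : (E → ℂ) × (ι → PowerSeries ℂ) → PowerSeries ℂ} (hs : RS s) (ht : RS t) :
    RS fun z => s z + t z := by
  intro l
  simp only [map_add]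
  exact (hs l).add (ht l)

theorem RS.zero : RS fun _ : (E → ℂ) × (ι → PowerSeries ℂ) => 0 := by
  intro l
  simp only [map_zero]
  exact RF.const 0

theorem RS.Xmul {s : (E → ℂ) × (ι → PowerSeries ℂ) → PowerSeries ℂ} (hs : RS s) :
    RS fun z => PowerSeries.X * s z := by
  intro l
  rcases l with _ | l
  · simp only [PowerSeries.coeff_zero_X_mul]
    exact RF.const 0
  · simp only [PowerSeries.coeff_succ_X_mul]
    exact hs l

theorem RS.arcE {φ : (E → ℂ) × (ι → PowerSeries ℂ) → ℂ}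
    {s : (E → ℂ) × (ι → PowerSeries ℂ) → PowerSeries ℂ} (h : RF φ) (hs : RS s) (k : ℕ) :
    RS fun z => arcE (φ z) k (s z) := by
  intro l
  simp only [coeff_arcE]
  exact (RF.ite _ h (RF.const 0)).add (RF.ite _ (hs _) (RF.const 0))

theorem RS.toArc {K : κ → ℕ} {φ : (Σ i, Fin (K i)) → (E → ℂ) × (ι → PowerSeries ℂ) → ℂ}
    (h : ∀ s, RF (φ s)) (i : κ) : RS fun z => toArc K (fun s => φ s z) i := by
  intro l
  simp only [coeff_toArc]
  by_cases hl : l < K i
  · simp only [dif_pos hl]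
    exact h _
  · simp only [dif_neg hl]
    exact RF.const 0

theorem RS.ite {s t : (E → ℂ) × (ι → PowerSeries ℂ) → PowerSeries ℂ} (p : Prop) [Decidable p]
    (hs : RS s) (ht : RS t) : RS fun z => if p then s z else t z := by
  by_cases hp : p
  · simpa [hp] using hs
  · simpa [hp] using ht

theorem RS.aeval {σ : Type} {s : σ → (E → ℂ) × (ι → PowerSeries ℂ) → PowerSeries ℂ}
    (hs : ∀ i, RS (s i)) (G : MvPolynomial σ ℂ) :
    RS fun z => MvPolynomial.aeval (fun i => s i z) G := fun l => PL.RF.aeval (fun i l => hs i l) G l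

/-- renaming of the arcs -/
theorem RF.co {φ : (E → ℂ) × (κ → PowerSeries ℂ) → ℂ} (h : RF φ) (τ : κ → ι) :
    RF fun z : (E → ℂ) × (ι → PowerSeries ℂ) => φ (z.1, fun j => z.2 (τ j)) := by
  obtain ⟨N0, hN⟩ := h
  refine ⟨N0, fun N hN0 => ?_⟩
  obtain ⟨h1, A, hA⟩ := hN N hN0
  refine ⟨fun p x y hxy => h1 p _ _ fun i l hl => hxy (τ i) l hl,
    rename (Sum.map id fun s => ⟨τ s.1, s.2⟩) A, fun v => ?_⟩
  rw [eval_rename]
  exact hA (v ∘ Sum.map id fun s => ⟨τ s.1, s.2⟩)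

theorem RS.co {s : (E → ℂ) × (κ → PowerSeries ℂ) → PowerSeries ℂ} (h : RS s) (τ : κ → ι) :
    RS fun z : (E → ℂ) × (ι → PowerSeries ℂ) => s (z.1, fun j => z.2 (τ j)) :=
  fun l => RF.co (h l) τ

theorem RF.pe {σ : Type} {φ : σ → (E → ℂ) × (ι → PowerSeries ℂ) → ℂ} (h : ∀ s, RF (φ s))
    (A : MvPolynomial σ ℂ) : RF fun z => MvPolynomial.eval (fun s => φ s z) A := RF.eval h A

/-! Volumes -/

variable [Finite E] [Finite E'] [Fintype ι] [Fintype κ] (P : HodgeMeasure)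

/-- change of the names of the parameters -/
theorem vol_par (r : E ≃ E') {S : Set ((E → ℂ) × (ι → PowerSeries ℂ))} (hS : Cy S) :
    vol P.rat xq {z : (E' → ℂ) × (ι → PowerSeries ℂ) | ((fun e => z.1 (r e)), z.2) ∈ S} =
      vol P.rat xq S := by
  refine vol_base P (hS.pull (φ := fun e z => z.1 (r e)) (fun e => RF.par _) id) hS r
    (fun z hz => hz) ?_ ?_
  · intro z hz z' hz' h1 h2
    funext e
    have := congrFun h1 (r.symm e)
    simpa using this
  · intro z hz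
    refine ⟨fun e => z.1 (r.symm e), ?_, ?_⟩
    · funext e
      simp
    · change ((fun e => z.1 (r.symm (r e))), z.2) ∈ S
      simpa using hz

/-- change of the names of the arcs, free arcs -/
theorem vol_arc {φ : ι → κ} (hφ : Function.Injective φ)
    {S : Set ((E → ℂ) × (ι → PowerSeries ℂ))} (hS : Cy S) :
    vol P.rat xq {z : (E → ℂ) × (κ → PowerSeries ℂ) | (z.1, fun i => z.2 (φ i)) ∈ S} =
      vol P.rat xq S := by
  obtain ⟨N, hN⟩ := hS
  exact T0Aux.vol_comp P hφ (hN N le_rfl)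

/-- change of all names -/
theorem vol_ren (r : E ≃ E') (s : ι ≃ κ) {S : Set ((E → ℂ) × (ι → PowerSeries ℂ))} (hS : Cy S)
    {S' : Set ((E' → ℂ) × (κ → PowerSeries ℂ))}
    (h : ∀ p x, (p, x) ∈ S' ↔ ((fun e => p (r e)), fun i => x (s i)) ∈ S) :
    vol P.rat xq S' = vol P.rat xq S := by
  have h1 := vol_par P r hS
  have h2 := vol_arc P (φ := s) s.injective (hS.pull (E' := E') (φ := fun e z => z.1 (r e))
    (fun e => RF.par _) (id : ι → ι))
  rw [← h1]
  refine Eq.trans ?_ h2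
  congr 1
  ext z
  exact h z.1 z.2

/-- sets given by the parameters -/
theorem vol_param {B : Set (E → ℂ)} (hB : Constructible B) :
    vol P.rat xq {z : (E → ℂ) × (ι → PowerSeries ℂ) | z.1 ∈ B} = P.rat.val B := by
  rw [vol_eq P.rat (TS.VAAux.L_mul P) (IsCyl.param (K := fun _ => 0) hB)]
  simp only [Finset.sum_const_zero, pow_zero, mul_one]
  refine P.rat.map _ _ (fun e => X (Sum.inl e)) (IsCyl.param (K := fun _ => 0) hB).2 hB
    ⟨?_, ?_, ?_⟩
  · intro v hv
    simp only [eval_X]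
    exact hv
  · intro v hv v' hv' h
    funext s
    rcases s with s | ⟨s, l⟩
    · have := congrFun h s
      simpa only [eval_X] using this
    · exact l.elim0
  · intro y hy
    refine ⟨Sum.elim y fun s => s.2.elim0, hy, ?_⟩
    funext e
    simp only [eval_X, Sum.elim_inl]

theorem con_param {S : Set ((E → ℂ) × (ι → PowerSeries ℂ))} (hS : Cy S)
    (x : ι → PowerSeries ℂ) (hx : ∀ p y, (p, y) ∈ S ↔ (p, x) ∈ S) :
    Constructible {p : E → ℂ | (p, x) ∈ S} := by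
  have h := O5Aux.con_sec hS fun _ => 0
  have h2 := Constructible.preimage (Sum.elim (fun e => X e) fun _ => 0 :
    E ⊕ (Σ _ : ι, Fin 0) → MvPolynomial E ℂ) h
  convert h2 using 2
  ext p
  change (p, x) ∈ S ↔ ((fun e => eval p (X e)), toArc (fun _ : ι => 0) _) ∈ S
  simp only [eval_X]
  exact (hx _ _).symm

theorem xq_ne : xq ≠ 0 := by
  rw [xq]
  exact inv_ne_zero RatFunc.X_ne_zero

/-- Change of variables with regular functions: `τ` maps `S'` onto `S`, and the arc `i` of the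
image is known up to the level `N + m i` if and only if the arcs are known up to the level `N`. -/
theorem vol_cvr {S : Set ((E → ℂ) × (ι → PowerSeries ℂ))}
    {S' : Set ((E' → ℂ) × (κ → PowerSeries ℂ))} (hS : Cy S) (hS' : Cy S') (m : ι → ℕ)
    (hcard : Fintype.card κ = Fintype.card ι)
    (τ : (E' → ℂ) × (κ → PowerSeries ℂ) → (E → ℂ) × (ι → PowerSeries ℂ))
    (hp : ∀ e, RF fun z => (τ z).1 e) (hp' : ∀ p x y, (τ (p, x)).1 = (τ (p, y)).1)
    (ha : ∀ i l, RF fun z => PowerSeries.coeff l ((τ z).2 i))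
    (hc : ∀ (N : ℕ) p x y, (∀ j, ∀ l < N, PowerSeries.coeff l (x j) = PowerSeries.coeff l (y j)) →
      ∀ i, ∀ l < N + m i, PowerSeries.coeff l ((τ (p, x)).2 i) =
        PowerSeries.coeff l ((τ (p, y)).2 i))
    (hi : ∀ N, ∀ z ∈ S', ∀ z' ∈ S', (τ z).1 = (τ z').1 →
      (∀ i, ∀ l < N + m i, PowerSeries.coeff l ((τ z).2 i) = PowerSeries.coeff l ((τ z').2 i)) →
        z.1 = z'.1 ∧ ∀ j, ∀ l < N, PowerSeries.coeff l (z.2 j) = PowerSeries.coeff l (z'.2 j))
    (h2 : ∀ z ∈ S', τ z ∈ S) (h3 : ∀ y ∈ S, ∃ z ∈ S', τ z = y) :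
    vol P.rat xq S = xq ^ (∑ i, m i) * vol P.rat xq S' := by
  obtain ⟨N1, hN1⟩ := hS
  obtain ⟨N2, hN2⟩ := hS'
  set N := max N1 N2 with hN
  have c1 : IsCyl (fun i => N + m i) S :=
    (hN1 N (le_max_left _ _)).mono fun i => Nat.le_add_right _ _
  have c2 := hN2 N (le_max_right _ _)
  have hA : ∀ e : E, ∃ A : MvPolynomial (E' ⊕ (Σ _ : κ, Fin N)) ℂ, ∀ p x,
      (τ (p, x)).1 e = eval (CV.trd (fun _ => N) p x) A := fun e =>
    level (hp e) N fun p x y _ => congrFun (hp' p x y) e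
  have hB : ∀ s : (Σ i : ι, Fin (N + m i)), ∃ A : MvPolynomial (E' ⊕ (Σ _ : κ, Fin N)) ℂ, ∀ p x,
      PowerSeries.coeff (s.2 : ℕ) ((τ (p, x)).2 s.1) = eval (CV.trd (fun _ => N) p x) A := fun s =>
    level (ha s.1 s.2) N fun p x y h => hc N p x y h s.1 s.2 s.2.2
  choose A hA using hA
  choose B hB using hB
  have key := CV.vol_cvp P c1 c2 τ (Sum.elim A B) ?_ h2 ?_ ?_
  · rw [Finset.sum_const, Finset.card_univ, smul_eq_mul, hcard, Finset.sum_add_distrib,
      Finset.sum_const, Finset.card_univ, smul_eq_mul, pow_add] at key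
    refine mul_right_cancel₀ (pow_ne_zero (Fintype.card ι * N) xq_ne) ?_
    rw [key]
    ring
  · rintro ⟨p, x⟩ -
    funext a
    rcases a with a | a
    · exact hA a p x
    · exact hB a p x
  · intro z hz z' hz' h
    obtain ⟨h4, h5⟩ := hi N z hz z' hz' (funext fun e => congrFun h (Sum.inl e))
      fun i l hl => congrFun h (Sum.inr ⟨i, ⟨l, hl⟩⟩)
    funext a
    rcases a with a | a
    · exact congrFun h4 a
    · exact h5 a.1 a.2 a.2.2
  · intro y hy
    obtain ⟨z, hz, rfl⟩ := h3 y hy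
    exact ⟨z, hz, rfl⟩

end lib

end TAAux

end Pool.Agent.Mono.BV
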