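import Pool.Agent.Work.Monodromy7.T7D

/-! Phase 7, tree part: the four statements of `Interface7T`. -/

set_option autoImplicit false
set_option linter.unusedSimpArgs false
set_option linter.unusedVariables false

namespace Pool.Agent.Mono.BG

open MvPolynomial PC PC.TT

theorem stmt_TFF : Stmt_TFF := by
  intro Λ P x₀ n g hP hsq hcrit hexp hmul
  exact T7.tff hP hsq hcrit hexp hmul

theorem stmt_TXF : Stmt_TXF := by
  intro Λ W G hG h0 h1 hctx
  exact T7.txf hG h0 h1 hctx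

theorem stmt_TXX : Stmt_TXX := by
  intro Λ W W' G hG h0 hctx
  exact T7.txx hG h0 hctx

namespace T7

lemma loc_eq (P : P2) (x₀ : Fin 2 → ℂ) : loc P x₀ = transE x₀ (P - C (eval x₀ P)) := by
  rw [map_sub]
  unfold loc
  congr 1
  simp [transE]

lemma loc_ne {P : P2} (hP : P.totalDegree ≠ 0) (x₀ : Fin 2 → ℂ) : loc P x₀ ≠ 0 := by
  intro h
  rw [loc_eq, map_eq_zero_iff _ (transE x₀).injective, sub_eq_zero] at h
  apply hP
  rw [h, totalDegree_C]

lemma loc_zero (P : P2) (x₀ : Fin 2 → ℂ) : eval 0 (loc P x₀) = 0 := by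
  rw [loc_eq, eval_zero_transE]; simp

lemma loc_pderiv (P : P2) (x₀ : Fin 2 → ℂ) (i : Fin 2) :
    eval 0 (pderiv i (loc P x₀)) = eval x₀ (pderiv i P) := by
  rw [loc_eq, pderiv_transE, eval_zero_transE]; simp

lemma eval_swp_zero (Q : P2) : eval (0 : Fin 2 → ℂ) (swp Q) = eval (0 : Fin 2 → ℂ) Q := by
  rw [eval_zero_coeff, eval_zero_coeff, ← mon_zero_zero, coeff_swp]

lemma pderiv_swp_zero (Q : P2) :
    eval (0 : Fin 2 → ℂ) (pderiv 1 (swp Q)) = eval (0 : Fin 2 → ℂ) (pderiv 0 Q) := by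
  rw [coeff_pderiv_one, coeff_swp, eval_zero_coeff, coeff_pderiv]
  have : (0 : Fin 2 →₀ ℕ) + Finsupp.single 0 1 = mon 1 0 := by apply ext2 <;> simp
  rw [this]; simp

end T7

open T7 in
theorem stmt_TREE7 (hC : Stmt_CTX7) : Stmt_TREE7 := by
  intro ι κ _ _ _ _ f g P hf hg hP x₀
  obtain ⟨h1, h2, h3⟩ := hC ι κ f g P hf hg hP
  obtain ⟨c1, c1', c2, _⟩ := h3 x₀
  have hne := loc_ne hP x₀
  refine ⟨?_, h2 (eval x₀ P), ?_, ?_, ?_⟩
  · intro n k hk hsq hcrit
    exact tff hk hsq hcrit (h1 (eval x₀ P)) (h2 (eval x₀ P))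
  · intro hd
    exact txf hne (loc_zero P x₀) (by rw [loc_pderiv]; exact hd) c1
  · intro hd
    refine txf (swp_ne_zero hne) (by rw [eval_swp_zero]; exact loc_zero P x₀) ?_ c1'
    rw [pderiv_swp_zero, loc_pderiv]; exact hd
  · exact txx hne (loc_zero P x₀) c2

end Pool.Agent.Mono.BG
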