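import Pool.Agent.Work.Monodromy7.VLH

/-!
# Phase 7, volume part: arcs of large order (helper63)
-/

set_option autoImplicit false
set_option linter.unusedSectionVars false

namespace Pool.Agent.Mono.BV

open MvPolynomial TS RO RO.VGAux PC

namespace VL7

section

variable {E : Type}

theorem lead_congr {Q : Set (E ⊕ Unit → ℂ)} {m : ℕ} {p : E → ℂ} {F F' : PowerSeries ℂ}
    (h : ∀ j ≤ m, PowerSeries.coeff j F = PowerSeries.coeff j F') :
    Lead Q m p F ↔ Lead Q m p F' := by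
  unfold Lead
  rw [h m le_rfl]
  refine and_congr (forall_congr' fun j => forall_congr' fun hj => ?_) Iff.rfl
  rw [h j hj.le]

/-- coefficients of `G(α, β)` -/
theorem two_congr (G : P2) {α α' β β' : PowerSeries ℂ} {n : ℕ}
    (h : ∀ j < n, PowerSeries.coeff j α = PowerSeries.coeff j α')
    (h' : ∀ j < n, PowerSeries.coeff j β = PowerSeries.coeff j β') :
    ∀ j < n, PowerSeries.coeff j (aeval ![α, β] G) = PowerSeries.coeff j (aeval ![α', β'] G) := by
  refine GJetAux.aeval_congr G n _ _ fun i l hl => ?_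
  fin_cases i
  · exact h l hl
  · exact h' l hl

theorem ev_congr (G : P2) (k : ℕ) (a : ℂ) {w w' : PowerSeries ℂ} {n : ℕ}
    (h : ∀ j < n, PowerSeries.coeff j w = PowerSeries.coeff j w') :
    ∀ j < n, PowerSeries.coeff j (ev G k a w) = PowerSeries.coeff j (ev G k a w') :=
  two_congr G (fun _ _ => rfl) h

/-- the parameters of `e0` -/
def E0 (G : P2) (Q : Set ((E ⊕ Unit) ⊕ Unit → ℂ)) (k m : ℕ) : Set (E ⊕ Unit → ℂ) :=
  {z | z (Sum.inr ()) ≠ 0 ∧ Lead Q m z (ev G k (z (Sum.inr ())) 0)}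

theorem con_E0 [Finite E] (G : P2) {Q : Set ((E ⊕ Unit) ⊕ Unit → ℂ)} (hQ : Constructible Q)
    (k m : ℕ) : Constructible (E0 G Q k m) := by
  refine con_of_cy (Cy.and (Cy.not (Cy.zero (RF.par _)))
    (cy_lead hQ m (fun e => RF.par e) fun l => RF.ev G k _ (fun l => ?_) l))
  simpa using RF.const (0 : ℂ)

/-- the parameters of `e2` for large orders -/
theorem e2_far (P : HodgeMeasure) [Finite E] {t : Fam} (ht : t.Good) (G : P2)
    {Q : Set ((E ⊕ Unit) ⊕ Unit → ℂ)} (hQ : Constructible Q) {k l m : ℕ} (hl : m + 1 ≤ l) :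
    e2 P t G Q k l m = famV P t * e0 P G Q k m := by
  haveI := t.fin
  have h0 := con_E0 G hQ k m
  have hR : Constructible {x : (E ⊕ Unit) ⊕ t.σ → ℂ |
      (fun i => x (Sum.inl i)) ∈ E0 G Q k m ∧ (fun j => x (Sum.inr j)) ∈ t.S} :=
    (Constructible.comap _ h0).and (Constructible.comap _ ht.1)
  have hset : ES t G Q k l m = {z : ((E ⊕ Unit) ⊕ t.σ → ℂ) × (Unit → PowerSeries ℂ) |
      (∀ j < 0, PowerSeries.coeff j (z.2 ()) = 0) ∧ z.1 ∈ {x : (E ⊕ Unit) ⊕ t.σ → ℂ |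
      (fun i => x (Sum.inl i)) ∈ E0 G Q k m ∧ (fun j => x (Sum.inr j)) ∈ t.S}} := by
    ext z
    have h1 : Lead Q m (fun e => z.1 (Sum.inl e)) (ev G k (z.1 (Sum.inl (Sum.inr ())))
        (arcE (eval (fun s => z.1 (Sum.inr s)) t.u) l (z.2 ()))) ↔
        Lead Q m (fun e => z.1 (Sum.inl e)) (ev G k (z.1 (Sum.inl (Sum.inr ()))) 0) := by
      refine lead_congr fun j hj => ev_congr G k _ (n := m + 1) (fun i hi => ?_) j (by omega)
      rw [coeff_arcE_lt _ _ (by omega), map_zero]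
    constructor
    · rintro ⟨a1, a2, a3⟩
      exact ⟨fun j hj => absurd hj (Nat.not_lt_zero j), ⟨a1, h1.1 a3⟩, a2⟩
    · rintro ⟨-, ⟨a1, a3⟩, a2⟩
      exact ⟨a1, a2, h1.2 a3⟩
  unfold e2
  rw [hset, PL.vol_pl0 P hR, pow_zero, one_mul, P.rat.prod _ _ h0 ht.1, mul_comm]
  rfl

/-- the volume of the arcs of large order -/
theorem vN7_far (P : HodgeMeasure) [Finite E] (G : P2)
    {Q : Set ((E ⊕ Unit) ⊕ Unit → ℂ)} (hQ : Constructible Q) {k L m : ℕ} (hL : m + 1 ≤ L) :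
    vN7 P G Q k L m = xq ^ L * e0 P G Q k m := by
  have hset : NS7 G Q k L m = {z : (E ⊕ Unit → ℂ) × (Unit → PowerSeries ℂ) |
      (∀ j < L, PowerSeries.coeff j (z.2 ()) = 0) ∧ z.1 ∈ E0 G Q k m} := by
    ext z
    have h1 : (∀ j < L, PowerSeries.coeff j (z.2 ()) = 0) →
        (Lead Q m z.1 (ev G k (z.1 (Sum.inr ())) (z.2 ())) ↔
          Lead Q m z.1 (ev G k (z.1 (Sum.inr ())) 0)) := by
      intro h
      refine lead_congr fun j hj => ev_congr G k _ (n := m + 1) (fun i hi => ?_) j (by omega)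
      rw [h i (by omega), map_zero]
    constructor
    · rintro ⟨a1, a2, a3⟩
      exact ⟨a2, a1, (h1 a2).1 a3⟩
    · rintro ⟨a2, a1, a3⟩
      exact ⟨a1, a2, (h1 a2).2 a3⟩
  unfold vN7
  rw [hset, PL.vol_pl0 P (con_E0 G hQ k m)]
  rfl

theorem haar_good (α : K) : (haar α).Good := by
  refine ⟨?_, fun τ hτ => ?_⟩
  · have h : (haar α).S = {τ : Unit → ℂ | τ () ≠ 0} := rfl
    rw [h]
    exact TG5Aux.con_ne (TG5Aux.IP.coord _)
  · change eval τ (X ()) ≠ 0
    rw [eval_X]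
    exact hτ

/-- the arcs of order exactly `L` -/
theorem vN7_step (P : HodgeMeasure) [Finite E] (G : P2)
    {Q : Set ((E ⊕ Unit) ⊕ Unit → ℂ)} (hQ : Constructible Q) (α : K) (k L m : ℕ) :
    vN7 P G Q k L m = xq ^ (L + 1) * e2 P (haar α) G Q k L m + vN7 P G Q k (L + 1) m := by
  have hcy1 : Cy (ES (haar α) G Q k L m) := cy_ES (haar_good α) G hQ k L m
  have hset : {z : (E ⊕ Unit → ℂ) × (Unit → PowerSeries ℂ) | z ∈ NS7 G Q k L m ∧
      ¬ PowerSeries.coeff L (z.2 ()) = 0} = LdS (ES (haar α) G Q k L m) () L := by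
    ext z
    have h1 : (∀ j < L, PowerSeries.coeff j (z.2 ()) = 0) →
        arcE (eval (fun _ : Unit => PowerSeries.coeff L (z.2 ())) (haar α).u) L
          (Function.update z.2 () (shl (L + 1) (z.2 ())) ()) = z.2 () := by
      intro h
      rw [Function.update_self]
      change arcE (eval (fun _ : Unit => PowerSeries.coeff L (z.2 ())) (X ())) L _ = _
      rw [eval_X]
      exact arcE_shl h
    have h2 : (fun e : E ⊕ Unit => (Sum.elim z.1 fun _ : Unit => PowerSeries.coeff L (z.2 ()))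
        (Sum.inl e)) = z.1 := rfl
    constructor
    · rintro ⟨⟨a1, a2, a3⟩, a4⟩
      refine ⟨a2, a1, a4, ?_⟩
      change Lead Q m z.1 (ev G k (z.1 (Sum.inr ()))
        (arcE (eval (fun _ : Unit => PowerSeries.coeff L (z.2 ())) (haar α).u) L
          (Function.update z.2 () (shl (L + 1) (z.2 ())) ())))
      rw [h1 a2]
      exact a3
    · rintro ⟨a2, a1, a4, a3⟩
      change Lead Q m z.1 (ev G k (z.1 (Sum.inr ()))
        (arcE (eval (fun _ : Unit => PowerSeries.coeff L (z.2 ())) (haar α).u) L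
          (Function.update z.2 () (shl (L + 1) (z.2 ())) ()))) at a3
      rw [h1 a2] at a3
      exact ⟨⟨a1, a2, a3⟩, a4⟩
  have hsplit : NS7 G Q k L m = {z : (E ⊕ Unit → ℂ) × (Unit → PowerSeries ℂ) |
      z ∈ NS7 G Q k L m ∧ ¬ PowerSeries.coeff L (z.2 ()) = 0} ∪ NS7 G Q k (L + 1) m := by
    ext z
    constructor
    · intro hz
      by_cases h0 : PowerSeries.coeff L (z.2 ()) = 0
      · right
        refine ⟨hz.1, fun j hj => ?_, hz.2.2⟩
        rcases Nat.lt_succ_iff_lt_or_eq.1 hj with h | h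
        · exact hz.2.1 j h
        · rw [h]
          exact h0
      · left
        exact ⟨hz, h0⟩
    · rintro (h | h)
      · exact h.1
      · exact ⟨h.1, fun j hj => h.2.1 j (Nat.lt_succ_of_lt hj), h.2.2⟩
  have hdis : Disjoint {z : (E ⊕ Unit → ℂ) × (Unit → PowerSeries ℂ) |
      z ∈ NS7 G Q k L m ∧ ¬ PowerSeries.coeff L (z.2 ()) = 0} (NS7 G Q k (L + 1) m) := by
    rw [Set.disjoint_left]
    rintro z ⟨_, h0⟩ h
    exact h0 (h.2.1 L (Nat.lt_succ_self L))
  have hvol : vol P.rat xq (NS7 G Q k L m) = vol P.rat xq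
      {z : (E ⊕ Unit → ℂ) × (Unit → PowerSeries ℂ) |
        z ∈ NS7 G Q k L m ∧ ¬ PowerSeries.coeff L (z.2 ()) = 0} +
      vol P.rat xq (NS7 G Q k (L + 1) m) := by
    conv_lhs => rw [hsplit]
    exact vol_uni P (Cy.and (cy_NS7 G hQ k L m) (Cy.not (Cy.zero (RF.arc () L))))
      (cy_NS7 G hQ k (L + 1) m) hdis
  unfold vN7
  rw [hvol, hset, vol_LdS P hcy1]
  rfl

end

end VL7

end Pool.Agent.Mono.BV
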