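import Pool.Agent.Work.Monodromy7.VL7
import Pool.Agent.Work.Monodromy6.CV

/-!
# Phase 7, volume part: substitution, leading coefficients of arcs (helper63)
-/

set_option autoImplicit false
set_option linter.unusedSectionVars false

namespace Pool.Agent.Mono.BV

open MvPolynomial TS RO RO.VGAux PC

namespace VL7

section

variable {E E' ι κ : Type}

/-- `w / t^n` -/
noncomputable def shl (n : ℕ) (w : PowerSeries ℂ) : PowerSeries ℂ :=
  PowerSeries.mk fun j => PowerSeries.coeff (n + j) w

theorem coeff_shl (n j : ℕ) (w : PowerSeries ℂ) :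
    PowerSeries.coeff j (shl n w) = PowerSeries.coeff (n + j) w := by
  rw [shl, PowerSeries.coeff_mk]

theorem shl_arcE (c : ℂ) (l : ℕ) (w : PowerSeries ℂ) : shl (l + 1) (arcE c l w) = w := by
  ext j
  rw [coeff_shl, coeff_arcE_gt]

theorem arcE_shl {l : ℕ} {w : PowerSeries ℂ} (h : ∀ j < l, PowerSeries.coeff j w = 0) :
    arcE (PowerSeries.coeff l w) l (shl (l + 1) w) = w := by
  ext j
  rcases lt_trichotomy j l with h1 | h1 | h1
  · rw [coeff_arcE_lt _ _ h1, h j h1]
  · rw [h1, coeff_arcE_self]
  · obtain ⟨i, rfl⟩ := Nat.exists_eq_add_of_le (show l + 1 ≤ j by omega)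
    rw [coeff_arcE_gt, coeff_shl]

/-- cylinders given by cylinders and arcs with regular coefficients -/
theorem cy_sub [Finite E'] [Fintype κ] {C : Set ((E' → ℂ) × (κ → PowerSeries ℂ))} (hC : Cy C)
    {φ : E' → (E → ℂ) × (ι → PowerSeries ℂ) → ℂ} (hφ : ∀ s, RF (φ s))
    {τ : κ → (E → ℂ) × (ι → PowerSeries ℂ) → PowerSeries ℂ}
    (hτ : ∀ i l, RF fun z => PowerSeries.coeff l (τ i z)) :
    Cy {z : (E → ℂ) × (ι → PowerSeries ℂ) | ((fun s => φ s z), fun i => τ i z) ∈ C} := by
  obtain ⟨N, hN⟩ := hC
  have h1 := hN N le_rfl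
  have h2 : {z : (E → ℂ) × (ι → PowerSeries ℂ) | ((fun s => φ s z), fun i => τ i z) ∈ C} =
      {z | (fun s => (Sum.elim φ (fun s z => PowerSeries.coeff (s.2 : ℕ) (τ s.1 z)) :
        E' ⊕ (Σ _ : κ, Fin N) → (E → ℂ) × (ι → PowerSeries ℂ) → ℂ) s z) ∈
          sec (fun _ => N) C} := by
    ext z
    have h3 := CV.trd_toArc (fun _ : κ => N) (fun s => (Sum.elim φ (fun s z =>
      PowerSeries.coeff (s.2 : ℕ) (τ s.1 z)) :
        E' ⊕ (Σ _ : κ, Fin N) → (E → ℂ) × (ι → PowerSeries ℂ) → ℂ) s z)
    refine CV.mem_trd h1 (z := ((fun s => φ s z), fun i => τ i z)) (Eq.trans ?_ h3.symm)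
    funext s
    rcases s with s | s <;> rfl
  rw [h2]
  refine Cy.mem h1.2 ?_
  rintro (s | s)
  · exact hφ s
  · exact hτ s.1 s.2

/-- parameter sets -/
theorem con_of_cy [Finite E] {R : Set (E → ℂ)}
    (h : Cy {z : (E → ℂ) × (Unit → PowerSeries ℂ) | z.1 ∈ R}) : Constructible R := by
  have h1 := O5Aux.con_sec h fun _ => 0
  have h2 : R = {p | (fun j => eval p (Sum.elim (fun e => X e) (fun _ => 0) j :
      MvPolynomial E ℂ)) ∈ sec (fun _ : Unit => 0)
        {z : (E → ℂ) × (Unit → PowerSeries ℂ) | z.1 ∈ R}} := by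
    ext p
    simp only [sec, Set.mem_ofPred_eq, Sum.elim_inl, eval_X]
  rw [h2]
  exact Constructible.preimage _ h1

variable [Finite E] [Fintype ι] (P : HodgeMeasure)

/-- arcs whose coordinate `i` has order `≥ l`; the coefficient `l` becomes a parameter -/
def LdS [DecidableEq ι] (C : Set ((E ⊕ Unit → ℂ) × (ι → PowerSeries ℂ))) (i : ι) (l : ℕ) :
    Set ((E → ℂ) × (ι → PowerSeries ℂ)) :=
  {z | (∀ j < l, PowerSeries.coeff j (z.2 i) = 0) ∧
    ((Sum.elim z.1 fun _ => PowerSeries.coeff l (z.2 i)),
      Function.update z.2 i (shl (l + 1) (z.2 i))) ∈ C}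

theorem cy_LdS [DecidableEq ι] {C : Set ((E ⊕ Unit → ℂ) × (ι → PowerSeries ℂ))} (hC : Cy C)
    (i : ι) (l : ℕ) : Cy (LdS C i l) := by
  refine Cy.and (Cy.all_lt l fun j _ => Cy.zero (RF.arc i j)) ?_
  have h := cy_sub (E := E) (ι := ι) hC (φ := Sum.elim (fun e z => z.1 e)
    fun _ z => PowerSeries.coeff l (z.2 i)) (τ := fun j z => Function.update z.2 i
      (shl (l + 1) (z.2 i)) j) ?_ ?_
  · have e : {z : (E → ℂ) × (ι → PowerSeries ℂ) | ((Sum.elim z.1 fun _ : Unit =>
        PowerSeries.coeff l (z.2 i)), Function.update z.2 i (shl (l + 1) (z.2 i))) ∈ C} =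
        {z : (E → ℂ) × (ι → PowerSeries ℂ) | ((fun s : E ⊕ Unit => (Sum.elim (fun e z => z.1 e)
          fun _ z => PowerSeries.coeff l (z.2 i) : E ⊕ Unit → (E → ℂ) × (ι → PowerSeries ℂ) → ℂ)
            s z), fun j => Function.update z.2 i (shl (l + 1) (z.2 i)) j) ∈ C} := by
      ext z
      have e1 : (Sum.elim z.1 fun _ : Unit => PowerSeries.coeff l (z.2 i)) =
          fun s : E ⊕ Unit => (Sum.elim (fun e z => z.1 e)
          fun _ z => PowerSeries.coeff l (z.2 i) : E ⊕ Unit → (E → ℂ) × (ι → PowerSeries ℂ) → ℂ)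
            s z := by
        funext s
        rcases s with s | s <;> rfl
      change _ ∈ C ↔ _ ∈ C
      rw [e1]
    rw [e]
    exact h
  · rintro (s | s)
    · exact RF.par s
    · exact RF.arc i l
  · intro j l'
    by_cases hj : j = i
    · subst hj
      simp only [Function.update_self, coeff_shl]
      exact RF.arc j _
    · simp only [Function.update_of_ne hj]
      exact RF.arc j _

/-- the leading coefficient as a parameter -/
theorem vol_LdS [DecidableEq ι] {C : Set ((E ⊕ Unit → ℂ) × (ι → PowerSeries ℂ))} (hC : Cy C)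
    (i : ι) (l : ℕ) : vol P.rat xq (LdS C i l) = xq ^ (l + 1) * vol P.rat xq C := by
  classical
  obtain ⟨N, hN⟩ := hC
  have hC1 := hN N le_rfl
  set K : ι → ℕ := fun j => if j = i then N + (l + 1) else N with hK
  have hKi : K i = N + (l + 1) := by simp [hK]
  have hKj : ∀ j, j ≠ i → K j = N := by
    intro j hj
    simp [hK, hj]
  have hS : IsCyl K (LdS C i l) := by
    refine ⟨fun p x y h => ?_, O5Aux.con_sec (cy_LdS ⟨N, hN⟩ i l) _⟩
    refine and_congr (forall_congr' fun j => forall_congr' fun hj => ?_) ?_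
    · have h1 := h i j (by rw [hKi]; omega)
      change PowerSeries.coeff j (x i) = 0 ↔ PowerSeries.coeff j (y i) = 0
      rw [h1]
    · have h1 := h i l (by rw [hKi]; omega)
      change ((Sum.elim p fun _ => PowerSeries.coeff l (x i)),
        Function.update x i (shl (l + 1) (x i))) ∈ C ↔
          ((Sum.elim p fun _ => PowerSeries.coeff l (y i)),
        Function.update y i (shl (l + 1) (y i))) ∈ C
      rw [h1]
      refine hC1.1 _ _ _ fun j l' hl' => ?_
      change l' < N at hl'
      by_cases hj : j = i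
      · subst hj
        rw [Function.update_self, Function.update_self, coeff_shl, coeff_shl]
        exact h j _ (by rw [hKi]; omega)
      · rw [Function.update_of_ne hj, Function.update_of_ne hj]
        exact h j _ (by rw [hKj j hj]; exact hl')
  have key := CV.vol_cvp P (K := K) (K' := fun _ => N) hS hC1
    (fun z => ((fun e => z.1 (Sum.inl e)),
      Function.update z.2 i (arcE (z.1 (Sum.inr ())) l (z.2 i))))
    (Sum.elim (fun e => X (Sum.inl (Sum.inl e))) fun s =>
      if s.1 = i then
        (if (s.2 : ℕ) = l then X (Sum.inl (Sum.inr ())) else 0) +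
          if h : l + 1 ≤ (s.2 : ℕ) ∧ (s.2 : ℕ) - (l + 1) < N then
            X (Sum.inr ⟨i, ⟨(s.2 : ℕ) - (l + 1), h.2⟩⟩) else 0
      else if h : (s.2 : ℕ) < N then X (Sum.inr ⟨s.1, ⟨(s.2 : ℕ), h⟩⟩) else 0) ?_ ?_ ?_ ?_
  · have hx : xq ≠ 0 := by
      rw [xq]
      exact inv_ne_zero RatFunc.X_ne_zero
    have hsum : ∑ j, K j = (∑ _ : ι, N) + (l + 1) := by
      have h1 : ∀ j, K j = N + if j = i then l + 1 else 0 := by
        intro j
        simp only [hK]
        split_ifs <;> rfl
      simp only [h1, Finset.sum_add_distrib, Finset.sum_ite_eq', Finset.mem_univ, if_true]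
    rw [hsum, pow_add] at key
    have h3 : vol P.rat xq (LdS C i l) * xq ^ (∑ _ : ι, N) =
        (xq ^ (l + 1) * vol P.rat xq C) * xq ^ (∑ _ : ι, N) := by
      rw [key]
      ring
    exact mul_right_cancel₀ (pow_ne_zero _ hx) h3
  · intro z hz
    funext s
    rcases s with s | ⟨j, q, hq⟩
    · simp only [CV.trd, Sum.elim_inl, eval_X]
    · simp only [CV.trd, Sum.elim_inr]
      by_cases hj : j = i
      · subst hj
        rw [hKi] at hq
        rw [Function.update_self, if_pos rfl, coeff_arcE, map_add]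
        congr 1
        · split_ifs <;> simp
        · by_cases h1 : l + 1 ≤ q
          · rw [if_pos h1, dif_pos ⟨h1, by omega⟩, eval_X]
            simp only [Sum.elim_inr]
          · rw [if_neg h1, dif_neg (fun h => h1 h.1), map_zero]
      · rw [hKj j hj] at hq
        rw [Function.update_of_ne hj, if_neg hj, dif_pos hq, eval_X]
        simp only [Sum.elim_inr]
  · intro z hz
    refine ⟨fun j hj => ?_, ?_⟩
    · simp only [Function.update_self]
      exact coeff_arcE_lt _ _ hj
    · simp only [Function.update_self, coeff_arcE_self, shl_arcE, Function.update_idem,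
        Function.update_eq_self]
      have e : (Sum.elim (fun e => z.1 (Sum.inl e)) fun _ => z.1 (Sum.inr ())) = z.1 := by
        funext s
        rcases s with s | s <;> rfl
      rw [e]
      exact hz
  · intro z hz z' hz' h
    funext s
    have h1 : ∀ j q, (hq : q < K j) → PowerSeries.coeff q (Function.update z.2 i
        (arcE (z.1 (Sum.inr ())) l (z.2 i)) j) = PowerSeries.coeff q (Function.update z'.2 i
        (arcE (z'.1 (Sum.inr ())) l (z'.2 i)) j) := fun j q hq =>
      congrFun h (Sum.inr ⟨j, ⟨q, hq⟩⟩)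
    rcases s with (s | s) | ⟨j, q, hq⟩
    · exact congrFun h (Sum.inl s)
    · have h2 := h1 i l (by rw [hKi]; omega)
      rw [Function.update_self, Function.update_self, coeff_arcE_self, coeff_arcE_self] at h2
      exact h2
    · simp only [CV.trd, Sum.elim_inr]
      by_cases hj : j = i
      · subst hj
        have h2 := h1 j (l + 1 + q) (by rw [hKi]; omega)
        rw [Function.update_self, Function.update_self, coeff_arcE_gt, coeff_arcE_gt] at h2
        exact h2
      · have h2 := h1 j q (by rw [hKj j hj]; exact hq)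
        rw [Function.update_of_ne hj, Function.update_of_ne hj] at h2
        exact h2
  · intro y hy
    refine ⟨((Sum.elim y.1 fun _ => PowerSeries.coeff l (y.2 i)),
      Function.update y.2 i (shl (l + 1) (y.2 i))), hy.2, ?_⟩
    simp only [Sum.elim_inl, Sum.elim_inr, Function.update_self, arcE_shl hy.1,
      Function.update_idem, Function.update_eq_self]

end

end VL7

end Pool.Agent.Mono.BV
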