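import Pool.Agent.Work.Monodromy7.VLH

/-!
# Phase 7, volume part: renaming of parameters and arcs (helper63)
-/

set_option autoImplicit false
set_option linter.unusedSectionVars false

namespace Pool.Agent.Mono.BV

open MvPolynomial TS RO RO.VGAux PC

namespace VL7

section

variable {E E' ι κ : Type}

/-- renaming of parameters and arcs -/
theorem vol_ren (P : HodgeMeasure) [Finite E] [Finite E'] [Fintype ι] [Fintype κ]
    {C : Set ((E → ℂ) × (ι → PowerSeries ℂ))} (hC : Cy C) (e : E ≃ E') (f : ι ≃ κ) :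
    vol P.rat xq {z : (E' → ℂ) × (κ → PowerSeries ℂ) |
      ((fun s => z.1 (e s)), fun i => z.2 (f i)) ∈ C} = vol P.rat xq C := by
  have hD : Cy {z : (E' → ℂ) × (κ → PowerSeries ℂ) |
      ((fun s => z.1 (e s)), fun i => z.2 (f i)) ∈ C} :=
    cy_sub hC (φ := fun s z => z.1 (e s)) (fun s => RF.par _)
      (τ := fun i z => z.2 (f i)) fun i l => RF.arc _ l
  obtain ⟨N, hN⟩ := hC
  obtain ⟨N', hN'⟩ := hD
  have h1 := hN (max N N') (le_max_left _ _)
  have h2 := hN' (max N N') (le_max_right _ _)
  have key := CV.vol_cvp P h1 h2 (fun z => ((fun s => z.1 (e s)), fun i => z.2 (f i)))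
    (Sum.elim (fun s => X (Sum.inl (e s))) fun s => X (Sum.inr ⟨f s.1, s.2⟩)) ?_ ?_ ?_ ?_
  · have hx : xq ≠ 0 := by
      rw [xq]
      exact inv_ne_zero RatFunc.X_ne_zero
    have hsum : ∑ _ : κ, max N N' = ∑ _ : ι, max N N' := by
      simp only [Finset.sum_const, Finset.card_univ, Fintype.card_congr f]
    rw [hsum] at key
    exact (mul_right_cancel₀ (pow_ne_zero _ hx) key).symm
  · intro z _
    funext s
    rcases s with s | s
    · simp only [CV.trd, Sum.elim_inl, eval_X]
    · simp only [CV.trd, Sum.elim_inr, eval_X]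
  · intro z hz
    exact hz
  · intro z _ z' _ h
    funext s
    rcases s with s | ⟨j, q⟩
    · have h3 := congrFun h (Sum.inl (e.symm s))
      simp only [CV.trd, Sum.elim_inl, Equiv.apply_symm_apply] at h3
      exact h3
    · have h3 := congrFun h (Sum.inr ⟨f.symm j, q⟩)
      simp only [CV.trd, Sum.elim_inr, Equiv.apply_symm_apply] at h3
      exact h3
  · intro y hy
    refine ⟨((fun s => y.1 (e.symm s)), fun i => y.2 (f.symm i)), ?_, ?_⟩
    · change ((fun s => y.1 (e.symm (e s))), fun i => y.2 (f.symm (f i))) ∈ C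
      simp only [Equiv.symm_apply_apply]
      exact hy
    · simp only [Equiv.symm_apply_apply]

end

end VL7

end Pool.Agent.Mono.BV
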